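import Mathlib

/-!
# S09083 (MP_5fb7d4_co): Nieuwland numbers of the regular icosahedron and dodecahedron

Exact statements of the pieces.  `φ = Real.goldenRatio`, `φ ^ 2 = φ + 1`, `1 / φ = φ - 1`,
`1 / φ ^ 2 = 2 - φ`.
-/

set_option autoImplicit false

namespace Pool.Agent.W2helper59.NW

open Matrix
open scoped goldenRatio

/-- vertices of the icosahedron, as in the frozen statement -/
def VI : Set (Fin 3 → ℝ) := {v | ∃ s t : ℝ, (s = 1 ∨ s = -1) ∧ (t = 1 ∨ t = -1) ∧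
  (v = ![0, s, t * φ] ∨ v = ![s, t * φ, 0] ∨ v = ![t * φ, 0, s])}

/-- vertices of the dodecahedron, as in the frozen statement -/
def VD : Set (Fin 3 → ℝ) := {v | ∃ r s t : ℝ, (r = 1 ∨ r = -1) ∧ (s = 1 ∨ s = -1) ∧
  (t = 1 ∨ t = -1) ∧ (v = ![r, s, t] ∨ v = ![0, s / φ, t * φ] ∨
    v = ![s / φ, t * φ, 0] ∨ v = ![t * φ, 0, s / φ])}

/-- the dodecahedron with the symmetry group of `VI`: swap the first two coordinates -/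
def VE : Set (Fin 3 → ℝ) := {v | ![v 1, v 0, v 2] ∈ VD}

/-- the set of scale factors of the frozen statement -/
def SC (V : Set (Fin 3 → ℝ)) : Set ℝ := {c : ℝ | 0 < c ∧
  ∃ A ∈ Matrix.specialOrthogonalGroup (Fin 3) ℝ,
  ∃ B ∈ Matrix.specialOrthogonalGroup (Fin 3) ℝ,
  ∃ w : Fin 2 → ℝ,
    (fun x : Fin 3 → ℝ => c • ![(A.mulVec x) 0, (A.mulVec x) 1] + w) '' convexHull ℝ V ⊆
      interior ((fun x : Fin 3 → ℝ => ![(B.mulVec x) 0, (B.mulVec x) 1]) '' convexHull ℝ V)}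

/-! ## A: from the frozen condition to support functions -/

/-- the scaled body fits weakly: for every `w ⊥ u`, `c h(R⁻¹ w) ≤ h(w)` -/
def PassLe (V : Set (Fin 3 → ℝ)) (c : ℝ) : Prop :=
  ∃ u : Fin 3 → ℝ, ∃ R ∈ Matrix.specialOrthogonalGroup (Fin 3) ℝ, u ≠ 0 ∧
    ∀ w : Fin 3 → ℝ, w ⬝ᵥ u = 0 → ∀ q ∈ V, ∃ v ∈ V, c * ((R.mulVec q) ⬝ᵥ w) ≤ v ⬝ᵥ w

/-- **PA**.  Proof: `u` = third row of `B`, `R = Bᵀ A`.  For `w ⊥ u`, `w = Bᵀ (w',0)`, `w' ∈ ℝ²`.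
For `q ∈ V` (`-q ∈ V` too) the points `c (Aq)' + t`, `- c (Aq)' + t` lie in the projection of
`convexHull V`; by `ConvexOn.exists_ge_of_mem_convexHull` (linear functional) there are `v₁ v₂ ∈ V`
with `⟨c(Aq)'+t, w'⟩ ≤ ⟨(B v₁)', w'⟩` and `⟨-c(Aq)'+t, -w'⟩ ≤ ⟨(B v₂)', -w'⟩`; add: `v = v₁` or
`v = -v₂` works.  `⟨(Aq)', w'⟩ = ⟨Aq, B w⟩ = ⟨R q, w⟩`. -/
def PA : Prop := ∀ V : Set (Fin 3 → ℝ), (∀ v ∈ V, -v ∈ V) → ∀ c ∈ SC V, PassLe V c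

/-- **PSw** (conjugate by the swap `P` of the first two coordinates: `R' = P R P ∈ SO(3)`). -/
def PSw : Prop := ∀ c, PassLe VD c → PassLe VE c

/-! ## C: symmetry reduction -/

/-- invariance under generators of the full icosahedral group: `x ↦ -x`, cyclic permutation,
reflection in the root `r = (-φ, -1, φ - 1) / 2` (a unit vector) -/
structure Sym (V : Set (Fin 3 → ℝ)) : Prop where
  fin : V.Finite
  sx : ∀ v ∈ V, ![-v 0, v 1, v 2] ∈ V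
  cyc : ∀ v ∈ V, ![v 1, v 2, v 0] ∈ V
  s3 : ∀ v ∈ V, v - ((-φ * v 0 - v 1 + (φ - 1) * v 2) / 2) • ![-φ, -1, φ - 1] ∈ V

def SymI : Prop := Sym VI
def SymE : Prop := Sym VE

/-- `(1 + x² + y² + z²) R(1,x,y,z) q`, where `R(1,x,y,z)` is the rotation of the quaternion
`1 + x i + y j + z k` -/
def RQ (x y z : ℝ) (q : Fin 3 → ℝ) : Fin 3 → ℝ :=
  ![(1 + x^2 - y^2 - z^2) * q 0 + 2 * (x * y - z) * q 1 + 2 * (x * z + y) * q 2,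
    2 * (x * y + z) * q 0 + (1 - x^2 + y^2 - z^2) * q 1 + 2 * (y * z - x) * q 2,
    2 * (x * z - y) * q 0 + 2 * (y * z + x) * q 1 + (1 - x^2 - y^2 + z^2) * q 2]

/-- `PassLe` at `u = (s,t,1)`, `R = R(1,x,y,z)` -/
def PassQ (V : Set (Fin 3 → ℝ)) (c s t x y z : ℝ) : Prop :=
  ∀ w : Fin 3 → ℝ, w 0 * s + w 1 * t + w 2 = 0 → ∀ q ∈ V, ∃ v ∈ V,
    c * (RQ x y z q ⬝ᵥ w) ≤ (1 + x^2 + y^2 + z^2) * (v ⬝ᵥ w)

/-- the dodecahedral cell: Dirichlet cell of the rotation group of the icosahedron in the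
coordinates `(x,y,z)` -/
def DC (x y z : ℝ) : Prop :=
  |y + φ * z| ≤ φ - 1 ∧ |y - φ * z| ≤ φ - 1 ∧ |z + φ * x| ≤ φ - 1 ∧ |z - φ * x| ≤ φ - 1 ∧
    |x + φ * y| ≤ φ - 1 ∧ |x - φ * y| ≤ φ - 1

/-- every rotation with trace `> -1` is `R(1,x,y,z)` (Cayley); `x = (R 2 1 - R 1 2)/(1 + tr R)`,
`y = (R 0 2 - R 2 0)/(1 + tr)`, `z = (R 1 0 - R 0 1)/(1 + tr)`, `1+x²+y²+z² = 4/(1 + tr)` -/
def PC0 : Prop := ∀ R ∈ Matrix.specialOrthogonalGroup (Fin 3) ℝ, -1 < R.trace →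
  ∃ x y z : ℝ, (∀ q, RQ x y z q = (1 + x^2 + y^2 + z^2) • R.mulVec q) ∧
    R.trace = 4 / (1 + x^2 + y^2 + z^2) - 1

/-- **PC1** (direction).  `G = {g ∈ O(3) | ∀ v ∈ V, g v ∈ V ∧ gᵀ v ∈ V}` is compact (closed and
bounded, `V` finite).  Choose `g ∈ G` maximising `⟨g u, (1/10,1/10,1)⟩`; the three wall reflections
(roots `(1,0,0)`, `(0,1,0)`, `(-φ,-1,φ-1)/2`) are in `G`, so `g u` has nonnegative product with the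
three roots (`(-φ,-1,φ-1)·u ≥ 0` iff `φ² u₀ + φ u₁ ≤ u₂`), hence `u₂ > 0`; scale.
Replace `(u,R)` by `(g u, g R gᵀ)`. -/
def PC1 : Prop := ∀ V, Sym V → ∀ c, PassLe V c →
  ∃ s t : ℝ, 0 ≤ s ∧ 0 ≤ t ∧ φ ^ 2 * s + φ * t ≤ 1 ∧
    ∃ R ∈ Matrix.specialOrthogonalGroup (Fin 3) ℝ, ∀ w : Fin 3 → ℝ,
      w 0 * s + w 1 * t + w 2 = 0 → ∀ q ∈ V, ∃ v ∈ V, c * ((R.mulVec q) ⬝ᵥ w) ≤ v ⬝ᵥ w

/-- **PC2** (rotation; may assume PC0).  Choose `h ∈ G ∩ SO(3)` maximising `tr (R h)`; the maximum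
is `≥ 0` because `I + Rx(π) + Ry(π) + Rz(π) = 0`.  For the rotations by `±72°` about the six axes
`(0,1,±φ)` and cyclic (products of two reflections of `G`), `tr (R h) ≤ tr R` gives `DC`:
for unit quaternions `p = (w, v)`, `tr = 4 w² - 1`, and
`w cos 36° - ⟨v,n⟩ sin 36° ≤ w` for `h` of angle `72°` about `n` (unit), `tan 18° √(φ+2) = φ - 1`.
(`cos 72° = (φ - 1)/2`, `cos 36° = φ / 2`.) -/
def PC2 : Prop := ∀ V, Sym V → ∀ c s t : ℝ, ∀ R ∈ Matrix.specialOrthogonalGroup (Fin 3) ℝ,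
  (∀ w : Fin 3 → ℝ, w 0 * s + w 1 * t + w 2 = 0 → ∀ q ∈ V, ∃ v ∈ V,
    c * ((R.mulVec q) ⬝ᵥ w) ≤ v ⬝ᵥ w) →
  ∃ x y z : ℝ, DC x y z ∧ PassQ V c s t x y z

/-- mirror images -/
def PM : Prop := (∀ c s t x y z, PassQ VI c s t x y z → PassQ VI c s (-t) (-x) y (-z)) ∧
  (∀ c s t x y z, PassQ VE c s t x y z → PassQ VE c (-s) t x (-y) (-z))

/-! ## D: the global certificate -/

/-- rational constant just below the Nieuwland number -/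
noncomputable def c0 : ℝ := 10108230607528 / 10 ^ 13

/-- neighbourhood of the optimum for the icosahedron (`σ = 1`) and of its mirror image (`σ = -1`) -/
def NrI (σ s t x y z : ℝ) : Prop := |s - 272896858/10^9| ≤ 1/10^5 ∧ |t| ≤ 1/10^5 ∧
  |x - σ * (181479772/10^9)| ≤ 1/10^5 ∧ |y - 133998419/10^9| ≤ 1/10^5 ∧
  |z + σ * (24318003/10^9)| ≤ 1/10^5

/-- neighbourhood of the optimum for the dodecahedron -/
def NrE (σ s t x y z : ℝ) : Prop := |s| ≤ 1/10^5 ∧ |t - 375320697/10^9| ≤ 1/10^5 ∧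
  |x + 181479772/10^9| ≤ 1/10^5 ∧ |y + σ * (133998419/10^9)| ≤ 1/10^5 ∧
  |z - σ * (24318003/10^9)| ≤ 1/10^5

def GlobI : Prop := ∀ c s t x y z : ℝ, c0 ≤ c → 0 ≤ s → 0 ≤ t → φ ^ 2 * s + φ * t ≤ 1 →
  DC x y z → PassQ VI c s t x y z → NrI 1 s t x y z ∨ NrI (-1) s t x y z

def GlobE : Prop := ∀ c s t x y z : ℝ, c0 ≤ c → 0 ≤ s → 0 ≤ t → φ ^ 2 * s + φ * t ≤ 1 →
  DC x y z → PassQ VE c s t x y z → NrE 1 s t x y z ∨ NrE (-1) s t x y z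

/-! ## F: the optimum -/

/-- the optimal data: `A = cos a`, `B = sin a`, `p = cos b`, `q = sin b`, `c` = Nieuwland number.
Closed forms: `4 r² = r + φ`, `K² (1 + r²) = φ + 2`, `p = K (1 + φ r)/(φ + 2)`,
`q = K (φ - r)/(φ + 2)`, `A = (φ³ + r)/((2φ² - r) r K)`, `B = φ (φ - r)/((2φ² - r) r K)`,
`c = φ² (φ + 2)²/((2φ² - r) K (1 + 2 φ² r))`. -/
structure Opt (A B p q c : ℝ) : Prop where
  AB : A ^ 2 + B ^ 2 = 1
  pq : p ^ 2 + q ^ 2 = 1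
  i1 : φ * (φ * A + B) = c * (φ ^ 2 + ((φ - 1) * A + B) * q)
  i2 : φ * (φ * A + B) = c * (φ * (1 + ((φ - 1) * A + B) * p))
  i3 : (φ * q + p) * (A - φ * B) = c * (A - (φ - 1) * B)
  d1 : p + φ * q = c * (φ * A * ((2 - φ) * p + q) + (2 - φ))
  d2 : p + φ * q = c * ((A + B) * ((2 - φ) * p + q) + (φ - 1))
  d3 : q * (A - B) = p * B
  d4 : (p + φ * q) * (φ * p - q) = c * (p - (2 - φ) * q) * (p * (φ * A) + φ * q * (A + B))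
  nA : |A - 9647222792876086 / 10 ^ 16| ≤ 1 / 10 ^ 14
  nB : |B - 2632696789342089 / 10 ^ 16| ≤ 1 / 10 ^ 14
  np : |p - 9362304294341269 / 10 ^ 16| ≤ 1 / 10 ^ 14
  nq : |q - 3513866574040487 / 10 ^ 16| ≤ 1 / 10 ^ 14
  nc : |c - 10108230607529006 / 10 ^ 16| ≤ 1 / 10 ^ 14

/-- **PF** -/
def PF : Prop := ∃ A B p q c : ℝ, Opt A B p q c ∧
  2025 * c ^ 8 - 11970 * c ^ 6 + 17009 * c ^ 4 - 9000 * c ^ 2 + 2000 = 0

/-- enclosure of the golden ratio -/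
def PF0 : Prop := |φ - 16180339887498949 / 10 ^ 16| ≤ 1 / 10 ^ 15

/-! ## E: the local theorem

Frame coordinates: `u = (ξ,η,1)`, rotation `R(1,α,β,γ)`, point `P` and direction `D` of an edge of
the outer body, vertex `Q` of the inner body:
`G3 = (ξ,η,1) · ((n P - c R~Q) × D)`, `n = 1 + α² + β² + γ²`. -/
def G3 (c ξ η α β γ P1 P2 P3 D1 D2 D3 Q1 Q2 Q3 : ℝ) : ℝ :=
  let n := 1 + α^2 + β^2 + γ^2
  let y1 := n * P1 - c * ((1 + α^2 - β^2 - γ^2) * Q1 + 2 * (α * β - γ) * Q2 + 2 * (α * γ + β) * Q3)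
  let y2 := n * P2 - c * (2 * (α * β + γ) * Q1 + (1 - α^2 + β^2 - γ^2) * Q2 + 2 * (β * γ - α) * Q3)
  let y3 := n * P3 - c * (2 * (α * γ - β) * Q1 + 2 * (β * γ + α) * Q2 + (1 - α^2 - β^2 + γ^2) * Q3)
  ξ * (y2 * D3 - y3 * D2) + η * (y3 * D1 - y1 * D3) + (y1 * D2 - y2 * D1)

/-- the four active constraints of the icosahedron in frame coordinates -/
def ActI (A B p q c ξ η α β γ : ℝ) : Prop :=
  0 < G3 c ξ η α β γ (φ*A+B) 0 (φ*B-A) (-((φ-1)*A+B)) φ (A-(φ-1)*B) φ q (-p) ∧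
  0 < G3 c ξ η α β γ (φ*A+B) 0 (φ*B-A) (-((φ-1)*A+B)) φ (A-(φ-1)*B) 1 (φ*p) (φ*q) ∧
  0 < G3 c ξ η α β γ (φ*A+B) 0 (φ*B-A) ((φ-1)*A+B) φ (-(A-(φ-1)*B)) φ (-q) p ∧
  0 < G3 c ξ η α β γ (φ*A+B) 0 (φ*B-A) ((φ-1)*A+B) φ (-(A-(φ-1)*B)) 1 (-(φ*p)) (-(φ*q))

/-- the four active constraints of the dodecahedron in frame coordinates -/
def ActE (A B p q c ξ η α β γ : ℝ) : Prop :=
  0 < G3 c ξ η α β γ φ ((φ-1)*p) ((φ-1)*q) (1-φ) ((2-φ)*p+q) ((2-φ)*q-p)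
      (φ*A) (φ-1) (φ*B) ∧
  0 < G3 c ξ η α β γ φ ((φ-1)*p) ((φ-1)*q) (1-φ) ((2-φ)*p+q) ((2-φ)*q-p)
      (A+B) 1 (B-A) ∧
  0 < G3 c ξ η α β γ φ (-((φ-1)*p)) (-((φ-1)*q)) (φ-1) ((2-φ)*p+q) ((2-φ)*q-p)
      (φ*A) (-(φ-1)) (φ*B) ∧
  0 < G3 c ξ η α β γ φ (-((φ-1)*p)) (-((φ-1)*q)) (φ-1) ((2-φ)*p+q) ((2-φ)*q-p)
      (A+B) (-1) (B-A)

/-- **LI** (local inequality, icosahedron).  At `0` the four `G3` vanish (`i1`, `i2`).  Let `Lⱼ` be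
their linear parts, `λ = (φq, p, φq, p)/(2(φq+p)) ≈ (.188916, .311084, .188916, .311084)`;
`Σ λⱼ Lⱼ = 0` (from `i1 i2 i3`, `A²+B²=1`, `p²+q²=1`).  In the order `(ξ,η,α,β,γ)`:
`L1 = (-.94441,-.50167,-1.6268,3.0625,-1.66209)`, `L2 = (.57352,.30466,.98793,-1.8598,3.21762)`,
`L3 = (2.11809,-1.12513,-1.6268,-3.0625,1.66209)`, `L4 = (-1.28627,.68327,.98793,1.8598,-3.21762)`;
quadratic part of `Σ λⱼ G3ⱼ`: `4.0349 (β² - ξβ) + 1.8684 (α² + ηα) + 5.9033 γ² - 1.7434 ηγ`.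
`-(that) + 4 Σ Lⱼ²` is positive definite (least eigenvalue `0.258`; use a rational `LDLᵀ`).
So with `μⱼ = λⱼ - 4 Lⱼ(d) > 0` one gets `Σ μⱼ G3ⱼ ≤ -0.2 |d|² + 5000 · (2/10^5) |d|² ≤ 0`
(cubic and quartic terms: crude bound, absolute coefficient sum `≤ 4700`); contradiction
(`d = 0`: all `G3ⱼ = 0`). -/
def LI : Prop := ∀ A B p q c, Opt A B p q c → ∀ ξ η α β γ : ℝ, |ξ| ≤ 2/10^5 → |η| ≤ 2/10^5 →
  |α| ≤ 2/10^5 → |β| ≤ 2/10^5 → |γ| ≤ 2/10^5 → ¬ ActI A B p q c ξ η α β γ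

/-- **LE** (local inequality, dodecahedron).  Same with `λ = (p, φq, p, φq)/(2(p+φq)) ≈
(.311084,.188916,.311084,.188916)`, constants vanish by `d1`, `d2`; `Σ λⱼ Lⱼ = 0` from
`d1 … d4`; `L1 = (.18829,.16413,.53224,-.61057,-1.06448)`,
`L2 = (-.31005,-.27027,-.87643,1.00542,-.10097)`, `L3 = (.42228,-.36811,-.53224,-.61057,1.06448)`,
`L4 = (-.69537,.60616,.87643,1.00542,.10097)`; quadratic part of `Σ λⱼ G3ⱼ`:
`2.0571 (β² - ξβ) + 2.3270 ξγ + .9525 (α² + ηα) + 3.0096 γ²`.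
`-(that) + 8 Σ Lⱼ²` has least eigenvalue `0.1309`; `μⱼ = λⱼ - 8 Lⱼ`. -/
def LE : Prop := ∀ A B p q c, Opt A B p q c → ∀ ξ η α β γ : ℝ, |ξ| ≤ 2/10^5 → |η| ≤ 2/10^5 →
  |α| ≤ 2/10^5 → |β| ≤ 2/10^5 → |γ| ≤ 2/10^5 → ¬ ActE A B p q c ξ η α β γ

def LocI : Prop := ∀ A B p q ν c s t x y z : ℝ, Opt A B p q ν → ν < c → NrI 1 s t x y z →
  ¬ PassQ VI c s t x y z

def LocE : Prop := ∀ A B p q ν c s t x y z : ℝ, Opt A B p q ν → ν < c → NrE 1 s t x y z →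
  ¬ PassQ VE c s t x y z

/-- **LIred**.  `u = (s,t,1) ∝ Ry (ξ,η,1)`, `Ry = !![A,0,B; 0,1,0; -B,0,A]`:
`ξ = (A s - B)/(B s + A)`, `η = t/(B s + A)`; `(1,x,y,z) ∝ qa (1,α,β,γ) qb` (quaternions),
`qa = (1+A, 0, B, 0)`, `qb = (1+p, q, 0, 0)`, so `R(1,x,y,z) = Ry R(1,α,β,γ) Rx`,
`Rx = !![1,0,0; 0,p,-q; 0,q,p]`.  Edges (`a`, `d = b - a`, inner vertex): `a = (φ,0,-1)`:
`d = (1,φ,0) - a`, inner `(φ,0,-1)`, `(1,φ,0)`; and `d = a - (1,-φ,0)`, inner `(φ,0,1)`, `(1,-φ,0)`.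
For `w = d × u` all `v ∈ VI` have `v ⬝ w ≤ a ⬝ w` (numerical, `u` is near the centre), so `PassQ`
gives `c (RQ q ⬝ w) ≤ n (a ⬝ w)`; as `a ⬝ w > 0` and `ν < c` also `ν (RQ q ⬝ w) < n (a ⬝ w)`, which
is the constraint `0 < G3 ν …` up to a positive factor (`P = Ryᵀ a`, `D = Ryᵀ d`, `Q = Rx q`). -/
def LIred : Prop := LI → LocI

/-- **LEred**.  Same with `u ∝ Rxᵀ (ξ,η,1)`: `ξ = s/(q t + p)`, `η = (t p - q)/(q t + p)`,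
`(1,x,y,z) ∝ (1+p,-q,0,0) (1,α,β,γ) (1+A,0,-B,0)`, `R(1,x,y,z) = Rxᵀ R(1,α,β,γ) Ryᵀ`; edges
`a = (φ,φ-1,0)`, `d = (1,1,-1) - a`, inner `(φ,φ-1,0)`, `(1,1,-1)`; `a = (φ,1-φ,0)`,
`d = a - (1,-1,1)`, inner `(φ,1-φ,0)`, `(1,-1,-1)`; `P = Rx a`, `D = Rx d`, `Q = Ryᵀ q`. -/
def LEred : Prop := LE → LocE

/-! ## B: the lower bounds -/

/-- **LowI**.  Outer matrix rows `(A,0,-B),(0,1,0),(B,0,A)`, inner matrix rows
`(1,0,0),(0,p,-q),(0,q,p)`, `w = 0`.  Outer shadow: hexagon `(±(φA+B),0)`, `(±A,±φ)`; inner points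
`(±φ,±q)`, `(±1,±φp)`, `(0,±p±φq)`.  The open hexagon `{|x|,|y|: |y| < φ,
φ|x| + ((φ-1)A+B)|y| < φ(φA+B)}` is contained in the shadow (hence in its interior), and it
contains `c` times the inner points for `c < ν` (at `ν` equality holds by `i1`, `i2`, else strict).
-/
def LowI : Prop := ∀ A B p q ν : ℝ, Opt A B p q ν → ∀ c, 0 < c → c < ν → c ∈ SC VI

/-- **LowD** (frozen coordinates).  Outer rows `(0,1,0),(p,0,-q),(-q,0,-p)`, inner rows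
`(0,A,-B),(1,0,0),(0,-B,-A)`.  Outer shadow: decagon with vertices `(±φ,±(φ-1)p)`,
`(±1,±(p+q))`, `(0,±(φp+(φ-1)q))`; inner points `(±φA,±(φ-1))`, `(±(A+B),±1)`, `(±(A-B),±1)`,
`(±((φ-1)A±φB),0)`, `(±(φ-1)B,±φ)`. -/
def LowD : Prop := ∀ A B p q ν : ℝ, Opt A B p q ν → ∀ c, 0 < c → c < ν → c ∈ SC VD

end Pool.Agent.W2helper59.NW
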