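import Pool.Agent.W2helper59.NW.Glob
import Pool.Agent.W2helper55.NW.PA
import Pool.Agent.W2helper55.NW.LowI
import Pool.Agent.W2helper17.NW.LowD
import Pool.Agent.W2helper89.NW.PF
import Pool.Agent.W2helper89.NW.Sy
import Pool.Agent.W2helper71.NW.PC2
import Pool.Agent.W2helper93.NW.PC1
import Pool.Agent.W2helper1.NW.LI3
import Pool.Agent.W2helper54.NW.LE
import Pool.Agent.W2helper76.NW.LIr
import Pool.Agent.W2helper76.NW.LEr

/-!
# S09083: the supremum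
-/

set_option autoImplicit false

namespace Pool.Agent.W2helper59.NW

open scoped goldenRatio

/-- reduction to the fundamental domain -/
lemma toQ {V : Set (Fin 3 → ℝ)} (hS : Sym V) {c : ℝ} (h : PassLe V c) :
    ∃ s t x y z : ℝ, 0 ≤ s ∧ 0 ≤ t ∧ φ ^ 2 * s + φ * t ≤ 1 ∧ DC x y z ∧ PassQ V c s t x y z := by
  obtain ⟨s, t, hs, ht, hT, R, hR, h1⟩ := Pool.Agent.W2helper93.NW.pc1 V hS c h
  obtain ⟨x, y, z, hD, hP⟩ := Pool.Agent.W2helper71.NW.pc2 V hS c s t R hR h1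
  exact ⟨s, t, x, y, z, hs, ht, hT, hD, hP⟩

lemma c0_lt {A B p q ν : ℝ} (h : Opt A B p q ν) : c0 ≤ ν := by
  have := (abs_le.1 h.nc).1
  unfold c0
  linarith

theorem upI (h1 : G1) (h2 : G2) (h3 : G3V) {A B p q ν : ℝ} (h : Opt A B p q ν) :
    ∀ c ∈ SC VI, c ≤ ν := by
  intro c hc
  by_contra hlt
  rw [not_le] at hlt
  obtain ⟨s, t, x, y, z, hs, ht, hT, hD, hP⟩ :=
    toQ symI (Pool.Agent.W2helper55.NW.pa VI h3.2.2.2.2.1 c hc)
  have hL : LocI := Pool.Agent.W2helper76.NW.lired pf0 Pool.Agent.W2helper1.NW.li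
  rcases globI h1 h2 h3 c s t x y z (le_trans (c0_lt h) hlt.le) hs ht hT hD hP with hN | hN
  · exact hL A B p q ν c s t x y z h hlt hN hP
  · refine hL A B p q ν c s (-t) (-x) y (-z) h hlt ?_ (pm.1 c s t x y z hP)
    obtain ⟨n1, n2, n3, n4, n5⟩ := hN
    refine ⟨n1, by rwa [abs_neg], ?_, n4, ?_⟩
    · rw [← abs_neg]
      convert n3 using 2
      ring
    · rw [← abs_neg]
      convert n5 using 2
      ring

theorem upD (h1 : G1) (h2 : G2) (h3 : G3V) {A B p q ν : ℝ} (h : Opt A B p q ν) :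
    ∀ c ∈ SC VD, c ≤ ν := by
  intro c hc
  by_contra hlt
  rw [not_le] at hlt
  obtain ⟨s, t, x, y, z, hs, ht, hT, hD, hP⟩ :=
    toQ symE (Pool.Agent.W2helper55.NW.psw c (Pool.Agent.W2helper55.NW.pa VD h3.2.2.2.2.2.2 c hc))
  have hL : LocE := Pool.Agent.W2helper76.NW.lered pf0 Pool.Agent.W2helper54.NW.le
  rcases globE h1 h2 h3 c s t x y z (le_trans (c0_lt h) hlt.le) hs ht hT hD hP with hN | hN
  · exact hL A B p q ν c s t x y z h hlt hN hP
  · refine hL A B p q ν c (-s) t x (-y) (-z) h hlt ?_ (pm.2 c s t x y z hP)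
    obtain ⟨n1, n2, n3, n4, n5⟩ := hN
    refine ⟨by rwa [abs_neg], n2, n3, ?_, ?_⟩
    · rw [← abs_neg]
      convert n4 using 2
      ring
    · rw [← abs_neg]
      convert n5 using 2
      ring

lemma sup_eq {V : Set (Fin 3 → ℝ)} {ν : ℝ} (hν : 0 < ν) (hu : ∀ c ∈ SC V, c ≤ ν)
    (hl : ∀ c, 0 < c → c < ν → c ∈ SC V) : sSup (SC V) = ν := by
  refine csSup_eq_of_forall_le_of_forall_lt_exists_gt
    ⟨ν / 2, hl _ (by linarith) (by linarith)⟩ hu fun w hw => ?_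
  refine ⟨(max w 0 + ν) / 2, hl _ ?_ ?_, ?_⟩
  · have := le_max_right w 0; linarith
  · have : max w 0 < ν := max_lt hw hν
    linarith
  · have := le_max_left w 0; linarith

/-- the main theorem -/
theorem main (h1 : G1) (h2 : G2) (h3 : G3V) : ∃ ν : ℝ, sSup (SC VI) = ν ∧ sSup (SC VD) = ν ∧
    2025 * ν ^ 8 - 11970 * ν ^ 6 + 17009 * ν ^ 4 - 9000 * ν ^ 2 + 2000 = 0 ∧
    1.01 < ν ∧ ν < 1.011 := by
  obtain ⟨A, B, p, q, ν, h, hP⟩ := pf
  have hn := abs_le.1 h.nc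
  have hν : 0 < ν := by linarith [hn.1]
  refine ⟨ν, sup_eq hν (upI h1 h2 h3 h) (Pool.Agent.W2helper55.NW.lowI A B p q ν h),
    sup_eq hν (upD h1 h2 h3 h) (Pool.Agent.W2helper17.NW.t_LowD A B p q ν h), hP, ?_, ?_⟩
  · have := hn.1; norm_num at this ⊢; linarith
  · have := hn.2; norm_num at this ⊢; linarith

end Pool.Agent.W2helper59.NW
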