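import Pool.Agent.W2helper59.NW.D_E0

set_option autoImplicit false
set_option maxRecDepth 1000000

namespace Pool.Agent.W2helper59.NW.E0

open Tr

def c0 : Cell := ⟨⟨1,0,0⟩, ⟨0,1,0⟩, ⟨0,0,1⟩, ⟨1,1,0,0⟩, ⟨0,1,0,0⟩, ⟨0,0,1,0⟩, ⟨0,0,0,1⟩⟩

def t0 : Tr :=
  P3 1 1 (P5 1 1 (P2 1 2 (P4 1 2 (P5 1 2 (P2 1 4 (O 7) (F [(9,231),(6,83),(20,256)])) (F [(9,256),(6,110),(20,140)])) (P0 1 2 (P3 1 1 (P1 1 4 (P3 1 2 (F [(31,203),(6,125),(9,27),(17,256),(20,100)]) (P4 1 1 (F [(6,113),(31,61),(4,108),(17,245),(2,256)]) (O 9))) (P4 1 1 (P2 1 2 (P5 1 4 (P4 1 2 (F [(6,256),(26,73),(20,117),(22,42)]) (F [(6,147),(13,1),(4,8),(28,256),(2,87),(22,153),(17,38)])) (F [(6,97),(15,256),(28,2),(31,64),(17,112),(22,104)])) (F [(13,254),(15,109),(6,147),(28,256),(34,139)])) (F [(13,108),(28,256),(6,3)]))) (P4 2 1 (P5 1 1 (P2 1 2 (P4 1 2 (P5 1 2 (F [(13,35),(4,256),(26,28),(20,4),(31,3),(2,87),(17,41)])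 (F [(13,22),(4,256),(28,156),(34,6),(31,14),(2,100),(22,86)])) (F [(13,256),(34,219),(22,65)])) (F [(13,256),(34,219),(22,65)])) (F [(13,241),(34,256)])) (P0 1 4 (P3 2 1 (F [(13,208),(34,256),(21,234)]) (O 2)) (F [(13,256),(34,114),(21,241)])))) (P1 1 2 (P3 1 4 (F [(6,157),(31,256),(9,10),(17,142),(20,173)]) (P0 1 1 (P4 1 2 (F [(6,90),(4,256),(20,32),(22,3)]) (F [(13,256),(6,229)])) (F [(6,256),(31,156),(20,195)]))) (P0 2 1 (P3 1 1 (F [(6,256),(20,177)]) (P4 1 2 (F [(6,256),(26,125),(20,90),(22,61)]) (F [(13,256),(6,114),(37,17)]))) (F [(6,256),(20,252)]))))) (P1 1 1 (P4 2 1 (P5 2 1 (P4 1 2 (F [(6,256),(23,82)]) (P3 1 1 (F [(6,256),(37,135),(23,158)]) (F [(13,256),(6,19),(37,86),(23,62)]))) (P3 1 4 (F [(6,97),(23,256),(24,5)]) (P4 1 1 (F [(6,256),(23,223)]) (F [(13,256),(6,176),(23,32)])))) (P3 1 1 (P5 4 1 (F [(13,165),(28,256),(34,1),(6,42)])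 (P1 1 2 (F [(31,256),(13,54),(4,7)]) (F [(6,51),(15,256),(13,15),(28,199),(24,45)]))) (P0 1 2 (P4 4 1 (F [(13,256),(34,123),(21,173)]) (P3 2 1 (F [(13,212),(34,256),(21,205)]) (P0 1 4 (O 0) (F [(34,256),(13,210)])))) (F [(13,228),(24,256)])))) (P4 2 1 (P2 2 1 (P4 1 2 (P5 1 1 (F [(37,256),(11,162)]) (F [(37,55),(26,256),(18,145)])) (P0 1 1 (F [(32,212),(13,77),(37,256),(24,26)]) (F [(37,47),(26,256),(18,128)]))) (P0 4 1 (P4 1 1 (P5 2 1 (F [(5,66),(32,68),(26,256),(18,61)]) (F [(32,256),(37,53),(24,68),(11,4),(23,25)])) (F [(32,256),(24,131),(5,2)])) (P1 2 1 (P5 2 1 (F [(5,56),(32,66),(18,256),(11,15)]) (F [(32,256),(5,2),(24,12),(23,75)])) (F [(5,256),(11,8)])))) (P0 1 1 (P3 2 1 (F [(12,22),(32,237),(13,30),(3,36),(24,256)]) (P4 4 1 (F [(12,256),(34,116),(32,174),(21,213)]) (P0 1 2 (P3 4 1 (F [(34,256),(12,117)]) (O 0)) (F [(12,256),(34,176),(21,211)]))))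 (F [(32,244),(24,256)]))))) (P1 1 2 (P3 1 2 (P5 2 1 (P2 1 2 (O 6) (P1 1 1 (O 6) (F [(13,256),(7,19)]))) (O 0)) (P4 1 1 (P2 1 2 (O 9) (F [(13,256),(7,19)])) (P0 1 2 (F [(7,256),(29,56),(34,136),(35,62)]) (F [(13,256),(7,59)])))) (P2 1 1 (P4 1 1 (P5 1 2 (P2 1 2 (F [(31,256),(13,54),(4,7)]) (F [(13,15),(6,51),(15,256),(28,199),(24,45)])) (F [(13,256),(24,110),(12,4)])) (P0 1 2 (P3 2 1 (F [(13,49),(34,256),(12,10)]) (P4 2 1 (F [(13,49),(34,256),(12,10)]) (P0 1 4 (O 0) (F [(34,256),(13,210)])))) (F [(13,256),(24,110),(12,4)]))) (P0 1 1 (P4 2 1 (P1 1 1 (F [(12,40),(13,256),(24,210),(28,150),(3,114)]) (F [(12,13),(24,256),(3,23),(28,77)])) (P0 1 2 (P3 2 1 (F [(34,256),(12,117)]) (P4 4 1 (F [(34,256),(12,117)]) (O 0))) (F [(12,256),(34,249),(21,93)]))) (P1 2 1 (P3 1 1 (F [(12,24),(28,256),(24,134),(3,60),(13,50)]) (F [(12,13),(24,256),(3,23),(28,77)]))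 (F [(32,61),(24,256),(34,1)])))))) (P4 1 1 (P2 1 2 (P5 1 2 (P4 1 2 (P2 1 4 (O 7) (F [(9,68),(36,199),(6,149),(30,256),(20,155)])) (P0 1 2 (O 7) (P1 1 1 (O 7) (O 3)))) (P1 1 2 (P3 1 1 (P5 2 1 (P4 1 1 (P2 1 2 (P5 1 2 (F [(13,41),(4,256),(22,8),(20,11),(17,22)]) (F [(13,256),(22,96)])) (F [(13,256)])) (F [(13,256),(32,4),(21,11)])) (P1 1 4 (O 2) (F [(13,256),(21,81),(34,14)]))) (P0 1 4 (P3 2 1 (P5 1 1 (O 7) (F [(13,256),(32,227),(22,120)])) (O 7)) (P5 1 1 (P2 1 2 (F [(13,6),(26,132),(6,256),(22,229)]) (F [(13,256)])) (F [(13,256),(32,93),(22,39)])))) (P1 2 1 (P3 4 1 (P5 1 2 (F [(6,256),(26,161),(22,191),(20,17)]) (F [(13,256),(6,37),(37,85),(22,10)])) (F [(13,7),(37,6),(6,52),(4,256),(22,47)])) (F [(6,152),(37,26),(4,256),(22,150)])))) (P5 2 1 (P0 1 1 (P3 4 1 (P5 1 2 (P2 1 1 (F [(6,53),(37,256),(22,23)]) (P0 4 1 (F [(37,256),(6,172),(13,176),(22,210)])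 (P1 4 1 (F [(37,256),(6,165),(22,193),(13,103)]) (O 5)))) (P1 2 1 (F [(13,256),(37,33),(6,7)]) (P0 4 1 (F [(13,256),(37,33),(6,7)]) (P2 4 1 (F [(37,53),(13,256),(6,78),(22,22)]) (P1 4 1 (F [(26,56),(12,5),(21,256),(37,167),(5,8),(11,39)]) (O 5)))))) (P0 1 2 (F [(37,256),(6,138),(22,165)]) (P2 1 1 (F [(6,138),(37,256),(22,165)]) (O 5)))) (P2 2 1 (P5 1 2 (P4 1 1 (F [(37,256),(11,162)]) (P1 2 1 (P3 4 1 (F [(37,256),(6,168),(11,55),(22,167)]) (P0 1 8 (O 5) (F [(37,243),(11,163),(22,256)]))) (P3 8 1 (F [(11,231),(37,223),(22,256)]) (O 5)))) (P1 1 1 (P3 2 1 (F [(32,256),(13,96),(37,241)]) (P4 4 1 (F [(32,14),(37,256),(13,25),(21,59),(12,80)]) (P0 1 4 (F [(3,158),(26,153),(21,256),(37,63),(15,79),(18,30),(11,84)]) (F [(26,256),(37,62),(21,95),(5,22),(18,23),(27,160)])))) (P2 2 1 (P4 4 1 (F [(37,256),(32,108),(11,86)]) (P0 1 8 (P3 4 1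 (F [(26,256),(3,41),(11,19),(21,36),(22,12),(27,153)]) (O 5)) (F [(37,256),(32,42),(18,51),(11,123),(21,207)]))) (P4 8 1 (F [(18,47),(26,256),(5,17),(22,69),(27,4),(21,16)]) (P0 1 2 (F [(5,79),(26,256),(37,26),(21,211)]) (F [(5,18),(26,190),(0,38),(32,56),(27,256),(21,4)])))))) (P1 4 1 (P5 1 1 (P0 1 4 (P3 4 1 (F [(5,18),(32,80),(26,137),(18,137),(27,256)]) (O 5)) (F [(5,27),(32,93),(26,18),(18,256)])) (F [(32,232),(12,16),(5,93),(21,256)])) (F [(5,256),(27,12),(21,94)])))) (P0 1 1 (P3 1 1 (P1 1 2 (P5 4 1 (F [(13,256),(32,99),(12,82),(21,179),(34,64)]) (O 2)) (F [(32,103),(12,143),(21,256),(5,14)])) (P4 4 1 (F [(13,70),(32,105),(21,256),(4,8),(27,80)]) (P0 1 2 (F [(13,256),(32,34)]) (P1 1 1 (F [(13,256),(32,31),(21,15)]) (O 5))))) (P1 1 1 (P3 1 2 (P5 4 1 (F [(12,256),(32,174),(21,213),(34,116)]) (P1 1 2 (O 2) (F [(12,256),(34,176),(21,211)])))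 (F [(12,256),(32,88),(21,168)])) (P2 4 1 (F [(12,256),(32,88),(21,168)]) (P0 2 1 (F [(5,133),(12,256),(32,75),(21,99)]) (O 8))))))) (P0 1 2 (O 2) (P1 1 1 (P5 1 1 (P2 1 2 (O 2) (P3 1 1 (F [(12,151),(32,256),(21,22)]) (F [(12,256),(33,31),(21,60)]))) (P3 1 2 (P1 1 2 (O 2) (P2 1 1 (O 2) (O 8))) (P4 1 1 (F [(12,256),(21,179),(32,110)]) (O 8)))) (P2 1 1 (P4 1 2 (P5 1 2 (O 5) (F [(12,256),(21,128),(32,55),(5,54)])) (F [(12,256),(5,95),(21,118),(32,11)])) (P0 2 1 (F [(33,100),(5,84),(12,256),(27,19),(21,87)]) (P1 2 1 (F [(5,103),(33,56),(12,256),(27,25),(21,67)]) (F [(5,256),(33,39),(27,81),(32,87),(21,150)])))))))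

def c1 : Cell := ⟨⟨1,0,0⟩, ⟨0,1,0⟩, ⟨0,0,1⟩, ⟨1,0,0,0⟩, ⟨1,1,0,0⟩, ⟨0,0,1,0⟩, ⟨0,0,0,1⟩⟩

def t1 : Tr :=
  P1 1 1 (P5 1 1 (P2 1 2 (P4 1 2 (P5 1 2 (P2 1 4 (O 3) (P3 1 1 (O 11) (P4 2 1 (O 11) (F [(36,144),(6,256),(20,44)])))) (P3 1 2 (O 11) (P4 1 1 (O 11) (F [(6,256),(36,133),(20,3)])))) (P3 1 1 (F [(6,256),(23,82)]) (P0 1 2 (P4 2 1 (P5 1 1 (F [(11,180),(37,256)]) (F [(37,137),(18,256),(11,2)])) (P3 2 1 (F [(5,3),(32,63),(18,256)]) (F [(5,256),(37,52)]))) (P0 2 1 (F [(11,6),(37,256),(6,133),(23,88)]) (F [(6,256),(23,82)]))))) (P3 1 1 (P1 1 1 (F [(6,256),(23,99),(24,8)]) (P2 2 1 (P3 1 1 (F [(36,249),(11,144),(6,256),(23,78)]) (P4 1 1 (F [(11,161),(36,243),(6,256),(23,121)]) (F [(18,256),(23,56),(11,3),(6,108)]))) (P0 2 1 (P3 1 1 (P1 1 2 (F [(36,256),(6,67)]) (P0 1 1 (F [(36,206),(23,100),(3,256)]) (F [(36,14),(25,256),(5,65),(18,86),(3,11),(23,120)])))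 (P4 2 1 (P1 1 1 (F [(36,207),(23,256),(31,42),(5,81),(12,31)]) (F [(36,256),(5,184),(23,226),(28,113)])) (P0 1 2 (P3 2 1 (F [(18,6928),(23,6725),(36,1065),(4,16384),(25,3342),(3,12816),(5,1612)]) (P4 4 1 (F [(23,256),(36,154),(28,229),(14,141)]) (U0 1 1 (F [(23,256)]) (P0 1 4 (F [(18,256),(28,1),(12,10)]) (F [(23,160),(28,256),(14,10),(12,67),(36,97)]))))) (P1 1 1 (U0 1 1 (F [(18,256),(36,37),(24,103),(5,32),(14,16)]) (F [(25,86),(18,256),(14,140),(24,108)])) (P2 2 1 (F [(18,256),(36,12),(5,48),(24,3)]) (F [(5,18),(3,256),(36,62),(23,25),(28,77),(4,197)])))))) (F [(25,16384),(14,3311),(5,1220),(31,2399),(23,2212)])))) (P4 2 1 (P2 2 1 (P4 1 2 (P5 1 1 (F [(11,145),(36,256),(6,30)]) (F [(11,3),(18,256),(23,56),(6,108)])) (F [(18,256),(11,3),(23,56),(37,17),(6,76)])) (P0 4 1 (P4 1 1 (P5 2 1 (F [(5,184),(36,227),(23,256)]) (P1 1 4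 (F [(18,256),(23,115),(5,1),(37,182)]) (F [(5,187),(23,256),(36,97)]))) (F [(5,3),(23,60),(37,256),(3,71)])) (P1 2 1 (P5 2 1 (F [(5,231),(36,160),(23,256),(31,78)]) (P3 1 4 (P1 1 2 (P5 4 1 (F [(23,256),(5,90),(36,95),(31,19)]) (U0 1 1 (F [(23,256)]) (P3 1 8 (P1 1 4 (F [(18,256),(28,1),(12,10)]) (F [(23,256),(12,145),(36,50)])) (F [(5,131),(23,256),(31,49)])))) (P2 2 1 (F [(5,103),(18,69),(23,256),(36,123)]) (F [(3,256),(23,14),(36,26),(4,15)]))) (F [(5,256),(23,230),(36,164)]))) (F [(5,84),(36,256),(12,88),(3,157),(23,106)])))) (P0 1 1 (P3 2 1 (F [(5,2),(32,256),(23,233)]) (F [(5,256),(37,52)])) (P2 4 1 (P3 1 1 (F [(5,7),(23,16),(37,181),(3,256),(32,33)]) (F [(5,256),(32,39),(23,189),(37,105)])) (F [(12,7),(3,256),(37,7)])))))) (P3 1 2 (P1 1 2 (P5 2 1 (P2 1 2 (P4 1 2 (O 6) (P3 1 1 (O 6) (F [(13,256),(31,164),(24,171)]))) (O 0))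 (O 0)) (P2 1 1 (F [(31,256),(4,227),(34,18)]) (F [(31,256),(13,4),(12,52),(4,162)]))) (P4 1 1 (P2 1 1 (P5 1 2 (F [(6,256),(31,1),(24,38),(23,86)]) (P0 1 1 (F [(13,256),(4,165),(31,2),(24,117),(28,26)]) (F [(31,243),(13,182),(24,256),(6,3)]))) (P0 2 1 (P3 1 1 (P5 1 1 (P4 1 2 (P2 1 2 (F [(31,256),(12,43)]) (F [(31,124),(25,52),(12,5),(24,93),(14,256),(5,16)])) (F [(31,231),(12,155),(24,256),(5,83)])) (F [(12,170),(31,231),(24,256),(5,68)])) (P4 1 1 (P5 1 2 (P2 1 2 (F [(31,133),(6,71),(36,256),(13,175)]) (P0 1 1 (F [(31,39),(4,256),(24,7),(23,13),(28,15),(3,173)]) (F [(25,256),(12,19),(3,11),(24,64),(28,101),(23,8)]))) (F [(31,90),(12,30),(25,17),(28,256)])) (P0 1 2 (P3 2 1 (F [(24,256),(31,91),(23,35),(14,92),(5,33)]) (P4 2 1 (F [(24,4807),(28,878),(4,16384),(23,2096),(3,12537),(31,2269),(14,2455)]) (F [(28,6),(24,11),(4,256),(3,176),(12,7),(31,3)])))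 (P1 1 1 (F [(24,256),(28,68),(31,95),(14,62),(5,37)]) (P2 1 1 (P5 1 2 (U0 1 1 (F [(24,162),(18,256),(31,42),(14,127),(5,4)]) (F [(31,8),(25,121),(14,188),(24,173),(18,256)])) (F [(12,176),(3,14),(24,214),(31,106),(18,256)])) (F [(12,35),(3,188),(28,58),(24,25),(4,256),(36,40),(23,1)])))))) (P1 2 1 (P5 1 1 (P2 1 2 (P4 1 2 (O 6) (F [(31,152),(25,32),(14,256),(24,94),(5,36)])) (F [(31,231),(12,239),(5,2),(24,256)])) (F [(12,239),(31,231),(24,256),(5,2)])) (F [(12,18),(31,13),(25,256),(24,20)])))) (P0 1 1 (P3 2 1 (P1 1 1 (P5 1 1 (F [(28,256),(24,61),(32,91)]) (F [(12,256),(34,239),(24,137)])) (F [(3,1),(28,256),(32,92),(24,60)])) (P4 2 1 (F [(5,2),(32,256),(24,54),(23,111)]) (F [(5,256),(32,227),(24,110)]))) (P2 2 1 (P3 1 1 (P5 1 1 (P4 1 2 (P2 1 2 (P5 1 2 (F [(28,5),(24,13),(12,13),(3,256),(4,214)]) (F [(12,39),(24,256),(5,61),(31,90)]))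 (F [(12,47),(3,102),(24,27),(4,256)])) (F [(12,148),(24,256),(5,117),(31,204)])) (F [(12,170),(31,231),(24,256),(5,68)])) (P4 1 1 (P5 1 2 (F [(12,7),(3,256),(37,7)]) (F [(12,167),(5,185),(24,256),(31,117)])) (F [(12,256),(5,87),(28,98),(23,154)]))) (F [(12,256),(28,92),(24,20),(23,22)])))))) (P2 1 1 (P4 1 2 (P5 1 2 (P2 1 2 (P4 1 4 (O 11) (P5 2 1 (O 3) (P0 1 1 (F [(36,121),(6,256),(1,143),(20,43),(9,100)]) (O 11)))) (P0 2 1 (P3 1 1 (P5 1 1 (O 3) (P1 1 2 (O 11) (O 3))) (O 3)) (P1 2 1 (P5 1 1 (O 1) (P3 1 2 (O 11) (O 1))) (O 1)))) (P3 1 2 (P1 1 1 (F [(11,34),(36,256),(5,47)]) (P0 4 1 (F [(11,256),(36,231)]) (P1 2 1 (F [(11,256),(36,155)]) (P2 2 1 (F [(11,256),(36,143),(20,37)]) (O 1))))) (P1 4 1 (F [(11,256),(36,68),(6,195),(20,27)]) (P0 2 1 (F [(11,256),(30,27),(20,114),(36,92),(6,169)]) (P2 2 1 (F [(11,256),(36,139),(20,184)]) (O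 1)))))) (P5 2 1 (P0 1 1 (P4 2 1 (F [(11,180),(37,256)]) (F [(5,256),(18,156),(11,66),(23,42)])) (P1 4 1 (F [(11,160),(37,256),(20,57)]) (P0 2 1 (F [(11,177),(37,256),(20,168)]) (O 3)))) (P0 1 1 (P3 1 1 (P1 1 2 (F [(5,256),(37,10),(36,60),(23,48)]) (F [(5,256),(37,8),(23,95),(11,45)])) (F [(5,256),(23,96),(11,39)])) (P1 1 1 (P3 1 2 (F [(5,225),(36,256),(23,59)]) (F [(5,201),(37,206),(11,256),(23,95)])) (F [(11,256),(10,45)]))))) (P0 2 1 (P3 1 1 (P5 1 1 (P2 1 2 (P4 1 2 (O 1) (P0 1 2 (F [(5,256),(37,42),(23,120)]) (O 1))) (P1 1 1 (P4 2 1 (O 1) (F [(5,256),(37,42),(23,120)])) (O 4))) (P1 1 2 (F [(5,256),(19,38),(36,14)]) (F [(5,256),(8,14),(37,40),(16,170),(23,199)]))) (P4 1 1 (P2 1 2 (P5 1 2 (O 10) (P1 1 2 (F [(5,256),(11,47)]) (O 10))) (P5 2 1 (O 10) (F [(5,225),(32,17),(23,171),(26,256),(0,11)]))) (F [(5,256),(8,22),(26,193),(23,117)])))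 (O 1)))

theorem g0 : ∀ c ∈ [c0, c1], Done D c := by
  intro c hc
  simp only [List.mem_cons, List.not_mem_nil, or_false] at hc
  rcases hc with rfl | rfl
  · exact done_of_chk (t := t0) (by decide +kernel)
  · exact done_of_chk (t := t1) (by decide +kernel)

end Pool.Agent.W2helper59.NW.E0
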