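import Pool.Agent.W2helper59.NW.D_E1

set_option autoImplicit false
set_option maxRecDepth 1000000

namespace Pool.Agent.W2helper59.NW.E1

open Tr

def c0 : Cell := ⟨⟨1,0,0⟩, ⟨0,1,0⟩, ⟨0,0,1⟩, ⟨1,1,0,2⟩, ⟨0,1,1,2⟩, ⟨0,0,1,1⟩, ⟨0,0,0,1⟩⟩

def t0 : Tr :=
  P5 1 2 (P2 1 4 (O 7) (P1 1 1 (O 7) (P4 2 1 (O 3) (P0 1 1 (O 7) (O 3))))) (P1 1 2 (O 7) (P2 1 1 (O 7) (P0 1 1 (O 7) (P1 2 1 (U2 1 1 (U1 1 1 (P3 1 1 (P5 1 1 (F [(1,15),(16,256)]) (F [(1,29),(16,256),(20,249),(12,80)])) (F [(16,256),(1,7),(35,45)])) (F [(1,256),(16,65)])) (F [(1,256)])) (O 3)))))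

def c1 : Cell := ⟨⟨1,0,0⟩, ⟨0,1,0⟩, ⟨0,0,1⟩, ⟨1,3,2,2⟩, ⟨0,1,1,0⟩, ⟨0,0,1,1⟩, ⟨0,1,1,2⟩⟩

def t1 : Tr :=
  P3 1 1 (P1 1 4 (P3 1 2 (F [(9,256),(25,63),(7,20)]) (P4 1 1 (F [(9,179),(7,256)]) (O 9))) (P4 1 1 (P2 1 2 (F [(9,256),(7,61)]) (P1 2 1 (U2 1 1 (U1 1 1 (P5 1 1 (P4 2 1 (F [(9,11),(23,256),(25,156)]) (F [(7,4),(25,249),(23,256)])) (F [(7,2),(25,256),(23,100)])) (F [(7,256)])) (F [(7,256)])) (P0 1 1 (U2 1 1 (U1 1 1 (P4 2 1 (F [(7,22),(23,256),(25,42),(6,17),(21,18)]) (P3 4 1 (U2 1 2 (U1 1 2 (P5 1 1 (P2 2 1 (F [(7,254),(23,256)]) (P0 4 1 (F [(7,256),(23,154),(6,157)]) (F [(7,180),(23,256),(6,168)]))) (P0 4 1 (F [(7,48),(25,182),(23,256),(6,51)]) (F [(23,256),(7,50),(6,66),(25,70)]))) (F [(7,63),(23,256),(25,73)])) (F [(7,256),(25,173)])) (P0 1 2 (F [(7,256)]) (U2 1 2 (U1 1 2 (P2 2 1 (F [(7,256),(23,175)]) (P1 4 1 (F [(7,256),(23,46),(6,190)])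 (F [(7,55),(23,256)]))) (F [(7,256)])) (F [(7,256)]))))) (F [(7,256)])) (F [(7,256)])) (U2 1 1 (U1 1 1 (P2 2 1 (F [(23,256),(7,41),(6,61),(25,66)]) (P1 4 1 (F [(23,256),(30,11),(7,27),(21,58)]) (F [(30,256),(23,33),(7,3)]))) (F [(7,228),(23,103),(30,256)])) (F [(7,256),(30,229)]))))) (P0 1 2 (U2 1 1 (P3 4 1 (U1 1 1 (F [(7,18),(25,256),(21,90)]) (F [(7,256)])) (U1 1 1 (F [(7,18),(25,256),(21,90)]) (F [(7,256)]))) (F [(7,256)])) (P1 2 1 (U2 1 1 (U1 1 1 (F [(7,66),(25,256),(21,154)]) (F [(7,256)])) (F [(7,256)])) (P2 1 1 (U2 1 1 (U1 1 1 (P4 1 2 (P5 1 4 (P2 1 2 (F [(7,256),(25,122)]) (U2 1 2 (U1 1 2 (P0 2 1 (F [(7,256),(6,188)]) (P1 4 1 (F [(7,256),(6,204)]) (F [(7,256),(23,186),(6,216)]))) (F [(7,256)])) (F [(7,256)]))) (U2 1 2 (U1 1 2 (P3 1 1 (P2 4 1 (F [(7,105),(25,256),(23,234),(6,129)]) (F [(7,173),(6,256),(25,45),(23,129)]))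 (P0 2 1 (F [(7,256),(25,48),(6,199)]) (P2 4 1 (F [(7,256),(6,204)]) (F [(7,210),(6,256)])))) (F [(7,191),(25,130),(23,256)])) (F [(7,256),(25,173)]))) (U2 1 2 (P3 2 1 (U1 1 2 (F [(21,54),(6,256),(25,58),(7,183)]) (F [(7,256),(25,170),(6,215),(23,158)])) (U1 1 2 (F [(6,256),(21,74),(7,214)]) (F [(7,256),(30,20),(6,210)]))) (F [(7,256),(25,145),(21,25)]))) (F [(7,256)])) (F [(7,256)])) (U2 1 1 (U1 1 1 (P0 2 1 (U2 1 2 (P3 2 1 (U1 1 2 (F [(6,256),(25,67),(23,140),(7,19)]) (F [(6,256),(7,161),(25,24),(23,96)])) (F [(6,256),(30,238),(7,156)])) (F [(7,256),(6,231),(21,118)])) (P1 4 1 (U2 1 2 (U1 1 2 (F [(6,256),(23,215),(25,84),(7,28)]) (F [(6,256),(23,96),(7,161),(25,24)])) (F [(7,225),(6,256),(21,83),(23,133)])) (F [(30,256),(7,2)]))) (F [(7,238),(30,256)])) (F [(7,256),(30,229)]))))))) (P4 2 1 (P5 1 1 (P2 1 2 (P4 1 2 (F [(7,1),(9,256),(23,55)])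 (U2 1 1 (P0 1 2 (U1 1 1 (P3 1 1 (P1 1 4 (F [(7,256)]) (F [(7,256),(23,48),(30,104),(6,162)])) (P4 2 1 (F [(7,256),(30,104),(23,48),(6,162)]) (F [(7,82),(18,256),(30,208)]))) (F [(7,256),(14,129),(33,7)])) (U1 1 1 (P1 1 2 (P3 1 4 (F [(7,256),(9,42)]) (F [(7,65),(23,256),(30,50)])) (F [(7,10),(23,256)])) (F [(7,256),(9,85)]))) (F [(7,256),(14,3)]))) (P1 1 1 (U2 1 1 (P4 2 1 (U1 1 1 (P5 2 1 (F [(7,10),(23,256)]) (P3 1 4 (P1 1 2 (F [(7,256),(9,2)]) (F [(7,60),(23,256)])) (F [(7,41),(23,256)]))) (F [(7,256),(9,64)])) (U1 1 1 (P3 1 1 (P5 4 1 (U2 1 2 (F [(7,256),(23,82),(6,237)]) (F [(7,256)])) (P1 1 2 (F [(7,256)]) (U2 1 2 (U1 1 2 (F [(7,256),(23,81),(6,239)]) (F [(7,256)])) (F [(7,256)])))) (P0 1 2 (F [(7,82),(18,256),(30,208)]) (F [(7,243),(6,256)]))) (F [(7,256),(14,61)]))) (F [(7,256),(14,3)])) (U2 1 1 (P4 2 1 (F [(7,13),(30,189),(23,256),(6,10)])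 (F [(7,59),(30,256),(6,94)])) (F [(7,247),(30,256),(23,71)])))) (P1 1 2 (U2 1 1 (U1 1 1 (P3 1 2 (P5 2 1 (P2 1 2 (O 9) (P1 1 1 (O 9) (U2 1 2 (P4 2 1 (F [(7,104),(21,256)]) (F [(14,59),(21,256),(18,104)])) (F [(7,233),(25,177),(33,125),(21,256)])))) (F [(14,66),(21,256),(18,90)])) (P4 1 1 (P2 1 2 (O 9) (U2 1 2 (P5 2 1 (F [(7,256),(21,194),(18,41),(30,249),(6,66)]) (U1 1 2 (P0 1 1 (O 9) (F [(21,256),(7,41),(18,241),(30,56)])) (F [(7,256),(18,86),(21,239)]))) (F [(7,200),(25,256),(33,37),(21,72)]))) (U2 1 2 (U1 1 2 (P0 1 2 (F [(18,256),(7,13)]) (P1 1 1 (F [(18,256),(21,75)]) (F [(30,256),(18,170),(21,166),(7,140)]))) (F [(14,3),(7,209),(18,256),(6,126),(21,161)])) (F [(7,189),(18,256),(30,106),(21,247)])))) (F [(7,256),(14,65)])) (F [(7,256),(33,194)])) (P2 1 1 (U2 1 1 (U1 1 1 (P4 1 1 (P5 1 2 (P2 1 2 (F [(7,256)]) (U2 1 2 (U1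 1 2 (F [(7,256),(6,239),(23,81)]) (F [(7,256)])) (F [(7,256)]))) (U2 1 2 (U1 1 2 (F [(7,256),(21,46),(6,239),(30,115)]) (F [(7,256),(30,38),(6,195)])) (F [(7,256),(21,2),(6,196)]))) (P0 1 2 (F [(7,97),(30,256),(25,5)]) (U2 1 2 (F [(7,256),(30,212),(6,224)]) (F [(7,256),(21,2),(6,196)])))) (F [(7,256),(14,61)])) (F [(7,256),(14,60)])) (U2 1 1 (F [(7,61),(30,256),(6,46),(21,64)]) (F [(7,256),(30,150),(6,178),(21,2)]))))) (P0 1 4 (P3 2 1 (P1 1 4 (O 9) (O 2)) (O 2)) (P1 1 2 (P3 1 4 (U2 1 1 (U1 1 1 (P5 2 1 (U2 1 2 (P0 2 1 (O 9) (F [(14,28),(18,256),(6,70),(21,206),(7,3)])) (F [(14,228),(33,129),(18,148),(21,245),(6,256)])) (P1 1 4 (O 9) (U2 1 2 (P0 2 1 (O 9) (F [(21,256),(18,190)])) (F [(33,129),(14,84),(21,256)])))) (F [(14,256),(7,253),(33,70)])) (F [(7,118),(33,256)])) (U2 1 1 (U1 1 1 (P0 1 1 (O 2) (F [(14,33),(6,256),(30,121),(33,149)]))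 (F [(14,151),(33,75),(6,256)])) (F [(33,256),(6,78)]))) (U2 1 1 (F [(6,79),(30,256),(14,51),(21,77),(33,11)]) (F [(14,35),(7,57),(33,103),(6,256),(30,85)])))))

def c2 : Cell := ⟨⟨1,0,0⟩, ⟨0,1,0⟩, ⟨0,0,1⟩, ⟨1,1,0,2⟩, ⟨1,3,2,2⟩, ⟨0,0,1,1⟩, ⟨0,1,1,2⟩⟩

def t2 : Tr :=
  P1 1 2 (P3 1 4 (P5 2 1 (U2 1 1 (P0 2 1 (P4 1 4 (F [(9,256),(34,228),(20,5),(12,98)]) (U1 1 1 (P3 1 2 (F [(9,256),(20,122),(12,106)]) (U2 1 2 (P0 1 2 (F [(7,256),(25,87)]) (F [(9,256),(25,16),(20,122),(12,106)])) (F [(9,256),(20,55)]))) (F [(9,256),(1,20)]))) (F [(1,18),(9,67),(34,256),(20,3)])) (F [(1,145),(9,256)])) (P1 1 4 (O 9) (U2 1 1 (P0 2 1 (F [(9,72),(20,242),(25,256)]) (F [(9,52),(34,26),(20,256)])) (F [(1,145),(9,256)])))) (P0 1 1 (P4 1 2 (U2 1 1 (P5 1 4 (F [(9,205),(23,256)]) (U1 1 1 (P3 1 1 (P1 1 1 (F [(9,103),(25,256)]) (P2 2 1 (F [(9,160),(25,256),(23,243),(12,43)])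 (U2 1 2 (U1 1 2 (P0 2 1 (F [(9,194),(23,226),(25,256),(12,95)]) (P1 2 1 (F [(23,44),(9,248),(12,256),(25,63)]) (F [(23,256)]))) (F [(9,256),(23,18),(12,134)])) (F [(9,256),(23,18),(12,134)])))) (F [(9,205),(23,256)])) (F [(9,256)]))) (F [(9,256)])) (P3 2 1 (U2 1 1 (U1 1 1 (P5 1 1 (F [(23,256),(9,24),(25,113)]) (P1 1 1 (F [(7,2),(25,256),(23,100)]) (U2 1 2 (P0 2 1 (F [(9,2),(23,169),(25,256)]) (U1 1 2 (P2 2 1 (F [(23,210),(9,48),(25,256)]) (P1 2 1 (P3 1 2 (F [(23,189),(9,232),(25,256),(12,243)]) (F [(23,256),(9,127),(25,62)])) (F [(23,256)]))) (F [(9,256),(23,142),(25,42)]))) (P0 2 1 (F [(7,5),(9,48),(25,256),(23,145)]) (F [(9,256),(23,142),(25,42)]))))) (F [(9,256),(7,111)])) (F [(7,111),(9,256)])) (U2 1 1 (U1 1 1 (P0 1 2 (P4 2 1 (F [(23,256),(7,3),(25,67)]) (P3 4 1 (F [(23,256),(21,57),(7,24)]) (F [(30,228),(6,43),(23,256)])))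 (F [(23,256),(7,8),(25,53)])) (P0 1 2 (F [(7,228),(23,144),(30,256)]) (F [(7,172),(9,256),(23,251)]))) (F [(7,79),(9,38),(23,256)])))) (U2 1 1 (P1 2 1 (P5 1 4 (U1 1 1 (P4 1 4 (P2 1 8 (O 7) (F [(9,256),(20,75),(12,132)])) (P0 1 2 (P3 2 1 (U2 1 2 (U1 1 2 (F [(9,256),(23,34),(12,201)]) (F [(9,256),(12,147)])) (F [(9,256),(12,146)])) (F [(9,256),(23,42),(35,29),(12,219)])) (P2 1 1 (U2 1 2 (U1 1 2 (F [(9,256),(23,34),(12,201)]) (F [(9,256),(12,147)])) (F [(9,256),(12,146)])) (U2 1 2 (U1 1 2 (F [(9,256),(12,200),(23,11)]) (F [(9,256),(12,147)])) (F [(9,256),(12,146)]))))) (F [(9,256)])) (U1 1 1 (P3 1 1 (U2 1 2 (P1 1 2 (F [(9,103),(25,256)]) (U1 1 2 (P0 1 1 (F [(9,251),(25,256),(12,152)]) (F [(9,256),(20,35),(12,169)])) (F [(9,256),(20,7)]))) (F [(9,256),(20,7)])) (P0 1 2 (P4 2 1 (U2 1 2 (U1 1 2 (P2 1 2 (F [(9,256),(23,154),(25,228),(12,174)])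 (F [(9,236),(23,34),(12,256),(25,87)])) (F [(9,256),(12,63)])) (F [(9,256),(12,63)])) (U2 1 2 (U1 1 2 (P3 2 1 (F [(9,222),(23,29),(12,256),(25,72)]) (F [(23,132),(12,243),(9,256)])) (F [(9,256),(12,166)])) (F [(9,256),(12,166)]))) (U2 1 2 (U1 1 2 (P4 1 2 (P1 1 1 (F [(9,256),(25,197),(12,170)]) (F [(9,256),(20,35),(12,169)])) (F [(9,232),(12,256),(25,82)])) (F [(9,256),(12,63)])) (F [(9,256),(12,63)])))) (F [(9,256)]))) (U1 1 1 (P0 2 1 (P4 1 4 (P5 1 8 (P2 1 8 (O 7) (U2 1 2 (U1 1 2 (P1 2 1 (O 7) (F [(9,231),(35,256),(20,193)])) (F [(9,256),(35,7),(20,60),(12,146)])) (F [(9,256),(20,56),(12,152)]))) (P3 1 1 (U2 1 2 (U1 1 2 (P2 2 1 (F [(9,256),(34,5),(12,213)]) (F [(12,256),(9,185),(35,16)])) (F [(9,222),(20,256),(35,1)])) (F [(9,206),(34,55),(20,256)])) (U2 1 2 (U1 1 2 (P2 2 1 (O 7) (F [(9,233),(35,83),(12,256)])) (F [(9,256),(20,39),(12,173)]))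 (F [(9,256),(20,40),(12,172)])))) (P3 2 1 (P5 1 1 (U2 1 2 (F [(9,256),(35,126),(12,244)]) (F [(9,256),(20,39),(35,6),(12,174)])) (F [(9,256),(20,233),(12,188),(35,55)])) (F [(9,256),(35,170),(12,198)]))) (P2 1 2 (P5 1 8 (P4 1 8 (O 7) (U2 1 2 (U1 1 2 (P3 2 1 (O 7) (F [(9,95),(34,214),(35,256),(20,84)])) (F [(9,256),(34,67),(20,207)])) (F [(9,6),(34,256)]))) (U2 1 2 (P1 2 1 (U1 1 2 (P4 2 1 (F [(9,256),(34,49),(12,222)]) (F [(20,183),(12,252),(9,256),(35,43)])) (F [(9,222),(20,256),(35,1)])) (U1 1 2 (P4 2 1 (O 7) (F [(34,256),(20,167),(9,71),(35,217)])) (F [(9,256),(34,32),(20,251)]))) (F [(9,31),(34,256),(20,65)]))) (F [(34,256),(20,144),(35,100)]))) (F [(9,256),(1,63)]))) (F [(9,256),(1,63)])))) (P0 2 1 (P3 1 1 (P1 1 2 (U2 1 1 (U1 1 1 (P2 1 8 (P3 1 2 (P5 1 2 (P4 1 8 (O 7) (F [(9,110),(34,210),(35,256),(20,88)])) (F [(1,12),(34,256),(9,10),(35,236)]))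 (P4 1 4 (P5 1 8 (O 7) (F [(9,247),(35,256),(20,192)])) (F [(9,162),(35,256),(20,75)]))) (P3 1 2 (P1 1 4 (F [(34,256),(35,241)]) (F [(35,256),(1,141),(9,15),(12,156)])) (F [(35,256),(9,174),(12,211),(1,48)]))) (F [(9,256),(1,68),(35,5)])) (F [(1,68),(9,256),(35,5)])) (P2 1 4 (U2 1 1 (F [(9,135),(35,112),(23,256)]) (F [(9,256),(35,85)])) (F [(9,185),(35,256),(23,157)]))) (P4 1 2 (P2 1 4 (F [(9,211),(23,256)]) (F [(9,120),(23,256)])) (U2 1 1 (P0 1 2 (U1 1 1 (P3 2 1 (F [(23,256),(9,99)]) (F [(23,256),(30,168),(6,9)])) (F [(23,256),(30,24)])) (F [(23,256),(9,111)])) (F [(7,55),(9,63),(23,256),(30,11)])))) (P2 1 1 (P3 1 2 (U2 1 1 (U1 1 1 (P4 1 8 (O 7) (P1 1 1 (P3 1 4 (P5 8 1 (F [(1,119),(35,256),(20,67)]) (F [(1,108),(20,256),(12,120),(16,145),(35,139)])) (F [(1,57),(35,256),(20,52)])) (F [(35,256),(1,38)]))) (F [(1,256),(9,61),(35,91)]))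 (F [(1,256),(35,55)])) (P4 1 4 (U2 1 1 (U1 1 1 (P5 1 8 (O 7) (F [(35,256),(1,62)])) (F [(9,70),(1,256),(35,94)])) (F [(1,256),(35,55)])) (F [(35,256),(16,20)]))) (P1 2 1 (P3 1 2 (U2 1 1 (U1 1 1 (P5 1 1 (F [(35,256),(16,209),(1,34)]) (P1 1 2 (F [(1,58),(12,256),(20,127),(16,176)]) (F [(35,104),(16,256),(1,26),(12,120),(20,137)]))) (F [(1,256),(16,25),(35,92)])) (F [(1,256),(35,95)])) (F [(35,256),(16,107)])) (U2 1 1 (P0 4 1 (F [(35,256),(16,164),(12,71)]) (O 3)) (F [(1,44),(35,256),(28,153)])))))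

def c3 : Cell := ⟨⟨1,0,0⟩, ⟨0,1,0⟩, ⟨0,0,1⟩, ⟨1,1,1,1⟩, ⟨1,3,2,2⟩, ⟨1,1,2,4⟩, ⟨1,1,0,2⟩⟩

def t3 : Tr :=
  P4 1 2 (P2 1 1 (P5 1 2 (U2 1 1 (P4 1 4 (F [(16,256),(12,188)]) (F [(35,256),(12,71),(16,164)])) (F [(35,256),(1,44),(28,153)])) (P3 1 2 (P1 1 1 (U2 1 1 (F [(1,1175),(12,11162),(16,16384),(20,16326)]) (F [(1,256),(34,159),(12,108),(35,169)])) (F [(35,256),(5,26),(16,105)])) (F [(35,256),(16,107)]))) (P1 2 1 (F [(12,256),(9,57),(20,65),(16,25)]) (F [(35,256),(12,175),(20,143),(1,2)]))) (P3 1 1 (P1 2 1 (P5 2 1 (U2 1 1 (F [(35,256),(12,62),(9,100)]) (F [(9,256),(12,256)])) (U2 1 1 (U1 1 1 (P3 1 2 (F [(12,256),(20,9),(1,49),(9,26)]) (F [(12,256),(35,151),(9,152)])) (F [(9,256),(12,165),(20,67)])) (F [(9,256),(20,67),(12,165)]))) (U2 1 1 (F [(35,256),(23,34),(9,3)]) (P2 4 1 (F [(9,256),(35,249),(12,175)]) (P0 4 1 (P4 2 1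 (F [(9,68),(12,256)]) (U0 1 1 (F [(9,52),(35,256),(23,14)]) (U2 2 1 (F [(9,80),(35,256),(23,10)]) (F [(9,256)])))) (P1 4 1 (F [(9,68),(12,256)]) (U0 1 1 (F [(35,256),(23,185),(9,11)]) (F [(35,256),(9,34),(20,196),(25,210)]))))))) (U2 1 1 (P2 4 1 (P4 2 1 (F [(23,256),(9,66)]) (U1 1 1 (P3 2 1 (F [(23,256),(9,66)]) (F [(23,256),(30,141),(6,24)])) (F [(23,256),(30,24)]))) (U1 1 1 (P0 2 1 (P3 2 1 (F [(23,256),(9,5)]) (F [(23,256),(30,141),(6,24)])) (F [(23,256),(35,26),(21,3)])) (F [(23,256),(30,24)]))) (P2 4 1 (F [(9,62),(23,256),(7,38)]) (P0 2 1 (F [(7,40),(23,256),(9,43),(25,37)]) (P1 4 1 (P3 1 1 (P5 2 1 (F [(9,95),(23,256),(12,158)]) (U0 1 1 (F [(9,18),(23,256)]) (U2 2 1 (F [(9,75),(23,256),(35,86)]) (F [(9,256)])))) (F [(23,256),(9,58),(12,20)])) (U0 1 1 (F [(23,256),(9,5)]) (U2 2 1 (F [(23,256),(12,135),(25,228),(9,25)])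 (F [(23,171),(9,41),(35,70),(25,256),(12,75)]))))))))

def c4 : Cell := ⟨⟨1,0,0⟩, ⟨0,1,0⟩, ⟨0,0,1⟩, ⟨1,1,1,1⟩, ⟨1,3,6,6⟩, ⟨0,0,1,1⟩, ⟨1,1,2,4⟩⟩

def t4 : Tr :=
  P1 1 2 (P5 4 1 (U2 1 1 (P4 1 2 (F [(20,256),(34,15),(12,4)]) (F [(9,72),(20,242),(25,256)])) (F [(1,249),(9,256),(29,70)])) (P3 1 8 (F [(9,23),(29,6),(20,256),(25,38),(21,106)]) (F [(9,115),(20,234),(25,256)]))) (P2 2 1 (U2 1 1 (P4 1 2 (F [(20,256),(34,15),(12,4)]) (U1 1 1 (P0 1 1 (F [(9,17),(25,256),(20,209)]) (F [(20,256)])) (F [(9,256),(20,199)]))) (F [(9,256),(20,199)])) (P0 4 1 (U2 1 1 (U1 1 1 (P4 1 1 (F [(12,70),(20,254),(25,256)]) (F [(25,256),(9,24),(21,53),(20,181)])) (F [(9,52),(25,210),(20,256)])) (F [(9,52),(25,210),(20,256)])) (P1 2 1 (U2 1 1 (F [(20,256),(12,19),(25,223)]) (F [(9,42),(20,256),(25,210)])) (F [(20,256),(25,202),(7,7)]))))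

def c5 : Cell := ⟨⟨1,0,0⟩, ⟨0,1,0⟩, ⟨0,0,1⟩, ⟨3,3,4,6⟩, ⟨2,4,4,6⟩, ⟨1,3,6,6⟩, ⟨1,1,2,4⟩⟩

def t5 : Tr :=
  U2 1 1 (P5 1 2 (U1 1 1 (P4 1 2 (F [(20,256),(9,64),(35,48)]) (F [(12,256),(9,112),(35,3)])) (F [(9,256),(20,67),(12,165)])) (U1 1 1 (P1 1 1 (P3 1 1 (F [(9,222),(25,256),(20,57),(12,235)]) (P4 2 1 (F [(9,214),(25,127),(12,256)]) (U2 1 2 (U1 1 2 (P0 1 2 (P3 2 1 (F [(12,256),(23,61),(9,180),(25,158)]) (F [(12,256),(23,128),(9,158)])) (F [(12,256),(25,176),(9,169),(23,41)])) (F [(9,256),(12,240),(25,38)])) (F [(9,256),(25,38),(12,240)])))) (F [(12,256),(9,112),(35,3)])) (F [(9,256),(20,174),(12,20)]))) (F [(9,256),(20,174),(12,20)])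

def c6 : Cell := ⟨⟨1,0,0⟩, ⟨0,1,0⟩, ⟨0,0,1⟩, ⟨5,7,10,10⟩, ⟨2,4,4,6⟩, ⟨1,3,6,6⟩, ⟨3,3,4,6⟩⟩

def t6 : Tr :=
  U2 1 1 (U1 1 1 (P5 1 1 (U2 1 2 (P0 1 2 (F [(12,256),(23,57),(9,117)]) (P2 1 2 (U1 1 2 (F [(12,256),(35,20)]) (F [(12,256),(35,15),(23,45),(9,121)])) (U1 1 2 (F [(12,256),(25,85)]) (P1 1 1 (P3 1 2 (F [(12,256),(25,198),(20,137),(9,134)]) (U0 1 2 (F [(12,221),(25,256),(9,108),(23,138)]) (F [(12,256),(25,94),(23,52)]))) (U0 1 2 (F [(25,256),(12,163),(23,97),(9,84)]) (F [(12,136),(25,256),(23,145)])))))) (P0 1 2 (P3 2 1 (P5 1 2 (P2 1 4 (F [(12,256),(20,8),(9,142)]) (F [(12,256),(9,131),(25,135),(23,59)])) (P1 1 2 (F [(9,129),(12,256),(25,54)]) (F [(12,256),(9,131),(25,136),(23,59)]))) (P4 1 1 (P2 1 4 (F [(12,256),(20,8),(9,142)]) (F [(12,256),(9,131),(23,58),(25,134)])) (U0 1 1 (U1 2 1 (P0 1 4 (F [(23,61),(12,256),(9,152)])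 (F [(12,256),(23,58),(9,131),(25,134)])) (F [(9,99),(23,256)])) (U2 2 1 (P0 1 4 (F [(12,256),(23,50),(9,136)]) (F [(12,256),(23,52),(9,130),(25,133)])) (F [(9,136),(12,256),(25,68)]))))) (P2 1 2 (P5 1 2 (P4 1 4 (F [(12,256)]) (P3 1 1 (F [(12,256),(9,68)]) (U0 1 1 (U1 2 1 (U2 1 1 (F [(12,256),(23,92)]) (F [(12,256),(25,222),(9,127),(23,83)])) (F [(12,245),(9,134),(23,132),(25,256)])) (F [(12,256),(25,164),(9,127)])))) (P1 1 2 (P3 1 2 (F [(12,256),(9,131),(25,120)]) (F [(12,256),(25,136),(9,131),(23,59)])) (P4 1 1 (F [(12,256),(9,68)]) (U0 1 1 (U1 2 1 (F [(12,135),(25,256),(9,45),(23,44)]) (F [(12,193),(9,100),(25,256),(23,110)])) (F [(12,112),(25,256),(9,44)]))))) (P1 1 1 (P3 1 2 (F [(25,256),(20,172),(9,20)]) (U0 1 1 (U1 2 1 (F [(12,88),(25,256),(9,20),(23,42)]) (F [(9,100),(25,256),(12,193),(23,110)])) (F [(12,102),(25,256),(9,39)])))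 (U0 1 1 (U1 2 1 (F [(25,256),(12,88),(23,42),(9,20)]) (F [(25,256),(12,166),(9,90),(23,87)])) (F [(25,256),(12,102),(9,39)])))))) (P3 1 1 (F [(25,256),(9,19),(20,7)]) (U2 1 2 (P0 1 2 (U1 1 2 (P4 2 1 (F [(12,208),(25,256),(23,65),(9,91)]) (P3 2 1 (P1 1 2 (F [(12,256),(23,103),(25,201),(9,174)]) (F [(12,256),(23,144),(25,92)])) (F [(12,207),(23,256)]))) (P4 2 1 (P1 1 2 (F [(9,212),(25,190),(12,256),(23,51)]) (P2 1 2 (F [(9,177),(25,207),(12,256),(23,67)]) (U0 1 2 (F [(9,139),(23,190),(25,256),(12,202)]) (F [(12,227),(25,256),(23,84),(9,112)])))) (P3 2 1 (P1 1 2 (F [(9,210),(23,70),(25,193),(12,256)]) (U0 1 2 (F [(9,94),(23,256),(25,30)]) (P0 1 1 (F [(23,54),(9,176),(12,256),(25,136)]) (F [(12,16384),(23,8013),(25,16097),(9,8930)])))) (F [(23,256),(9,77),(12,217)])))) (F [(25,16384),(12,5652),(23,4680),(9,2883)])) (P0 1 2 (P4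 2 1 (P1 1 2 (F [(9,218),(25,181),(12,256)]) (P2 1 2 (F [(9,197),(25,183),(12,256)]) (U0 1 1 (U1 2 1 (F [(9,124),(25,256),(12,226),(23,70)]) (F [(9,141),(25,256),(23,183),(12,128)])) (F [(9,113),(25,256),(12,228)])))) (P3 2 1 (P1 1 2 (F [(9,218),(25,152),(12,256)]) (U0 1 1 (U1 2 1 (U2 1 1 (P0 1 1 (F [(9,176),(23,53),(12,256),(25,135)]) (P2 1 1 (F [(9,161),(12,256),(25,207),(23,88)]) (F [(12,239),(25,256),(23,130),(9,131)]))) (P0 1 1 (F [(9,256)]) (F [(9,145),(25,256),(23,111),(12,235)]))) (F [(9,116),(23,256)])) (U2 2 1 (U1 1 1 (P0 1 1 (F [(9,167),(12,256),(25,95)]) (F [(12,256),(25,127),(9,129)])) (P0 1 1 (F [(9,256)]) (F [(9,148),(25,256),(12,242),(23,77)]))) (F [(9,119),(25,256),(12,124)])))) (U0 1 1 (U1 2 1 (P0 1 4 (F [(9,200),(23,79),(12,256)]) (U2 1 1 (P1 1 1 (F [(9,171),(23,228),(12,256)]) (F [(12,256),(23,232),(9,77)]))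 (P1 1 1 (F [(9,256),(23,101)]) (F [(9,153),(23,151),(12,256),(25,242)])))) (F [(9,99),(23,256)])) (U2 2 1 (P0 1 4 (F [(9,224),(23,88),(12,256)]) (U1 1 1 (P1 1 1 (F [(12,256),(9,160),(25,6)]) (F [(12,256),(23,67),(25,155),(9,131)])) (P1 1 1 (F [(9,256),(12,159)]) (P2 1 1 (F [(9,256),(12,204)]) (U0 1 2 (F [(9,9747),(23,8699),(25,14711),(12,16384)]) (F [(9,129),(12,256),(25,109)])))))) (P0 1 4 (F [(9,202),(12,256)]) (P1 1 1 (F [(9,256),(12,159)]) (F [(9,152),(25,129),(12,256)]))))))) (F [(25,16384),(9,1055),(23,2163)]))))) (P5 1 1 (U0 1 2 (F [(9,256),(25,213),(12,179)]) (P0 1 2 (F [(9,256),(12,151)]) (P2 1 2 (F [(9,244),(12,256),(25,91)]) (F [(9,194),(25,256),(12,237)])))) (F [(9,256),(25,247)]))) (P5 1 1 (U0 1 1 (U1 2 1 (P0 1 2 (F [(9,256),(12,151)]) (P2 1 2 (F [(9,244),(12,256),(25,91)]) (F [(9,139),(25,256),(20,22),(12,222)])))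 (F [(9,256),(7,44)])) (U2 2 1 (P0 1 2 (F [(9,256),(12,151)]) (F [(9,114),(20,144),(25,256),(12,205)])) (F [(1,256),(7,128)]))) (F [(9,256),(25,247)]))

def c7 : Cell := ⟨⟨1,0,0⟩, ⟨0,1,0⟩, ⟨0,0,1⟩, ⟨1,1,1,1⟩, ⟨2,4,4,6⟩, ⟨5,7,10,10⟩, ⟨3,3,4,6⟩⟩

def t7 : Tr :=
  U2 1 1 (U1 1 1 (P0 4 1 (U2 1 2 (P3 2 1 (P5 1 2 (F [(12,26),(35,256),(23,97)]) (U1 1 2 (F [(12,256),(25,85)]) (P1 1 1 (U0 1 2 (F [(25,256),(12,156),(23,120),(9,68)]) (F [(12,161),(25,256),(23,175)])) (F [(12,34),(35,256),(23,108),(25,12)])))) (F [(12,98),(35,73),(23,256)])) (P3 2 1 (P5 1 2 (P2 1 2 (P4 1 4 (F [(12,256)]) (P0 1 1 (U0 1 1 (U1 2 1 (U2 1 1 (F [(12,256),(23,92)]) (F [(12,256),(23,83),(25,222),(9,127)])) (F [(12,245),(23,132),(9,134),(25,256)])) (F [(12,256),(25,103),(9,129)])) (F [(12,256),(35,40)]))) (P0 2 1 (P4 1 1 (F [(12,256),(23,70)]) (U0 1 1 (U1 2 1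 (U2 1 1 (F [(12,256),(23,92)]) (P1 1 2 (F [(12,256),(25,239),(23,85),(9,124)]) (F [(12,227),(23,146),(25,256),(9,101)]))) (F [(12,256),(23,120),(9,168)])) (U2 2 1 (U1 1 1 (F [(12,256)]) (P1 1 2 (F [(12,256),(25,199),(9,128)]) (P0 1 2 (F [(12,250),(25,256),(23,39),(9,106)]) (F [(12,165),(23,256)])))) (P1 1 2 (F [(12,256),(25,179),(9,133)]) (P0 1 2 (F [(12,256),(25,213),(23,35),(9,121)]) (F [(12,256),(25,196),(23,95),(9,101)])))))) (F [(12,256),(23,70)]))) (P1 1 1 (U0 1 1 (U1 2 1 (F [(25,256),(12,88),(23,42),(9,20)]) (F [(25,256),(12,165),(23,103),(9,76)])) (F [(25,256),(12,102),(9,39)])) (P0 2 1 (U0 1 1 (U1 2 1 (U2 1 1 (F [(12,256),(23,92)]) (P2 1 2 (F [(12,88),(25,256),(23,42),(9,20)]) (F [(12,119),(23,106),(25,256),(9,38)]))) (F [(12,191),(23,127),(25,256),(9,81)])) (U2 2 1 (U1 1 1 (F [(12,256)]) (P2 1 2 (F [(12,77),(25,256),(9,21)])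 (F [(12,168),(25,256),(23,83),(9,59)]))) (P2 1 2 (F [(12,101),(25,256),(9,37)]) (F [(12,200),(25,256),(23,80),(9,78)])))) (F [(12,256),(35,53),(23,66),(25,169)])))) (P0 1 2 (P4 1 1 (P5 1 4 (F [(12,256),(35,229)]) (U0 1 1 (F [(12,1048576),(23,309074),(9,537771),(25,523517)]) (U2 2 1 (P3 2 1 (U1 1 1 (F [(12,256)]) (F [(12,256),(23,61),(9,131),(25,142)])) (F [(12,256),(35,88),(9,101)])) (F [(12,256),(9,138),(25,82)])))) (U0 1 1 (U1 2 1 (P3 4 1 (F [(12,16384),(23,5455),(9,8420),(25,8697)]) (F [(35,256),(23,207),(9,90)])) (F [(23,256),(9,99)])) (U2 2 1 (P3 4 1 (P5 1 2 (F [(12,256),(23,174),(9,114)]) (U1 1 1 (F [(12,256)]) (F [(12,256),(23,61),(9,131),(25,140)]))) (F [(12,160),(23,256),(9,45)])) (F [(12,256),(9,136),(25,68)])))) (P2 1 2 (P5 1 4 (F [(12,256),(35,229)]) (P1 1 1 (U0 1 1 (U1 2 1 (U2 1 1 (F [(12,256),(23,92)]) (F [(12,256),(23,125),(9,132),(25,196)]))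 (F [(12,131),(23,256),(9,165)])) (U2 2 1 (U1 1 1 (F [(12,256)]) (F [(12,256),(23,61),(25,142),(9,131)])) (F [(12,256),(9,138),(25,82)]))) (F [(12,256),(35,119)]))) (P1 2 1 (P5 1 1 (F [(12,256),(23,70)]) (U0 1 1 (U1 2 1 (U2 1 1 (F [(12,256),(23,92)]) (F [(12,256),(23,223),(25,232),(9,136)])) (F [(23,256),(12,69),(9,123)])) (U2 2 1 (U1 1 1 (F [(12,256)]) (P3 1 1 (P1 1 2 (F [(12,256),(23,78),(25,198),(9,121)]) (F [(12,95),(23,256)])) (F [(12,40),(35,256),(23,135)]))) (P3 1 1 (P1 1 2 (F [(12,256),(25,200),(23,67),(9,122)]) (F [(12,256),(23,84),(25,172),(9,102)])) (F [(12,256),(23,28),(9,73)]))))) (F [(12,256),(23,70)])))))) (F [(12,256),(20,9),(25,222)])) (P0 4 1 (U0 1 2 (P3 2 1 (P5 1 2 (F [(9,165),(12,16),(35,256)]) (F [(9,86),(25,256),(23,215),(12,90)])) (F [(9,187),(23,256),(35,184)])) (P3 2 1 (P5 1 2 (P2 1 2 (F [(12,256),(9,188),(25,92)])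 (P0 2 1 (F [(9,8282),(12,16384),(23,4090),(25,10001)]) (F [(12,256),(9,93)]))) (P1 1 1 (U2 1 1 (F [(9,84),(25,256),(12,72)]) (F [(25,256),(9,91),(12,156)])) (P0 2 1 (U2 1 1 (F [(9,91),(25,256),(23,116),(12,183)]) (U0 2 1 (F [(9,93),(25,256),(12,188),(23,112)]) (P2 1 2 (F [(12,156),(25,256),(9,91)]) (F [(25,256),(12,226),(9,101),(23,83)])))) (F [(12,256),(9,86),(23,78),(25,213)])))) (P0 1 2 (F [(9,256),(12,155)]) (P2 1 2 (F [(9,197),(12,256),(25,84)]) (P1 2 1 (F [(9,8282),(23,4090),(12,16384),(25,10001)]) (F [(12,256),(9,93)])))))) (P2 4 1 (U0 1 2 (P5 1 2 (F [(9,102),(12,256),(35,131)]) (U1 2 1 (P1 1 1 (F [(9,86),(25,256),(12,90),(23,215)]) (F [(12,256),(9,58),(35,8)])) (F [(9,256),(20,3),(12,127)]))) (P5 1 2 (F [(12,256),(35,83),(9,61)]) (P1 1 1 (P3 1 1 (F [(25,256),(20,59),(12,50),(9,3)]) (F [(12,256),(25,227),(9,79),(23,79)]))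 (F [(12,256),(35,7),(9,49)])))) (P1 8 1 (U0 1 2 (U1 2 1 (P5 1 1 (F [(12,136),(23,158),(25,256),(9,36)]) (F [(25,256),(9,45),(23,201),(12,47)])) (F [(9,169),(25,256),(12,120)])) (P5 1 1 (F [(12,256),(25,231),(23,65),(9,48)]) (P3 1 1 (F [(25,256)]) (F [(25,256),(12,165),(23,107),(9,34)])))) (F [(12,54),(35,156),(20,31),(25,256),(9,23)]))))) (P0 4 1 (U0 1 1 (U1 2 1 (P3 2 1 (P5 1 2 (U2 1 1 (P2 1 2 (F [(9,143),(12,256),(25,137)]) (P0 2 1 (F [(9,128),(12,256),(25,185)]) (F [(9,94),(12,256)]))) (F [(9,256)])) (U2 1 1 (P1 1 1 (F [(9,101),(25,256),(12,182)]) (P0 2 1 (F [(9,69),(25,256),(12,147)]) (F [(9,87),(12,256),(25,214),(23,78)]))) (F [(9,256)]))) (U2 1 1 (P0 1 2 (F [(9,256),(12,155)]) (P2 1 2 (F [(9,197),(12,256),(25,84)]) (P1 2 1 (F [(9,129),(12,256),(25,146)]) (F [(9,94),(12,256)])))) (F [(9,256)]))) (F [(9,256)])) (U2 2 1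 (P3 2 1 (P5 1 2 (U1 1 1 (P2 1 2 (F [(9,140),(12,256),(25,140)]) (P0 2 1 (F [(9,112),(12,256),(25,192)]) (F [(9,95),(12,256)]))) (F [(9,256)])) (U1 1 1 (P1 1 1 (F [(9,73),(25,256),(20,39),(12,142)]) (P0 2 1 (F [(9,49),(25,256),(12,150)]) (F [(9,78),(12,256),(25,136)]))) (F [(9,256)]))) (U1 1 1 (P0 1 2 (F [(9,256),(12,155)]) (P2 1 2 (F [(9,197),(12,256),(25,84)]) (P1 2 1 (F [(9,118),(12,256),(25,136)]) (F [(9,95),(12,256)])))) (F [(9,256)]))) (F [(9,256)]))) (P2 4 1 (U0 1 1 (U1 2 1 (P5 1 2 (F [(9,73),(12,256),(35,72)]) (U2 1 1 (P1 1 1 (P3 1 1 (F [(9,24),(25,256),(20,155)]) (F [(9,59),(12,225),(25,256),(23,63)])) (F [(12,256),(9,53)])) (F [(9,256),(20,16),(12,126)]))) (F [(9,256),(20,3),(12,127)])) (U2 2 1 (P5 1 2 (F [(9,68),(12,256)]) (U1 1 1 (F [(12,256),(9,53),(25,250)]) (F [(9,256),(20,50),(12,102)]))) (F [(9,256),(20,50),(12,102)])))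 (P1 8 1 (U0 1 1 (U1 2 1 (U2 1 1 (P5 1 1 (F [(12,256),(25,230),(23,63),(9,49)]) (P3 1 1 (F [(25,256),(9,5),(20,42)]) (F [(25,256),(12,185),(9,45),(23,94)]))) (F [(9,142),(25,256),(12,184)])) (F [(9,166),(25,256),(12,121)])) (U2 2 1 (U1 1 1 (F [(25,250),(12,256),(9,53)]) (F [(9,106),(25,256),(12,256)])) (F [(9,90),(25,256),(20,35),(12,229)]))) (U0 1 1 (U1 2 1 (U2 1 1 (F [(12,237),(25,256),(23,119),(9,25)]) (F [(9,39),(12,178),(20,5),(35,19),(25,256),(23,93)])) (F [(9,40),(12,127),(20,34),(23,170),(25,256)])) (U2 2 1 (U1 1 1 (F [(12,256),(25,136),(9,15)]) (F [(12,147),(9,38),(20,26),(25,256),(35,74),(23,1)])) (F [(9,40),(12,26),(20,145),(25,256),(35,68)]))))))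

def c8 : Cell := ⟨⟨1,0,3⟩, ⟨0,1,1⟩, ⟨0,0,1⟩, ⟨5,7,10,10⟩, ⟨3,9,10,10⟩, ⟨3,7,10,12⟩, ⟨2,4,4,6⟩⟩

def t8 : Tr :=
  P2 1 2 (P4 1 2 (U1 1 2 (P5 1 2 (F [(23,256),(12,69)]) (P1 1 2 (P3 1 2 (U2 1 4 (F [(23,216),(12,139),(25,256),(9,79)]) (P5 2 1 (U0 1 1 (F [(23,256),(9,36),(25,231),(12,36)]) (U2 2 1 (F [(23,216),(12,177),(25,256),(9,109)]) (P2 1 2 (F [(23,177),(9,192),(25,256),(12,217)]) (F [(25,256),(9,69),(12,130),(23,128)])))) (F [(25,256),(9,2),(23,107)]))) (U2 1 4 (F [(23,256),(12,75),(25,189)]) (P0 1 2 (F [(23,256),(9,96),(25,61)]) (U0 1 1 (F [(23,256),(25,205)]) (P4 1 4 (U2 2 1 (F [(23,256),(12,74),(25,201)]) (P2 1 2 (F [(23,177),(9,192),(12,217),(25,256)]) (F [(25,256),(23,176),(12,119)]))) (F [(23,169),(25,256)])))))) (U2 1 4 (F [(23,256),(12,77),(25,187)]) (P3 2 1 (F [(23,251),(12,256),(25,206)]) (F [(23,256),(12,62),(25,11)])))))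 (P5 1 2 (F [(23,256),(12,69)]) (P1 1 2 (P3 1 2 (U0 1 2 (F [(9,89),(23,256),(25,253)]) (P5 2 1 (U2 1 1 (F [(9,21),(23,256),(25,220)]) (F [(9,256),(25,198),(23,16),(12,171)])) (F [(9,69),(25,256),(23,54)]))) (U0 1 2 (F [(9,89),(23,256),(25,253)]) (P0 1 2 (F [(23,256),(9,96),(25,61)]) (U2 1 1 (F [(9,6),(23,256),(25,210)]) (P4 1 4 (F [(9,13292),(23,8172),(25,16384),(12,13599)]) (F [(23,169),(25,256)])))))) (U0 1 2 (F [(9,94),(23,256),(25,30)]) (P3 2 1 (P2 1 1 (U2 1 1 (F [(23,256),(9,6),(25,210)]) (P4 1 4 (F [(23,11437),(9,9524),(25,16384),(12,13691)]) (F [(23,219),(25,256),(12,38)]))) (F [(23,219),(25,256),(12,38)])) (F [(23,256),(25,11),(12,62)])))))) (F [(23,169),(25,256),(9,2)])) (F [(25,256),(23,119),(12,1)])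

def c9 : Cell := ⟨⟨1,1,2⟩, ⟨0,1,1⟩, ⟨1,0,3⟩, ⟨9,15,18,22⟩, ⟨7,17,18,22⟩, ⟨7,15,18,24⟩, ⟨2,4,4,6⟩⟩

def t9 : Tr :=
  F [(9,8),(23,256),(25,118)]

def c10 : Cell := ⟨⟨3,0,5⟩, ⟨1,1,2⟩, ⟨1,0,3⟩, ⟨17,31,34,46⟩, ⟨7,17,18,22⟩, ⟨7,15,18,24⟩, ⟨2,4,4,6⟩⟩

def t10 : Tr :=
  F [(9,133),(23,256)]

def c11 : Cell := ⟨⟨3,0,5⟩, ⟨2,1,5⟩, ⟨1,0,3⟩, ⟨9,15,18,22⟩, ⟨7,17,18,22⟩, ⟨7,15,18,24⟩, ⟨17,31,34,46⟩⟩

def t11 : Tr :=
  P0 1 1 (F [(23,256),(9,104),(25,6)]) (P1 1 1 (P3 1 2 (P5 2 1 (U2 1 2 (F [(23,256),(12,184),(9,55)]) (P4 1 2 (F [(9,160),(12,256),(25,5)]) (F [(9,188),(23,137),(12,256),(25,205)]))) (U2 1 2 (F [(23,256),(9,111),(12,246)]) (F [(9,188),(23,137),(25,205),(12,256)]))) (U2 1 2 (F [(23,256),(12,176),(9,50)]) (P4 1 1 (P5 1 2 (F [(23,100),(12,256),(9,205)]) (P0 2 1 (F [(23,204),(9,256),(12,255)]) (U0 1 1 (F [(9,196),(23,140),(12,256)])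 (U2 2 1 (U1 1 1 (P3 1 2 (F [(23,147),(12,256),(9,183),(25,215)]) (F [(12,256),(23,151),(25,232),(9,166)])) (P3 1 2 (F [(9,188),(23,144),(25,230),(12,256)]) (F [(23,148),(9,171),(12,256),(25,213)]))) (P3 1 2 (F [(9,188),(23,144),(25,230),(12,256)]) (F [(9,10932),(23,9368),(12,16384),(25,14751)])))))) (P0 1 1 (F [(23,256),(25,244),(9,37)]) (P2 2 1 (P5 1 1 (U0 1 1 (F [(23,256),(9,13),(25,52)]) (U2 2 1 (F [(23,256),(25,47)]) (P4 1 1 (P2 1 2 (F [(23,256)]) (U0 2 1 (F [(23,256),(9,15)]) (F [(23,10665),(9,10084),(25,16384),(12,15447)]))) (U0 2 1 (F [(23,256),(9,13),(25,47)]) (F [(23,161),(25,256),(9,152),(12,233)]))))) (U0 1 1 (F [(23,256),(9,13),(25,52)]) (U2 2 1 (F [(23,256),(25,47)]) (P1 1 2 (F [(9,75),(23,256),(25,169)]) (U0 2 1 (F [(23,256),(9,13),(25,47)]) (F [(9,153),(23,161),(25,256),(12,234)])))))) (U0 1 1 (U1 2 1 (U2 1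 1 (F [(23,184),(12,248),(25,256),(9,157)]) (F [(9,155),(23,164),(25,256),(12,226)])) (F [(9,256),(23,176)])) (U2 2 1 (U1 1 1 (P5 2 1 (F [(12,231),(23,149),(25,256),(9,145)]) (F [(23,141),(25,256),(12,219),(9,147)])) (P5 2 1 (P0 2 1 (F [(23,237),(25,256),(12,29)]) (F [(9,169),(23,158),(25,249),(12,256)])) (F [(9,168),(23,40),(25,256),(12,79)]))) (P5 2 1 (P0 2 1 (F [(9,146),(25,256),(23,157),(12,226)]) (P2 4 1 (U0 2 1 (F [(9,167),(23,164),(25,256),(12,255)]) (F [(9,10646),(25,16384),(12,16280),(23,10064)])) (F [(9,178),(25,254),(12,256),(23,141)]))) (F [(9,30),(25,256),(23,16)]))))))))) (U2 1 2 (F [(12,181),(23,256),(9,43)]) (P2 2 1 (P4 1 1 (F [(23,98),(12,256),(9,201)]) (P3 1 1 (P1 1 2 (P5 2 1 (U0 1 1 (F [(23,256),(12,74),(9,56)]) (U2 2 1 (F [(23,256),(12,85),(25,49)]) (P2 1 2 (P4 1 1 (P5 1 2 (F [(23,256),(12,66)]) (U0 2 1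 (F [(23,256),(9,15)]) (U2 4 1 (F [(23,256),(12,82)]) (P3 1 1 (F [(23,164),(12,256),(25,254),(9,160)]) (F [(23,256),(25,29)]))))) (P0 1 4 (U0 2 1 (F [(23,256),(25,47),(9,13)]) (F [(25,16384),(23,10242),(12,14890),(9,9697)])) (U0 2 1 (F [(23,256),(9,15)]) (U2 4 1 (F [(23,256),(12,82)]) (P5 1 1 (F [(23,256),(25,216),(12,115)]) (P1 1 2 (F [(23,160),(25,256),(12,247),(9,153)]) (F [(23,256),(12,206),(25,217)]))))))) (P0 1 2 (P4 4 1 (U0 2 1 (F [(23,256),(25,218),(9,8)]) (U2 4 1 (F [(12,42),(23,256),(25,214)]) (P2 1 1 (P5 2 1 (F [(23,256),(12,230),(25,238)]) (F [(23,153),(12,240),(25,256),(9,145)])) (F [(25,256),(12,236),(23,150),(9,147)])))) (F [(25,256),(23,149),(9,138),(12,220)])) (F [(12,256),(23,145),(25,246),(9,155)]))))) (U0 1 1 (U1 2 1 (U2 1 1 (F [(12,256),(23,171),(25,141)]) (P3 1 2 (F [(12,256),(23,152),(9,166),(25,243)])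 (F [(23,241),(12,256),(25,248),(9,171)]))) (F [(23,256),(9,204),(12,122)])) (U2 2 1 (U1 1 1 (F [(12,256),(23,93),(25,254)]) (P3 1 2 (F [(12,256),(23,135),(25,234),(9,162)]) (P0 1 2 (F [(23,237),(25,256),(12,29)]) (F [(12,256),(23,141),(25,243),(9,159)])))) (P3 1 2 (F [(12,256),(9,161),(25,237),(23,135)]) (P0 1 2 (F [(25,256),(9,138),(23,149),(12,220)]) (F [(12,256),(25,243),(23,139),(9,160)])))))) (P0 1 1 (U0 1 1 (F [(23,256),(12,74),(9,56)]) (U2 2 1 (F [(23,256),(12,85),(25,49)]) (P5 1 2 (F [(23,242),(12,152),(25,256)]) (P3 2 1 (F [(12,256),(23,149),(25,249),(9,148)]) (F [(23,194),(25,256),(12,96)]))))) (F [(12,256),(23,112)]))) (F [(23,237),(25,256),(12,142)]))) (P0 2 1 (P3 1 1 (P1 1 2 (P5 2 1 (P4 1 1 (F [(12,256),(23,151),(25,254),(9,142)]) (U0 1 1 (F [(23,195),(12,227),(25,256),(9,134)]) (U2 2 1 (F [(12,225),(23,219),(25,256),(9,109)])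 (P3 2 1 (F [(12,256),(25,254),(23,146),(9,150)]) (F [(25,256),(12,22),(23,156)]))))) (U0 1 1 (U1 2 1 (U2 1 1 (F [(12,256),(23,171),(25,141)]) (P3 1 2 (F [(12,249),(23,140),(25,256),(9,154)]) (F [(23,196),(25,256),(12,234),(9,144)]))) (F [(23,175),(9,156),(25,256),(12,229)])) (U2 2 1 (U1 1 1 (F [(12,153),(25,256)]) (P3 1 2 (F [(12,256),(25,236),(9,157)]) (P4 2 1 (F [(12,221),(25,256),(23,130),(9,125)]) (F [(25,256),(23,146)])))) (P3 1 2 (F [(25,251),(12,256),(9,168)]) (P4 2 1 (F [(25,253),(12,256),(23,141),(9,157)]) (F [(25,256),(9,1),(23,143)])))))) (F [(23,206),(12,130),(25,256)])) (F [(23,237),(25,256),(12,142)])) (P1 2 1 (P3 1 2 (P5 2 1 (F [(12,255),(23,150),(25,256),(9,140)]) (F [(12,252),(25,256),(23,138),(9,153)])) (F [(12,127),(25,256),(23,173)])) (F [(12,256),(25,202),(23,189)]))))))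

theorem g0 : ∀ c ∈ [c0, c1, c2, c3, c4, c5, c6, c7, c8, c9, c10, c11], Done D c := by
  intro c hc
  simp only [List.mem_cons, List.not_mem_nil, or_false] at hc
  rcases hc with rfl | rfl | rfl | rfl | rfl | rfl | rfl | rfl | rfl | rfl | rfl | rfl
  · exact done_of_chk (t := t0) (by decide +kernel)
  · exact done_of_chk (t := t1) (by decide +kernel)
  · exact done_of_chk (t := t2) (by decide +kernel)
  · exact done_of_chk (t := t3) (by decide +kernel)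
  · exact done_of_chk (t := t4) (by decide +kernel)
  · exact done_of_chk (t := t5) (by decide +kernel)
  · exact done_of_chk (t := t6) (by decide +kernel)
  · exact done_of_chk (t := t7) (by decide +kernel)
  · exact done_of_chk (t := t8) (by decide +kernel)
  · exact done_of_chk (t := t9) (by decide +kernel)
  · exact done_of_chk (t := t10) (by decide +kernel)
  · exact done_of_chk (t := t11) (by decide +kernel)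

end Pool.Agent.W2helper59.NW.E1
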