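import Pool.Agent.W2helper59.NW.D_E1

set_option autoImplicit false
set_option maxRecDepth 1000000

namespace Pool.Agent.W2helper59.NW.E1

open Tr

def c12 : Cell := ⟨⟨3,0,5⟩, ⟨1,1,2⟩, ⟨2,1,5⟩, ⟨9,15,18,22⟩, ⟨7,17,18,22⟩, ⟨7,15,18,24⟩, ⟨17,31,34,46⟩⟩

def t12 : Tr :=
  P0 1 1 (F [(9,123),(23,256),(25,53)]) (P1 1 1 (P3 1 2 (F [(9,256),(12,159)]) (U0 1 2 (F [(9,256),(23,238)]) (P4 1 1 (F [(9,256),(23,116)]) (F [(9,256),(23,136),(25,69)])))) (U0 1 2 (P2 2 1 (F [(9,121),(23,256)]) (F [(9,117),(23,177),(25,256),(12,169)])) (P2 2 1 (P4 1 1 (F [(9,224),(23,108),(12,256)]) (P3 1 1 (P1 1 2 (P5 2 1 (U2 1 1 (F [(9,256),(23,37),(12,83)]) (U0 2 1 (F [(9,256),(23,37),(12,83)]) (P2 1 2 (P4 1 1 (P5 1 2 (F [(23,256),(12,66)]) (U2 2 1 (F [(23,256),(9,129)]) (U0 4 1 (F [(9,129),(23,256)]) (P3 1 1 (F [(23,10722),(9,10412),(25,16102),(12,16384)]) (F [(23,256),(25,29)])))))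 (P0 1 4 (F [(9,229),(23,2),(25,256)]) (U2 2 1 (F [(9,53),(23,256)]) (U0 4 1 (F [(9,116),(23,256)]) (P5 1 1 (F [(23,256),(25,148),(12,50)]) (P1 1 2 (U2 4 1 (F [(9,113),(23,256),(25,52)]) (P3 1 4 (F [(9,160),(23,166),(25,256),(12,253)]) (F [(9,148),(25,256),(23,182),(12,242)]))) (F [(23,256),(25,91),(12,61)]))))))) (P0 1 2 (P4 4 1 (U2 2 1 (F [(9,37),(23,256),(25,242)]) (U0 4 1 (F [(9,58),(23,256),(25,234)]) (P2 1 1 (P5 2 1 (P4 1 2 (F [(23,162),(9,150),(12,247),(25,256)]) (U2 4 1 (F [(23,256),(9,8),(25,216)]) (U0 8 1 (F [(9,154),(23,160),(25,256),(12,243)]) (F [(25,256),(23,164),(12,243),(9,147)])))) (U2 4 1 (F [(9,11),(23,256),(25,118)]) (P3 1 4 (F [(9,162),(25,255),(23,149),(12,256)]) (U0 8 1 (F [(9,154),(25,256),(23,160),(12,243)]) (F [(25,256),(9,148),(23,163),(12,243)]))))) (F [(9,149),(25,256),(23,142),(12,230)])))) (F [(9,256),(25,236)]))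 (F [(9,10148),(23,8801),(25,15174),(12,16384)]))))) (F [(9,256),(25,151),(12,176)])) (P0 1 1 (U2 1 1 (F [(9,219),(23,256),(12,122)]) (U0 2 1 (F [(9,219),(23,256),(12,122)]) (P5 1 2 (F [(23,256),(25,209),(12,44)]) (P3 2 1 (U2 2 1 (F [(9,153),(23,158),(12,248),(25,256)]) (U0 4 1 (F [(9,155),(25,256),(23,156),(12,250)]) (P5 2 1 (P4 1 1 (F [(12,256),(23,154),(25,255),(9,153)]) (F [(25,256),(12,249),(9,150),(23,141)])) (F [(12,256),(25,242),(9,92)])))) (P4 4 1 (U2 2 1 (F [(9,7),(23,256),(25,252)]) (U0 4 1 (F [(9,48),(23,256),(25,250)]) (P5 1 1 (F [(23,166),(25,256),(12,233),(9,139)]) (F [(25,256),(23,148)])))) (F [(25,256),(23,146)])))))) (U2 1 1 (F [(23,256),(9,127),(12,189)]) (U0 2 1 (F [(9,198),(23,256),(12,137)]) (P5 1 2 (P2 1 1 (F [(23,256),(12,44),(25,209)]) (P1 4 1 (F [(23,256),(12,55),(25,150)]) (P0 2 1 (U2 2 1 (F [(23,256),(9,14)]) (U0 4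 1 (F [(23,168),(12,241),(9,140),(25,256)]) (F [(12,196),(23,139),(25,256)]))) (F [(12,256),(23,53),(9,135)])))) (P1 2 1 (U2 2 1 (F [(12,203),(23,256),(9,136)]) (U0 4 1 (F [(12,253),(9,155),(23,156),(25,256)]) (F [(12,16384),(23,9619),(25,15784),(9,9507)]))) (P2 4 1 (U2 2 1 (F [(23,256),(12,89),(9,68)]) (U0 4 1 (F [(12,253),(23,156),(9,154),(25,256)]) (F [(12,252),(23,182),(25,256),(9,128)]))) (P0 2 1 (U2 2 1 (F [(12,89),(23,256),(9,68)]) (U0 4 1 (F [(12,251),(23,153),(9,149),(25,256)]) (F [(12,246),(25,256)]))) (F [(12,256),(9,145)]))))))))) (P0 1 2 (F [(23,256),(25,256)]) (P1 1 1 (F [(23,156),(25,256),(12,2)]) (U2 1 1 (F [(23,256),(9,14)]) (U0 2 1 (F [(23,256),(9,157),(12,88)]) (P2 1 1 (F [(23,242),(12,30),(25,256)]) (P0 2 1 (F [(23,242),(12,30),(25,256)]) (P1 2 1 (U2 2 1 (F [(23,256),(9,14)]) (U0 4 1 (F [(23,161),(12,244),(25,256),(9,144)])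 (F [(12,143),(23,171),(25,256)]))) (F [(12,222),(23,256),(9,77)])))))))))) (P0 2 1 (P3 1 1 (P1 1 2 (P5 2 1 (P4 1 1 (U2 1 1 (F [(9,143),(23,188),(12,228),(25,256)]) (U0 2 1 (F [(9,163),(23,151),(25,253),(12,256)]) (P2 1 2 (P5 1 2 (P4 1 2 (F [(12,256),(9,147)]) (U2 2 1 (F [(12,256),(23,162),(25,256),(9,154)]) (U0 4 1 (F [(12,250),(23,150),(25,256),(9,149)]) (F [(12,163),(25,256)])))) (F [(12,16384),(23,8967),(25,15598),(9,9825)])) (F [(25,256),(12,249),(9,147),(23,142)])))) (U2 1 1 (F [(9,161),(23,170),(25,256),(12,229)]) (U0 2 1 (F [(9,161),(25,256),(23,170),(12,229)]) (P3 2 1 (F [(25,16360),(9,9966),(12,16384),(23,9282)]) (F [(25,256),(23,146)]))))) (F [(9,256),(25,173),(12,177)])) (P4 1 1 (U2 1 1 (F [(23,256),(9,10),(25,132)]) (U0 2 1 (P2 1 1 (F [(9,144),(23,155),(25,256),(12,238)]) (F [(9,40),(25,256),(23,239)])) (P2 1 1 (P5 1 2 (P4 1 2 (F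 [(12,248),(23,148),(25,256),(9,132)]) (U2 2 1 (F [(12,227),(23,169),(25,256),(9,132)]) (U0 4 1 (F [(12,238),(25,256),(23,159),(9,139)]) (F [(12,156),(25,256)])))) (F [(25,256),(12,187),(23,135),(9,107)])) (F [(25,256),(23,146)])))) (F [(25,256),(23,146)]))) (P4 2 1 (P5 1 1 (U2 1 1 (F [(23,256),(9,12),(25,54)]) (U0 2 1 (F [(23,256),(25,48)]) (P2 1 1 (P4 1 2 (P5 1 2 (F [(12,72),(23,256),(25,80)]) (U2 2 1 (F [(23,256),(25,50)]) (U0 4 1 (F [(12,236),(23,182),(25,256),(9,135)]) (F [(12,156),(25,256)])))) (F [(23,178),(25,256),(12,9)])) (F [(25,256),(23,146)])))) (F [(23,146),(25,256)])) (F [(23,184),(25,256)]))) (P1 2 1 (P3 1 2 (P5 2 1 (U2 1 1 (F [(9,152),(23,165),(12,244),(25,256)]) (U0 2 1 (F [(9,158),(25,250),(12,256),(23,137)]) (F [(12,256),(25,218),(9,104)]))) (F [(9,256),(25,234),(23,16),(12,207)])) (U2 1 1 (F [(9,7930),(23,11222),(25,16384),(12,13409)])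 (U0 2 1 (P4 1 1 (F [(9,144),(25,256),(23,155),(12,238)]) (F [(25,256),(23,82),(12,2)])) (F [(25,253),(12,256),(9,72)])))) (U2 1 1 (U1 1 2 (F [(12,202),(25,256),(23,171),(9,102)]) (P4 1 1 (F [(25,256),(12,224),(9,123),(23,157)]) (F [(25,256),(9,5),(23,92)]))) (U0 2 1 (P4 1 1 (F [(25,256),(12,237),(9,134),(23,144)]) (F [(25,256),(12,2),(23,82)])) (F [(25,256),(12,252),(23,95)]))))))))

def c13 : Cell := ⟨⟨1,0,1⟩, ⟨1,1,2⟩, ⟨3,0,5⟩, ⟨17,31,34,46⟩, ⟨7,17,18,22⟩, ⟨7,15,18,24⟩, ⟨2,4,4,6⟩⟩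

def t13 : Tr :=
  F [(9,234),(23,256),(12,104)]

def c14 : Cell := ⟨⟨1,0,1⟩, ⟨1,1,2⟩, ⟨3,0,5⟩, ⟨16,32,36,44⟩, ⟨7,17,18,22⟩, ⟨7,15,18,24⟩, ⟨17,31,34,46⟩⟩

def t14 : Tr :=
  F [(9,131),(23,256),(25,54)]

def c15 : Cell := ⟨⟨1,0,1⟩, ⟨1,1,2⟩, ⟨3,0,5⟩, ⟨16,30,36,46⟩, ⟨16,32,36,44⟩, ⟨7,15,18,24⟩, ⟨17,31,34,46⟩⟩

def t15 : Tr :=
  P3 1 2 (F [(9,256),(12,159)]) (U0 2 1 (U1 2 1 (P4 1 1 (F [(9,256),(23,116)]) (F [(9,256),(25,69),(23,136)])) (F [(9,256)])) (U2 4 1 (P4 1 1 (F [(9,256),(23,116)]) (F [(9,256),(25,69),(23,136)])) (F [(9,256),(25,39)])))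

def c16 : Cell := ⟨⟨3,1,4⟩, ⟨1,1,2⟩, ⟨3,0,5⟩, ⟨9,15,18,22⟩, ⟨16,32,36,44⟩, ⟨16,30,36,46⟩, ⟨17,31,34,46⟩⟩

def t16 : Tr :=
  U1 2 1 (P2 2 1 (P4 1 1 (F [(9,224),(23,108),(12,256)]) (U2 1 1 (P3 1 1 (P1 1 2 (P5 2 1 (U1 1 2 (U2 1 2 (P2 1 2 (P4 1 1 (P5 1 2 (F [(9,16),(23,256)]) (U1 1 4 (U2 1 4 (P3 1 1 (F [(9,675655),(23,697010),(25,1021262),(12,1048576)]) (F [(23,256),(9,15),(25,12)])) (F [(9,256)])) (F [(9,256)]))) (P0 1 4 (F [(9,225),(25,256)]) (U1 1 4 (U2 1 4 (P5 1 1 (F [(9,12),(23,256),(25,92)]) (P1 1 2 (P3 1 4 (F [(9,10332),(25,16384),(23,10571),(12,16247)]) (U1 1 8 (P0 1 1 (F [(9,31),(25,256)]) (F [(9,161),(25,256),(23,165),(12,253)])) (F [(9,256),(25,27)]))) (P0 2 1 (U1 1 8 (P3 1 1 (F [(9,159),(25,256),(23,170),(12,252)]) (F [(25,256),(23,155)])) (F [(9,117),(25,52),(23,256)])) (F [(9,39),(23,256),(12,39)])))) (F [(9,256)])) (F [(9,256)]))))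 (P0 1 2 (P4 4 1 (U1 1 4 (U2 1 4 (P2 1 1 (P5 2 1 (P4 1 2 (U1 1 8 (U2 1 8 (F [(12,253),(23,158),(25,256),(9,154)]) (F [(9,158),(23,158),(25,256),(12,254)])) (F [(9,256),(23,90)])) (U1 1 8 (F [(25,16384),(9,9698),(23,9534),(12,15697)]) (F [(9,256),(25,230),(23,31)]))) (P3 1 4 (F [(9,184),(25,187),(12,256)]) (U1 1 8 (F [(9,9698),(25,16384),(23,9534),(12,15697)]) (F [(9,256),(25,205)])))) (F [(9,58),(25,256)])) (F [(9,256)])) (F [(9,256)])) (F [(9,256),(25,236)])) (F [(9,170),(25,93),(12,256)]))) (F [(9,256)])) (F [(9,256)])) (F [(9,256),(25,230),(12,226)])) (P0 1 1 (U1 1 2 (U2 1 2 (P5 1 2 (P4 1 1 (P2 1 2 (F [(23,256),(9,16)]) (U1 1 4 (U2 1 4 (P0 1 1 (F [(23,256),(25,39),(9,14)]) (P2 2 1 (F [(23,256),(25,42)]) (U1 1 8 (P1 2 1 (F [(23,164),(25,256),(12,244),(9,148)]) (F [(25,256),(12,110)])) (P1 2 1 (F [(23,161),(9,152),(25,256),(12,243)]) (F [(25,256),(23,149)])))))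 (F [(9,256),(23,32),(25,235)])) (F [(9,256),(23,38),(25,238)]))) (P3 4 1 (U1 1 4 (U2 1 4 (P2 1 1 (F [(25,92),(23,256),(9,12)]) (P0 4 1 (F [(25,147),(9,10),(23,256)]) (U1 1 8 (P1 2 1 (F [(25,16384),(23,10717),(12,15246),(9,9258)]) (F [(25,256),(12,110)])) (P1 2 1 (F [(23,161),(9,152),(25,256),(12,243)]) (F [(25,256),(23,149)]))))) (F [(9,256),(25,208)])) (F [(9,256),(25,207)])) (F [(9,29),(25,256)]))) (P3 2 1 (U1 1 4 (U2 1 4 (P5 2 1 (P4 1 1 (F [(12,16384),(25,16212),(9,9844),(23,9640)]) (F [(25,256),(9,145),(12,199)])) (F [(12,199),(25,256),(9,145)])) (F [(9,256),(25,208)])) (F [(9,256),(25,207)])) (P4 4 1 (U1 1 4 (U2 1 4 (P5 1 1 (P0 4 1 (P4 1 2 (U1 1 8 (P2 1 4 (U2 1 8 (F [(12,243),(23,158),(25,256),(9,136)]) (F [(9,156),(25,256),(23,159),(12,252)])) (F [(25,256),(23,101)])) (F [(9,241),(25,171),(23,256)])) (F [(25,256),(9,23),(23,38)])) (U1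 1 8 (P2 2 1 (P4 1 4 (F [(12,16199),(23,9933),(25,16384),(9,9827)]) (F [(25,256),(12,75),(23,47)])) (F [(25,256),(12,110)])) (F [(25,16384),(9,9734),(23,9962),(12,15866)]))) (F [(25,256),(9,29)])) (F [(9,256),(25,208)])) (F [(9,256),(25,207)])) (F [(9,29),(25,256)])))) (F [(9,256)])) (F [(9,256)])) (U1 1 2 (U2 1 2 (P5 1 2 (P2 1 1 (P4 1 2 (F [(23,256),(9,16)]) (U1 1 4 (U2 1 4 (P0 1 1 (P4 2 1 (F [(23,256),(25,30)]) (U1 1 8 (P3 2 1 (F [(12,251),(23,162),(25,256),(9,150)]) (F [(12,147),(25,256)])) (P3 2 1 (F [(23,161),(12,249),(25,256),(9,151)]) (F [(23,160),(25,256),(12,24)])))) (F [(23,256),(12,34)])) (P0 1 1 (P4 2 1 (F [(23,256),(9,15),(25,13)]) (F [(9,9715),(23,9979),(25,16384),(12,15951)])) (F [(23,256),(9,15)]))) (F [(9,54),(23,256),(25,235)]))) (P1 4 1 (U1 1 4 (U2 1 4 (P4 1 1 (F [(12,58),(23,256)]) (P1 1 2 (F [(12,16384),(23,9675),(25,16184),(9,9773)])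 (F [(12,204),(23,232),(25,256)]))) (P4 1 1 (F [(23,256),(12,92),(9,70)]) (F [(9,9912),(12,16384),(23,9704),(25,16297)]))) (F [(9,156),(23,162),(12,250),(25,256)])) (P0 2 1 (U1 1 4 (U2 1 4 (F [(12,196),(23,139),(25,256)]) (P4 1 1 (F [(12,256),(23,186),(9,163)]) (F [(12,256),(23,150),(25,256),(9,152)]))) (F [(9,158),(23,160),(12,254),(25,256)])) (F [(12,256),(23,45),(9,148)])))) (P1 2 1 (U1 1 4 (U2 1 4 (P5 2 1 (P2 1 1 (F [(12,16384),(23,9522),(25,16092),(9,9841)]) (F [(12,256),(25,233),(9,83)])) (F [(12,207),(25,256),(9,139)])) (F [(9,256),(12,214),(25,209)])) (F [(9,256),(12,214),(25,209)])) (P2 4 1 (U1 1 4 (U2 1 4 (P5 1 1 (P2 1 2 (F [(12,16384),(23,9536),(25,16101),(9,9835)]) (F [(12,256),(23,165),(25,249)])) (F [(12,256),(25,225)])) (F [(12,256),(9,163),(23,134),(25,245)])) (F [(9,157),(12,253),(23,153),(25,256)])) (P0 2 1 (U1 1 4 (F [(12,256),(25,227),(9,96)])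 (F [(12,253),(9,152),(23,147),(25,256)])) (F [(12,256),(9,143)]))))) (F [(9,256),(12,176)])) (F [(9,256),(12,172)])))) (P0 1 2 (F [(9,8),(25,254),(23,256)]) (P1 1 1 (F [(9,2),(23,139),(25,256)]) (U1 1 2 (U2 1 2 (P2 1 1 (F [(23,256),(9,6),(25,256)]) (P0 2 1 (F [(23,256),(25,256),(9,6)]) (P1 2 1 (U1 1 4 (U2 1 4 (F [(12,143),(23,171),(25,256)]) (P5 1 1 (F [(12,256),(23,173),(25,240),(9,147)]) (F [(12,248),(25,256),(23,150),(9,146)]))) (F [(23,160),(9,148),(12,244),(25,256)])) (F [(12,256),(23,163),(25,92)])))) (P2 1 1 (F [(9,256),(23,149),(25,59)]) (P0 2 1 (F [(9,42),(23,256),(25,243)]) (F [(9,154),(23,152),(12,255),(25,256)])))) (F [(9,193),(23,256),(12,112)]))))) (F [(9,256)]))) (U2 1 1 (P0 2 1 (P3 1 1 (P1 1 2 (P5 2 1 (P4 1 1 (U1 1 2 (U2 1 2 (P2 1 2 (P5 1 2 (P4 1 2 (F [(12,256),(25,2),(9,147)]) (F [(12,256),(25,199),(9,176)])) (F [(12,229),(9,166),(25,256)]))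 (F [(25,256),(9,98),(12,116)])) (F [(9,256),(25,34),(12,197)])) (F [(9,256),(12,165)])) (F [(9,98),(25,256),(12,116)])) (F [(9,181),(25,256),(12,219)])) (P4 1 1 (U1 1 2 (P2 1 1 (U2 1 2 (P5 1 2 (P4 1 2 (F [(12,248),(25,256),(23,141),(9,133)]) (U1 1 4 (F [(12,187),(25,256),(9,47)]) (F [(25,256),(12,239),(9,141),(23,148)]))) (F [(25,256),(12,69),(9,66)])) (F [(9,148),(25,256),(23,112),(12,244)])) (F [(25,256),(9,29)])) (P2 1 1 (F [(9,144),(25,256),(23,142),(12,239)]) (F [(9,57),(25,256)]))) (F [(9,29),(25,256)]))) (P4 2 1 (P5 1 1 (U1 1 2 (P2 1 1 (U2 1 2 (P4 1 2 (P5 1 2 (F [(12,256),(23,163),(25,205),(9,70)]) (U1 1 4 (F [(12,166),(25,256),(9,15)]) (F [(25,256),(12,240),(23,149),(9,140)]))) (F [(25,256),(23,149)])) (P4 1 2 (F [(9,148),(25,256),(23,144),(12,250)]) (F [(25,256),(23,149)]))) (F [(25,256),(9,29)])) (P2 1 1 (F [(9,146),(23,178),(25,256),(12,232)])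 (F [(9,57),(25,256)]))) (F [(9,29),(25,256)])) (F [(25,256),(9,2),(23,170)]))) (P1 2 1 (P3 1 2 (F [(9,174),(25,146),(12,256)]) (U1 1 2 (P4 1 1 (F [(25,242),(9,91),(12,256)]) (F [(25,256)])) (P4 1 1 (F [(9,144),(25,256),(23,142),(12,239)]) (F [(9,28),(25,256)])))) (U1 1 2 (P4 1 1 (F [(25,242),(12,256),(9,89)]) (F [(25,256)])) (P4 1 1 (F [(9,139),(25,256),(12,240),(23,139)]) (F [(25,256),(9,28)]))))) (F [(9,256),(25,223)]))) (F [(9,256),(25,204)])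

def c17 : Cell := ⟨⟨7,0,9⟩, ⟨3,1,4⟩, ⟨3,0,5⟩, ⟨35,61,70,90⟩, ⟨33,63,70,90⟩, ⟨16,30,36,46⟩, ⟨17,31,34,46⟩⟩

def t17 : Tr :=
  F [(9,224),(23,108),(12,256)]

def c18 : Cell := ⟨⟨7,0,9⟩, ⟨6,1,9⟩, ⟨3,0,5⟩, ⟨67,121,142,182⟩, ⟨32,62,72,90⟩, ⟨16,30,36,46⟩, ⟨33,63,70,90⟩⟩

def t18 : Tr :=
  P5 2 1 (U2 1 2 (U1 1 2 (P2 1 2 (P4 1 1 (P5 1 2 (F [(9,188),(23,256),(12,120)]) (U2 1 4 (U1 1 4 (P3 1 1 (P5 2 1 (F [(9,177),(23,256),(12,101)]) (P1 1 2 (F [(9,164),(25,256),(23,161),(12,256)]) (P0 1 1 (F [(9,164),(25,256),(23,163),(12,256)]) (U2 1 8 (F [(9,10197),(23,10234),(12,16384),(25,16116)]) (F [(9,11576),(23,11834),(25,14762),(12,16384)]))))) (F [(23,256),(9,177),(12,101)])) (F [(9,256),(12,73)])) (F [(9,256),(12,73)]))) (P0 1 4 (F [(9,225),(25,256)]) (U2 1 4 (U1 1 4 (P5 1 1 (P2 1 2 (F [(25,256),(9,1),(23,162)]) (P0 2 1 (F [(25,256),(23,42)]) (P1 1 1 (F [(25,256),(23,156)])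 (U2 1 8 (F [(23,256),(25,147),(12,51)]) (P2 2 1 (F [(25,256),(23,157)]) (P0 4 1 (F [(25,256),(23,153)]) (P1 2 1 (F [(9,156),(23,156),(25,256),(12,252)]) (U0 1 1 (F [(9,158),(23,160),(25,254),(12,256)]) (U2 2 1 (U1 1 1 (F [(12,256),(23,158),(25,256),(9,154)]) (P2 4 1 (F [(9,155),(23,158),(25,256),(12,252)]) (F [(9,157),(23,149),(12,256),(25,248)]))) (P2 4 1 (F [(9,10124),(25,16384),(23,10025),(12,16370)]) (F [(9,168),(25,95),(12,256)]))))))))))) (P1 1 2 (P3 1 4 (F [(9,10485),(25,16384),(23,10245),(12,16357)]) (U2 1 8 (P0 1 1 (F [(25,256)]) (F [(9,162),(25,256),(23,161),(12,254)])) (F [(9,256),(25,26)]))) (P0 2 1 (U2 1 8 (P3 1 1 (F [(9,158),(25,256),(23,158),(12,250)]) (F [(25,256)])) (F [(9,256),(25,234)])) (P2 1 1 (F [(9,158),(25,256),(23,158),(12,250)]) (U2 1 8 (U1 1 8 (F [(12,16333),(23,10018),(25,16384),(9,9943)]) (P1 2 1 (F [(9,10133),(23,9906),(25,16384),(12,16299)])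 (P0 4 1 (F [(9,10128),(23,9910),(25,16384),(12,16295)]) (F [(23,256),(12,70)])))) (P1 2 1 (F [(9,161),(25,256),(23,150),(12,256)]) (P0 4 1 (F [(9,10128),(25,16384),(23,9910),(12,16295)]) (P2 2 1 (F [(9,10131),(25,16384),(23,9981),(12,16319)]) (F [(9,157),(23,151),(12,256),(25,251)]))))))))) (F [(9,256),(12,73)])) (F [(9,256),(12,73)])))) (P0 1 2 (P4 4 1 (U2 1 4 (U1 1 4 (P2 1 1 (P5 2 1 (P4 1 2 (U2 1 8 (U1 1 8 (F [(12,254),(25,256),(23,153),(9,153)]) (P2 1 2 (P5 1 2 (P4 1 4 (F [(12,256),(23,155),(9,157),(25,253)]) (F [(9,158),(25,256),(23,152),(12,254)])) (F [(9,157),(25,256),(23,149),(12,253)])) (F [(9,145),(25,256),(12,206)]))) (P2 1 2 (P5 1 2 (P4 1 4 (F [(9,157),(12,256),(25,251),(23,151)]) (F [(9,157),(25,256),(23,144),(12,253)])) (F [(9,187),(25,238),(12,256)])) (F [(9,154),(25,256),(12,205)]))) (F [(25,256),(9,153),(23,135),(12,248)])) (F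 [(9,149),(25,244),(12,256)])) (F [(25,256),(9,58)])) (F [(9,256),(12,98)])) (F [(9,256),(12,98)])) (F [(9,256),(25,236)])) (F [(9,151),(25,107),(12,256)]))) (F [(9,256)])) (F [(9,256)])) (F [(9,256),(25,230),(12,226)])

def c19 : Cell := ⟨⟨13,0,19⟩, ⟨12,1,19⟩, ⟨3,0,5⟩, ⟨67,123,142,180⟩, ⟨32,62,72,90⟩, ⟨133,247,282,362⟩, ⟨33,63,70,90⟩⟩

def t19 : Tr :=
  P4 1 1 (P2 1 2 (F [(23,256),(9,188),(12,120)]) (U2 1 4 (U1 1 4 (P0 1 1 (P3 2 1 (U2 1 8 (F [(23,256),(25,89),(12,60)]) (P1 1 1 (P5 1 1 (F [(23,253),(25,256)]) (P3 1 2 (U0 1 1 (F [(23,256),(9,14),(25,37)]) (U2 2 1 (P1 1 2 (F [(23,166),(12,256),(25,255),(9,154)]) (F [(23,154),(25,256)])) (P1 1 2 (P5 2 1 (P4 1 2 (P2 1 2 (F [(23,256),(9,103),(25,44)]) (U0 2 1 (F [(23,158),(9,156),(25,256),(12,254)]) (U2 4 1 (F [(23,157),(25,256),(12,253),(9,154)]) (P0 2 1 (F [(23,256),(9,100),(25,53)]) (P1 1 1 (F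 [(23,9997),(9,10005),(25,16384),(12,16363)]) (F [(25,256),(9,154),(23,154),(12,252)])))))) (P3 1 1 (U0 2 1 (F [(23,158),(9,156),(25,256),(12,254)]) (U2 4 1 (F [(23,157),(25,256),(9,154),(12,253)]) (P2 2 1 (F [(9,100),(23,256),(25,53)]) (F [(9,10039),(25,16351),(23,9958),(12,16384)])))) (F [(9,8),(23,114),(25,256)]))) (P3 1 4 (F [(9,156),(12,256),(23,149),(25,248)]) (P4 1 1 (U0 2 1 (F [(9,157),(23,157),(12,256),(25,256)]) (U2 4 1 (F [(23,10028),(12,16296),(9,9936),(25,16384)]) (F [(9,10053),(23,9907),(25,16282),(12,16384)]))) (F [(9,156),(23,156),(25,256),(12,253)])))) (F [(25,256),(23,83),(9,13)])))) (F [(23,189),(25,256)]))) (F [(25,256),(23,87),(9,14)]))) (F [(25,256),(23,190)])) (P2 2 1 (U2 1 8 (F [(23,256),(25,89),(12,60)]) (P3 1 1 (P5 1 1 (F [(23,253),(25,256)]) (P1 1 2 (U0 1 1 (F [(23,256),(25,39)]) (U2 2 1 (P3 1 2 (F [(12,256),(23,158),(25,255),(9,155)])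 (F [(23,154),(25,256)])) (P3 1 2 (P5 2 1 (P4 1 2 (P2 1 2 (F [(23,256),(12,10),(25,42)]) (U0 2 1 (F [(23,256),(25,211)]) (U2 4 1 (F [(12,40),(23,256),(25,211)]) (P1 1 1 (P5 2 1 (F [(25,256),(23,154)]) (U0 4 1 (F [(23,256),(12,207),(25,212)]) (U2 8 1 (F [(12,207),(23,256),(25,212)]) (P1 1 2 (F [(23,9973),(12,16358),(25,16384),(9,9988)]) (F [(25,256),(12,254),(23,155),(9,154)]))))) (F [(25,256),(23,154)]))))) (U0 2 1 (F [(23,10135),(25,16384),(12,15953),(9,9728)]) (U2 4 1 (F [(12,16168),(25,16384),(23,10038),(9,9819)]) (P1 1 1 (P3 1 1 (U0 4 1 (F [(23,10009),(12,16315),(9,9933),(25,16384)]) (U2 8 1 (F [(12,255),(23,156),(25,256),(9,155)]) (P1 1 2 (F [(9,9990),(23,9971),(12,16357),(25,16384)]) (F [(25,16384),(12,16257),(9,9892),(23,9887)])))) (F [(25,256),(9,154),(12,252),(23,154)])) (F [(25,256),(23,154)]))))) (P1 1 4 (F [(12,256),(9,156),(23,149),(25,248)])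 (U0 2 1 (F [(12,16284),(23,9997),(25,16384),(9,9900)]) (U2 4 1 (F [(12,16328),(25,16384),(23,9973),(9,9907)]) (P2 1 1 (F [(12,256),(25,253),(9,156),(23,152)]) (F [(25,256),(12,252),(9,153),(23,152)])))))) (F [(25,256),(23,83),(9,13)])))) (F [(25,256),(23,154)]))) (F [(25,256),(23,87),(9,14)]))) (U2 1 8 (P1 2 1 (F [(25,16384),(12,15595),(23,10813),(9,9156)]) (F [(25,256),(12,14)])) (P1 2 1 (P3 1 1 (P5 2 1 (F [(25,256),(23,115),(9,7)]) (U0 1 1 (U1 2 1 (P1 1 2 (P3 1 2 (F [(12,256),(23,157),(25,256),(9,156)]) (F [(12,251),(25,256),(23,152),(9,152)])) (F [(12,158),(25,256),(9,28)])) (F [(23,638874),(9,634784),(25,1048576),(12,1032652)])) (U2 2 1 (P1 1 2 (P3 1 2 (F [(12,16384),(23,9812),(25,16333),(9,9954)]) (F [(12,16059),(25,16384),(23,9662),(9,9771)])) (F [(12,128),(25,256),(9,68)])) (P1 1 2 (P3 1 2 (F [(12,16384),(25,16331),(9,9965),(23,9734)])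 (F [(25,256),(12,97),(9,88)])) (F [(25,256),(12,108),(9,94)]))))) (F [(25,256)])) (F [(25,256)]))))) (P0 1 1 (F [(9,256),(25,46),(23,133)]) (P2 2 1 (U0 1 2 (F [(9,84),(23,256),(25,116)]) (P3 1 1 (P5 1 1 (F [(23,253),(25,256)]) (P1 1 2 (U2 1 1 (F [(9,14),(23,256),(25,51)]) (U0 2 1 (F [(9,85),(23,256),(25,114)]) (P3 1 2 (P5 2 1 (P4 1 2 (P2 1 2 (F [(23,256),(25,42),(12,10)]) (U2 2 1 (F [(9,8),(23,256),(25,217)]) (U0 4 1 (F [(9,48),(25,249),(23,256)]) (P1 1 1 (P5 2 1 (F [(25,256),(23,154)]) (U2 4 1 (F [(9,156),(23,156),(25,256),(12,255)]) (U0 8 1 (F [(9,156),(23,156),(25,256),(12,255)]) (P1 1 2 (F [(9,9996),(23,9965),(25,16384),(12,16357)]) (F [(25,256),(9,155),(23,155),(12,254)]))))) (F [(25,256),(23,154)]))))) (U2 2 1 (F [(9,40),(23,256),(25,243)]) (U0 4 1 (F [(9,48),(25,249),(23,256)]) (P1 1 1 (F [(9,10347),(25,16384),(23,9586),(12,16286)]) (F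 [(25,256),(23,154)]))))) (P1 1 4 (F [(9,256),(12,190),(25,24)]) (U2 2 1 (F [(9,256),(23,27),(25,229)]) (U0 4 1 (F [(9,256),(25,229),(23,27)]) (P2 1 1 (F [(9,156),(25,253),(12,256),(23,152)]) (F [(25,256),(9,217),(12,15)])))))) (F [(9,51),(25,256),(23,101)])))) (F [(25,256),(23,153)]))) (F [(25,256),(9,51),(23,105)]))) (F [(9,256),(25,255),(12,76)])))) (P0 1 1 (F [(9,256),(25,46),(23,133)]) (P2 2 1 (U0 1 1 (U1 2 1 (P3 1 1 (U2 1 1 (P5 1 1 (F [(9,6),(25,256),(23,255)]) (P1 1 2 (U1 1 2 (P3 1 2 (U2 1 2 (P5 2 1 (P4 1 2 (P2 1 2 (F [(9,14),(23,256),(25,51)]) (U1 1 4 (P1 1 1 (U2 1 4 (P5 2 1 (F [(9,29),(25,256)]) (U1 1 8 (F [(9,10002),(25,16384),(23,9924),(12,16361)]) (F [(9,256),(25,169)]))) (F [(9,256),(25,225)])) (F [(25,256),(9,29)])) (F [(9,256),(25,168)]))) (F [(9,256),(25,209),(12,213)])) (F [(9,172),(25,142),(12,256)])) (F [(9,256),(25,167)]))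 (F [(9,14),(25,256),(23,82)])) (F [(9,256)])) (F [(9,9),(25,256),(23,112)]))) (F [(9,256),(25,164)])) (F [(9,15),(25,256),(23,84)])) (F [(9,256),(25,161)])) (U2 2 1 (P3 1 1 (U1 1 1 (P5 1 1 (F [(25,251),(9,45),(23,256)]) (P1 1 2 (U2 1 2 (P3 1 2 (U1 1 2 (P5 2 1 (P4 1 2 (P2 1 2 (U2 1 4 (U1 1 4 (P5 1 2 (F [(25,249),(9,47),(23,256)]) (P1 1 2 (F [(9,9994),(25,16384),(23,9983),(12,16355)]) (F [(25,256),(23,115)]))) (F [(9,256),(25,229),(23,27)])) (F [(9,256),(25,229),(23,27)])) (U2 1 4 (P1 1 1 (U1 1 4 (P5 2 1 (F [(25,256)]) (F [(9,9999),(25,16384),(23,9927),(12,16366)])) (F [(9,256),(25,225)])) (F [(25,256)])) (F [(9,256),(25,225)]))) (F [(9,256),(25,209),(12,213)])) (F [(9,151),(25,125),(12,256)])) (F [(9,256),(25,169)])) (F [(25,256),(23,75)])) (F [(9,256),(25,169)])) (F [(25,256),(23,114)]))) (F [(9,236),(25,256)])) (F [(25,256),(23,76)])) (F [(9,236),(25,256)])))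 (F [(9,182),(25,256),(12,251)]))))) (P3 4 1 (U2 1 4 (U1 1 4 (P2 1 1 (P5 1 2 (F [(25,256),(23,162),(9,1)]) (P3 1 2 (U2 1 8 (F [(25,147),(23,256),(12,51)]) (P1 1 1 (P5 2 1 (F [(25,256),(23,157)]) (P3 1 4 (U0 1 1 (F [(9,9989),(23,11039),(25,16384),(12,16154)]) (U2 2 1 (P1 1 2 (U1 1 1 (F [(12,254),(23,158),(25,256),(9,150)]) (P5 4 1 (F [(9,154),(23,158),(25,256),(12,252)]) (F [(9,156),(23,153),(12,256),(25,254)]))) (F [(25,256),(23,154)])) (P1 1 2 (P5 4 1 (F [(9,156),(25,256),(23,156),(12,253)]) (F [(9,157),(12,256),(25,254),(23,153)])) (F [(25,256),(9,29)])))) (F [(25,256),(23,153)]))) (F [(25,256),(9,30)]))) (F [(25,256),(23,42)]))) (P0 4 1 (P3 1 2 (U2 1 8 (P5 1 1 (F [(25,256),(23,156)]) (P1 1 4 (F [(23,256),(25,172),(12,48)]) (F [(25,256),(23,45),(12,10)]))) (P5 1 1 (F [(25,256),(9,30)]) (P1 1 4 (P3 1 4 (U0 1 1 (U1 2 1 (P5 2 1 (F [(25,256),(23,193),(9,2)])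 (F [(12,256),(23,152),(25,254),(9,156)])) (F [(9,157),(23,158),(25,256),(12,252)])) (U2 2 1 (P5 2 1 (F [(25,256),(23,154)]) (F [(12,256),(25,253),(23,151),(9,156)])) (F [(25,238),(9,185),(12,256)]))) (F [(25,256),(23,153)])) (F [(25,256),(9,30)])))) (F [(25,256)])) (U2 1 8 (P1 2 1 (P5 1 1 (F [(25,256),(12,14)]) (P3 1 4 (F [(12,249),(23,160),(25,256),(9,149)]) (F [(25,256),(12,14)]))) (F [(25,256),(12,14)])) (P1 2 1 (P5 1 1 (F [(25,256)]) (P3 1 4 (U0 1 1 (U1 2 1 (P1 1 2 (P5 2 1 (F [(25,256),(12,251),(23,152),(9,152)]) (F [(12,256),(23,152),(25,254),(9,156)])) (F [(25,256),(12,174),(9,38)])) (F [(9,634784),(25,1048576),(23,638874),(12,1032652)])) (U2 2 1 (P1 1 2 (P5 2 1 (F [(25,256),(12,251),(23,149),(9,153)]) (F [(12,256),(25,253),(23,151),(9,156)])) (F [(25,256),(12,196),(9,109)])) (F [(25,238),(12,256),(9,185)]))) (F [(25,256)]))) (F [(25,256)])))))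 (F [(9,256),(25,210),(12,150)])) (F [(9,256),(25,212),(12,207)])) (F [(25,256),(12,13)]))

def c20 : Cell := ⟨⟨13,0,19⟩, ⟨12,1,19⟩, ⟨3,0,5⟩, ⟨67,123,142,180⟩, ⟨32,62,72,90⟩, ⟨67,121,142,182⟩, ⟨133,247,282,362⟩⟩

def t20 : Tr :=
  P3 2 1 (F [(9,151),(25,128),(12,256)]) (P4 4 1 (U2 1 4 (U1 1 4 (P5 1 1 (P0 4 1 (P4 1 2 (U2 1 8 (P2 1 4 (U1 1 8 (F [(12,199),(25,256),(23,136)]) (P5 1 2 (P4 1 4 (F [(12,255),(23,158),(25,256),(9,155)]) (F [(25,256),(9,152),(23,152),(12,248)])) (F [(25,256),(9,108),(12,192)]))) (F [(25,256),(12,14)])) (P2 1 4 (P5 1 2 (P4 1 4 (F [(9,157),(25,253),(12,256),(23,151)]) (F [(25,256),(9,23),(23,36)])) (F [(25,256),(9,149),(12,196)])) (F [(25,256),(9,30)]))) (F [(25,256)])) (U2 1 8 (P2 2 1 (P4 1 4 (F [(12,16384),(25,16301),(23,9745),(9,9974)]) (F [(25,256),(12,14)])) (F [(25,256),(12,14)])) (P2 2 1 (P4 1 4 (F [(25,15906),(12,16384),(9,10093),(23,9149)])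 (F [(25,256)])) (F [(25,256)])))) (F [(25,256),(12,14)])) (F [(9,256),(25,210),(12,150)])) (F [(9,216),(25,180),(12,256)])) (F [(25,256),(12,13)]))

def c21 : Cell := ⟨⟨13,0,19⟩, ⟨6,1,9⟩, ⟨12,1,19⟩, ⟨67,123,142,180⟩, ⟨32,62,72,90⟩, ⟨67,121,142,182⟩, ⟨33,63,70,90⟩⟩

def t21 : Tr :=
  F [(9,256),(25,164)]

def c22 : Cell := ⟨⟨7,0,9⟩, ⟨6,1,9⟩, ⟨13,0,19⟩, ⟨67,123,142,180⟩, ⟨32,62,72,90⟩, ⟨67,121,142,182⟩, ⟨33,63,70,90⟩⟩

def t22 : Tr :=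
  F [(9,256),(25,164)]

def c23 : Cell := ⟨⟨13,0,19⟩, ⟨12,1,19⟩, ⟨3,0,5⟩, ⟨68,124,140,180⟩, ⟨133,249,282,360⟩, ⟨133,247,282,362⟩, ⟨33,63,70,90⟩⟩

def t23 : Tr :=
  F [(23,256),(9,208),(12,152)]

theorem g1 : ∀ c ∈ [c12, c13, c14, c15, c16, c17, c18, c19, c20, c21, c22, c23], Done D c := by
  intro c hc
  simp only [List.mem_cons, List.not_mem_nil, or_false] at hc
  rcases hc with rfl | rfl | rfl | rfl | rfl | rfl | rfl | rfl | rfl | rfl | rfl | rfl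
  · exact done_of_chk (t := t12) (by decide +kernel)
  · exact done_of_chk (t := t13) (by decide +kernel)
  · exact done_of_chk (t := t14) (by decide +kernel)
  · exact done_of_chk (t := t15) (by decide +kernel)
  · exact done_of_chk (t := t16) (by decide +kernel)
  · exact done_of_chk (t := t17) (by decide +kernel)
  · exact done_of_chk (t := t18) (by decide +kernel)
  · exact done_of_chk (t := t19) (by decide +kernel)
  · exact done_of_chk (t := t20) (by decide +kernel)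
  · exact done_of_chk (t := t21) (by decide +kernel)
  · exact done_of_chk (t := t22) (by decide +kernel)
  · exact done_of_chk (t := t23) (by decide +kernel)

end Pool.Agent.W2helper59.NW.E1
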