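import Pool.Agent.W2helper59.NW.D_E1

set_option autoImplicit false
set_option maxRecDepth 1000000

namespace Pool.Agent.W2helper59.NW.E1

open Tr

def c120 : Cell := ⟨⟨1,0,1⟩, ⟨0,1,1⟩, ⟨0,0,1⟩, ⟨3,2,6,5⟩, ⟨4,2,5,5⟩, ⟨1,1,3,3⟩, ⟨4,1,5,6⟩⟩

def t120 : Tr :=
  F [(12,256),(20,41),(34,37),(25,123),(22,31)]

def c121 : Cell := ⟨⟨1,0,1⟩, ⟨0,1,1⟩, ⟨0,0,1⟩, ⟨8,3,11,10⟩, ⟨4,2,5,5⟩, ⟨3,2,6,5⟩, ⟨4,1,5,6⟩⟩

def t121 : Tr :=
  F [(12,256),(22,2),(21,11)]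

def c122 : Cell := ⟨⟨1,0,3⟩, ⟨0,1,1⟩, ⟨0,0,1⟩, ⟨2,1,3,2⟩, ⟨4,2,5,5⟩, ⟨3,2,6,5⟩, ⟨8,3,11,10⟩⟩

def t122 : Tr :=
  U1 1 2 (P0 2 1 (F [(12,256),(25,126),(8,73)]) (P1 2 1 (F [(25,162),(12,256),(8,1)]) (P2 4 1 (P5 1 1 (F [(25,11),(8,195),(12,256)]) (F [(25,238),(8,200),(12,256)])) (F [(25,236),(8,256)])))) (P0 2 1 (F [(12,256),(25,136),(8,53)]) (P1 2 1 (F [(25,162),(12,256),(8,1)]) (P2 4 1 (P5 1 1 (F [(12,256),(8,159)]) (F [(25,256),(12,221),(8,174)])) (F [(25,256),(8,160)]))))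

def c123 : Cell := ⟨⟨1,0,1⟩, ⟨0,1,1⟩, ⟨1,0,3⟩, ⟨8,4,11,9⟩, ⟨4,2,5,5⟩, ⟨3,2,6,5⟩, ⟨8,3,11,10⟩⟩

def t123 : Tr :=
  F [(12,256),(25,116),(8,15)]

def c124 : Cell := ⟨⟨1,0,1⟩, ⟨0,1,1⟩, ⟨1,0,3⟩, ⟨7,4,12,9⟩, ⟨8,4,11,9⟩, ⟨3,2,6,5⟩, ⟨8,3,11,10⟩⟩

def t124 : Tr :=
  P3 1 2 (F [(12,256),(25,175),(22,62)]) (P2 1 1 (F [(12,256),(8,67)]) (U0 1 1 (F [(25,236),(12,256),(8,42)]) (U2 2 1 (F [(12,256),(25,175),(22,33)]) (F [(12,256),(22,133),(25,107)]))))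

def c125 : Cell := ⟨⟨1,0,1⟩, ⟨0,1,1⟩, ⟨1,0,3⟩, ⟨16,7,23,18⟩, ⟨8,4,11,9⟩, ⟨7,4,12,9⟩, ⟨8,3,11,10⟩⟩

def t125 : Tr :=
  P5 1 1 (F [(12,256),(8,159)]) (U0 1 1 (U1 2 1 (U2 1 1 (P3 1 1 (P1 1 2 (F [(25,256),(12,195)]) (F [(25,230),(12,256),(8,165)])) (F [(12,256),(25,143),(8,167)])) (F [(12,256),(25,116)])) (F [(12,256),(25,187)])) (U2 2 1 (U1 1 1 (P3 1 1 (P1 1 2 (F [(25,256),(12,199),(22,123)]) (U2 1 2 (U1 1 2 (P0 1 1 (F [(25,245),(12,256),(8,144),(22,156)]) (P2 1 1 (F [(12,256),(8,138),(25,236),(22,158)]) (P1 2 1 (F [(8,142),(12,256),(25,241),(22,166)]) (F [(8,256),(12,139)])))) (P0 1 1 (F [(12,256),(25,246),(22,147),(8,140)]) (P2 1 1 (F [(12,256),(22,149),(25,234),(8,132)]) (P1 2 1 (F [(12,16384),(25,14857),(22,10723),(8,8005)]) (F [(12,256),(8,170),(22,1)]))))) (P0 1 1 (P4 1 1 (F [(12,256),(22,151),(25,222),(8,124)]) (U0 1 1 (U1 2 1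 (F [(12,256),(25,223),(22,149),(8,123)]) (F [(12,256),(25,165),(22,43)])) (F [(22,153),(12,256),(25,222),(8,124)]))) (F [(12,16384),(22,10527),(8,4731),(25,9670)])))) (P4 2 1 (U2 1 2 (F [(12,256),(25,119),(8,178)]) (F [(12,256),(8,66),(25,45)])) (U2 1 2 (F [(12,256),(8,185),(25,124)]) (F [(12,256),(8,66),(25,45)])))) (F [(12,256),(22,130),(25,149)])) (F [(22,133),(12,256),(25,107)])))

def c126 : Cell := ⟨⟨1,1,2⟩, ⟨0,1,1⟩, ⟨1,0,3⟩, ⟨2,1,3,2⟩, ⟨8,4,11,9⟩, ⟨7,4,12,9⟩, ⟨16,7,23,18⟩⟩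

def t126 : Tr :=
  U1 2 1 (U2 1 1 (P0 4 1 (P3 1 1 (P1 1 2 (P5 2 1 (F [(25,256),(12,232),(8,172)]) (F [(25,256)])) (F [(25,245),(8,194),(12,256)])) (F [(25,195),(8,199),(12,256)])) (P1 4 1 (P3 1 2 (P5 2 1 (F [(25,256),(8,179),(12,211)]) (F [(25,256)])) (F [(25,199),(8,256),(12,136)])) (F [(25,67),(8,256)]))) (P0 4 1 (F [(25,218),(12,256),(8,67)]) (P1 4 1 (P3 1 2 (P5 2 1 (P2 1 1 (F [(25,250),(12,256),(8,125)]) (F [(25,256)])) (F [(25,256),(12,73)])) (P2 1 1 (F [(25,251),(12,256),(8,129)]) (F [(25,256)]))) (P2 8 1 (P5 1 1 (F [(25,256),(8,138),(12,226)]) (F [(25,256)])) (F [(25,256)]))))) (F [(25,256),(12,126),(22,111)])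

def c127 : Cell := ⟨⟨3,0,5⟩, ⟨1,1,2⟩, ⟨1,0,3⟩, ⟨2,1,3,2⟩, ⟨8,4,11,9⟩, ⟨7,4,12,9⟩, ⟨16,7,23,18⟩⟩

def t127 : Tr :=
  U1 1 1 (P0 4 1 (P3 1 1 (P1 1 2 (P5 2 1 (U2 1 2 (P2 1 2 (U1 1 2 (F [(8,256),(25,235),(22,87)]) (P4 1 1 (P5 1 2 (F [(8,254),(12,256),(25,123)]) (U0 1 2 (F [(25,256),(12,223),(8,127),(22,164)]) (F [(8,151),(25,256),(22,159),(12,187)]))) (F [(25,256),(12,63),(8,171)]))) (F [(25,256),(8,82),(22,70)])) (P2 1 2 (P4 1 1 (P5 1 2 (F [(22,157),(8,166),(12,256),(25,218)]) (U0 1 1 (U1 2 1 (F [(22,195),(12,228),(8,146),(25,256)]) (F [(12,227),(25,256),(22,175),(8,125)])) (F [(22,256),(12,51),(8,86)]))) (U0 1 1 (U1 2 1 (P0 1 4 (F [(25,14924),(12,16384),(22,9928),(8,8177)]) (F [(25,256),(22,184),(12,213),(8,141)])) (F [(25,256),(12,218),(22,167),(8,109)])) (U2 2 1 (P0 1 4 (F [(22,159),(25,236),(12,256),(8,130)]) (F [(22,198),(8,144),(25,256),(12,251)]))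 (F [(22,256),(12,191),(25,212)])))) (F [(25,256),(22,180)]))) (F [(25,256),(12,67),(22,146)])) (U2 1 2 (F [(25,201),(8,256),(12,177)]) (P5 1 2 (P0 1 1 (P4 1 1 (P2 1 2 (F [(22,157),(8,166),(12,256),(25,218)]) (U0 1 1 (F [(8,164),(25,256),(12,241),(22,161)]) (F [(22,187),(8,145),(12,212),(25,256)]))) (U0 1 1 (U1 2 1 (P3 4 1 (F [(25,256),(8,148),(22,159),(12,238)]) (F [(25,169),(8,123),(12,256)])) (F [(25,256),(12,184),(8,50),(22,148)])) (U2 2 1 (P3 4 1 (F [(8,142),(22,187),(25,256),(12,211)]) (U1 1 1 (P2 1 1 (P4 2 1 (F [(8,157),(22,178),(25,256),(12,249)]) (F [(25,256),(8,36),(12,65),(22,173)])) (F [(25,256),(8,73),(22,146)])) (P2 1 1 (P4 2 1 (F [(12,242),(22,180),(25,256),(8,146)]) (F [(25,256),(12,12),(22,174)])) (F [(25,256),(8,80),(22,88)])))) (P3 4 1 (F [(22,188),(8,139),(12,208),(25,256)]) (P2 1 1 (F [(22,212),(12,191),(25,256),(8,90)])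 (F [(22,176),(25,256)])))))) (F [(8,256),(22,148),(25,231),(12,226)])) (F [(25,256),(22,180)])))) (U2 1 2 (F [(8,198),(25,136),(12,256)]) (P0 1 2 (P3 2 1 (P5 1 1 (F [(8,168),(12,256),(22,2)]) (P1 1 2 (U0 1 1 (F [(25,86),(12,256),(8,107)]) (U2 2 1 (F [(12,256),(25,78),(8,82)]) (P3 1 2 (P5 2 1 (F [(12,256),(8,122)]) (P1 1 4 (F [(12,256),(25,102)]) (F [(12,256),(25,47),(8,78)]))) (F [(12,256),(8,159),(25,1)])))) (F [(8,162),(12,256),(22,1)]))) (F [(8,184),(12,256),(25,1)])) (P1 1 1 (P5 1 1 (P2 1 2 (F [(8,179),(12,256)]) (P3 1 1 (U0 1 1 (F [(8,171),(25,156),(12,256)]) (F [(8,166),(22,185),(12,224),(25,256)])) (F [(8,256),(25,52)]))) (P3 1 2 (U0 1 1 (F [(25,169),(12,256),(8,144)]) (U2 2 1 (U1 1 1 (P2 1 1 (P5 2 1 (F [(8,167),(25,232),(12,256),(22,153)]) (F [(25,256),(8,146),(12,225),(22,158)])) (F [(25,256),(8,91),(22,107)])) (P2 1 1 (P5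 2 1 (F [(12,256),(8,158),(25,237),(22,156)]) (F [(25,256),(12,195),(8,126),(22,152)])) (F [(25,256),(8,98),(22,68)]))) (P2 1 1 (P5 2 1 (F [(22,142),(12,256),(8,156),(25,205)]) (P3 1 4 (F [(12,17),(22,188),(25,256)]) (P4 1 1 (F [(22,170),(12,202),(25,256),(8,118)]) (U0 2 1 (F [(25,256),(12,229),(8,143),(22,159)]) (U2 4 1 (P1 2 1 (F [(12,256),(25,240),(22,152),(8,150)]) (F [(22,168),(8,161),(12,254),(25,256)])) (F [(22,78),(12,256),(8,71)])))))) (P1 1 2 (P3 1 4 (F [(25,256),(22,176)]) (U0 2 1 (F [(25,256),(12,226),(8,141),(22,159)]) (U2 4 1 (P5 1 2 (F [(22,160),(8,151),(25,256),(12,223)]) (F [(25,256),(22,153),(12,236),(8,149)])) (P5 1 2 (F [(22,168),(8,149),(12,234),(25,256)]) (P0 1 1 (F [(22,157),(12,256),(25,245),(8,151)]) (F [(22,197),(25,256),(12,42)])))))) (U0 2 1 (F [(25,256),(8,144),(22,160),(12,230)]) (F [(22,168),(8,149),(25,256),(12,234)]))))))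 (P4 1 1 (U0 1 1 (F [(25,169),(8,144),(12,256)]) (U2 2 1 (F [(8,248),(25,119),(12,256)]) (P2 1 1 (F [(22,129),(8,164),(12,256),(25,188)]) (F [(8,251),(22,140),(25,224),(12,256)])))) (F [(8,256),(25,41),(12,127)])))) (F [(8,256),(25,38)]))))) (P1 4 1 (P3 1 2 (P5 2 1 (P2 1 1 (U2 1 2 (P4 1 2 (U1 1 2 (F [(8,256),(25,242),(22,115)]) (P5 1 2 (F [(8,246),(22,106),(25,249),(12,256)]) (F [(25,256),(8,108),(22,197),(12,162)]))) (F [(25,256),(8,82),(22,70)])) (P4 1 2 (P5 1 2 (F [(22,186),(8,223),(12,240),(25,256)]) (F [(22,204),(8,104),(25,256),(12,166)])) (F [(22,185),(25,256)]))) (F [(25,256),(22,176)])) (F [(25,256),(22,176)])) (P2 1 1 (U2 1 2 (F [(8,256),(25,186),(12,114)]) (P5 1 2 (F [(8,256),(22,153),(25,237),(12,236)]) (F [(25,256),(22,185)]))) (F [(25,256),(8,47),(22,174)]))) (F [(8,256),(25,68),(22,19)]))) (P0 4 1 (P3 1 1 (P1 1 2 (P5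 2 1 (U0 1 2 (F [(12,256),(25,181),(22,35)]) (P2 1 2 (F [(22,142),(12,256),(25,159)]) (F [(25,256),(22,180)]))) (F [(25,256),(12,148),(22,172)])) (U0 1 2 (P5 1 2 (U1 2 1 (P0 1 1 (F [(12,256),(25,126)]) (F [(25,256),(12,235),(8,144),(22,156)])) (P0 1 1 (F [(12,256),(25,126)]) (F [(12,227),(25,256),(22,165),(8,133)]))) (F [(25,256),(12,27),(22,176)])) (P5 1 2 (P0 1 1 (P4 1 1 (P2 1 2 (F [(22,152),(12,256),(8,112),(25,198)]) (U2 1 1 (F [(12,228),(25,256),(22,164),(8,140)]) (F [(22,190),(12,202),(8,130),(25,256)]))) (U2 1 1 (F [(25,256),(12,163),(22,153)]) (F [(22,202),(12,127),(25,256)]))) (P2 1 1 (P4 1 2 (F [(22,156),(12,256),(8,164),(25,217)]) (U2 1 1 (F [(25,256),(8,137),(12,204),(22,171)]) (F [(22,256),(8,50),(12,36),(25,212)]))) (F [(8,108),(25,256),(22,188),(12,118)]))) (F [(25,256),(22,180)])))) (U0 1 2 (U1 2 1 (P0 1 2 (F [(12,256),(25,97),(8,56)])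 (P1 1 1 (F [(12,256),(25,142)]) (F [(25,256),(8,146),(12,246),(22,146)]))) (P0 1 2 (F [(12,256)]) (P1 1 1 (F [(12,256),(25,142)]) (F [(12,227),(25,256),(8,133),(22,165)])))) (P0 1 2 (F [(12,256),(8,60),(22,10)]) (P1 1 1 (P5 1 1 (P2 1 2 (F [(12,256),(22,6),(8,161)]) (P3 1 1 (U2 1 1 (F [(12,231),(25,256),(8,141),(22,162)]) (U0 2 1 (F [(12,230),(22,167),(8,137),(25,256)]) (P1 1 1 (F [(22,156),(12,256),(8,164),(25,227)]) (F [(22,183),(8,166),(12,221),(25,256)])))) (U2 1 1 (F [(25,256),(8,146),(12,243),(22,152)]) (U0 2 1 (P4 2 1 (F [(12,232),(22,167),(8,143),(25,256)]) (F [(8,148),(12,233),(25,256),(22,158)])) (F [(8,256),(22,174),(25,75)]))))) (P3 1 2 (U2 1 1 (F [(25,236),(12,256)]) (U0 2 1 (F [(12,185),(25,256),(22,124)]) (P2 1 1 (F [(12,256),(22,108),(25,119)]) (P1 1 2 (F [(12,256),(25,124),(22,111)]) (U2 2 1 (F [(25,256),(12,230),(22,160),(8,135)])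 (U0 4 1 (F [(22,164),(25,256),(12,232),(8,136)]) (F [(22,169),(8,146),(25,256),(12,238)]))))))) (P4 1 1 (U2 1 1 (F [(25,225),(12,256),(8,24)]) (U0 2 1 (F [(12,237),(22,156),(25,256),(8,128)]) (P2 1 1 (F [(22,92),(12,256),(25,95)]) (P0 2 1 (F [(22,128),(12,256),(8,157),(25,185)]) (F [(22,168),(8,151),(25,256),(12,236)]))))) (U2 1 1 (F [(25,240),(12,256),(8,119)]) (U0 2 1 (F [(12,233),(25,256),(8,148),(22,158)]) (P0 1 1 (F [(8,169),(12,256),(22,3)]) (P2 2 1 (F [(8,192),(12,256),(22,9)]) (U2 2 1 (F [(8,145),(25,256),(12,229),(22,153)]) (F [(8,154),(22,172),(25,256),(12,240)]))))))))) (P2 1 1 (P5 1 2 (F [(8,191),(22,2),(12,256)]) (U2 1 1 (F [(8,146),(25,256),(12,214),(22,155)]) (U0 2 1 (P4 2 1 (F [(22,170),(8,143),(12,220),(25,256)]) (U1 1 1 (F [(8,256),(22,63),(25,158)]) (P1 1 1 (F [(8,147),(12,231),(25,256),(22,158)]) (F [(8,236),(12,256),(22,209)]))))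 (F [(8,256),(22,217),(25,185)])))) (U2 1 1 (F [(8,140),(25,256),(12,176),(22,147)]) (U0 2 1 (U1 1 1 (F [(8,248),(25,256),(22,109)]) (P5 1 1 (F [(8,185),(22,182),(25,256),(12,247)]) (F [(8,157),(25,256),(22,124),(12,143)]))) (F [(8,248),(22,109),(25,256)])))))))) (P1 4 1 (P3 1 2 (P5 2 1 (P2 1 1 (U0 1 2 (F [(25,256),(12,229),(22,153),(8,79)]) (P4 1 2 (F [(22,14580),(12,13471),(8,7272),(25,16384)]) (F [(22,185),(25,256),(12,3)]))) (F [(25,256),(22,180),(12,9)])) (F [(25,256),(22,177),(12,10)])) (P2 1 1 (U0 1 2 (P5 1 2 (F [(12,217),(25,256),(22,172),(8,143)]) (F [(25,256),(12,27),(22,176)])) (P5 1 2 (F [(22,204),(8,179),(12,222),(25,256)]) (F [(25,256),(22,185),(12,3)]))) (F [(25,256),(22,154),(8,14)]))) (P2 8 1 (P5 1 1 (U0 1 2 (F [(25,256),(8,143),(22,172),(12,217)]) (F [(8,256),(22,223),(25,100)])) (F [(25,256),(8,14),(22,154)])) (F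 [(25,256),(8,59),(22,122)]))))

def c128 : Cell := ⟨⟨1,0,1⟩, ⟨1,1,2⟩, ⟨3,0,5⟩, ⟨2,1,3,2⟩, ⟨8,4,11,9⟩, ⟨7,4,12,9⟩, ⟨16,7,23,18⟩⟩

def t128 : Tr :=
  P0 4 1 (P3 1 1 (P1 1 2 (F [(22,256),(12,154),(25,205)]) (U0 2 1 (U1 2 1 (F [(22,256),(12,31),(25,187)]) (F [(12,9201),(22,14840),(25,16384),(8,3225)])) (F [(22,256)]))) (U0 2 1 (U1 2 1 (U2 1 1 (P0 1 2 (F [(12,256),(22,61),(8,69)]) (P1 1 1 (P5 1 1 (P2 1 2 (F [(22,35),(12,256),(8,151)]) (P3 1 1 (F [(22,256),(12,148),(25,193)]) (U1 1 2 (F [(22,256),(8,200),(25,80)]) (P4 2 1 (F [(22,256),(12,210),(25,181)]) (F [(12,238),(22,164),(8,146),(25,256)]))))) (P3 1 2 (F [(22,256),(12,180),(25,201)]) (P4 1 1 (F [(22,256),(12,177),(25,195)]) (U1 1 2 (U2 1 2 (P0 1 1 (F [(8,158),(22,29),(12,256)]) (F [(22,210),(8,145),(12,252),(25,256)])) (F [(22,186),(12,246),(8,154),(25,256)])) (F [(12,238),(22,164),(8,146),(25,256)])))))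 (P2 1 1 (P5 1 2 (F [(22,55),(12,256),(8,161)]) (U1 1 2 (F [(22,237),(8,256),(25,170)]) (P4 2 1 (F [(22,256),(12,210),(25,181)]) (P1 1 1 (F [(22,164),(12,238),(8,146),(25,256)]) (F [(22,131),(8,62),(12,256)]))))) (U1 1 2 (F [(8,256),(22,237),(25,170)]) (P5 1 1 (F [(8,195),(22,203),(12,256),(25,256)]) (F [(8,9433),(22,10436),(25,16384),(12,14631)])))))) (P0 1 2 (F [(12,256),(8,35)]) (P1 1 1 (F [(12,256),(22,103),(25,124)]) (F [(22,193),(12,227),(8,131),(25,256)])))) (P0 1 2 (F [(12,256)]) (P1 1 1 (F [(12,256),(22,21),(25,156)]) (F [(12,219),(22,177),(25,256),(8,125)])))) (F [(22,256),(12,158),(8,88)]))) (P1 4 1 (P3 1 2 (F [(22,256),(25,197),(12,87)]) (P2 1 1 (U0 2 1 (U1 2 1 (F [(22,256),(8,55),(25,133)]) (F [(22,224),(12,158),(25,256),(8,70)])) (F [(22,256),(8,33)])) (F [(22,171),(25,256)]))) (P2 8 1 (P5 1 1 (F [(22,211),(8,147),(12,237),(25,256)])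 (F [(22,173),(25,256)])) (F [(22,173),(25,256)])))

def c129 : Cell := ⟨⟨1,0,1⟩, ⟨0,1,0⟩, ⟨0,1,1⟩, ⟨2,1,3,2⟩, ⟨2,1,2,3⟩, ⟨1,1,3,3⟩, ⟨4,1,5,6⟩⟩

def t129 : Tr :=
  P0 1 1 (F [(20,256),(1,16),(22,94)]) (P1 1 1 (F [(12,96),(20,13),(34,256),(25,160)]) (P2 2 1 (F [(12,256),(20,22),(34,32),(21,111)]) (U0 1 2 (F [(12,156),(25,256)]) (P0 2 1 (F [(12,256),(20,17),(34,32),(21,33)]) (P1 2 1 (F [(12,256),(25,160),(22,97)]) (P2 4 1 (F [(12,256),(22,80),(25,129)]) (U2 1 1 (F [(25,256),(12,125),(22,122)]) (U0 2 1 (F [(12,130),(22,138),(25,256)]) (P0 4 1 (F [(22,191),(12,226),(25,256)]) (F [(22,222),(12,127),(25,256)]))))))))))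

def c130 : Cell := ⟨⟨1,0,0⟩, ⟨0,1,0⟩, ⟨1,0,1⟩, ⟨2,1,3,2⟩, ⟨2,1,2,3⟩, ⟨1,1,3,3⟩, ⟨4,1,5,6⟩⟩

def t130 : Tr :=
  P0 1 1 (F [(1,25),(34,256),(20,137),(22,190)]) (F [(34,256),(12,23),(22,120),(25,188)])

def c131 : Cell := ⟨⟨1,0,1⟩, ⟨0,1,1⟩, ⟨0,0,1⟩, ⟨3,2,6,5⟩, ⟨3,3,5,5⟩, ⟨1,1,3,3⟩, ⟨2,1,2,3⟩⟩

def t131 : Tr :=
  F [(12,256),(20,46),(25,67),(34,54),(21,34)]

theorem g10 : ∀ c ∈ [c120, c121, c122, c123, c124, c125, c126, c127, c128, c129, c130, c131], Done D c := by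
  intro c hc
  simp only [List.mem_cons, List.not_mem_nil, or_false] at hc
  rcases hc with rfl | rfl | rfl | rfl | rfl | rfl | rfl | rfl | rfl | rfl | rfl | rfl
  · exact done_of_chk (t := t120) (by decide +kernel)
  · exact done_of_chk (t := t121) (by decide +kernel)
  · exact done_of_chk (t := t122) (by decide +kernel)
  · exact done_of_chk (t := t123) (by decide +kernel)
  · exact done_of_chk (t := t124) (by decide +kernel)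
  · exact done_of_chk (t := t125) (by decide +kernel)
  · exact done_of_chk (t := t126) (by decide +kernel)
  · exact done_of_chk (t := t127) (by decide +kernel)
  · exact done_of_chk (t := t128) (by decide +kernel)
  · exact done_of_chk (t := t129) (by decide +kernel)
  · exact done_of_chk (t := t130) (by decide +kernel)
  · exact done_of_chk (t := t131) (by decide +kernel)

end Pool.Agent.W2helper59.NW.E1
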