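import Pool.Agent.W2helper59.NW.D_E1

set_option autoImplicit false
set_option maxRecDepth 1000000

namespace Pool.Agent.W2helper59.NW.E1

open Tr

def c132 : Cell := ⟨⟨1,0,1⟩, ⟨0,1,1⟩, ⟨0,0,1⟩, ⟨4,2,5,5⟩, ⟨3,3,5,5⟩, ⟨3,2,6,5⟩, ⟨2,1,2,3⟩⟩

def t132 : Tr :=
  F [(12,256),(21,52)]

def c133 : Cell := ⟨⟨1,0,1⟩, ⟨0,1,1⟩, ⟨0,0,1⟩, ⟨7,5,11,9⟩, ⟨3,3,5,5⟩, ⟨3,2,6,5⟩, ⟨4,2,5,5⟩⟩

def t133 : Tr :=
  F [(25,130),(12,256),(21,34)]

def c134 : Cell := ⟨⟨1,0,3⟩, ⟨0,1,1⟩, ⟨0,0,1⟩, ⟨2,1,3,2⟩, ⟨7,5,11,9⟩, ⟨3,2,6,5⟩, ⟨4,2,5,5⟩⟩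

def t134 : Tr :=
  U1 1 2 (P1 2 1 (F [(25,254),(12,256)]) (P2 2 1 (F [(25,240),(12,256),(8,67)]) (F [(25,256),(8,215)]))) (P1 2 1 (F [(25,254),(12,256)]) (P2 2 1 (F [(25,240),(12,256),(8,67)]) (F [(25,256),(8,134)])))

def c135 : Cell := ⟨⟨1,0,1⟩, ⟨0,1,1⟩, ⟨1,0,3⟩, ⟨7,4,12,9⟩, ⟨7,5,11,9⟩, ⟨3,2,6,5⟩, ⟨4,2,5,5⟩⟩

def t135 : Tr :=
  F [(12,256),(25,196),(22,74)]

def c136 : Cell := ⟨⟨1,0,1⟩, ⟨0,1,1⟩, ⟨1,0,3⟩, ⟨8,4,11,9⟩, ⟨7,5,11,9⟩, ⟨7,4,12,9⟩, ⟨4,2,5,5⟩⟩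

def t136 : Tr :=
  P5 1 2 (F [(12,256),(25,106),(8,32)]) (U0 1 1 (F [(25,256),(12,125),(8,53)]) (U2 2 1 (F [(25,175),(12,256),(22,33)]) (F [(12,256),(25,136),(22,91)])))

def c137 : Cell := ⟨⟨1,0,1⟩, ⟨0,1,1⟩, ⟨1,0,3⟩, ⟨15,9,23,17⟩, ⟨7,5,11,9⟩, ⟨7,4,12,9⟩, ⟨8,4,11,9⟩⟩

def t137 : Tr :=
  U0 1 1 (F [(25,256),(12,112),(8,54)]) (U2 2 1 (U1 1 1 (P3 1 1 (P5 1 1 (F [(25,222),(12,256),(8,59)]) (F [(25,256),(12,118),(22,134)])) (F [(25,233),(12,256),(8,146)])) (P3 1 1 (P5 1 1 (F [(25,222),(12,256),(8,59)]) (F [(25,256),(12,83),(22,167)])) (F [(25,231),(12,256),(8,131)]))) (P3 1 1 (P5 1 1 (P4 1 2 (P2 1 2 (U0 2 1 (F [(12,256),(25,192),(8,33)]) (U2 4 1 (U1 1 1 (P5 1 2 (P4 1 4 (P2 1 4 (F [(12,256),(8,119)]) (U2 1 2 (U1 1 2 (P1 1 1 (F [(12,256)]) (P0 2 1 (F [(12,256)]) (P2 2 1 (F [(12,256),(8,119)]) (U2 1 4 (F [(12,256),(25,122),(8,222)]) (P1 2 1 (F [(12,256)])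 (P0 4 1 (F [(12,256)]) (P2 4 1 (F [(12,256),(8,115)]) (U0 1 1 (F [(25,172),(12,256),(8,121)]) (U2 2 1 (F [(25,216),(12,256),(8,26)]) (P1 4 1 (F [(12,256),(25,160),(22,27)]) (F [(25,256),(12,256),(8,153),(22,149)]))))))))))) (P1 1 1 (F [(12,256)]) (P0 2 1 (F [(12,256)]) (P2 2 1 (F [(12,256)]) (U0 1 2 (F [(12,256),(25,219)]) (P1 2 1 (F [(12,256),(22,23)]) (P0 4 1 (F [(12,256),(22,23)]) (P2 4 1 (F [(12,256)]) (F [(12,256),(25,255),(8,149),(22,149)]))))))))) (P1 1 1 (F [(12,256)]) (P0 2 1 (F [(12,256)]) (P2 2 1 (F [(12,256)]) (U0 1 1 (U1 2 1 (U2 1 1 (P1 2 1 (F [(12,256),(22,166)]) (P0 4 1 (F [(12,256),(22,55)]) (P2 4 1 (F [(12,256)]) (F [(12,256),(22,152),(25,256),(8,151)])))) (F [(12,256),(22,159),(25,236)])) (F [(12,256),(25,115)])) (U2 2 1 (U1 1 1 (P1 2 1 (F [(12,256),(22,226)]) (P0 4 1 (F [(12,256),(22,55)]) (P2 4 1 (F [(12,256)]) (F [(22,153),(12,256),(25,256),(8,152)]))))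 (F [(12,25),(22,256),(25,56)])) (F [(22,161),(12,256)])))))))) (U2 1 2 (F [(12,237),(25,256),(22,88)]) (F [(12,193),(22,148),(25,256)]))) (P1 1 2 (F [(12,256),(22,64),(25,211)]) (U2 1 2 (F [(12,237),(25,256),(22,88)]) (F [(12,132),(22,232),(25,256)])))) (F [(12,256),(22,21)])) (F [(22,161),(12,256)]))) (F [(25,256),(12,15),(22,146)])) (F [(25,256),(12,155),(22,138)])) (F [(25,256),(22,191),(12,62)])) (P4 1 1 (P5 1 2 (P2 1 2 (U0 2 1 (F [(12,256),(25,199),(8,115)]) (U2 4 1 (U1 1 1 (P4 1 2 (P5 1 4 (P2 1 4 (F [(12,256),(8,159)]) (U2 1 2 (F [(12,16384),(25,14188),(8,10016)]) (P0 1 1 (F [(12,256)]) (P1 2 1 (F [(12,256)]) (P2 2 1 (F [(12,256)]) (U0 1 1 (U1 2 1 (U2 1 1 (P0 2 1 (F [(12,256)]) (P1 4 1 (F [(12,256)]) (P2 4 1 (F [(12,256)]) (F [(12,256),(25,255),(22,146),(8,153)])))) (F [(12,256),(22,159),(25,236)])) (F [(12,256),(25,115)])) (U2 2 1 (U1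 1 1 (P0 2 1 (F [(12,256)]) (P1 4 1 (F [(12,256)]) (P2 4 1 (F [(12,256)]) (F [(12,256),(22,150),(25,255),(8,152)])))) (F [(12,222),(22,256),(25,221)])) (F [(12,256),(22,161)])))))))) (F [(12,202),(25,256),(22,97)])) (F [(12,181),(25,256),(22,103)])) (F [(12,256),(22,21)])) (F [(12,256),(22,159)]))) (F [(25,256),(12,72),(22,131)])) (F [(25,256),(12,159),(22,114)])) (F [(25,256),(12,160),(22,96)]))))

def c138 : Cell := ⟨⟨1,1,2⟩, ⟨0,1,1⟩, ⟨1,0,3⟩, ⟨2,1,3,2⟩, ⟨15,9,23,17⟩, ⟨7,4,12,9⟩, ⟨8,4,11,9⟩⟩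

def t138 : Tr :=
  F [(25,256),(12,96),(8,40)]

def c139 : Cell := ⟨⟨3,0,5⟩, ⟨1,1,2⟩, ⟨1,0,3⟩, ⟨2,1,3,2⟩, ⟨15,9,23,17⟩, ⟨7,4,12,9⟩, ⟨8,4,11,9⟩⟩

def t139 : Tr :=
  U1 1 1 (P1 4 1 (P5 1 1 (P2 1 2 (P4 1 2 (U2 1 2 (F [(25,256),(8,188),(12,117)]) (P5 1 2 (F [(25,41),(8,256),(12,138)]) (P3 1 2 (U0 1 1 (F [(25,256),(12,129),(8,40)]) (U2 2 1 (F [(25,256),(8,121),(12,171)]) (P5 2 1 (P2 1 1 (P4 1 2 (F [(12,256),(25,1),(8,159)]) (U0 2 1 (F [(25,136),(12,256),(8,138)]) (U2 4 1 (F [(25,144),(12,256),(8,169)]) (P1 1 1 (F [(12,256),(25,126)]) (P0 1 1 (F [(12,220),(25,256),(22,101)]) (F [(12,256),(25,238),(8,149),(22,150)])))))) (P1 2 1 (U0 2 1 (F [(25,256),(12,202),(8,84)]) (U2 4 1 (F [(25,256),(12,252),(8,157),(22,146)]) (P5 1 1 (P4 1 1 (F [(12,256),(22,158),(25,249),(8,151)]) (F [(25,256),(12,177),(22,152)])) (F [(12,204),(25,256),(22,216)])))) (P0 2 1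 (U0 2 1 (F [(25,256),(8,84),(12,202)]) (U2 4 1 (F [(25,256),(8,177),(12,33)]) (P4 1 1 (P2 1 2 (F [(25,253),(8,152),(22,161),(12,256)]) (F [(25,256),(22,161),(12,1)])) (F [(25,256),(12,1),(22,161)])))) (U0 2 1 (F [(25,256),(8,33),(12,121)]) (F [(8,158),(25,256),(22,166),(12,233)]))))) (F [(25,256),(12,101),(22,138)])))) (U0 1 1 (F [(25,256),(8,40),(12,129)]) (U2 2 1 (F [(25,210),(8,256),(12,215)]) (P2 1 1 (P4 1 1 (P5 1 2 (F [(12,256),(8,162),(22,1)]) (U0 2 1 (F [(25,136),(12,256),(8,138)]) (U2 4 1 (F [(25,215),(12,211),(8,256)]) (P3 1 1 (P1 1 1 (F [(25,256),(12,167),(22,116)]) (F [(12,256),(25,231),(8,145),(22,144)])) (F [(12,256),(25,27),(8,111)]))))) (P0 1 2 (F [(25,256),(8,112),(12,171)]) (U0 2 1 (F [(25,136),(8,138),(12,256)]) (U2 4 1 (F [(25,216),(8,256),(12,196)]) (P5 1 1 (F [(25,61),(8,167),(12,256)]) (P1 1 1 (F [(25,256),(12,7),(22,109)])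 (F [(25,243),(8,156),(12,256),(22,149)]))))))) (P0 1 1 (P4 2 1 (U0 2 1 (F [(25,173),(8,132),(12,256)]) (U2 4 1 (F [(25,216),(8,256),(12,196)]) (P1 1 1 (P5 1 1 (P4 1 2 (P2 1 2 (F [(8,155),(25,250),(12,256),(22,157)]) (F [(25,256),(8,154),(12,236),(22,158)])) (F [(25,256),(8,154),(12,236),(22,158)])) (F [(25,256),(22,113)])) (F [(25,55),(8,256),(12,38)])))) (F [(25,256),(8,76)])) (P1 2 1 (U0 2 1 (F [(25,236),(8,121),(12,256)]) (U2 4 1 (F [(25,216),(8,256),(12,196)]) (P3 1 1 (P5 1 1 (P4 1 2 (P2 1 2 (F [(25,253),(8,153),(12,256),(22,160)]) (F [(25,256),(22,161),(12,1)])) (F [(25,256),(12,1),(22,161)])) (F [(25,256),(12,1),(22,161)])) (F [(25,57),(8,256),(12,23)])))) (F [(25,58),(8,256),(12,19)]))))))))) (F [(25,256),(22,111)])) (F [(25,256),(22,160),(12,8)])) (F [(25,256),(22,134),(12,118)])) (F [(25,59),(8,256)])) (P1 4 1 (P5 1 1 (P2 1 2 (P4 1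 2 (U0 1 2 (F [(25,256),(12,171)]) (P5 1 2 (P2 1 4 (F [(12,256),(25,117),(8,220)]) (U2 1 1 (F [(25,256),(12,161),(8,56)]) (U0 2 1 (F [(12,167),(25,256)]) (P1 1 1 (F [(12,256),(25,57),(8,186)]) (P0 1 1 (P4 2 1 (P2 1 1 (F [(12,256),(8,127),(22,6)]) (U2 2 1 (F [(25,222),(8,28),(12,256)]) (U0 4 1 (F [(25,222),(8,24),(12,256)]) (F [(8,10582),(25,16384),(12,15856),(22,10224)])))) (P3 2 1 (U2 2 1 (F [(25,235),(12,256)]) (U0 4 1 (F [(25,233),(12,256)]) (P5 2 1 (F [(25,182),(8,256),(12,221)]) (P1 1 1 (F [(8,173),(25,250),(12,256),(22,153)]) (F [(25,256),(8,252),(12,146)]))))) (F [(25,256),(8,175),(12,26)]))) (P2 2 1 (P4 1 1 (F [(12,256),(8,165),(22,2)]) (U2 2 1 (F [(25,162),(8,145),(12,256)]) (U0 4 1 (F [(25,155),(8,167),(12,256)]) (F [(8,10245),(25,16384),(12,15563),(22,10388)])))) (U2 2 1 (F [(25,256),(8,58),(12,151)]) (U0 4 1 (F [(25,256),(8,143),(22,160),(12,234)])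 (F [(8,10191),(25,16384),(22,10406),(12,15504)]))))))))) (P3 1 2 (U2 1 1 (F [(25,256),(12,110)]) (U0 2 1 (F [(25,256),(12,112)]) (P5 2 1 (P2 1 1 (F [(12,256),(25,79),(22,70)]) (P1 2 1 (F [(12,256),(25,108),(22,93)]) (P0 2 1 (U2 2 1 (F [(25,218),(12,256)]) (U0 4 1 (F [(25,233),(12,256),(22,75)]) (P4 1 1 (P2 1 2 (F [(12,256),(22,162),(25,253),(8,147)]) (F [(25,256),(22,167),(12,69)])) (F [(25,256),(12,181),(22,178)])))) (U2 2 1 (F [(25,256),(12,106)]) (U0 4 1 (F [(25,256),(22,163),(12,232),(8,138)]) (F [(22,168),(25,256),(8,149),(12,234)])))))) (F [(25,256),(12,114),(22,175)])))) (U2 1 1 (F [(25,256),(12,110)]) (U0 2 1 (F [(25,256),(12,112)]) (P2 1 1 (P4 1 1 (F [(12,256),(25,79),(22,70)]) (P0 1 2 (F [(25,256),(12,171),(8,112)]) (U2 2 1 (F [(25,110),(12,256)]) (U0 4 1 (F [(25,110),(12,256)]) (P5 1 1 (F [(25,61),(12,256),(8,167)]) (P1 1 1 (F [(25,256),(12,7),(22,109)])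 (F [(25,15193),(12,16384),(8,9833),(22,9202)]))))))) (P0 1 1 (P4 2 1 (U2 2 1 (F [(25,235),(12,256)]) (U0 4 1 (F [(25,233),(12,256)]) (P1 1 1 (P5 1 1 (P4 1 2 (P2 1 2 (F [(12,256),(25,248),(8,152),(22,157)]) (U2 4 1 (F [(25,256),(12,73)]) (U0 8 1 (F [(25,183),(12,256)]) (F [(25,16384),(8,9572),(12,15227),(22,10441)])))) (P3 1 1 (U2 4 1 (F [(25,256),(12,73)]) (U0 8 1 (F [(25,181),(12,256),(8,105)]) (F [(25,16384),(8,9634),(12,15366),(22,10354)]))) (F [(25,216),(8,256),(12,204)]))) (F [(25,256),(22,113)])) (P2 1 1 (P4 1 2 (P5 1 2 (F [(25,256),(8,155),(12,254),(22,163)]) (F [(25,256),(8,179),(12,51)])) (F [(25,216),(8,256),(12,203)])) (F [(25,256),(8,151)]))))) (F [(25,256),(8,76)])) (P1 2 1 (U2 2 1 (F [(25,235),(12,256)]) (U0 4 1 (F [(25,233),(12,256)]) (P3 1 1 (P5 1 1 (P4 1 2 (P2 1 2 (F [(25,253),(12,256),(22,160),(8,153)]) (F [(25,256),(12,11),(22,162)]))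 (F [(25,256),(12,11),(22,162)])) (F [(25,256),(12,143),(22,174)])) (P4 1 1 (P5 1 2 (P2 1 2 (F [(25,256),(8,155),(12,254),(22,163)]) (F [(25,256),(22,161)])) (F [(25,256),(22,161)])) (F [(25,256),(8,151)]))))) (U2 2 1 (F [(25,256),(12,106)]) (U0 4 1 (F [(25,256),(8,114),(22,156),(12,219)]) (P4 1 1 (F [(25,256),(8,150),(22,168),(12,234)]) (F [(25,256),(8,151)])))))))))))) (F [(25,256),(22,111)])) (F [(25,256),(12,8),(22,160)])) (F [(25,256),(12,83),(22,167)])) (P2 4 1 (P5 1 2 (P4 1 2 (U0 1 2 (F [(25,256),(12,157),(8,104)]) (P2 1 2 (P5 1 4 (F [(12,256),(8,238),(25,149)]) (U2 1 1 (F [(25,256),(8,80),(12,153)]) (U0 2 1 (F [(25,256),(12,154),(8,103)]) (P1 1 1 (P3 1 1 (P5 2 1 (F [(8,256),(25,163),(12,227)]) (F [(8,162),(25,256),(22,154),(12,217)])) (F [(25,189),(8,256),(12,173)])) (F [(8,256),(25,129),(12,173)]))))) (F [(25,256),(8,177)]))) (F [(25,256),(8,39),(22,108)]))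 (F [(25,256),(22,162)])) (F [(25,256),(8,133)])))

def c140 : Cell := ⟨⟨3,1,4⟩, ⟨1,1,2⟩, ⟨3,0,5⟩, ⟨31,16,46,35⟩, ⟨31,17,45,35⟩, ⟨15,8,23,18⟩, ⟨8,4,11,9⟩⟩

def t140 : Tr :=
  U1 2 1 (U2 1 1 (P5 1 2 (P2 1 4 (F [(12,256),(8,128),(25,136)]) (U1 1 2 (U2 1 2 (P1 1 1 (F [(12,256),(8,150),(25,71)]) (P0 1 1 (P4 2 1 (P2 1 1 (F [(12,256),(8,142),(22,22)]) (U1 1 4 (P3 1 2 (U2 1 4 (P1 1 1 (F [(8,164),(22,165),(12,250),(25,256)]) (F [(8,256),(25,57),(12,12)])) (P1 1 1 (F [(12,254),(22,162),(8,158),(25,256)]) (P0 4 1 (F [(12,253),(8,157),(22,161),(25,256)]) (F [(8,158),(25,256),(22,166),(12,236)])))) (U2 1 4 (F [(8,256),(25,44),(12,97)]) (P0 2 1 (F [(8,144),(12,256),(25,152)]) (P1 4 1 (F [(8,160),(12,254),(25,256),(22,160)]) (F [(8,159),(25,256),(12,239),(22,163)]))))) (P3 1 2 (P1 1 1 (F [(12,256),(25,164),(22,29)]) (F [(25,256),(12,242),(8,144),(22,155)]))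 (F [(12,243),(25,256),(8,145),(22,153)])))) (P3 2 1 (U1 1 4 (P5 2 1 (U2 1 4 (F [(8,256),(25,55),(12,43)]) (P2 2 1 (F [(12,256),(8,133),(25,165)]) (P1 4 1 (F [(25,256),(12,255),(8,159),(22,153)]) (F [(25,256),(12,24),(22,109)])))) (U2 1 4 (P1 1 1 (F [(8,10270),(12,16384),(22,10067),(25,16202)]) (F [(8,256),(25,57),(12,12)])) (P1 1 1 (F [(12,254),(22,159),(8,153),(25,256)]) (P2 4 1 (F [(12,252),(25,256),(8,156),(22,159)]) (F [(25,256),(22,117),(12,20)]))))) (F [(25,256),(12,221),(22,87)])) (F [(25,256),(8,62),(12,164)]))) (P2 2 1 (P4 1 1 (F [(12,256),(22,20),(8,155)]) (U1 1 4 (U2 1 4 (P3 1 1 (F [(8,161),(22,167),(12,245),(25,256)]) (F [(8,256),(22,113),(25,239)])) (P3 1 1 (F [(22,165),(12,248),(8,157),(25,256)]) (F [(22,172),(8,166),(12,234),(25,256)]))) (P3 1 1 (F [(12,250),(22,160),(8,150),(25,256)]) (P0 1 2 (F [(25,256),(8,147),(12,242),(22,157)])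 (F [(12,248),(8,152),(25,256),(22,161)]))))) (U1 1 4 (F [(22,10771),(8,9527),(25,16384),(12,14911)]) (F [(22,10326),(25,16384),(8,8978),(12,14987)]))))) (P1 1 1 (F [(12,256),(25,113)]) (P0 1 1 (P4 2 1 (P2 1 1 (F [(12,256)]) (F [(12,256),(22,159),(25,246)])) (F [(12,221),(25,256),(22,87)])) (P2 2 1 (P4 1 1 (F [(12,256),(22,26)]) (F [(12,256),(22,175),(25,248)])) (F [(22,191),(12,213),(25,256)]))))) (F [(12,222),(25,256),(22,99)]))) (P3 1 2 (F [(12,205),(25,212),(22,256)]) (U1 1 2 (U2 1 2 (P2 1 1 (P4 1 1 (F [(12,256),(25,103),(22,102)]) (P0 1 2 (F [(25,256),(12,135),(8,37)]) (U1 1 4 (U2 1 4 (P5 1 1 (F [(12,256),(25,67),(8,150)]) (P1 1 1 (F [(25,256),(12,31),(22,98)]) (P0 2 1 (P3 1 1 (F [(12,256),(25,242),(22,150),(8,151)]) (F [(25,233),(12,256),(8,151),(22,137)])) (F [(12,256),(22,54),(8,65)])))) (F [(12,256),(25,108)])) (F [(12,256),(25,111)]))))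 (P0 1 1 (P4 2 1 (U1 1 4 (U2 1 4 (P1 1 1 (P5 1 1 (P4 1 2 (P2 1 2 (F [(22,158),(12,256),(25,244),(8,150)]) (U1 1 8 (F [(25,16384),(22,10511),(12,15258),(8,9526)]) (F [(25,161),(12,256),(22,30)]))) (P3 1 1 (U1 1 8 (P2 2 1 (F [(12,251),(25,256),(22,162),(8,153)]) (F [(25,256),(22,101),(12,29)])) (F [(25,152),(12,256),(22,23)])) (U1 1 8 (P2 2 1 (F [(25,256),(8,154),(12,250),(22,158)]) (F [(25,256),(12,77)])) (F [(25,152),(12,256),(22,23)])))) (F [(25,256),(12,31),(22,98)])) (P2 1 1 (P4 1 2 (P5 1 2 (F [(22,163),(12,253),(8,155),(25,256)]) (U1 1 8 (F [(25,256),(22,163),(8,150),(12,238)]) (F [(25,256),(12,244),(22,158),(8,142)]))) (U1 1 8 (P5 2 1 (F [(8,154),(25,256),(22,159),(12,247)]) (F [(25,256),(8,94),(22,105)])) (F [(25,16384),(8,9243),(12,15650),(22,10029)]))) (F [(25,256),(8,253),(22,98)]))) (P1 1 1 (F [(25,159),(12,256),(22,43)]) (P2 1 1 (P4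 1 2 (F [(22,180),(12,189),(25,256)]) (F [(25,256),(12,244),(22,157),(8,143)])) (F [(25,256),(22,115),(12,22)])))) (F [(25,256),(12,202),(22,107)])) (F [(25,256),(12,76)])) (F [(25,16384),(22,15136),(12,6326)]))) (F [(12,178),(25,256),(22,150)])) (F [(12,162),(25,256),(22,121)])))) (F [(12,256),(22,153),(25,227)])) (F [(12,227),(25,256),(22,96)])

def c141 : Cell := ⟨⟨7,0,9⟩, ⟨6,1,9⟩, ⟨3,0,5⟩, ⟨63,32,90,71⟩, ⟨31,17,45,35⟩, ⟨31,16,45,36⟩, ⟨8,4,11,9⟩⟩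

def t141 : Tr :=
  P4 1 4 (F [(12,256),(8,163)]) (U2 1 2 (U1 1 2 (P3 1 1 (F [(12,256)]) (P0 1 2 (P4 2 1 (F [(12,256),(8,163)]) (U2 1 4 (F [(8,222),(12,256),(25,122)]) (P3 2 1 (F [(12,256)]) (P0 1 4 (P4 4 1 (F [(12,256),(8,161)]) (U0 1 1 (F [(25,152),(12,256),(8,133)]) (U2 2 1 (F [(25,151),(8,165),(12,256)]) (P3 4 1 (F [(12,256),(8,154),(25,249),(22,147)]) (P0 1 8 (F [(25,256),(8,154),(12,256),(22,150)]) (F [(8,156),(25,252),(12,256),(22,150)])))))) (F [(12,256),(8,161)]))))) (F [(12,256),(8,163)]))) (P3 1 1 (F [(12,256)]) (P0 1 2 (P4 2 1 (F [(12,256),(22,25)]) (U0 1 2 (F [(12,256),(25,137)]) (P3 2 1 (F [(12,256),(22,23)]) (P0 1 4 (P4 4 1 (F [(12,256),(8,157),(22,1)]) (U2 1 1 (F [(25,134),(12,256)]) (U0 2 1 (F [(12,256),(25,135)]) (P3 4 1 (F [(12,256),(22,22)]) (P0 1 8 (F [(25,256),(12,256),(8,154),(22,150)]) (F [(12,256),(25,250),(8,154),(22,149)]))))))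 (F [(12,256),(8,157),(22,1)]))))) (F [(12,256),(22,25)])))) (P3 1 1 (F [(12,256)]) (P0 1 2 (P4 2 1 (F [(12,256),(22,55)]) (U0 1 1 (U1 2 1 (U2 1 1 (P3 2 1 (F [(12,256),(22,166)]) (P0 1 4 (P4 4 1 (F [(12,256),(22,55)]) (F [(12,16384),(22,9904),(25,16359),(8,9509)])) (F [(12,256),(22,170)]))) (F [(12,256),(22,159),(25,236)])) (F [(12,256),(25,115)])) (F [(22,256),(8,76),(25,46)]))) (F [(12,256),(22,178)]))))

def c142 : Cell := ⟨⟨7,0,9⟩, ⟨6,1,9⟩, ⟨3,0,5⟩, ⟨31,16,46,35⟩, ⟨31,17,45,35⟩, ⟨31,16,45,36⟩, ⟨63,32,90,71⟩⟩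

def t142 : Tr :=
  U2 1 2 (U1 1 2 (P1 1 1 (P3 1 1 (F [(12,256),(22,58)]) (P4 2 1 (F [(12,256),(22,48),(8,166)]) (P0 1 2 (U2 1 4 (U1 1 4 (F [(8,256),(25,40),(12,139)]) (P3 2 1 (F [(12,256),(8,159)]) (P4 4 1 (F [(12,256),(8,159)]) (P0 1 4 (F [(25,217),(8,256),(12,217)]) (U0 1 2 (F [(25,116),(12,256)]) (P2 2 1 (F [(25,256),(8,150)]) (P1 1 1 (F [(25,123),(8,229),(12,256)]) (P0 2 1 (F [(25,215),(8,256),(12,213)]) (F [(25,16359),(8,10338),(12,16384),(22,9931)]))))))))) (P3 2 1 (F [(12,256),(22,51),(8,109)]) (P4 4 1 (F [(12,256),(8,128),(22,32)]) (P0 1 4 (U0 1 1 (F [(25,256),(12,206),(8,82)]) (U2 2 1 (U1 1 1 (F [(25,42),(8,256),(12,136)]) (P3 4 1 (U0 1 2 (F [(25,256),(12,166),(8,108)]) (P0 1 1 (F [(25,174),(8,255),(12,256)]) (P1 1 2 (F [(12,256),(25,122),(8,226)]) (F [(25,256),(8,156),(12,254),(22,154)])))) (F [(25,256),(8,177),(12,42)]))) (P3 4 1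 (U0 2 1 (U1 2 1 (U2 1 1 (P0 1 1 (F [(12,256),(8,164),(25,234)]) (P1 1 2 (F [(12,256),(8,156),(25,254),(22,151)]) (F [(8,156),(25,256),(22,154),(12,254)]))) (F [(12,255),(25,256),(22,154),(8,153)])) (F [(12,253),(25,256),(8,152),(22,153)])) (U2 4 1 (U1 1 1 (P0 1 1 (F [(8,10015),(12,16384),(22,9761),(25,16215)]) (F [(22,154),(8,157),(12,256),(25,253)])) (F [(12,256),(22,155),(8,155),(25,256)])) (F [(22,154),(12,256),(8,152),(25,253)]))) (P4 8 1 (U0 2 1 (F [(25,16384),(8,9915),(12,15642),(22,9713)]) (F [(22,154),(8,156),(25,256),(12,251)])) (F [(25,256),(22,152)]))))) (U0 1 1 (U1 2 1 (P2 2 1 (F [(25,151),(8,132),(12,256)]) (U2 1 1 (P1 1 1 (F [(25,152),(12,256),(8,164)]) (P0 2 1 (F [(25,16384),(8,10026),(12,16293),(22,9869)]) (F [(8,10084),(12,16331),(22,10037),(25,16384)]))) (P1 1 1 (F [(12,256),(25,147),(8,129)]) (P0 2 1 (F [(12,253),(25,256),(8,153),(22,154)])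 (F [(12,255),(22,157),(25,256),(8,153)]))))) (F [(25,111),(12,256)])) (U2 2 1 (P2 2 1 (U1 1 1 (F [(8,256),(25,42),(12,136)]) (U0 1 2 (F [(12,255),(25,256),(8,155),(22,153)]) (P1 1 4 (P3 1 2 (F [(12,256),(8,54),(22,15)]) (P4 1 1 (F [(8,161),(12,256)]) (P0 1 4 (F [(25,256),(8,156),(12,254),(22,154)]) (F [(12,256),(8,158)])))) (F [(8,10179),(12,16296),(22,9952),(25,16384)])))) (U1 1 1 (P1 1 1 (U2 1 2 (F [(8,229),(25,122),(12,256)]) (P5 4 1 (P0 1 1 (F [(8,162),(22,155),(12,256),(25,256)]) (F [(22,152),(8,157),(12,256),(25,251)])) (P1 1 2 (F [(12,153),(8,256),(25,39)]) (P0 1 1 (P3 2 1 (F [(12,256),(8,157),(22,153),(25,252)]) (F [(8,161),(25,256),(22,155),(12,256)])) (F [(12,256),(22,152),(8,157),(25,251)]))))) (P0 2 1 (U2 1 2 (U1 1 2 (F [(8,256),(12,117)]) (P3 1 1 (F [(8,158),(22,155),(12,256),(25,255)]) (F [(8,157),(25,256),(22,153),(12,244)])))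 (P3 1 1 (F [(22,156),(8,157),(12,256),(25,255)]) (F [(22,156),(8,157),(25,256),(12,253)]))) (F [(22,256),(8,205),(12,204)]))) (P1 1 1 (U0 1 2 (F [(12,254),(22,154),(25,256),(8,152)]) (P5 4 1 (P0 1 1 (P4 2 1 (F [(22,153),(12,256),(8,156),(25,252)]) (P3 4 1 (F [(22,155),(12,256),(8,156),(25,255)]) (F [(22,155),(8,154),(25,256),(12,251)]))) (F [(22,75),(12,256),(25,87)])) (P1 1 2 (P3 1 2 (F [(12,256),(22,23)]) (P0 1 2 (P4 4 1 (F [(12,256),(8,158)]) (F [(25,256),(12,254),(8,156),(22,154)])) (F [(12,256),(22,23)]))) (P0 1 1 (P3 2 1 (F [(12,256),(22,127),(25,172)]) (P4 4 1 (F [(12,256),(22,152),(8,154),(25,250)]) (F [(25,256),(22,155),(8,152),(12,252)]))) (F [(12,256),(22,161),(25,228)]))))) (P0 2 1 (U0 1 2 (F [(22,154),(12,253),(25,256),(8,152)]) (P3 1 1 (F [(22,101),(12,256),(25,107)]) (F [(22,156),(8,156),(12,252),(25,256)]))) (F [(22,256),(12,145),(8,73)])))))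 (P2 2 1 (U0 2 1 (U1 2 1 (P1 1 4 (U2 1 1 (P3 1 2 (F [(12,256),(22,93),(8,68)]) (F [(22,9989),(12,16331),(8,10005),(25,16384)])) (F [(12,255),(22,155),(8,153),(25,256)])) (F [(22,161),(12,253),(8,157),(25,256)])) (F [(12,254),(22,154),(25,256),(8,152)])) (F [(22,256),(12,147),(8,76)])) (F [(22,256),(12,207),(25,205)])))))))) (F [(12,256),(8,159)])))) (P0 1 1 (P4 2 1 (P2 1 1 (F [(22,52),(12,256),(8,176)]) (U2 1 4 (P3 1 2 (F [(22,256),(8,71),(25,19)]) (U1 1 4 (F [(8,256),(12,58)]) (P0 2 1 (F [(8,233),(12,256),(25,117)]) (F [(22,173),(8,163),(12,244),(25,256)])))) (P3 1 2 (F [(22,256),(25,36)]) (P0 2 1 (F [(12,256),(8,164)]) (F [(22,170),(8,155),(12,243),(25,256)]))))) (P3 2 1 (U2 1 4 (P5 2 1 (U1 1 4 (F [(8,256),(25,33)]) (P2 2 1 (F [(8,162),(12,256)]) (P1 4 1 (F [(22,157),(8,159),(12,256),(25,251)]) (F [(8,151),(22,159),(25,256),(12,243)])))) (U1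 1 4 (F [(22,16),(8,256),(12,120)]) (P1 1 1 (P3 1 2 (F [(22,256),(12,149)]) (F [(22,653842),(12,1048576),(8,652381),(25,1040630)])) (P2 4 1 (F [(22,653842),(12,1048576),(8,652381),(25,1040630)]) (F [(22,10147),(8,9326),(25,16384),(12,15054)]))))) (P5 2 1 (P2 2 1 (F [(22,6),(12,256),(8,158)]) (F [(22,174),(8,144),(12,247),(25,256)])) (F [(22,256),(12,196),(25,205)]))) (U2 1 4 (U1 1 4 (F [(8,256),(25,61)]) (P0 1 2 (P4 4 1 (P2 1 1 (F [(8,159),(12,256)]) (U0 1 2 (F [(25,221),(8,23),(12,256)]) (P3 1 2 (F [(8,9871),(25,16384),(12,15747),(22,10024)]) (F [(8,150),(25,256)])))) (P3 4 1 (U0 1 2 (F [(25,231),(12,256)]) (P5 2 1 (F [(25,256),(8,150)]) (P1 1 1 (P3 1 2 (F [(25,256),(8,155),(12,248),(22,157)]) (F [(25,256),(8,150)])) (F [(25,256),(8,150)])))) (F [(25,256),(8,150)]))) (P2 2 1 (P4 1 1 (F [(8,162),(12,256)]) (U0 1 2 (F [(25,256),(8,148),(12,245),(22,154)])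 (F [(8,9812),(25,16384),(22,10044),(12,15683)]))) (F [(25,16384),(8,9424),(22,10158),(12,15207)])))) (P0 1 2 (P4 4 1 (P2 1 1 (F [(8,137),(12,256),(22,22)]) (U0 1 1 (U1 2 1 (P3 1 2 (U2 1 1 (F [(8,9979),(25,16384),(22,10117),(12,15785)]) (P1 1 1 (F [(22,158),(12,250),(8,153),(25,256)]) (F [(25,16384),(8,9942),(22,9975),(12,15842)]))) (F [(8,157),(25,256),(12,248),(22,156)])) (F [(25,256),(12,247),(8,144),(22,152)])) (U2 2 1 (P3 1 2 (F [(22,256),(8,76),(25,16)]) (F [(8,160),(22,159),(25,256),(12,248)])) (F [(22,10165),(8,9965),(12,15912),(25,16384)])))) (P3 4 1 (U0 1 1 (U1 2 1 (P5 2 1 (F [(25,16384),(8,9941),(12,15873),(22,9850)]) (U2 1 1 (P1 1 1 (P3 1 2 (F [(8,9980),(22,10065),(25,16384),(12,16081)]) (F [(25,239),(8,256),(22,108)])) (F [(25,58),(8,256),(12,12)])) (P1 1 1 (P3 1 2 (F [(22,157),(12,250),(25,256),(8,153)]) (F [(25,256),(12,250),(8,154),(22,155)]))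 (F [(25,256),(8,154),(22,155),(12,248)])))) (F [(25,256),(12,223),(22,84)])) (U2 2 1 (P5 2 1 (U1 1 1 (F [(8,256),(25,34)]) (P2 2 1 (U0 1 2 (F [(8,9887),(25,16384),(12,16169),(22,9894)]) (F [(8,256),(22,197),(25,169)])) (F [(25,256),(8,153),(22,158),(12,248)]))) (U1 1 1 (F [(8,256),(22,200),(25,173)]) (F [(22,158),(8,153),(25,256),(12,248)]))) (P5 2 1 (P2 2 1 (U0 2 1 (U1 2 1 (F [(22,209),(8,256),(25,159)]) (F [(22,155),(12,253),(8,153),(25,256)])) (F [(22,256),(8,122),(12,62)])) (F [(22,233),(25,256),(12,115)])) (F [(22,256),(12,150),(25,255)])))) (U0 1 1 (F [(25,256),(8,57),(12,167)]) (U2 2 1 (F [(25,256),(8,177),(12,42)]) (P0 1 4 (P4 8 1 (F [(8,156),(25,256),(22,154),(12,248)]) (F [(25,256),(8,68),(22,143)])) (F [(22,154),(8,156),(25,256),(12,248)])))))) (P2 2 1 (P4 1 1 (F [(22,6),(8,158),(12,256)]) (U0 1 1 (U1 2 1 (F [(8,153),(22,160),(25,256),(12,243)])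 (F [(25,256),(8,147),(12,245),(22,155)])) (F [(22,256),(8,70),(25,52)]))) (F [(22,173),(8,125),(25,256),(12,216)])))))) (F [(22,256),(8,65),(25,48)]))) (P1 1 1 (P3 1 1 (F [(12,256),(22,54)]) (P4 2 1 (F [(12,256),(22,25)]) (P0 1 2 (U0 1 2 (F [(12,256),(25,116)]) (P3 2 1 (F [(12,256),(22,23)]) (P4 4 1 (F [(12,256),(22,12),(8,81)]) (P0 1 4 (U2 1 1 (F [(25,189),(12,256)]) (U0 2 1 (F [(12,256),(25,166),(22,30)]) (P3 4 1 (F [(12,256),(22,91),(25,114)]) (P4 8 1 (F [(12,256),(22,153),(25,254),(8,151)]) (F [(25,256),(12,10),(22,153)]))))) (F [(12,256),(22,91),(25,114)]))))) (F [(12,256),(22,23)])))) (P0 1 1 (P4 2 1 (P2 1 1 (F [(12,256),(22,25)]) (U0 1 2 (F [(22,159),(12,256),(25,246)]) (P3 1 2 (F [(22,256),(25,36)]) (P0 2 1 (F [(12,256),(8,164)]) (F [(22,166),(12,242),(8,148),(25,256)]))))) (P3 2 1 (U0 1 2 (F [(12,225),(22,94),(25,256)]) (P5 2 1 (P2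 2 1 (F [(22,1),(12,256),(8,159)]) (F [(22,164),(12,244),(8,123),(25,256)])) (F [(22,219),(12,203),(25,256)]))) (U0 1 2 (F [(12,225),(25,256),(22,94)]) (P0 1 2 (P4 4 1 (P2 1 1 (F [(12,256),(22,7),(8,116)]) (U2 1 1 (F [(12,247),(25,256),(22,154),(8,145)]) (F [(22,10054),(12,15904),(8,9470),(25,16384)]))) (P3 4 1 (U2 1 1 (F [(25,256),(12,223),(22,84)]) (F [(22,10054),(12,15904),(25,16384),(8,9470)])) (U2 1 1 (F [(25,256),(12,174)]) (U0 2 1 (F [(25,256),(12,227),(22,92)]) (P0 1 4 (P4 8 1 (F [(25,256),(22,155),(12,247),(8,154)]) (F [(25,256),(22,152)])) (F [(22,156),(25,256),(8,153),(12,246)])))))) (P2 2 1 (P4 1 1 (F [(22,1),(12,256),(8,159)]) (F [(22,158),(12,237),(25,256),(8,144)])) (F [(22,161),(25,256),(12,229),(8,134)])))))) (F [(22,256),(25,39)])))) (F [(22,256),(12,175),(25,250)])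

def c143 : Cell := ⟨⟨7,0,9⟩, ⟨6,1,9⟩, ⟨3,0,5⟩, ⟨31,16,46,35⟩, ⟨61,33,91,71⟩, ⟨15,8,23,18⟩, ⟨31,16,45,36⟩⟩

def t143 : Tr :=
  F [(22,256),(12,199),(25,200)]

theorem g11 : ∀ c ∈ [c132, c133, c134, c135, c136, c137, c138, c139, c140, c141, c142, c143], Done D c := by
  intro c hc
  simp only [List.mem_cons, List.not_mem_nil, or_false] at hc
  rcases hc with rfl | rfl | rfl | rfl | rfl | rfl | rfl | rfl | rfl | rfl | rfl | rfl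
  · exact done_of_chk (t := t132) (by decide +kernel)
  · exact done_of_chk (t := t133) (by decide +kernel)
  · exact done_of_chk (t := t134) (by decide +kernel)
  · exact done_of_chk (t := t135) (by decide +kernel)
  · exact done_of_chk (t := t136) (by decide +kernel)
  · exact done_of_chk (t := t137) (by decide +kernel)
  · exact done_of_chk (t := t138) (by decide +kernel)
  · exact done_of_chk (t := t139) (by decide +kernel)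
  · exact done_of_chk (t := t140) (by decide +kernel)
  · exact done_of_chk (t := t141) (by decide +kernel)
  · exact done_of_chk (t := t142) (by decide +kernel)
  · exact done_of_chk (t := t143) (by decide +kernel)

end Pool.Agent.W2helper59.NW.E1
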