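import Pool.Agent.W2helper59.NW.D_E1

set_option autoImplicit false
set_option maxRecDepth 1000000

namespace Pool.Agent.W2helper59.NW.E1

open Tr

def c144 : Cell := ⟨⟨13,0,19⟩, ⟨12,1,19⟩, ⟨3,0,5⟩, ⟨62,32,91,71⟩, ⟨62,33,90,71⟩, ⟨61,33,91,71⟩, ⟨31,16,45,36⟩⟩

def t144 : Tr :=
  F [(12,256),(22,102),(25,103)]

def c145 : Cell := ⟨⟨13,0,19⟩, ⟨12,1,19⟩, ⟨3,0,5⟩, ⟨124,66,181,141⟩, ⟨123,67,181,141⟩, ⟨61,33,91,71⟩, ⟨62,33,90,71⟩⟩

def t145 : Tr :=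
  U2 1 4 (U1 1 4 (P5 1 1 (P4 1 2 (F [(12,256),(8,160)]) (U2 1 8 (F [(25,256),(8,4)]) (P3 1 1 (P1 1 1 (F [(12,256),(25,31)]) (P0 2 1 (F [(25,256),(12,219),(22,98)]) (P2 2 1 (F [(12,256),(25,159),(22,28)]) (U0 1 1 (F [(25,150),(12,256),(8,165)]) (U2 2 1 (U1 1 1 (F [(25,16384),(8,9967),(12,16267),(22,10049)]) (P1 2 1 (F [(12,256),(25,89),(22,78)]) (P0 4 1 (F [(25,256),(12,255),(8,154),(22,156)]) (F [(8,158),(25,256),(12,256),(22,156)])))) (P1 2 1 (F [(12,256),(22,101),(25,104)]) (P0 4 1 (F [(22,157),(12,256),(25,256),(8,154)]) (F [(22,10011),(8,10011),(12,16384),(25,16266)])))))))) (P0 1 1 (F [(25,256),(12,117)]) (P1 2 1 (F [(25,256),(12,147),(22,117)]) (P2 2 1 (F [(25,221),(12,256),(22,66)]) (U0 1 1 (F [(25,256),(12,73),(8,162)]) (U2 2 1 (F [(25,256),(8,164),(12,74)]) (P0 2 1 (P4 2 1 (F [(25,16384),(12,16286),(22,10028),(8,9822)]) (F [(25,256),(22,156)])) (P1 4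 1 (F [(22,10034),(25,16384),(12,16299),(8,9843)]) (P2 4 1 (F [(22,10060),(8,9898),(12,16289),(25,16384)]) (F [(22,158),(8,154),(25,256),(12,251)])))))))))))) (P1 1 2 (F [(25,256),(12,165),(22,113)]) (U2 1 8 (F [(25,256),(8,4)]) (P4 1 1 (P2 1 1 (F [(12,256),(25,160),(22,30)]) (P1 2 1 (F [(25,256),(12,164),(22,113)]) (P0 2 1 (F [(25,256),(12,164),(22,113)]) (U0 1 1 (F [(25,256),(12,248),(8,150),(22,148)]) (U2 2 1 (U1 1 1 (F [(25,16384),(8,9931),(22,10068),(12,16212)]) (P2 2 1 (F [(12,256),(25,113),(22,93)]) (F [(25,16384),(22,10166),(12,15678),(8,9583)]))) (F [(22,10448),(12,15620),(25,16384),(8,9393)])))))) (F [(25,256),(22,148),(8,71)]))))) (P5 1 1 (P4 1 2 (F [(12,256),(22,1),(8,155)]) (U0 1 2 (F [(12,256),(25,116)]) (P3 1 1 (P1 1 1 (F [(12,256)]) (P0 2 1 (F [(12,256),(22,23)]) (P2 2 1 (F [(12,256),(22,23)]) (U2 1 1 (F [(12,256),(25,95),(8,135)]) (F [(12,256),(22,159),(25,255),(8,152)])))))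 (P0 1 1 (F [(25,256),(12,117)]) (P1 2 1 (F [(25,256),(12,181),(22,147)]) (P2 2 1 (F [(25,238),(12,256),(22,167)]) (U2 1 1 (F [(25,133),(12,256),(8,134)]) (U0 2 1 (F [(12,15939),(25,16384),(22,10008),(8,9568)]) (P0 2 1 (F [(25,256),(12,192),(22,174)]) (P1 4 1 (F [(12,192),(22,174),(25,256)]) (P2 4 1 (F [(22,172),(12,256),(25,241)]) (F [(22,158),(12,252),(8,154),(25,256)])))))))))))) (P1 1 2 (F [(25,256),(12,180),(22,147)]) (U0 1 2 (F [(25,116),(12,256)]) (P4 1 1 (P2 1 1 (F [(12,256),(25,115),(22,93)]) (P1 2 1 (F [(12,192),(25,256),(22,175)]) (P0 2 1 (F [(12,256),(25,184),(22,135)]) (U2 1 1 (F [(12,256),(25,256),(22,157),(8,153)]) (F [(22,10198),(12,16208),(25,16384),(8,9694)]))))) (P0 1 1 (F [(25,256),(12,6),(22,110)]) (P1 2 1 (F [(25,256),(12,1),(22,158)]) (P2 2 1 (F [(25,256),(12,156),(22,170)]) (F [(25,16384),(12,14612),(22,10155),(8,8998)]))))))))) (F [(12,213),(22,256),(25,215)])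

def c146 : Cell := ⟨⟨25,0,39⟩, ⟨12,1,19⟩, ⟨3,0,5⟩, ⟨124,66,181,141⟩, ⟨31,17,45,35⟩, ⟨123,67,181,141⟩, ⟨62,33,90,71⟩⟩

def t146 : Tr :=
  U1 1 4 (P4 2 1 (P5 1 2 (F [(12,256),(25,12),(8,210)]) (U2 1 8 (F [(25,256),(8,102)]) (P0 1 1 (F [(25,235),(12,256),(8,166)]) (P1 1 1 (F [(25,256),(12,168),(8,110)]) (P2 2 1 (U0 1 1 (F [(25,256),(12,78)]) (U2 2 1 (F [(25,214),(12,256),(8,27)]) (P4 1 1 (F [(12,256),(25,222),(22,66)]) (P3 1 1 (P5 2 1 (U0 2 1 (F [(25,168),(12,256),(8,123)]) (U2 4 1 (F [(25,149),(12,256),(8,166)]) (P0 1 1 (F [(25,16384),(12,16294),(8,9711),(22,9914)]) (F [(12,256),(25,72),(8,57)])))) (P1 1 2 (F [(25,256),(22,107)]) (U0 2 1 (F [(25,213),(12,256),(8,27)]) (U2 4 1 (F [(25,213),(12,256),(8,26)]) (P0 1 1 (F [(25,256),(12,254),(22,156),(8,153)]) (F [(12,256),(25,160),(22,28)])))))) (P0 1 2 (U0 2 1 (F [(25,226),(12,256),(8,114)]) (U2 4 1 (F [(8,256),(25,213),(12,217)])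 (P4 2 1 (P5 1 1 (F [(12,256),(25,31)]) (P3 1 2 (P1 1 2 (F [(25,16384),(8,9955),(12,16376),(22,9968)]) (F [(12,256),(8,156)])) (F [(12,256),(8,156)]))) (F [(8,256),(12,29),(25,58)])))) (U0 2 1 (F [(25,168),(12,256),(8,123)]) (U2 4 1 (F [(12,256),(25,122),(8,224)]) (P1 1 1 (P5 1 1 (F [(12,256),(8,155)]) (P3 1 2 (F [(25,16384),(12,16377),(8,9948),(22,9969)]) (F [(12,256),(8,155)]))) (F [(12,256),(8,155)]))))))))) (U0 1 1 (F [(25,211),(8,256),(12,211)]) (U2 2 1 (F [(25,211),(8,256),(12,211)]) (P1 2 1 (P3 1 1 (P5 2 1 (U0 2 1 (F [(25,256),(12,131),(8,32)]) (U2 4 1 (F [(25,16384),(8,9920),(12,16318),(22,9987)]) (P0 1 1 (P4 1 1 (F [(22,10047),(12,16293),(25,16384),(8,9815)]) (F [(25,256),(22,156),(8,153),(12,254)])) (F [(22,256),(25,246),(12,164)])))) (F [(25,256),(22,112)])) (P0 1 2 (P4 2 1 (U0 2 1 (F [(25,239),(12,256),(8,112)]) (U2 4 1 (F [(8,224),(25,122),(12,256)])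 (P5 1 1 (F [(12,256),(8,163),(25,1)]) (P3 1 2 (F [(8,9929),(25,16384),(12,16284),(22,9993)]) (F [(8,163),(12,256),(25,1)]))))) (F [(8,256),(25,58),(12,29)])) (U0 2 1 (F [(25,256),(8,32),(12,131)]) (U2 4 1 (F [(8,635101),(25,1048576),(12,1044392),(22,639166)]) (P1 1 1 (P5 1 1 (P2 1 2 (F [(12,256),(22,11),(8,145)]) (F [(8,9943),(22,10013),(25,16384),(12,16308)])) (F [(25,16384),(8,9869),(22,10013),(12,16193)])) (P2 1 1 (P5 1 2 (F [(22,9887),(12,16384),(8,9987),(25,16129)]) (F [(22,157),(8,155),(25,256),(12,254)])) (F [(22,157),(8,155),(25,256),(12,253)]))))))) (P0 2 1 (P3 2 1 (U0 2 1 (F [(8,153),(25,256),(12,251),(22,150)]) (U2 4 1 (U1 1 1 (F [(8,256),(25,42),(12,136)]) (F [(8,9995),(25,16384),(22,10075),(12,16362)])) (F [(22,10088),(8,9995),(12,16368),(25,16384)]))) (F [(8,242),(12,256),(25,20)])) (P2 4 1 (U0 2 1 (F [(8,9939),(25,16384),(12,16267),(22,9914)])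 (U2 4 1 (U1 1 1 (F [(8,256),(12,136),(25,42)]) (F [(8,9994),(22,10108),(12,16376),(25,16384)])) (F [(22,256),(8,73),(12,144)]))) (F [(8,155),(22,158),(25,256),(12,251)]))))))))))) (F [(25,250),(8,256),(22,91)])) (P4 2 1 (P5 1 2 (F [(12,256),(8,159)]) (U0 1 2 (F [(25,116),(12,256)]) (P0 1 1 (F [(25,235),(12,256),(8,166)]) (P1 1 1 (F [(25,256),(12,168),(8,110)]) (P2 2 1 (U2 1 1 (F [(25,256),(12,235)]) (U0 2 1 (F [(12,256),(25,186)]) (P4 1 1 (F [(12,256),(25,236),(22,155)]) (P3 1 1 (F [(25,256),(12,181),(22,147)]) (P0 1 2 (U2 2 1 (F [(12,256),(25,214),(8,26)]) (U0 4 1 (F [(12,256),(25,183)]) (P4 2 1 (P5 1 1 (F [(12,256)]) (P3 1 2 (P1 1 2 (F [(25,16384),(12,16383),(8,9907),(22,9972)]) (F [(12,256),(8,156)])) (F [(12,256)]))) (P3 2 1 (P5 2 1 (F [(12,256),(8,156)]) (P1 1 2 (U2 4 1 (F [(25,256),(12,236)]) (U0 8 1 (F [(25,214),(12,256),(8,26)]) (F [(8,9972),(25,16384),(12,16318),(22,9954)])))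 (F [(12,256),(8,156)]))) (F [(12,256),(8,156)]))))) (U2 2 1 (F [(12,256),(25,211)]) (U0 4 1 (F [(12,256),(25,211)]) (P1 1 1 (P5 1 1 (F [(12,256),(22,23)]) (P3 1 2 (F [(12,16383),(25,16384),(8,9903),(22,9976)]) (F [(12,256),(8,119),(22,6)]))) (F [(12,256),(22,23)]))))))))) (U2 1 1 (F [(25,133),(12,256),(8,134)]) (U0 2 1 (U1 1 1 (F [(25,16384),(12,16309),(8,9669),(22,9950)]) (F [(12,256),(25,95),(22,82)])) (P1 2 1 (P3 1 1 (F [(25,256),(12,164),(22,171)]) (P0 1 2 (P4 2 1 (U2 2 1 (F [(12,153),(25,256)]) (U0 4 1 (F [(12,256),(25,73),(8,57)]) (P5 1 1 (F [(12,256),(8,157)]) (P3 1 2 (U2 4 1 (F [(25,127),(12,256),(8,133)]) (U0 8 1 (F [(12,16277),(25,16384),(22,9996),(8,9877)]) (F [(22,10009),(8,9929),(12,16304),(25,16384)]))) (F [(12,256),(8,157)]))))) (U2 2 1 (F [(25,256),(12,132),(8,33)]) (U0 4 1 (F [(12,256),(25,73),(8,57)]) (P3 2 1 (P5 2 1 (F [(12,256),(8,157)]) (U2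 4 1 (F [(25,127),(8,133),(12,256)]) (U0 8 1 (F [(25,16384),(8,9911),(12,16277),(22,9961)]) (F [(8,9961),(25,16384),(12,16305),(22,9977)])))) (F [(8,157),(12,256)]))))) (U2 2 1 (F [(25,256),(12,116)]) (U0 4 1 (F [(12,253),(25,256),(22,156),(8,152)]) (P1 1 1 (P5 1 1 (F [(12,16309),(22,10044),(25,16384),(8,9891)]) (U2 4 1 (F [(25,256),(12,254),(8,154),(22,156)]) (F [(22,10041),(25,16384),(8,9844),(12,16201)]))) (F [(22,10044),(12,16309),(25,16384),(8,9891)])))))) (P0 2 1 (P3 2 1 (U2 2 1 (F [(12,16279),(25,16384),(8,9894),(22,10044)]) (U0 4 1 (F [(12,16292),(22,10048),(25,16384),(8,9896)]) (F [(22,10071),(12,16351),(8,9968),(25,16384)]))) (F [(12,256),(8,157)])) (P2 4 1 (U2 2 1 (F [(12,16287),(25,16384),(22,10054),(8,9899)]) (F [(22,256),(12,144),(8,73)])) (F [(22,158),(8,155),(12,252),(25,256)]))))))))))) (P0 1 4 (F [(25,256),(12,167),(8,109)]) (U0 1 2 (F [(25,116),(12,256)])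 (P2 1 1 (F [(25,256),(12,128),(8,227)]) (P1 1 1 (F [(25,256),(12,53),(8,176)]) (P0 2 1 (F [(25,256),(8,176),(12,53)]) (U2 1 1 (F [(25,133),(12,256),(8,134)]) (U0 2 1 (U1 1 1 (P1 2 1 (F [(25,256),(12,22)]) (F [(25,16384),(8,9832),(12,16229),(22,9966)])) (F [(25,16384),(12,16146),(8,9625),(22,9972)])) (P1 2 1 (P5 1 1 (P2 1 2 (U2 2 1 (F [(25,256),(12,78)]) (U0 4 1 (F [(25,16384),(8,9909),(12,16278),(22,9902)]) (F [(8,157),(25,256),(12,251),(22,153)]))) (F [(25,16384),(8,9673),(12,15811),(22,10029)])) (F [(25,256),(22,108)])) (P2 2 1 (P5 1 2 (F [(8,205),(25,85),(12,256)]) (P3 1 1 (U2 2 1 (F [(25,16384),(8,9890),(12,16130),(22,10043)]) (F [(22,10085),(8,9924),(25,16384),(12,16199)])) (F [(8,10004),(25,16384),(12,16282),(22,10033)]))) (F [(8,155),(22,158),(25,256),(12,250)])))))))))))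

def c147 : Cell := ⟨⟨13,0,19⟩, ⟨12,1,19⟩, ⟨25,0,39⟩, ⟨124,66,181,141⟩, ⟨124,67,180,141⟩, ⟨123,67,181,141⟩, ⟨62,33,90,71⟩⟩

def t147 : Tr :=
  P5 1 2 (F [(12,256),(22,51),(8,109)]) (U0 1 1 (U1 2 1 (U2 1 1 (P0 1 1 (F [(12,256),(25,185),(8,111)]) (P1 1 1 (P3 1 2 (F [(25,256),(12,117)]) (U1 1 2 (U2 1 2 (P4 1 1 (F [(12,178),(25,256)]) (P0 1 1 (P3 2 1 (F [(25,256),(12,117)]) (U1 1 4 (U2 1 4 (P4 2 1 (P2 1 1 (F [(12,256),(25,210)]) (P0 2 1 (F [(12,256),(25,144),(8,128)]) (U1 1 8 (U2 1 8 (F [(25,1048576),(12,1046335),(8,635043),(22,636972)]) (F [(12,256),(25,236),(22,155)])) (F [(12,233),(25,256),(22,93)])))) (P0 1 2 (F [(12,256),(8,133),(25,127)]) (P2 2 1 (F [(12,256),(25,127),(8,133)]) (U1 1 8 (U2 1 8 (P3 1 1 (F [(25,16384),(12,16340),(8,9931),(22,9950)]) (P0 2 1 (F [(8,256),(25,42),(12,136)]) (F [(25,16384),(8,9942),(12,16349),(22,9967)]))) (P3 1 1 (F [(25,256),(12,228),(22,84)])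 (P0 2 1 (F [(12,16384),(25,16378),(8,9952),(22,9963)]) (F [(25,16384),(12,16344),(22,9960),(8,9888)])))) (F [(25,161),(12,256),(22,28)]))))) (F [(12,256),(25,112),(22,91)])) (F [(12,256),(25,161),(22,29)]))) (F [(25,256),(12,117)]))) (F [(12,256),(25,115),(22,92)])) (F [(12,256),(25,164),(22,30)]))) (P2 2 1 (U1 1 2 (U2 1 2 (P4 1 1 (F [(12,256),(22,155),(25,236)]) (P3 1 1 (F [(12,181),(22,147),(25,256)]) (P0 1 2 (U1 1 4 (U2 1 4 (P4 2 1 (P5 1 1 (F [(12,256)]) (P3 1 2 (P1 1 2 (U1 1 8 (U2 1 8 (F [(12,1047054),(25,1048576),(22,638075),(8,635566)]) (F [(12,256),(22,163),(25,229)])) (F [(12,256),(25,221),(22,66)])) (F [(12,256),(22,51),(8,108)])) (F [(12,256)]))) (P3 2 1 (P5 2 1 (F [(12,256),(8,156)]) (P1 1 2 (U1 1 8 (U2 1 8 (P3 1 2 (F [(12,16349),(8,9942),(25,16384),(22,9967)]) (F [(8,256),(12,175),(25,36)])) (P3 1 2 (F [(12,256),(22,156),(25,256),(8,154)]) (F [(12,256),(22,156),(8,156),(25,256)])))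 (F [(12,256),(25,161),(22,28)])) (F [(12,256),(22,22),(8,135)]))) (F [(12,256),(8,156)]))) (F [(12,256),(22,91),(25,112)])) (F [(12,256),(25,161),(22,29)])) (F [(12,209),(22,256),(25,212)])))) (F [(12,256),(22,92),(25,115)])) (F [(12,256),(25,164),(22,30)])) (U1 1 2 (U2 1 2 (P1 2 1 (P3 1 1 (F [(22,232),(12,118),(25,256)]) (P0 1 2 (P4 2 1 (F [(12,202),(22,256),(25,207)]) (U1 1 4 (U2 1 4 (P3 2 1 (P5 2 1 (F [(12,256),(22,51),(8,108)]) (U1 1 8 (U2 1 8 (F [(8,9962),(22,10005),(12,16300),(25,16384)]) (P1 1 2 (P3 1 2 (F [(22,156),(12,255),(25,256),(8,155)]) (F [(22,156),(12,256),(8,156),(25,256)])) (F [(22,179),(8,256),(12,195)]))) (P1 1 2 (F [(12,16384),(25,16377),(22,9963),(8,9882)]) (F [(12,256),(22,156),(8,156),(25,256)])))) (F [(12,256),(8,108),(22,51)])) (F [(12,256),(22,78),(25,89)])) (F [(12,256),(25,33)]))) (F [(22,256),(12,193),(25,213)]))) (F [(22,122),(12,256),(8,43)]))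 (F [(22,102),(12,256),(25,108)])) (F [(12,256),(22,102),(25,108)]))))) (F [(12,256),(25,101),(22,86)])) (F [(12,256),(25,37)])) (U2 2 1 (U1 1 1 (P0 1 1 (F [(12,256),(25,99),(8,15)]) (P1 1 1 (P3 1 2 (F [(22,112),(25,256),(12,166)]) (U2 1 2 (U1 1 2 (P4 1 1 (F [(12,233),(22,93),(25,256)]) (P0 1 1 (P3 2 1 (F [(12,166),(22,111),(25,256)]) (U2 1 4 (U1 1 4 (P4 2 1 (P2 1 1 (F [(12,256),(22,65),(25,220)]) (P0 2 1 (F [(12,256),(22,15),(25,138)]) (U2 1 8 (U1 1 8 (P5 1 1 (F [(12,16372),(22,9983),(25,16384),(8,9933)]) (P1 2 1 (F [(25,16368),(12,16384),(8,9886),(22,9946)]) (P0 4 1 (F [(12,16384),(25,16372),(22,9954),(8,9901)]) (F [(25,256),(22,139),(12,64)])))) (F [(12,256),(25,235),(22,155)])) (F [(22,155),(12,256),(25,235)])))) (P0 1 2 (P3 4 1 (P5 1 1 (F [(12,256),(8,156)]) (U2 1 8 (F [(12,225),(8,256),(25,210)]) (P1 1 1 (P3 1 2 (P5 2 1 (F [(12,256),(8,156)]) (U0 1 1 (F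 [(25,8090),(12,16384),(8,8438)]) (U2 2 1 (U1 1 1 (F [(12,1048576),(25,1047906),(22,637016),(8,635073)]) (F [(12,256),(25,88),(22,76)])) (F [(12,256),(22,101),(25,105)])))) (F [(12,256),(8,156)])) (F [(12,256),(8,156)])))) (F [(12,256),(8,156)])) (P2 2 1 (P5 1 1 (F [(12,256),(8,156)]) (U2 1 8 (F [(12,256),(8,165),(25,149)]) (P3 1 1 (P1 1 2 (P5 2 1 (F [(12,256),(8,156)]) (U0 1 1 (F [(12,16384),(25,8090),(8,8438)]) (U2 2 1 (U1 1 1 (F [(12,16358),(25,16384),(22,9967),(8,9923)]) (F [(12,256),(22,76),(25,88)])) (F [(12,209),(22,256),(25,213)])))) (F [(12,256),(8,156)])) (F [(12,256),(8,156)])))) (U2 1 8 (U1 1 8 (P3 1 1 (P1 2 1 (P5 2 1 (F [(25,1048079),(12,1048576),(8,635111),(22,637139)]) (F [(25,16384),(8,9944),(12,16356),(22,9948)])) (P2 4 1 (F [(25,1048079),(8,635111),(12,1048576),(22,637139)]) (F [(25,16384),(22,9971),(8,9944),(12,16326)]))) (P0 2 1 (F [(8,256),(12,117)])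 (P2 4 1 (F [(8,9972),(22,9943),(12,16384),(25,16322)]) (F [(22,156),(8,156),(25,256),(12,255)])))) (P3 1 1 (P1 2 1 (P5 2 1 (P2 1 1 (F [(12,256),(22,5),(8,119)]) (F [(25,16384),(12,16312),(22,9949),(8,9914)])) (F [(25,256),(12,255),(8,155),(22,155)])) (P2 4 1 (P5 1 1 (F [(12,256),(22,11),(8,81)]) (F [(25,16384),(12,16302),(22,9958),(8,9911)])) (F [(25,16384),(22,9964),(12,16288),(8,9908)]))) (P0 2 1 (F [(12,16384),(22,9918),(8,9960),(25,16269)]) (P2 4 1 (F [(12,16384),(22,9972),(8,9956),(25,16375)]) (F [(22,9964),(25,16384),(12,16292),(8,9910)]))))) (P3 1 1 (P1 2 1 (P5 2 1 (P2 1 1 (F [(12,256),(22,22),(8,134)]) (F [(22,9970),(12,16325),(25,16384),(8,9910)])) (U0 1 1 (U1 2 1 (F [(25,16384),(12,16335),(22,9955),(8,9914)]) (F [(25,161),(12,256),(22,28)])) (F [(22,9970),(12,16316),(25,16384),(8,9904)]))) (P2 4 1 (P5 1 1 (F [(22,32),(12,256),(8,125)]) (F [(22,9976),(12,16304),(25,16384),(8,9907)]))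 (F [(22,9976),(12,16304),(25,16384),(8,9907)]))) (F [(22,10001),(12,16384),(8,9904),(25,16336)])))))) (F [(12,256),(22,101),(25,105)])) (F [(12,256),(22,247),(25,135)]))) (F [(22,111),(12,166),(25,256)]))) (F [(12,256),(22,101),(25,107)])) (F [(22,243),(12,256),(25,136)]))) (P2 2 1 (U2 1 2 (U1 1 2 (P4 1 1 (F [(12,256),(22,155),(25,236)]) (P3 1 1 (F [(22,147),(12,181),(25,256)]) (P0 1 2 (U2 1 4 (U1 1 4 (P4 2 1 (P5 1 1 (F [(12,256)]) (P3 1 2 (F [(22,10078),(12,16384),(8,9950),(25,16300)]) (F [(12,256)]))) (F [(12,138),(22,256),(8,162)])) (F [(12,256),(22,238)])) (F [(22,240),(12,256)])) (F [(22,256),(12,209),(25,212)])))) (F [(12,256),(22,242)])) (F [(22,245),(12,256)])) (F [(22,256),(12,68),(8,118)])))) (F [(12,256),(22,102),(25,111)])) (F [(22,183),(12,256),(25,46)])))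

def c148 : Cell := ⟨⟨13,0,19⟩, ⟨12,1,19⟩, ⟨25,0,39⟩, ⟨248,134,361,281⟩, ⟨31,17,45,35⟩, ⟨123,67,181,141⟩, ⟨124,67,180,141⟩⟩

def t148 : Tr :=
  P3 4 1 (U0 1 1 (F [(25,256),(12,132),(8,32)]) (U2 2 1 (U1 1 1 (P5 1 1 (P4 1 2 (U2 1 2 (F [(25,256),(12,168),(8,110)]) (P5 1 2 (P2 1 2 (F [(12,256),(25,74),(8,56)]) (F [(25,16384),(12,16163),(8,9717),(22,9792)])) (F [(25,256),(12,107),(22,125)]))) (F [(25,256),(12,6),(22,107)])) (F [(25,256),(12,10),(22,151)])) (P5 1 1 (P4 1 2 (U0 1 2 (F [(25,256),(12,117)]) (P5 1 2 (P2 1 2 (F [(12,256),(25,34)]) (F [(25,16384),(12,16155),(8,9584),(22,9891)])) (F [(25,256),(12,119),(22,164)]))) (F [(25,256),(12,6),(22,107)])) (F [(25,256),(12,11),(22,154)]))) (F [(22,256),(25,216),(12,212)]))) (U0 1 1 (F [(25,256),(12,132),(8,32)]) (U2 2 1 (U1 1 1 (P4 4 1 (P5 1 2 (U2 1 2 (F [(25,217),(8,256),(12,217)]) (P0 1 1 (F [(25,233),(8,165),(12,256)])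 (P2 1 2 (F [(25,254),(12,256),(8,155),(22,151)]) (F [(25,256),(8,153),(12,253),(22,153)])))) (F [(25,256),(22,103)])) (F [(25,250),(8,256),(22,91)])) (P4 4 1 (P5 1 2 (U0 1 2 (F [(25,256),(12,117)]) (P0 1 1 (F [(25,233),(12,256),(8,165)]) (P2 1 2 (F [(25,255),(12,256),(8,154),(22,152)]) (F [(25,256),(12,253),(8,151),(22,154)])))) (F [(25,256),(22,103)])) (F [(25,256),(8,49),(22,103)]))) (P4 4 1 (P5 1 2 (U0 2 1 (U1 2 1 (U2 1 1 (P0 1 1 (F [(25,256),(12,241),(8,98)]) (P2 1 2 (F [(12,256),(25,255),(22,152),(8,154)]) (F [(25,256),(12,250),(22,157),(8,149)]))) (F [(12,182),(25,256),(22,145)])) (F [(12,166),(25,256),(22,109)])) (U2 4 1 (U1 1 1 (P0 1 1 (F [(12,256),(25,255),(22,153),(8,154)]) (P2 1 2 (F [(12,256),(22,153),(25,255),(8,154)]) (F [(22,256),(25,189),(12,24)]))) (F [(12,183),(22,146),(25,256)])) (F [(22,146),(12,183),(25,256)]))) (F [(25,256),(22,152)])) (F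 [(25,256),(22,152)]))))

def c149 : Cell := ⟨⟨25,1,38⟩, ⟨12,1,19⟩, ⟨25,0,39⟩, ⟨124,66,181,141⟩, ⟨248,134,361,281⟩, ⟨123,67,181,141⟩, ⟨124,67,180,141⟩⟩

def t149 : Tr :=
  U1 2 1 (U2 1 1 (P2 1 1 (F [(25,185),(12,256),(8,111)]) (P1 1 1 (P3 1 2 (P5 2 1 (U1 1 2 (P4 1 2 (U2 1 2 (P2 1 1 (P5 1 2 (U1 1 4 (P4 1 4 (U2 1 4 (P2 1 2 (F [(8,133),(25,127),(12,256)]) (P0 4 1 (F [(25,184),(8,122),(12,256)]) (U1 1 8 (U2 1 8 (F [(25,249),(8,256),(22,91)]) (P5 1 1 (P2 2 1 (F [(25,16383),(8,9946),(12,16384),(22,9946)]) (F [(25,256),(12,22),(22,112)])) (F [(25,256),(12,22)]))) (F [(25,161),(12,256),(22,28)])))) (F [(12,256),(25,154),(22,37)])) (F [(25,256),(12,57),(22,43)])) (F [(25,161),(12,256),(22,29)])) (F [(25,256),(12,22),(22,112)])) (F [(25,256),(22,156)])) (F [(25,155),(12,256),(22,38)])) (F [(25,256),(22,40)])) (F [(25,164),(12,256),(22,30)])) (F [(25,256),(22,107)])) (P0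 1 1 (F [(25,229),(8,115),(12,256)]) (U1 1 2 (P5 1 2 (U2 1 2 (P2 1 1 (P4 1 2 (U1 1 4 (P5 1 4 (U2 1 4 (P2 1 2 (F [(8,256),(25,36),(12,174)]) (P1 4 1 (F [(25,184),(8,122),(12,256)]) (P0 2 1 (F [(25,209),(8,256),(12,212)]) (U1 1 8 (U2 1 8 (F [(25,237),(8,256),(22,106)]) (P2 2 1 (F [(25,16384),(8,9955),(12,16330),(22,9967)]) (F [(25,256),(22,156)]))) (F [(25,16384),(8,9893),(12,16333),(22,9958)]))))) (P2 1 2 (F [(12,256),(8,124),(25,169)]) (P1 4 1 (F [(25,178),(12,256),(8,105)]) (P0 2 1 (F [(25,226),(12,256),(8,113)]) (F [(25,16384),(12,16345),(22,9920),(8,9863)]))))) (F [(25,256),(12,57),(22,43)])) (F [(25,211),(12,256)])) (F [(25,256),(22,111)])) (F [(25,256),(22,156)])) (F [(25,212),(12,256)])) (F [(25,256),(22,40)])) (F [(25,213),(12,256)])))) (P0 2 1 (P3 1 1 (U1 1 2 (U2 1 2 (P5 1 1 (P4 1 2 (U1 1 4 (U2 1 4 (P1 1 1 (P5 1 2 (F [(8,256),(25,42),(12,136)]) (P3 1 2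 (U1 1 8 (U2 1 8 (F [(8,256),(25,237),(22,106)]) (P2 1 1 (P5 2 1 (F [(8,156),(25,256),(22,156),(12,255)]) (F [(25,256),(22,156)])) (F [(25,256),(8,113),(22,207)]))) (F [(25,1048576),(8,634480),(12,1043648),(22,637931)])) (F [(8,256),(25,58),(12,28)]))) (F [(8,256),(25,36)])) (P1 1 1 (P5 1 2 (F [(8,640975),(25,1048576),(12,1046093),(22,638522)]) (P3 1 2 (U0 2 1 (P2 1 1 (F [(25,16384),(12,16326),(8,9893),(22,9972)]) (F [(25,256),(8,87),(22,63)])) (U2 2 1 (P2 1 1 (F [(25,16384),(22,9979),(12,16329),(8,9893)]) (F [(25,256),(22,156)])) (F [(22,174),(25,256),(12,192)]))) (F [(25,1048576),(8,634612),(12,1043681),(22,637869)]))) (F [(8,10058),(25,16384),(22,9965),(12,16301)]))) (P1 1 1 (P5 1 2 (F [(25,16384),(12,16313),(8,9938),(22,9964)]) (F [(25,256),(12,165),(22,111)])) (F [(25,16384),(8,9938),(12,16313),(22,9964)]))) (F [(25,256),(22,111)])) (F [(25,256),(22,156)]))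 (P5 1 1 (P4 1 2 (U0 2 1 (P1 1 1 (F [(25,236),(12,256),(22,155)]) (F [(25,16384),(12,16314),(8,9928),(22,9965)])) (U2 2 1 (P1 1 1 (F [(12,256),(25,236),(22,155)]) (F [(12,255),(22,156),(25,256),(8,155)])) (F [(12,254),(22,157),(25,256),(8,152)]))) (F [(25,256),(12,19),(22,119)])) (F [(25,256),(22,157),(12,11)]))) (F [(25,256),(12,165),(22,111)])) (U1 1 2 (U2 1 2 (F [(25,211),(8,256),(12,212)]) (P4 1 1 (P5 1 2 (F [(25,16384),(12,16320),(8,9947),(22,9958)]) (F [(25,256),(12,5),(22,108)])) (F [(25,256),(22,107)]))) (F [(25,256),(12,165),(22,111)]))) (U1 1 2 (U2 1 2 (P1 2 1 (P5 1 1 (P2 1 2 (U1 1 4 (U2 1 4 (P3 1 1 (P5 1 2 (F [(8,256),(22,14),(12,123)]) (U1 1 8 (U2 1 8 (F [(8,256),(22,106),(25,237)]) (P1 1 2 (P4 1 1 (P5 2 1 (F [(8,156),(22,156),(25,256),(12,256)]) (F [(22,156),(25,256)])) (F [(8,118),(22,236),(25,256)])) (F [(22,109),(8,256),(12,21)]))) (P1 1 2 (F [(25,1048576),(8,634480),(22,637931),(12,1043648)])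 (F [(8,156),(22,156),(25,256),(12,255)])))) (F [(8,256),(22,118),(12,46)])) (P3 1 1 (P5 1 2 (F [(12,16367),(8,10031),(22,10010),(25,16384)]) (U0 2 1 (P1 1 2 (P4 1 1 (F [(25,16384),(12,16331),(22,9985),(8,9892)]) (F [(25,256),(22,134),(8,21)])) (F [(22,10006),(8,9960),(25,16384),(12,16328)])) (F [(22,10106),(12,16343),(25,16384),(8,9893)]))) (F [(8,256),(22,118),(12,46)]))) (P3 1 1 (P5 1 2 (F [(12,255),(25,256),(8,156),(22,156)]) (F [(25,256),(12,253),(22,155),(8,151)])) (F [(8,156),(25,256),(12,255),(22,156)]))) (F [(22,159),(25,256),(8,149),(12,247)])) (F [(22,156),(25,256)])) (P2 2 1 (P5 1 2 (F [(8,157),(22,156),(12,256),(25,255)]) (F [(22,10100),(8,9923),(12,16236),(25,16384)])) (F [(22,159),(8,155),(12,251),(25,256)]))) (P1 2 1 (P5 1 1 (P2 1 2 (U0 2 1 (P3 1 1 (F [(12,256),(25,229),(22,163)]) (F [(12,255),(25,256),(8,155),(22,156)])) (F [(12,256),(22,160),(25,256),(8,154)]))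 (F [(22,165),(12,95),(25,256)])) (F [(22,157),(25,256),(12,11)])) (P2 2 1 (P5 1 2 (F [(12,16362),(22,10018),(8,10003),(25,16384)]) (F [(22,157),(12,253),(8,154),(25,256)])) (F [(22,158),(12,252),(8,154),(25,256)])))) (F [(12,16147),(25,16384),(22,9973),(8,9625)]))))) (F [(25,256),(12,181),(22,147)])) (F [(25,111),(12,256)])

def c150 : Cell := ⟨⟨51,0,77⟩, ⟨50,1,77⟩, ⟨25,0,39⟩, ⟨248,133,361,282⟩, ⟨248,134,361,281⟩, ⟨247,134,361,282⟩, ⟨124,67,180,141⟩⟩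

def t150 : Tr :=
  U2 1 2 (U1 1 2 (P2 1 2 (F [(25,233),(8,166),(12,256)]) (P1 1 1 (F [(25,256),(8,76),(12,229)]) (P0 1 1 (P3 2 1 (U2 1 4 (F [(25,256),(8,111),(12,168)]) (P4 1 2 (P2 1 1 (F [(12,256),(8,76),(25,59)]) (P1 1 1 (P5 2 1 (F [(8,256),(25,42),(12,136)]) (P3 1 4 (U0 1 1 (F [(25,256),(12,79)]) (U2 2 1 (F [(25,256),(12,168),(8,110)]) (P1 1 2 (F [(12,256),(25,114)]) (F [(12,16384),(25,16375),(8,9941),(22,9917)])))) (F [(25,16338),(12,16384),(8,9967),(22,9894)]))) (F [(8,256),(25,62)]))) (P1 1 1 (P3 1 2 (P5 4 1 (F [(25,16384),(8,9942),(12,16368),(22,9899)]) (F [(25,16384),(12,16311),(8,9871),(22,9901)])) (F [(25,248),(8,256),(22,90)])) (F [(8,256),(25,62)])))) (F [(8,256),(25,50),(12,77)])) (U2 1 4 (F [(8,165),(12,256),(25,149)]) (P2 2 1 (P4 1 1 (F [(12,256),(8,70),(25,62)]) (P3 1 1 (P5 2 1 (F [(12,136),(8,256),(25,42)]) (P1 1 2 (U0 1 1 (F [(12,241),(25,256),(8,98)])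 (U2 2 1 (F [(12,256),(25,232),(8,166)]) (P3 1 2 (F [(12,256),(25,114)]) (F [(12,16384),(25,16339),(8,9942),(22,9895)])))) (F [(12,154),(8,256),(25,39)]))) (F [(8,256),(12,29),(25,57)]))) (P0 2 1 (P3 1 1 (P1 1 2 (P5 2 1 (F [(12,175),(8,256),(25,36)]) (U0 1 1 (F [(12,256),(25,169),(8,124)]) (U2 2 1 (F [(12,256),(25,150),(8,165)]) (P3 1 2 (F [(12,256),(25,33)]) (F [(12,16384),(22,9895),(8,9942),(25,16339)]))))) (F [(8,256),(12,175),(25,36)])) (F [(8,256),(12,29),(25,57)])) (F [(12,256),(8,104),(25,37)]))))))) (P2 1 2 (F [(25,233),(12,256),(8,166)]) (P1 1 1 (F [(25,256),(12,229),(8,76)]) (P0 1 1 (P3 2 1 (U0 1 2 (F [(25,256),(12,167),(8,109)]) (P4 1 2 (P2 1 1 (F [(12,256),(8,74)]) (P1 1 1 (F [(12,16384),(25,16276),(8,9878),(22,9878)]) (F [(8,156),(25,256),(12,256),(22,155)]))) (P1 1 1 (P3 1 2 (F [(25,16380),(12,16384),(8,9910),(22,9906)]) (F [(25,16384),(12,16346),(8,9922),(22,9895)]))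 (F [(25,16384),(8,9966),(12,16319),(22,9901)])))) (F [(25,215),(8,256),(12,216)])) (U0 1 2 (F [(12,256),(25,151),(8,164)]) (P2 2 1 (P4 1 1 (F [(12,256),(8,51)]) (P3 1 1 (F [(12,16384),(25,16276),(8,9878),(22,9878)]) (F [(12,16384),(8,9979),(25,16296),(22,9875)]))) (P0 2 1 (P3 1 1 (F [(12,16384),(25,16209),(22,9837),(8,9880)]) (F [(8,9979),(12,16384),(22,9875),(25,16296)])) (F [(12,256),(22,12),(8,78)])))))))) (P2 1 2 (P5 1 2 (P4 1 2 (F [(12,256),(8,157)]) (P3 2 1 (F [(12,256),(25,254),(8,151),(22,151)]) (P0 1 2 (F [(25,256),(8,155),(12,254),(22,154)]) (F [(12,16384),(25,16248),(8,9900),(22,9755)])))) (P3 1 1 (F [(12,256),(25,221),(22,65)]) (P4 2 1 (F [(12,256),(25,243),(22,78)]) (P0 1 2 (F [(25,256),(8,151),(22,155),(12,246)]) (P1 1 1 (U0 1 1 (F [(25,195),(12,256),(8,120)]) (F [(25,16384),(22,9889),(12,16210),(8,9844)])) (F [(12,16384),(25,16248),(8,9900),(22,9755)]))))))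 (P1 1 1 (P3 1 1 (F [(12,256),(25,221),(22,65)]) (P0 1 2 (P4 2 1 (P5 1 1 (U0 1 1 (F [(12,232),(25,256),(8,92)]) (U2 2 1 (P2 1 2 (F [(12,256),(8,157)]) (F [(12,16364),(22,9891),(25,16384),(8,9938)])) (F [(22,190),(12,256),(25,39)]))) (U0 1 1 (F [(25,256),(12,213),(8,82)]) (F [(22,9889),(25,16384),(12,16210),(8,9844)]))) (F [(25,256),(8,152),(22,155),(12,247)])) (P5 1 1 (U0 1 1 (F [(12,230),(25,256),(8,75)]) (U2 2 1 (P4 1 2 (F [(12,256),(25,73),(8,56)]) (U1 1 1 (P0 2 1 (F [(22,9899),(12,16363),(25,16384),(8,9922)]) (F [(12,256),(22,28),(25,161)])) (F [(12,237),(22,176),(25,256)]))) (F [(22,256),(12,205),(25,205)]))) (F [(25,256),(12,165),(22,110)])))) (P0 1 1 (P3 2 1 (U0 1 1 (U1 2 1 (P4 1 2 (U2 1 1 (P2 1 1 (F [(12,256),(8,74)]) (P1 1 1 (F [(12,256),(22,121),(8,42)]) (F [(12,256),(8,156),(22,155),(25,256)]))) (F [(12,256),(22,155),(25,255),(8,154)])) (U2 1 1 (P1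 1 1 (P3 1 2 (F [(12,16384),(25,16344),(22,9902),(8,9896)]) (F [(25,16384),(12,16361),(22,9901),(8,9922)])) (F [(25,16384),(8,9944),(22,9902),(12,16338)])) (F [(12,16284),(25,16384),(22,9930),(8,9828)]))) (F [(12,255),(25,256),(22,154),(8,153)])) (U2 2 1 (P4 1 2 (F [(12,256),(22,163),(8,151)]) (U1 1 1 (P1 1 1 (P3 1 2 (F [(22,9906),(12,16384),(25,16356),(8,9908)]) (F [(22,9908),(12,16365),(25,16384),(8,9927)])) (F [(22,9927),(8,9972),(12,16358),(25,16384)])) (F [(22,256),(12,209),(25,213)]))) (F [(22,256),(12,202),(25,204)]))) (P4 2 1 (U0 1 1 (U1 2 1 (P5 1 2 (F [(12,256),(8,256),(22,44)]) (F [(25,16384),(8,9939),(12,16279),(22,9834)])) (F [(12,255),(25,256),(8,154),(22,154)])) (U2 2 1 (P5 1 2 (F [(12,256),(22,48),(8,172)]) (F [(22,9902),(8,9950),(25,16384),(12,16343)])) (F [(22,190),(12,256),(25,39)]))) (F [(25,256),(8,153),(22,155),(12,250)]))) (U0 1 1 (U1 2 1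 (U2 1 1 (P2 2 1 (P4 1 1 (F [(12,256),(8,51)]) (P3 1 1 (F [(12,256),(22,165)]) (F [(12,16384),(22,9880),(8,9975),(25,16296)]))) (P0 2 1 (P3 1 1 (F [(12,256),(22,165)]) (F [(22,9880),(12,16384),(8,9975),(25,16296)])) (F [(12,256),(22,167)]))) (F [(12,256),(22,155),(8,154),(25,255)])) (F [(12,256),(22,153),(25,254),(8,154)])) (F [(22,256),(12,147),(8,75)])))))

def c151 : Cell := ⟨⟨51,0,77⟩, ⟨50,1,77⟩, ⟨25,0,39⟩, ⟨494,267,723,564⟩, ⟨494,268,723,563⟩, ⟨123,67,181,141⟩, ⟨247,134,361,282⟩⟩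

def t151 : Tr :=
  F [(25,256),(12,96),(22,128)]

def c152 : Cell := ⟨⟨101,0,155⟩, ⟨50,1,77⟩, ⟨25,0,39⟩, ⟨990,534,1445,1127⟩, ⟨494,268,723,563⟩, ⟨494,267,723,564⟩, ⟨247,134,361,282⟩⟩

def t152 : Tr :=
  F [(25,256),(22,155)]

def c153 : Cell := ⟨⟨101,0,155⟩, ⟨100,1,155⟩, ⟨25,0,39⟩, ⟨495,267,722,564⟩, ⟨990,534,1445,1127⟩, ⟨494,267,723,564⟩, ⟨247,134,361,282⟩⟩

def t153 : Tr :=
  F [(25,256),(12,165),(22,110)]

def c154 : Cell := ⟨⟨101,0,155⟩, ⟨100,1,155⟩, ⟨25,0,39⟩, ⟨990,533,1445,1128⟩, ⟨990,534,1445,1127⟩, ⟨494,267,723,564⟩, ⟨495,267,722,564⟩⟩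

def t154 : Tr :=
  F [(25,256),(12,101),(22,128)]

def c155 : Cell := ⟨⟨201,0,311⟩, ⟨100,1,155⟩, ⟨25,0,39⟩, ⟨1982,1066,2889,2255⟩, ⟨990,534,1445,1127⟩, ⟨990,533,1445,1128⟩, ⟨495,267,722,564⟩⟩

def t155 : Tr :=
  U1 1 4 (F [(25,256),(8,95),(22,102)]) (U0 1 2 (F [(25,140),(12,256)]) (P0 1 2 (F [(25,256),(22,107)]) (P2 1 4 (F [(25,256),(22,39)]) (P1 1 2 (F [(25,256),(22,107)]) (U2 1 1 (F [(25,216),(12,256),(8,116)]) (U0 2 1 (F [(25,178),(12,256),(8,104)]) (P0 2 1 (F [(25,256),(22,107)]) (P2 2 1 (P5 1 1 (F [(25,256),(8,77)]) (P3 1 2 (P1 1 2 (U2 2 1 (F [(25,256),(12,79)]) (U0 4 1 (F [(25,256),(12,137),(22,47)]) (P5 2 1 (F [(25,256),(8,88),(22,62)]) (P3 1 4 (P1 1 4 (F [(25,256),(22,156)]) (U2 4 1 (F [(25,256),(12,79)]) (U0 8 1 (F [(25,16384),(8,9943),(12,16370),(22,9948)]) (P0 2 1 (F [(8,28),(22,168),(25,256)]) (P2 1 1 (F [(8,9938),(25,16384),(22,9948),(12,16350)])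 (F [(8,9955),(25,16374),(22,9949),(12,16384)])))))) (F [(25,256),(8,88),(22,62)]))))) (F [(25,217),(8,256),(12,216)])) (F [(25,256),(8,77)]))) (P1 2 1 (P3 1 2 (P5 2 1 (F [(25,213),(8,256),(12,220)]) (U2 2 1 (F [(25,215),(8,115),(12,256)]) (U0 4 1 (F [(25,16384),(8,9940),(12,16365),(22,9952)]) (P1 1 2 (P3 1 4 (P5 4 1 (F [(8,9951),(25,16384),(22,9955),(12,16374)]) (F [(22,168),(8,28),(25,256)])) (F [(8,9955),(25,16384),(22,9948),(12,16360)])) (F [(8,256),(22,14),(12,123)]))))) (F [(8,256),(25,213),(12,220)])) (F [(8,256),(12,134)]))))))))))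

theorem g12 : ∀ c ∈ [c144, c145, c146, c147, c148, c149, c150, c151, c152, c153, c154, c155], Done D c := by
  intro c hc
  simp only [List.mem_cons, List.not_mem_nil, or_false] at hc
  rcases hc with rfl | rfl | rfl | rfl | rfl | rfl | rfl | rfl | rfl | rfl | rfl | rfl
  · exact done_of_chk (t := t144) (by decide +kernel)
  · exact done_of_chk (t := t145) (by decide +kernel)
  · exact done_of_chk (t := t146) (by decide +kernel)
  · exact done_of_chk (t := t147) (by decide +kernel)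
  · exact done_of_chk (t := t148) (by decide +kernel)
  · exact done_of_chk (t := t149) (by decide +kernel)
  · exact done_of_chk (t := t150) (by decide +kernel)
  · exact done_of_chk (t := t151) (by decide +kernel)
  · exact done_of_chk (t := t152) (by decide +kernel)
  · exact done_of_chk (t := t153) (by decide +kernel)
  · exact done_of_chk (t := t154) (by decide +kernel)
  · exact done_of_chk (t := t155) (by decide +kernel)

end Pool.Agent.W2helper59.NW.E1
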