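import Pool.Agent.W2helper59.NW.D_E1

set_option autoImplicit false
set_option maxRecDepth 1000000

namespace Pool.Agent.W2helper59.NW.E1

open Tr

def c156 : Cell := ⟨⟨201,0,311⟩, ⟨200,1,311⟩, ⟨25,0,39⟩, ⟨248,133,361,282⟩, ⟨1982,1066,2889,2255⟩, ⟨990,533,1445,1128⟩, ⟨495,267,722,564⟩⟩

def t156 : Tr :=
  P2 2 1 (U2 1 8 (F [(25,256),(8,177),(12,52)]) (P4 1 4 (F [(25,160),(12,256),(22,28)]) (P1 1 1 (P3 1 2 (P5 4 1 (U0 1 1 (F [(25,256),(12,79)]) (U2 2 1 (F [(25,217),(12,217),(8,256)]) (P4 1 1 (F [(25,226),(12,256)]) (U0 2 1 (F [(25,256),(12,132),(8,32)]) (U2 4 1 (F [(25,217),(12,217),(8,256)]) (P1 4 1 (F [(25,256),(12,78),(22,124)]) (P4 2 1 (F [(12,184),(25,256),(22,106)]) (P0 2 1 (P3 4 1 (F [(12,219),(25,256),(22,96)]) (F [(25,1048576),(12,1048288),(22,637054),(8,636317)])) (F [(12,219),(25,256),(22,96)]))))))))) (U0 1 1 (F [(25,256),(12,79)]) (U2 2 1 (F [(25,256),(12,168),(8,110)])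 (P1 1 2 (F [(25,256),(12,11),(22,153)]) (U0 2 1 (F [(25,256),(12,132),(8,32)]) (U2 4 1 (P2 4 1 (F [(25,256),(8,4)]) (U1 1 1 (P1 2 1 (F [(25,256),(12,68)]) (F [(12,16384),(25,16376),(8,9956),(22,9945)])) (P1 2 1 (F [(12,68),(25,256)]) (F [(12,16384),(25,16382),(8,9956),(22,9938)])))) (P2 4 1 (F [(12,86),(25,256),(22,132)]) (P1 2 1 (F [(12,107),(25,256),(22,127)]) (P0 2 1 (F [(12,16376),(25,16384),(22,9954),(8,9936)]) (F [(12,256)])))))))))) (U0 1 1 (F [(25,256),(8,4)]) (U2 2 1 (F [(25,217),(8,256),(12,217)]) (P4 2 1 (P5 1 1 (F [(25,177),(12,256),(8,105)]) (P3 1 2 (U0 2 1 (F [(25,256),(12,132),(8,32)]) (U2 4 1 (F [(25,217),(8,256),(12,217)]) (P0 8 1 (P5 2 1 (U0 4 1 (F [(25,256),(8,128),(12,255)]) (P2 1 4 (U2 8 1 (F [(25,256),(8,97),(12,99)]) (P4 1 2 (F [(25,1048567),(12,1048576),(8,636709),(22,636731)]) (F [(8,636942),(25,1048371),(12,1048576),(22,636785)]))) (U2 8 1 (F [(8,256),(25,215),(12,219)])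 (P0 1 2 (F [(8,636942),(12,1048576),(25,1048371),(22,636785)]) (F [(12,16384),(8,9949),(25,16379),(22,9949)]))))) (P3 1 4 (P1 1 8 (U0 4 1 (F [(25,16384),(8,9942),(12,16372),(22,9949)]) (F [(8,9947),(22,9954),(25,16384),(12,16379)])) (U0 4 1 (F [(25,256),(12,216),(8,83)]) (U2 8 1 (F [(8,229),(25,128),(12,256)]) (P0 1 1 (U0 8 1 (F [(8,9951),(12,16382),(25,16384),(22,9951)]) (F [(22,9954),(8,9950),(12,16384),(25,16384)])) (F [(12,16384),(8,9947),(22,9949),(25,16379)]))))) (U0 4 1 (F [(25,209),(8,256),(12,213)]) (U2 8 1 (F [(8,256),(25,209),(12,213)]) (P0 1 2 (F [(8,637151),(25,1048554),(12,1048576),(22,636865)]) (P1 1 1 (P3 1 2 (U0 8 1 (F [(8,256),(25,209),(12,213)]) (F [(8,9951),(22,9954),(12,16384),(25,16384)])) (F [(8,636842),(12,1048576),(25,1048330),(22,636775)])) (F [(12,16384),(8,9949),(22,9949),(25,16379)]))))))) (P5 2 1 (F [(12,1048576),(25,1048272),(8,635857),(22,636457)])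 (P1 2 1 (P3 1 8 (F [(12,1048288),(25,1048576),(8,636317),(22,637054)]) (F [(12,16384),(25,16379),(8,9947),(22,9949)])) (F [(12,1048576),(25,1048262),(8,636187),(22,636597)])))))) (F [(25,127),(8,213),(12,256)]))) (P0 1 1 (F [(8,256),(25,236),(22,106)]) (P5 2 1 (F [(8,256),(25,27),(12,237)]) (U0 2 1 (F [(25,256),(12,168),(8,110)]) (U2 4 1 (F [(8,256),(12,217),(25,217)]) (P2 8 1 (P3 1 1 (P5 4 1 (F [(8,256),(12,136),(25,42)]) (P1 1 8 (F [(8,9954),(25,16384),(22,9956),(12,16377)]) (F [(8,256),(12,237),(25,27)]))) (F [(8,256),(12,237),(25,27)])) (P3 1 1 (P1 2 1 (P5 8 1 (F [(12,256),(8,155)]) (U0 4 1 (F [(12,16383),(8,9953),(25,16384),(22,9955)]) (F [(22,243),(8,231),(12,256)]))) (F [(12,256),(8,163)])) (F [(12,244),(8,256)]))))))))))) (F [(8,164),(25,64),(12,256)])))) (P1 4 1 (U2 1 8 (F [(8,234),(25,256),(12,145)]) (P5 1 1 (F [(8,163),(12,256),(25,2)]) (P1 1 2 (P3 1 2 (U0 1 1 (F [(25,191),(12,256),(8,120)])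 (U2 2 1 (F [(25,177),(12,256),(8,104)]) (P5 2 1 (U0 2 1 (F [(12,256),(25,169),(8,124)]) (U2 4 1 (U1 1 1 (P1 1 1 (P5 1 2 (F [(12,16384),(25,16373),(8,9955),(22,9948)]) (F [(12,110),(25,256),(22,126)])) (F [(12,16384),(22,9948),(8,9957),(25,16372)])) (P1 1 1 (P5 1 2 (F [(12,1048576),(25,1048228),(22,636574),(8,636909)]) (F [(12,108),(25,256),(22,131)])) (P2 1 2 (F [(12,1048576),(25,1048163),(22,636634),(8,636917)]) (F [(12,16384),(22,9955),(25,16383),(8,9947)])))) (P1 1 1 (P5 1 2 (P4 1 2 (F [(12,256)]) (F [(12,16380),(22,9956),(25,16384),(8,9943)])) (F [(12,108),(22,131),(25,256)])) (P2 1 2 (P4 1 2 (F [(12,256)]) (F [(12,16381),(22,9961),(25,16384),(8,9941)])) (F [(12,165),(22,256),(25,246)]))))) (P1 1 4 (F [(25,256),(12,11),(22,153)]) (U0 2 1 (F [(12,256),(25,177),(8,105)]) (U2 4 1 (P3 2 1 (F [(12,256),(22,42),(25,183)]) (U1 1 1 (F [(12,16384),(25,16383),(22,9955),(8,9947)]) (F [(12,1048377),(22,637240),(25,1048576),(8,636203)])))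 (F [(22,232),(12,118),(25,256)]))))))) (U0 1 1 (F [(25,169),(8,124),(12,256)]) (U2 2 1 (F [(8,225),(25,122),(12,256)]) (P0 1 2 (P4 1 1 (U0 2 1 (F [(12,212),(8,208),(25,256)]) (U2 4 1 (F [(8,256),(12,217),(25,217)]) (P2 1 4 (P3 1 1 (P5 1 2 (F [(12,256),(8,163)]) (P1 1 4 (U0 4 1 (F [(12,16383),(8,9953),(25,16384),(22,9955)]) (F [(22,256),(8,203),(12,205)])) (F [(12,256),(8,156)]))) (F [(12,231),(8,256)])) (P3 1 1 (P1 1 2 (P5 4 1 (F [(8,186),(12,256)]) (F [(8,9951),(22,9959),(12,16371),(25,16384)])) (F [(8,256),(12,117)])) (F [(8,256),(12,125)]))))) (F [(8,256),(25,236),(22,106)])) (U0 2 1 (F [(12,256),(25,169),(8,124)]) (U2 4 1 (P4 1 4 (U1 1 1 (F [(12,175),(8,256),(25,36)]) (P2 1 2 (F [(12,1048576),(8,637031),(25,1048164),(22,636514)]) (P1 1 1 (F [(12,16384),(8,9953),(22,9947),(25,16378)]) (F [(12,256),(22,23)])))) (P0 2 1 (F [(8,256),(12,243),(25,189)]) (U1 1 1 (F [(8,256),(12,175),(25,36)])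 (P1 1 1 (P3 1 4 (F [(12,16384),(8,9954),(22,9946),(25,16379)]) (F [(12,256),(8,140),(22,2)])) (F [(12,256),(22,23)]))))) (P4 1 4 (P2 1 2 (P5 1 2 (F [(12,256)]) (P1 1 2 (P3 1 4 (F [(12,16381),(22,9957),(8,9948),(25,16384)]) (F [(12,256),(22,12),(8,144)])) (F [(12,256)]))) (P1 1 1 (P5 2 1 (F [(12,256),(22,57)]) (P3 1 4 (F [(22,9958),(12,16377),(8,9948),(25,16384)]) (F [(12,256),(22,28),(8,129)]))) (F [(12,256),(22,132)]))) (P0 2 1 (P3 1 2 (P1 1 4 (P5 4 1 (F [(22,12),(12,256),(8,144)]) (F [(22,9960),(8,9949),(12,16372),(25,16384)])) (F [(22,12),(12,256),(8,144)])) (F [(8,256),(12,134)])) (P1 1 1 (P3 1 4 (P5 4 1 (F [(22,51),(12,256),(8,107)]) (F [(22,9960),(12,16372),(8,9949),(25,16384)])) (F [(22,165),(12,256)])) (F [(22,132),(12,256)])))))))))) (F [(8,155),(12,256)])))) (F [(8,256),(12,134)]))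

def c157 : Cell := ⟨⟨201,0,311⟩, ⟨100,1,155⟩, ⟨200,1,311⟩, ⟨248,133,361,282⟩, ⟨1982,1066,2889,2255⟩, ⟨990,533,1445,1128⟩, ⟨495,267,722,564⟩⟩

def t157 : Tr :=
  P2 2 1 (U0 1 2 (F [(12,256),(25,114)]) (P4 1 4 (F [(25,154),(12,256),(22,37)]) (P1 1 1 (P3 1 2 (F [(25,256),(12,181),(22,147)]) (U2 1 1 (F [(25,216),(12,256),(8,116)]) (U0 2 1 (F [(12,256),(25,63),(8,70)]) (P4 2 1 (P5 1 1 (F [(25,177),(12,256),(8,105)]) (P3 1 2 (U2 2 1 (F [(25,256),(12,117)]) (U0 4 1 (F [(12,256),(25,183),(22,42)]) (P0 8 1 (P5 2 1 (U2 4 1 (F [(25,256),(12,217),(8,83)]) (P2 1 4 (U0 8 1 (F [(25,63),(12,256),(8,70)]) (P4 1 2 (F [(25,1048576),(12,1048556),(8,636677),(22,636709)]) (P0 1 4 (P3 1 1 (P5 2 1 (F [(25,256),(8,212),(12,107)]) (P1 1 8 (F [(25,1048576),(12,1048088),(8,636579),(22,636928)]) (F [(25,128),(12,256),(8,229)]))) (F [(8,212),(25,256),(12,107)])) (P5 2 1 (F [(12,217),(25,217),(8,256)]) (F [(12,16384),(25,16377),(8,9947),(22,9948)])))))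 (U0 8 1 (F [(12,256),(25,63),(8,70)]) (P0 1 2 (P4 4 1 (F [(12,16384),(25,16377),(8,9947),(22,9948)]) (P3 1 1 (P1 1 4 (P5 8 1 (F [(12,256),(8,210),(25,96)]) (F [(25,1048576),(12,1048320),(8,636630),(22,637041)])) (F [(12,256),(8,221),(25,115)])) (F [(8,256),(12,219),(25,215)]))) (F [(12,256),(25,144),(22,110)]))))) (P3 1 4 (P1 1 8 (U2 4 1 (F [(25,256),(12,137),(22,47)]) (F [(22,9958),(12,16364),(25,16384),(8,9932)])) (U2 4 1 (F [(12,144),(25,256)]) (U0 8 1 (F [(12,16382),(25,16384),(22,9953),(8,9946)]) (P0 1 1 (U2 8 1 (F [(12,16381),(22,9953),(25,16384),(8,9947)]) (F [(22,9958),(12,16381),(8,9944),(25,16384)])) (F [(12,256),(22,140),(25,194)]))))) (U2 4 1 (F [(25,256),(12,132),(8,32)]) (U0 8 1 (F [(12,16383),(25,16384),(8,9947),(22,9951)]) (P0 1 2 (P4 1 1 (P1 1 2 (U2 8 1 (F [(25,16384),(8,9947),(12,16381),(22,9953)]) (U0 16 1 (F [(22,9953),(8,9947),(12,16381),(25,16384)]) (F [(22,9956),(8,9948),(12,16374),(25,16384)])))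 (P2 1 4 (U2 8 1 (F [(25,160),(12,256),(8,125)]) (U0 16 1 (F [(12,16384),(8,9948),(25,16383),(22,9950)]) (F [(8,9950),(22,9955),(12,16380),(25,16384)]))) (F [(12,256),(8,221),(25,115)]))) (F [(8,9954),(12,16384),(25,16377),(22,9950)])) (P1 1 1 (P3 1 2 (U2 8 1 (F [(12,16382),(8,9947),(25,16384),(22,9953)]) (F [(22,9957),(12,16382),(8,9947),(25,16384)])) (P4 1 4 (U2 8 1 (F [(12,256),(25,160),(8,125)]) (F [(12,1048538),(22,637214),(8,636632),(25,1048576)])) (F [(12,256),(8,155)]))) (F [(12,256),(22,110),(25,144)]))))))) (F [(12,251),(25,256),(22,162)])))) (F [(12,256),(25,127),(8,213)]))) (P0 1 1 (P3 2 1 (P5 2 1 (F [(8,156),(12,256)]) (U2 2 1 (F [(25,215),(12,256),(8,115)]) (U0 4 1 (F [(12,16380),(8,9946),(25,16384),(22,9954)]) (P1 1 1 (P3 1 2 (P5 4 1 (F [(8,9955),(12,16384),(25,16383),(22,9955)]) (U2 4 1 (F [(25,16384),(8,9947),(12,16379),(22,9956)]) (F [(22,9962),(8,9949),(12,16374),(25,16384)])))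 (F [(8,254),(22,44),(12,256)])) (F [(8,156),(12,256)]))))) (F [(8,156),(12,256)])) (P5 2 1 (F [(12,256),(8,156)]) (U2 2 1 (F [(12,216),(25,256),(8,83)]) (U0 4 1 (F [(12,256),(25,161),(22,28)]) (P2 8 1 (P3 1 1 (P5 4 1 (F [(12,16384),(8,9953),(25,16377),(22,9951)]) (P1 1 8 (U2 4 1 (F [(12,16380),(25,16384),(8,9947),(22,9956)]) (F [(22,9960),(12,16378),(8,9949),(25,16384)])) (F [(12,16384),(8,9953),(22,9951),(25,16377)]))) (F [(12,256),(8,156)])) (P3 1 1 (P1 2 1 (P5 8 1 (F [(12,256),(22,13),(8,70)]) (F [(12,16380),(22,9959),(25,16384),(8,9948)])) (F [(12,256),(8,156)])) (F [(12,256),(8,156)]))))))))))) (F [(12,256),(25,64),(8,164)])))) (P1 4 1 (U0 1 2 (F [(12,256),(25,114)]) (P5 1 1 (F [(12,256),(8,156)]) (P1 1 2 (P3 1 2 (F [(12,192),(25,256),(22,173)]) (U2 1 1 (F [(12,256),(25,178),(8,105)]) (U0 2 1 (F [(12,256),(25,63),(8,70)]) (P0 1 2 (P4 1 1 (U2 2 1 (F [(12,256),(25,191),(8,120)])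 (U0 4 1 (F [(12,256),(8,18),(25,101)]) (P2 1 4 (P3 1 1 (P5 1 2 (F [(12,256),(8,156)]) (P1 1 4 (F [(12,1048281),(22,637543),(8,636420),(25,1048576)]) (F [(12,256),(22,2),(8,140)]))) (F [(12,256),(8,156)])) (P3 1 1 (P1 1 2 (P5 4 1 (F [(12,256),(8,156)]) (F [(22,9960),(12,16372),(8,9948),(25,16384)])) (F [(12,256),(8,156)])) (F [(12,256),(8,156)]))))) (P3 2 1 (U2 2 1 (F [(12,256),(8,120),(25,191)]) (U0 4 1 (F [(12,16381),(8,9947),(22,9955),(25,16384)]) (P5 1 1 (F [(8,162),(22,3),(12,256)]) (P3 1 2 (P1 1 2 (F [(22,9960),(8,9948),(12,16371),(25,16384)]) (F [(8,256),(22,74),(12,149)])) (F [(8,256),(22,74),(12,149)]))))) (F [(8,156),(12,256)]))) (U2 2 1 (F [(12,256),(25,177),(8,104)]) (U0 4 1 (F [(12,256),(25,101),(8,18)]) (P4 1 4 (F [(12,256),(22,164),(25,233)]) (P0 2 1 (P3 1 2 (F [(22,9965),(12,16384),(8,9932),(25,16383)]) (F [(12,256),(8,156)])) (F [(22,164),(12,256),(25,233)])))))))))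 (F [(12,256),(8,140),(22,2)])))) (F [(12,256),(8,156)]))

def c158 : Cell := ⟨⟨201,1,310⟩, ⟨100,1,155⟩, ⟨201,0,311⟩, ⟨1982,1066,2889,2255⟩, ⟨990,534,1445,1127⟩, ⟨990,533,1445,1128⟩, ⟨495,267,722,564⟩⟩

def t158 : Tr :=
  U1 2 1 (P0 1 2 (F [(25,256),(12,23),(22,112)]) (P2 1 4 (F [(25,256),(12,58),(22,42)]) (U2 1 1 (P1 1 2 (F [(25,256),(12,22),(22,112)]) (U1 1 2 (P0 2 1 (F [(25,256),(12,22),(22,112)]) (P2 2 1 (U2 1 2 (P5 1 1 (F [(25,256),(12,167),(8,110)]) (P3 1 2 (P1 1 2 (U1 1 4 (U2 1 4 (P5 2 1 (P4 1 2 (U1 1 8 (P2 1 2 (F [(25,256),(12,58),(22,42)]) (U2 1 8 (P1 1 1 (P3 1 2 (P5 2 1 (U1 1 16 (U2 1 16 (F [(8,9951),(25,16384),(22,9950),(12,16381)]) (P4 1 2 (F [(8,9950),(25,16383),(12,16384),(22,9951)]) (F [(25,16384),(8,9948),(22,9952),(12,16380)]))) (F [(25,1048576),(12,1048352),(8,636615),(22,636831)])) (F [(25,1048576),(22,636925),(12,1048074),(8,636575)])) (F [(25,1048576),(8,636741),(22,636809),(12,1048284)]))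 (F [(8,256),(25,36),(12,175)])) (P1 1 1 (P3 1 2 (F [(12,256),(22,137),(25,192)]) (U0 2 1 (F [(25,1048576),(12,1048309),(8,636659),(22,636819)]) (U2 2 1 (F [(25,1048576),(22,636816),(12,1048281),(8,636601)]) (F [(12,181),(25,256),(22,147)])))) (U0 2 1 (F [(8,9952),(25,16384),(12,16381),(22,9950)]) (P0 2 1 (F [(25,1048576),(22,636820),(12,1048322),(8,636687)]) (F [(12,256),(22,25),(8,212)])))))) (F [(25,16384),(12,16380),(8,9944),(22,9949)])) (P3 1 1 (U1 1 8 (U2 1 8 (P1 1 1 (F [(8,9942),(25,16384),(22,9954),(12,16366)]) (F [(8,256),(25,42),(12,136)])) (P1 1 1 (F [(22,9954),(25,16384),(8,9943),(12,16371)]) (F [(22,9955),(8,9948),(25,16384),(12,16373)]))) (F [(25,1048576),(12,1048125),(22,636890),(8,636430)])) (F [(8,256),(25,108),(22,28)]))) (P3 1 4 (P1 1 4 (F [(22,256),(12,183),(25,228)]) (U1 1 8 (U2 1 8 (P0 2 1 (F [(22,204),(25,256),(12,17)]) (P2 1 1 (F [(22,9954),(8,9942),(12,16366),(25,16384)])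 (F [(8,9956),(22,9948),(12,16384),(25,16372)]))) (F [(22,637203),(8,636611),(12,1048335),(25,1048576)])) (P0 2 1 (F [(22,179),(25,256),(12,36)]) (F [(22,9952),(12,16380),(25,16384),(8,9946)])))) (P4 1 1 (U1 1 8 (U2 1 8 (P1 2 1 (F [(22,176),(25,256)]) (P2 1 1 (F [(22,9954),(8,9942),(25,16384),(12,16366)]) (F [(8,256),(25,42),(12,136)]))) (P1 2 1 (F [(22,176),(25,256)]) (P2 1 1 (F [(22,9954),(25,16384),(8,9944),(12,16375)]) (F [(22,9954),(8,9950),(25,16384),(12,16378)])))) (P1 2 1 (F [(22,156),(25,256)]) (F [(25,1048576),(22,636941),(12,1048154),(8,636471)]))) (F [(22,30),(8,256),(25,111)])))) (P5 2 1 (P4 1 2 (F [(12,1048385),(25,1048576),(22,636965),(8,636014)]) (F [(22,637015),(25,1048576),(12,1047807),(8,636249)])) (F [(22,9957),(12,16370),(25,16384),(8,9939)]))) (F [(25,256),(12,165),(22,111)])) (U1 1 4 (U2 1 4 (P0 2 1 (P4 1 2 (P2 1 4 (U1 1 8 (P5 1 2 (F [(25,256),(12,132),(8,32)])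 (U2 1 8 (F [(8,256),(25,209),(12,213)]) (P1 1 4 (U0 2 1 (F [(8,256),(25,209),(12,213)]) (P3 1 2 (F [(8,234),(12,256),(22,35)]) (F [(8,9948),(25,16384),(12,16377),(22,9945)]))) (F [(25,16384),(8,9945),(12,16372),(22,9937)])))) (F [(25,16384),(12,16380),(8,9944),(22,9949)])) (F [(8,256),(25,103),(22,25)])) (F [(8,256),(25,103),(22,25)])) (F [(8,164),(25,64),(12,256)])) (P0 2 1 (P4 1 2 (P2 1 4 (F [(12,16381),(25,16384),(22,9952),(8,9939)]) (F [(25,16384),(12,16377),(8,9946),(22,9950)])) (F [(8,9946),(25,16384),(22,9952),(12,16373)])) (F [(12,256),(25,16),(8,152)]))) (P0 2 1 (F [(25,16384),(12,16363),(8,9931),(22,9946)]) (F [(12,256),(25,5),(8,149)])))) (P4 1 1 (U1 1 4 (U2 1 4 (F [(8,85),(25,256),(12,43)]) (P1 2 1 (P5 1 2 (F [(25,16384),(12,16337),(8,9924),(22,9919)]) (F [(25,16384),(8,9928),(22,9953),(12,16325)])) (F [(25,16384),(8,9951),(12,16382),(22,9917)]))) (P1 2 1 (F [(25,16384),(12,16357),(8,9927),(22,9944)])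 (F [(25,256),(12,256),(8,155),(22,155)]))) (F [(8,256),(25,111),(22,30)])))) (P5 1 1 (F [(25,256),(12,132),(8,32)]) (P3 1 2 (F [(12,16382),(25,16384),(22,9956),(8,9935)]) (P4 1 1 (F [(12,16377),(25,16384),(22,9953),(8,9936)]) (F [(25,16384),(8,9947),(12,16371),(22,9951)]))))) (U2 1 2 (P1 2 1 (P3 1 2 (P5 2 1 (F [(8,9959),(12,16378),(25,16384),(22,9952)]) (U1 1 4 (U2 1 4 (P1 1 2 (F [(22,637422),(8,636793),(25,1048576),(12,1048100)]) (F [(8,256),(22,14),(12,123)])) (F [(22,9957),(8,9945),(12,16374),(25,16384)])) (F [(22,9955),(12,16370),(25,16384),(8,9940)]))) (F [(8,256),(25,103),(22,25)])) (F [(8,256),(12,134)])) (P1 2 1 (P3 1 2 (F [(12,16378),(22,9954),(25,16384),(8,9942)]) (F [(25,16384),(8,9950),(22,9953),(12,16374)])) (F [(8,9968),(12,16380),(22,9951),(25,16384)]))))) (P0 2 1 (F [(25,256),(12,78),(22,124)]) (F [(25,16384),(12,16369),(8,9927),(22,9942)])))) (P1 1 2 (F [(12,181),(25,256),(22,147)])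 (U0 2 1 (P0 2 1 (F [(25,256),(12,78),(22,124)]) (F [(12,16376),(25,16384),(22,9958),(8,9904)])) (F [(12,209),(25,213),(22,256)])))))) (F [(25,148),(12,256),(22,21)])

def c159 : Cell := ⟨⟨403,0,621⟩, ⟨201,1,310⟩, ⟨201,0,311⟩, ⟨3962,2134,5779,4509⟩, ⟨990,534,1445,1127⟩, ⟨990,533,1445,1128⟩, ⟨495,267,722,564⟩⟩

def t159 : Tr :=
  F [(25,256),(22,124),(12,78)]

def c160 : Cell := ⟨⟨403,0,621⟩, ⟨201,1,310⟩, ⟨201,0,311⟩, ⟨3962,2134,5777,4511⟩, ⟨3962,2134,5779,4509⟩, ⟨990,533,1445,1128⟩, ⟨495,267,722,564⟩⟩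

def t160 : Tr :=
  F [(12,165),(25,256),(22,111)]

def c161 : Cell := ⟨⟨403,0,621⟩, ⟨402,1,621⟩, ⟨201,0,311⟩, ⟨3962,2132,5779,4511⟩, ⟨3962,2134,5779,4509⟩, ⟨990,533,1445,1128⟩, ⟨3962,2134,5777,4511⟩⟩

def t161 : Tr :=
  F [(22,129),(12,99),(25,256)]

def c162 : Cell := ⟨⟨805,0,1243⟩, ⟨402,1,621⟩, ⟨201,0,311⟩, ⟨7926,4266,11557,9019⟩, ⟨3962,2134,5779,4509⟩, ⟨3962,2132,5779,4511⟩, ⟨3962,2134,5777,4511⟩⟩

def t162 : Tr :=
  F [(25,16384),(22,8459),(12,5482)]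

def c163 : Cell := ⟨⟨805,0,1243⟩, ⟨804,1,1243⟩, ⟨201,0,311⟩, ⟨7926,4266,11555,9021⟩, ⟨7926,4266,11557,9019⟩, ⟨7924,4266,11556,9022⟩, ⟨3962,2134,5777,4511⟩⟩

def t163 : Tr :=
  P4 1 2 (U2 1 4 (F [(25,177),(12,256),(8,104)]) (P2 1 2 (P5 1 2 (P4 1 4 (F [(12,256),(25,114)]) (P3 1 1 (F [(12,256),(25,114)]) (F [(12,16384),(25,16381),(8,9950),(22,9942)]))) (P3 1 2 (F [(12,214),(25,256),(22,97)]) (P4 1 1 (F [(12,214),(25,256),(22,97)]) (U0 1 1 (F [(12,79),(25,256)]) (U2 2 1 (U1 1 1 (F [(12,1048576),(25,1048218),(8,636859),(22,636401)]) (F [(12,16384),(25,16380),(8,9949),(22,9945)])) (F [(12,16384),(22,9945),(25,16379),(8,9949)])))))) (P1 1 1 (P3 1 2 (F [(12,256),(22,20),(25,147)]) (U0 1 1 (F [(12,256),(25,183),(8,121)]) (U2 2 1 (U1 1 1 (F [(12,1048576),(8,636859),(22,636401),(25,1048218)]) (F [(12,16384),(22,9944),(8,9949),(25,16379)])) (F [(12,16384),(22,9947),(8,9949),(25,16377)]))))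 (F [(12,16384),(8,9954),(22,9936),(25,16368)])))) (P3 1 1 (U2 1 4 (U1 1 4 (P1 1 1 (P5 2 1 (F [(8,256),(25,93)]) (P3 1 2 (U2 1 8 (F [(25,256),(8,110),(12,168)]) (P1 1 2 (P5 4 1 (U0 1 1 (F [(25,256),(12,132),(8,32)]) (U2 2 1 (U1 1 1 (P4 1 1 (F [(25,212),(8,199),(12,256)]) (P0 1 1 (P3 2 1 (P5 1 1 (F [(25,103),(8,256),(22,25)]) (U2 1 2 (F [(25,213),(8,256),(12,220)]) (P1 1 1 (F [(25,256),(12,117)]) (P2 2 1 (F [(25,256),(12,47)]) (F [(25,1048568),(12,1048576),(8,636810),(22,636696)]))))) (F [(25,103),(8,256),(22,25)])) (F [(25,128),(12,256),(8,213)]))) (P4 1 1 (F [(25,212),(12,256),(8,199)]) (P0 1 1 (P3 2 1 (P5 1 1 (U0 1 2 (F [(25,226),(12,256)]) (P2 1 1 (F [(25,256),(8,77)]) (P1 2 1 (F [(25,256)]) (U2 1 1 (F [(25,177),(12,256),(8,104)]) (U0 2 1 (F [(25,177),(12,256),(8,104)]) (P0 2 1 (F [(25,16384),(8,9949),(12,16382),(22,9949)]) (F [(8,9950),(25,16384),(12,16384),(22,9949)])))))))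 (U0 1 2 (F [(25,140),(12,256)]) (P1 1 1 (F [(25,256),(12,117)]) (P2 2 1 (F [(25,256),(12,47)]) (U2 1 1 (F [(25,140),(12,256)]) (U0 2 1 (F [(12,256),(25,140)]) (P0 2 1 (F [(25,16384),(12,16383),(8,9947),(22,9949)]) (F [(12,1048576),(25,1048517),(8,636734),(22,636714)])))))))) (U0 1 2 (F [(25,256),(12,165),(22,111)]) (P0 1 2 (F [(25,256),(22,155)]) (P2 1 1 (F [(25,256),(8,48),(22,104)]) (U2 1 1 (F [(25,16384),(8,9949),(12,16382),(22,9947)]) (U0 2 1 (F [(25,16384),(8,9949),(12,16383),(22,9949)]) (P3 1 1 (P1 2 1 (F [(25,256),(22,155)]) (F [(8,9950),(25,16384),(22,9949),(12,16384)])) (F [(8,256),(22,112),(12,8)])))))))) (F [(12,256),(25,128),(8,213)])))) (P4 1 1 (P2 1 1 (F [(25,1048576),(12,1048484),(8,636636),(22,636636)]) (P0 2 1 (F [(12,1048527),(25,1048576),(22,636673),(8,636685)]) (F [(12,256)]))) (P0 1 1 (P3 2 1 (P5 1 1 (U0 2 1 (U1 2 1 (U2 1 1 (P2 1 1 (F [(25,256),(22,155)]) (F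 [(25,1048543),(12,1048576),(22,636706),(8,636732)])) (F [(25,256),(12,164),(22,170)])) (F [(25,256),(12,219),(22,96)])) (F [(22,636763),(12,1048534),(25,1048576),(8,636744)])) (F [(12,1048576),(25,1048518),(22,636721),(8,636646)])) (U0 2 1 (U1 2 1 (U2 1 1 (P0 1 2 (F [(25,256),(22,196)]) (P2 1 1 (F [(25,256),(22,155)]) (F [(22,636867),(25,1048576),(8,636639),(12,1048445)]))) (F [(22,170),(25,256),(12,164)])) (F [(25,256),(12,181),(22,147)])) (F [(22,256),(8,52),(25,144)]))) (P2 2 1 (P5 1 1 (U0 2 1 (F [(25,1048511),(12,1048576),(8,636783),(22,636636)]) (F [(22,636743),(12,1048559),(25,1048576),(8,636762)])) (F [(12,256),(25,79),(8,48)])) (F [(12,256),(22,56)])))))) (P3 1 4 (F [(12,256),(25,114)]) (U0 1 1 (F [(25,256),(12,132),(8,32)]) (U2 2 1 (U1 1 1 (P0 1 1 (P4 2 1 (U2 1 2 (F [(25,256),(8,77)]) (P2 1 1 (F [(25,256),(12,137),(22,47)]) (P1 1 1 (F [(25,256),(12,219),(22,96)]) (U0 1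 1 (F [(25,214),(12,256),(8,115)]) (U2 2 1 (F [(25,177),(12,256),(8,104)]) (P0 2 1 (F [(25,1048576),(12,1048549),(8,636723),(22,636733)]) (F [(12,1048576),(25,1048410),(22,636654),(8,636783)]))))))) (P3 2 1 (U2 1 2 (F [(25,256),(8,77)]) (P1 1 1 (F [(25,256),(12,165),(22,111)]) (P0 2 1 (F [(25,256),(12,80),(22,134)]) (U0 1 1 (F [(25,256),(12,187),(8,65)]) (U2 2 1 (F [(25,1048576),(8,636773),(12,1048568),(22,636723)]) (P2 2 1 (F [(25,1048576),(22,636760),(12,1048501),(8,636704)]) (F [(22,636762),(12,1048576),(8,636769),(25,1048551)]))))))) (F [(25,108),(8,256),(22,28)]))) (F [(12,256),(25,63),(8,70)])) (P0 1 1 (P4 2 1 (U0 1 2 (F [(12,256),(25,140)]) (P2 1 1 (F [(25,256),(12,137),(22,47)]) (P1 1 1 (F [(12,181),(25,256),(22,147)]) (U2 1 1 (F [(25,140),(12,256)]) (U0 2 1 (F [(12,256),(25,140)]) (P0 2 1 (F [(12,117),(25,256),(22,166)]) (F [(12,1048576),(25,1048516),(22,636718),(8,636726)])))))))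 (P3 2 1 (U0 1 2 (F [(25,241),(12,256),(22,77)]) (P1 1 1 (F [(25,256),(12,164),(22,170)]) (P0 2 1 (F [(25,256),(12,88),(22,163)]) (U2 1 1 (F [(25,256),(12,215)]) (U0 2 1 (F [(12,256),(25,241),(22,77)]) (P2 2 1 (F [(25,256),(22,160),(12,50)]) (F [(12,1048576),(22,636757),(25,1048563),(8,636753)]))))))) (U0 1 2 (F [(25,256),(12,165),(22,111)]) (P0 1 2 (F [(25,256),(22,155)]) (P1 2 1 (F [(25,256),(22,155)]) (U2 1 1 (F [(25,16384),(12,16380),(8,9947),(22,9945)]) (U0 2 1 (F [(25,16384),(22,9949),(12,16383),(8,9949)]) (P4 1 1 (P2 2 1 (F [(25,256),(22,155)]) (F [(22,9949),(8,9950),(25,16384),(12,16384)])) (F [(22,9950),(8,9950),(25,16384),(12,16383)]))))))))) (F [(12,256),(22,23)]))) (F [(12,209),(22,256),(25,213)]))))) (P0 2 1 (U0 1 1 (F [(25,256),(12,168),(8,110)]) (U2 2 1 (U1 1 1 (F [(8,256),(25,42),(12,136)]) (P4 1 1 (F [(25,175),(12,256),(8,256)]) (P3 1 1 (F [(12,256),(8,225),(25,122)])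 (F [(8,636848),(25,1048576),(12,1048470),(22,636739)])))) (P4 1 1 (P5 1 1 (F [(25,1048516),(8,636882),(12,1048576),(22,636631)]) (P3 1 2 (F [(12,256),(8,84)]) (F [(12,1048576),(8,636820),(25,1048495),(22,636634)]))) (P3 1 1 (P5 2 1 (U0 2 1 (F [(12,1048576),(8,636851),(25,1048502),(22,636634)]) (F [(22,636736),(12,1048576),(8,636840),(25,1048548)])) (F [(12,256),(22,53),(8,61)])) (P0 1 2 (U0 2 1 (F [(25,67108864),(22,40751598),(8,40756156),(12,67102975)]) (F [(22,256),(8,52),(25,144)])) (U0 2 1 (F [(8,636851),(12,1048576),(22,636635),(25,1048503)]) (F [(22,256),(8,84),(25,129)]))))))) (F [(12,256),(8,213),(25,128)])))) (F [(8,256),(25,108),(22,28)]))) (F [(8,256),(12,117)])) (P1 1 1 (P5 2 1 (F [(25,217),(8,256),(12,216)]) (P3 1 2 (U0 1 2 (F [(12,256),(25,241),(22,77)]) (P1 1 2 (F [(12,181),(25,256),(22,147)]) (P0 2 1 (U2 1 1 (F [(12,187),(25,256),(8,65)]) (U0 2 1 (F [(12,256),(25,241),(22,77)])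 (P4 1 1 (P5 1 1 (F [(12,1048576),(25,1048494),(8,636827),(22,636625)]) (F [(12,1048576),(22,636625),(25,1048453),(8,636717)])) (P3 1 1 (F [(12,1048576),(22,636625),(25,1048453),(8,636717)]) (F [(22,636749),(12,1048497),(25,1048576),(8,636767)]))))) (F [(12,256),(25,128),(8,213)])))) (U0 1 2 (F [(25,16384),(12,16378),(8,9946),(22,9947)]) (P0 1 1 (F [(25,16384),(8,9924),(22,9932),(12,16301)]) (P1 2 1 (U2 1 1 (F [(25,16384),(12,16362),(8,9934),(22,9921)]) (U0 2 1 (F [(25,16384),(12,16379),(8,9946),(22,9948)]) (P4 1 1 (P5 1 1 (F [(25,1048494),(8,636827),(12,1048576),(22,636625)]) (F [(22,636763),(8,636841),(25,1048576),(12,1048324)])) (F [(8,9951),(22,9950),(12,16380),(25,16384)])))) (F [(12,256),(8,232),(25,133)])))))) (F [(8,256),(25,217),(12,216)]))) (P1 1 1 (P5 2 1 (U0 1 1 (U1 2 1 (U2 1 1 (P0 1 1 (F [(8,635824),(25,1048576),(22,636575),(12,1046388)]) (P2 1 1 (P4 1 2 (F [(25,16384),(8,9938),(12,16366),(22,9924)])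 (U1 1 2 (F [(8,636615),(22,636687),(25,1048576),(12,1048033)]) (F [(8,9947),(25,16384),(12,16378),(22,9947)]))) (U1 1 2 (F [(8,636890),(12,1048576),(22,636571),(25,1048425)]) (F [(12,16384),(8,9949),(22,9947),(25,16384)])))) (P0 1 1 (F [(22,9952),(25,16384),(8,9926),(12,16350)]) (F [(12,16384),(22,9948),(25,16384),(8,9949)]))) (F [(25,16384),(12,16378),(8,9946),(22,9947)])) (U2 2 1 (U1 1 1 (P0 1 1 (F [(22,187),(8,10),(25,256)]) (F [(22,636596),(8,636875),(12,1048576),(25,1048417)])) (F [(22,9951),(8,9949),(12,16383),(25,16384)])) (F [(22,9953),(12,16383),(8,9948),(25,16384)]))) (P3 1 2 (F [(12,1048576),(22,636714),(25,1048317),(8,636545)]) (U0 1 1 (U1 2 1 (U2 1 1 (P0 1 1 (F [(22,636575),(8,635824),(25,1048576),(12,1046388)]) (P1 2 1 (U1 1 2 (P4 1 1 (F [(22,9950),(12,16384),(8,9948),(25,16384)]) (F [(22,169),(8,256),(12,8)])) (F [(22,9949),(12,16380),(25,16384),(8,9946)])) (U1 1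 2 (F [(22,636571),(12,1048576),(8,636890),(25,1048425)]) (F [(12,16384),(22,9947),(8,9949),(25,16384)])))) (F [(22,9953),(12,16378),(25,16384),(8,9940)])) (F [(12,16378),(25,16384),(22,9948),(8,9946)])) (F [(22,636925),(12,1048576),(8,636908),(25,1048531)])))) (P0 2 1 (U0 1 1 (F [(8,637261),(22,636693),(25,1048576),(12,1048560)]) (F [(22,9950),(8,9958),(12,16384),(25,16382)])) (F [(8,9954),(12,16384),(22,9936),(25,16368)])))) (F [(8,256),(25,108),(22,28)]))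

def c164 : Cell := ⟨⟨805,0,1243⟩, ⟨804,1,1243⟩, ⟨201,0,311⟩, ⟨15850,8530,23113,18043⟩, ⟨15850,8530,23115,18041⟩, ⟨3962,2132,5779,4511⟩, ⟨7924,4266,11556,9022⟩⟩

def t164 : Tr :=
  U2 1 4 (U1 1 4 (P5 2 1 (P4 1 2 (U2 1 8 (P2 1 2 (U1 1 8 (P5 1 2 (P4 1 4 (U2 1 16 (F [(25,177),(12,256),(8,104)]) (P2 1 4 (F [(12,165),(25,256),(22,111)]) (P1 1 1 (F [(12,219),(25,256),(22,96)]) (U0 1 1 (F [(12,256),(25,177),(8,104)]) (U2 2 1 (P2 2 1 (F [(12,251),(25,256),(22,53)]) (P0 2 1 (U1 1 1 (F [(8,636766),(12,1048576),(25,1048558),(22,636753)]) (P3 1 1 (F [(12,16384),(25,16380),(22,9948),(8,9949)]) (F [(25,16384),(12,16384),(8,9950),(22,9948)]))) (F [(12,256),(8,155)]))) (P2 2 1 (F [(12,251),(22,87),(25,256)]) (P0 2 1 (P3 1 1 (F [(12,256),(22,93),(8,68)]) (P4 2 1 (F [(12,256),(22,53),(8,61)]) (U0 2 1 (F [(25,1048576),(12,1048459),(22,636802),(8,636731)]) (F [(22,636843),(12,1048484),(25,1048576),(8,636734)]))))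 (F [(12,256),(8,155)])))))))) (P3 1 1 (U2 1 16 (F [(25,1048576),(8,636755),(12,1048406),(22,636524)]) (P1 1 1 (F [(25,1048576),(12,1048347),(22,636812),(8,636455)]) (P0 2 1 (U0 1 1 (F [(25,1048576),(12,1048417),(8,636670),(22,636804)]) (F [(22,636883),(25,1048576),(8,636627),(12,1048359)])) (U0 1 1 (F [(25,1048532),(12,1048576),(8,636771),(22,636676)]) (U2 2 1 (P2 2 1 (U1 1 1 (F [(8,636739),(25,1048576),(12,1048490),(22,636835)]) (P5 1 1 (F [(25,1048576),(8,636721),(12,1048412),(22,636819)]) (F [(12,16384),(22,9950),(25,16382),(8,9949)]))) (F [(8,170),(12,256),(22,48)])) (P2 2 1 (P5 1 1 (P4 1 2 (U0 2 1 (F [(25,1048576),(22,636809),(12,1048441),(8,636726)]) (F [(22,256),(25,119),(8,57)])) (F [(22,636856),(12,1048562),(8,636766),(25,1048576)])) (F [(22,93),(12,256),(8,68)])) (F [(22,51),(12,256),(8,107)]))))))) (U2 1 16 (F [(8,220),(25,256),(12,121)]) (P0 1 1 (F [(8,48),(25,256),(22,148)])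 (P1 2 1 (F [(25,16384),(8,9944),(22,9951),(12,16373)]) (U0 1 1 (F [(8,636822),(25,1048576),(12,1048496),(22,636728)]) (U2 2 1 (P4 1 1 (P2 2 1 (F [(8,9950),(25,16384),(22,9950),(12,16380)]) (F [(8,9952),(22,9950),(25,16384),(12,16384)])) (F [(8,256),(22,169),(12,8)])) (P4 1 1 (P2 2 1 (P5 1 2 (U0 2 1 (F [(25,16384),(8,9949),(22,9950),(12,16382)]) (F [(22,256),(8,57),(25,119)])) (F [(22,9951),(8,9949),(25,16384),(12,16382)])) (F [(22,9951),(8,9953),(12,16384),(25,16384)])) (F [(22,169),(8,256),(12,8)]))))))))) (P3 1 2 (P1 1 2 (F [(22,9952),(12,16355),(25,16384),(8,9932)]) (U2 1 16 (U1 1 16 (P0 2 1 (F [(25,16384),(8,9936),(22,9952),(12,16362)]) (F [(8,636826),(25,1048552),(12,1048576),(22,636803)])) (P0 2 1 (F [(22,160),(25,256),(12,50)]) (P2 1 1 (F [(12,1048331),(25,1048576),(22,636889),(8,636567)]) (F [(12,16384),(8,9951),(25,16378),(22,9948)])))) (P0 2 1 (F [(22,179),(12,36),(25,256)])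 (F [(22,636858),(12,1048576),(8,636479),(25,1047860)])))) (P4 1 1 (U2 1 16 (U1 1 16 (P1 2 1 (F [(25,256),(8,7),(22,154)]) (F [(25,1048576),(8,636837),(12,1048565),(22,636804)])) (P1 2 1 (F [(25,256),(22,155)]) (P2 1 1 (F [(25,1048576),(12,1048331),(8,636567),(22,636889)]) (F [(25,224),(8,256),(12,210)])))) (P1 2 1 (F [(22,155),(25,256)]) (P2 1 1 (F [(22,9953),(12,16381),(25,16384),(8,9946)]) (P0 2 1 (F [(22,636881),(8,636674),(12,1048420),(25,1048576)]) (F [(22,9949),(12,16384),(8,9950),(25,16380)]))))) (U2 1 16 (F [(8,159),(25,256),(12,21)]) (P1 2 1 (F [(22,155),(25,256)]) (P0 1 1 (F [(22,155),(25,256)]) (P2 2 1 (F [(22,9951),(8,9947),(25,16384),(12,16379)]) (F [(8,9951),(22,9951),(12,16384),(25,16383)])))))))) (P5 1 2 (P4 1 4 (F [(12,256),(25,194),(22,140)]) (P3 1 1 (F [(12,256),(25,194),(22,140)]) (U0 1 2 (U1 2 1 (P0 1 1 (F [(25,256),(22,155)]) (F [(25,16384),(12,16381),(22,9950),(8,9946)]))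 (F [(25,256),(12,192),(22,173)])) (P0 1 1 (F [(22,168),(25,256),(8,28)]) (P1 2 1 (F [(22,163),(25,256),(12,88)]) (U2 1 1 (U1 1 2 (F [(25,1048576),(12,1048459),(8,636794),(22,636703)]) (P4 1 1 (F [(12,16383),(25,16384),(22,9949),(8,9948)]) (F [(12,1048505),(22,636845),(25,1048576),(8,636760)]))) (U0 2 1 (P4 1 1 (P2 2 1 (F [(12,181),(22,147),(25,256)]) (F [(12,16383),(22,9951),(25,16384),(8,9949)])) (F [(22,636853),(12,1048509),(8,636760),(25,1048576)])) (P4 1 1 (P2 2 1 (F [(22,9951),(12,16382),(25,16384),(8,9947)]) (F [(22,636887),(12,1048560),(8,636878),(25,1048576)])) (F [(22,169),(8,256),(12,8)]))))))))) (P3 1 2 (F [(22,137),(12,256),(25,189)]) (P4 1 1 (F [(22,139),(12,256),(25,191)]) (U0 1 2 (U1 2 1 (P1 2 1 (F [(22,117),(25,256),(12,141)]) (P0 1 1 (F [(25,256),(22,137),(12,68)]) (F [(12,16381),(25,16384),(22,9950),(8,9946)]))) (F [(22,173),(25,256),(12,192)])) (P1 2 1 (F [(22,155),(25,256)])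 (P0 1 1 (F [(22,155),(25,256)]) (P2 2 1 (F [(22,163),(12,88),(25,256)]) (F [(22,9951),(12,16384),(8,9951),(25,16383)]))))))))) (U1 1 8 (P1 1 1 (P3 1 2 (P5 2 1 (U2 1 16 (U1 1 16 (F [(8,9953),(22,9952),(25,16384),(12,16383)]) (P4 1 2 (F [(8,9951),(22,9951),(12,16384),(25,16382)]) (F [(22,204),(25,256),(12,17)]))) (P4 1 2 (F [(22,9951),(8,9950),(12,16384),(25,16381)]) (F [(22,204),(12,17),(25,256)]))) (F [(22,9955),(8,9949),(12,16382),(25,16384)])) (U2 1 16 (U1 1 16 (F [(8,256),(22,31),(25,105)]) (P5 1 2 (F [(8,9953),(22,9951),(25,16384),(12,16382)]) (F [(8,14),(22,202),(25,256)]))) (P5 1 2 (F [(22,9952),(8,9954),(25,16384),(12,16383)]) (F [(22,205),(25,256)])))) (F [(8,256),(22,14),(12,123)])) (P1 1 1 (P3 1 2 (F [(22,137),(12,256),(25,189)]) (U0 1 2 (U1 2 1 (P5 1 2 (P0 1 1 (P4 1 1 (F [(22,9952),(12,16383),(25,16384),(8,9951)]) (F [(22,137),(25,256),(12,68)])) (F [(22,9952),(12,16384),(8,9951),(25,16384)]))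 (F [(22,205),(25,256)])) (F [(22,173),(12,192),(25,256)])) (P5 1 2 (P0 1 1 (P4 1 1 (F [(22,9952),(8,9951),(12,16384),(25,16384)]) (F [(22,155),(25,256)])) (F [(22,9952),(8,9951),(12,16384),(25,16383)])) (F [(22,205),(25,256)])))) (U0 1 2 (P0 2 1 (U1 2 1 (P3 1 1 (F [(22,9952),(8,9952),(12,16384),(25,16383)]) (P4 1 1 (F [(22,9952),(8,9952),(25,16384),(12,16384)]) (F [(22,148),(8,48),(25,256)]))) (F [(22,637088),(12,1048182),(8,636179),(25,1048576)])) (F [(22,87),(8,182),(12,256)])) (F [(22,74),(8,256),(12,149)]))))) (F [(22,256),(12,209),(25,213)])) (F [(22,256),(8,57),(25,119)])) (F [(22,256),(8,45)])) (F [(22,256),(12,209),(25,213)])) (F [(22,256),(12,241)])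

def c165 : Cell := ⟨⟨3217,0,4975⟩, ⟨1608,1,2487⟩, ⟨201,0,311⟩, ⟨63398,34126,92449,72171⟩, ⟨31698,17062,46227,36085⟩, ⟨15850,8530,23113,18043⟩, ⟨7924,4266,11556,9022⟩⟩

def t165 : Tr :=
  P5 1 2 (U1 1 8 (P4 1 4 (P2 1 8 (U2 1 16 (F [(25,213),(12,220),(8,256)]) (P5 1 4 (F [(25,256),(12,137),(22,47)]) (U0 1 1 (F [(25,183),(12,256),(8,121)]) (P1 1 4 (U2 2 1 (F [(12,220),(8,256),(25,213)]) (P5 2 1 (P4 1 1 (F [(12,256),(25,45)]) (P3 2 1 (F [(12,256),(8,129),(25,19)]) (P0 1 4 (F [(25,1048576),(12,1048480),(8,636698),(22,636813)]) (F [(12,256),(25,4),(8,149)])))) (P3 1 2 (F [(12,256),(8,155)]) (P4 2 1 (F [(12,256),(8,155)]) (P0 1 4 (U0 2 1 (F [(25,1048576),(12,1048493),(8,636748),(22,636779)]) (F [(22,636842),(12,1048485),(8,636737),(25,1048576)])) (F [(12,256),(8,155)])))))) (U2 2 1 (F [(25,256),(12,197),(8,175)]) (P0 1 2 (P4 1 1 (F [(12,256),(25,139)]) (P3 4 1 (F [(12,256),(25,46),(8,93)])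 (F [(25,1048576),(12,1048505),(8,636700),(22,636806)]))) (F [(12,256),(25,139)]))))))) (U2 1 16 (F [(8,256),(25,213),(12,220)]) (P0 1 1 (U0 1 1 (F [(25,183),(8,121),(12,256)]) (P5 4 1 (U2 2 1 (F [(25,256),(8,245),(12,162)]) (P4 2 1 (P2 1 1 (F [(12,256),(25,63),(8,70)]) (P1 2 1 (F [(8,78),(25,57),(12,256)]) (P0 2 1 (F [(8,636806),(25,1048520),(12,1048576),(22,636755)]) (F [(8,256),(25,62)])))) (P3 4 1 (P1 2 1 (F [(8,93),(12,256),(25,46)]) (P2 2 1 (F [(8,636805),(25,1048509),(12,1048576),(22,636748)]) (F [(8,192),(25,9),(12,256)]))) (P0 1 2 (U0 2 1 (F [(25,256),(12,79)]) (U2 4 1 (F [(25,256),(8,245),(12,162)]) (F [(25,67108864),(8,40747789),(22,40755988),(12,67101522)]))) (P2 2 1 (U0 2 1 (F [(25,256),(12,79)]) (U2 4 1 (F [(8,242),(25,152),(12,256)]) (P4 1 1 (P1 1 1 (F [(25,1048570),(8,636790),(12,1048576),(22,636793)]) (F [(8,48),(25,256),(22,148)])) (F [(8,636759),(25,1048576),(22,636823),(12,1048488)]))))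 (F [(8,636813),(25,1048576),(12,1048535),(22,636820)])))))) (U2 2 1 (F [(8,256),(25,213),(12,220)]) (P3 1 2 (F [(8,192),(12,256),(25,9)]) (P4 4 1 (F [(8,170),(12,256),(25,4)]) (P0 1 2 (U0 2 1 (F [(25,1048576),(8,636748),(12,1048493),(22,636779)]) (F [(8,636737),(22,636842),(25,1048576),(12,1048485)])) (F [(8,636917),(25,1048516),(22,636771),(12,1048576)]))))))) (F [(8,256),(25,27),(12,240)])))) (U2 1 16 (F [(8,256),(25,217),(12,216)]) (P0 1 2 (P3 1 1 (P2 1 2 (U0 1 1 (F [(8,256),(25,209),(12,213)]) (U2 2 1 (F [(8,256),(25,209),(12,213)]) (P4 1 1 (P5 2 1 (P1 1 2 (U0 2 1 (F [(25,16384),(8,9949),(22,9950),(12,16382)]) (F [(22,256),(8,57),(25,119)])) (F [(8,132),(25,256),(22,136)])) (F [(8,256),(25,42),(12,136)])) (F [(8,256),(12,8)])))) (F [(8,256),(25,44),(12,121)])) (F [(8,48),(25,256),(22,148)])) (P2 1 1 (P4 1 2 (U0 1 1 (F [(25,212),(8,199),(12,256)]) (U2 2 1 (F [(8,256),(25,213),(12,220)])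 (P5 2 1 (P2 1 2 (P3 1 2 (U0 2 1 (F [(25,1048576),(8,636748),(22,636779),(12,1048493)]) (F [(8,84),(22,256),(25,129)])) (F [(8,132),(25,256),(22,136)])) (F [(8,256),(25,36),(12,175)])) (F [(8,256),(25,32),(12,203)])))) (F [(8,256),(25,44),(12,121)])) (F [(8,256),(25,36),(12,175)]))))) (P4 1 4 (P2 1 8 (F [(12,256),(25,192),(22,137)]) (U0 1 2 (F [(12,256),(25,178),(8,104)]) (P0 1 1 (U2 1 1 (F [(25,177),(12,256),(8,104)]) (P5 4 1 (U0 2 1 (F [(12,223),(25,256),(8,121)]) (P4 2 1 (P2 1 1 (F [(12,256),(8,51)]) (P1 2 1 (F [(12,256),(8,51)]) (P0 2 1 (F [(25,1048494),(8,636831),(12,1048576),(22,636662)]) (F [(8,256),(25,213),(12,220)])))) (P3 4 1 (P1 2 1 (F [(12,256),(8,23),(22,19)]) (P2 2 1 (U2 2 1 (F [(25,177),(12,256),(8,104)]) (U0 4 1 (F [(12,256),(25,64),(8,164)]) (P5 1 2 (P0 1 1 (F [(12,1048576),(25,1048266),(8,636752),(22,636608)]) (P2 1 2 (U2 4 1 (F [(25,59),(12,256),(8,144)]) (U0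 8 1 (F [(12,16384),(25,4089),(8,10468)]) (F [(8,636773),(12,1048576),(25,1048534),(22,636781)]))) (F [(8,197),(25,73),(12,256)]))) (F [(8,197),(12,256)])))) (F [(8,177),(25,38),(12,256)]))) (P0 1 2 (F [(25,256),(12,144),(22,168)]) (P2 2 1 (U2 2 1 (F [(25,256),(12,135)]) (U0 4 1 (F [(25,16384),(12,8794),(22,2985)]) (P4 1 1 (P1 1 1 (U2 4 1 (F [(25,16383),(12,16384),(8,9949),(22,9948)]) (P5 1 2 (U0 8 1 (F [(25,1048576),(12,1048550),(22,636802),(8,636747)]) (F [(25,1048576),(22,636808),(12,1048576),(8,636776)])) (F [(22,636825),(12,1048532),(25,1048576),(8,636751)]))) (P2 1 2 (U2 4 1 (F [(25,183),(12,256),(8,121)]) (U0 8 1 (F [(25,1048576),(12,1048552),(8,636751),(22,636799)]) (F [(25,1048576),(8,636776),(22,636808),(12,1048576)]))) (F [(25,1048576),(8,636788),(12,1048485),(22,636779)]))) (F [(8,636763),(25,1048576),(22,636817),(12,1048515)])))) (P1 4 1 (F [(25,1048576),(8,636776),(12,1048532),(22,636818)])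 (F [(8,245),(25,256),(12,162)]))))))) (U0 2 1 (F [(12,1048564),(25,1048576),(8,636685),(22,636743)]) (P3 1 2 (F [(12,256),(8,212),(22,25)]) (P4 4 1 (F [(12,256),(8,168),(25,22)]) (P0 1 2 (U2 2 1 (F [(25,16384),(12,16382),(8,9948),(22,9950)]) (F [(22,9951),(25,16384),(12,16382),(8,9948)])) (P1 1 1 (U2 2 1 (F [(25,16384),(12,16383),(8,9949),(22,9950)]) (F [(22,636846),(8,636751),(12,1048508),(25,1048576)])) (P2 4 1 (U2 2 1 (F [(25,16384),(8,9949),(12,16383),(22,9948)]) (F [(8,636759),(22,636841),(25,1048576),(12,1048516)])) (F [(8,9950),(25,16384),(22,9950),(12,16381)]))))))))) (F [(8,225),(12,256),(25,122)])))) (U0 1 2 (U1 2 1 (P0 1 2 (P3 1 1 (F [(25,16384),(12,16381),(8,9947),(22,9949)]) (F [(25,256),(22,155)])) (F [(25,16384),(8,9947),(12,16381),(22,9949)])) (P0 1 2 (F [(25,16384),(12,16379),(22,9952),(8,9944)]) (F [(25,16384),(12,16381),(8,9947),(22,9950)]))) (P0 1 2 (P3 1 1 (P2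 1 2 (U2 1 1 (U1 1 2 (F [(25,209),(8,256),(12,213)]) (P4 1 1 (F [(25,256),(12,254),(8,106)]) (F [(25,1048576),(8,636761),(12,1048495),(22,636820)]))) (U0 2 1 (P4 1 1 (P5 2 1 (F [(25,256),(22,117),(12,141)]) (F [(12,1048492),(22,636865),(25,1048576),(8,636777)])) (F [(22,636865),(8,636777),(12,1048492),(25,1048576)])) (P4 1 1 (P5 2 1 (F [(22,636867),(25,1048576),(8,636643),(12,1048384)]) (F [(22,636888),(8,636878),(12,1048556),(25,1048576)])) (F [(22,112),(8,256),(12,8)])))) (P1 1 4 (U2 1 1 (F [(8,636811),(25,1048576),(12,1048491),(22,636759)]) (F [(22,636934),(8,636813),(12,1048492),(25,1048576)])) (F [(8,256),(25,179),(22,223)]))) (F [(8,28),(25,256),(22,168)])) (P2 1 1 (P4 1 2 (U2 1 1 (F [(25,242),(12,256),(8,110)]) (U0 2 1 (P5 2 1 (F [(25,1048576),(12,1048405),(8,636646),(22,636777)]) (F [(12,1048512),(8,636800),(25,1048576),(22,636850)])) (P5 2 1 (P2 1 2 (F [(25,1048576),(22,636861),(8,636671),(12,1048369)])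 (F [(8,636739),(25,1048576),(22,636850),(12,1048427)])) (F [(8,636878),(22,636888),(12,1048556),(25,1048576)])))) (P3 1 4 (U2 1 1 (F [(25,16384),(8,9950),(12,16383),(22,9943)]) (F [(8,636856),(22,636926),(12,1048475),(25,1048576)])) (F [(8,9951),(25,16384),(22,9949),(12,16378)]))) (F [(8,256),(25,86),(12,231)])))))) (U1 1 8 (F [(8,256),(25,42),(12,136)]) (P1 1 4 (U0 1 2 (P3 1 2 (F [(8,182),(22,87),(12,256)]) (U1 2 1 (P4 1 1 (F [(8,9951),(22,9951),(12,16384),(25,16384)]) (F [(8,194),(22,127),(25,256)])) (F [(22,9952),(8,9947),(12,16380),(25,16384)]))) (F [(8,256),(22,74),(12,149)])) (U0 1 2 (U1 2 1 (P0 1 2 (P4 1 1 (F [(8,9952),(25,16384),(12,16384),(22,9951)]) (F [(8,194),(25,256),(22,127)])) (F [(8,256),(25,32),(12,203)])) (F [(8,636629),(12,1048326),(25,1048576),(22,636871)])) (F [(8,256),(22,74),(12,149)]))))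

def c166 : Cell := ⟨⟨1609,0,2487⟩, ⟨1608,1,2487⟩, ⟨3217,0,4975⟩, ⟨63398,34126,92449,72171⟩, ⟨31698,17062,46227,36085⟩, ⟨15850,8530,23113,18043⟩, ⟨7924,4266,11556,9022⟩⟩

def t166 : Tr :=
  P5 1 2 (P4 1 4 (P2 1 8 (F [(12,256),(22,137),(25,192)]) (U0 1 1 (U1 2 1 (U2 1 1 (P0 1 1 (P5 4 1 (U1 1 2 (U2 1 2 (P4 2 1 (P2 1 1 (F [(12,256),(8,51)]) (P1 2 1 (F [(12,256),(8,51)]) (P0 2 1 (U1 1 4 (P3 2 1 (F [(8,256),(22,63),(12,189)]) (U2 1 4 (P4 1 1 (F [(8,256),(12,240),(25,27)]) (P0 1 2 (F [(12,67108864),(25,67106769),(22,40753515),(8,40753510)]) (F [(8,9950),(12,16384),(22,9950),(25,16384)]))) B)) (F [(12,1048576),(25,1048572),(8,636756),(22,636782)])) (F [(8,9951),(22,9950),(12,16384),(25,16384)])))) (P3 4 1 (P1 2 1 (F [(12,256),(22,66)]) (P2 2 1 (U1 1 4 (P5 1 2 (U2 1 4 (P0 1 1 (F [(22,114),(12,256)]) (P2 1 2 (U1 1 8 (F [(22,636794),(12,1048576),(8,636771),(25,1048550)]) B) (F [(22,9950),(8,9950),(12,16384),(25,16384)])))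 B) (F [(22,25),(12,256),(8,212)])) (F [(12,1048576),(22,636785),(25,1048574),(8,636756)])) (F [(22,636588),(8,636831),(12,1048576),(25,1048205)]))) (P0 1 2 (F [(22,195),(25,256),(12,145)]) (P2 2 1 (U1 1 4 (U2 1 4 (P4 1 1 (P1 1 1 (F [(22,256),(12,209),(25,213)]) (P2 1 2 (F [(22,636863),(12,1048366),(25,1048576),(8,636605)]) (F [(22,636807),(8,636746),(25,1048576),(12,1048487)]))) (F [(22,636840),(8,636745),(25,1048576),(12,1048489)])) B) (F [(12,1048502),(25,1048576),(22,636798),(8,636714)])) (P1 4 1 (F [(22,636845),(8,636758),(12,1048520),(25,1048576)]) (F [(8,9950),(22,9950),(25,16384),(12,16382)])))))) (P4 2 1 (P2 1 1 (F [(12,256)]) (P1 2 1 (F [(12,256)]) (P0 2 1 (F [(12,256),(22,23)]) (F [(12,16384),(22,9950),(8,9950),(25,16384)])))) (P3 4 1 (P1 2 1 (F [(12,256),(22,23)]) (P2 2 1 (F [(12,256),(22,23)]) (F [(22,636737),(12,1048576),(8,636790),(25,1048441)]))) (P0 1 2 (F [(22,168),(12,144),(25,256)])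 (P2 2 1 (F [(12,256),(22,137),(25,189)]) (F [(22,636830),(12,1048503),(25,1048576),(8,636736)])))))) (F [(12,1048474),(25,1048576),(22,636774),(8,636653)])) (U1 1 2 (P3 1 2 (F [(22,179),(12,195),(8,256)]) (U2 1 2 (P4 4 1 (F [(12,256),(8,170),(25,3)]) (P0 1 2 (F [(22,251),(12,148),(25,256)]) (F [(22,636951),(8,636740),(12,1048512),(25,1048576)]))) (P4 4 1 (F [(22,7),(12,256),(8,171)]) (F [(22,9951),(12,16382),(25,16384),(8,9948)])))) (P3 1 2 (F [(12,256),(8,155)]) (F [(12,1048474),(22,636790),(25,1048576),(8,636663)])))) (F [(12,256),(8,155)])) (F [(12,256),(22,15),(8,54)])) (F [(12,256),(25,63),(8,70)])) (U2 2 1 (U1 1 1 (P0 1 1 (P5 4 1 (U2 1 2 (U1 1 2 (P4 2 1 (P2 1 1 (F [(12,256),(8,51)]) (P1 2 1 (F [(12,256),(8,51)]) (P0 2 1 (U2 1 4 (P3 2 1 (F [(22,213),(8,221),(12,256)]) (U1 1 4 (P4 1 1 (F [(8,182),(22,87),(12,256)]) (F [(22,40756516),(8,40753632),(12,67108864),(25,67103282)]))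 B)) B) (F [(22,213),(8,221),(12,256)])))) (F [(22,256),(12,92),(25,149)])) (F [(22,187),(12,256),(8,84)])) (F [(22,256),(12,241)])) (F [(22,256),(12,54),(8,56)])) (F [(22,87),(8,182),(12,256)])) (F [(22,187),(12,256),(8,84)])) (F [(22,256),(12,152)])))) (U0 1 1 (U1 2 1 (U2 1 1 (P0 1 2 (F [(22,256),(25,149),(12,92)]) (P2 1 1 (P4 1 2 (U1 1 2 (F [(22,256),(8,84),(25,129)]) (P5 2 1 (F [(22,636830),(12,1048323),(25,1048576),(8,636607)]) (F [(22,9952),(12,16383),(8,9949),(25,16384)]))) (F [(22,9952),(8,9950),(12,16383),(25,16384)])) (F [(8,256),(12,240),(25,27)]))) (P0 1 2 (F [(22,256),(12,92),(25,149)]) (P2 1 1 (F [(22,9952),(12,16381),(25,16384),(8,9946)]) (F [(22,9950),(12,16384),(8,9952),(25,16383)])))) (P0 1 2 (F [(22,9962),(12,16373),(25,16384),(8,9936)]) (F [(12,16381),(22,9950),(25,16384),(8,9947)]))) (F [(22,256),(8,45)]))) (U0 1 1 (P1 1 4 (F [(22,256),(12,133),(25,47)]) (U1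 2 1 (F [(22,179),(8,256),(12,195)]) (F [(22,636907),(12,1048366),(8,636681),(25,1048576)]))) (F [(22,256),(8,79)]))

def c167 : Cell := ⟨⟨1609,0,2487⟩, ⟨1608,1,2487⟩, ⟨201,0,311⟩, ⟨31702,17062,46225,36083⟩, ⟨31698,17062,46227,36085⟩, ⟨15850,8530,23113,18043⟩, ⟨63398,34126,92449,72171⟩⟩

def t167 : Tr :=
  F [(8,256),(22,31),(25,105)]

theorem g13 : ∀ c ∈ [c156, c157, c158, c159, c160, c161, c162, c163, c164, c165, c166, c167], Done D c := by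
  intro c hc
  simp only [List.mem_cons, List.not_mem_nil, or_false] at hc
  rcases hc with rfl | rfl | rfl | rfl | rfl | rfl | rfl | rfl | rfl | rfl | rfl | rfl
  · exact done_of_chk (t := t156) (by decide +kernel)
  · exact done_of_chk (t := t157) (by decide +kernel)
  · exact done_of_chk (t := t158) (by decide +kernel)
  · exact done_of_chk (t := t159) (by decide +kernel)
  · exact done_of_chk (t := t160) (by decide +kernel)
  · exact done_of_chk (t := t161) (by decide +kernel)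
  · exact done_of_chk (t := t162) (by decide +kernel)
  · exact done_of_chk (t := t163) (by decide +kernel)
  · exact done_of_chk (t := t164) (by decide +kernel)
  · exact done_of_chk (t := t165) (by decide +kernel)
  · exact done_of_chk (t := t166) (by decide +kernel)
  · exact done_of_chk (t := t167) (by decide +kernel)

end Pool.Agent.W2helper59.NW.E1
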