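import Pool.Agent.W2helper59.NW.D_E1

set_option autoImplicit false
set_option maxRecDepth 1000000

namespace Pool.Agent.W2helper59.NW.E1

open Tr

def c168 : Cell := ⟨⟨1609,0,2487⟩, ⟨1608,1,2487⟩, ⟨201,0,311⟩, ⟨31702,17062,46225,36083⟩, ⟨15850,8530,23115,18041⟩, ⟨15850,8530,23113,18043⟩, ⟨31698,17062,46227,36085⟩⟩

def t168 : Tr :=
  F [(8,84),(22,256),(25,129)]

def c169 : Cell := ⟨⟨1609,0,2487⟩, ⟨1608,1,2487⟩, ⟨201,0,311⟩, ⟨7926,4266,11555,9021⟩, ⟨31702,17062,46225,36083⟩, ⟨15850,8530,23113,18043⟩, ⟨7924,4266,11556,9022⟩⟩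

def t169 : Tr :=
  F [(8,150),(12,256),(25,4)]

def c170 : Cell := ⟨⟨1609,0,2487⟩, ⟨804,1,1243⟩, ⟨1608,1,2487⟩, ⟨7926,4266,11555,9021⟩, ⟨15850,8530,23115,18041⟩, ⟨15850,8530,23113,18043⟩, ⟨7924,4266,11556,9022⟩⟩

def t170 : Tr :=
  P0 2 1 (P4 1 2 (P2 1 4 (F [(12,1048576),(22,637091),(25,1048572),(8,636322)]) (F [(22,637013),(8,636755),(12,1048335),(25,1048576)])) (F [(22,256),(8,66),(25,70)])) (F [(12,256),(8,148),(22,1)])

def c171 : Cell := ⟨⟨805,0,1243⟩, ⟨804,1,1243⟩, ⟨1609,0,2487⟩, ⟨7926,4266,11555,9021⟩, ⟨15850,8530,23115,18041⟩, ⟨15850,8530,23113,18043⟩, ⟨7924,4266,11556,9022⟩⟩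

def t171 : Tr :=
  F [(22,187),(12,256),(8,84)]

def c172 : Cell := ⟨⟨1609,0,2487⟩, ⟨1608,1,2487⟩, ⟨201,0,311⟩, ⟨31702,17062,46225,36083⟩, ⟨15850,8532,23113,18041⟩, ⟨15850,8530,23115,18041⟩, ⟨7924,4266,11556,9022⟩⟩

def t172 : Tr :=
  P5 1 2 (P2 1 4 (P4 1 2 (U2 1 8 (F [(25,256),(8,85),(12,43)]) (P5 1 4 (P2 1 8 (P4 1 4 (F [(12,214),(25,256),(22,98)]) (U0 1 1 (F [(25,256),(12,76),(22,6)]) (U2 2 1 (U1 1 1 (P3 2 1 (U2 1 2 (U1 1 2 (P1 1 2 (F [(25,256),(22,117),(12,141)]) (P0 1 1 (F [(25,256),(22,137),(12,68)]) (P5 1 4 (U2 1 4 (F [(25,256),(12,197),(8,175)]) B) (U2 1 4 (U1 1 4 (P1 2 1 (P3 1 1 (F [(12,165),(25,256),(22,111)]) (P4 2 1 (F [(25,256),(12,165),(22,111)]) (P0 1 2 (U2 1 8 (F [(25,256),(8,159),(12,21)]) B) (U2 1 8 (F [(25,256),(12,117)]) B)))) (P0 2 1 (P4 2 1 (F [(12,256),(25,231)]) (P3 2 1 (F [(12,256),(25,147),(22,20)]) (U2 1 8 (F [(25,213),(8,256),(12,221)]) B))) (F [(12,256),(25,89),(8,34)])))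 B) B)))) (F [(22,173),(25,256),(12,192)])) (F [(22,256),(12,209),(25,213)])) (P0 1 4 (F [(25,256),(22,155)]) (U2 1 2 (U1 1 2 (P1 1 1 (F [(25,256),(22,155)]) (P0 2 1 (P4 1 4 (U2 1 4 (F [(25,256),(8,159),(12,21)]) B) (U2 1 4 (F [(25,256),(8,159),(12,21)]) B)) (U2 1 4 (F [(25,217),(12,217),(8,256)]) B))) (P1 1 1 (F [(25,256),(22,155)]) (P0 2 1 (P4 1 4 (F [(25,194),(12,256),(22,140)]) (U0 1 2 (F [(25,256),(12,137),(22,47)]) (P3 1 1 (U2 1 1 (F [(25,256),(12,137),(22,47)]) (P5 2 1 (U0 2 1 (F [(25,1048576),(12,1048533),(22,636763),(8,636739)]) B) (U0 2 1 (F [(22,636775),(25,1048576),(12,1048545),(8,636754)]) B))) (P0 1 2 (F [(25,256),(8,147)]) (U2 1 1 (F [(25,256),(12,132),(8,32)]) (U0 2 1 (F [(25,1048576),(12,1048533),(22,636763),(8,636739)]) B)))))) (F [(12,256),(25,189),(22,137)])))) (P1 1 1 (F [(22,179),(25,256),(12,36)]) (P0 2 1 (F [(22,636995),(12,1048352),(25,1048576),(8,636473)])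 (F [(12,256),(22,160),(25,60)])))))) (F [(22,168),(12,144),(25,256)])) (F [(22,251),(12,148),(25,256)])))) (U0 1 1 (U1 2 1 (U2 1 1 (P1 1 1 (P3 2 1 (U1 1 2 (U2 1 2 (P5 2 1 (P4 1 1 (P2 1 1 (F [(12,256),(25,177),(8,104)]) (P1 2 1 (U1 1 4 (U2 1 4 (P5 1 1 (F [(8,256),(25,86),(12,231)]) (P3 1 1 (P1 1 2 (F [(25,1048571),(12,1048576),(8,636774),(22,636783)]) (U1 1 8 (P0 1 1 (F [(8,636776),(25,1048576),(12,1048561),(22,636781)]) (F [(8,9950),(22,9950),(25,16384),(12,16384)])) B)) (F [(25,1048576),(8,636788),(12,1048543),(22,636771)]))) B) (F [(25,1048576),(12,1048535),(8,636734),(22,636779)])) (F [(8,636795),(25,1048576),(12,1048502),(22,636774)]))) (F [(25,256),(8,7),(22,154)])) (F [(25,256),(22,154),(8,7)])) (P5 2 1 (P4 1 1 (P2 1 1 (F [(12,256),(25,140)]) (P1 2 1 (F [(12,256),(25,192),(22,137)]) (U0 2 1 (F [(25,1048576),(12,1048505),(8,636769),(22,636771)]) (P0 2 1 (F [(12,16383),(22,9950),(25,16384),(8,9949)])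 (F [(22,9951),(12,16384),(8,9950),(25,16384)]))))) (F [(25,256),(22,158),(8,6)])) (F [(22,158),(25,256),(8,6)]))) (F [(25,1048576),(12,1048432),(22,636753),(8,636627)])) (P4 4 1 (U1 1 2 (U2 1 2 (F [(25,209),(8,256),(12,213)]) (P5 1 1 (P2 1 1 (F [(12,256),(25,177),(8,104)]) (P0 2 1 (F [(25,1048576),(8,636760),(12,1048524),(22,636623)]) (U0 2 1 (F [(25,209),(8,256),(12,213)]) (P1 2 1 (F [(12,16383),(25,16384),(22,9950),(8,9949)]) (F [(22,9950),(8,9951),(12,16384),(25,16384)]))))) (F [(25,256),(8,28),(22,168)]))) (F [(25,1048576),(12,1048444),(8,636638),(22,636754)])) (F [(25,16384),(8,9942),(22,9950),(12,16368)]))) (P2 2 1 (P4 4 1 (F [(12,1048576),(25,1048466),(8,636857),(22,636655)]) (F [(8,636831),(25,1048576),(12,1048419),(22,636756)])) (F [(8,16384),(25,2317),(12,11204)]))) (P1 1 1 (F [(25,16384),(12,16367),(22,9952),(8,9927)]) (P2 2 1 (P4 4 1 (F [(12,16383),(25,16384),(22,9950),(8,9948)])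 (F [(25,16384),(12,16382),(8,9949),(22,9949)])) (F [(8,636789),(25,1048576),(12,1048442),(22,636764)])))) (F [(25,16384),(12,16382),(8,9946),(22,9948)])) (U2 2 1 (U1 1 1 (P1 1 1 (P3 2 1 (U2 1 2 (U1 1 2 (P5 2 1 (P4 1 1 (P2 1 1 (U2 1 4 (U1 1 4 (P5 1 2 (F [(12,203),(8,256),(25,32)]) (P1 1 1 (P3 1 1 (U2 1 8 (U1 1 8 (F [(12,67108864),(25,67107935),(8,40753494),(22,40753972)]) B) B) (P4 2 1 (U2 1 8 (U1 1 8 (F [(12,67108864),(8,40753513),(25,67107934),(22,40753953)]) B) B) (U2 1 8 (U1 1 8 (F [(8,256),(25,103),(22,25)]) B) B))) (F [(8,256),(12,203),(25,32)]))) B) B) (P1 2 1 (U2 1 4 (U1 1 4 (P5 1 1 (F [(8,256),(12,175),(25,36)]) (P3 1 1 (P1 1 2 (U2 1 8 (U1 1 8 (F [(8,636787),(22,636793),(25,1048575),(12,1048576)]) B) B) (U2 1 8 (P0 1 1 (U1 1 8 (F [(8,256),(22,11),(25,80)]) B) (F [(8,204),(22,256),(12,205)])) B)) (P0 1 2 (U2 1 8 (U1 1 8 (F [(8,256),(25,103),(22,25)]) B) B) (U2 1 8 (P1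 1 1 (U1 1 8 (F [(8,256),(25,103),(22,25)]) B) (F [(8,256),(22,179),(12,195)])) B)))) B) B) (U2 1 4 (P0 2 1 (U1 1 4 (F [(8,256),(25,62)]) B) (F [(8,256),(22,179),(12,195)])) (P0 2 1 B (F [(22,179),(8,256),(12,195)]))))) (F [(22,166),(8,3),(25,256)])) (F [(22,166),(8,3),(25,256)])) (P5 2 1 (P4 1 1 (P2 1 1 (F [(12,256),(22,140),(25,194)]) (P1 2 1 (F [(22,140),(12,256),(25,194)]) (U0 1 2 (F [(22,636798),(12,1048514),(8,636753),(25,1048576)]) (P0 2 1 (F [(22,636834),(12,1048528),(8,636693),(25,1048576)]) (F [(22,179),(8,256),(12,195)]))))) (F [(22,204),(25,256),(12,17)])) (F [(22,256),(12,13)]))) (F [(22,256),(12,205),(25,204)])) (P4 4 1 (U2 1 2 (U1 1 2 (P5 1 1 (P2 1 1 (P4 1 2 (U2 1 4 (F [(12,220),(8,256),(25,213)]) B) (U2 1 4 (F [(8,256),(25,213),(12,220)]) B)) (P0 2 1 (U2 1 4 (F [(8,256),(25,213),(12,220)]) B) (U2 1 4 (F [(8,256),(25,209),(12,213)]) (P1 2 1 B (F [(8,256),(12,117)])))))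 (F [(8,48),(22,148),(25,256)])) (P5 1 1 (P2 1 1 (P4 1 2 (F [(12,256),(22,137),(25,189)]) (U0 1 2 (F [(12,1048530),(25,1048576),(22,636777),(8,636756)]) (P0 1 1 (P3 1 1 (U2 1 1 (F [(25,1048576),(8,636759),(12,1048548),(22,636776)]) (F [(22,636789),(8,636778),(12,1048563),(25,1048576)])) (F [(8,636814),(25,1048576),(22,636784),(12,1048570)])) (U2 1 1 (F [(12,1048572),(22,636786),(8,636766),(25,1048576)]) (F [(22,187),(12,256),(8,84)]))))) (P0 2 1 (U0 1 2 (F [(22,636782),(25,1048576),(12,1048526),(8,636758)]) (P4 1 1 (P1 1 2 (U2 1 1 (F [(22,636799),(8,636752),(12,1048555),(25,1048576)]) (F [(22,256),(8,45)])) (F [(22,98),(8,256),(12,61)])) (F [(8,113),(22,206),(25,256)]))) (U0 1 2 (F [(22,636798),(8,636753),(12,1048514),(25,1048576)]) (P1 2 1 (P3 1 2 (U2 1 1 (F [(22,636806),(8,636743),(12,1048547),(25,1048576)]) (F [(22,256)])) (F [(22,97),(8,256),(12,64)])) (F [(22,74),(8,256),(12,149)])))))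 (F [(22,187),(8,10),(25,256)]))) (P5 1 1 (P2 1 1 (P4 1 2 (F [(22,165),(12,256)]) (F [(22,636818),(12,1048552),(8,636762),(25,1048576)])) (F [(22,231),(12,118),(25,256)])) (F [(22,204),(25,256),(12,17)]))) (F [(8,14),(22,202),(25,256)]))) (P2 2 1 (P4 4 1 (U2 1 2 (U1 1 2 (F [(8,256),(12,203),(25,32)]) (P5 1 1 (P4 1 2 (F [(12,256),(22,19),(8,23)]) (F [(8,636826),(12,1048576),(22,636772),(25,1048553)])) (F [(8,636829),(22,636808),(12,1048527),(25,1048576)]))) (P5 1 1 (P4 1 2 (F [(22,165),(12,256)]) (U0 1 1 (F [(22,636772),(12,1048576),(8,636826),(25,1048553)]) (F [(22,256)]))) (F [(22,636814),(8,636823),(12,1048519),(25,1048576)]))) (F [(8,256),(22,31),(25,105)])) (F [(8,256),(22,93),(12,65)]))) (P1 1 1 (F [(22,195),(12,145),(25,256)]) (P2 2 1 (P4 4 1 (F [(22,636873),(12,1048477),(8,636626),(25,1048576)]) (F [(22,636850),(8,636746),(12,1048413),(25,1048576)])) (F [(22,256),(8,75),(25,22)]))))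 (F [(22,256),(12,92),(25,149)])))) (U0 1 1 (U1 2 1 (U2 1 1 (P1 1 2 (F [(22,154),(8,7),(25,256)]) (P2 1 1 (F [(8,9945),(25,16384),(22,9950),(12,16373)]) (F [(8,16384),(25,2317),(12,11204)]))) (P1 1 2 (F [(22,158),(25,256),(8,6)]) (P2 1 1 (F [(22,9951),(25,16384),(8,9946),(12,16377)]) (F [(8,9949),(22,9951),(25,16384),(12,16379)])))) (F [(25,1048576),(22,636782),(12,1048177),(8,636535)])) (F [(22,256),(8,57),(25,119)])))) (F [(8,256),(25,111),(22,30)])) (F [(8,256),(22,30),(25,111)])) (F [(8,102),(22,141),(25,256)])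

def c173 : Cell := ⟨⟨1609,0,2487⟩, ⟨1608,1,2487⟩, ⟨201,0,311⟩, ⟨7926,4266,11555,9021⟩, ⟨15850,8532,23113,18041⟩, ⟨31702,17062,46225,36083⟩, ⟨7924,4266,11556,9022⟩⟩

def t173 : Tr :=
  P2 1 1 (P5 1 4 (P4 1 2 (U2 1 8 (F [(25,212),(8,199),(12,256)]) (P2 1 2 (P5 1 8 (P4 1 4 (F [(12,256),(25,114)]) (U0 1 1 (F [(12,179),(25,256),(8,61)]) (U2 2 1 (U1 1 1 (P0 1 1 (P3 4 1 (U2 1 2 (U1 1 2 (P2 1 1 (P3 1 2 (F [(12,256),(25,57),(8,78)]) (P4 1 4 (U2 1 4 (F [(25,256),(12,112),(8,215)]) B) (U2 1 4 (F [(25,213),(8,256),(12,220)]) B))) (F [(8,256),(25,86),(12,231)])) (P2 1 1 (P3 1 2 (F [(12,256),(25,21)]) (P4 1 4 (F [(25,192),(12,256),(22,137)]) (U0 1 2 (F [(25,256),(12,135)]) (P0 2 1 (P3 2 1 (U2 1 1 (F [(25,256),(12,179),(8,61)]) (U0 2 1 (F [(25,1048576),(12,1048547),(8,636743),(22,636752)]) B)) (F [(25,256),(8,147)])) (U2 1 1 (F [(25,226),(12,256)]) (P1 4 1 (U0 2 1 (F [(25,226),(12,256)])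 B) (F [(25,256),(12,223),(8,122)]))))))) (F [(12,256),(25,152),(8,242)]))) (P2 1 1 (P3 1 2 (F [(12,256),(25,21)]) (P4 1 4 (F [(12,256),(25,192),(22,137)]) (U0 1 1 (U1 2 1 (U2 1 1 (P0 2 1 (P3 2 1 (U1 1 2 (P5 1 1 (F [(22,176),(25,256)]) (F [(22,636785),(12,1048576),(8,636779),(25,1048576)])) (F [(25,1048576),(12,1048535),(22,636778),(8,636723)])) (F [(25,256),(22,155)])) (P1 4 1 (U1 1 2 (P5 1 1 (F [(25,1048576),(12,1048554),(22,636750),(8,636749)]) (F [(12,1048576),(22,636778),(25,1048572),(8,636780)])) (F [(12,219),(25,256),(22,96)])) (F [(25,256),(12,179),(8,61)]))) (F [(12,144),(25,256),(22,168)])) (F [(12,141),(25,256),(22,117)])) (U2 2 1 (U1 1 1 (P0 2 1 (F [(22,256),(8,52),(25,144)]) (P1 4 1 (U2 1 2 (P5 1 1 (F [(22,636757),(12,1048556),(25,1048576),(8,636751)]) (F [(22,636814),(12,1048576),(8,636825),(25,1048506)])) (F [(22,256),(12,13)])) (F [(22,636754),(12,1048555),(25,1048576),(8,636750)])))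 (F [(22,195),(12,145),(25,256)])) (F [(22,256),(12,241)]))))) (P1 2 1 (P3 1 2 (F [(12,256),(25,21)]) (U0 1 1 (U1 2 1 (U2 1 1 (P0 1 1 (P4 1 2 (F [(12,1048576),(25,1048525),(8,636796),(22,636718)]) (F [(8,636811),(22,636759),(25,1048559),(12,1048576)])) (F [(12,256),(8,147),(25,43)])) (P0 1 1 (F [(12,1048514),(22,636771),(25,1048576),(8,636707)]) (F [(12,256),(22,23)]))) (F [(12,165),(25,256),(22,111)])) (U2 2 1 (U1 1 1 (P0 1 1 (P4 1 2 (F [(22,636750),(12,1048576),(8,636784),(25,1048547)]) (F [(22,256),(8,57),(25,119)])) (F [(12,256),(8,129),(25,19)])) (F [(22,256),(12,209),(25,213)])) (F [(22,256),(12,241)])))) (U0 1 1 (U1 2 1 (U2 1 1 (P0 4 1 (P3 1 1 (F [(12,256),(8,152),(25,17)]) (F [(8,636779),(25,1048576),(12,1048521),(22,636712)])) (F [(12,256),(8,152),(25,17)])) (P0 4 1 (P3 1 1 (F [(12,256),(8,148)]) (F [(12,16383),(25,16384),(8,9949),(22,9949)])) (F [(12,256),(8,148)])))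 (F [(12,1048512),(25,1048576),(8,636696),(22,636732)])) (U2 2 1 (U1 1 1 (P0 4 1 (P3 1 1 (F [(12,256),(8,149),(25,4)]) (P4 1 2 (F [(8,636786),(22,636746),(12,1048576),(25,1048558)]) (F [(8,84),(22,256),(25,129)]))) (F [(8,149),(12,256),(25,4)])) (F [(12,1048576),(22,636784),(8,636765),(25,1048565)])) (F [(22,187),(12,256),(8,84)])))))) (P4 2 1 (U2 1 2 (F [(25,256),(8,77)]) (P2 1 1 (F [(25,256),(22,132),(12,86)]) (P0 2 1 (F [(25,256),(22,134),(12,80)]) (U0 1 1 (U1 2 1 (U2 1 1 (F [(8,85),(25,256),(12,43)]) (F [(25,1048576),(8,636753),(12,1048533),(22,636751)])) (F [(25,1048576),(12,1048471),(8,636701),(22,636722)])) (U2 2 1 (U1 1 1 (P1 4 1 (P5 1 2 (F [(8,636786),(25,1048566),(22,636749),(12,1048576)]) (F [(8,102),(22,141),(25,256)])) (F [(8,636787),(25,1048560),(12,1048576),(22,636744)])) (F [(8,636765),(22,636784),(12,1048576),(25,1048565)])) (F [(22,9950),(8,9949),(12,16384),(25,16383)]))))))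 (F [(8,256),(25,111),(22,30)]))) (F [(12,256),(25,63),(8,70)])) (P0 1 1 (P3 4 1 (F [(12,16384),(22,9950),(25,16384),(8,9948)]) (P4 2 1 (U0 1 2 (F [(12,214),(25,256),(22,98)]) (P2 1 1 (F [(12,117),(22,166),(25,256)]) (P0 2 1 (F [(22,163),(25,256),(12,88)]) (F [(12,1048568),(22,636779),(25,1048576),(8,636728)])))) (U0 1 2 (F [(25,256),(12,165),(22,111)]) (P0 1 2 (F [(22,155),(25,256)]) (P2 2 1 (F [(22,155),(25,256)]) (F [(22,636766),(25,1048576),(8,636796),(12,1048529)])))))) (F [(12,256),(22,23)]))) (F [(22,256),(12,205),(25,204)])))) (U0 1 1 (U1 2 1 (U2 1 1 (F [(8,199),(25,212),(12,256)]) (P0 1 1 (P5 2 1 (F [(25,1048576),(12,1048478),(8,636710),(22,636546)]) (F [(25,16384),(8,9950),(12,16382),(22,9948)])) (F [(12,256),(8,114)]))) (F [(12,16382),(25,16384),(8,9946),(22,9948)])) (U2 2 1 (U1 1 1 (P0 1 1 (P5 2 1 (P4 4 1 (U2 1 2 (F [(8,242),(12,256),(25,152)]) (P2 2 1 (P4 1 2 (F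 [(12,256),(22,165)]) (F [(22,636769),(12,1048576),(8,636827),(25,1048552)])) (F [(8,636832),(22,636766),(12,1048576),(25,1048553)]))) (F [(8,256),(25,103),(22,25)])) (F [(8,256),(25,42),(12,136)])) (F [(12,256),(8,155)])) (P0 1 1 (P5 2 1 (P4 4 1 (F [(12,1048571),(22,636812),(25,1048576),(8,636760)]) (U0 1 2 (F [(12,1048467),(25,1048576),(22,636763),(8,636765)]) (F [(22,636796),(8,636846),(12,1048518),(25,1048576)]))) (U0 1 2 (F [(22,636763),(8,636772),(12,1048470),(25,1048576)]) (F [(22,636784),(8,636903),(12,1048544),(25,1048576)]))) (F [(12,256),(22,7),(8,107)]))) (F [(22,256),(12,205),(25,204)])))) (P0 2 1 (U0 1 1 (F [(25,16384),(12,16382),(8,9951),(22,9944)]) (U2 2 1 (U1 1 1 (F [(8,256),(12,136),(25,42)]) (P4 1 1 (F [(12,256),(8,107),(22,7)]) (P0 1 2 (U0 1 2 (F [(8,636762),(25,1048576),(22,636748),(12,1048461)]) (F [(8,636877),(22,636776),(25,1048576),(12,1048529)])) (F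 [(8,216),(12,256),(25,106)])))) (P4 1 1 (F [(12,256),(22,93),(8,68)]) (P0 1 2 (F [(22,9953),(8,9948),(12,16383),(25,16384)]) (F [(8,231),(12,256),(25,18)]))))) (F [(12,256),(8,156)])))) (F [(8,256),(25,103),(22,25)])) (F [(8,256),(25,32),(12,203)])) (F [(8,256),(12,117)])

def c174 : Cell := ⟨⟨1609,0,2487⟩, ⟨804,1,1243⟩, ⟨1608,1,2487⟩, ⟨7926,4266,11555,9021⟩, ⟨15850,8532,23113,18041⟩, ⟨15850,8530,23115,18041⟩, ⟨7924,4266,11556,9022⟩⟩

def t174 : Tr :=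
  P1 2 1 (P5 1 2 (P2 1 4 (P4 1 2 (F [(12,67076556),(22,40766315),(25,67108864),(8,40708542)]) (F [(22,636900),(25,1048576),(8,636450),(12,1047870)])) (F [(22,636975),(8,636700),(25,1048576),(12,1048190)])) (F [(22,256),(8,84),(25,129)])) (P2 1 1 (P5 1 4 (P4 1 2 (U0 1 2 (F [(12,256),(25,147),(22,20)]) (P2 1 2 (P5 1 8 (F [(12,192),(25,256),(22,173)]) (U2 1 1 (F [(12,16382),(25,16384),(22,9950),(8,9945)]) (F [(12,209),(22,256),(25,213)]))) (P0 2 1 (U2 1 1 (F [(12,16382),(25,16384),(8,9945),(22,9949)]) (F [(12,16383),(22,9951),(8,9946),(25,16384)])) (F [(12,256),(8,156)])))) (U0 1 2 (F [(25,16384),(12,16378),(8,9946),(22,9947)]) (P0 1 1 (F [(8,9947),(22,9951),(25,16384),(12,16372)]) (P2 2 1 (U2 1 1 (F [(25,16384),(12,16380),(8,9948),(22,9949)]) (F [(22,9951),(8,9949),(12,16381),(25,16384)])) (F [(12,256),(8,212),(22,25)]))))) (F [(8,9956),(22,9949),(12,16384),(25,16383)])) (F [(8,256),(12,213),(25,209)]))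

def c175 : Cell := ⟨⟨805,0,1243⟩, ⟨804,1,1243⟩, ⟨1609,0,2487⟩, ⟨7926,4266,11555,9021⟩, ⟨15850,8532,23113,18041⟩, ⟨15850,8530,23115,18041⟩, ⟨7924,4266,11556,9022⟩⟩

def t175 : Tr :=
  P1 2 1 (F [(22,256),(12,92),(25,149)]) (P2 1 1 (P5 1 4 (P4 1 2 (F [(22,233),(12,256),(25,112)]) (F [(22,637290),(12,1048576),(8,636585),(25,1048506)])) (F [(22,9951),(8,9956),(12,16384),(25,16384)])) (F [(22,9951),(8,9958),(12,16383),(25,16384)]))

def c176 : Cell := ⟨⟨805,0,1243⟩, ⟨804,1,1243⟩, ⟨201,0,311⟩, ⟨7926,4266,11555,9021⟩, ⟨7926,4266,11557,9019⟩, ⟨15850,8530,23115,18041⟩, ⟨15850,8532,23113,18041⟩⟩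

def t176 : Tr :=
  F [(8,256),(22,31),(25,105)]

def c177 : Cell := ⟨⟨805,0,1243⟩, ⟨402,1,621⟩, ⟨804,1,1243⟩, ⟨7926,4266,11555,9021⟩, ⟨7926,4266,11557,9019⟩, ⟨3962,2132,5779,4511⟩, ⟨3962,2134,5777,4511⟩⟩

def t177 : Tr :=
  P5 1 1 (P4 1 2 (F [(12,1048576),(25,1047687),(22,636140),(8,636004)]) (P3 1 1 (U0 1 2 (F [(12,256),(25,241),(22,77)]) (P1 1 1 (F [(22,170),(12,164),(25,256)]) (P0 2 1 (F [(22,636767),(12,1048366),(8,636474),(25,1048576)]) (F [(12,16384),(22,9937),(8,9953),(25,16370)])))) (U0 1 2 (F [(25,16384),(22,9947),(12,16370),(8,9945)]) (F [(22,636725),(8,637162),(25,1048576),(12,1048354)])))) (P3 1 2 (F [(22,187),(12,256),(8,84)]) (P4 1 1 (F [(22,9958),(12,16381),(25,16384),(8,9941)]) (F [(22,9956),(8,9952),(12,16375),(25,16384)])))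

def c178 : Cell := ⟨⟨805,0,1243⟩, ⟨402,1,621⟩, ⟨201,0,311⟩, ⟨1982,1066,2889,2255⟩, ⟨7926,4266,11557,9019⟩, ⟨3962,2132,5779,4511⟩, ⟨7926,4266,11555,9021⟩⟩

def t178 : Tr :=
  F [(22,9993),(8,9993),(12,16384),(25,16328)]

def c179 : Cell := ⟨⟨403,0,621⟩, ⟨402,1,621⟩, ⟨805,0,1243⟩, ⟨1982,1066,2889,2255⟩, ⟨3962,2134,5779,4509⟩, ⟨3962,2132,5779,4511⟩, ⟨3962,2134,5777,4511⟩⟩

def t179 : Tr :=
  F [(22,256),(12,209),(25,213)]

theorem g14 : ∀ c ∈ [c168, c169, c170, c171, c172, c173, c174, c175, c176, c177, c178, c179], Done D c := by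
  intro c hc
  simp only [List.mem_cons, List.not_mem_nil, or_false] at hc
  rcases hc with rfl | rfl | rfl | rfl | rfl | rfl | rfl | rfl | rfl | rfl | rfl | rfl
  · exact done_of_chk (t := t168) (by decide +kernel)
  · exact done_of_chk (t := t169) (by decide +kernel)
  · exact done_of_chk (t := t170) (by decide +kernel)
  · exact done_of_chk (t := t171) (by decide +kernel)
  · exact done_of_chk (t := t172) (by decide +kernel)
  · exact done_of_chk (t := t173) (by decide +kernel)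
  · exact done_of_chk (t := t174) (by decide +kernel)
  · exact done_of_chk (t := t175) (by decide +kernel)
  · exact done_of_chk (t := t176) (by decide +kernel)
  · exact done_of_chk (t := t177) (by decide +kernel)
  · exact done_of_chk (t := t178) (by decide +kernel)
  · exact done_of_chk (t := t179) (by decide +kernel)

end Pool.Agent.W2helper59.NW.E1
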