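import Pool.Agent.W2helper59.NW.D_E1

set_option autoImplicit false
set_option maxRecDepth 1000000

namespace Pool.Agent.W2helper59.NW.E1

open Tr

def c180 : Cell := ⟨⟨403,0,621⟩, ⟨201,1,310⟩, ⟨402,1,621⟩, ⟨1982,1066,2889,2255⟩, ⟨3962,2134,5779,4509⟩, ⟨990,533,1445,1128⟩, ⟨3962,2134,5777,4511⟩⟩

def t180 : Tr :=
  F [(22,256),(12,209),(25,213)]

def c181 : Cell := ⟨⟨101,0,155⟩, ⟨201,1,310⟩, ⟨403,0,621⟩, ⟨1982,1066,2889,2255⟩, ⟨990,534,1445,1127⟩, ⟨990,533,1445,1128⟩, ⟨495,267,722,564⟩⟩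

def t181 : Tr :=
  F [(22,256),(12,209),(25,213)]

def c182 : Cell := ⟨⟨101,0,155⟩, ⟨100,1,155⟩, ⟨201,0,311⟩, ⟨248,133,361,282⟩, ⟨1982,1066,2889,2255⟩, ⟨990,533,1445,1128⟩, ⟨495,267,722,564⟩⟩

def t182 : Tr :=
  P2 2 1 (U0 1 1 (U1 2 1 (P4 1 4 (F [(12,256),(25,154),(22,37)]) (U2 1 1 (P1 1 1 (P3 1 2 (F [(12,181),(25,256),(22,147)]) (U1 1 2 (P4 2 1 (U2 1 2 (P5 1 1 (F [(12,256),(25,177),(8,105)]) (P3 1 2 (U1 1 4 (U2 1 4 (P0 8 1 (P5 2 1 (P2 1 4 (U1 1 8 (P4 1 2 (U2 1 8 (P5 1 2 (F [(12,256),(25,214),(8,115)]) (P3 1 2 (F [(12,16384),(25,16382),(22,9950),(8,9947)]) (F [(12,132),(25,256),(8,32)]))) (F [(12,256),(22,13)])) (U2 1 8 (P0 1 4 (P3 1 1 (P5 2 1 (F [(12,256),(8,147),(25,43)]) (P1 1 8 (F [(12,1048167),(22,636948),(25,1048576),(8,636603)]) (F [(12,256),(8,147),(25,43)]))) (F [(8,156),(12,256)])) (P5 2 1 (F [(12,256),(25,243),(8,110)]) (F [(12,1048576),(25,1048150),(22,636702),(8,636592)])))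 (F [(12,256),(22,15),(8,54)]))) (F [(12,256),(8,51)])) (U1 1 8 (U2 1 8 (P0 1 2 (P4 4 1 (F [(12,256),(22,152),(8,12)]) (P3 1 1 (F [(12,16384),(22,9956),(8,9941),(25,16367)]) (F [(8,156),(12,256)]))) (F [(12,256),(22,224),(25,98)])) (F [(12,256),(22,15),(8,54)])) (F [(12,256),(8,51)]))) (P3 1 4 (F [(22,256),(12,203),(25,206)]) (U1 1 8 (U2 1 8 (P0 1 2 (P4 1 1 (F [(22,9959),(12,16384),(8,9945),(25,16380)]) (F [(8,107),(22,51),(12,256)])) (F [(12,256),(22,241),(25,125)])) (F [(22,53),(12,256),(8,61)])) (F [(12,256),(22,53),(8,61)])))) (F [(12,251),(22,162),(25,256)])) (F [(12,256),(22,23)])) (F [(12,256),(22,13)])) (F [(12,256),(25,43),(8,147)]))) (F [(12,256),(22,13)])) (F [(12,256),(22,71),(8,88)])) (F [(12,256),(8,51)]))) (F [(12,256),(25,43),(8,147)])) (F [(12,256),(22,15),(8,53)]))) (F [(12,256)])) (U2 2 1 (P4 1 4 (F [(12,256),(22,37),(25,154)]) (U1 1 1 (P1 1 1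 (P3 1 2 (F [(22,147),(12,181),(25,256)]) (U2 1 2 (P4 2 1 (U1 1 2 (P5 1 1 (F [(12,256),(25,63),(8,70)]) (P3 1 2 (U2 1 4 (U1 1 4 (P0 8 1 (P5 2 1 (P2 1 4 (U2 1 8 (P4 1 2 (U1 1 8 (P5 1 2 (F [(12,256),(25,63),(8,70)]) (P3 1 2 (F [(12,16384),(22,9951),(25,16382),(8,9947)]) (F [(12,16384),(22,9945),(25,16374),(8,9947)]))) (F [(12,256),(22,23)])) (U1 1 8 (P0 1 4 (P3 1 1 (P5 2 1 (F [(8,155),(12,256)]) (F [(22,9955),(12,16384),(8,9951),(25,16380)])) (F [(8,170),(22,48),(12,256)])) (P5 2 1 (F [(12,256),(8,155)]) (F [(12,16384),(22,9954),(8,9952),(25,16373)]))) (F [(12,256),(22,53),(8,61)]))) (F [(22,114),(12,256)])) (F [(22,253),(12,256),(8,96)])) (F [(22,256),(12,2),(8,45)])) (F [(12,251),(22,162),(25,256)])) (F [(22,114),(12,256)])) (F [(22,114),(12,256)])) (F [(12,256),(8,129),(25,19)]))) (F [(12,256),(22,21),(8,12)])) (F [(22,146),(12,256),(8,200)])) (F [(22,114),(12,256)])))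 (F [(12,256),(8,129),(25,19)])) (F [(12,256),(22,114)]))) (F [(22,113),(12,256)]))) (F [(12,256),(22,93),(8,68)])

def c183 : Cell := ⟨⟨101,0,155⟩, ⟨50,1,77⟩, ⟨100,1,155⟩, ⟨248,133,361,282⟩, ⟨990,534,1445,1127⟩, ⟨494,267,723,564⟩, ⟨247,134,361,282⟩⟩

def t183 : Tr :=
  F [(25,193),(12,256),(22,139)]

def c184 : Cell := ⟨⟨51,0,77⟩, ⟨50,1,77⟩, ⟨101,0,155⟩, ⟨248,133,361,282⟩, ⟨494,268,723,563⟩, ⟨494,267,723,564⟩, ⟨247,134,361,282⟩⟩

def t184 : Tr :=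
  F [(25,213),(22,256),(12,208)]

def c185 : Cell := ⟨⟨51,0,77⟩, ⟨50,1,77⟩, ⟨25,0,39⟩, ⟨248,133,361,282⟩, ⟨248,134,361,281⟩, ⟨494,268,723,563⟩, ⟨247,134,361,282⟩⟩

def t185 : Tr :=
  U2 1 2 (P1 2 1 (F [(25,256),(22,155)]) (U1 1 2 (P2 1 1 (F [(25,256),(12,110),(22,124)]) (P0 1 1 (F [(25,256),(12,11),(22,152)]) (U2 1 4 (F [(25,214),(8,256),(12,223)]) (P1 4 1 (P4 1 1 (U0 1 1 (U1 2 1 (P1 1 2 (F [(25,256)]) (P2 1 4 (F [(25,256),(12,79)]) (U2 1 1 (P0 1 2 (F [(25,256),(8,4)]) (U1 1 2 (P1 2 1 (F [(25,256),(22,39)]) (P2 2 1 (F [(25,256),(8,32),(12,132)]) (F [(8,9968),(25,16384),(12,16381),(22,9952)]))) (P1 2 1 (F [(25,256),(22,39)]) (F [(25,16384),(12,16371),(8,9932),(22,9938)])))) (P0 1 2 (F [(25,256),(12,79)]) (U0 2 1 (P1 2 1 (F [(25,256),(22,39)]) (F [(25,16384),(12,16371),(8,9925),(22,9945)])) (P1 2 1 (F [(25,256),(12,58),(22,42)]) (F [(12,16370),(25,16384),(22,9945),(8,9925)])))))))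 (F [(25,148),(12,256),(22,21)])) (U2 2 1 (P1 1 2 (F [(25,256),(8,1),(22,40)]) (P2 1 4 (U1 1 1 (P4 1 2 (F [(25,256),(12,165),(22,111)]) (P0 1 4 (F [(25,256),(8,197)]) (F [(25,16384),(12,16319),(8,9865),(22,9910)]))) (P4 1 2 (F [(25,256),(12,181),(22,147)]) (P0 1 4 (F [(25,256),(8,147)]) (F [(25,16384),(12,16346),(22,9935),(8,9900)])))) (U1 1 1 (P0 1 2 (P4 4 1 (U2 1 2 (F [(25,256),(8,110),(12,167)]) (P3 1 2 (P2 1 1 (P5 1 1 (P4 1 4 (U0 1 1 (F [(25,256),(12,215),(8,83)]) (U2 2 1 (U1 1 1 (P1 1 1 (F [(25,256),(22,126),(12,107)]) (F [(12,16384),(25,16382),(22,9935),(8,9942)])) (F [(12,256),(22,91),(25,113)])) (F [(22,204),(12,256),(25,64)]))) (U0 1 1 (F [(25,256),(12,215),(8,83)]) (F [(22,9941),(25,16384),(12,16349),(8,9938)]))) (P1 1 2 (F [(25,256),(22,155)]) (U0 1 1 (F [(25,256),(8,57),(12,173)]) (F [(22,9944),(25,16384),(8,9939),(12,16340)])))) (F [(25,16384),(8,9938),(22,9944),(12,16338)]))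 (P2 1 1 (P4 1 2 (P5 1 4 (F [(12,16384),(25,16374),(22,9930),(8,9941)]) (F [(25,16384),(12,16368),(8,9942),(22,9938)])) (F [(25,16384),(8,9942),(12,16366),(22,9939)])) (F [(8,9944),(25,16384),(12,16356),(22,9942)])))) (F [(8,256),(25,111),(22,30)])) (U2 1 2 (P1 2 1 (U1 1 2 (P4 1 1 (P5 1 1 (P2 1 2 (U2 1 4 (F [(25,256),(8,41)]) (P3 1 1 (F [(25,256),(12,86),(22,132)]) (P4 1 2 (P2 1 4 (F [(25,256),(12,144)]) (F [(25,16382),(8,9951),(12,16384),(22,9942)])) (F [(25,49),(8,256),(12,86)])))) (F [(25,256),(8,144),(22,134)])) (F [(25,256),(8,207)])) (F [(8,256),(25,62)])) (P4 1 1 (P5 1 1 (P2 1 2 (U0 1 2 (F [(25,140),(12,256)]) (P3 1 1 (F [(25,256),(12,118),(22,166)]) (F [(25,1048379),(12,1048576),(8,636341),(22,636254)]))) (F [(25,16384),(8,9934),(12,16332),(22,9934)])) (F [(25,256),(8,138),(22,9)])) (F [(8,138),(25,256),(22,9)]))) (P2 2 1 (U1 1 2 (P4 1 1 (P5 1 2 (U2 1 4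 (F [(25,213),(8,256),(12,220)]) (P2 1 2 (P4 1 2 (P5 1 4 (F [(12,256),(25,114)]) (F [(12,16384),(25,16380),(8,9951),(22,9941)])) (F [(25,16368),(8,9969),(12,16384),(22,9934)])) (F [(8,9954),(12,16384),(25,16376),(22,9941)]))) (F [(8,256),(25,103),(22,25)])) (F [(8,256),(12,117)])) (P4 1 1 (P5 1 2 (F [(12,1048576),(25,1047438),(8,636132),(22,635971)]) (P3 1 1 (U0 1 2 (F [(25,16384),(8,9947),(12,16371),(22,9946)]) (F [(8,9958),(22,9948),(25,16384),(12,16381)])) (F [(25,16377),(12,16384),(8,9954),(22,9941)]))) (F [(8,9976),(25,16384),(12,16382),(22,9946)]))) (F [(8,9969),(22,9954),(25,16384),(12,16382)]))) (P1 2 1 (P4 1 1 (P5 1 1 (P2 1 2 (U0 1 1 (U1 2 1 (U2 1 1 (P3 1 1 (F [(25,256),(12,120),(22,168)]) (F [(12,16384),(25,16378),(22,9941),(8,9943)])) (F [(12,256),(25,154),(22,37)])) (F [(12,256),(25,148),(22,20)])) (U2 2 1 (U1 1 1 (P3 1 1 (F [(22,168),(12,120),(25,256)])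 (F [(12,16384),(22,9942),(25,16379),(8,9944)])) (F [(12,256),(22,91),(25,113)])) (F [(22,239),(12,256)]))) (P0 1 1 (U0 1 1 (F [(25,1048576),(12,1046870),(22,635914),(8,635880)]) (F [(22,9952),(12,16342),(8,9943),(25,16384)])) (F [(22,163),(25,256),(12,12)]))) (P3 1 2 (F [(22,196),(25,256)]) (P0 1 1 (U0 1 1 (F [(25,256),(22,155),(8,155),(12,255)]) (F [(22,9944),(8,9939),(25,16384),(12,16340)])) (F [(22,155),(25,256)])))) (F [(22,9944),(8,9938),(25,16384),(12,16338)])) (P2 2 1 (P4 1 1 (P5 1 2 (F [(12,256),(22,72),(8,88)]) (F [(22,9953),(12,16380),(8,9950),(25,16384)])) (F [(22,9950),(8,9964),(12,16384),(25,16383)])) (F [(22,9970),(8,9963),(12,16384),(25,16379)]))))) (P0 1 2 (P4 4 1 (U0 1 2 (F [(25,16384),(12,16329),(22,9920),(8,9894)]) (P3 1 2 (P2 1 1 (F [(25,256),(22,178),(12,251)]) (F [(25,16384),(22,9947),(8,9923),(12,16341)])) (P2 1 1 (F [(12,16370),(25,16384),(22,9943),(8,9899)])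 (F [(25,16384),(12,16359),(8,9935),(22,9942)])))) (F [(25,16384),(8,9916),(12,16307),(22,9940)])) (U0 1 2 (P1 2 1 (F [(25,16384),(12,16299),(22,9920),(8,9875)]) (F [(12,16370),(22,9945),(25,16384),(8,9925)])) (P1 2 1 (P4 1 1 (F [(22,176),(12,231),(25,256)]) (F [(22,9947),(25,16384),(8,9923),(12,16341)])) (F [(22,9949),(12,16384),(8,9934),(25,16369)]))))))) (P1 1 2 (F [(25,256),(22,152),(12,11)]) (P2 1 4 (P4 1 2 (F [(12,181),(22,147),(25,256)]) (P0 1 4 (F [(22,9926),(25,16384),(12,16310),(8,9897)]) (F [(22,9939),(12,16350),(25,16384),(8,9907)]))) (P0 1 2 (P4 4 1 (F [(22,9990),(12,16384),(25,16382),(8,9909)]) (F [(22,9955),(25,16384),(12,16330),(8,9914)])) (F [(22,189),(12,256),(25,39)])))))) (P3 2 1 (U0 1 1 (U1 2 1 (P1 1 2 (F [(25,256)]) (U2 1 1 (F [(25,103),(8,256),(22,25)]) (P0 1 1 (F [(25,256)]) (P2 1 2 (F [(25,256),(12,79)]) (U0 2 1 (P1 2 1 (F [(25,256),(22,39)])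 (F [(25,16384),(8,9946),(12,16353),(22,9950)])) (F [(25,1048576),(8,634416),(12,1042819),(22,637997)])))))) (F [(25,256),(12,218),(22,96)])) (U2 2 1 (P1 1 2 (F [(25,256),(8,67),(22,84)]) (U1 1 1 (F [(8,256),(25,169),(22,195)]) (P0 1 1 (F [(25,256),(8,88),(22,63)]) (P2 1 2 (F [(25,256),(8,155),(22,155),(12,254)]) (F [(22,156),(8,155),(25,256),(12,254)]))))) (P1 1 2 (F [(25,256),(22,134),(8,143)]) (P0 1 1 (F [(22,134),(8,143),(25,256)]) (P2 1 2 (F [(22,9953),(8,9910),(25,16384),(12,16264)]) (F [(22,157),(8,155),(12,256),(25,256)])))))) (P0 1 4 (F [(8,256),(25,62)]) (U0 1 1 (F [(25,16384),(8,9976),(12,16374),(22,9919)]) (F [(8,9968),(22,9957),(25,16384),(12,16351)]))))) (P0 2 1 (P4 1 1 (P2 1 2 (U0 1 1 (F [(25,70),(12,256),(8,143)]) (U2 2 1 (F [(12,256),(25,64),(8,163)]) (P5 1 4 (P4 1 2 (F [(12,256),(25,33)]) (P3 4 1 (F [(12,256),(25,19),(8,129)]) (F [(12,16384),(22,9902),(25,16350),(8,9941)])))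 (F [(22,632544),(12,1048576),(8,636998),(25,1042582)])))) (F [(8,9979),(12,16384),(25,16138),(22,9780)])) (F [(8,9998),(25,16106),(22,9757),(12,16384)])) (F [(12,256),(8,129),(25,19)])))))) (P2 1 1 (F [(25,256),(12,97),(22,162)]) (P0 1 1 (F [(25,256),(12,11),(22,156)]) (U0 1 2 (F [(12,256),(25,179),(8,103)]) (P1 4 1 (P4 1 1 (F [(25,256),(12,126),(22,166)]) (P3 2 1 (F [(25,256),(12,126),(22,166)]) (P0 1 4 (F [(25,16384),(8,9359),(12,15283),(22,9951)]) (U2 1 1 (F [(25,256),(12,255),(8,154),(22,155)]) (F [(22,9959),(12,16314),(25,16384),(8,9885)]))))) (P0 2 1 (P4 1 1 (F [(12,16384),(25,16209),(22,9837),(8,9880)]) (F [(8,9979),(12,16384),(25,16140),(22,9781)])) (F [(12,256),(22,15),(8,54)])))))))) (P1 2 1 (F [(25,256),(22,155)]) (P2 1 1 (F [(25,256),(22,206),(12,81)]) (P0 1 1 (F [(22,163),(25,256),(12,12)]) (U0 1 1 (U1 2 1 (P1 4 1 (F [(22,159),(12,232),(25,256),(8,139)])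 (U2 1 1 (P0 2 1 (P4 1 1 (F [(22,165),(12,256)]) (F [(22,10129),(12,16173),(8,9757),(25,16384)])) (F [(22,167),(12,256)])) (F [(22,156),(12,256),(8,154),(25,256)]))) (F [(12,255),(22,155),(25,256),(8,153)])) (F [(22,256),(12,29)])))))

def c186 : Cell := ⟨⟨201,0,311⟩, ⟨100,1,155⟩, ⟨25,0,39⟩, ⟨495,266,723,564⟩, ⟨990,534,1445,1127⟩, ⟨990,533,1445,1128⟩, ⟨248,133,361,282⟩⟩

def t186 : Tr :=
  P4 1 4 (U1 1 4 (P2 1 2 (P5 1 4 (F [(8,256),(12,165)]) (U2 1 8 (F [(8,256),(25,210),(12,225)]) (P1 1 1 (P5 2 1 (F [(8,156),(12,256)]) (P3 1 2 (U0 1 1 (F [(25,8090),(12,16384),(8,8438)]) (U2 2 1 (U1 1 1 (P1 1 2 (F [(25,16380),(12,16384),(8,9940),(22,9939)]) (F [(25,16384),(8,9955),(12,16373),(22,9961)])) (P1 1 2 (F [(25,16377),(12,16384),(22,9927),(8,9929)]) (P0 2 1 (F [(25,16384),(12,16378),(8,9941),(22,9953)]) (F [(12,16383),(22,9967),(25,16384),(8,9938)])))) (P1 1 2 (P5 4 1 (P0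 1 1 (U0 2 1 (F [(12,16384),(25,16371),(22,9916),(8,9926)]) (F [(22,637723),(12,1047640),(25,1048576),(8,636126)])) (F [(22,256),(12,202),(25,207)])) (F [(25,256),(22,156)])) (P0 2 1 (P3 1 1 (F [(22,256),(12,202),(25,207)]) (U0 2 1 (F [(12,16379),(25,16384),(22,9954),(8,9942)]) (F [(22,9965),(12,16370),(8,9941),(25,16384)]))) (F [(22,165),(12,256)]))))) (P0 1 1 (U0 1 1 (F [(25,150),(8,165),(12,256)]) (U2 2 1 (F [(8,225),(25,122),(12,256)]) (P4 2 1 (U0 2 1 (F [(8,165),(12,256),(25,150)]) (U2 4 1 (P4 1 2 (U1 1 1 (F [(8,256),(12,175),(25,36)]) (P1 1 1 (P5 1 1 (F [(22,18),(12,256),(8,161)]) (P3 1 4 (F [(8,9942),(22,9962),(12,16364),(25,16384)]) (F [(8,161),(22,18),(12,256)]))) (F [(22,256),(8,132),(12,44)]))) (F [(8,256),(12,243),(25,189)])) (P4 1 2 (P1 1 1 (P5 1 1 (F [(22,256),(12,29)]) (P3 1 4 (F [(22,9965),(8,9939),(12,16361),(25,16384)]) (F [(22,49),(12,256),(8,159)])))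 (F [(22,256),(12,44),(8,132)])) (P1 1 1 (P3 1 2 (P5 4 1 (F [(8,186),(12,256)]) (F [(22,9961),(8,9946),(12,16362),(25,16384)])) (F [(8,256),(12,125)])) (F [(8,256),(12,125)]))))) (F [(8,256),(22,116),(25,253)])))) (U0 1 1 (F [(25,70),(12,256),(8,142)]) (U2 2 1 (U1 1 1 (F [(8,256),(12,165)]) (P1 2 1 (F [(8,156),(25,256),(12,256),(22,155)]) (F [(12,256),(8,155)]))) (P1 2 1 (U0 2 1 (U1 2 1 (U2 1 1 (F [(8,9961),(22,9952),(12,16384),(25,16381)]) (F [(12,16382),(22,9954),(8,9955),(25,16384)])) (F [(12,16379),(25,16384),(8,9948),(22,9954)])) (U2 4 1 (U1 1 1 (F [(8,256),(22,14),(12,123)]) (P3 1 1 (F [(22,9965),(12,16371),(8,9942),(25,16384)]) (F [(22,256),(8,89)]))) (P3 1 1 (F [(22,9983),(12,16340),(8,9916),(25,16384)]) (F [(22,256),(8,89)])))) (F [(22,93),(12,256),(8,68)]))))))) (F [(8,156),(12,256)])))) (P0 4 1 (U2 1 8 (F [(8,256),(25,213),(12,219)]) (P5 1 1 (P4 1 2 (U0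 1 1 (U1 2 1 (F [(8,156),(22,156),(12,256),(25,256)]) (F [(8,9949),(12,16374),(22,9970),(25,16384)])) (F [(22,256),(8,79)])) (P0 1 2 (F [(8,192),(25,9),(12,256)]) (F [(8,637808),(22,638169),(25,1048576),(12,1047235)]))) (P3 1 2 (U0 1 1 (F [(25,16384),(12,16337),(8,9917),(22,9942)]) (U2 2 1 (P1 1 4 (U1 1 1 (F [(25,16384),(8,9920),(12,16297),(22,9972)]) (P5 2 1 (P4 1 2 (F [(22,9968),(25,16384),(12,16355),(8,9928)]) (F [(25,16384),(12,16272),(22,9965),(8,9884)])) (F [(25,256),(22,111)]))) (U1 1 1 (F [(8,9966),(25,16384),(22,9969),(12,16336)]) (P0 1 1 (P4 1 2 (F [(22,9970),(25,16384),(12,16343),(8,9928)]) (F [(25,16384),(8,9884),(22,9965),(12,16272)])) (F [(22,256),(25,144),(8,52)])))) (F [(22,191),(25,256),(12,55)]))) (P0 1 2 (P4 1 1 (U0 1 1 (F [(25,64),(8,164),(12,256)]) (U2 2 1 (U1 1 1 (F [(8,256),(12,165)]) (P5 1 2 (F [(8,163),(12,256),(25,13)]) (F [(8,156),(25,256),(12,256),(22,155)])))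 (P5 1 2 (F [(22,9925),(8,9963),(12,16384),(25,16320)]) (U0 2 1 (U1 2 1 (F [(8,9940),(22,9970),(25,16384),(12,16325)]) (F [(8,9947),(25,16384),(12,16369),(22,9956)])) (F [(22,236),(8,118),(25,256)]))))) (F [(8,237),(25,256),(22,121)])) (U0 1 1 (F [(25,16384),(8,9939),(12,16352),(22,9955)]) (U2 2 1 (U1 1 1 (F [(8,256),(22,14),(12,123)]) (P1 1 1 (P5 1 2 (F [(8,9951),(22,9964),(25,16384),(12,16367)]) (F [(8,9955),(25,16384),(22,9948),(12,16362)])) (F [(22,256),(8,84),(25,129)]))) (P1 1 1 (P5 1 2 (F [(22,9969),(8,9950),(12,16369),(25,16384)]) (F [(22,9965),(8,9621),(25,16384),(12,15840)])) (F [(22,256),(8,84),(25,129)])))))))) (U2 1 8 (U1 1 8 (F [(25,248),(8,256),(22,91)]) (P5 1 1 (P2 2 1 (U0 1 2 (F [(8,9961),(12,16357),(25,16384),(22,9962)]) (F [(8,156),(22,156),(12,256),(25,256)])) (F [(22,9957),(25,16384),(8,9908),(12,16276)])) (F [(25,256),(22,35),(8,113)]))) (P5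 1 1 (P2 2 1 (U0 1 1 (U1 2 1 (F [(22,156),(8,156),(12,256),(25,256)]) (F [(22,9973),(12,16374),(8,9943),(25,16384)])) (F [(22,256),(8,79)])) (F [(22,9977),(12,16319),(8,9915),(25,16384)])) (P1 2 1 (U0 1 1 (F [(25,1048576),(12,1044603),(22,636557),(8,634232)]) (F [(22,9975),(25,16384),(12,16285),(8,9896)])) (F [(22,9975),(25,16384),(12,16302),(8,9907)])))))) (P2 1 2 (P5 1 4 (F [(12,256),(8,156)]) (U0 1 2 (F [(12,256),(25,105),(8,13)]) (P1 1 1 (P5 2 1 (F [(12,256),(8,119),(22,5)]) (P3 1 2 (F [(12,164),(25,256),(22,170)]) (P0 1 1 (U2 1 1 (F [(25,126),(12,256),(8,132)]) (U0 2 1 (F [(12,256),(25,63),(8,70)]) (P4 2 1 (U2 2 1 (F [(12,256),(25,126),(8,132)]) (U0 4 1 (F [(12,16379),(22,9957),(8,9945),(25,16384)]) (P4 1 2 (F [(22,638406),(12,1047180),(8,635480),(25,1048576)]) (P1 1 1 (P3 1 2 (F [(22,9965),(12,16379),(8,9935),(25,16384)]) (F [(22,44),(12,256),(8,254)])) (F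 [(22,82),(8,256),(12,118)]))))) (P3 2 1 (U2 2 1 (F [(8,132),(12,256),(25,126)]) (U0 4 1 (F [(22,9955),(12,16382),(8,9947),(25,16384)]) (P1 1 1 (P3 1 2 (P5 2 1 (F [(22,98),(8,256),(12,61)]) (F [(22,9962),(8,9944),(12,16358),(25,16384)])) (F [(8,256),(22,114)])) (F [(22,114),(8,256)])))) (F [(8,156),(12,256)]))))) (U2 1 1 (F [(12,256),(25,87),(8,77)]) (U0 2 1 (F [(12,256),(25,73),(8,57)]) (P1 2 1 (U2 2 1 (F [(12,16384),(22,9944),(25,16375),(8,9945)]) (F [(22,9974),(12,16355),(8,9932),(25,16384)])) (F [(22,15),(12,256),(8,54)]))))))) (F [(12,256),(22,5),(8,119)])))) (P0 4 1 (U0 1 2 (F [(12,256),(25,147),(22,20)]) (P5 1 1 (P4 1 2 (U2 1 1 (F [(12,16379),(22,9972),(8,9939),(25,16384)]) (F [(22,256),(12,145),(8,74)])) (P0 1 2 (F [(12,256),(8,156),(22,154),(25,253)]) (U2 1 1 (F [(12,16370),(25,16384),(22,9971),(8,9943)]) (F [(22,10027),(12,16384),(8,10001),(25,16337)]))))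 (P3 1 2 (F [(12,125),(25,256),(22,167)]) (P0 1 2 (P4 1 1 (U2 1 1 (F [(25,123),(12,256),(8,133)]) (U0 2 1 (F [(12,16355),(22,9958),(25,16384),(8,9923)]) (P5 1 2 (F [(22,9972),(12,16381),(8,9948),(25,16384)]) (U2 2 1 (U1 1 2 (F [(12,16368),(8,9946),(25,16384),(22,9954)]) (P1 1 2 (F [(22,9956),(12,16381),(25,16384),(8,9946)]) (F [(22,9968),(12,16372),(8,9947),(25,16384)]))) (F [(22,9974),(8,9933),(12,16351),(25,16384)]))))) (U2 1 1 (F [(25,256),(12,131),(8,32)]) (U0 2 1 (F [(12,16384),(25,16366),(8,9939),(22,9941)]) (P3 2 1 (U2 2 1 (U1 1 2 (F [(8,256),(25,209),(12,212)]) (P1 1 2 (F [(12,16382),(8,9947),(25,16384),(22,9953)]) (F [(8,156),(22,156),(12,256),(25,256)]))) (U0 4 1 (P1 1 2 (F [(22,9955),(8,9947),(12,16382),(25,16384)]) (F [(22,146),(8,201),(12,256)])) (F [(22,217),(8,138),(25,256)]))) (F [(8,256),(22,14),(12,123)]))))) (U2 1 1 (F [(25,16384),(12,16343),(22,9955),(8,9921)])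 (F [(22,9977),(12,16234),(25,16384),(8,9850)])))))) (F [(22,142),(12,256),(25,195)])))) (U1 1 4 (F [(25,256),(8,102),(22,140)]) (P0 2 1 (U0 1 2 (F [(25,183),(12,256)]) (P4 2 1 (P2 1 1 (P5 2 1 (U2 1 1 (F [(25,256),(8,83),(12,214)]) (U0 2 1 (F [(25,256),(8,110),(12,167)]) (P4 1 2 (P2 1 2 (P5 1 2 (F [(8,256),(12,117)]) (P3 1 2 (U2 2 1 (F [(25,256),(8,110),(12,167)]) (U0 4 1 (F [(8,9939),(25,16384),(22,9952),(12,16363)]) (F [(8,113),(22,206),(25,256)]))) (F [(8,256),(25,209),(12,212)]))) (F [(25,256),(22,156)])) (F [(25,256),(22,156)])))) (F [(25,256),(22,156)])) (F [(25,256),(22,155)])) (F [(25,256),(22,155)]))) (P2 4 1 (U0 1 2 (F [(25,183),(12,256),(22,42)]) (P4 1 1 (P5 2 1 (P2 1 2 (U2 1 1 (F [(25,256),(12,79)]) (U0 2 1 (F [(25,16384),(12,16335),(8,9927),(22,9946)]) (P4 1 2 (P5 1 2 (F [(8,256),(12,58)]) (U2 2 1 (F [(8,9912),(25,16384),(12,16296),(22,9943)]) (U0 4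 1 (P1 1 2 (F [(8,9938),(22,9952),(25,16384),(12,16359)]) (F [(8,256),(22,179),(12,195)])) (F [(8,113),(22,206),(25,256)])))) (F [(8,28),(25,256),(22,168)])))) (F [(25,256),(22,156)])) (F [(25,256),(22,156)])) (F [(25,256),(22,156)]))) (F [(25,256),(22,156)]))))

def c187 : Cell := ⟨⟨101,0,155⟩, ⟨100,1,155⟩, ⟨201,0,311⟩, ⟨495,266,723,564⟩, ⟨990,534,1445,1127⟩, ⟨990,533,1445,1128⟩, ⟨248,133,361,282⟩⟩

def t187 : Tr :=
  P4 1 4 (F [(22,93),(12,256),(8,68)]) (P0 2 1 (U0 1 1 (U1 2 1 (P4 2 1 (U2 1 1 (P2 1 1 (P5 2 1 (U1 1 2 (P4 1 2 (U2 1 2 (P2 1 2 (P5 1 2 (F [(8,256),(12,117)]) (F [(8,9924),(22,9976),(25,16384),(12,16328)])) (F [(22,163),(25,256),(12,12)])) (P2 1 2 (P5 1 2 (F [(22,98),(8,256),(12,61)]) (F [(22,9964),(12,16337),(8,9923),(25,16384)])) (F [(22,157),(25,256),(12,11)]))) (F [(25,256),(22,179),(12,36)])) (P4 1 2 (P2 1 2 (F [(25,16384),(12,16356),(22,9956),(8,9932)])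 (F [(25,256),(22,153),(12,11)])) (F [(25,256),(22,137),(12,68)]))) (F [(25,256),(22,231),(12,117)])) (F [(25,256),(22,155)])) (P2 1 1 (P5 2 1 (U0 2 1 (P4 1 2 (F [(12,16375),(25,16384),(22,9958),(8,9905)]) (F [(25,256),(12,50),(22,160)])) (F [(22,256),(12,200),(25,208)])) (F [(25,256),(22,170),(12,163)])) (F [(25,256),(22,156),(12,11)]))) (F [(25,256),(22,155)])) (F [(25,162),(12,256),(22,29)])) (F [(22,256),(25,120),(8,57)])) (P2 4 1 (U0 1 1 (U1 2 1 (U2 1 1 (P4 1 1 (P5 2 1 (P2 1 2 (U1 1 2 (U2 1 2 (P4 1 2 (P5 1 2 (F [(8,256),(12,58)]) (F [(22,9994),(8,9937),(12,16378),(25,16384)])) (F [(22,204),(25,256),(12,17)])) (F [(22,9972),(12,16358),(8,9936),(25,16384)])) (P4 1 2 (F [(22,9954),(12,16372),(25,16384),(8,9936)]) (F [(22,191),(25,256),(12,54)]))) (F [(22,256),(12,205),(25,204)])) (F [(22,256),(12,205),(25,204)])) (F [(22,204),(25,256),(12,17)])) (F [(22,92),(12,256),(25,113)]))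 (F [(12,256),(25,155),(22,37)])) (F [(22,256),(8,45)])) (F [(22,256),(12,185),(25,226)])))

def c188 : Cell := ⟨⟨101,0,155⟩, ⟨100,1,155⟩, ⟨25,0,39⟩, ⟨495,266,723,564⟩, ⟨990,534,1445,1127⟩, ⟨494,267,723,564⟩, ⟨990,533,1445,1128⟩⟩

def t188 : Tr :=
  F [(25,256),(22,155)]

def c189 : Cell := ⟨⟨101,0,155⟩, ⟨100,1,155⟩, ⟨25,0,39⟩, ⟨247,133,362,282⟩, ⟨990,534,1445,1127⟩, ⟨494,267,723,564⟩, ⟨495,266,723,564⟩⟩

def t189 : Tr :=
  F [(25,256),(22,157)]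

def c190 : Cell := ⟨⟨101,0,155⟩, ⟨50,1,77⟩, ⟨100,1,155⟩, ⟨247,133,362,282⟩, ⟨990,534,1445,1127⟩, ⟨494,267,723,564⟩, ⟨248,133,361,282⟩⟩

def t190 : Tr :=
  F [(22,139),(25,193),(12,256)]

def c191 : Cell := ⟨⟨101,0,155⟩, ⟨50,1,77⟩, ⟨25,0,39⟩, ⟨247,133,362,282⟩, ⟨494,268,723,563⟩, ⟨494,267,723,564⟩, ⟨990,534,1445,1127⟩⟩

def t191 : Tr :=
  F [(25,256),(22,155)]

theorem g15 : ∀ c ∈ [c180, c181, c182, c183, c184, c185, c186, c187, c188, c189, c190, c191], Done D c := by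
  intro c hc
  simp only [List.mem_cons, List.not_mem_nil, or_false] at hc
  rcases hc with rfl | rfl | rfl | rfl | rfl | rfl | rfl | rfl | rfl | rfl | rfl | rfl
  · exact done_of_chk (t := t180) (by decide +kernel)
  · exact done_of_chk (t := t181) (by decide +kernel)
  · exact done_of_chk (t := t182) (by decide +kernel)
  · exact done_of_chk (t := t183) (by decide +kernel)
  · exact done_of_chk (t := t184) (by decide +kernel)
  · exact done_of_chk (t := t185) (by decide +kernel)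
  · exact done_of_chk (t := t186) (by decide +kernel)
  · exact done_of_chk (t := t187) (by decide +kernel)
  · exact done_of_chk (t := t188) (by decide +kernel)
  · exact done_of_chk (t := t189) (by decide +kernel)
  · exact done_of_chk (t := t190) (by decide +kernel)
  · exact done_of_chk (t := t191) (by decide +kernel)

end Pool.Agent.W2helper59.NW.E1
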