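import Pool.Agent.W2helper59.NW.D_E1

set_option autoImplicit false
set_option maxRecDepth 1000000

namespace Pool.Agent.W2helper59.NW.E1

open Tr

def c192 : Cell := ⟨⟨51,0,77⟩, ⟨50,1,77⟩, ⟨101,0,155⟩, ⟨247,133,362,282⟩, ⟨494,268,723,563⟩, ⟨494,267,723,564⟩, ⟨248,133,361,282⟩⟩

def t192 : Tr :=
  F [(22,256),(25,209),(12,196)]

def c193 : Cell := ⟨⟨51,0,77⟩, ⟨50,1,77⟩, ⟨25,0,39⟩, ⟨247,133,362,282⟩, ⟨494,268,723,563⟩, ⟨123,67,181,141⟩, ⟨494,267,723,564⟩⟩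

def t193 : Tr :=
  F [(25,256),(22,154)]

def c194 : Cell := ⟨⟨51,0,77⟩, ⟨50,1,77⟩, ⟨25,0,39⟩, ⟨247,133,362,282⟩, ⟨248,134,361,281⟩, ⟨494,268,723,563⟩, ⟨248,133,361,282⟩⟩

def t194 : Tr :=
  P0 1 1 (U2 1 2 (P5 1 2 (U1 1 2 (P4 1 1 (P2 1 2 (U2 1 4 (F [(8,256),(25,212),(12,215)]) (P5 1 4 (P4 1 2 (P2 1 4 (F [(8,156),(12,256)]) (F [(8,9991),(22,9970),(12,16354),(25,16384)])) (F [(8,9992),(22,9963),(25,16384),(12,16352)])) (P3 2 1 (U0 1 1 (U1 2 1 (P5 2 1 (U2 1 1 (F [(25,103),(8,256),(22,25)]) (P4 1 1 (U0 2 1 (P5 1 2 (F [(25,16384),(8,9945),(22,9951),(12,16348)]) (F [(25,256),(22,155)])) (F [(25,16384),(22,10011),(8,9884),(12,16268)])) (F [(25,256),(22,107)]))) (F [(25,256),(8,28),(22,168)])) (F [(25,16384),(8,9834),(12,16276),(22,9922)])) (F [(22,256),(25,144),(8,52)])) (P4 4 1 (U0 1 1 (F [(25,16384),(8,9960),(22,9932),(12,16340)]) (F [(8,84),(22,256),(25,129)]))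 (F [(8,143),(25,256),(22,135)]))))) (F [(25,256),(8,37),(22,150)])) (F [(25,256),(8,102),(22,140)])) (P4 1 1 (P2 1 2 (U0 1 2 (F [(12,256),(25,256),(22,153),(8,152)]) (P5 1 4 (P4 1 2 (P2 1 4 (F [(12,256),(22,15),(8,54)]) (F [(22,9983),(12,16337),(8,9942),(25,16384)])) (F [(22,9966),(8,9968),(12,16342),(25,16384)])) (P3 2 1 (F [(25,256),(22,170),(12,162)]) (F [(25,16384),(8,9860),(22,9971),(12,16219)])))) (F [(25,256),(22,133),(8,21)])) (F [(25,256),(8,88),(22,61)]))) (F [(25,256),(22,155)])) (P5 1 2 (P4 1 1 (P2 1 2 (U0 1 1 (U1 2 1 (F [(22,10192),(12,16134),(8,9821),(25,16384)]) (F [(12,255),(22,155),(25,256),(8,153)])) (F [(22,256),(8,45)])) (F [(22,155),(25,256)])) (F [(22,155),(25,256)])) (F [(25,256),(22,155)]))) (U2 1 2 (P5 1 2 (U1 1 2 (P2 1 1 (P4 1 2 (U2 1 4 (P5 1 4 (U1 1 4 (P2 1 2 (F [(8,256),(12,134)]) (P1 4 1 (U2 1 8 (F [(8,256),(25,213),(12,219)])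 (P4 1 1 (P5 1 2 (U0 1 1 (F [(8,9985),(22,9963),(12,16355),(25,16384)]) (F [(22,256),(8,158)])) (F [(8,256),(22,106),(25,236)])) (F [(8,144),(25,256),(22,135)]))) (P0 2 1 (F [(8,637208),(25,1048576),(22,640159),(12,1042402)]) (U2 1 8 (U1 1 8 (F [(8,256),(25,169),(22,196)]) (P2 2 1 (F [(8,9973),(22,9986),(25,16384),(12,16288)]) (F [(22,214),(25,256),(8,18)]))) (P2 2 1 (F [(22,640159),(8,637208),(12,1042402),(25,1048576)]) (F [(22,210),(25,256)])))))) (P2 1 2 (P4 1 4 (F [(12,256),(8,156)]) (U0 1 2 (F [(8,9979),(12,16374),(25,16384),(22,9958)]) (F [(8,256),(22,14),(12,123)]))) (P1 4 1 (U0 1 2 (F [(25,1048576),(12,1045640),(8,635633),(22,637486)]) (P4 1 1 (P5 1 2 (U2 1 1 (F [(22,9976),(8,9940),(12,16369),(25,16384)]) (F [(22,256),(8,119),(12,66)])) (P1 1 2 (F [(8,156),(12,256),(22,155),(25,255)]) (U2 1 1 (F [(8,9943),(12,16368),(25,16384),(22,9972)]) (F [(22,10003),(8,9957),(12,16339),(25,16384)]))))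 (P1 1 2 (F [(8,9964),(25,16384),(22,9966),(12,16355)]) (F [(8,155),(22,156),(25,256),(12,254)])))) (P0 2 1 (U0 1 2 (U1 2 1 (F [(25,16384),(22,9977),(8,9928),(12,16316)]) (F [(25,16384),(12,16306),(22,9985),(8,9913)])) (F [(22,10006),(8,9939),(25,16384),(12,16297)])) (F [(22,10015),(12,16322),(25,16384),(8,9892)]))))) (U1 1 4 (F [(25,256),(8,143),(22,135)]) (P1 2 1 (F [(25,256),(8,177),(12,49)]) (P2 4 1 (U0 1 2 (F [(25,256),(12,137),(22,47)]) (P5 1 1 (P2 1 2 (F [(8,9935),(25,16384),(22,9961),(12,16274)]) (F [(25,256),(22,156)])) (F [(25,256),(22,156)]))) (F [(25,256),(22,156)]))))) (P5 1 4 (P2 1 2 (P4 1 4 (F [(12,256),(8,156)]) (U0 1 1 (U1 2 1 (F [(22,74),(8,256),(12,149)]) (F [(12,16351),(22,9975),(8,9949),(25,16384)])) (F [(22,256),(8,79)]))) (P1 4 1 (U0 1 1 (U1 2 1 (F [(22,9993),(12,16364),(8,9959),(25,16384)]) (F [(22,9971),(12,16339),(25,16384),(8,9925)]))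 (F [(22,256),(8,79)])) (F [(22,232),(12,117),(25,256)]))) (P1 2 1 (U0 1 1 (U1 2 1 (P5 2 1 (U2 1 1 (P2 1 1 (U1 1 2 (F [(8,256),(22,223),(25,179)]) (P5 1 2 (F [(25,16384),(8,9934),(22,9966),(12,16281)]) (F [(25,256),(22,155)]))) (F [(25,256),(22,156)])) (P2 1 1 (U0 2 1 (P5 1 2 (F [(25,16384),(22,9962),(8,9915),(12,16339)]) (F [(25,256),(22,155)])) (F [(22,256),(25,208),(12,200)])) (F [(25,256),(22,156)]))) (F [(25,256),(22,168),(8,28)])) (F [(25,16384),(12,16276),(22,9922),(8,9834)])) (F [(22,256),(25,120),(8,57)])) (P2 4 1 (U0 1 1 (U1 2 1 (U2 1 1 (P5 1 1 (P2 1 2 (F [(22,9966),(8,9934),(25,16384),(12,16281)]) (F [(22,256),(25,113),(12,26)])) (F [(22,210),(25,256)])) (P5 1 1 (F [(22,9974),(12,16333),(25,16384),(8,9909)]) (F [(22,210),(25,256)]))) (F [(25,256),(22,155),(12,254),(8,153)])) (F [(22,256),(8,79)])) (F [(22,179),(12,36),(25,256)]))))) (F [(25,256),(22,156)]))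 (F [(25,256),(22,157)])) (F [(22,10853),(25,15312),(12,16384)])) (F [(25,256),(22,155)])) (F [(22,256),(25,209),(12,196)]))

def c195 : Cell := ⟨⟨51,0,77⟩, ⟨50,1,77⟩, ⟨25,0,39⟩, ⟨124,66,181,141⟩, ⟨248,134,361,281⟩, ⟨247,133,362,282⟩, ⟨248,133,361,282⟩⟩

def t195 : Tr :=
  P0 2 1 (P3 1 1 (U2 1 2 (U1 1 2 (P5 1 1 (P4 1 2 (U2 1 4 (U1 1 4 (F [(8,213),(22,256),(25,69)]) (P1 1 1 (P5 1 2 (P2 1 4 (P4 1 4 (F [(8,161),(12,256),(22,13)]) (F [(8,9967),(22,10001),(12,16302),(25,16384)])) (F [(22,10002),(8,9963),(25,16384),(12,16299)])) (P3 1 2 (F [(22,10013),(25,16384),(8,9905),(12,16320)]) (U0 1 2 (F [(22,638767),(25,1048576),(8,634763),(12,1043496)]) (F [(22,150),(8,256),(25,59)])))) (F [(8,10137),(22,9959),(25,16384),(12,16290)]))) (P1 1 1 (P5 1 2 (P2 1 4 (P4 1 4 (F [(22,51),(12,256),(8,109)]) (F [(22,10002),(8,9964),(12,16299),(25,16384)])) (F [(22,159),(8,151),(12,250),(25,256)]))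 (F [(22,232),(12,117),(25,256)])) (P2 1 2 (P5 1 4 (P4 1 4 (F [(22,49),(8,159),(12,256)]) (F [(22,9993),(8,9978),(12,16257),(25,16384)])) (F [(22,10008),(8,9936),(12,16183),(25,16384)])) (F [(22,122),(8,234),(25,256)])))) (F [(22,156),(25,256)])) (F [(22,157),(25,256)])) (P5 1 1 (P4 1 2 (U0 1 2 (F [(22,10015),(12,16319),(25,16384),(8,9890)]) (P1 1 1 (F [(22,166),(12,256),(25,236)]) (P2 1 2 (P5 1 4 (P4 1 4 (F [(22,49),(12,256),(8,159)]) (F [(22,10006),(12,16267),(8,9900),(25,16384)])) (F [(22,157),(8,154),(12,253),(25,256)])) (F [(22,218),(8,137),(25,256)])))) (F [(22,156),(25,256)])) (F [(22,256),(25,169)]))) (F [(22,256),(12,198),(25,206)])) (U2 1 2 (U1 1 2 (P4 1 1 (P5 1 2 (U2 1 4 (F [(8,256),(25,209),(12,212)]) (P4 1 2 (P2 1 2 (P5 1 4 (F [(8,207),(12,256)]) (F [(8,156),(22,156),(12,254),(25,256)])) (F [(8,256),(22,106),(25,236)])) (F [(8,256),(22,106),(25,236)])))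 (F [(8,37),(25,256),(22,150)])) (F [(8,256),(25,238),(22,106)])) (P4 1 1 (P5 1 2 (U0 1 2 (F [(22,9964),(12,16321),(8,9943),(25,16384)]) (P4 1 2 (P2 1 2 (P5 1 4 (F [(22,16),(12,256),(8,192)]) (F [(22,10000),(8,9936),(12,16262),(25,16384)])) (F [(22,156),(8,156),(12,253),(25,256)])) (F [(8,156),(22,156),(25,256),(12,253)]))) (F [(25,256),(22,133),(8,21)])) (F [(25,256),(8,48),(22,105)]))) (P4 1 1 (P5 1 2 (F [(22,157),(12,256),(8,155),(25,256)]) (F [(22,155),(25,256)])) (F [(22,155),(25,256)])))) (F [(22,256),(12,68),(8,118)])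

def c196 : Cell := ⟨⟨51,0,77⟩, ⟨25,1,38⟩, ⟨50,1,77⟩, ⟨124,66,181,141⟩, ⟨248,134,361,281⟩, ⟨123,67,181,141⟩, ⟨124,67,180,141⟩⟩

def t196 : Tr :=
  P2 1 1 (P5 1 1 (U0 1 2 (F [(12,219),(25,256),(22,95)]) (P2 1 2 (P5 1 2 (P4 1 2 (F [(12,256),(22,23)]) (P3 2 1 (F [(12,256),(25,114),(22,91)]) (P0 1 2 (F [(25,256),(12,253),(8,152),(22,155)]) (F [(12,256),(25,89),(22,76)])))) (P3 1 1 (F [(12,256),(25,236),(22,164)]) (P4 2 1 (F [(12,231),(25,256),(22,174)]) (P0 1 2 (F [(25,256),(12,250),(22,155),(8,149)]) (F [(12,256),(25,106),(22,87)]))))) (P1 1 1 (P3 1 1 (F [(12,256),(25,236),(22,164)]) (P0 1 2 (P4 2 1 (F [(12,256),(25,115),(22,92)]) (F [(25,256),(22,155),(12,251),(8,150)])) (F [(12,239),(22,176),(25,256)]))) (P0 1 1 (P3 2 1 (F [(12,194),(22,173),(25,256)]) (P4 2 1 (F [(12,256),(22,127),(25,172)]) (F [(25,256),(22,155),(12,251),(8,151)]))) (F [(12,194),(22,173),(25,256)])))))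 (F [(25,256),(12,161),(22,171)])) (F [(22,171),(12,161),(25,256)])

def c197 : Cell := ⟨⟨13,0,19⟩, ⟨25,1,38⟩, ⟨51,0,77⟩, ⟨124,66,181,141⟩, ⟨248,134,361,281⟩, ⟨123,67,181,141⟩, ⟨124,67,180,141⟩⟩

def t197 : Tr :=
  F [(22,256),(12,207),(25,205)]

def c198 : Cell := ⟨⟨13,0,19⟩, ⟨12,1,19⟩, ⟨3,0,5⟩, ⟨62,32,91,71⟩, ⟨124,66,181,141⟩, ⟨61,33,91,71⟩, ⟨62,33,90,71⟩⟩

def t198 : Tr :=
  U2 1 4 (U1 1 4 (P5 1 1 (F [(12,256),(8,160)]) (P1 1 1 (P3 1 2 (F [(12,179),(25,256),(22,148)]) (P0 1 1 (U2 1 8 (U1 1 8 (F [(25,16384),(12,16273),(8,9920),(22,9955)]) (P4 1 1 (F [(25,164),(12,256),(22,126)]) (F [(25,16384),(12,15056),(8,9257),(22,9836)]))) (P4 1 1 (F [(12,256),(22,102),(25,106)]) (P3 2 1 (F [(22,149),(12,180),(25,256)]) (P0 1 2 (U0 1 1 (U1 2 1 (U2 1 1 (F [(25,256),(8,156),(12,254),(22,156)]) (F [(25,16384),(12,16171),(22,9946),(8,9819)])) (F [(25,256),(12,253),(8,153),(22,157)]))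 (U2 2 1 (U1 1 1 (F [(22,158),(8,156),(25,256),(12,255)]) (F [(22,10176),(12,16311),(25,16384),(8,9910)])) (F [(22,256),(12,143),(8,72)]))) (F [(22,158),(12,241),(25,256),(8,144)]))))) (F [(12,52),(22,145),(25,256)]))) (P0 2 1 (P3 1 1 (F [(22,153),(12,256),(25,245),(8,152)]) (U2 1 8 (P2 1 2 (U1 1 8 (F [(25,256),(12,256),(8,156),(22,156)]) (P4 1 1 (F [(12,256),(25,164),(22,126)]) (F [(12,255),(25,256),(8,156),(22,156)]))) (F [(8,9975),(12,16384),(22,9712),(25,15810)])) (P2 1 2 (P4 1 1 (F [(12,256),(22,57)]) (P0 1 4 (P3 2 1 (F [(22,158),(12,254),(25,256),(8,153)]) (F [(22,143),(12,256),(8,156),(25,230)])) (F [(22,54),(12,256),(8,63)]))) (F [(22,10218),(12,16384),(8,10051),(25,16330)])))) (F [(22,54),(12,256),(8,65)])))) (P5 1 1 (F [(12,256),(22,1),(8,155)]) (P1 1 1 (P3 1 2 (F [(12,191),(22,173),(25,256)]) (P0 1 1 (U0 1 2 (F [(12,256),(25,116)]) (P4 1 1 (F [(12,256),(22,76),(25,87)])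 (F [(12,15883),(22,10197),(25,16384),(8,9501)]))) (F [(12,256),(22,76),(25,87)]))) (F [(22,6),(12,256),(8,117)])))) (F [(22,168),(12,256)])

def c199 : Cell := ⟨⟨13,0,19⟩, ⟨12,1,19⟩, ⟨3,0,5⟩, ⟨31,16,46,35⟩, ⟨31,17,45,35⟩, ⟨61,33,91,71⟩, ⟨62,32,91,71⟩⟩

def t199 : Tr :=
  P0 1 1 (P4 2 1 (U2 1 4 (U1 1 4 (P1 1 1 (P5 1 1 (P4 1 2 (F [(22,256),(8,51),(25,122)]) (P3 1 1 (F [(22,256),(25,212),(8,35)]) (U2 1 8 (P2 2 1 (U1 1 8 (F [(8,154),(22,162),(25,256),(12,238)]) (P4 2 1 (F [(22,162),(12,251),(8,154),(25,256)]) (F [(8,154),(25,256),(22,159),(12,250)]))) (F [(25,256),(8,21),(22,136)])) (P2 2 1 (P4 2 1 (F [(22,250),(12,256)]) (F [(22,10216),(8,9881),(12,16054),(25,16384)])) (F [(22,159),(25,256),(8,149),(12,242)]))))) (P3 1 2 (F [(25,256),(22,209)]) (P4 1 1 (F [(22,160),(25,256)]) (F [(25,16384),(22,10147),(12,15058),(8,9329)])))) (P2 1 1 (P4 1 2 (F [(22,256),(8,51),(25,122)])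 (U2 1 8 (P5 2 1 (F [(8,9985),(22,10263),(25,16384),(12,15621)]) (F [(25,256),(8,94),(22,105)])) (P5 2 1 (P0 1 1 (P4 2 1 (F [(22,256),(8,69),(12,140)]) (F [(22,10216),(8,9881),(12,16054),(25,16384)])) (F [(22,256),(8,41)])) (F [(22,138),(8,141),(25,256)])))) (F [(8,256),(22,115),(25,247)]))) (P1 1 1 (P5 1 1 (P4 1 2 (F [(22,256),(25,103)]) (P3 1 1 (F [(22,256),(12,194),(25,212)]) (U0 1 2 (F [(22,42),(12,256),(25,159)]) (P2 2 1 (F [(22,10049),(12,16384),(8,9675),(25,16113)]) (F [(22,159),(25,256),(12,242),(8,148)]))))) (P3 1 2 (F [(22,168),(12,134),(25,256)]) (P4 1 1 (F [(22,179),(12,256),(25,250)]) (U0 1 2 (F [(25,168),(12,256),(22,32)]) (F [(22,159),(25,256),(12,237),(8,145)]))))) (P2 1 1 (P4 1 2 (F [(22,256),(25,103)]) (U0 1 2 (F [(22,157),(12,244),(25,256),(8,141)]) (P5 2 1 (P0 1 1 (F [(22,10180),(12,16384),(8,9826),(25,16287)]) (F [(22,256),(8,41)])) (F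 [(22,159),(25,256),(12,239),(8,149)])))) (F [(22,10147),(25,16384),(8,9173),(12,14806)])))) (F [(22,256),(12,196),(25,205)])) (P3 2 1 (U2 1 4 (U1 1 4 (F [(25,256),(8,97),(22,144)]) (P1 1 1 (P5 2 1 (U0 1 2 (F [(25,168),(12,256),(22,32)]) (F [(25,16384),(22,10147),(12,14691),(8,9101)])) (F [(25,256),(12,2),(22,157)])) (P0 2 1 (U0 1 2 (F [(25,229),(12,256),(22,70)]) (F [(25,16384),(22,10147),(12,14691),(8,9101)])) (F [(25,16384),(22,10147),(8,9173),(12,14806)])))) (F [(22,256),(25,222),(12,180)])) (U2 1 4 (U1 1 4 (F [(25,256),(8,218),(22,126)]) (P0 1 2 (P4 4 1 (U0 1 2 (F [(25,231),(12,256)]) (P2 1 1 (P5 1 1 (P4 1 2 (F [(25,16384),(8,9385),(12,15091),(22,10109)]) (F [(25,256),(8,77)])) (F [(25,256),(8,4)])) (F [(25,256),(8,138)]))) (F [(25,256),(8,76)])) (P1 2 1 (U0 1 2 (F [(25,231),(12,256)]) (F [(25,16384),(8,9101),(22,10147),(12,14691)])) (F [(25,256),(8,146),(22,159),(12,236)]))))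 (F [(25,256),(22,187),(12,44)])))) (F [(22,256),(25,188)])

def c200 : Cell := ⟨⟨13,0,19⟩, ⟨6,1,9⟩, ⟨12,1,19⟩, ⟨31,16,46,35⟩, ⟨31,17,45,35⟩, ⟨61,33,91,71⟩, ⟨31,16,45,36⟩⟩

def t200 : Tr :=
  F [(22,165),(12,181),(25,256)]

def c201 : Cell := ⟨⟨7,0,9⟩, ⟨6,1,9⟩, ⟨13,0,19⟩, ⟨31,16,46,35⟩, ⟨31,17,45,35⟩, ⟨61,33,91,71⟩, ⟨31,16,45,36⟩⟩

def t201 : Tr :=
  F [(22,232),(12,132),(25,256)]

def c202 : Cell := ⟨⟨7,0,9⟩, ⟨3,1,4⟩, ⟨6,1,9⟩, ⟨31,16,46,35⟩, ⟨31,17,45,35⟩, ⟨15,8,23,18⟩, ⟨8,4,11,9⟩⟩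

def t202 : Tr :=
  F [(12,256),(22,117),(25,146)]

def c203 : Cell := ⟨⟨1,0,1⟩, ⟨3,1,4⟩, ⟨7,0,9⟩, ⟨31,16,46,35⟩, ⟨31,17,45,35⟩, ⟨15,8,23,18⟩, ⟨8,4,11,9⟩⟩

def t203 : Tr :=
  F [(22,161),(12,256)]

theorem g16 : ∀ c ∈ [c192, c193, c194, c195, c196, c197, c198, c199, c200, c201, c202, c203], Done D c := by
  intro c hc
  simp only [List.mem_cons, List.not_mem_nil, or_false] at hc
  rcases hc with rfl | rfl | rfl | rfl | rfl | rfl | rfl | rfl | rfl | rfl | rfl | rfl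
  · exact done_of_chk (t := t192) (by decide +kernel)
  · exact done_of_chk (t := t193) (by decide +kernel)
  · exact done_of_chk (t := t194) (by decide +kernel)
  · exact done_of_chk (t := t195) (by decide +kernel)
  · exact done_of_chk (t := t196) (by decide +kernel)
  · exact done_of_chk (t := t197) (by decide +kernel)
  · exact done_of_chk (t := t198) (by decide +kernel)
  · exact done_of_chk (t := t199) (by decide +kernel)
  · exact done_of_chk (t := t200) (by decide +kernel)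
  · exact done_of_chk (t := t201) (by decide +kernel)
  · exact done_of_chk (t := t202) (by decide +kernel)
  · exact done_of_chk (t := t203) (by decide +kernel)

end Pool.Agent.W2helper59.NW.E1
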