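import Pool.Agent.W2helper59.NW.D_E1

set_option autoImplicit false
set_option maxRecDepth 1000000

namespace Pool.Agent.W2helper59.NW.E1

open Tr

def c204 : Cell := ⟨⟨1,0,1⟩, ⟨1,1,2⟩, ⟨3,0,5⟩, ⟨31,16,46,35⟩, ⟨15,9,23,17⟩, ⟨15,8,23,18⟩, ⟨31,17,45,35⟩⟩

def t204 : Tr :=
  F [(25,256),(22,150),(12,2)]

def c205 : Cell := ⟨⟨1,0,1⟩, ⟨1,1,2⟩, ⟨3,0,5⟩, ⟨15,8,24,17⟩, ⟨15,9,23,17⟩, ⟨15,8,23,18⟩, ⟨31,16,46,35⟩⟩

def t205 : Tr :=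
  F [(22,164),(25,256),(12,11)]

def c206 : Cell := ⟨⟨1,0,1⟩, ⟨1,1,2⟩, ⟨3,0,5⟩, ⟨15,8,24,17⟩, ⟨15,9,23,17⟩, ⟨7,4,12,9⟩, ⟨15,8,23,18⟩⟩

def t206 : Tr :=
  F [(25,256),(22,191),(12,62)]

def c207 : Cell := ⟨⟨1,0,1⟩, ⟨1,1,2⟩, ⟨3,0,5⟩, ⟨2,1,3,2⟩, ⟨15,9,23,17⟩, ⟨15,8,24,17⟩, ⟨8,4,11,9⟩⟩

def t207 : Tr :=
  P2 4 1 (P5 1 2 (P4 1 2 (U0 2 1 (U1 2 1 (U2 1 1 (P2 1 2 (P5 1 4 (F [(12,256),(8,170),(25,165)]) (U1 1 2 (U2 1 2 (P1 1 1 (P3 1 1 (P5 2 1 (P4 1 1 (F [(8,176),(12,256)]) (U1 1 4 (F [(8,256),(22,159),(25,67)]) (P0 1 1 (P3 2 1 (F [(8,160),(12,246),(22,163),(25,256)]) (F [(25,256),(8,147),(12,242),(22,157)])) (F [(8,256),(12,163),(25,32)])))) (F [(8,138),(22,170),(25,256),(12,203)])) (P4 2 1 (P5 1 1 (F [(8,208),(12,256)]) (F [(8,163),(25,256),(12,239),(22,152)])) (F [(8,256),(25,199),(12,102)]))) (F [(8,256),(12,171),(25,121)])) (P1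 1 1 (P3 1 1 (P5 2 1 (P4 1 1 (F [(12,256),(22,2),(8,166)]) (U0 2 1 (P0 1 1 (F [(12,239),(25,256),(22,161),(8,134)]) (F [(22,164),(12,256),(8,170),(25,256)])) (F [(22,256),(12,195),(25,211)]))) (F [(22,171),(12,204),(8,126),(25,256)])) (P4 2 1 (P5 1 1 (F [(12,256),(22,4),(8,192)]) (U0 2 1 (P0 2 1 (F [(12,242),(25,256),(8,148),(22,154)]) (F [(8,9495),(12,15124),(25,16384),(22,10169)])) (P0 2 1 (F [(12,15525),(22,9876),(25,16384),(8,9387)]) (F [(22,256),(12,194),(25,178)])))) (P0 1 2 (F [(25,256),(12,181),(8,71)]) (U0 2 1 (P2 2 1 (F [(25,256),(12,239),(8,152),(22,150)]) (F [(8,148),(25,256),(12,212),(22,166)])) (P2 2 1 (F [(12,15525),(25,16384),(22,9876),(8,9387)]) (F [(22,174),(12,229),(8,138),(25,256)])))))) (F [(12,16384),(8,9218),(25,3606)]))) (P1 1 1 (F [(12,235),(25,256),(8,123),(22,153)]) (F [(12,256),(25,52),(8,110)]))))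 (P0 2 1 (U1 1 2 (U2 1 2 (F [(8,256),(25,255),(22,102)]) (P5 1 1 (P4 1 1 (F [(8,256),(22,16),(12,112)]) (P3 2 1 (F [(8,164),(25,256),(22,158),(12,248)]) (F [(25,256),(8,149),(12,231),(22,139)]))) (P3 1 1 (F [(22,223),(8,112),(25,256)]) (P4 2 1 (F [(8,141),(25,256),(22,162),(12,207)]) (F [(25,256),(12,66),(22,15)]))))) (P5 1 1 (F [(25,256),(8,144),(12,241),(22,149)]) (F [(25,256),(12,222),(8,125),(22,152)]))) (U1 1 2 (F [(8,256),(22,237),(25,170)]) (F [(8,9433),(25,16384),(22,10436),(12,14631)])))) (P2 1 2 (F [(12,256),(22,101),(25,125)]) (P0 2 1 (F [(12,15538),(25,16384),(22,9988),(8,8358)]) (F [(22,169),(8,139),(12,229),(25,256)])))) (F [(12,232),(25,256),(8,129),(22,148)])) (U2 4 1 (U1 1 1 (P2 1 2 (P5 1 4 (P4 1 4 (F [(12,256),(22,3),(8,187)]) (U2 1 2 (U1 1 2 (F [(8,256),(12,48),(25,55)]) (P0 1 1 (P3 2 1 (F [(12,256),(22,2),(8,166)])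 (P4 2 1 (F [(12,256),(8,166),(22,2)]) (U0 1 2 (F [(12,256),(25,85),(8,59)]) (P0 1 2 (P3 4 1 (F [(12,256),(8,163)]) (P4 4 1 (F [(12,256),(8,163)]) (U2 1 1 (F [(25,148),(12,256),(8,140)]) (U0 2 1 (F [(12,256),(25,157),(8,162)]) (P0 1 4 (P3 8 1 (F [(12,256),(8,159),(25,251),(22,150)]) (F [(25,256),(8,164),(12,251),(22,144)])) (F [(8,234),(12,256),(25,121)])))))) (F [(12,256),(8,169)]))))) (F [(12,256),(8,184)]))) (P0 1 1 (P3 2 1 (F [(12,256),(22,36),(8,148)]) (P4 2 1 (F [(12,256),(22,36),(8,148)]) (U0 1 1 (U1 2 1 (U2 1 1 (P0 1 2 (P3 4 1 (F [(12,256),(22,14),(8,155)]) (P4 4 1 (F [(12,256),(22,14),(8,155)]) (U1 1 2 (U2 1 2 (P0 1 4 (F [(22,9899),(12,16333),(8,9603),(25,16384)]) (F [(22,148),(8,172),(12,256),(25,246)])) (F [(22,160),(12,249),(8,141),(25,256)])) (F [(12,250),(22,151),(25,256),(8,149)])))) (F [(12,256),(8,169)])) (F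 [(12,256),(22,74),(25,91)])) (F [(12,256),(25,41)])) (F [(22,256),(8,76),(25,46)])))) (F [(22,1),(12,256),(8,183)])))) (U2 1 2 (U1 1 2 (P1 1 1 (P3 1 1 (F [(22,256),(8,65),(25,48)]) (P4 2 1 (P5 1 1 (F [(22,41),(8,184),(12,256)]) (U2 1 4 (F [(8,175),(22,151),(12,237),(25,256)]) (P0 2 1 (P3 1 2 (F [(22,159),(8,202),(12,231),(25,256)]) (F [(8,164),(12,256)])) (F [(22,256),(25,43)])))) (F [(8,256),(25,56),(12,7)]))) (F [(8,256),(12,48),(25,55)])) (P1 1 1 (P3 1 1 (F [(22,256),(25,39)]) (P4 2 1 (P5 1 1 (F [(22,48),(12,256),(8,164)]) (U0 1 2 (P0 2 1 (F [(22,9950),(12,15577),(8,9304),(25,16384)]) (F [(22,256),(25,43)])) (P0 2 1 (P3 1 2 (F [(22,164),(8,162),(12,239),(25,256)]) (F [(12,256),(8,164)])) (F [(22,256),(25,43)])))) (P0 1 2 (U0 1 2 (F [(12,242),(25,256),(22,152),(8,137)]) (P3 2 1 (P5 2 1 (P4 1 1 (F [(12,256),(8,164)]) (F [(22,157),(8,151),(12,236),(25,256)]))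 (F [(22,159),(8,146),(25,256),(12,228)])) (P0 1 4 (P4 4 1 (P5 1 1 (F [(12,256),(22,150),(8,162),(25,248)]) (U2 1 1 (F [(25,256),(12,246),(8,149),(22,153)]) (F [(22,157),(12,248),(8,151),(25,256)]))) (U2 1 1 (F [(25,256),(12,131),(8,33)]) (U0 2 1 (F [(25,256),(12,244),(22,149),(8,141)]) (P3 4 1 (F [(22,156),(25,256),(8,157),(12,245)]) (P4 8 1 (F [(22,155),(25,256),(8,157),(12,246)]) (F [(25,256),(22,152)])))))) (P5 1 1 (F [(22,152),(12,256),(8,164),(25,250)]) (F [(22,157),(8,151),(25,256),(12,236)]))))) (U0 1 2 (P2 2 1 (F [(22,9950),(12,15577),(8,9304),(25,16384)]) (F [(22,184),(12,213),(8,149),(25,256)])) (P2 2 1 (P5 2 1 (F [(8,164),(12,256)]) (F [(22,163),(8,159),(12,239),(25,256)])) (F [(22,225),(8,256),(25,173)])))))) (P0 1 1 (P4 2 1 (F [(22,38),(12,256),(8,182)]) (P3 2 1 (F [(8,170),(12,256)]) (U0 1 2 (F [(12,247),(25,256),(8,147),(22,150)])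 (P0 1 2 (P3 4 1 (F [(8,164),(22,152),(12,256),(25,250)]) (P4 4 1 (F [(12,256),(8,162),(22,150),(25,248)]) (U2 1 1 (F [(25,256),(12,196),(8,79)]) (U0 2 1 (F [(25,256),(12,248),(8,149),(22,151)]) (P0 1 4 (P4 8 1 (F [(8,160),(22,153),(25,256),(12,256)]) (F [(25,256),(22,152)])) (F [(8,170),(22,153),(12,256),(25,250)])))))) (F [(8,256),(22,43),(12,242)]))))) (F [(22,48),(8,197),(12,256)])))) (P1 1 1 (F [(22,256),(12,175),(25,250)]) (P0 1 1 (P4 2 1 (F [(22,52),(12,256),(8,133)]) (P3 2 1 (F [(22,176),(12,256)]) (U0 1 1 (U1 2 1 (U2 1 1 (P0 1 2 (P3 4 1 (F [(22,199),(12,256),(25,42)]) (P4 4 1 (F [(22,199),(12,256),(25,42)]) (U1 1 2 (F [(22,173),(8,132),(12,225),(25,256)]) (F [(22,152),(12,248),(25,256),(8,148)])))) (F [(22,51),(8,119),(12,256)])) (F [(22,99),(12,256),(25,113)])) (F [(12,256),(22,99),(25,113)])) (F [(22,256),(8,47),(25,177)]))))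 (F [(22,52),(12,256),(8,133)]))))) (P0 2 1 (U2 1 2 (U1 1 2 (F [(8,256),(22,100),(25,240)]) (P5 1 1 (P4 1 1 (F [(8,256),(22,16),(12,112)]) (P3 2 1 (F [(22,164),(8,171),(12,256),(25,255)]) (P0 1 2 (U0 1 2 (F [(25,256),(8,147),(12,245),(22,150)]) (P4 2 1 (F [(8,256),(22,16),(12,116)]) (F [(8,145),(25,256),(22,152),(12,213)]))) (F [(8,160),(22,165),(25,256),(12,234)])))) (P3 1 1 (F [(22,256),(25,183)]) (P4 2 1 (F [(22,169),(8,142),(25,256),(12,211)]) (F [(22,160),(8,96),(25,256),(12,145)]))))) (P5 1 1 (P4 1 1 (F [(22,16),(8,256),(12,112)]) (P3 2 1 (F [(22,256),(8,66),(12,135)]) (P0 1 2 (U0 1 1 (U1 2 1 (U2 1 1 (P4 2 1 (F [(22,16),(8,256),(12,116)]) (F [(22,156),(8,141),(25,256),(12,213)])) (F [(22,170),(8,128),(12,246),(25,256)])) (F [(22,152),(12,246),(25,256),(8,146)])) (F [(22,256),(8,41),(25,208)])) (F [(22,173),(8,153),(12,225),(25,256)]))))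 (F [(22,223),(12,118),(25,256)]))) (F [(22,256),(8,217)]))) (P2 1 2 (F [(12,256),(22,103),(25,114)]) (P0 2 1 (F [(22,192),(12,243),(8,102),(25,256)]) (F [(22,256),(8,76)])))) (F [(22,198),(12,256)]))) (F [(25,256),(22,151),(12,3)])) (F [(22,170),(25,256),(12,10)])) (F [(22,171),(25,256)])

def c208 : Cell := ⟨⟨1,0,1⟩, ⟨0,1,0⟩, ⟨0,1,1⟩, ⟨2,1,3,2⟩, ⟨3,3,5,5⟩, ⟨1,1,3,3⟩, ⟨2,1,2,3⟩⟩

def t208 : Tr :=
  P1 1 1 (F [(20,92),(12,251),(34,152),(25,256)]) (P2 1 1 (F [(12,256),(20,3),(25,18),(7,67)]) (P0 2 1 (F [(20,4),(12,256),(25,155),(7,15)]) (U0 1 2 (F [(12,119),(25,256)]) (P1 2 1 (F [(12,256),(25,196),(22,91)]) (P2 2 1 (F [(12,256),(25,171),(22,82)]) (P0 4 1 (F [(25,224),(12,256),(22,115)]) (U2 1 1 (F [(25,256),(12,83)]) (U0 2 1 (F [(25,256),(12,127),(22,129)]) (P1 4 1 (F [(22,155),(25,256),(12,251)]) (P2 4 1 (P5 1 2 (P4 1 2 (F [(12,217),(22,191),(25,256)])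 (F [(22,183),(25,256),(12,139)])) (F [(22,173),(25,256),(12,22)])) (F [(22,171),(25,256),(12,5)])))))))))))

def c209 : Cell := ⟨⟨1,0,0⟩, ⟨0,1,0⟩, ⟨1,0,1⟩, ⟨2,1,3,2⟩, ⟨3,3,5,5⟩, ⟨1,1,3,3⟩, ⟨2,1,2,3⟩⟩

def t209 : Tr :=
  P1 1 1 (F [(34,25),(20,187),(12,256),(22,90),(7,48),(25,132)]) (P2 1 1 (F [(12,256),(20,3),(7,71),(25,8)]) (P0 2 1 (F [(12,256),(7,40),(21,47),(25,59)]) (U0 1 1 (U1 2 1 (U2 1 1 (P1 2 1 (F [(12,256),(22,109),(25,181)]) (P2 2 1 (F [(12,256),(22,99),(25,158)]) (P0 4 1 (F [(12,256),(22,160),(25,227)]) (F [(22,256),(12,206),(25,253)])))) (F [(34,204),(22,6),(25,256)])) (F [(12,40),(34,125),(25,256)])) (F [(22,256),(12,235),(25,156)]))))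

def c210 : Cell := ⟨⟨1,0,1⟩, ⟨0,1,1⟩, ⟨0,0,1⟩, ⟨4,3,5,4⟩, ⟨1,1,1,1⟩, ⟨3,3,5,5⟩, ⟨2,1,2,3⟩⟩

def t210 : Tr :=
  F [(12,256),(25,142)]

def c211 : Cell := ⟨⟨1,0,1⟩, ⟨0,1,1⟩, ⟨0,0,1⟩, ⟨4,2,5,5⟩, ⟨4,3,5,4⟩, ⟨3,3,5,5⟩, ⟨2,1,2,3⟩⟩

def t211 : Tr :=
  F [(12,256),(25,142)]

def c212 : Cell := ⟨⟨1,0,1⟩, ⟨0,1,1⟩, ⟨0,0,1⟩, ⟨7,5,11,9⟩, ⟨4,3,5,4⟩, ⟨3,3,5,5⟩, ⟨4,2,5,5⟩⟩

def t212 : Tr :=
  F [(25,194),(12,256)]

def c213 : Cell := ⟨⟨1,0,3⟩, ⟨0,1,1⟩, ⟨0,0,1⟩, ⟨2,1,3,2⟩, ⟨4,3,5,4⟩, ⟨7,5,11,9⟩, ⟨4,2,5,5⟩⟩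

def t213 : Tr :=
  U1 1 2 (F [(25,107),(8,256),(12,214)]) (P0 2 1 (F [(25,256),(12,229)]) (P2 2 1 (F [(25,216),(12,256),(8,89)]) (F [(25,256),(8,163)])))

def c214 : Cell := ⟨⟨1,0,1⟩, ⟨0,1,1⟩, ⟨1,0,3⟩, ⟨8,5,11,8⟩, ⟨4,3,5,4⟩, ⟨7,5,11,9⟩, ⟨4,2,5,5⟩⟩

def t214 : Tr :=
  P4 1 1 (P2 1 2 (F [(12,256),(25,134)]) (F [(25,252),(12,256),(8,122)])) (F [(25,256),(8,92),(12,193)])

def c215 : Cell := ⟨⟨1,0,1⟩, ⟨0,1,1⟩, ⟨1,0,3⟩, ⟨8,4,11,9⟩, ⟨8,5,11,8⟩, ⟨7,5,11,9⟩, ⟨4,2,5,5⟩⟩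

def t215 : Tr :=
  P4 1 2 (F [(12,256),(25,106),(8,32)]) (U0 1 1 (F [(25,256),(12,197),(8,126)]) (U2 2 1 (F [(25,182),(12,256),(8,130)]) (P0 1 1 (P3 1 1 (P1 1 2 (F [(25,216),(12,256)]) (P4 1 1 (U0 2 1 (F [(25,256),(12,191),(8,86)]) (U2 4 1 (F [(25,256),(12,247),(8,192)]) (P5 1 2 (F [(12,256),(25,6),(8,183)]) (P1 2 1 (F [(12,186),(25,256),(22,88)]) (F [(12,256),(25,240),(8,144),(22,111)]))))) (U0 2 1 (F [(25,256)]) (U2 4 1 (F [(25,256),(8,80)]) (P0 1 1 (F [(25,256),(12,135)]) (P1 2 1 (F [(25,256),(12,164),(22,93)]) (F [(25,256),(12,249),(8,149),(22,117)]))))))) (P4 2 1 (P5 1 1 (F [(12,256),(25,10),(8,183)]) (U0 2 1 (F [(25,256)]) (U2 4 1 (F [(25,256),(8,80)]) (P1 1 1 (F [(25,256),(12,173),(8,90)]) (F [(25,252),(12,256),(8,159),(22,111)]))))) (F [(25,236),(8,256),(22,56)]))) (P1 1 1 (P3 1 2 (F [(25,201),(12,256)]) (U0 2 1 (F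 [(25,256),(12,191),(8,86)]) (U2 4 1 (F [(12,210),(25,256),(8,120)]) (P5 1 2 (F [(12,256),(25,6),(8,137)]) (P0 1 1 (P3 2 1 (F [(12,237),(25,256),(22,77)]) (F [(12,256),(25,226),(8,145),(22,110)])) (F [(12,256),(25,61)])))))) (F [(12,256),(25,48),(8,127)])))))

theorem g17 : ∀ c ∈ [c204, c205, c206, c207, c208, c209, c210, c211, c212, c213, c214, c215], Done D c := by
  intro c hc
  simp only [List.mem_cons, List.not_mem_nil, or_false] at hc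
  rcases hc with rfl | rfl | rfl | rfl | rfl | rfl | rfl | rfl | rfl | rfl | rfl | rfl
  · exact done_of_chk (t := t204) (by decide +kernel)
  · exact done_of_chk (t := t205) (by decide +kernel)
  · exact done_of_chk (t := t206) (by decide +kernel)
  · exact done_of_chk (t := t207) (by decide +kernel)
  · exact done_of_chk (t := t208) (by decide +kernel)
  · exact done_of_chk (t := t209) (by decide +kernel)
  · exact done_of_chk (t := t210) (by decide +kernel)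
  · exact done_of_chk (t := t211) (by decide +kernel)
  · exact done_of_chk (t := t212) (by decide +kernel)
  · exact done_of_chk (t := t213) (by decide +kernel)
  · exact done_of_chk (t := t214) (by decide +kernel)
  · exact done_of_chk (t := t215) (by decide +kernel)

end Pool.Agent.W2helper59.NW.E1
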