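import Pool.Agent.W2helper59.NW.D_E1

set_option autoImplicit false
set_option maxRecDepth 1000000

namespace Pool.Agent.W2helper59.NW.E1

open Tr

def c216 : Cell := ⟨⟨1,0,1⟩, ⟨0,1,1⟩, ⟨1,0,3⟩, ⟨15,9,23,17⟩, ⟨8,5,11,8⟩, ⟨7,5,11,9⟩, ⟨8,4,11,9⟩⟩

def t216 : Tr :=
  U0 1 1 (F [(25,256),(12,185),(8,115)]) (U2 2 1 (F [(25,237),(8,176),(12,256)]) (P3 1 1 (P5 1 1 (P4 1 2 (P2 1 2 (U0 2 1 (F [(12,256),(25,199),(8,116)]) (U2 4 1 (U1 1 1 (P5 1 2 (P4 1 4 (P2 1 4 (F [(12,256),(8,177)]) (U2 1 2 (F [(12,238),(8,256),(25,219)]) (P1 1 1 (F [(12,256)]) (P0 2 1 (F [(12,256)]) (P2 2 1 (F [(12,256)]) (U0 1 1 (U1 2 1 (U2 1 1 (P1 2 1 (F [(12,256)]) (P0 4 1 (F [(12,256)]) (P2 4 1 (F [(12,256)]) (F [(12,256),(25,255),(8,154),(22,148)])))) (F [(12,256),(25,234),(22,147)])) (F [(12,256),(25,115)])) (U2 2 1 (U1 1 1 (P1 2 1 (F [(12,256)]) (P0 4 1 (F [(12,256)]) (P2 4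 1 (F [(12,256)]) (F [(12,256),(22,149),(25,255),(8,153)])))) (F [(12,256),(22,152),(25,224)])) (F [(12,256),(22,161)])))))))) (U2 1 2 (F [(12,183),(25,256),(8,109)]) (P0 1 1 (F [(12,256),(25,111)]) (P1 1 1 (F [(12,256),(25,111)]) (P2 2 1 (F [(12,256),(25,111)]) (F [(12,238),(25,256),(22,87)])))))) (F [(12,181),(25,256),(22,103)])) (F [(12,256),(22,21)])) (F [(12,256),(22,51)]))) (F [(25,256),(12,132),(22,115)])) (F [(25,256),(12,207),(22,89)])) (F [(25,256),(12,160),(22,96)])) (P4 1 1 (P5 1 2 (P2 1 2 (U0 2 1 (F [(12,256),(25,199),(8,116)]) (U2 4 1 (U1 1 1 (P4 1 2 (P5 1 4 (P2 1 4 (F [(12,256),(8,177)]) (U2 1 2 (F [(12,229),(8,256),(25,212)]) (P0 1 1 (F [(12,256),(8,176)]) (P1 2 1 (F [(12,256),(8,164)]) (P2 2 1 (F [(12,256),(8,116)]) (U0 1 1 (U1 2 1 (U2 1 1 (P0 2 1 (F [(12,256),(8,167)]) (P1 4 1 (F [(12,256),(8,162)]) (P2 4 1 (F [(12,256),(8,113)])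 (F [(12,256),(25,256),(8,154),(22,149)])))) (F [(12,256),(25,188)])) (F [(12,256),(25,115)])) (U2 2 1 (U1 1 1 (P0 2 1 (F [(12,256),(8,167),(22,1)]) (P1 4 1 (F [(12,256),(8,161)]) (P2 4 1 (F [(12,256),(8,113)]) (F [(12,256),(22,150),(8,154),(25,256)])))) (F [(12,256),(22,93),(25,114)])) (F [(12,256),(22,161)])))))))) (U2 1 2 (F [(12,173),(8,247),(25,256)]) (P3 1 1 (P1 1 1 (F [(12,256),(25,111)]) (P2 2 1 (F [(12,256),(25,111)]) (P0 2 1 (F [(12,256),(25,74),(8,52)]) (U0 1 1 (F [(12,178),(25,256),(8,57)]) (U2 2 1 (U1 1 1 (P1 2 1 (F [(12,256),(25,187)]) (P0 4 1 (F [(12,256),(25,79),(8,52)]) (F [(12,245),(25,256),(8,43),(22,104)]))) (F [(12,256),(25,130),(22,97)])) (F [(12,256),(22,53)])))))) (P0 1 1 (F [(12,256),(8,176)]) (P2 2 1 (F [(12,256),(8,164)]) (P1 2 1 (F [(12,256),(8,164)]) (U0 1 1 (F [(12,222),(25,256),(8,84)]) (U2 2 1 (U1 1 1 (P0 2 1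 (F [(12,256),(8,167),(22,1)]) (P1 4 1 (F [(12,256),(8,160)]) (P2 4 1 (F [(12,256),(8,160)]) (F [(12,254),(22,149),(8,154),(25,256)])))) (F [(12,256),(22,93),(25,114)])) (F [(12,256),(22,104)]))))))))) (P0 1 2 (F [(8,256),(25,214),(12,229)]) (U2 1 2 (F [(25,256),(8,184),(12,69)]) (P5 1 1 (P2 1 1 (F [(8,256),(12,160),(25,28)]) (P1 2 1 (F [(12,256),(8,244),(25,16)]) (P0 2 1 (F [(8,165),(25,247),(12,256),(22,142)]) (U0 1 1 (F [(25,256),(12,222),(8,84)]) (U2 2 1 (U1 1 1 (P2 2 1 (F [(8,256),(12,131)]) (F [(8,9854),(25,16211),(12,16384),(22,9459)])) (F [(12,256),(8,147),(25,247),(22,145)])) (F [(12,256),(22,155),(8,151),(25,248)])))))) (P1 1 1 (F [(25,14),(12,256),(8,155)]) (P2 2 1 (F [(25,14),(12,256),(8,155)]) (P0 2 1 (F [(25,256),(8,155),(12,256),(22,142)]) (U0 1 1 (F [(25,256),(12,75),(22,16)]) (U2 2 1 (F [(25,16384),(12,16379),(8,9685),(22,9429)])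 (F [(12,256),(22,150),(25,256),(8,147)])))))))))) (P4 1 2 (F [(12,256),(22,21)]) (P0 1 2 (F [(12,234),(25,217),(8,256)]) (U0 1 2 (F [(12,256),(25,223)]) (P5 1 1 (F [(12,256),(8,142),(25,233),(22,136)]) (F [(12,256),(25,255),(8,138),(22,142)])))))) (P4 1 2 (F [(12,256),(22,51)]) (P0 1 2 (F [(12,256),(8,172),(25,2)]) (F [(12,256),(22,89),(25,128),(8,140)]))))) (U0 2 1 (F [(25,256),(12,84)]) (U2 4 1 (U1 1 1 (P0 1 1 (P4 2 1 (U2 1 2 (F [(25,256)]) (P1 1 1 (P5 1 1 (F [(25,256),(8,96),(12,168),(22,137)]) (F [(25,247),(12,256),(8,150),(22,126)])) (F [(25,256),(8,29),(22,142)]))) (F [(25,256),(8,93)])) (F [(25,256),(12,132),(22,115)])) (P0 1 1 (P4 2 1 (F [(25,256),(12,200),(8,109),(22,137)]) (F [(25,256),(8,93)])) (F [(25,256),(12,179),(22,136)]))) (P0 1 1 (P4 2 1 (F [(22,9108),(12,14139),(25,16384),(8,7674)]) (F [(25,256),(12,221),(22,135),(8,129)]))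 (F [(25,256),(22,136),(12,179)]))))) (U0 2 1 (F [(25,256),(12,2)]) (U2 4 1 (F [(25,256)]) (P0 1 1 (P3 1 1 (F [(25,256),(12,163),(22,99)]) (F [(25,256),(12,232),(8,131),(22,127)])) (F [(25,256),(22,99),(12,163)]))))) (F [(25,256),(8,217),(22,82)]))))

def c217 : Cell := ⟨⟨1,0,1⟩, ⟨0,1,1⟩, ⟨1,0,3⟩, ⟨2,1,3,2⟩, ⟨8,5,11,8⟩, ⟨15,9,23,17⟩, ⟨8,4,11,9⟩⟩

def t217 : Tr :=
  U0 1 1 (F [(25,256),(8,40),(12,96)]) (U2 2 1 (U1 1 1 (F [(25,46),(8,256),(12,2)]) (P0 4 1 (F [(25,245),(8,200),(12,256)]) (P2 4 1 (F [(25,256),(8,240),(12,229)]) (F [(25,256),(8,171)])))) (P0 4 1 (P4 1 1 (P2 1 2 (P5 1 2 (U0 2 1 (F [(25,232),(12,256),(8,146)]) (U2 4 1 (U1 1 1 (P4 1 2 (P2 1 4 (P5 1 4 (F [(12,256),(8,178)]) (U2 1 2 (F [(8,256),(12,229),(25,212)]) (P3 1 1 (P1 1 2 (P5 2 1 (F [(12,256),(8,165)]) (U0 1 1 (U1 2 1 (U2 1 1 (P3 1 2 (P1 1 4 (P5 4 1 (F [(12,256),(8,162)]) (F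 [(12,254),(25,256),(8,155),(22,149)])) (F [(12,256),(8,168),(22,1)])) (F [(12,256),(8,167)])) (F [(12,256),(22,84),(25,107)])) (F [(12,256),(25,95)])) (U2 2 1 (U1 1 1 (P3 1 2 (P1 1 4 (P5 4 1 (F [(12,256),(8,162)]) (F [(22,152),(12,255),(8,155),(25,256)])) (F [(12,256),(22,47),(8,183)])) (F [(12,256),(8,167),(22,1)])) (F [(12,256),(22,98),(25,110)])) (F [(22,161),(12,256)])))) (F [(12,256),(8,182),(22,2)])) (F [(12,256),(8,176)])))) (U2 1 2 (F [(8,242),(25,256),(12,165)]) (P0 1 1 (P3 1 1 (P5 2 1 (F [(8,182),(12,256),(22,2)]) (P1 1 2 (U0 1 1 (U1 2 1 (U2 1 1 (P3 1 2 (P1 1 4 (P5 4 1 (F [(8,256),(12,166),(25,32)]) (F [(8,153),(25,256),(12,235),(22,148)])) (F [(8,256),(12,131),(25,38)])) (F [(8,167),(12,256)])) (F [(12,256),(8,148),(22,148),(25,253)])) (F [(12,256),(8,63),(25,81)])) (U2 2 1 (U1 1 1 (P3 1 2 (P1 1 4 (P5 4 1 (F [(8,256),(22,15),(12,120)])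 (F [(22,151),(8,154),(12,248),(25,256)])) (F [(8,256),(12,113)])) (F [(8,167),(12,256),(22,1)])) (F [(8,149),(12,256),(22,156),(25,249)])) (F [(22,118),(12,256),(8,61)]))) (F [(8,256),(12,161),(25,28)]))) (F [(8,176),(12,256)])) (P1 1 1 (P5 2 1 (F [(8,256),(12,139),(25,31)]) (P3 1 2 (U0 1 1 (U1 2 1 (U2 1 1 (P1 1 2 (P3 1 4 (P5 4 1 (F [(8,256),(12,145),(25,35)]) (F [(8,153),(25,256),(12,235),(22,148)])) (F [(8,256),(25,57)])) (F [(8,256),(25,38)])) (F [(8,153),(25,256),(22,150),(12,252)])) (F [(8,145),(25,256),(12,245),(22,146)])) (F [(22,256),(8,72),(25,87)])) (F [(8,256),(12,139),(25,31)]))) (F [(8,256),(25,40)]))))) (P3 2 1 (U2 1 2 (F [(8,184),(25,256),(12,69)]) (P2 1 1 (P5 1 1 (F [(8,256),(12,160),(25,28)]) (P1 1 2 (P3 1 2 (U0 1 1 (U1 2 1 (U2 1 1 (F [(8,106),(25,256),(12,169)]) (F [(8,146),(12,249),(25,256),(22,137)])) (F [(25,96),(12,256),(8,67)]))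 (U2 2 1 (U1 1 1 (P5 2 1 (F [(8,256),(12,131)]) (F [(8,154),(25,256),(22,149),(12,246)])) (F [(8,150),(12,256),(22,149),(25,250)])) (F [(22,156),(8,151),(12,256),(25,248)]))) (F [(8,256),(25,54),(12,22)])) (F [(8,256),(12,130),(25,33)]))) (P1 1 1 (P5 2 1 (F [(8,256),(25,53)]) (F [(8,9216),(25,16384),(22,9479),(12,14332)])) (F [(8,256),(25,53)])))) (F [(8,256),(25,36)]))) (P4 1 2 (P2 1 4 (F [(12,256),(22,21)]) (U0 1 2 (F [(12,239),(8,139),(25,256),(22,141)]) (P0 1 1 (F [(12,256),(8,49),(22,14)]) (P1 1 1 (P5 2 1 (F [(8,188),(12,256),(22,151),(25,246)]) (P3 1 2 (F [(22,156),(12,254),(8,143),(25,256)]) (F [(8,188),(22,151),(12,256),(25,246)]))) (F [(8,256),(22,146),(25,60)]))))) (P3 2 1 (U0 1 2 (F [(12,234),(25,256),(8,133),(22,133)]) (P2 1 1 (F [(12,256),(8,144),(25,226),(22,133)]) (P1 1 1 (P5 2 1 (F [(8,183),(12,253),(25,256),(22,150)]) (F [(25,256),(12,246),(8,145),(22,151)]))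 (F [(8,165),(25,256),(22,136),(12,169)])))) (F [(8,256),(25,195),(12,203)])))) (P4 1 2 (F [(22,208),(12,256),(8,125),(25,220)]) (P3 2 1 (F [(22,168),(12,256),(8,146),(25,239)]) (F [(22,135),(8,180),(12,256),(25,239)]))))) (U0 2 1 (F [(25,256),(8,3)]) (U2 4 1 (F [(25,256),(8,18),(22,125)]) (P3 1 1 (F [(22,164),(25,256),(12,14)]) (P4 2 1 (F [(22,149),(25,256),(12,117),(8,77)]) (F [(22,145),(8,126),(25,256),(12,184)])))))) (F [(25,256),(8,163),(22,125)])) (F [(25,256),(8,163),(22,125)])) (P2 4 1 (P4 1 2 (P5 1 2 (U0 2 1 (U1 2 1 (U2 1 1 (P2 1 2 (F [(8,180),(12,256),(25,179)]) (F [(8,256),(25,225),(12,193)])) (P2 1 2 (F [(12,256),(8,147),(25,172)]) (P1 2 1 (F [(25,256),(12,241),(8,145),(22,148)]) (F [(8,164),(25,256),(22,160),(12,235)])))) (F [(12,238),(25,256),(8,140),(22,146)])) (U2 4 1 (U1 1 1 (P2 1 2 (P4 1 4 (P5 1 4 (F [(12,256),(8,203),(22,1)])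 (U2 1 2 (F [(8,256),(12,240),(25,199)]) (P1 1 1 (P3 1 2 (P5 2 1 (F [(12,256),(22,1),(8,183)]) (U0 1 1 (U1 2 1 (U2 1 1 (P1 1 2 (P3 1 4 (P5 4 1 (F [(12,256),(8,169)]) (U1 1 2 (F [(8,156),(22,152),(12,251),(25,256)]) (F [(12,250),(25,256),(8,150),(22,150)]))) (F [(12,256),(8,169)])) (F [(8,169),(12,256)])) (F [(12,256),(22,74),(25,91)])) (F [(12,256),(25,41)])) (F [(22,256),(8,76),(25,46)]))) (F [(12,256),(22,1),(8,183)])) (F [(22,1),(12,256),(8,183)])))) (U2 1 2 (F [(8,256),(25,199),(12,240)]) (P0 1 1 (P3 1 1 (P5 2 1 (F [(8,256),(12,139),(25,31)]) (P1 1 2 (U0 1 1 (U1 2 1 (U2 1 1 (P3 1 2 (P1 1 4 (P5 4 1 (F [(8,256),(12,129),(25,38)]) (F [(8,153),(25,256),(22,148),(12,235)])) (F [(8,256),(25,57)])) (F [(8,256),(25,38)])) (F [(8,153),(22,150),(12,252),(25,256)])) (F [(8,145),(25,256),(12,245),(22,146)])) (F [(22,256),(8,64),(25,104)])) (F [(8,256),(12,111)])))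 (F [(8,256),(25,40)])) (P1 1 1 (P5 2 1 (F [(8,183),(22,1),(12,256)]) (P3 1 2 (U0 1 1 (U1 2 1 (U2 1 1 (P1 1 2 (P3 1 4 (P5 4 1 (F [(8,256),(12,130)]) (F [(8,9633),(22,9633),(25,16384),(12,14744)])) (F [(8,256),(12,130)])) (F [(8,169),(12,256)])) (P1 1 2 (F [(22,150),(12,252),(8,152),(25,256)]) (F [(22,1),(8,162),(12,256)]))) (F [(12,256),(8,149),(22,147),(25,256)])) (F [(22,256),(8,64),(25,104)])) (F [(8,256),(12,129)]))) (F [(8,183),(22,1),(12,256)]))))) (P1 2 1 (U2 1 2 (U1 1 2 (F [(8,256),(25,173)]) (P4 1 1 (P5 1 1 (F [(8,256),(12,105)]) (F [(8,256),(25,215),(12,203)])) (F [(8,144),(25,256)]))) (P4 1 1 (P5 1 1 (F [(8,256),(12,105)]) (P3 1 2 (P1 1 2 (U0 1 1 (U1 2 1 (U2 1 1 (P5 2 1 (F [(8,256),(12,109)]) (F [(8,141),(22,156),(25,256),(12,213)])) (P5 2 1 (F [(22,73),(8,256),(12,140)]) (F [(22,158),(8,136),(12,225),(25,256)]))) (F [(22,150),(12,246),(8,148),(25,256)]))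 (F [(22,256),(8,41),(25,208)])) (F [(22,163),(8,163),(12,225),(25,256)])) (F [(8,256),(12,105)]))) (P3 1 1 (P5 2 1 (F [(8,256)]) (F [(22,158),(8,100),(25,256),(12,141)])) (F [(8,256),(25,11)])))) (F [(8,256)]))) (P2 1 2 (P4 1 4 (F [(12,256),(22,21)]) (U0 1 2 (F [(12,245),(22,148),(8,145),(25,256)]) (P0 1 1 (P3 1 1 (P5 2 1 (F [(22,151),(8,188),(12,256),(25,246)]) (P1 1 2 (F [(22,156),(12,254),(8,143),(25,256)]) (F [(22,151),(8,188),(12,256),(25,246)]))) (F [(8,256),(22,146),(25,60)])) (F [(22,18),(12,256),(8,65)])))) (P1 2 1 (U0 1 2 (F [(22,150),(12,241),(8,143),(25,256)]) (P4 1 1 (P5 1 1 (F [(22,73),(8,256),(12,136)]) (P3 1 2 (F [(22,166),(12,234),(8,121),(25,256)]) (F [(22,63),(8,256),(12,159)]))) (P3 1 1 (P5 2 1 (F [(22,94),(8,256),(12,59)]) (F [(22,162),(8,117),(12,211),(25,256)])) (F [(8,150),(22,218),(25,256)])))) (F [(22,256),(8,185),(12,186),(25,254)]))))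 (F [(22,223),(12,256),(8,124),(25,245)]))) (F [(25,256),(22,151),(12,4)])) (F [(25,256),(8,126),(22,143)])) (F [(25,256),(22,171)]))))

def c218 : Cell := ⟨⟨1,0,1⟩, ⟨0,1,0⟩, ⟨0,1,1⟩, ⟨2,1,3,2⟩, ⟨1,1,1,1⟩, ⟨3,3,5,5⟩, ⟨2,1,2,3⟩⟩

def t218 : Tr :=
  P0 1 2 (F [(12,256),(20,1),(25,143)]) (P2 1 1 (F [(12,256),(20,1),(25,143)]) (P1 2 1 (F [(20,2),(12,256),(25,195)]) (U0 1 2 (F [(25,256),(12,119)]) (P0 2 1 (P4 1 1 (P2 1 2 (F [(12,256),(25,134)]) (U2 1 1 (F [(25,256),(20,164)]) (U0 2 1 (F [(12,166),(25,256)]) (F [(12,1044172),(25,1048576),(8,459107)])))) (F [(25,256),(12,190),(8,87)])) (P2 2 1 (P4 1 2 (F [(12,256),(25,81)]) (U2 1 1 (F [(25,256),(12,204)]) (U0 2 1 (F [(12,221),(25,256)]) (P0 1 1 (P3 1 1 (P1 1 2 (F [(25,216),(12,256)]) (P4 1 1 (F [(12,256),(8,18),(22,19)]) (U2 2 1 (F [(25,256),(12,80)]) (U0 4 1 (F [(25,136),(12,256)]) (P0 1 1 (F [(25,256),(12,135)])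 (F [(25,256),(12,225),(22,139),(8,90)])))))) (P4 2 1 (P5 1 1 (F [(12,256),(8,155),(22,5)]) (U2 2 1 (F [(25,256),(12,80)]) (U0 4 1 (F [(25,136),(12,256)]) (P1 1 1 (F [(25,256),(12,173),(8,90)]) (F [(25,256),(12,240),(8,138),(22,122)]))))) (U2 2 1 (F [(25,256),(12,80)]) (U0 4 1 (F [(25,256),(12,228)]) (F [(25,256),(8,114),(12,130),(22,120)]))))) (F [(12,256),(22,20),(8,2)]))))) (P1 4 1 (U2 1 1 (F [(25,256),(12,204)]) (U0 2 1 (F [(25,256),(12,216)]) (P3 1 1 (F [(25,224),(12,256),(22,107)]) (P4 1 1 (P5 1 2 (P2 1 2 (F [(12,256),(22,11),(8,96)]) (F [(25,256),(12,160),(22,139),(8,80)])) (U2 2 1 (F [(25,256),(12,80)]) (F [(25,256),(12,141),(22,146),(8,61)]))) (P0 1 2 (U2 2 1 (F [(25,256),(12,80)]) (F [(25,256),(8,67),(12,84),(22,141)])) (U2 2 1 (F [(25,256),(12,80)]) (F [(25,256),(12,84),(22,141),(8,67)]))))))) (U2 1 1 (F [(25,256),(12,83)]) (U0 2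 1 (F [(25,256),(12,129),(22,115)]) (P0 4 1 (P4 1 1 (P2 1 2 (P5 1 2 (F [(12,256),(25,117),(22,80),(8,120)]) (F [(25,256),(12,139),(22,145),(8,81)])) (F [(25,256),(22,141),(8,89),(12,112)])) (F [(25,256),(8,89),(12,112),(22,141)])) (P2 4 1 (P4 1 2 (P5 1 2 (F [(12,256),(22,173),(25,256),(8,111)]) (F [(25,256),(22,158),(12,30)])) (F [(25,256),(22,155),(12,2)])) (F [(25,256),(22,171),(12,5)])))))))))))

def c219 : Cell := ⟨⟨1,0,0⟩, ⟨0,1,0⟩, ⟨1,0,1⟩, ⟨2,1,3,2⟩, ⟨1,1,1,1⟩, ⟨3,3,5,5⟩, ⟨2,1,2,3⟩⟩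

def t219 : Tr :=
  P0 1 2 (F [(12,16384),(20,6114),(25,12444),(22,1249)]) (P2 1 1 (F [(12,16384),(20,6114),(22,1249),(25,12444)]) (P1 2 1 (U0 1 1 (F [(20,81),(12,256),(25,244)]) (U2 2 1 (F [(12,256),(20,39),(22,29),(25,212)]) (F [(22,72),(34,132),(12,112),(25,256)]))) (U0 1 1 (U1 2 1 (U2 1 1 (P0 2 1 (P4 1 1 (P2 1 2 (F [(12,256),(25,129),(21,3)]) (U1 1 2 (U2 1 2 (P0 1 1 (F [(12,256)]) (P1 1 1 (F [(12,256),(25,216)]) (P2 2 1 (F [(12,256),(25,179),(8,45)]) (F [(25,256),(12,202),(8,82)])))) (F [(12,191),(25,256),(22,87)])) (F [(12,181),(25,256),(22,66)]))) (F [(25,256),(12,166),(8,34)])) (P2 2 1 (P4 1 2 (F [(12,256),(25,81)]) (U1 1 2 (U2 1 2 (P0 1 1 (P3 1 1 (F [(12,256),(25,243),(22,200)]) (P4 2 1 (P5 1 1 (F [(12,256),(22,46),(8,114)]) (U1 1 4 (U2 1 4 (P1 1 1 (F [(25,256),(12,222),(8,57)]) (F [(12,256),(25,224),(22,131),(8,102)])) (F [(12,256),(25,209),(22,122)]))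 (F [(12,256),(25,138),(22,1)]))) (U1 1 4 (F [(25,256),(22,123),(12,148),(8,109)]) (F [(25,256),(12,172),(22,90)])))) (F [(12,256),(22,54)])) (F [(12,203),(22,110),(25,256)])) (F [(12,213),(25,256),(22,57)]))) (P1 4 1 (U1 1 2 (U2 1 2 (P3 1 1 (F [(12,256),(25,243),(22,167)]) (P4 1 1 (F [(22,211),(12,189),(25,256)]) (F [(25,256),(22,199),(12,81)]))) (F [(12,203),(22,110),(25,256)])) (F [(12,213),(25,256),(22,57)])) (U1 1 2 (U2 1 2 (P0 4 1 (P4 1 1 (F [(22,256),(12,177),(25,235)]) (F [(22,199),(25,256),(12,81)])) (F [(22,256),(25,79),(12,37)])) (F [(22,149),(12,159),(25,256)])) (F [(12,140),(22,139),(25,256)]))))) (P0 2 1 (F [(12,226),(25,256),(22,72)]) (F [(12,214),(22,138),(25,256)]))) (F [(12,203),(25,256),(21,33),(22,74)])) (U2 2 1 (U1 1 1 (P0 2 1 (P4 1 1 (P2 1 2 (F [(12,256),(22,42),(25,138)]) (U2 1 2 (U1 1 2 (P0 1 1 (F [(12,256)]) (P1 1 1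 (F [(12,256),(22,41),(25,216)]) (P2 2 1 (F [(12,256),(22,20),(25,137)]) (F [(22,105),(25,256),(12,216),(8,99)])))) (F [(12,224),(22,147),(25,256)])) (F [(22,256),(12,132)]))) (P3 2 1 (U2 1 2 (U1 1 2 (P1 1 1 (F [(12,256),(25,245),(22,64)]) (P2 1 1 (F [(12,256),(25,216),(22,41)]) (F [(25,256),(22,95),(12,206),(8,92)]))) (F [(12,224),(25,256),(22,147)])) (F [(22,190),(12,256),(25,236)])) (U2 1 2 (U1 1 2 (P0 1 2 (F [(25,256),(12,230),(22,46)]) (P2 1 1 (F [(12,246),(25,256),(22,43)]) (F [(25,256),(8,94),(12,206),(22,96)]))) (F [(25,256),(12,212),(22,92)])) (F [(22,107),(12,220),(25,256)])))) (P2 2 1 (P4 1 2 (F [(12,256),(22,27),(25,98)]) (U2 1 2 (U1 1 2 (P0 1 1 (P3 1 1 (F [(22,217),(12,256),(25,228)]) (P4 2 1 (F [(22,135),(12,256),(25,235),(8,83)]) (F [(22,136),(25,256),(12,217),(8,104)]))) (F [(22,256),(12,228),(25,144)])) (F [(22,256),(12,26),(25,34)]))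 (F [(22,256),(34,14),(21,12)]))) (F [(22,256),(12,27),(25,167)]))) (P0 2 1 (F [(12,256),(22,84),(25,217)]) (F [(22,256),(34,21),(21,5)]))) (F [(22,164),(12,256),(21,40),(25,192)])))))

def c220 : Cell := ⟨⟨1,0,0⟩, ⟨0,1,0⟩, ⟨0,0,1⟩, ⟨2,0,3,3⟩, ⟨2,1,3,2⟩, ⟨1,1,3,3⟩, ⟨1,0,1,2⟩⟩

def t220 : Tr :=
  P4 1 2 (F [(12,36),(34,128),(20,256)]) (U2 1 1 (U1 1 1 (P0 1 1 (P3 1 1 (F [(12,256),(34,120),(25,28)]) (P4 2 1 (F [(12,256),(34,46),(22,22)]) (U2 1 2 (U1 1 2 (P0 1 2 (P3 2 1 (P1 1 2 (F [(25,162),(12,256)]) (P4 1 1 (U2 1 4 (F [(25,179),(12,256),(8,228)]) (P5 1 2 (F [(12,256),(8,221),(25,1)]) (P1 2 1 (F [(12,256),(25,237),(8,103),(22,181)]) (F [(12,256),(25,171),(8,196),(22,132)])))) (U2 1 4 (F [(25,256),(8,113)]) (P0 1 1 (F [(25,256),(12,158),(22,145)]) (P1 2 1 (F [(25,256),(12,187),(8,42),(22,162)]) (F [(25,216),(8,217),(12,256),(22,142)])))))) (P4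 4 1 (P5 1 1 (F [(8,221),(25,1),(12,256)]) (U2 1 4 (F [(25,256),(8,113)]) (P1 1 1 (F [(25,256),(8,175),(12,236),(22,104)]) (F [(8,217),(25,216),(12,256),(22,142)])))) (F [(25,182),(8,256)]))) (P1 1 1 (P3 1 2 (F [(12,256),(25,62)]) (U2 1 4 (F [(25,195),(12,256),(8,217)]) (P5 1 2 (F [(12,16384),(25,9460),(8,10899),(22,7421)]) (P0 1 1 (P3 2 1 (F [(12,256),(25,251),(8,102),(22,193)]) (F [(12,256),(8,198),(25,175),(22,135)])) (F [(12,256),(25,12),(8,59)]))))) (F [(12,16384),(8,10931),(22,6997),(25,9030)]))) (P0 1 2 (P3 2 1 (P1 1 2 (F [(25,162),(12,256)]) (P4 1 1 (U0 1 2 (F [(12,256),(25,89),(8,93)]) (P5 1 2 (F [(12,256),(8,187),(22,11)]) (P1 2 1 (F [(12,256),(25,221),(22,222)]) (F [(12,256),(25,164),(8,154),(22,152)])))) (U0 1 2 (F [(25,120),(12,256),(8,48)]) (P0 1 1 (F [(25,256),(12,171),(22,181)]) (P1 2 1 (F [(25,256),(12,183),(22,212)]) (P2 2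 1 (F [(25,253),(12,256),(8,128),(22,189)]) (F [(25,256),(12,158),(8,111),(22,214)]))))))) (P4 4 1 (P5 1 1 (F [(12,256),(8,166),(22,15)]) (U0 1 2 (F [(25,120),(12,256),(8,48)]) (P1 1 1 (F [(25,256),(12,208),(8,159),(22,50)]) (P2 2 1 (U2 1 1 (F [(25,256),(12,190)]) (U0 2 1 (F [(12,256),(25,232),(8,33)]) (F [(12,244),(25,256),(8,175),(22,154)]))) (U2 1 1 (F [(25,256),(8,137),(12,165),(22,115)]) (U0 2 1 (F [(25,256),(8,131),(12,176),(22,171)]) (F [(8,171),(22,186),(25,256),(12,185)]))))))) (U0 1 2 (F [(25,256),(8,53),(12,127),(22,139)]) (F [(25,256),(8,127),(12,6),(22,119)])))) (P1 1 1 (P3 1 2 (F [(12,256)]) (U0 1 2 (F [(12,256),(25,89),(8,93)]) (P5 1 2 (F [(12,256),(22,169),(25,145),(8,134)]) (P0 1 1 (P3 2 1 (F [(12,218),(25,256),(22,247)]) (F [(12,256),(25,220),(22,203),(8,158)])) (F [(12,256)]))))) (F [(12,256),(22,184),(25,156),(8,114)]))))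 (P0 1 2 (P3 2 1 (P1 1 2 (F [(12,256),(25,175),(22,62)]) (P4 1 1 (F [(12,256),(22,160)]) (U0 1 1 (U1 2 1 (U2 1 1 (P0 1 1 (F [(25,256),(12,186),(22,220)]) (F [(12,155),(22,256),(25,185)])) (F [(12,117),(25,256),(22,234)])) (F [(12,256),(25,71)])) (U2 2 1 (U1 1 1 (P0 1 1 (F [(22,252),(12,198),(25,256)]) (F [(22,256),(12,94)])) (F [(22,256),(12,142),(25,230)])) (F [(22,256),(12,110),(25,213)]))))) (P4 4 1 (P5 1 1 (F [(12,256),(22,62),(8,126)]) (U0 1 1 (U1 2 1 (U2 1 1 (P1 1 1 (P3 1 2 (F [(25,256),(12,169),(22,174)]) (U1 1 2 (U2 1 2 (P0 1 1 (F [(12,256),(25,234),(8,174),(22,106)]) (F [(25,256),(12,238),(8,137),(22,177)])) (P0 1 1 (F [(12,254),(25,256),(22,111),(8,153)]) (F [(12,227),(25,256),(22,179),(8,116)]))) (F [(12,256),(25,182),(22,36)]))) (P2 2 1 (U1 1 2 (U2 1 2 (P3 1 1 (F [(12,244),(22,188),(25,256),(8,140)]) (F [(12,256),(8,255),(25,18)]))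 (P3 1 1 (F [(12,229),(22,215),(25,256),(8,107)]) (F [(12,256),(22,128),(8,172),(25,158)]))) (F [(12,256),(25,182),(22,36)])) (U1 1 2 (F [(22,227),(8,162),(12,183),(25,256)]) (F [(12,253),(22,194),(25,256),(8,124)])))) (F [(12,256),(25,253),(22,213)])) (F [(12,256),(25,71)])) (U2 2 1 (U1 1 1 (P1 1 1 (P3 1 2 (F [(22,174),(25,256),(12,169)]) (U2 1 2 (U1 1 2 (P0 1 1 (P4 1 1 (F [(12,256),(22,184),(8,140),(25,251)]) (P3 2 1 (F [(8,142),(22,182),(12,256),(25,251)]) (F [(8,256),(12,131)]))) (F [(22,204),(12,233),(25,256),(8,126)])) (P0 1 1 (P4 1 1 (F [(12,231),(22,234),(25,256),(8,64)]) (P3 2 1 (F [(12,248),(22,207),(8,112),(25,256)]) (F [(12,256),(22,52),(8,179)]))) (F [(22,256),(12,127),(25,220)]))) (F [(22,224),(12,256),(25,106)]))) (F [(22,256),(12,135),(8,76)])) (F [(22,217),(12,256),(25,207)])) (F [(22,256),(12,105),(25,177)])))) (U0 1 1 (U1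 2 1 (U2 1 1 (P0 1 4 (P3 4 1 (P1 1 2 (P5 2 1 (P4 1 1 (U1 1 2 (P2 1 2 (F [(25,256),(8,163),(12,212),(22,50)]) (F [(25,256)])) (F [(25,241),(12,256),(22,52)])) (F [(25,256)])) (F [(25,256)])) (P4 1 1 (U1 1 2 (P5 1 2 (F [(8,177),(25,256),(22,182),(12,202)]) (F [(25,256),(22,51)])) (P5 1 2 (F [(25,256),(8,167),(12,208),(22,168)]) (F [(25,256),(22,51)]))) (F [(25,256),(8,134),(22,2)]))) (F [(25,67),(8,256)])) (P1 1 1 (P3 1 2 (P5 2 1 (U1 1 2 (P4 1 2 (U2 1 2 (F [(25,256),(8,239),(22,115)]) (P2 1 1 (F [(25,256),(8,154),(12,250),(22,108)]) (F [(25,256),(22,206),(12,2)]))) (F [(25,256),(22,13)])) (F [(25,243),(12,256),(22,87)])) (F [(25,256),(22,130)])) (U1 1 2 (P5 1 2 (F [(8,159),(25,256),(22,222),(12,174)]) (F [(25,256),(22,51)])) (P5 1 2 (F [(25,256),(8,132),(12,200),(22,185)]) (F [(25,256),(22,51)])))) (U1 1 2 (F [(8,159),(22,222),(25,256),(12,174)])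 (F [(8,128),(25,256),(22,192),(12,198)])))) (P0 1 4 (P3 4 1 (P1 1 2 (P5 2 1 (P4 1 1 (F [(25,241),(12,256),(22,52)]) (F [(25,256)])) (F [(25,256),(12,73)])) (P4 1 1 (U0 2 1 (P5 1 2 (F [(25,256),(8,178),(12,202),(22,139)]) (F [(25,256),(22,51)])) (P5 1 2 (F [(25,256),(12,200),(22,185),(8,134)]) (F [(25,256),(22,103),(12,27)]))) (F [(25,256),(22,141)]))) (P4 8 1 (P5 1 1 (F [(25,256),(8,134),(12,200),(22,185)]) (F [(25,256),(22,141)])) (F [(25,256),(22,146)]))) (P1 1 1 (P3 1 2 (F [(25,250),(12,256),(22,184)]) (U0 2 1 (P5 1 2 (F [(25,256),(12,201),(8,119),(22,205)]) (F [(25,256),(22,51)])) (P5 1 2 (F [(22,247),(12,214),(25,256),(8,114)]) (F [(25,256),(22,103),(12,27)])))) (F [(22,205),(12,201),(25,256),(8,119)])))) (F [(25,256),(12,98),(22,171)])) (U2 2 1 (U1 1 1 (P0 1 4 (P3 4 1 (P1 1 2 (P5 2 1 (P4 1 1 (U2 1 2 (P2 1 2 (U1 1 2 (F [(8,256),(25,242),(22,115)])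 (P5 1 2 (F [(8,218),(22,154),(25,256),(12,242)]) (F [(25,256),(8,108),(22,197),(12,162)]))) (F [(25,256),(22,190)])) (P2 1 2 (P5 1 2 (F [(22,211),(8,173),(12,215),(25,256)]) (F [(22,256),(25,223),(12,110)])) (F [(22,194),(25,256)]))) (F [(25,256),(22,176)])) (F [(25,256),(22,176)])) (P4 1 1 (U2 1 2 (P5 1 2 (F [(8,192),(22,205),(25,256),(12,193)]) (F [(25,256),(22,190)])) (P5 1 2 (F [(22,217),(8,200),(25,256),(12,187)]) (F [(22,194),(25,256)]))) (F [(25,256),(22,182)]))) (F [(8,256),(25,68),(22,19)])) (P1 1 1 (P3 1 2 (P5 2 1 (U2 1 2 (P4 1 2 (U1 1 2 (F [(8,256),(22,117),(25,243)]) (P2 1 1 (P5 1 2 (F [(8,172),(22,230),(12,249),(25,256)]) (F [(22,197),(25,256),(8,108),(12,162)])) (F [(22,256),(25,221),(8,10)]))) (F [(25,256),(22,190)])) (F [(22,256),(25,123),(12,114)])) (F [(25,256),(22,176)])) (F [(22,256),(8,39),(25,39)])) (F [(22,256),(8,79),(12,41)])))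 (P0 1 4 (P3 4 1 (P1 1 2 (P5 2 1 (P4 1 1 (U0 1 2 (F [(22,117),(12,249),(25,256),(8,30)]) (P2 1 2 (F [(22,234),(12,202),(8,108),(25,256)]) (F [(22,196),(25,256)]))) (F [(25,256),(22,180),(12,9)])) (F [(25,256),(22,177),(12,10)])) (P4 1 1 (U0 1 2 (P5 1 2 (F [(22,202),(12,205),(25,256),(8,132)]) (F [(22,194),(25,256),(12,5)])) (P5 1 2 (F [(22,256),(8,225),(12,164),(25,249)]) (F [(22,196),(25,256)]))) (F [(22,176),(25,256)]))) (P4 8 1 (P5 1 1 (F [(22,229),(8,132),(25,256),(12,198)]) (F [(22,176),(25,256)])) (F [(25,256),(22,182)]))) (P1 1 1 (P3 1 2 (F [(22,256),(25,193),(12,189)]) (F [(22,256),(25,17)])) (F [(22,256),(12,106),(8,46)])))) (F [(22,256),(12,43),(25,131)]))))) (P1 1 1 (P3 1 2 (F [(12,256)]) (F [(12,256),(22,160)])) (F [(12,245),(22,256)])))))) (F [(12,31),(34,256),(25,10)])) (P0 1 1 (P3 1 1 (F [(12,80),(34,256),(22,8),(25,193)]) (P4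 2 1 (F [(12,256),(34,32),(20,20),(21,83)]) (U0 1 2 (F [(12,189),(25,256),(22,80)]) (P0 1 2 (P3 2 1 (F [(12,256),(22,57),(25,87)]) (P4 4 1 (F [(12,256),(22,57),(25,87)]) (U2 1 1 (F [(25,256),(12,127),(22,164)]) (F [(22,256),(12,43),(25,131)])))) (F [(12,256),(34,32),(20,15),(21,3)]))))) (F [(34,256),(20,142),(1,89),(22,28)]))) (F [(34,256),(12,25),(22,111),(25,169)]))

def c221 : Cell := ⟨⟨1,0,0⟩, ⟨0,1,0⟩, ⟨0,0,1⟩, ⟨1,0,2,1⟩, ⟨2,1,3,2⟩, ⟨1,1,3,3⟩, ⟨2,0,3,3⟩⟩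

def t221 : Tr :=
  P1 2 1 (U2 1 1 (U1 1 1 (P3 1 1 (P5 1 1 (F [(12,256),(34,42),(22,122),(25,128)]) (P1 1 2 (F [(12,256),(34,140),(25,98),(21,4)]) (F [(12,256),(22,189),(25,208),(21,109)]))) (P4 1 1 (P5 1 2 (F [(34,29),(22,256)]) (U2 1 2 (U1 1 2 (P0 1 1 (F [(12,256),(22,46)]) (F [(12,256),(22,179),(25,199),(21,24)])) (F [(12,256),(22,73),(25,48),(21,37)])) (F [(22,44),(12,256),(21,58)]))) (P0 1 2 (U2 1 2 (U1 1 2 (P3 2 1 (P5 1 1 (P4 1 2 (P2 1 2 (F [(12,256),(22,135),(8,130),(25,130)]) (F [(25,256),(22,237),(12,128),(8,56)])) (U2 1 4 (F [(25,256),(8,89),(12,110)]) (F [(25,256),(12,158),(22,183)]))) (F [(25,256),(12,109),(22,163)])) (P4 2 1 (P5 1 2 (P2 1 2 (F [(22,151),(8,197),(12,256),(25,154)]) (F [(8,75),(25,256),(22,250),(12,112)])) (U2 1 4 (F [(25,256),(8,205),(12,46)]) (P0 1 1 (P3 1 1 (F [(25,256),(12,121),(22,192)]) (F [(8,4),(25,256),(22,244),(12,13)]))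 (F [(25,256),(22,190),(12,128)])))) (F [(25,256),(8,171),(22,128)]))) (P3 2 1 (P5 1 1 (P4 1 2 (F [(12,103),(22,256),(25,181)]) (F [(25,256),(12,167),(22,181)])) (F [(25,256),(12,111),(22,171)])) (P4 2 1 (P5 1 2 (P2 1 2 (F [(12,256),(22,65),(25,47),(8,158)]) (F [(22,256),(25,240),(12,96),(8,40)])) (U0 1 2 (F [(25,256),(12,188),(22,160),(8,15)]) (P0 1 1 (P3 1 1 (F [(25,256),(12,133),(22,189)]) (F [(25,256),(22,246),(12,9)])) (F [(25,256),(22,189),(12,133)])))) (P0 1 4 (U0 1 2 (F [(25,256),(8,53),(12,127),(22,139)]) (F [(25,256),(8,61),(22,186)])) (U0 1 2 (F [(25,256),(12,127),(22,170),(8,24)]) (F [(25,256),(22,186),(8,61)])))))) (P3 2 1 (P5 1 1 (P4 1 2 (F [(22,256),(34,170),(25,245)]) (F [(22,200),(12,172),(25,256)])) (F [(12,128),(25,256),(22,186)])) (P4 2 1 (P5 1 2 (F [(22,256),(34,7),(12,83),(25,166)]) (U0 1 1 (U1 2 1 (F [(22,250),(25,256),(12,9)])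 (F [(25,256),(12,223),(22,185)])) (F [(22,256),(25,206)]))) (P0 1 4 (U0 1 1 (U1 2 1 (F [(25,256),(22,249),(12,4)]) (F [(25,256),(12,74),(22,198)])) (F [(22,256),(25,212)])) (U0 1 1 (U1 2 1 (F [(22,249),(25,256),(12,4)]) (F [(25,256),(12,133),(22,196)])) (F [(22,256),(25,212)])))))) (U2 1 2 (U1 1 2 (P1 1 1 (P5 1 1 (P2 1 2 (P4 1 2 (F [(12,256),(22,151),(8,127),(25,147)]) (F [(22,243),(25,256),(12,109)])) (F [(25,256),(12,102),(22,209)])) (F [(25,256),(12,113),(22,184)])) (F [(22,256),(12,39),(25,147)])) (P1 1 1 (P5 1 1 (F [(12,87),(22,256),(25,175)]) (F [(25,256),(12,113),(22,179)])) (F [(22,256),(34,70),(25,191)]))) (P1 1 1 (P5 1 1 (F [(22,256),(34,141),(25,227)]) (F [(22,186),(12,128),(25,256)])) (F [(22,256),(34,92),(25,196)])))))) (P3 1 1 (P5 1 1 (F [(12,256),(22,12),(7,30)]) (P1 1 2 (F [(20,105),(34,256),(25,112),(22,25),(21,176)]) (F [(1,2),(9,7),(12,256),(7,125)])))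 (P4 1 1 (F [(12,256),(22,12),(7,30)]) (P0 1 2 (U0 1 2 (F [(12,182),(25,256),(22,91)]) (P3 2 1 (F [(12,256),(22,144),(25,181)]) (P4 2 1 (F [(22,144),(12,256),(25,181)]) (P0 1 4 (U2 1 1 (F [(25,256),(12,127),(22,164)]) (F [(22,256),(12,36),(25,212)])) (U2 1 1 (F [(25,256),(12,166),(22,186)]) (F [(22,256),(12,88),(25,234)])))))) (F [(12,256),(34,51),(22,145),(25,179),(21,18)]))))) (F [(22,117),(34,256),(12,25),(20,3),(25,170)])) (U2 1 1 (U1 1 1 (P0 2 1 (P4 1 1 (F [(22,256),(34,4)]) (P3 2 1 (F [(22,256),(12,3),(25,128)]) (U2 1 2 (U1 1 2 (P0 1 2 (P4 2 1 (F [(8,60),(22,256),(25,161),(12,25)]) (F [(8,109),(25,256),(22,243)])) (F [(22,256),(25,123)])) (P0 1 2 (P4 2 1 (P2 1 2 (P5 1 2 (F [(22,218),(12,256),(8,175),(25,191)]) (F [(22,256),(25,248),(12,49),(8,41)])) (F [(22,256),(25,248),(8,41),(12,49)])) (F [(25,256),(8,55),(22,222),(12,24)])) (F [(22,256),(25,131),(12,9)])))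 (P0 1 2 (P4 2 1 (F [(22,256),(12,60),(25,162)]) (P3 4 1 (F [(22,256),(25,224),(12,28)]) (U0 1 1 (F [(25,256),(22,243),(12,4)]) (F [(22,256),(8,20),(25,162)])))) (F [(22,256),(34,23),(25,153)]))))) (O 6)) (P0 2 1 (P4 1 1 (F [(34,38),(22,256),(29,10)]) (P3 2 1 (F [(22,230),(34,173),(25,256)]) (U0 1 2 (U1 2 1 (P0 1 2 (F [(12,127),(25,256),(22,164)]) (F [(22,256),(34,56),(25,196)])) (P0 1 2 (F [(12,134),(22,189),(25,256)]) (F [(34,118),(22,232),(25,256)]))) (P0 1 2 (P4 2 1 (F [(22,256),(12,61),(25,170)]) (P3 4 1 (F [(22,256),(12,39),(25,243)]) (U2 1 1 (F [(25,256),(22,191),(12,84)]) (F [(22,256),(25,171)])))) (F [(22,256),(34,59),(25,187)]))))) (O 6))) (P0 2 1 (F [(22,256),(12,190),(21,85),(25,59)]) (O 6)))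

def c222 : Cell := ⟨⟨1,0,0⟩, ⟨0,1,0⟩, ⟨0,0,1⟩, ⟨3,0,3,2⟩, ⟨2,1,3,2⟩, ⟨1,0,2,1⟩, ⟨1,0,1,2⟩⟩

def t222 : Tr :=
  P5 1 1 (P2 1 2 (P4 1 2 (F [(34,256),(20,79)]) (U2 1 1 (P0 1 2 (U1 1 1 (P3 1 1 (F [(12,256),(8,172),(35,26)]) (P4 2 1 (F [(12,256),(8,172),(35,27)]) (U2 1 2 (P0 1 4 (U1 1 2 (F [(8,256),(25,17),(12,145)]) (P3 2 1 (F [(12,256),(22,4),(8,228)]) (P4 4 1 (F [(12,256),(8,228),(22,4)]) (F [(8,256),(25,119),(12,167)])))) (F [(12,234),(8,256)])) (P0 1 4 (P3 2 1 (F [(12,256),(22,174),(8,80)]) (P4 4 1 (F [(12,256),(22,44),(8,193)]) (U0 1 1 (U1 2 1 (P0 1 8 (U2 1 1 (F [(8,256),(22,8),(12,90)]) (P3 4 1 (F [(8,205),(22,216),(12,228),(25,256)]) (P4 8 1 (F [(8,193),(25,256),(22,198),(12,218)]) (F [(8,87),(25,256),(22,240)])))) (F [(8,256),(22,42),(12,220)])) (P0 1 8 (F [(25,256),(8,10),(12,101),(22,173)]) (F [(12,256),(8,244),(22,1)]))) (F [(22,256),(8,49),(25,21)]))))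 (F [(34,14),(12,245),(8,256)]))))) (P3 1 1 (F [(12,256),(34,138)]) (P4 2 1 (F [(12,256),(34,92)]) (U0 1 2 (F [(12,225),(22,63),(25,256)]) (P0 1 4 (P3 2 1 (F [(12,256),(34,64)]) (P4 4 1 (F [(12,256),(34,60)]) (U2 1 1 (U1 1 2 (P0 1 8 (F [(25,256),(12,112),(8,15),(22,176)]) (F [(12,256),(22,10),(8,224)])) (P0 1 8 (F [(12,113),(22,228),(25,256)]) (F [(12,245),(22,256)]))) (F [(22,256),(25,52)])))) (F [(12,256),(34,70)])))))) (U1 1 1 (U2 1 2 (P0 2 1 (F [(34,251),(12,256),(8,239),(35,150)]) (F [(34,256)])) (F [(34,256)])) (F [(12,256),(34,122)]))) (F [(12,256),(22,216),(25,47)]))) (U2 1 1 (P4 2 1 (U1 1 1 (P1 1 1 (U2 1 2 (P3 1 4 (F [(34,256)]) (F [(34,256),(8,83),(35,151)])) (F [(34,256)])) (F [(34,256),(8,80),(35,198)])) (F [(12,28),(34,256)])) (U1 1 1 (P0 1 1 (P3 1 1 (F [(34,256),(8,237)]) (U2 1 2 (P4 4 1 (F [(8,256),(22,171),(12,180)]) (U1 1 2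 (F [(8,256),(12,123)]) (P0 1 2 (P3 2 1 (F [(8,256),(12,208),(25,50)]) (F [(8,256),(25,119),(12,167)])) (F [(8,256),(22,164),(12,188)])))) (P4 4 1 (F [(34,126),(8,256),(12,159)]) (P0 1 2 (P3 2 1 (F [(22,46),(8,256),(12,227),(25,51)]) (U0 1 1 (U1 2 1 (F [(8,256),(22,153)]) (P4 8 1 (F [(8,244),(12,256),(22,1)]) (F [(8,11),(25,256),(22,237),(12,16)]))) (F [(22,256),(8,166),(25,99)]))) (F [(8,256),(34,156),(12,109)]))))) (F [(34,256),(8,237)])) (P0 1 1 (P3 1 1 (F [(34,256),(8,89)]) (U0 1 2 (P4 4 1 (F [(12,256),(34,2),(8,179)]) (U1 2 1 (P0 1 2 (F [(12,205),(22,98),(25,256),(8,47)]) (F [(12,256),(8,240)])) (F [(12,55),(34,219),(25,256)]))) (P4 4 1 (F [(34,91),(12,256),(8,162)]) (P0 1 2 (P3 2 1 (F [(34,45),(12,256),(8,187)]) (U2 1 1 (U1 1 2 (P4 8 1 (F [(12,256),(8,224),(22,10)]) (F [(25,256),(8,11),(12,16),(22,237)])) (P4 8 1 (F [(12,256),(22,255),(8,13)])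 (F [(22,252),(12,46),(8,32),(25,256)]))) (F [(22,256),(8,21),(25,97)]))) (F [(34,40),(12,228),(8,256)]))))) (F [(34,256),(8,113)])))) (F [(34,256),(12,75),(22,117),(25,114)]))) (U2 1 1 (U1 1 1 (P0 1 1 (P3 1 2 (F [(22,256),(8,11)]) (P4 1 1 (F [(22,256),(34,26)]) (U2 1 2 (U1 1 2 (F [(8,256),(22,49),(12,83)]) (P0 1 2 (P3 2 1 (F [(22,256),(8,27),(25,72)]) (P4 2 1 (F [(8,69),(22,256),(25,175),(12,76)]) (F [(8,153),(25,256),(22,178),(12,91)]))) (F [(8,103),(22,256),(12,46)]))) (P0 1 2 (P3 2 1 (F [(22,256),(8,27),(25,72)]) (P4 2 1 (F [(22,256),(8,31),(12,67),(25,168)]) (U0 1 1 (F [(22,245),(25,256),(12,1)]) (F [(22,256),(8,20),(25,162)])))) (F [(22,256),(8,123),(12,67)]))))) (F [(22,256),(34,42),(8,54)])) (P0 1 1 (P3 1 2 (F [(22,256),(34,58),(29,1)]) (P4 1 1 (F [(34,63),(22,256)]) (U0 1 2 (U1 2 1 (P0 1 2 (P3 2 1 (F [(22,256),(12,40),(20,1),(25,160),(8,26)])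 (F [(12,128),(22,164),(25,256),(8,2)])) (F [(22,256),(12,52),(8,87)])) (P0 1 2 (P3 2 1 (F [(34,150),(22,212),(25,256)]) (F [(12,76),(34,71),(22,132),(25,256)])) (F [(12,26),(34,256)]))) (P0 1 2 (P3 2 1 (F [(22,256),(8,27),(25,72)]) (P4 2 1 (F [(22,256),(12,64),(8,17),(25,170)]) (U2 1 1 (F [(22,241),(25,256),(8,5),(12,9)]) (F [(22,256),(25,171)])))) (F [(22,256),(8,123),(12,67)]))))) (F [(34,34),(22,256),(8,23)]))) (P0 1 1 (P3 1 2 (F [(22,20),(34,256),(29,92)]) (F [(34,256),(22,195),(12,89),(21,26),(25,190)])) (F [(34,256),(12,38),(22,150),(29,81)])))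

def c223 : Cell := ⟨⟨1,0,0⟩, ⟨0,1,0⟩, ⟨0,0,1⟩, ⟨3,0,3,2⟩, ⟨2,1,2,3⟩, ⟨2,1,3,2⟩, ⟨1,0,1,2⟩⟩

def t223 : Tr :=
  P2 1 2 (P5 1 2 (U2 1 1 (U1 1 1 (P4 1 2 (F [(34,256),(20,81)]) (F [(12,29),(20,41),(34,252),(35,256)])) (F [(12,256),(5,27),(34,78)])) (F [(12,256),(34,125)])) (U2 1 1 (P1 1 2 (U1 1 1 (P3 1 1 (P5 2 1 (F [(12,256),(8,172),(35,35)]) (U2 1 2 (P1 1 4 (U1 1 2 (F [(8,256),(25,34),(12,175)]) (P3 1 2 (P5 4 1 (F [(12,256),(8,228)]) (F [(25,133),(8,256),(12,138)])) (F [(12,256),(25,30),(8,250)]))) (F [(12,225),(20,4),(8,256)])) (P1 1 4 (P3 1 2 (P5 4 1 (F [(12,256),(22,6),(8,222)]) (U0 1 1 (U1 2 1 (P1 1 8 (U2 1 1 (F [(8,256),(25,27),(12,104)]) (P3 1 4 (P5 8 1 (F [(8,191),(25,256),(12,221),(22,170)]) (F [(25,256),(8,185),(22,127)])) (F [(25,146),(8,252),(12,256)]))) (F [(8,256),(12,235),(22,5)])) (P1 1 8 (F [(25,256),(12,149),(8,70),(22,125)])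 (F [(12,238),(8,256)]))) (U2 2 1 (P1 1 8 (U1 1 1 (F [(8,256),(12,92)]) (P3 1 4 (P5 8 1 (F [(8,256),(22,171),(25,244),(12,240)]) (F [(8,185),(22,127),(25,256)])) (F [(8,256),(12,205),(25,89)]))) (F [(8,256),(22,8),(12,236)])) (P1 1 8 (P3 1 4 (P5 8 1 (F [(22,202),(8,180),(12,242),(25,256)]) (F [(22,111),(8,256),(25,199)])) (F [(22,158),(12,256),(8,204),(25,215)])) (F [(22,36),(12,244),(8,256)]))))) (F [(12,256),(8,202)])) (F [(12,256),(34,3),(8,253)])))) (F [(12,256),(35,63),(8,147)])) (P3 1 1 (P5 2 1 (F [(12,256),(34,49)]) (U0 1 2 (F [(12,225),(25,256),(22,63)]) (P1 1 4 (P3 1 2 (P5 4 1 (F [(12,256),(34,50)]) (U2 1 1 (U1 1 2 (P1 1 8 (F [(25,256),(12,149),(8,70),(22,125)]) (F [(12,256),(8,251),(22,7)])) (P1 1 8 (F [(12,149),(25,256),(22,125),(8,70)]) (F [(12,256),(22,39),(8,231)]))) (U0 2 1 (P1 1 8 (F [(12,142),(22,150),(25,256),(8,24)]) (F [(12,256),(22,59),(8,237)]))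 (P1 1 8 (P3 1 4 (F [(22,225),(12,116),(25,256)]) (F [(22,197),(12,256),(8,170),(25,256)])) (F [(22,36),(12,244),(8,256)]))))) (F [(12,256),(34,45)])) (F [(12,256),(34,70)])))) (F [(12,256),(34,23)]))) (U1 1 1 (P0 1 2 (F [(12,256),(35,89),(8,124)]) (U2 1 2 (P1 2 1 (F [(12,256),(34,109),(35,207),(8,147)]) (F [(34,256),(20,11),(35,238)])) (F [(12,12),(34,256)]))) (F [(12,256),(34,122)]))) (P1 1 2 (P3 1 1 (F [(12,243),(22,256),(25,136)]) (F [(12,256),(34,23)])) (F [(12,203),(34,256)])))) (P0 1 1 (U2 1 1 (P5 2 1 (U1 1 1 (P4 2 1 (U2 1 2 (P5 1 2 (F [(12,1),(34,228),(35,256)]) (U1 1 2 (P3 1 1 (F [(12,137),(34,186),(35,250),(8,256)]) (F [(34,209),(35,256)])) (F [(20,226),(34,256),(35,46),(8,134)]))) (F [(34,256)])) (P3 4 1 (U2 1 2 (U1 1 2 (P5 1 1 (F [(20,86),(35,256),(34,154)]) (F [(12,94),(20,130),(35,97),(34,66),(8,256)])) (F [(20,226),(34,256),(35,46),(8,134)]))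 (F [(12,10),(34,256)])) (F [(20,24),(34,154),(35,256)]))) (F [(12,256),(34,107)])) (U1 1 1 (P3 1 1 (P1 1 2 (U2 1 2 (P5 4 1 (F [(12,218),(20,11),(8,256)]) (F [(8,16384),(25,9082),(12,14935)])) (P5 4 1 (F [(12,256),(34,3),(8,253)]) (P3 1 2 (P1 1 4 (U0 1 1 (F [(8,256),(25,143),(12,129)]) (U2 2 1 (P5 8 1 (F [(8,256),(12,200)]) (F [(8,256),(25,165),(12,136)])) (P5 8 1 (F [(8,256),(12,200)]) (P3 1 4 (F [(22,73),(8,256),(25,154)]) (F [(22,112),(8,256),(12,250),(25,178)]))))) (F [(8,256),(12,252),(22,2)])) (F [(12,256),(8,202)])))) (F [(20,195),(34,41),(8,256)])) (P4 4 1 (F [(20,256),(34,46),(8,254)]) (F [(20,256),(35,252),(34,151)]))) (P3 1 1 (P1 1 2 (U0 1 2 (F [(12,225),(25,256),(22,63)]) (P5 4 1 (F [(12,256),(34,70)]) (P3 1 2 (P1 1 4 (U2 1 1 (U1 1 2 (P5 8 1 (F [(12,237),(8,256),(22,4)]) (F [(25,224),(12,149),(8,256)])) (P5 8 1 (F [(12,256),(22,22),(8,254)])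 (F [(12,154),(25,256),(22,115),(8,97)]))) (U0 2 1 (P5 8 1 (F [(12,256),(22,59),(8,237)]) (U1 1 1 (P3 1 4 (F [(22,184),(12,140),(8,100),(25,256)]) (F [(12,211),(22,155),(8,105),(25,256)])) (F [(12,155),(22,226),(25,256)]))) (P5 8 1 (F [(22,29),(12,235),(8,256)]) (P3 1 4 (F [(22,212),(8,139),(12,71),(25,256)]) (F [(22,152),(12,256),(8,222),(25,217)]))))) (F [(12,256),(34,34),(8,156)])) (F [(12,256),(34,45)])))) (F [(12,256),(34,73)])) (F [(12,256),(34,44)])))) (P5 2 1 (F [(12,162),(34,256)]) (P3 1 1 (F [(34,256),(22,75),(25,139)]) (F [(12,256),(34,44)])))) (U2 1 1 (P5 2 1 (U1 1 1 (P2 2 1 (U2 1 2 (P5 1 2 (F [(34,228),(12,1),(35,256)]) (F [(34,240),(8,256),(20,72),(35,214)])) (F [(34,256)])) (F [(34,27),(8,256),(20,42)])) (F [(12,256),(34,218),(8,245)])) (U1 1 1 (P1 1 1 (P3 1 2 (U2 1 2 (F [(8,256),(25,17),(20,60)]) (P5 4 1 (F [(34,12),(8,256),(12,158)])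 (F [(8,256),(12,7),(25,23)]))) (F [(8,256),(34,27),(20,42)])) (F [(8,256),(34,27),(20,42)])) (P1 1 1 (P3 1 2 (U0 1 2 (P5 4 1 (F [(12,200),(20,129),(8,256)]) (F [(12,52),(34,93),(8,100),(22,82),(25,256)])) (P5 4 1 (F [(34,91),(12,256),(8,162)]) (P1 1 2 (P3 1 4 (U2 1 1 (U1 1 2 (P5 8 1 (F [(8,256),(12,237),(22,4)]) (F [(8,256),(25,190),(12,79)])) (P5 8 1 (F [(12,256),(22,255),(8,13)]) (F [(22,186),(12,90),(8,108),(25,256)]))) (F [(22,256),(8,36),(25,84)])) (F [(34,11),(12,174),(8,256)])) (F [(34,32),(8,256),(12,182)])))) (F [(12,214),(34,54),(8,256)])) (F [(34,225),(12,137),(8,256)])))) (F [(34,256),(12,75),(22,117),(25,114)])))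

def c224 : Cell := ⟨⟨1,0,0⟩, ⟨0,1,0⟩, ⟨0,0,1⟩, ⟨5,2,5,4⟩, ⟨1,1,1,1⟩, ⟨2,1,3,2⟩, ⟨2,1,2,3⟩⟩

def t224 : Tr :=
  U2 1 1 (U1 1 1 (P3 2 1 (P5 1 1 (P2 1 2 (F [(20,57),(12,256),(25,175)]) (F [(20,71),(12,152),(8,256),(25,14)])) (U2 1 2 (U1 1 2 (F [(8,256),(25,32),(20,1),(12,172)]) (F [(25,9082),(8,16384),(12,14935)])) (P0 1 1 (P3 1 2 (P5 2 1 (P2 1 2 (P4 1 2 (F [(12,256),(8,202)]) (F [(25,33),(12,160),(8,256)])) (F [(8,256),(25,33),(12,160)])) (P1 1 4 (U0 1 1 (F [(25,256),(8,40),(12,96)]) (U2 2 1 (F [(8,256),(25,169),(12,137)]) (P3 1 4 (P5 4 1 (P2 1 2 (P4 1 2 (F [(8,233),(12,256),(22,126),(25,195)]) (F [(8,256),(25,128),(22,56)])) (F [(8,256),(25,227),(22,122)])) (F [(8,55),(25,256),(22,165)])) (P4 1 1 (P2 1 2 (P5 1 2 (F [(8,256),(12,144),(25,24)]) (F [(8,256),(25,45)])) (F [(8,256),(25,45)])) (F [(8,256),(25,45)]))))) (F [(8,256),(25,33),(12,160)])))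 (P4 1 1 (P2 1 2 (P5 1 2 (F [(12,256),(25,73),(8,67)]) (F [(25,34),(12,146),(8,256)])) (F [(8,256),(25,35),(12,138)])) (F [(25,35),(8,256),(12,138)]))) (P1 1 2 (P5 2 1 (F [(8,256),(12,243),(22,1)]) (P3 1 4 (U0 1 1 (F [(8,106),(25,256),(12,117)]) (U2 2 1 (F [(8,256),(25,169),(12,137)]) (P1 1 4 (P5 4 1 (F [(8,228),(22,128),(25,197),(12,256)]) (F [(8,55),(22,165),(25,256)])) (F [(8,256),(12,209)])))) (F [(8,256),(25,2),(12,229)]))) (F [(8,256),(12,229)]))))) (P4 2 1 (P2 1 2 (F [(20,57),(12,256),(25,175)]) (F [(20,204),(12,133),(8,256),(25,126)])) (F [(20,207),(25,129),(12,132),(8,256)]))) (P3 2 1 (P5 1 1 (F [(12,256),(25,57),(8,106)]) (U0 1 2 (F [(12,178),(25,256)]) (P0 1 1 (P3 1 2 (P5 2 1 (P2 1 2 (P4 1 2 (F [(12,256),(34,43)]) (U2 1 1 (F [(12,204),(25,256)]) (U0 2 1 (F [(12,221),(25,256)]) (P0 1 2 (P3 1 1 (F [(12,256),(8,201),(22,1)]) (F [(25,147),(12,217),(8,256),(22,5)]))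 (F [(12,256),(8,182)]))))) (P1 1 1 (U2 1 1 (F [(20,26),(12,186),(25,256)]) (U0 2 1 (F [(12,221),(25,256)]) (P4 2 1 (F [(12,256),(8,182)]) (P3 1 1 (F [(12,256),(8,201),(22,1)]) (F [(25,256),(8,211),(12,222),(22,108)]))))) (F [(12,252),(8,256),(25,213)]))) (P1 1 4 (U2 1 1 (F [(25,256),(12,83)]) (U0 2 1 (F [(25,256),(12,126),(8,4),(22,96)]) (P3 1 4 (P5 4 1 (P2 1 2 (P4 1 2 (F [(12,256),(22,136),(8,207),(25,208)]) (F [(25,256),(8,152),(22,167),(12,157)])) (F [(8,152),(25,256),(22,172),(12,150)])) (F [(8,29),(22,153),(25,256),(12,18)])) (P4 1 1 (P2 1 2 (P5 1 2 (F [(12,256),(8,203),(25,151),(22,92)]) (F [(25,256),(8,169),(12,187),(22,146)])) (F [(8,169),(25,256),(12,187),(22,146)])) (F [(25,256),(8,154),(12,176),(22,128)]))))) (P2 1 1 (U2 1 1 (F [(25,256),(12,130)]) (U0 2 1 (F [(12,256),(25,242),(8,100)]) (P4 1 1 (F [(12,256),(8,201),(22,1)]) (F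 [(8,211),(25,256),(12,222),(22,108)])))) (F [(25,233),(8,256),(12,220)])))) (P4 1 1 (P2 1 2 (P5 1 2 (F [(12,256)]) (F [(12,256),(25,180),(8,245)])) (F [(12,252),(25,213),(8,256)])) (F [(25,221),(12,247),(8,256)]))) (P1 1 2 (P5 2 1 (F [(12,256),(8,193),(34,13)]) (P3 1 4 (U2 1 1 (F [(25,256),(8,50),(12,90)]) (U0 2 1 (U1 1 1 (P1 1 4 (P5 4 1 (F [(12,226),(25,256),(8,139),(22,147)]) (F [(25,256),(8,31),(22,136),(12,58)])) (F [(8,256),(12,236)])) (F [(12,167),(8,78),(25,256),(22,185)])) (P1 1 4 (P5 4 1 (F [(8,198),(22,141),(12,256),(25,211)]) (F [(8,29),(22,153),(25,256),(12,18)])) (F [(8,256),(22,10),(12,233)])))) (F [(8,250),(12,256)]))) (F [(12,256),(8,249),(34,16)]))))) (F [(12,256),(25,57),(8,106)]))) (P3 2 1 (P5 1 1 (P2 1 2 (F [(12,256),(22,5),(25,141)]) (F [(12,256),(8,144),(22,21),(25,89)])) (U0 1 1 (U1 2 1 (U2 1 1 (P0 1 1 (P3 1 2 (P5 2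 1 (P2 1 2 (P4 1 2 (F [(12,256),(34,60)]) (U1 1 2 (P0 1 2 (U2 1 2 (P3 1 1 (F [(12,256),(22,119),(8,70)]) (P4 2 1 (F [(12,256),(8,147),(22,46)]) (F [(12,225),(25,256),(8,165),(22,116)]))) (F [(12,210),(22,97),(25,256)])) (F [(12,256),(8,182)])) (F [(12,213),(25,256),(22,57)]))) (P1 1 1 (U1 1 2 (P4 2 1 (F [(12,256),(8,182)]) (U2 1 2 (P3 1 1 (F [(12,256),(22,119),(8,70)]) (F [(12,256),(8,183),(25,256),(22,101)])) (F [(12,236),(22,107),(8,66),(25,256)]))) (F [(12,217),(25,256),(22,56)])) (U1 1 2 (P4 2 1 (F [(12,237),(8,256)]) (F [(8,226),(12,174),(25,256),(22,146)])) (F [(12,233),(25,256),(22,31)])))) (P1 1 4 (U1 1 2 (U2 1 2 (P3 1 4 (F [(22,256),(8,98),(12,180),(25,251)]) (P4 1 1 (F [(22,228),(12,202),(8,110),(25,256)]) (F [(8,105),(22,154),(25,256),(12,151)]))) (F [(22,153),(12,173),(8,42),(25,256)])) (F [(12,155),(22,145),(25,256),(8,43)])) (P2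 1 1 (U1 1 2 (U2 1 2 (P4 1 1 (F [(12,256),(22,19),(8,181)]) (F [(8,183),(12,256),(22,101),(25,256)])) (F [(12,254),(22,104),(8,102),(25,256)])) (F [(12,235),(25,256),(8,64),(22,74)])) (U1 1 2 (F [(8,250),(12,135),(25,256),(22,164)]) (F [(12,200),(8,75),(25,256),(22,87)]))))) (P4 1 1 (P2 1 2 (P5 1 2 (F [(12,256)]) (U1 1 2 (P1 1 2 (U2 1 2 (P3 1 1 (P5 2 1 (F [(12,256),(8,196)]) (F [(12,206),(25,256),(8,97)])) (F [(12,256)])) (F [(12,192),(25,256)])) (F [(12,256),(8,220)])) (F [(12,213),(25,256),(22,57)]))) (U1 1 2 (P5 2 1 (F [(12,256),(8,240)]) (F [(12,172),(8,94),(25,256)])) (F [(12,233),(25,256),(22,31)]))) (F [(12,169),(25,256),(8,93)]))) (P1 1 2 (P5 2 1 (F [(12,256),(34,54),(8,208)]) (P3 1 4 (F [(22,256),(12,174),(8,104),(25,221)]) (F [(12,256),(8,249),(22,3)]))) (F [(12,246),(8,256),(34,48)]))) (P0 1 1 (P3 1 2 (F [(12,256),(22,130),(25,236)])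 (F [(12,256),(25,243),(22,70)])) (F [(12,256),(34,93),(22,87),(25,233)]))) (F [(12,222),(25,256),(22,65)])) (U2 2 1 (U1 1 1 (P0 1 1 (P3 1 2 (P5 2 1 (P2 1 2 (P4 1 2 (F [(34,60),(12,256)]) (U2 1 2 (P0 1 2 (U1 1 2 (P3 1 1 (F [(12,226),(22,175),(8,256)]) (P4 2 1 (F [(12,256),(22,45),(8,221)]) (F [(22,148),(12,243),(8,209),(25,256)]))) (F [(12,220),(22,157),(8,36),(25,256)])) (F [(12,256),(8,182)])) (F [(34,68),(22,256)]))) (P1 1 1 (U2 1 2 (P4 2 1 (F [(12,256),(8,182)]) (F [(22,192),(12,256),(8,215),(25,243)])) (F [(34,68),(22,256)])) (U2 1 2 (P4 2 1 (F [(12,256),(8,251)]) (F [(8,228),(12,193),(22,166),(25,256)])) (F [(12,191),(22,256),(8,18)])))) (F [(22,256),(8,214),(25,17)])) (P4 1 1 (P2 1 2 (P5 1 2 (F [(12,256)]) (U2 1 2 (P1 1 2 (U1 1 2 (P3 1 1 (P5 2 1 (F [(12,256),(8,190)]) (F [(22,122),(12,240),(8,182),(25,256)])) (F [(12,256)])) (F [(12,226),(22,151),(25,256)]))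 (F [(12,256),(8,216)])) (F [(12,132),(22,256)]))) (U2 1 2 (P5 2 1 (F [(12,256),(8,240)]) (U1 1 2 (P0 1 1 (P3 1 1 (F [(12,244),(8,225),(22,114),(25,256)]) (F [(12,256)])) (F [(8,256),(12,12),(25,25)])) (P0 1 1 (F [(12,256),(22,138),(8,103),(25,249)]) (F [(12,243),(8,183),(22,159),(25,256)])))) (F [(12,191),(22,256),(8,18)]))) (U2 1 2 (U1 1 2 (P0 1 2 (P3 2 1 (P5 1 1 (F [(12,256),(8,97),(25,231),(22,59)]) (F [(8,166),(25,256),(12,231),(22,111)])) (F [(25,256),(8,36),(12,245)])) (P1 1 1 (P5 1 1 (F [(12,256),(8,172)]) (F [(8,166),(25,256),(12,231),(22,111)])) (F [(8,256),(12,255)]))) (P0 1 2 (P3 2 1 (F [(12,251),(25,256),(8,76),(22,106)]) (F [(12,245),(25,256),(8,36)])) (P1 1 1 (F [(12,254),(8,85),(25,256),(22,118)]) (F [(12,256),(8,247),(34,14)])))) (F [(12,256),(22,103),(8,124),(25,237)])))) (F [(12,241),(22,198),(8,256)])) (P0 1 1 (P3 1 2 (F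 [(22,256),(12,217)]) (F [(12,256),(22,65),(25,161)])) (F [(34,256),(12,135)]))) (F [(22,123),(12,256),(25,101)])))) (P4 2 1 (P2 1 2 (F [(12,256),(22,5),(25,141)]) (F [(12,256),(8,144),(22,21),(25,89)])) (F [(12,256),(8,133),(25,80),(22,16)])))

def c225 : Cell := ⟨⟨1,0,0⟩, ⟨0,1,0⟩, ⟨0,0,1⟩, ⟨3,0,3,2⟩, ⟨5,2,5,4⟩, ⟨2,1,3,2⟩, ⟨2,1,2,3⟩⟩

def t225 : Tr :=
  P2 1 1 (U2 1 1 (U1 1 1 (P5 1 1 (F [(20,256),(12,78),(35,95),(8,213),(34,17)]) (P1 1 2 (U2 1 2 (U1 1 2 (F [(8,256),(25,32),(20,1),(12,172)]) (F [(8,16384),(25,9082),(12,14935)])) (P3 1 2 (P5 2 1 (F [(12,243),(8,256),(22,1)]) (P1 1 4 (U0 1 1 (F [(8,199),(25,256),(12,147)]) (U2 2 1 (F [(8,256),(25,169),(12,137)]) (P3 1 4 (P5 4 1 (F [(8,228),(22,128),(12,256),(25,197)]) (F [(8,256),(22,96),(25,189)])) (F [(8,256),(12,209)])))) (F [(8,256),(12,243),(22,1)]))) (F [(8,256),(12,229)]))) (F [(8,256),(20,227),(34,27)])))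 (P5 1 1 (F [(12,256),(34,33),(8,149)]) (P1 1 2 (U0 1 2 (F [(12,185),(25,256),(22,11)]) (P3 1 2 (P5 2 1 (F [(12,256),(34,13),(8,193)]) (P1 1 4 (U2 1 1 (F [(25,256),(12,154),(8,97),(22,115)]) (U0 2 1 (U1 1 1 (P3 1 4 (P5 4 1 (F [(12,231),(22,152),(8,145),(25,256)]) (F [(22,184),(8,100),(25,256),(12,140)])) (F [(8,256),(12,236)])) (F [(12,167),(22,195),(8,77),(25,256)])) (P3 1 4 (P5 4 1 (F [(22,138),(8,205),(12,256),(25,208)]) (F [(22,212),(8,139),(25,256),(12,71)])) (F [(8,256),(22,10),(12,233)])))) (F [(12,256),(8,191),(34,17)]))) (F [(12,256),(8,249),(34,16)]))) (F [(12,256),(34,28),(8,194)])))) (P5 1 1 (F [(12,15),(34,256),(8,95)]) (P1 1 2 (U0 1 1 (U1 2 1 (U2 1 1 (P3 1 2 (F [(12,143),(22,256),(25,64)]) (F [(12,48),(34,256),(8,153)])) (F [(12,256),(22,232),(25,144)])) (F [(12,222),(22,65),(25,256)])) (F [(34,256),(22,163),(8,124)])) (F [(12,211),(34,231),(8,256)]))))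 (U2 1 1 (U1 1 1 (F [(8,256),(25,9)]) (P1 1 1 (P5 2 1 (F [(12,191),(8,256),(34,47)]) (U0 1 2 (F [(12,10029),(8,6975),(34,154),(25,16384),(22,9689)]) (P0 1 1 (P3 1 2 (P1 1 4 (P5 4 1 (F [(8,256),(12,174),(34,11)]) (F [(8,134),(22,211),(12,66),(25,256)])) (F [(8,256),(12,89),(34,22)])) (F [(8,256),(12,94),(34,19)])) (P1 1 2 (P3 1 4 (P5 4 1 (F [(8,256),(34,11),(12,174)]) (F [(8,134),(22,211),(12,66),(25,256)])) (F [(8,256),(34,32),(12,81)])) (F [(8,256),(34,32),(12,82)]))))) (F [(8,256),(34,50),(12,123)]))) (P1 1 1 (P5 2 1 (F [(34,105),(12,80),(8,256)]) (U0 1 1 (U1 2 1 (U2 1 1 (P0 1 1 (P3 1 2 (F [(22,256),(12,132),(25,55)]) (F [(8,256),(34,27),(12,85)])) (F [(22,256),(25,25)])) (F [(12,256),(22,232),(25,144)])) (F [(12,256),(22,167),(25,207)])) (F [(34,192),(22,256),(8,246)]))) (F [(34,122),(8,256)])))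

def c226 : Cell := ⟨⟨1,0,0⟩, ⟨0,1,0⟩, ⟨0,0,1⟩, ⟨1,0,1,0⟩, ⟨1,1,1,1⟩, ⟨1,0,2,1⟩, ⟨3,0,3,2⟩⟩

def t226 : Tr :=
  P0 2 1 (P3 1 1 (P1 1 2 (U2 1 1 (U1 1 1 (P3 1 2 (O 6) (P4 1 1 (F [(8,11),(22,256)]) (F [(8,256),(22,210),(25,209)]))) (P3 1 2 (O 6) (P4 1 1 (F [(22,256),(34,58),(29,1)]) (P0 1 2 (U0 1 2 (U1 2 1 (P3 2 1 (F [(22,256),(34,14),(25,134)]) (P4 2 1 (F [(8,25),(22,256),(34,19),(25,166)]) (F [(25,256),(8,44),(22,174),(34,19),(12,50)]))) (P3 2 1 (F [(22,256),(34,55),(25,173)]) (F [(34,10716),(22,3820),(25,16384),(8,2758)]))) (P3 2 1 (F [(22,256),(25,117)]) (P4 2 1 (F [(22,256),(8,41),(25,137)]) (F [(22,228),(8,88),(25,256)])))) (F [(22,256),(34,16),(25,123)]))))) (P3 1 2 (O 6) (F [(22,62),(34,256),(25,115)]))) (U2 1 1 (U1 1 1 (F [(8,256),(6,204),(25,33)]) (P0 1 1 (P4 1 1 (F [(8,256),(13,15)]) (P3 2 1 (F [(8,222),(22,162),(34,152),(25,256)])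 (U0 1 2 (U1 2 1 (P0 1 2 (F [(8,96),(25,256),(22,47),(34,138)]) (F [(8,256),(6,133)])) (F [(8,91),(22,44),(34,143),(25,256)])) (P0 1 2 (P4 2 1 (F [(8,256),(22,46),(34,32)]) (F [(8,99),(22,224),(25,256)])) (F [(8,256),(6,138),(22,128)]))))) (F [(8,256),(6,123)]))) (P0 1 1 (P4 1 1 (F [(8,256),(0,33),(29,19),(6,1)]) (P3 2 1 (F [(22,23),(34,256),(6,173),(25,119)]) (U0 1 1 (U1 2 1 (F [(22,256),(25,109)]) (F [(22,83),(34,156),(8,60),(25,256)])) (F [(22,256)])))) (F [(8,256),(0,54),(6,102),(29,15)])))) (P4 2 1 (U2 1 1 (U1 1 1 (F [(8,256),(6,204),(25,33)]) (P1 1 1 (P5 1 1 (F [(8,256),(12,4)]) (U0 1 2 (U1 2 1 (P0 1 1 (F [(8,6975),(12,10029),(25,16384),(34,154),(22,9689)]) (P1 1 2 (F [(8,6359),(25,16384),(22,4908),(12,2833),(34,6361)]) (F [(8,256),(6,85)]))) (F [(8,87),(12,56),(25,256),(34,107),(22,73)])) (P0 1 1 (P3 1 2 (P5 2 1 (F [(8,256),(34,46),(12,13)])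 (F [(8,114),(22,218),(25,256),(12,29)])) (F [(8,256)])) (P1 1 2 (P5 2 1 (F [(8,256),(34,46)]) (F [(8,99),(22,224),(25,256)])) (F [(8,256),(6,85)]))))) (F [(8,256)]))) (P1 1 1 (P5 1 1 (F [(34,23),(8,256)]) (U0 1 1 (U1 2 1 (U2 1 1 (P0 1 1 (P3 1 2 (F [(8,60),(22,256),(12,74),(25,139)]) (F [(8,256),(34,6)])) (F [(8,45),(22,256),(25,140)])) (F [(8,88),(22,256),(12,146),(25,176)])) (F [(8,90),(12,90),(34,69),(22,120),(25,256)])) (F [(34,192),(22,256),(8,246)]))) (F [(8,256),(34,9)]))) (P0 1 2 (U2 1 1 (U1 1 1 (F [(8,186),(25,22),(6,256),(22,3)]) (P3 2 1 (P1 1 2 (U0 1 2 (F [(25,256),(12,178)]) (P3 1 2 (P5 2 1 (F [(8,256),(25,199),(20,47)]) (F [(25,256),(8,130),(22,126)])) (F [(8,256),(25,186),(20,86)]))) (F [(8,256),(25,128),(20,111)])) (F [(8,256),(25,92),(20,153),(6,76)]))) (P3 2 1 (P1 1 2 (U0 1 1 (U1 2 1 (U2 1 1 (P3 1 2 (P5 2 1 (P4 1 2 (F [(8,256),(34,6)])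 (F [(8,184),(25,256),(22,94),(12,86)])) (P1 1 4 (U1 1 2 (F [(22,188),(8,185),(25,256)]) (F [(22,139),(8,86),(25,256),(12,130)])) (F [(8,184),(25,256),(22,94),(12,86)]))) (P4 1 1 (P5 1 2 (F [(8,256),(34,9)]) (F [(8,168),(25,256),(12,54),(22,95)])) (F [(8,92),(25,256),(12,73)]))) (P3 1 2 (P5 2 1 (F [(8,114),(12,236),(22,103),(25,256)]) (F [(22,140),(12,171),(8,62),(25,256)])) (F [(8,113),(12,232),(25,256),(22,79)]))) (F [(12,170),(25,256),(8,26),(22,82)])) (U2 2 1 (U1 1 1 (P3 1 2 (F [(22,256),(8,131),(25,55)]) (P4 1 1 (F [(8,256),(22,232),(25,192)]) (F [(8,174),(22,100),(25,256),(12,141)]))) (P3 1 2 (F [(22,256),(34,40),(8,6)]) (P4 1 1 (F [(8,58),(22,256),(12,132)]) (F [(22,100),(8,128),(12,216),(25,256)])))) (F [(22,60),(34,208),(12,113),(25,256)]))) (U0 1 1 (F [(8,256),(20,197),(25,174)]) (U2 2 1 (U1 1 1 (F [(8,256),(25,146),(22,26)]) (F [(8,193),(34,80),(12,191),(25,256)]))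 (F [(34,201),(8,95),(20,36),(25,256)])))) (P4 4 1 (F [(8,256),(12,156),(20,117),(25,179),(22,81)]) (P0 1 4 (F [(8,199),(25,61),(12,256),(21,124),(22,25)]) (F [(8,216),(25,256),(20,102),(12,139),(22,95)]))))) (U2 1 1 (U1 1 1 (F [(8,256),(25,161),(22,72)]) (P1 1 1 (P3 1 2 (U0 1 2 (F [(8,64),(25,256),(12,69)]) (P1 1 2 (P5 2 1 (F [(8,256)]) (F [(8,114),(25,256),(22,209),(12,25)])) (F [(8,256),(6,109)]))) (F [(8,256),(25,43),(20,37)])) (F [(8,256)]))) (P1 1 1 (P3 1 2 (U0 1 1 (U1 2 1 (U2 1 1 (P1 1 2 (P5 2 1 (F [(8,256),(34,6)]) (F [(8,103),(22,256),(25,248),(12,59)])) (F [(8,256),(6,87),(22,6)])) (P1 1 2 (P5 2 1 (F [(8,256),(34,40),(22,32)]) (F [(22,224),(8,88),(12,73),(25,256)])) (F [(8,256),(22,111),(6,74)]))) (F [(8,91),(12,122),(20,8),(25,256),(22,161)])) (F [(22,256),(34,27),(8,167)])) (F [(8,256),(0,164),(6,149),(29,4)])) (F [(8,256),(34,9)]))))))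 (F [(8,67),(22,256)])

def c227 : Cell := ⟨⟨1,0,0⟩, ⟨0,1,0⟩, ⟨0,0,1⟩, ⟨1,0,1,0⟩, ⟨1,1,0,0⟩, ⟨1,1,1,1⟩, ⟨1,0,1,2⟩⟩

def t227 : Tr :=
  P4 2 1 (P2 2 1 (P4 1 2 (P5 1 1 (P2 1 2 (U2 1 1 (P4 1 4 (U1 1 1 (P5 1 2 (O 11) (P1 1 2 (F [(20,256)]) (P0 2 1 (F [(20,256)]) (F [(34,256),(20,108),(35,238)])))) (F [(12,256),(5,27),(34,78)])) (U1 1 1 (P0 1 1 (F [(20,256)]) (P1 1 2 (F [(20,256)]) (P2 2 1 (F [(20,256)]) (F [(20,125),(34,256),(35,201),(0,102)])))) (F [(12,256),(5,83),(34,19)]))) (F [(12,256),(5,83),(34,19)])) (P0 2 1 (U2 1 1 (U1 1 1 (P4 1 1 (F [(20,169),(35,135),(34,246),(0,256)]) (F [(20,19),(12,56),(35,256),(34,51)])) (F [(12,256),(34,76),(0,78)])) (F [(12,256),(34,151)])) (P1 1 1 (U2 1 1 (U1 1 1 (P5 2 1 (F [(34,16384),(20,194),(0,10405),(35,13871)]) (F [(20,13),(35,256),(34,154),(0,14)])) (F [(12,256),(34,90),(0,93)])) (F [(12,36),(34,256)]))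 (U2 1 1 (U1 1 1 (P2 2 1 (F [(34,16384),(0,10405),(20,194),(35,13871)]) (F [(8,243),(34,161),(0,227),(35,256)])) (F [(12,237),(34,232),(0,256),(8,105)])) (F [(34,256)]))))) (P1 1 2 (F [(20,256),(35,27),(0,45),(8,101)]) (P0 2 1 (F [(20,256),(35,27),(0,45),(8,101)]) (P2 1 1 (F [(34,11),(20,256),(0,59),(35,13),(8,120)]) (F [(34,50),(8,256),(0,188),(20,2),(35,71)]))))) (P0 1 1 (F [(20,256)]) (P1 1 2 (F [(20,256),(35,69),(0,95),(8,121)]) (F [(0,200),(8,90),(34,56),(35,256)])))) (P0 4 1 (P4 1 1 (P5 2 1 (U2 1 1 (P2 1 2 (F [(8,256),(0,59),(35,143)]) (U1 1 1 (P1 1 1 (F [(8,256),(0,46),(35,170)]) (P0 1 1 (F [(8,126),(35,256)]) (F [(8,256),(30,49),(10,74)]))) (F [(8,256),(0,28)]))) (F [(8,256),(0,29),(34,1)])) (P1 1 4 (F [(8,135),(0,10),(20,256)]) (U2 1 1 (U1 1 1 (P2 1 1 (F [(8,256),(0,20),(35,178)]) (P0 1 1 (F [(8,252),(35,256)]) (F [(8,256),(30,148)])))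 (F [(8,256),(0,28)])) (F [(8,256),(0,29),(34,1)])))) (P0 1 2 (F [(20,256)]) (P1 1 4 (F [(8,125),(20,256),(30,9)]) (U2 1 1 (U1 1 1 (P2 1 1 (F [(0,148),(8,48),(35,256),(30,247)]) (P0 2 1 (F [(8,131),(0,94),(35,143),(30,256)]) (F [(8,256),(30,148)]))) (F [(8,256),(0,130)])) (F [(0,130),(8,256)]))))) (P1 2 1 (P5 2 1 (U2 1 1 (F [(8,256),(25,55),(10,34)]) (F [(8,256),(34,8)])) (F [(8,256),(25,98)])) (P2 4 1 (U2 1 1 (P4 1 2 (F [(8,256),(6,119),(22,36)]) (U1 1 1 (P0 1 1 (F [(8,256),(22,5),(10,110)]) (F [(8,109),(6,256),(22,111)])) (F [(8,256)]))) (F [(8,256)])) (P0 8 1 (U2 1 1 (U1 1 1 (P4 1 1 (F [(6,256),(22,130)]) (P0 1 2 (U2 1 2 (U1 1 2 (P1 1 8 (F [(8,256),(22,10),(10,123)]) (O 4)) (F [(8,256),(22,76)])) (F [(8,256),(22,76)])) (F [(6,164),(22,256)]))) (F [(8,256),(6,144)])) (F [(8,256),(6,144)])) (F [(6,256),(22,130)])))))) (P0 1 1 (P3 2 1 (P1 1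 1 (P3 1 2 (F [(0,2),(30,136),(20,256)]) (U2 1 1 (U1 1 1 (P0 1 1 (F [(0,7),(8,50),(20,256),(21,69)]) (F [(0,3),(30,165),(20,256)])) (F [(0,256),(8,124),(30,14)])) (F [(0,256),(30,143)]))) (P2 2 1 (U2 1 1 (U1 1 1 (P3 1 1 (F [(30,165),(0,3),(20,256)]) (F [(20,256),(8,102),(3,44)])) (F [(0,256),(8,124),(30,14)])) (F [(0,256),(30,143)])) (P0 2 1 (U2 1 1 (U1 1 1 (P3 1 1 (F [(30,256)]) (P4 2 1 (F [(30,256),(20,135)]) (P0 1 2 (F [(8,78),(20,256),(21,30),(32,29)]) (F [(30,143),(20,256)])))) (F [(8,256),(0,73),(30,184)])) (F [(8,16),(30,256)])) (F [(30,256)])))) (P4 4 1 (P2 2 1 (F [(8,102),(20,256),(3,44)]) (P0 4 1 (F [(8,70),(30,44),(20,256),(32,61)]) (P1 2 1 (U2 1 1 (U1 1 1 (P5 2 1 (F [(30,256),(20,209),(25,58)]) (P3 1 4 (P1 1 2 (F [(8,110),(20,256),(3,1),(32,98)]) (F [(30,143),(20,256)])) (F [(30,177),(20,256)]))) (F [(8,256),(30,255)])) (F [(0,80),(30,256)]))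 (F [(30,165),(10,256),(20,118)])))) (P0 1 2 (P3 4 1 (U2 1 1 (F [(32,256),(8,55),(20,107),(30,69)]) (F [(0,170),(30,241),(3,256)])) (O 8)) (P2 4 1 (U2 1 1 (U1 1 1 (P3 1 1 (F [(20,256),(30,67),(32,155),(8,76)]) (O 10)) (F [(8,256),(30,61),(3,202),(20,86)])) (F [(0,44),(30,256),(23,113)])) (P1 2 1 (U2 1 1 (U1 1 1 (P3 1 1 (P5 4 1 (F [(30,25),(3,44),(20,256),(10,146)]) (P1 1 2 (F [(8,110),(20,256),(3,1),(32,98)]) (F [(30,114),(20,256),(3,118),(10,76)]))) (F [(30,52),(3,256),(10,249)])) (F [(8,250),(30,142),(3,256)])) (F [(30,256)])) (O 4)))))) (P2 4 1 (P3 1 1 (P1 1 4 (F [(8,106),(20,256),(30,56)]) (P2 1 2 (F [(8,106),(20,256),(30,56)]) (F [(8,238),(0,40),(30,256)]))) (P4 2 1 (P2 1 2 (F [(0,3),(20,256),(30,165)]) (U2 1 1 (U1 1 1 (P0 1 1 (F [(30,256),(0,46),(20,94)]) (F [(8,238),(30,256),(0,40)])) (F [(8,233),(0,256)])) (F [(0,256),(8,233)]))) (U2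 1 1 (P0 1 4 (F [(30,256)]) (U1 1 1 (P2 1 1 (F [(30,256),(0,25)]) (F [(8,256),(25,103),(10,239)])) (F [(8,256),(30,88)]))) (F [(8,256),(30,150)])))) (P1 2 1 (P3 1 1 (F [(8,256),(25,203),(30,23)]) (P0 1 2 (U2 1 1 (P4 4 1 (F [(8,256),(25,107),(10,235)]) (F [(30,152),(25,256),(8,112)])) (F [(8,256),(30,150)])) (F [(8,229),(25,256)]))) (P0 2 1 (P3 2 1 (U2 1 1 (U1 1 1 (P1 1 1 (P3 1 2 (U2 1 2 (U1 1 2 (P1 1 2 (F [(8,256),(25,222),(10,69)]) (O 4)) (F [(8,256),(22,123)])) (F [(8,256),(22,123)])) (O 4)) (O 4)) (F [(8,146),(6,256),(25,175),(22,245)])) (F [(8,2),(6,256)])) (O 4)) (P2 8 1 (U2 1 1 (U1 1 1 (P3 1 1 (P1 1 4 (U2 1 2 (U1 1 2 (P2 1 4 (P3 1 2 (F [(8,256),(25,82),(22,24),(10,112)]) (O 4)) (F [(8,56),(22,256),(25,33)])) (F [(8,256),(22,123)])) (F [(8,256),(22,123)])) (O 4)) (O 4)) (F [(8,133),(22,256)])) (F [(8,153),(22,256)])) (F [(6,42),(22,256),(25,71)]))))))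

theorem g18 : ∀ c ∈ [c216, c217, c218, c219, c220, c221, c222, c223, c224, c225, c226, c227], Done D c := by
  intro c hc
  simp only [List.mem_cons, List.not_mem_nil, or_false] at hc
  rcases hc with rfl | rfl | rfl | rfl | rfl | rfl | rfl | rfl | rfl | rfl | rfl | rfl
  · exact done_of_chk (t := t216) (by decide +kernel)
  · exact done_of_chk (t := t217) (by decide +kernel)
  · exact done_of_chk (t := t218) (by decide +kernel)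
  · exact done_of_chk (t := t219) (by decide +kernel)
  · exact done_of_chk (t := t220) (by decide +kernel)
  · exact done_of_chk (t := t221) (by decide +kernel)
  · exact done_of_chk (t := t222) (by decide +kernel)
  · exact done_of_chk (t := t223) (by decide +kernel)
  · exact done_of_chk (t := t224) (by decide +kernel)
  · exact done_of_chk (t := t225) (by decide +kernel)
  · exact done_of_chk (t := t226) (by decide +kernel)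
  · exact done_of_chk (t := t227) (by decide +kernel)

end Pool.Agent.W2helper59.NW.E1
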