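import Pool.Agent.W2helper59.NW.D_E1

set_option autoImplicit false
set_option maxRecDepth 1000000

namespace Pool.Agent.W2helper59.NW.E1

open Tr

def c228 : Cell := ⟨⟨1,0,0⟩, ⟨0,1,0⟩, ⟨0,0,1⟩, ⟨1,0,1,0⟩, ⟨1,1,2,0⟩, ⟨0,0,1,0⟩, ⟨0,0,1,1⟩⟩

def t228 : Tr :=
  P1 1 2 (P5 2 1 (P2 1 2 (P4 1 2 (O 6) (P3 1 1 (O 6) (P0 1 2 (P4 2 1 (U2 1 1 (U1 1 1 (P5 1 1 (P2 1 2 (F [(29,1),(21,256),(17,132),(33,45)]) (O 0)) (O 0)) (F [(7,256),(21,23),(13,110)])) (F [(29,256)])) (O 0)) (O 6)))) (O 0)) (O 0)) (P2 1 1 (P4 1 2 (O 6) (P5 2 1 (P0 1 1 (P4 2 1 (U2 1 1 (P5 1 2 (U1 1 1 (P2 1 1 (P4 1 2 (O 6) (F [(29,2),(21,256),(17,241),(6,11)])) (F [(29,67),(17,256),(6,131),(21,141)])) (F [(7,256),(13,6),(6,138)])) (O 0)) (F [(29,256)])) (O 0)) (O 6)) (P0 1 1 (O 0) (O 6)))) (P0 2 1 (P3 1 1 (O 6) (P4 1 1 (O 6) (O 0))) (O 6)))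

def c229 : Cell := ⟨⟨1,0,0⟩, ⟨0,1,0⟩, ⟨0,0,1⟩, ⟨1,0,2,1⟩, ⟨1,1,1,1⟩, ⟨1,1,2,0⟩, ⟨0,0,1,1⟩⟩

def t229 : Tr :=
  P5 1 2 (P4 1 2 (P2 1 2 (P5 1 4 (P4 1 4 (O 9) (U2 1 1 (U1 1 1 (P0 1 1 (F [(29,30),(21,256),(7,34),(25,36),(20,172),(34,23)]) (O 9)) (F [(9,98),(1,256)])) (F [(1,256)]))) (F [(9,73),(7,106),(21,256),(25,37),(12,45)])) (P0 2 1 (U2 1 1 (U1 1 1 (P3 1 1 (F [(21,256),(25,103),(22,139)]) (P4 1 1 (F [(29,5),(21,246),(22,256),(25,158)]) (F [(7,256),(25,133),(12,64),(22,89),(34,23)]))) (F [(9,83),(29,50),(7,256),(21,125),(34,68),(12,124)])) (F [(29,256)])) (O 6))) (P0 1 1 (P3 2 1 (U2 1 1 (F [(25,256),(21,2),(22,73)]) (F [(29,24),(22,112),(21,14),(25,256)])) (P4 2 1 (U2 1 1 (U1 1 1 (P2 1 1 (F [(25,256),(21,192),(12,134),(34,54)]) (P0 2 1 (F [(25,149),(21,256),(12,93)]) (F [(25,256),(22,102)]))) (P2 1 1 (F [(25,256),(7,19),(12,60),(22,43)])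 (P0 2 1 (F [(25,256),(21,108),(7,39),(12,229)]) (F [(25,256),(22,98)])))) (P2 1 1 (F [(7,51),(22,5),(25,185),(21,256),(20,118),(34,111)]) (P0 2 1 (F [(7,69),(25,122),(21,256)]) (F [(7,25),(22,121),(25,256),(34,18)])))) (U2 1 1 (U1 1 1 (P0 1 2 (F [(25,186),(21,256),(20,16)]) (P2 2 1 (F [(25,256)]) (F [(25,256),(6,59),(22,79)]))) (P0 1 2 (F [(25,256),(21,222),(20,105)]) (P2 2 1 (F [(25,256)]) (F [(25,256),(22,74)])))) (P0 1 2 (F [(25,256),(21,162),(20,10),(9,10),(12,236),(34,19)]) (P2 2 1 (F [(25,256),(29,27),(22,18),(34,15)]) (U0 1 1 (U1 2 1 (F [(25,256),(21,55),(22,101)]) (F [(25,94),(21,256),(22,63)])) (U2 2 1 (U1 1 1 (P0 2 1 (F [(25,256),(22,83)]) (F [(22,151),(25,256)])) (F [(22,122),(25,256)])) (F [(22,177),(21,256),(25,101)])))))))) (P2 2 1 (U2 1 1 (U1 1 1 (P3 1 1 (P5 1 1 (P4 1 2 (F [(25,122),(21,6),(7,256),(12,57),(22,83)])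 (F [(21,256),(25,191),(22,226)])) (F [(21,256),(25,120),(22,143)])) (P4 1 1 (P5 1 2 (P2 1 2 (F [(25,134),(21,69),(12,256),(7,113),(34,49)]) (F [(25,60),(21,256),(22,71)])) (F [(25,60),(21,256),(22,71)])) (P0 1 2 (F [(25,256),(22,161)]) (F [(25,210),(21,256),(22,190)])))) (P3 1 1 (F [(7,256),(22,6),(34,81)]) (P4 1 1 (F [(7,256),(25,59),(22,13),(34,27),(12,114)]) (F [(7,6),(21,137),(25,256),(22,217),(12,53)])))) (F [(29,78),(22,180),(21,9),(25,256),(20,14)])) (U2 1 1 (U1 1 1 (P0 2 1 (P3 1 1 (P1 1 2 (F [(21,256),(25,120),(22,143)]) (U2 1 2 (U1 1 2 (P0 1 1 (F [(25,256),(21,189),(22,219)]) (O 6)) (P0 1 1 (F [(21,175),(25,253),(22,256)]) (O 6))) (F [(22,249),(7,256),(25,47)]))) (P4 2 1 (U2 1 2 (U1 1 2 (F [(25,256),(22,215),(6,27)]) (P1 1 1 (F [(25,256),(21,117),(22,246)]) (F [(22,256),(25,241)]))) (P1 1 1 (F [(22,256),(21,109),(25,240)])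 (F [(22,256),(21,27),(25,197)]))) (U2 1 2 (U1 1 2 (F [(6,180),(25,256),(22,209)]) (P0 1 2 (F [(25,256),(6,17),(22,151)]) (P1 1 1 (F [(25,256),(6,17),(22,151)]) (F [(22,256),(25,241)])))) (P0 1 2 (F [(22,206),(25,256),(21,22)]) (P1 1 1 (F [(22,250),(25,256),(21,67)]) (F [(22,256),(25,197),(21,27)])))))) (O 6)) (P0 2 1 (P3 1 1 (F [(7,239),(22,256),(25,76)]) (P4 2 1 (F [(22,256),(7,25),(21,129),(25,118)]) (U0 1 2 (U1 2 1 (P0 1 2 (F [(25,256),(21,16),(22,190)]) (F [(21,79),(7,25),(25,200),(22,256)])) (F [(21,30),(25,254),(22,256)])) (P0 1 2 (F [(22,206),(25,256),(21,22)]) (F [(22,256),(21,134),(25,125)]))))) (O 6))) (F [(22,256),(7,68),(21,163)]))))) (P0 1 1 (P3 1 1 (P1 1 2 (P5 2 1 (P4 1 1 (U2 1 1 (F [(21,256),(25,252),(33,251)]) (F [(7,14),(29,256),(6,108),(25,57)])) (F [(6,256),(33,101),(17,21)])) (F [(33,224),(25,256),(17,114)]))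 (P4 1 1 (U2 1 1 (F [(21,1),(25,256),(22,70)]) (F [(21,162),(22,256),(25,225),(6,22)])) (U2 1 1 (F [(6,65),(25,256),(8,15),(22,72)]) (F [(6,61),(25,256),(21,126),(22,213)])))) (P4 2 1 (P5 1 1 (U2 1 1 (F [(21,2),(25,256),(22,73)]) (F [(21,85),(22,171),(25,256)])) (U2 1 1 (F [(25,256),(6,76),(8,6),(22,72)]) (F [(25,256),(6,37),(21,130),(22,196)]))) (U2 1 1 (U1 1 1 (F [(6,256),(8,28),(22,2)]) (P0 1 2 (F [(25,7),(6,240),(21,256)]) (F [(25,256),(6,15),(8,22),(22,67)]))) (P0 1 2 (F [(25,42),(21,256),(22,11)]) (P1 1 1 (F [(25,256),(21,33),(22,68)]) (U0 1 1 (U1 2 1 (F [(25,256),(21,55),(22,101)]) (F [(25,94),(21,256),(22,63)])) (U2 2 1 (U1 1 1 (P0 2 1 (F [(25,256),(22,83)]) (F [(22,159),(25,256),(6,9)])) (F [(22,122),(25,256)])) (F [(22,177),(21,256),(25,101)])))))))) (P1 1 1 (P3 1 2 (P5 2 1 (U2 1 1 (P4 1 2 (U1 1 1 (P2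 1 1 (P5 1 2 (F [(21,256),(29,22),(6,152)]) (F [(21,256),(6,65),(29,9),(13,30),(17,223)])) (F [(6,256),(13,113),(17,77),(29,34),(21,107)])) (F [(7,256),(6,138),(13,6)])) (F [(6,256),(13,117),(21,18)])) (F [(29,256),(6,100)])) (F [(13,35),(6,215),(33,193),(17,256)])) (U2 1 1 (P5 1 2 (U1 1 1 (P0 1 1 (F [(25,256),(21,2),(22,73)]) (P2 1 1 (F [(21,256),(25,158),(29,58),(6,185)]) (F [(6,256),(29,39),(21,33)]))) (P0 1 1 (F [(21,5),(25,256),(22,75)]) (F [(7,176),(29,99),(21,169),(6,256)]))) (U1 1 1 (F [(6,256),(25,78),(22,58)]) (F [(6,122),(25,256),(29,2),(22,38)]))) (F [(29,74),(22,134),(6,24),(21,15),(25,256)]))) (U2 1 1 (U1 1 1 (P0 2 1 (P3 1 1 (P5 1 1 (P2 1 2 (F [(21,38),(29,193),(25,256),(6,208)]) (P1 1 1 (F [(6,256),(29,212),(21,31),(25,217)]) (U2 1 2 (P4 2 1 (O 6) (F [(6,101),(25,256),(22,239),(7,51)])) (F [(22,256),(6,61),(7,12),(21,134),(25,99)]))))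 (P1 1 2 (F [(6,256),(29,39),(21,33)]) (P2 1 1 (F [(6,256),(29,51),(21,53)]) (F [(6,161),(22,256),(25,189),(7,63)])))) (P4 1 1 (P2 1 2 (F [(25,256),(29,46),(22,67)]) (U2 1 2 (P5 2 1 (U1 1 2 (P0 1 1 (F [(25,28),(6,173),(21,256),(22,146)]) (O 6)) (P0 1 1 (F [(21,223),(25,252),(7,2),(6,87),(22,256)]) (O 6))) (U1 1 2 (F [(6,256),(25,22)]) (P0 1 1 (F [(25,256),(6,54),(22,123)]) (F [(6,86),(25,256),(22,216)])))) (P5 2 1 (F [(22,256),(7,235),(25,76)]) (P0 1 1 (F [(6,60),(29,20),(25,256),(21,92),(22,212)]) (F [(22,256),(6,62),(25,122),(21,115)]))))) (U2 1 2 (U1 1 2 (F [(6,256),(25,22)]) (P0 1 2 (F [(6,146),(25,256),(22,75)]) (P1 1 1 (F [(6,146),(25,256),(22,75)]) (P2 1 1 (F [(25,256),(6,52),(22,131)]) (F [(6,2),(22,256),(25,242)]))))) (P0 1 2 (F [(6,17),(25,256),(22,214),(21,32)]) (P1 1 1 (F [(6,40),(22,256),(25,221),(21,106)])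 (P2 1 1 (F [(22,232),(25,256),(21,49)]) (F [(22,256),(25,218),(21,5)]))))))) (O 6)) (P0 2 1 (P3 1 1 (P5 1 1 (P2 1 2 (F [(29,175),(21,256),(6,188)]) (P1 1 1 (F [(7,29),(29,172),(21,256),(6,206)]) (F [(21,140),(22,256),(25,107),(6,55)]))) (P1 1 2 (F [(7,161),(6,256),(21,17)]) (P2 1 1 (F [(7,256),(6,248),(21,21)]) (F [(29,24),(22,256),(6,72),(21,101),(25,123)])))) (P4 1 1 (P2 1 2 (F [(29,182),(21,256),(25,19),(6,190)]) (U0 1 2 (F [(21,138),(25,136),(22,256),(6,41)]) (P5 2 1 (F [(7,46),(22,256),(21,104),(25,134)]) (P0 1 1 (F [(29,249),(21,256),(25,177),(6,71)]) (F [(22,256),(6,65),(21,120),(25,110)]))))) (U0 1 2 (U1 2 1 (P0 1 2 (F [(25,256),(6,8),(29,6),(22,171)]) (F [(21,138),(25,136),(22,256),(6,41)])) (F [(21,34),(25,251),(22,256)])) (P0 1 2 (F [(25,256),(22,214),(21,32),(6,17)]) (P1 1 1 (F [(22,256),(6,43),(21,117),(25,206)])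 (F [(22,256),(21,134),(25,125)])))))) (O 6))) (P0 2 1 (F [(29,28),(7,81),(22,256),(21,20),(25,215)]) (O 6)))))

def c230 : Cell := ⟨⟨1,0,0⟩, ⟨0,1,0⟩, ⟨0,0,1⟩, ⟨1,0,1,0⟩, ⟨1,1,1,1⟩, ⟨1,1,2,0⟩, ⟨1,0,2,1⟩⟩

def t230 : Tr :=
  P0 2 1 (P3 1 1 (P5 1 1 (P4 1 2 (P2 1 2 (U2 1 1 (U1 1 1 (P5 1 2 (F [(22,256),(6,180)]) (F [(6,256),(29,27)])) (F [(29,256),(6,177),(22,71)])) (F [(29,256),(6,71)])) (F [(6,256),(17,1)])) (F [(6,256),(17,7)])) (P1 1 2 (F [(6,132),(33,155),(17,256),(25,173)]) (F [(6,256),(25,205),(8,108),(17,106)]))) (P4 1 1 (P5 1 2 (P2 1 2 (U2 1 1 (U1 1 1 (P4 1 2 (F [(22,256),(6,180)]) (F [(6,63),(8,244),(22,256),(25,238)])) (P4 1 2 (P5 1 4 (O 6) (F [(22,247),(29,65),(6,63),(25,256)])) (P0 1 2 (U0 1 2 (U1 2 1 (P3 2 1 (F [(6,59),(25,118),(22,256),(21,121)]) (F [(25,256),(22,241)])) (F [(21,34),(25,251),(22,256)]))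 (P3 2 1 (F [(22,256),(6,94),(25,143)]) (P4 2 1 (F [(22,256),(6,17),(25,230)]) (F [(22,201),(6,20),(25,256)])))) (F [(22,253),(6,64),(29,63),(25,256),(21,6)])))) (P4 1 2 (F [(29,256),(6,45)]) (P0 1 2 (F [(22,256),(7,73),(25,221)]) (F [(22,5),(29,256)])))) (U2 1 1 (U1 1 1 (F [(6,249),(22,168),(25,256)]) (P0 1 1 (P4 2 1 (F [(6,97),(22,254),(25,256),(29,37)]) (F [(6,10),(25,256),(22,196),(7,3)])) (F [(6,256)]))) (P0 1 1 (P4 2 1 (F [(22,99),(29,114),(6,218),(34,170),(25,256)]) (F [(22,225),(34,7),(7,22),(25,256)])) (F [(6,256)])))) (U2 1 1 (F [(6,30),(25,256),(8,45),(22,73)]) (F [(6,66),(29,53),(22,85),(25,256)]))) (P0 1 2 (U2 1 1 (U1 1 1 (F [(6,256),(8,69),(22,2)]) (P3 2 1 (F [(6,75),(25,256),(22,78)]) (P4 2 1 (F [(25,256),(8,80),(22,56)]) (F [(25,8),(6,256),(21,162),(20,49)])))) (P3 2 1 (P5 1 1 (P4 1 2 (F [(6,66),(25,256),(21,41),(22,178)])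 (F [(6,256),(21,20),(7,12)])) (F [(6,256),(8,50)])) (P4 2 1 (P5 1 2 (P2 1 2 (U0 1 1 (U1 2 1 (F [(25,256),(21,55),(22,101)]) (F [(25,191),(21,256),(22,99)])) (U2 2 1 (U1 1 1 (P4 1 2 (F [(22,159),(6,9),(25,256)]) (F [(6,12),(25,256),(22,85)])) (F [(22,122),(25,256)])) (F [(22,45),(34,178),(7,2),(21,33),(25,256)]))) (F [(6,106),(25,256),(12,37),(34,74)])) (F [(6,19),(25,256),(21,5),(22,32),(29,18),(34,4)])) (P0 1 4 (F [(21,256),(8,70),(22,14)]) (F [(8,41),(25,256),(21,25),(22,65)]))))) (U2 1 1 (F [(6,30),(8,45),(25,256),(22,73)]) (F [(6,302437),(25,1048576),(22,613057),(29,67091),(21,117466)]))))) (P1 2 1 (P5 1 1 (P2 1 2 (P4 1 2 (O 6) (F [(6,256),(17,1)])) (U2 1 1 (U1 1 1 (P0 1 1 (F [(6,256)]) (O 6)) (F [(6,256)])) (F [(6,256),(29,20)]))) (P3 1 2 (O 0) (U2 1 1 (U1 1 1 (P0 1 1 (F [(6,256),(8,29),(17,38),(2,53)]) (P2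 1 1 (F [(6,256),(17,42),(2,60)]) (P1 2 1 (F [(6,256),(17,81),(2,172)]) (O 4)))) (F [(6,256)])) (F [(6,256),(29,20)])))) (P2 2 1 (P5 1 2 (F [(22,256),(8,67)]) (U2 1 1 (U1 1 1 (P0 1 1 (P3 1 1 (O 6) (F [(6,256)])) (O 6)) (F [(6,256),(8,9)])) (F [(6,256)]))) (P0 4 1 (U2 1 1 (U1 1 1 (P3 1 1 (O 4) (F [(6,256)])) (F [(6,256),(8,9)])) (F [(6,256)])) (O 4))))

def c231 : Cell := ⟨⟨1,0,0⟩, ⟨0,1,0⟩, ⟨0,0,1⟩, ⟨1,0,1,0⟩, ⟨1,1,0,0⟩, ⟨1,1,2,0⟩, ⟨1,1,1,1⟩⟩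

def t231 : Tr :=
  P0 1 1 (P3 2 1 (P1 1 1 (P5 1 1 (F [(25,256),(8,181)]) (P3 1 2 (F [(33,208),(25,256),(17,131)]) (P4 1 1 (F [(25,256),(33,54),(8,8),(17,71)]) (U2 1 1 (U1 1 1 (P0 1 1 (P3 2 1 (F [(25,256),(8,58),(17,120),(26,20)]) (F [(25,93),(8,256),(10,34)])) (F [(25,256),(33,21),(2,68)])) (F [(25,256),(8,202),(21,60),(17,183)])) (F [(6,62),(25,256),(30,34)]))))) (F [(8,134),(25,256),(10,3)])) (P4 2 1 (P2 1 1 (P5 1 2 (P4 1 2 (F [(0,5),(30,256),(21,110),(20,232)]) (U2 1 1 (U1 1 1 (P0 1 1 (F [(30,84),(21,256),(20,196)]) (F [(30,256)])) (F [(8,256),(0,95),(30,106)])) (F [(8,16),(30,256)]))) (U2 1 1 (U1 1 1 (P0 1 1 (P3 1 1 (F [(8,256),(10,5)]) (P4 2 1 (F [(8,256),(30,62)]) (U2 1 2 (U1 1 2 (P0 1 2 (F [(21,256),(20,86)]) (F [(30,127),(21,256),(20,83)])) (F [(8,256),(30,100),(0,123)])) (F [(30,256)])))) (F [(8,256),(10,5)]))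 (F [(8,256),(30,112)])) (F [(30,256)]))) (P0 2 1 (U2 1 1 (U1 1 1 (P3 1 1 (F [(30,256),(8,181),(10,76)]) (P4 1 1 (F [(30,256),(8,89),(32,66)]) (P0 1 2 (U2 1 2 (U1 1 2 (P3 2 1 (F [(30,256),(21,49),(32,151)]) (F [(30,124),(21,207),(20,256),(32,66)])) (F [(8,256),(30,112),(0,58)])) (F [(30,256)])) (F [(30,256),(20,10),(32,147)])))) (F [(8,256),(30,112)])) (F [(30,256)])) (F [(30,163),(8,208),(25,95),(10,256)]))) (P0 1 2 (P3 4 1 (U2 1 1 (U1 1 1 (P1 1 1 (P5 1 1 (P2 1 2 (F [(21,256),(30,56),(32,72),(3,55)]) (O 8)) (O 8)) (P2 1 1 (P4 1 2 (P5 1 2 (F [(3,112),(21,256),(32,210),(30,155),(20,145)]) (O 8)) (O 8)) (O 8))) (F [(8,256),(30,110),(3,23),(10,138)])) (F [(30,256),(3,42)])) (P4 4 1 (U2 1 1 (F [(32,256),(21,55),(30,110),(20,52)]) (F [(0,45),(30,256),(3,129),(32,58)])) (O 8))) (P2 2 1 (U2 1 1 (U1 1 1 (P3 1 1 (P5 1 1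 (P4 1 2 (P2 1 2 (F [(30,215),(21,185),(3,256),(32,141)]) (F [(30,256),(3,67),(32,189)])) (F [(30,256),(10,114),(3,23),(32,218)])) (P1 1 2 (O 8) (F [(30,256),(10,112),(32,175)]))) (P4 1 1 (P5 1 2 (P2 1 2 (F [(30,121),(8,153),(3,256),(21,43),(20,160),(32,185)]) (F [(30,256),(3,178),(10,26),(32,174)])) (F [(30,120),(3,256),(10,203),(32,85)])) (F [(30,52),(10,249),(3,256)]))) (F [(8,256),(30,110),(10,138),(3,23)])) (F [(30,256)])) (O 4))))) (P2 2 1 (P3 1 1 (P5 1 1 (F [(6,14),(8,205),(25,256),(33,2)]) (P1 1 2 (F [(33,208),(25,256),(17,131)]) (F [(6,21),(25,256),(8,185)]))) (P4 1 1 (F [(8,208),(6,13),(25,256),(33,3)]) (P0 1 2 (F [(8,86),(25,256)]) (F [(8,235),(25,256)])))) (P0 2 1 (P3 1 1 (P1 1 2 (P5 2 1 (U2 1 1 (U1 1 1 (P4 1 1 (P2 1 2 (F [(6,40),(8,153),(25,256),(17,19)]) (F [(6,38),(25,256),(33,174)])) (F [(33,206),(25,256),(2,4)]))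 (F [(6,256),(33,77)])) (F [(6,256),(25,147)])) (O 0)) (U2 1 1 (U1 1 1 (P0 1 1 (P4 1 1 (P2 1 2 (P5 1 2 (F [(6,4),(8,183),(25,256)]) (O 4)) (O 4)) (O 4)) (P2 1 1 (P4 1 2 (P5 1 2 (F [(6,56),(25,256),(22,126)]) (O 4)) (O 4)) (O 4))) (F [(6,256),(22,39)])) (F [(6,256),(22,75)]))) (P4 2 1 (U2 1 1 (U1 1 1 (P1 1 1 (F [(25,256),(8,94)]) (F [(25,256),(22,192)])) (F [(6,256),(25,94),(22,64)])) (F [(6,256),(8,2)])) (O 4))) (P1 2 1 (P3 1 2 (P5 2 1 (U2 1 1 (U1 1 1 (P2 1 1 (P4 1 2 (F [(6,256),(25,99),(2,79)]) (U2 1 2 (U1 1 2 (F [(6,226),(33,37),(2,256)]) (F [(6,256),(33,194)])) (F [(6,256),(33,197)]))) (F [(6,256),(33,201),(2,172)])) (F [(6,256)])) (F [(6,256)])) (O 0)) (U2 1 1 (U1 1 1 (P0 1 1 (P4 1 1 (P2 1 2 (P5 1 2 (F [(6,33),(22,147),(25,256)]) (O 4)) (O 4)) (O 4)) (P2 1 1 (P4 1 2 (P5 1 2 (F [(6,256),(22,107),(25,184),(2,95)])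 (O 4)) (O 4)) (O 4))) (F [(6,256),(22,185)])) (F [(6,122),(22,256)]))) (P2 4 1 (U2 1 1 (U1 1 1 (P3 1 1 (P5 1 1 (F [(6,78),(22,256)]) (O 4)) (F [(22,256),(6,48),(25,44)])) (F [(6,136),(22,256)])) (F [(6,122),(22,256)])) (O 4)))))

def c232 : Cell := ⟨⟨1,0,0⟩, ⟨0,1,0⟩, ⟨0,0,1⟩, ⟨1,0,0,1⟩, ⟨1,1,0,2⟩, ⟨1,0,1,0⟩, ⟨0,0,0,1⟩⟩

def t232 : Tr :=
  P5 1 2 (P2 1 2 (P4 1 4 (O 11) (P5 2 1 (O 3) (P0 1 1 (P3 1 1 (O 11) (O 3)) (O 11)))) (P0 2 1 (P3 1 1 (P5 1 1 (O 3) (F [(5,234),(11,256),(12,43),(34,15),(4,12)])) (O 3)) (P1 2 1 (P5 1 1 (O 1) (F [(5,166),(11,256),(27,60)])) (O 1)))) (P3 1 2 (P1 1 1 (P5 2 1 (P2 1 1 (P4 1 2 (P5 1 2 (U2 1 1 (U1 1 1 (P2 1 2 (P4 1 4 (O 11) (U2 1 2 (P5 2 1 (F [(20,256),(5,20),(15,186)]) (U1 1 2 (P0 1 1 (F [(20,256),(34,196),(35,143),(0,106),(15,246)]) (O 11)) (F [(12,256),(34,44),(5,45)]))) (F [(12,256),(5,45),(34,44)])))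 (U2 1 2 (U1 1 2 (P0 2 1 (P3 1 1 (F [(15,256),(20,127),(34,33),(35,21)]) (F [(20,256),(15,177)])) (F [(15,256),(20,64),(12,13)])) (F [(12,173),(20,130),(15,256),(0,87)])) (F [(12,133),(34,24),(20,148),(15,256),(0,79)]))) (F [(12,54),(5,256)])) (F [(5,256),(34,118)])) (U2 1 1 (P3 1 2 (F [(34,54),(15,256),(8,70),(22,2)]) (F [(12,42),(34,137),(0,256),(35,57)])) (F [(5,37),(34,256),(27,61)]))) (U2 1 1 (P5 2 1 (F [(12,146),(0,256),(35,204),(34,8)]) (U1 1 1 (F [(0,99),(35,98),(8,126),(15,256)]) (F [(0,256),(12,65),(34,19),(15,35)]))) (F [(12,63),(34,256),(0,206),(35,160)]))) (U2 1 1 (U1 1 1 (F [(0,99),(35,98),(15,256),(8,126)]) (F [(0,256),(12,65),(15,35),(34,19)])) (F [(0,256),(34,85),(12,16),(5,50)]))) (P3 1 4 (P1 1 2 (O 6) (U2 1 1 (P0 4 1 (O 6) (O 1)) (F [(0,200),(8,256),(34,6)]))) (U2 1 1 (P1 4 1 (P3 2 1 (F [(8,186),(22,256),(6,20),(35,223)])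 (F [(8,256),(0,93),(35,160),(15,167)])) (F [(0,168),(8,256),(35,169),(15,235)])) (F [(0,198),(8,256)])))) (P0 4 1 (P5 1 1 (P4 1 2 (P2 1 4 (U2 1 1 (U1 1 1 (P5 1 2 (P4 1 4 (O 11) (F [(5,167),(20,256),(15,71),(0,160)])) (U2 1 2 (P0 1 2 (F [(20,206),(5,79),(35,126),(15,256)]) (O 11)) (F [(5,255),(20,169),(15,249),(35,256)]))) (F [(5,256),(12,21)])) (F [(5,256),(34,118)])) (U2 1 1 (U1 1 1 (P0 1 1 (F [(5,138),(35,256),(0,85)]) (O 1)) (F [(5,256),(35,203)])) (F [(5,256),(35,105)]))) (U2 1 1 (F [(35,256),(0,112),(5,42)]) (F [(5,140),(34,64),(35,256),(0,117)]))) (F [(0,256),(35,134),(5,51),(12,11),(15,53)])) (P1 2 1 (P5 1 1 (P2 1 2 (P4 1 4 (O 11) (O 1)) (O 1)) (O 1)) (P2 2 1 (P5 1 2 (P4 1 4 (O 11) (O 1)) (O 1)) (O 1))))) (P1 4 1 (P3 2 1 (P5 1 2 (P2 1 4 (P4 1 4 (U2 1 1 (U1 1 1 (P5 1 4 (F [(5,256),(20,42)]) (F [(5,190),(20,256),(35,6),(0,198)]))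 (F [(5,256),(12,245),(34,61)])) (F [(5,235),(34,256)])) (F [(5,173),(35,256),(0,118)])) (U2 1 1 (U1 1 1 (P4 2 1 (P1 1 1 (F [(5,174),(35,256),(0,123)]) (P2 2 1 (F [(5,75),(35,256),(0,19)]) (F [(35,256),(28,222),(0,13)]))) (F [(35,256),(20,12)])) (F [(5,230),(35,256)])) (F [(5,256),(35,120)]))) (U2 1 1 (F [(35,256),(20,12)]) (F [(5,46),(12,114),(35,256)]))) (P4 1 1 (P2 1 4 (F [(5,256),(20,124),(35,95),(0,35)]) (P0 1 2 (F [(5,230),(28,12),(35,256),(11,4),(0,59)]) (U2 1 1 (U1 1 1 (P5 2 1 (P2 2 1 (F [(5,114),(28,27),(35,256),(0,58)]) (F [(28,256),(35,169)])) (F [(35,256),(28,248),(20,74),(0,17)])) (F [(5,226),(35,67),(28,256)])) (F [(5,256),(35,240)])))) (F [(28,256),(35,84)]))) (P0 2 1 (P4 1 1 (P2 1 2 (P5 1 4 (O 11) (P3 2 1 (U2 1 1 (U1 1 1 (P1 1 1 (P5 2 1 (F [(5,256),(28,138),(35,195),(0,217)]) (F [(28,256),(35,169)]))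 (F [(5,256),(28,66),(0,123)])) (F [(5,181),(28,256)])) (F [(5,256),(28,77),(35,161)])) (F [(5,256),(0,65)]))) (O 3)) (O 3)) (P2 2 1 (P4 1 2 (P5 1 4 (O 11) (O 1)) (O 1)) (O 1)))))

def c233 : Cell := ⟨⟨1,0,0⟩, ⟨0,1,0⟩, ⟨0,0,1⟩, ⟨1,0,0,1⟩, ⟨1,1,0,0⟩, ⟨3,1,2,2⟩, ⟨1,1,0,2⟩⟩

def t233 : Tr :=
  P0 1 1 (P4 2 1 (P5 1 2 (P2 1 1 (P4 1 2 (U2 1 1 (P5 1 4 (O 3) (U1 1 1 (P3 1 1 (P1 2 1 (F [(12,176),(35,112),(16,15),(28,185),(23,242),(31,32),(11,256)]) (F [(5,4),(16,256),(31,95),(28,57)])) (F [(16,256),(12,64),(23,86)])) (F [(5,256),(12,64)]))) (F [(5,256),(35,36)])) (P3 2 1 (U2 1 1 (U1 1 1 (P5 1 1 (F [(12,68),(5,14),(16,256),(23,228)]) (P1 2 1 (F [(5,138),(23,191),(0,154),(20,256),(16,137)]) (F [(12,134),(16,256),(23,155),(11,64),(20,40)]))) (F [(12,256),(5,223),(35,59)])) (F [(5,185),(35,256)])) (U2 1 1 (U1 1 1 (P0 1 1 (F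 [(12,178),(23,256),(11,123)]) (F [(12,68),(16,256),(5,14),(23,228)])) (F [(12,256),(5,65)])) (F [(12,256),(5,65)])))) (P1 4 1 (P3 2 1 (U2 1 1 (U1 1 1 (P5 1 2 (F [(23,137),(16,256),(0,57),(31,72),(20,176),(35,27),(28,25)]) (F [(12,48),(0,30),(23,48),(20,256),(16,129)])) (F [(12,256),(5,30),(35,100)])) (F [(5,151),(35,256)])) (U2 1 1 (U1 1 1 (P0 1 4 (P4 1 1 (F [(23,227),(12,52),(16,256)]) (F [(23,256),(12,6),(24,15)])) (F [(23,256),(12,150),(20,105),(31,197),(11,146)])) (F [(12,256),(0,10),(35,61)])) (F [(12,256),(35,68),(0,6)]))) (U2 1 1 (U1 1 1 (P3 4 1 (P2 2 1 (F [(23,77),(16,256),(11,25),(0,46),(31,47),(20,229),(12,36)]) (F [(23,100),(20,256),(0,46),(16,239)])) (O 10)) (P3 4 1 (F [(23,163),(16,256),(20,146),(35,55)]) (O 10))) (P3 4 1 (F [(35,25),(28,103),(16,147),(23,256)]) (O 10))))) (P3 1 1 (F [(35,2),(12,13),(20,256)])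 (P2 4 1 (P4 2 1 (F [(12,105),(20,256),(23,169)]) (F [(12,107),(23,256)])) (F [(12,4524),(23,16384),(20,4620)])))) (P3 4 1 (P5 1 1 (F [(0,53),(23,256)]) (F [(0,16),(20,256)])) (O 10))) (P1 4 1 (P5 1 2 (P4 1 1 (P2 1 4 (U2 1 1 (P5 1 4 (O 3) (U1 1 1 (P3 2 1 (F [(28,256),(35,137),(16,59),(11,133),(20,27),(23,196)]) (O 3)) (F [(5,256),(12,64)]))) (F [(5,256),(35,36)])) (P0 1 2 (U2 1 1 (U1 1 1 (P3 2 1 (F [(28,256),(35,72),(11,20),(16,81),(20,145),(31,68),(23,111)]) (O 3)) (F [(5,256)])) (F [(5,256),(35,39),(28,149)])) (F [(35,90),(28,256),(20,86)]))) (P0 1 4 (P3 4 1 (U2 1 1 (U1 1 1 (P1 1 2 (P5 1 2 (F [(11,256),(23,99),(0,64),(12,49),(35,60)]) (F [(35,20),(20,80),(0,50),(12,44),(28,150),(23,256)])) (P2 1 4 (F [(11,256),(31,9),(23,14),(20,39),(0,88),(12,66)]) (F [(20,13),(0,91),(28,213),(23,256),(11,96)]))) (F [(5,79),(16,3),(28,230),(23,256),(31,47)]))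 (F [(5,120),(35,256),(28,220)])) (U2 1 1 (U1 1 1 (P4 2 1 (P2 1 4 (F [(11,126),(16,93),(23,256),(20,15),(28,161),(5,1)]) (P0 1 2 (F [(11,256),(23,66),(20,193),(31,88),(16,60),(0,127)]) (F [(20,207),(11,25),(23,256),(28,206),(31,165)]))) (P0 1 8 (F [(23,256),(20,44),(11,149),(28,86)]) (P2 1 2 (F [(23,252),(20,125),(11,256),(28,80)]) (F [(23,240),(20,256),(11,101),(28,226)])))) (P4 2 1 (F [(12,20),(31,256),(23,36),(11,75),(0,213)]) (P0 1 8 (F [(23,256),(20,58),(11,43),(31,86),(28,42)]) (F [(0,256),(23,60),(20,13),(11,187),(28,20)])))) (P4 2 1 (F [(5,107),(28,256),(31,150)]) (F [(35,38),(28,137),(0,82),(31,31),(11,11),(23,256)])))) (P2 1 2 (U2 1 1 (U1 1 1 (P3 1 2 (P5 1 2 (F [(28,51),(11,11),(31,256),(5,57),(20,53),(0,142)]) (F [(35,31),(28,256),(20,39),(0,52),(31,6),(23,163),(16,50)])) (F [(28,220),(11,9),(31,256),(0,132),(23,157)]))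 (F [(35,3),(28,256),(16,120),(23,107)])) (F [(5,120),(35,256),(28,220)])) (F [(35,20),(28,256),(20,45),(23,60)])))) (P3 2 1 (F [(35,256),(0,249),(20,113)]) (P0 1 4 (F [(35,3),(20,256),(28,60),(23,65)]) (U2 1 1 (U1 1 1 (F [(0,209),(20,256),(28,223)]) (F [(35,61),(0,13),(20,256),(28,243)])) (F [(35,256)]))))) (P0 2 1 (P4 1 1 (O 3) (P3 4 1 (F [(28,256),(11,59),(31,128),(23,30)]) (O 10))) (O 3)))

def c234 : Cell := ⟨⟨1,0,0⟩, ⟨0,1,0⟩, ⟨0,0,1⟩, ⟨1,0,0,1⟩, ⟨1,1,0,0⟩, ⟨1,0,1,0⟩, ⟨3,1,2,2⟩⟩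

def t234 : Tr :=
  P0 1 1 (P3 1 1 (P1 1 2 (P5 4 1 (P4 2 1 (U2 1 1 (P5 1 2 (U1 1 1 (P2 1 1 (P4 1 2 (F [(35,256),(30,21)]) (P3 2 1 (U2 1 2 (U1 1 2 (P5 1 1 (F [(8,103),(35,256),(30,218)]) (P1 2 1 (F [(8,256),(35,171),(30,150)]) (F [(35,256),(8,115),(30,201)]))) (F [(8,256),(0,197)])) (F [(0,197),(8,256)])) (F [(8,18),(0,97),(35,87),(30,256)]))) (P1 4 1 (P3 2 1 (U2 1 2 (U1 1 2 (P5 1 2 (F [(35,256),(8,138),(10,82),(30,173)]) (F [(8,256),(35,51),(15,23),(10,229)])) (F [(8,236),(35,256)])) (F [(8,236),(35,256)])) (U2 1 2 (U1 1 2 (P0 1 4 (F [(30,256),(8,37),(35,184)]) (F [(35,188),(8,119),(15,120),(30,256)])) (F [(8,256),(0,39),(30,10)])) (F [(8,256),(0,39),(30,10)]))) (U2 1 2 (F [(30,256),(15,147),(8,84),(35,121)]) (F [(0,206),(8,104),(10,256),(30,82)])))) (F [(0,256)])) (U1 1 1 (P3 1 1 (P1 2 1 (U2 1 2 (P5 2 1 (F [(8,256),(15,144),(10,173)])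 (F [(8,256),(22,72),(15,62),(10,229)])) (F [(8,256),(15,136)])) (P2 4 1 (F [(8,256),(15,144),(10,173)]) (O 4))) (P2 4 1 (P4 2 1 (F [(8,256),(15,76),(10,190)]) (F [(8,242),(30,29),(10,256)])) (F [(8,211),(30,36),(10,256),(15,100)]))) (F [(8,177),(0,256)]))) (F [(0,256),(8,177)])) (P3 4 1 (U2 1 1 (U1 1 1 (P5 1 1 (F [(30,35),(8,206),(10,256),(15,90)]) (O 4)) (F [(8,256),(15,50)])) (F [(8,256),(15,50)])) (F [(8,138),(25,22),(10,256)]))) (O 4)) (P0 1 1 (P4 2 1 (P2 1 1 (U2 1 1 (U1 1 1 (P5 1 1 (P4 1 2 (P2 1 2 (F [(35,256),(30,113)]) (F [(0,119),(35,69),(30,256)])) (F [(0,119),(35,68),(30,256)])) (P1 1 2 (F [(0,149),(30,256),(35,4),(15,95)]) (F [(0,119),(30,256),(35,68)]))) (F [(0,256)])) (F [(0,256),(35,12)])) (U2 1 1 (U1 1 1 (P1 1 1 (F [(30,256),(0,86)]) (F [(30,256),(20,93),(0,1)])) (F [(0,256),(20,44)])) (F [(0,256),(30,69)])))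 (U2 1 1 (U1 1 1 (F [(30,256),(10,180),(3,58)]) (F [(8,46),(0,154),(30,229),(10,256)])) (F [(0,191),(30,256),(10,248)]))) (P1 2 1 (P4 1 1 (U2 1 1 (P2 1 2 (U1 1 1 (P5 1 1 (P4 1 2 (F [(0,78),(35,256)]) (F [(0,48),(35,220),(20,114),(30,256)])) (P1 1 4 (P3 1 2 (F [(0,134),(35,71),(15,162),(30,256)]) (F [(0,119),(35,69),(30,256)])) (U2 1 2 (U1 1 2 (P4 1 1 (F [(35,256),(20,208),(15,214),(30,139)]) (F [(20,256),(35,59),(30,128),(15,201)])) (F [(0,256)])) (F [(0,256),(35,247)])))) (F [(0,256)])) (U1 1 1 (P1 1 2 (P5 4 1 (F [(35,59),(20,256),(30,128),(15,200)]) (F [(0,77),(30,256),(15,15)])) (F [(0,4),(20,256),(30,30),(10,10),(15,166)])) (F [(0,256)]))) (F [(35,256)])) (U2 1 1 (U1 1 1 (P3 1 1 (P1 1 2 (F [(30,256),(0,71),(15,9)]) (F [(20,256),(0,4),(30,30),(10,10),(15,166)])) (F [(20,256),(30,128)])) (F [(0,256),(20,44)]))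 (F [(0,256),(30,69)]))) (F [(0,16),(20,256)])))) (P4 4 1 (P1 1 1 (P5 2 1 (P4 1 2 (P2 1 1 (U2 1 1 (U1 1 1 (P5 1 2 (F [(0,5),(20,230),(35,256),(30,154)]) (F [(0,126),(20,22),(30,256)])) (F [(0,256),(8,98)])) (F [(0,256)])) (F [(0,18),(20,40),(30,256),(23,98)])) (F [(0,48),(30,256),(20,213)])) (F [(30,256),(0,10),(20,101)])) (F [(0,16),(20,256)])) (P0 1 2 (P3 2 1 (P1 1 2 (U2 1 1 (P5 4 1 (F [(30,23),(3,11),(20,256),(10,137)]) (O 4)) (F [(30,256),(3,8)])) (O 10)) (O 10)) (P1 1 1 (P3 1 2 (F [(30,256),(20,121),(25,6)]) (O 10)) (O 10))))) (P1 1 1 (P3 1 2 (P5 4 1 (U2 1 1 (P1 4 1 (P5 1 2 (U1 1 1 (F [(35,256),(8,10),(15,224)]) (F [(0,256)])) (U1 1 1 (P3 2 1 (U2 1 2 (P1 1 2 (P5 2 1 (F [(8,256),(15,224),(10,150)]) (F [(8,98),(22,225),(15,256),(10,61)])) (F [(8,111),(15,256)])) (F [(8,256),(15,136)])) (F [(8,93),(15,256),(35,29)]))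 (F [(8,177),(0,256)]))) (U1 1 1 (F [(35,256),(15,211)]) (F [(0,256)]))) (F [(0,256),(8,177)])) (P1 1 2 (O 4) (U2 1 1 (P2 4 1 (O 4) (O 1)) (F [(0,256),(8,177)])))) (P0 1 1 (P3 2 1 (U2 1 1 (P4 1 2 (U1 1 1 (P1 1 1 (P5 1 1 (F [(35,256),(20,155),(15,222)]) (P3 1 4 (F [(35,256),(15,248),(10,41)]) (F [(35,201),(20,140),(15,256)]))) (P2 1 1 (F [(35,132),(20,221),(15,256)]) (U2 1 2 (P0 4 1 (F [(35,73),(20,253),(15,256)]) (U1 1 2 (P1 2 1 (F [(0,240),(15,256)]) (F [(0,256),(15,116),(3,155)])) (F [(0,256),(35,145)]))) (F [(35,256)])))) (F [(0,256)])) (U1 1 1 (P1 1 1 (P3 1 2 (P5 4 1 (F [(35,90),(20,256),(15,245),(30,88)]) (F [(0,70),(10,256),(15,101),(20,99)])) (F [(0,7),(20,256),(15,176),(10,52)])) (U2 1 2 (P2 4 1 (F [(0,7),(20,256),(15,176),(10,52)]) (U1 1 2 (P0 2 1 (F [(20,256),(15,184)]) (O 1)) (F [(0,256),(20,92)])))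 (F [(0,256),(20,92)]))) (F [(0,256)]))) (F [(35,256)])) (P4 2 1 (U2 1 1 (P5 1 2 (F [(0,256),(3,56)]) (F [(0,256),(20,207),(3,203)])) (F [(0,256)])) (F [(0,136),(20,256),(23,68),(3,131)]))) (U2 1 1 (U1 1 1 (P0 2 1 (P3 1 1 (F [(35,256),(15,211)]) (P4 1 1 (F [(35,256),(15,155)]) (U2 1 2 (U1 1 2 (P0 1 2 (P3 2 1 (F [(35,219),(15,256)]) (F [(0,256),(15,116),(3,155)])) (F [(35,256),(15,242)])) (F [(0,256),(35,145)])) (F [(35,256)])))) (F [(35,256),(15,211)])) (F [(0,256)])) (F [(35,256)])))) (P2 4 1 (P3 1 1 (U2 1 1 (P1 1 4 (F [(0,256),(3,56)]) (P2 1 2 (F [(0,256),(3,56)]) (O 1))) (F [(35,256)])) (P4 2 1 (U2 1 1 (P2 1 2 (F [(0,256),(3,56)]) (U1 1 1 (P0 1 1 (F [(0,256),(3,83)]) (O 1)) (F [(35,256),(0,9)]))) (F [(35,256)])) (P0 1 4 (U2 1 1 (U1 1 1 (P3 2 1 (U2 1 2 (P1 1 4 (F [(20,219),(0,256),(3,186)]) (F [(20,217),(23,256),(28,204)]))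 (F [(0,160),(20,256),(28,93)])) (F [(23,60),(20,256),(28,63)])) (F [(0,44),(20,256),(28,26)])) (F [(0,59),(28,61),(20,256)])) (U2 1 1 (U1 1 1 (P2 1 1 (U2 1 2 (P3 1 4 (F [(0,256),(3,87)]) (F [(20,256),(23,121),(28,112)])) (F [(0,239),(20,256),(28,168)])) (O 1)) (F [(35,27),(0,84),(20,219),(28,256)])) (F [(35,256)]))))) (P0 2 1 (P3 1 1 (O 1) (P4 4 1 (O 1) (O 10))) (O 1))))

def c235 : Cell := ⟨⟨1,0,0⟩, ⟨0,1,0⟩, ⟨0,0,1⟩, ⟨1,0,0,0⟩, ⟨1,1,0,0⟩, ⟨1,0,1,0⟩, ⟨1,0,0,1⟩⟩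

def t235 : Tr :=
  P0 2 1 (P3 1 1 (P5 1 1 (P2 1 2 (P4 1 2 (O 1) (P0 1 2 (P3 1 1 (O 1) (P4 2 1 (U2 1 1 (U1 1 1 (P5 1 1 (P2 1 2 (P4 1 2 (O 1) (F [(0,1),(20,239),(3,111),(35,6),(10,68),(15,256)])) (F [(3,240),(10,194),(20,167),(15,256),(0,20)])) (F [(10,242),(15,256),(3,33),(20,135)])) (F [(0,256),(20,27),(10,82),(3,88)])) (F [(35,256),(10,65),(3,55),(30,48)])) (O 4))) (O 1))) (P1 1 1 (P4 2 1 (O 1) (P3 1 1 (O 1) (O 4))) (O 4))) (P1 1 2 (P3 1 2 (P5 2 1 (P2 1 2 (P4 1 2 (O 1) (O 4)) (O 4)) (O 4)) (P4 1 1 (P2 1 2 (P5 1 2 (O 1) (O 4)) (O 4)) (O 4))) (P2 1 1 (P4 1 1 (O 1) (O 4)) (O 4)))) (P4 1 1 (P2 1 2 (P5 1 2 (O 10) (P1 1 2 (P3 1 1 (P5 2 1 (U2 1 1 (U1 1 1 (P4 1 1 (P2 1 2 (P5 1 2 (O 10) (F [(20,256),(3,120),(10,98),(15,156)])) (F [(3,256),(20,63),(10,14),(30,170)])) (F [(20,256),(23,121),(30,217)])) (F [(0,256),(20,58),(3,166)]))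 (F [(0,256),(35,87),(3,214),(30,14)])) (O 4)) (O 10)) (O 10))) (P5 2 1 (O 10) (P0 1 1 (P3 1 1 (O 4) (O 10)) (O 4)))) (P0 1 2 (P3 2 1 (P5 1 1 (O 10) (O 4)) (O 10)) (P1 1 1 (P5 1 1 (O 10) (O 4)) (O 10))))) (O 1)

theorem g19 : ∀ c ∈ [c228, c229, c230, c231, c232, c233, c234, c235], Done D c := by
  intro c hc
  simp only [List.mem_cons, List.not_mem_nil, or_false] at hc
  rcases hc with rfl | rfl | rfl | rfl | rfl | rfl | rfl | rfl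
  · exact done_of_chk (t := t228) (by decide +kernel)
  · exact done_of_chk (t := t229) (by decide +kernel)
  · exact done_of_chk (t := t230) (by decide +kernel)
  · exact done_of_chk (t := t231) (by decide +kernel)
  · exact done_of_chk (t := t232) (by decide +kernel)
  · exact done_of_chk (t := t233) (by decide +kernel)
  · exact done_of_chk (t := t234) (by decide +kernel)
  · exact done_of_chk (t := t235) (by decide +kernel)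

end Pool.Agent.W2helper59.NW.E1
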