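import Pool.Agent.W2helper59.NW.D_E1

set_option autoImplicit false
set_option maxRecDepth 1000000

namespace Pool.Agent.W2helper59.NW.E1

open Tr

def c24 : Cell := ⟨⟨25,0,39⟩, ⟨12,1,19⟩, ⟨3,0,5⟩, ⟨68,124,140,180⟩, ⟨67,123,142,180⟩, ⟨133,247,282,362⟩, ⟨133,249,282,360⟩⟩

def t24 : Tr :=
  U1 1 4 (P0 1 1 (P4 2 1 (U2 1 8 (F [(12,67),(23,256),(25,66)]) (P1 1 1 (P5 1 1 (F [(23,256),(25,216),(12,209)]) (P3 1 2 (U0 1 1 (F [(23,256),(25,28)]) (U2 2 1 (F [(12,68),(23,256),(25,65)]) (P2 1 1 (P5 2 1 (F [(23,232),(12,256),(25,194)]) (P1 1 4 (P3 1 4 (F [(12,256),(9,156)]) (U0 2 1 (F [(12,254),(23,157),(25,256),(9,154)]) (F [(12,16384),(23,9990),(25,15720),(9,9083)]))) (F [(12,256),(23,232),(25,194)]))) (F [(12,256),(23,152),(25,253),(9,152)])))) (F [(23,219),(12,146),(25,256)]))) (F [(12,245),(23,256),(25,252)]))) (U2 1 8 (P3 2 1 (F [(12,252),(23,163),(25,256),(9,149)]) (F [(12,147),(25,256)]))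 (P3 2 1 (P1 1 1 (P5 2 1 (F [(12,232),(25,256),(23,159),(9,125)]) (F [(12,1048576),(23,626139),(25,1042312),(9,633765)])) (F [(12,256),(25,236),(23,81)])) (F [(25,256),(12,147)])))) (F [(12,256),(23,209)])) (P0 1 1 (P4 2 1 (U0 1 2 (F [(9,152),(23,164),(25,256),(12,248)]) (P1 1 1 (P5 1 1 (P2 1 2 (F [(23,256),(25,213)]) (U2 1 1 (F [(23,256),(9,14),(25,38)]) (U0 2 1 (P0 1 1 (F [(25,256),(23,153)]) (U1 1 1 (F [(23,10062),(9,9845),(25,16384),(12,16147)]) (F [(9,256),(25,101),(12,86)]))) (P0 1 1 (F [(25,256),(23,153)]) (P1 1 1 (F [(23,256),(25,213),(12,40)]) (P2 2 1 (F [(23,256),(25,213),(12,40)]) (U2 2 1 (F [(12,16281),(23,9926),(25,16384),(9,9837)]) (U0 4 1 (F [(12,16279),(25,16384),(23,9887),(9,9847)]) (F [(12,256),(25,3)]))))))))) (P3 1 2 (U2 1 1 (F [(9,15),(23,256),(25,11)]) (U0 2 1 (F [(9,158),(23,158),(25,256),(12,256)]) (P2 1 1 (P5 2 1 (P4 1 2 (F [(23,256),(25,64),(12,67)])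 (U2 2 1 (F [(9,8),(23,256),(25,217)]) (U0 4 1 (F [(9,41),(23,256),(25,244)]) (P3 1 1 (P1 1 1 (P5 2 1 (U2 4 1 (F [(23,157),(9,155),(25,256),(12,254)]) (U0 8 1 (F [(9,9930),(25,16384),(23,9998),(12,16282)]) (F [(25,256),(23,156),(12,254),(9,154)]))) (U2 4 1 (F [(9,9956),(23,9992),(12,16343),(25,16384)]) (U0 8 1 (F [(9,156),(23,156),(25,256),(12,256)]) (F [(12,16384),(23,9962),(9,9964),(25,16384)])))) (F [(23,9980),(25,16384),(12,16242),(9,9845)])) (F [(25,256),(12,8),(23,179)]))))) (P1 1 4 (P3 1 4 (F [(9,156),(12,256)]) (U2 2 1 (F [(9,155),(23,156),(12,254),(25,256)]) (U0 4 1 (F [(9,9944),(23,9953),(25,16384),(12,16287)]) (P4 1 1 (F [(9,156),(12,256),(23,152),(25,253)]) (F [(12,256),(25,255),(9,155),(23,153)]))))) (U2 2 1 (F [(9,9914),(23,9989),(12,16279),(25,16384)]) (U0 4 1 (F [(9,9922),(23,9971),(25,16384),(12,16280)]) (P4 1 1 (F [(12,16384),(23,9734),(9,9931),(25,16138)])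 (F [(12,16384),(25,16375),(23,9882),(9,9924)])))))) (P1 1 2 (P5 4 1 (U2 2 1 (F [(9,9931),(23,9959),(12,16338),(25,16384)]) (F [(12,1048576),(9,634586),(25,1047823),(23,630160)])) (F [(9,156),(12,256),(23,152),(25,256)])) (P0 2 1 (U2 2 1 (F [(12,16338),(9,9931),(23,9959),(25,16384)]) (F [(12,1048576),(25,1047823),(9,634586),(23,630160)])) (F [(12,256),(23,43),(9,147)])))))) (U2 1 1 (F [(9,14),(23,256),(25,38)]) (U0 2 1 (P0 1 1 (F [(25,256),(23,117)]) (U1 1 1 (F [(9,9845),(23,10062),(25,16384),(12,16147)]) (F [(9,256),(25,182),(12,179)]))) (P0 1 1 (F [(25,256),(23,117)]) (P2 1 1 (F [(25,256),(23,238),(12,26)]) (P1 2 1 (F [(25,16384),(12,16230),(23,9881),(9,9820)]) (U2 2 1 (F [(12,16281),(25,16384),(23,9926),(9,9837)]) (U0 4 1 (F [(12,16279),(25,16384),(23,9887),(9,9847)]) (F [(12,256),(25,3)])))))))))) (P2 1 1 (P5 1 2 (F [(23,256),(25,233)]) (U2 1 1 (F [(23,256),(25,38),(9,14)])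 (U0 2 1 (P3 1 1 (U1 1 1 (F [(23,10065),(25,16384),(12,16155),(9,9775)]) (F [(9,9805),(23,10068),(25,16384),(12,16151)])) (F [(25,256),(23,116)])) (P3 1 1 (P1 1 1 (P5 2 1 (F [(23,256),(25,242),(12,34)]) (F [(12,253),(25,256),(23,156),(9,150)])) (F [(23,237),(25,256),(12,26)])) (F [(25,256),(23,116)]))))) (P0 2 1 (U2 1 1 (F [(23,211),(25,256),(12,239),(9,147)]) (U0 2 1 (P3 1 1 (U1 1 1 (F [(25,256),(23,157),(12,253),(9,149)]) (P5 1 1 (F [(25,256),(23,253)]) (F [(9,152),(25,256),(23,154),(12,252)]))) (F [(25,256),(23,77)])) (F [(25,233),(12,256),(23,76)]))) (U2 1 1 (F [(23,159),(12,251),(25,256),(9,150)]) (U0 2 1 (U1 1 1 (F [(12,256),(23,143),(25,121)]) (P5 1 1 (F [(23,170),(25,256),(12,239),(9,138)]) (F [(25,256),(12,253),(23,155),(9,152)]))) (F [(12,256),(25,121),(23,141)]))))))) (U0 1 2 (P3 2 1 (F [(9,9765),(25,16384),(23,10196),(12,15947)]) (F [(9,143),(25,256),(23,153),(12,239)]))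 (P3 2 1 (P1 1 1 (P5 2 1 (U2 1 1 (U1 1 2 (F [(25,256),(23,157),(9,149),(12,249)]) (P2 1 1 (F [(25,256),(9,29)]) (F [(9,9813),(25,16384),(23,9987),(12,16175)]))) (U0 2 1 (P2 1 1 (F [(25,256)]) (F [(9,9818),(25,16384),(12,16187),(23,9908)])) (F [(25,256),(12,192),(9,48)]))) (U2 1 1 (F [(9,155),(23,156),(25,256),(12,255)]) (F [(9,9941),(25,16372),(12,16384),(23,9663)]))) (P0 2 1 (U2 1 1 (U1 1 2 (F [(25,256),(12,248),(23,156),(9,147)]) (P5 1 1 (F [(25,256)]) (F [(9,153),(25,256),(12,253),(23,155)]))) (U0 2 1 (P5 1 1 (F [(25,256),(12,15)]) (F [(25,256),(9,153),(12,253),(23,153)])) (F [(25,223),(12,256)]))) (P2 2 1 (U2 1 1 (U1 1 2 (F [(25,256),(23,164),(12,247),(9,145)]) (P5 1 1 (F [(25,256)]) (F [(25,256),(9,151),(23,156),(12,251)]))) (U0 2 1 (P5 1 1 (F [(25,256),(12,15)]) (F [(25,256),(12,252),(9,152),(23,153)])) (F [(25,223),(12,256)]))) (F [(12,253),(25,256),(23,151),(9,151)]))))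 (F [(25,256),(12,146)])))) (F [(23,256),(9,92),(12,237)]))

def c25 : Cell := ⟨⟨25,1,38⟩, ⟨12,1,19⟩, ⟨25,0,39⟩, ⟨135,247,282,360⟩, ⟨267,495,566,720⟩, ⟨133,247,282,362⟩, ⟨133,249,282,360⟩⟩

def t25 : Tr :=
  U1 2 1 (U2 1 1 (P1 1 1 (P5 1 1 (P2 1 2 (F [(9,8),(25,219),(23,256)]) (U1 1 2 (P0 1 1 (F [(25,256),(9,1),(23,151)]) (U2 1 2 (P1 1 1 (F [(25,16384),(23,9892),(9,9505),(12,15702)]) (P2 2 1 (F [(25,16384),(23,9892),(12,15977),(9,9671)]) (U1 1 4 (F [(12,16384),(25,16384),(23,9830),(9,9890)]) (F [(25,16384),(12,16281),(9,9859),(23,9867)])))) (F [(9,256),(25,225),(12,126)]))) (F [(9,256),(25,103),(12,86)]))) (P3 1 2 (U1 1 2 (U2 1 2 (P2 1 1 (P5 2 1 (P4 1 2 (U1 1 4 (U2 1 4 (P2 1 2 (F [(23,256),(9,14),(25,51)]) (P1 1 1 (P5 2 1 (U1 1 8 (P0 1 1 (F [(23,256),(25,217),(9,8)]) (F [(23,9998),(25,16384),(12,16321),(9,9914)])) (F [(9,102),(23,256),(25,45)])) (P3 1 2 (F [(9,981),(23,16384),(25,662)])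 (U1 1 8 (P0 1 1 (F [(25,256),(23,256),(9,6)]) (U2 1 8 (F [(23,10034),(12,16341),(25,16384),(9,9929)]) (F [(9,9952),(23,9955),(25,16384),(12,16351)]))) (F [(9,102),(23,256),(25,45)])))) (P0 2 1 (U1 1 8 (P3 1 1 (F [(23,9984),(25,16384),(12,16322),(9,9914)]) (F [(25,256),(23,75)])) (F [(23,256),(25,112),(9,84)])) (U1 1 8 (U2 1 8 (F [(12,256),(23,190),(25,125)]) (P1 2 1 (F [(23,9985),(25,16384),(12,16323),(9,9914)]) (F [(23,9988),(12,16307),(25,16384),(9,9885)]))) (F [(23,9998),(25,16384),(9,9913),(12,16319)]))))) (P2 1 2 (F [(9,179),(23,256),(25,196)]) (P1 1 1 (F [(9,256),(23,133),(25,45)]) (P0 2 1 (F [(9,256),(25,229),(23,27)]) (U0 2 1 (F [(9,9912),(23,10008),(25,16384),(12,16317)]) (U2 2 1 (F [(9,9910),(23,10003),(25,16384),(12,16312)]) (F [(9,256)]))))))) (F [(9,114),(23,256)])) (U1 1 4 (P3 1 1 (U2 1 4 (P1 1 1 (P5 2 1 (U1 1 8 (P2 1 1 (F [(25,256),(9,29)]) (U2 1 8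 (F [(25,16384),(12,16340),(23,9957),(9,9924)]) (F [(9,9953),(25,16384),(23,9937),(12,16353)]))) (F [(9,256),(25,45),(23,133)])) (U1 1 8 (P3 1 2 (U2 1 8 (F [(9,9969),(12,16384),(23,9995),(25,16380)]) (F [(9,256),(12,174)])) (U2 1 8 (F [(25,16384),(12,16358),(9,9940),(23,9957)]) (F [(9,256),(25,24),(12,189)]))) (F [(9,256),(12,149)]))) (P0 2 1 (U1 1 8 (P5 1 1 (F [(25,256),(12,32)]) (F [(25,16384),(12,16336),(9,9917),(23,9898)])) (F [(9,155),(25,256),(23,156),(12,254)])) (P2 2 1 (U1 1 8 (P5 1 1 (F [(25,256),(12,32)]) (F [(25,16384),(12,16333),(23,9912),(9,9917)])) (F [(25,256),(9,155),(23,156),(12,254)])) (U1 1 8 (F [(12,16357),(25,16384),(23,9887),(9,9916)]) (F [(23,9940),(25,16384),(12,16332),(9,9917)]))))) (P1 1 1 (F [(9,256),(25,27)]) (P0 2 1 (F [(9,256),(25,207)]) (P2 2 1 (F [(9,256),(25,225)]) (F [(9,155),(25,256),(23,155),(12,255)]))))) (F [(25,16384),(9,9408),(23,9892),(12,15543)]))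 (F [(9,49),(25,242),(23,256)]))) (P1 1 4 (F [(9,172),(25,142),(12,256)]) (U1 1 4 (P4 1 1 (F [(9,9930),(12,16384),(25,16048),(23,9621)]) (F [(9,9914),(25,16384),(12,16362),(23,9844)])) (F [(9,179),(25,196),(23,256)])))) (F [(9,9931),(12,16384),(25,16276),(23,9757)])) (F [(9,256),(25,23),(12,188)])) (F [(9,256),(12,174)])) (U1 1 2 (P0 1 1 (F [(25,256),(9,9),(23,112)]) (U2 1 2 (P2 1 1 (F [(25,16384),(9,9505),(23,9892),(12,15702)]) (P1 2 1 (F [(25,16384),(12,16223),(9,9826),(23,9860)]) (U1 1 4 (F [(12,16384),(25,16384),(23,9830),(9,9890)]) (F [(25,16384),(12,16281),(9,9861),(23,9864)])))) (F [(9,256),(25,209),(12,210)]))) (F [(9,256),(25,211),(12,210)])))) (P2 1 1 (P5 1 2 (F [(25,236),(23,256),(9,7)]) (U1 1 2 (P3 1 1 (U2 1 2 (P1 1 1 (P5 2 1 (F [(25,256),(23,154)]) (F [(12,16282),(25,16384),(23,9897),(9,9761)])) (F [(25,256),(23,154)])) (P1 1 1 (P5 2 1 (F [(25,256),(23,154)])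 (F [(25,256),(9,154),(12,254),(23,154)])) (F [(25,256),(23,154)]))) (F [(25,256),(23,115)])) (P3 1 1 (P1 1 1 (F [(9,155),(25,256),(23,156),(12,252)]) (F [(25,256),(23,154)])) (F [(25,256),(9,9),(23,112)])))) (P0 2 1 (U1 1 2 (P3 1 1 (U2 1 2 (F [(25,232),(12,256),(23,77)]) (P5 1 1 (F [(25,256),(23,154)]) (F [(25,256),(9,150),(12,250),(23,151)]))) (F [(25,256),(23,76)])) (P3 1 1 (P5 1 1 (F [(25,256),(23,154)]) (F [(9,152),(25,256),(23,154),(12,252)])) (F [(25,256),(9,14),(23,82)]))) (U1 1 2 (U2 1 2 (F [(12,256),(25,121),(23,141)]) (P5 1 1 (F [(25,256),(12,35),(23,107)]) (F [(25,256),(12,250),(23,151),(9,150)]))) (P5 1 1 (F [(25,256),(23,151),(9,129),(12,218)]) (F [(25,256),(9,152),(12,253),(23,154)])))))) (F [(9,147),(25,256),(23,144),(12,233)])) (F [(9,154),(23,161),(25,256),(12,249)])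

def c26 : Cell := ⟨⟨13,0,19⟩, ⟨25,1,38⟩, ⟨25,0,39⟩, ⟨135,247,282,360⟩, ⟨267,495,566,720⟩, ⟨133,247,282,362⟩, ⟨133,249,282,360⟩⟩

def t26 : Tr :=
  U2 2 1 (U1 1 1 (P1 1 1 (P5 1 1 (F [(25,256),(9,18),(12,45)]) (P3 1 2 (U2 1 2 (U1 1 2 (P2 1 1 (P5 2 1 (P4 1 2 (U2 1 4 (U1 1 4 (P2 1 2 (P5 1 2 (F [(23,254),(25,256),(9,44)]) (P1 1 2 (P3 1 2 (F [(9,9997),(23,10013),(25,16384),(12,16337)]) (F [(9,49),(25,241),(23,256)])) (F [(25,150),(23,256),(9,74)]))) (P1 1 1 (P5 2 1 (U2 1 8 (P0 1 1 (F [(25,211),(23,256)]) (U1 1 8 (F [(23,256),(12,209),(25,213)]) (P2 1 1 (F [(23,256),(25,211)]) (U0 1 2 (F [(9,9947),(23,9961),(25,16384),(12,16349)]) (P3 1 1 (P5 1 1 (P2 2 1 (F [(23,256),(25,118),(12,57)]) (P0 4 1 (F [(23,9963),(25,16384),(12,16339),(9,9923)]) (F [(12,16384),(23,9979),(25,16349),(9,9945)]))) (P1 2 1 (F [(23,9993),(9,9927),(25,16384),(12,16349)]) (P0 4 1 (F [(23,9959),(9,9936),(25,16384),(12,16353)])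 (F [(12,16384),(23,9979),(9,9945),(25,16349)])))) (F [(25,16384),(23,9928),(12,16340),(9,9914)])))))) (P0 1 1 (F [(25,249),(9,47),(23,256)]) (P2 1 1 (F [(25,256),(9,44),(23,253)]) (U0 1 1 (U1 2 1 (P3 1 1 (U2 1 1 (P5 1 1 (P2 2 1 (F [(23,9958),(25,16384),(12,16356),(9,9939)]) (P0 4 1 (F [(25,16384),(23,9957),(9,9936),(12,16353)]) (F [(12,16384),(25,16348),(23,9963),(9,9963)]))) (P1 2 1 (F [(9,9961),(23,9957),(25,16384),(12,16371)]) (P0 4 1 (F [(9,9950),(25,16384),(23,9957),(12,16364)]) (F [(12,16384),(9,9963),(23,9963),(25,16347)])))) (P5 1 1 (F [(9,9952),(25,16384),(23,9951),(12,16366)]) (F [(9,256),(12,54)]))) (P0 2 1 (F [(25,256),(23,75)]) (U2 1 1 (F [(25,16384),(12,16360),(23,9942),(9,9935)]) (F [(9,9952),(25,16384),(23,9951),(12,16366)])))) (F [(9,256),(25,44),(23,133)])) (U2 2 1 (P3 1 1 (U1 1 1 (P5 1 1 (P2 2 1 (F [(25,256),(12,32)]) (F [(25,1048576),(12,1048337),(9,637656),(23,636133)]))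 (F [(25,1048576),(9,637836),(23,636261),(12,1048539)])) (F [(9,101),(25,256),(12,105)])) (F [(25,256),(9,69),(12,129)])) (F [(9,101),(25,256),(12,105)])))))) (P3 1 2 (U2 1 8 (U1 1 8 (F [(12,16384),(23,9935),(9,9972),(25,16360)]) (F [(9,9991),(23,9917),(25,16339),(12,16384)])) (F [(9,9984),(25,16347),(23,9923),(12,16384)])) (U2 1 8 (P0 1 1 (F [(25,244),(23,256),(9,41)]) (U1 1 8 (F [(12,16376),(25,16384),(23,9955),(9,9947)]) (P1 2 1 (F [(9,93),(25,256),(23,87)]) (U0 1 2 (F [(9,9954),(23,9951),(25,16384),(12,16351)]) (P4 1 1 (F [(9,9971),(23,9940),(25,16375),(12,16384)]) (F [(25,16384),(12,16333),(9,9918),(23,9896)])))))) (P0 1 1 (F [(25,249),(9,47),(23,256)]) (P1 2 1 (F [(9,8),(25,256),(23,112)]) (U0 1 1 (U1 2 1 (P4 1 1 (F [(9,9973),(25,16374),(23,9936),(12,16384)]) (F [(25,256),(9,159),(12,214)])) (F [(9,256),(25,27)])) (F [(9,9969),(25,16384),(12,16378),(23,9924)])))))))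 (P0 2 1 (U2 1 8 (P3 1 1 (U1 1 8 (F [(25,230),(12,256),(23,76)]) (P5 1 1 (F [(25,256),(23,239),(12,26)]) (P1 1 2 (U0 1 2 (F [(25,16384),(9,9944),(23,9958),(12,16350)]) (F [(25,16384),(12,16355),(23,9944),(9,9920)])) (F [(25,256),(23,116),(12,4)])))) (F [(25,256),(23,76),(12,8)])) (P3 1 1 (P5 1 1 (F [(25,256),(23,155)]) (P1 1 2 (U0 1 1 (U1 2 1 (P3 1 2 (U2 1 1 (F [(12,16379),(25,16384),(23,9942),(9,9884)]) (F [(25,16384),(9,9949),(12,16367),(23,9951)])) (F [(25,256),(23,75)])) (F [(9,9949),(25,16384),(23,9955),(12,16346)])) (F [(25,256),(9,69),(12,129)])) (F [(25,256),(9,8),(23,112)]))) (F [(25,256),(9,14),(23,82)]))) (U2 1 8 (U1 1 8 (F [(12,256),(25,118),(23,140)]) (P1 2 1 (P5 1 1 (F [(25,16384),(23,10004),(12,16307),(9,9865)]) (P3 1 2 (F [(12,16378),(23,9992),(25,16384),(9,9929)]) (F [(25,16384),(12,16283),(23,9981),(9,9855)]))) (F [(12,16309),(25,16384),(23,9993),(9,9868)])))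 (P1 2 1 (P5 1 1 (P2 1 2 (F [(25,256),(23,155)]) (U0 1 1 (U1 2 1 (F [(25,256),(12,72),(23,57)]) (F [(25,16384),(23,9943),(9,9924),(12,16334)])) (F [(25,256),(12,32)]))) (P3 1 2 (U0 1 1 (U1 2 1 (U2 1 1 (F [(12,256),(25,117),(23,140)]) (P1 1 2 (F [(12,16359),(25,16384),(9,9940),(23,9943)]) (F [(12,16288),(25,16384),(23,9896),(9,9882)]))) (F [(9,9948),(25,16384),(12,16366),(23,9954)])) (F [(12,129),(25,256),(9,69)])) (U0 1 1 (U1 2 1 (F [(25,256),(12,72),(23,57)]) (F [(25,16384),(9,9924),(23,9943),(12,16334)])) (F [(25,256),(12,32)])))) (F [(25,16384),(12,16322),(23,10053),(9,9680)])))))) (P2 1 2 (F [(9,128),(25,256),(23,61)]) (P1 1 1 (F [(9,238),(25,256)]) (P0 2 1 (F [(9,238),(25,256)]) (U0 1 2 (U1 2 1 (P1 2 1 (F [(9,256),(25,102),(12,87)]) (F [(9,9873),(25,16384),(23,9943),(12,16250)])) (F [(9,209),(25,256)])) (P1 2 1 (F [(9,9876),(25,16384),(23,9843),(12,16177)]) (F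 [(25,16384),(9,9828),(23,9895),(12,16212)]))))))) (F [(9,100),(25,256),(12,105)])) (U2 1 4 (P3 1 1 (U1 1 4 (P1 1 1 (P5 2 1 (U2 1 8 (P2 1 1 (F [(25,256)]) (U1 1 8 (F [(25,16384),(12,16347),(23,9898),(9,9924)]) (F [(25,236),(9,159),(12,256)]))) (F [(25,239),(9,183),(12,256)])) (U2 1 8 (P3 1 2 (U1 1 8 (F [(9,9968),(12,16384),(25,16364),(23,9898)]) (F [(9,256),(25,125),(12,253)])) (U1 1 8 (F [(25,16384),(12,16347),(9,9924),(23,9898)]) (F [(9,256),(25,125),(12,253)]))) (F [(9,180),(25,213),(12,256)]))) (F [(25,236),(12,256),(9,147)])) (F [(9,159),(25,237),(12,256)])) (F [(25,256),(12,16)])) (F [(9,116),(25,256),(12,143)]))) (F [(9,148),(25,183),(12,256)])) (F [(12,179),(9,99),(25,256)])) (F [(9,256),(25,165),(12,206)])) (F [(9,101),(25,256),(12,106)])) (F [(25,256),(9,18),(12,45)]))) (F [(25,256),(9,45),(12,91)])) (F [(9,99),(25,256),(12,102)])) (F [(9,56),(25,256)])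

def c27 : Cell := ⟨⟨13,0,19⟩, ⟨12,1,19⟩, ⟨25,0,39⟩, ⟨135,247,282,360⟩, ⟨67,123,142,180⟩, ⟨133,247,282,362⟩, ⟨267,495,566,720⟩⟩

def t27 : Tr :=
  F [(9,177),(25,235),(12,256)]

def c28 : Cell := ⟨⟨25,1,38⟩, ⟨12,1,19⟩, ⟨25,0,39⟩, ⟨269,495,562,722⟩, ⟨135,247,282,360⟩, ⟨133,247,282,362⟩, ⟨133,249,282,360⟩⟩

def t28 : Tr :=
  U1 2 1 (U2 1 1 (P3 1 1 (P5 1 1 (P2 1 2 (P4 1 2 (F [(23,256),(9,16)]) (U1 1 2 (U2 1 2 (P0 1 2 (P3 1 1 (P1 1 4 (F [(23,9892),(9,9505),(25,16384),(12,15702)]) (F [(23,10133),(25,16384),(12,16309),(9,9887)])) (P4 2 1 (U1 1 4 (U2 1 4 (F [(12,256),(23,164),(25,78)]) (F [(23,156),(25,256),(12,253),(9,153)])) (F [(23,256),(9,41),(25,244)])) (F [(12,16384),(23,9811),(25,16218),(9,9891)]))) (F [(23,256)])) (P0 1 2 (P3 1 1 (F [(9,136),(23,256)]) (P4 2 1 (F [(9,41),(23,256),(25,244)]) (F [(9,155),(23,155),(25,256),(12,256)]))) (F [(23,256),(9,16)]))) (F [(9,256),(23,37),(12,86)])))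 (P1 1 1 (U1 1 2 (U2 1 2 (P4 2 1 (F [(23,256)]) (P3 1 1 (P5 4 1 (F [(23,10034),(12,16384),(9,9931),(25,16266)]) (F [(23,10110),(9,9798),(12,16164),(25,16384)])) (F [(12,256),(9,155)]))) (F [(9,237),(23,119),(12,256)])) (F [(9,237),(23,120),(12,256)])) (F [(23,122),(9,161),(12,256)]))) (P1 1 2 (U1 1 2 (U2 1 2 (P4 1 1 (P5 2 1 (P2 1 2 (U1 1 4 (U2 1 4 (F [(23,256),(9,90),(12,247)]) (P4 1 2 (F [(9,99),(23,256)]) (P3 1 1 (F [(9,256),(23,159)]) (U0 2 1 (F [(9,65),(23,256),(12,187)]) (P0 1 2 (U2 2 1 (F [(9,9923),(23,10026),(25,16384),(12,16339)]) (F [(9,256)])) (F [(9,136),(23,256)])))))) (F [(9,114),(23,256)])) (F [(9,155),(12,256)])) (F [(9,155),(12,256)])) (F [(12,256),(9,155)])) (F [(9,256),(12,185)])) (F [(9,256),(12,185)])) (P2 1 1 (U1 1 2 (U2 1 2 (P4 1 1 (P5 1 2 (F [(23,647760),(9,628041),(12,1036032),(25,1048576)]) (F [(12,256),(9,155)])) (F [(12,256),(9,155)])) (F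 [(9,256),(12,185)])) (F [(9,256),(12,185)])) (F [(9,157),(23,40),(12,256)])))) (P4 1 1 (P2 1 2 (P5 1 2 (F [(23,256),(9,12),(25,114)]) (U1 1 2 (U2 1 2 (P1 1 2 (P3 1 1 (P5 2 1 (F [(23,197),(12,95),(25,256)]) (F [(12,255),(23,155),(25,256),(9,153)])) (F [(23,256),(25,214),(12,207)])) (F [(23,256)])) (P1 1 2 (P3 1 1 (P5 2 1 (F [(9,6),(23,256),(25,256)]) (F [(9,154),(25,256),(23,155),(12,255)])) (F [(23,256),(25,217),(9,8)])) (F [(23,256),(9,16)]))) (F [(9,205),(23,256),(12,153)]))) (U1 1 2 (P0 1 1 (U2 1 2 (F [(23,162),(12,256),(25,84)]) (P5 2 1 (F [(23,256),(9,16)]) (P3 1 1 (F [(23,155),(9,154),(12,256),(25,256)]) (F [(23,256),(25,217),(9,8)])))) (F [(23,122),(12,256),(9,161)])) (F [(23,256),(9,205),(12,153)]))) (U1 1 2 (P0 1 2 (U2 1 2 (F [(12,256),(25,84),(23,162)]) (P5 1 1 (F [(12,16025),(25,16384),(23,9836),(9,9511)]) (F [(12,253),(25,256),(23,151),(9,151)]))) (P2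 1 1 (U2 1 2 (F [(12,256),(23,162),(25,84)]) (P5 1 1 (P4 1 2 (F [(23,256),(25,256),(9,6)]) (F [(12,256),(23,155),(25,256),(9,154)])) (F [(12,256),(23,155),(9,154),(25,256)]))) (F [(12,256),(23,83),(9,158)]))) (P0 1 2 (P5 1 1 (P4 2 1 (F [(23,10121),(9,9755),(25,16384),(12,16171)]) (F [(12,253),(23,155),(25,256),(9,152)])) (F [(12,254),(9,153),(23,154),(25,256)])) (F [(23,256),(9,205),(12,153)]))))) (P3 1 1 (F [(9,256),(23,39),(12,85)]) (P4 1 1 (F [(9,256),(25,28)]) (U0 2 1 (P0 1 2 (P5 1 1 (P4 2 1 (F [(9,153),(23,158),(25,256),(12,253)]) (F [(9,154),(23,153),(25,256),(12,253)])) (F [(9,208),(25,71),(12,256)])) (F [(9,228),(23,256),(12,137)])) (P0 1 2 (F [(9,9795),(25,16384),(23,9840),(12,16109)]) (F [(9,228),(23,256),(12,137)])))))) (F [(9,158),(23,166),(25,256),(12,256)])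

def c29 : Cell := ⟨⟨51,0,77⟩, ⟨50,1,77⟩, ⟨25,0,39⟩, ⟨535,993,1126,1442⟩, ⟨268,494,564,722⟩, ⟨266,496,564,722⟩, ⟨133,249,282,360⟩⟩

def t29 : Tr :=
  P4 1 2 (F [(23,256),(9,47),(25,242)]) (U2 1 2 (U1 1 2 (P0 1 2 (P3 1 1 (P1 1 4 (F [(23,42),(25,256),(12,11)]) (U2 1 4 (U1 1 4 (F [(23,140),(12,256),(25,119)]) (P4 1 1 (F [(23,256),(25,118),(12,57)]) (P0 1 2 (F [(23,9900),(25,16384),(12,16064),(9,9706)]) (F [(23,256),(12,77),(25,11)])))) (P4 1 1 (F [(25,256),(23,209),(12,118)]) (P0 1 2 (F [(25,16384),(23,9885),(9,9686),(12,16033)]) (F [(25,16384),(23,9918),(12,16044),(9,9669)]))))) (P4 2 1 (U2 1 4 (U1 1 4 (F [(12,180),(25,256)]) (P5 1 1 (F [(23,165),(25,256),(12,149)]) (P1 1 2 (F [(25,16384),(12,16198),(23,9898),(9,9789)]) (F [(12,40),(23,256),(25,211)])))) (P5 1 1 (F [(25,256),(23,165),(12,149)]) (P1 1 2 (F [(25,16384),(12,16176),(23,9871),(9,9775)]) (F [(25,16384),(12,16182),(23,9916),(9,9755)]))))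 (F [(12,16384),(25,16014),(23,9530),(9,9862)]))) (F [(23,206),(25,256),(12,115)])) (P0 1 2 (P3 1 1 (P1 1 4 (F [(9,211),(25,256)]) (U0 1 2 (F [(9,136),(23,256)]) (P4 1 1 (F [(25,16384),(9,9623),(23,9914),(12,15972)]) (P0 1 2 (F [(9,256),(25,174),(12,188)]) (F [(9,619365),(25,1048576),(23,633797),(12,1026373)]))))) (P4 2 1 (U0 1 2 (F [(9,49),(25,241),(23,256)]) (P5 1 1 (F [(25,256),(9,152),(23,155),(12,252)]) (F [(25,16384),(9,9798),(23,9889),(12,16207)]))) (F [(9,155),(25,254),(12,256),(23,153)]))) (P1 1 2 (P3 1 4 (F [(9,169),(23,33),(25,256)]) (U0 1 2 (F [(9,113),(23,256)]) (F [(23,9914),(9,9623),(25,16384),(12,15972)]))) (U0 1 2 (F [(9,113),(23,256)]) (F [(23,158),(9,152),(25,256),(12,253)]))))) (P0 1 2 (F [(9,155),(25,256),(12,209)]) (P1 1 2 (P3 1 4 (F [(9,23),(25,256),(23,35)]) (U0 1 1 (U1 2 1 (F [(9,9614),(25,16384),(23,9886),(12,15948)]) (F [(9,256)])) (F [(25,256),(12,16)])))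 (U0 1 1 (U1 2 1 (F [(9,9624),(23,9909),(25,16384),(12,15971)]) (F [(9,256)])) (F [(25,256),(23,41),(12,12)])))))

def c30 : Cell := ⟨⟨51,0,77⟩, ⟨50,1,77⟩, ⟨25,0,39⟩, ⟨269,495,562,722⟩, ⟨268,494,564,722⟩, ⟨266,496,564,722⟩, ⟨535,993,1126,1442⟩⟩

def t30 : Tr :=
  P1 1 1 (U2 1 2 (U1 1 2 (P4 2 1 (F [(23,256),(12,116),(25,212)]) (P3 1 1 (P5 4 1 (U2 1 4 (U1 1 4 (F [(12,256),(23,123)]) (P0 1 1 (P4 2 1 (F [(23,256),(12,79)]) (U0 1 2 (U1 2 1 (F [(23,9974),(12,16295),(25,16384),(9,9872)]) (F [(23,9978),(9,9889),(12,16299),(25,16384)])) (F [(12,202),(23,133),(25,256)]))) (F [(23,256),(12,71)]))) (P0 1 1 (P4 2 1 (P5 1 2 (F [(12,256),(23,127),(25,21)]) (U0 1 1 (F [(23,10017),(12,16294),(25,16384),(9,9848)]) (U2 2 1 (U1 1 1 (F [(12,209),(23,256),(25,213)]) (P3 1 1 (F [(23,256),(12,63),(25,87)]) (F [(12,16337),(23,10019),(25,16384),(9,9844)]))) (P3 1 1 (P1 2 1 (F [(25,256),(23,156)])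 (F [(12,16384),(23,9963),(25,16383),(9,9920)])) (F [(12,1047480),(25,1048576),(23,636292),(9,633631)]))))) (U0 1 1 (U1 2 1 (U2 1 1 (F [(12,202),(23,133),(25,256)]) (P3 4 1 (P5 1 1 (P0 4 1 (F [(23,9935),(25,16384),(12,16301),(9,9866)]) (F [(12,16351),(23,9964),(25,16384),(9,9892)])) (F [(23,256),(9,12),(25,88)])) (P0 1 2 (F [(25,16384),(12,16297),(9,9858),(23,9905)]) (P1 4 1 (F [(12,16324),(23,9927),(25,16384),(9,9885)]) (F [(12,256),(23,15),(9,156)]))))) (P3 4 1 (F [(23,9988),(9,9878),(25,16384),(12,16294)]) (F [(9,9912),(23,9954),(25,16384),(12,16343)]))) (U2 2 1 (U1 1 1 (F [(12,203),(25,256),(23,133)]) (P3 4 1 (P5 1 1 (P0 4 1 (F [(25,16384),(12,16310),(23,9914),(9,9871)]) (F [(12,16357),(23,9958),(25,16384),(9,9886)])) (P1 2 1 (F [(23,239),(25,256),(12,26)]) (P0 4 1 (F [(25,16384),(23,9945),(9,9863),(12,16296)]) (F [(23,156),(12,256),(25,256),(9,155)])))) (P0 1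 2 (F [(25,256),(12,199),(9,111)]) (P1 4 1 (F [(12,16313),(25,16384),(23,9909),(9,9872)]) (F [(12,256),(9,155)]))))) (P3 4 1 (P5 1 1 (P0 4 1 (F [(25,256),(12,199),(9,150)]) (F [(12,1047480),(25,1048576),(9,633631),(23,636292)])) (P1 2 1 (F [(25,256),(23,156)]) (P0 4 1 (F [(25,16384),(9,9873),(23,9942),(12,16307)]) (F [(12,16384),(9,9922),(25,16380),(23,9959)])))) (F [(25,191),(12,256),(9,177)]))))) (P5 1 2 (F [(12,256),(23,180),(25,107)]) (P1 4 1 (U0 1 1 (F [(23,256),(9,16)]) (U2 2 1 (F [(23,256),(12,71)]) (P3 2 1 (F [(23,256),(25,244),(9,41)]) (F [(23,9962),(12,16384),(9,9915),(25,16358)])))) (F [(23,180),(12,256),(25,107)]))))) (P1 1 2 (F [(23,116),(25,256),(12,4)]) (U2 1 4 (U1 1 4 (F [(23,123),(12,256)]) (P0 1 1 (P3 2 1 (F [(23,256),(12,79)]) (U0 1 2 (U1 2 1 (F [(23,9974),(12,16295),(9,9872),(25,16384)]) (F [(23,9983),(9,9978),(25,16384),(12,16343)])) (F [(23,9968),(12,16309),(25,16384),(9,9854)])))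 (F [(23,256),(12,71)]))) (P0 1 1 (P3 2 1 (U0 1 1 (F [(23,256),(9,16)]) (U2 2 1 (F [(23,256),(12,57),(25,117)]) (P1 1 1 (F [(9,49),(23,256),(25,241)]) (P2 2 1 (F [(9,47),(23,256),(25,248)]) (P0 2 1 (F [(9,9937),(23,9963),(25,16381),(12,16384)]) (F [(9,9926),(23,9943),(12,16384),(25,16339)])))))) (U0 1 1 (U1 2 1 (U2 1 1 (P4 4 1 (F [(23,256),(25,93)]) (P0 1 2 (P3 4 1 (F [(12,16262),(23,9987),(25,16384),(9,9773)]) (F [(12,255),(25,256),(23,155),(9,154)])) (F [(12,209),(23,256),(25,213)]))) (P4 4 1 (F [(23,256),(9,12),(25,88)]) (P0 1 2 (P3 4 1 (F [(9,9918),(25,16384),(23,9955),(12,16358)]) (F [(9,9859),(25,16384),(12,16297),(23,9904)])) (P2 4 1 (F [(9,9918),(23,9955),(25,16384),(12,16358)]) (F [(23,189),(9,167),(12,256)]))))) (F [(9,9923),(23,9975),(25,16384),(12,16325)])) (U2 2 1 (U1 1 1 (F [(12,150),(23,165),(25,256)]) (P4 4 1 (P2 2 1 (F [(23,188),(25,256)]) (P0 4 1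 (F [(23,9938),(9,9810),(25,16384),(12,16206)]) (P1 2 1 (F [(23,636414),(9,635016),(12,1047204),(25,1048576)]) (F [(23,121),(12,256),(9,132)])))) (P0 1 2 (P3 4 1 (U0 1 2 (F [(9,9918),(25,16384),(23,9944),(12,16355)]) (F [(25,16384),(9,9843),(12,16273),(23,9905)])) (F [(25,256),(9,111),(12,199)])) (P2 4 1 (U0 1 2 (F [(9,9918),(25,16384),(23,9944),(12,16355)]) (F [(25,16384),(12,16273),(23,9905),(9,9843)])) (P1 2 1 (U0 1 2 (F [(9,217),(23,138),(12,256)]) (P3 1 1 (F [(12,16359),(23,9949),(25,16384),(9,9915)]) (F [(12,256),(9,155)]))) (F [(12,256),(9,155)])))))) (P4 4 1 (P2 2 1 (F [(25,256),(23,156)]) (P0 4 1 (F [(9,9814),(25,16384),(23,9901),(12,16202)]) (P1 2 1 (F [(9,635668),(25,1048576),(23,635764),(12,1047923)]) (F [(9,9927),(12,16384),(23,9932),(25,16338)])))) (P0 1 2 (F [(25,256),(9,88),(12,96)]) (P2 4 1 (F [(9,172),(25,256),(12,236)]) (P1 2 1 (F [(9,9948),(25,16361),(12,16384),(23,9890)])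 (F [(12,256),(9,155)])))))))) (P2 4 1 (U0 1 1 (F [(23,256),(9,16)]) (U2 2 1 (F [(23,256),(12,71)]) (P3 1 1 (F [(23,256),(9,102),(25,44)]) (P4 2 1 (F [(23,256),(9,49),(25,241)]) (F [(23,9952),(9,9926),(12,16384),(25,16353)]))))) (F [(23,139),(12,256),(9,217)])))))) (F [(12,256),(25,46),(9,153)]))) (P4 2 1 (P5 2 1 (F [(23,256),(9,106),(12,256)]) (P3 1 4 (F [(9,233),(23,256)]) (U0 1 2 (F [(9,113),(23,256)]) (P4 1 1 (F [(23,256),(9,118),(25,46)]) (P3 2 1 (F [(23,256),(25,170),(12,47)]) (F [(23,10019),(9,9847),(12,16320),(25,16384)])))))) (P3 1 1 (P5 4 1 (U0 1 2 (F [(9,136),(23,256)]) (P0 1 1 (P4 2 1 (P5 1 2 (U2 1 1 (F [(9,155),(23,156),(12,256),(25,256)]) (F [(9,9905),(25,16384),(23,9935),(12,16378)])) (U2 1 1 (F [(9,9938),(23,9927),(25,16384),(12,16288)]) (U0 2 1 (F [(9,9925),(23,9940),(25,16384),(12,16313)]) (P3 1 1 (F [(9,637362),(25,1048576),(23,634379),(12,1045726)])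 (F [(9,9917),(25,16384),(12,16365),(23,9926)]))))) (F [(9,256),(25,161),(12,205)])) (P5 1 2 (F [(9,9906),(23,9953),(12,16384),(25,16379)]) (P1 4 1 (U2 1 1 (F [(9,68),(23,256)]) (U0 2 1 (F [(9,114),(23,256)]) (P3 2 1 (F [(9,41),(23,256),(25,244)]) (F [(9,9930),(23,9948),(25,16375),(12,16384)])))) (F [(9,9911),(23,9952),(12,16384),(25,16357)]))))) (F [(9,256),(23,37),(12,87)])) (F [(9,167),(12,256),(25,15)])))) (P4 2 1 (P5 2 1 (U0 1 1 (U1 2 1 (U2 1 1 (P4 1 2 (F [(23,256),(9,16)]) (P3 1 1 (F [(23,256),(9,16)]) (F [(23,10037),(9,9846),(25,16384),(12,16328)]))) (F [(9,256)])) (F [(9,256)])) (U2 2 1 (U1 1 1 (P4 1 2 (F [(23,256),(9,69)]) (P3 1 1 (F [(9,102),(23,256),(25,44)]) (F [(9,9889),(23,9977),(25,16384),(12,16366)]))) (F [(9,256),(23,27),(25,229)])) (F [(9,256),(23,27),(25,229)]))) (P3 1 4 (F [(9,233),(23,256)]) (U0 1 1 (U1 2 1 (U2 1 1 (P4 1 1 (F [(9,118),(23,256),(25,46)])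 (P3 2 1 (F [(9,10),(23,256),(25,143)]) (U1 1 2 (F [(9,9887),(23,9978),(25,16384),(12,16364)]) (F [(9,9926),(23,9994),(25,16384),(12,16371)])))) (F [(9,256)])) (F [(9,256)])) (U2 2 1 (U1 1 1 (P4 1 1 (F [(9,118),(23,256),(25,46)]) (P3 2 1 (F [(9,9911),(25,16384),(23,10027),(12,16340)]) (F [(9,9889),(25,16384),(23,9977),(12,16366)]))) (F [(9,256),(25,207)])) (F [(9,256),(25,207)]))))) (P3 1 1 (P5 4 1 (U0 1 1 (U1 2 1 (U2 1 1 (P0 1 1 (F [(9,169),(25,256),(12,233)]) (P5 1 2 (F [(9,9922),(23,9874),(12,16384),(25,16326)]) (P1 4 1 (F [(9,9947),(23,9909),(25,16384),(12,16356)]) (F [(9,9916),(23,9942),(25,16364),(12,16384)])))) (F [(9,256)])) (F [(9,256)])) (U2 2 1 (U1 1 1 (P0 1 1 (F [(9,143),(25,256),(12,209)]) (P5 1 2 (F [(9,9909),(12,16384),(25,16344),(23,9908)]) (P1 4 1 (F [(9,9940),(25,16384),(23,9915),(12,16370)]) (F [(9,9910),(23,9927),(25,16355),(12,16384)])))) (F [(9,256),(25,207)]))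 (F [(9,256),(25,207)]))) (F [(9,256),(23,37),(12,87)])) (F [(9,159),(25,40),(12,256)])))) (U2 1 2 (F [(12,256),(23,120),(9,133)]) (P4 2 1 (P2 2 1 (U0 1 1 (U1 2 1 (F [(23,10036),(9,9864),(12,16359),(25,16384)]) (F [(9,256),(23,89)])) (U2 2 1 (U1 1 1 (P4 1 2 (F [(23,256),(9,69)]) (F [(23,9946),(12,16384),(9,9888),(25,16361)])) (F [(9,159),(23,155),(12,256),(25,254)])) (F [(9,9977),(23,9948),(25,16372),(12,16384)]))) (F [(9,154),(12,256)])) (F [(9,154),(12,256)])))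

def c31 : Cell := ⟨⟨201,0,311⟩, ⟨200,1,311⟩, ⟨25,0,39⟩, ⟨1067,1981,2254,2890⟩, ⟨534,990,1128,1444⟩, ⟨532,990,1128,1446⟩, ⟨266,496,564,722⟩⟩

def t31 : Tr :=
  P4 1 2 (F [(23,256),(9,108),(25,21)]) (P3 1 1 (P5 2 1 (U2 1 8 (F [(23,256),(12,241),(9,98)]) (P2 1 1 (P4 1 1 (F [(23,256),(9,41),(25,244)]) (P0 1 2 (U0 1 1 (U1 2 1 (U2 1 1 (F [(23,638580),(12,1048576),(9,636965),(25,1047246)]) (P1 1 2 (P5 1 1 (F [(9,9952),(23,9952),(25,16384),(12,16368)]) (F [(9,256),(12,54)])) (F [(9,9951),(23,9953),(12,16370),(25,16384)]))) (F [(9,209),(23,256),(12,157)])) (U2 2 1 (U1 1 1 (P1 1 2 (P5 1 1 (P4 2 1 (F [(23,9951),(12,16370),(25,16384),(9,9945)]) (F [(12,1048342),(25,1048576),(23,636136),(9,637658)])) (F [(9,637836),(23,636261),(12,1048539),(25,1048576)])) (F [(12,256),(23,184),(25,40)])) (P1 1 2 (P5 1 1 (P4 2 1 (F [(9,9946),(23,9943),(25,16384),(12,16357)]) (F [(9,10098),(25,16384),(23,9813),(12,16372)]))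 (F [(9,256),(25,102),(12,88)])) (P4 2 1 (P5 1 4 (U0 1 2 (F [(9,9953),(23,9965),(25,16384),(12,16366)]) (F [(12,16371),(23,9960),(25,16384),(9,9939)])) (F [(9,9960),(23,9948),(12,16384),(25,16373)])) (F [(9,161),(12,256)])))) (P1 1 2 (F [(9,9952),(25,16384),(23,9917),(12,16351)]) (P4 2 1 (U0 2 1 (P5 1 4 (U1 2 1 (P2 1 2 (F [(25,256),(9,14),(23,81)]) (F [(9,9959),(12,16384),(25,16379),(23,9954)])) (F [(9,256),(25,44),(23,133)])) (F [(9,9961),(23,9948),(25,16372),(12,16384)])) (P5 1 4 (U2 4 1 (P2 1 2 (F [(25,256),(12,16)]) (F [(25,1048187),(12,1048576),(9,637364),(23,636711)])) (F [(9,183),(25,238),(12,256)])) (F [(9,9961),(25,16371),(12,16384),(23,9941)]))) (F [(9,161),(12,256)]))))) (P1 1 1 (U0 1 1 (F [(23,256),(9,14),(25,35)]) (U2 2 1 (F [(23,256),(12,9),(25,42)]) (P3 1 2 (F [(9,74),(23,256),(25,147)]) (U0 2 1 (F [(9,14),(23,256),(25,35)]) (P5 1 4 (U2 4 1 (P2 1 2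 (P4 1 2 (F [(25,256),(12,16)]) (U1 1 1 (P0 1 2 (F [(12,16384),(23,9946),(25,16378),(9,9957)]) (F [(23,213),(25,256),(12,127)])) (P0 1 2 (F [(9,9960),(23,9936),(25,16377),(12,16384)]) (F [(9,9945),(25,16384),(23,9957),(12,16367)])))) (U1 1 1 (P0 1 1 (P4 2 1 (F [(23,256),(25,211),(12,68)]) (F [(12,16384),(23,9947),(9,9958),(25,16377)])) (F [(23,256),(9,73),(25,151)])) (P0 1 1 (P4 2 1 (F [(9,156),(23,156),(25,256),(12,256)]) (F [(9,9964),(23,9940),(12,16384),(25,16373)])) (F [(9,256),(23,133),(25,44)])))) (P2 1 2 (P4 1 2 (F [(25,256),(9,29)]) (P0 1 2 (F [(9,174),(25,161),(12,256)]) (F [(9,9951),(25,16384),(23,9952),(12,16371)]))) (P0 1 1 (P4 2 1 (F [(9,156),(25,256),(23,156),(12,256)]) (F [(9,9963),(23,9927),(25,16366),(12,16384)])) (F [(9,256),(23,133),(25,44)])))) (F [(9,637650),(23,636520),(25,1047684),(12,1048576)])))))) (U0 1 1 (F [(23,256),(9,14),(25,35)]) (U2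 2 1 (F [(23,256),(12,63),(25,87)]) (P2 1 1 (U0 2 1 (F [(23,256),(9,14),(25,35)]) (U2 4 1 (P5 1 2 (P4 1 2 (F [(25,256),(23,75),(12,8)]) (U1 1 1 (F [(23,256),(12,209),(25,212)]) (P0 1 1 (P3 2 1 (F [(23,9964),(9,9939),(25,16384),(12,16362)]) (F [(23,9948),(9,9953),(12,16384),(25,16378)])) (F [(23,239),(25,256),(12,26)])))) (F [(23,256),(12,71)])) (P5 1 2 (P4 1 2 (F [(25,256),(9,14),(23,81)]) (P0 1 1 (P3 2 1 (P1 1 1 (F [(9,9951),(25,16384),(23,9952),(12,16371)]) (F [(9,9951),(23,9951),(25,16384),(12,16378)])) (F [(9,9953),(12,16384),(23,9934),(25,16367)])) (P1 2 1 (P3 1 1 (F [(9,8),(25,256),(23,112)]) (U0 4 1 (F [(9,6),(23,256),(25,256)]) (F [(9,9950),(25,16384),(23,9953),(12,16375)]))) (P2 2 1 (U0 4 1 (F [(23,256),(9,6),(25,256)]) (F [(25,16384),(9,9950),(23,9953),(12,16375)])) (F [(23,256),(9,102),(25,44)]))))) (F [(9,193),(23,256),(12,129)])))) (F [(23,256),(9,210),(12,157)])))))))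 (F [(23,137),(12,256),(9,217)]))) (F [(9,217),(23,137),(12,256)])) (U2 1 8 (F [(12,247),(23,256),(9,90)]) (P0 1 2 (P3 2 1 (P5 1 1 (P2 1 2 (P4 1 2 (F [(23,156),(25,256)]) (U0 1 1 (U1 2 1 (F [(12,87),(23,78),(25,256)]) (F [(23,40762848),(25,67108864),(12,66947334),(9,40656740)])) (F [(12,87),(25,256),(23,78)]))) (P1 1 1 (U0 1 1 (U1 2 1 (F [(12,16329),(23,9948),(25,16384),(9,9902)]) (F [(23,40762848),(12,66947334),(9,40656740),(25,67108864)])) (U2 2 1 (F [(12,16313),(23,9950),(25,16384),(9,9879)]) (P4 2 1 (F [(12,146),(25,256),(23,220)]) (P3 1 1 (F [(12,16266),(25,16384),(23,9970),(9,9811)]) (F [(12,256),(25,108),(9,131)]))))) (F [(12,256),(23,125),(25,17)]))) (P1 1 2 (U0 1 1 (U1 2 1 (U2 1 1 (F [(12,256),(23,162),(25,78)]) (P3 1 2 (P5 2 1 (P2 1 2 (F [(12,16333),(23,9927),(25,16384),(9,9917)]) (F [(12,256),(9,156)])) (F [(12,256),(9,156)])) (P4 1 1 (P2 1 2 (F [(12,16333),(25,16384),(23,9927),(9,9917)])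 (F [(12,256),(25,105),(9,127)])) (F [(12,256),(25,229),(9,93)])))) (F [(9,9948),(12,16366),(23,9954),(25,16384)])) (U2 2 1 (U1 1 1 (F [(12,182),(25,256)]) (P3 1 2 (P5 2 1 (P2 1 2 (F [(12,16329),(25,16384),(9,9914),(23,9915)]) (F [(12,256),(9,156)])) (F [(12,256),(9,156)])) (P4 1 1 (P2 1 2 (F [(12,16329),(25,16384),(23,9915),(9,9914)]) (F [(12,256),(25,124),(9,151)])) (F [(12,256),(25,235),(9,147)])))) (P3 1 2 (P5 2 1 (P2 1 2 (F [(25,16384),(12,16329),(9,9918),(23,9909)]) (F [(12,256),(25,34),(9,159)])) (F [(12,256),(9,180),(25,213)])) (P4 1 1 (P2 1 2 (F [(25,16384),(12,16329),(9,9918),(23,9909)]) (F [(12,256),(25,141),(9,171)])) (F [(12,256),(25,238),(9,182)]))))) (P2 1 1 (U0 1 1 (U1 2 1 (U2 1 1 (F [(12,209),(23,256),(25,213)]) (P4 1 1 (P5 1 2 (F [(23,9969),(12,16348),(25,16384),(9,9926)]) (F [(12,256),(25,105),(9,127)])) (F [(12,256),(25,110),(9,126)]))) (F [(12,16366),(23,9954),(9,9948),(25,16384)]))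 (U2 2 1 (U1 1 1 (F [(12,233),(23,256),(25,249)]) (P4 1 1 (P5 1 2 (F [(12,16345),(25,16384),(23,9969),(9,9916)]) (F [(12,256),(25,101),(9,152)])) (F [(12,256),(25,101),(9,152)]))) (P4 1 1 (P5 1 2 (P2 1 2 (F [(25,16384),(12,16334),(23,9928),(9,9917)]) (F [(12,16346),(25,16384),(23,9936),(9,9914)])) (F [(12,256),(25,96),(9,166)])) (F [(12,256),(25,96),(9,166)])))) (F [(12,256),(23,87)])))) (F [(12,256),(25,179),(23,222)])) (P2 1 1 (P5 1 1 (F [(23,221),(12,146),(25,256)]) (P3 1 2 (P1 1 2 (U0 1 1 (U1 2 1 (U2 1 1 (F [(12,256),(23,162),(25,78)]) (P5 2 1 (F [(23,10004),(12,16384),(9,9964),(25,16363)]) (F [(12,256),(9,156)]))) (F [(9,209),(23,256),(12,157)])) (U2 2 1 (U1 1 1 (F [(12,256),(23,75),(25,229)]) (P5 2 1 (P4 1 2 (U0 1 2 (F [(23,9963),(9,9945),(12,16366),(25,16384)]) (F [(12,16369),(23,9957),(25,16384),(9,9936)])) (F [(12,256),(9,156)])) (F [(12,256),(9,156)])))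 (P5 2 1 (P4 1 2 (U0 2 1 (U1 2 1 (P2 1 2 (F [(25,16384),(12,16331),(9,9916),(23,9928)]) (F [(12,16384),(9,9955),(25,16376),(23,9939)])) (F [(9,9951),(25,16384),(23,9957),(12,16367)])) (U2 4 1 (P2 1 2 (F [(25,256),(12,45),(9,18)]) (F [(12,16384),(25,16376),(9,9955),(23,9938)])) (F [(25,238),(9,183),(12,256)]))) (F [(12,256),(9,159),(25,34)])) (F [(12,256),(9,166),(25,95)])))) (U0 1 1 (F [(23,256),(12,92),(9,72)]) (U2 2 1 (F [(12,77),(23,256),(25,10)]) (P0 2 1 (P4 1 2 (P2 1 4 (U0 2 1 (U1 2 1 (P5 1 2 (F [(25,16384),(23,9944),(12,16352),(9,9930)]) (F [(12,16384),(23,9950),(25,16384),(9,9952)])) (F [(9,9951),(23,9957),(25,16384),(12,16367)])) (U2 4 1 (P5 1 2 (F [(25,16384),(12,16364),(23,9940),(9,9939)]) (F [(12,16384),(23,9944),(25,16381),(9,9952)])) (P5 1 2 (F [(25,256),(9,23),(23,35)]) (F [(12,16384),(9,9952),(25,16378),(23,9941)])))) (F [(12,1048576),(23,636238),(9,636710),(25,1047992)]))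 (F [(12,256),(9,155)])) (P2 1 1 (P4 1 4 (U0 2 1 (F [(23,256),(9,14),(25,35)]) (U2 4 1 (P5 1 2 (F [(25,256),(23,179),(12,7)]) (F [(12,16384),(23,9961),(25,16379),(9,9951)])) (P5 1 2 (F [(25,256),(23,155)]) (P1 1 1 (F [(9,9952),(12,16384),(23,9943),(25,16379)]) (P2 2 1 (F [(25,1048576),(9,636820),(23,636810),(12,1048171)]) (U0 4 1 (F [(23,256),(9,8),(25,217)]) (U2 8 1 (F [(23,256),(25,211),(12,40)]) (P0 4 1 (F [(25,16384),(23,9950),(9,9950),(12,16378)]) (F [(23,256),(25,44),(9,102)]))))))))) (U0 2 1 (F [(23,256),(12,42),(9,41)]) (U2 4 1 (F [(12,93),(23,256),(9,9)]) (P1 1 1 (F [(12,16384),(23,9935),(9,9952),(25,16368)]) (P0 2 1 (F [(12,16384),(23,9941),(9,9950),(25,16373)]) (U0 4 1 (F [(23,256),(9,8),(25,217)]) (U2 8 1 (F [(23,256),(12,40),(25,211)]) (P2 4 1 (P4 1 1 (F [(23,636787),(25,1048576),(12,1048187),(9,636713)]) (F [(23,40769476),(12,67100569),(25,67108864),(9,40755817)]))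 (F [(23,256),(25,34),(9,105)]))))))))) (F [(23,256),(12,157),(9,210)])))))) (P4 1 1 (U0 1 1 (F [(23,256),(12,92),(9,72)]) (U2 2 1 (F [(12,77),(23,256),(25,10)]) (P1 2 1 (P5 1 2 (P2 1 4 (P4 1 2 (U0 2 1 (F [(25,16384),(23,9944),(12,16348),(9,9927)]) (F [(25,16384),(12,16354),(23,9936),(9,9933)])) (U0 2 1 (F [(12,16377),(23,9956),(25,16384),(9,9941)]) (F [(12,1048576),(25,1048348),(23,636462),(9,636542)]))) (F [(12,16384),(23,9939),(25,16371),(9,9949)])) (F [(12,256),(9,155)])) (P2 1 1 (P5 1 4 (F [(23,638703),(25,1048576),(12,1043764),(9,630929)]) (U0 2 1 (F [(23,256),(12,58)]) (U2 4 1 (F [(12,79),(23,256)]) (P0 1 1 (F [(12,16384),(23,9940),(25,16373),(9,9948)]) (P1 2 1 (F [(12,16384),(23,9944),(25,16377),(9,9946)]) (F [(23,198),(12,94),(25,256)])))))) (F [(23,256),(12,209),(25,213)]))))) (F [(12,256),(23,115)])))) (F [(12,256),(23,49),(9,89)])))))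

def c32 : Cell := ⟨⟨201,0,311⟩, ⟨100,1,155⟩, ⟨200,1,311⟩, ⟨1067,1981,2254,2890⟩, ⟨534,990,1128,1444⟩, ⟨532,990,1128,1446⟩, ⟨266,496,564,722⟩⟩

def t32 : Tr :=
  P4 1 2 (F [(9,118),(23,256),(25,46)]) (P3 1 1 (F [(9,256),(23,133),(25,44)]) (U0 1 2 (P0 1 2 (U1 2 1 (P3 2 1 (F [(9,256),(23,37),(12,87)]) (F [(9,9904),(23,9977),(25,16384),(12,16297)])) (F [(9,256),(25,207)])) (F [(9,136),(23,256)])) (P0 1 2 (P3 2 1 (P5 1 1 (P2 1 2 (P4 1 2 (F [(23,156),(25,256)]) (U2 1 1 (U1 1 2 (P0 1 2 (F [(9,9902),(23,9910),(25,16384),(12,16284)]) (F [(23,256),(25,46),(12,70)])) (F [(9,634463),(25,1048576),(23,636007),(12,1044455)])) (F [(25,256),(23,41),(12,12)]))) (P1 1 1 (U2 1 1 (U1 1 2 (P4 2 1 (F [(23,256),(25,46),(12,70)]) (F [(9,9947),(23,9944),(25,16384),(12,16356)])) (F [(9,635058),(23,636389),(25,1048576),(12,1045272)])) (U0 2 1 (F [(9,635057),(25,1048576),(23,636388),(12,1045271)])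 (P4 2 1 (P5 2 1 (U2 2 1 (U1 1 2 (F [(23,9974),(25,16384),(12,16348),(9,9912)]) (U0 1 1 (F [(9,256),(23,27),(25,229)]) (F [(23,9960),(25,16384),(9,9926),(12,16355)]))) (U0 4 1 (U1 1 1 (P4 1 2 (P2 1 1 (F [(23,155),(25,256)]) (F [(25,1048576),(23,636971),(9,636115),(12,1047279)])) (F [(25,1048576),(12,1047108),(23,636769),(9,635920)])) (F [(9,219),(25,256),(12,14)])) (F [(25,256),(12,171),(9,15)]))) (P3 1 4 (P1 1 2 (F [(9,210),(25,256)]) (U2 2 1 (F [(9,636182),(25,1048576),(23,637840),(12,1047365)]) (U0 4 1 (U1 1 1 (F [(25,1048576),(9,636294),(23,637157),(12,1047439)]) (F [(9,256),(12,77)])) (F [(25,256),(9,39),(12,178)])))) (U2 2 1 (U1 1 2 (F [(25,16384),(23,9964),(9,9922),(12,16353)]) (U0 1 1 (F [(9,256),(25,208),(12,140)]) (F [(25,16384),(9,9926),(23,9959),(12,16354)]))) (U0 4 1 (U1 1 1 (F [(25,1048576),(9,635920),(12,1047108),(23,636769)]) (F [(9,256),(25,209),(12,212)]))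 (F [(25,256),(12,178),(9,39)]))))) (P3 1 1 (P5 4 1 (F [(25,16384),(9,9935),(12,16368),(23,9929)]) (P1 1 2 (F [(9,210),(25,256)]) (F [(9,9926),(25,16384),(12,16353),(23,9929)]))) (F [(25,108),(12,256),(9,131)]))))) (U2 1 1 (F [(9,9940),(23,9961),(12,16370),(25,16384)]) (U0 2 1 (U1 1 1 (P4 2 1 (F [(23,9976),(9,9959),(12,16379),(25,16384)]) (F [(12,16384),(9,9940),(23,9898),(25,16337)])) (F [(9,256),(12,77)])) (P4 2 1 (P2 2 1 (U2 2 1 (F [(23,9959),(12,16360),(25,16384),(9,9929)]) (U0 4 1 (U1 1 1 (P4 1 2 (P5 1 1 (F [(23,256),(12,116),(25,212)]) (F [(12,16372),(23,9947),(25,16384),(9,9935)])) (F [(12,256),(25,256),(23,155),(9,155)])) (P4 1 2 (P5 1 1 (F [(23,256),(25,146),(12,52)]) (F [(9,9937),(23,9949),(12,16372),(25,16384)])) (F [(9,9936),(25,16384),(12,16372),(23,9948)]))) (F [(12,182),(25,256)]))) (F [(12,256),(25,105),(9,127)])) (F [(12,256),(25,105),(9,127)]))))))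 (P1 1 2 (F [(9,256),(25,160),(12,206)]) (P2 1 1 (U2 1 1 (F [(9,256),(25,24),(12,189)]) (U0 2 1 (F [(9,256),(25,24),(12,189)]) (P4 1 1 (P5 1 2 (P2 1 2 (F [(9,210),(25,256)]) (F [(9,9926),(25,16384),(12,16353),(23,9929)])) (F [(9,219),(12,256),(25,77)])) (F [(12,256),(9,219),(25,77)])))) (F [(9,155),(12,256)])))) (P4 2 1 (P2 1 2 (P5 1 2 (F [(23,156),(25,256)]) (U2 1 1 (F [(9,635216),(23,636943),(25,1048576),(12,1046081)]) (F [(25,256),(23,41),(12,12)]))) (U2 1 1 (U1 1 2 (P0 1 1 (F [(23,9954),(25,16384),(9,9924),(12,16348)]) (F [(23,121),(12,256),(9,133)])) (P0 1 1 (F [(9,9924),(23,9948),(25,16384),(12,16340)]) (F [(9,9940),(23,9961),(12,16370),(25,16384)]))) (U0 2 1 (P0 1 1 (F [(9,9911),(25,16384),(23,9938),(12,16325)]) (U1 1 1 (P5 2 1 (F [(23,9969),(12,16374),(9,9949),(25,16384)]) (F [(12,16382),(9,9935),(23,9930),(25,16384)])) (F [(9,256),(25,160),(12,206)]))) (P0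 1 1 (F [(25,256),(12,72),(23,57)]) (P5 2 1 (P2 2 1 (F [(12,16344),(23,9953),(25,16384),(9,9908)]) (F [(12,256),(25,110),(9,126)])) (F [(12,256),(25,228),(9,84)])))))) (U2 1 1 (U1 1 2 (F [(12,16341),(23,9962),(25,16384),(9,9893)]) (P2 1 1 (F [(25,16384),(9,9895),(12,16318),(23,9933)]) (F [(12,256),(9,156),(23,5)]))) (U0 2 1 (P2 1 1 (F [(25,16384),(12,16319),(9,9895),(23,9925)]) (F [(12,256),(9,155)])) (F [(12,256),(25,220)]))))) (P2 1 1 (P5 1 1 (P4 1 2 (F [(23,254),(25,256)]) (P3 1 1 (U2 1 1 (F [(9,25),(23,256)]) (U0 2 1 (F [(9,114),(23,256)]) (P1 1 1 (P5 2 1 (U2 2 1 (F [(23,256),(9,72),(12,92)]) (U0 4 1 (U1 1 1 (P0 1 1 (P4 1 1 (F [(23,256),(25,59)]) (F [(23,637241),(9,636375),(25,1048576),(12,1047510)])) (F [(23,256),(9,102),(25,44)])) (F [(9,219),(25,256),(12,14)])) (P0 1 1 (P4 1 1 (F [(25,256),(23,155)]) (P3 2 1 (F [(25,256),(23,155)]) (U2 4 1 (F [(12,1048196),(23,636878),(25,1048576),(9,636386)])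 (U0 8 1 (F [(12,16379),(25,16384),(23,9949),(9,9944)]) (F [(12,73),(25,256),(23,57)]))))) (F [(23,155),(25,256)])))) (P3 1 2 (F [(9,92),(25,256),(23,87)]) (U2 2 1 (F [(9,9948),(23,9988),(25,16384),(12,16374)]) (U0 4 1 (U1 1 1 (F [(9,636375),(23,637241),(25,1048576),(12,1047510)]) (F [(9,256),(12,77)])) (P0 1 1 (P4 2 1 (F [(25,256),(23,155)]) (P3 2 1 (F [(25,16384),(12,16250),(9,9865),(23,9937)]) (U2 4 1 (F [(12,16380),(25,16384),(23,9946),(9,9946)]) (U0 8 1 (F [(25,16384),(12,16379),(9,9946),(23,9946)]) (F [(12,73),(25,256),(23,57)]))))) (F [(25,256),(23,155)])))))) (P0 2 1 (U2 2 1 (F [(23,256),(9,142),(12,208)]) (U0 4 1 (U1 1 1 (P3 1 1 (F [(23,256),(9,99)]) (P4 1 1 (F [(23,256),(25,59)]) (F [(23,9955),(9,9944),(12,16375),(25,16384)]))) (F [(9,256),(23,27),(25,229)])) (P3 1 1 (F [(23,239),(25,256),(12,26)]) (P4 1 1 (F [(23,239),(12,26),(25,256)]) (P0 1 2 (U2 4 1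 (F [(12,16384),(23,9969),(25,16373),(9,9945)]) (U0 8 1 (F [(12,16379),(23,9949),(25,16384),(9,9944)]) (F [(12,150),(25,256),(23,165)]))) (F [(23,256),(12,57),(25,118)])))))) (F [(23,256),(12,9),(25,41)]))))) (U2 1 1 (F [(23,256),(9,16)]) (U0 2 1 (F [(9,177),(23,256),(12,104)]) (P0 1 1 (P4 2 1 (U2 2 1 (F [(23,256),(12,208),(9,142)]) (U0 4 1 (P2 1 1 (U1 1 1 (P5 1 1 (F [(23,256),(25,27)]) (F [(12,16376),(23,9950),(25,16384),(9,9934)])) (P5 1 1 (F [(23,256),(25,27)]) (F [(23,9951),(9,9938),(12,16375),(25,16384)]))) (F [(23,74),(12,256),(9,141)])) (F [(12,256),(23,75),(25,229)]))) (F [(12,256),(9,155)])) (P1 2 1 (U2 2 1 (F [(23,256),(12,208),(9,142)]) (U0 4 1 (P4 1 1 (U1 1 1 (P5 1 1 (F [(23,256),(25,211)]) (F [(23,9955),(12,16376),(9,9943),(25,16384)])) (F [(23,9953),(9,9943),(25,16384),(12,16362)])) (F [(23,74),(12,256),(9,141)])) (P4 1 1 (P5 1 1 (F [(23,256),(12,39),(25,211)])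 (F [(12,16384),(23,9958),(25,16382),(9,9937)])) (F [(12,256),(23,57),(9,104)])))) (F [(23,256),(12,67),(25,63)]))))))) (P3 1 2 (P1 1 2 (F [(9,256),(25,172),(12,189)]) (U2 1 1 (F [(9,256),(23,37),(12,87)]) (U0 2 1 (F [(9,256),(23,37),(12,87)]) (P0 2 1 (F [(9,256),(12,235),(25,138)]) (P2 1 1 (P4 1 4 (F [(9,256),(23,27),(25,229)]) (U2 2 1 (F [(9,233),(23,256)]) (U0 4 1 (F [(9,233),(23,256)]) (P1 1 1 (F [(9,256),(12,235),(25,138)]) (P0 2 1 (F [(9,636892),(23,636141),(12,1048576),(25,1047847)]) (U2 4 1 (F [(9,256),(23,89)]) (U0 8 1 (F [(9,256),(23,89)]) (P2 4 1 (P4 1 1 (F [(9,636613),(25,1048576),(23,636540),(12,1047917)]) (P3 1 2 (U2 8 1 (F [(9,16),(23,256)]) (P1 1 4 (F [(9,9953),(23,9947),(25,16382),(12,16384)]) (U0 16 1 (F [(9,114),(23,256)]) (F [(9,9947),(23,9955),(25,16384),(12,16379)])))) (P0 1 2 (F [(23,121),(9,133),(12,256)]) (U2 8 1 (F [(23,256),(9,16)]) (U0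 16 1 (F [(9,114),(23,256)]) (F [(23,637150),(9,636567),(25,1048576),(12,1048238)])))))) (F [(23,256),(9,118),(25,46)]))))))))) (F [(9,231),(23,256),(12,141)])))))) (P4 1 1 (U2 1 1 (F [(9,231),(23,256),(12,140)]) (U0 2 1 (F [(9,231),(23,256),(12,140)]) (P1 2 1 (P5 1 2 (P2 1 4 (P4 1 2 (F [(9,210),(25,256)]) (U2 2 1 (F [(9,9948),(23,9949),(25,16384),(12,16377)]) (F [(9,636896),(25,1048009),(12,1048576),(23,635816)]))) (F [(9,236),(12,256),(25,98)])) (F [(9,167),(12,256),(25,14)])) (P2 1 1 (P5 1 4 (P4 1 2 (F [(9,167),(25,256),(23,32)]) (U2 2 1 (F [(9,9947),(23,9968),(25,16384),(12,16375)]) (U0 4 1 (F [(9,9958),(23,9960),(25,16384),(12,16383)]) (P0 1 1 (P3 4 1 (F [(9,9948),(25,16384),(23,9945),(12,16380)]) (P4 2 1 (F [(25,16384),(9,9945),(12,16378),(23,9945)]) (F [(12,16384),(25,16373),(23,9939),(9,9949)]))) (F [(25,256),(23,155)]))))) (U2 2 1 (F [(9,124),(23,256),(12,179)])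 (U0 4 1 (F [(9,226),(23,159),(12,256)]) (P0 1 1 (P4 4 1 (P5 2 1 (F [(9,9950),(23,9945),(12,16384),(25,16384)]) (F [(12,16384),(23,9946),(9,9948),(25,16376)])) (F [(12,16384),(23,9939),(9,9949),(25,16373)])) (P1 2 1 (P5 2 1 (U2 4 1 (F [(9,118),(23,256),(25,46)]) (U0 8 1 (F [(9,118),(23,256),(25,46)]) (P2 1 1 (F [(12,16384),(9,9950),(25,16384),(23,9945)]) (F [(12,16384),(23,9940),(9,9949),(25,16374)])))) (F [(23,9957),(12,16384),(9,9946),(25,16377)])) (U2 4 1 (F [(23,256),(9,41),(25,244)]) (U0 8 1 (F [(9,47),(23,256),(25,248)]) (P2 4 1 (P5 1 1 (F [(25,16384),(9,9941),(23,9946),(12,16368)]) (F [(23,637182),(9,636311),(12,1047889),(25,1048576)])) (F [(23,256),(25,211),(12,39)]))))))))) (P0 2 1 (U2 2 1 (F [(23,190),(9,167),(12,256)]) (U0 4 1 (F [(9,217),(23,138),(12,256)]) (P4 1 1 (F [(23,256),(12,63),(25,87)]) (F [(12,1048576),(23,636177),(9,636703),(25,1047756)]))))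 (F [(23,256),(12,71)])))))) (F [(9,147),(23,44),(12,256)])))) (F [(9,142),(23,74),(12,256)])))))

def c33 : Cell := ⟨⟨101,0,155⟩, ⟨100,1,155⟩, ⟨201,0,311⟩, ⟨1067,1981,2254,2890⟩, ⟨1066,1982,2256,2888⟩, ⟨532,990,1128,1446⟩, ⟨266,496,564,722⟩⟩

def t33 : Tr :=
  F [(9,118),(23,256),(25,46)]

def c34 : Cell := ⟨⟨101,0,155⟩, ⟨100,1,155⟩, ⟨201,0,311⟩, ⟨1067,1981,2254,2890⟩, ⟨1066,1980,2256,2890⟩, ⟨532,990,1128,1446⟩, ⟨1066,1982,2256,2888⟩⟩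

def t34 : Tr :=
  F [(9,256),(25,44),(23,133)]

def c35 : Cell := ⟨⟨201,1,310⟩, ⟨100,1,155⟩, ⟨201,0,311⟩, ⟨1067,1981,2254,2890⟩, ⟨534,990,1128,1444⟩, ⟨1066,1980,2256,2890⟩, ⟨1066,1982,2256,2888⟩⟩

def t35 : Tr :=
  U1 2 1 (P0 1 2 (U2 1 1 (P3 2 1 (P5 1 1 (P2 1 2 (F [(9,23),(25,256),(23,35)]) (P1 1 1 (F [(9,95),(25,256),(12,109)]) (U1 1 2 (U2 1 2 (P4 2 1 (P2 2 1 (U1 1 4 (F [(12,16338),(25,16384),(23,9896),(9,9891)]) (P4 1 2 (P5 1 1 (P2 1 2 (F [(25,256),(23,155)]) (F [(9,9937),(23,9946),(25,16384),(12,16372)])) (F [(9,9940),(25,16384),(23,9945),(12,16375)])) (F [(9,9938),(25,16384),(12,16374),(23,9943)]))) (F [(12,256),(25,96),(9,166)])) (F [(12,256),(25,141),(9,171)])) (F [(9,256),(12,77)])) (F [(9,256),(12,77)])))) (F [(9,180),(25,213),(12,256)])) (P4 2 1 (P2 1 2 (F [(25,256),(9,23),(23,35)]) (U1 1 2 (P0 1 1 (F [(25,256),(12,32)]) (U2 1 2 (P5 2 1 (P2 2 1 (U1 1 4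 (F [(12,16357),(25,16384),(23,9934),(9,9920)]) (P5 1 2 (P4 1 1 (P2 1 2 (F [(25,256),(23,155)]) (F [(25,16384),(23,9945),(9,9932),(12,16368)])) (F [(25,16384),(12,16368),(23,9945),(9,9932)])) (F [(25,16384),(12,16370),(9,9934),(23,9945)]))) (F [(12,256),(25,108),(9,131)])) (F [(12,256),(25,228),(9,84)])) (F [(9,256),(25,209),(12,212)]))) (F [(9,256),(25,209),(12,213)]))) (F [(25,239),(12,256),(9,182)]))) (F [(9,256),(25,209),(12,141)])) (P2 1 1 (U2 1 1 (P5 1 1 (P4 1 2 (F [(9,6),(23,256),(25,256)]) (P3 1 1 (U1 1 2 (U2 1 2 (P1 1 1 (F [(9,87),(25,256),(12,96)]) (P0 2 1 (U1 1 4 (U2 1 4 (P3 1 1 (P5 1 1 (P4 1 2 (F [(23,256),(25,117)]) (U1 1 8 (P1 1 1 (F [(23,75),(25,256)]) (U2 1 8 (F [(23,198),(12,94),(25,256)]) (P2 2 1 (F [(23,113),(25,256)]) (P0 1 1 (F [(23,9952),(9,9945),(25,16384),(12,16377)]) (F [(23,256),(9,16)]))))) (F [(23,256),(9,179),(25,195)]))) (P1 1 2 (F [(23,112),(9,8),(25,256)])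 (U1 1 8 (P2 1 1 (F [(23,112),(25,256),(9,8)]) (U2 1 8 (F [(23,198),(12,94),(25,256)]) (P0 1 1 (F [(23,9953),(9,9944),(25,16384),(12,16374)]) (F [(23,256),(9,16)])))) (F [(23,133),(9,256),(25,44)])))) (P4 1 1 (P5 1 2 (F [(23,256),(25,211)]) (U1 1 8 (P0 1 1 (F [(25,256),(23,193),(9,2)]) (U2 1 8 (F [(12,94),(23,198),(25,256)]) (P2 2 1 (F [(23,193),(25,256),(9,2)]) (P1 1 1 (F [(23,9956),(12,16367),(25,16384),(9,9939)]) (F [(23,256)]))))) (F [(23,256),(25,244),(9,41)]))) (P0 1 2 (U1 1 8 (F [(12,16377),(25,16384),(23,9937),(9,9941)]) (F [(12,1048108),(25,1048576),(9,636362),(23,636558)])) (U1 1 8 (P2 1 1 (U2 1 8 (F [(12,146),(25,256),(23,221)]) (F [(12,1048278),(25,1048576),(23,636529),(9,636417)])) (U2 1 8 (F [(12,146),(23,221),(25,256)]) (P1 1 1 (P5 2 1 (F [(12,16384),(23,9951),(25,16384),(9,9947)]) (F [(12,16384),(23,9948),(9,9949),(25,16384)])) (F [(12,248),(23,256),(9,91)]))))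 (P2 1 1 (F [(23,9948),(12,16376),(9,9943),(25,16384)]) (F [(23,256),(9,177),(12,104)])))))) (P3 1 1 (F [(9,179),(23,256),(25,195)]) (P4 1 1 (F [(9,41),(23,256),(25,244)]) (P0 1 2 (F [(9,9944),(25,16384),(12,16373),(23,9935)]) (U0 2 1 (P2 1 1 (F [(9,9944),(23,9946),(25,16384),(12,16377)]) (F [(9,231),(23,256),(12,140)])) (P2 1 1 (F [(9,9944),(25,16384),(23,9946),(12,16377)]) (F [(9,231),(23,256),(12,140)]))))))) (F [(9,256),(23,27),(25,229)])) (F [(9,14),(23,256),(25,50)]))) (F [(9,256),(25,207)])) (F [(9,256)])) (U1 1 2 (U2 1 2 (P0 1 1 (P4 2 1 (U1 1 4 (P2 1 1 (U2 1 4 (F [(12,256),(23,75),(25,229)]) (P5 1 1 (P4 1 2 (F [(23,256),(25,256),(9,6)]) (F [(12,1048433),(23,636576),(25,1048576),(9,636373)])) (F [(12,1048553),(9,636489),(23,636595),(25,1048576)]))) (F [(12,256),(23,83),(9,160)])) (P2 1 1 (P5 1 1 (F [(23,9968),(9,9945),(25,16384),(12,16374)]) (F [(9,9944),(23,9951),(12,16377),(25,16384)]))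 (F [(9,201),(23,102),(12,256)]))) (F [(12,256),(9,155)])) (P1 2 1 (U1 1 4 (P4 1 1 (U2 1 4 (P5 1 1 (F [(23,256),(25,211)]) (F [(12,16384),(23,9950),(25,16363),(9,9922)])) (P5 1 1 (F [(23,256),(9,8),(25,217)]) (P3 1 2 (P1 1 2 (F [(9,9941),(25,16384),(12,16378),(23,9940)]) (U0 2 1 (P2 1 1 (F [(9,9943),(23,9947),(12,16379),(25,16384)]) (F [(9,109),(23,249),(12,256)])) (P2 1 1 (F [(9,9943),(25,16384),(23,9947),(12,16379)]) (F [(9,167),(23,189),(12,256)])))) (U0 2 1 (F [(23,9954),(9,9941),(12,16376),(25,16384)]) (P2 1 1 (F [(9,9942),(23,9950),(25,16384),(12,16377)]) (F [(9,167),(23,189),(12,256)])))))) (F [(12,256),(23,83),(9,160)])) (P4 1 1 (F [(9,9940),(23,9951),(25,16384),(12,16362)]) (F [(9,201),(23,102),(12,256)]))) (F [(23,256),(9,14),(25,35)]))) (F [(9,256),(12,77)])) (F [(9,256),(12,77)])))) (P3 1 2 (P1 1 2 (F [(9,256),(25,209),(12,213)]) (U1 1 2 (U2 1 2 (P0 2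 1 (F [(9,177),(25,191),(12,256)]) (P2 1 1 (P4 1 4 (F [(9,256),(25,229),(23,27)]) (U1 1 4 (U2 1 4 (P1 1 1 (F [(9,214),(12,256),(25,176)]) (P0 2 1 (F [(9,166),(12,256),(25,95)]) (U1 1 8 (U2 1 8 (P2 4 1 (P4 1 1 (F [(9,159),(25,256),(12,214)]) (P3 1 2 (P1 1 4 (F [(9,9954),(23,9942),(25,16379),(12,16384)]) (U1 1 16 (P0 1 1 (F [(9,9953),(23,9949),(25,16383),(12,16384)]) (F [(9,87),(25,256),(12,96)])) (F [(9,256)]))) (P0 1 2 (F [(9,9951),(23,9953),(12,16384),(25,16384)]) (U1 1 16 (P1 1 1 (F [(9,9951),(23,9950),(25,16384),(12,16383)]) (F [(9,9941),(25,16384),(23,9946),(12,16368)])) (F [(9,256)]))))) (F [(9,118),(23,256),(25,46)])) (F [(9,256)])) (F [(9,256)])))) (F [(9,256)])) (F [(9,256)]))) (F [(9,231),(23,256),(12,141)]))) (F [(9,256)])) (F [(9,256)]))) (P4 1 1 (U1 1 2 (U2 1 2 (P1 2 1 (F [(9,177),(25,191),(12,256)]) (P2 1 1 (P5 1 4 (F [(9,87),(25,256),(12,96)]) (U1 1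 4 (U2 1 4 (P0 1 1 (F [(9,9950),(12,16384),(25,16375),(23,9933)]) (P1 2 1 (P5 2 1 (U1 1 8 (U2 1 8 (F [(9,636761),(12,1048576),(25,1047660),(23,635806)]) (F [(9,256),(25,207)])) (F [(9,256),(25,207)])) (F [(9,636737),(12,1048576),(23,636330),(25,1048045)])) (U1 1 8 (U2 1 8 (P2 4 1 (P5 1 1 (F [(25,256),(9,116),(12,144)]) (P0 1 4 (U1 1 16 (P3 2 1 (P1 1 4 (F [(12,256),(23,60),(9,159)]) (F [(25,1048576),(23,636742),(12,1048332),(9,636637)])) (F [(25,16384),(12,16380),(23,9947),(9,9947)])) (F [(9,636738),(23,636858),(25,1048576),(12,1048370)])) (P1 1 2 (U1 1 16 (P3 1 4 (F [(23,9953),(9,9951),(12,16384),(25,16384)]) (F [(25,16384),(23,9948),(9,9945),(12,16374)])) (F [(9,253),(23,256),(25,170)])) (F [(9,9945),(25,16384),(23,9949),(12,16373)])))) (P0 2 1 (P4 4 1 (F [(9,10),(23,256),(25,144)]) (U1 1 16 (P1 1 1 (P3 2 1 (F [(23,16384),(25,5656),(9,797)]) (F [(25,16384),(12,16378),(23,9951),(9,9946)]))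 (F [(25,256),(23,152),(12,3)])) (P1 1 1 (F [(9,636738),(23,636858),(25,1048576),(12,1048370)]) (F [(9,1),(23,149),(25,256)])))) (F [(23,256),(9,12),(25,88)]))) (F [(9,256),(25,207)])) (F [(9,256),(25,207)])))) (F [(9,256),(12,186)])) (F [(9,256),(12,186)]))) (P0 2 1 (U1 1 4 (U2 1 4 (P4 1 1 (P5 1 2 (P2 1 2 (U1 1 8 (U2 1 8 (P4 1 2 (F [(23,256),(9,14),(25,35)]) (P0 1 2 (U1 1 16 (P5 1 1 (F [(23,152),(25,256),(12,3)]) (P3 2 1 (F [(23,256),(12,208),(9,142)]) (F [(23,636917),(12,1048216),(25,1048576),(9,636534)]))) (P5 1 1 (F [(23,149),(9,1),(25,256)]) (F [(23,9951),(9,9949),(12,16381),(25,16384)]))) (F [(23,256),(9,15),(25,10)]))) (F [(9,256),(23,27),(25,229)])) (F [(9,256),(25,169)])) (U1 1 8 (U2 1 8 (P0 1 1 (P4 2 1 (F [(23,256)]) (F [(23,636885),(12,1048528),(25,1048576),(9,636709)])) (F [(23,256),(12,31)])) (P0 1 1 (P4 2 1 (F [(9,16),(23,256)]) (F [(9,9949),(23,9951),(25,16384),(12,16382)]))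 (F [(23,256),(9,16)]))) (F [(9,256),(23,89)]))) (U1 1 8 (P3 1 1 (F [(12,256),(23,189),(9,167)]) (U2 1 8 (F [(12,1048576),(23,636158),(9,636639),(25,1047851)]) (F [(9,636737),(23,636321),(12,1048576),(25,1048031)]))) (F [(9,256),(23,89)]))) (P0 1 2 (F [(12,16384),(9,9949),(23,9939),(25,16375)]) (U1 1 8 (P5 1 1 (U2 1 8 (F [(12,16384),(23,9949),(25,16383),(9,9944)]) (F [(12,1048576),(23,636321),(9,636737),(25,1048031)])) (F [(12,256),(23,41),(9,158)])) (F [(9,177),(23,256),(12,104)])))) (F [(9,256),(12,186)])) (F [(9,256),(12,186)])) (F [(9,72),(23,256),(12,93)])))) (F [(9,256)])) (F [(9,256)])) (F [(9,158),(23,41),(12,256)])))) (F [(9,256)])) (F [(9,161),(23,83),(12,256)]))) (F [(9,256),(25,207)])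

theorem g2 : ∀ c ∈ [c24, c25, c26, c27, c28, c29, c30, c31, c32, c33, c34, c35], Done D c := by
  intro c hc
  simp only [List.mem_cons, List.not_mem_nil, or_false] at hc
  rcases hc with rfl | rfl | rfl | rfl | rfl | rfl | rfl | rfl | rfl | rfl | rfl | rfl
  · exact done_of_chk (t := t24) (by decide +kernel)
  · exact done_of_chk (t := t25) (by decide +kernel)
  · exact done_of_chk (t := t26) (by decide +kernel)
  · exact done_of_chk (t := t27) (by decide +kernel)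
  · exact done_of_chk (t := t28) (by decide +kernel)
  · exact done_of_chk (t := t29) (by decide +kernel)
  · exact done_of_chk (t := t30) (by decide +kernel)
  · exact done_of_chk (t := t31) (by decide +kernel)
  · exact done_of_chk (t := t32) (by decide +kernel)
  · exact done_of_chk (t := t33) (by decide +kernel)
  · exact done_of_chk (t := t34) (by decide +kernel)
  · exact done_of_chk (t := t35) (by decide +kernel)

end Pool.Agent.W2helper59.NW.E1
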