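import Pool.Agent.W2helper59.NW.D_E1

set_option autoImplicit false
set_option maxRecDepth 1000000

namespace Pool.Agent.W2helper59.NW.E1

open Tr

def c36 : Cell := ⟨⟨403,0,621⟩, ⟨201,1,310⟩, ⟨201,0,311⟩, ⟨2135,3961,4510,5778⟩, ⟨534,990,1128,1444⟩, ⟨1066,1980,2256,2890⟩, ⟨1066,1982,2256,2888⟩⟩

def t36 : Tr :=
  F [(9,112),(25,256),(12,200)]

def c37 : Cell := ⟨⟨403,0,621⟩, ⟨402,1,621⟩, ⟨201,0,311⟩, ⟨2133,3963,4510,5778⟩, ⟨4267,7925,9022,11554⟩, ⟨2132,3962,4512,5778⟩, ⟨1066,1982,2256,2888⟩⟩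

def t37 : Tr :=
  F [(9,47),(25,248),(23,256)]

def c38 : Cell := ⟨⟨805,0,1243⟩, ⟨804,1,1243⟩, ⟨201,0,311⟩, ⟨4265,7925,9022,11556⟩, ⟨4267,7923,9022,11556⟩, ⟨2132,3962,4512,5778⟩, ⟨4267,7925,9022,11554⟩⟩

def t38 : Tr :=
  F [(25,256),(9,18),(12,45)]

def c39 : Cell := ⟨⟨1609,0,2487⟩, ⟨1608,1,2487⟩, ⟨201,0,311⟩, ⟨8533,15849,18042,23112⟩, ⟨8532,15848,18044,23112⟩, ⟨4265,7925,9022,11556⟩, ⟨4267,7925,9022,11554⟩⟩

def t39 : Tr :=
  P5 1 1 (P4 1 2 (F [(25,213),(23,256),(12,209)]) (U2 1 8 (P1 1 1 (F [(25,256),(23,75),(12,8)]) (U1 1 8 (F [(12,256),(23,75),(25,229)]) (P2 2 1 (F [(25,256),(23,111),(12,4)]) (P0 1 1 (P3 2 1 (F [(23,256),(25,87),(12,63)]) (P4 4 1 (F [(23,256),(25,141),(12,53)]) (U0 1 2 (F [(9,9946),(25,16384),(23,9950),(12,16379)]) (F [(25,16384),(12,16380),(23,9949),(9,9945)])))) (F [(23,256),(12,79)]))))) (P1 1 1 (F [(25,256),(23,81),(9,14)]) (P2 2 1 (F [(25,256),(23,120),(9,7)])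 (P0 1 1 (P3 2 1 (U0 1 1 (U1 2 1 (U2 1 1 (F [(23,256),(25,242),(12,243)]) (P1 1 1 (F [(23,256),(25,256),(9,6)]) (P2 2 1 (F [(23,256),(25,126),(9,11)]) (U0 2 1 (P0 2 1 (F [(23,179),(25,256),(12,7)]) (F [(23,636839),(9,636627),(25,1048576),(12,1048481)])) (P0 2 1 (F [(9,2),(25,256),(23,193)]) (F [(9,636653),(23,636822),(25,1048576),(12,1048480)])))))) (F [(23,256),(9,102),(25,44)])) (U2 2 1 (U1 1 1 (F [(25,229),(12,256),(23,75)]) (P1 1 1 (F [(25,256),(23,155)]) (P2 2 1 (F [(25,256),(23,155)]) (U0 1 2 (P0 2 1 (F [(25,256),(23,155)]) (F [(9,9948),(25,16384),(23,9950),(12,16382)])) (F [(25,1048576),(12,1048425),(23,636682),(9,636563)]))))) (F [(25,256),(9,95),(12,109)]))) (P4 4 1 (U0 1 1 (U1 2 1 (U2 1 1 (F [(25,242),(12,243),(23,256)]) (P2 2 1 (F [(25,256),(23,256),(9,6)]) (U0 2 1 (P1 2 1 (F [(25,256),(23,179),(12,7)]) (F [(25,16384),(23,9949),(9,9947),(12,16382)])) (F [(25,1048576),(9,636571),(23,636533),(12,1048363)]))))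 (F [(9,74),(25,149),(23,256)])) (U2 2 1 (U1 1 1 (F [(25,219),(12,256)]) (F [(25,1048576),(12,1048341),(9,636515),(23,636578)])) (F [(25,256),(9,100),(12,117)]))) (U0 1 1 (U1 2 1 (U2 1 1 (P0 1 2 (F [(25,256),(9,29)]) (U1 1 2 (F [(25,219),(12,256)]) (P1 2 1 (F [(25,256),(23,81),(9,14)]) (F [(25,16384),(12,16382),(23,9949),(9,9947)])))) (P0 1 2 (F [(25,256),(9,104)]) (U0 2 1 (P1 2 1 (F [(25,256),(9,67),(23,106)]) (F [(25,16384),(9,9947),(12,16382),(23,9949)])) (F [(9,183),(25,238),(12,256)])))) (F [(9,179),(25,195),(23,256)])) (F [(25,235),(9,147),(12,256)])))) (U0 1 1 (F [(23,256),(12,130),(9,95)]) (U2 2 1 (P1 2 1 (U1 1 1 (F [(23,162),(12,256),(25,78)]) (P3 1 1 (F [(23,254),(25,256)]) (P4 2 1 (F [(23,163),(25,256),(12,2)]) (P0 1 2 (U0 1 2 (F [(9,9949),(23,9952),(25,16384),(12,16384)]) (F [(12,1048477),(23,636719),(25,1048576),(9,636588)])) (F [(23,256),(12,39),(25,211)])))))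 (U1 1 1 (F [(12,256),(23,24)]) (P2 4 1 (P4 2 1 (F [(23,239),(12,26),(25,256)]) (F [(23,9949),(12,16384),(25,16382),(9,9948)])) (F [(23,74),(12,256),(9,142)])))) (P1 2 1 (P3 1 1 (F [(23,256),(25,244),(9,41)]) (P4 2 1 (F [(25,256),(23,163)]) (P0 1 2 (U0 2 1 (U1 2 1 (F [(25,16384),(9,9947),(12,16382),(23,9948)]) (F [(9,9948),(25,16384),(23,9949),(12,16382)])) (F [(25,16384),(9,9947),(12,16382),(23,9948)])) (F [(23,9950),(25,16384),(9,9946),(12,16381)])))) (P2 4 1 (P4 2 1 (F [(23,9951),(12,16376),(25,16384),(9,9942)]) (P3 2 1 (F [(23,9950),(12,16382),(9,9947),(25,16384)]) (F [(12,16384),(9,9948),(25,16382),(23,9948)]))) (F [(23,102),(12,256),(9,201)])))))))))) (P1 1 2 (F [(25,256),(23,115),(12,4)]) (U2 1 8 (P2 1 1 (F [(23,115),(25,256),(12,4)]) (U1 1 8 (F [(23,165),(12,150),(25,256)]) (P0 1 1 (P4 2 1 (F [(23,256),(25,87),(12,63)]) (P3 2 1 (F [(23,256),(25,118),(12,57)])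 (U0 1 2 (F [(9,636631),(25,1048576),(23,636819),(12,1048317)]) (P0 1 2 (F [(25,256),(12,73),(23,57)]) (P1 2 1 (F [(25,256),(23,122),(12,24)]) (F [(12,1048313),(23,636843),(25,1048576),(9,636489)])))))) (F [(23,256),(12,79)])))) (P2 1 1 (F [(25,256),(9,8),(23,111)]) (P0 1 1 (P4 2 1 (U0 1 1 (U1 2 1 (U2 1 1 (P1 1 1 (F [(23,256),(25,217),(9,8)]) (P2 1 1 (F [(23,256),(25,217),(9,8)]) (U1 1 2 (P0 2 1 (F [(23,152),(25,256),(12,3)]) (F [(12,1048473),(23,636901),(25,1048576),(9,636615)])) (P0 2 1 (F [(23,155),(25,256)]) (F [(23,636854),(12,1048471),(25,1048576),(9,636686)]))))) (P1 1 1 (F [(9,163),(23,151),(25,256)]) (P2 1 1 (F [(23,256),(9,41),(25,244)]) (U0 2 1 (P0 2 1 (F [(23,155),(25,256)]) (F [(23,636832),(9,636710),(25,1048576),(12,1048472)])) (P0 2 1 (F [(9,52),(25,256),(23,99)]) (F [(9,636704),(23,636830),(25,1048576),(12,1048473)])))))) (F [(9,102),(23,256),(25,44)]))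 (U2 2 1 (U1 1 1 (P1 1 1 (F [(23,256),(25,249),(9,47)]) (P2 1 1 (F [(25,256),(23,254),(9,44)]) (U2 1 2 (P0 2 1 (F [(25,256),(23,151)]) (F [(12,1048470),(23,636980),(25,1048576),(9,636535)])) (P0 2 1 (F [(25,256),(23,149),(9,1)]) (P1 2 1 (P5 1 1 (F [(25,1048576),(12,1048417),(23,636762),(9,636621)]) (P3 1 2 (U0 1 1 (F [(23,256),(25,35),(9,14)]) (F [(23,636762),(25,1048576),(12,1048379),(9,636598)])) (F [(25,1048576),(12,1048417),(23,636762),(9,636621)]))) (F [(12,1048576),(25,1048567),(23,636790),(9,636638)])))))) (P1 1 1 (F [(9,163),(23,151),(25,256)]) (P2 1 1 (F [(25,256),(23,118),(9,51)]) (U0 1 2 (P0 2 1 (F [(9,52),(25,256),(23,99)]) (F [(9,636701),(25,1048576),(23,636828),(12,1048473)])) (P0 2 1 (F [(25,256),(9,52),(23,99)]) (P1 2 1 (F [(25,1048576),(9,636619),(23,636704),(12,1048284)]) (P2 2 1 (F [(25,1048576),(23,636762),(9,636636),(12,1048442)]) (F [(25,16384),(12,16384),(9,9949),(23,9948)]))))))))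 (F [(9,87),(25,256),(12,96)]))) (P3 2 1 (U0 1 1 (U1 2 1 (U2 1 1 (P1 1 1 (F [(23,256),(9,6),(25,256)]) (P0 2 1 (F [(25,256),(23,155)]) (U1 1 2 (P2 2 1 (F [(25,256),(23,155)]) (U2 1 2 (F [(12,146),(23,221),(25,256)]) (P1 2 1 (F [(23,256),(25,256),(9,6)]) (F [(12,16383),(23,9949),(25,16384),(9,9948)])))) (P2 2 1 (F [(23,155),(25,256)]) (F [(23,636850),(9,636690),(12,1048471),(25,1048576)]))))) (P1 1 1 (F [(9,256),(25,207)]) (P0 2 1 (F [(9,256),(25,207)]) (U0 2 1 (P2 2 1 (F [(9,51),(25,256),(23,118)]) (F [(9,9963),(23,9938),(25,16384),(12,16383)])) (F [(9,256),(25,209),(12,213)]))))) (F [(9,102),(23,256),(25,44)])) (U2 2 1 (U1 1 1 (P1 1 1 (F [(25,249),(23,256),(9,47)]) (P0 2 1 (F [(25,256),(23,115),(12,4)]) (U2 1 2 (P2 2 1 (F [(25,256),(12,4),(23,115)]) (U1 1 2 (F [(12,150),(25,256),(23,165)]) (P1 2 1 (F [(25,256),(23,239),(12,26)]) (F [(12,1048576),(25,1048563),(23,636706),(9,636715)]))))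 (P2 2 1 (F [(25,256),(23,112),(9,8)]) (P1 2 1 (P5 2 1 (F [(25,1048576),(12,1048461),(23,636755),(9,636649)]) (P3 1 2 (U0 1 1 (F [(23,256),(9,14),(25,35)]) (F [(25,1048576),(23,636762),(9,636598),(12,1048379)])) (F [(25,1048576),(12,1048371),(9,636593),(23,636762)]))) (F [(12,1048576),(25,1048558),(23,636702),(9,636716)])))))) (F [(9,256),(25,209),(12,213)])) (F [(9,87),(25,256),(12,96)]))) (U0 1 1 (U1 2 1 (U2 1 1 (P0 1 2 (F [(25,256),(9,29)]) (P1 2 1 (F [(25,256),(9,8),(23,111)]) (U1 1 2 (F [(25,256),(12,193),(9,48)]) (P2 2 1 (F [(25,256),(9,8),(23,112)]) (F [(25,16384),(12,16383),(9,9948),(23,9949)]))))) (P0 1 2 (F [(9,210),(25,256)]) (P1 2 1 (F [(9,256),(25,225)]) (U0 2 1 (P2 2 1 (F [(9,67),(25,256),(23,106)]) (F [(9,9949),(25,16384),(23,9948),(12,16383)])) (F [(9,183),(25,238),(12,256)]))))) (F [(9,256),(25,44),(23,133)])) (F [(25,250),(9,146),(12,256)])))) (P1 2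 1 (U0 1 1 (F [(23,256),(9,142),(12,208)]) (U2 2 1 (U1 1 1 (P3 1 1 (F [(23,256),(9,100)]) (P4 1 1 (F [(23,256),(25,244),(9,41)]) (P0 1 2 (U2 1 2 (F [(12,248),(23,256),(9,91)]) (P3 2 1 (P5 1 1 (F [(23,9950),(12,16382),(25,16384),(9,9947)]) (P1 1 2 (U0 1 1 (F [(23,256),(9,142),(12,208)]) (F [(23,636774),(25,1048576),(12,1048414),(9,636625)])) (F [(23,636803),(12,1048498),(25,1048576),(9,636669)]))) (F [(12,256),(23,95),(9,27)]))) (F [(23,256),(12,9),(25,41)])))) (P3 1 1 (F [(23,256),(9,100)]) (P4 1 1 (F [(23,256),(9,41),(25,244)]) (P0 1 2 (U0 1 2 (F [(9,209),(23,256),(12,157)]) (P3 2 1 (P5 1 1 (F [(23,636794),(9,636652),(25,1048576),(12,1048478)]) (F [(9,636740),(23,636802),(25,1048576),(12,1048515)])) (P4 2 1 (F [(23,9950),(9,9948),(12,16383),(25,16384)]) (F [(12,16384),(9,9949),(23,9948),(25,16382)])))) (F [(23,256),(25,41),(12,9)]))))) (P3 1 1 (F [(9,108),(23,256),(25,21)])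 (P4 1 1 (F [(9,47),(23,256),(25,248)]) (P0 1 2 (U0 2 1 (U1 2 1 (U2 1 1 (P3 2 1 (F [(9,636708),(23,636802),(25,1048576),(12,1048498)]) (P4 2 1 (F [(9,636685),(25,1048576),(23,636781),(12,1048520)]) (F [(9,171),(12,256),(25,141)]))) (F [(9,256),(25,225)])) (F [(9,256),(23,27),(25,229)])) (U2 4 1 (U1 1 1 (P3 2 1 (F [(9,636704),(25,1048576),(23,636793),(12,1048511)]) (F [(25,1048576),(9,636685),(12,1048557),(23,636722)])) (F [(9,256),(25,225)])) (F [(9,256),(25,225)]))) (F [(9,9948),(23,9952),(25,16384),(12,16382)])))))) (U0 1 1 (F [(23,256),(9,142),(12,208)]) (U2 2 1 (P2 2 1 (U1 1 1 (F [(23,162),(12,256),(25,78)]) (P4 1 1 (F [(23,256),(25,211)]) (P0 1 2 (P3 2 1 (F [(23,256),(12,67),(25,63)]) (U0 1 2 (F [(9,209),(23,256),(12,157)]) (P4 2 1 (F [(23,636871),(12,1048532),(25,1048576),(9,636640)]) (F [(12,16384),(23,9948),(9,9948),(25,16382)])))) (F [(23,256),(12,63),(25,87)]))))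 (F [(23,74),(12,256),(9,142)])) (P2 2 1 (P4 1 1 (F [(23,256),(9,49),(25,241)]) (P0 1 2 (P3 2 1 (F [(9,636693),(23,636857),(25,1048576),(12,1048516)]) (U0 2 1 (U1 2 1 (U2 1 1 (P4 2 1 (F [(23,9950),(12,16383),(25,16384),(9,9948)]) (F [(12,16384),(9,9949),(23,9945),(25,16380)])) (F [(9,256),(23,133),(25,44)])) (F [(9,256),(23,133),(25,44)])) (F [(9,636696),(25,1048576),(12,1048559),(23,636720)]))) (F [(23,636886),(9,636671),(25,1048576),(12,1048501)]))) (F [(23,102),(9,201),(12,256)])))))))))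

def c40 : Cell := ⟨⟨1609,0,2487⟩, ⟨1608,1,2487⟩, ⟨201,0,311⟩, ⟨8533,15849,18042,23112⟩, ⟨4267,7923,9022,11556⟩, ⟨8532,15848,18044,23112⟩, ⟨4267,7925,9022,11554⟩⟩

def t40 : Tr :=
  P4 1 1 (P5 1 2 (F [(25,233),(12,254),(23,256)]) (U2 1 8 (P0 1 1 (F [(25,256),(12,7),(23,179)]) (U1 1 8 (F [(12,256),(25,154)]) (P2 2 1 (F [(25,256),(12,7),(23,179)]) (P1 1 1 (P3 1 2 (P5 4 1 (F [(12,1048292),(23,636864),(25,1048576),(9,636448)]) (F [(25,16384),(12,16381),(23,9948),(9,9946)])) (F [(12,16383),(23,9952),(25,16384),(9,9946)])) (F [(23,256),(12,79)]))))) (P0 1 1 (F [(25,256),(12,19),(23,164)]) (P2 2 1 (F [(25,256),(12,19),(23,164)]) (P1 1 1 (P3 1 2 (P5 4 1 (U0 1 1 (U1 2 1 (U2 1 1 (F [(12,255),(25,234),(23,256)]) (F [(25,1048576),(12,1048402),(23,636767),(9,636564)])) (F [(9,9946),(25,16384),(23,9951),(12,16379)])) (F [(25,1048576),(12,1048438),(9,636561),(23,636657)])) (F [(25,1048576),(9,636575),(12,1048423),(23,636612)]))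 (U0 1 1 (U1 2 1 (U2 1 1 (F [(12,256),(25,12),(23,12)]) (P0 1 1 (F [(12,161),(25,256),(9,28)]) (F [(25,1048576),(12,1048412),(23,636778),(9,636571)]))) (F [(23,636808),(25,1048576),(9,636576),(12,1048383)])) (U2 2 1 (U1 1 1 (F [(12,256),(25,12),(23,12)]) (F [(25,1048576),(12,1048346),(23,636589),(9,636519)])) (F [(25,256),(12,117),(9,100)])))) (U0 1 1 (U1 2 1 (P0 2 1 (U2 1 1 (F [(12,256),(23,115)]) (P3 1 1 (F [(12,1048514),(23,636919),(25,1048576),(9,636642)]) (F [(12,16381),(23,9949),(25,16384),(9,9944)]))) (F [(12,130),(23,256),(9,95)])) (F [(23,636946),(9,636669),(12,1048541),(25,1048576)])) (U2 2 1 (P0 2 1 (U1 1 1 (F [(12,256),(23,24)]) (P3 1 1 (P5 2 1 (F [(12,16379),(23,9951),(25,16384),(9,9943)]) (F [(12,1048576),(23,636717),(25,1048542),(9,636649)])) (F [(12,16381),(25,16384),(23,9949),(9,9944)]))) (U1 1 1 (F [(12,256),(23,24)]) (P2 4 1 (P5 2 1 (F [(12,44),(23,256),(25,184)])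 (F [(12,16384),(23,9949),(25,16383),(9,9948)])) (F [(12,256),(23,36),(9,149)])))) (P0 2 1 (P3 1 1 (P5 2 1 (F [(12,16381),(25,16384),(23,9949),(9,9945)]) (F [(12,16384),(25,16382),(9,9948),(23,9948)])) (F [(12,16381),(25,16384),(23,9949),(9,9943)])) (P2 4 1 (P5 2 1 (F [(12,16382),(23,9950),(25,16384),(9,9946)]) (F [(12,16384),(23,9948),(25,16382),(9,9948)])) (F [(12,256),(23,19),(9,130)])))))))))) (P0 1 2 (F [(12,256),(25,250),(9,146)]) (U2 1 8 (P2 1 1 (F [(12,1048257),(25,1048576),(23,636244),(9,636329)]) (U1 1 8 (F [(12,256),(25,154)]) (P1 1 1 (P5 2 1 (F [(12,1048576),(23,636616),(25,1048358),(9,636588)]) (F [(12,16384),(25,16380),(23,9943),(9,9948)])) (F [(12,248),(23,256),(9,91)])))) (P2 1 1 (F [(25,16384),(12,16382),(9,9945),(23,9943)]) (P1 1 1 (P5 2 1 (F [(12,1048576),(25,1048137),(9,636590),(23,636345)]) (F [(25,141),(12,256),(9,171)])) (F [(12,256),(23,37),(9,105)])))))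

def c41 : Cell := ⟨⟨1609,0,2487⟩, ⟨804,1,1243⟩, ⟨1608,1,2487⟩, ⟨8533,15849,18042,23112⟩, ⟨4267,7923,9022,11556⟩, ⟨4265,7925,9022,11556⟩, ⟨4267,7925,9022,11554⟩⟩

def t41 : Tr :=
  P3 1 1 (P5 1 1 (P4 1 2 (P2 1 2 (F [(25,256),(23,156)]) (U0 1 2 (F [(9,74),(23,256),(25,149)]) (P1 1 1 (F [(25,256),(23,156)]) (P0 2 1 (F [(25,256),(23,155)]) (F [(9,40723093),(23,40802228),(25,67108864),(12,67084485)]))))) (U0 1 2 (F [(9,179),(25,195),(23,256)]) (P1 1 1 (F [(25,256),(9,67),(23,106)]) (P2 2 1 (F [(9,25),(25,256),(23,137)]) (P0 1 1 (F [(9,128),(25,256),(23,61)]) (U2 1 1 (F [(9,179),(23,256),(25,195)]) (U0 2 1 (F [(9,179),(23,256),(25,195)]) (P1 2 1 (F [(9,163),(25,256),(23,151)]) (P2 4 1 (F [(9,9948),(23,9949),(25,16384),(12,16381)]) (F [(9,236),(23,118),(12,256)])))))))))) (F [(9,256),(25,44),(23,133)])) (P4 1 1 (P5 1 2 (P2 1 2 (F [(25,256),(23,114)]) (U0 1 2 (F [(9,47),(25,249),(23,256)])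 (P0 1 1 (F [(25,256),(23,155)]) (P1 2 1 (F [(25,256),(23,155)]) (P2 2 1 (F [(23,155),(25,256)]) (U2 1 1 (F [(9,9944),(23,9954),(25,16384),(12,16379)]) (U0 2 1 (F [(9,9947),(23,9951),(25,16384),(12,16382)]) (P0 2 1 (F [(25,16384),(23,9948),(12,16381),(9,9944)]) (F [(23,636857),(9,636639),(12,1048548),(25,1048576)]))))))))) (U0 1 2 (F [(9,47),(25,249),(23,256)]) (P0 1 1 (F [(25,256),(23,155)]) (P2 2 1 (F [(25,256),(23,155)]) (P1 1 1 (F [(9,9943),(25,16384),(23,9943),(12,16369)]) (U2 1 1 (F [(9,9947),(23,9951),(25,16384),(12,16382)]) (U0 2 1 (F [(9,9948),(23,9951),(25,16384),(12,16382)]) (P0 2 1 (F [(9,9946),(25,16384),(12,16381),(23,9947)]) (P2 4 1 (F [(9,636598),(25,1048576),(23,636673),(12,1048416)]) (F [(9,155),(12,256)])))))))))) (P0 1 2 (F [(9,159),(25,236),(12,256)]) (U0 1 2 (P2 1 1 (F [(9,9944),(25,16384),(23,9946),(12,16377)]) (F [(9,231),(23,256),(12,140)]))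 (P2 1 1 (F [(25,16384),(9,9946),(12,16382),(23,9944)]) (F [(9,9949),(25,16375),(12,16384),(23,9940)])))))

def c42 : Cell := ⟨⟨805,0,1243⟩, ⟨804,1,1243⟩, ⟨1609,0,2487⟩, ⟨8533,15849,18042,23112⟩, ⟨4267,7923,9022,11556⟩, ⟨4265,7925,9022,11556⟩, ⟨4267,7925,9022,11554⟩⟩

def t42 : Tr :=
  P3 1 1 (P5 1 1 (P4 1 2 (P2 1 2 (F [(25,256),(9,29)]) (U0 1 1 (U1 2 1 (P1 1 1 (F [(25,256),(9,29)]) (U2 1 1 (P0 2 1 (F [(25,256),(9,29)]) (P2 2 1 (F [(9,6),(25,256),(23,256)]) (U1 1 2 (P1 2 1 (F [(9,8),(25,217),(23,256)]) (F [(9,636693),(23,636617),(25,1048503),(12,1048576)])) (F [(9,256)])))) (F [(9,256),(25,225)]))) (F [(9,256)])) (U2 2 1 (P1 1 1 (F [(25,256)]) (U1 1 1 (P0 2 1 (F [(25,256)]) (P2 2 1 (F [(25,256),(23,155)]) (U2 1 2 (P1 2 1 (F [(9,44),(25,256),(23,254)]) (F [(9,636657),(25,1048435),(23,636503),(12,1048576)])) (F [(9,256),(25,225)])))) (F [(9,256),(25,225)]))) (F [(9,256),(25,225)]))))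 (U0 1 1 (U1 2 1 (P1 1 1 (F [(9,29),(25,256)]) (U2 1 1 (P2 2 1 (F [(9,29),(25,256)]) (P0 1 1 (F [(9,104),(25,256)]) (U1 1 2 (P1 2 1 (F [(9,163),(25,256),(23,151)]) (F [(9,636693),(25,1048503),(23,636617),(12,1048576)])) (F [(9,256)])))) (F [(9,256),(25,112)]))) (F [(9,256),(25,112)])) (U2 2 1 (P1 1 1 (F [(25,256)]) (U1 1 1 (P2 2 1 (F [(25,256)]) (P0 1 1 (F [(9,104),(25,256)]) (U2 1 2 (P1 2 1 (F [(9,163),(25,256),(23,151)]) (F [(9,636659),(25,1048423),(23,636475),(12,1048576)])) (F [(9,256),(25,112)])))) (F [(9,256),(25,112)]))) (F [(9,256),(25,112)])))) (F [(9,256),(25,44),(23,133)])) (P4 1 1 (P5 1 2 (P2 1 2 (F [(25,256),(9,29)]) (U0 1 1 (U1 2 1 (P0 1 1 (F [(25,256),(9,29)]) (U2 1 1 (P1 2 1 (F [(25,256),(9,29)]) (P2 2 1 (F [(9,8),(25,256),(23,111)]) (F [(9,636701),(25,1048482),(23,636565),(12,1048576)]))) (F [(9,256),(25,225)]))) (F [(9,256),(25,169)])) (U2 2 1 (P0 1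 1 (F [(25,256),(12,16)]) (U1 1 1 (P1 2 1 (F [(25,256),(12,16)]) (P2 2 1 (F [(25,256),(23,115),(12,4)]) (F [(9,636639),(25,1048416),(23,636478),(12,1048576)]))) (F [(9,256),(25,225)]))) (F [(9,256),(25,225)])))) (F [(9,178),(25,195),(12,256)])) (F [(9,171),(25,141),(12,256)]))

def c43 : Cell := ⟨⟨805,0,1243⟩, ⟨804,1,1243⟩, ⟨201,0,311⟩, ⟨2133,3963,4510,5778⟩, ⟨8533,15849,18042,23112⟩, ⟨4265,7925,9022,11556⟩, ⟨4267,7925,9022,11554⟩⟩

def t43 : Tr :=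
  F [(9,84),(23,256),(25,112)]

def c44 : Cell := ⟨⟨805,0,1243⟩, ⟨402,1,621⟩, ⟨804,1,1243⟩, ⟨2133,3963,4510,5778⟩, ⟨4267,7923,9022,11556⟩, ⟨2132,3962,4512,5778⟩, ⟨4267,7925,9022,11554⟩⟩

def t44 : Tr :=
  F [(9,256),(25,207)]

def c45 : Cell := ⟨⟨403,0,621⟩, ⟨402,1,621⟩, ⟨805,0,1243⟩, ⟨2133,3963,4510,5778⟩, ⟨4267,7923,9022,11556⟩, ⟨2132,3962,4512,5778⟩, ⟨4267,7925,9022,11554⟩⟩

def t45 : Tr :=
  F [(9,256),(25,207)]

def c46 : Cell := ⟨⟨403,0,621⟩, ⟨402,1,621⟩, ⟨201,0,311⟩, ⟨2133,3963,4510,5778⟩, ⟨2135,3961,4510,5778⟩, ⟨4267,7923,9022,11556⟩, ⟨4267,7925,9022,11554⟩⟩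

def t46 : Tr :=
  U2 1 2 (U1 1 2 (P0 1 1 (P4 2 1 (U2 1 4 (P2 1 1 (U1 1 4 (F [(12,256),(25,229),(23,75)]) (P5 1 1 (P4 1 2 (F [(25,256),(23,239),(12,26)]) (P3 1 1 (F [(12,16375),(25,16384),(23,9945),(9,9937)]) (F [(12,16384),(25,16379),(23,9942),(9,9942)]))) (P1 1 2 (F [(12,256),(25,235),(9,147)]) (P4 1 1 (F [(12,16376),(25,16384),(23,9945),(9,9938)]) (F [(12,256),(23,44),(9,147)]))))) (F [(12,256),(23,74),(9,141)])) (P2 1 1 (P5 1 1 (P4 1 2 (F [(25,16384),(9,9929),(12,16360),(23,9949)]) (F [(25,16379),(12,16384),(9,9944),(23,9937)])) (F [(25,16378),(12,16384),(9,9945),(23,9936)])) (F [(12,256),(9,155)]))) (F [(12,256),(9,155)])) (P1 2 1 (U2 1 4 (P4 1 1 (U1 1 4 (F [(12,256),(25,117),(23,139)]) (P5 1 1 (P2 1 2 (F [(25,256),(23,239),(12,26)]) (U0 1 2 (F [(9,41),(23,256),(25,244)]) (P1 1 1 (F [(25,256),(12,7),(23,179)]) (P0 1 1 (F [(23,9951),(12,16377),(25,16384),(9,9941)])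 (P2 2 1 (F [(23,9951),(25,16384),(9,9939),(12,16374)]) (U2 1 1 (F [(23,9951),(9,9947),(12,16384),(25,16384)]) (F [(23,636723),(9,636613),(12,1048576),(25,1048533)]))))))) (P3 1 2 (P1 1 2 (F [(9,147),(25,226),(12,256)]) (U0 1 2 (P2 1 1 (F [(9,9944),(25,16384),(12,16378),(23,9947)]) (F [(9,217),(23,138),(12,256)])) (P2 1 1 (F [(25,16384),(12,16384),(9,9945),(23,9945)]) (F [(12,16384),(9,9946),(25,16374),(23,9941)])))) (U0 1 2 (P2 1 1 (F [(9,9941),(25,16384),(23,9949),(12,16377)]) (F [(9,217),(23,138),(12,256)])) (P2 1 1 (F [(12,16383),(25,16384),(23,9946),(9,9944)]) (F [(12,16384),(23,9940),(9,9946),(25,16373)])))))) (F [(12,256),(23,74),(9,141)])) (P4 1 1 (P5 1 1 (P2 1 2 (F [(25,16384),(9,9927),(23,9949),(12,16357)]) (U0 1 1 (U1 2 1 (P1 1 1 (F [(25,16384),(9,9932),(23,9943),(12,16365)]) (U2 1 1 (P0 1 1 (F [(25,16384),(23,9949),(12,16376),(9,9940)]) (P2 2 1 (F [(9,636294),(25,1048576),(23,636808),(12,1048161)])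 (F [(9,636659),(23,636610),(25,1048477),(12,1048576)]))) (F [(9,9946),(25,16384),(23,9951),(12,16379)]))) (F [(9,49),(25,241),(23,256)])) (U2 2 1 (P1 1 1 (F [(25,16384),(9,9931),(12,16366),(23,9934)]) (U1 1 1 (P0 1 1 (F [(25,16384),(12,16379),(23,9947),(9,9942)]) (P2 2 1 (F [(25,16384),(9,9943),(12,16380),(23,9948)]) (F [(9,9947),(25,16381),(12,16384),(23,9946)]))) (F [(9,9947),(25,16384),(23,9944),(12,16381)]))) (F [(9,117),(25,256),(12,144)])))) (P3 1 2 (F [(9,171),(25,141),(12,256)]) (U0 1 1 (U1 2 1 (P2 1 1 (F [(25,16384),(9,9938),(12,16373),(23,9942)]) (F [(9,9945),(25,16359),(12,16384),(23,9924)])) (F [(9,9946),(25,16384),(23,9949),(12,16376)])) (F [(9,152),(25,101),(12,256)])))) (F [(9,155),(12,256)]))) (U2 1 4 (F [(23,256),(12,9),(25,41)]) (P2 2 1 (P4 1 1 (P5 1 2 (F [(25,16384),(9,9919),(23,9949),(12,16344)]) (U0 1 1 (F [(9,15),(23,256),(25,10)]) (U2 2 1 (U1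 1 1 (P0 1 1 (P3 1 1 (P1 1 2 (P5 2 1 (F [(25,16384),(9,9943),(23,9951),(12,16379)]) (F [(9,9948),(23,9953),(12,16384),(25,16382)])) (F [(23,9950),(25,16384),(12,16379),(9,9942)])) (F [(25,16384),(23,9949),(12,16379),(9,9942)])) (F [(23,256),(25,112),(9,84)])) (P0 1 1 (F [(9,9947),(25,16384),(23,9947),(12,16381)]) (F [(9,179),(23,256),(25,195)]))) (F [(9,100),(25,256),(12,105)])))) (P0 1 2 (F [(9,155),(12,256)]) (U0 1 1 (F [(9,167),(23,189),(12,256)]) (U2 2 1 (U1 1 1 (P2 1 1 (F [(23,9950),(12,16384),(9,9946),(25,16374)]) (F [(23,256),(9,100)])) (P2 1 1 (F [(9,9946),(23,9950),(12,16384),(25,16378)]) (F [(9,100),(23,256)]))) (P2 1 1 (F [(9,9948),(23,9947),(25,16384),(12,16384)]) (F [(9,108),(23,256),(25,21)])))))) (F [(9,209),(23,256),(12,157)]))))) (F [(9,256),(25,173),(12,189)])) (F [(9,256),(25,209),(12,213)])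

def c47 : Cell := ⟨⟨403,0,621⟩, ⟨402,1,621⟩, ⟨201,0,311⟩, ⟨2133,3963,4510,5778⟩, ⟨4267,7921,9022,11558⟩, ⟨1066,1980,2256,2890⟩, ⟨2132,3962,4512,5778⟩⟩

def t47 : Tr :=
  P1 1 2 (F [(9,256),(25,209),(12,213)]) (U2 1 2 (U1 1 2 (P0 2 1 (F [(9,148),(25,202),(12,256)]) (P2 1 1 (P4 1 4 (F [(9,256),(25,229),(23,27)]) (U2 1 4 (U1 1 4 (P1 1 1 (F [(9,214),(12,256),(25,176)]) (P0 2 1 (F [(9,152),(12,256),(25,101)]) (U2 1 8 (U1 1 8 (P2 4 1 (P4 1 1 (F [(9,144),(25,256),(12,209)]) (P3 1 2 (P1 1 4 (F [(9,9953),(25,16380),(23,9945),(12,16384)]) (U2 1 16 (P0 1 1 (F [(9,9953),(25,16383),(23,9948),(12,16384)]) (F [(25,256),(12,16)])) (F [(9,256),(25,207)]))) (P0 1 2 (U2 1 16 (F [(9,636902),(23,636782),(12,1048576),(25,1048439)]) (F [(9,636985),(23,636779),(25,1048433),(12,1048576)])) (U2 1 16 (P1 1 1 (F [(9,9952),(25,16384),(23,9950),(12,16384)]) (F [(25,256),(23,41),(12,12)])) (F [(9,256),(25,235)])))))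 (F [(9,118),(25,46),(23,256)])) (F [(9,256)])) (F [(9,256)])))) (F [(9,256),(12,77)])) (F [(9,256),(12,77)]))) (F [(9,231),(23,256),(12,141)]))) (F [(9,256)])) (F [(9,256)]))

theorem g3 : ∀ c ∈ [c36, c37, c38, c39, c40, c41, c42, c43, c44, c45, c46, c47], Done D c := by
  intro c hc
  simp only [List.mem_cons, List.not_mem_nil, or_false] at hc
  rcases hc with rfl | rfl | rfl | rfl | rfl | rfl | rfl | rfl | rfl | rfl | rfl | rfl
  · exact done_of_chk (t := t36) (by decide +kernel)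
  · exact done_of_chk (t := t37) (by decide +kernel)
  · exact done_of_chk (t := t38) (by decide +kernel)
  · exact done_of_chk (t := t39) (by decide +kernel)
  · exact done_of_chk (t := t40) (by decide +kernel)
  · exact done_of_chk (t := t41) (by decide +kernel)
  · exact done_of_chk (t := t42) (by decide +kernel)
  · exact done_of_chk (t := t43) (by decide +kernel)
  · exact done_of_chk (t := t44) (by decide +kernel)
  · exact done_of_chk (t := t45) (by decide +kernel)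
  · exact done_of_chk (t := t46) (by decide +kernel)
  · exact done_of_chk (t := t47) (by decide +kernel)

end Pool.Agent.W2helper59.NW.E1
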