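import Pool.Agent.W2helper59.NW.D_E1

set_option autoImplicit false
set_option maxRecDepth 1000000

namespace Pool.Agent.W2helper59.NW.E1

open Tr

def c48 : Cell := ⟨⟨805,0,1243⟩, ⟨804,1,1243⟩, ⟨201,0,311⟩, ⟨8533,15847,18042,23114⟩, ⟨4267,7923,9022,11556⟩, ⟨4267,7921,9022,11558⟩, ⟨2132,3962,4512,5778⟩⟩

def t48 : Tr :=
  F [(9,148),(25,202),(12,256)]

def c49 : Cell := ⟨⟨805,0,1243⟩, ⟨804,1,1243⟩, ⟨201,0,311⟩, ⟨4265,7925,9022,11556⟩, ⟨4267,7923,9022,11556⟩, ⟨8533,15847,18042,23114⟩, ⟨2132,3962,4512,5778⟩⟩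

def t49 : Tr :=
  P5 1 4 (F [(9,18),(25,256),(12,45)]) (U2 1 4 (U1 1 4 (P0 1 1 (F [(12,256),(9,147),(25,235)]) (P1 2 1 (F [(9,151),(12,256),(25,124)]) (U2 1 8 (U1 1 8 (P2 4 1 (P5 1 1 (F [(25,256),(12,16)]) (P0 1 4 (U2 1 16 (P3 2 1 (P1 1 4 (F [(12,16384),(23,9948),(25,16380),(9,9950)]) (F [(25,16384),(12,16381),(23,9948),(9,9948)])) (F [(25,16384),(12,16380),(23,9947),(9,9947)])) (P3 2 1 (P1 1 4 (F [(9,9951),(12,16384),(25,16380),(23,9946)]) (F [(25,16381),(9,9952),(12,16384),(23,9939)])) (F [(25,191),(9,177),(12,256)]))) (P1 1 2 (U2 1 16 (P3 1 4 (U1 1 16 (F [(12,1048576),(23,636793),(25,1048492),(9,636858)]) (P5 2 1 (F [(9,636865),(25,1048576),(23,636695),(12,1048511)]) (F [(9,636867),(23,636920),(12,1048576),(25,1048561)]))) (F [(25,16384),(9,9943),(23,9948),(12,16371)])) (P3 1 4 (P5 2 1 (F [(9,636746),(25,1048576),(23,634198),(12,1047659)]) (P1 1 4 (F [(9,9951),(23,9947),(12,16384),(25,16381)])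 (F [(9,636868),(23,636770),(25,1048576),(12,1048537)]))) (F [(9,29),(25,256)]))) (F [(25,256),(23,41),(12,12)])))) (P0 2 1 (P4 4 1 (P5 2 1 (F [(25,256),(23,155)]) (U2 1 16 (F [(23,256),(25,171),(12,47)]) (P1 1 1 (P3 1 4 (P5 4 1 (F [(9,636827),(23,636810),(25,1048576),(12,1048492)]) (U0 1 1 (F [(9,636846),(23,636916),(12,1048576),(25,1048557)]) (U2 2 1 (P1 1 2 (F [(9,9687),(12,16384),(25,7056)]) (F [(23,636827),(9,636836),(12,1048543),(25,1048576)])) (P1 1 2 (F [(9,168),(12,256),(25,112)]) (F [(9,636872),(23,636816),(25,1048576),(12,1048560)]))))) (F [(25,256),(9,23),(23,35)])) (F [(25,256),(23,155)])))) (U2 1 16 (P1 1 1 (P3 2 1 (P5 4 1 (U1 1 16 (F [(12,200),(25,256),(23,245)]) (P4 2 1 (F [(25,256),(23,155)]) (F [(23,636954),(25,1048576),(12,1048385),(9,636618)]))) (F [(12,71),(23,256),(25,45)])) (F [(25,16384),(12,16377),(23,9952),(9,9944)])) (F [(25,256),(23,151)])) (P1 1 1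 (P3 2 1 (P5 4 1 (P4 2 1 (F [(25,256),(9,23),(23,35)]) (U0 1 1 (U1 2 1 (U2 1 1 (F [(25,16384),(12,16380),(23,9950),(9,9945)]) (P0 1 1 (F [(25,16384),(9,9949),(12,16383),(23,9949)]) (F [(9,2),(25,256),(23,193)]))) (F [(9,636816),(25,1048576),(23,636814),(12,1048488)])) (F [(25,256),(9,18),(12,45)]))) (U0 1 1 (U1 2 1 (P1 1 2 (F [(12,16384),(23,9946),(9,9951),(25,16379)]) (U2 1 1 (F [(23,9951),(12,16383),(25,16384),(9,9948)]) (P0 1 1 (F [(9,9950),(23,9949),(12,16384),(25,16383)]) (F [(9,41),(23,256),(25,244)])))) (F [(9,226),(23,159),(12,256)])) (U2 2 1 (P1 1 2 (F [(12,16384),(9,9687),(25,7056)]) (U1 1 1 (F [(12,16383),(23,9951),(25,16384),(9,9948)]) (P0 1 1 (F [(12,16384),(9,9950),(25,16381),(23,9947)]) (F [(9,636765),(23,636856),(25,1048576),(12,1048488)])))) (P1 1 2 (F [(9,168),(12,256),(25,112)]) (P0 1 1 (F [(9,172),(25,141),(12,256)]) (F [(9,636818),(25,1048576),(23,636803),(12,1048527)]))))))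 (P0 1 4 (F [(25,238),(12,256),(9,183)]) (P5 2 1 (F [(25,256),(9,1),(23,149)]) (U0 1 1 (U1 2 1 (U2 1 1 (F [(25,256),(12,178),(23,204)]) (P1 1 1 (F [(25,16384),(12,16383),(9,9949),(23,9949)]) (F [(25,240),(9,7),(23,256)]))) (F [(9,9950),(25,16384),(23,9950),(12,16382)])) (F [(25,256),(12,45),(9,18)]))))) (F [(25,256),(9,1),(23,149)])))) (F [(25,53),(23,256),(9,100)]))) (F [(9,256),(25,208),(12,140)])) (F [(9,256),(25,209),(12,213)])))) (F [(9,256),(25,159),(12,206)])) (F [(9,256),(25,209),(12,213)]))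

def c50 : Cell := ⟨⟨1609,0,2487⟩, ⟨1608,1,2487⟩, ⟨201,0,311⟩, ⟨17063,31699,36086,46224⟩, ⟨8532,15848,18044,23112⟩, ⟨17063,31697,36086,46226⟩, ⟨4265,7925,9022,11556⟩⟩

def t50 : Tr :=
  U2 1 8 (U1 1 8 (P4 1 2 (F [(23,256),(25,44),(9,102)]) (P0 1 2 (U2 1 16 (P5 1 1 (F [(25,256),(23,151)]) (P3 2 1 (F [(23,256),(12,242),(9,99)]) (F [(12,16377),(23,9952),(25,16384),(9,9944)]))) (P5 1 1 (F [(25,256),(23,149),(9,1)]) (P3 2 1 (P1 1 2 (U0 1 1 (U1 2 1 (P3 1 2 (F [(23,256),(12,93),(9,72)]) (U2 1 1 (F [(12,182),(23,256)]) (P4 1 1 (F [(23,256),(9,16)]) (F [(12,16384),(23,9950),(9,9950),(25,16383)])))) (F [(9,217),(23,138),(12,256)])) (U2 2 1 (P3 1 2 (F [(12,71),(23,256)]) (U1 1 1 (F [(12,209),(23,256),(25,213)]) (P4 1 1 (P5 1 2 (F [(23,636896),(9,636689),(12,1048416),(25,1048576)]) (F [(12,16384),(23,9949),(9,9950),(25,16383)])) (F [(12,16384),(23,9949),(9,9950),(25,16382)])))) (P3 1 2 (F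 [(9,12312),(23,16384),(12,8243)]) (P4 1 1 (P5 1 2 (P2 1 2 (F [(9,636792),(25,1048576),(23,636794),(12,1048490)]) (F [(9,636830),(23,636742),(25,1048502),(12,1048576)])) (F [(9,9950),(12,16384),(23,9946),(25,16380)])) (F [(12,16384),(9,9950),(25,16380),(23,9946)]))))) (U0 1 1 (U1 2 1 (U2 1 1 (F [(23,256),(12,182)]) (P0 1 1 (P4 1 1 (F [(23,256),(9,12),(25,111)]) (F [(12,16383),(23,9950),(25,16384),(9,9949)])) (F [(23,256),(25,211)]))) (F [(23,636805),(9,636708),(25,1048576),(12,1048376)])) (U2 2 1 (U1 1 1 (F [(12,210),(23,250),(25,256)]) (P0 1 1 (P4 1 1 (F [(23,239),(25,256),(12,26)]) (F [(12,1048576),(25,1048567),(23,636777),(9,636774)])) (F [(23,256),(25,211),(12,39)]))) (P0 1 1 (P4 1 1 (P2 1 2 (P5 1 2 (F [(9,8),(25,256),(23,112)]) (U0 2 1 (F [(23,636819),(9,636760),(25,1048576),(12,1048509)]) (F [(25,67108864),(9,40755142),(23,40754119),(12,67107747)]))) (U0 2 1 (F [(25,16384),(23,9950),(12,16383),(9,9949)])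 (U2 4 1 (F [(25,16384),(12,16383),(23,9950),(9,9949)]) (P1 1 1 (F [(25,1048576),(12,1048557),(9,636794),(23,636774)]) (F [(25,256)]))))) (F [(12,1048576),(25,1048575),(9,636794),(23,636741)])) (P2 1 1 (P4 1 2 (P5 1 2 (F [(25,256),(23,155)]) (U0 2 1 (F [(23,256),(9,11),(25,124)]) (U2 4 1 (F [(25,161),(23,256),(12,49)]) (P1 1 1 (F [(25,67108864),(9,40755142),(23,40754119),(12,67107747)]) (F [(25,256),(23,155)]))))) (U0 2 1 (F [(25,1048576),(23,636832),(12,1048468),(9,636722)]) (U2 4 1 (F [(25,16384),(12,16382),(23,9951),(9,9948)]) (P1 1 1 (P3 1 1 (F [(25,67108864),(12,67107590),(23,40753579),(9,40754805)]) (F [(25,256)])) (F [(25,256),(23,149),(9,1)]))))) (P1 2 1 (U0 2 1 (F [(23,636832),(25,1048576),(12,1048468),(9,636722)]) (U2 4 1 (F [(25,1048576),(12,1048482),(23,636858),(9,636696)]) (P5 1 1 (F [(25,256),(23,149),(9,1)]) (P3 1 1 (P1 1 2 (F [(12,67107590),(23,40753579),(25,67108864),(9,40754805)])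 (F [(25,256),(23,114)])) (F [(25,256)]))))) (F [(25,256),(23,114)]))))))) (P4 4 1 (U0 1 1 (U1 2 1 (U2 1 1 (F [(12,209),(25,213),(23,256)]) (P1 1 1 (P5 1 1 (F [(25,217),(23,256),(9,8)]) (F [(12,16381),(25,16384),(23,9948),(9,9948)])) (F [(25,256),(23,155)]))) (F [(23,636783),(25,1048576),(9,636694),(12,1048342)])) (F [(25,256),(12,45),(9,18)])) (F [(25,16384),(12,16377),(23,9947),(9,9945)]))))) (U2 1 16 (F [(23,256),(12,9),(25,41)]) (P5 1 1 (F [(23,155),(25,256)]) (P1 1 1 (P3 1 2 (F [(23,256),(9,177),(12,104)]) (U0 1 1 (F [(23,256),(25,38)]) (U2 2 1 (F [(23,256),(12,9),(25,41)]) (P0 1 1 (P4 1 1 (P2 1 2 (P5 1 2 (F [(23,155),(25,256)]) (U0 2 1 (F [(23,256),(9,14),(25,35)]) (U2 4 1 (F [(23,256),(25,34)]) (P3 1 1 (P1 1 2 (F [(23,636789),(9,636808),(25,1048576),(12,1048569)]) (F [(23,256),(9,47),(25,249)])) (F [(25,256),(23,155)]))))) (U0 2 1 (F [(23,256),(25,35),(9,14)]) (U2 4 1 (F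 [(23,256),(25,34)]) (P3 1 1 (P1 1 1 (P5 2 1 (F [(23,256),(25,244),(9,41)]) (F [(23,636796),(12,1048568),(9,636802),(25,1048576)])) (F [(23,254),(25,256)])) (F [(25,256),(23,155)]))))) (P3 2 1 (U0 2 1 (F [(23,256),(25,27)]) (U2 4 1 (F [(23,256),(25,41),(12,9)]) (P5 1 1 (F [(25,256),(23,155)]) (P1 1 1 (P3 1 2 (F [(23,636797),(12,1048569),(25,1048576),(9,636799)]) (F [(23,155),(25,256)])) (F [(23,254),(25,256)]))))) (F [(23,155),(25,256)]))) (F [(23,256),(9,177),(12,104)]))))) (F [(23,256),(25,244),(9,41)])))))) (P4 1 2 (F [(9,256),(23,133),(25,44)]) (P0 1 2 (U0 1 2 (F [(9,256),(25,229),(23,27)]) (P5 1 1 (F [(25,256),(9,52),(23,99)]) (P3 2 1 (P1 1 2 (F [(9,256),(25,24),(12,189)]) (U2 1 1 (F [(9,256),(23,27),(25,229)]) (U0 2 1 (F [(9,256),(25,229),(23,27)]) (P0 1 1 (F [(9,636873),(25,1048576),(23,636662),(12,1048521)]) (P2 1 1 (F [(9,637018),(25,1048576),(23,636520),(12,1048444)])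 (P1 2 1 (U2 2 1 (F [(9,9950),(23,9949),(25,16384),(12,16382)]) (U0 4 1 (F [(9,636777),(25,1048576),(23,636778),(12,1048484)]) (P5 1 1 (F [(25,256),(9,52),(23,99)]) (P3 1 1 (P1 1 2 (F [(9,636812),(25,1048576),(23,636757),(12,1048554)]) (F [(25,256),(23,114)])) (F [(25,256)]))))) (F [(25,256),(23,114)]))))))) (F [(9,219),(25,256),(12,15)])))) (U0 1 2 (F [(9,114),(23,256)]) (P5 1 1 (F [(9,51),(23,118),(25,256)]) (P1 1 1 (P3 1 2 (F [(9,256),(12,174)]) (U2 1 1 (F [(9,14),(23,256),(25,50)]) (U0 2 1 (F [(9,84),(23,256),(25,112)]) (P0 1 1 (P4 1 1 (P2 1 2 (F [(9,256),(25,27)]) (U2 2 1 (F [(9,256),(23,133),(25,44)]) (U0 4 1 (F [(9,256),(23,133),(25,44)]) (P3 1 1 (P1 1 1 (F [(9,636845),(23,636810),(25,1048576),(12,1048561)]) (F [(23,254),(25,256)])) (F [(9,67),(25,256),(23,106)]))))) (P3 2 1 (U2 2 1 (F [(9,14),(23,256),(25,50)]) (U0 4 1 (F [(9,84),(23,256),(25,112)]) (P5 1 1 (F [(25,256),(23,118),(9,51)])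 (P1 1 1 (P3 1 2 (F [(9,636802),(23,636793),(25,1048576),(12,1048563)]) (F [(23,155),(25,256)])) (F [(23,254),(25,256)]))))) (F [(25,256),(23,155)]))) (F [(9,231),(23,256),(12,140)]))))) (F [(23,256),(9,41),(25,244)]))))))) (P4 1 2 (F [(9,256),(25,44),(23,133)]) (P0 1 2 (F [(9,183),(25,256),(12,253)]) (U0 1 1 (U1 2 1 (P5 1 1 (F [(9,52),(25,256),(23,99)]) (U2 1 1 (P1 1 1 (P3 1 2 (F [(9,256),(12,174)]) (U1 1 2 (P0 1 1 (U2 1 2 (P4 1 1 (P2 1 2 (F [(9,256),(25,27)]) (U1 1 4 (P3 1 1 (U2 1 4 (P1 1 1 (F [(9,636836),(25,1048576),(23,636806),(12,1048563)]) (F [(9,6),(23,256),(25,256)])) A) (F [(9,14),(25,256),(23,81)])) (F [(9,256),(23,89)]))) (P3 2 1 (U1 1 4 (P5 1 1 (F [(9,14),(25,256),(23,81)]) (U2 1 4 (P1 1 1 (P3 1 2 (F [(9,636803),(25,1048576),(23,636786),(12,1048563)]) (F [(9,8),(25,256),(23,112)])) (F [(9,6),(25,256),(23,256)])) A)) (F [(9,256),(25,169)])) (F [(25,256),(9,8),(23,112)])))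 (F [(9,256),(25,207)])) (F [(9,231),(23,256),(12,140)])) (F [(9,256),(25,207)]))) (F [(9,41),(23,256),(25,244)])) (F [(9,256)]))) (F [(9,256)])) (U2 2 1 (P5 1 1 (F [(9,52),(25,256),(23,99)]) (U1 1 1 (P1 1 1 (P3 1 2 (F [(9,256),(12,174)]) (U2 1 2 (P0 1 1 (U1 1 2 (P4 1 1 (P2 1 2 (F [(9,256),(25,27)]) (U2 1 4 (P3 1 1 (U1 1 4 (P1 1 1 (F [(9,636830),(25,1048576),(23,636803),(12,1048564)]) (F [(9,49),(25,241),(23,256)])) A) (F [(25,256),(23,75)])) A)) (P3 2 1 (U2 1 4 (P5 1 1 (F [(25,256),(23,75)]) (U1 1 4 (P1 1 1 (P3 1 2 (F [(9,636803),(25,1048576),(23,636786),(12,1048563)]) (F [(25,256),(23,114)])) (F [(25,249),(9,47),(23,256)])) A)) A) (F [(25,256),(23,114)]))) (F [(9,256),(25,207)])) (F [(9,231),(23,256),(12,140)])) (F [(9,256),(25,207)]))) (F [(9,47),(23,256),(25,248)])) (F [(9,256),(25,169)]))) (F [(9,256),(25,169)])))))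

def c51 : Cell := ⟨⟨3217,0,4975⟩, ⟨1608,1,2487⟩, ⟨201,0,311⟩, ⟨8533,15849,18042,23112⟩, ⟨8532,15848,18044,23112⟩, ⟨17063,31697,36086,46226⟩, ⟨17063,31699,36086,46224⟩⟩

def t51 : Tr :=
  U1 1 8 (P0 1 1 (P4 2 1 (F [(23,191),(12,256),(25,125)]) (U2 1 16 (P3 2 1 (F [(12,242),(23,256),(9,99)]) (F [(12,16381),(23,9951),(25,16384),(9,9946)])) (P3 2 1 (P1 1 1 (P5 2 1 (U0 1 1 (F [(23,636867),(12,1048495),(25,1048576),(9,636699)]) (U2 2 1 (F [(12,16383),(23,9951),(25,16384),(9,9948)]) (P2 1 1 (P4 1 1 (F [(12,16384),(25,12403),(23,14883)]) (F [(12,1048576),(25,1048554),(23,636740),(9,636772)])) (F [(12,256),(23,37),(9,105)])))) (F [(12,256),(9,155)])) (P0 2 1 (U0 1 1 (F [(12,1048496),(23,636868),(25,1048576),(9,636699)]) (F [(12,256),(23,75),(25,229)])) (F [(12,243),(23,256),(25,242)]))) (P0 1 2 (F [(12,16377),(25,16384),(23,9947),(9,9945)]) (P1 2 1 (F [(12,1048221),(25,1048576),(23,636666),(9,636449)])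 (F [(12,233),(23,256),(25,249)])))))) (F [(23,256),(12,248),(9,91)])) (P0 1 1 (P4 2 1 (U0 1 2 (F [(9,25),(23,256)]) (P5 1 1 (F [(23,256),(25,118),(12,57)]) (P1 1 1 (P3 1 2 (F [(9,147),(23,44),(12,256)]) (U2 1 1 (F [(9,14),(23,256),(25,35)]) (U0 2 1 (F [(9,102),(23,256),(25,44)]) (P0 1 1 (P4 1 1 (F [(23,256),(9,64),(12,185)]) (P3 2 1 (U2 2 1 (F [(23,256),(9,15),(25,10)]) (U0 4 1 (F [(23,256),(25,27)]) (P5 1 1 (F [(23,256),(25,118),(12,57)]) (P1 1 1 (P3 1 2 (F [(23,636832),(9,636783),(12,1048576),(25,1048567)]) (U2 4 1 (F [(23,256),(9,14),(25,35)]) (U0 8 1 (F [(23,636796),(9,636768),(25,1048576),(12,1048527)]) (F [(25,1048576),(23,636812),(12,1048521),(9,636732)])))) (F [(23,636853),(12,1048499),(25,1048576),(9,636711)]))))) (F [(23,256),(25,118),(12,57)]))) (F [(23,256),(9,64),(12,185)]))))) (F [(23,256),(12,63),(25,87)])))) (U0 1 2 (F [(9,636762),(23,636826),(25,1048576),(12,1048443)])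 (P3 2 1 (P1 1 1 (P5 2 1 (U2 1 1 (F [(9,636744),(23,636873),(12,1048468),(25,1048576)]) (U0 2 1 (F [(9,40756266),(23,40761983),(25,67108864),(12,67101040)]) (P2 1 1 (P4 1 1 (P5 1 2 (F [(25,256),(23,239),(12,26)]) (U2 2 1 (F [(9,636741),(23,636813),(25,1048576),(12,1048484)]) (U0 4 1 (F [(9,636766),(25,1048576),(23,636786),(12,1048524)]) (P3 1 1 (P1 1 1 (P5 2 1 (F [(25,1048576),(23,636745),(9,636747),(12,1048519)]) (F [(9,636796),(23,636745),(12,1048576),(25,1048543)])) (F [(25,1048576),(12,1048507),(23,636791),(9,636727)])) (F [(25,256),(12,148)]))))) (P0 1 2 (F [(9,9950),(25,16384),(12,16384),(23,9949)]) (U2 2 1 (F [(9,636756),(23,636801),(25,1048576),(12,1048513)]) (F [(25,4294486620),(9,2608245551),(12,4294967296),(23,2607719496)])))) (F [(12,256),(9,142),(23,74)])))) (F [(9,155),(12,256)])) (P0 2 1 (U2 1 1 (F [(9,636756),(23,636894),(12,1048485),(25,1048576)]) (U0 2 1 (P5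 1 1 (U1 1 1 (P4 1 1 (P2 1 2 (F [(9,47),(25,249),(23,256)]) (F [(9,9949),(23,9950),(25,16384),(12,16383)])) (F [(9,9950),(25,16384),(12,16384),(23,9950)])) (F [(9,256),(12,77)])) (F [(9,201),(23,102),(12,256)])) (P5 1 1 (P4 1 1 (P2 1 2 (F [(25,256),(23,239),(12,26)]) (F [(12,1048576),(25,1048559),(23,636712),(9,636756)])) (F [(12,1048576),(25,1048559),(9,636756),(23,636712)])) (F [(12,256),(23,74),(9,142)])))) (P2 2 1 (U2 1 1 (F [(23,256),(9,72),(12,93)]) (U0 2 1 (P5 1 1 (U1 1 1 (P4 1 2 (F [(23,256),(25,244),(9,41)]) (F [(23,9950),(12,16383),(9,9949),(25,16384)])) (F [(9,636691),(23,636673),(25,1048576),(12,1048368)])) (F [(9,99),(23,256),(12,242)])) (P5 1 1 (P4 1 2 (F [(25,211),(23,256),(12,39)]) (F [(12,1048576),(23,636753),(25,1048551),(9,636739)])) (F [(12,248),(23,256),(9,91)])))) (F [(12,242),(23,256),(9,99)])))) (P0 1 2 (F [(25,16384),(9,9945),(12,16376),(23,9946)]) (P1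 2 1 (U2 1 1 (U1 1 2 (F [(23,636811),(12,1048384),(9,636643),(25,1048576)]) (U0 1 1 (F [(9,256),(25,209),(12,213)]) (P3 1 1 (F [(9,636690),(25,1048576),(23,636841),(12,1048429)]) (F [(25,1048576),(12,1048367),(9,636610),(23,636844)])))) (U0 2 1 (U1 1 1 (P3 1 1 (P5 1 1 (P2 1 2 (F [(25,256),(23,41),(12,12)]) (F [(9,9948),(25,16384),(12,16382),(23,9949)])) (F [(9,146),(25,250),(12,256)])) (P4 1 1 (P2 1 2 (F [(25,256),(23,41),(12,12)]) (F [(25,16384),(12,16382),(9,9948),(23,9949)])) (F [(12,256),(25,235),(9,147)]))) (F [(9,256),(25,209),(12,213)])) (F [(12,178),(25,256),(9,39)]))) (P2 2 1 (U2 1 1 (U1 1 2 (F [(23,9954),(12,16380),(25,16384),(9,9945)]) (U0 1 1 (F [(9,9949),(23,9949),(25,16384),(12,16381)]) (F [(23,9951),(25,16384),(12,16381),(9,9947)]))) (U0 2 1 (U1 1 1 (P4 1 1 (P5 1 2 (F [(25,256),(23,188)]) (F [(12,16382),(25,16384),(23,9949),(9,9948)])) (F [(12,16383),(25,16384),(23,9949),(9,9948)]))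 (F [(9,636691),(25,1048576),(23,636673),(12,1048368)])) (F [(12,171),(25,256),(9,15)]))) (F [(12,1048462),(23,636798),(25,1048576),(9,636612)]))))))) (F [(23,256),(9,64),(12,185)]))

def c52 : Cell := ⟨⟨3217,1,4974⟩, ⟨1608,1,2487⟩, ⟨3217,0,4975⟩, ⟨17065,31697,36086,46224⟩, ⟨34127,63395,72174,92448⟩, ⟨17063,31697,36086,46226⟩, ⟨17063,31699,36086,46224⟩⟩

def t52 : Tr :=
  U1 2 1 (U2 1 1 (P5 1 1 (P2 1 1 (F [(9,8),(23,256),(25,217)]) (P1 2 1 (F [(9,11),(23,256),(25,124)]) (P0 2 1 (F [(9,8),(23,256),(25,217)]) (U1 1 2 (U2 1 2 (F [(12,256),(23,233),(25,194)]) (P2 2 1 (F [(23,256),(9,8),(25,217)]) (F [(12,1048576),(23,636753),(9,636746),(25,1048555)]))) (F [(23,9951),(9,9950),(12,16384),(25,16384)]))))) (P1 1 1 (P3 1 2 (F [(9,158),(23,41),(12,256)]) (U1 1 2 (P0 1 1 (P4 1 1 (U2 1 2 (P2 1 2 (F [(9,142),(23,256),(12,208)]) (U1 1 4 (U2 1 4 (P3 1 1 (P1 1 1 (F [(9,167),(23,189),(12,256)])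 (P2 2 1 (F [(23,189),(9,167),(12,256)]) (P0 2 1 (F [(23,636844),(9,636787),(12,1048576),(25,1048522)]) (F [(12,1048559),(23,636785),(25,1048576),(9,636761)])))) (F [(23,204),(25,256),(12,85)])) A) (F [(9,217),(23,138),(12,256)]))) (F [(9,256)])) (U2 1 2 (P3 2 1 (U1 1 4 (U2 1 4 (P5 1 1 (F [(23,190),(25,256),(12,78)]) (P1 1 1 (P3 1 2 (U1 1 8 (U2 1 8 (P1 1 2 (F [(9,9950),(23,9950),(12,16384),(25,16384)]) (F [(12,1048567),(23,636805),(9,636779),(25,1048576)])) A) A) (U1 1 8 (P0 1 1 (F [(25,256),(9,8),(23,112)]) (U2 1 8 (F [(25,1048576),(23,636805),(12,1048558),(9,636771)]) A)) A)) (P2 2 1 (U1 1 8 (P3 1 1 (U2 1 8 (F [(23,256),(12,209),(25,213)]) A) (F [(25,256),(23,155)])) A) (P0 2 1 (F [(25,1048576),(23,636760),(9,636744),(12,1048517)]) (F [(12,1048556),(25,1048576),(23,636780),(9,636759)]))))) A) (F [(9,9950),(23,9951),(25,16384),(12,16383)])) (F [(25,1048576),(9,636549),(23,636740),(12,1048222)]))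 (F [(9,256),(25,27)]))) (F [(9,156),(23,5),(12,256)])) (F [(9,256),(25,27)]))) (P2 2 1 (U1 1 2 (P3 1 1 (F [(9,156),(23,5),(12,256)]) (P4 1 1 (U2 1 2 (P5 1 2 (F [(23,256),(9,16)]) (P0 1 1 (U1 1 4 (U2 1 4 (F [(23,256),(12,209),(25,213)]) A) (F [(9,217),(23,138),(12,256)])) (U1 1 4 (U2 1 4 (F [(23,161),(12,256)]) A) (F [(23,37),(9,172),(12,256)])))) (F [(9,256),(23,89)])) (U2 1 2 (P0 1 2 (F [(25,1048576),(23,636740),(9,636549),(12,1048222)]) (P2 1 1 (U1 1 4 (F [(23,636774),(25,1048576),(9,636599),(12,1048301)]) (F [(9,9950),(23,9951),(25,16384),(12,16383)])) (U1 1 4 (U2 1 4 (F [(23,162),(12,256),(25,78)]) A) (F [(23,9951),(9,9950),(12,16383),(25,16384)])))) (F [(9,256),(23,42)])))) (F [(9,256),(23,42)])) (P0 2 1 (U1 1 2 (P3 1 1 (U2 1 2 (F [(12,1048576),(23,636727),(9,636738),(25,1048525)]) (P1 1 2 (F [(9,256),(12,174)]) (U0 2 1 (F [(9,40751258),(23,40754302),(12,67107108),(25,67108864)])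 (P2 1 1 (F [(9,173),(12,256)]) (F [(9,636758),(25,1048570),(23,636724),(12,1048576)]))))) (U2 1 2 (P4 2 1 (U1 1 4 (P2 1 1 (U2 1 4 (F [(12,256),(23,162),(25,78)]) A) (F [(12,1048482),(23,636740),(25,1048576),(9,636686)])) (P2 1 1 (F [(23,637017),(9,636907),(12,1048576),(25,1048502)]) (F [(23,636783),(25,1048576),(12,1048483),(9,636707)]))) (F [(25,16384),(23,9949),(12,16380),(9,9947)])) (P4 2 1 (U0 2 1 (P2 1 1 (F [(9,231),(23,256),(12,140)]) (F [(9,636709),(23,636780),(25,1048576),(12,1048477)])) (P2 1 1 (F [(9,231),(23,256),(12,140)]) (F [(9,636708),(25,1048576),(23,636781),(12,1048476)]))) (F [(9,51),(25,256),(23,118)])))) (F [(9,84),(23,256),(25,112)])) (U1 1 2 (U2 1 2 (F [(12,256),(23,191),(25,125)]) (F [(12,1048576),(9,636745),(23,636745),(25,1048546)])) (F [(9,636763),(23,636828),(12,1048554),(25,1048576)])))))) (F [(9,256),(12,174)])) (F [(9,114),(23,256)])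

def c53 : Cell := ⟨⟨6435,0,9949⟩, ⟨6434,1,9949⟩, ⟨3217,0,4975⟩, ⟨17065,31697,36086,46224⟩, ⟨34127,63395,72174,92448⟩, ⟨34126,63396,72172,92450⟩, ⟨17063,31699,36086,46224⟩⟩

def t53 : Tr :=
  P2 1 1 (F [(9,49),(23,256),(25,241)]) (P1 2 1 (U2 1 2 (P3 1 1 (F [(23,256),(9,25)]) (U1 1 2 (F [(23,256),(25,212),(12,116)]) (P0 1 2 (F [(25,256),(23,139)]) (P5 1 2 (U0 1 2 (F [(9,256),(23,133),(25,44)]) (P4 1 4 (F [(23,256),(12,35)]) (P1 2 1 (F [(23,256),(25,239)]) (P0 2 1 (F [(23,155),(25,256)]) (F [(23,636838),(9,636737),(25,1048576),(12,1048553)]))))) (P1 1 1 (F [(9,256),(23,27),(25,229)]) (U0 1 2 (F [(9,256),(23,42)]) (P2 2 1 (F [(9,41),(23,256),(25,244)]) (P0 2 1 (F [(23,155),(25,256)]) (P1 2 1 (F [(9,636751),(23,636800),(25,1048576),(12,1048533)]) (F [(9,636749),(23,636820),(12,1048565),(25,1048576)])))))))))) (P3 1 1 (F [(9,177),(23,256),(12,104)]) (P0 1 2 (F [(9,3),(25,256),(23,140)])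 (P5 1 2 (U0 1 1 (U1 2 1 (P4 1 4 (F [(9,32),(23,256),(12,27)]) (U2 1 1 (P1 2 1 (F [(9,7),(23,256),(25,240)]) (P0 2 1 (F [(9,8),(25,256),(23,112)]) (F [(9,40752409),(23,40756881),(25,67108864),(12,67107992)]))) (F [(9,256)]))) (F [(9,256),(23,109)])) (U2 2 1 (P4 1 4 (F [(9,117),(23,256),(12,5)]) (U1 1 1 (P1 2 1 (F [(9,48),(25,244),(23,256)]) (P0 2 1 (F [(25,256),(23,115),(12,4)]) (P2 4 1 (F [(25,256),(23,138),(12,2)]) (F [(9,636766),(23,636783),(25,1048565),(12,1048576)])))) (F [(9,256),(25,61)]))) (F [(9,256),(25,44),(23,133)]))) (P1 1 1 (F [(9,256),(25,229),(23,27)]) (U0 1 1 (U1 2 1 (U2 1 1 (P2 2 1 (F [(9,41),(23,256),(25,244)]) (P0 2 1 (F [(9,8),(25,256),(23,112)]) (P1 2 1 (F [(9,636779),(23,636772),(25,1048576),(12,1048564)]) (F [(9,636763),(23,636806),(25,1048576),(12,1048576)])))) (F [(9,256)])) (F [(9,256)])) (U2 2 1 (U1 1 1 (P2 2 1 (F [(9,48),(25,244),(23,256)]) (P0 2 1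 (F [(25,256),(23,115),(12,4)]) (F [(9,636781),(23,636769),(25,1048556),(12,1048576)]))) (F [(9,256)])) (F [(9,256)])))))))) (P0 2 1 (U2 1 2 (U1 1 2 (F [(25,256),(23,239),(12,186)]) (P3 2 1 (P2 1 2 (U0 1 2 (F [(9,90),(23,256),(25,117)]) (P4 1 4 (F [(23,256),(25,63),(12,67)]) (P3 1 2 (F [(23,636838),(9,636737),(25,1048576),(12,1048553)]) (F [(23,155),(25,256)])))) (U0 1 2 (P1 1 1 (F [(9,177),(23,256),(12,104)]) (F [(9,636684),(25,1048576),(23,636803),(12,1048445)])) (P1 1 1 (P3 1 2 (P5 2 1 (P4 1 2 (F [(23,636794),(12,1048502),(25,1048576),(9,636688)]) (U2 1 1 (F [(23,226),(9,169),(12,256)]) (F [(23,40752948),(12,67107586),(25,67108864),(9,40751819)]))) (F [(23,636725),(12,1048576),(9,636762),(25,1048482)])) (P4 1 1 (P5 1 2 (F [(23,9949),(25,16384),(12,16382),(9,9948)]) (U2 1 1 (F [(23,636877),(9,636717),(25,1048576),(12,1048524)]) (F [(25,1048576),(23,636755),(9,636734),(12,1048532)])))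 (P0 1 1 (F [(25,256),(23,155)]) (U2 1 1 (F [(23,636808),(9,636727),(25,1048576),(12,1048527)]) (F [(25,1048576),(9,636734),(23,636755),(12,1048532)]))))) (F [(25,16384),(12,16382),(23,9949),(9,9948)])))) (F [(25,256),(23,114)]))) (P3 2 1 (P2 1 2 (U0 1 1 (U1 2 1 (P4 1 4 (F [(23,256),(9,14),(25,50)]) (U2 1 1 (P3 1 2 (P1 1 2 (F [(9,40752409),(23,40756881),(25,67108864),(12,67107992)]) (F [(23,193),(9,2),(25,256)])) (F [(25,256),(9,29)])) (F [(9,256),(25,225)]))) (F [(9,90),(23,256),(25,117)])) (U2 2 1 (P4 1 4 (U1 1 1 (P5 1 2 (F [(23,256),(25,211)]) (P1 1 2 (F [(23,636846),(9,636778),(25,1048572),(12,1048576)]) (F [(23,636787),(25,1048576),(9,636707),(12,1048504)]))) (F [(9,256),(23,27),(25,229)])) (U1 1 1 (P3 1 2 (P1 1 2 (P5 4 1 (F [(9,636374),(25,1048576),(23,636787),(12,1047956)]) (F [(9,636761),(23,636761),(12,1048576),(25,1048554)])) (F [(25,1048576),(9,636374),(23,636787),(12,1047956)]))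 (F [(25,256),(12,16)])) (F [(9,256),(25,225)]))) (F [(9,256),(25,229),(23,27)]))) (U0 1 1 (U1 2 1 (P1 1 1 (U2 1 1 (P3 1 2 (P5 2 1 (F [(25,1048576),(9,636737),(23,636752),(12,1048536)]) (F [(9,636764),(23,636722),(12,1048576),(25,1048496)])) (F [(25,256),(9,69),(12,66)])) (F [(9,256),(25,225)])) (F [(25,256),(9,95),(12,109)])) (F [(9,256),(25,229),(23,27)])) (U2 2 1 (P1 1 1 (U1 1 1 (P3 1 2 (P5 2 1 (F [(25,1048576),(12,1048364),(9,636618),(23,636728)]) (F [(9,636759),(12,1048576),(25,1048550),(23,636747)])) (F [(25,256),(12,16)])) (F [(9,256),(25,225)])) (F [(25,256),(12,16)])) (F [(9,256),(25,225)])))) (F [(25,256),(9,8),(23,112)]))) (U2 1 2 (U1 1 2 (F [(12,256),(23,139),(25,117)]) (P2 2 1 (P4 1 2 (F [(23,256),(12,67),(25,63)]) (U0 1 2 (P3 1 1 (F [(23,256),(9,209),(12,157)]) (F [(23,636787),(9,636700),(25,1048576),(12,1048499)])) (P3 1 1 (F [(12,1048575),(23,636833),(25,1048576),(9,636724)])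 (F [(12,1048520),(25,1048576),(23,636773),(9,636699)])))) (F [(12,1048576),(23,636671),(25,1048483),(9,636743)]))) (P2 2 1 (P4 1 2 (U0 1 1 (F [(9,15),(23,256),(25,10)]) (U2 2 1 (U1 1 1 (P5 1 2 (F [(23,256),(12,116),(25,212)]) (P1 1 1 (P3 1 2 (F [(12,16384),(23,9950),(9,9949),(25,16383)]) (F [(23,9950),(12,16384),(25,16384),(9,9949)])) (F [(12,209),(23,256),(25,213)]))) (P5 1 2 (F [(23,636978),(9,636553),(25,1048576),(12,1048372)]) (F [(9,636757),(23,636767),(25,1048576),(12,1048569)]))) (P5 1 2 (F [(9,636715),(25,1048576),(23,636815),(12,1048532)]) (F [(9,636759),(25,1048573),(23,636770),(12,1048576)])))) (U0 1 1 (U1 2 1 (P3 1 1 (U2 1 1 (P1 1 1 (P5 2 1 (F [(12,1048539),(23,636781),(25,1048576),(9,636718)]) (F [(12,256),(23,41),(9,158)])) (F [(12,1048526),(23,636771),(25,1048576),(9,636702)])) (F [(9,636754),(23,636793),(25,1048576),(12,1048554)])) (F [(25,1048576),(12,1048479),(9,636667),(23,636719)]))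 (F [(9,636752),(23,636770),(25,1048576),(12,1048534)])) (U2 2 1 (P3 1 1 (U1 1 1 (P1 1 1 (P5 2 1 (F [(12,1048557),(25,1048576),(23,636767),(9,636728)]) (F [(12,256),(9,155)])) (F [(12,1048549),(25,1048576),(23,636761),(9,636711)])) (F [(9,636756),(25,1048576),(12,1048566),(23,636757)])) (F [(25,1048576),(12,1048447),(9,636633),(23,636653)])) (F [(9,180),(25,213),(12,256)])))) (F [(12,16384),(25,16379),(9,9949),(23,9944)])))))

def c54 : Cell := ⟨⟨6435,0,9949⟩, ⟨6434,1,9949⟩, ⟨3217,0,4975⟩, ⟨17065,31697,36086,46224⟩, ⟨34127,63395,72174,92448⟩, ⟨17063,31697,36086,46226⟩, ⟨34126,63396,72172,92450⟩⟩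

def t54 : Tr :=
  P1 1 1 (P3 1 2 (F [(9,172),(23,37),(12,256)]) (U2 1 2 (P0 1 1 (P4 1 1 (U1 1 2 (P2 1 2 (F [(9,210),(23,256),(12,157)]) (U2 1 4 (U1 1 4 (P3 1 1 (P1 1 1 (P5 2 1 (P2 1 1 (F [(23,256),(9,114)]) (U2 1 8 (U1 1 8 (P0 1 1 (F [(23,9950),(12,16384),(9,9950),(25,16384)]) (F [(12,256),(23,233),(25,194)])) A) A)) (U2 1 8 (U1 1 8 (P1 1 2 (F [(9,256),(23,226),(12,256)]) (P0 1 1 (F [(23,636790),(12,1048576),(9,636805),(25,1048559)]) (F [(12,1048576),(23,636775),(9,636728),(25,1048502)]))) A) A)) (P2 2 1 (P5 1 1 (F [(23,256),(9,5)]) (U2 1 8 (U1 1 8 (F [(12,210),(23,250),(25,256)]) A) A)) (P0 2 1 (U2 1 8 (U1 1 8 (F [(12,210),(23,250),(25,256)]) A) A) (U2 1 8 (F [(12,1048560),(25,1048576),(23,636783),(9,636758)]) A)))) (F [(23,204),(25,256),(12,85)])) A) A)) (F [(9,210),(25,256)])) (U1 1 2 (P3 2 1 (U2 1 4 (U1 1 4 (P5 1 1 (F [(25,256),(23,60),(12,10)]) (P1 1 1 (P3 1 2 (U2 1 8 (U1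 1 8 (P1 1 2 (F [(9,636805),(12,1048576),(25,1048574),(23,636787)]) (P2 1 1 (F [(25,1048574),(23,636788),(12,1048576),(9,636804)]) (F [(12,1048576),(25,1048564),(23,636767),(9,636789)]))) A) A) (U2 1 8 (P0 1 1 (F [(25,256),(23,114)]) (U1 1 8 (P2 1 1 (F [(25,256),(23,155)]) (F [(25,1048576),(12,1048574),(23,636778),(9,636776)])) A)) A)) (P2 2 1 (U2 1 8 (P3 1 1 (U1 1 8 (F [(12,210),(25,256),(23,250)]) A) (F [(25,256),(23,155)])) A) (F [(25,256),(12,129),(9,69)])))) A) A) (F [(25,256),(12,16)])) (F [(9,210),(25,256)]))) (F [(9,157),(23,4),(12,256)])) (F [(9,256),(25,209),(12,213)]))) (P2 2 1 (U2 1 2 (P3 1 1 (F [(9,157),(23,4),(12,256)]) (P4 1 1 (U1 1 2 (P5 1 2 (F [(23,256),(9,25)]) (P0 1 1 (U2 1 4 (U1 1 4 (F [(23,256),(12,209),(25,213)]) A) A) (U2 1 4 (U1 1 4 (F [(23,161),(12,256)]) A) A))) (F [(9,256),(25,24),(12,189)])) (U1 1 2 (P0 1 2 (F [(25,256),(12,16)]) (P2 1 1 (F [(25,256),(23,115),(12,4)])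 (U2 1 4 (U1 1 4 (F [(12,256),(23,139),(25,117)]) A) A))) (P0 1 2 (F [(9,210),(25,256)]) (P2 1 1 (F [(9,256),(25,207)]) (U0 1 2 (F [(9,256),(23,42)]) (P1 1 1 (F [(9,256),(25,180),(12,178)]) (P0 2 1 (U2 1 1 (F [(9,256),(23,133),(25,44)]) (U0 2 1 (F [(9,256),(25,44),(23,133)]) A)) (P2 2 1 (U2 1 1 (F [(9,256),(23,158)]) (U0 2 1 (F [(9,256),(23,158)]) A)) (F [(9,636762),(23,636757),(12,1048576),(25,1048533)])))))))))) (P3 1 1 (F [(9,208),(25,81),(12,256)]) (P4 1 1 (F [(9,256),(25,24),(12,189)]) (P0 1 2 (F [(9,29),(25,256)]) (P2 1 1 (F [(9,256),(25,207)]) (U0 1 1 (U1 2 1 (U2 1 1 (P1 1 1 (F [(9,256),(25,209),(12,213)]) (P0 2 1 (F [(9,100),(25,256),(12,105)]) (F [(9,40754768),(23,40751134),(25,67106537),(12,67108864)]))) (F [(9,256)])) (F [(9,256)])) (U2 2 1 (U1 1 1 (P1 1 1 (F [(9,256),(25,209),(12,213)]) (P0 2 1 (F [(9,100),(25,256),(12,105)]) (F [(9,636781),(25,1048556),(23,636769),(12,1048576)])))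 (F [(9,256)])) (F [(9,256)])))))))) (P0 2 1 (U2 1 2 (P3 1 1 (U1 1 2 (F [(12,256),(25,108),(9,131)]) (P1 1 2 (F [(9,219),(12,256),(25,77)]) (U0 1 2 (P2 1 1 (F [(9,173),(12,256)]) (F [(9,9949),(25,16379),(23,9943),(12,16384)])) (F [(12,256),(9,131),(25,108)])))) (U1 1 2 (P4 2 1 (U2 1 4 (P2 1 1 (U1 1 4 (F [(12,256),(23,75),(25,229)]) A) (F [(12,1048471),(25,1048576),(23,636725),(9,636675)])) A) (F [(25,256),(12,16)])) (P4 2 1 (U0 1 2 (P2 1 1 (F [(9,231),(23,256),(12,140)]) (F [(9,636717),(25,1048576),(23,636772),(12,1048487)])) (P2 1 1 (P5 1 1 (P4 1 2 (F [(9,636762),(23,636725),(12,1048576),(25,1048482)]) (P0 1 1 (U2 1 1 (F [(9,636769),(25,1048576),(23,636758),(12,1048527)]) (U0 2 1 (F [(9,636764),(25,1048576),(23,636762),(12,1048537)]) A)) (U2 1 1 (F [(9,636751),(23,636779),(25,1048576),(12,1048560)]) (F [(9,636761),(25,1048574),(12,1048576),(23,636763)])))) (P1 1 2 (F [(9,256),(25,172),(12,189)])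 (P0 1 1 (F [(9,636764),(25,1048576),(23,636722),(12,1048518)]) (F [(9,636742),(25,1048576),(12,1048555),(23,636754)])))) (F [(25,1048576),(9,636702),(12,1048488),(23,636740)]))) (F [(25,256),(9,56)])))) (F [(9,176),(25,179),(12,256)])) (F [(12,67108864),(9,40750998),(23,40745791),(25,67100734)])))

def c55 : Cell := ⟨⟨6435,0,9949⟩, ⟨3217,1,4974⟩, ⟨6434,1,9949⟩, ⟨17065,31697,36086,46224⟩, ⟨34127,63395,72174,92448⟩, ⟨17063,31697,36086,46226⟩, ⟨17063,31699,36086,46224⟩⟩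

def t55 : Tr :=
  F [(9,256),(25,159),(12,206)]

def c56 : Cell := ⟨⟨1609,0,2487⟩, ⟨3217,1,4974⟩, ⟨6435,0,9949⟩, ⟨17065,31697,36086,46224⟩, ⟨34127,63395,72174,92448⟩, ⟨17063,31697,36086,46226⟩, ⟨17063,31699,36086,46224⟩⟩

def t56 : Tr :=
  F [(9,100),(25,256),(12,105)]

def c57 : Cell := ⟨⟨1609,0,2487⟩, ⟨1608,1,2487⟩, ⟨3217,0,4975⟩, ⟨17065,31697,36086,46224⟩, ⟨8532,15848,18044,23112⟩, ⟨17063,31697,36086,46226⟩, ⟨34127,63395,72174,92448⟩⟩

def t57 : Tr :=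
  U0 1 1 (U1 2 1 (P3 2 1 (U2 1 1 (P1 1 1 (P5 2 1 (U1 1 2 (P2 1 1 (U2 1 2 (P4 1 1 (P5 1 2 (F [(25,1048576),(9,636646),(23,636740),(12,1048382)]) (U1 1 4 (P3 1 1 (U2 1 4 (P1 1 1 (F [(9,183),(25,238),(12,256)]) (F [(25,1048576),(12,1048512),(9,636736),(23,636745)])) A) (F [(25,256),(9,48),(12,193)])) (F [(9,9950),(25,16384),(23,9950),(12,16383)]))) (F [(9,636781),(25,1048340),(12,1048576),(23,636503)])) (F [(9,256),(25,27)])) (F [(9,155),(12,256)])) (F [(9,256),(25,27)])) (F [(9,155),(12,256)])) (P0 2 1 (U1 1 2 (P5 1 1 (U2 1 2 (P4 1 1 (P2 1 2 (F [(25,1048576),(9,636663),(12,1048410),(23,636740)]) (F [(25,1048543),(12,1048576),(9,636773),(23,636670)])) (F [(25,1048520),(12,1048576),(9,636769),(23,636678)])) (F [(9,256),(25,172),(12,189)])) (F [(9,155),(12,256)])) (F [(9,256),(12,77)])) (P2 2 1 (U1 1 2 (P5 1 1 (U2 1 2 (P4 1 2 (F [(25,16384),(12,16380),(23,9949),(9,9947)]) (F [(12,1048576),(25,1048565),(23,636747),(9,636742)]))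 (F [(9,636701),(25,1048576),(23,636655),(12,1048419)])) (U2 1 2 (F [(12,1048576),(23,636729),(25,1048528),(9,636739)]) (F [(9,636759),(12,1048576),(25,1048552),(23,636701)]))) (F [(9,9950),(23,9950),(25,16384),(12,16382)])) (U1 1 2 (F [(12,1048576),(23,636659),(25,1048518),(9,636717)]) (F [(9,636763),(12,1048555),(23,636827),(25,1048576)]))))) (F [(9,256),(12,174)])) (U2 1 1 (P0 1 2 (F [(25,256),(9,29)]) (P1 2 1 (F [(9,159),(25,256),(12,214)]) (P2 2 1 (F [(25,1048576),(9,636605),(12,1048260),(23,636402)]) (U1 1 2 (F [(12,193),(25,256),(9,48)]) (F [(9,9948),(12,16383),(25,16384),(23,9949)]))))) (F [(9,256),(25,24),(12,189)]))) (F [(9,256),(23,89)])) (F [(9,147),(25,226),(12,256)])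

def c58 : Cell := ⟨⟨1609,0,2487⟩, ⟨1608,1,2487⟩, ⟨3217,0,4975⟩, ⟨8533,15849,18042,23112⟩, ⟨17065,31697,36086,46224⟩, ⟨17063,31697,36086,46226⟩, ⟨17063,31699,36086,46224⟩⟩

def t58 : Tr :=
  P1 2 1 (U0 1 1 (F [(9,167),(23,189),(12,256)]) (U2 2 1 (U1 1 1 (P5 1 1 (P4 1 1 (F [(23,256),(9,114)]) (P3 2 1 (F [(23,256),(9,210),(12,157)]) (U2 1 2 (F [(12,256),(23,249),(9,109)]) (P0 1 2 (P4 2 1 (P2 1 2 (U0 1 1 (F [(23,189),(9,167),(12,256)]) (U2 2 1 (F [(23,249),(12,256),(9,109)]) (P5 1 2 (F [(9,636715),(23,636815),(25,1048576),(12,1048532)]) (F [(9,180),(23,55),(12,256)])))) (F [(12,256),(9,155)])) (F [(12,256),(9,155)])) (F [(23,256),(12,157),(9,210)]))))) (F [(9,180),(23,55),(12,256)])) (F [(9,256),(25,159),(12,206)])) (F [(9,256),(25,209),(12,213)]))) (P2 2 1 (U0 1 1 (F [(9,167),(23,189),(12,256)]) (U2 2 1 (U1 1 1 (P4 1 1 (F [(23,256),(9,114)]) (P0 1 2 (U2 1 2 (F [(12,256),(23,249),(9,109)])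 (P3 2 1 (F [(23,256),(12,129),(9,192)]) (P4 2 1 (P5 1 2 (P2 1 2 (U0 1 1 (F [(23,189),(9,167),(12,256)]) (F [(23,636814),(12,1048528),(9,636712),(25,1048576)])) (F [(23,69),(12,256),(9,62)])) (F [(12,256),(9,155)])) (F [(12,256),(9,155)])))) (F [(23,256),(9,25)]))) (F [(9,256),(12,189),(25,24)])) (F [(9,256),(25,24),(12,189)]))) (F [(23,37),(9,172),(12,256)]))

def c59 : Cell := ⟨⟨1609,0,2487⟩, ⟨1608,1,2487⟩, ⟨201,0,311⟩, ⟨8533,15849,18042,23112⟩, ⟨8532,15848,18044,23112⟩, ⟨8533,15847,18042,23114⟩, ⟨17063,31697,36086,46226⟩⟩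

def t59 : Tr :=
  F [(12,256),(9,152),(25,101)]

theorem g4 : ∀ c ∈ [c48, c49, c50, c51, c52, c53, c54, c55, c56, c57, c58, c59], Done D c := by
  intro c hc
  simp only [List.mem_cons, List.not_mem_nil, or_false] at hc
  rcases hc with rfl | rfl | rfl | rfl | rfl | rfl | rfl | rfl | rfl | rfl | rfl | rfl
  · exact done_of_chk (t := t48) (by decide +kernel)
  · exact done_of_chk (t := t49) (by decide +kernel)
  · exact done_of_chk (t := t50) (by decide +kernel)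
  · exact done_of_chk (t := t51) (by decide +kernel)
  · exact done_of_chk (t := t52) (by decide +kernel)
  · exact done_of_chk (t := t53) (by decide +kernel)
  · exact done_of_chk (t := t54) (by decide +kernel)
  · exact done_of_chk (t := t55) (by decide +kernel)
  · exact done_of_chk (t := t56) (by decide +kernel)
  · exact done_of_chk (t := t57) (by decide +kernel)
  · exact done_of_chk (t := t58) (by decide +kernel)
  · exact done_of_chk (t := t59) (by decide +kernel)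

end Pool.Agent.W2helper59.NW.E1
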