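import Pool.Agent.W2helper59.NW.D_E1

set_option autoImplicit false
set_option maxRecDepth 1000000

namespace Pool.Agent.W2helper59.NW.E1

open Tr

def c60 : Cell := ⟨⟨1609,0,2487⟩, ⟨1608,1,2487⟩, ⟨201,0,311⟩, ⟨8533,15849,18042,23112⟩, ⟨4267,7923,9022,11556⟩, ⟨8533,15847,18042,23114⟩, ⟨8532,15848,18044,23112⟩⟩

def t60 : Tr :=
  F [(12,256),(9,152),(25,101)]

def c61 : Cell := ⟨⟨1609,0,2487⟩, ⟨804,1,1243⟩, ⟨1608,1,2487⟩, ⟨8533,15849,18042,23112⟩, ⟨4267,7923,9022,11556⟩, ⟨8533,15847,18042,23114⟩, ⟨4265,7925,9022,11556⟩⟩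

def t61 : Tr :=
  F [(9,256),(25,24),(12,189)]

def c62 : Cell := ⟨⟨805,0,1243⟩, ⟨804,1,1243⟩, ⟨1609,0,2487⟩, ⟨8533,15849,18042,23112⟩, ⟨4267,7923,9022,11556⟩, ⟨8533,15847,18042,23114⟩, ⟨4265,7925,9022,11556⟩⟩

def t62 : Tr :=
  F [(9,256),(25,24),(12,189)]

def c63 : Cell := ⟨⟨805,0,1243⟩, ⟨804,1,1243⟩, ⟨201,0,311⟩, ⟨2133,3963,4510,5778⟩, ⟨8533,15849,18042,23112⟩, ⟨8533,15847,18042,23114⟩, ⟨4265,7925,9022,11556⟩⟩

def t63 : Tr :=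
  F [(9,192),(23,256),(12,129)]

def c64 : Cell := ⟨⟨805,0,1243⟩, ⟨402,1,621⟩, ⟨804,1,1243⟩, ⟨2133,3963,4510,5778⟩, ⟨4267,7923,9022,11556⟩, ⟨4267,7921,9022,11558⟩, ⟨2132,3962,4512,5778⟩⟩

def t64 : Tr :=
  F [(9,256)]

def c65 : Cell := ⟨⟨403,0,621⟩, ⟨402,1,621⟩, ⟨805,0,1243⟩, ⟨2133,3963,4510,5778⟩, ⟨4267,7923,9022,11556⟩, ⟨4267,7921,9022,11558⟩, ⟨2132,3962,4512,5778⟩⟩

def t65 : Tr :=
  F [(9,256)]

def c66 : Cell := ⟨⟨403,0,621⟩, ⟨402,1,621⟩, ⟨201,0,311⟩, ⟨2133,3963,4510,5778⟩, ⟨2135,3961,4510,5778⟩, ⟨4267,7921,9022,11558⟩, ⟨4267,7923,9022,11556⟩⟩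

def t66 : Tr :=
  F [(9,172),(12,256),(23,37)]

def c67 : Cell := ⟨⟨403,0,621⟩, ⟨201,1,310⟩, ⟨402,1,621⟩, ⟨2133,3963,4510,5778⟩, ⟨2135,3961,4510,5778⟩, ⟨1066,1980,2256,2890⟩, ⟨1066,1982,2256,2888⟩⟩

def t67 : Tr :=
  F [(9,256),(12,77)]

def c68 : Cell := ⟨⟨403,0,621⟩, ⟨201,1,310⟩, ⟨201,0,311⟩, ⟨1067,1981,2254,2890⟩, ⟨2135,3961,4510,5778⟩, ⟨1066,1980,2256,2890⟩, ⟨2133,3963,4510,5778⟩⟩

def t68 : Tr :=
  F [(9,201),(23,102),(12,256)]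

def c69 : Cell := ⟨⟨101,0,155⟩, ⟨201,1,310⟩, ⟨403,0,621⟩, ⟨1067,1981,2254,2890⟩, ⟨534,990,1128,1444⟩, ⟨1066,1980,2256,2890⟩, ⟨1066,1982,2256,2888⟩⟩

def t69 : Tr :=
  F [(9,256),(25,209),(12,213)]

def c70 : Cell := ⟨⟨101,0,155⟩, ⟨100,1,155⟩, ⟨25,0,39⟩, ⟨535,989,1126,1446⟩, ⟨534,990,1128,1444⟩, ⟨532,990,1128,1446⟩, ⟨1067,1981,2254,2890⟩⟩

def t70 : Tr :=
  F [(9,150),(12,256),(25,124)]

def c71 : Cell := ⟨⟨101,0,155⟩, ⟨100,1,155⟩, ⟨25,0,39⟩, ⟨535,989,1126,1446⟩, ⟨534,990,1128,1444⟩, ⟨133,247,282,362⟩, ⟨532,990,1128,1446⟩⟩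

def t71 : Tr :=
  F [(9,148),(12,256),(25,183)]

theorem g5 : ∀ c ∈ [c60, c61, c62, c63, c64, c65, c66, c67, c68, c69, c70, c71], Done D c := by
  intro c hc
  simp only [List.mem_cons, List.not_mem_nil, or_false] at hc
  rcases hc with rfl | rfl | rfl | rfl | rfl | rfl | rfl | rfl | rfl | rfl | rfl | rfl
  · exact done_of_chk (t := t60) (by decide +kernel)
  · exact done_of_chk (t := t61) (by decide +kernel)
  · exact done_of_chk (t := t62) (by decide +kernel)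
  · exact done_of_chk (t := t63) (by decide +kernel)
  · exact done_of_chk (t := t64) (by decide +kernel)
  · exact done_of_chk (t := t65) (by decide +kernel)
  · exact done_of_chk (t := t66) (by decide +kernel)
  · exact done_of_chk (t := t67) (by decide +kernel)
  · exact done_of_chk (t := t68) (by decide +kernel)
  · exact done_of_chk (t := t69) (by decide +kernel)
  · exact done_of_chk (t := t70) (by decide +kernel)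
  · exact done_of_chk (t := t71) (by decide +kernel)

end Pool.Agent.W2helper59.NW.E1
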