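import Pool.Agent.W2helper59.NW.D_E1

set_option autoImplicit false
set_option maxRecDepth 1000000

namespace Pool.Agent.W2helper59.NW.E1

open Tr

def c72 : Cell := ⟨⟨101,0,155⟩, ⟨100,1,155⟩, ⟨25,0,39⟩, ⟨535,989,1126,1446⟩, ⟨268,494,564,722⟩, ⟨133,247,282,362⟩, ⟨534,990,1128,1444⟩⟩

def t72 : Tr :=
  F [(12,256),(9,146),(25,233)]

def c73 : Cell := ⟨⟨101,0,155⟩, ⟨50,1,77⟩, ⟨100,1,155⟩, ⟨535,989,1126,1446⟩, ⟨268,494,564,722⟩, ⟨133,247,282,362⟩, ⟨266,496,564,722⟩⟩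

def t73 : Tr :=
  F [(9,256),(12,206),(25,165)]

def c74 : Cell := ⟨⟨51,0,77⟩, ⟨50,1,77⟩, ⟨101,0,155⟩, ⟨535,989,1126,1446⟩, ⟨268,494,564,722⟩, ⟨133,247,282,362⟩, ⟨266,496,564,722⟩⟩

def t74 : Tr :=
  F [(9,256),(25,209),(12,213)]

def c75 : Cell := ⟨⟨101,0,155⟩, ⟨100,1,155⟩, ⟨25,0,39⟩, ⟨1067,1983,2254,2888⟩, ⟨534,990,1128,1444⟩, ⟨1067,1981,2254,2890⟩, ⟨266,496,564,722⟩⟩

def t75 : Tr :=
  U2 1 4 (U1 1 4 (F [(23,256),(12,208),(25,213)]) (P4 1 2 (F [(23,256),(25,34)]) (P0 1 2 (U0 1 2 (P3 2 1 (F [(9,114),(23,256)]) (U1 2 1 (F [(23,9978),(9,9904),(25,16384),(12,16297)]) (F [(9,256),(25,169)]))) (P3 2 1 (F [(23,256),(12,77),(25,9)]) (P4 2 1 (P5 1 2 (F [(23,188),(25,256)]) (U2 1 1 (F [(23,256),(9,14),(25,35)]) (U0 2 1 (P3 1 1 (F [(23,9974),(9,9943),(12,16373),(25,16384)]) (F [(23,9930),(25,16384),(9,9844),(12,16234)])) (P3 1 1 (F [(12,16371),(23,10021),(25,16384),(9,9895)])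 (F [(23,78),(25,256),(12,87)]))))) (P0 1 4 (U2 1 1 (U1 1 2 (F [(12,208),(23,256),(25,213)]) (P5 1 1 (F [(25,16384),(23,9935),(12,16318),(9,9895)]) (F [(12,16374),(23,9943),(25,16384),(9,9927)]))) (U0 2 1 (P5 1 1 (F [(25,16384),(12,16319),(23,9930),(9,9895)]) (F [(12,16380),(25,16384),(23,9939),(9,9930)])) (F [(12,256),(25,220)]))) (U2 1 1 (F [(23,256),(25,10),(9,15)]) (U0 2 1 (P5 1 1 (F [(23,9930),(25,16384),(12,16239),(9,9847)]) (F [(23,156),(12,256),(9,155),(25,256)])) (F [(12,256),(23,75),(25,230)]))))))) (F [(23,256),(25,27)])))) (P4 1 2 (F [(9,102),(23,256),(25,44)]) (P0 1 2 (U0 1 1 (U1 2 1 (P3 2 1 (P5 1 1 (U2 1 1 (P4 1 2 (F [(9,8),(23,256),(25,217)]) (U1 1 2 (U2 1 2 (P3 1 1 (F [(23,256),(9,14),(25,35)]) (P0 1 1 (P4 2 1 (P2 1 1 (U1 1 4 (P5 1 1 (U2 1 4 (F [(12,209),(23,256),(25,213)]) (P4 1 2 (F [(23,256),(25,217),(9,8)]) (F [(12,16374),(23,9959),(25,16384),(9,9932)])))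 (F [(12,248),(23,256),(9,90)])) (F [(23,256),(9,192),(12,128)])) (F [(12,256),(23,207)])) (F [(12,256),(9,155)])) (F [(23,256),(25,27)]))) (F [(9,231),(23,256),(12,140)])) (F [(9,231),(23,256),(12,140)]))) (F [(9,256),(23,158)])) (F [(9,142),(23,256),(12,208)])) (U2 1 1 (P4 2 1 (P5 1 2 (F [(25,256),(9,2),(23,193)]) (U1 1 2 (P3 1 1 (U2 1 2 (P1 1 1 (P5 2 1 (P2 1 1 (U1 1 4 (F [(12,16357),(25,16384),(23,9934),(9,9920)]) (P4 1 1 (F [(23,9959),(25,16384),(9,9938),(12,16369)]) (F [(12,16372),(23,9946),(25,16384),(9,9933)]))) (F [(12,256),(23,87)])) (F [(12,256)])) (F [(12,149),(23,165),(25,256)])) (P1 1 1 (P5 2 1 (P2 1 1 (F [(9,9942),(25,16384),(23,9940),(12,16360)]) (F [(9,9934),(23,9948),(12,16375),(25,16384)])) (F [(12,256),(9,127),(25,105)])) (P0 2 1 (P5 1 1 (F [(9,9811),(25,16384),(23,9930),(12,16180)]) (F [(23,9948),(9,9933),(12,16373),(25,16384)])) (F [(23,256),(9,14),(25,35)]))))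 (F [(25,256),(23,77),(12,58)])) (P3 1 1 (F [(9,9947),(23,9970),(25,16384),(12,16373)]) (F [(9,14),(25,256),(23,81)])))) (P0 1 4 (F [(25,256),(12,256),(9,156),(23,150)]) (U1 1 2 (P5 1 1 (F [(25,256),(12,58),(23,77)]) (U2 1 2 (F [(12,256),(23,8)]) (P1 1 1 (F [(12,256),(9,126),(25,110)]) (F [(12,16359),(23,9950),(25,16384),(9,9920)])))) (P5 1 1 (F [(9,14),(25,256),(23,81)]) (F [(9,9934),(23,9958),(12,16375),(25,16384)]))))) (F [(9,256),(25,169)]))) (F [(9,256),(25,169)])) (U2 2 1 (P3 2 1 (P5 1 1 (U1 1 1 (P4 1 2 (F [(9,44),(25,256),(23,254)]) (U2 1 2 (U1 1 2 (P3 1 1 (P1 1 1 (U2 1 4 (F [(23,256),(12,63),(25,87)]) (P5 2 1 (P4 1 1 (F [(23,9949),(25,16384),(9,9919),(12,16344)]) (P0 1 1 (P3 2 1 (P1 1 1 (U0 1 1 (F [(23,189),(9,167),(12,256)]) (F [(23,9954),(9,9941),(25,16384),(12,16376)])) (F [(23,9933),(12,16384),(9,9946),(25,16348)])) (F [(12,256),(9,155)])) (P2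 2 1 (P3 1 1 (F [(23,9951),(9,9926),(25,16384),(12,16354)]) (F [(23,9949),(12,16384),(9,9945),(25,16377)])) (F [(23,256),(9,5)])))) (F [(23,256),(9,192),(12,129)]))) (P0 2 1 (U2 1 4 (F [(23,256),(12,63),(25,87)]) (P4 1 1 (F [(23,9950),(12,16362),(25,16384),(9,9927)]) (P3 1 1 (F [(23,9952),(12,16369),(25,16384),(9,9932)]) (F [(12,256),(9,155)])))) (F [(23,213),(12,127),(25,256)]))) (P0 1 1 (P4 2 1 (P2 1 1 (U2 1 4 (P5 1 1 (U1 1 4 (F [(12,243),(23,256),(25,242)]) (P4 1 2 (F [(25,211),(23,256),(12,39)]) (F [(12,16384),(23,9945),(25,16380),(9,9941)]))) (F [(12,248),(23,256),(9,90)])) (P5 1 1 (P4 1 2 (F [(25,16384),(12,16362),(23,9949),(9,9930)]) (F [(12,16384),(25,16379),(23,9944),(9,9941)])) (F [(12,16384),(23,9943),(25,16373),(9,9940)]))) (F [(12,256),(23,115)])) (F [(12,256)])) (P1 2 1 (P4 1 1 (U2 1 4 (F [(12,63),(23,256),(25,87)]) (P5 1 1 (F [(25,16384),(12,16363),(23,9950),(9,9928)])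 (F [(12,16384),(23,9945),(25,16375),(9,9940)]))) (F [(12,256),(23,115)])) (F [(12,146),(23,221),(25,256)])))) (P3 1 1 (P1 1 1 (U0 1 2 (F [(9,256),(23,133),(25,44)]) (P5 2 1 (P4 1 1 (F [(9,67),(23,106),(25,256)]) (F [(9,9958),(23,9952),(25,16377),(12,16384)])) (F [(9,231),(23,256),(12,140)]))) (P0 2 1 (U0 1 2 (F [(9,118),(23,256),(25,46)]) (P4 1 1 (F [(23,9949),(9,9927),(25,16384),(12,16357)]) (F [(23,636917),(9,636740),(12,1048576),(25,1048096)]))) (F [(23,256),(25,184),(12,44)]))) (P0 1 1 (P4 2 1 (P2 1 1 (U0 1 2 (F [(9,231),(23,256),(12,140)]) (P5 1 1 (F [(9,636017),(25,1048576),(23,635607),(12,1047338)]) (F [(9,9942),(12,16384),(23,9942),(25,16376)]))) (F [(9,9940),(12,16384),(23,9941),(25,16373)])) (F [(12,256),(9,155)])) (P1 2 1 (P4 1 1 (U0 1 2 (F [(9,114),(23,256)]) (P5 1 1 (F [(9,9930),(25,16384),(23,9949),(12,16362)]) (F [(9,9942),(23,9942),(12,16384),(25,16376)])))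 (F [(9,9940),(23,9941),(12,16384),(25,16373)])) (P2 2 1 (P4 1 1 (F [(23,239),(25,256),(12,26)]) (U0 1 2 (F [(9,177),(23,256),(12,103)]) (F [(12,16366),(23,9945),(25,16384),(9,9921)]))) (F [(23,256),(12,77),(25,10)])))))) (P3 1 1 (P1 1 1 (U0 1 1 (U1 2 1 (P5 2 1 (P4 1 1 (F [(9,14),(25,256),(23,81)]) (F [(9,9952),(23,9949),(25,16376),(12,16384)])) (F [(9,231),(23,256),(12,140)])) (F [(9,256),(23,89)])) (U2 2 1 (P5 2 1 (P4 1 1 (F [(25,256),(23,75)]) (F [(9,9951),(25,16376),(23,9949),(12,16384)])) (F [(9,231),(23,256),(12,140)])) (F [(9,256)]))) (P0 2 1 (U0 1 1 (U1 2 1 (P4 1 1 (F [(9,9929),(25,16384),(23,9949),(12,16361)]) (F [(9,9947),(23,9947),(25,16376),(12,16384)])) (F [(9,180),(23,256)])) (U2 2 1 (P4 1 1 (F [(9,9929),(25,16384),(23,9949),(12,16361)]) (F [(9,9944),(23,9945),(25,16375),(12,16384)])) (F [(9,100),(25,256),(12,106)]))) (F [(9,9906),(25,16384),(23,9954),(12,16331)])))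 (P0 1 1 (F [(9,179),(12,256),(25,214)]) (P1 2 1 (P4 1 1 (U0 1 1 (U1 2 1 (P5 1 1 (F [(9,9929),(25,16384),(23,9949),(12,16361)]) (F [(9,9943),(25,16349),(23,9910),(12,16384)])) (F [(9,256),(23,89)])) (U2 2 1 (P5 1 1 (F [(9,9929),(25,16384),(23,9949),(12,16361)]) (F [(9,152),(25,101),(12,256)])) (F [(9,174),(25,161),(12,256)]))) (F [(9,9941),(12,16384),(25,16373),(23,9934)])) (P2 2 1 (P4 1 1 (F [(9,9903),(25,16384),(23,9951),(12,16327)]) (U0 1 1 (U1 2 1 (F [(9,9923),(25,16384),(23,9941),(12,16366)]) (F [(9,231),(23,256),(12,140)])) (F [(25,16384),(9,9926),(12,16368),(23,9925)]))) (U0 1 1 (U1 2 1 (F [(23,9942),(25,16384),(12,16365),(9,9922)]) (F [(9,192),(23,256),(12,128)])) (F [(25,16384),(9,9925),(23,9927),(12,16367)])))))))) (F [(9,219),(25,256),(12,15)])) (U1 1 1 (P1 1 2 (F [(9,217),(12,256),(23,138)]) (U2 1 2 (F [(23,256),(12,242),(9,98)]) (P4 1 1 (P2 1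 1 (F [(9,209),(23,256),(12,157)]) (P0 2 1 (F [(9,9947),(23,9952),(12,16384),(25,16348)]) (F [(23,9962),(9,9940),(12,16384),(25,16378)]))) (P0 1 1 (F [(9,155),(12,256)]) (P2 2 1 (F [(9,155),(12,256)]) (F [(23,9952),(9,9939),(12,16384),(25,16377)])))))) (F [(9,256),(25,225)]))) (U1 1 1 (P4 2 1 (P5 1 2 (F [(25,256),(23,156)]) (U2 1 2 (P3 1 1 (U1 1 2 (P1 1 1 (P5 2 1 (P2 1 1 (F [(12,16350),(25,16384),(23,9915),(9,9914)]) (F [(12,256),(23,87)])) (F [(12,256),(25,3)])) (F [(12,150),(25,256),(23,165)])) (P1 1 1 (P5 2 1 (P2 1 1 (F [(9,9928),(25,16384),(12,16355),(23,9927)]) (F [(12,16384),(9,9939),(25,16384),(23,9941)])) (F [(12,256),(9,151),(25,101)])) (P0 2 1 (P5 1 1 (F [(25,256),(23,115),(12,4)]) (F [(12,16383),(25,16384),(9,9938),(23,9941)])) (P2 2 1 (P5 1 1 (F [(25,256),(23,155)]) (U0 1 2 (F [(9,9935),(23,9963),(25,16384),(12,16371)]) (F [(12,16359),(25,16384),(23,9937),(9,9916)])))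 (F [(23,9995),(25,16384),(12,16356),(9,9903)]))))) (F [(25,256),(12,8),(23,75)])) (P3 1 1 (P1 1 1 (F [(9,179),(25,214),(12,256)]) (P0 2 1 (F [(25,238),(9,182),(12,256)]) (P2 2 1 (P5 1 1 (F [(25,256),(9,29)]) (U0 1 1 (U1 2 1 (F [(25,16384),(9,9916),(12,16358),(23,9933)]) (F [(9,9936),(25,16384),(23,9957),(12,16371)])) (F [(25,256),(9,111),(12,200)]))) (U0 1 1 (U1 2 1 (F [(25,16384),(23,9935),(12,16359),(9,9915)]) (F [(9,9936),(23,9957),(25,16384),(12,16371)])) (F [(25,16384),(12,16350),(9,9909),(23,9914)]))))) (F [(25,256),(9,14),(23,81)])))) (P0 1 4 (F [(25,235),(12,256),(9,146)]) (U2 1 2 (P5 1 1 (F [(25,256),(12,8),(23,75)]) (U1 1 2 (F [(12,256),(23,8)]) (P1 1 1 (F [(12,256),(25,124),(9,150)]) (F [(12,16363),(25,16384),(23,9946),(9,9919)])))) (P5 1 1 (F [(25,256),(9,14),(23,81)]) (P1 1 1 (F [(12,256),(25,141),(9,171)]) (F [(25,16384),(12,16355),(9,9914),(23,9939)]))))))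 (F [(9,219),(25,256),(12,15)]))) (F [(9,256),(25,225)]))) (F [(9,84),(23,256),(25,111)])))

def c76 : Cell := ⟨⟨101,0,155⟩, ⟨100,1,155⟩, ⟨25,0,39⟩, ⟨535,991,1126,1444⟩, ⟨534,990,1128,1444⟩, ⟨1067,1981,2254,2890⟩, ⟨1067,1983,2254,2888⟩⟩

def t76 : Tr :=
  U2 1 4 (U1 1 4 (F [(12,256),(23,87)]) (P0 1 1 (P4 2 1 (F [(23,256),(12,79)]) (U0 1 2 (F [(23,9965),(9,9939),(12,16384),(25,16375)]) (P3 2 1 (F [(23,256),(12,241),(9,98)]) (P0 1 2 (P4 4 1 (F [(12,67),(23,256),(25,63)]) (F [(12,256),(23,155),(25,256),(9,155)])) (F [(12,247),(23,256),(9,90)]))))) (F [(23,256),(12,79)]))) (P0 1 1 (P4 2 1 (U0 1 1 (F [(23,256),(9,16)]) (U2 2 1 (U1 1 1 (P2 1 1 (F [(23,256),(9,84),(25,111)]) (P1 1 1 (P5 2 1 (F [(23,256),(12,209),(25,213)]) (P3 1 2 (F [(12,256),(9,155)]) (F [(12,16384),(23,9959),(9,9928),(25,16364)]))) (F [(12,243),(23,256),(25,242)]))) (P2 1 1 (F [(9,180),(23,256),(25,195)])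 (P1 1 1 (P5 2 1 (F [(23,256),(12,63),(25,87)]) (P3 1 2 (F [(9,256),(12,174)]) (F [(9,9927),(23,10010),(12,16384),(25,16371)]))) (F [(23,256),(12,63),(25,87)])))) (P2 1 1 (F [(9,180),(23,256),(25,195)]) (P1 1 1 (P5 2 1 (F [(9,9937),(23,9953),(12,16384),(25,16364)]) (P3 1 2 (F [(9,256),(12,174)]) (F [(9,9937),(23,9951),(12,16384),(25,16364)]))) (P0 2 1 (F [(9,9937),(23,9953),(12,16384),(25,16364)]) (F [(9,171),(12,256),(23,37)])))))) (U0 1 1 (U1 2 1 (P3 2 1 (F [(9,142),(23,256),(12,208)]) (U2 1 1 (P0 1 2 (P4 4 1 (U1 1 2 (U2 1 2 (F [(12,256),(23,87)]) (F [(12,16384),(23,9957),(25,16380),(9,9929)])) (F [(12,16377),(23,9958),(9,9933),(25,16384)])) (F [(12,256),(25,256),(23,155),(9,155)])) (F [(12,248),(23,256),(9,90)])) (P0 1 2 (P4 4 1 (F [(9,9935),(23,9956),(25,16384),(12,16374)]) (F [(9,256),(25,125),(12,253)])) (F [(9,167),(23,189),(12,256)])))) (F [(9,256),(12,189),(25,24)]))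 (U2 2 1 (P3 2 1 (U1 1 1 (P1 1 1 (P5 2 1 (U2 1 2 (F [(12,242),(23,256),(9,98)]) (P2 1 1 (P4 1 1 (F [(12,16384),(23,9952),(9,9939),(25,16377)]) (F [(12,256),(9,155)])) (F [(12,256),(23,37),(9,105)]))) (F [(12,256),(9,155)])) (P0 2 1 (U2 1 2 (F [(12,242),(23,256),(9,98)]) (P5 1 1 (P4 1 1 (P2 1 2 (F [(12,16384),(23,9952),(25,16376),(9,9939)]) (F [(12,256),(9,155)])) (F [(12,256),(9,155)])) (F [(12,256),(23,49),(9,88)]))) (F [(12,243),(23,256),(25,242)]))) (P1 1 1 (P5 2 1 (U0 1 2 (F [(9,256),(23,158)]) (P2 1 1 (F [(9,9971),(23,9939),(12,16384),(25,16384)]) (F [(9,155),(12,256)]))) (F [(9,256),(12,221)])) (P0 2 1 (U0 1 2 (F [(9,231),(23,256),(12,140)]) (P5 1 1 (P4 1 1 (P2 1 2 (F [(9,9949),(23,9950),(12,16384),(25,16374)]) (F [(9,155),(12,256)])) (F [(9,155),(12,256)])) (F [(12,256),(9,155)]))) (P2 2 1 (U0 1 2 (F [(9,192),(23,256),(12,128)]) (P5 1 1 (P4 1 2 (F [(23,9959),(9,9937),(12,16384),(25,16375)])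 (F [(12,256),(9,155)])) (F [(12,242),(23,256),(9,99)]))) (F [(12,242),(23,256),(9,99)]))))) (U1 1 1 (P0 1 2 (P4 4 1 (U2 1 2 (U1 1 2 (F [(12,256),(23,87)]) (P2 1 1 (P5 1 1 (F [(12,16362),(25,16384),(23,9949),(9,9915)]) (F [(12,256),(25,108),(9,131)])) (F [(12,256),(25,138),(9,47)]))) (P2 1 1 (P5 1 1 (F [(12,1047115),(25,1048576),(23,636280),(9,634813)]) (F [(12,256),(25,108),(9,131)])) (F [(12,256),(25,138),(9,47)]))) (F [(12,256),(25,226),(9,147)])) (P1 2 1 (U2 1 2 (F [(12,248),(23,256),(9,90)]) (P4 1 1 (P5 1 1 (P2 1 2 (F [(12,1047646),(23,636550),(25,1048576),(9,635140)]) (F [(12,256),(9,107)])) (F [(12,256),(9,107)])) (F [(12,256)]))) (F [(12,233),(23,256),(25,249)]))) (P0 1 2 (P4 4 1 (U0 1 2 (F [(9,9937),(25,16384),(23,9953),(12,16375)]) (P2 1 1 (P5 1 1 (F [(9,9915),(25,16384),(12,16332),(23,9925)]) (F [(9,131),(25,108),(12,256)])) (F [(12,256),(9,125),(25,110)])))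 (F [(9,159),(25,236),(12,256)])) (P1 2 1 (U0 1 2 (F [(9,217),(12,256),(23,138)]) (P4 1 1 (P5 1 1 (P2 1 2 (F [(9,9927),(25,16384),(23,9942),(12,16364)]) (F [(12,256),(9,155)])) (F [(9,155),(12,256)])) (F [(12,256),(9,155)]))) (P2 2 1 (U0 1 2 (F [(9,217),(23,138),(12,256)]) (P4 1 1 (P5 1 2 (F [(23,9950),(12,16365),(9,9919),(25,16384)]) (F [(12,256),(9,155)])) (F [(12,256),(9,155)]))) (F [(12,256),(23,44),(9,147)])))))) (P3 2 1 (P1 1 1 (P5 2 1 (F [(9,9941),(23,9933),(25,16362),(12,16384)]) (F [(9,256),(12,221)])) (P0 2 1 (F [(9,9941),(12,16384),(25,16362),(23,9933)]) (P2 2 1 (F [(9,9939),(12,16384),(23,9940),(25,16363)]) (F [(9,155),(12,256)])))) (P0 1 2 (F [(9,96),(25,256),(12,109)]) (P1 2 1 (F [(9,159),(25,256),(12,214)]) (P2 2 1 (F [(9,9945),(25,16367),(12,16384),(23,9912)]) (F [(12,256),(9,155)])))))))) (F [(23,139),(9,217),(12,256)]))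

def c77 : Cell := ⟨⟨101,0,155⟩, ⟨100,1,155⟩, ⟨25,0,39⟩, ⟨535,991,1126,1444⟩, ⟨534,990,1128,1444⟩, ⟨535,989,1126,1446⟩, ⟨1067,1981,2254,2890⟩⟩

def t77 : Tr :=
  F [(12,256),(9,151),(25,100)]

def c78 : Cell := ⟨⟨101,0,155⟩, ⟨100,1,155⟩, ⟨25,0,39⟩, ⟨535,991,1126,1444⟩, ⟨268,494,564,722⟩, ⟨535,989,1126,1446⟩, ⟨534,990,1128,1444⟩⟩

def t78 : Tr :=
  F [(12,256),(9,151),(25,100)]

def c79 : Cell := ⟨⟨101,0,155⟩, ⟨50,1,77⟩, ⟨100,1,155⟩, ⟨535,991,1126,1444⟩, ⟨268,494,564,722⟩, ⟨535,989,1126,1446⟩, ⟨266,496,564,722⟩⟩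

def t79 : Tr :=
  F [(9,256),(12,189),(25,25)]

def c80 : Cell := ⟨⟨51,0,77⟩, ⟨50,1,77⟩, ⟨101,0,155⟩, ⟨535,991,1126,1444⟩, ⟨268,494,564,722⟩, ⟨535,989,1126,1446⟩, ⟨266,496,564,722⟩⟩

def t80 : Tr :=
  F [(9,256),(25,25),(12,189)]

def c81 : Cell := ⟨⟨51,0,77⟩, ⟨50,1,77⟩, ⟨25,0,39⟩, ⟨269,495,562,722⟩, ⟨268,494,564,722⟩, ⟨535,989,1126,1446⟩, ⟨535,991,1126,1444⟩⟩

def t81 : Tr :=
  F [(12,256),(9,155)]

def c82 : Cell := ⟨⟨51,0,77⟩, ⟨50,1,77⟩, ⟨25,0,39⟩, ⟨269,495,562,722⟩, ⟨135,247,282,360⟩, ⟨268,494,564,722⟩, ⟨133,249,282,360⟩⟩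

def t82 : Tr :=
  P4 1 1 (P2 1 2 (P5 1 2 (F [(23,256),(25,248),(9,45)]) (U2 1 2 (U1 1 2 (F [(23,133),(25,256),(12,202)]) (P1 1 2 (P3 1 1 (P5 2 1 (F [(25,16384),(9,9631),(23,9914),(12,15983)]) (F [(25,16339),(9,9880),(12,16384),(23,9831)])) (F [(25,16384),(23,9914),(9,9631),(12,15983)])) (F [(23,9987),(25,16384),(9,9629),(12,16003)]))) (P1 1 2 (F [(25,256),(9,147),(12,197)]) (U0 1 1 (P3 4 1 (U1 2 1 (F [(25,16384),(23,9914),(9,9669),(12,16047)]) (F [(9,256),(23,28),(25,231)])) (F [(25,256),(23,158)])) (F [(25,256),(23,41),(12,12)]))))) (U2 1 2 (P0 1 1 (U1 1 2 (F [(12,256),(23,140),(25,119)]) (P5 2 1 (F [(23,10066),(25,16384),(12,16167),(9,9713)]) (P3 1 1 (F [(12,16384),(25,16304),(9,9861),(23,9835)]) (F [(25,16384),(23,9975),(12,16134),(9,9710)])))) (F [(12,256),(23,120),(9,133)])) (P0 1 1 (P5 2 1 (U0 1 1 (P3 4 1 (U1 2 1 (F [(23,9991),(25,16384),(9,9792),(12,16244)])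 (F [(9,118),(23,256),(25,47)])) (F [(23,256),(25,89),(9,12)])) (P3 4 1 (U2 2 1 (F [(23,9947),(25,16384),(12,16175),(9,9740)]) (F [(9,152),(25,256),(23,155),(12,252)])) (F [(25,256),(23,155),(9,150),(12,250)]))) (P3 1 1 (F [(25,254),(9,154),(12,256),(23,153)]) (U0 1 1 (P4 4 1 (F [(9,9783),(25,16384),(23,9958),(12,16240)]) (F [(25,16384),(23,9939),(9,9642),(12,16077)])) (F [(25,16384),(9,9703),(12,16205),(23,9687)])))) (P5 2 1 (P2 2 1 (U0 1 1 (U1 2 1 (F [(23,10007),(12,16284),(9,9817),(25,16384)]) (F [(9,136),(23,256)])) (U2 2 1 (U1 1 1 (F [(23,9958),(12,16275),(25,16384),(9,9772)]) (F [(23,9967),(9,9870),(12,16311),(25,16384)])) (F [(9,9870),(23,9967),(25,16384),(12,16311)]))) (F [(12,256),(9,154)])) (F [(12,256),(9,154)]))))) (U2 1 2 (P0 1 2 (U1 1 2 (F [(12,181),(25,256)]) (P5 1 1 (P4 2 1 (P2 1 2 (F [(25,256),(23,155)]) (F [(12,251),(25,256),(23,149),(9,148)]))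 (F [(12,256),(25,249),(9,145)])) (F [(12,256),(25,249),(9,145)]))) (P2 1 1 (U1 1 2 (F [(12,256),(23,76),(25,231)]) (P5 1 1 (P4 1 2 (F [(25,256),(23,238),(12,26)]) (F [(12,16384),(23,9821),(25,16372),(9,9820)])) (F [(12,16384),(25,16372),(23,9821),(9,9820)]))) (F [(12,256),(23,74),(9,140)]))) (P0 1 2 (P5 1 1 (P4 2 1 (P2 1 2 (F [(25,256),(23,155)]) (F [(12,251),(25,256),(23,150),(9,149)])) (F [(12,256),(25,238),(9,158)])) (F [(12,256),(25,219),(9,176)])) (P2 1 1 (P5 1 1 (P4 1 2 (F [(25,16384),(12,16077),(23,9929),(9,9643)]) (F [(12,16384),(25,16289),(23,9749),(9,9847)])) (F [(12,256),(25,254),(9,154),(23,152)])) (F [(12,256),(9,153)]))))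

def c83 : Cell := ⟨⟨51,0,77⟩, ⟨25,1,38⟩, ⟨50,1,77⟩, ⟨269,495,562,722⟩, ⟨135,247,282,360⟩, ⟨133,247,282,362⟩, ⟨133,249,282,360⟩⟩

def t83 : Tr :=
  P3 1 1 (F [(9,256),(12,75)]) (P4 1 1 (F [(9,256),(25,179),(12,177)]) (U0 1 2 (P0 1 2 (F [(9,9740),(25,16384),(23,9894),(12,16108)]) (F [(9,228),(23,256),(12,137)])) (P0 1 2 (F [(25,256),(9,177),(12,252),(23,130)]) (F [(9,256),(12,190),(25,179)]))))

theorem g6 : ∀ c ∈ [c72, c73, c74, c75, c76, c77, c78, c79, c80, c81, c82, c83], Done D c := by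
  intro c hc
  simp only [List.mem_cons, List.not_mem_nil, or_false] at hc
  rcases hc with rfl | rfl | rfl | rfl | rfl | rfl | rfl | rfl | rfl | rfl | rfl | rfl
  · exact done_of_chk (t := t72) (by decide +kernel)
  · exact done_of_chk (t := t73) (by decide +kernel)
  · exact done_of_chk (t := t74) (by decide +kernel)
  · exact done_of_chk (t := t75) (by decide +kernel)
  · exact done_of_chk (t := t76) (by decide +kernel)
  · exact done_of_chk (t := t77) (by decide +kernel)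
  · exact done_of_chk (t := t78) (by decide +kernel)
  · exact done_of_chk (t := t79) (by decide +kernel)
  · exact done_of_chk (t := t80) (by decide +kernel)
  · exact done_of_chk (t := t81) (by decide +kernel)
  · exact done_of_chk (t := t82) (by decide +kernel)
  · exact done_of_chk (t := t83) (by decide +kernel)

end Pool.Agent.W2helper59.NW.E1
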