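import Pool.Agent.W2helper59.NW.D_E1

set_option autoImplicit false
set_option maxRecDepth 1000000

namespace Pool.Agent.W2helper59.NW.E1

open Tr

def c84 : Cell := ⟨⟨13,0,19⟩, ⟨25,1,38⟩, ⟨51,0,77⟩, ⟨269,495,562,722⟩, ⟨135,247,282,360⟩, ⟨133,247,282,362⟩, ⟨133,249,282,360⟩⟩

def t84 : Tr :=
  F [(9,256),(25,212),(12,212)]

def c85 : Cell := ⟨⟨13,0,19⟩, ⟨12,1,19⟩, ⟨25,0,39⟩, ⟨68,124,140,180⟩, ⟨135,247,282,360⟩, ⟨269,495,562,722⟩, ⟨133,249,282,360⟩⟩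

def t85 : Tr :=
  P2 2 1 (U0 1 1 (U1 2 1 (U2 1 1 (P4 1 1 (F [(23,256),(9,14),(25,35)]) (P0 1 2 (U1 1 2 (P3 2 1 (F [(12,70),(23,256)]) (F [(12,208),(23,256),(25,215)])) (P3 2 1 (F [(23,256),(12,70)]) (F [(23,256),(12,208),(25,215)]))) (F [(23,256),(25,28)]))) (P4 1 1 (F [(9,256),(23,135),(25,46)]) (P0 1 2 (U0 2 1 (P3 2 1 (F [(23,256),(12,70)]) (P4 2 1 (F [(9,153),(23,158),(25,256),(12,253)]) (F [(9,152),(23,155),(12,253),(25,256)]))) (P3 2 1 (F [(9,70),(23,256),(12,90)]) (F [(9,9791),(25,16384),(23,9845),(12,16107)]))) (F [(9,15),(23,256),(25,11)])))) (F [(9,158),(23,166),(25,256),(12,256)])) (U2 2 1 (U1 1 1 (P4 1 1 (P5 1 2 (F [(23,256),(25,244),(9,40)]) (U2 1 2 (F [(23,256),(12,62),(25,86)]) (P3 1 1 (F [(23,156),(12,256),(9,155),(25,251)]) (F [(23,10040),(25,16384),(12,16163),(9,9740)])))) (P0 1 2 (U2 1 2 (P3 2 1 (F [(12,78),(23,256),(25,13)])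 (F [(12,208),(25,215),(23,256)])) (P3 2 1 (P5 1 1 (P4 1 2 (F [(25,16384),(12,16076),(23,9936),(9,9642)]) (F [(12,256),(25,254),(23,154),(9,153)])) (F [(12,256),(23,37),(9,103)])) (P4 2 1 (P5 1 2 (F [(25,256),(12,20),(23,163)]) (F [(12,252),(25,256),(23,152),(9,149)])) (F [(12,256),(25,231),(23,75)])))) (U2 1 2 (F [(23,256),(12,62),(25,86)]) (P5 1 1 (F [(23,156),(12,251),(25,256),(9,150)]) (F [(12,256),(23,50),(9,86)]))))) (P4 1 1 (P5 1 2 (F [(9,40),(23,256),(25,244)]) (U0 1 2 (F [(9,256),(23,135),(25,46)]) (P3 1 1 (F [(9,157),(23,155),(12,256),(25,251)]) (F [(9,153),(23,156),(25,256),(12,252)])))) (P0 1 2 (U0 1 2 (P3 2 1 (F [(9,188),(23,256),(12,125)]) (F [(9,9733),(25,16384),(23,9902),(12,16108)])) (P3 2 1 (P5 1 1 (P4 1 2 (F [(9,9698),(25,16384),(23,9894),(12,16075)]) (F [(9,154),(12,256),(25,255),(23,153)])) (F [(9,153),(12,256),(23,152),(25,251)]))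 (P4 2 1 (P5 1 2 (F [(25,256),(23,155)]) (F [(25,256),(12,252),(9,149),(23,151)])) (F [(25,256),(12,254),(9,150),(23,153)])))) (U0 1 2 (F [(9,112),(23,256)]) (P5 1 1 (F [(23,9968),(9,9627),(25,16384),(12,16061)]) (F [(23,156),(9,153),(12,256),(25,254)])))))) (P4 1 1 (P5 1 2 (F [(9,45),(25,245),(23,256)]) (U0 2 1 (U1 2 1 (P3 1 1 (F [(9,156),(23,155),(25,254),(12,256)]) (F [(9,151),(25,256),(23,154),(12,250)])) (F [(9,256),(23,89)])) (U2 4 1 (P3 1 1 (F [(9,156),(23,155),(25,254),(12,256)]) (F [(9,143),(25,256),(23,149),(12,239)])) (F [(9,256),(23,88)])))) (P0 1 2 (F [(9,181),(25,256),(12,256)]) (U0 2 1 (U1 2 1 (P5 1 1 (F [(9,152),(25,256),(23,155),(12,252)]) (F [(9,9821),(23,9931),(25,16250),(12,16384)])) (F [(9,256)])) (U2 4 1 (P5 1 1 (F [(9,151),(25,256),(23,153),(12,251)]) (F [(9,9822),(25,16242),(23,9866),(12,16384)])) (F [(9,256),(25,169)])))))))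 (U0 1 1 (U1 2 1 (U2 1 1 (F [(12,256),(23,88)]) (P0 2 1 (P4 2 1 (F [(23,256),(9,16)]) (F [(9,153),(23,155),(12,256),(25,255)])) (F [(23,202),(12,256),(9,163)]))) (F [(9,169),(23,40),(12,256)])) (U2 2 1 (U1 1 1 (F [(12,256),(23,87)]) (P0 2 1 (P4 2 1 (F [(23,159),(9,152),(12,256),(25,253)]) (F [(12,256),(9,153),(23,152),(25,254)])) (F [(23,256),(12,249),(9,99)]))) (P0 2 1 (P4 2 1 (F [(9,629028),(23,636200),(12,1048576),(25,1036393)]) (F [(9,176),(12,256),(25,212)])) (F [(9,214),(23,139),(12,256)]))))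

def c86 : Cell := ⟨⟨13,0,19⟩, ⟨12,1,19⟩, ⟨3,0,5⟩, ⟨35,61,70,90⟩, ⟨67,123,142,180⟩, ⟨133,247,282,362⟩, ⟨68,124,140,180⟩⟩

def t86 : Tr :=
  P1 4 1 (U2 1 4 (U1 1 4 (F [(12,256),(25,108),(9,129)]) (P4 1 1 (F [(12,256),(9,151)]) (F [(12,16384),(9,9843),(25,15503),(23,8899)]))) (F [(9,160),(12,256),(25,101)])) (P0 2 1 (U2 1 4 (U1 1 4 (F [(12,256),(25,154)]) (P4 1 1 (F [(12,256),(9,151)]) (F [(12,256),(25,252),(23,143),(9,151)]))) (F [(12,256),(25,101),(9,160)])) (F [(12,256),(23,79),(9,34)]))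

def c87 : Cell := ⟨⟨13,0,19⟩, ⟨12,1,19⟩, ⟨3,0,5⟩, ⟨35,61,70,90⟩, ⟨67,123,142,180⟩, ⟨67,121,142,182⟩, ⟨133,247,282,362⟩⟩

def t87 : Tr :=
  F [(12,256),(25,128),(9,151)]

def c88 : Cell := ⟨⟨13,0,19⟩, ⟨6,1,9⟩, ⟨12,1,19⟩, ⟨35,61,70,90⟩, ⟨67,123,142,180⟩, ⟨67,121,142,182⟩, ⟨33,63,70,90⟩⟩

def t88 : Tr :=
  F [(9,256),(25,14),(12,189)]

def c89 : Cell := ⟨⟨7,0,9⟩, ⟨6,1,9⟩, ⟨13,0,19⟩, ⟨35,61,70,90⟩, ⟨67,123,142,180⟩, ⟨67,121,142,182⟩, ⟨33,63,70,90⟩⟩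

def t89 : Tr :=
  F [(9,256),(25,14),(12,189)]

def c90 : Cell := ⟨⟨7,0,9⟩, ⟨6,1,9⟩, ⟨3,0,5⟩, ⟨35,61,70,90⟩, ⟨16,32,36,44⟩, ⟨32,62,72,90⟩, ⟨33,63,70,90⟩⟩

def t90 : Tr :=
  P0 1 2 (F [(25,246),(9,45),(23,256)]) (P1 1 1 (F [(25,256),(23,124),(12,1)]) (U2 1 2 (U1 1 2 (P2 1 1 (P5 1 2 (F [(23,256),(25,49),(12,14)]) (U2 1 4 (P0 1 1 (F [(25,256),(23,119),(12,2)]) (U1 1 4 (F [(23,168),(12,145),(25,256)]) (P1 1 1 (F [(25,16384),(23,10207),(9,8407),(12,14392)]) (F [(23,256),(12,226),(9,86)])))) (P0 1 1 (F [(25,256),(9,11),(23,110)]) (P1 1 1 (F [(25,256),(9,128),(23,151),(12,217)]) (P2 2 1 (U0 1 1 (U1 2 1 (F [(23,9938),(25,16384),(9,8927),(12,15060)]) (F [(9,150),(23,162),(25,256),(12,246)])) (F [(25,256),(23,116),(12,4)])) (U0 1 1 (U1 2 1 (P0 2 1 (F [(23,9938),(25,16384),(12,15060),(9,8927)]) (U2 1 1 (F [(23,88),(12,256)]) (P1 2 1 (F [(23,10035),(12,15939),(9,9497),(25,16384)])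 (F [(23,256),(12,202),(9,135)])))) (F [(23,162),(9,150),(25,256),(12,246)])) (U2 2 1 (P0 2 1 (F [(23,116),(25,256),(12,4)]) (U1 1 1 (F [(12,256),(23,87)]) (P1 2 1 (P3 1 2 (P5 2 1 (F [(23,160),(12,256),(9,152),(25,256)]) (F [(12,16384),(25,16367),(23,9811),(9,9759)])) (F [(23,256),(12,63),(25,87)])) (F [(23,256),(12,236),(9,92)])))) (P0 2 1 (F [(25,256),(23,109),(9,9)]) (P1 2 1 (P3 1 2 (P5 2 1 (U0 2 1 (F [(9,9758),(23,10127),(25,16367),(12,16384)]) (F [(25,16350),(9,9770),(12,16384),(23,9985)])) (F [(25,253),(9,155),(12,256),(23,135)])) (U0 2 1 (F [(23,10198),(9,9729),(25,16374),(12,16384)]) (F [(25,16353),(12,16384),(23,10011),(9,9762)]))) (F [(23,9995),(12,16384),(9,9756),(25,15954)])))))))))) (P0 2 1 (U2 1 4 (P4 1 1 (U1 1 4 (F [(12,256),(23,81),(25,236)]) (P5 1 1 (F [(23,256),(12,168),(9,52)]) (F [(25,256),(12,235),(23,156),(9,138)]))) (F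 [(25,256),(12,14)])) (P4 1 1 (P5 1 1 (U0 1 1 (U1 2 1 (P4 1 2 (P2 1 2 (F [(12,255),(23,156),(25,256),(9,150)]) (F [(12,235),(23,150),(25,256),(9,137)])) (F [(25,256),(23,151),(12,229),(9,136)])) (P4 1 2 (F [(23,10014),(12,15998),(9,9469),(25,16384)]) (F [(23,154),(25,256),(9,142),(12,237)]))) (U2 2 1 (P4 1 2 (P2 1 2 (F [(12,16285),(23,9953),(25,16384),(9,9574)]) (F [(12,232),(25,256),(23,147),(9,134)])) (F [(25,256),(12,8),(23,75)])) (P4 1 2 (P2 1 2 (P5 1 2 (F [(12,256),(23,156),(25,247),(9,150)]) (P3 1 2 (F [(12,253),(25,256),(9,149),(23,152)]) (F [(12,256),(25,256),(23,156),(9,151)]))) (F [(12,234),(25,256),(23,149),(9,137)])) (F [(25,256),(23,81),(9,13)])))) (F [(25,256),(12,231),(9,137),(23,151)])) (F [(25,256)]))) (P1 2 1 (U2 1 4 (U1 1 4 (F [(12,256),(25,154)]) (P5 1 1 (F [(12,256),(23,150),(25,253),(9,149)]) (F [(12,16290),(25,16384),(23,9443),(9,9539)])))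 (P5 1 1 (F [(12,16384),(25,16016),(23,9451),(9,9537)]) (F [(25,256),(12,174),(9,119),(23,64)]))) (F [(12,256),(23,145),(25,124)])))) (P2 1 1 (P5 1 2 (F [(23,256),(25,49),(12,14)]) (U0 1 2 (F [(9,256),(25,59),(23,149)]) (P0 1 1 (F [(9,76),(25,256),(23,106)]) (P1 1 1 (F [(9,204),(25,256)]) (P2 2 1 (F [(9,256),(25,231)]) (U2 1 1 (F [(9,256),(23,140),(25,51)]) (U0 2 1 (F [(9,256),(23,140),(25,51)]) (P0 2 1 (F [(9,72),(25,256),(23,105)]) (F [(9,159),(23,154),(25,256),(12,256)]))))))))) (P0 2 1 (U0 1 2 (F [(9,48),(25,248),(23,256)]) (P4 1 1 (P5 1 1 (U2 1 1 (U1 1 2 (P4 1 2 (F [(9,148),(23,156),(25,256),(12,249)]) (F [(9,50),(23,112),(25,256)])) (F [(9,9332),(25,16384),(23,10146),(12,15618)])) (U0 2 1 (P4 1 2 (F [(9,150),(25,256),(23,155),(12,252)]) (F [(9,50),(25,256),(23,99)])) (P4 1 2 (P2 1 2 (P5 1 2 (F [(9,151),(23,156),(12,256),(25,254)]) (F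 [(9,9571),(25,16384),(12,16031),(23,9803)])) (F [(25,256),(9,140),(12,238),(23,150)])) (F [(25,256),(9,50),(23,99)])))) (F [(9,50),(25,256),(23,112)])) (F [(25,256)]))) (P1 2 1 (F [(9,9797),(25,15618),(23,8890),(12,16384)]) (F [(9,149),(12,256),(25,242),(23,141)]))))) (P2 1 1 (P5 1 2 (U0 1 1 (F [(9,15),(23,256),(25,38)]) (U2 2 1 (P4 1 2 (F [(9,220),(23,256),(12,130)]) (P0 1 1 (F [(9,55),(25,256)]) (U1 1 1 (P2 2 1 (F [(9,41),(25,250),(23,256)]) (P1 2 1 (F [(9,256),(25,235),(23,28)]) (U2 1 2 (P0 2 1 (F [(9,55),(25,256)]) (F [(9,155),(25,256),(23,166),(12,255)])) (F [(9,256),(25,32)])))) (F [(9,256),(25,33)])))) (F [(9,256),(25,35)]))) (U0 1 1 (U1 2 1 (P0 1 1 (F [(9,55),(25,256)]) (U2 1 1 (P1 1 1 (F [(9,28),(25,256)]) (P2 2 1 (F [(9,256),(25,231)]) (U1 1 2 (P0 2 1 (F [(9,55),(25,256)]) (F [(9,154),(25,255),(23,152),(12,256)])) (F [(9,256)]))))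 (F [(9,256)]))) (F [(9,256),(25,38)])) (U2 2 1 (P0 1 1 (F [(9,55),(25,256)]) (U1 1 1 (P1 1 1 (F [(25,256)]) (P2 2 1 (F [(9,256),(25,231)]) (U2 1 2 (P0 2 1 (F [(9,55),(25,256)]) (F [(9,153),(25,255),(23,152),(12,256)])) (F [(9,256),(25,32)])))) (F [(9,256),(25,33)]))) (F [(9,256),(25,35)])))) (P0 2 1 (U0 1 1 (U1 2 1 (P4 1 1 (U2 1 1 (P5 1 1 (U1 1 2 (P4 1 2 (F [(9,155),(25,254),(12,256),(23,144)]) (F [(9,29),(25,256)])) (F [(9,256),(25,211)])) (F [(9,28),(25,256)])) (F [(9,256),(25,211)])) (F [(9,28),(25,256)])) (F [(9,256)])) (U2 2 1 (P4 1 1 (U1 1 1 (P5 1 1 (U2 1 2 (P4 1 2 (F [(9,151),(25,254),(12,256),(23,147)]) (F [(25,256)])) (F [(9,256),(25,212)])) (F [(25,256)])) (F [(9,256),(25,212)])) (F [(25,256)])) (F [(9,256),(25,212)]))) (F [(9,165),(25,143),(12,256)])))))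

def c91 : Cell := ⟨⟨7,0,9⟩, ⟨3,1,4⟩, ⟨6,1,9⟩, ⟨35,61,70,90⟩, ⟨16,32,36,44⟩, ⟨16,30,36,46⟩, ⟨33,63,70,90⟩⟩

def t91 : Tr :=
  F [(9,256),(12,55)]

def c92 : Cell := ⟨⟨7,0,9⟩, ⟨3,1,4⟩, ⟨3,0,5⟩, ⟨9,15,18,22⟩, ⟨16,32,36,44⟩, ⟨16,30,36,46⟩, ⟨35,61,70,90⟩⟩

def t92 : Tr :=
  U1 1 1 (P0 2 1 (P3 1 1 (F [(9,103),(25,256),(12,207)]) (P4 2 1 (P5 1 1 (U2 1 2 (P2 1 1 (U1 1 2 (F [(25,256),(12,161),(9,2)]) (P4 1 2 (F [(9,107),(25,256),(12,199)]) (F [(25,256)]))) (F [(25,256),(12,13)])) (F [(25,256),(9,169),(12,219)])) (F [(25,256),(12,13)])) (F [(25,256)]))) (F [(25,256),(9,125),(12,248)])) (F [(9,256),(25,238),(12,176)])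

def c93 : Cell := ⟨⟨1,0,1⟩, ⟨3,1,4⟩, ⟨7,0,9⟩, ⟨9,15,18,22⟩, ⟨16,32,36,44⟩, ⟨16,30,36,46⟩, ⟨17,31,34,46⟩⟩

def t93 : Tr :=
  F [(9,256),(25,216),(12,200)]

def c94 : Cell := ⟨⟨1,0,1⟩, ⟨0,1,1⟩, ⟨1,0,3⟩, ⟨9,15,18,22⟩, ⟨7,17,18,22⟩, ⟨3,7,10,12⟩, ⟨7,15,18,24⟩⟩

def t94 : Tr :=
  P1 1 2 (P3 1 2 (F [(9,256),(25,183),(12,192)]) (U0 1 1 (U1 2 1 (U2 1 1 (P0 1 2 (F [(9,96),(23,256),(25,61)]) (P4 1 4 (F [(9,213),(25,256),(23,123),(12,220)]) (F [(9,2),(25,256),(23,164)]))) (F [(9,256),(23,21)])) (F [(9,256),(23,34)])) (U2 2 1 (U1 1 1 (P0 1 2 (F [(9,128),(23,256),(25,90)]) (P4 1 4 (F [(9,208),(25,256),(23,128),(12,230)]) (F [(25,256),(9,1),(23,140)]))) (F [(9,191),(7,256),(25,56)])) (F [(9,152),(7,256),(25,64)])))) (U0 1 1 (U1 2 1 (U2 1 1 (P3 2 1 (P2 1 1 (P4 1 4 (U1 1 2 (P5 1 2 (F [(9,206),(23,102),(25,6),(12,256)]) (F [(9,130),(25,256),(23,177),(12,190)]))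 (F [(9,256),(23,94)])) (F [(9,91),(23,178),(25,256),(12,142)])) (P1 2 1 (F [(25,256),(9,91),(23,178),(12,142)]) (F [(23,206),(25,256),(12,154),(9,91)]))) (F [(23,256),(25,92)])) (F [(9,41),(23,256),(25,253)])) (F [(9,116),(23,256)])) (U2 2 1 (U1 1 1 (P3 2 1 (P2 1 1 (P4 1 4 (U2 1 2 (P5 1 2 (U1 1 2 (F [(9,178),(23,154),(12,256),(25,216)]) (F [(9,201),(23,104),(25,162),(12,256)])) (U1 1 2 (F [(25,16384),(12,13524),(9,8530),(23,10018)]) (F [(9,12821),(25,12855),(23,6800),(12,16384)]))) (F [(9,226),(25,161),(12,256)])) (U2 1 2 (U1 1 2 (F [(25,256),(23,180),(12,86)]) (P3 1 2 (P5 4 1 (P2 4 1 (F [(9,208),(25,256)]) (F [(9,162),(25,256),(23,112),(12,233)])) (F [(25,256),(9,124),(12,201),(23,119)])) (P0 2 1 (F [(9,53),(25,256),(23,121)]) (P2 4 1 (F [(9,208),(25,256)]) (F [(9,131),(25,256),(23,112),(12,194)]))))) (F [(9,127),(25,256),(12,147)]))) (P1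 2 1 (U2 1 2 (U1 1 2 (F [(25,256),(12,148),(23,152)]) (P3 1 2 (F [(25,256),(9,124),(12,201),(23,119)]) (P0 1 1 (P4 1 2 (F [(25,256),(9,108),(23,119),(12,174)]) (F [(25,256),(9,3),(23,156)])) (F [(25,256),(9,124),(12,201),(23,119)])))) (F [(25,256),(9,113),(12,137)])) (P0 4 1 (U2 1 2 (U1 1 2 (F [(25,256),(12,153),(23,183)]) (P3 1 1 (F [(25,256),(12,194),(23,119),(9,120)]) (P4 1 2 (F [(25,256),(23,119),(9,108),(12,174)]) (F [(25,256),(23,156),(9,3)])))) (F [(25,256),(9,113),(12,137)])) (U2 1 2 (F [(12,13597),(25,16384),(23,11394),(9,7216)]) (F [(25,16384),(12,12912),(23,8032),(9,7399)]))))) (P0 1 1 (F [(23,256),(9,106),(25,30)]) (P2 1 1 (P4 1 2 (P5 1 4 (U2 1 2 (U1 1 2 (F [(23,162),(9,175),(12,256),(25,224)]) (P2 1 2 (F [(9,256),(23,131)]) (P1 4 1 (F [(9,256),(23,29),(25,201)]) (F [(9,178),(23,152),(25,156),(12,256)])))) (P2 1 2 (F [(9,256),(23,131)])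 (P1 4 1 (F [(9,256),(25,201),(23,29)]) (F [(9,188),(25,205),(23,137),(12,256)])))) (U2 1 2 (U1 1 2 (F [(23,219),(25,256),(12,104)]) (P1 2 1 (F [(9,35),(23,256),(25,243)]) (P2 4 1 (F [(9,169),(23,48),(25,256)]) (U0 1 2 (F [(9,201),(23,256),(12,118)]) (F [(23,189),(9,136),(25,256),(12,229)]))))) (P1 2 1 (F [(9,52),(25,256),(23,255)]) (P2 4 1 (F [(9,25),(25,256),(23,59)]) (U0 1 1 (U1 2 1 (U2 1 1 (F [(9,149),(25,256),(23,177),(12,236)]) (F [(9,256),(25,149),(12,167)])) (F [(9,256)])) (U2 2 1 (U1 1 1 (F [(25,256),(9,170),(23,152),(12,247)]) (F [(9,256),(25,195),(12,193)])) (F [(9,114),(25,256),(12,104)]))))))) (U2 1 2 (U1 1 2 (F [(23,245),(25,256),(12,176)]) (P0 1 1 (F [(23,256),(25,51)]) (P1 2 1 (F [(23,256),(25,216)]) (U0 1 2 (F [(23,256),(9,200),(12,118)]) (F [(23,209),(25,256),(9,114),(12,218)]))))) (P0 1 1 (F [(25,256),(23,241),(9,40)]) (P1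 2 1 (F [(9,40),(25,256),(23,241)]) (U0 1 1 (U1 2 1 (U2 1 1 (F [(23,177),(25,256),(9,149),(12,236)]) (F [(9,125),(25,256),(23,100),(12,155)])) (F [(9,256),(23,176)])) (U2 2 1 (U1 1 1 (F [(25,256),(23,141),(9,147),(12,219)]) (F [(9,99),(25,256),(12,83)])) (F [(9,104),(25,256),(12,94)]))))))) (P1 4 1 (U2 1 2 (U1 1 2 (F [(23,183),(25,256),(12,153)]) (P4 1 1 (P5 1 2 (F [(23,137),(25,256),(9,105),(12,176)]) (F [(25,256),(23,193)])) (F [(23,256),(25,227)]))) (P4 1 1 (P5 1 2 (U0 1 1 (P2 1 4 (U1 2 1 (F [(25,256),(23,119),(9,114),(12,184)]) (F [(9,158),(25,256),(23,176),(12,210)])) (F [(25,256),(23,75),(9,15)])) (F [(25,256),(9,59),(12,106)])) (F [(25,256),(9,3),(23,163)])) (F [(25,256),(23,163),(9,3)]))) (U2 1 2 (F [(12,212),(25,232),(23,256),(9,97)]) (P0 2 1 (P4 1 1 (P2 1 2 (U0 1 1 (F [(25,256),(23,161),(9,135),(12,214)]) (F [(25,256),(12,106),(9,59)]))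 (F [(25,256),(23,139)])) (F [(25,256),(23,163),(9,3)])) (P2 2 1 (F [(25,256),(12,177),(23,119),(9,110)]) (F [(25,256),(12,125),(23,6)])))))))) (F [(9,60),(25,256),(23,67)])) (F [(9,57),(25,256)])))

def c95 : Cell := ⟨⟨1,0,1⟩, ⟨0,1,1⟩, ⟨1,0,3⟩, ⟨9,15,18,22⟩, ⟨3,9,10,10⟩, ⟨3,7,10,12⟩, ⟨7,17,18,22⟩⟩

def t95 : Tr :=
  F [(9,13),(25,256),(23,137)]

theorem g7 : ∀ c ∈ [c84, c85, c86, c87, c88, c89, c90, c91, c92, c93, c94, c95], Done D c := by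
  intro c hc
  simp only [List.mem_cons, List.not_mem_nil, or_false] at hc
  rcases hc with rfl | rfl | rfl | rfl | rfl | rfl | rfl | rfl | rfl | rfl | rfl | rfl
  · exact done_of_chk (t := t84) (by decide +kernel)
  · exact done_of_chk (t := t85) (by decide +kernel)
  · exact done_of_chk (t := t86) (by decide +kernel)
  · exact done_of_chk (t := t87) (by decide +kernel)
  · exact done_of_chk (t := t88) (by decide +kernel)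
  · exact done_of_chk (t := t89) (by decide +kernel)
  · exact done_of_chk (t := t90) (by decide +kernel)
  · exact done_of_chk (t := t91) (by decide +kernel)
  · exact done_of_chk (t := t92) (by decide +kernel)
  · exact done_of_chk (t := t93) (by decide +kernel)
  · exact done_of_chk (t := t94) (by decide +kernel)
  · exact done_of_chk (t := t95) (by decide +kernel)

end Pool.Agent.W2helper59.NW.E1
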