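import Pool.Agent.W2helper59.NW.D_E1

set_option autoImplicit false
set_option maxRecDepth 1000000

namespace Pool.Agent.W2helper59.NW.E1

open Tr

def c96 : Cell := ⟨⟨1,0,1⟩, ⟨0,1,1⟩, ⟨1,0,3⟩, ⟨5,7,10,10⟩, ⟨3,9,10,10⟩, ⟨3,7,10,12⟩, ⟨9,15,18,22⟩⟩

def t96 : Tr :=
  F [(25,256),(9,2),(23,108)]

def c97 : Cell := ⟨⟨1,0,1⟩, ⟨0,1,1⟩, ⟨0,0,1⟩, ⟨5,7,10,10⟩, ⟨3,9,10,10⟩, ⟨1,3,6,6⟩, ⟨3,7,10,12⟩⟩

def t97 : Tr :=
  F [(25,256),(7,2),(23,100)]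

def c98 : Cell := ⟨⟨1,0,1⟩, ⟨0,1,0⟩, ⟨0,1,1⟩, ⟨5,7,10,10⟩, ⟨3,9,10,10⟩, ⟨1,3,6,6⟩, ⟨2,4,4,6⟩⟩

def t98 : Tr :=
  F [(9,256),(25,247)]

def c99 : Cell := ⟨⟨1,0,0⟩, ⟨0,1,0⟩, ⟨1,0,1⟩, ⟨5,7,10,10⟩, ⟨3,9,10,10⟩, ⟨1,3,6,6⟩, ⟨2,4,4,6⟩⟩

def t99 : Tr :=
  F [(9,256),(25,247)]

def c100 : Cell := ⟨⟨1,0,1⟩, ⟨0,1,1⟩, ⟨0,0,1⟩, ⟨9,19,18,18⟩, ⟨1,3,2,2⟩, ⟨3,9,10,10⟩, ⟨2,4,4,6⟩⟩

def t100 : Tr :=
  P4 2 1 (F [(23,256),(25,53),(7,8)]) (P3 4 1 (F [(23,256),(21,57),(7,24)]) (F [(30,256),(6,78),(23,184)]))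

def c101 : Cell := ⟨⟨1,0,1⟩, ⟨0,1,1⟩, ⟨0,0,1⟩, ⟨5,7,10,10⟩, ⟨17,35,34,42⟩, ⟨3,9,10,10⟩, ⟨2,4,4,6⟩⟩

def t101 : Tr :=
  U2 1 2 (P2 1 2 (F [(23,256),(12,5),(25,161)]) (F [(25,256),(23,209)])) (P2 1 2 (P5 1 2 (U0 1 1 (F [(23,256),(9,8),(25,166)]) (P4 1 8 (U2 2 1 (P2 1 4 (F [(23,256),(12,44)]) (U1 1 1 (F [(23,256),(12,133),(25,212)]) (P1 1 1 (F [(23,256),(25,39)]) (P0 4 1 (F [(23,256),(25,39)]) (U0 1 2 (P2 2 1 (F [(9,109),(23,256)]) (F [(9,109),(23,182),(25,256),(12,162)])) (P2 2 1 (F [(23,256),(12,60),(25,1)]) (P1 2 1 (F [(23,256),(25,123),(12,70)]) (P0 8 1 (F [(23,256),(12,70),(25,123)]) (U2 1 1 (F [(23,174),(12,198),(25,256),(9,108)]) (U0 2 1 (P5 1 1 (F [(12,235),(25,256),(23,147),(9,131)]) (F [(25,256),(23,152)])) (F [(12,198),(25,235),(23,256)]))))))))))) (P2 1 4 (F [(9,167),(23,256),(12,81)]) (P1 1 1 (F [(9,104),(23,256),(25,51)])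 (P0 4 1 (F [(9,104),(23,256),(25,51)]) (U0 2 1 (U1 2 1 (P2 2 1 (P5 1 1 (F [(9,174),(23,163),(12,256)]) (U2 1 1 (P1 1 2 (F [(23,256),(9,9),(25,216)]) (U1 1 2 (U2 1 2 (F [(23,256),(12,199),(25,214)]) (P0 2 1 (F [(23,256),(9,12),(25,93)]) (P2 1 1 (F [(9,14),(23,256),(25,43)]) (P1 2 1 (F [(9,8),(23,256),(25,215)]) (F [(9,149),(23,162),(12,256),(25,256)]))))) (F [(9,172),(23,256),(12,106)]))) (F [(9,256),(23,6)]))) (U2 1 1 (P1 2 1 (P5 2 1 (P0 2 1 (U1 1 2 (U2 1 2 (F [(23,256),(12,208),(25,228)]) (P4 1 2 (P5 1 2 (F [(23,228),(9,153),(12,256),(25,227)]) (F [(23,256),(9,7),(25,251)])) (F [(23,256),(9,12),(25,93)]))) (F [(23,256),(9,172),(12,106)])) (U1 1 2 (P2 1 1 (U2 1 2 (F [(23,256),(25,228),(12,208)]) (P5 1 2 (P4 1 4 (F [(9,143),(23,148),(12,250),(25,256)]) (F [(23,193),(25,256),(9,3)])) (F [(25,256),(23,149)]))) (F [(25,256),(23,49)])) (P2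 1 1 (F [(9,146),(23,178),(25,256),(12,232)]) (F [(9,17),(25,256),(23,58)])))) (F [(23,256),(25,245),(9,8)])) (P0 8 1 (P3 1 2 (U1 1 2 (P5 1 1 (U2 1 2 (F [(12,244),(23,219),(25,256)]) (P4 1 4 (F [(12,248),(23,147),(25,256),(9,140)]) (F [(25,247),(23,256),(9,7)]))) (F [(25,256),(23,144)])) (P5 1 1 (F [(9,144),(23,174),(25,256),(12,232)]) (F [(25,256),(9,1),(23,146)]))) (U1 1 2 (U2 1 2 (F [(23,256),(12,180),(25,55)]) (P4 1 2 (P5 1 4 (F [(23,168),(12,254),(9,141),(25,256)]) (F [(23,256),(25,186),(9,9)])) (F [(23,256),(9,7),(25,216)]))) (F [(23,256),(9,94),(25,33)]))) (U1 1 2 (P5 1 1 (F [(12,256),(25,250),(23,26),(9,94)]) (F [(25,256),(12,2),(23,142)])) (P5 1 1 (F [(25,256),(9,134),(12,236),(23,144)]) (F [(25,256),(9,2),(23,142)]))))) (F [(9,256),(25,186)]))) (F [(9,256),(25,171)])) (U2 4 1 (P2 2 1 (P5 1 1 (F [(9,209),(23,163),(12,256)]) (U1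 1 1 (P1 1 2 (F [(23,256),(9,34),(25,247)]) (U2 1 2 (U1 1 2 (F [(23,16384),(12,13711),(25,13831)]) (P0 2 1 (F [(23,256),(25,96)]) (P2 1 1 (F [(23,256),(25,85),(12,56)]) (P1 2 1 (P3 1 2 (U0 1 2 (F [(9,48),(23,256),(25,248)]) (P5 1 1 (U2 1 1 (F [(23,164),(9,141),(25,256),(12,240)]) (P4 1 4 (U0 2 1 (F [(9,9271),(23,10207),(25,16384),(12,15586)]) (P5 1 2 (P2 1 2 (F [(23,156),(9,150),(12,254),(25,256)]) (F [(25,256),(23,152),(12,237),(9,138)])) (F [(25,256),(23,155),(12,1)]))) (F [(25,256),(23,155)]))) (F [(25,256),(23,40)]))) (U0 1 2 (F [(9,51),(23,256),(25,235)]) (P0 1 1 (F [(23,256),(12,88),(9,6)]) (U2 1 1 (F [(23,160),(9,144),(12,247),(25,256)]) (P5 1 4 (U0 2 1 (F [(9,149),(23,155),(25,256),(12,253)]) (F [(12,256),(23,154),(25,255),(9,148)])) (F [(23,161),(25,256),(12,220),(9,124)])))))) (F [(9,149),(12,256),(23,140),(25,240)]))))) (P0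 2 1 (F [(9,91),(23,256),(25,61)]) (P2 1 1 (P4 1 4 (U0 1 1 (F [(9,15),(23,256),(25,38)]) (U2 2 1 (P5 1 2 (F [(9,185),(23,256),(12,120)]) (P1 1 1 (F [(9,44),(25,243),(23,256)]) (U1 1 1 (P2 2 1 (F [(9,44),(25,243),(23,256)]) (P3 1 2 (U2 1 2 (P1 2 1 (F [(25,256),(23,34)]) (F [(9,154),(23,164),(25,256),(12,256)])) (F [(9,256),(25,29)])) (F [(9,186),(23,256),(12,124)]))) (F [(9,256),(25,29)])))) (F [(9,256),(25,33)]))) (P3 1 2 (U0 1 1 (F [(9,15),(23,256),(25,38)]) (U2 2 1 (P1 1 1 (F [(9,43),(25,244),(23,256)]) (U1 1 1 (P0 4 1 (F [(25,256),(23,160)]) (P5 2 1 (F [(9,153),(23,161),(25,254),(12,256)]) (U2 1 2 (P1 2 1 (F [(25,256),(23,160)]) (F [(9,153),(23,160),(25,256),(12,256)])) (F [(9,256),(25,237)])))) (F [(9,256),(25,211)]))) (F [(9,256),(25,211)]))) (F [(9,154),(23,170),(25,256),(12,252)]))) (P1 2 1 (P3 1 2 (U0 1 1 (U1 2 1 (P5 1 1 (U2 1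 1 (P4 1 4 (U1 1 2 (P5 1 2 (F [(9,9764),(25,16384),(23,9525),(12,16373)]) (F [(25,256),(23,153)])) (F [(9,256),(25,187)])) (F [(9,2),(25,256),(23,152)])) (F [(9,256)])) (F [(9,24),(25,256),(23,31)])) (F [(9,256)])) (U2 2 1 (P5 1 1 (U1 1 1 (P4 1 4 (U2 1 2 (P5 1 2 (F [(9,151),(25,255),(12,256),(23,149)]) (F [(25,256),(23,152)])) (F [(9,256),(25,237)])) (F [(25,256),(23,151)])) (F [(9,256),(25,240)])) (F [(25,256)])) (F [(9,256),(25,240)]))) (U0 1 1 (U1 2 1 (U2 1 1 (P0 1 1 (F [(23,217),(9,150),(12,256),(25,246)]) (P5 1 4 (F [(9,9563),(25,16384),(23,9729),(12,16231)]) (F [(25,256),(9,129),(23,157),(12,226)]))) (F [(9,256),(23,90)])) (F [(9,256),(23,91)])) (U2 2 1 (U1 1 1 (P0 1 1 (F [(23,10155),(12,16271),(9,9593),(25,16384)]) (P5 1 4 (F [(9,150),(25,254),(12,256),(23,149)]) (F [(25,256),(9,132),(12,231),(23,153)]))) (F [(9,169),(25,250),(23,150),(12,256)]))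 (F [(9,155),(25,256),(23,150),(12,256)])))) (F [(9,158),(12,256),(25,97)])))))) (F [(9,256),(23,2)]))) (U1 1 1 (P1 2 1 (P5 2 1 (P0 2 1 (U2 1 2 (U1 1 2 (F [(23,139),(12,196),(25,256)]) (P4 1 2 (P5 1 2 (P2 1 4 (F [(12,256),(23,142),(9,148),(25,243)]) (F [(23,10489),(25,16384),(9,8221),(12,14514)])) (P3 1 2 (F [(25,256),(23,40)]) (F [(23,10489),(9,8221),(25,16384),(12,14514)]))) (F [(23,256),(25,96)]))) (P4 1 2 (P5 1 2 (P2 1 4 (F [(9,148),(12,256),(25,244),(23,141)]) (U0 1 1 (U1 2 1 (P0 1 1 (F [(9,593281),(23,638559),(25,1048576),(12,1024309)]) (F [(25,256),(9,21),(23,36)])) (F [(9,256),(23,12),(25,40)])) (U2 2 1 (P0 1 1 (F [(25,16384),(9,9322),(12,16200),(23,9787)]) (F [(25,256),(23,37),(12,11)])) (P0 1 1 (F [(9,151),(25,256),(23,150),(12,255)]) (F [(25,256),(9,29)]))))) (P3 1 2 (F [(25,256),(9,24),(23,31)]) (U0 1 1 (U1 2 1 (P0 1 1 (U2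 1 1 (F [(23,9943),(25,16384),(9,8581),(12,15248)]) (F [(9,256),(23,141),(25,52)])) (F [(25,256),(9,13),(23,81)])) (F [(9,256),(23,151),(25,61)])) (U2 2 1 (P0 1 1 (U1 1 1 (F [(25,256),(23,152),(12,245),(9,137)]) (F [(9,148),(25,256),(23,152),(12,249)])) (F [(25,256),(23,72),(12,7)])) (F [(9,9682),(25,16384),(23,10015),(12,15617)]))))) (F [(23,256),(9,91),(25,61)]))) (U2 1 2 (P2 1 1 (U1 1 2 (F [(25,256),(12,160)]) (P5 1 2 (P4 1 4 (F [(25,16093),(12,16384),(9,9391),(23,8936)]) (F [(25,256),(23,151)])) (F [(25,256)]))) (F [(25,256),(23,45),(12,7)])) (F [(25,256),(9,101),(12,147)]))) (F [(25,256),(23,255),(9,27)])) (P0 8 1 (P3 1 2 (U2 1 2 (P5 1 1 (U1 1 2 (F [(12,256),(25,249),(23,169)]) (P4 1 4 (F [(12,253),(25,256),(23,137),(9,143)]) (F [(25,256),(23,151)]))) (F [(25,256),(12,13)])) (F [(25,256),(9,101),(12,147)])) (U2 1 2 (U1 1 2 (F [(12,256),(23,237),(25,163)])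 (P4 1 2 (P5 1 4 (P2 1 4 (F [(12,256),(23,143),(9,145),(25,242)]) (F [(12,253),(23,155),(25,256),(9,140)])) (F [(23,256),(25,248),(12,34)])) (F [(23,256),(25,212),(12,42)]))) (P4 1 2 (P5 1 4 (U0 1 1 (P2 1 4 (F [(9,146),(12,256),(23,141),(25,244)]) (F [(25,256),(9,140),(12,253),(23,154)])) (F [(12,256),(25,125),(9,137)])) (U0 1 1 (F [(25,256),(9,127),(23,164),(12,226)]) (F [(25,16384),(9,8443),(12,15030),(23,10033)]))) (P0 1 2 (F [(23,256),(9,94),(25,49)]) (U0 1 1 (F [(23,169),(25,256),(9,126),(12,227)]) (F [(25,16384),(23,10075),(12,15041),(9,8466)])))))) (F [(25,256),(12,226),(9,113)]))) (F [(9,256),(25,250),(23,25)]))) (F [(9,256),(25,220),(23,9)]))))))) (U2 2 1 (U1 1 1 (F [(23,239),(12,115),(25,256)]) (P0 2 1 (F [(23,256)]) (P1 1 1 (F [(23,256),(25,202)]) (P2 4 1 (F [(23,256),(25,107)]) (F [(23,167),(25,256),(12,1)]))))) (P0 2 1 (F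 [(23,256),(9,10),(25,205)]) (P1 1 1 (F [(9,37),(23,256),(25,212)]) (P2 4 1 (F [(23,256),(9,82),(25,74)]) (F [(9,8),(25,256),(23,144)]))))))) (P1 1 2 (F [(7,40),(23,256),(25,179)]) (U0 1 1 (F [(23,207),(9,5),(25,256)]) (F [(23,119),(25,256)])))) (P1 1 1 (P5 2 1 (U0 1 1 (F [(25,256),(23,207),(9,5)]) (F [(25,256),(23,119)])) (F [(25,227),(7,26),(23,256)])) (P0 4 1 (U0 1 1 (F [(25,256),(23,207),(9,5)]) (F [(25,256),(23,119)])) (F [(25,256),(23,108),(9,2)]))))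

def c102 : Cell := ⟨⟨1,0,1⟩, ⟨0,1,1⟩, ⟨0,0,1⟩, ⟨5,7,10,10⟩, ⟨9,19,18,18⟩, ⟨3,9,10,10⟩, ⟨17,35,34,42⟩⟩

def t102 : Tr :=
  U2 1 2 (U1 1 2 (F [(21,59),(23,253),(25,256)]) (P0 2 1 (F [(23,256),(25,110)]) (F [(25,256),(23,209)]))) (P0 2 1 (F [(25,102),(23,256),(21,24),(7,12)]) (P1 1 1 (F [(25,227),(7,26),(23,256)]) (P2 4 1 (F [(25,238),(23,256),(7,23)]) (F [(25,256),(23,112)]))))

def c103 : Cell := ⟨⟨1,0,1⟩, ⟨0,1,0⟩, ⟨0,1,1⟩, ⟨5,7,10,10⟩, ⟨1,3,2,2⟩, ⟨3,9,10,10⟩, ⟨2,4,4,6⟩⟩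

def t103 : Tr :=
  P0 1 4 (P4 2 1 (F [(7,63),(23,256)]) (F [(7,180),(30,256),(23,75)])) (P4 1 4 (F [(9,92),(7,256),(25,41)]) (U0 1 2 (U1 2 1 (P0 2 1 (F [(7,13),(23,256),(25,94)]) (F [(9,74),(25,256),(23,216)])) (F [(7,256),(9,77)])) (P0 2 1 (F [(7,24),(25,83),(23,256),(21,45)]) (F [(7,256),(25,51),(9,10),(23,49)]))))

def c104 : Cell := ⟨⟨1,0,0⟩, ⟨0,1,0⟩, ⟨1,0,1⟩, ⟨5,7,10,10⟩, ⟨1,3,2,2⟩, ⟨3,9,10,10⟩, ⟨2,4,4,6⟩⟩

def t104 : Tr :=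
  P0 1 4 (F [(7,89),(9,24),(23,256)]) (F [(9,183),(25,256),(23,76)])

def c105 : Cell := ⟨⟨1,0,1⟩, ⟨0,1,1⟩, ⟨0,0,1⟩, ⟨1,1,1,1⟩, ⟨1,3,2,2⟩, ⟨5,7,10,10⟩, ⟨2,4,4,6⟩⟩

def t105 : Tr :=
  P3 4 1 (P2 4 1 (P4 1 4 (U2 1 2 (P5 1 2 (F [(23,256),(12,102)]) (F [(23,209),(25,256)])) (P5 1 2 (P2 1 2 (U0 1 1 (F [(23,256),(9,8),(25,166)]) (P4 1 8 (U2 2 1 (P5 1 4 (F [(23,256),(12,80)]) (U1 1 1 (F [(23,77),(12,256)]) (P3 1 4 (P1 1 1 (U0 1 2 (F [(23,11473),(9,9131),(12,14942),(25,16384)]) (P5 2 1 (F [(23,152),(12,256),(9,109)]) (P3 1 8 (F [(12,246),(23,173),(25,256),(9,113)]) (F [(23,256),(12,84)])))) (F [(23,256),(12,74)])) (F [(23,256),(12,74)])))) (P5 1 4 (F [(23,140),(9,209),(12,256)]) (P3 1 4 (P1 1 1 (U0 2 1 (U1 2 1 (P5 2 1 (F [(23,160),(9,147),(12,256)]) (U2 1 1 (P3 1 8 (P1 1 2 (U1 1 2 (F [(12,249),(25,256),(23,129),(9,129)]) (F [(12,241),(25,256),(23,143),(9,134)]))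 (F [(12,1048576),(23,639135),(25,1043463),(9,530721)])) (P2 2 1 (F [(23,11720),(12,16259),(9,8865),(25,16384)]) (F [(23,256),(25,90),(9,11)]))) (P3 1 8 (F [(9,137),(23,145),(25,256),(12,251)]) (F [(9,109),(23,256),(25,48)])))) (F [(9,154),(23,168),(12,232),(25,256)])) (U2 4 1 (P5 2 1 (F [(23,123),(9,193),(12,256)]) (U1 1 1 (P3 1 8 (F [(12,256),(25,253),(23,95),(9,114)]) (P2 2 1 (U2 1 2 (U1 1 2 (F [(12,256),(23,65)]) (P4 1 2 (F [(12,16384),(23,9648),(25,15878),(9,8880)]) (F [(23,224),(12,193),(25,256),(9,79)]))) (P4 1 2 (P2 1 2 (U0 1 1 (F [(12,16384),(9,9034),(23,9442),(25,15928)]) (F [(12,256),(25,125),(9,137)])) (P0 2 1 (U0 1 1 (F [(12,16384),(23,9442),(9,9034),(25,15928)]) (F [(12,256),(25,125),(9,137)])) (F [(12,253),(23,139),(25,256),(9,130)]))) (P0 1 1 (P3 2 1 (F [(23,10009),(12,15396),(25,16384),(9,8586)]) (F [(23,256),(9,98),(25,22)]))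 (P2 2 1 (F [(12,16384),(23,9686),(25,16339),(9,9113)]) (F [(12,256),(23,151),(25,256),(9,135)]))))) (P0 4 1 (U2 1 2 (F [(12,214),(23,183),(25,256),(9,96)]) (P4 1 1 (F [(12,256),(23,151),(25,256),(9,135)]) (F [(23,211),(12,154),(25,256)]))) (F [(12,220),(23,150),(25,256),(9,80)])))) (P3 1 8 (P1 1 2 (F [(9,130),(25,256),(12,201)]) (P2 2 1 (F [(9,204),(12,256),(25,190)]) (P0 8 1 (F [(9,139),(12,254),(25,256),(23,124)]) (F [(12,256),(9,128)])))) (P2 2 1 (U0 1 2 (F [(9,256),(12,95)]) (P4 1 2 (F [(9,242),(12,256),(25,175)]) (P0 1 1 (P3 2 1 (F [(9,137),(23,153),(25,256),(12,235)]) (F [(9,121),(23,256),(25,44)])) (F [(9,148),(23,136),(12,256),(25,244)])))) (P0 4 1 (U0 1 2 (F [(9,256),(23,44),(12,80)]) (P4 1 1 (F [(23,144),(12,256),(9,141),(25,250)]) (F [(23,166),(9,114),(12,210),(25,256)]))) (P1 8 1 (F [(9,141),(23,144),(12,256),(25,251)]) (F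 [(12,256),(23,24),(9,125)]))))))) (P5 2 1 (F [(9,222),(23,124),(12,256)]) (P3 1 8 (F [(9,155),(25,136),(12,256)]) (P2 2 1 (U0 4 1 (U1 2 1 (U2 1 1 (P4 1 2 (F [(9,197),(25,178),(12,256)]) (P0 1 1 (F [(9,157),(23,144),(25,256),(12,251)]) (F [(9,153),(25,119),(12,256)]))) (F [(9,256)])) (F [(9,256)])) (U2 8 1 (U1 1 1 (P4 1 2 (F [(9,197),(25,178),(12,256)]) (P0 1 1 (F [(9,142),(25,256),(23,148),(12,244)]) (F [(9,137),(25,117),(12,256)]))) (F [(9,256),(12,90)])) (F [(9,256),(12,90)]))) (P0 4 1 (U0 4 1 (U1 2 1 (U2 1 1 (P4 1 1 (F [(9,151),(12,256),(25,102)]) (F [(9,123),(23,161),(25,256),(12,218)])) (F [(9,256)])) (F [(9,256),(23,10)])) (U2 8 1 (U1 1 1 (P4 1 1 (F [(9,137),(12,256),(25,107)]) (F [(9,132),(23,154),(25,256),(12,236)])) (F [(9,256)])) (F [(9,256)]))) (F [(9,151),(12,256),(25,102)]))))))) (F [(23,256),(9,207),(12,239)])) (F [(23,256),(9,107)]))))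 (U2 2 1 (U1 1 1 (F [(23,256),(12,243),(25,227)]) (P3 1 2 (P5 4 1 (F [(23,256)]) (P1 1 1 (F [(23,13471),(12,5747),(25,16384),(9,1691)]) (F [(23,256),(12,53)]))) (F [(23,256)]))) (P3 1 2 (P5 4 1 (F [(23,256),(9,84),(25,16)]) (P1 1 1 (U0 2 1 (U1 2 1 (U2 1 1 (P3 1 4 (P5 8 1 (F [(23,256),(25,162)]) (F [(12,113),(25,256),(23,176)])) (F [(23,256),(25,99)])) (P3 1 4 (P5 8 1 (F [(9,10),(23,256),(25,152)]) (P1 1 2 (F [(9,103),(25,256),(23,136),(12,194)]) (P0 4 1 (F [(9,105),(23,141),(25,256),(12,197)]) (F [(23,164),(9,132),(12,239),(25,256)])))) (F [(23,256),(9,11),(25,94)]))) (F [(9,125),(23,186),(25,256),(12,185)])) (U2 4 1 (U1 1 1 (P3 1 4 (P5 8 1 (F [(12,115),(23,197),(25,256)]) (F [(12,124),(25,256),(23,166)])) (F [(23,256),(12,133),(25,228)])) (P3 1 4 (P5 8 1 (P2 4 1 (F [(9,5338),(23,11595),(25,16384),(12,10346)]) (P0 4 1 (F [(9,112),(25,256),(23,164),(12,208)])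 (P1 8 1 (F [(9,138),(23,150),(12,251),(25,256)]) (F [(23,256),(12,94),(9,8)])))) (P1 1 2 (F [(25,256),(9,70),(12,141)]) (P0 4 1 (F [(25,256),(9,79),(23,114),(12,160)]) (P2 8 1 (F [(9,124),(25,256),(12,231),(23,133)]) (F [(12,256),(23,139),(9,130),(25,246)]))))) (F [(23,256),(25,140),(12,45)]))) (P3 1 4 (P5 8 1 (P2 4 1 (U0 4 1 (U1 2 1 (F [(9,118),(25,256),(23,163),(12,212)]) (F [(9,256),(25,41)])) (F [(9,8344),(25,16384),(23,10024),(12,14757)])) (P0 4 1 (U0 4 1 (F [(9,119),(25,256),(23,162),(12,215)]) (F [(9,122),(25,256),(23,150),(12,226)])) (F [(9,141),(25,226),(12,256),(23,105)]))) (P1 1 2 (F [(25,256),(9,88),(12,138)]) (P0 4 1 (F [(25,256),(9,22),(23,15)]) (F [(9,140),(25,212),(12,256),(23,65)])))) (P0 2 1 (F [(9,37),(25,252),(23,256)]) (P2 4 1 (F [(9,113),(23,182),(25,256),(12,203)]) (P1 4 1 (F [(9,111),(25,256),(23,174),(12,205)])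 (F [(9,137),(23,167),(12,256),(25,248)]))))))) (P0 4 1 (U0 2 1 (F [(23,256),(9,16)]) (U2 4 1 (F [(23,256),(12,58)]) (P3 1 2 (F [(23,201),(9,149),(12,256),(25,222)]) (F [(23,256),(9,37),(25,216)])))) (F [(23,256),(12,239),(9,207)])))) (F [(23,256),(25,78)]))))) (P1 2 1 (U0 1 1 (F [(23,256),(9,7),(25,211)]) (U2 2 1 (U1 1 1 (F [(23,201),(12,134),(25,256)]) (P3 1 2 (P5 1 1 (F [(23,256),(12,55)]) (F [(23,191),(12,140),(25,256),(9,56)])) (F [(23,256),(12,55)]))) (P3 1 2 (P5 1 1 (P4 1 4 (F [(23,121),(12,256)]) (P0 2 1 (U0 2 1 (F [(23,256),(9,16)]) (U2 4 1 (F [(23,256),(12,59)]) (P3 1 2 (F [(23,185),(12,256),(25,239),(9,127)]) (F [(23,256),(25,252),(9,18)])))) (F [(23,192),(12,256),(25,109)]))) (P1 1 2 (U0 2 1 (U1 2 1 (U2 1 1 (F [(12,158),(23,154),(25,256)]) (P3 1 4 (P5 2 1 (F [(12,12516),(23,11276),(25,16384),(9,6207)]) (F [(25,256),(12,179),(9,86),(23,121)]))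 (F [(23,204),(25,256),(9,80),(12,175)]))) (P3 1 4 (F [(9,118),(23,163),(25,256),(12,206)]) (F [(23,190),(9,94),(25,256),(12,165)]))) (U2 4 1 (U1 1 1 (F [(12,178),(25,256),(23,137)]) (P3 1 4 (P5 2 1 (P0 2 1 (P4 1 4 (F [(12,256),(25,256),(23,140),(9,127)]) (F [(25,256),(12,170),(23,119),(9,85)])) (F [(12,236),(25,256),(23,132),(9,107)])) (F [(25,256),(12,154),(9,68)])) (P0 1 1 (F [(23,256),(25,140),(12,45)]) (P1 2 1 (F [(25,256),(23,256),(12,149),(9,48)]) (F [(12,211),(25,256),(23,167),(9,90)]))))) (P3 1 4 (P5 2 1 (P0 2 1 (P4 1 4 (F [(25,249),(12,256),(9,130),(23,129)]) (F [(25,256),(9,22),(23,15)])) (F [(12,256),(25,199),(9,131)])) (F [(25,256),(9,82),(12,127)])) (P0 1 1 (P4 1 2 (P5 1 4 (U0 4 1 (F [(23,190),(9,117),(25,256),(12,236)]) (F [(25,256),(12,239),(23,151),(9,115)])) (F [(25,256),(9,1),(23,153)])) (F [(25,256),(23,187),(9,2)]))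 (P1 2 1 (P5 1 4 (U0 4 1 (F [(25,256),(23,164),(9,102),(12,221)]) (F [(25,256),(12,235),(9,106),(23,132)])) (F [(25,256),(9,1),(23,153)])) (U0 4 1 (F [(25,256),(12,221),(23,165),(9,100)]) (F [(25,256),(12,235),(23,132),(9,106)]))))))) (P0 2 1 (U0 2 1 (F [(23,209),(12,166),(25,256),(9,77)]) (U2 4 1 (F [(23,217),(12,190),(25,256),(9,67)]) (P3 1 1 (U0 4 1 (F [(25,256),(12,222),(23,169),(9,99)]) (F [(25,256),(12,235),(23,132),(9,106)])) (P4 1 2 (U0 4 1 (F [(23,256),(25,34),(9,13)]) (F [(25,256),(23,151),(12,239),(9,115)])) (F [(25,256),(23,187),(9,2)]))))) (U0 2 1 (F [(12,223),(23,182),(25,256),(9,96)]) (F [(12,256),(23,160),(25,160)]))))) (F [(23,256),(12,121),(25,182)])))) (F [(23,256),(12,165)]))) (P3 1 4 (P1 1 1 (F [(25,256),(23,108),(9,2)]) (P2 2 1 (F [(25,256),(12,95),(23,124),(9,34)]) (F [(12,79),(23,147),(25,256)]))) (P2 2 1 (U0 1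 1 (F [(23,207),(25,256),(9,4)]) (F [(23,131),(25,256),(12,30)])) (F [(23,256),(12,75),(25,204)]))))) (U2 1 2 (U1 1 2 (F [(23,253),(21,59),(25,256)]) (P3 1 2 (F [(23,209),(25,256)]) (F [(23,256),(21,15),(25,96)]))) (P3 1 2 (P5 4 1 (F [(23,256),(25,225),(12,32)]) (F [(25,256),(23,142),(12,64)])) (F [(23,256),(25,91),(21,45)])))) (P1 8 1 (U2 1 2 (U1 1 2 (F [(21,245),(12,81),(25,139),(23,256)]) (P3 1 2 (F [(25,256),(12,42),(23,194)]) (F [(23,256),(25,185),(6,56)]))) (P3 1 2 (F [(25,256),(12,64),(23,142)]) (F [(25,180),(21,83),(23,256)]))) (F [(21,83),(23,256),(25,180)]))) (P0 2 1 (P4 2 1 (F [(23,256),(9,3)]) (F [(30,256),(6,78),(23,184)])) (F [(23,256),(21,4),(35,11)]))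

def c106 : Cell := ⟨⟨1,0,1⟩, ⟨0,1,0⟩, ⟨0,1,1⟩, ⟨1,1,1,1⟩, ⟨1,3,2,2⟩, ⟨5,7,10,10⟩, ⟨2,4,4,6⟩⟩

def t106 : Tr :=
  P3 4 1 (P2 4 1 (P4 1 4 (U0 1 2 (F [(9,65),(23,256),(25,233)]) (P5 1 2 (P2 1 2 (F [(9,256),(23,61),(12,50)]) (P1 2 1 (U2 1 1 (F [(9,104),(23,256)]) (U0 2 1 (F [(9,104),(23,256)]) (P3 1 2 (P5 1 1 (P4 1 4 (F [(9,82),(23,195),(12,256)]) (P0 2 1 (U2 2 1 (F [(9,42),(23,256)]) (U0 4 1 (F [(9,80),(23,256)]) (P3 1 2 (F [(9,135),(23,180),(25,248),(12,256)]) (F [(9,38),(23,256),(25,245)])))) (U2 2 1 (F [(9,12),(23,256)]) (U0 4 1 (F [(9,127),(23,256),(25,246),(12,237)]) (F [(23,168),(9,116),(12,254),(25,256)]))))) (P1 1 2 (F [(9,256),(25,252),(12,145)]) (P0 2 1 (U2 2 1 (F [(9,144),(23,137),(25,256),(12,160)]) (U0 4 1 (F [(9,129),(23,150),(25,256),(12,186)]) (P3 1 1 (F [(9,119),(25,256),(23,139),(12,224)]) (P4 1 2 (F [(9,147),(25,256),(23,170),(12,245)])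 (F [(9,42),(25,256),(23,155)]))))) (U2 2 1 (F [(9,108),(23,171),(25,256),(12,208)]) (F [(9,6859),(25,16384),(23,8618),(12,14344)]))))) (F [(23,256),(9,11),(25,197),(12,86)])))) (F [(23,256),(12,79)]))) (P3 1 4 (P1 1 1 (F [(25,256),(9,54),(23,44)]) (P2 2 1 (F [(9,2923),(25,16384),(23,7427),(12,6412)]) (F [(23,165),(25,256),(9,25),(12,83)]))) (P2 2 1 (U2 1 1 (F [(9,67),(23,256),(25,120)]) (U0 2 1 (F [(9,74),(23,256),(25,118)]) (P4 1 2 (F [(9,33),(25,256),(23,121),(12,80)]) (F [(9,26),(23,210),(25,256),(12,100)])))) (P0 4 1 (U2 1 1 (F [(9,9),(23,256),(25,142)]) (U0 2 1 (F [(9,55),(23,256),(25,125)]) (F [(23,213),(25,256),(9,26),(12,102)]))) (F [(23,198),(9,18),(25,256),(12,74)])))))) (U0 1 2 (U1 2 1 (P3 1 2 (F [(9,65),(23,256),(25,233)]) (F [(7,13),(23,256),(25,94)])) (F [(7,82),(9,256)])) (P3 1 2 (P5 4 1 (F [(23,256),(25,206),(12,15)])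 (P1 1 1 (F [(25,256),(9,3),(23,69)]) (F [(25,256),(23,190),(9,9),(12,57)]))) (F [(23,256),(7,7),(25,104),(21,24)])))) (P1 8 1 (U0 1 2 (U1 2 1 (P3 1 2 (F [(25,256),(9,37),(23,237)]) (F [(7,10),(23,256),(25,178),(21,41)])) (F [(7,56),(9,211),(25,256)])) (P3 1 2 (P5 1 1 (F [(25,256),(23,194),(12,58),(9,7)]) (F [(25,256)])) (P0 1 1 (F [(25,104),(23,256),(21,24),(7,7)]) (F [(25,256),(23,232),(12,49)])))) (P0 16 1 (U0 1 2 (F [(7,10),(23,256),(25,178),(21,41)]) (P3 1 1 (F [(25,256),(23,233),(12,66)]) (F [(23,256),(25,56),(21,20),(7,5)]))) (F [(23,234),(25,256),(12,19)])))) (F [(23,256),(30,24)])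

def c107 : Cell := ⟨⟨1,0,0⟩, ⟨0,1,0⟩, ⟨1,0,1⟩, ⟨1,1,1,1⟩, ⟨1,3,2,2⟩, ⟨5,7,10,10⟩, ⟨2,4,4,6⟩⟩

def t107 : Tr :=
  P3 4 1 (P2 4 1 (U0 1 1 (P4 1 4 (U1 2 1 (P5 1 2 (U2 1 1 (P2 1 2 (F [(9,256),(23,61),(12,50)]) (P1 2 1 (U1 1 2 (U2 1 2 (P3 1 2 (P5 1 1 (P4 1 4 (F [(9,105),(23,164),(12,256)]) (P0 2 1 (F [(9,149),(23,119),(25,256),(12,217)]) (U1 1 4 (F [(9,117),(23,166),(25,256),(12,256)]) (F [(9,256),(12,227)])))) (P1 1 2 (F [(9,252),(25,256),(12,217)]) (P0 2 1 (F [(9,138),(25,256),(12,179)]) (F [(9,95),(25,256),(12,170)])))) (P0 1 1 (F [(9,15),(23,256),(25,73)]) (P5 1 4 (F [(9,82),(23,238),(25,256),(12,209)]) (P1 2 1 (F [(9,8),(23,256),(25,219)]) (F [(9,72),(23,224),(25,256),(12,183)]))))) (F [(9,256)])) (F [(9,256)])) (P0 4 1 (U1 1 2 (U2 1 2 (P3 1 1 (F [(23,227),(9,78),(25,256),(12,200)]) (F [(23,256),(9,18)])) (F [(9,256),(23,61)])) (F [(9,256),(23,79)]))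 (F [(9,102),(23,217),(12,256),(25,129)])))) (F [(9,256)])) (U2 1 1 (P3 1 4 (P1 1 1 (F [(9,23),(25,256)]) (P2 2 1 (F [(9,62),(25,256),(12,129)]) (P0 8 1 (F [(9,60),(25,256),(12,123)]) (F [(9,57),(25,256),(23,147),(12,164)])))) (P2 2 1 (U1 1 2 (F [(9,26),(25,256),(23,106),(12,66)]) (F [(9,256)])) (P0 4 1 (U1 1 2 (F [(9,27),(25,256),(23,124),(12,74)]) (F [(9,256),(23,79)])) (P1 8 1 (U1 1 2 (F [(9,47),(25,256),(23,140),(12,127)]) (F [(9,256)])) (F [(9,89),(23,249),(25,256),(12,227)]))))) (F [(9,256)]))) (F [(9,256)])) (U1 2 1 (U2 1 1 (P3 1 2 (P5 4 1 (F [(9,8),(25,182),(23,256)]) (P1 1 1 (F [(25,256),(9,17)]) (F [(25,256),(9,18),(23,154),(12,74)]))) (F [(25,135),(23,256),(9,10)])) (F [(7,66),(9,256)])) (F [(7,82),(9,256)]))) (P4 1 4 (U2 2 1 (P5 1 2 (U1 1 1 (P2 1 2 (F [(9,256),(23,61),(12,50)]) (P1 2 1 (U2 1 2 (U1 1 2 (P3 1 2 (P5 1 1 (P4 1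 4 (F [(9,130),(23,4),(12,256),(25,5)]) (P0 2 1 (F [(9,141),(25,256),(23,126),(12,234)]) (F [(9,119),(25,243),(23,147),(12,256)]))) (F [(9,95),(25,256),(12,182)])) (P0 1 1 (F [(9,74),(23,256),(25,55)]) (P5 1 4 (F [(9,104),(23,183),(25,256),(12,236)]) (F [(9,72),(25,256),(23,161),(12,166)])))) (F [(9,256)])) (F [(9,256)])) (P0 4 1 (U2 1 2 (U1 1 2 (P3 1 1 (F [(9,103),(23,182),(25,256),(12,234)]) (F [(23,256),(9,70),(25,15)])) (F [(9,256),(23,23),(25,234)])) (F [(9,256),(25,253),(23,21)])) (F [(9,6363),(23,10778),(25,16384),(12,16023)])))) (F [(9,256)])) (U1 1 1 (P3 1 4 (P1 1 1 (F [(25,256)]) (P2 2 1 (F [(9,49),(25,256),(12,150)]) (P0 8 1 (F [(25,256),(9,55),(12,167)]) (F [(25,256),(9,68),(12,212),(23,111)])))) (P2 2 1 (F [(9,10),(25,256),(12,45)]) (P0 4 1 (F [(25,256),(23,20),(12,15)]) (P1 8 1 (F [(25,256),(23,20),(12,15)]) (F [(9,53),(25,256),(23,128),(12,163)])))))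 (F [(9,256)]))) (F [(9,256)])) (U2 2 1 (U1 1 1 (P3 1 2 (P5 4 1 (F [(25,256),(9,26),(23,154),(12,100)]) (F [(25,256),(9,28),(23,78),(12,132)])) (F [(25,256),(23,186),(9,35),(12,108)])) (F [(7,52),(9,256)])) (F [(7,52),(9,256)])))) (P1 8 1 (U0 1 1 (U1 2 1 (U2 1 1 (P3 1 2 (P5 1 1 (F [(25,256),(9,18),(23,154),(12,74)]) (F [(25,256),(9,17)])) (F [(25,256),(23,202),(9,13),(12,44)])) (F [(9,195),(25,256)])) (F [(9,208),(25,256)])) (U2 2 1 (U1 1 1 (P3 1 2 (F [(25,256),(9,29),(12,135),(23,76)]) (F [(25,256),(23,139),(9,24),(12,102)])) (F [(9,180),(25,256)])) (F [(9,180),(25,256)]))) (P0 16 1 (U0 1 1 (U1 2 1 (F [(25,256),(23,198),(9,13),(12,44)]) (F [(9,88),(25,256),(23,151)])) (F [(25,16384),(9,1183),(23,8240),(12,5299)])) (U0 1 1 (F [(25,256),(9,10),(23,205),(12,31)]) (F [(25,256),(23,126),(9,20),(12,91)]))))) (P0 2 1 (F [(7,57),(23,256),(9,28),(25,77)])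 (P2 4 1 (P4 1 1 (U0 1 1 (F [(9,18),(23,256)]) (P5 1 4 (U2 2 1 (F [(9,75),(23,256),(35,86)]) (F [(9,256)])) (F [(9,57),(25,110),(23,256),(12,68)]))) (F [(23,256),(9,57),(25,7),(12,19)])) (P1 16 1 (F [(25,75),(23,256),(9,45),(12,8)]) (U0 1 1 (F [(23,256),(9,5)]) (F [(25,256),(23,117),(35,26),(9,20),(12,81)])))))

theorem g8 : ∀ c ∈ [c96, c97, c98, c99, c100, c101, c102, c103, c104, c105, c106, c107], Done D c := by
  intro c hc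
  simp only [List.mem_cons, List.not_mem_nil, or_false] at hc
  rcases hc with rfl | rfl | rfl | rfl | rfl | rfl | rfl | rfl | rfl | rfl | rfl | rfl
  · exact done_of_chk (t := t96) (by decide +kernel)
  · exact done_of_chk (t := t97) (by decide +kernel)
  · exact done_of_chk (t := t98) (by decide +kernel)
  · exact done_of_chk (t := t99) (by decide +kernel)
  · exact done_of_chk (t := t100) (by decide +kernel)
  · exact done_of_chk (t := t101) (by decide +kernel)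
  · exact done_of_chk (t := t102) (by decide +kernel)
  · exact done_of_chk (t := t103) (by decide +kernel)
  · exact done_of_chk (t := t104) (by decide +kernel)
  · exact done_of_chk (t := t105) (by decide +kernel)
  · exact done_of_chk (t := t106) (by decide +kernel)
  · exact done_of_chk (t := t107) (by decide +kernel)

end Pool.Agent.W2helper59.NW.E1
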