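import Pool.Agent.W2helper59.NW.D_E1

set_option autoImplicit false
set_option maxRecDepth 1000000

namespace Pool.Agent.W2helper59.NW.E1

open Tr

def c108 : Cell := ⟨⟨1,0,0⟩, ⟨0,1,0⟩, ⟨0,0,1⟩, ⟨1,1,1,1⟩, ⟨0,1,1,0⟩, ⟨0,0,1,1⟩, ⟨1,3,2,2⟩⟩

def t108 : Tr :=
  P3 1 1 (P5 4 1 (P0 1 1 (P4 2 1 (P5 1 2 (U2 1 1 (U1 1 1 (P2 1 1 (P4 1 2 (P5 1 4 (F [(6,139),(30,256)]) (U2 1 2 (U1 1 2 (F [(6,256),(23,254),(25,101)]) (F [(6,256),(23,76),(25,19),(7,161)])) (F [(6,256),(21,67),(7,213),(23,96)]))) (U2 1 2 (P3 2 1 (U1 1 2 (F [(6,256),(25,71),(23,139)]) (F [(6,256),(25,19),(7,161),(23,76)])) (F [(6,256),(21,71),(7,110)])) (F [(6,256),(21,45),(25,66),(7,232)]))) (U2 1 2 (P1 4 1 (P3 2 1 (U1 1 2 (F [(6,256),(25,71),(23,139)]) (F [(6,256),(25,19),(7,161),(23,76)])) (F [(21,256),(7,63)])) (F [(21,256),(7,53)])) (F [(25,256),(7,104),(6,87)])))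 (F [(7,256),(30,124),(6,148)])) (F [(7,252),(21,256),(30,226),(6,6)])) (F [(7,79),(25,256),(21,167),(6,9)])) (F [(7,25),(25,256),(21,123)])) (P1 4 1 (P5 1 2 (U2 1 1 (U1 1 1 (P2 1 4 (P4 1 1 (P5 1 4 (F [(6,26),(30,256)]) (U2 1 2 (U1 1 2 (F [(6,180),(23,256),(25,91)]) (F [(6,256),(30,19),(23,175),(7,142)])) (F [(30,219),(21,13),(25,256),(23,224),(7,99)]))) (P0 1 8 (U2 1 2 (P3 4 1 (U1 1 2 (F [(6,256),(25,74),(23,153)]) (F [(6,256),(25,19),(7,161),(23,76)])) (F [(21,256),(6,10)])) (F [(25,256),(6,87),(7,104)])) (U2 1 2 (U1 1 2 (F [(6,214),(25,96),(23,256)]) (P5 1 2 (F [(6,256),(30,104),(7,53)]) (F [(6,137),(25,237),(23,256),(7,55)]))) (F [(21,109),(25,235),(6,25),(30,149),(7,136),(23,256)])))) (P4 8 1 (U2 1 2 (U1 1 2 (F [(6,89),(25,256),(23,156)]) (P2 2 1 (F [(6,70),(25,256),(23,235),(7,18)]) (F [(25,256),(7,3),(23,151)])))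 (P2 2 1 (F [(25,231),(6,133),(7,82),(23,256)]) (F [(25,256),(7,59)]))) (F [(25,256),(7,2),(23,113)]))) (P2 1 4 (F [(7,256),(30,153),(6,187)]) (P4 8 1 (U0 1 2 (U1 2 1 (P2 2 1 (F [(7,88),(25,227),(23,256),(6,137)]) (F [(7,59),(25,256)])) (F [(7,256),(9,77)])) (P2 2 1 (F [(7,86),(25,228),(6,137),(23,256)]) (F [(7,59),(25,256)]))) (F [(7,134),(25,256)])))) (F [(7,138),(21,256),(30,28),(23,38)])) (F [(7,2),(25,256),(23,63)])) (U2 1 1 (U1 1 1 (P5 1 4 (F [(21,256),(30,176)]) (F [(21,256),(6,6)])) (P5 1 4 (F [(30,256),(7,28),(21,255),(25,104)]) (P0 2 1 (P4 8 1 (U0 1 2 (U1 2 1 (P5 2 1 (F [(7,68),(25,242),(6,144),(23,256)]) (F [(7,9),(25,256)])) (F [(7,256),(21,69)])) (F [(21,256),(7,5),(6,6)])) (F [(7,26),(25,256),(21,13)])) (P1 8 1 (U0 1 2 (U1 2 1 (P5 2 1 (F [(25,256),(7,55),(21,124),(6,128),(23,154)]) (F [(25,256),(7,9)]))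 (F [(7,98),(25,256)])) (F [(21,256),(7,5),(6,6)])) (F [(25,256),(21,17),(6,97),(23,166),(7,23)]))))) (P5 1 4 (F [(7,16),(25,256),(6,107),(30,82)]) (F [(7,11),(25,256),(30,48),(23,27)]))))) (P1 1 2 (P3 1 2 (F [(9,115),(25,121),(21,256),(20,196)]) (F [(7,256),(25,96),(21,79),(14,5)])) (P0 1 1 (F [(7,256),(25,240),(9,40),(21,246),(14,12)]) (P2 4 1 (F [(9,88),(25,256),(21,248)]) (P1 2 1 (F [(25,199),(9,45),(21,256),(20,125)]) (F [(25,256),(21,147),(9,9),(20,128)])))))) (P0 1 2 (P4 4 1 (P5 2 1 (U2 1 1 (F [(6,97),(30,256),(21,87),(14,59)]) (F [(14,26),(7,57),(33,50),(6,256)])) (P3 1 4 (P1 1 2 (U2 1 1 (U1 1 1 (P5 4 1 (F [(33,195),(21,256),(6,35),(30,140)]) (O 9)) (F [(14,225),(7,256),(33,71)])) (F [(7,256),(33,235)])) (F [(33,182),(6,14),(21,256),(30,134)])) (U2 1 1 (U1 1 1 (P4 1 1 (F [(6,194),(30,256),(21,56),(33,245)])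 (P1 4 1 (O 2) (F [(6,256),(13,173),(30,79)]))) (F [(14,151),(33,75),(6,256)])) (F [(33,256),(6,83)])))) (P3 2 1 (P5 4 1 (U2 1 1 (U1 1 1 (P0 1 1 (O 2) (P1 4 1 (O 2) (F [(13,256),(6,161),(30,23)]))) (F [(14,169),(33,112),(13,256)])) (F [(33,256),(13,60),(6,79)])) (P1 1 2 (O 9) (U2 1 1 (U1 1 1 (P0 1 1 (F [(33,256),(26,122),(30,142)]) (F [(33,234),(13,84),(6,12),(21,92),(30,256)])) (F [(33,256),(13,117),(6,34)])) (F [(33,256),(6,42)])))) (P0 1 4 (O 0) (U2 1 1 (U1 1 1 (F [(13,256),(26,253)]) (F [(13,256),(33,136),(14,130)])) (F [(33,256),(13,63),(6,75)]))))) (P1 1 1 (P5 2 1 (F [(6,22),(14,39),(21,256),(30,113),(18,32)]) (F [(14,33),(21,256),(30,25)])) (F [(6,256),(21,201),(30,6),(7,2)])))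

def c109 : Cell := ⟨⟨1,0,0⟩, ⟨0,1,0⟩, ⟨0,0,1⟩, ⟨1,1,0,0⟩, ⟨0,1,1,0⟩, ⟨1,1,1,1⟩, ⟨1,1,0,2⟩⟩

def t109 : Tr :=
  P4 2 1 (P2 2 1 (P4 1 2 (P5 1 1 (P2 1 2 (U2 1 1 (P4 1 4 (F [(12,188),(16,256)]) (F [(12,256),(16,117)])) (F [(35,256),(5,141)])) (F [(12,10984),(23,16384),(16,1227),(11,2089)])) (F [(12,110),(23,256)])) (P0 1 1 (F [(23,256),(30,70),(6,9)]) (F [(23,256),(0,39)]))) (P0 4 1 (P4 1 1 (P5 2 1 (U2 1 1 (P2 1 2 (F [(0,256),(23,157),(24,204)]) (F [(0,256),(21,114)])) (F [(0,256)])) (F [(0,256),(30,31),(8,1),(21,174)])) (P0 1 2 (U2 1 1 (U1 1 1 (P1 1 8 (F [(30,83),(23,256)]) (P4 2 1 (F [(30,154),(0,256),(21,9)]) (F [(30,251),(21,256),(23,192),(0,25)]))) (F [(30,256),(21,25),(0,122)])) (F [(30,256),(21,164),(0,57)])) (F [(30,62),(0,256),(8,45),(21,216)]))) (P1 2 1 (P5 2 1 (U2 1 1 (P4 1 2 (U1 1 1 (P2 1 1 (F [(0,256),(23,225),(24,87)])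 (P1 2 1 (F [(0,256),(23,89),(3,102)]) (U2 1 2 (P0 4 1 (F [(0,256),(20,9),(3,191)]) (U1 1 2 (F [(0,131),(20,256),(21,24),(32,139)]) (F [(0,256),(8,98)]))) (F [(0,256)])))) (F [(0,256),(12,15)])) (U1 1 1 (P3 1 1 (P1 2 1 (F [(0,256)]) (U2 1 2 (P2 4 1 (F [(0,256),(21,68),(3,158)]) (F [(0,80),(21,256),(20,134),(3,13)])) (F [(0,256)]))) (U2 1 2 (P2 4 1 (F [(0,256),(21,121),(32,33),(3,146)]) (F [(0,28),(21,256),(32,1),(3,35)])) (F [(0,256)]))) (F [(0,256),(8,49)]))) (F [(0,256)])) (P3 1 4 (P1 1 2 (F [(0,256),(30,107),(21,164),(20,254)]) (U2 1 1 (U1 1 1 (P2 2 1 (F [(0,256)]) (F [(0,25),(23,51),(21,256),(20,170)])) (F [(0,256),(8,98)])) (F [(0,256),(30,81)]))) (U2 1 1 (U1 1 1 (P4 1 1 (P2 2 1 (F [(0,256),(21,20)]) (F [(0,69),(21,256),(20,143)])) (F [(21,256)])) (F [(0,256),(8,98)])) (F [(0,256),(30,81)])))) (P2 4 1 (U2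 1 1 (P4 1 2 (U1 1 1 (P5 1 1 (P2 1 2 (U2 1 2 (P4 1 4 (O 10) (U1 1 2 (P0 1 1 (F [(0,256),(24,72),(3,179)]) (O 10)) (F [(0,256),(24,210)]))) (F [(0,256),(24,203)])) (P0 2 1 (U2 1 2 (U1 1 2 (P4 1 1 (O 10) (F [(0,225),(3,256)])) (F [(0,256),(24,203),(32,22)])) (F [(0,256),(24,203)])) (O 10))) (P1 1 2 (U2 1 2 (P3 1 4 (F [(0,183),(32,256),(20,237)]) (F [(0,256),(32,161),(3,214)])) (F [(0,256),(20,194),(32,86)])) (P0 2 1 (F [(0,256),(32,165),(3,209)]) (O 10)))) (F [(0,256),(32,49)])) (U1 1 1 (P0 1 1 (F [(0,214),(32,256),(3,147)]) (P1 1 2 (F [(0,214),(32,256),(3,147)]) (P2 2 1 (F [(0,256),(32,234),(3,186)]) (O 8)))) (F [(0,256),(32,145)]))) (F [(0,256),(32,42)])) (P0 8 1 (U2 1 1 (U1 1 1 (P4 1 1 (F [(3,256),(21,100),(0,100),(20,106)]) (F [(21,256)])) (F [(0,256),(32,145)])) (F [(0,256),(32,107)])) (P1 4 1 (U2 1 1 (F [(3,256),(0,110),(21,52),(20,29)])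 (F [(0,256),(32,159)])) (O 8))))))) (P0 1 1 (P3 2 1 (P1 1 1 (F [(6,50),(30,197),(21,256),(7,1)]) (P2 2 1 (F [(6,174),(30,256),(21,254)]) (F [(13,4),(21,256)]))) (P4 4 1 (P2 2 1 (F [(6,216),(30,256),(21,101)]) (P0 4 1 (U2 1 1 (U1 1 1 (F [(13,223),(30,209),(21,256)]) (F [(6,256),(13,98)])) (F [(6,256)])) (F [(13,46),(21,256),(8,9)]))) (P0 1 2 (P3 4 1 (F [(13,256),(6,21),(30,23)]) (O 0)) (P2 4 1 (F [(13,256),(8,55)]) (P1 2 1 (F [(13,256),(2,55),(26,133),(21,100),(8,85)]) (O 8)))))) (P2 4 1 (P3 1 1 (P1 1 4 (F [(30,231),(21,256),(7,1)]) (P2 1 2 (F [(30,256),(21,183)]) (F [(30,54),(8,227),(21,256)]))) (P4 2 1 (P2 1 2 (F [(30,256),(21,183)]) (F [(30,70),(8,48),(21,256)])) (F [(21,256),(13,4)]))) (F [(21,256)])))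

def c110 : Cell := ⟨⟨1,0,0⟩, ⟨0,1,0⟩, ⟨0,0,1⟩, ⟨1,1,0,0⟩, ⟨0,1,1,0⟩, ⟨0,0,1,0⟩, ⟨0,0,1,1⟩⟩

def t110 : Tr :=
  P1 1 2 (P3 1 2 (P5 2 1 (P2 1 2 (O 6) (P1 1 1 (O 6) (P4 2 1 (P2 2 1 (U2 1 1 (P4 1 2 (U1 1 1 (P5 1 1 (F [(29,1),(21,256),(33,45),(17,132)]) (O 0)) (F [(7,256),(21,23),(13,110)])) (O 0)) (F [(7,256),(29,183)])) (O 0)) (O 0)))) (O 0)) (P4 1 1 (P2 1 2 (O 9) (P5 2 1 (P0 1 1 (O 9) (P2 2 1 (U2 1 1 (P5 1 2 (F [(7,1),(21,256),(33,212),(25,40)]) (O 0)) (F [(7,256),(29,60),(33,127)])) (O 0))) (P0 1 1 (O 9) (O 0)))) (P0 1 2 (P3 2 1 (F [(26,256),(14,75)]) (P4 2 1 (F [(33,171),(26,256),(14,56)]) (O 0))) (P1 1 1 (P5 1 1 (P2 1 2 (F [(14,57),(33,199),(26,256)]) (O 0)) (O 0)) (P2 1 1 (P4 1 2 (O 9) (O 0)) (O 0)))))) (P2 1 1 (P4 1 1 (P5 1 2 (P2 1 2 (P4 1 2 (P5 1 4 (F [(9,62),(21,256),(25,68),(20,150)]) (F [(9,58),(7,107),(21,256),(25,187),(20,38)]))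 (F [(7,256),(21,79),(25,96),(14,5)])) (P0 1 1 (F [(7,256),(25,240),(21,246),(14,12),(9,40)]) (P1 2 1 (F [(7,30),(25,191),(21,256),(9,68),(20,22)]) (F [(25,119),(21,256),(9,11),(20,138)])))) (P0 1 1 (P3 1 1 (P1 1 2 (P5 2 1 (F [(33,230),(21,256),(25,87)]) (F [(33,256),(6,98)])) (F [(21,256),(33,119)])) (F [(21,256),(33,119)])) (P1 1 1 (P3 1 2 (P5 2 1 (F [(21,256),(25,93),(33,229)]) (F [(33,224),(25,256),(17,114)])) (F [(21,256),(6,51),(33,2)])) (F [(21,256)])))) (P0 1 2 (P3 2 1 (P5 1 1 (P4 1 2 (F [(33,74),(21,256),(26,82),(13,46)]) (F [(33,47),(13,256),(26,95),(21,42)])) (F [(33,7),(13,256),(6,34)])) (P4 2 1 (F [(33,15),(26,256),(21,64)]) (P0 1 4 (O 0) (F [(13,53),(26,256),(6,3)])))) (P1 1 1 (P5 1 1 (F [(33,62),(21,256),(6,6)]) (P3 1 2 (F [(33,256),(25,219),(2,70)]) (F [(6,256),(33,108),(13,76),(2,53)]))) (F [(21,256)]))))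 (P0 1 1 (P4 2 1 (P1 1 1 (P5 1 1 (P2 1 2 (F [(21,256)]) (U2 1 1 (U1 1 1 (P0 1 1 (F [(21,256),(13,39),(30,42)]) (P1 1 1 (F [(6,87),(21,197),(30,256),(13,61),(8,47)]) (P2 2 1 (F [(6,73),(30,256),(13,80),(8,27),(2,11)]) (F [(13,56),(26,83),(21,256),(17,215)])))) (F [(6,256),(13,238),(33,62)])) (F [(6,256),(33,242)]))) (P3 1 2 (U2 1 1 (U1 1 1 (P1 1 2 (F [(33,256),(17,30),(6,23),(2,54),(25,114),(8,102)]) (P2 1 1 (F [(33,256),(17,3),(25,161),(26,29),(2,58),(8,92)]) (F [(33,49),(17,225),(26,256),(25,158),(21,116)]))) (F [(13,256),(6,134),(33,91)])) (F [(6,134),(33,256)])) (U2 1 1 (U1 1 1 (P0 1 1 (F [(13,184),(6,256),(30,57),(2,201),(8,137)]) (P2 1 1 (F [(6,256),(13,186),(21,157),(17,148),(2,218),(8,204)]) (F [(13,49),(33,92),(6,7),(2,256),(17,76),(21,85),(30,21)]))) (F [(13,256),(6,134),(33,91)])) (F [(6,134),(33,256)]))))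 (P2 1 1 (P5 1 2 (F [(21,256)]) (U2 1 1 (U1 1 1 (P0 1 1 (P3 1 1 (P1 1 2 (P5 2 1 (F [(6,4),(21,256),(13,22),(26,52)]) (F [(13,78),(26,160),(30,256),(33,49),(17,130)])) (F [(21,256),(13,36),(26,61)])) (F [(21,256),(13,36),(26,61)])) (P1 1 1 (P3 1 2 (P5 2 1 (F [(21,256),(30,178),(6,33)]) (F [(21,256),(13,16),(26,12),(30,42),(2,104),(17,201)])) (F [(21,256)])) (F [(21,4),(30,256),(8,31)]))) (F [(6,256),(13,121),(33,5)])) (F [(6,256),(33,68)]))) (P0 2 1 (U2 1 1 (U1 1 1 (P3 1 1 (P5 1 1 (F [(21,256),(13,38),(26,64)]) (F [(13,53),(26,37),(21,178),(2,256),(30,87),(8,29)])) (F [(21,256),(13,38),(26,64)])) (F [(6,256),(13,121),(33,5)])) (F [(6,256),(33,68)])) (U2 1 1 (U1 1 1 (P1 2 1 (P5 1 1 (F [(21,256),(13,23),(26,119)]) (F [(26,222),(21,256),(13,148),(2,94),(8,141),(17,93)])) (F [(21,256),(26,119),(13,23)])) (F [(13,256),(21,224),(26,50)]))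 (F [(13,256),(21,224),(26,50)]))))) (P0 1 2 (P3 2 1 (F [(13,256),(30,14)]) (P4 4 1 (F [(13,256),(30,14)]) (O 0))) (P1 1 1 (F [(13,256),(26,158),(2,99),(17,5)]) (P2 2 1 (F [(13,75),(26,256),(21,49),(8,14)]) (O 8))))) (P1 2 1 (P3 1 1 (P5 1 1 (P2 1 2 (P4 1 2 (F [(21,256)]) (U2 1 1 (P0 1 2 (U1 1 1 (P3 1 1 (F [(6,116),(25,68),(8,104),(30,256)]) (P4 2 1 (F [(6,66),(30,256),(25,98)]) (F [(6,30),(21,169),(30,78),(13,3),(8,94),(2,80),(17,256)]))) (F [(6,256),(13,173),(33,29)])) (F [(21,237),(8,256),(25,220)])) (F [(6,116),(25,256),(33,38)]))) (P1 1 1 (U2 1 1 (P4 2 1 (F [(8,256),(25,221),(21,237)]) (U1 1 1 (P3 1 1 (F [(25,68),(6,116),(8,104),(30,256)]) (P0 1 2 (F [(30,78),(8,94),(21,169),(6,30),(13,3),(2,80),(17,256)]) (F [(8,256),(25,132),(21,212)]))) (F [(6,256),(13,107),(33,4)]))) (F [(6,116),(25,256),(33,38)])) (U2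 1 1 (P4 2 1 (F [(8,256),(10,6)]) (U1 1 1 (P0 1 1 (P3 2 1 (F [(8,256),(25,47),(21,83)]) (F [(8,74),(26,7),(30,7),(17,256),(21,190),(25,16)])) (F [(8,256),(10,10)])) (P0 1 1 (F [(21,256),(33,143),(30,28),(25,14),(17,85)]) (F [(8,256),(30,153),(21,30)])))) (F [(6,62),(25,146),(33,256),(30,250)])))) (P1 1 2 (U2 1 1 (U1 1 1 (P3 1 2 (F [(33,224),(17,147),(25,256)]) (P4 1 1 (F [(33,256),(25,109),(17,88),(8,146)]) (F [(33,242),(17,245),(26,256),(21,24),(30,224)]))) (F [(13,256),(6,93),(33,143)])) (F [(6,134),(33,256)])) (P2 1 1 (U2 1 1 (U1 1 1 (P4 1 1 (F [(25,256),(33,24),(2,26),(26,99)]) (P0 1 2 (F [(17,80),(33,34),(26,256),(25,163),(21,8)]) (F [(25,256),(33,29),(30,109),(17,75),(2,16),(21,20),(26,168)]))) (F [(6,256),(13,116),(33,12)])) (F [(6,91),(33,256),(25,228)])) (U2 1 1 (U1 1 1 (P0 1 1 (P4 2 1 (F [(8,256),(30,13),(17,185),(2,38),(21,21),(6,10),(13,21)])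 (F [(17,197),(26,256),(33,31),(25,110),(21,19)])) (P1 2 1 (F [(25,80),(8,256),(17,235),(21,6)]) (F [(8,256),(10,10)]))) (P0 1 1 (F [(6,144),(21,92),(17,256),(30,95),(8,28)]) (F [(25,256),(8,3),(30,31),(21,208),(17,138)]))) (F [(33,256),(25,13),(30,222)]))))) (P4 1 1 (P2 1 2 (P5 1 2 (F [(21,256),(20,63)]) (U2 1 1 (P1 1 2 (U1 1 1 (P3 1 1 (P5 2 1 (F [(30,231),(21,7),(8,256),(6,123)]) (F [(21,58),(30,256),(8,62),(6,35),(13,26),(2,234),(17,140)])) (F [(30,256),(21,4),(8,31)])) (F [(6,256),(13,121),(33,5)])) (F [(30,256),(25,10)])) (F [(6,214),(25,256),(33,44)]))) (U2 1 1 (P5 2 1 (F [(8,256),(10,6)]) (U1 1 1 (P0 1 1 (P3 1 1 (P1 1 2 (F [(21,229),(8,256),(30,20),(6,40),(2,180),(17,256),(13,45)]) (F [(8,120),(30,256),(21,33)])) (F [(8,50),(30,256),(21,115)])) (P1 1 1 (P3 1 2 (F [(8,74),(26,7),(30,7),(21,190),(17,256),(25,16)])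 (F [(8,256)])) (F [(8,256),(10,10)]))) (P0 1 1 (F [(6,256),(13,1),(21,56)]) (P1 1 1 (F [(6,256),(21,50),(30,233),(33,53),(25,49),(26,222)]) (F [(8,256),(21,30),(30,153)]))))) (F [(6,62),(30,250),(25,146),(33,256)]))) (U2 1 1 (U1 1 1 (P0 1 2 (P3 2 1 (P5 1 1 (F [(21,256),(26,119),(13,23)]) (F [(26,41),(21,256),(8,3),(17,232),(25,17)])) (F [(21,256),(26,119),(13,23)])) (P1 1 1 (P5 1 1 (F [(8,256)]) (F [(8,144),(26,256),(21,172),(30,52),(17,206),(25,85)])) (F [(8,256),(10,10)]))) (P0 1 2 (P3 2 1 (P5 1 1 (F [(13,33),(21,256),(26,116)]) (F [(21,256),(26,62),(17,209),(25,38)])) (F [(13,33),(21,256),(26,116)])) (P1 1 1 (P5 1 1 (F [(21,36),(30,183),(8,256)]) (F [(21,256),(26,27),(30,5),(33,1),(17,201),(25,87)])) (F [(8,256),(21,30),(30,153)])))) (P0 1 2 (P3 2 1 (F [(33,68),(25,135),(21,256),(26,82),(17,36)]) (F [(13,33),(21,256),(26,116)]))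 (F [(13,20),(25,256),(33,13),(21,181),(17,38)]))))) (P2 2 1 (P4 1 1 (P5 1 2 (F [(21,256)]) (U2 1 1 (U1 1 1 (P0 1 1 (F [(8,256),(10,43)]) (P1 1 1 (F [(8,256),(10,64)]) (F [(21,256)]))) (F [(8,256),(30,112)])) (F [(30,256)]))) (P0 1 2 (U2 1 1 (U1 1 1 (F [(8,256),(10,22)]) (F [(8,256),(6,41),(13,7)])) (F [(6,52),(30,5),(8,256)])) (U2 1 1 (U1 1 1 (P1 1 1 (F [(8,256),(10,43)]) (F [(21,256)])) (F [(8,256),(30,112)])) (F [(30,256)])))) (P0 2 1 (P4 2 1 (U2 1 1 (U1 1 1 (P1 1 1 (P5 1 1 (F [(21,256)]) (O 8)) (F [(21,256)])) (F [(8,256),(30,59)])) (F [(8,256),(30,61)])) (O 8)) (P1 4 1 (U2 1 1 (U1 1 1 (P3 1 1 (P5 1 1 (F [(21,256)]) (O 8)) (F [(21,256)])) (F [(8,256),(30,67),(3,40)])) (F [(8,256),(30,161),(3,55)])) (F [(21,256)])))))))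

def c111 : Cell := ⟨⟨1,0,0⟩, ⟨0,1,0⟩, ⟨0,0,1⟩, ⟨1,1,0,2⟩, ⟨0,1,0,1⟩, ⟨0,1,1,0⟩, ⟨0,0,0,1⟩⟩

def t111 : Tr :=
  P5 1 2 (P4 1 2 (P2 1 4 (O 7) (P5 2 1 (O 3) (P0 1 1 (O 7) (P1 1 1 (O 7) (O 3))))) (P0 1 2 (O 7) (P1 1 1 (O 7) (O 3)))) (P1 1 2 (P3 1 1 (P5 2 1 (P4 1 1 (P2 1 2 (P5 1 2 (F [(7,29),(9,256),(23,145)]) (U2 1 1 (P1 1 2 (U1 1 1 (P3 1 1 (P5 2 1 (F [(7,162),(30,256),(23,196)]) (F [(7,20),(30,256),(18,2)])) (F [(7,14),(23,256),(30,114)])) (F [(7,256),(14,161)])) (F [(7,1),(23,256),(30,77)])) (F [(7,256),(14,3)]))) (U2 1 1 (P5 2 1 (F [(23,256),(30,168),(6,9)]) (F [(30,253),(18,256),(23,224),(6,28)])) (F [(7,247),(30,256),(23,71)]))) (F [(30,256),(18,232),(6,5),(23,214)])) (P1 1 4 (O 2) (F [(30,256),(6,63),(18,56),(33,33),(25,13)]))) (P0 1 4 (P3 2 1 (P5 1 1 (O 7) (U2 1 1 (P1 1 4 (O 2) (O 7)) (F [(7,87),(30,226),(23,256)])))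 (O 7)) (P5 1 1 (P2 1 2 (F [(7,10),(9,256),(23,67)]) (U2 1 1 (P0 2 1 (F [(23,256),(9,71)]) (F [(23,256),(30,110),(6,24)])) (F [(7,70),(23,256),(30,104)]))) (U2 1 1 (P0 2 1 (P3 1 4 (F [(30,124),(18,256),(23,204)]) (U1 1 1 (F [(23,160),(9,96),(35,131),(18,256),(24,35)]) (F [(14,66),(30,82),(9,256),(35,78),(18,94),(6,92)]))) (F [(30,181),(6,30),(18,256),(23,243)])) (F [(7,87),(30,226),(23,256)]))))) (P1 2 1 (P3 4 1 (P5 1 2 (P2 1 4 (F [(9,256),(23,169)]) (F [(9,105),(23,256),(35,77)])) (U2 1 1 (P1 1 2 (P3 1 2 (F [(23,256),(30,110),(6,24)]) (F [(23,256),(9,71)])) (F [(23,256),(35,241),(9,87)])) (F [(7,23),(23,256),(30,40)]))) (P4 2 1 (P2 1 4 (O 7) (F [(9,19),(35,256)])) (F [(9,67),(35,256)]))) (P0 1 2 (P4 2 1 (P2 1 2 (P5 1 4 (O 7) (F [(35,256),(23,4)])) (P3 2 1 (U2 1 1 (P1 2 1 (F [(35,256)]) (O 7)) (F [(35,256)]))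 (O 7))) (P3 8 1 (P5 1 2 (O 7) (U2 1 1 (P1 2 1 (F [(35,256)]) (O 7)) (F [(35,256)]))) (O 5))) (P2 1 1 (P4 1 2 (P5 1 4 (O 7) (F [(35,256),(16,20)])) (U2 1 1 (P3 2 1 (F [(35,256)]) (O 7)) (F [(1,43),(35,256)]))) (U2 1 1 (P1 4 1 (P3 2 1 (F [(35,256),(16,74),(23,9),(31,68)]) (F [(35,133),(9,58),(16,75),(5,256)])) (O 3)) (F [(35,256),(28,20),(16,44),(5,50)]))))))

def c112 : Cell := ⟨⟨1,0,0⟩, ⟨0,1,0⟩, ⟨0,0,1⟩, ⟨1,2,0,1⟩, ⟨0,1,0,1⟩, ⟨1,3,2,2⟩, ⟨1,1,0,2⟩⟩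

def t112 : Tr :=
  P3 4 1 (P5 1 2 (P2 1 1 (P4 1 4 (U2 1 1 (P5 1 4 (F [(5,256),(35,45),(12,132),(9,4)]) (F [(35,74),(12,256),(31,39)])) (F [(35,256),(5,159),(12,33)])) (P0 2 1 (U2 1 1 (U1 1 1 (P3 1 1 (F [(35,216),(12,256),(31,15)]) (P4 2 1 (F [(35,228),(9,16),(12,256)]) (P0 1 2 (F [(35,218),(9,256)]) (F [(9,256),(12,218)])))) (F [(9,256),(35,193)])) (F [(35,256),(23,28)])) (F [(35,61),(12,256),(19,20)]))) (P0 4 1 (P4 1 2 (U2 1 1 (U1 1 1 (P1 1 2 (F [(12,256),(35,31),(19,38)]) (O 5)) (P1 1 2 (F [(35,145),(9,111),(12,256)]) (O 5))) (P1 1 2 (F [(35,256),(12,77),(5,31)]) (O 5))) (U2 1 1 (U1 1 1 (P1 1 2 (P3 1 1 (F [(35,142),(23,108),(12,256)]) (P0 1 4 (P4 2 1 (F [(23,127),(9,256),(12,226)]) (F [(9,211),(23,256)])) (F [(23,256),(9,28),(12,73)]))) (O 5)) (P1 1 2 (F [(35,256)]) (O 5))) (P1 1 2 (F [(35,256),(23,28)]) (O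 5)))) (P1 4 1 (U2 1 1 (U1 1 1 (P3 1 2 (F [(12,256),(35,30)]) (O 5)) (P3 1 2 (F [(12,256),(35,86),(9,75)]) (O 5))) (P3 1 2 (F [(35,256),(9,15),(12,206)]) (O 5))) (O 5)))) (P1 2 1 (U2 1 1 (P3 1 2 (P5 2 1 (U1 1 1 (P2 1 1 (F [(23,256),(30,29)]) (P0 2 1 (F [(23,256),(6,8),(24,101)]) (P1 2 1 (F [(23,256),(6,8),(24,101)]) (U2 1 2 (F [(23,256),(0,38),(24,220)]) (F [(23,256),(0,70),(18,90),(24,68)]))))) (P2 1 1 (F [(23,256),(30,35)]) (P0 2 1 (F [(23,256),(6,104)]) (P1 2 1 (F [(23,256),(6,104)]) (U0 1 2 (U1 2 1 (P2 2 1 (F [(23,256),(6,56)]) (F [(6,87),(23,256),(18,67),(24,108),(0,88)])) (F [(30,256),(23,206)])) (F [(23,256),(0,80),(18,112),(24,20)])))))) (U1 1 1 (P1 1 2 (F [(23,222),(6,256),(0,60)]) (P0 2 1 (F [(23,256),(6,100),(0,54)]) (P2 2 1 (F [(23,256),(6,155),(0,100),(24,21)]) (U2 1 2 (U1 1 2 (F [(0,256),(23,120),(24,106),(6,188)])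 (P1 2 1 (F [(23,223),(6,256),(0,165),(24,97)]) (F [(0,114),(23,256),(6,106),(24,217)]))) (F [(23,256),(6,196),(0,115),(24,143)]))))) (P1 1 2 (F [(30,256),(23,249)]) (P0 2 1 (F [(30,95),(23,256),(6,240)]) (P2 2 1 (F [(30,67),(23,256),(6,222)]) (F [(6,256),(23,127),(0,122)])))))) (U1 1 1 (P0 1 1 (F [(23,256),(24,57)]) (P2 1 1 (F [(23,256),(24,57)]) (P1 2 1 (F [(23,256),(6,10),(24,159)]) (U2 1 2 (F [(23,256),(0,38),(24,220)]) (P0 2 1 (F [(23,256),(24,173)]) (F [(23,256),(0,69),(24,72),(18,87)])))))) (P0 1 1 (F [(23,256),(35,1),(24,58)]) (P2 1 1 (F [(23,256),(35,1),(24,58)]) (P1 2 1 (F [(23,256),(18,24),(24,136)]) (U0 1 2 (U1 2 1 (P0 2 1 (F [(23,256),(18,8),(24,174)]) (P2 2 1 (F [(23,256),(18,8),(24,174)]) (F [(18,93),(23,256),(24,205),(0,40)]))) (F [(6,132),(23,256),(24,34)])) (P0 2 1 (F [(23,256),(24,173)]) (F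 [(23,16384),(0,4419),(18,4770),(24,4676)])))))))) (F [(23,22),(30,256),(35,218)])) (P0 4 1 (U2 1 1 (U1 1 1 (P2 1 2 (P3 1 1 (P5 1 1 (F [(23,256),(24,57)]) (P1 1 4 (U2 1 2 (F [(0,46),(23,256),(24,218)]) (P3 1 2 (F [(23,256),(0,74),(24,168)]) (F [(23,256),(24,173)]))) (F [(23,256),(24,144)]))) (F [(23,256),(24,57)])) (P3 1 1 (P5 4 1 (U2 1 2 (U1 1 2 (F [(12,154),(24,256),(23,229)]) (P2 2 1 (F [(23,256),(12,33),(24,197)]) (F [(24,256),(12,45),(23,166)]))) (P2 2 1 (F [(23,256),(12,31),(24,168)]) (P1 4 1 (F [(23,252),(12,37),(24,256)]) (O 5)))) (F [(0,39),(24,256),(23,194)])) (O 5))) (P2 1 2 (P3 1 1 (P5 1 1 (F [(23,256),(35,1),(24,58)]) (P1 1 4 (U0 1 2 (U1 2 1 (P3 1 2 (P5 2 1 (F [(23,256),(24,174),(18,8)]) (F [(23,213),(30,33),(24,256),(0,47)])) (F [(23,256),(24,174),(18,8)])) (F [(23,256),(6,36),(18,101)])) (P3 1 2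 (F [(23,256),(0,73),(24,154)]) (F [(23,256),(24,173)]))) (F [(23,256),(35,23),(24,160)]))) (F [(35,1),(23,256),(24,58)])) (P3 1 1 (P5 4 1 (U0 1 2 (U1 2 1 (P2 2 1 (F [(23,256),(9,70),(24,217),(12,19)]) (F [(24,256),(23,182),(9,36)])) (F [(35,166),(23,68),(24,256)])) (P2 2 1 (F [(23,256),(12,31),(24,168)]) (P1 4 1 (F [(23,256),(24,254),(9,31),(12,29)]) (O 5)))) (F [(23,196),(24,256),(6,1)])) (O 5)))) (P2 1 2 (F [(23,22),(35,218),(30,256)]) (P3 1 1 (U0 1 1 (P5 4 1 (F [(23,125),(35,256),(6,9),(24,246)]) (F [(23,256),(6,96),(24,243)])) (F [(23,256)])) (O 5)))) (P2 4 1 (U2 1 1 (U1 1 1 (P4 1 2 (P5 1 1 (F [(12,256),(35,113)]) (F [(12,256),(23,10),(0,155)])) (P5 4 1 (U2 1 2 (F [(12,256),(24,130)]) (P4 2 1 (F [(12,256),(24,28)]) (F [(12,256),(23,12),(24,85)]))) (F [(0,256),(24,96),(23,62)]))) (P4 1 2 (P5 1 1 (F [(35,214),(12,256)])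 (P3 1 4 (U0 1 2 (P1 1 2 (U1 2 1 (F [(23,256),(0,105),(24,71),(18,37)]) (F [(23,256),(18,103),(24,21),(0,34)])) (F [(23,256),(12,2),(24,169),(19,7)])) (F [(23,256),(0,245)])) (F [(23,256),(12,12),(19,8),(24,138)]))) (P5 4 1 (U0 1 2 (U1 2 1 (P4 2 1 (F [(23,256),(12,68),(9,73),(24,218)]) (F [(24,256),(12,28),(23,141),(35,46)])) (F [(35,166),(23,68),(24,256),(12,1)])) (P4 2 1 (F [(23,256),(12,174),(9,72),(24,190)]) (P0 1 1 (P3 4 1 (F [(23,251),(12,49),(24,256),(9,42)]) (O 5)) (F [(23,256),(12,112),(24,227),(9,67)])))) (U0 1 2 (P1 1 2 (F [(24,256),(6,4),(23,181)]) (F [(24,256),(12,27),(23,140),(35,47)])) (P1 1 2 (F [(23,194),(0,49),(24,256)]) (P0 1 1 (F [(23,194),(0,49),(24,256)]) (F [(12,256),(23,196)]))))))) (P4 1 2 (P5 1 1 (F [(35,256),(9,6),(12,122)]) (F [(23,256),(18,51),(19,13),(24,84)])) (U0 1 1 (P5 4 1 (F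 [(23,94),(35,256),(24,208)]) (U1 2 1 (F [(23,256),(35,9),(24,213)]) (P1 1 2 (F [(6,66),(23,218),(24,256)]) (F [(23,140),(35,136),(24,256)])))) (F [(23,256)])))) (U2 1 1 (U1 1 1 (F [(0,83),(12,145),(24,256),(23,121)]) (P1 4 1 (U0 1 2 (P3 1 2 (F [(0,43),(24,256),(23,247),(30,1)]) (O 5)) (P3 1 2 (F [(0,256),(23,235),(24,155)]) (O 5))) (O 5))) (P1 4 1 (U0 1 1 (U1 2 1 (F [(23,256),(24,213),(35,9)]) (P3 1 2 (F [(30,25),(0,54),(23,256),(24,248),(35,6)]) (O 5))) (F [(23,256),(0,14)])) (O 5))))))) (P0 1 2 (P4 2 1 (P5 1 4 (P2 1 2 (F [(35,252),(5,163),(28,10),(16,35),(31,256)]) (O 5)) (O 5)) (O 5)) (P2 1 1 (P5 1 4 (P4 1 2 (F [(35,45),(5,256),(9,4),(12,132)]) (O 5)) (O 5)) (O 5)))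

def c113 : Cell := ⟨⟨1,0,0⟩, ⟨0,1,0⟩, ⟨0,0,1⟩, ⟨1,1,0,0⟩, ⟨1,2,0,1⟩, ⟨1,3,2,2⟩, ⟨1,1,0,2⟩⟩

def t113 : Tr :=
  P2 2 1 (P5 1 2 (P4 1 1 (P2 1 2 (U2 1 1 (P5 1 4 (O 3) (F [(12,256),(16,117)])) (F [(35,256),(5,159),(12,33)])) (F [(12,256),(23,225),(16,16),(11,35)])) (F [(12,256),(23,132),(24,28)])) (P1 1 1 (P3 2 1 (U2 1 1 (P5 2 1 (U1 1 1 (P4 1 1 (F [(23,256),(12,20),(0,35)]) (F [(23,256),(0,173)])) (P4 1 1 (F [(23,256),(30,29),(0,4)]) (P1 2 1 (P3 2 1 (F [(23,256),(30,28)]) (U0 1 2 (U1 2 1 (F [(23,256),(30,54),(0,189)]) (F [(30,256),(23,206)])) (F [(23,255),(30,27),(0,256)]))) (U0 1 2 (U1 2 1 (F [(23,256),(0,189),(30,49)]) (F [(23,206),(30,256)])) (F [(23,256),(0,245)]))))) (U1 1 1 (P1 1 2 (P3 1 2 (F [(23,256),(6,223),(0,93)]) (P4 2 1 (F [(23,256),(6,121),(0,126)]) (F [(23,69),(30,157),(0,256)]))) (F [(23,256),(0,173)]))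 (P1 1 2 (P3 1 2 (F [(30,256),(23,249)]) (P4 2 1 (F [(30,162),(23,256)]) (F [(30,228),(23,152),(0,256)]))) (P2 2 1 (P4 2 1 (F [(23,256),(30,50)]) (F [(30,228),(23,152),(0,256)])) (F [(30,198),(23,56),(0,256)]))))) (F [(23,22),(30,256),(35,218)])) (P4 4 1 (U2 1 1 (U1 1 1 (P5 1 1 (F [(12,250),(23,256)]) (F [(0,256),(23,189)])) (P5 1 1 (F [(23,256),(12,123),(35,34),(30,1)]) (U0 1 2 (P0 2 1 (P3 1 2 (U1 2 1 (F [(0,189),(23,256),(30,49)]) (F [(23,256),(0,34),(18,103),(24,21)])) (F [(12,2),(23,256),(24,169),(19,7)])) (U1 2 1 (F [(0,189),(23,256),(30,49)]) (F [(23,256),(0,86),(30,195)]))) (F [(23,256),(0,245)])))) (P5 1 1 (F [(35,250),(30,158),(12,256),(5,32)]) (F [(23,256),(18,43),(24,112),(19,7)]))) (U2 1 1 (F [(0,256),(12,49),(24,181)]) (F [(23,256),(0,128),(12,1),(24,108),(18,48),(19,38)])))) (F [(12,256),(23,132),(24,28)])))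 (P1 4 1 (P5 1 1 (U2 1 1 (P0 1 4 (F [(0,72),(12,175),(24,256),(23,187)]) (P2 1 2 (F [(0,229),(23,98),(24,256)]) (F [(0,256),(21,114)]))) (F [(0,256)])) (P3 2 1 (P1 1 2 (U2 1 1 (U1 1 1 (P5 2 1 (F [(0,256),(30,126)]) (P3 1 2 (F [(30,256),(6,60),(0,175)]) (F [(30,93),(0,256),(6,81)]))) (F [(30,256),(6,49),(0,164),(18,21)])) (F [(30,256),(23,14),(0,53)])) (F [(0,256),(8,178),(21,19)])) (U2 1 1 (P0 1 4 (F [(0,256),(18,71),(30,1)]) (F [(0,256),(8,178),(21,19)])) (F [(0,256),(30,97),(18,63)])))) (P0 2 1 (U2 1 1 (P3 4 1 (P5 1 2 (F [(0,45),(12,211),(24,256)]) (F [(0,193),(32,256),(24,73),(12,64),(3,126)])) (O 5)) (F [(0,256)])) (P2 4 1 (U2 1 1 (P5 1 2 (U1 1 1 (P4 1 1 (P2 1 2 (F [(12,148),(24,256),(23,27)]) (P1 2 1 (F [(0,109),(24,256),(32,89),(3,46)]) (O 5))) (P1 2 1 (F [(0,256),(24,251),(32,224),(3,154)]) (O 5))) (F [(0,256),(32,49)]))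 (U1 1 1 (P1 1 1 (F [(0,186),(32,256),(24,65),(3,123),(12,77)]) (P2 2 1 (F [(0,256),(32,237),(24,213),(3,157)]) (O 8))) (F [(0,256),(32,212)]))) (F [(0,256),(32,42)])) (O 8))))

def c114 : Cell := ⟨⟨1,0,0⟩, ⟨0,1,0⟩, ⟨0,0,1⟩, ⟨1,1,0,0⟩, ⟨0,1,0,1⟩, ⟨0,1,1,0⟩, ⟨1,3,2,2⟩⟩

def t114 : Tr :=
  P0 1 1 (P3 1 1 (P1 1 2 (P5 4 1 (U2 1 1 (P3 4 1 (P5 1 2 (F [(30,256),(32,56)]) (O 2)) (F [(30,256),(32,56)])) (F [(6,256)])) (O 2)) (P0 1 1 (U2 1 1 (U1 1 1 (P0 1 2 (P3 2 1 (P5 1 1 (F [(6,256),(30,29)]) (P1 1 2 (F [(30,256),(18,88),(32,155)]) (F [(6,256),(18,53)]))) (F [(6,256),(18,17)])) (P1 1 1 (P5 1 1 (F [(6,256),(18,222)]) (P3 1 2 (U2 1 2 (U1 1 2 (P1 1 2 (F [(30,256),(18,118),(32,160)]) (F [(6,102),(18,256)])) (F [(6,256)])) (F [(6,256)])) (F [(6,228),(18,256)]))) (F [(6,221),(18,256)]))) (F [(6,256),(18,44)])) (F [(6,256)]))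 (P1 2 1 (U2 1 1 (P2 1 2 (U1 1 1 (P3 1 1 (P5 1 1 (F [(6,256),(18,72),(0,113)]) (P1 1 4 (U2 1 2 (U1 1 2 (P3 1 2 (F [(30,256),(18,134),(21,68),(32,180)]) (F [(30,14),(18,256),(21,135)])) (F [(6,256)])) (F [(6,256)])) (F [(6,107),(18,239),(21,256),(0,91)]))) (F [(6,256),(18,96),(0,109)])) (F [(6,256),(18,44)])) (U1 1 1 (P3 1 1 (P1 1 2 (P5 4 1 (F [(6,47),(18,256),(21,223),(0,83)]) (O 2)) (F [(6,40),(18,256),(0,93),(21,212)])) (F [(18,130),(6,110),(0,256)])) (F [(6,256),(18,51),(0,84)]))) (F [(30,256),(0,23)])) (P2 2 1 (U2 1 1 (P5 1 2 (U1 1 1 (P4 1 1 (P2 1 2 (F [(6,256),(21,89),(0,103)]) (U2 1 2 (F [(6,168),(0,256),(18,79)]) (F [(30,256),(18,40),(0,190)]))) (U2 1 2 (F [(18,90),(6,162),(0,256)]) (F [(6,41),(30,202),(18,121),(0,256)]))) (F [(6,256),(30,6),(18,37),(0,97)])) (F [(6,80),(18,51),(30,22),(0,256)])) (F [(30,256),(0,27)]))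 (F [(0,256),(24,242),(18,50),(30,85)]))))) (P4 4 1 (P1 1 1 (U2 1 1 (P3 1 4 (F [(6,221),(18,256)]) (P4 1 2 (F [(6,256),(18,256),(23,3)]) (U1 1 1 (P0 2 1 (F [(23,256),(18,97),(9,88),(24,201)]) (F [(18,256),(6,29),(23,93)])) (P0 2 1 (F [(23,160),(18,256),(19,65),(9,151)]) (F [(6,256),(30,4),(18,11)]))))) (F [(30,256),(7,27),(23,85)])) (P2 2 1 (U2 1 1 (P4 1 2 (U1 1 1 (P5 1 1 (P2 1 2 (F [(6,256),(0,21)]) (P0 2 1 (U2 1 2 (U1 1 2 (P4 1 1 (F [(6,256),(23,142),(0,167),(24,62)]) (P3 1 2 (F [(6,256),(23,155),(24,111),(0,151)]) (F [(23,256),(6,73),(24,174),(0,20)]))) (F [(6,256),(23,135),(24,176)])) (F [(6,256),(23,155)])) (U2 1 2 (U1 1 2 (P1 1 1 (F [(6,256),(0,213),(23,109),(24,122)]) (F [(0,256),(24,113),(23,109),(6,194)])) (F [(6,256),(23,124),(0,194),(24,176)])) (F [(30,198),(6,79),(23,187),(0,106),(24,256)])))) (P0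 2 1 (P3 1 4 (F [(6,139),(18,256),(24,29),(23,177),(0,227)]) (U2 1 2 (U1 1 2 (P4 1 2 (F [(6,256),(24,166),(23,160),(0,145)]) (F [(6,64),(23,256),(18,4),(24,245)])) (F [(6,201),(23,245),(24,256)])) (F [(6,256),(23,155)]))) (U2 1 2 (U1 1 2 (P3 1 8 (F [(0,256),(6,193)]) (P2 1 1 (F [(24,155),(6,256),(0,227),(23,138)]) (F [(0,173),(24,256),(23,229),(6,108)]))) (F [(18,256),(24,82),(6,123),(0,216),(23,224)])) (F [(6,192),(30,30),(24,256),(23,216),(0,126)])))) (F [(30,175),(18,256),(0,27)])) (U1 1 1 (P0 1 1 (P3 1 2 (F [(18,256),(24,163),(23,214)]) (F [(23,256),(9,72),(18,79),(24,204)])) (P2 2 1 (P5 4 1 (F [(23,256),(18,69),(24,200)]) (F [(18,254),(24,188),(23,256),(0,79)])) (U2 1 2 (F [(24,250),(0,87),(18,163),(23,256)]) (F [(18,95),(6,61),(23,247),(24,256),(0,50)])))) (P0 1 1 (P3 1 2 (F [(18,256),(24,53),(23,124)])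 (F [(23,229),(9,256),(18,239),(24,136)])) (F [(18,256),(24,126),(23,238),(0,12)])))) (F [(30,256),(23,85),(7,27)])) (P0 4 1 (U2 1 1 (U1 1 1 (P4 1 1 (F [(24,256),(18,48),(23,169)]) (O 5)) (P4 1 1 (F [(18,51),(24,256),(23,181)]) (O 5))) (F [(30,11),(23,256),(7,16),(18,82),(24,182),(19,19)])) (F [(24,256),(18,6),(23,129),(12,4)])))) (P0 1 2 (P3 2 1 (P1 1 2 (U2 1 1 (P5 4 1 (O 5) (O 2)) (F [(7,58),(30,256),(23,174)])) (O 5)) (O 5)) (P1 1 1 (P3 1 2 (U2 1 1 (P5 4 1 (O 5) (O 2)) (F [(30,256),(7,27),(23,85)])) (O 5)) (O 5))))) (P1 1 1 (P3 1 2 (P5 4 1 (P2 2 1 (U2 1 1 (P5 1 2 (F [(30,256),(32,56)]) (U1 1 1 (P1 1 1 (O 2) (F [(30,256),(32,83)])) (F [(6,256),(13,98)]))) (F [(6,256)])) (P1 4 1 (U2 1 1 (U1 1 1 (P5 1 1 (U2 1 2 (P0 1 4 (F [(30,256),(8,8),(32,103)]) (F [(30,105),(13,175),(21,256),(8,158)])) (F [(13,180),(30,256)]))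 (O 2)) (F [(6,256),(13,98)])) (F [(6,256)])) (U2 1 1 (U1 1 1 (P0 2 1 (U2 1 2 (P3 4 1 (F [(21,247),(13,256),(30,45),(8,238),(32,17)]) (F [(30,199),(21,177),(13,89),(32,256)])) (F [(13,164),(30,134),(21,256),(32,43)])) (F [(21,256),(8,9),(13,46)])) (F [(13,218),(21,256)])) (F [(13,158),(21,256)])))) (P1 1 2 (O 2) (P2 4 1 (O 2) (O 8)))) (P0 1 1 (P3 2 1 (P2 1 1 (U2 1 1 (P4 1 2 (U1 1 1 (P5 1 1 (F [(6,214),(21,256),(0,36)]) (P3 1 4 (F [(30,256),(21,145),(32,106)]) (F [(6,225),(21,256),(0,60)]))) (F [(6,256)])) (U1 1 1 (P3 1 2 (P5 4 1 (F [(6,69),(18,177),(21,256),(0,11)]) (P1 1 2 (F [(6,6),(30,169),(18,176),(21,236),(32,256)]) (F [(6,50),(21,256),(18,158),(8,62)]))) (F [(30,55),(18,249),(0,90),(21,256)])) (F [(6,256),(18,51),(0,84)]))) (F [(30,256),(0,23)])) (U2 1 1 (U1 1 1 (P1 1 1 (P3 1 2 (P5 2 1 (F [(6,66),(21,131),(8,256),(18,67)])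 (F [(6,113),(32,256),(21,181),(18,50)])) (F [(8,77),(6,2),(0,25),(21,256),(18,216)])) (F [(8,256),(0,213),(21,15),(30,22)])) (F [(6,256),(8,202),(32,84)])) (F [(30,256),(8,20),(0,5),(32,62)]))) (P4 2 1 (P2 1 1 (U2 1 1 (P5 1 2 (U1 1 1 (P4 1 2 (F [(30,256),(6,66),(21,71),(0,165)]) (F [(30,140),(6,31),(0,256)])) (F [(6,256),(30,6),(18,37),(0,97)])) (F [(30,103),(0,256),(18,24)])) (F [(30,256),(0,57)])) (F [(30,11),(0,256),(8,95)])) (F [(0,256),(8,68),(30,3),(18,5)]))) (P2 2 1 (P4 1 1 (F [(30,256),(21,89),(32,65)]) (U2 1 1 (U1 1 1 (P3 1 1 (P5 2 1 (F [(6,169),(21,251),(8,256)]) (F [(6,99),(30,91),(21,157),(32,256)])) (F [(8,256),(21,120),(30,88)])) (F [(6,256),(30,21),(8,191),(32,109)])) (F [(30,256),(8,19),(32,78)]))) (U2 1 1 (U1 1 1 (P0 2 1 (P3 1 1 (F [(21,97),(30,213),(6,7),(32,256)]) (F [(8,256),(21,146),(6,41)]))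 (P1 2 1 (F [(21,102),(30,200),(6,15),(32,256)]) (F [(8,256),(21,32),(13,74)]))) (F [(6,50),(13,187),(30,80),(8,256),(21,74)])) (F [(13,128),(30,70),(21,256)]))))) (P2 4 1 (P3 1 1 (P5 2 1 (P2 1 2 (P4 1 1 (F [(30,256),(21,228)]) (F [(30,91),(8,256),(21,216),(18,53)])) (F [(30,35),(8,66),(6,16),(21,256)])) (F [(8,33),(21,256),(13,13)])) (P4 2 1 (P2 1 2 (P5 1 1 (U2 1 1 (U1 1 1 (P4 1 2 (F [(30,256),(21,13),(0,146)]) (F [(30,140),(0,256),(6,31)])) (F [(6,256),(30,6),(18,37),(0,97)])) (F [(30,256)])) (F [(30,11),(0,256),(8,95)])) (F [(0,256),(8,178),(21,19)])) (U2 1 1 (P0 1 4 (F [(0,256),(8,72),(18,10)]) (F [(0,256),(8,178),(21,19)])) (F [(0,256),(30,93),(18,70)])))) (P0 2 1 (P3 1 1 (O 8) (U2 1 1 (P4 4 1 (F [(0,98),(32,256),(21,240),(24,220)]) (O 5)) (F [(0,256)]))) (O 8))))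

def c115 : Cell := ⟨⟨1,0,0⟩, ⟨0,1,0⟩, ⟨0,0,1⟩, ⟨1,1,0,0⟩, ⟨0,1,0,0⟩, ⟨0,1,1,0⟩, ⟨0,1,0,1⟩⟩

def t115 : Tr :=
  P0 1 2 (O 2) (P1 1 1 (P5 1 1 (P2 1 2 (O 2) (P3 1 1 (P1 1 1 (O 2) (P2 2 1 (U2 1 1 (U1 1 1 (P3 1 1 (P5 1 1 (P2 1 2 (O 2) (F [(6,21),(18,256),(32,132),(24,1),(21,198)])) (U2 1 2 (F [(32,256),(18,122),(6,64)]) (F [(6,100),(30,223),(32,256)]))) (P4 1 1 (P2 1 2 (O 2) (F [(18,32),(32,256),(6,2),(8,11),(0,213)])) (O 8))) (F [(6,256),(18,35),(32,17)])) (F [(6,256),(32,9)])) (O 8))) (P4 2 1 (P2 2 1 (U2 1 1 (P4 1 2 (U1 1 1 (P5 1 1 (P2 1 2 (O 2) (F [(18,32),(0,213),(32,256),(6,2),(8,11)])) (O 8)) (F [(6,256),(18,67)])) (O 8)) (F [(6,256),(32,119),(24,161)])) (O 8)) (O 8)))) (P3 1 2 (P1 1 2 (O 2) (P2 1 1 (O 2) (O 8))) (P4 1 1 (P2 1 1 (O 2) (O 8)) (O 8)))) (P2 1 1 (P4 1 2 (P5 1 2 (O 5) (P3 1 2 (P1 1 1 (P5 2 1 (U2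 1 1 (U1 1 1 (P2 1 1 (P4 1 2 (P5 1 2 (O 5) (F [(18,32),(0,213),(32,256),(8,11),(6,2)])) (F [(32,204),(0,256),(8,132)])) (F [(8,256),(0,216),(21,54)])) (F [(6,208),(18,39),(0,256),(8,19)])) (F [(6,200),(30,98),(0,256),(24,35)])) (O 8)) (O 5)) (O 5))) (P5 2 1 (O 5) (P0 1 1 (O 8) (P1 1 1 (O 8) (O 5))))) (P0 2 1 (P3 1 1 (P5 1 1 (O 5) (O 8)) (O 5)) (P1 2 1 (P5 1 1 (P2 1 2 (O 5) (O 8)) (O 8)) (P2 2 1 (P4 1 2 (P5 1 2 (O 5) (O 8)) (O 8)) (O 8))))))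

def c116 : Cell := ⟨⟨1,0,0⟩, ⟨0,1,0⟩, ⟨0,0,1⟩, ⟨1,0,1,2⟩, ⟨1,1,0,0⟩, ⟨0,0,1,1⟩, ⟨0,0,0,1⟩⟩

def t116 : Tr :=
  P4 1 2 (P5 1 2 (P2 1 4 (O 3) (P3 1 1 (O 11) (P4 2 1 (O 11) (P0 1 1 (O 3) (O 11))))) (P3 1 2 (O 11) (P4 1 1 (O 11) (P0 1 1 (P3 2 1 (U2 1 1 (U1 1 1 (P1 1 1 (P5 1 1 (P2 1 2 (O 3) (F [(16,256),(34,49),(5,159),(20,204)])) (F [(1,29),(16,256),(20,249),(12,80)])) (P2 1 1 (P4 1 2 (O 11) (F [(28,109),(5,256),(34,35)])) (F [(5,256),(20,8)]))) (F [(1,256),(16,94),(34,28),(5,200)])) (F [(1,51),(34,256),(5,124),(28,61)])) (O 3)) (O 11))))) (P3 1 1 (P5 2 1 (P0 1 1 (P4 1 1 (P2 1 2 (P5 1 2 (F [(12,188),(16,256)]) (P3 1 1 (F [(1,28),(12,89),(5,2),(16,256),(20,248)]) (F [(35,256),(5,26),(16,105)]))) (F [(12,148),(1,15),(20,256),(16,84)])) (P3 2 1 (F [(12,149),(20,256),(9,27),(16,62)]) (F [(35,200),(20,256),(1,1)])))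 (P2 1 1 (P4 1 2 (P5 1 2 (F [(5,256),(35,98)]) (U2 1 1 (P3 1 2 (U1 1 1 (P1 1 1 (F [(12,87),(20,247),(1,27),(16,256)]) (F [(5,256),(12,186),(35,44)])) (F [(1,256),(16,29),(5,217)])) (F [(5,256),(12,172),(35,75)])) (F [(1,5),(34,256),(5,211),(12,121),(20,23)]))) (U2 1 1 (P5 2 1 (F [(12,128),(5,196),(20,256)]) (U1 1 1 (F [(12,101),(20,256),(5,112),(16,54)]) (F [(1,185),(12,256),(5,120),(34,21)]))) (F [(1,128),(34,58),(12,30),(5,249),(20,256)]))) (U2 1 1 (U1 1 1 (F [(12,94),(20,256),(5,125),(1,8),(16,38)]) (F [(12,256),(5,120),(34,21),(1,185)])) (F [(34,256),(12,20),(5,135)])))) (F [(20,256),(9,2)])) (P0 1 2 (P4 2 1 (P5 1 1 (P2 1 2 (P4 1 2 (F [(12,188),(16,256)]) (F [(12,256),(23,166),(11,84)])) (F [(12,123),(23,256)])) (F [(12,110),(23,256)])) (P3 2 1 (P5 2 1 (U2 1 1 (U1 1 1 (P0 1 1 (P4 1 1 (F [(0,5),(23,256),(12,3),(24,63)])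 (P3 2 1 (F [(0,11),(23,256)]) (U2 1 2 (U1 1 2 (F [(0,101),(20,256),(21,3),(32,109)]) (F [(0,256),(8,98)])) (F [(0,256)])))) (F [(23,256),(12,7),(24,46)])) (F [(0,256),(12,15)])) (F [(0,256)])) (P3 1 2 (F [(0,122),(35,24),(30,31),(20,256)]) (U2 1 1 (U1 1 1 (F [(0,11),(20,256),(8,67)]) (F [(0,256),(8,49)])) (F [(0,256)])))) (P0 1 4 (P4 4 1 (U2 1 1 (U1 1 1 (P5 1 1 (O 10) (P3 1 2 (F [(0,183),(20,237),(32,256)]) (O 10))) (F [(0,256),(32,49)])) (F [(0,256),(32,42)])) (P3 4 1 (U2 1 1 (F [(0,110),(3,256),(21,52),(20,29)]) (F [(0,256),(32,159)])) (O 8))) (U2 1 1 (P0 2 1 (U1 1 1 (P5 1 1 (O 10) (F [(0,183),(20,237),(32,256)])) (F [(0,256)])) (U1 1 1 (P1 1 1 (P5 1 1 (F [(0,5),(23,256),(12,3),(24,63)]) (F [(0,167),(20,256),(32,211)])) (F [(23,256),(12,7),(24,46)])) (F [(0,256),(12,15)]))) (F [(0,256),(23,123)]))))) (P0 2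 1 (P5 1 1 (P4 1 2 (P2 1 4 (F [(5,55),(12,230),(16,256)]) (F [(12,256),(5,254),(20,148),(0,245),(11,69)])) (F [(12,256),(20,105),(23,95),(0,103)])) (F [(35,200),(20,256),(1,1)])) (P1 1 1 (P5 1 1 (P2 1 2 (P4 1 4 (F [(5,55),(12,230),(16,256)]) (F [(5,137),(35,256)])) (F [(12,88),(5,88),(35,256),(20,27)])) (F [(35,200),(20,256),(1,1)])) (P2 1 1 (P5 1 2 (P4 1 4 (F [(5,256),(35,82)]) (F [(5,256),(35,232),(28,3),(20,164)])) (F [(12,109),(5,219),(35,64),(20,256)])) (F [(5,219),(12,109),(20,256),(35,64)]))))))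

def c117 : Cell := ⟨⟨1,0,0⟩, ⟨0,1,0⟩, ⟨0,0,1⟩, ⟨1,0,2,1⟩, ⟨1,1,3,3⟩, ⟨0,0,1,1⟩, ⟨1,0,1,2⟩⟩

def t117 : Tr :=
  P1 1 2 (P5 2 1 (P2 1 2 (F [(20,256)]) (F [(1,49),(9,24),(34,78),(12,256),(7,42)])) (P3 1 4 (O 9) (U2 1 1 (U1 1 1 (P0 1 1 (F [(20,256),(34,94),(12,147),(22,55),(29,25),(21,159)]) (O 9)) (F [(1,256),(9,98)])) (F [(1,256)])))) (P2 1 1 (P5 1 2 (F [(12,36),(34,128),(20,256)]) (F [(1,68),(12,256),(34,101),(20,10),(7,12)])) (P0 2 1 (U2 1 1 (U1 1 1 (P3 1 1 (F [(22,256),(34,58),(20,21),(25,83)]) (F [(12,66),(34,256),(22,40),(25,27),(7,110)])) (F [(1,62),(12,256),(34,104),(29,7),(7,81)])) (F [(1,142),(22,256)])) (O 6)))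

def c118 : Cell := ⟨⟨1,0,0⟩, ⟨0,1,0⟩, ⟨0,0,1⟩, ⟨4,1,5,6⟩, ⟨2,1,2,3⟩, ⟨1,1,3,3⟩, ⟨1,0,1,2⟩⟩

def t118 : Tr :=
  F [(20,256)]

def c119 : Cell := ⟨⟨1,0,1⟩, ⟨0,1,1⟩, ⟨0,0,1⟩, ⟨4,2,5,5⟩, ⟨2,1,2,3⟩, ⟨1,1,3,3⟩, ⟨4,1,5,6⟩⟩

def t119 : Tr :=
  F [(20,256)]

theorem g9 : ∀ c ∈ [c108, c109, c110, c111, c112, c113, c114, c115, c116, c117, c118, c119], Done D c := by
  intro c hc
  simp only [List.mem_cons, List.not_mem_nil, or_false] at hc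
  rcases hc with rfl | rfl | rfl | rfl | rfl | rfl | rfl | rfl | rfl | rfl | rfl | rfl
  · exact done_of_chk (t := t108) (by decide +kernel)
  · exact done_of_chk (t := t109) (by decide +kernel)
  · exact done_of_chk (t := t110) (by decide +kernel)
  · exact done_of_chk (t := t111) (by decide +kernel)
  · exact done_of_chk (t := t112) (by decide +kernel)
  · exact done_of_chk (t := t113) (by decide +kernel)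
  · exact done_of_chk (t := t114) (by decide +kernel)
  · exact done_of_chk (t := t115) (by decide +kernel)
  · exact done_of_chk (t := t116) (by decide +kernel)
  · exact done_of_chk (t := t117) (by decide +kernel)
  · exact done_of_chk (t := t118) (by decide +kernel)
  · exact done_of_chk (t := t119) (by decide +kernel)

end Pool.Agent.W2helper59.NW.E1
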