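import Pool.Agent.W2helper59.NW.D_I0

set_option autoImplicit false
set_option maxRecDepth 1000000

namespace Pool.Agent.W2helper59.NW.I0

open Tr

def c0 : Cell := ⟨⟨1,0,0⟩, ⟨0,1,0⟩, ⟨0,0,1⟩, ⟨1,1,0,0⟩, ⟨0,1,1,0⟩, ⟨0,0,1,1⟩, ⟨0,0,0,1⟩⟩

def t0 : Tr :=
  P2 1 2 (P4 1 2 (P5 1 2 (P2 1 4 (O 7) (P1 1 1 (O 7) (P4 2 1 (O 3) (P0 1 1 (O 7) (O 3))))) (P1 1 2 (O 7) (P2 1 1 (O 7) (F [(5,256),(8,135)])))) (P0 1 2 (P3 1 1 (P1 1 4 (P3 1 2 (F [(5,186),(11,256),(8,113)]) (P4 1 1 (F [(5,52),(11,256),(10,27),(13,125)]) (O 9))) (P4 1 1 (P2 1 2 (P5 1 4 (P4 1 2 (F [(5,137),(8,243),(13,256)]) (F [(5,248),(13,10),(8,35),(1,256)])) (P1 1 1 (F [(5,256),(10,177),(11,121)]) (F [(5,256),(13,61),(8,39),(1,200)]))) (P1 2 1 (F [(5,256),(13,172),(10,126)]) (F [(13,110),(10,256),(1,15)]))) (P0 1 2 (P3 4 1 (F [(10,256),(5,191)]) (F [(10,256),(3,18)]))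 (F [(10,256),(5,174)])))) (P4 2 1 (P5 1 1 (P2 1 2 (P4 1 2 (P5 1 2 (U1 1 1 (F [(5,256),(13,148)]) (P2 1 4 (O 7) (F [(13,237),(10,19),(5,222),(1,256),(8,152),(11,72)]))) (F [(13,5),(5,207),(1,256),(8,16),(11,8)])) (F [(13,110),(10,256),(1,15)])) (F [(13,110),(10,256),(1,15)])) (F [(10,256),(3,18)])) (P0 1 4 (P3 2 1 (F [(10,256),(3,132)]) (O 2)) (F [(10,256),(3,62)])))) (P1 1 2 (P3 1 4 (F [(5,215),(11,256),(8,196)]) (P0 1 1 (P4 1 2 (P5 1 4 (F [(5,134),(8,243),(13,256)]) (F [(5,256),(13,253),(8,87)])) (P3 2 1 (F [(5,256),(13,225)]) (F [(13,256),(5,147)]))) (F [(5,256),(8,222),(11,124)]))) (P0 2 1 (P3 1 1 (F [(5,256),(8,133)]) (P4 1 2 (P2 1 4 (F [(5,181),(8,256),(13,205),(1,117)]) (P0 1 1 (F [(5,256),(13,74),(1,152)]) (F [(5,256),(13,68)]))) (P0 1 2 (F [(13,256),(5,138)]) (P2 1 1 (F [(5,117),(13,256)]) (U1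 1 1 (F [(5,256)]) (P1 1 1 (F [(5,204),(13,256)]) (U0 1 1 (P0 2 1 (F [(5,137),(14,131),(13,256)]) (F [(5,256),(13,63)])) (F [(5,256),(10,49)])))))))) (F [(5,256),(8,133)]))))) (P1 1 1 (P4 2 1 (P5 2 1 (P4 1 2 (F [(5,55),(14,256),(8,166)]) (P3 1 1 (F [(5,256),(14,182),(13,23)]) (P2 4 1 (P4 2 1 (U1 1 1 (F [(5,256)]) (P5 1 1 (F [(5,73),(14,238),(13,256)]) (F [(5,238),(10,29),(13,256)]))) (F [(10,195),(5,256),(13,190)])) (F [(5,256),(10,195),(13,190)])))) (P3 1 4 (F [(5,256),(14,65)]) (P4 1 1 (F [(5,256),(14,45),(13,74)]) (P1 4 1 (P3 2 1 (F [(5,256),(13,178)]) (F [(13,256),(5,147)])) (F [(13,256),(5,81)]))))) (P3 1 1 (P5 4 1 (P0 1 1 (P4 2 1 (F [(13,27),(10,256),(5,196)]) (P3 4 1 (F [(13,66),(10,256),(5,245)]) (F [(10,256),(3,21)]))) (F [(13,27),(10,256),(5,196)])) (P1 1 2 (P3 1 2 (F [(5,256)]) (P0 1 2 (O 9)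 (F [(5,256),(11,4),(9,12)]))) (P0 1 1 (P3 2 1 (P1 1 1 (F [(5,256),(11,4),(9,12)]) (F [(5,256),(13,112),(10,117)])) (P4 4 1 (F [(13,104),(5,256),(10,137),(9,3)]) (P0 1 2 (O 9) (U1 1 1 (F [(13,151),(3,160),(10,90),(5,256)]) (U0 1 1 (F [(13,13),(10,256),(5,113),(11,32)]) (F [(13,63),(10,256),(9,62),(5,130),(11,25)])))))) (P2 4 1 (P3 1 1 (F [(5,256),(9,7)]) (F [(5,256),(13,222)])) (P1 2 1 (P3 1 1 (F [(5,256),(9,7)]) (F [(13,237),(5,256)])) (F [(13,256),(5,235)])))))) (P0 1 2 (P4 4 1 (F [(3,62),(10,256)]) (P3 2 1 (F [(3,132),(10,256)]) (P0 1 4 (O 0) (F [(13,256)])))) (F [(13,193),(3,62),(10,256)])))) (P4 2 1 (P2 2 1 (P4 1 2 (F [(5,256),(14,206)]) (P0 1 1 (P4 2 1 (P5 4 1 (U1 1 1 (F [(5,256),(10,186)]) (P2 1 1 (U0 1 1 (P4 1 2 (F [(14,256)]) (F [(14,256),(10,162),(13,101)])) (F [(5,256),(10,49)])) (F [(10,256),(5,50),(14,106)])))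 (F [(10,256),(5,71),(14,80)])) (F [(10,256),(3,11),(13,32),(5,50),(14,115)])) (F [(5,16019),(14,12981),(10,16384)]))) (F [(10,256),(12,4),(5,109)])) (P0 1 1 (P3 2 1 (F [(3,256),(13,130)]) (P4 4 1 (F [(3,200),(10,256)]) (P0 1 2 (P3 4 1 (F [(3,215),(13,256)]) (O 0)) (F [(3,256),(10,244),(13,151)])))) (F [(10,256),(3,41),(13,18),(4,2),(5,18)]))))

def c1 : Cell := ⟨⟨1,0,0⟩, ⟨0,1,0⟩, ⟨0,0,1⟩, ⟨1,1,0,0⟩, ⟨0,1,1,0⟩, ⟨0,0,1,0⟩, ⟨0,0,1,1⟩⟩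

def t1 : Tr :=
  P1 1 2 (P3 1 2 (P5 2 1 (P2 1 2 (O 6) (P1 1 1 (O 6) (P4 2 1 (F [(3,44),(9,256)]) (O 0)))) (O 0)) (P4 1 1 (P2 1 2 (O 9) (P5 2 1 (P0 1 1 (O 9) (F [(3,126),(9,256)])) (P0 1 1 (O 9) (O 0)))) (P0 1 2 (P3 2 1 (P5 1 1 (P2 1 2 (O 9) (O 0)) (O 0)) (P4 2 1 (P2 1 2 (O 9) (O 0)) (O 0))) (P1 1 1 (P5 1 1 (P2 1 2 (P4 1 2 (O 9) (O 0)) (O 0)) (O 0)) (P2 1 1 (P4 1 2 (O 9) (O 0)) (O 0)))))) (P2 1 1 (P4 1 1 (P5 1 2 (P2 1 2 (P4 1 2 (F [(11,256),(5,207),(9,241),(13,129)]) (P0 1 2 (O 9) (F [(11,256),(5,107),(9,67),(13,150)]))) (P0 1 1 (P4 2 1 (P1 1 1 (P5 1 1 (U1 1 1 (F [(5,256),(3,166),(13,43)]) (P2 1 2 (F [(5,256),(11,51)]) (F [(11,214),(9,70),(5,158),(13,256)]))) (F [(9,92),(11,243),(13,256),(5,109)])) (P2 1 1 (U1 1 1 (F [(5,256),(3,166),(13,43)]) (P5 1 2 (F [(5,256),(11,4),(9,12)]) (F [(5,95),(11,240),(9,29),(13,256)])))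 (U1 1 1 (F [(13,199),(3,240),(5,256)]) (U0 1 1 (P0 2 1 (F [(5,90),(13,256),(11,241),(9,23)]) (F [(13,256),(3,6),(5,62),(11,157)])) (F [(3,218),(9,27),(5,256),(10,57)]))))) (P0 1 2 (O 9) (P1 1 1 (U1 1 1 (F [(3,150),(13,256),(11,207),(5,28)]) (P3 1 2 (F [(9,20),(11,256),(13,219)]) (U0 1 1 (P0 1 1 (O 9) (F [(13,256),(9,1),(11,255),(5,25)])) (F [(9,243),(13,256),(11,158),(10,237),(5,63)])))) (U1 1 1 (F [(3,240),(13,199),(5,256)]) (U0 1 1 (P2 2 1 (P3 1 1 (F [(13,256),(5,44),(11,243),(9,2)]) (F [(13,232),(10,176),(5,37),(11,256)])) (F [(13,256),(11,160)])) (F [(3,112),(13,155),(9,256),(10,248),(5,243)])))))) (P1 2 1 (P3 1 1 (P5 1 1 (U1 1 1 (F [(3,105),(9,53),(13,105),(5,256)]) (P2 1 2 (P4 1 2 (F [(5,256),(9,48)]) (F [(5,209),(11,256),(3,77),(13,249)])) (U0 1 1 (P1 1 1 (F [(5,208),(11,256),(3,76),(13,250)])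 (P4 2 1 (F [(5,256),(3,172),(9,3)]) (P0 1 1 (F [(3,104),(13,256),(5,205),(11,214)]) (F [(3,127),(13,111),(5,256)])))) (F [(9,12),(3,256),(5,256)])))) (U1 1 1 (F [(3,256),(13,27),(5,245)]) (P1 1 2 (F [(9,256),(11,23),(13,24)]) (U0 1 1 (P2 1 1 (F [(9,61),(11,256),(3,68),(5,195),(13,253)]) (P0 1 1 (F [(3,137),(13,256),(11,230),(5,222)]) (F [(3,207),(13,47),(5,256)]))) (F [(9,32),(3,256),(5,193)]))))) (P4 1 1 (U1 1 1 (F [(3,105),(13,105),(5,256),(9,53)]) (P2 1 2 (P5 1 2 (F [(5,256),(9,28)]) (F [(5,208),(11,256),(3,76),(13,250)])) (U0 1 1 (P5 2 1 (F [(5,256),(13,130),(3,108)]) (P0 1 1 (F [(5,162),(13,256),(3,59),(11,203)]) (P1 1 1 (F [(3,50),(13,256),(5,135),(11,164)]) (F [(13,115),(3,124),(5,256)])))) (F [(3,256),(9,12),(5,256)])))) (U1 1 1 (F [(3,256),(13,197),(5,182)]) (U0 1 1 (P0 1 2 (F [(13,256),(3,37),(5,114),(11,155)])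 (P1 1 1 (F [(13,256),(3,48),(5,133),(11,156)]) (F [(13,87),(3,124),(5,256)]))) (F [(3,249),(13,41),(5,256)]))))) (P2 2 1 (P4 1 1 (F [(5,256),(13,63),(3,75),(9,41)]) (F [(13,217),(3,67),(5,256),(9,27)])) (F [(13,188),(3,125),(5,256)]))))) (P0 1 1 (P3 1 1 (P1 1 2 (F [(3,126),(9,256)]) (P5 1 2 (P0 1 1 (F [(3,256),(9,141)]) (P2 1 1 (F [(3,236),(13,188),(11,256)]) (F [(13,256),(11,149)]))) (F [(3,136),(13,256)]))) (P0 1 2 (O 9) (P1 1 1 (P5 1 1 (U1 1 1 (F [(3,256),(13,75)]) (P2 1 2 (O 9) (F [(3,114),(13,256)]))) (F [(3,87),(13,256)])) (P2 1 1 (U1 1 1 (F [(3,256),(13,75)]) (P4 1 2 (F [(9,191),(13,256),(11,150)]) (F [(13,256),(9,27),(11,176)]))) (F [(13,256),(11,149)]))))) (P1 1 1 (P3 1 2 (F [(3,192),(9,256)]) (P2 1 1 (P5 1 2 (P4 1 1 (F [(9,256),(13,90),(11,92)]) (F [(13,256),(11,149)])) (F [(3,136),(13,256)]))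 (F [(3,78),(13,256)]))) (P2 2 1 (P5 1 1 (P4 1 1 (F [(3,256),(13,52),(11,63)]) (F [(13,256),(11,70)])) (F [(13,256)])) (F [(13,256)]))))) (P0 1 2 (P3 2 1 (P5 1 1 (P4 1 2 (P2 1 2 (O 9) (F [(13,256)])) (F [(13,256)])) (F [(3,29),(13,256)])) (P4 2 1 (P5 1 2 (F [(3,65),(13,256),(10,252)]) (F [(13,256)])) (P0 1 4 (O 0) (F [(13,256)])))) (P1 1 1 (P5 1 1 (P2 1 2 (P4 1 2 (P5 1 2 (F [(3,128),(10,256)]) (F [(13,256)])) (F [(3,68),(13,256)])) (F [(3,88),(13,256)])) (F [(3,256),(13,74)])) (F [(3,59),(13,222),(10,256),(9,7)])))) (P0 1 1 (P4 2 1 (F [(3,256),(13,130)]) (P0 1 2 (P3 2 1 (F [(3,215),(13,256)]) (P4 4 1 (F [(3,215),(13,256)]) (O 0))) (F [(3,256),(13,123),(10,72)]))) (P1 2 1 (P3 1 1 (P5 1 1 (P2 1 2 (F [(3,34),(13,256),(10,150),(4,1)]) (F [(3,256),(10,203),(9,108),(4,65)])) (P1 1 2 (F [(13,256),(3,143)]) (P2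 1 1 (F [(13,136),(3,256)]) (P0 1 1 (F [(3,256),(13,26)]) (U1 1 1 (P1 2 1 (F [(9,20),(3,256),(10,20),(4,99)]) (F [(3,168),(9,207),(10,256),(4,86)])) (F [(3,256),(9,156),(10,152)])))))) (P4 1 1 (P2 1 2 (F [(3,34),(10,150),(13,256),(4,1)]) (F [(3,256),(10,203),(9,108),(4,65)])) (P0 1 2 (F [(3,256),(9,15)]) (F [(3,256),(10,203),(9,108),(4,65)])))) (P2 2 1 (P4 1 1 (P5 1 2 (F [(10,256),(3,59),(13,55),(4,2)]) (F [(10,256),(12,21),(4,35),(9,72)])) (P0 1 2 (P3 2 1 (F [(10,256),(3,114),(12,44),(9,161)]) (F [(3,256),(9,15)])) (F [(10,256),(12,91),(9,96)]))) (P0 2 1 (P4 2 1 (F [(10,153),(12,256),(9,91)]) (O 8)) (F [(12,256),(10,205),(4,19),(9,100)]))))))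

def c2 : Cell := ⟨⟨1,0,0⟩, ⟨0,1,0⟩, ⟨0,0,1⟩, ⟨1,1,0,2⟩, ⟨0,1,0,1⟩, ⟨0,1,1,0⟩, ⟨0,0,0,1⟩⟩

def t2 : Tr :=
  P5 1 2 (P4 1 2 (P2 1 4 (O 7) (P5 2 1 (O 3) (P0 1 1 (O 7) (P1 1 1 (O 7) (O 3))))) (P0 1 2 (O 7) (P1 1 1 (O 7) (O 3)))) (P1 1 2 (P3 1 1 (P5 2 1 (P4 1 1 (P2 1 2 (P5 1 2 (P4 1 2 (U1 1 1 (F [(5,256),(13,149)]) (P2 1 4 (O 7) (F [(13,256)]))) (F [(13,256)])) (F [(13,256)])) (F [(13,256)])) (F [(13,256),(10,183),(3,11)])) (P1 1 4 (O 2) (F [(10,126),(13,256),(3,59)]))) (P0 1 4 (P3 2 1 (P5 1 1 (O 7) (F [(1,256),(10,13)])) (O 7)) (P5 1 1 (P2 1 2 (P4 1 4 (P5 1 2 (U1 1 1 (F [(5,252),(13,256)]) (P2 1 4 (O 7) (F [(13,256)]))) (F [(13,256),(5,23)])) (F [(13,164),(1,256),(5,151)])) (P0 2 1 (F [(13,256),(1,63),(5,107),(7,53),(14,51)]) (F [(13,130),(10,256)]))) (P0 2 1 (P3 1 4 (F [(13,115),(10,256),(3,37)]) (F [(13,256),(1,40),(7,66),(5,50),(14,72)]))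 (F [(10,256),(13,14)]))))) (P1 2 1 (P3 4 1 (P5 1 2 (P2 1 4 (P4 1 4 (U1 1 1 (F [(5,252),(13,256)]) (P5 1 4 (O 7) (F [(5,250),(13,96),(1,256)]))) (P0 1 2 (F [(13,246),(5,163),(1,256),(14,42)]) (F [(5,250),(13,96),(1,256)]))) (P4 2 1 (P1 1 1 (U1 1 1 (F [(5,256),(14,40)]) (F [(5,256),(13,101),(1,234)])) (U1 1 1 (F [(5,255),(14,256)]) (U0 1 1 (P2 2 1 (P4 1 2 (F [(5,256),(13,20),(1,221)]) (P0 1 1 (F [(5,256),(13,208),(1,229),(14,44)]) (F [(5,256),(13,20),(1,221)]))) (P0 4 1 (P4 1 1 (F [(5,256),(14,1),(1,223)]) (F [(5,175),(14,153),(13,256),(1,163)])) (F [(5,256),(14,16),(1,189)]))) (F [(5,256),(13,82),(1,71)])))) (P0 1 1 (P3 1 1 (F [(5,190),(13,11),(1,256),(7,4)]) (F [(13,256),(5,136),(14,15),(7,204)])) (P1 1 1 (U1 1 1 (F [(5,256),(14,40)]) (P3 1 2 (F [(13,256),(5,93),(1,23)]) (F [(5,78),(13,256),(14,183),(1,68)])))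 (U1 1 1 (F [(5,255),(14,256)]) (U0 1 1 (P2 4 1 (F [(5,78),(14,183),(13,256),(1,68)]) (P0 2 1 (P3 1 1 (F [(5,256),(14,168),(13,182),(1,223)]) (F [(14,256),(13,230)])) (F [(5,256),(14,32),(1,201)]))) (F [(5,256),(13,70)]))))))) (P1 1 2 (P3 1 2 (F [(10,256),(13,242),(5,130)]) (P4 1 1 (F [(10,42),(13,256),(5,118)]) (F [(10,13),(13,256),(5,6),(14,171),(7,6)]))) (P0 1 1 (P4 1 1 (U1 1 1 (F [(5,206),(13,256),(14,191)]) (P2 1 2 (F [(13,256),(10,125),(5,59)]) (F [(13,256),(5,22),(14,167),(7,30)]))) (P3 2 1 (U1 1 1 (F [(5,60),(14,208),(13,256)]) (F [(13,256),(5,21),(14,169),(7,30)])) (F [(13,256),(5,80),(14,101),(7,109)]))) (P2 1 1 (U1 1 1 (F [(5,256)]) (P4 1 2 (F [(13,256),(5,66)]) (F [(5,71),(13,256),(14,178),(1,44)]))) (U1 1 1 (F [(5,256)]) (U0 1 1 (P1 2 1 (F [(5,51),(14,176),(13,256),(1,10)]) (P0 2 1 (P4 1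 1 (F [(5,191),(14,216),(13,256),(1,113)]) (F [(14,256),(13,238)])) (P2 2 1 (F [(5,191),(14,216),(13,256),(1,113)]) (F [(14,256)])))) (F [(5,256)]))))))) (P4 2 1 (P2 1 4 (O 7) (P0 1 2 (O 7) (P5 2 1 (U1 1 1 (F [(5,255),(14,256)]) (U0 1 1 (P2 2 1 (P5 1 2 (F [(5,256),(7,47),(1,209)]) (P1 1 1 (O 7) (F [(5,256),(7,47),(1,209)]))) (P1 4 1 (P5 1 1 (F [(5,242),(14,146),(1,256)]) (F [(7,50),(5,256),(1,231),(13,89)])) (F [(5,72),(14,256),(7,128)]))) (F [(5,256),(13,82),(1,71)]))) (P1 1 1 (F [(5,125),(14,33),(7,189),(13,256)]) (U1 1 1 (F [(5,255),(14,256)]) (U0 1 1 (P2 4 1 (F [(14,168),(1,256),(5,214),(13,192)]) (F [(14,256),(5,26),(7,45)])) (F [(5,256),(13,70)]))))))) (P0 1 8 (O 5) (P2 1 2 (O 7) (P1 1 1 (F [(7,108),(14,170),(5,102),(1,103),(13,256),(10,22)]) (F [(5,54),(14,256),(7,76)])))))) (P0 1 2 (P4 2 1 (P2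 1 2 (P5 1 4 (O 7) (P3 2 1 (P1 1 1 (U1 1 1 (F [(5,256),(14,194)]) (U0 1 1 (P5 2 1 (F [(5,256),(7,55),(1,202)]) (F [(5,72),(14,256),(7,128)])) (F [(5,256)]))) (O 7)) (O 7))) (P3 2 1 (P1 2 1 (P5 1 1 (O 7) (F [(5,145),(14,204),(7,256)])) (O 7)) (O 7))) (P3 8 1 (P5 1 2 (O 7) (F [(14,204),(5,145),(7,256)])) (O 5))) (P2 1 1 (P4 1 2 (P5 1 4 (O 7) (P3 1 1 (F [(5,256),(7,22),(1,85)]) (O 7))) (P3 2 1 (P5 1 1 (O 7) (F [(5,126),(14,256)])) (O 7))) (F [(5,173),(14,256)])))))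

def c3 : Cell := ⟨⟨1,0,0⟩, ⟨0,1,0⟩, ⟨0,0,1⟩, ⟨1,2,0,1⟩, ⟨0,1,0,1⟩, ⟨1,3,2,2⟩, ⟨1,1,0,2⟩⟩

def t3 : Tr :=
  P3 4 1 (P5 1 2 (P2 1 1 (P4 1 4 (F [(14,256)]) (P0 2 1 (P3 1 1 (F [(14,256)]) (P4 2 1 (F [(14,256)]) (F [(14,108),(7,256),(10,180),(13,59)]))) (F [(14,256)]))) (P0 4 1 (P4 1 2 (P1 1 2 (F [(14,256)]) (O 5)) (P1 1 2 (P3 1 1 (F [(14,256)]) (F [(14,91),(7,256),(10,184),(13,47)])) (O 5))) (P1 4 1 (P3 1 2 (F [(14,256)]) (O 5)) (O 5)))) (P1 2 1 (P3 1 2 (P5 2 1 (P2 1 1 (P4 1 2 (U1 1 1 (F [(5,256)]) (U0 1 1 (P5 1 2 (P2 1 2 (F [(14,256),(13,178)]) (U1 2 1 (F [(14,256),(10,67),(13,76)]) (F [(14,256),(13,120)]))) (U1 2 1 (F [(10,117),(14,256),(13,82)]) (P1 1 1 (F [(10,92),(13,218),(14,256)]) (F [(14,256),(13,120)])))) (F [(5,256),(10,48)]))) (U1 1 1 (F [(5,126),(10,256)]) (U0 1 1 (P0 1 1 (F [(10,219),(13,256),(14,231)])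 (U1 2 1 (F [(10,239),(14,256),(13,99)]) (P1 1 1 (F [(10,157),(13,256),(14,233)]) (U0 1 2 (P2 2 1 (F [(10,147),(13,198),(14,256)]) (F [(10,256),(13,112),(14,241)])) (F [(10,234),(13,110),(14,256)]))))) (F [(10,256),(5,126)])))) (F [(10,256),(14,82)])) (F [(10,256),(5,14)])) (P0 1 1 (P4 1 1 (P5 1 2 (U1 1 1 (P2 1 2 (F [(5,256),(14,44)]) (F [(14,111),(10,256),(7,201)])) (P2 1 2 (F [(14,256),(13,182)]) (U0 1 1 (P1 2 1 (U1 2 1 (F [(14,256),(7,184),(10,218),(13,184)]) (F [(13,222),(14,256),(7,162),(10,172)])) (P0 1 1 (F [(7,197),(14,256),(13,198),(10,195)]) (F [(10,240),(13,40),(7,256),(14,64)]))) (F [(10,256),(14,123),(7,171)])))) (U1 1 1 (U2 1 1 (P3 1 1 (F [(10,256),(14,86),(7,129)]) (F [(14,115),(10,256),(7,239)])) (U0 2 1 (P3 1 1 (F [(10,256),(14,86),(7,129)]) (F [(10,256),(14,110),(7,203)])) (F [(10,256),(5,159)])))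 (U0 1 1 (P3 1 1 (P2 2 1 (P5 2 1 (U1 2 1 (F [(10,256),(13,177),(14,236),(7,177)]) (F [(13,256),(14,31)])) (F [(13,40),(10,256),(7,235)])) (F [(13,40),(10,256),(7,241)])) (P2 2 1 (U1 2 1 (F [(13,192),(10,215),(14,256),(7,183)]) (F [(13,256),(7,58),(14,97)])) (P0 1 1 (F [(13,179),(7,256),(10,226),(14,174)]) (F [(13,29),(10,233),(7,256)])))) (U2 2 1 (P3 1 1 (F [(10,256),(14,86),(7,128)]) (F [(10,256),(14,123),(7,171)])) (F [(10,256)]))))) (U1 1 1 (U2 1 1 (P3 2 1 (P5 1 1 (F [(14,85),(10,247),(7,256),(13,15)]) (F [(10,256),(13,21),(14,43),(7,194)])) (F [(14,75),(7,256),(10,239),(1,1),(13,8)])) (U0 2 1 (P3 2 1 (P5 1 1 (F [(10,256),(5,8),(13,17),(14,86),(7,248)]) (F [(10,256),(13,44),(7,228)])) (F [(10,236),(5,13),(13,24),(14,63),(7,256)])) (F [(10,256),(5,23)]))) (U0 1 1 (P3 2 1 (P5 1 1 (P2 1 1 (F [(13,209),(7,256),(10,217),(14,191)])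 (F [(13,29),(10,233),(7,256)])) (F [(13,45),(10,256),(7,244)])) (F [(7,256),(10,191)])) (U2 2 1 (P3 2 1 (P5 1 1 (P2 1 1 (F [(10,217),(13,209),(14,191),(7,256)]) (F [(10,253),(13,33),(7,256),(14,27)])) (F [(10,256),(13,44),(7,236)])) (F [(10,200),(7,256),(14,10)])) (F [(10,256)]))))) (P2 1 1 (P5 1 2 (U1 1 1 (P4 1 2 (F [(5,256)]) (F [(10,256),(14,105),(7,201)])) (P4 1 2 (U0 1 1 (P2 1 2 (F [(14,256),(13,178)]) (U1 2 1 (F [(14,256),(10,67),(13,76)]) (F [(14,256),(13,120)]))) (F [(5,256),(10,45)])) (U0 1 1 (P3 2 1 (U1 2 1 (F [(14,235),(10,256),(7,191),(13,106)]) (U0 1 2 (P1 2 1 (F [(13,214),(14,256),(7,160),(10,171)]) (F [(14,160),(10,256),(7,230),(13,89)])) (P1 2 1 (F [(10,198),(13,207),(14,256),(7,169)]) (F [(10,256),(14,94),(7,191)])))) (F [(10,256),(14,58),(7,252)])) (F [(10,256),(14,97),(7,169)]))))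 (U1 1 1 (F [(10,256),(14,86),(7,129)]) (U0 1 1 (P1 1 1 (P4 2 1 (P5 2 1 (U1 2 1 (F [(10,256),(13,172),(14,229),(7,164)]) (F [(13,256),(14,31)])) (F [(10,256),(7,171),(14,4)])) (F [(10,256),(7,198),(14,6)])) (P4 2 1 (U1 2 1 (U2 1 1 (P2 2 1 (F [(10,256),(14,227),(13,154),(7,164)]) (F [(10,256),(14,83),(7,179)])) (P2 2 1 (F [(10,256),(13,169),(14,231),(7,168)]) (F [(10,256),(14,83),(7,179)]))) (U0 1 2 (P2 2 1 (P4 1 2 (F [(13,204),(10,138),(14,256)]) (F [(13,169),(10,256),(7,172),(14,229)])) (F [(10,256),(13,83),(14,144),(7,186)])) (P2 2 1 (F [(10,256),(13,169),(14,231),(7,168)]) (F [(10,256),(14,81),(7,171)])))) (F [(10,256),(14,24),(7,206)]))) (F [(10,256),(14,86),(7,128)])))) (F [(10,256),(14,23),(7,184)])))) (P0 4 1 (P2 1 2 (P3 1 1 (P5 1 1 (U1 1 1 (F [(14,159),(10,256),(7,226)]) (P4 1 2 (F [(14,256)])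 (U0 1 1 (F [(14,58),(10,256),(7,252)]) (F [(10,256),(14,60),(7,225)])))) (U1 1 1 (U2 1 1 (P1 1 4 (F [(10,256),(14,28),(7,173)]) (F [(14,49),(10,256),(7,232)])) (U0 2 1 (P1 1 4 (F [(10,256),(14,29),(7,179)]) (F [(10,256),(14,51),(7,228)])) (F [(10,256),(5,128)]))) (U0 1 1 (P1 1 4 (F [(10,256),(14,24),(7,189)]) (F [(10,256),(14,44),(7,239)])) (U2 2 1 (P1 1 4 (F [(10,256),(14,29),(7,179)]) (F [(10,256),(14,53),(7,223)])) (F [(10,256),(14,121)]))))) (P4 1 1 (U1 1 1 (F [(14,159),(10,256),(7,226)]) (P5 1 2 (F [(14,256)]) (U0 1 1 (P3 1 1 (F [(7,256),(14,55),(10,231),(13,33)]) (F [(14,217),(7,256),(10,204),(13,125)])) (F [(10,256),(14,107),(7,212)])))) (U1 1 1 (F [(14,98),(10,256),(7,237),(1,24)]) (U0 1 1 (F [(7,256),(10,191)]) (F [(10,249),(14,64),(7,256)]))))) (P3 1 1 (U1 1 1 (U2 1 1 (P5 4 1 (F [(14,74),(7,256),(10,197),(3,93)])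 (F [(3,192),(10,176),(7,256)])) (U0 2 1 (P5 4 1 (F [(10,206),(14,30),(3,58),(7,256)]) (F [(10,183),(3,230),(7,256)])) (F [(10,256),(5,36)]))) (U0 1 1 (P5 4 1 (F [(7,16384),(10,13306),(3,1)]) (P1 1 2 (F [(10,256),(3,9),(7,156)]) (U1 2 1 (P2 4 1 (F [(10,237),(3,39),(7,256)]) (O 5)) (P2 4 1 (F [(10,250),(3,33),(7,256)]) (O 5))))) (U2 2 1 (P5 4 1 (F [(10,208),(14,12),(7,256),(3,43)]) (P1 1 2 (F [(10,256),(3,27),(7,208)]) (F [(10,204),(3,75),(7,256)]))) (F [(10,256),(14,52)])))) (O 5))) (P2 4 1 (P4 1 2 (P5 1 1 (F [(14,256)]) (U1 1 1 (U2 1 1 (P3 1 4 (F [(5,247),(10,198),(3,256),(7,165)]) (F [(14,78),(10,256),(7,224)])) (U0 2 1 (P3 1 4 (F [(10,198),(5,247),(3,256),(7,165)]) (F [(14,84),(10,256),(7,216)])) (F [(10,256),(5,190)]))) (U0 1 1 (P3 1 4 (F [(10,256),(3,13),(14,54),(7,182)]) (F [(14,105),(7,227),(10,256)]))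 (U2 2 1 (P3 1 4 (F [(10,57),(5,167),(3,256),(14,108)]) (F [(14,90),(10,256),(7,207)])) (F [(10,256),(14,172)]))))) (U1 1 1 (U2 1 1 (P5 4 1 (F [(14,256),(7,85),(10,41),(3,212)]) (F [(12,125),(10,92),(3,232),(14,256),(7,103)])) (U0 2 1 (P5 4 1 (F [(14,256),(10,38),(7,43),(3,202)]) (F [(10,17),(3,256),(12,25),(14,251)])) (F [(10,256),(5,36)]))) (U0 1 1 (P5 4 1 (F [(7,16384),(10,13306),(3,1)]) (P1 1 2 (P3 1 2 (F [(10,256),(3,15)]) (P0 1 2 (U1 2 1 (P4 4 1 (F [(10,237),(3,41),(7,256)]) (O 5)) (P4 4 1 (F [(10,234),(3,47),(7,256)]) (O 5))) (F [(10,235),(3,54),(7,256)]))) (P0 1 1 (P3 2 1 (F [(10,238),(3,3),(7,256),(14,17)]) (F [(7,16384),(10,13306),(3,1)])) (F [(14,93),(10,256),(7,255)])))) (U2 2 1 (P5 4 1 (F [(14,256),(10,172),(7,170),(3,196)]) (P1 1 2 (F [(10,52),(3,256),(7,79)]) (F [(10,140),(14,171),(3,256),(7,153)])))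 (F [(10,256),(14,52)]))))) (U1 1 1 (P1 4 1 (F [(10,14),(12,27),(5,5),(3,256),(14,240)]) (O 5)) (P1 4 1 (U0 1 1 (P3 1 2 (P5 2 1 (O 5) (F [(3,256)])) (O 5)) (U2 2 1 (P3 1 2 (F [(10,124),(3,256),(5,59),(14,196),(7,66)]) (O 5)) (F [(10,256),(14,7)]))) (O 5))))))) (P0 1 2 (P4 2 1 (P5 1 4 (F [(14,256),(7,244),(10,62)]) (O 5)) (O 5)) (P2 1 1 (P5 1 4 (F [(14,256),(7,244),(10,62)]) (O 5)) (O 5)))

def c4 : Cell := ⟨⟨1,0,0⟩, ⟨0,1,0⟩, ⟨0,0,1⟩, ⟨1,1,0,0⟩, ⟨1,2,0,1⟩, ⟨1,3,2,2⟩, ⟨1,1,0,2⟩⟩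

def t4 : Tr :=
  P2 2 1 (P5 1 2 (P4 1 1 (F [(5,256),(7,14)]) (P1 2 1 (P3 4 1 (F [(5,6),(14,256),(7,8)]) (P0 1 8 (O 5) (F [(5,93),(14,256),(7,142)]))) (P3 8 1 (F [(5,175),(14,152),(7,256)]) (O 5)))) (P1 1 1 (P3 2 1 (P5 2 1 (P4 1 1 (U1 1 1 (F [(5,256),(10,138)]) (P2 1 1 (U0 1 1 (P5 1 2 (F [(14,256)]) (F [(14,256),(10,166),(13,96)])) (F [(5,256),(10,49)])) (F [(10,256),(14,159)]))) (F [(10,256),(14,135)])) (F [(10,256),(5,14)])) (P4 4 1 (P5 1 1 (F [(5,70),(14,256),(10,172)]) (F [(10,256),(3,26),(14,85),(7,156)])) (P0 1 4 (U1 1 1 (F [(12,256),(10,67),(5,183)]) (P3 4 1 (F [(10,256),(3,163),(14,137),(7,207)]) (O 5))) (U1 1 1 (F [(10,67),(5,183),(12,256)]) (F [(10,256),(3,52),(12,3),(14,101),(7,157)]))))) (P2 2 1 (P4 4 1 (F [(5,60),(14,256),(10,139),(12,18)]) (P0 1 8 (P3 4 1 (U1 1 1 (F [(5,256),(10,25),(12,151)])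 (F [(5,71),(3,256),(14,191),(7,29)])) (O 5)) (F [(5,105),(10,104),(14,256),(3,65)]))) (P4 8 1 (P1 2 1 (F [(5,20),(10,256),(14,163),(12,57),(7,141)]) (F [(5,211),(10,115),(14,196),(7,256)])) (P0 1 2 (F [(10,45),(12,11),(5,109),(3,256),(7,69)]) (P1 2 1 (F [(5,165),(10,224),(12,46),(3,256),(14,89),(7,190)]) (F [(5,91),(12,256),(7,79),(14,255)]))))))) (P1 4 1 (P5 1 1 (F [(10,256),(12,159),(3,33),(7,119)]) (F [(10,113),(3,256),(12,11)])) (F [(12,256),(5,56)]))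

def c5 : Cell := ⟨⟨1,0,0⟩, ⟨0,1,0⟩, ⟨0,0,1⟩, ⟨1,1,0,0⟩, ⟨0,1,0,1⟩, ⟨0,1,1,0⟩, ⟨1,3,2,2⟩⟩

def t5 : Tr :=
  P0 1 1 (P3 1 1 (P1 1 2 (P5 4 1 (F [(10,256),(3,45),(13,84)]) (O 2)) (F [(10,256),(3,108),(12,20)])) (P4 4 1 (P1 1 1 (P3 1 4 (F [(10,256),(3,12),(1,9)]) (P4 1 2 (F [(10,256),(3,12),(1,9)]) (U1 1 1 (P0 2 1 (U2 1 1 (P3 2 1 (F [(10,256),(1,66),(3,52),(7,191)]) (P4 2 1 (F [(10,256),(1,44),(3,35),(7,198)]) (F [(7,256),(10,223),(12,2)]))) (F [(10,199),(1,256)])) (F [(10,256),(3,158),(1,151),(7,158)])) (P0 2 1 (F [(13,16),(10,107),(1,256)]) (F [(10,156),(1,256),(3,170)]))))) (P2 2 1 (P4 1 2 (F [(10,256),(3,17)]) (P0 1 1 (U1 1 1 (P3 1 2 (F [(10,256),(3,119),(1,64),(7,207)]) (U2 1 1 (P4 2 1 (F [(10,256),(3,23),(7,204),(1,28)]) (F [(10,223),(7,256),(12,2)])) (F [(10,256),(1,84),(7,168)]))) (P3 1 2 (U0 1 1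 (P5 4 1 (F [(10,256),(1,51),(7,203)]) (O 5)) (F [(10,256),(3,110),(1,64),(7,196)])) (F [(10,256),(1,78),(7,180)]))) (F [(10,256),(3,4),(7,102)]))) (P0 4 1 (P4 1 1 (U1 1 1 (F [(10,174),(3,256),(7,231)]) (U0 1 1 (P1 1 4 (P3 1 4 (F [(10,77),(3,256),(1,137)]) (P4 1 2 (F [(10,84),(3,256),(1,124)]) (O 5))) (P2 1 2 (P4 1 2 (F [(10,8),(3,256)]) (O 5)) (O 5))) (U2 2 1 (P1 1 4 (F [(10,256),(3,98),(7,211)]) (P2 1 2 (F [(10,256),(3,111),(7,251)]) (O 5))) (F [(10,256)])))) (O 5)) (P1 2 1 (U1 1 1 (F [(3,256),(10,46),(7,120)]) (U0 1 1 (P3 1 4 (F [(3,256),(1,108)]) (P4 1 2 (F [(3,256),(1,84)]) (O 5))) (F [(10,107),(3,256),(7,173)]))) (U1 1 1 (F [(3,256),(10,46),(7,120)]) (P2 4 1 (U0 1 1 (P4 1 2 (F [(3,256)]) (O 5)) (F [(10,107),(3,256),(7,173)])) (O 5))))))) (P0 1 2 (F [(1,256),(10,6),(5,7)]) (P1 1 1 (P3 1 2 (P5 4 1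 (O 5) (O 2)) (O 5)) (O 5))))) (P1 1 1 (P3 1 2 (P5 4 1 (F [(3,200),(10,256)]) (P1 1 2 (O 2) (F [(3,256),(10,244),(13,151)]))) (F [(3,256),(10,81)])) (F [(10,256),(12,87),(3,134)]))

def c6 : Cell := ⟨⟨1,0,0⟩, ⟨0,1,0⟩, ⟨0,0,1⟩, ⟨1,1,0,0⟩, ⟨0,1,0,0⟩, ⟨0,1,1,0⟩, ⟨0,1,0,1⟩⟩

def t6 : Tr :=
  P0 1 2 (O 2) (P1 1 1 (P5 1 1 (P2 1 2 (O 2) (P3 1 1 (F [(3,122),(10,256)]) (F [(3,256),(10,118)]))) (P3 1 2 (P1 1 2 (O 2) (P2 1 1 (O 2) (O 8))) (P4 1 1 (P2 1 1 (O 2) (O 8)) (O 8)))) (P2 1 1 (P4 1 2 (P5 1 2 (O 5) (F [(3,256),(10,33)])) (F [(3,256),(12,142),(10,32)])) (F [(12,255),(3,155),(10,256)])))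

def c7 : Cell := ⟨⟨1,0,0⟩, ⟨0,1,0⟩, ⟨0,0,1⟩, ⟨1,0,1,2⟩, ⟨1,1,0,0⟩, ⟨0,0,1,1⟩, ⟨0,0,0,1⟩⟩

def t7 : Tr :=
  P4 1 2 (P5 1 2 (P2 1 4 (O 3) (P3 1 1 (O 11) (P4 2 1 (O 11) (P0 1 1 (O 3) (O 11))))) (P3 1 2 (O 11) (P4 1 1 (O 11) (F [(5,256),(8,122)])))) (P3 1 1 (F [(5,256),(14,65)]) (P0 1 2 (P4 2 1 (F [(5,256),(14,142),(4,1)]) (P3 2 1 (P5 2 1 (P0 1 1 (F [(12,64),(10,256),(5,190)]) (F [(5,255),(12,29),(10,256),(14,72),(4,19)])) (P3 1 2 (P1 1 2 (F [(10,256),(14,26),(5,204),(8,4),(12,5),(4,2)]) (U1 1 1 (U2 1 1 (F [(12,140),(5,151),(10,256),(14,163),(8,3)]) (P0 2 1 (F [(10,256),(5,151),(8,3),(14,62)]) (F [(5,256),(8,37),(14,21),(10,189),(12,24)]))) (U0 1 1 (P0 2 1 (F [(10,256),(14,129),(5,64)]) (F [(14,50),(5,256),(10,185),(12,22)])) (P0 2 1 (F [(10,256),(14,129),(5,64)]) (F [(14,136),(5,256),(10,240),(12,45)])))))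 (P0 1 1 (F [(10,256),(5,49),(14,19)]) (U1 1 1 (U2 1 1 (F [(12,256),(4,10),(5,74)]) (P1 2 1 (F [(10,256),(4,2)]) (F [(4,28),(10,169),(5,256),(12,171),(8,155)]))) (U0 1 1 (P1 2 1 (F [(10,256),(5,7)]) (F [(10,220),(14,26),(5,256),(12,7)])) (P1 2 1 (F [(10,256),(14,14)]) (F [(10,170),(5,256),(4,24),(12,5)]))))))) (P0 1 4 (F [(12,256),(5,56)]) (P0 2 1 (F [(12,256),(5,101)]) (P1 1 1 (F [(12,256),(5,48)]) (F [(12,21),(10,251),(5,256),(4,19),(14,58)])))))) (F [(14,140),(5,256),(8,10),(4,1)])))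

def c8 : Cell := ⟨⟨1,0,0⟩, ⟨0,1,0⟩, ⟨0,0,1⟩, ⟨1,0,2,1⟩, ⟨1,1,1,1⟩, ⟨0,0,1,1⟩, ⟨1,0,1,2⟩⟩

def t8 : Tr :=
  P3 1 2 (P1 1 2 (F [(5,256),(8,4)]) (P2 1 1 (P5 1 2 (P4 1 2 (O 11) (F [(5,13),(8,256),(11,94),(4,44),(9,82)])) (F [(5,256),(11,68),(8,67),(4,107)])) (P0 2 1 (P3 1 1 (P5 1 1 (U1 1 1 (P4 1 2 (U2 1 1 (P2 1 2 (O 11) (F [(11,157),(14,137),(9,256),(8,238)])) (F [(11,256),(14,156)])) (F [(11,80),(9,212),(4,40),(8,256)])) (F [(11,239),(5,256),(8,86),(4,125)])) (F [(11,109),(9,256),(4,19)])) (P4 1 1 (U1 1 1 (P5 1 2 (U2 1 1 (P2 1 2 (O 11) (F [(8,256),(14,97),(11,154),(9,242)])) (F [(11,256),(14,156)])) (F [(11,154),(9,242),(8,256),(14,97)])) (F [(5,256),(11,239),(8,86),(4,125)])) (F [(5,67),(11,5),(9,256),(8,251)]))) (O 6)))) (P0 1 1 (P4 1 1 (P2 1 2 (F [(8,108),(5,256),(4,59),(9,4)]) (P0 1 1 (F [(8,216),(5,256),(4,63),(9,60)])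 (P1 1 1 (F [(5,256),(9,6),(4,51)]) (F [(8,16384),(14,1568),(9,9428)])))) (P3 2 1 (P1 1 1 (F [(5,256),(9,6)]) (P2 1 1 (F [(5,256),(14,7),(4,39),(9,7)]) (U1 1 1 (U2 1 1 (P0 2 1 (F [(8,256),(5,46),(9,98)]) (F [(8,256),(14,39),(9,131)])) (P0 2 1 (F [(5,107),(8,256),(9,127)]) (U0 2 1 (F [(8,256),(14,23),(9,131)]) (F [(9,168),(8,256)])))) (U0 1 1 (P0 2 1 (F [(5,256),(8,8)]) (F [(8,256),(9,126)])) (P0 2 1 (F [(5,165),(8,256),(9,139)]) (U2 2 1 (F [(8,256),(14,18),(9,130)]) (F [(9,211),(5,26),(8,256)]))))))) (P0 1 2 (P4 2 1 (F [(8,256),(9,70)]) (U1 1 1 (U2 1 1 (F [(14,256)]) (P3 4 1 (F [(8,256),(5,2),(14,16),(9,48)]) (F [(14,256),(5,50),(3,206),(9,10)]))) (U0 1 1 (F [(8,256),(5,82),(14,230)]) (P3 4 1 (F [(5,2),(8,256),(14,16),(9,48)]) (F [(8,177),(14,256),(3,75),(9,15)]))))) (P2 1 1 (F [(8,256),(9,70)]) (U1 1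 1 (U2 1 1 (F [(8,3),(14,256),(13,207),(4,1)]) (P1 2 1 (U0 2 1 (F [(8,256),(14,26),(9,69)]) (F [(8,256),(9,102),(5,9)])) (U0 2 1 (F [(8,256),(14,120),(3,162),(9,96)]) (F [(9,148),(14,61),(8,256),(3,123)])))) (U0 1 1 (P1 2 1 (F [(8,256),(5,45)]) (P0 2 1 (F [(8,256),(9,70)]) (F [(8,256),(9,126)]))) (P1 2 1 (U2 2 1 (F [(8,256)]) (F [(5,11),(8,256),(9,102)])) (U2 2 1 (P0 2 1 (F [(8,256),(3,36),(9,72)]) (F [(8,256),(14,31),(9,131)])) (F [(9,138),(14,9),(8,256),(3,97)]))))))))) (P2 1 1 (P4 1 2 (P5 1 2 (F [(8,256),(4,92)]) (F [(5,21),(8,256),(11,35),(4,27),(9,111)])) (P0 1 1 (P3 1 1 (F [(5,75),(8,256),(9,149),(4,23)]) (F [(8,16384),(14,1568),(9,9428)])) (F [(8,256),(5,21),(11,35),(4,27),(9,111)]))) (P1 2 1 (P3 1 1 (P5 1 1 (U1 1 1 (P4 1 2 (U2 1 1 (P2 1 2 (F [(14,256),(4,16),(5,55)]) (F [(14,113),(8,161),(5,110),(11,7),(9,256)]))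 (F [(4,28),(9,20),(5,84),(11,256),(14,157)])) (U2 1 1 (P0 1 1 (F [(8,256),(5,152),(14,61),(9,251),(3,21)]) (F [(8,165),(5,109),(14,101),(9,256)])) (F [(9,130),(5,256)]))) (F [(5,256),(11,29),(8,10),(9,36),(4,72)])) (U1 1 1 (U2 1 1 (P1 1 2 (F [(5,256),(9,6)]) (P0 1 1 (F [(5,145),(8,256),(14,28),(9,226),(3,57)]) (F [(5,61),(8,235),(11,8),(9,256),(14,21)]))) (F [(5,256),(9,151)])) (F [(5,256),(11,26),(9,80)]))) (P4 1 1 (U1 1 1 (P5 1 2 (U2 1 1 (P2 1 2 (F [(14,256)]) (F [(14,97),(8,196),(5,59),(9,256)])) (P2 1 2 (F [(4,209),(14,87),(5,256)]) (U0 2 1 (F [(9,256),(14,31),(8,255),(5,26)]) (F [(9,220),(4,256),(5,190)])))) (U2 1 1 (P0 1 1 (F [(14,4),(8,256),(9,173)]) (P1 1 1 (F [(8,256),(14,27),(5,49),(9,207)]) (F [(14,101),(8,165),(9,256),(5,109)]))) (U0 2 1 (P0 1 1 (F [(8,256),(9,174)]) (F [(9,256),(5,177),(8,170),(14,28)]))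 (F [(9,256),(4,51),(5,47)])))) (P5 1 2 (U0 1 1 (F [(5,256),(8,68),(9,22)]) (P2 1 2 (F [(4,161),(9,109),(5,256),(8,183)]) (U2 2 1 (F [(5,8),(9,229),(8,256)]) (F [(9,256),(8,187)])))) (U0 1 1 (F [(5,256),(8,68),(9,22)]) (U2 2 1 (F [(5,33),(8,256),(9,229)]) (F [(9,256),(8,162)]))))) (U1 1 1 (U2 1 1 (P0 1 2 (F [(14,2),(8,256),(9,187)]) (P1 1 1 (F [(8,256),(14,2),(9,187)]) (F [(14,48),(9,256),(8,248)]))) (P0 1 2 (F [(9,208),(8,256),(5,17)]) (U0 2 1 (P1 1 1 (F [(9,187),(8,256)]) (F [(9,235),(14,7),(8,256)])) (F [(9,256),(14,37)])))) (U0 1 1 (F [(5,20),(8,256),(9,219)]) (P0 1 2 (F [(9,208),(8,256),(5,17)]) (U2 2 1 (F [(9,229),(5,33),(8,256)]) (F [(9,256),(8,162)]))))))) (P0 2 1 (P4 1 1 (U1 1 1 (P2 1 2 (U2 1 1 (P5 1 2 (F [(14,256)]) (F [(14,86),(8,238),(9,256),(11,24)])) (P5 1 2 (F [(4,256),(14,230),(11,84),(5,228)])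 (U0 2 1 (F [(9,244),(14,22),(8,256),(11,5)]) (F [(9,256),(4,236)])))) (F [(9,16384),(14,5026),(8,13355)])) (P2 1 2 (U0 1 1 (P5 1 2 (F [(5,116),(14,256),(11,154),(9,36)]) (F [(8,16384),(11,4432),(9,10013)])) (P5 1 2 (F [(4,62),(9,118),(14,256),(11,120),(8,57),(5,180)]) (U2 2 1 (P3 1 1 (P1 1 2 (F [(9,191),(11,97),(8,256)]) (F [(9,256),(11,82),(14,149),(8,232)])) (F [(14,74),(9,230),(8,256),(11,32),(5,1)])) (F [(9,256),(14,29),(8,137)])))) (U0 1 1 (P0 1 1 (F [(8,16384),(11,4389),(9,10055)]) (O 6)) (U2 2 1 (P0 1 1 (P3 1 1 (P1 1 2 (P5 2 1 (F [(9,256),(14,102),(8,198)]) (F [(9,247),(11,11),(8,256)])) (F [(9,256),(14,102),(8,203)])) (F [(14,96),(9,256),(8,240)])) (O 6)) (F [(9,256),(14,62),(8,124)]))))) (U1 1 1 (U2 1 1 (F [(14,65),(9,256),(8,245),(3,14)]) (P3 2 1 (F [(9,16384),(14,5026),(8,13355)]) (U0 2 1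 (F [(9,256),(14,153),(8,225),(3,52)]) (F [(9,256),(4,205)])))) (U0 1 1 (P3 2 1 (P1 1 1 (P5 1 1 (U1 2 1 (P2 1 2 (F [(8,256),(9,200)]) (F [(9,256),(8,246)])) (F [(5,256),(11,101),(9,32)])) (F [(9,256),(8,246)])) (P2 1 1 (U1 2 1 (P5 1 2 (F [(8,256),(9,200)]) (F [(9,256),(8,245)])) (F [(5,141),(8,223),(9,256)])) (F [(9,256),(8,227),(14,6)]))) (P0 1 2 (F [(8,256),(9,204)]) (P2 1 1 (F [(8,256),(14,4),(9,209)]) (F [(9,256),(8,227),(14,6)])))) (P3 2 1 (U2 2 1 (P1 1 1 (P5 1 1 (F [(9,256),(14,115),(8,177)]) (F [(9,256),(8,244)])) (F [(9,256),(14,115),(8,177)])) (F [(9,256),(14,28),(8,170)])) (U2 2 1 (P0 1 2 (F [(9,207),(14,13),(8,256),(3,8)]) (F [(9,256),(14,98),(8,205)])) (F [(9,256),(14,74),(8,151)])))))) (O 6)))))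

def c9 : Cell := ⟨⟨1,0,0⟩, ⟨0,1,0⟩, ⟨0,0,1⟩, ⟨1,0,1,0⟩, ⟨1,1,1,1⟩, ⟨1,0,2,1⟩, ⟨1,0,1,2⟩⟩

def t9 : Tr :=
  P2 2 1 (P3 1 1 (P5 1 1 (P2 1 2 (P4 1 2 (F [(8,256),(4,92)]) (P0 1 2 (P3 1 1 (F [(14,170),(8,256),(4,150)]) (F [(14,198),(8,256),(9,170)])) (F [(8,256),(4,248),(5,181)]))) (P4 2 1 (F [(4,143),(8,256),(5,3)]) (P0 1 1 (P3 1 1 (F [(14,170),(4,150),(8,256)]) (F [(14,21),(8,256),(9,170)])) (F [(4,141),(14,32),(8,256)])))) (P0 1 1 (P3 1 2 (P5 2 1 (U1 1 1 (F [(14,256),(9,137)]) (P2 1 2 (O 6) (U0 1 1 (P1 1 1 (O 6) (P4 2 1 (F [(14,256)]) (F [(14,128),(8,205),(9,256)]))) (F [(9,212),(14,256)])))) (U1 1 1 (F [(9,245),(14,256)]) (P1 1 4 (O 6) (U0 1 1 (P2 1 1 (O 6) (F [(14,128),(9,256),(8,205)])) (F [(9,245),(14,256)]))))) (P4 1 1 (U1 1 1 (F [(14,256),(9,137)]) (P2 1 2 (P5 1 2 (F [(14,256),(4,27),(5,45),(11,186)])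 (U0 1 1 (P1 1 2 (P3 1 1 (O 6) (F [(8,256),(14,149),(9,205),(11,94)])) (F [(14,256),(11,147)])) (F [(9,174),(14,256)]))) (U0 1 1 (P5 2 1 (F [(14,256),(8,6)]) (P0 1 1 (P3 1 1 (F [(14,122),(8,205),(9,256)]) (F [(8,256),(14,75),(9,212)])) (F [(14,122),(8,205),(9,256)]))) (F [(14,256),(9,174)])))) (U1 1 1 (F [(14,256),(9,59),(8,19),(3,112)]) (U0 1 1 (P0 1 2 (P3 2 1 (P5 1 1 (F [(8,256),(14,4),(9,209)]) (F [(9,256),(14,57),(8,217)])) (F [(8,256),(9,204)])) (P1 1 1 (P5 1 1 (F [(14,57),(8,256),(9,210)]) (F [(14,57),(9,256),(8,217)])) (F [(14,256),(8,47)]))) (U2 2 1 (P0 1 2 (P3 2 1 (F [(9,256),(14,165),(8,166)]) (F [(14,13),(9,207),(8,256),(3,8)])) (F [(14,256),(9,174)])) (F [(9,256),(14,188),(8,104)])))))) (P1 1 2 (P5 2 1 (U1 1 1 (F [(4,256),(14,106)]) (P2 1 2 (P4 1 2 (O 6) (U0 1 1 (P3 1 1 (O 6) (F [(14,256)]))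 (F [(4,256),(9,43)]))) (U0 1 1 (P3 1 1 (O 6) (F [(14,256)])) (F [(4,256),(9,46)])))) (U1 1 1 (F [(4,256),(9,101)]) (P3 1 4 (O 6) (U0 1 1 (P4 1 1 (O 6) (F [(14,256)])) (F [(4,256),(9,46)]))))) (F [(4,67),(14,256),(8,122)])))) (P4 1 1 (P2 1 2 (P5 1 2 (F [(8,256),(14,61),(4,27)]) (F [(8,198),(14,256),(9,132)])) (F [(14,256),(8,198),(9,132)])) (P0 1 2 (P3 2 1 (P5 1 1 (F [(8,256),(14,28),(9,72)]) (U1 1 1 (F [(14,256),(3,135),(9,15)]) (U0 1 1 (P0 1 1 (P3 1 2 (F [(8,256),(9,129)]) (F [(8,256),(9,70)])) (F [(8,256),(14,21),(9,138)])) (U2 2 1 (P0 1 1 (P3 1 2 (F [(8,256),(14,14),(3,17),(9,132)]) (F [(8,256),(3,61),(9,71)])) (F [(8,210),(14,256),(9,194)])) (F [(14,132),(8,256),(9,144),(3,143)]))))) (F [(8,36),(14,256),(3,77),(9,5)])) (F [(14,256),(8,198),(9,132)])))) (P0 2 1 (P3 1 1 (P1 1 2 (P3 1 2 (O 6) (P4 1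 1 (U1 1 1 (F [(4,1),(14,256),(9,228)]) (P5 1 2 (F [(4,46),(14,256),(9,131)]) (F [(14,110),(9,256),(8,180)]))) (U1 1 1 (F [(9,51),(14,256),(3,44),(13,5)]) (U0 1 1 (P0 1 2 (P3 2 1 (F [(9,256),(14,89),(8,205)]) (F [(14,10),(8,256),(9,215)])) (F [(9,256),(14,89),(8,204)])) (P0 1 2 (U2 2 1 (P3 2 1 (F [(9,256),(14,99),(8,187)]) (F [(9,218),(14,54),(8,256)])) (F [(9,256),(14,105)])) (F [(9,256),(4,241),(14,39)])))))) (P0 1 1 (P4 1 1 (F [(4,97),(14,256),(8,32),(3,183)]) (U1 1 1 (F [(9,95),(14,256),(13,70),(8,52)]) (U0 1 1 (P3 2 1 (F [(14,115),(9,256),(4,31),(8,215),(3,19)]) (F [(14,10),(8,256),(9,215)])) (F [(9,176),(14,256),(8,132),(13,33)])))) (P2 1 1 (F [(4,92),(14,256),(8,33),(3,161)]) (F [(4,23),(9,256),(14,47),(8,201)])))) (P4 2 1 (P1 1 1 (F [(4,7),(14,98),(8,256),(9,161)]) (F [(4,42),(14,59),(8,256),(9,160)]))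 (P0 1 2 (P3 2 1 (U1 1 1 (F [(4,80),(8,100),(14,132),(3,256)]) (U0 1 1 (P1 1 2 (P3 1 2 (F [(8,256),(9,129)]) (F [(8,256),(14,37),(9,73)])) (F [(8,183),(14,154),(3,256)])) (P1 1 2 (U2 2 1 (P3 1 2 (F [(8,256),(3,33),(9,130)]) (F [(8,256),(14,76),(9,78)])) (F [(9,136),(14,81),(8,256),(3,184)])) (F [(14,70),(8,256),(4,18),(9,79),(3,200)])))) (U1 1 1 (F [(4,25),(14,256),(13,173),(3,46)]) (F [(8,80),(14,256),(13,106),(3,131),(4,3),(9,11)]))) (P1 1 1 (U1 1 1 (F [(4,112),(8,256),(9,94),(3,85)]) (U0 1 1 (P3 1 2 (F [(8,256),(14,29),(3,53),(9,141)]) (F [(8,115),(14,166),(3,256),(4,64)])) (P3 1 2 (F [(9,165),(14,158),(8,256),(3,133)]) (F [(4,96),(14,169),(8,90),(3,256)])))) (F [(4,20),(8,91),(14,256),(13,194),(9,45)]))))) (P1 2 1 (P3 1 2 (O 6) (F [(4,256),(14,232),(9,246),(8,52),(3,71)])) (P2 4 1 (F [(4,256),(14,235),(13,71),(8,5),(3,142)])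 (P0 4 1 (F [(4,256),(13,91),(14,200)]) (O 4)))))

def c10 : Cell := ⟨⟨1,0,0⟩, ⟨0,1,0⟩, ⟨0,0,1⟩, ⟨1,0,1,0⟩, ⟨3,2,1,2⟩, ⟨1,1,1,1⟩, ⟨1,0,1,2⟩⟩

def t10 : Tr :=
  P2 2 1 (P4 1 2 (F [(8,95),(14,256),(5,23)]) (P0 1 1 (F [(8,256),(14,49),(5,174),(4,2)]) (F [(14,256)]))) (P0 4 1 (P4 1 1 (F [(4,4),(8,256),(14,139)]) (F [(8,256),(4,1),(14,11),(5,16),(12,5)])) (P1 2 1 (P5 2 1 (F [(4,115),(14,256),(8,134),(13,135)]) (P3 1 4 (P1 1 2 (F [(8,204),(4,13),(14,256),(13,236)]) (F [(4,49),(8,91),(14,256),(13,223)])) (F [(4,113),(8,132),(14,256),(13,169)]))) (P2 4 1 (F [(4,222),(14,256),(8,231)]) (P0 8 1 (F [(4,133),(13,218),(14,256),(8,41)]) (F [(4,102),(13,256),(14,241),(6,11)])))))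

def c11 : Cell := ⟨⟨1,0,0⟩, ⟨0,1,0⟩, ⟨0,0,1⟩, ⟨5,4,4,3⟩, ⟨5,5,3,3⟩, ⟨1,1,1,1⟩, ⟨3,2,1,2⟩⟩

def t11 : Tr :=
  P5 2 1 (U1 1 1 (P2 1 2 (U2 1 1 (F [(12,203),(8,55),(10,253),(5,29),(14,256)]) (P4 1 2 (F [(4,22),(8,37),(14,256),(10,150),(12,110)]) (F [(8,98),(10,256),(14,143),(12,60)]))) (U2 1 1 (P0 1 1 (P3 1 1 (F [(12,14),(10,256),(8,247),(14,31)]) (F [(12,256)])) (P1 1 1 (F [(8,256),(10,223)]) (F [(4,48),(10,256),(8,218)]))) (U0 2 1 (P0 1 1 (F [(10,256),(8,146),(14,61)]) (P1 1 1 (F [(8,208),(10,256),(14,44)]) (F [(4,94),(8,207),(10,256)]))) (F [(4,256),(8,197),(10,238)])))) (P2 1 2 (U0 1 1 (P4 1 2 (F [(14,256),(10,92),(12,89)]) (F [(10,256),(14,100),(8,119),(12,21)])) (P4 1 2 (F [(8,38),(14,256),(4,2),(10,153),(12,94)]) (F [(8,102),(10,256),(14,136),(12,55)]))) (U0 1 1 (P0 1 1 (F [(10,256),(14,82),(8,133),(12,15)])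 (P1 1 1 (F [(14,59),(8,177),(10,256)]) (U1 2 1 (P2 2 1 (F [(10,256),(8,256),(12,2)]) (F [(10,171),(3,111),(8,256)])) (P2 2 1 (F [(14,105),(10,256),(8,125)]) (F [(3,183),(10,116),(8,256)]))))) (U2 2 1 (P0 1 1 (F [(10,256),(8,130),(14,87),(12,19)]) (P1 1 1 (F [(8,177),(14,59),(10,256)]) (P2 2 1 (F [(8,256),(10,256),(12,13)]) (U1 1 1 (U2 1 2 (F [(10,206),(8,256),(3,106),(4,10)]) (P0 2 1 (F [(10,256),(8,154),(4,17)]) (F [(8,256),(4,42),(10,127),(3,139)]))) (P0 2 1 (F [(10,256),(8,163),(4,5)]) (F [(8,256),(10,88),(3,163),(4,29)])))))) (P0 1 1 (F [(8,190),(10,256),(4,3)]) (P1 1 1 (F [(8,216),(4,3),(10,256)]) (P2 2 1 (F [(4,4),(8,236),(10,256)]) (F [(4,64),(8,256),(10,115),(3,200)])))))))) (U1 1 1 (U2 1 1 (P3 1 4 (P1 1 4 (F [(10,222),(8,256),(14,2),(12,1)]) (P2 1 1 (F [(10,222),(8,256),(12,1),(14,2)]) (F [(4,46),(10,256),(8,187),(3,36)])))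 (P0 1 1 (P4 1 1 (F [(12,14),(10,256),(8,247),(14,31)]) (F [(10,256),(4,10)])) (P2 1 1 (F [(10,223),(8,256)]) (F [(4,45),(10,256),(8,149)])))) (P3 1 4 (U0 2 1 (P1 1 4 (F [(10,223),(8,256),(14,3)]) (P2 1 1 (F [(8,256),(10,223),(14,3)]) (U1 1 1 (F [(4,99),(10,215),(8,256),(3,155)]) (P0 2 1 (F [(10,203),(3,75),(8,256)]) (U0 1 2 (F [(10,256),(3,64),(8,162),(4,20)]) (F [(8,256),(10,153),(4,61),(3,125)])))))) (F [(4,51),(8,256),(10,115),(3,124)])) (U0 2 1 (P0 1 1 (F [(10,256),(8,146),(14,61)]) (P2 1 1 (F [(10,256),(8,208),(14,44)]) (U1 1 1 (F [(4,186),(10,256),(8,28)]) (P1 2 1 (F [(10,256),(8,175),(4,2)]) (U0 1 2 (F [(10,256),(3,64),(4,20),(8,162)]) (F [(10,256),(4,134),(8,106)])))))) (F [(4,160),(10,256),(8,127)])))) (U0 1 1 (P3 1 4 (P1 1 4 (F [(14,135),(10,256),(8,173),(3,32)]) (P2 1 1 (F [(14,135),(10,256),(8,173),(3,32)])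 (F [(3,115),(10,157),(8,256)]))) (P0 1 1 (F [(10,256),(14,150)]) (P2 1 1 (F [(10,256),(14,117),(8,64)]) (F [(10,170),(3,121),(8,256)])))) (P3 1 4 (U2 2 1 (P1 1 4 (F [(14,10),(10,232),(8,256)]) (P2 1 1 (F [(8,256),(14,10),(10,232)]) (U1 1 1 (P0 2 1 (F [(10,201),(3,80),(8,256)]) (U2 1 2 (F [(10,250),(3,123),(8,256)]) (F [(10,87),(8,256),(3,144),(4,27)]))) (P0 2 1 (F [(10,162),(3,111),(8,256)]) (F [(8,256),(3,183),(10,31),(4,14)]))))) (P1 1 4 (F [(8,256),(14,31),(10,127),(3,130),(4,21)]) (P2 1 1 (F [(8,256),(14,62),(10,149),(4,29),(3,144)]) (U0 2 1 (F [(8,256),(10,70),(3,188),(4,21)]) (F [(4,106),(8,256),(10,148),(3,213)]))))) (U2 2 1 (P0 1 1 (F [(10,256),(14,138)]) (P2 1 1 (F [(10,256),(8,64),(14,114)]) (U1 1 1 (P1 2 1 (F [(10,256),(8,174),(4,1)]) (U2 1 2 (F [(10,250),(3,123),(8,256)]) (P0 2 1 (F [(10,256),(8,133),(4,8)])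 (F [(10,119),(3,141),(8,256),(4,39)])))) (P1 2 1 (F [(10,256),(8,173),(4,2)]) (P0 2 1 (F [(10,256),(8,138),(4,5)]) (F [(10,88),(3,163),(8,256),(4,29)])))))) (P0 1 1 (F [(10,256),(8,187),(4,4)]) (P2 1 1 (F [(8,216),(10,256),(4,3)]) (U0 2 1 (F [(10,97),(8,256),(3,199),(4,37)]) (F [(4,233),(8,214),(10,256),(3,221)]))))))))

theorem g0 : ∀ c ∈ [c0, c1, c2, c3, c4, c5, c6, c7, c8, c9, c10, c11], Done D c := by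
  intro c hc
  simp only [List.mem_cons, List.not_mem_nil, or_false] at hc
  rcases hc with rfl | rfl | rfl | rfl | rfl | rfl | rfl | rfl | rfl | rfl | rfl | rfl
  · exact done_of_chk (t := t0) (by decide +kernel)
  · exact done_of_chk (t := t1) (by decide +kernel)
  · exact done_of_chk (t := t2) (by decide +kernel)
  · exact done_of_chk (t := t3) (by decide +kernel)
  · exact done_of_chk (t := t4) (by decide +kernel)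
  · exact done_of_chk (t := t5) (by decide +kernel)
  · exact done_of_chk (t := t6) (by decide +kernel)
  · exact done_of_chk (t := t7) (by decide +kernel)
  · exact done_of_chk (t := t8) (by decide +kernel)
  · exact done_of_chk (t := t9) (by decide +kernel)
  · exact done_of_chk (t := t10) (by decide +kernel)
  · exact done_of_chk (t := t11) (by decide +kernel)

end Pool.Agent.W2helper59.NW.I0
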