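import Pool.Agent.W2helper59.NW.D_I0

set_option autoImplicit false
set_option maxRecDepth 1000000

namespace Pool.Agent.W2helper59.NW.I0

open Tr

def c12 : Cell := ⟨⟨1,0,0⟩, ⟨0,1,0⟩, ⟨0,0,1⟩, ⟨6,4,3,3⟩, ⟨5,5,3,3⟩, ⟨5,4,4,3⟩, ⟨3,2,1,2⟩⟩

def t12 : Tr :=
  U1 1 1 (P5 1 2 (U2 1 1 (F [(12,256)]) (P4 1 2 (F [(4,256),(14,46),(12,225)]) (F [(4,102),(8,195),(10,256),(12,140)]))) (F [(4,119),(12,3),(10,256),(8,125)])) (P5 1 2 (U0 1 1 (P4 1 2 (P2 1 2 (F [(14,256),(10,76),(12,95)]) (U1 2 1 (U2 1 1 (P0 2 1 (F [(12,115),(10,256),(8,161),(14,216)]) (F [(8,219),(12,117),(10,256),(14,184)])) (F [(8,178),(14,143),(10,256)])) (F [(14,144),(8,178),(10,256)]))) (F [(10,256),(14,53),(8,141),(12,21)])) (P4 1 2 (F [(8,214),(14,256),(10,205),(12,174)]) (F [(4,6),(8,161),(10,256),(12,19)]))) (U0 1 1 (P0 1 1 (P3 1 1 (U1 2 1 (P1 1 2 (P5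 2 1 (F [(10,256),(8,256),(12,2)]) (F [(10,171),(3,111),(8,256)])) (F [(10,256),(8,253),(12,2)])) (P1 1 2 (P5 2 1 (F [(10,256),(14,85),(8,151)]) (F [(3,183),(10,116),(8,256)])) (F [(10,256),(14,85),(8,149)]))) (F [(10,256),(8,201),(12,1)])) (P1 1 1 (U1 2 1 (P3 1 2 (P5 2 1 (F [(8,256),(10,217),(12,2)]) (U2 1 1 (F [(10,248),(8,256),(3,80)]) (F [(8,256),(10,126),(3,109)]))) (F [(10,256),(8,253),(12,2)])) (P3 1 2 (F [(8,256),(10,112),(3,60)]) (F [(10,256),(14,26),(8,220)]))) (F [(8,253),(10,256),(12,2)]))) (U2 2 1 (P0 1 1 (P3 1 1 (P1 1 2 (P5 2 1 (F [(10,256),(8,256),(12,13)]) (U1 1 1 (U2 1 2 (F [(10,256),(3,107),(8,253),(4,31)]) (F [(10,197),(4,70),(8,256),(3,137)])) (P3 1 2 (F [(8,256),(10,134),(3,157),(4,43)]) (F [(10,256),(8,163),(4,5)])))) (F [(10,256),(8,256),(12,13)])) (F [(10,256),(8,212),(12,25)])) (P1 1 1 (P3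 1 2 (P5 2 1 (F [(8,256),(10,216),(12,10)]) (U1 1 1 (F [(4,3682),(8,16384),(10,11459),(3,7010)]) (F [(8,256),(4,39),(10,128),(3,144)]))) (F [(8,256),(10,253),(12,9)])) (F [(8,256),(10,253),(12,9)]))) (P0 1 1 (P3 1 1 (P1 1 2 (P5 2 1 (F [(4,4),(8,240),(10,256)]) (F [(4,70),(8,256),(10,125),(3,202)])) (F [(4,4),(8,240),(10,256)])) (F [(4,3),(10,256),(8,190)])) (F [(8,256),(10,8),(3,5)])))))

def c13 : Cell := ⟨⟨1,0,0⟩, ⟨0,1,1⟩, ⟨0,0,1⟩, ⟨3,2,2,1⟩, ⟨5,5,3,3⟩, ⟨5,4,4,3⟩, ⟨6,4,3,3⟩⟩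

def t13 : Tr :=
  F [(4,256),(10,232),(3,151)]

def c14 : Cell := ⟨⟨1,1,0⟩, ⟨0,1,0⟩, ⟨0,1,1⟩, ⟨11,9,7,5⟩, ⟨5,5,3,3⟩, ⟨5,4,4,3⟩, ⟨6,4,3,3⟩⟩

def t14 : Tr :=
  P3 1 1 (P5 1 1 (F [(10,256),(8,206)]) (U1 2 1 (U2 1 1 (F [(10,248),(3,80),(8,256)]) (P1 1 2 (F [(10,158),(3,115),(8,256)]) (F [(10,252),(3,94),(8,256)]))) (F [(3,142),(10,188),(8,256)]))) (F [(10,256),(8,166),(4,6)])

def c15 : Cell := ⟨⟨1,1,0⟩, ⟨0,1,0⟩, ⟨0,1,1⟩, ⟨11,8,8,5⟩, ⟨11,9,7,5⟩, ⟨5,4,4,3⟩, ⟨6,4,3,3⟩⟩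

def t15 : Tr :=
  P5 1 1 (U1 2 1 (P2 1 2 (F [(10,256),(4,58),(8,193)]) (U2 1 1 (P0 1 1 (F [(10,256),(4,36),(8,141)]) (P1 1 1 (F [(10,256),(4,54),(8,190)]) (F [(10,256),(4,105),(3,47)]))) (U0 2 1 (P0 1 1 (F [(10,256),(8,160),(4,4)]) (P1 1 1 (F [(10,256),(8,203),(4,3)]) (P2 2 1 (F [(10,13033),(8,16384),(3,9440),(4,4765)]) (F [(3,241),(10,147),(8,256),(4,118)])))) (P0 1 1 (P3 1 1 (P1 1 2 (F [(8,256),(4,1),(10,175)]) (U2 2 1 (F [(4,66),(10,256),(8,114)]) (P2 1 1 (F [(4,1),(8,256),(10,163)]) (F [(10,195),(4,128),(3,232),(8,256)])))) (F [(10,256),(4,184),(8,31)])) (P1 1 1 (P3 1 2 (F [(8,256),(4,1),(10,139)]) (U2 2 1 (P4 1 1 (F [(4,1),(8,256),(10,164)]) (F [(4,106),(10,159),(8,256),(3,219)])) (P4 1 1 (F [(8,256),(10,153)]) (F [(4,107),(8,256),(3,234),(10,144)])))) (P2 2 1 (U2 2 1 (P4 1 1 (F [(4,13),(8,256),(10,156)])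 (F [(4,123),(8,256),(10,148),(3,239)])) (P4 1 1 (F [(8,256),(10,134)]) (U0 4 1 (F [(4,119),(8,256),(3,240),(10,143)]) (F [(4,199),(8,133),(3,256)])))) (F [(4,122),(3,256),(8,230),(10,101)]))))))) (P2 1 2 (F [(10,256),(8,226),(4,15)]) (U0 1 2 (F [(3,172),(10,244),(8,256)]) (U2 2 1 (P0 1 1 (F [(10,256),(8,164)]) (F [(3,154),(10,120),(8,256)])) (P0 1 1 (P3 1 1 (P1 1 2 (F [(8,256),(10,175)]) (U0 2 1 (F [(10,225),(3,111),(8,256)]) (P2 1 1 (F [(8,256),(10,162)]) (F [(10,182),(3,233),(8,256),(4,118)])))) (P4 2 1 (U0 2 1 (F [(10,225),(3,111),(8,256)]) (P2 1 1 (F [(8,256),(10,171),(4,3)]) (F [(10,182),(3,233),(8,256),(4,118)]))) (F [(10,256),(3,81),(4,109)]))) (P1 1 1 (P3 1 2 (F [(8,256),(10,138)]) (U0 2 1 (F [(3,111),(8,256),(10,225)]) (P4 1 1 (F [(8,256),(10,153)]) (F [(3,239),(8,256),(10,140),(4,104)])))) (P2 2 1 (U0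 2 1 (F [(3,134),(8,256),(10,158)]) (P4 1 1 (F [(8,256),(10,134)]) (U2 4 1 (F [(3,233),(8,256),(10,114),(4,76)]) (F [(8,173),(4,123),(3,256)])))) (F [(3,256),(8,185),(4,50)])))))))) (U1 2 1 (U2 1 1 (P3 1 2 (P1 1 2 (P5 2 1 (U1 1 2 (P2 1 2 (F [(10,256),(8,202),(4,43)]) (F [(10,148),(3,182),(8,256),(4,66)])) (F [(10,132),(3,132),(8,256),(4,6)])) (F [(3,208),(10,183),(8,256)])) (P2 1 1 (U1 1 2 (P5 1 2 (F [(10,256),(4,90),(8,169)]) (F [(10,181),(3,202),(4,110),(8,256)])) (F [(10,139),(3,130),(8,256),(4,24)])) (F [(10,256),(3,219),(4,147),(8,210)]))) (P0 1 1 (F [(10,256),(4,36),(8,141)]) (P2 1 1 (F [(10,256),(4,60),(8,150)]) (F [(10,256),(3,47),(4,105)])))) (P3 1 2 (U0 2 1 (P1 1 2 (F [(3,148),(10,145),(8,256),(4,48)]) (P2 1 1 (F [(10,145),(3,148),(8,256),(4,48)]) (F [(3,245),(10,162),(8,256),(4,111)]))) (P1 1 2 (P5 2 1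 (P2 1 2 (F [(8,256),(10,165),(3,112)]) (F [(3,229),(8,256),(10,110),(4,78)])) (F [(3,218),(10,106),(8,256)])) (P2 1 1 (P5 1 2 (F [(8,256),(10,144),(3,150),(4,50)]) (F [(3,256),(8,255),(10,126),(4,108)])) (F [(3,256),(8,213),(10,99),(4,115)])))) (U0 2 1 (P0 1 1 (F [(10,256),(8,142),(4,3)]) (P2 1 1 (F [(10,256),(8,203),(4,3)]) (F [(3,245),(10,162),(8,256),(4,111)]))) (P0 1 1 (P4 1 1 (P2 1 2 (F [(10,194),(8,256),(3,96)]) (F [(10,189),(3,250),(4,121),(8,256)])) (F [(10,256),(3,81),(4,108)])) (P2 1 1 (P4 1 2 (F [(8,256),(10,144),(4,50),(3,150)]) (F [(3,236),(10,142),(4,105),(8,256)])) (F [(3,256),(10,99),(4,115),(8,213)])))))) (U0 1 2 (F [(3,197),(10,256),(8,222)]) (P3 1 2 (F [(3,190),(10,16),(8,256)]) (U2 2 1 (F [(3,203),(10,134),(8,256)]) (P0 1 1 (P4 1 1 (P2 1 2 (F [(10,109),(3,146),(8,256)]) (F [(3,254),(10,179),(8,256),(4,113)]))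 (F [(3,82),(10,256),(4,103)])) (F [(3,256),(8,231)]))))))

def c16 : Cell := ⟨⟨1,1,0⟩, ⟨0,1,0⟩, ⟨0,1,1⟩, ⟨12,8,7,5⟩, ⟨11,9,7,5⟩, ⟨11,8,8,5⟩, ⟨6,4,3,3⟩⟩

def t16 : Tr :=
  U1 2 1 (P5 1 2 (F [(4,138),(10,256),(8,111)]) (U2 1 1 (F [(10,256),(4,124),(3,48)]) (U0 2 1 (P0 1 1 (P3 1 1 (P1 1 2 (P5 2 1 (F [(10,202),(3,153),(4,80),(8,256)]) (F [(3,246),(10,148),(4,122),(8,256)])) (F [(10,256),(4,4),(8,116)])) (F [(10,256),(4,4),(8,160)])) (P1 1 1 (P3 1 2 (P5 2 1 (U1 1 1 (F [(4,122),(8,256),(10,192),(3,180)]) (U0 1 2 (F [(10,256),(4,3)]) (P4 1 2 (F [(8,256),(4,37),(10,157)]) (F [(10,173),(4,127),(8,256),(3,204)])))) (F [(3,252),(10,138),(4,137),(8,256)])) (F [(10,256),(4,196),(8,40)])) (F [(4,191),(10,256),(8,126)]))) (P0 1 1 (P3 1 1 (P1 1 2 (P5 2 1 (U2 2 1 (P4 1 1 (F [(4,113),(8,256),(10,192),(3,176)]) (F [(4,131),(10,160),(3,239),(8,256)]))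 (P4 1 1 (F [(4,150),(8,256),(10,190),(3,192)]) (U0 4 1 (F [(4,119),(3,240),(10,143),(8,256)]) (F [(4,256),(3,166)])))) (F [(4,125),(3,256),(8,132)])) (F [(4,210),(10,256),(8,12)])) (F [(10,256),(4,184),(8,31)])) (P1 1 1 (P3 1 2 (P5 2 1 (F [(4,157),(8,256),(10,189),(3,194)]) (F [(4,130),(8,150),(3,256)])) (F [(4,239),(8,3),(10,256)])) (F [(4,256),(10,55)])))))) (P5 1 2 (F [(10,249),(8,256),(4,5)]) (U0 1 2 (F [(3,121),(10,209),(8,256)]) (U2 2 1 (P0 1 1 (P3 1 1 (P1 1 2 (P5 2 1 (F [(3,131),(10,199),(8,256)]) (F [(3,256),(8,181)])) (F [(10,256),(8,118)])) (F [(10,256),(8,164)])) (P1 1 1 (P3 1 2 (P5 2 1 (U1 1 1 (U2 1 2 (F [(10,256)]) (P4 1 2 (F [(8,256),(10,120),(4,1)]) (F [(10,149),(3,204),(8,256),(4,107)]))) (P4 1 2 (F [(8,256),(3,52),(10,50)]) (F [(3,215),(10,133),(8,256),(4,102)]))) (F [(3,256),(10,114),(8,241),(4,127)]))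 (U1 1 1 (U2 1 2 (F [(10,256)]) (P5 1 2 (F [(10,205),(8,256),(4,36)]) (P0 1 1 (F [(10,256),(8,105)]) (F [(10,152),(3,203),(8,256),(4,107)])))) (P5 1 2 (F [(10,170),(8,256),(4,1)]) (P0 1 1 (F [(10,256),(8,105)]) (F [(3,14254),(10,9531),(8,16384),(4,7251)]))))) (F [(10,176),(8,256),(4,1)]))) (P0 1 1 (P3 1 1 (P1 1 2 (P5 2 1 (U0 2 1 (F [(3,147),(8,256),(10,154)]) (P4 1 1 (U2 4 1 (P2 1 2 (F [(8,256),(10,139)]) (F [(8,256),(4,108),(3,223),(10,133)])) (F [(8,256),(4,102),(3,217)])) (U2 4 1 (F [(3,240),(10,134),(8,256),(4,107)]) (F [(4,123),(8,173),(3,256)])))) (F [(3,256),(8,167),(4,57)])) (U0 2 1 (P4 1 1 (P5 1 2 (F [(8,256),(10,193)]) (F [(3,171),(10,184),(8,256)])) (F [(3,256),(10,212),(8,203)])) (P4 1 1 (U2 4 1 (P5 1 2 (F [(8,256),(4,2),(10,192)]) (P1 2 1 (U1 1 1 (F [(4,118),(10,148),(8,256),(3,226)]) (F [(8,256),(4,115),(3,236),(10,139)]))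 (F [(4,103),(10,170),(8,256),(3,197)]))) (P5 1 2 (F [(4,7),(8,256),(10,182)]) (F [(4,134),(8,256),(10,139),(3,253)]))) (U2 4 1 (F [(10,165),(3,256),(4,127),(8,241)]) (F [(4,133),(3,256),(10,145),(8,245)]))))) (P4 2 1 (U0 2 1 (F [(10,225),(3,111),(8,256)]) (P5 1 1 (F [(4,9),(8,256),(10,187)]) (F [(10,175),(3,244),(4,124),(8,256)]))) (F [(10,256),(3,98),(4,131)]))) (P1 1 1 (P3 1 2 (P5 2 1 (U0 2 1 (P4 1 2 (F [(8,256),(3,3)]) (F [(8,256),(3,215),(10,128),(4,97)])) (U2 4 1 (P4 1 2 (F [(8,256)]) (F [(8,256),(4,111),(3,222),(10,124)])) (F [(4,121),(8,250),(3,256)]))) (F [(3,256),(8,155),(4,109)])) (U0 2 1 (P5 1 2 (P0 1 1 (F [(8,256),(10,164),(3,1)]) (F [(8,256),(10,135)])) (P0 1 1 (U1 2 1 (P3 2 1 (U2 1 1 (F [(10,160),(3,221),(8,256),(4,110)]) (F [(3,237),(10,142),(8,256),(4,118)])) (F [(10,166),(3,185),(8,256),(4,99)]))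 (F [(3,138),(10,120),(8,256)])) (U1 2 1 (U2 1 1 (P5 2 1 (F [(8,256),(10,142)]) (F [(3,15439),(8,16384),(10,9114),(4,8317)])) (F [(8,256),(3,229),(4,114),(10,131)])) (F [(3,256),(8,254)])))) (U2 4 1 (P5 1 2 (F [(4,243),(8,256),(10,203)]) (P0 1 1 (P3 2 1 (U1 1 1 (F [(4,119),(8,256),(10,149),(3,226)]) (F [(4,125),(8,256),(3,241),(10,137)])) (F [(4,119),(10,167),(8,256),(3,206)])) (F [(4,148),(8,256),(3,242),(10,112)]))) (P5 1 2 (F [(4,243),(8,256),(10,203)]) (F [(4,146),(8,253),(3,256),(10,136)]))))) (U0 2 1 (P0 2 1 (P3 1 1 (F [(8,256),(10,135)]) (F [(8,256),(10,164),(3,1)])) (F [(8,256),(10,54)])) (F [(4,256),(8,33),(10,94)])))))))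

def c17 : Cell := ⟨⟨1,1,0⟩, ⟨0,3,1⟩, ⟨0,1,1⟩, ⟨3,2,2,1⟩, ⟨11,9,7,5⟩, ⟨11,8,8,5⟩, ⟨12,8,7,5⟩⟩

def t17 : Tr :=
  U2 1 1 (F [(4,155),(10,256),(3,109)]) (P0 4 1 (U0 2 1 (P3 1 1 (P5 1 1 (F [(10,179),(4,256),(3,154)]) (F [(10,132),(3,256),(4,215),(8,112)])) (F [(10,256),(4,138)])) (F [(4,256),(10,56),(3,214)])) (U0 2 1 (P1 4 1 (P5 1 1 (F [(4,256),(10,218),(3,84)]) (F [(4,165),(3,256),(10,127),(8,212)])) (F [(4,256),(10,153),(3,141)])) (F [(4,256),(3,216)])))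

def c18 : Cell := ⟨⟨1,3,0⟩, ⟨0,1,0⟩, ⟨0,3,1⟩, ⟨3,2,2,1⟩, ⟨11,9,7,5⟩, ⟨11,8,8,5⟩, ⟨12,8,7,5⟩⟩

def t18 : Tr :=
  P0 4 1 (F [(3,125),(10,210),(8,256)]) (P1 4 1 (P5 1 1 (U1 4 1 (P2 1 2 (F [(10,179),(3,126),(8,256)]) (F [(3,256),(10,57)])) (F [(3,220),(10,38),(8,256)])) (F [(3,256),(10,54)])) (P2 4 1 (U1 4 1 (P5 1 2 (U2 1 1 (F [(10,236),(3,195),(4,147),(8,256)]) (P4 1 2 (U0 2 1 (F [(10,183),(3,190),(8,256),(4,123)]) (P2 1 2 (F [(8,256),(10,149),(3,100)]) (U2 2 1 (F [(3,244),(10,150),(8,256),(4,141)]) (F [(3,216),(8,256),(10,22)])))) (F [(3,256),(4,119)]))) (F [(3,256),(10,10),(4,124)])) (F [(3,220),(10,38),(8,256)])) (F [(3,256),(8,4),(4,166)])))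

def c19 : Cell := ⟨⟨2,5,1⟩, ⟨1,3,0⟩, ⟨0,3,1⟩, ⟨23,17,15,9⟩, ⟨11,9,7,5⟩, ⟨11,8,8,5⟩, ⟨12,8,7,5⟩⟩

def t19 : Tr :=
  P3 1 1 (P5 1 1 (P4 1 2 (U1 1 1 (F [(10,13613),(3,13491),(4,9796),(8,16384)]) (P2 1 2 (P5 1 2 (F [(8,215),(4,3),(10,256)]) (U0 1 2 (U1 2 1 (P1 1 2 (F [(3,204),(10,32),(8,256)]) (F [(10,167),(3,206),(8,256),(4,121)])) (P1 1 2 (F [(3,204),(8,256),(10,32)]) (F [(3,12737),(8,16384),(10,10931),(4,7249)]))) (U2 1 1 (P1 1 2 (F [(8,256),(10,136),(3,8)]) (F [(10,166),(3,209),(8,256),(4,125)])) (F [(4,42),(8,256),(10,162)])))) (P1 1 1 (U0 1 2 (U1 2 1 (P5 2 1 (F [(3,256),(10,140),(8,221),(4,140)]) (F [(3,256),(8,236)])) (P5 2 1 (F [(3,256),(10,133),(8,209),(4,138)]) (F [(3,256),(8,236)]))) (U2 1 1 (P5 2 1 (F [(10,153),(3,256),(4,144),(8,241)]) (F [(3,235),(10,144),(8,256),(4,108)])) (P5 2 1 (F [(10,166),(4,146),(3,250),(8,256)])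 (F [(4,138),(10,154),(3,247),(8,256)])))) (F [(3,3),(10,256),(4,8)])))) (U1 1 1 (U2 1 2 (F [(10,256)]) (P0 1 1 (P3 1 1 (F [(10,182),(3,256),(8,253),(4,161)]) (F [(10,256),(4,10)])) (F [(10,194),(3,256),(4,170),(8,253)]))) (P0 1 1 (P3 1 1 (U0 1 2 (F [(3,256),(8,68)]) (F [(3,16384),(10,9579),(8,15775),(4,8921)])) (F [(10,256),(4,6)])) (P1 1 1 (U0 1 2 (F [(3,256),(8,68)]) (F [(3,16384),(10,9579),(8,15775),(4,8921)])) (F [(3,64),(10,256),(4,41)]))))) (F [(3,256),(10,67),(8,157),(4,132)])) (F [(10,256),(4,4),(8,148)])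

def c20 : Cell := ⟨⟨1,1,0⟩, ⟨1,3,0⟩, ⟨2,5,1⟩, ⟨23,17,15,9⟩, ⟨22,17,15,10⟩, ⟨11,8,8,5⟩, ⟨12,8,7,5⟩⟩

def t20 : Tr :=
  P5 1 1 (P4 1 2 (U0 2 1 (P2 1 2 (P5 1 2 (U1 2 1 (F [(4,49),(8,256),(10,198)]) (P4 1 4 (U0 1 2 (P2 1 4 (F [(8,256)]) (P1 1 1 (F [(8,256)]) (U1 4 1 (P0 2 1 (F [(8,256)]) (U2 1 1 (F [(8,196),(4,62),(10,256)]) (P2 2 1 (F [(8,256)]) (U0 2 1 (P1 2 1 (F [(8,256)]) (P0 4 1 (F [(8,256),(10,150)]) (U1 1 1 (P2 4 1 (F [(4,12),(8,256)]) (F [(4,150),(8,256),(10,153),(3,251)])) (P2 4 1 (F [(8,256),(10,152)]) (F [(8,256),(10,153),(3,250),(4,148)]))))) (F [(8,195),(4,149),(3,256)]))))) (F [(8,256),(3,214),(10,25)])))) (F [(4,256)])) (U0 1 2 (P3 1 1 (P1 1 1 (F [(8,256)]) (U1 4 1 (P0 2 1 (F [(8,256),(3,5)]) (P2 2 1 (F [(8,256),(3,5)]) (U2 1 1 (F [(8,196),(4,62),(10,256)]) (U0 2 1 (P1 2 1 (F [(8,256)]) (P0 4 1 (F [(8,256),(3,110)])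 (P2 4 1 (F [(8,256),(3,110)]) (F [(8,16384),(3,16021),(10,9757),(4,9442)])))) (F [(8,195),(4,149),(3,256)]))))) (F [(8,217),(3,256),(4,23)]))) (P0 1 1 (F [(8,256),(3,123),(10,181)]) (U1 4 1 (P1 2 1 (F [(8,256),(10,170),(3,75)]) (P2 2 1 (F [(8,256),(10,170),(3,75)]) (U2 1 1 (F [(10,256),(8,193),(4,60)]) (U0 2 1 (P0 2 1 (F [(8,208),(10,256),(4,3)]) (P1 4 1 (F [(8,256),(3,234),(10,154),(4,135)]) (P2 4 1 (F [(8,256),(10,155),(3,231),(4,133)]) (F [(3,16013),(10,9879),(8,16384),(4,9470)])))) (P0 2 1 (F [(8,256),(3,236),(4,136),(10,151)]) (F [(8,15995),(4,9395),(3,16384),(10,7516)])))))) (F [(8,217),(3,256),(4,23)])))) (U2 2 1 (P3 1 1 (F [(8,155),(4,256)]) (P0 1 1 (F [(8,256),(10,153)]) (P1 2 1 (F [(8,256),(10,153)]) (P2 2 1 (F [(8,256),(10,153)]) (F [(4,9248),(8,16384),(10,9540),(3,15407)]))))) (F [(8,256),(4,10)])))))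 (U1 2 1 (F [(4,42),(8,256),(10,162)]) (U0 1 2 (P1 1 2 (F [(8,256),(3,204),(10,32)]) (P4 1 1 (P2 1 1 (F [(8,256),(3,4)]) (U1 4 1 (P0 2 1 (F [(8,256),(3,5)]) (U2 1 1 (F [(8,16384),(4,9223),(3,15496),(10,9780)]) (P1 2 1 (F [(8,256),(3,107)]) (U0 2 1 (P2 2 1 (F [(8,256),(3,107)]) (F [(8,16384),(3,15840),(10,9810),(4,9332)])) (F [(8,166),(4,148),(3,256)]))))) (F [(8,159),(3,256),(4,57)]))) (P0 1 1 (F [(3,233),(8,256),(10,116)]) (U1 4 1 (P2 2 1 (F [(8,256),(3,112),(10,134)]) (U2 1 1 (P1 2 1 (F [(3,241),(8,256),(10,149),(4,136)]) (P0 2 1 (F [(10,151),(3,245),(8,256),(4,140)]) (F [(10,10046),(3,15490),(8,16384),(4,9238)]))) (P1 2 1 (F [(8,256),(3,242)]) (U0 2 1 (P0 2 1 (F [(3,246),(10,151),(8,256),(4,140)]) (F [(3,15840),(8,16384),(10,9810),(4,9332)])) (F [(8,236),(3,256),(4,144),(10,122)]))))) (F [(3,256),(8,130),(4,74)])))))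 (P1 1 2 (F [(8,256),(3,220),(10,16)]) (U2 2 1 (P4 1 1 (F [(8,232),(4,256)]) (P0 1 1 (F [(8,256),(10,144)]) (P2 2 1 (F [(8,256),(10,144)]) (U1 1 1 (F [(4,150),(8,256),(10,151),(3,253)]) (F [(8,252),(4,149),(3,256),(10,144)]))))) (F [(8,256),(4,10)])))))) (P1 1 1 (U1 2 1 (U2 1 1 (P5 2 1 (P2 1 1 (P4 1 1 (F [(4,150),(10,160),(8,256),(3,246)]) (U1 1 2 (F [(4,249),(10,256)]) (P0 1 2 (F [(4,135),(10,171),(8,256),(3,211)]) (F [(4,151),(10,160),(8,256),(3,248)])))) (P0 1 1 (U1 1 2 (F [(4,241),(10,256)]) (P4 2 1 (F [(4,144),(3,256),(8,65)]) (U0 1 1 (F [(10,145),(3,230),(4,125),(8,256)]) (F [(4,256),(10,244),(3,32)])))) (F [(4,144),(3,256),(8,107)]))) (P3 1 2 (F [(4,136),(8,190),(3,256)]) (P0 1 1 (U1 1 2 (F [(4,256),(10,82)]) (U0 1 1 (F [(3,231),(10,143),(8,256),(4,124)]) (F [(4,145),(8,256),(10,156),(3,241)]))) (F [(4,137),(3,256),(8,141)]))))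 (P5 2 1 (U0 2 1 (P2 1 1 (P4 1 1 (F [(4,171),(8,256),(10,166),(3,246)]) (P0 1 2 (U1 1 1 (F [(4,145),(8,256),(10,150),(3,238)]) (F [(4,124),(8,256),(10,145),(3,224)])) (F [(4,174),(8,227),(3,256),(10,149)]))) (P0 1 1 (P4 2 1 (F [(4,126),(3,256),(8,81)]) (U1 1 1 (F [(4,139),(8,256),(3,245),(10,144)]) (F [(3,240),(10,139),(8,256),(4,126)]))) (F [(4,113),(3,256),(8,142)]))) (F [(4,117),(8,256),(3,223)])) (U0 2 1 (P3 1 2 (F [(8,201),(4,100),(3,256)]) (P0 1 1 (U1 1 1 (F [(4,139),(8,256),(3,245),(10,144)]) (F [(8,256),(3,237),(4,117),(10,129)])) (F [(4,110),(3,256),(8,147)]))) (F [(4,117),(8,256),(3,223)])))) (U0 1 2 (P5 2 1 (F [(3,256),(10,64),(8,102),(4,120)]) (F [(3,256),(8,236)])) (P5 2 1 (U2 2 1 (P2 1 1 (P4 1 1 (F [(4,9277),(3,16384),(8,12609),(10,7279)]) (P0 1 2 (F [(3,225),(8,256),(10,145),(4,125)]) (F [(3,256),(8,250),(4,145),(10,144)])))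 (F [(3,256),(8,160),(4,41)])) (F [(4,106),(8,256),(3,224)])) (F [(8,256),(3,251)])))) (U1 2 1 (P0 2 1 (U2 1 1 (F [(4,139),(10,256),(3,72)]) (U0 2 1 (P5 1 1 (P4 1 1 (F [(4,256),(10,237),(3,55)]) (F [(10,156),(3,256),(4,147),(8,239)])) (F [(3,256),(10,151),(4,144),(8,237)])) (F [(4,136),(3,256),(8,208),(10,47)]))) (F [(3,233),(10,116),(4,256)])) (P0 2 1 (U0 1 2 (F [(3,256),(10,18),(4,105)]) (U2 2 1 (P5 1 1 (P4 1 1 (F [(3,256),(10,99),(4,144),(8,166)]) (F [(3,256),(10,146),(8,242),(4,141)])) (F [(3,256),(8,87)])) (F [(3,256),(4,117),(8,190)]))) (F [(3,256),(4,151)]))))) (F [(4,256),(3,45)])) (U0 2 1 (P0 1 1 (P3 1 1 (U1 2 1 (P1 1 2 (U2 1 1 (F [(3,15439),(10,9114),(4,8317),(8,16384)]) (F [(3,247),(8,256),(4,124),(10,132)])) (F [(3,256),(10,144),(4,138),(8,235)])) (F [(3,256),(8,254)])) (U1 2 1 (F [(3,256),(10,142),(8,233),(4,138)])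 (F [(3,256),(8,254)]))) (P1 1 1 (U1 2 1 (P3 1 2 (U2 1 1 (P5 2 1 (F [(3,256),(4,138),(10,144),(8,248)]) (F [(4,137),(3,256),(8,174)])) (U0 2 1 (F [(3,16384),(8,15798),(4,8338),(10,8352)]) (F [(4,122),(3,234),(8,256)]))) (F [(3,256),(10,134),(4,138),(8,220)])) (F [(3,256),(8,254)])) (F [(3,256),(10,133),(4,138),(8,218)]))) (F [(4,209),(3,256),(8,47)]))) (F [(3,256),(4,112),(8,136)])

def c21 : Cell := ⟨⟨1,1,0⟩, ⟨1,3,0⟩, ⟨2,5,1⟩, ⟨23,17,15,9⟩, ⟨11,9,7,5⟩, ⟨22,17,15,10⟩, ⟨12,8,7,5⟩⟩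

def t21 : Tr :=
  P4 1 1 (P5 1 2 (U0 2 1 (P2 1 2 (P4 1 2 (U1 2 1 (F [(4,49),(8,256),(10,198)]) (P5 1 4 (U0 1 2 (P2 1 4 (F [(8,256),(10,132)]) (P0 1 1 (F [(8,256),(4,1),(10,166)]) (U1 4 1 (P1 2 1 (F [(8,256),(4,1),(10,157)]) (U2 1 1 (F [(4,83),(8,113),(10,256)]) (P2 2 1 (F [(8,256),(10,128)]) (U0 2 1 (P0 2 1 (F [(8,256),(10,158)]) (P1 4 1 (F [(8,256),(10,154)]) (U1 1 1 (P2 4 1 (F [(4,21),(8,256),(10,144)]) (P0 4 1 (F [(4,3),(8,256),(10,253)]) (F [(4,150),(8,256),(10,153),(3,251)]))) (P2 4 1 (F [(8,256),(10,152)]) (F [(10,9891),(3,15740),(8,16384),(4,9119)]))))) (P0 2 1 (F [(8,256)]) (P1 4 1 (F [(8,256)]) (U2 2 1 (P2 4 1 (F [(8,256)]) (P0 4 1 (F [(8,256),(10,154)]) (F [(4,150),(8,256),(10,151),(3,252)]))) (F [(8,256),(4,60),(3,212)])))))))) (F [(8,256),(10,25),(3,214)])))) (F [(4,256),(8,50)])) (U0 1 2 (P0 1 1 (F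 [(8,256),(10,179),(3,50)]) (P1 1 1 (F [(8,256),(10,177),(3,104)]) (U1 4 1 (P2 2 1 (F [(8,256),(10,173),(3,89)]) (U2 1 1 (F [(10,256),(8,112),(4,59)]) (U0 2 1 (P1 2 1 (F [(10,256),(8,151),(4,4)]) (P0 2 1 (F [(8,151),(10,256),(4,4)]) (P2 4 1 (F [(8,184),(10,256),(4,4)]) (F [(10,10075),(3,15894),(8,16384),(4,9405)])))) (P1 2 1 (F [(8,256),(10,151),(4,133),(3,231)]) (P0 2 1 (F [(8,256),(4,133),(10,151),(3,231)]) (P2 4 1 (F [(8,256),(4,134),(10,151),(3,232)]) (U2 2 1 (P0 4 1 (F [(4,143),(8,256),(10,154),(3,244)]) (F [(4,148),(8,256),(10,150),(3,252)])) (F [(8,256),(4,60),(3,212)])))))))) (F [(8,256),(3,214),(10,25)])))) (U2 2 1 (P0 1 1 (F [(8,256),(10,124),(3,52)]) (P1 1 1 (F [(8,256),(10,153)]) (P2 2 1 (F [(8,256),(10,153)]) (U1 1 1 (F [(4,66),(8,164),(10,256)]) (P1 2 1 (F [(4,138),(8,256),(10,149),(3,234)]) (F [(4,256),(8,102),(3,188)]))))))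 (F [(8,256),(4,10)]))))) (U1 2 1 (F [(4,49),(10,198),(8,256)]) (U0 1 2 (P0 1 2 (F [(10,220),(3,110),(8,256)]) (P1 1 1 (F [(10,187),(3,149),(8,256)]) (P2 1 1 (F [(10,177),(3,104),(8,256)]) (U1 4 1 (U2 1 1 (F [(10,256),(4,54)]) (P0 2 1 (F [(10,220),(3,116),(8,256)]) (U0 2 1 (F [(10,256),(3,68),(4,46)]) (P1 2 1 (F [(10,154),(3,226),(8,256),(4,123)]) (P2 2 1 (F [(10,154),(8,256),(4,118),(3,218)]) (U2 2 1 (P0 4 1 (F [(10,158),(3,245),(4,144),(8,256)]) (P1 4 1 (F [(10,155),(3,248),(4,146),(8,256)]) (P2 4 1 (F [(4,146),(10,155),(8,256),(3,248)]) (F [(4,151),(10,152),(3,256),(8,253)])))) (P0 4 1 (F [(3,244),(10,155),(8,256),(4,141)]) (U0 4 1 (P1 4 1 (F [(3,248),(10,153),(8,256),(4,144)]) (P2 4 1 (F [(8,256),(3,248),(10,153),(4,145)]) (F [(3,256),(4,150),(10,150),(8,254)]))) (F [(4,150),(8,256),(3,254),(10,150)])))))))))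 (F [(3,223),(10,26),(8,256)]))))) (P0 1 2 (F [(10,177),(8,256),(4,2)]) (U2 2 1 (P1 1 1 (F [(10,159),(8,256)]) (P2 1 1 (F [(10,159),(8,256)]) (U1 1 1 (F [(10,256),(4,66),(8,164)]) (P0 2 1 (F [(10,159),(4,130),(8,256),(3,227)]) (P1 2 1 (F [(4,135),(8,256),(10,154),(3,234)]) (P2 2 1 (F [(4,136),(8,256),(10,154),(3,235)]) (F [(4,155),(8,255),(10,154),(3,256)]))))))) (P1 1 1 (F [(8,256),(10,149)]) (P2 1 1 (F [(8,256),(10,149)]) (U0 2 1 (P0 2 1 (F [(4,133),(8,256),(10,154),(3,232)]) (F [(4,148),(8,256),(10,148),(3,250)])) (F [(4,256),(10,77)]))))))))) (P0 1 1 (U1 2 1 (F [(10,13133),(4,9854),(3,13076),(8,16384)]) (U0 1 2 (F [(10,18),(3,256),(4,105)]) (P4 2 1 (U2 2 1 (P2 1 1 (P5 1 1 (U1 1 1 (F [(10,256),(4,66),(8,164)]) (F [(10,6455),(3,16384),(4,9249),(8,10263)])) (F [(10,161),(3,246),(8,256),(4,138)])) (F [(10,223),(3,256),(8,208)]))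 (P2 1 1 (P5 1 1 (U0 2 1 (F [(4,144),(10,98),(3,256),(8,162)]) (F [(4,256),(10,77)])) (F [(4,142),(10,151),(3,256),(8,255)])) (F [(10,148),(3,256),(4,139),(8,240)]))) (F [(10,169),(3,235),(8,256),(4,129)])))) (U1 2 1 (P1 2 1 (U2 1 1 (F [(10,256),(4,100)]) (U0 2 1 (F [(10,182),(3,248),(4,157),(8,256)]) (F [(4,151),(10,141),(3,256),(8,242)]))) (F [(10,147),(3,180),(4,256)])) (P1 2 1 (U0 1 2 (F [(3,256),(10,18),(4,105)]) (U2 2 1 (P4 1 1 (P5 1 1 (F [(3,256),(10,99),(4,144),(8,166)]) (F [(3,256),(10,151),(8,250),(4,142)])) (F [(3,256),(8,77)])) (F [(3,256),(10,89),(4,137),(8,203)]))) (F [(3,256),(4,151)]))))) (F [(4,256),(10,79),(3,8)])) (U0 2 1 (P0 1 1 (P3 1 1 (U1 2 1 (F [(10,142),(3,256),(4,138),(8,233)]) (F [(3,256),(8,154),(4,54)])) (F [(10,10682),(3,15099),(8,16384),(4,7915)])) (P1 1 1 (U1 2 1 (F [(3,256),(10,142),(4,138),(8,233)])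 (F [(3,256),(8,154),(4,54)])) (F [(3,256),(10,133),(4,138),(8,218)]))) (F [(4,180),(10,105),(3,256),(8,158)]))) (F [(10,256),(3,135),(4,156)])

def c22 : Cell := ⟨⟨1,1,0⟩, ⟨1,3,0⟩, ⟨0,3,1⟩, ⟨3,2,2,1⟩, ⟨23,17,15,9⟩, ⟨11,8,8,5⟩, ⟨12,8,7,5⟩⟩

def t22 : Tr :=
  U2 2 1 (P1 4 1 (P5 1 1 (P2 1 2 (U1 1 1 (P4 1 2 (F [(4,64),(10,186),(8,256),(3,53)]) (F [(10,138),(3,256),(4,156),(8,226)])) (P4 1 2 (P5 1 2 (U0 1 2 (P2 1 4 (F [(8,238),(4,3),(10,256)]) (U1 2 1 (U2 1 2 (F [(8,256),(10,163),(4,126),(3,214)]) (P0 1 1 (F [(8,256),(4,139),(10,162),(3,222)]) (F [(8,256),(4,136),(3,230),(10,132)]))) (P0 1 1 (P3 1 1 (F [(8,256),(4,55),(3,193)]) (U0 1 4 (F [(8,224),(3,256)]) (P4 2 1 (F [(8,256),(4,36),(3,161)]) (F [(8,256),(10,156),(3,241),(4,145)])))) (F [(8,223),(4,99),(3,256)])))) (F [(4,217),(8,256),(10,213),(3,186)])) (U0 1 2 (U1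 2 1 (P3 1 2 (F [(8,256),(3,204),(10,18)]) (U2 1 2 (F [(10,163),(3,214),(8,256),(4,126)]) (P0 1 1 (F [(8,256),(10,162),(3,222),(4,139)]) (F [(8,256),(4,132),(3,232),(10,127)])))) (P3 1 2 (F [(8,256),(3,102)]) (P0 1 1 (P4 1 1 (F [(8,256),(3,193),(4,55)]) (U0 1 4 (F [(3,256),(8,171)]) (F [(3,240),(8,256),(10,155),(4,142)]))) (F [(8,212),(3,256),(4,102)])))) (U2 1 1 (P3 1 2 (F [(8,256),(4,122),(3,218),(10,132)]) (F [(4,158),(8,256),(10,164),(3,226)])) (F [(4,256),(8,223)])))) (P3 1 1 (U0 1 2 (F [(3,256),(8,30),(4,125)]) (F [(4,150),(3,256),(10,131),(8,227)])) (F [(3,256),(10,4),(4,151)])))) (F [(3,256),(10,88),(4,143),(8,191)])) (F [(3,256),(10,90),(8,195),(4,138)])) (P2 4 1 (P5 1 2 (U1 1 1 (F [(4,198),(10,254),(3,220),(8,256)]) (P4 1 2 (P2 1 2 (U0 1 2 (P5 1 4 (F [(8,256),(4,2),(10,248)]) (U1 2 1 (U2 1 2 (F [(8,256),(4,120),(10,163),(3,203)])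 (P3 1 1 (F [(4,139),(8,256),(10,129),(3,236)]) (F [(4,150),(8,256),(10,176),(3,219)]))) (P3 1 1 (F [(8,252),(4,93),(3,256)]) (P0 1 1 (U0 1 4 (F [(8,256),(3,113),(10,133)]) (P4 2 1 (F [(8,256),(4,7),(3,112)]) (U2 1 1 (F [(10,152),(8,256),(3,220),(4,120)]) (P3 2 1 (F [(4,151),(8,256),(10,139),(3,251)]) (F [(4,9620),(8,16384),(10,10251),(3,15547)]))))) (F [(8,256),(4,7),(3,112)]))))) (F [(4,255),(8,256),(10,215),(3,247)])) (U0 1 2 (U1 2 1 (P0 2 1 (U2 1 2 (F [(10,165),(4,131),(8,256),(3,215)]) (P3 1 1 (F [(4,148),(8,256),(3,247),(10,126)]) (F [(4,157),(8,256),(10,177),(3,227)]))) (F [(4,201),(8,204),(3,256),(10,86)])) (P0 2 1 (P3 1 1 (F [(8,201),(4,121),(3,256)]) (P4 1 1 (F [(8,256),(4,131),(3,224),(10,115)]) (U0 1 4 (F [(3,226),(8,256),(10,16)]) (U2 1 1 (F [(3,16378),(10,9518),(8,16384),(4,9661)]) (P0 1 2 (F [(4,10064),(8,16384),(10,10097),(3,16204)])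 (F [(4,232),(8,116),(3,256)])))))) (F [(4,231),(8,118),(3,256)]))) (F [(4,225),(8,163),(10,141),(3,256)]))) (F [(3,256),(10,4),(4,151)]))) (F [(3,256),(4,152),(8,1)])) (F [(3,256),(4,199),(8,31)]))) (P1 4 1 (P5 1 1 (P2 1 2 (U0 2 1 (P4 1 2 (P5 1 2 (U1 2 1 (F [(4,256)]) (P2 1 4 (U0 1 2 (P4 1 4 (F [(8,256)]) (P3 1 1 (F [(8,256)]) (U1 4 1 (P0 1 2 (U2 1 1 (F [(4,62),(8,197),(10,256)]) (P4 2 1 (F [(8,256)]) (U0 2 1 (P3 2 1 (F [(8,256)]) (P0 1 4 (U1 1 1 (F [(4,256),(8,87),(3,221)]) (P4 4 1 (F [(8,256),(10,150)]) (F [(8,256),(4,151),(3,252),(10,153)]))) (F [(8,256)]))) (F [(8,171),(4,153),(3,256)])))) (F [(8,256)])) (F [(8,256),(3,214),(10,25)])))) (F [(4,256)])) (U0 1 2 (P0 1 1 (P3 1 1 (F [(8,256),(3,5)]) (U1 4 1 (P4 2 1 (F [(8,256),(3,5)]) (U2 1 1 (P3 2 1 (F [(8,256)]) (P0 1 2 (U1 1 2 (F [(4,256),(10,72)]) (P4 4 1 (F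 [(4,116),(8,256),(3,202)]) (F [(4,152),(8,256),(10,154),(3,252)]))) (F [(4,117),(8,256),(3,203)]))) (U0 2 1 (P3 2 1 (F [(8,256)]) (P0 1 2 (P4 4 1 (F [(8,256),(4,41),(3,175)]) (F [(8,255),(4,153),(3,256),(10,150)])) (F [(8,256),(4,61),(3,209)]))) (F [(8,138),(4,149),(3,256)])))) (F [(8,207),(4,28),(3,256)]))) (F [(8,256),(3,5)])) (F [(4,256)])))) (U1 2 1 (F [(4,256),(8,237)]) (U0 1 2 (P3 1 2 (F [(8,256),(3,4)]) (P0 1 1 (P4 1 1 (F [(8,256),(3,5)]) (U1 4 1 (U2 1 1 (P3 2 1 (F [(8,184),(4,145),(3,256)]) (P4 2 1 (F [(8,256),(4,126),(3,223)]) (F [(4,151),(8,253),(3,256),(10,147)]))) (P3 2 1 (F [(8,256),(3,107)]) (U0 2 1 (P4 2 1 (F [(8,256),(3,107)]) (F [(8,253),(3,256),(4,151),(10,147)])) (F [(8,138),(4,149),(3,256)])))) (F [(8,159),(3,256),(4,57)]))) (F [(8,256),(3,5)]))) (F [(8,237),(4,256)])))) (F [(4,150),(3,256),(8,74)]))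 (F [(4,256),(3,99)])) (F [(4,138),(3,256),(8,124)])) (F [(3,256),(4,138),(8,124)])) (P2 4 1 (P5 1 2 (U0 2 1 (P4 1 2 (P2 1 2 (U1 2 1 (F [(4,256)]) (P5 1 4 (U0 1 2 (P4 1 4 (F [(8,256)]) (P0 1 1 (U1 4 1 (P3 2 1 (F [(8,256)]) (U2 1 1 (F [(4,64),(8,193),(10,256)]) (P4 2 1 (F [(8,256)]) (U0 2 1 (P0 1 2 (P3 4 1 (F [(8,256)]) (U1 1 1 (F [(4,256),(8,75),(3,235)]) (P4 4 1 (F [(8,256),(10,122)]) (F [(8,256),(4,149),(10,151),(3,251)])))) (F [(8,256)])) (F [(4,153),(8,171),(3,256)]))))) (F [(8,256),(3,214),(10,25)])) (F [(8,256)]))) (F [(4,256)])) (U0 1 2 (P3 1 1 (F [(8,256),(3,5)]) (P0 1 1 (U1 4 1 (P4 2 1 (F [(8,256),(3,5)]) (U2 1 1 (P3 2 1 (F [(4,149),(8,181),(3,256)]) (P0 1 2 (U1 1 2 (F [(4,256),(10,77)]) (P4 4 1 (F [(4,125),(8,256),(3,217)]) (F [(4,157),(8,256),(10,159),(3,253)]))) (F [(4,147),(8,256),(3,249)]))) (U0 2 1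 (P3 2 1 (F [(8,237),(4,93),(3,256)]) (P0 1 2 (P4 4 1 (F [(8,256),(4,12),(3,127)]) (F [(4,154),(8,246),(3,256),(10,144)])) (F [(4,12),(8,256),(3,127)]))) (F [(4,154),(8,119),(3,256)])))) (F [(8,256),(3,226),(10,15)])) (F [(8,256),(3,5)]))) (F [(4,256)])))) (U1 2 1 (F [(4,256)]) (U0 1 2 (P0 2 1 (P3 1 1 (F [(8,256),(4,45),(3,77)]) (P4 1 1 (F [(4,45),(8,256),(3,77)]) (U1 4 1 (U2 1 1 (P0 1 2 (P3 2 1 (F [(4,149),(8,168),(3,256)]) (P4 2 1 (F [(4,147),(8,256),(3,249)]) (F [(4,160),(8,248),(10,154),(3,256)]))) (F [(4,227),(8,117),(3,256)])) (P0 1 2 (U0 2 1 (P3 2 1 (F [(4,120),(8,195),(3,256)]) (P4 2 1 (F [(4,103),(8,256),(3,209)]) (F [(4,155),(8,234),(3,256),(10,135)]))) (F [(4,248),(3,256)])) (F [(4,227),(8,117),(3,256)]))) (F [(8,256),(3,234),(10,7)])))) (F [(4,156),(8,181),(3,256)])) (F [(4,256)])))) (F [(4,151),(3,256)]))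 (F [(4,256),(3,160)])) (F [(4,152),(8,98),(3,256)])) (F [(4,165),(3,256),(8,69)])))

def c23 : Cell := ⟨⟨1,0,0⟩, ⟨1,1,0⟩, ⟨0,1,1⟩, ⟨3,2,2,1⟩, ⟨5,5,3,3⟩, ⟨5,4,4,3⟩, ⟨6,4,3,3⟩⟩

def t23 : Tr :=
  P0 2 1 (U2 2 1 (P3 1 1 (P5 1 1 (F [(4,4),(10,256),(8,206)]) (U1 1 1 (F [(10,220),(4,78),(3,148),(8,256)]) (P1 1 2 (P3 1 2 (P5 2 1 (F [(4,59),(8,256),(10,194),(3,145)]) (F [(3,221),(10,122),(4,74),(8,256)])) (F [(10,233),(3,143),(4,68),(8,256)])) (F [(10,233),(4,68),(3,143),(8,256)])))) (F [(10,256),(4,58),(8,137)])) (P3 1 1 (P5 1 1 (F [(4,24),(8,202),(10,256)]) (U0 2 1 (P1 1 2 (F [(4,4072),(8,16384),(10,8008),(3,11412)]) (F [(4,90),(10,162),(8,256),(3,195)])) (F [(4,256),(10,82)]))) (F [(4,58),(10,256),(8,137)]))) (U2 2 1 (P1 2 1 (P5 1 1 (F [(4,256),(8,20),(10,79)]) (U1 1 1 (P3 1 2 (U2 1 2 (P1 1 2 (F [(10,226),(4,95),(3,164),(8,256)])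 (F [(4,256),(10,82),(3,98)])) (P1 1 2 (F [(4,85),(8,256),(10,156),(3,163)]) (F [(4,256),(10,82),(3,98)]))) (F [(4,247),(10,256)])) (P3 1 2 (P1 1 2 (P5 2 1 (U0 1 2 (P2 1 2 (F [(8,256),(4,51),(10,155),(3,148)]) (F [(4,92),(8,256),(3,239),(10,110)])) (F [(4,141),(8,256),(10,174),(3,184)])) (F [(4,83),(3,237),(8,256),(10,110)])) (P2 1 1 (U0 1 2 (P5 1 2 (F [(4,64),(8,256),(10,139),(3,160)]) (F [(4,143),(8,226),(3,256),(10,99)])) (F [(4,256),(10,82),(3,98)])) (F [(4,184),(8,53),(3,256)]))) (P0 1 1 (P4 1 1 (U0 1 2 (P2 1 2 (F [(4,66),(8,256),(10,229),(3,142)]) (F [(4,148),(10,174),(3,256),(8,254)])) (F [(4,247),(10,256)])) (F [(4,108),(10,256),(3,81)])) (P2 1 1 (U0 1 2 (P4 1 2 (F [(4,64),(8,256),(10,139),(3,160)]) (F [(4,173),(8,157),(10,83),(3,256)])) (F [(4,247),(10,256)])) (F [(4,184),(8,53),(3,256)])))))) (F [(4,256),(10,61),(3,83)]))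 (P1 2 1 (P5 1 1 (F [(4,256),(8,20),(10,79)]) (U0 2 1 (P3 1 2 (F [(4,116),(8,209),(3,256)]) (F [(4,154),(8,256),(10,118),(3,255)])) (F [(4,256)]))) (F [(4,256),(10,61),(3,83)])))

theorem g1 : ∀ c ∈ [c12, c13, c14, c15, c16, c17, c18, c19, c20, c21, c22, c23], Done D c := by
  intro c hc
  simp only [List.mem_cons, List.not_mem_nil, or_false] at hc
  rcases hc with rfl | rfl | rfl | rfl | rfl | rfl | rfl | rfl | rfl | rfl | rfl | rfl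
  · exact done_of_chk (t := t12) (by decide +kernel)
  · exact done_of_chk (t := t13) (by decide +kernel)
  · exact done_of_chk (t := t14) (by decide +kernel)
  · exact done_of_chk (t := t15) (by decide +kernel)
  · exact done_of_chk (t := t16) (by decide +kernel)
  · exact done_of_chk (t := t17) (by decide +kernel)
  · exact done_of_chk (t := t18) (by decide +kernel)
  · exact done_of_chk (t := t19) (by decide +kernel)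
  · exact done_of_chk (t := t20) (by decide +kernel)
  · exact done_of_chk (t := t21) (by decide +kernel)
  · exact done_of_chk (t := t22) (by decide +kernel)
  · exact done_of_chk (t := t23) (by decide +kernel)

end Pool.Agent.W2helper59.NW.I0
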