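import Pool.Agent.W2helper59.NW.D_I0

set_option autoImplicit false
set_option maxRecDepth 1000000

namespace Pool.Agent.W2helper59.NW.I0

open Tr

def c120 : Cell := ⟨⟨1,0,0⟩, ⟨0,1,0⟩, ⟨0,0,1⟩, ⟨1,0,2,1⟩, ⟨1,1,3,3⟩, ⟨1,1,4,2⟩, ⟨0,0,1,1⟩⟩

def t120 : Tr :=
  P2 1 2 (F [(11,256),(5,207),(9,241),(13,129)]) (P0 2 1 (P3 1 1 (F [(9,256),(5,11),(13,6)]) (P4 1 1 (F [(11,33),(9,256),(5,9),(13,9)]) (F [(5,67),(11,56),(9,256),(8,231),(13,23)]))) (O 6))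

def c121 : Cell := ⟨⟨1,0,0⟩, ⟨0,1,0⟩, ⟨0,0,1⟩, ⟨3,2,7,4⟩, ⟨3,3,6,4⟩, ⟨1,1,4,2⟩, ⟨1,1,3,3⟩⟩

def t121 : Tr :=
  P5 1 1 (U1 1 1 (P2 1 2 (F [(5,256),(9,48),(3,113),(13,96)]) (F [(3,256),(9,2),(5,211)])) (P2 1 2 (F [(5,256),(9,41),(3,75),(13,63)]) (F [(9,44),(3,205),(5,256)]))) (U1 1 1 (F [(3,256),(9,40),(5,187)]) (F [(9,43),(3,207),(5,256)]))

def c122 : Cell := ⟨⟨1,0,0⟩, ⟨0,1,0⟩, ⟨0,0,1⟩, ⟨3,2,6,5⟩, ⟨3,3,6,4⟩, ⟨3,2,7,4⟩, ⟨1,1,3,3⟩⟩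

def t122 : Tr :=
  U1 1 1 (P4 1 2 (P5 1 2 (F [(5,256),(9,6)]) (F [(9,1),(3,256),(5,249)])) (F [(3,256),(9,1),(5,249)])) (P4 1 2 (P5 1 2 (F [(5,256),(9,52)]) (U0 1 1 (P3 1 2 (P1 1 1 (F [(9,137),(5,256),(3,168)]) (F [(5,256),(9,2),(3,185)])) (F [(5,256),(9,6),(3,148)])) (F [(9,22),(5,256),(3,229)]))) (U0 1 1 (P5 2 1 (F [(5,256),(3,182),(13,3)]) (P0 1 1 (F [(3,256),(5,254)]) (P1 1 1 (F [(9,5),(5,256),(3,253)]) (F [(5,256),(9,2),(3,185)])))) (F [(9,22),(3,229),(5,256)])))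

def c123 : Cell := ⟨⟨1,0,0⟩, ⟨0,1,1⟩, ⟨0,0,1⟩, ⟨2,1,3,2⟩, ⟨3,3,6,4⟩, ⟨3,2,7,4⟩, ⟨3,2,6,5⟩⟩

def t123 : Tr :=
  U2 1 1 (P0 2 1 (F [(13,8850),(3,13332),(5,16384)]) (P1 2 1 (P5 1 1 (U1 1 2 (F [(13,86),(3,256),(5,162)]) (P2 1 2 (F [(3,245),(8,256),(9,83),(5,94)]) (F [(3,256),(8,164)]))) (F [(3,256)])) (P2 2 1 (U1 1 2 (F [(3,256),(8,234),(9,78),(5,40)]) (P4 1 2 (P5 1 2 (F [(8,256),(3,53),(9,149)]) (F [(3,225),(8,256),(9,80)])) (F [(3,225),(8,256),(9,80)]))) (F [(13,31),(3,192),(8,256),(9,92)])))) (U0 2 1 (P0 2 1 (P3 1 1 (P5 1 1 (P2 1 2 (F [(9,5),(3,235),(5,256)]) (F [(3,256),(8,80)])) (F [(3,256)])) (P4 1 1 (P2 1 2 (F [(3,235),(9,5),(5,256)]) (F [(3,256),(8,80)])) (F [(3,256),(13,127)]))) (P1 2 1 (P5 1 1 (P2 1 2 (P4 1 2 (F [(9,150),(3,256),(5,241),(8,205)]) (F [(3,256),(8,76)])) (F [(3,256),(8,76)]))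 (F [(3,256)])) (P2 2 1 (P4 1 2 (P5 1 2 (F [(9,168),(3,131),(5,90),(8,256)]) (F [(9,134),(3,187),(8,256)])) (F [(9,126),(3,195),(8,256)])) (F [(9,126),(3,195),(8,256)])))) (F [(9,256),(5,28)]))

def c124 : Cell := ⟨⟨1,1,0⟩, ⟨0,1,0⟩, ⟨0,1,1⟩, ⟨7,5,12,8⟩, ⟨3,3,6,4⟩, ⟨3,2,7,4⟩, ⟨3,2,6,5⟩⟩

def t124 : Tr :=
  P3 1 1 (P5 1 1 (U1 2 1 (P2 1 2 (F [(5,256),(9,1),(3,209)]) (F [(3,256),(5,219),(8,3)])) (P2 1 2 (F [(5,256),(9,16),(3,185)]) (F [(5,256),(9,18),(3,254)]))) (F [(3,256),(5,227),(8,4)])) (P4 1 1 (U1 2 1 (P2 1 2 (F [(5,256),(3,209),(9,1)]) (F [(3,256),(5,219),(8,3)])) (P2 1 2 (F [(5,256),(9,16),(3,185)]) (F [(5,256),(3,254),(9,18)]))) (F [(3,256),(5,222),(8,3)]))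

def c125 : Cell := ⟨⟨1,1,0⟩, ⟨0,1,0⟩, ⟨0,1,1⟩, ⟨7,4,13,8⟩, ⟨7,5,12,8⟩, ⟨3,2,7,4⟩, ⟨3,2,6,5⟩⟩

def t125 : Tr :=
  P5 1 1 (U1 2 1 (P2 1 2 (P4 1 2 (F [(5,256),(8,14),(3,3)]) (F [(5,235),(8,2),(3,256)])) (U2 1 1 (P3 1 1 (P1 1 1 (F [(3,256),(5,243),(8,27),(9,20)]) (U1 1 2 (F [(3,179),(9,165),(8,256),(5,64)]) (P2 2 1 (F [(8,256),(3,208),(5,145),(9,185)]) (F [(3,256),(8,118),(5,24)])))) (P4 2 1 (U1 1 2 (F [(3,152),(8,256),(9,167),(5,46)]) (P2 2 1 (F [(8,256),(5,73),(3,161),(9,158)]) (F [(3,256),(8,135)]))) (F [(3,256),(8,147)]))) (P3 1 1 (U0 2 1 (P1 1 1 (F [(9,63),(5,256),(3,174)]) (P2 2 1 (F [(9,195),(3,224),(5,170),(8,256)]) (F [(9,146),(3,256),(5,141),(8,194)]))) (F [(9,256),(5,21)])) (U0 2 1 (P4 2 1 (P2 2 1 (F [(5,187),(9,180),(3,256),(8,247)]) (F [(9,83),(3,256),(8,113),(5,152)])) (F [(3,256),(8,21),(5,130)]))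 (F [(9,256),(3,54)]))))) (P2 1 2 (P4 1 2 (F [(5,256),(9,56)]) (F [(5,256),(9,19),(3,244)])) (U0 1 2 (P3 1 1 (P1 1 1 (F [(5,256)]) (U1 4 1 (P2 2 1 (F [(5,256),(8,7)]) (F [(5,194),(9,129),(3,256),(8,151)])) (F [(5,256),(8,169),(9,184),(3,239)]))) (P4 2 1 (U1 4 1 (P2 2 1 (F [(5,256),(8,29)]) (F [(5,194),(8,90),(3,256),(9,75)])) (F [(5,256),(8,78),(9,101),(3,242)])) (F [(5,180),(8,4),(3,256)]))) (P3 1 1 (U2 2 1 (P1 1 1 (F [(5,256),(9,52),(3,62)]) (P2 2 1 (F [(5,256),(9,98),(8,43)]) (F [(9,155),(3,256),(5,163),(8,188)]))) (F [(9,256),(5,63)])) (U2 2 1 (P4 2 1 (P2 2 1 (F [(5,256),(9,61)]) (F [(9,81),(3,256),(5,172),(8,98)])) (F [(3,256),(9,4),(5,166)])) (F [(9,256),(3,51)])))))) (U1 2 1 (F [(3,256),(5,163),(8,1)]) (P3 1 2 (U0 1 2 (P1 1 2 (F [(9,58),(3,241),(5,256)]) (P2 1 1 (F [(5,245),(3,256)]) (F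 [(9,199),(3,256),(5,187),(8,222)]))) (F [(9,11),(3,256),(5,175)])) (U0 1 2 (P4 1 1 (P2 1 1 (F [(5,256),(3,223)]) (F [(9,44),(5,182),(3,256),(8,54)])) (F [(3,256),(5,172),(8,2)])) (F [(9,11),(3,256),(5,175)]))))

def c126 : Cell := ⟨⟨1,1,0⟩, ⟨0,1,0⟩, ⟨0,1,1⟩, ⟨7,4,12,9⟩, ⟨7,5,12,8⟩, ⟨7,4,13,8⟩, ⟨3,2,6,5⟩⟩

def t126 : Tr :=
  U1 2 1 (P4 1 2 (P5 1 2 (F [(5,256),(8,17)]) (U2 1 1 (P3 1 2 (F [(8,256),(3,52),(9,182)]) (F [(8,256),(5,96),(3,195),(9,132)])) (U0 2 1 (P3 1 2 (P1 1 1 (P5 2 1 (F [(9,192),(5,77),(8,256),(3,107)]) (F [(9,180),(3,212),(8,256),(5,92)])) (F [(8,256),(5,69),(9,193),(3,90)])) (U1 1 1 (F [(5,126),(8,256),(9,181),(3,165)]) (F [(5,181),(8,256),(3,182),(9,190)]))) (F [(9,256),(5,139),(8,89)])))) (U2 1 1 (P5 2 1 (F [(8,256),(5,40),(3,180),(9,103)]) (F [(8,256),(3,161),(9,104)])) (U0 2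 1 (P5 2 1 (P0 1 1 (P4 2 1 (F [(8,16384),(5,11177),(3,14716),(9,10650)]) (F [(3,256),(8,225),(5,160),(9,139)])) (U1 1 1 (F [(8,256),(5,115),(9,173),(3,170)]) (F [(8,256),(5,154),(3,192),(9,172)]))) (P0 1 1 (P3 1 1 (P1 1 2 (F [(3,256),(8,19),(5,130)]) (F [(3,256),(9,128),(8,217),(5,130)])) (F [(3,256),(8,221),(9,134),(5,146)])) (P1 1 1 (P3 1 2 (F [(9,175),(3,199),(8,256),(5,75)]) (U1 1 1 (F [(9,171),(3,154),(8,256)]) (U0 1 2 (F [(8,256),(3,72)]) (F [(8,256),(3,185),(9,166),(5,96)])))) (U1 1 1 (F [(8,256),(9,178),(3,91)]) (U0 1 2 (F [(8,256),(3,15)]) (F [(8,256),(5,120),(9,173),(3,171)])))))) (P5 2 1 (P0 1 1 (F [(9,150),(3,256),(5,170),(8,217)]) (F [(9,215),(5,29),(3,20),(8,256)])) (P0 1 1 (F [(9,180),(3,134),(8,256)]) (F [(9,229),(8,256)])))))) (P4 1 2 (P5 1 2 (F [(5,256),(9,57)]) (U0 1 2 (P3 1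 2 (P1 1 1 (U1 4 1 (P5 2 1 (F [(5,256),(8,29)]) (U2 1 1 (F [(8,256),(5,117),(3,216),(9,167)]) (F [(9,222),(5,197),(8,256),(3,238)]))) (F [(5,251),(8,246),(9,256),(3,207)])) (F [(5,256),(8,31)])) (F [(5,256),(8,28)])) (U2 2 1 (P3 1 2 (P1 1 1 (P5 2 1 (F [(5,256),(9,170),(8,146)]) (F [(9,197),(3,203),(5,111),(8,256)])) (F [(5,256),(8,161),(9,179)])) (F [(5,256),(9,58)])) (F [(9,256),(5,245)])))) (U0 1 2 (P5 2 1 (F [(5,256),(8,14),(3,200)]) (P0 1 1 (P3 1 1 (U1 4 1 (P1 1 2 (F [(3,256),(8,68),(9,50),(5,178)]) (U2 1 1 (F [(8,240),(5,122),(3,256)]) (F [(5,219),(8,145),(3,256),(9,104)]))) (F [(5,256),(3,224),(9,34)])) (F [(8,10),(5,242),(3,256)])) (P1 1 1 (U1 4 1 (P3 1 2 (U2 1 1 (F [(8,256),(5,116),(3,216),(9,167)]) (F [(9,222),(5,197),(8,256),(3,238)])) (U2 1 1 (F [(8,256),(3,68)]) (F [(5,35),(8,256),(9,190)])))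 (F [(5,256),(8,25),(9,59),(3,207)])) (F [(5,256),(8,31)])))) (U2 2 1 (P5 2 1 (P0 1 1 (P4 2 1 (F [(5,256),(8,69),(9,96)]) (U1 1 1 (F [(8,213),(3,256),(5,168),(9,130)]) (P3 4 1 (F [(5,190),(8,226),(3,256),(9,149)]) (F [(3,256),(5,177),(8,193),(9,101)])))) (F [(5,256),(8,71),(9,97)])) (P0 1 1 (P3 1 1 (P1 1 2 (F [(9,53),(3,256),(8,68),(5,166)]) (U1 1 1 (U2 1 2 (F [(8,240),(3,256),(5,122)]) (P0 1 1 (F [(3,256),(5,162)]) (P2 2 1 (F [(3,159),(9,170),(8,256),(5,84)]) (F [(8,256),(3,90),(5,6),(9,148)])))) (P0 1 1 (F [(9,68),(3,256),(5,166),(8,86)]) (U0 1 2 (P2 2 1 (F [(9,122),(5,207),(3,256),(8,147)]) (P1 2 1 (F [(9,187),(5,175),(3,252),(8,256)]) (F [(5,255),(8,118),(9,101),(3,256)]))) (P2 2 1 (F [(9,180),(3,204),(5,128),(8,256)]) (P1 2 1 (F [(9,180),(3,204),(5,128),(8,256)]) (U2 1 1 (F [(8,13039),(5,12747),(3,16384),(9,8909)])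 (F [(9,10526),(3,15494),(5,9471),(8,16384)])))))))) (U1 1 1 (P4 4 1 (U2 1 2 (F [(8,54),(3,256),(5,192)]) (P1 1 1 (F [(3,256),(9,5),(5,190)]) (F [(3,256),(8,210),(5,166),(9,127)]))) (F [(3,178),(8,256),(9,106)])) (P4 4 1 (P1 1 1 (F [(9,15),(3,256),(5,197)]) (U0 1 2 (F [(5,256),(9,17),(3,239)]) (P2 2 1 (F [(9,15),(3,256),(5,219)]) (U2 1 1 (F [(8,21),(5,242),(3,256),(9,9)]) (F [(9,152),(3,256),(5,168),(8,237)]))))) (P0 1 2 (F [(3,256),(5,175)]) (P1 1 1 (F [(3,256),(9,10)]) (U0 1 2 (F [(5,256),(3,239),(9,17)]) (U2 1 1 (F [(3,256),(8,21),(5,242),(9,9)]) (F [(3,256),(9,152),(8,237),(5,168)])))))))) (P1 1 1 (P3 1 2 (F [(9,197),(3,203),(5,111),(8,256)]) (U1 1 1 (U2 1 2 (F [(8,256),(3,68)]) (P0 1 1 (P4 2 1 (F [(8,256),(5,18),(9,191),(3,24)]) (F [(8,256),(3,53),(9,163)])) (F [(9,196),(8,256),(5,97),(3,143)])))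 (P0 1 1 (U0 1 2 (F [(5,41),(9,204),(8,256)]) (P4 2 1 (F [(9,194),(5,7),(8,256)]) (F [(9,185),(8,256),(3,1)]))) (F [(9,201),(5,96),(3,134),(8,256)])))) (F [(8,162),(5,256),(9,161)])))) (P5 2 1 (P0 1 1 (P4 2 1 (F [(9,124),(5,256),(8,92)]) (U0 2 1 (P3 4 1 (F [(9,240),(5,200),(3,221),(8,256)]) (P0 1 2 (F [(9,1),(3,256),(5,176)]) (F [(9,154),(3,256),(5,183),(8,226)]))) (F [(9,182),(3,243),(5,131),(8,256)]))) (F [(9,218),(5,22),(8,256)])) (P0 1 1 (P3 1 1 (F [(9,256),(5,11),(8,235)]) (U0 2 1 (P4 4 1 (F [(9,256),(5,15),(8,190)]) (P0 1 2 (F [(3,256),(5,172)]) (F [(9,191),(3,256),(5,184),(8,238)]))) (F [(9,190),(3,131),(8,256)]))) (F [(9,234),(5,7),(8,256)]))))))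

def c127 : Cell := ⟨⟨1,1,0⟩, ⟨0,3,1⟩, ⟨0,1,1⟩, ⟨2,1,3,2⟩, ⟨7,5,12,8⟩, ⟨7,4,13,8⟩, ⟨7,4,12,9⟩⟩

def t127 : Tr :=
  U2 1 1 (F [(8,256),(3,161),(9,104)]) (U0 2 1 (P0 4 1 (P3 1 1 (P5 1 1 (F [(8,256),(3,116),(9,140)]) (F [(3,120),(9,173),(8,256)])) (P4 1 1 (F [(8,256),(3,116),(9,140)]) (F [(3,145),(8,256),(9,125)]))) (P1 4 1 (P5 1 1 (F [(8,256),(3,22),(9,164)]) (F [(3,120),(9,173),(8,256)])) (F [(8,256),(3,63),(9,154)]))) (P0 4 1 (P3 1 1 (F [(9,256),(8,181)]) (P4 1 1 (F [(9,256),(8,246)]) (F [(9,160),(3,138),(8,256)]))) (F [(9,256),(8,181)])))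

def c128 : Cell := ⟨⟨1,3,0⟩, ⟨0,1,0⟩, ⟨0,3,1⟩, ⟨2,1,3,2⟩, ⟨7,5,12,8⟩, ⟨7,4,13,8⟩, ⟨7,4,12,9⟩⟩

def t128 : Tr :=
  P0 4 1 (P3 1 1 (P5 1 1 (U1 4 1 (P2 1 2 (P4 1 2 (F [(8,31),(5,256)]) (U2 1 1 (F [(8,256),(3,154)]) (U0 2 1 (F [(8,224),(5,152),(3,256)]) (P0 1 2 (P3 1 1 (F [(8,256),(9,194)]) (P4 2 1 (F [(5,108),(8,256),(9,186),(3,172)]) (F [(3,256),(9,181),(5,153),(8,256)]))) (F [(8,256),(9,179)]))))) (U2 1 1 (F [(8,256),(3,154)]) (P1 1 1 (U0 2 1 (F [(8,224),(5,152),(3,256)]) (P4 2 1 (F [(8,256),(9,179)]) (F [(9,189),(8,256),(5,124),(3,213)]))) (U0 2 1 (F [(8,251),(3,256)]) (P4 2 1 (F [(8,256),(9,179)]) (F [(3,229),(8,256),(9,172),(5,105)])))))) (P2 1 2 (P4 1 2 (F [(5,256),(9,28)]) (U0 1 4 (F [(8,17),(5,256),(3,208)]) (U2 2 1 (F [(8,29),(5,256),(3,221)]) (P0 1 2 (F [(5,256),(9,33),(3,175)]) (F [(5,256),(9,56)])))))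 (U0 1 4 (F [(8,95),(5,251),(3,256)]) (P1 1 1 (U2 2 1 (F [(8,97),(5,248),(3,256)]) (P4 2 1 (F [(5,256),(8,109),(9,132)]) (F [(5,143),(9,191),(8,256),(3,228)]))) (U2 2 1 (F [(8,155),(5,132),(3,256)]) (P4 2 1 (F [(8,256),(5,9),(9,181)]) (F [(8,256),(3,243),(5,134),(9,176)]))))))) (U1 4 1 (P1 1 2 (U2 1 1 (F [(8,256),(3,120),(9,145)]) (U0 2 1 (F [(3,220),(8,256),(9,183),(5,137)]) (F [(9,205),(3,211),(5,132),(8,256)]))) (U2 1 1 (F [(8,256),(3,154)]) (P2 1 1 (U0 2 1 (F [(8,256),(3,255),(5,127)]) (F [(9,195),(3,195),(8,256),(5,109)])) (F [(3,177),(8,256),(9,157)])))) (P1 1 2 (U0 1 4 (F [(8,237),(5,199),(3,256),(9,176)]) (U2 2 1 (F [(3,254),(8,256),(5,183),(9,195)]) (F [(9,256),(5,71),(8,7)]))) (U0 1 4 (F [(8,228),(5,192),(3,256),(9,139)]) (P2 1 1 (U2 2 1 (F [(8,256),(5,177),(3,254),(9,172)]) (F [(9,195),(5,126),(3,207),(8,256)]))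 (F [(8,256),(3,237),(5,121),(9,174)])))))) (P4 1 1 (U1 4 1 (P2 1 2 (P5 1 2 (F [(8,30),(5,256)]) (U2 1 1 (F [(8,256),(3,207)]) (U0 2 1 (F [(8,146),(5,154),(3,256)]) (P1 1 2 (P3 1 1 (P5 2 1 (F [(5,157),(8,256),(3,232),(9,179)]) (F [(3,256),(9,171),(5,154),(8,245)])) (F [(8,256),(5,184),(3,240),(9,175)])) (F [(8,256),(5,11),(9,178)]))))) (U2 1 1 (F [(8,256),(3,254)]) (U0 2 1 (F [(8,255),(3,256)]) (P5 2 1 (F [(8,256),(5,11),(9,178)]) (P0 1 1 (P3 1 1 (P1 1 2 (F [(3,256),(9,171),(8,245),(5,154)]) (U2 2 1 (F [(8,225),(3,256)]) (U0 4 1 (F [(8,255),(5,147),(3,256),(9,102)]) (P0 1 1 (F [(9,173),(3,252),(5,154),(8,256)]) (F [(8,256),(3,214),(9,168),(5,113)]))))) (U2 2 1 (F [(8,234),(5,23),(3,256)]) (U0 4 1 (F [(8,256),(5,137),(3,251)]) (P4 4 1 (P1 1 1 (F [(5,164),(9,173),(8,256),(3,248)]) (F [(8,256),(9,172)]))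 (P0 1 2 (F [(5,256),(3,184)]) (P1 1 1 (F [(5,190),(8,242),(9,159),(3,256)]) (F [(8,256),(9,172)]))))))) (P1 1 1 (P3 1 2 (F [(3,256),(9,172),(8,246),(5,153)]) (F [(8,256),(3,126),(9,159)])) (F [(8,256),(3,77),(9,167)]))))))) (P2 1 2 (P5 1 2 (F [(5,256)]) (U0 1 4 (F [(8,17),(5,256),(3,208)]) (U2 2 1 (F [(8,121),(5,176),(3,256)]) (P1 1 2 (F [(5,256),(9,33),(3,175)]) (F [(5,256),(9,56)]))))) (U0 1 4 (F [(8,96),(5,208),(3,256)]) (U2 2 1 (F [(8,138),(5,154),(3,256)]) (P5 2 1 (F [(8,256),(5,12),(9,180)]) (P0 1 1 (P3 1 1 (P1 1 2 (F [(3,256),(5,216),(9,137),(8,176)]) (U0 2 1 (F [(8,20),(5,256),(3,216)]) (U2 4 1 (F [(8,253),(5,164),(3,256),(9,154)]) (F [(5,136),(9,177),(3,214),(8,256)])))) (F [(5,256),(8,103),(9,120)])) (P1 1 1 (P3 1 2 (F [(3,256),(9,166),(8,235),(5,163)]) (F [(8,16384),(5,8161),(3,14580),(9,10649)]))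 (F [(8,256),(3,121),(5,36),(9,160)])))))))) (U1 4 1 (U2 1 1 (F [(8,256),(3,254)]) (U0 2 1 (F [(8,255),(3,256)]) (P0 1 2 (F [(3,256),(8,12),(5,226)]) (P1 1 1 (P5 1 1 (P2 1 2 (F [(8,117),(5,198),(3,256),(9,75)]) (F [(3,256),(8,214),(5,156),(9,143)])) (F [(3,256),(8,5),(5,149)])) (P2 1 1 (P5 1 2 (P4 1 2 (F [(8,256),(5,249),(9,149)]) (F [(8,16384),(3,16072),(5,9460),(9,10443)])) (F [(8,256),(3,216),(5,112),(9,165)])) (F [(8,256),(3,132),(9,149)])))))) (U0 1 4 (F [(8,96),(5,166),(3,256)]) (U2 2 1 (F [(8,110),(5,151),(3,256)]) (P0 1 2 (F [(3,256),(5,234),(9,10)]) (P1 1 1 (P5 1 1 (P2 1 2 (F [(5,246),(3,256),(9,19)]) (F [(3,256),(5,203),(9,10)])) (F [(3,256),(5,158)])) (P2 1 1 (P5 1 2 (P4 1 2 (F [(8,80),(5,256),(9,90)]) (U0 2 1 (F [(8,256),(3,73)]) (U2 4 1 (F [(8,256),(3,73)]) (P3 2 1 (F [(8,256),(5,153),(3,249),(9,164)])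 (P0 1 1 (F [(3,256),(8,5),(5,152)]) (F [(8,256),(5,153),(3,249),(9,164)])))))) (F [(8,256),(3,236),(5,132),(9,165)])) (F [(8,256),(3,140),(9,126)]))))))))) (P1 4 1 (P5 1 1 (F [(8,256),(3,19),(9,162)]) (U1 4 1 (P3 1 2 (F [(8,256),(3,46),(9,209)]) (F [(8,256),(3,69),(9,174)])) (P3 1 2 (F [(8,256),(5,43),(9,212),(3,84)]) (F [(8,256),(3,71),(9,167)])))) (F [(8,256),(3,54),(9,154)]))

def c129 : Cell := ⟨⟨1,1,0⟩, ⟨1,3,0⟩, ⟨0,3,1⟩, ⟨2,1,3,2⟩, ⟨7,5,12,8⟩, ⟨7,4,13,8⟩, ⟨7,4,12,9⟩⟩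

def t129 : Tr :=
  U2 2 1 (P0 4 1 (P3 1 1 (P5 1 1 (P2 1 2 (P4 1 2 (F [(8,256),(9,178)]) (U1 1 1 (F [(8,256),(3,126),(9,141)]) (P0 1 2 (P3 1 1 (F [(9,192),(3,57),(8,256)]) (U0 1 2 (P4 2 1 (F [(9,188),(3,159),(5,93),(8,256)]) (F [(9,192),(3,229),(8,256)])) (F [(9,159),(3,121),(8,256)]))) (F [(8,256),(9,179),(3,1)])))) (U1 1 1 (F [(8,256),(3,117),(9,156)]) (P1 1 1 (P4 2 1 (F [(8,256),(9,179),(3,1)]) (F [(9,195),(3,114),(8,256)])) (P4 2 1 (F [(8,256),(9,179),(3,1)]) (F [(3,133),(9,187),(8,256)]))))) (F [(3,113),(9,195),(8,256)])) (P4 1 1 (P2 1 2 (P5 1 2 (F [(8,256),(9,131)]) (U1 1 1 (F [(8,256),(3,143),(9,122)]) (P1 1 2 (P3 1 1 (U0 1 2 (P5 2 1 (F [(9,180),(3,223),(5,146),(8,256)]) (F [(9,158),(3,256),(8,204)])) (F [(9,159),(3,121),(8,256)])) (U0 1 2 (U1 2 1 (U2 1 2 (F [(8,256),(5,114),(3,242)]) (P0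 1 4 (F [(5,191),(8,236),(9,164),(3,256)]) (F [(9,178),(8,256),(5,141),(3,218)]))) (F [(5,204),(9,215),(8,256),(3,224)])) (U2 1 1 (U1 1 2 (F [(8,256),(3,154)]) (P0 1 4 (P5 1 1 (F [(8,256),(9,178)]) (P3 2 1 (F [(3,234),(9,169),(8,256),(5,139)]) (F [(8,256),(5,137),(3,201),(9,171)]))) (F [(9,163),(8,256),(3,116)]))) (P0 1 4 (P5 1 1 (F [(9,178),(8,256),(3,1)]) (F [(9,10526),(3,15494),(8,16384),(5,9471)])) (F [(9,181),(3,115),(8,256)]))))) (F [(8,256),(9,174),(3,2)])))) (U1 1 1 (F [(8,256),(3,157),(9,113)]) (P5 2 1 (F [(8,256),(3,2),(9,174)]) (P0 1 1 (P3 1 1 (U0 1 2 (P1 1 2 (F [(9,158),(3,256),(8,204)]) (U1 2 1 (F [(3,256),(8,218),(9,73)]) (P0 1 1 (F [(9,185),(3,235),(8,256)]) (F [(9,177),(3,89),(8,256)])))) (F [(3,256),(9,107),(8,214)])) (U0 1 2 (U1 2 1 (U2 1 2 (F [(8,234),(5,23),(3,256)]) (P4 4 1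 (F [(8,256),(3,208),(9,171),(5,120)]) (P0 1 2 (P3 2 1 (P1 1 2 (F [(8,256),(5,158),(3,244),(9,172)]) (F [(8,256),(5,7),(9,173)])) (F [(8,109),(5,256),(9,123)])) (P1 1 1 (P3 1 2 (F [(3,228),(8,256),(9,173),(5,143)]) (F [(8,256),(3,126),(9,132)])) (F [(8,256),(3,76),(9,149)]))))) (P4 4 1 (P1 1 1 (F [(9,177),(3,228),(5,147),(8,256)]) (F [(9,172),(8,256)])) (P0 1 2 (P3 2 1 (U0 1 4 (F [(5,256),(9,35),(3,137)]) (P1 1 2 (F [(9,179),(5,181),(3,256),(8,255)]) (F [(5,9),(8,256),(9,176)]))) (F [(5,230),(8,229),(9,256)])) (P1 1 1 (U0 1 4 (F [(5,175),(9,178),(8,256),(3,235)]) (P3 1 2 (F [(9,175),(3,232),(5,149),(8,256)]) (F [(8,256),(9,171)]))) (F [(8,256),(9,172)]))))) (U2 1 1 (U1 1 2 (F [(8,256),(3,254)]) (P4 4 1 (F [(3,145),(8,256),(9,151)]) (P0 1 2 (P3 2 1 (F [(8,256),(3,203),(5,100),(9,163)]) (F [(8,256),(5,120),(3,177),(9,171)]))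 (F [(8,256),(3,145),(9,151)])))) (F [(3,14359),(9,10549),(8,16384),(5,8366)])))) (F [(3,145),(9,173),(8,256)]))))) (U1 1 1 (F [(3,157),(8,256),(9,113)]) (P0 1 2 (P3 2 1 (P5 1 1 (U0 1 2 (P2 1 2 (P4 1 2 (U1 2 1 (U2 1 2 (F [(8,97),(5,163),(3,256)]) (P5 1 2 (F [(8,252),(5,160),(3,256),(9,152)]) (F [(3,256),(5,187),(9,3)]))) (P5 1 2 (U0 1 4 (F [(5,238),(9,11),(3,256)]) (P2 1 4 (F [(5,256),(9,79),(3,128)]) (F [(5,161),(3,256),(8,253),(9,161)]))) (F [(9,6),(3,256),(5,186)]))) (F [(3,256),(5,159)])) (F [(3,256),(5,159)])) (P2 1 2 (P4 1 2 (U2 1 1 (U1 1 2 (F [(8,256),(3,254)]) (P5 1 2 (F [(8,256),(3,251),(5,156),(9,159)]) (F [(3,256),(5,174)]))) (F [(3,254),(9,164),(8,256),(5,160)])) (F [(3,256),(8,49)])) (F [(3,256),(8,49)]))) (F [(3,256),(9,16)])) (P4 2 1 (U0 1 2 (P2 1 2 (P5 1 2 (U1 2 1 (F [(8,252),(5,160),(3,256),(9,152)])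 (P4 1 2 (U0 1 4 (F [(5,238),(3,256),(9,11)]) (P2 1 4 (F [(5,256),(3,128),(9,79)]) (F [(5,161),(8,253),(3,256),(9,160)]))) (F [(3,256),(5,162)]))) (F [(3,256),(5,159)])) (F [(3,256),(5,159)])) (P2 1 2 (P5 1 2 (F [(3,253),(8,256),(5,157),(9,158)]) (F [(3,256),(8,49)])) (F [(3,256),(8,49)]))) (F [(3,256),(5,146)]))) (P1 1 1 (P5 1 1 (U0 1 2 (P2 1 2 (P4 1 2 (U1 2 1 (U2 1 2 (F [(8,114),(5,146),(3,256)]) (P5 1 2 (F [(8,256),(5,116),(3,201),(9,157)]) (F [(3,256),(8,255),(5,147),(9,158)]))) (P5 1 2 (U0 1 4 (P2 1 4 (F [(5,256),(9,18),(3,255)]) (F [(5,163),(8,254),(9,165),(3,256)])) (P2 1 4 (P4 1 4 (F [(5,256),(9,63)]) (F [(5,156),(8,256),(3,250),(9,162)])) (F [(8,256),(5,150),(3,245),(9,165)]))) (F [(9,129),(3,256),(5,162),(8,191)]))) (F [(3,256),(8,145),(9,97),(5,156)])) (F [(3,235),(9,185),(8,256)]))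 (P2 1 2 (P4 1 2 (U2 1 1 (U1 1 2 (F [(8,256),(3,254)]) (P5 1 2 (F [(8,256),(3,175),(5,94),(9,162)]) (F [(3,256),(8,231),(9,149),(5,149)]))) (F [(3,15548),(9,10525),(8,16384),(5,9523)])) (F [(3,256),(8,49)])) (F [(3,256),(8,49)]))) (F [(3,256),(9,16)])) (P2 1 1 (U0 1 2 (P5 1 2 (P4 1 2 (U1 2 1 (F [(8,256),(3,87),(9,124)]) (P2 1 2 (U0 1 4 (P4 1 4 (F [(8,256),(9,172)]) (F [(5,9684),(8,16384),(3,15335),(9,10527)])) (P4 1 4 (F [(8,256),(9,171),(3,6)]) (F [(8,256),(5,138),(3,230),(9,161)]))) (U0 1 4 (F [(8,256),(5,146),(3,234),(9,165)]) (F [(8,256),(3,127),(9,148)])))) (U1 2 1 (F [(8,149),(3,256),(9,23)]) (P3 2 1 (U0 1 4 (U1 4 1 (F [(8,256),(3,168),(9,121)]) (P0 4 1 (F [(3,256),(9,114),(8,167),(5,138)]) (F [(9,10563),(8,16384),(3,15073),(5,9316)]))) (F [(3,256),(8,221),(9,111)])) (P0 1 1 (F [(3,256),(9,1),(5,148)])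 (U0 1 4 (U1 4 1 (F [(3,256),(8,228),(9,72)]) (P1 4 1 (F [(3,256),(9,6),(5,85)]) (P4 1 1 (F [(3,15166),(8,16384),(9,10570),(5,9298)]) (F [(3,176),(8,256),(9,173)])))) (F [(3,256),(8,224),(9,113)])))))) (F [(3,114),(8,256),(9,178)])) (F [(3,90),(8,256),(9,127)])) (F [(3,127),(8,256),(9,171)]))))))) (P1 4 1 (P5 1 1 (F [(8,256),(9,167),(3,23)]) (F [(9,192),(3,103),(8,256)])) (F [(8,256),(3,63),(9,161)]))) (P0 4 1 (P3 1 1 (F [(9,256),(8,181)]) (P4 1 1 (F [(9,256),(5,11),(8,235)]) (U0 2 1 (P0 1 2 (P3 2 1 (P5 1 1 (U1 2 1 (F [(9,256),(3,34),(8,227)]) (P2 1 2 (F [(9,256),(5,19),(8,123)]) (F [(9,256),(5,27)]))) (F [(9,256),(3,222)])) (P4 2 1 (U1 2 1 (P2 1 2 (P5 1 2 (F [(9,168),(3,252),(5,159),(8,256)]) (F [(3,256)])) (F [(3,256)])) (P2 1 2 (P5 1 2 (U0 1 2 (P4 1 2 (U1 4 1 (P2 1 4 (F [(9,231),(5,256)]) (F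 [(9,231),(3,256),(5,177),(8,254)])) (F [(9,256),(5,77),(3,4)])) (F [(3,256),(5,162)])) (F [(9,169),(3,254),(5,161),(8,256)])) (F [(9,256),(3,30),(5,46)])) (F [(9,256),(3,30),(5,46)]))) (F [(3,256),(5,146)]))) (P1 1 1 (P5 1 1 (U1 2 1 (F [(9,186),(3,71),(8,256)]) (P2 1 2 (P4 1 2 (F [(9,256),(5,19),(8,123)]) (F [(9,256),(5,27)])) (F [(9,256),(3,49)]))) (F [(9,256),(3,222)])) (P2 1 1 (U1 2 1 (F [(9,157),(3,80),(8,256)]) (P5 1 2 (P4 1 2 (F [(9,256),(5,19),(8,123)]) (F [(9,256),(5,27)])) (F [(9,256),(8,92)]))) (F [(9,256),(8,92)])))) (F [(9,176),(3,134),(8,256)])))) (F [(9,256),(8,181)]))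

def c130 : Cell := ⟨⟨1,0,0⟩, ⟨1,1,0⟩, ⟨0,1,1⟩, ⟨2,1,3,2⟩, ⟨3,3,6,4⟩, ⟨3,2,7,4⟩, ⟨3,2,6,5⟩⟩

def t130 : Tr :=
  U2 2 1 (P0 2 1 (P3 1 1 (P5 1 1 (P2 1 2 (F [(9,5),(3,231),(5,256)]) (F [(9,5),(3,256),(5,196)])) (F [(9,19),(3,256)])) (P4 1 1 (P2 1 2 (F [(9,5),(5,256),(3,231)]) (F [(3,256),(9,5),(5,196)])) (F [(3,256),(9,14),(5,128)]))) (P1 2 1 (P5 1 1 (P2 1 2 (P4 1 2 (F [(9,141),(5,244),(3,256),(8,190)]) (F [(9,93),(3,256),(5,175),(8,122)])) (F [(9,154),(3,256),(5,119),(8,200)])) (F [(9,19),(3,256)])) (P2 2 1 (P4 1 2 (P5 1 2 (F [(5,109),(9,175),(8,256),(3,119)]) (U1 1 1 (U2 1 2 (F [(8,256),(3,172),(9,160),(5,59)]) (F [(9,256),(3,75),(5,101),(8,195)])) (F [(9,256),(5,139),(8,89)]))) (U1 1 1 (U2 1 2 (F [(3,172),(8,256),(9,160),(5,59)]) (F [(9,197),(3,166),(8,256),(5,73)])) (F [(9,206),(3,166),(5,75),(8,256)])))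 (U1 1 1 (F [(3,123),(9,162),(8,256)]) (F [(9,194),(3,111),(8,256)]))))) (F [(9,256),(5,30)])

def c131 : Cell := ⟨⟨1,0,0⟩, ⟨0,1,0⟩, ⟨0,0,1⟩, ⟨3,2,6,5⟩, ⟨3,3,5,5⟩, ⟨3,3,6,4⟩, ⟨1,1,3,3⟩⟩

def t131 : Tr :=
  F [(5,256),(13,63),(3,75),(9,41)]

theorem g10 : ∀ c ∈ [c120, c121, c122, c123, c124, c125, c126, c127, c128, c129, c130, c131], Done D c := by
  intro c hc
  simp only [List.mem_cons, List.not_mem_nil, or_false] at hc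
  rcases hc with rfl | rfl | rfl | rfl | rfl | rfl | rfl | rfl | rfl | rfl | rfl | rfl
  · exact done_of_chk (t := t120) (by decide +kernel)
  · exact done_of_chk (t := t121) (by decide +kernel)
  · exact done_of_chk (t := t122) (by decide +kernel)
  · exact done_of_chk (t := t123) (by decide +kernel)
  · exact done_of_chk (t := t124) (by decide +kernel)
  · exact done_of_chk (t := t125) (by decide +kernel)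
  · exact done_of_chk (t := t126) (by decide +kernel)
  · exact done_of_chk (t := t127) (by decide +kernel)
  · exact done_of_chk (t := t128) (by decide +kernel)
  · exact done_of_chk (t := t129) (by decide +kernel)
  · exact done_of_chk (t := t130) (by decide +kernel)
  · exact done_of_chk (t := t131) (by decide +kernel)

end Pool.Agent.W2helper59.NW.I0
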