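import Pool.Agent.W2helper59.NW.D_I0

set_option autoImplicit false
set_option maxRecDepth 1000000

namespace Pool.Agent.W2helper59.NW.I0

open Tr

def c132 : Cell := ⟨⟨1,0,0⟩, ⟨0,1,1⟩, ⟨0,0,1⟩, ⟨2,1,3,2⟩, ⟨3,3,5,5⟩, ⟨3,3,6,4⟩, ⟨3,2,6,5⟩⟩

def t132 : Tr :=
  U2 1 1 (P0 2 1 (F [(8,222),(5,129),(3,256),(9,38)]) (F [(3,171),(8,256),(5,2),(9,65)])) (P0 2 1 (F [(5,228),(3,256),(9,55),(8,125)]) (U0 2 1 (P1 2 1 (P5 1 1 (P2 1 2 (F [(5,227),(3,256),(8,152),(9,66)]) (F [(3,256),(9,59),(8,181),(5,103)])) (F [(3,256),(9,79),(8,241),(5,60)])) (P2 2 1 (P5 1 2 (F [(8,256),(5,74),(9,130),(3,115)]) (F [(3,155),(9,110),(8,256),(5,20)])) (F [(3,140),(9,107),(8,256)]))) (F [(9,256),(8,111)])))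

def c133 : Cell := ⟨⟨1,1,0⟩, ⟨0,1,0⟩, ⟨0,1,1⟩, ⟨7,5,11,9⟩, ⟨3,3,5,5⟩, ⟨3,3,6,4⟩, ⟨3,2,6,5⟩⟩

def t133 : Tr :=
  F [(5,256),(13,2),(3,167)]

def c134 : Cell := ⟨⟨1,1,0⟩, ⟨0,1,0⟩, ⟨0,1,1⟩, ⟨7,5,12,8⟩, ⟨7,5,11,9⟩, ⟨3,3,6,4⟩, ⟨3,2,6,5⟩⟩

def t134 : Tr :=
  P5 1 1 (U1 2 1 (P2 1 2 (F [(5,256),(8,12)]) (F [(8,15),(5,235),(3,256),(9,6)])) (P2 1 2 (F [(5,256),(9,41)]) (F [(5,247),(3,256),(9,2)]))) (F [(5,235),(3,256),(8,15),(9,6)])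

def c135 : Cell := ⟨⟨1,1,0⟩, ⟨0,1,0⟩, ⟨0,1,1⟩, ⟨7,4,12,9⟩, ⟨7,5,11,9⟩, ⟨7,5,12,8⟩, ⟨3,2,6,5⟩⟩

def t135 : Tr :=
  U1 2 1 (P5 1 2 (F [(8,173),(5,256),(9,95)]) (U2 1 1 (F [(8,256),(5,32),(3,177)]) (U0 2 1 (P0 1 1 (F [(8,143),(5,162),(3,256)]) (P1 1 1 (F [(8,227),(5,124),(3,256)]) (F [(8,256),(3,30)]))) (P0 1 1 (P3 1 1 (P1 1 2 (F [(3,256),(5,188)]) (F [(5,197),(8,255),(9,149),(3,256)])) (F [(5,208),(8,232),(9,125),(3,256)])) (P1 1 1 (P3 1 2 (F [(9,141),(3,256),(5,167),(8,216)]) (F [(9,153),(8,256)])) (F [(5,5),(9,163),(8,256)])))))) (P5 1 2 (F [(5,256),(9,54)]) (U0 1 2 (F [(8,14),(5,256),(3,200)]) (U2 2 1 (P0 1 1 (F [(8,109),(5,193),(3,256)]) (P1 1 1 (F [(8,172),(5,168),(3,256)]) (F [(8,256)]))) (P0 1 1 (P3 1 1 (P1 1 2 (F [(9,14),(5,256),(3,246)]) (F [(5,256),(9,48)])) (F [(5,256),(9,43)])) (P1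 1 1 (P3 1 2 (P5 2 1 (F [(5,256),(9,104),(8,81)]) (U0 2 1 (P1 1 2 (F [(3,256),(5,242),(8,5)]) (F [(5,185),(9,142),(3,256),(8,219)])) (F [(9,140),(3,256),(5,161),(8,218)]))) (F [(5,256),(8,81),(9,104)])) (F [(5,7),(8,256),(9,165)]))))))

def c136 : Cell := ⟨⟨1,1,0⟩, ⟨0,3,1⟩, ⟨0,1,1⟩, ⟨2,1,3,2⟩, ⟨7,5,11,9⟩, ⟨7,5,12,8⟩, ⟨7,4,12,9⟩⟩

def t136 : Tr :=
  U2 1 1 (F [(8,256),(3,153)]) (P0 4 1 (U0 2 1 (F [(8,256),(3,153)]) (P3 1 1 (P5 1 1 (P4 1 2 (F [(8,256),(9,163),(3,2)]) (U2 2 1 (F [(8,256),(3,143),(9,109)]) (U0 4 1 (P0 1 1 (P3 1 1 (F [(9,150),(8,256),(5,36),(3,49)]) (F [(8,256),(5,153),(9,143),(3,210)])) (F [(8,256),(9,164)])) (F [(9,256),(5,47)])))) (U2 2 1 (F [(3,194),(8,256),(9,101)]) (P1 1 2 (U0 4 1 (P3 1 2 (F [(3,164),(9,140),(8,256)]) (P4 1 1 (F [(9,135),(3,154),(8,256),(5,16)]) (F [(3,256),(9,98),(8,189),(5,120)])))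 (F [(9,42),(3,256),(5,133)])) (U0 4 1 (P0 1 1 (P4 1 1 (F [(9,150),(3,12),(8,256),(5,9)]) (F [(8,256),(3,237),(9,132),(5,111)])) (F [(8,256),(9,155),(3,60)])) (F [(9,256),(5,47)]))))) (F [(8,256),(5,119),(9,138),(3,155)]))) (U0 2 1 (F [(8,256),(3,153)]) (P1 4 1 (P5 1 1 (F [(9,163),(8,256),(3,2)]) (F [(9,149),(3,140),(8,256)])) (F [(9,171),(8,256),(3,62)]))))

def c137 : Cell := ⟨⟨1,3,0⟩, ⟨0,1,0⟩, ⟨0,3,1⟩, ⟨2,1,3,2⟩, ⟨7,5,11,9⟩, ⟨7,5,12,8⟩, ⟨7,4,12,9⟩⟩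

def t137 : Tr :=
  P0 4 1 (F [(8,88),(5,256),(3,244)]) (P1 4 1 (P5 1 1 (F [(8,256),(9,145)]) (U1 4 1 (U2 1 1 (F [(8,256),(3,168)]) (P3 1 2 (U0 2 1 (F [(8,256),(3,168)]) (P1 1 2 (F [(8,26),(3,256),(5,219)]) (P2 1 1 (P5 1 2 (F [(8,88),(5,256)]) (U2 2 1 (F [(8,256),(3,133)]) (U0 4 1 (F [(8,256),(3,132)]) (P1 1 1 (F [(8,52),(3,256),(5,145)]) (F [(8,16384),(5,9686),(3,15911),(9,9711)]))))) (F [(8,256),(3,140),(9,117)])))) (F [(8,256),(3,16),(9,111)]))) (U0 1 4 (F [(8,205),(5,148),(3,256)]) (P3 1 2 (U2 2 1 (F [(8,221),(5,135),(3,256)]) (P1 1 2 (F [(8,26),(5,219),(3,256)]) (P2 1 1 (P5 1 2 (F [(8,88),(5,256)]) (U0 2 1 (F [(8,256),(3,130)]) (U2 4 1 (F [(8,256),(3,130)]) (P1 1 1 (F [(8,52),(3,256),(5,145)]) (F [(8,16384),(5,9702),(3,15911),(9,9769)]))))) (F [(8,256),(3,140),(9,116)])))) (F [(8,256),(3,16),(9,111)])))))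 (F [(8,256),(3,70),(9,138)]))

def c138 : Cell := ⟨⟨2,5,1⟩, ⟨1,3,0⟩, ⟨0,3,1⟩, ⟨15,9,23,17⟩, ⟨7,5,11,9⟩, ⟨7,5,12,8⟩, ⟨7,4,12,9⟩⟩

def t138 : Tr :=
  P3 1 1 (P5 1 1 (F [(8,256)]) (F [(8,174),(5,166),(3,256)])) (F [(8,256)])

def c139 : Cell := ⟨⟨1,1,0⟩, ⟨1,3,0⟩, ⟨2,5,1⟩, ⟨15,9,23,17⟩, ⟨14,10,23,17⟩, ⟨14,9,24,17⟩, ⟨7,4,12,9⟩⟩

def t139 : Tr :=
  F [(5,256),(8,109),(9,117)]

def c140 : Cell := ⟨⟨3,5,0⟩, ⟨1,3,0⟩, ⟨2,5,1⟩, ⟨29,19,47,33⟩, ⟨28,20,47,33⟩, ⟨7,5,12,8⟩, ⟨14,9,24,17⟩⟩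

def t140 : Tr :=
  P5 2 1 (U1 2 1 (P4 1 2 (U2 1 1 (P2 1 2 (F [(3,256),(9,152),(8,250),(5,161)]) (F [(3,256),(8,221),(9,62)])) (P2 1 2 (U0 2 1 (P5 1 2 (F [(9,159),(5,162),(3,245),(8,256)]) (F [(9,9703),(3,16384),(5,9502),(8,16162)])) (F [(9,256)])) (U0 2 1 (F [(3,16210),(9,9726),(8,16384),(5,8808)]) (F [(9,256),(3,248)])))) (F [(3,256),(8,29),(5,59)])) (P4 1 2 (U0 1 2 (P2 1 2 (F [(5,256),(8,17),(3,167)]) (P1 1 1 (U1 4 1 (U2 1 1 (F [(3,256),(5,167),(8,242),(9,148)]) (F [(9,59),(3,191),(5,256)])) (F [(5,256),(3,198),(9,25)])) (U1 4 1 (P0 2 1 (U2 1 1 (F [(8,15766),(5,10513),(3,16384),(9,9654)]) (F [(5,256),(3,191),(9,59)])) (U2 1 1 (F [(8,16384),(3,15897),(5,9408),(9,9670)]) (P2 2 1 (U0 2 1 (P5 1 1 (F [(8,256),(5,156),(3,245),(9,153)]) (F [(8,235),(5,161),(3,256),(9,124)])) (P5 1 1 (F [(5,157),(9,156),(8,256),(3,242)])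 (U2 2 1 (P1 1 2 (F [(3,256),(9,32),(5,168)]) (F [(8,256),(5,154),(3,253),(9,154)])) (P1 1 2 (F [(9,12),(3,256),(5,186)]) (F [(9,156),(5,157),(3,252),(8,256)]))))) (U0 2 1 (F [(8,231),(3,256),(5,15)]) (P1 2 1 (U2 2 1 (P5 2 1 (F [(3,252),(8,256),(9,152),(5,151)]) (F [(3,256),(5,120)])) (P5 2 1 (U0 4 1 (P0 1 1 (F [(9,9936),(5,10174),(3,16283),(8,16384)]) (F [(3,16046),(9,9838),(8,16384),(5,9605)])) (F [(9,256),(5,35)])) (F [(3,256),(5,120)]))) (P0 4 1 (U2 2 1 (F [(8,256),(3,249),(5,145),(9,147)]) (U0 4 1 (P3 1 1 (F [(3,250),(8,256),(9,153),(5,148)]) (F [(8,256),(5,154),(3,252),(9,153)])) (F [(9,158),(3,252),(5,152),(8,256)]))) (F [(8,256),(3,148),(9,135)]))))))) (P0 2 1 (F [(5,256),(3,198),(9,25)]) (U0 1 4 (F [(8,114),(5,230),(3,256)]) (P2 2 1 (U2 2 1 (F [(5,229),(8,115),(3,256)]) (P5 1 1 (F [(5,256),(9,94),(8,75)])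 (U0 2 1 (F [(5,256),(3,169),(8,19)]) (P1 1 2 (F [(9,6),(3,256),(5,191)]) (F [(9,156),(5,158),(3,252),(8,256)]))))) (U2 2 1 (F [(8,157),(5,151),(3,256)]) (P1 2 1 (U0 2 1 (P5 2 1 (P0 1 1 (F [(5,256),(8,19),(3,168)]) (P2 1 1 (U1 2 1 (P4 1 2 (U2 1 1 (F [(8,256),(5,160),(3,256),(9,154)]) (F [(5,256),(8,210),(9,240)])) (U2 1 1 (F [(8,256),(5,158),(3,256),(9,154)]) (F [(5,256),(8,74),(9,88)]))) (F [(5,256),(9,49)])) (U1 2 1 (U2 1 1 (F [(3,256),(8,254),(5,155),(9,152)]) (P1 2 1 (F [(3,16384),(5,10058),(9,9769),(8,16194)]) (F [(3,16384),(9,9752),(5,9936),(8,16223)]))) (U0 1 2 (F [(5,256),(8,16),(3,216)]) (P1 2 1 (F [(5,256),(9,34),(3,125)]) (U2 2 1 (F [(3,256),(5,224),(8,117)]) (P2 2 1 (F [(9,9810),(5,10053),(3,16384),(8,16232)]) (F [(3,256),(5,156)])))))))) (F [(3,256),(5,160)])) (P5 2 1 (U2 4 1 (P0 1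 1 (F [(5,178),(9,154),(8,247),(3,256)]) (P2 1 1 (P4 1 2 (F [(5,9538),(9,10011),(8,16384),(3,15770)]) (F [(9,9930),(3,16295),(5,9817),(8,16384)])) (F [(3,256),(9,153),(5,148),(8,253)]))) (F [(9,256),(5,76)])) (F [(9,3),(3,256),(5,123)]))) (P0 4 1 (U0 2 1 (P3 1 1 (P5 1 1 (F [(8,81),(5,256),(9,29)]) (U1 2 1 (U2 1 1 (F [(8,256),(3,252),(5,106)]) (U0 2 1 (F [(8,256),(5,108),(3,253)]) (F [(3,16384),(5,9879),(8,16304),(9,9786)]))) (U0 1 2 (F [(8,16),(5,256),(3,216)]) (U2 2 1 (F [(8,222),(5,139),(3,256)]) (P5 2 1 (F [(5,10077),(8,16190),(3,16384),(9,9772)]) (F [(3,256),(5,226),(9,13)])))))) (F [(5,256),(8,27),(3,68)])) (U2 4 1 (P3 1 1 (P5 1 1 (F [(8,16384),(5,10024),(9,9841),(3,16285)]) (F [(3,256),(8,255),(9,153),(5,154)])) (F [(5,160),(8,256),(3,255),(9,154)])) (F [(9,158),(3,255),(5,156),(8,256)])))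 (U0 2 1 (P2 4 1 (P5 1 1 (F [(8,256),(5,139),(9,142)]) (U1 2 1 (F [(8,16384),(5,8428),(3,15317),(9,9575)]) (U0 1 2 (F [(8,117),(5,224),(3,256)]) (P1 1 2 (U2 2 1 (F [(8,222),(5,139),(3,256)]) (P5 2 1 (F [(8,16304),(5,9960),(3,16384),(9,9786)]) (F [(3,16384),(8,16171),(5,9869),(9,9650)]))) (F [(8,256),(9,117)]))))) (F [(8,256),(5,143),(3,254),(9,147)])) (F [(8,16384),(9,9814),(3,15450),(5,8814)]))))))))))) (P2 1 2 (U2 2 1 (P5 1 2 (F [(9,99),(5,256),(8,79)]) (U1 1 1 (P1 1 2 (F [(9,4),(3,256),(5,191)]) (F [(9,161),(5,165),(3,246),(8,256)])) (F [(9,216),(5,256)]))) (F [(9,256)])) (U2 2 1 (P1 1 1 (U1 1 1 (P5 2 1 (F [(3,253),(9,157),(5,154),(8,256)]) (F [(3,256),(9,4),(5,126)])) (F [(9,256),(3,8),(5,81)])) (P0 2 1 (U1 1 1 (F [(3,253),(9,156),(5,154),(8,256)]) (F [(9,68),(3,189),(5,256)])) (U1 1 1 (F [(3,238),(8,256),(9,154),(5,135)])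 (P2 2 1 (F [(9,158),(3,247),(5,146),(8,256)]) (F [(9,156),(3,249),(8,256),(5,140)]))))) (F [(9,256)])))) (U0 1 2 (P0 1 1 (F [(3,256),(5,193)]) (P1 1 1 (F [(3,256),(5,164)]) (U1 4 1 (F [(3,16384),(8,2180),(5,4313)]) (P2 2 1 (F [(5,256),(3,242),(9,19)]) (U0 1 4 (F [(8,116),(5,133),(3,256)]) (U2 2 1 (F [(8,116),(3,256),(5,133)]) (P0 2 1 (F [(3,256),(5,188),(9,4)]) (P1 2 1 (F [(3,256),(5,153),(8,2)]) (P2 4 1 (F [(3,16384),(5,10072),(8,14672),(9,8741)]) (F [(3,16384),(8,15687),(5,9320),(9,9018)])))))))))) (F [(9,9),(3,256),(5,37)])))) (F [(3,256),(8,112)])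

def c141 : Cell := ⟨⟨3,5,0⟩, ⟨1,3,0⟩, ⟨2,5,1⟩, ⟨29,19,47,33⟩, ⟨14,10,23,17⟩, ⟨28,20,47,33⟩, ⟨14,9,24,17⟩⟩

def t141 : Tr :=
  P4 1 1 (U1 2 1 (P5 1 2 (U2 1 1 (F [(8,256),(5,133),(3,224),(9,148)]) (P2 1 2 (F [(9,158),(5,158),(3,239),(8,256)]) (U0 2 1 (P0 1 1 (F [(5,152),(8,256),(3,239),(9,154)]) (F [(3,243),(8,256),(9,151),(5,143)])) (F [(9,256),(5,40),(8,223)])))) (U2 1 1 (F [(3,256),(8,239),(5,133),(9,117)]) (U0 2 1 (F [(3,16384),(5,9340),(8,15925),(9,8852)]) (F [(9,256),(3,13),(5,80)])))) (P5 1 2 (U0 1 2 (P2 1 2 (F [(5,256),(8,31)]) (P0 1 1 (F [(5,256),(8,31)]) (U1 4 1 (P1 2 1 (F [(5,256),(8,19),(3,154)]) (U2 1 1 (F [(8,256)]) (P2 2 1 (F [(5,256),(8,88),(9,34)]) (U0 2 1 (F [(8,256)]) (P0 2 1 (F [(8,88),(5,256),(9,34)]) (P1 4 1 (F [(8,256),(5,153),(3,249),(9,153)]) (F [(8,256),(3,109),(9,140)])))))))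 (P1 2 1 (F [(5,256),(9,48)]) (U0 1 4 (F [(8,256),(5,190)]) (P2 2 1 (F [(5,256),(8,71),(9,92)]) (U2 2 1 (F [(8,256),(5,188)]) (P0 2 1 (F [(5,256),(8,41),(9,74)]) (P1 4 1 (F [(5,157),(8,256),(3,250),(9,153)]) (F [(8,256),(9,153)])))))))))) (P2 1 2 (F [(9,99),(5,256),(8,79)]) (U2 2 1 (P0 1 1 (F [(5,256),(8,86),(9,100)]) (P1 2 1 (F [(5,163),(8,256),(9,155),(3,249)]) (U1 1 1 (F [(8,256),(5,141),(3,239),(9,151)]) (P2 2 1 (F [(9,155),(5,152),(8,256),(3,244)]) (P0 2 1 (F [(8,256),(9,155),(5,151),(3,239)]) (F [(9,153),(3,251),(8,256),(5,146)])))))) (F [(9,256),(5,75)])))) (U0 1 2 (P0 1 1 (F [(5,256),(8,18),(3,133)]) (P1 1 1 (F [(5,256),(8,14),(3,215)]) (U1 4 1 (P2 2 1 (F [(5,245),(8,10),(3,256)]) (U2 1 1 (F [(8,256),(3,80)]) (U0 2 1 (F [(8,256),(5,51),(3,111)]) (P3 1 1 (F [(3,256),(8,33),(5,61)]) (P0 2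 1 (F [(5,256),(8,27),(3,64)]) (P1 4 1 (F [(8,247),(5,160),(3,256),(9,145)]) (P2 4 1 (F [(8,256),(5,156),(3,256),(9,151)]) (F [(8,256),(3,137),(9,135)])))))))) (P2 2 1 (F [(5,256),(3,176),(9,27)]) (U0 1 4 (F [(8,256),(5,232),(3,224)]) (U2 2 1 (F [(8,256),(5,222),(3,217)]) (P3 1 1 (P1 2 1 (F [(5,188),(3,256),(9,4)]) (P0 4 1 (F [(5,158),(3,256)]) (P2 4 1 (F [(8,240),(5,159),(3,256),(9,143)]) (F [(8,256),(3,256),(5,150),(9,149)])))) (P0 2 1 (F [(5,256),(9,48)]) (P1 4 1 (F [(5,160),(8,246),(3,256),(9,145)]) (P2 4 1 (F [(5,158),(8,252),(3,256),(9,150)]) (F [(8,256),(5,146),(3,236),(9,151)]))))))))))) (U2 2 1 (P0 1 1 (F [(5,256),(3,112),(9,31)]) (P1 1 1 (F [(3,201),(5,256),(9,23)]) (P2 2 1 (F [(3,256),(5,168),(8,207),(9,121)]) (U1 1 1 (F [(8,247),(3,256),(5,139),(9,133)]) (P3 1 1 (F [(3,256),(9,12),(5,13)])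 (P0 2 1 (F [(5,160),(8,256),(3,251),(9,153)]) (F [(3,256),(9,147),(8,249),(5,148)]))))))) (F [(9,256),(3,16),(5,84)]))))) (U1 2 1 (U2 1 1 (F [(8,256),(3,250),(5,129),(9,124)]) (P0 1 2 (F [(5,189),(8,2),(3,256)]) (U0 2 1 (F [(3,16384),(8,15925),(5,9340),(9,8852)]) (F [(9,152),(3,256),(5,150),(8,248)])))) (U0 1 2 (P0 1 2 (F [(5,256),(8,14),(3,170)]) (P1 1 1 (F [(5,243),(8,9),(3,256)]) (P2 1 1 (F [(5,256),(8,14),(3,215)]) (U1 4 1 (U2 1 1 (F [(8,256),(3,168)]) (P0 2 1 (F [(8,19),(5,256),(3,172)]) (U0 2 1 (F [(8,255),(5,110),(3,256)]) (P5 1 1 (P2 2 1 (F [(8,32),(5,256)]) (F [(8,16188),(5,9464),(3,16384),(9,9314)])) (F [(8,237),(3,256),(5,139),(9,133)]))))) (U0 1 4 (F [(8,249),(5,115),(3,256)]) (P0 2 1 (F [(5,256),(3,151)]) (U2 2 1 (F [(8,249),(5,115),(3,256)]) (P5 1 1 (P2 2 1 (F [(5,256),(9,48)]) (P1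 4 1 (F [(8,245),(5,161),(3,256),(9,144)]) (F [(8,256),(5,143),(3,249),(9,145)]))) (F [(8,219),(5,127),(3,256),(9,112)]))))))))) (P0 1 2 (F [(5,256),(3,134),(9,30)]) (U2 2 1 (P1 1 1 (F [(5,207),(3,256),(8,41)]) (P2 1 1 (F [(5,256),(3,201),(9,23)]) (U1 1 1 (F [(8,256),(3,248),(5,135),(9,138)]) (P0 2 1 (F [(8,223),(5,165),(3,256),(9,114)]) (P5 1 1 (P2 2 1 (F [(8,256),(5,158),(3,256),(9,149)]) (F [(8,253),(3,256),(5,149),(9,148)])) (F [(3,256),(8,246),(9,143),(5,145)])))))) (P1 1 1 (F [(9,16),(3,250),(5,256)]) (P2 1 1 (F [(9,66),(5,256),(3,192)]) (U0 2 1 (P0 2 1 (F [(9,138),(3,256),(5,161),(8,237)]) (F [(9,9973),(3,16384),(5,9763),(8,16179)])) (F [(9,149),(3,252),(5,141),(8,256)]))))))))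

def c142 : Cell := ⟨⟨3,5,0⟩, ⟨1,3,0⟩, ⟨2,5,1⟩, ⟨15,9,23,17⟩, ⟨14,10,23,17⟩, ⟨29,19,47,33⟩, ⟨14,9,24,17⟩⟩

def t142 : Tr :=
  P0 1 1 (P4 1 1 (F [(8,256),(5,4),(9,150)]) (U1 2 1 (U2 1 1 (F [(8,256),(3,18),(9,99)]) (P3 2 1 (F [(8,16384),(5,4116),(3,7481),(9,9060)]) (F [(5,174),(8,256),(3,249),(9,144)]))) (U0 1 2 (F [(8,256),(9,107)]) (P3 2 1 (U2 2 1 (F [(8,256),(3,11),(9,107)]) (F [(5,104),(8,256),(9,154),(3,152)])) (F [(5,256),(9,46)]))))) (F [(8,256),(9,151),(3,1)])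

def c143 : Cell := ⟨⟨1,1,0⟩, ⟨3,5,0⟩, ⟨2,5,1⟩, ⟨15,9,23,17⟩, ⟨14,10,23,17⟩, ⟨7,5,12,8⟩, ⟨14,9,24,17⟩⟩

def t143 : Tr :=
  P1 1 2 (U2 4 1 (P3 1 2 (F [(9,172),(3,184),(8,256)]) (P4 1 1 (F [(9,160),(3,245),(5,135),(8,256)]) (F [(3,256),(9,101),(5,140),(8,170)]))) (F [(9,153),(3,256),(5,231)])) (U2 4 1 (P0 1 1 (P4 1 1 (F [(9,151),(8,256),(5,4)]) (U1 1 1 (F [(8,256),(5,120),(3,242),(9,133)]) (P3 2 1 (F [(9,151),(3,216),(8,256),(5,120)]) (F [(5,150),(9,145),(8,256),(3,236)])))) (F [(8,256),(9,165),(3,64)])) (F [(9,256),(5,194),(8,76)]))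

theorem g11 : ∀ c ∈ [c132, c133, c134, c135, c136, c137, c138, c139, c140, c141, c142, c143], Done D c := by
  intro c hc
  simp only [List.mem_cons, List.not_mem_nil, or_false] at hc
  rcases hc with rfl | rfl | rfl | rfl | rfl | rfl | rfl | rfl | rfl | rfl | rfl | rfl
  · exact done_of_chk (t := t132) (by decide +kernel)
  · exact done_of_chk (t := t133) (by decide +kernel)
  · exact done_of_chk (t := t134) (by decide +kernel)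
  · exact done_of_chk (t := t135) (by decide +kernel)
  · exact done_of_chk (t := t136) (by decide +kernel)
  · exact done_of_chk (t := t137) (by decide +kernel)
  · exact done_of_chk (t := t138) (by decide +kernel)
  · exact done_of_chk (t := t139) (by decide +kernel)
  · exact done_of_chk (t := t140) (by decide +kernel)
  · exact done_of_chk (t := t141) (by decide +kernel)
  · exact done_of_chk (t := t142) (by decide +kernel)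
  · exact done_of_chk (t := t143) (by decide +kernel)

end Pool.Agent.W2helper59.NW.I0
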