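import Pool.Agent.W2helper59.NW.D_I0

set_option autoImplicit false
set_option maxRecDepth 1000000

namespace Pool.Agent.W2helper59.NW.I0

open Tr

def c144 : Cell := ⟨⟨1,1,0⟩, ⟨1,3,0⟩, ⟨2,5,1⟩, ⟨15,9,23,17⟩, ⟨7,5,11,9⟩, ⟨14,10,23,17⟩, ⟨7,4,12,9⟩⟩

def t144 : Tr :=
  F [(5,256),(8,138),(9,117)]

def c145 : Cell := ⟨⟨2,5,1⟩, ⟨1,3,0⟩, ⟨0,3,1⟩, ⟨2,1,3,2⟩, ⟨15,9,23,17⟩, ⟨7,5,12,8⟩, ⟨7,4,12,9⟩⟩

def t145 : Tr :=
  P1 4 1 (P5 1 1 (F [(8,256),(3,8),(9,131)]) (U1 1 1 (F [(8,256),(3,171)]) (P3 1 2 (P1 1 2 (P5 2 1 (U0 1 2 (P2 1 2 (U1 2 1 (F [(8,256),(5,109),(3,248)]) (P4 1 2 (P5 1 2 (U0 1 4 (F [(5,218),(8,36),(3,256)]) (P2 1 4 (F [(5,256),(8,100)]) (F [(8,256),(5,158),(3,255),(9,153)]))) (F [(5,152),(8,103),(3,256)])) (F [(8,103),(5,152),(3,256)]))) (F [(3,256),(8,58),(5,155)])) (F [(8,256),(3,227),(5,81)])) (F [(3,256),(8,108),(5,135)]))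 (P2 1 1 (U0 1 2 (P5 1 2 (U1 2 1 (F [(8,256),(3,127)]) (P4 1 2 (P2 1 2 (U0 1 4 (F [(5,169),(8,253),(3,256),(9,157)]) (P5 1 4 (F [(8,256)]) (F [(8,256),(5,144),(3,238),(9,155)]))) (U0 1 4 (U1 4 1 (F [(8,256),(3,133),(9,119)]) (P0 2 1 (F [(8,256),(5,156),(3,247),(9,157)]) (F [(8,256),(5,146),(9,165),(3,234)]))) (F [(8,256),(3,133),(9,119)]))) (P0 1 1 (F [(8,128),(5,151),(3,256)]) (U0 1 4 (U1 4 1 (F [(8,250),(3,256)]) (P2 2 1 (F [(8,162),(5,148),(3,256)]) (P1 2 1 (F [(8,256),(5,150),(3,242),(9,156)]) (F [(8,256),(9,165)])))) (F [(8,250),(3,256)]))))) (U1 2 1 (F [(8,237),(3,256),(9,78)]) (P1 1 1 (F [(3,256),(8,52),(5,142)]) (P0 1 1 (F [(8,113),(3,256),(5,135)]) (U0 1 4 (U1 4 1 (F [(8,228),(3,256),(9,72)]) (P5 1 1 (P2 2 1 (F [(8,256),(3,250),(5,151),(9,154)]) (F [(8,256),(3,126),(9,165)])) (F [(8,256),(3,183),(9,124)])))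 (F [(8,224),(3,256),(9,110)])))))) (F [(8,256),(3,132)])) (F [(8,256),(3,140),(9,117)]))) (F [(8,256),(3,16),(9,111)])))) (F [(8,256),(3,66),(9,149)])

def c146 : Cell := ⟨⟨1,1,0⟩, ⟨1,3,0⟩, ⟨2,5,1⟩, ⟨15,9,24,16⟩, ⟨15,9,23,17⟩, ⟨14,9,24,17⟩, ⟨7,4,12,9⟩⟩

def t146 : Tr :=
  F [(9,164),(8,256)]

def c147 : Cell := ⟨⟨3,5,0⟩, ⟨4,11,1⟩, ⟨2,5,1⟩, ⟨29,19,48,32⟩, ⟨29,19,47,33⟩, ⟨28,19,48,33⟩, ⟨14,9,24,17⟩⟩

def t147 : Tr :=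
  P2 1 2 (U2 1 1 (P4 1 2 (P5 1 2 (F [(9,160),(3,226),(8,256),(5,133)]) (F [(3,256),(9,143),(8,254),(5,132)])) (F [(3,208),(9,97),(8,256)])) (P4 1 2 (U0 2 1 (P5 1 2 (F [(9,162),(3,224),(5,131),(8,256)]) (F [(9,632524),(3,1029364),(5,575970),(8,1048576)])) (F [(9,256)])) (F [(9,143),(3,171),(8,256)]))) (F [(3,256),(8,48)])

def c148 : Cell := ⟨⟨5,11,0⟩, ⟨1,3,0⟩, ⟨4,11,1⟩, ⟨57,37,96,66⟩, ⟨57,37,95,67⟩, ⟨28,19,48,33⟩, ⟨14,9,24,17⟩⟩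

def t148 : Tr :=
  P5 1 2 (U1 4 1 (P2 1 4 (F [(5,256),(8,31)]) (U2 1 1 (P0 1 1 (F [(5,147),(8,256),(9,160),(3,224)]) (F [(9,162),(5,158),(3,256),(8,256)])) (U0 2 1 (P0 1 1 (F [(5,256),(9,117)]) (F [(9,160),(5,159),(3,256),(8,253)])) (F [(9,244),(5,256)])))) (F [(5,256),(9,22),(3,232)])) (U1 4 1 (U2 1 1 (P3 1 2 (F [(3,256),(5,155)]) (P0 1 1 (F [(5,161),(8,256),(3,248),(9,161)]) (F [(3,256),(9,150),(5,155),(8,243)]))) (P3 1 2 (F [(3,256),(5,155)]) (U0 2 1 (P0 1 1 (F [(5,256),(9,117)]) (F [(9,152),(5,159),(3,256),(8,243)])) (F [(9,244),(5,256)])))) (F [(5,256),(9,22),(3,232)]))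

def c149 : Cell := ⟨⟨5,11,0⟩, ⟨1,3,0⟩, ⟨4,11,1⟩, ⟨57,37,96,66⟩, ⟨57,38,95,66⟩, ⟨28,19,48,33⟩, ⟨57,37,95,67⟩⟩

def t149 : Tr :=
  U1 4 1 (U2 1 1 (P5 2 1 (P4 1 1 (P2 1 1 (F [(8,256),(5,157),(3,246),(9,159)]) (F [(3,16384),(8,16278),(9,9694),(5,9318)])) (F [(3,256),(8,119)])) (F [(3,256),(5,123)])) (P5 2 1 (U0 2 1 (P4 1 1 (P2 1 1 (F [(5,256),(9,66),(3,168)]) (F [(9,9283),(3,16384),(5,10353),(8,14852)])) (F [(3,256),(5,164)])) (F [(9,256),(5,71)])) (F [(3,256),(5,123)]))) (F [(9,22),(5,256),(3,232)])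

def c150 : Cell := ⟨⟨5,11,0⟩, ⟨8,23,1⟩, ⟨4,11,1⟩, ⟨57,37,96,66⟩, ⟨29,19,47,33⟩, ⟨57,38,95,66⟩, ⟨57,37,95,67⟩⟩

def t150 : Tr :=
  P0 1 2 (U2 1 1 (F [(8,256),(3,248),(5,146),(9,151)]) (P4 2 1 (U0 2 1 (P5 1 1 (P2 1 2 (F [(8,256),(5,152),(3,238),(9,157)]) (U1 1 1 (F [(8,16384),(3,15031),(5,9075),(9,10097)]) (U0 1 2 (F [(8,256),(3,69)]) (F [(8,16384),(5,9282),(3,15453),(9,9968)])))) (U1 1 1 (P3 1 2 (F [(3,256),(9,1),(5,148)]) (F [(8,16384),(3,15650),(5,9390),(9,9947)])) (P3 1 2 (F [(8,5),(3,256),(5,147)]) (U0 1 2 (F [(8,256),(3,69)]) (P4 1 1 (F [(8,16384),(5,9705),(3,16230),(9,9875)]) (F [(8,256),(3,155),(9,45)])))))) (P5 1 1 (F [(9,256),(5,15),(8,231)]) (U2 2 1 (P3 1 2 (F [(9,48),(3,256),(5,162)]) (F [(9,10007),(3,15731),(8,16384),(5,9410)])) (P3 1 2 (F [(9,47),(3,256),(5,162)]) (U0 4 1 (F [(9,10015),(3,15715),(5,9391),(8,16384)])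 (F [(9,256)])))))) (U0 2 1 (F [(8,239),(3,256)]) (P3 2 1 (U2 2 1 (F [(3,206),(9,98),(8,256)]) (P5 2 1 (F [(9,135),(3,176),(8,256)]) (F [(3,256)]))) (F [(3,134),(9,139),(8,256)]))))) (U2 1 1 (P5 1 1 (P2 1 1 (F [(8,256),(5,123),(3,211),(9,152)]) (F [(3,144),(8,256),(9,118)])) (F [(3,256),(8,119)])) (U0 2 1 (P5 1 1 (P2 1 1 (P4 1 2 (F [(5,161),(8,256),(9,162),(3,237)]) (U1 1 1 (F [(9,158),(3,248),(8,256),(5,149)]) (P0 1 1 (F [(8,16384),(5,9427),(3,15706),(9,9965)]) (F [(8,256),(5,37),(9,156)])))) (P0 2 1 (U1 1 1 (F [(9,158),(3,250),(8,256),(5,150)]) (P4 1 1 (U0 1 2 (F [(8,255),(5,157),(3,256),(9,156)]) (F [(9,154),(3,256),(5,158),(8,247)])) (U0 1 2 (F [(8,254),(3,256)]) (F [(3,256),(9,151),(8,246),(5,155)])))) (P1 2 1 (U1 1 1 (F [(9,150),(3,256),(5,160),(8,239)]) (F [(3,256),(8,229),(5,164),(9,144)])) (F [(9,153),(3,256),(5,159),(8,244)]))))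 (F [(3,256),(8,5),(5,147)])) (F [(9,256),(5,71)])))

def c151 : Cell := ⟨⟨9,23,0⟩, ⟨1,3,0⟩, ⟨8,23,1⟩, ⟨115,75,190,132⟩, ⟨29,19,47,33⟩, ⟨57,38,95,66⟩, ⟨57,37,95,67⟩⟩

def t151 : Tr :=
  P4 2 1 (P5 1 1 (U1 8 1 (P2 1 2 (F [(8,33),(5,256)]) (U2 1 1 (F [(8,256)]) (U0 2 1 (F [(8,256)]) (P3 1 1 (P1 1 1 (F [(5,256),(8,33)]) (P0 2 1 (F [(5,256),(8,33)]) (P2 2 1 (F [(5,256),(8,34)]) (U2 2 1 (F [(8,256),(3,69)]) (U0 4 1 (F [(8,256),(3,68)]) (F [(5,9932),(8,16384),(9,10082),(3,16163)])))))) (P0 1 1 (F [(8,34),(5,256)]) (P1 2 1 (F [(5,256),(8,33)]) (F [(8,1048576),(5,561085),(3,928985),(9,646168)]))))))) (P2 1 2 (F [(5,256)]) (U0 1 8 (F [(8,256)]) (U2 2 1 (F [(8,256)]) (P3 1 1 (F [(5,10744),(8,14674),(3,16384),(9,9207)]) (P0 1 1 (F [(5,256)]) (P1 2 1 (F [(5,256)]) (F [(5,9668),(8,16384),(3,15609),(9,10143)])))))))) (U1 8 1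 (U2 1 1 (F [(8,255),(5,112),(3,256)]) (P3 1 2 (F [(5,155),(3,256)]) (U0 2 1 (F [(8,256)]) (P4 1 1 (P2 1 1 (F [(5,256),(8,33)]) (P0 2 1 (F [(5,256),(8,33)]) (U2 2 1 (F [(8,256),(3,69)]) (P1 2 1 (F [(5,256),(8,34)]) (U0 4 1 (F [(8,256),(3,68)]) (F [(5,10104),(8,16370),(3,16384),(9,10071)])))))) (P0 1 1 (F [(8,34),(5,256)]) (P2 2 1 (F [(8,33),(5,256)]) (U2 2 1 (F [(8,256),(3,193)]) (P1 2 1 (F [(5,256),(8,34)]) (U0 4 1 (F [(8,256),(3,193)]) (P0 2 1 (F [(8,34),(5,256)]) (F [(5,10022),(8,16384),(3,16329),(9,10056)]))))))))))) (U0 1 8 (F [(5,256),(8,76)]) (P3 1 2 (F [(5,156),(3,256)]) (U2 2 1 (F [(8,256)]) (P4 1 1 (F [(5,212),(3,256),(9,11)]) (P0 1 1 (F [(5,256)]) (P2 2 1 (F [(5,256)]) (U0 2 1 (F [(5,256),(8,34)]) (P1 2 1 (F [(5,256)]) (U2 4 1 (F [(8,256),(3,32)]) (F [(5,160),(8,256),(3,254),(9,159)])))))))))))) (P3 2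 1 (U1 8 1 (U2 1 1 (F [(8,239),(3,256)]) (P5 2 1 (U0 2 1 (F [(8,256)]) (P0 1 1 (F [(8,172),(5,125),(3,256)]) (P2 1 1 (F [(8,256),(5,110),(3,254)]) (U2 2 1 (F [(8,256),(3,243)]) (P1 2 1 (F [(8,115),(5,226),(3,256)]) (U0 4 1 (F [(8,256),(3,244)]) (P2 2 1 (F [(8,21),(5,256),(3,161)]) (P0 2 1 (F [(8,16287),(5,10065),(3,16384),(9,9924)]) (F [(8,16368),(5,9992),(3,16384),(9,10017)]))))))))) (F [(8,14),(5,114),(3,256)]))) (U0 1 8 (F [(8,76),(5,256)]) (P5 2 1 (U2 2 1 (F [(8,256)]) (P0 1 1 (F [(8,172),(5,125),(3,256)]) (P2 1 1 (F [(8,256),(5,110),(3,254)]) (U0 2 1 (F [(8,34),(5,256)]) (P1 2 1 (F [(5,226),(8,115),(3,256)]) (U2 4 1 (F [(8,256),(3,32)]) (P2 2 1 (F [(5,256),(3,155)]) (P0 2 1 (F [(5,256),(3,200),(9,26)]) (F [(5,158),(8,255),(3,256),(9,157)]))))))))) (F [(5,155),(3,256)])))) (U1 8 1 (P0 1 4 (F [(8,256),(3,166)])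 (U2 1 1 (F [(8,256)]) (U0 2 1 (F [(8,256)]) (P1 1 1 (F [(8,256),(3,215)]) (P2 1 1 (F [(8,256),(3,166)]) (P0 2 1 (F [(8,256),(3,166)]) (U2 2 1 (F [(8,246),(3,256)]) (U0 4 1 (F [(8,246),(3,256)]) (P2 2 1 (F [(8,256),(5,228),(3,209)]) (P1 2 1 (P5 2 1 (F [(8,16384),(5,9822),(3,16235),(9,9998)]) (F [(8,117),(3,256),(5,132)])) (F [(8,16384),(3,16132),(5,9700),(9,10018)]))))))))))) (P0 1 4 (F [(8,256),(3,166)]) (U0 1 8 (F [(8,256)]) (U2 2 1 (F [(8,256)]) (P1 1 1 (F [(8,256),(3,215)]) (P2 1 1 (F [(8,256),(3,166)]) (P0 2 1 (F [(8,256),(3,166)]) (U0 2 1 (F [(8,34),(5,256)]) (U2 4 1 (F [(8,256),(3,32)]) (P2 2 1 (F [(8,256),(5,228),(3,209)]) (P1 2 1 (P5 2 1 (F [(8,16384),(5,9891),(3,16286),(9,10014)]) (F [(8,117),(5,132),(3,256)])) (F [(8,16384),(5,9791),(3,16205),(9,10020)])))))))))))))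

def c152 : Cell := ⟨⟨5,11,0⟩, ⟨9,23,0⟩, ⟨8,23,1⟩, ⟨115,75,190,132⟩, ⟨115,75,189,133⟩, ⟨57,38,95,66⟩, ⟨57,37,95,67⟩⟩

def t152 : Tr :=
  U2 2 1 (P5 1 1 (P2 1 2 (F [(5,256)]) (U1 1 1 (U2 1 2 (F [(8,256),(3,32)]) (P3 1 1 (P1 1 1 (F [(8,255),(5,160),(3,256),(9,156)]) (F [(8,256),(5,140),(3,235),(9,155)])) (F [(8,256),(3,77),(9,134)]))) (P3 1 1 (P1 1 1 (F [(5,256),(9,62),(3,189)]) (U0 1 2 (P0 2 1 (F [(5,256),(9,5)]) (P2 2 1 (F [(5,256),(9,50)]) (U1 2 1 (U2 1 2 (F [(8,256),(3,69)]) (P1 2 1 (F [(5,154),(8,256),(3,250),(9,158)]) (F [(8,16384),(5,9410),(3,15641),(9,10015)]))) (P1 2 1 (F [(5,256),(9,63),(3,190)]) (F [(9,10099),(5,9521),(8,16384),(3,15661)]))))) (P0 2 1 (F [(5,154),(8,256),(9,158),(3,247)]) (F [(8,16384),(5,9547),(3,15800),(9,10037)])))) (F [(8,256),(3,52),(9,160)])))) (U1 1 1 (P3 1 2 (F [(8,13),(3,256),(5,146)])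 (U2 1 2 (F [(8,256),(3,32)]) (P4 1 1 (P2 1 1 (F [(8,247),(5,160),(3,256),(9,150)]) (F [(8,256),(5,146),(3,246),(9,153)])) (F [(8,256),(3,155),(9,45)])))) (P3 1 2 (F [(3,256),(5,153)]) (P4 1 1 (P2 1 1 (F [(5,256),(3,190),(9,62)]) (U0 1 2 (P0 2 1 (F [(5,256),(9,5)]) (U1 2 1 (P1 2 1 (F [(5,256),(3,199),(9,26)]) (U2 1 2 (F [(8,256),(3,69)]) (P2 2 1 (F [(5,157),(8,256),(3,256),(9,157)]) (F [(8,16384),(3,16031),(5,9616),(9,9944)])))) (P1 2 1 (F [(5,256),(3,191),(9,62)]) (P2 2 1 (F [(5,256),(9,63),(3,191)]) (U0 1 4 (P0 4 1 (F [(5,256),(8,64),(9,89)]) (F [(9,9951),(3,16384),(5,9986),(8,16202)])) (P0 4 1 (F [(5,9941),(8,16384),(9,10030),(3,16271)]) (F [(9,9940),(3,16384),(8,16194),(5,9952)]))))))) (P0 2 1 (F [(8,16384),(5,10002),(3,16203),(9,9962)]) (U2 1 1 (P1 2 1 (F [(8,16193),(5,10169),(3,16384),(9,9904)]) (F [(8,256),(3,254),(5,153),(9,156)]))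 (P1 2 1 (F [(3,256),(8,256),(5,157),(9,156)]) (F [(3,252),(9,157),(8,256),(5,152)])))))) (P0 1 1 (F [(8,256),(5,129),(3,238)]) (U0 1 2 (P2 2 1 (F [(5,256)]) (U1 2 1 (P1 2 1 (F [(8,256),(5,154),(3,254),(9,154)]) (F [(8,16384),(5,9550),(3,16014),(9,9897)])) (P1 2 1 (P3 1 1 (F [(5,256),(3,191),(9,62)]) (F [(5,9969),(8,16384),(3,16230),(9,10006)])) (P0 2 1 (U0 1 4 (F [(5,256),(8,75),(9,95)]) (U2 1 1 (F [(8,16384),(5,10009),(3,16241),(9,10018)]) (P3 2 1 (F [(8,16384),(5,9881),(9,10021),(3,16248)]) (F [(8,256),(9,119)])))) (U0 1 4 (P2 4 1 (F [(5,256),(8,75),(9,95)]) (U1 4 1 (P1 4 1 (F [(8,256),(5,156),(3,255),(9,157)]) (F [(8,16384),(3,16163),(9,10029),(5,9758)])) (P1 4 1 (F [(9,159),(5,159),(3,255),(8,256)]) (F [(9,10071),(3,16177),(5,9832),(8,16384)])))) (P2 4 1 (U2 1 1 (F [(8,16384),(5,9933),(3,16271),(9,10026)])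 (F [(9,10048),(8,16384),(5,9888),(3,16238)])) (F [(3,16299),(9,10010),(8,16384),(5,9855)]))))))) (P2 2 1 (F [(8,256),(5,17),(3,60)]) (U2 1 1 (P1 2 1 (F [(8,256),(5,154),(3,254),(9,154)]) (F [(8,256),(5,144),(3,246),(9,155)])) (P1 2 1 (F [(8,256),(3,254),(5,154),(9,154)]) (F [(8,256),(3,129),(9,163)])))))))))) (P5 1 1 (F [(9,256),(5,38),(8,230)]) (U0 2 1 (P3 1 2 (F [(9,49),(3,256),(5,165)]) (P4 1 1 (P2 1 1 (F [(5,256),(9,64),(3,190)]) (U1 2 1 (P0 2 1 (F [(9,157),(5,158),(3,255),(8,256)]) (F [(9,158),(3,256),(5,158),(8,250)])) (F [(9,187),(5,256),(3,162)]))) (P0 1 1 (F [(5,156),(8,256),(9,156),(3,249)]) (U1 2 1 (P2 2 1 (F [(9,9997),(5,9955),(8,16384),(3,15920)]) (U2 1 1 (P1 2 1 (P3 1 1 (F [(9,157),(3,256),(5,157),(8,256)]) (F [(9,156),(3,252),(8,256),(5,152)])) (F [(9,224),(3,115),(8,256)])) (P1 2 1 (U0 2 1 (P3 1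 1 (F [(9,64),(3,191),(5,256)]) (F [(9,10019),(5,9785),(3,16114),(8,16384)])) (F [(9,256)])) (F [(9,224),(3,115),(8,256)])))) (P2 2 1 (F [(5,256),(9,95),(8,75)]) (U0 1 2 (P1 2 1 (P3 1 1 (F [(5,256),(9,64),(3,191)]) (F [(5,9931),(9,10083),(8,16384),(3,16153)])) (F [(9,256),(5,20),(8,159)])) (P1 2 1 (U2 2 1 (P3 1 1 (F [(9,64),(5,256),(3,191)]) (F [(9,10048),(5,9811),(3,16108),(8,16384)])) (F [(9,256)])) (F [(9,224),(3,115),(8,256)])))))))) (P3 1 2 (F [(9,47),(3,256),(5,162)]) (U2 4 1 (P4 1 1 (F [(9,158),(3,250),(5,151),(8,256)]) (P0 1 1 (F [(9,156),(5,153),(8,256),(3,250)]) (F [(9,158),(3,250),(5,151),(8,256)]))) (F [(9,256),(5,34)])))))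

def c153 : Cell := ⟨⟨18,45,1⟩, ⟨9,23,0⟩, ⟨8,23,1⟩, ⟨115,75,190,132⟩, ⟨29,19,47,33⟩, ⟨57,38,95,66⟩, ⟨115,75,189,133⟩⟩

def t153 : Tr :=
  P3 2 1 (U1 1 1 (F [(8,239),(3,256)]) (P5 2 1 (P0 1 1 (F [(8,172),(5,125),(3,256)]) (P2 1 1 (F [(8,256),(5,110),(3,254)]) (U0 1 2 (U1 2 1 (F [(8,230),(5,16),(3,256)]) (P1 2 1 (P3 1 1 (P5 1 1 (U0 1 4 (F [(5,256),(3,124),(9,35)]) (P4 1 2 (F [(8,16384),(5,9969),(3,16230),(9,10006)]) (F [(8,108),(5,149),(3,256)]))) (F [(5,252),(3,256)])) (P4 1 1 (U0 1 4 (F [(5,256),(3,10)]) (P5 1 2 (U2 1 1 (F [(8,28),(5,256),(3,70)]) (P2 1 2 (F [(8,256)]) (F [(8,254),(5,157),(3,256),(9,152)]))) (F [(8,117),(5,146),(3,256)]))) (F [(8,118),(3,256),(5,148)]))) (P2 2 1 (P4 1 1 (U0 1 4 (F [(8,75),(5,256),(9,89)]) (U2 1 1 (F [(8,16384),(5,10177),(3,16174),(9,10001)]) (P5 1 2 (F [(8,256),(9,112)]) (P3 1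 1 (F [(8,16384),(5,9874),(3,16267),(9,10010)]) (F [(8,256),(5,17),(3,60)]))))) (U0 1 4 (P0 1 2 (F [(8,102),(3,256),(5,147)]) (U1 4 1 (F [(8,16384),(5,9916),(3,16273),(9,9990)]) (P5 1 1 (F [(8,256),(5,147),(3,244),(9,147)]) (P1 1 1 (F [(5,156),(8,247),(3,256),(9,151)]) (F [(5,9875),(8,16384),(3,16226),(9,9951)]))))) (P0 1 2 (F [(8,117),(3,256),(5,132)]) (U2 1 1 (F [(8,16384),(5,9916),(3,16272),(9,9988)]) (P5 1 1 (F [(8,256),(3,72),(5,2)]) (F [(3,16294),(8,16384),(9,10018),(5,9870)])))))) (P0 2 1 (U0 1 4 (P4 2 1 (U1 4 1 (U2 1 2 (F [(8,256),(3,253),(5,108)]) (P1 1 1 (F [(8,16384),(3,16287),(5,9921),(9,10008)]) (F [(3,192),(8,256),(9,104)]))) (P1 1 1 (P5 1 1 (F [(5,9921),(8,16384),(9,10027),(3,16298)]) (F [(5,156),(3,256),(9,152),(8,248)])) (F [(3,16302),(9,10027),(8,16384),(5,9910)]))) (F [(3,256),(5,155)])) (F [(3,16320),(8,16384),(9,9996),(5,9794)]))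 (U0 1 4 (U1 4 1 (P1 4 1 (U2 1 2 (F [(8,229),(3,256),(5,17)]) (P3 1 1 (F [(3,255),(8,256),(5,156),(9,157)]) (F [(3,203),(8,256),(9,102)]))) (F [(3,203),(8,256),(9,102)])) (P1 4 1 (P3 1 1 (F [(9,157),(5,156),(3,255),(8,256)]) (F [(9,157),(3,255),(5,155),(8,256)])) (F [(9,10048),(3,16224),(8,16384),(5,9835)]))) (F [(3,16299),(9,10010),(8,16384),(5,9855)])))))) (F [(8,230),(3,256),(5,16)])))) (F [(3,256),(5,123),(9,3)]))) (P0 1 4 (F [(8,256),(3,166)]) (U1 1 1 (F [(8,247),(3,256)]) (P1 1 1 (F [(8,256),(3,215)]) (P2 1 1 (F [(8,256),(3,166)]) (U0 1 2 (P0 2 1 (F [(8,256),(3,166)]) (U1 2 1 (F [(8,256),(3,139),(9,118)]) (P2 2 1 (P5 1 1 (F [(8,256),(3,10),(9,110)]) (U0 1 4 (P1 1 2 (F [(8,132),(3,256),(5,143)]) (F [(8,256),(5,153),(3,253),(9,155)])) (F [(8,256),(3,140),(9,118)]))) (P1 2 1 (U0 1 4 (P5 2 1 (F [(8,16384),(3,16227),(5,9812),(9,9996)])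 (F [(3,256),(8,117),(5,132)])) (F [(3,152),(8,256),(9,138)])) (F [(3,129),(8,256),(9,163)]))))) (F [(8,256),(3,139),(9,118)]))))))

def c154 : Cell := ⟨⟨19,45,0⟩, ⟨9,23,0⟩, ⟨18,45,1⟩, ⟨230,151,379,264⟩, ⟨115,76,189,132⟩, ⟨229,151,379,265⟩, ⟨115,75,189,133⟩⟩

def t154 : Tr :=
  P4 1 1 (U1 2 1 (P2 1 2 (U2 1 1 (F [(8,256),(5,156),(3,253),(9,155)]) (F [(5,256),(8,210),(9,240)])) (U2 1 1 (F [(8,16384),(3,16336),(5,9725),(9,9770)]) (U0 2 1 (P1 1 1 (P3 1 1 (P5 2 1 (U1 1 1 (F [(9,156),(3,253),(5,153),(8,256)]) (P2 1 1 (F [(8,256),(5,34),(9,153)]) (F [(5,10006),(8,16298),(3,16384),(9,9894)]))) (F [(9,61),(3,193),(5,256)])) (P0 1 2 (F [(8,256),(5,155),(3,253),(9,155)]) (U1 1 1 (F [(9,156),(3,253),(8,256),(5,153)]) (P2 1 1 (F [(8,256),(5,152),(3,247),(9,155)]) (F [(3,16384),(8,16315),(5,9968),(9,9888)]))))) (P0 1 1 (P3 2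 1 (F [(3,242),(9,151),(8,256),(5,127)]) (F [(8,256),(5,151),(3,250),(9,155)])) (F [(3,178),(9,135),(8,256)]))) (F [(9,256),(5,16),(8,229)])))) (P2 1 2 (F [(5,256),(8,52),(9,80)]) (U0 1 2 (P1 1 1 (F [(5,256),(8,20),(3,170)]) (P0 1 1 (U1 4 1 (P3 2 1 (U2 1 1 (F [(8,116),(5,226),(3,256)]) (P5 1 1 (F [(5,6),(8,256),(9,155)]) (F [(5,10020),(8,16210),(3,16384),(9,9820)]))) (F [(8,256),(5,6),(9,155)])) (F [(5,256),(9,49)])) (U1 4 1 (P2 2 1 (U2 1 1 (F [(8,10972),(5,7902),(3,16384)]) (P5 1 1 (F [(8,256),(9,155)]) (U0 2 1 (P3 1 1 (P1 1 2 (F [(5,256),(3,232)]) (F [(5,9960),(8,16384),(3,16374),(9,9937)])) (F [(8,256),(5,129),(3,245)])) (P3 1 1 (F [(9,10003),(3,16379),(5,9972),(8,16384)]) (U2 2 1 (F [(5,636395),(8,1048576),(3,1047830),(9,636271)]) (P4 2 1 (F [(9,154),(5,256),(8,66)]) (U0 4 1 (P1 1 1 (F [(9,9824),(5,9984),(3,16384),(8,16212)])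 (F [(9,9952),(5,9941),(3,16282),(8,16384)])) (F [(9,256),(5,15),(8,229)])))))))) (U2 1 1 (F [(3,256),(8,158)]) (U0 2 1 (P1 2 1 (P3 1 1 (P5 2 1 (U1 1 1 (P2 1 1 (F [(3,16378),(8,16384),(9,9954),(5,9957)]) (F [(3,256),(9,10)])) (P2 1 1 (F [(8,16384),(3,16380),(5,9945),(9,9941)]) (F [(3,256),(5,149),(8,2)]))) (F [(3,256),(5,156)])) (P0 1 2 (F [(8,256),(3,253),(5,108)]) (U1 1 1 (P2 1 1 (F [(3,256),(8,256),(9,155),(5,155)]) (F [(3,256)])) (P2 1 1 (F [(8,256),(3,256),(5,155),(9,155)]) (F [(3,256),(8,14),(5,113)]))))) (F [(3,191),(8,256),(9,119)])) (P1 2 1 (P3 1 1 (P5 2 1 (U2 2 1 (P2 1 1 (F [(9,9963),(3,16376),(5,9965),(8,16384)]) (F [(3,256),(9,10)])) (F [(9,256),(5,228),(8,45)])) (F [(9,10),(3,256)])) (P0 1 2 (U2 2 1 (F [(3,16384),(9,9932),(8,16381),(5,9923)]) (U0 4 1 (P5 1 1 (P4 2 1 (F [(9,9940),(3,16351),(5,9887),(8,16384)])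 (F [(9,9908),(3,16384),(5,9976),(8,16330)])) (F [(9,153),(3,256),(5,156),(8,253)])) (F [(9,256),(5,15),(8,229)]))) (U2 2 1 (P2 1 1 (F [(3,16380),(9,9950),(5,9950),(8,16384)]) (F [(3,256)])) (P2 1 1 (F [(9,9961),(3,16380),(5,9953),(8,16384)]) (F [(3,256)]))))) (P0 2 1 (P3 2 1 (F [(9,133),(3,189),(8,256)]) (U2 2 1 (F [(3,193),(9,103),(8,256)]) (U0 4 1 (P0 1 2 (P4 2 1 (F [(9,134),(3,180),(8,256)]) (F [(3,16384),(9,9908),(8,16332),(5,9972)])) (F [(9,133),(3,189),(8,256)])) (F [(9,256),(5,14),(8,242)])))) (F [(9,226),(3,115),(8,256)])))))) (P2 2 1 (F [(5,256),(8,41),(9,74)]) (U0 1 4 (F [(5,256),(8,14),(3,245)]) (U2 2 1 (P1 2 1 (P3 1 1 (P5 2 1 (U1 1 1 (P2 1 1 (F [(5,9934),(8,16375),(3,16384),(9,9913)]) (F [(3,256),(5,150)])) (P2 1 1 (F [(5,9999),(3,16384),(8,16364),(9,9950)]) (F [(3,256),(5,150)]))) (F [(3,256),(5,157)]))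 (P0 1 2 (F [(8,244),(5,137),(3,256)]) (U1 1 1 (P2 1 1 (F [(8,16379),(5,9905),(3,16384),(9,9896)]) (F [(3,256),(5,119)])) (P2 1 1 (P5 1 1 (U0 1 2 (F [(5,256),(3,125),(9,35)]) (P4 1 2 (F [(5,9995),(8,16372),(3,16384),(9,9958)]) (F [(3,256),(5,156)]))) (F [(5,252),(3,256)])) (F [(3,256),(5,122),(9,3)]))))) (P0 2 1 (P3 2 1 (U1 1 1 (F [(3,205),(8,256),(9,100)]) (P5 1 1 (P2 1 1 (U0 1 2 (F [(5,256),(3,205)]) (P4 1 2 (F [(3,16384),(8,16370),(5,9972),(9,9947)]) (F [(3,256),(5,149),(8,2)]))) (F [(3,256),(5,156)])) (F [(3,256),(9,10)]))) (F [(8,223),(3,256),(5,138)])) (P2 4 1 (U1 1 1 (F [(3,205),(8,256),(9,100)]) (P5 1 1 (P4 1 1 (U0 1 2 (F [(3,217),(5,256),(9,24)]) (P2 1 2 (U2 1 1 (F [(8,1047640),(3,1048576),(5,637992),(9,636478)]) (P5 1 2 (F [(3,16375),(8,16384),(9,9955),(5,9952)]) (F [(3,256),(5,150)]))) (F [(3,256),(8,49)])))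 (F [(3,256),(5,156)])) (F [(3,256),(9,13)]))) (F [(3,256),(9,10)])))) (P1 2 1 (P3 1 1 (F [(9,256),(5,228),(8,45)]) (P0 1 2 (U0 2 1 (P5 1 1 (P4 2 1 (U1 2 1 (P2 1 2 (F [(5,9978),(9,9957),(8,16384),(3,16371)]) (F [(3,210),(5,256),(8,17)])) (F [(5,256),(9,36),(3,110)])) (F [(5,256),(8,20),(3,171)])) (F [(5,256),(3,210),(8,17)])) (U2 4 1 (P5 1 1 (P4 2 1 (F [(9,9954),(3,16384),(5,9981),(8,16372)]) (F [(9,9902),(3,16384),(5,10002),(8,16312)])) (F [(9,32),(3,144),(5,256)])) (F [(9,140),(5,256)]))) (U0 2 1 (P2 1 1 (P5 1 1 (U1 2 1 (P4 1 2 (F [(9,156),(3,256),(5,156),(8,256)]) (F [(3,256),(5,156)])) (F [(9,60),(5,256),(3,107)])) (F [(3,256),(5,252)])) (F [(9,43),(3,256),(5,162)])) (P2 1 1 (F [(9,9966),(3,16380),(5,9955),(8,16384)]) (F [(9,3),(3,256),(5,122)]))))) (P0 2 1 (P3 2 1 (U0 2 1 (P5 1 1 (P2 1 1 (U1 2 1 (P4 1 2 (F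 [(9,9964),(3,16384),(5,9969),(8,16380)]) (F [(3,256),(5,150)])) (F [(9,26),(3,200),(5,256)])) (F [(3,256),(5,156)])) (F [(3,256),(9,10)])) (F [(9,165),(3,186),(8,256)])) (U0 2 1 (P0 1 2 (P4 2 1 (U1 2 1 (P2 1 2 (P5 1 2 (F [(5,9967),(9,9953),(8,16384),(3,16376)]) (F [(9,9916),(3,16384),(5,9984),(8,16331)])) (F [(3,16384),(9,9916),(5,9981),(8,16332)])) (F [(5,256),(9,29),(3,171)])) (F [(5,256),(3,216),(8,16)])) (P2 1 1 (U1 2 1 (P4 1 2 (P5 1 2 (F [(9,9953),(3,16384),(5,9968),(8,16378)]) (F [(3,256),(5,156)])) (F [(3,256),(5,156)])) (F [(9,26),(3,200),(5,256)])) (F [(3,256),(5,156)]))) (U2 4 1 (P0 1 2 (P4 2 1 (P2 1 2 (F [(9,9954),(3,16384),(5,9981),(8,16372)]) (F [(9,9917),(3,16384),(5,9971),(8,16336)])) (F [(3,16384),(9,9901),(5,9984),(8,16315)])) (F [(9,165),(3,186),(8,256)])) (F [(9,239),(5,256)])))) (P2 4 1 (U0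 2 1 (P5 1 1 (P4 1 1 (U1 2 1 (P2 1 2 (F [(9,9964),(3,16384),(5,9969),(8,16380)]) (F [(9,10),(3,256)])) (F [(9,64),(3,191),(5,256)])) (F [(3,256),(5,156)])) (F [(9,256),(3,232)])) (F [(9,226),(3,115),(8,256)])) (F [(9,10),(3,256)])))))))))) (U2 2 1 (P1 1 1 (P3 1 1 (P5 2 1 (U1 1 1 (P2 1 1 (F [(5,46),(8,256),(9,164)]) (F [(5,157),(8,254),(3,256),(9,154)])) (F [(5,256),(9,91),(3,84)])) (F [(5,256),(9,23),(3,217)])) (P0 1 2 (F [(5,256),(9,49)]) (U1 1 1 (P2 1 1 (F [(8,44),(5,256),(9,76)]) (F [(5,156),(8,254),(3,256),(9,154)])) (F [(5,256),(9,98),(3,56)])))) (P0 1 1 (P3 2 1 (U1 1 1 (P5 1 1 (F [(8,256),(5,147),(3,244),(9,154)]) (F [(3,256),(8,255),(5,155),(9,154)])) (P5 1 1 (F [(5,135),(9,155),(8,256),(3,221)]) (F [(9,154),(3,256),(5,156),(8,254)]))) (F [(8,256),(5,139),(3,228),(9,155)])) (P2 2 1 (U1 1 1 (P5 1 1 (F [(8,256),(3,42),(9,144)])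 (F [(3,256),(9,155),(8,256),(5,155)])) (P5 1 1 (F [(9,158),(8,256),(3,53)]) (F [(9,155),(3,256),(5,155),(8,255)]))) (F [(3,256),(9,12)])))) (F [(9,256),(5,39),(8,228)]))))) (U1 2 1 (U2 1 1 (F [(3,256),(8,253),(9,150),(5,152)]) (P3 2 1 (U0 2 1 (P1 1 1 (P5 1 1 (P2 1 2 (F [(8,254),(5,157),(3,256),(9,153)]) (F [(3,256),(5,157)])) (F [(3,196),(9,60),(5,256)])) (P2 1 1 (P5 1 2 (F [(8,256),(3,256),(5,154),(9,153)]) (F [(3,256),(8,3),(5,148)])) (F [(3,256),(8,49)]))) (F [(9,156),(3,254),(5,153),(8,256)])) (U0 2 1 (F [(3,256),(8,230),(5,15)]) (F [(9,9921),(3,16226),(8,16384),(5,9684)])))) (U0 1 2 (P3 2 1 (P1 1 1 (F [(5,256),(8,17),(3,209)]) (P2 1 1 (U1 4 1 (P5 1 2 (U2 1 1 (F [(8,256),(5,108),(3,254)]) (F [(5,10070),(8,16316),(3,16384),(9,9880)])) (F [(5,9987),(3,16384),(8,16217),(9,9826)])) (F [(5,256),(9,49)])) (F [(3,16384),(5,9983),(8,15986),(9,9687)])))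 (P4 2 1 (P2 1 1 (U1 4 1 (U2 1 1 (F [(8,229),(5,18),(3,256)]) (P5 1 2 (U0 2 1 (F [(8,256)]) (F [(8,16239),(5,10070),(3,16384),(9,9833)])) (F [(8,15701),(5,9983),(3,16384),(9,9514)]))) (F [(5,256),(9,49)])) (F [(3,16384),(8,15590),(5,9983),(9,9447)])) (F [(3,256),(8,6),(5,198)]))) (P3 2 1 (U2 2 1 (P1 1 1 (F [(5,256),(3,144),(9,32)]) (P2 1 1 (P5 1 2 (U1 1 1 (F [(8,256),(5,154),(3,256),(9,153)]) (P4 1 2 (F [(5,9921),(8,16384),(3,16283),(9,9927)]) (F [(3,16384),(5,9934),(9,9759),(8,16098)]))) (F [(3,256),(9,154),(5,155),(8,254)])) (F [(3,256),(9,12)]))) (F [(9,10257),(3,16207),(5,10059),(8,16384)])) (U2 2 1 (P4 2 1 (P2 1 1 (U1 1 1 (F [(8,229),(5,17),(3,256)]) (P5 1 2 (P0 1 1 (F [(8,149),(5,144),(3,256)]) (F [(8,16384),(5,9874),(3,16266),(9,9913)])) (F [(3,256),(5,121),(9,3)]))) (F [(3,256),(9,10)])) (F [(3,256),(8,44),(5,153)]))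 (P4 2 1 (P2 1 1 (F [(9,9924),(3,16384),(5,10016),(8,16321)]) (F [(9,10),(3,256)])) (F [(3,256),(5,156)]))))))

def c155 : Cell := ⟨⟨19,45,0⟩, ⟨9,23,0⟩, ⟨18,45,1⟩, ⟨230,150,379,265⟩, ⟨230,151,379,264⟩, ⟨229,151,379,265⟩, ⟨115,75,189,133⟩⟩

def t155 : Tr :=
  U1 2 1 (P4 1 2 (F [(8,256),(5,156),(9,156),(3,249)]) (U2 1 1 (P1 1 1 (F [(3,16352),(8,16384),(9,9820),(5,9778)]) (F [(8,256),(3,89),(9,132)])) (U0 2 1 (P1 1 1 (P3 1 1 (P5 2 1 (U1 1 1 (F [(9,156),(3,251),(5,151),(8,256)]) (P4 1 1 (F [(8,256),(5,6),(9,155)]) (F [(5,156),(9,155),(3,256),(8,255)]))) (F [(9,61),(3,192),(5,256)])) (P0 1 2 (F [(9,135),(3,178),(8,256)]) (U1 1 1 (F [(9,224),(3,116),(8,256)]) (P5 1 1 (F [(8,16384),(5,9620),(9,9953),(3,15991)]) (F [(9,155),(3,255),(5,154),(8,256)]))))) (F [(9,9919),(8,16384),(3,16094),(5,9620)])) (F [(9,256),(8,134)]))))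 (P4 1 2 (F [(5,256),(8,79),(9,97)]) (U0 1 2 (P1 1 1 (P3 1 1 (F [(5,256),(8,20),(3,170)]) (U1 4 1 (P0 1 2 (P4 2 1 (U2 1 1 (P5 1 1 (P2 1 2 (F [(8,256)]) (F [(8,16384),(5,9931),(3,16366),(9,9922)])) (F [(8,255),(3,256),(5,155),(9,154)])) (P5 1 1 (U0 2 1 (P2 1 2 (F [(8,256)]) (F [(5,9959),(8,16384),(3,16345),(9,9958)])) (F [(5,39),(9,256),(8,229)])) (U0 2 1 (P3 1 2 (F [(5,256),(3,193),(9,61)]) (F [(5,9967),(8,16382),(3,16384),(9,9943)])) (F [(9,10587),(3,15870),(5,9809),(8,16384)])))) (U2 1 1 (F [(3,256),(8,120)]) (U0 2 1 (P3 2 1 (P5 2 1 (U1 1 1 (F [(3,16367),(9,9959),(5,9892),(8,16384)]) (P4 1 1 (F [(8,16384),(3,16374),(5,9946),(9,9951)]) (F [(3,256),(5,156)]))) (F [(3,256),(5,156)])) (P0 1 4 (F [(3,180),(9,134),(8,256)]) (U1 1 1 (F [(3,16353),(9,9960),(8,16384),(5,9869)]) (P5 1 1 (F [(3,16383),(8,16384),(5,9925),(9,9946)])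 (F [(3,256),(5,156)]))))) (F [(9,256),(5,22),(8,136)])))) (U2 1 1 (P5 1 1 (P4 1 2 (F [(8,86),(5,256)]) (F [(8,256),(5,156),(3,256),(9,155)])) (F [(5,241),(8,11),(3,256)])) (F [(5,256),(9,80),(3,124)]))) (P0 1 2 (P4 2 1 (F [(5,256),(8,79),(9,97)]) (U0 1 4 (F [(5,256),(3,245),(8,14)]) (U2 2 1 (P3 2 1 (P5 2 1 (U1 1 1 (P4 1 1 (F [(5,9957),(8,16384),(3,16384),(9,9946)]) (F [(3,256),(5,157)])) (P4 1 1 (F [(5,9995),(3,16384),(9,9958),(8,16372)]) (F [(3,256),(9,13),(5,186)]))) (F [(3,256),(5,157)])) (P0 1 4 (P4 4 1 (U1 1 1 (F [(3,205),(8,256),(9,100)]) (P5 1 1 (P2 1 2 (U0 1 2 (F [(3,217),(9,24),(5,256)]) (P4 1 2 (U2 1 1 (F [(3,1048576),(8,1047640),(5,637992),(9,636478)]) (P5 1 2 (P2 1 4 (F [(8,16384),(3,16354),(5,9930),(9,9956)]) (F [(3,256),(5,156)])) (F [(3,256),(5,150)]))) (F [(3,256),(8,49)]))) (F [(3,256),(9,13)]))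 (F [(3,256),(9,13)]))) (F [(3,256),(9,13)])) (U1 1 1 (P5 1 1 (U2 1 2 (F [(3,256),(8,116),(5,174)]) (P4 1 2 (F [(3,16381),(5,9952),(8,16384),(9,9947)]) (F [(3,256),(5,113)]))) (F [(3,256),(5,157)])) (P5 1 1 (P4 1 2 (P2 1 1 (U0 1 2 (F [(5,256),(3,169),(9,29)]) (F [(3,16384),(5,9977),(9,9949),(8,16370)])) (F [(9,36),(5,237),(3,256)])) (F [(3,256),(9,4),(5,111)])) (F [(3,256),(9,13),(5,186)]))))) (F [(9,256),(5,53),(8,140)])))) (F [(5,256),(9,29),(3,169)])))) (P0 1 1 (U1 4 1 (P3 2 1 (U2 1 1 (P4 1 2 (F [(8,256),(5,6),(9,155)]) (F [(8,16384),(5,9887),(3,16245),(9,9961)])) (U0 2 1 (P4 1 2 (F [(5,7),(8,256),(9,159)]) (P1 1 1 (F [(5,256),(9,80),(3,125)]) (U1 1 1 (F [(5,9921),(9,9988),(8,16384),(3,16282)]) (F [(5,9950),(8,16384),(9,9981),(3,16290)])))) (F [(9,256),(5,227),(8,46)]))) (P4 2 1 (U2 1 1 (P5 1 2 (F [(8,256),(9,112)])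 (F [(8,16384),(5,9863),(3,16252),(9,9948)])) (U0 2 1 (P5 1 2 (F [(8,256),(9,112)]) (U1 1 1 (F [(8,1048576),(5,634386),(9,638044),(3,1043540)]) (F [(8,1048576),(5,636916),(3,1043076),(9,638064)]))) (F [(9,256),(8,229)]))) (U2 1 1 (F [(3,256),(8,216),(9,62)]) (U0 2 1 (P0 1 2 (P3 4 1 (F [(3,16384),(9,9945),(8,16384),(5,9923)]) (F [(3,153),(9,138),(8,256)])) (U1 1 1 (F [(9,9963),(3,16345),(8,16384),(5,9826)]) (U0 1 2 (F [(8,256),(3,252),(5,107)]) (P1 2 1 (P3 1 1 (P5 1 1 (F [(3,16293),(8,16384),(5,9844),(9,9952)]) (F [(3,16384),(9,9936),(5,9999),(8,16309)])) (F [(3,16164),(9,9949),(8,16384),(5,9682)])) (F [(3,5335),(8,16384),(9,9357)]))))) (F [(9,256),(8,197)]))))) (P3 2 1 (F [(5,256),(8,74),(9,94)]) (P4 2 1 (F [(5,256),(8,86),(9,101)]) (U0 1 4 (P0 1 2 (F [(3,256),(8,11),(5,240)]) (U1 8 1 (U2 1 1 (F [(8,256),(5,108),(3,253)])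 (U0 2 1 (F [(8,224),(5,138),(3,256)]) (P1 2 1 (F [(5,240),(8,11),(3,256)]) (P2 2 1 (P4 1 1 (F [(5,256),(8,17),(3,216)]) (P3 2 1 (F [(5,256),(8,17),(3,216)]) (P0 1 2 (F [(3,256),(9,154),(5,156),(8,253)]) (F [(5,10014),(8,16343),(9,9947),(3,16384)])))) (P0 2 1 (P3 2 1 (F [(5,156),(9,156),(8,256),(3,255)]) (P4 2 1 (F [(5,9924),(9,9983),(8,16384),(3,16313)]) (F [(9,9978),(3,16384),(5,9958),(8,16382)]))) (F [(5,6),(8,256),(9,156)])))))) (F [(5,256),(3,200),(9,26)]))) (U2 2 1 (P0 1 2 (P3 4 1 (U1 1 1 (U2 1 2 (F [(3,256),(8,117),(5,132)]) (P4 1 2 (P1 1 1 (P5 1 1 (P2 1 2 (F [(8,16384),(5,9919),(3,16363),(9,9938)]) (F [(3,256),(8,5),(5,149)])) (F [(3,256),(5,230),(9,14)])) (F [(3,223),(9,95),(8,256)])) (F [(3,256),(5,113)]))) (P4 1 2 (P1 1 1 (P5 1 1 (U0 1 2 (F [(5,256),(9,29),(3,169)]) (P2 1 2 (F [(5,638511),(8,1047713),(3,1048576),(9,636757)])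 (F [(3,256),(5,156)]))) (F [(9,36),(3,256),(5,237)])) (P2 1 1 (U0 1 2 (P5 1 2 (U1 2 1 (U2 1 2 (F [(8,101),(5,148),(3,256)]) (F [(5,9977),(8,16384),(9,9975),(3,16368)])) (F [(5,256),(9,62),(3,192)])) (F [(3,256),(5,150)])) (P5 1 2 (U2 1 1 (U1 1 2 (F [(8,117),(5,131),(3,256)]) (P4 1 4 (F [(8,16384),(5,9928),(3,16325),(9,9970)]) (F [(3,256),(5,178),(8,3)]))) (P4 1 4 (F [(9,9967),(3,16304),(8,16384),(5,9900)]) (F [(3,256),(5,156)]))) (F [(3,256),(5,150),(8,2)]))) (F [(9,13),(3,256)]))) (F [(9,4),(3,256),(5,111)]))) (P4 4 1 (U1 1 1 (F [(3,180),(8,256),(9,107)]) (P5 1 2 (P2 1 1 (U0 1 2 (P4 1 2 (U1 2 1 (U2 1 2 (F [(8,101),(5,148),(3,256)]) (P5 1 4 (P2 1 2 (F [(5,10068),(8,16226),(3,16384),(9,9886)]) (F [(5,9964),(8,16384),(3,16382),(9,9966)])) (F [(3,256),(9,6),(5,186)]))) (F [(5,256),(9,62),(3,192)])) (F [(3,256),(9,12),(5,7)]))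 (P4 1 2 (U2 1 1 (U1 1 2 (F [(8,229),(3,256),(5,17)]) (P5 1 4 (P2 1 2 (F [(8,1047661),(5,637986),(3,1048576),(9,636494)]) (F [(3,16363),(8,16384),(9,9962),(5,9939)])) (F [(3,256),(8,3),(5,178)]))) (P5 1 4 (F [(9,9967),(3,16265),(8,16384),(5,9848)]) (F [(3,256),(5,156)]))) (F [(3,256),(8,49)]))) (F [(3,256),(9,13)])) (F [(3,256),(9,13)]))) (F [(3,256),(9,13)]))) (U1 1 1 (U2 1 2 (F [(8,256),(5,108),(3,253)]) (P1 2 1 (P3 1 1 (P5 1 1 (P2 1 2 (P4 1 2 (F [(8,16384),(5,9921),(3,16304),(9,9965)]) (F [(5,156),(3,256),(8,256),(9,156)])) (F [(5,156),(3,256),(8,256),(9,156)])) (F [(5,256),(3,200),(9,26)])) (P4 1 1 (P2 1 2 (P5 1 2 (F [(8,16384),(5,9848),(3,16283),(9,9938)]) (F [(3,16384),(8,16383),(5,9945),(9,9952)])) (F [(3,16373),(9,9959),(8,16384),(5,9944)])) (F [(3,16384),(9,9895),(8,16260),(5,9964)]))) (P2 2 1 (P4 1 1 (F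 [(8,16384),(5,9841),(3,16233),(9,9958)]) (F [(3,16296),(9,9973),(8,16384),(5,9878)])) (F [(9,9978),(8,16384),(3,16287),(5,9875)])))) (P1 2 1 (P3 1 1 (P5 1 1 (U0 1 2 (F [(5,256),(9,32),(3,144)]) (P2 1 2 (P4 1 2 (F [(5,9928),(8,16384),(9,9970),(3,16300)]) (F [(9,62),(5,256),(3,191)])) (F [(9,80),(5,256),(3,125)]))) (F [(9,62),(5,256),(3,191)])) (P4 1 1 (U0 1 2 (P2 1 2 (P5 1 2 (U1 2 1 (U2 1 2 (F [(8,190),(5,141),(3,256)]) (F [(5,9921),(8,16384),(9,9970),(3,16315)])) (F [(5,256),(9,62),(3,192)])) (F [(9,9966),(5,9975),(3,16384),(8,16373)])) (F [(9,9966),(5,9975),(3,16384),(8,16373)])) (P2 1 2 (P5 1 2 (F [(5,632377),(8,1048576),(9,637672),(3,1041515)]) (F [(9,9973),(3,16370),(5,9959),(8,16384)])) (F [(9,9973),(3,16370),(5,9959),(8,16384)]))) (F [(9,13),(3,256),(5,186)]))) (P2 2 1 (P4 1 1 (F [(5,633158),(8,1048576),(9,638089),(3,1041405)])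 (U0 1 2 (P3 2 1 (F [(9,9974),(5,9952),(3,16355),(8,16384)]) (P0 1 2 (F [(9,13),(3,256)]) (F [(9,9974),(5,9952),(3,16355),(8,16384)]))) (P3 2 1 (F [(9,9971),(3,16303),(5,9887),(8,16384)]) (F [(9,9965),(3,16204),(8,16384),(5,9762)])))) (P0 2 1 (U0 1 2 (P3 2 1 (F [(9,9987),(5,9951),(3,16329),(8,16384)]) (F [(9,9989),(3,16217),(5,9806),(8,16384)])) (P3 2 1 (F [(9,9983),(3,16310),(5,9922),(8,16384)]) (F [(9,9970),(3,16232),(5,9804),(8,16384)]))) (F [(9,159),(5,7),(8,256)])))))) (F [(9,256),(5,19),(8,177)])))))) (F [(5,6),(8,256),(9,156)]))) (U2 2 1 (P1 1 1 (P3 1 1 (P5 2 1 (U1 1 1 (P4 1 1 (F [(5,6),(8,256),(9,157)]) (F [(5,157),(9,154),(8,254),(3,256)])) (F [(9,91),(5,256),(3,84)])) (F [(5,256),(9,26),(3,200)])) (P0 1 2 (P4 2 1 (U1 1 1 (P5 1 1 (F [(8,16384),(5,9582),(9,9970),(3,15988)]) (F [(3,16381),(9,9930),(8,16384),(5,9913)]))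 (P5 1 1 (F [(9,256),(5,39),(8,229)]) (F [(9,10002),(3,16322),(5,9900),(8,16384)]))) (F [(9,13),(3,256)])) (U1 1 1 (P5 1 1 (F [(5,9654),(8,16384),(9,9981),(3,16022)]) (F [(9,156),(3,256),(5,156),(8,256)])) (F [(9,224),(5,256)])))) (P0 1 1 (P3 2 1 (F [(9,9997),(5,9606),(8,16384),(3,15960)]) (F [(9,162),(3,130),(8,256)])) (F [(9,157),(5,6),(8,256)]))) (F [(9,256),(5,23),(8,136)]))))

theorem g12 : ∀ c ∈ [c144, c145, c146, c147, c148, c149, c150, c151, c152, c153, c154, c155], Done D c := by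
  intro c hc
  simp only [List.mem_cons, List.not_mem_nil, or_false] at hc
  rcases hc with rfl | rfl | rfl | rfl | rfl | rfl | rfl | rfl | rfl | rfl | rfl | rfl
  · exact done_of_chk (t := t144) (by decide +kernel)
  · exact done_of_chk (t := t145) (by decide +kernel)
  · exact done_of_chk (t := t146) (by decide +kernel)
  · exact done_of_chk (t := t147) (by decide +kernel)
  · exact done_of_chk (t := t148) (by decide +kernel)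
  · exact done_of_chk (t := t149) (by decide +kernel)
  · exact done_of_chk (t := t150) (by decide +kernel)
  · exact done_of_chk (t := t151) (by decide +kernel)
  · exact done_of_chk (t := t152) (by decide +kernel)
  · exact done_of_chk (t := t153) (by decide +kernel)
  · exact done_of_chk (t := t154) (by decide +kernel)
  · exact done_of_chk (t := t155) (by decide +kernel)

end Pool.Agent.W2helper59.NW.I0
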