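import Pool.Agent.W2helper59.NW.D_I0

set_option autoImplicit false
set_option maxRecDepth 1000000

namespace Pool.Agent.W2helper59.NW.I0

open Tr

def c156 : Cell := ⟨⟨19,45,0⟩, ⟨9,23,0⟩, ⟨18,45,1⟩, ⟨115,75,190,132⟩, ⟨230,151,379,264⟩, ⟨229,151,379,265⟩, ⟨230,150,379,265⟩⟩

def t156 : Tr :=
  U1 2 1 (U2 1 1 (P1 2 1 (P3 1 1 (P5 1 1 (F [(9,155),(3,252),(8,256),(5,151)]) (F [(3,16384),(9,9945),(8,16231),(5,10099)])) (F [(3,202),(9,101),(8,256)])) (F [(9,101),(3,202),(8,256)])) (P1 2 1 (U0 2 1 (P3 1 1 (P5 1 1 (P4 1 2 (F [(9,10019),(3,16114),(5,9785),(8,16384)]) (F [(9,9993),(3,16334),(5,9926),(8,16384)])) (F [(9,62),(3,193),(5,256)])) (F [(9,134),(3,188),(8,256)])) (F [(9,256)])) (F [(9,136),(3,178),(8,256)]))) (U0 1 2 (P1 2 1 (P3 1 1 (P5 1 1 (U1 4 1 (P4 1 2 (F [(5,9935),(9,10076),(8,16384),(3,16160)]) (F [(5,10240),(9,9955),(3,16384),(8,16267)]))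 (F [(5,256),(9,59),(3,107)])) (F [(5,252),(3,256)])) (P4 1 1 (U1 4 1 (P5 1 2 (U2 1 1 (P2 1 2 (F [(8,256),(5,6),(9,155)]) (P0 1 1 (F [(8,256),(5,154),(9,156),(3,253)]) (F [(9,10009),(5,10005),(3,16344),(8,16384)]))) (F [(9,249),(5,256),(8,219)])) (U2 1 1 (P0 1 1 (P3 1 1 (F [(3,16384),(5,10029),(8,16328),(9,9962)]) (F [(8,16384),(3,16300),(5,9900),(9,9966)])) (F [(3,16384),(9,9962),(5,10029),(8,16328)])) (U0 2 1 (P0 1 1 (P3 1 1 (F [(9,63),(5,256),(3,189)]) (U1 1 1 (F [(9,156),(5,155),(3,255),(8,256)]) (F [(5,9975),(8,16384),(9,9992),(3,16272)]))) (F [(9,109),(3,20),(5,256)])) (F [(9,256),(5,33)])))) (F [(5,256),(9,94),(8,73)])) (U1 4 1 (U2 1 1 (F [(3,16384),(9,9838),(8,16294),(5,9738)]) (P0 1 2 (U0 2 1 (P5 1 1 (P4 2 1 (U1 1 1 (F [(9,139),(3,256),(8,208)]) (P2 1 2 (F [(3,16324),(9,9968),(8,16384),(5,9896)]) (F [(3,256),(8,13),(5,113)])))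 (F [(3,256),(8,2),(5,149)])) (F [(3,256),(5,156)])) (F [(9,256),(3,35)])) (U0 2 1 (P2 1 1 (P5 1 1 (U1 1 1 (F [(9,139),(3,256),(8,208)]) (P4 1 2 (F [(9,9980),(3,16336),(5,9933),(8,16384)]) (F [(3,256),(9,13),(5,185)]))) (F [(9,62),(3,192),(5,256)])) (F [(9,62),(3,192),(5,256)])) (F [(9,256),(3,35)])))) (U0 1 4 (P0 1 2 (P5 1 1 (P4 2 1 (U1 8 1 (U2 1 1 (P2 1 2 (F [(8,16384),(5,9939),(3,16357),(9,9945)]) (F [(3,256),(5,156)])) (P2 1 2 (U0 2 1 (F [(5,9962),(8,16384),(3,16376),(9,9940)]) (P5 1 2 (F [(9,9985),(5,9940),(3,16348),(8,16384)]) (F [(5,226),(3,256)]))) (F [(3,256),(5,156)]))) (F [(5,256),(3,200),(9,26)])) (F [(3,256),(5,155)])) (F [(3,256),(5,222),(8,9)])) (P2 1 1 (P5 1 1 (U1 8 1 (U2 1 1 (P4 1 2 (F [(5,9979),(8,16384),(3,16358),(9,9977)]) (F [(3,256),(5,196),(8,5)])) (F [(5,256),(9,92),(3,85)])) (F [(5,256),(9,35),(3,125)]))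 (F [(5,256),(3,206)])) (F [(5,256),(3,206)]))) (P0 1 2 (U2 2 1 (P5 1 1 (P4 2 1 (U1 1 1 (P2 1 2 (U2 1 2 (F [(3,16355),(8,16384),(5,9936),(9,9943)]) (P5 1 2 (F [(9,9983),(3,16327),(8,16384),(5,9912)]) (F [(9,154),(3,256),(5,156),(8,253)]))) (F [(3,256),(5,119)])) (P2 1 2 (P5 1 2 (F [(9,9988),(3,16327),(5,9914),(8,16384)]) (F [(9,37),(3,256),(5,237)])) (F [(9,3),(3,256),(5,122)]))) (F [(3,256),(9,1),(5,150)])) (F [(3,256),(5,157)])) (F [(9,256),(5,33)])) (U2 2 1 (P2 1 1 (P5 1 1 (U1 1 1 (P4 1 2 (F [(9,9988),(5,9954),(3,16336),(8,16384)]) (F [(9,6),(3,256),(5,190)])) (F [(9,210),(5,256)])) (F [(9,26),(3,200),(5,256)])) (F [(9,26),(3,200),(5,256)])) (F [(9,256),(5,33)]))))))) (P2 2 1 (P4 1 1 (U1 4 1 (U2 1 1 (P5 1 2 (F [(8,256),(9,156)]) (P3 1 1 (F [(9,10043),(3,16250),(5,9884),(8,16384)]) (F [(9,10008),(8,16384),(3,16080),(5,9820)])))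 (F [(9,249),(5,256),(8,219)])) (F [(9,103),(5,256),(8,88)])) (U1 4 1 (P0 1 2 (U2 1 1 (F [(3,16329),(9,9969),(8,16384),(5,9874)]) (P3 2 1 (U0 2 1 (P5 1 1 (F [(9,156),(3,254),(5,153),(8,256)]) (F [(3,256),(5,150)])) (F [(9,256)])) (F [(9,135),(3,179),(8,256)]))) (U2 1 1 (P5 1 1 (F [(9,10010),(3,16187),(8,16384),(5,9828)]) (F [(9,157),(3,254),(8,256),(5,154)])) (U0 2 1 (P5 1 1 (F [(9,10010),(3,16187),(8,16384),(5,9828)]) (F [(9,157),(3,255),(5,155),(8,256)])) (F [(9,256)])))) (P0 1 2 (U0 1 4 (P3 2 1 (P5 1 1 (U1 8 1 (U2 1 1 (P4 1 2 (F [(8,256),(5,155),(3,255),(9,156)]) (F [(3,256),(5,150)])) (P4 1 2 (F [(9,10008),(5,9936),(3,16302),(8,16384)]) (F [(3,256),(5,150)]))) (F [(5,10078),(9,10029),(3,16384),(8,16368)])) (F [(3,256),(5,155)])) (P4 2 1 (U1 8 1 (U2 1 1 (P5 1 2 (F [(8,16384),(3,16308),(5,9885),(9,9970)]) (F [(3,256),(8,39),(5,102)]))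 (P5 1 2 (U0 2 1 (F [(3,16336),(9,9977),(8,16384),(5,9922)]) (F [(9,9994),(3,16332),(5,9922),(8,16384)])) (F [(3,256),(5,113),(8,13)]))) (U0 1 8 (F [(5,10080),(3,16384),(8,16253),(9,9920)]) (P5 1 2 (U2 2 1 (F [(5,156),(8,256),(3,256),(9,156)]) (F [(9,63),(3,191),(5,256)])) (F [(9,3),(3,256),(5,122)])))) (F [(3,256),(5,155)]))) (P3 2 1 (U2 2 1 (P5 1 1 (U1 1 1 (P4 1 2 (F [(9,9996),(3,16258),(5,9864),(8,16384)]) (F [(9,1),(3,256),(5,150)])) (F [(9,256),(5,228),(8,45)])) (F [(9,1),(3,256),(5,150)])) (F [(9,256)])) (F [(9,10482),(3,10221),(8,16384)]))) (U0 1 4 (P5 1 1 (F [(9,10012),(5,9904),(8,16384),(3,16253)]) (F [(9,10060),(5,9970),(3,16346),(8,16384)])) (U2 2 1 (P5 1 1 (F [(9,10015),(3,16179),(5,9834),(8,16384)]) (F [(9,157),(3,255),(5,155),(8,256)])) (F [(9,256)])))))) (F [(9,247),(3,256),(5,186)]))) (P1 2 1 (U2 2 1 (P3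 1 1 (P5 1 1 (P4 1 2 (F [(9,10048),(5,9809),(3,16106),(8,16384)]) (F [(9,10011),(3,16384),(5,10065),(8,16372)])) (F [(9,21),(3,237),(5,256)])) (P4 1 1 (P5 1 2 (F [(9,163),(3,131),(8,256)]) (F [(9,10010),(3,16307),(5,9870),(8,16384)])) (F [(9,139),(3,256),(8,207)]))) (F [(9,256)])) (F [(9,165),(3,157),(8,256)])))

def c157 : Cell := ⟨⟨19,45,0⟩, ⟨9,23,0⟩, ⟨18,45,1⟩, ⟨115,75,190,132⟩, ⟨115,76,189,132⟩, ⟨57,38,95,66⟩, ⟨229,151,379,265⟩⟩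

def t157 : Tr :=
  F [(3,256),(9,40),(5,159)]

def c158 : Cell := ⟨⟨5,11,0⟩, ⟨19,45,0⟩, ⟨18,45,1⟩, ⟨115,75,190,132⟩, ⟨115,76,189,132⟩, ⟨57,38,95,66⟩, ⟨115,75,189,133⟩⟩

def t158 : Tr :=
  P5 2 1 (U2 4 1 (P0 1 1 (P4 1 1 (F [(9,10018),(3,15742),(8,16384),(5,9441)]) (F [(9,167),(3,221),(8,256)])) (P2 1 1 (F [(9,10018),(3,15742),(5,9441),(8,16384)]) (F [(9,141),(3,256),(8,210)]))) (F [(9,256),(5,34)])) (F [(9,13),(3,256)])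

def c159 : Cell := ⟨⟨5,11,0⟩, ⟨9,23,0⟩, ⟨18,45,1⟩, ⟨231,151,378,264⟩, ⟨29,19,47,33⟩, ⟨115,76,189,132⟩, ⟨115,75,189,133⟩⟩

def t159 : Tr :=
  U0 2 1 (P4 4 1 (P5 1 1 (F [(8,256),(9,154)]) (U1 2 1 (F [(8,256),(3,136),(9,138)]) (U0 1 2 (F [(8,256),(5,107),(3,253)]) (P3 1 2 (U2 2 1 (F [(8,256),(3,253),(5,107)]) (P5 2 1 (F [(8,16384),(9,9754),(3,16099),(5,9561)]) (F [(3,256),(9,8),(8,128)]))) (F [(8,256),(9,153)]))))) (F [(8,256),(3,205),(9,98)])) (F [(9,160),(3,130),(8,256)])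

def c160 : Cell := ⟨⟨19,45,0⟩, ⟨36,91,1⟩, ⟨18,45,1⟩, ⟨230,151,379,264⟩, ⟨231,151,378,264⟩, ⟨230,151,378,265⟩, ⟨115,75,189,133⟩⟩

def t160 : Tr :=
  F [(8,256),(3,116),(9,141)]

def c161 : Cell := ⟨⟨19,45,0⟩, ⟨9,23,0⟩, ⟨36,91,1⟩, ⟨460,301,757,530⟩, ⟨231,151,378,264⟩, ⟨230,151,378,265⟩, ⟨115,75,189,133⟩⟩

def t161 : Tr :=
  F [(8,256),(5,6),(9,155)]

def c162 : Cell := ⟨⟨37,91,0⟩, ⟨9,23,0⟩, ⟨36,91,1⟩, ⟨460,302,757,529⟩, ⟨922,603,1513,1058⟩, ⟨230,151,378,265⟩, ⟨460,301,757,530⟩⟩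

def t162 : Tr :=
  F [(8,256),(9,155)]

def c163 : Cell := ⟨⟨37,91,0⟩, ⟨72,183,1⟩, ⟨36,91,1⟩, ⟨230,151,379,264⟩, ⟨922,603,1513,1058⟩, ⟨460,302,757,529⟩, ⟨460,301,757,530⟩⟩

def t163 : Tr :=
  P2 2 1 (F [(8,256),(9,155)]) (F [(8,16384),(3,15985),(5,9362),(9,9856)])

def c164 : Cell := ⟨⟨37,91,0⟩, ⟨9,23,0⟩, ⟨72,183,1⟩, ⟨920,603,1515,1058⟩, ⟨922,603,1513,1058⟩, ⟨460,302,757,529⟩, ⟨460,301,757,530⟩⟩

def t164 : Tr :=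
  F [(8,80),(5,256),(9,97)]

def c165 : Cell := ⟨⟨73,183,0⟩, ⟨9,23,0⟩, ⟨72,183,1⟩, ⟨230,151,379,264⟩, ⟨922,603,1513,1058⟩, ⟨460,302,757,529⟩, ⟨920,603,1515,1058⟩⟩

def t165 : Tr :=
  P0 4 1 (F [(8,256),(5,8)]) (P1 2 1 (F [(8,177),(5,176),(3,256)]) (U1 8 1 (P2 4 1 (U2 1 1 (F [(8,256),(3,216)]) (U0 2 1 (F [(8,256),(3,216)]) (P4 1 2 (P5 1 1 (P2 1 2 (F [(8,34),(5,256)]) (U2 2 1 (F [(8,256),(3,216)]) (P0 2 1 (U0 4 1 (F [(8,256)]) (P4 1 1 (F [(8,14),(5,256),(3,244)]) (P3 1 2 (F [(8,14),(5,256),(3,244)]) (U2 4 1 (F [(8,256),(3,216)]) (P0 1 2 (F [(8,256),(5,8)]) (F [(8,1047935),(5,637075),(3,1048576),(9,636584)])))))) (F [(3,256),(8,2),(5,170)])))) (F [(3,256),(8,166),(5,81)])) (F [(8,210),(3,256)])))) (F [(3,256),(8,119)])) (P2 4 1 (U0 1 8 (F [(8,116),(5,174),(3,256)]) (U2 2 1 (F [(8,149),(5,144),(3,256)]) (P4 1 2 (P5 1 1 (P2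 1 2 (F [(5,256),(9,5)]) (U0 2 1 (F [(8,116),(5,174),(3,256)]) (P0 2 1 (U2 4 1 (F [(8,256),(5,8)]) (P4 1 1 (F [(5,256),(3,217),(9,24)]) (P3 1 2 (F [(5,256),(3,217),(9,24)]) (U0 4 1 (F [(8,116),(5,174),(3,256)]) (P0 1 2 (F [(8,256),(5,8)]) (F [(8,16375),(5,9954),(3,16384),(9,9947)])))))) (F [(3,256),(5,170),(9,3)])))) (F [(8,166),(3,256),(5,81)])) (F [(8,210),(3,256)])))) (F [(3,256),(8,119)]))))

def c166 : Cell := ⟨⟨37,91,0⟩, ⟨73,183,0⟩, ⟨72,183,1⟩, ⟨1842,1207,3029,2114⟩, ⟨922,603,1513,1058⟩, ⟨460,302,757,529⟩, ⟨920,603,1515,1058⟩⟩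

def t166 : Tr :=
  F [(8,256),(5,25),(9,160)]

def c167 : Cell := ⟨⟨146,365,1⟩, ⟨73,183,0⟩, ⟨72,183,1⟩, ⟨230,151,379,264⟩, ⟨1842,1207,3029,2114⟩, ⟨460,302,757,529⟩, ⟨920,603,1515,1058⟩⟩

def t167 : Tr :=
  P1 2 1 (F [(8,223),(3,256),(5,138)]) (P2 4 1 (U1 1 1 (F [(8,256),(3,140),(9,117)]) (P4 1 2 (P5 1 1 (U0 1 2 (P2 1 2 (U1 2 1 (U2 1 2 (F [(8,256),(3,33)]) (P4 1 4 (P5 1 2 (P2 1 4 (F [(5,256)]) (F [(8,16384),(5,9923),(3,16364),(9,9943)])) (F [(8,16384),(5,9912),(3,16363),(9,9936)])) (F [(8,256),(3,213),(9,98)]))) (P4 1 4 (P5 1 2 (U0 1 4 (F [(5,256),(9,34),(3,134)]) (P2 1 4 (F [(5,256)]) (U2 1 1 (F [(8,19),(5,256),(3,191)]) (P0 2 1 (F [(8,256),(9,122)]) (F [(5,9960),(8,16384),(9,9960),(3,16379)]))))) (U0 1 4 (F [(5,256),(3,134),(9,34)]) (U2 1 1 (F [(8,19),(5,256),(3,191)]) (P0 2 1 (P3 1 4 (F [(5,9958),(8,16381),(3,16384),(9,9953)])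 (F [(8,256),(9,112)])) (F [(3,16384),(5,9958),(8,16380),(9,9955)]))))) (P0 1 1 (U0 1 4 (P3 1 2 (U1 4 1 (F [(8,242),(5,57),(3,256)]) (P5 4 1 (F [(8,256)]) (P1 1 4 (F [(5,174),(8,116),(3,256)]) (F [(5,9951),(8,16384),(3,16371),(9,9953)])))) (F [(8,256)])) (F [(8,242),(5,57),(3,256)])) (U0 1 4 (U1 4 1 (P2 2 1 (P5 4 1 (F [(8,256),(9,57)]) (U2 1 2 (F [(8,256),(5,163),(3,232)]) (P1 1 8 (F [(5,9941),(8,16384),(3,16384),(9,9940)]) (F [(8,256),(5,216),(9,197)])))) (U2 1 2 (F [(8,116),(5,174),(3,256)]) (P5 8 1 (F [(5,9952),(8,16384),(3,16373),(9,9957)]) (F [(5,9939),(3,16384),(8,16376),(9,9943)])))) (P2 2 1 (P5 4 1 (F [(8,256),(9,57)]) (P1 1 8 (P3 1 4 (F [(5,256),(3,232)]) (F [(5,9951),(8,16384),(3,16372),(9,9956)])) (F [(5,215),(8,256),(9,252)]))) (P5 8 1 (F [(5,9965),(8,16384),(9,9974),(3,16342)]) (P0 2 1 (P3 1 4 (F [(5,156),(3,256)])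 (F [(5,9951),(8,16384),(3,16372),(9,9956)])) (F [(5,156),(3,256)]))))) (U2 1 1 (P2 2 1 (P5 4 1 (F [(8,256),(9,57)]) (F [(8,1048576),(5,636797),(3,1048509),(9,636963)])) (F [(8,1048576),(5,636794),(3,1048520),(9,637032)])) (P2 2 1 (P5 4 1 (F [(8,256),(3,9),(9,115)]) (F [(8,1048576),(3,1048515),(5,636768),(9,637060)])) (F [(3,1048540),(9,637172),(8,1048576),(5,636784)]))))))) (U1 2 1 (F [(3,256),(8,120)]) (P0 2 1 (P4 1 1 (U0 1 4 (U1 4 1 (F [(3,256),(8,126),(9,7)]) (P1 1 4 (P4 1 2 (F [(3,256),(5,156)]) (P3 1 4 (F [(3,256),(5,156)]) (U0 1 8 (F [(5,256),(3,117),(9,35)]) (F [(3,16383),(5,9949),(8,16384),(9,9955)])))) (P2 1 2 (P4 1 2 (F [(3,256),(5,156)]) (U0 1 8 (F [(3,134),(9,34),(5,256)]) (F [(3,16383),(9,9956),(5,9949),(8,16384)]))) (U0 1 8 (F [(3,1048576),(9,637094),(5,636962),(8,1048399)]) (F [(3,16382),(9,9956),(8,16384),(5,9948)])))))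 (F [(3,256),(8,203),(9,94)])) (U0 1 4 (P3 1 2 (U1 4 1 (F [(8,216),(3,256),(9,62)]) (P1 1 4 (P5 4 1 (U0 1 8 (F [(5,256),(3,117),(9,35)]) (U2 1 1 (F [(8,1391),(5,16384),(3,9729)]) (P2 1 2 (F [(8,16384),(3,16377),(5,9950),(9,9953)]) (F [(3,256),(8,90),(5,148)])))) (F [(5,146),(3,256),(8,117)])) (P0 1 1 (U0 1 8 (F [(8,1048241),(5,637254),(3,1048576),(9,636843)]) (U2 1 1 (F [(8,1048224),(3,1048576),(5,637255),(9,636798)]) (P5 1 2 (F [(3,16379),(8,16384),(5,9946),(9,9951)]) (F [(3,256),(8,90),(5,148)])))) (U0 1 8 (F [(3,1048576),(9,637094),(8,1048399),(5,636962)]) (F [(3,16382),(9,9956),(8,16384),(5,9948)]))))) (U1 4 1 (F [(8,256),(3,140),(9,117)]) (P0 1 2 (F [(8,256)]) (P1 1 1 (F [(8,1048576),(3,1048050),(5,636304),(9,636722)]) (F [(3,16375),(8,16384),(9,9956),(5,9942)]))))) (F [(8,212),(3,256),(9,99)]))) (F [(3,256),(5,156)]))))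 (P2 1 2 (U2 1 1 (U1 1 2 (F [(8,256),(3,216)]) (P4 1 4 (P5 1 2 (P2 1 4 (F [(8,34),(5,256)]) (F [(8,16384),(5,9910),(3,16347),(9,9949)])) (F [(8,16384),(3,16355),(5,9914),(9,9946)])) (F [(8,256),(3,191),(9,119)]))) (P4 1 4 (F [(8,1048576),(3,1047318),(5,636030),(9,636889)]) (F [(8,256),(3,191),(9,119)]))) (F [(3,256),(8,120)]))) (F [(3,256),(8,166),(5,81)])) (F [(3,256),(8,210)]))) (F [(3,256),(8,119)]))

theorem g13 : ∀ c ∈ [c156, c157, c158, c159, c160, c161, c162, c163, c164, c165, c166, c167], Done D c := by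
  intro c hc
  simp only [List.mem_cons, List.not_mem_nil, or_false] at hc
  rcases hc with rfl | rfl | rfl | rfl | rfl | rfl | rfl | rfl | rfl | rfl | rfl | rfl
  · exact done_of_chk (t := t156) (by decide +kernel)
  · exact done_of_chk (t := t157) (by decide +kernel)
  · exact done_of_chk (t := t158) (by decide +kernel)
  · exact done_of_chk (t := t159) (by decide +kernel)
  · exact done_of_chk (t := t160) (by decide +kernel)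
  · exact done_of_chk (t := t161) (by decide +kernel)
  · exact done_of_chk (t := t162) (by decide +kernel)
  · exact done_of_chk (t := t163) (by decide +kernel)
  · exact done_of_chk (t := t164) (by decide +kernel)
  · exact done_of_chk (t := t165) (by decide +kernel)
  · exact done_of_chk (t := t166) (by decide +kernel)
  · exact done_of_chk (t := t167) (by decide +kernel)

end Pool.Agent.W2helper59.NW.I0
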