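import Pool.Agent.W2helper59.NW.D_I0

set_option autoImplicit false
set_option maxRecDepth 1000000

namespace Pool.Agent.W2helper59.NW.I0

open Tr

def c168 : Cell := ⟨⟨147,365,0⟩, ⟨73,183,0⟩, ⟨146,365,1⟩, ⟨1840,1208,3029,2115⟩, ⟨3682,2413,6059,4230⟩, ⟨460,302,757,529⟩, ⟨920,603,1515,1058⟩⟩

def t168 : Tr :=
  P5 2 1 (U1 2 1 (P2 1 2 (F [(8,16384),(9,9949),(5,9883),(3,16238)]) (U2 1 1 (F [(8,16384),(3,16344),(5,9892),(9,9920)]) (P0 2 1 (F [(9,9943),(3,16322),(8,16384),(5,9902)]) (U0 2 1 (F [(3,16384),(8,16384),(5,9944),(9,9937)]) (F [(9,256),(3,134),(5,239)]))))) (P2 1 2 (F [(5,133),(8,256),(9,181)]) (U0 1 2 (P0 2 1 (P3 1 2 (U1 4 1 (F [(5,637491),(8,1048152),(3,1048576),(9,636263)]) (F [(5,256),(3,200),(9,26)])) (U1 4 1 (P4 1 1 (F [(8,16384),(5,9950),(3,16375),(9,9946)]) (F [(8,1048576),(5,634888),(3,1046729),(9,636331)])) (P4 1 1 (F [(5,256),(3,171),(9,29)])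 (U0 1 4 (F [(8,204),(5,256)]) (P0 1 2 (F [(8,256),(9,155)]) (U2 2 1 (F [(8,256),(3,33)]) (P1 1 1 (F [(5,26),(8,256),(9,160)]) (P2 1 1 (F [(5,133),(9,181),(8,256)]) (U0 2 1 (P0 2 1 (F [(8,256),(9,155)]) (F [(5,9952),(8,16384),(9,9946),(3,16378)])) (F [(9,9947),(5,9941),(8,16384),(3,16376)])))))))))) (F [(5,210),(8,7),(3,256)])) (P0 2 1 (U2 2 1 (P3 1 2 (F [(5,9953),(8,16384),(9,9946),(3,16381)]) (P4 1 1 (F [(9,9946),(5,9943),(8,16384),(3,16371)]) (F [(9,162),(8,256),(3,130)]))) (F [(9,256),(5,127)])) (F [(9,635898),(5,637450),(3,1048576),(8,1047407)]))))) (P3 1 8 (F [(5,9969),(8,16352),(3,16384),(9,9918)]) (U1 2 1 (U2 1 1 (F [(8,16384),(3,16338),(5,9876),(9,9909)]) (P0 2 1 (F [(9,147),(8,256),(3,74)]) (U0 2 1 (F [(8,16384),(5,9941),(3,16383),(9,9934)]) (F [(9,9943),(3,16384),(5,9948),(8,16378)])))) (U0 1 2 (P0 2 1 (P4 1 2 (U1 4 1 (P2 1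 4 (F [(8,34),(5,256)]) (U2 1 1 (F [(8,256),(3,162)]) (F [(8,1047617),(5,637725),(3,1048576),(9,635919)]))) (F [(5,256),(3,200),(9,26)])) (P3 2 1 (U1 4 1 (U2 1 1 (F [(8,256),(3,166)]) (U0 2 1 (F [(8,256),(3,166)]) (F [(8,1048576),(5,636636),(9,636513),(3,1048047)]))) (U0 1 4 (F [(8,34),(5,256)]) (U2 2 1 (F [(8,256),(3,33)]) (F [(5,9954),(8,16384),(9,9946),(3,16380)])))) (U1 4 1 (F [(8,1048576),(5,634888),(3,1046729),(9,636331)]) (U0 1 4 (F [(8,204),(5,256)]) (P0 1 2 (F [(8,256),(9,155)]) (U2 2 1 (F [(8,256),(3,33)]) (P2 1 1 (F [(8,256),(5,26),(9,160)]) (U0 2 1 (P1 2 1 (F [(8,256),(9,116)]) (P0 2 1 (F [(8,256),(9,155)]) (F [(8,16384),(5,9952),(3,16378),(9,9946)]))) (F [(8,16384),(9,9947),(5,9941),(3,16373)]))))))))) (F [(5,240),(8,11),(3,256)])) (P0 2 1 (U2 2 1 (P4 1 2 (P2 1 4 (F [(5,256),(8,74),(9,88)]) (U1 1 1 (F [(8,256),(3,83),(9,133)])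 (F [(5,9955),(8,16384),(9,9946),(3,16384)]))) (P3 2 1 (U1 1 1 (F [(8,256),(3,139),(9,118)]) (F [(8,16384),(5,9944),(9,9946),(3,16373)])) (F [(8,256),(9,162),(3,130)]))) (F [(9,256),(5,13),(8,254)])) (U2 2 1 (F [(5,637098),(8,1047155),(3,1048576),(9,635338)]) (F [(9,9943),(5,9961),(3,16384),(8,16366)]))))))

def c169 : Cell := ⟨⟨147,365,0⟩, ⟨73,183,0⟩, ⟨146,365,1⟩, ⟨1840,1207,3030,2115⟩, ⟨3682,2413,6059,4230⟩, ⟨1840,1208,3029,2115⟩, ⟨920,603,1515,1058⟩⟩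

def t169 : Tr :=
  U1 2 1 (P5 1 2 (U2 1 1 (P4 1 4 (F [(9,9950),(8,16384),(3,16366),(5,9939)]) (F [(3,16326),(9,9898),(8,16384),(5,9823)])) (U0 2 1 (P4 1 4 (F [(9,637025),(5,635995),(3,1047259),(8,1048576)]) (P3 1 1 (F [(9,637018),(3,1047235),(8,1048576),(5,635943)]) (F [(9,134),(3,185),(8,256)]))) (F [(9,256)]))) (U2 1 1 (F [(3,16380),(8,16384),(9,9916),(5,9894)]) (P3 1 2 (F [(9,6),(3,256),(5,169)]) (U0 2 1 (F [(9,636127),(3,1047884),(8,1048576),(5,634616)]) (F [(9,256)]))))) (P5 1 2 (U0 1 2 (P4 1 4 (P2 1 2 (F [(5,256),(8,28)]) (U1 4 1 (U2 1 1 (P0 4 1 (F [(5,44),(8,256),(9,152)]) (F [(5,9962),(8,16377),(9,9949),(3,16384)])) (F [(9,88),(5,256),(3,95)])) (F [(5,256),(9,35),(3,117)]))) (U1 4 1 (P3 1 1 (U2 1 1 (P2 4 1 (F [(8,256),(5,44),(9,152)]) (P0 4 1 (F [(8,16384),(5,9952),(3,16376),(9,9949)]) (F [(5,9962),(3,16384),(8,16376),(9,9949)])))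 (F [(5,256),(9,112),(3,9)])) (P0 2 1 (F [(8,256),(9,156)]) (U2 1 1 (P2 4 1 (F [(8,256),(9,150),(3,21)]) (P1 4 1 (F [(8,16384),(3,16371),(5,9937),(9,9947)]) (F [(3,16384),(9,9952),(8,16384),(5,9950)]))) (P2 4 1 (F [(9,156),(8,256)]) (U0 2 1 (P1 4 1 (F [(9,636884),(5,636335),(8,1048576),(3,1047635)]) (F [(9,9951),(3,16384),(5,9950),(8,16382)])) (F [(9,256),(5,19),(8,184)])))))) (P3 1 1 (F [(5,256),(9,40),(3,79)]) (P0 2 1 (F [(8,256),(9,156)]) (U0 1 4 (P2 4 1 (F [(8,256),(9,156)]) (P1 4 1 (F [(5,123),(8,256),(9,146)]) (U1 8 1 (P0 4 1 (F [(5,637057),(8,1048413),(9,636853),(3,1048576)]) (F [(5,256),(3,206)])) (F [(5,256),(9,49)])))) (P2 4 1 (F [(9,156),(8,256)]) (U2 2 1 (P1 4 1 (F [(5,9947),(9,9953),(8,16384),(3,16369)]) (P0 4 1 (F [(9,636941),(5,637002),(3,1048576),(8,1048512)]) (F [(9,26),(5,256),(3,200)]))) (F [(9,238),(5,256)]))))))))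 (U2 2 1 (P4 1 4 (P2 1 2 (F [(9,91),(5,256),(8,69)]) (U1 1 1 (P0 4 1 (F [(9,168),(5,64),(8,256)]) (F [(9,9953),(3,16384),(5,9956),(8,16382)])) (F [(9,238),(5,256)]))) (P3 1 1 (U1 1 1 (P2 4 1 (F [(9,168),(5,64),(8,256)]) (F [(9,9949),(3,16380),(5,9942),(8,16384)])) (F [(9,256),(5,123),(8,148)])) (F [(9,164),(3,172),(8,256)]))) (F [(9,256)]))) (U0 1 2 (P3 1 2 (F [(5,170),(3,256),(8,2)]) (U1 4 1 (P4 1 1 (U2 1 1 (P1 4 1 (F [(8,16384),(5,9950),(3,16381),(9,9946)]) (P0 4 1 (F [(8,16384),(5,9953),(3,16382),(9,9948)]) (F [(3,256),(5,170),(8,2)]))) (P1 4 1 (U0 2 1 (P5 1 2 (F [(5,9962),(8,16383),(3,16384),(9,9951)]) (P3 1 1 (F [(8,144),(5,144),(3,256)]) (F [(8,16383),(5,9961),(3,16384),(9,9950)]))) (F [(9,9949),(5,9954),(3,16384),(8,16383)])) (U0 2 1 (F [(5,637917),(3,1048576),(9,636920),(8,1048336)]) (F [(9,256),(5,96),(8,60)])))) (P0 2 1 (U2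 1 1 (F [(8,256),(3,140),(9,117)]) (P3 2 1 (U0 2 1 (F [(8,256),(3,140),(9,117)]) (P1 1 1 (F [(9,636618),(3,1048035),(8,1048576),(5,636249)]) (F [(9,256),(8,134)]))) (F [(9,156),(8,256)]))) (U2 1 1 (P1 4 1 (F [(8,256),(3,198),(9,102)]) (P2 4 1 (F [(8,16384),(3,16374),(5,9932),(9,9942)]) (F [(3,256),(8,76),(5,53)]))) (P1 4 1 (U0 2 1 (P3 1 1 (P5 1 1 (F [(8,1048545),(5,637073),(3,1048576),(9,636700)]) (F [(3,256),(8,166),(5,81)])) (U1 1 1 (P2 1 2 (F [(9,9950),(8,16384),(3,16369),(5,9937)]) (F [(3,16382),(9,9951),(8,16384),(5,9943)])) (P2 1 2 (F [(8,16384),(5,9926),(3,16351),(9,9948)]) (P0 1 2 (F [(8,1048576),(3,1047926),(5,635794),(9,636590)]) (F [(3,256),(8,2),(5,170)]))))) (P3 1 1 (F [(9,9949),(3,16384),(5,9954),(8,16383)]) (F [(9,256),(5,29),(8,53)]))) (U0 2 1 (P2 4 1 (U1 1 1 (P5 1 2 (F [(9,9952),(3,16370),(5,9942),(8,16384)]) (F [(9,9951),(3,16382),(5,9943),(8,16384)]))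 (P5 1 2 (F [(8,16384),(5,9941),(3,16359),(9,9952)]) (P3 2 1 (F [(3,256),(5,240),(8,11)]) (U0 1 2 (F [(8,89),(3,256),(5,57)]) (F [(9,9953),(3,16378),(5,9948),(8,16384)]))))) (F [(3,256),(5,41),(8,36)])) (F [(9,256),(5,25),(8,98)])))))) (P4 1 1 (F [(5,256),(3,171),(9,29)]) (P0 2 1 (U0 1 4 (F [(8,256),(5,149),(9,144)]) (P3 2 1 (U2 2 1 (P1 1 1 (P5 1 1 (F [(8,1048576),(5,636529),(3,1047761),(9,636712)]) (U1 1 1 (F [(8,256),(3,140),(9,117)]) (P3 1 2 (F [(8,16384),(5,9953),(3,16384),(9,9946)]) (F [(8,16384),(5,9946),(3,16371),(9,9949)])))) (U1 1 1 (F [(8,256),(3,140),(9,118)]) (P0 2 1 (F [(8,16384),(5,9945),(9,9949),(3,16369)]) (P1 2 1 (F [(5,636507),(8,1048576),(9,636772),(3,1047828)]) (F [(9,155),(8,256)]))))) (P1 1 1 (P5 1 1 (F [(9,256),(5,13),(8,255)]) (U0 2 1 (P3 1 2 (F [(5,636857),(9,636470),(8,1048266),(3,1048576)]) (F [(9,225),(8,256),(5,9)]))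 (F [(9,9948),(3,16378),(5,9939),(8,16384)]))) (F [(9,256),(5,22),(8,137)]))) (F [(8,256),(9,156)]))) (U0 1 4 (P1 4 1 (F [(5,256),(8,123),(9,54)]) (P2 4 1 (F [(5,256),(8,123),(9,54)]) (U1 8 1 (P0 4 1 (U2 1 1 (F [(5,637822),(8,1048576),(3,1048326),(9,636862)]) (F [(5,256),(9,125),(8,18)])) (F [(5,252),(3,256)])) (F [(5,256),(9,49)])))) (P1 4 1 (U2 2 1 (P3 1 1 (P5 1 1 (F [(5,637261),(8,1048280),(3,1048576),(9,636569)]) (F [(8,16371),(5,9954),(3,16384),(9,9939)])) (U1 1 1 (P2 1 2 (U2 1 2 (F [(8,256),(3,9),(9,112)]) (P3 2 1 (F [(8,1048576),(5,636448),(3,1048032),(9,636714)]) (F [(8,16384),(5,1648),(9,10267)]))) (P0 1 2 (U2 1 2 (F [(8,16384),(5,9949),(3,16379),(9,9949)]) (P3 2 1 (F [(3,16384),(5,9950),(8,16374),(9,9944)]) (F [(9,636965),(3,1048271),(5,636827),(8,1048576)]))) (F [(3,256),(5,170),(9,3)]))) (P2 1 2 (P3 2 1 (F [(5,636790),(8,1048576),(9,636798),(3,1048288)])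 (F [(5,32),(9,170),(8,256)])) (P0 1 2 (P3 2 1 (F [(9,9943),(5,9953),(3,16384),(8,16371)]) (F [(9,9953),(5,9951),(3,16379),(8,16384)])) (F [(9,6),(5,169),(3,256)]))))) (P3 1 1 (F [(9,636634),(5,637254),(3,1048576),(8,1048308)]) (F [(9,256),(5,72)]))) (U2 2 1 (P2 4 1 (U1 1 1 (P5 1 2 (F [(5,9945),(8,16384),(3,16350),(9,9955)]) (P3 2 1 (F [(5,256),(3,237),(9,22)]) (U2 1 2 (F [(5,636756),(8,1048576),(3,1048340),(9,636834)]) (F [(9,9953),(5,9951),(3,16380),(8,16384)])))) (F [(9,189),(5,256),(3,54)])) (P0 4 1 (U1 1 1 (F [(3,1048576),(9,636783),(5,636885),(8,1048302)]) (F [(9,256),(3,211),(5,102)])) (F [(9,22),(3,237),(5,256)]))) (F [(9,256),(5,205)])))))))) (P3 1 2 (F [(9,3),(3,256),(5,170)]) (U2 2 1 (P4 1 1 (U1 1 1 (F [(3,16380),(9,9949),(5,9942),(8,16384)]) (F [(9,9954),(3,16380),(5,9943),(8,16384)])) (F [(9,164),(3,176),(8,256)])) (F [(9,256)])))))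

def c170 : Cell := ⟨⟨147,365,0⟩, ⟨292,731,1⟩, ⟨146,365,1⟩, ⟨920,604,1515,1057⟩, ⟨3682,2413,6059,4230⟩, ⟨1840,1208,3029,2115⟩, ⟨1840,1207,3030,2115⟩⟩

def t170 : Tr :=
  F [(3,256),(9,97),(8,208)]

def c171 : Cell := ⟨⟨293,731,0⟩, ⟨73,183,0⟩, ⟨292,731,1⟩, ⟨7362,4829,12119,8458⟩, ⟨7362,4829,12117,8460⟩, ⟨1840,1208,3029,2115⟩, ⟨1840,1207,3030,2115⟩⟩

def t171 : Tr :=
  F [(3,256),(5,156)]

def c172 : Cell := ⟨⟨293,731,0⟩, ⟨584,1463,1⟩, ⟨292,731,1⟩, ⟨7362,4829,12119,8458⟩, ⟨3682,2413,6059,4230⟩, ⟨7362,4829,12117,8460⟩, ⟨1840,1207,3030,2115⟩⟩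

def t172 : Tr :=
  F [(3,256),(9,97),(8,208)]

def c173 : Cell := ⟨⟨293,731,0⟩, ⟨73,183,0⟩, ⟨584,1463,1⟩, ⟨7362,4829,12119,8458⟩, ⟨7362,4827,12119,8460⟩, ⟨7362,4829,12117,8460⟩, ⟨1840,1207,3030,2115⟩⟩

def t173 : Tr :=
  U0 1 4 (P5 1 4 (P2 1 4 (U1 8 1 (P4 1 4 (F [(3,256),(5,156)]) (U2 1 1 (P0 1 2 (P3 2 1 (F [(3,256),(5,156)]) (F [(3,1048576),(5,637055),(8,1048485),(9,636897)])) (F [(3,256),(5,156)])) (P0 1 2 (F [(3,1048576),(9,637174),(5,638334),(8,1047882)]) (F [(3,256),(5,156)])))) (F [(5,256),(3,117),(9,35)])) (P0 1 1 (U1 8 1 (U2 1 1 (P4 2 1 (F [(3,256),(5,107)]) (P3 2 1 (F [(3,256),(5,156)]) (F [(3,1048493),(8,1048576),(5,636575),(9,636706)]))) (P4 2 1 (F [(3,256),(5,107)]) (P3 2 1 (F [(3,256),(5,156)]) (U0 2 1 (P0 1 2 (F [(3,1048576),(5,636988),(8,1048444),(9,636851)]) (F [(3,256),(5,131),(8,8)])) (F [(9,256),(3,186),(5,146)])))))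 (F [(3,200),(5,256),(9,26)])) (F [(3,256),(5,133)]))) (P0 1 1 (P3 1 1 (F [(5,240),(8,11),(3,256)]) (U1 8 1 (U2 1 1 (P4 2 1 (F [(3,256),(8,77),(5,173)]) (F [(8,1048576),(3,1048324),(5,636332),(9,636592)])) (P4 2 1 (F [(3,256),(5,240),(8,11)]) (U0 2 1 (P1 1 1 (P3 2 1 (F [(8,177),(5,176),(3,256)]) (F [(8,1048454),(5,636903),(3,1048576),(9,636789)])) (P0 1 2 (F [(3,1048576),(8,1048444),(5,636905),(9,636792)]) (F [(3,256),(8,8),(5,131)]))) (P1 1 1 (P3 2 1 (F [(5,256),(3,216),(8,17)]) (F [(9,636818),(3,1048576),(5,636964),(8,1048343)])) (F [(9,245),(3,256),(5,187)]))))) (F [(5,256),(3,200),(9,26)]))) (F [(3,256),(8,6),(5,199)]))) (P5 1 4 (U2 2 1 (P2 1 4 (P4 1 4 (F [(3,256),(9,13)]) (U1 1 1 (F [(3,1048576),(9,636767),(5,636812),(8,1048266)]) (F [(9,244),(3,256)]))) (P0 1 1 (U1 1 1 (F [(3,1048576),(9,636767),(5,636812),(8,1048266)]) (F [(9,244),(3,256)]))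 (F [(3,256),(9,13)]))) (F [(9,256)])) (U2 2 1 (P0 1 1 (P3 1 1 (F [(3,256),(5,156)]) (U1 1 1 (P4 2 1 (F [(3,256),(8,91),(5,31)]) (F [(3,1048484),(9,636645),(8,1048576),(5,636146)])) (P4 2 1 (F [(3,256),(5,156)]) (P1 1 1 (P3 2 1 (F [(9,9943),(3,16384),(5,9953),(8,16371)]) (F [(9,636940),(3,1048468),(5,636671),(8,1048576)])) (F [(9,244),(3,256)]))))) (F [(3,256),(8,45),(5,152)])) (F [(9,45),(3,256),(5,161)])))

def c174 : Cell := ⟨⟨585,1463,0⟩, ⟨1168,2927,1⟩, ⟨584,1463,1⟩, ⟨14726,9655,24237,16918⟩, ⟨14726,9655,24235,16920⟩, ⟨14724,9656,24236,16920⟩, ⟨7362,4827,12119,8460⟩⟩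

def t174 : Tr :=
  U2 1 1 (F [(8,256),(3,12),(9,112)]) (P4 1 2 (U0 2 1 (F [(8,256),(3,12),(9,112)]) (P2 1 2 (P5 1 2 (F [(9,154),(8,256),(5,21)]) (P1 1 2 (U2 2 1 (F [(8,1048576),(5,636212),(3,1047718),(9,636623)]) (P3 1 2 (U0 4 1 (P5 2 1 (F [(5,32),(8,256),(9,170)]) (P1 1 4 (F [(5,256)]) (F [(5,636589),(8,1048576),(3,1048173),(9,636777)]))) (F [(5,637051),(9,637020),(8,1048576),(3,1048556)])) (F [(8,256),(9,155)]))) (F [(8,256),(9,155)]))) (P1 1 1 (P5 2 1 (F [(8,256),(9,153),(3,21)]) (U2 2 1 (F [(8,256),(3,223),(9,41)]) (P3 1 2 (U0 4 1 (P1 1 2 (P5 4 1 (F [(8,1048576),(5,636716),(3,1048381),(9,636778)]) (F [(8,256),(5,8)])) (P0 2 1 (F [(8,1048576),(5,636716),(3,1048381),(9,636778)]) (U1 1 1 (F [(3,1048519),(8,1048576),(9,636778),(5,636691)]) (U0 1 2 (F [(8,256)]) (P1 2 1 (F [(8,1048576),(3,1048390),(5,636657),(9,636766)]) (F [(8,256),(3,68),(9,148)]))))))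 (P1 1 2 (P5 4 1 (F [(9,636834),(5,636864),(3,1048563),(8,1048576)]) (F [(5,9951),(8,16384),(9,9950),(3,16384)])) (P0 2 1 (U2 4 1 (P3 1 1 (F [(9,636804),(3,1048511),(8,1048576),(5,636754)]) (F [(8,256),(9,189),(5,4)])) (F [(9,636832),(5,636832),(3,1048497),(8,1048576)])) (U2 4 1 (F [(9,636774),(3,1048527),(8,1048576),(5,636670)]) (U0 8 1 (P1 2 1 (P5 1 1 (F [(9,256),(3,49),(8,164)]) (F [(9,9950),(3,16383),(5,9949),(8,16384)])) (F [(9,184),(3,125),(8,256)])) (F [(9,256)])))))) (F [(8,256),(9,153),(3,21)])))) (F [(3,135),(9,140),(8,256)])))) (U0 2 1 (F [(8,256),(3,155)]) (P1 1 1 (P3 1 1 (U2 2 1 (F [(8,256),(3,155)]) (P5 2 1 (F [(8,256),(9,147),(3,75)]) (U0 4 1 (F [(8,256),(3,155)]) (P1 1 2 (F [(5,636758),(8,1048576),(9,636784),(3,1048375)]) (P0 1 1 (F [(8,1048576),(5,636688),(9,636776),(3,1048353)]) (P2 2 1 (F [(8,1048576),(9,636778),(5,636690),(3,1048337)])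 (U2 4 1 (F [(3,256),(9,79),(8,245)]) (U0 8 1 (F [(9,40752284),(3,67102204),(8,67108864),(5,40743334)]) (F [(9,256),(8,134)]))))))))) (F [(8,256),(3,112),(9,142)])) (F [(8,256),(3,135),(9,140)]))))

def c175 : Cell := ⟨⟨1169,2927,0⟩, ⟨73,183,0⟩, ⟨1168,2927,1⟩, ⟨14726,9655,24237,16918⟩, ⟨14726,9655,24235,16920⟩, ⟨14724,9656,24236,16920⟩, ⟨7362,4827,12119,8460⟩⟩

def t175 : Tr :=
  F [(8,256),(5,8)]

def c176 : Cell := ⟨⟨585,1463,0⟩, ⟨1169,2927,0⟩, ⟨1168,2927,1⟩, ⟨14726,9655,24237,16918⟩, ⟨29450,19309,48473,33840⟩, ⟨14724,9656,24236,16920⟩, ⟨7362,4827,12119,8460⟩⟩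

def t176 : Tr :=
  U2 2 1 (F [(8,256),(3,11),(9,105)]) (P2 1 2 (F [(5,64),(8,256),(9,168)]) (P1 1 1 (P5 2 1 (F [(8,256),(9,150),(3,21)]) (U0 2 1 (P3 1 2 (P1 1 2 (F [(5,256),(8,34)]) (U1 2 1 (P0 2 1 (F [(8,34),(5,256)]) (U2 1 1 (F [(8,256),(5,8)]) (U0 2 1 (F [(8,256),(5,8)]) (P1 2 1 (F [(5,256),(8,34)]) (P2 2 1 (F [(8,256),(5,148),(9,144)]) (P0 4 1 (F [(8,256),(5,148),(9,144)]) (F [(8,67108864),(3,67108221),(5,40753664),(9,40755047)]))))))) (P0 2 1 (F [(5,256)]) (U0 1 2 (F [(8,256),(5,8)]) (U2 2 1 (F [(8,256),(5,8)]) (P1 2 1 (F [(5,256)]) (P2 2 1 (F [(5,256),(9,49)]) (P0 4 1 (F [(8,74),(5,256),(9,88)]) (U0 2 1 (F [(8,256),(5,8)]) (U2 4 1 (F [(8,256)]) (P1 4 1 (F [(8,16384),(5,9950),(3,16384),(9,9950)]) (F [(8,1048576),(3,1048480),(5,636694),(9,636812)])))))))))))) (F [(8,256),(3,21),(9,150)])) (P3 1 2 (U2 4 1 (P1 1 2 (F [(5,256),(9,49)])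 (P0 2 1 (F [(8,74),(5,256),(9,88)]) (U1 1 1 (U2 1 2 (F [(8,256)]) (P1 2 1 (P5 1 1 (F [(8,1048576),(5,636528),(3,1048231),(9,636758)]) (F [(8,16384),(5,9949),(3,16383),(9,9949)])) (F [(8,256),(3,56),(9,140)]))) (P1 2 1 (P5 1 1 (P2 1 2 (F [(5,636764),(8,1048576),(9,636813),(3,1048472)]) (U0 1 2 (U1 2 1 (F [(8,1048576),(5,636755),(3,1048525),(9,636780)]) (P1 1 1 (F [(5,256),(9,55)]) (P0 1 1 (F [(5,256),(9,23)]) (F [(5,636811),(8,1048554),(3,1048576),(9,636762)])))) (F [(8,1048576),(5,636754),(3,1048524),(9,636780)]))) (F [(8,16382),(5,9950),(3,16384),(9,9943)])) (P2 2 1 (P5 1 2 (F [(8,1048576),(5,636258),(9,636818),(3,1047657)]) (U0 1 2 (U1 2 1 (F [(8,1048576),(5,636697),(3,1048471),(9,636786)]) (P3 1 1 (P1 1 1 (F [(8,67108864),(5,40754562),(3,67108197),(9,40755033)]) (F [(5,636688),(8,1048576),(9,636816),(3,1048405)])) (F [(5,32),(8,256),(9,170)])))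 (F [(8,1048576),(3,1048479),(5,636703),(9,636788)]))) (U0 1 2 (P0 4 1 (U1 2 1 (F [(8,256),(3,140),(9,117)]) (P3 1 1 (P5 1 1 (F [(8,1048576),(5,636673),(3,1048393),(9,636812)]) (U0 1 4 (F [(8,1048576),(5,636759),(3,1048541),(9,636780)]) (F [(8,1048576),(5,636736),(3,1048526),(9,636779)]))) (F [(8,256),(9,155)]))) (U1 2 1 (F [(8,114),(3,256)]) (P1 4 1 (P5 1 1 (F [(3,1048507),(8,1048576),(9,636814),(5,636725)]) (U0 1 4 (F [(8,1048576),(3,1048546),(5,636758),(9,636780)]) (F [(3,256),(8,208),(9,97)]))) (F [(3,87),(9,160),(8,256)])))) (F [(8,256),(3,140),(9,117)]))))))) (P1 1 2 (F [(5,256),(9,55)]) (P0 2 1 (F [(9,91),(5,256),(8,69)]) (U0 4 1 (P1 2 1 (P5 1 1 (P2 1 2 (F [(9,256),(5,123),(8,148)]) (U1 2 1 (U2 1 1 (P1 1 1 (F [(9,636813),(5,636775),(3,1048495),(8,1048576)]) (F [(9,636793),(3,1048495),(8,1048576),(5,636722)])) (U0 2 1 (P1 1 1 (F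 [(9,114),(5,256)]) (F [(9,40755223),(3,67103360),(5,40749887),(8,67108864)])) (F [(9,256)]))) (U0 1 2 (P1 1 1 (F [(5,256),(9,55)]) (P0 1 1 (F [(5,256),(9,23)]) (P2 2 1 (F [(9,636808),(5,636788),(3,1048532),(8,1048576)]) (U1 4 1 (F [(9,40755251),(5,40753804),(3,67107505),(8,67108864)]) B)))) (U2 2 1 (P1 1 1 (F [(9,55),(5,256)]) (P0 1 1 (F [(9,97),(5,256),(8,79)]) (F [(9,636810),(3,1048517),(5,636734),(8,1048576)]))) (F [(9,256),(5,33)]))))) (U1 2 1 (U2 1 1 (P3 1 2 (P1 1 2 (F [(5,256),(8,17),(3,216)]) (P2 1 1 (F [(5,636833),(9,636778),(3,1048576),(8,1048534)]) (U1 1 2 (F [(3,1048502),(9,636781),(8,1048576),(5,636710)]) (P0 2 1 (F [(5,636811),(8,1048570),(3,1048576),(9,636791)]) (F [(3,16384),(9,9949),(8,16383),(5,9949)]))))) (P2 1 1 (F [(5,9950),(9,9950),(8,16384),(3,16383)]) (P0 1 1 (F [(8,1048576),(5,636758),(9,636796),(3,1048509)])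 (U1 1 2 (F [(3,1048410),(9,636790),(8,1048576),(5,636647)]) (P1 2 1 (F [(8,1048576),(5,636764),(9,636799),(3,1048498)]) (F [(3,1048535),(9,636783),(8,1048576),(5,636740)])))))) (P3 1 2 (U0 2 1 (P1 1 2 (F [(5,256),(9,62),(3,191)]) (P2 1 1 (F [(9,63),(5,256),(3,189)]) (P0 2 1 (F [(9,114),(5,256)]) (F [(9,636658),(3,1048576),(5,636811),(8,1048351)])))) (F [(9,256),(5,169)])) (U0 2 1 (P2 1 1 (F [(9,114),(5,256)]) (P0 1 1 (F [(9,192),(5,256),(8,129)]) (P1 2 1 (F [(9,125),(5,256),(8,18)]) (F [(9,636793),(3,1048544),(5,636755),(8,1048576)])))) (F [(9,256),(5,33)])))) (U0 1 2 (P3 1 2 (F [(5,209),(8,7),(3,256)]) (P2 1 1 (F [(5,256)]) (P0 1 1 (F [(5,256),(8,28)]) (U1 4 1 (P1 2 1 (F [(5,256),(8,28)]) (U2 1 1 (P2 2 1 (F [(5,256),(8,22),(3,152)]) (P0 2 1 (F [(5,636787),(8,1048576),(9,636796),(3,1048555)]) (F [(3,1048576),(5,636798),(8,1048562),(9,636789)])))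 B)) B)))) (P3 1 2 (F [(9,12),(5,219),(3,256)]) (U2 2 1 (P2 1 1 (F [(5,256),(9,49)]) (P0 1 1 (F [(5,256),(9,97),(8,79)]) (P1 2 1 (F [(9,91),(5,256),(8,69)]) (F [(9,636801),(3,1048546),(5,636767),(8,1048576)])))) (F [(9,256),(5,127)])))))) (P2 2 1 (P5 1 2 (F [(9,256),(5,17),(8,205)]) (U1 2 1 (F [(9,184),(3,125),(8,256)]) (U0 1 2 (P3 1 1 (P1 1 1 (P5 2 1 (F [(9,256),(5,17),(8,205)]) (U1 4 1 (U2 1 1 (P3 1 2 (F [(9,636804),(3,1048570),(8,1048576),(5,636788)]) (F [(9,9950),(3,16383),(5,9949),(8,16384)])) B) B)) (F [(9,256),(5,13),(8,255)])) (F [(9,231),(5,72),(8,256)])) (F [(9,184),(3,125),(8,256)])))) (U1 2 1 (F [(9,140),(3,135),(8,256)]) (P0 4 1 (U0 1 2 (P3 1 1 (P5 1 1 (F [(9,256),(5,13),(8,255)]) (U1 4 1 (U2 1 1 (P1 1 2 (P3 1 2 (F [(3,1048557),(9,636800),(8,1048576),(5,636771)]) (F [(9,189),(8,256),(5,4)])) (F [(9,213),(3,35),(8,256)]))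 B) B)) (F [(9,189),(5,4),(8,256)])) (F [(9,162),(3,130),(8,256)])) (U0 1 2 (P1 4 1 (P5 1 1 (F [(9,256),(8,89)]) (U1 4 1 (F [(9,102),(3,256),(8,211)]) B)) (F [(9,256),(8,89)])) (F [(9,123),(3,256),(8,181)])))))) (U2 8 1 (P1 2 1 (P5 1 1 (F [(9,256),(3,49),(8,164)]) (F [(9,9950),(3,16383),(5,9949),(8,16384)])) (F [(9,184),(3,125),(8,256)])) (F [(9,256)])))))) (F [(8,256),(9,157),(3,22)])))) (F [(9,118),(8,256),(3,140)])))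

def c177 : Cell := ⟨⟨585,1463,0⟩, ⟨1169,2927,0⟩, ⟨1168,2927,1⟩, ⟨14726,9655,24237,16918⟩, ⟨14726,9655,24235,16920⟩, ⟨14724,9656,24236,16920⟩, ⟨29450,19309,48473,33840⟩⟩

def t177 : Tr :=
  U2 2 1 (F [(8,256),(3,155)]) (P1 1 1 (P3 1 1 (U0 2 1 (F [(8,256),(5,10),(3,175)]) (P5 2 1 (F [(8,256),(9,159),(3,67)]) (U2 4 1 (F [(8,256),(5,10),(3,175)]) (P1 1 2 (F [(5,256),(9,34),(3,134)]) (P0 1 1 (F [(5,256),(8,79),(9,97)]) (P2 2 1 (F [(5,256),(8,79),(9,97)]) (U0 4 1 (P1 2 1 (U1 2 1 (P3 1 1 (U2 1 1 (P5 2 1 (F [(8,256),(3,83),(9,133)]) (P1 1 2 (F [(5,636806),(8,1048563),(3,1048576),(9,636760)]) (P0 1 1 (F [(8,1048576),(5,636772),(3,1048531),(9,636778)]) (U1 1 2 (F [(3,1048498),(8,1048576),(9,636772),(5,636694)]) (P2 2 1 (F [(8,1048576),(5,636774),(3,1048554),(9,636779)]) (F [(3,1048576),(8,1048563),(9,636742),(5,636712)])))))) (P5 2 1 (U0 2 1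 (P4 1 1 (P2 1 1 (F [(5,32),(8,256),(9,170)]) (P0 2 1 (F [(5,7),(8,256),(9,158)]) (P1 2 1 (F [(9,192),(5,256),(8,129)]) (F [(9,636788),(3,1048529),(8,1048576),(5,636735)])))) (P0 1 1 (F [(8,256),(9,155)]) (P2 2 1 (F [(8,256),(9,155)]) (P1 2 1 (F [(5,194),(9,242),(8,256)]) (F [(9,636781),(3,1048483),(8,1048576),(5,636688)]))))) (F [(9,256),(5,13),(8,255)])) (U0 2 1 (P1 1 2 (F [(5,256),(9,95),(3,71)]) (P0 1 1 (F [(5,9950),(8,16384),(9,9950),(3,16383)]) (P2 2 1 (F [(5,9950),(9,9950),(8,16384),(3,16383)]) (U1 1 1 (F [(9,9950),(3,16383),(5,9949),(8,16384)]) (U0 1 2 (F [(3,1048567),(8,1048576),(5,636762),(9,636773)]) (F [(9,636798),(3,1048545),(5,636767),(8,1048576)])))))) (F [(9,256),(5,123),(8,148)])))) (F [(8,256),(9,142),(3,112)])) (P3 1 1 (U0 1 2 (P5 2 1 (P4 1 1 (P2 1 1 (F [(5,256),(8,34)]) (U1 4 1 (P0 2 1 (F [(5,256),(8,34)]) (P1 2 1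 (F [(5,256),(8,34)]) (U2 1 1 (P2 2 1 (F [(8,256),(5,21),(9,154)]) (U1 1 2 (F [(8,67108864),(5,40752589),(3,67107193),(9,40754296)]) B)) B))) B)) (P0 1 1 (F [(5,256),(8,34)]) (U1 4 1 (P2 2 1 (F [(5,256),(8,34)]) (P1 2 1 (F [(5,256),(8,34)]) (U2 1 1 (P0 2 1 (F [(8,1048576),(5,636798),(3,1048574),(9,636786)]) (U1 1 2 (F [(8,67108864),(5,40752589),(3,67107193),(9,40754296)]) B)) B))) B))) (F [(5,15378),(8,721),(3,16384)])) (P5 2 1 (U2 2 1 (P4 1 1 (P2 1 1 (F [(5,26),(8,256),(9,160)]) (P0 2 1 (F [(5,6),(8,256),(9,157)]) (P1 2 1 (F [(5,256),(9,97),(8,79)]) (F [(9,40755221),(5,40751520),(3,67105108),(8,67108864)])))) (P0 1 1 (F [(5,256),(9,49)]) (P2 2 1 (F [(5,256),(8,37),(9,71)]) (P1 2 1 (F [(5,256),(9,71),(8,37)]) (U1 1 1 (U2 1 2 (P0 2 1 (F [(8,1048576),(5,636770),(3,1048552),(9,636784)]) (F [(8,1048576),(3,1048546),(5,636758),(9,636791)]))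 B) B))))) (F [(9,238),(5,256)])) (U2 2 1 (P1 1 2 (F [(5,256),(9,49)]) (P0 1 1 (F [(5,256),(9,49)]) (P2 2 1 (F [(5,256),(9,49)]) (U1 1 1 (U2 1 2 (P1 2 1 (F [(5,256),(8,66),(3,248)]) (P0 2 1 (F [(8,1048573),(5,636794),(3,1048576),(9,636782)]) (F [(3,1048576),(9,636403),(8,1047932),(5,636811)]))) B) B)))) (F [(9,238),(5,256)])))) (U0 1 2 (P0 1 2 (F [(8,256),(5,143)]) (P5 1 1 (P2 1 1 (F [(5,256),(8,34)]) (U1 4 1 (P1 2 1 (F [(8,34),(5,256)]) (U2 1 1 (P0 2 1 (F [(8,256),(9,104)]) (P2 2 1 (F [(8,256),(9,155)]) (U1 1 2 (F [(8,256),(3,124),(9,141)]) B))) B)) B)) (P1 1 1 (F [(8,34),(5,256)]) (U1 4 1 (P2 2 1 (F [(8,34),(5,256)]) (U2 1 1 (P0 2 1 (F [(8,256),(5,8)]) (P1 2 1 (F [(8,1048576),(5,636770),(3,1048540),(9,636786)]) (U1 1 2 (F [(8,1048576),(5,636645),(3,1048450),(9,636777)]) B))) B)) B)))) (P0 1 2 (F [(8,256),(5,26),(9,160)]) (U2 2 1 (P5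 1 1 (F [(8,256),(9,161),(3,111)]) (P1 1 1 (F [(8,79),(5,256),(9,97)]) (P2 2 1 (F [(8,79),(5,256),(9,97)]) (U1 1 1 (P0 2 1 (F [(8,256),(5,26),(9,160)]) (U2 1 2 (P1 2 1 (F [(8,1048576),(5,636759),(3,1048541),(9,636785)]) (F [(8,256),(3,130),(9,162)])) B)) B)))) (F [(9,256),(5,123),(8,148)])))))) (P0 2 1 (U1 2 1 (F [(8,256),(9,140),(3,135)]) (U0 1 2 (P3 2 1 (P2 1 1 (P5 1 1 (F [(8,34),(5,256)]) (U1 4 1 (U2 1 1 (F [(8,1048576),(5,636694),(3,1048492),(9,636779)]) B) B)) (U1 4 1 (F [(8,256),(9,135),(3,175)]) B)) (F [(8,256),(9,122)])) (F [(9,162),(8,256),(3,130)]))) (U1 2 1 (F [(9,140),(3,135),(8,256)]) (P2 4 1 (U0 1 2 (P4 1 1 (P5 1 1 (F [(8,256),(5,21),(9,154)]) (U1 4 1 (U2 1 1 (F [(8,1048576),(9,636785),(5,636718),(3,1048510)]) B) B)) (U1 4 1 (F [(8,256),(9,134),(3,185)]) B)) (F [(9,162),(3,130),(8,256)])) (U0 1 2 (P1 4 1 (U1 4 1 (F [(9,100),(3,256),(8,214)])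 B) (F [(9,184),(3,125),(8,256)])) (F [(9,159),(3,256),(8,241)])))))) (U2 8 1 (P1 2 1 (P3 1 1 (U1 1 1 (F [(9,636785),(3,1048506),(8,1048576),(5,636722)]) (F [(9,256),(5,123),(8,148)])) (F [(9,160),(8,256),(3,93)])) (F [(9,162),(3,130),(8,256)])) (F [(9,256),(8,134)]))))))))) (F [(8,256),(3,139),(9,118)])) (F [(8,256),(3,140),(9,118)]))

def c178 : Cell := ⟨⟨585,1463,0⟩, ⟨73,183,0⟩, ⟨584,1463,1⟩, ⟨29450,19313,48471,33838⟩, ⟨14726,9655,24235,16920⟩, ⟨7362,4829,12117,8460⟩, ⟨14724,9656,24236,16920⟩⟩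

def t178 : Tr :=
  U1 8 1 (U2 1 1 (F [(8,256)]) (P3 1 2 (F [(8,77),(5,173),(3,256)]) (U0 2 1 (F [(8,256)]) (P4 1 1 (U2 2 1 (F [(8,256),(5,8)]) (P5 1 2 (U0 4 1 (F [(8,256),(5,8)]) (P2 1 2 (F [(8,22),(5,256),(3,152)]) (P0 1 1 (F [(8,16384),(5,9951),(3,16384),(9,9948)]) (F [(8,16383),(5,9949),(3,16384),(9,9947)])))) (F [(8,1048576),(5,636480),(3,1048363),(9,636580)]))) (F [(8,256),(3,140),(9,117)]))))) (U0 1 8 (F [(8,256),(5,8)]) (P3 1 2 (F [(8,77),(5,173),(3,256)]) (U2 2 1 (F [(8,256)]) (P4 1 1 (U0 2 1 (F [(8,256),(5,8)]) (P5 1 2 (U2 4 1 (F [(8,256),(5,8)]) (P2 1 2 (F [(5,256),(3,117),(9,35)]) (P0 1 1 (F [(8,79),(5,256),(9,97)]) (F [(8,1048483),(5,636735),(3,1048576),(9,636563)])))) (F [(8,1048576),(5,636410),(3,1048324),(9,636505)]))) (F [(8,256),(3,140),(9,117)])))))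

def c179 : Cell := ⟨⟨585,1463,0⟩, ⟨1168,2927,1⟩, ⟨584,1463,1⟩, ⟨14726,9655,24237,16918⟩, ⟨14726,9655,24235,16920⟩, ⟨29450,19313,48471,33838⟩, ⟨14724,9656,24236,16920⟩⟩

def t179 : Tr :=
  U2 1 1 (F [(8,256),(3,155)]) (U0 2 1 (F [(8,256),(3,155)]) (P2 1 1 (P4 1 1 (U2 2 1 (F [(8,256),(3,155)]) (U0 4 1 (F [(8,256),(3,155)]) (P2 1 2 (P5 1 2 (P4 1 2 (F [(5,9952),(8,16381),(3,16384),(9,9948)]) (U2 4 1 (F [(8,1048576),(5,636594),(3,1048423),(9,636676)]) (P0 1 2 (F [(8,25),(5,256),(3,113)]) (F [(5,9952),(8,16383),(9,9949),(3,16384)])))) (P3 1 1 (P1 1 2 (F [(3,1048576),(8,1048515),(5,636662),(9,636640)]) (U2 4 1 (F [(8,91),(3,256),(5,31)]) (P0 1 1 (F [(8,1048576),(3,1048567),(5,636706),(9,636704)]) (F [(3,1048576),(9,636652),(5,636852),(8,1048406)])))) (U2 4 1 (F [(8,1048576),(5,636068),(3,1048215),(9,636525)]) (P0 1 2 (F [(8,1048576),(5,636817),(3,1048527),(9,636718)])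 (P1 1 1 (F [(8,16384),(5,9950),(3,16383),(9,9949)]) (F [(5,636880),(8,1048515),(9,636730),(3,1048576)])))))) (P1 1 1 (P3 1 1 (P5 2 1 (U2 4 1 (F [(3,256),(8,91),(5,31)]) (P4 1 1 (F [(3,1048576),(9,636527),(8,1048247),(5,636746)]) (F [(3,135),(8,256),(9,140)]))) (F [(3,175),(8,256),(9,135)])) (P0 1 2 (U2 4 1 (F [(8,16384),(5,9948),(3,16381),(9,9949)]) (P4 2 1 (P5 1 1 (F [(8,1048576),(5,636767),(9,636784),(3,1048391)]) (F [(8,256),(9,155)])) (F [(8,256),(9,155)]))) (U2 4 1 (F [(8,126),(3,256),(9,7)]) (P5 1 1 (F [(3,67100212),(9,40752226),(8,67108864),(5,40744580)]) (F [(8,256),(3,75),(9,147)]))))) (P0 1 1 (P3 2 1 (F [(8,1048576),(3,1048430),(9,636755),(5,636627)]) (U2 4 1 (F [(8,16384),(5,9948),(3,16381),(9,9949)]) (F [(8,1048576),(5,636745),(9,636783),(3,1048380)]))) (F [(3,67103926),(9,40750992),(8,67108864),(5,40739838)])))))) (F [(8,256),(3,135),(9,140)]))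 (F [(8,256),(3,185),(9,134)])))

theorem g14 : ∀ c ∈ [c168, c169, c170, c171, c172, c173, c174, c175, c176, c177, c178, c179], Done D c := by
  intro c hc
  simp only [List.mem_cons, List.not_mem_nil, or_false] at hc
  rcases hc with rfl | rfl | rfl | rfl | rfl | rfl | rfl | rfl | rfl | rfl | rfl | rfl
  · exact done_of_chk (t := t168) (by decide +kernel)
  · exact done_of_chk (t := t169) (by decide +kernel)
  · exact done_of_chk (t := t170) (by decide +kernel)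
  · exact done_of_chk (t := t171) (by decide +kernel)
  · exact done_of_chk (t := t172) (by decide +kernel)
  · exact done_of_chk (t := t173) (by decide +kernel)
  · exact done_of_chk (t := t174) (by decide +kernel)
  · exact done_of_chk (t := t175) (by decide +kernel)
  · exact done_of_chk (t := t176) (by decide +kernel)
  · exact done_of_chk (t := t177) (by decide +kernel)
  · exact done_of_chk (t := t178) (by decide +kernel)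
  · exact done_of_chk (t := t179) (by decide +kernel)

end Pool.Agent.W2helper59.NW.I0
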