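import Pool.Agent.W2helper59.NW.D_I0

set_option autoImplicit false
set_option maxRecDepth 1000000

namespace Pool.Agent.W2helper59.NW.I0

open Tr

def c180 : Cell := ⟨⟨1169,2927,0⟩, ⟨73,183,0⟩, ⟨1168,2927,1⟩, ⟨14726,9655,24237,16918⟩, ⟨14726,9655,24235,16920⟩, ⟨29450,19313,48471,33838⟩, ⟨14724,9656,24236,16920⟩⟩

def t180 : Tr :=
  F [(8,256),(3,155)]

def c181 : Cell := ⟨⟨2338,5853,1⟩, ⟨1169,2927,0⟩, ⟨1168,2927,1⟩, ⟨14726,9655,24237,16918⟩, ⟨14726,9655,24235,16920⟩, ⟨29450,19313,48471,33838⟩, ⟨14724,9656,24236,16920⟩⟩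

def t181 : Tr :=
  F [(8,256),(3,155)]

def c182 : Cell := ⟨⟨2339,5853,0⟩, ⟨1169,2927,0⟩, ⟨2338,5853,1⟩, ⟨29450,19311,48473,33838⟩, ⟨29450,19311,48471,33840⟩, ⟨29450,19313,48471,33838⟩, ⟨14724,9656,24236,16920⟩⟩

def t182 : Tr :=
  F [(8,166),(5,81),(3,256)]

def c183 : Cell := ⟨⟨4678,11705,1⟩, ⟨2339,5853,0⟩, ⟨2338,5853,1⟩, ⟨29450,19311,48473,33838⟩, ⟨29450,19311,48471,33840⟩, ⟨29450,19313,48471,33838⟩, ⟨14724,9656,24236,16920⟩⟩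

def t183 : Tr :=
  F [(8,166),(5,81),(3,256)]

def c184 : Cell := ⟨⟨585,1463,0⟩, ⟨2339,5853,0⟩, ⟨4678,11705,1⟩, ⟨58898,38623,96945,67678⟩, ⟨29450,19311,48471,33840⟩, ⟨29450,19313,48471,33838⟩, ⟨14724,9656,24236,16920⟩⟩

def t184 : Tr :=
  P5 1 2 (F [(5,256),(3,134),(9,34)]) (P3 1 1 (P1 1 2 (F [(8,1048444),(3,1048576),(5,636735),(9,636602)]) (U0 4 1 (F [(8,66),(5,256),(3,248)]) (P0 1 1 (F [(8,1048523),(5,636751),(3,1048576),(9,636674)]) (F [(3,1048576),(5,636903),(9,636594),(8,1048307)])))) (F [(8,79),(5,256),(9,97)]))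

def c185 : Cell := ⟨⟨585,1463,0⟩, ⟨2339,5853,0⟩, ⟨4678,11705,1⟩, ⟨58900,38624,96944,67676⟩, ⟨29450,19311,48471,33840⟩, ⟨29450,19313,48471,33838⟩, ⟨58898,38623,96945,67678⟩⟩

def t185 : Tr :=
  P3 1 1 (P5 2 1 (U0 4 1 (P4 1 1 (P2 1 1 (F [(8,11),(5,240),(3,256)]) (F [(8,1048430),(3,1048576),(5,636753),(9,636622)])) (F [(8,1048576),(5,636669),(3,1048529),(9,636686)])) (P4 1 1 (U2 8 1 (P2 1 1 (F [(3,1048576),(8,1048311),(5,636821),(9,636580)]) (F [(3,1048576),(8,1048572),(9,636745),(5,636739)])) (F [(9,636784),(3,1048574),(5,636752),(8,1048576)])) (U2 8 1 (F [(8,1048576),(3,1048544),(5,636695),(9,636714)]) (P0 1 1 (F [(3,1048576),(9,636706),(8,1048553),(5,636751)]) (F [(9,636763),(3,1048567),(8,1048576),(5,636738)]))))) (F [(3,213),(8,256),(9,98)])) (P0 1 2 (F [(8,98),(5,256),(9,108)]) (U0 4 1 (P5 1 1 (P2 1 1 (P4 1 2 (F [(5,636821),(8,1048433),(3,1048576),(9,636667)])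 (U1 2 1 (U2 1 1 (F [(8,256),(3,216)]) (P0 1 1 (F [(8,256),(9,57)]) (U0 2 1 (F [(8,256),(3,216)]) (P1 1 1 (F [(8,33),(5,256),(3,9)]) (P2 2 1 (F [(8,1048576),(5,636777),(3,1048516),(9,636762)]) (F [(3,1048573),(8,1048576),(5,636726),(9,636747)])))))) (U0 1 2 (F [(8,19),(5,256),(3,191)]) (P0 1 1 (F [(8,256),(9,57)]) (U2 2 1 (F [(8,149),(5,144),(3,256)]) (P1 1 1 (F [(5,256),(8,79),(9,97)]) (P2 2 1 (F [(5,256),(8,79),(9,97)]) (U0 2 1 B (F [(3,1048576),(5,636755),(8,1048554),(9,636737)]))))))))) (U1 2 1 (P0 2 1 (U2 1 1 (F [(8,245),(3,256)]) (P4 1 1 (U0 2 1 (F [(8,245),(3,256)]) (P1 1 2 (F [(8,1048511),(5,636775),(3,1048576),(9,636708)]) (F [(8,256),(3,169),(9,136)]))) (F [(8,256)]))) (F [(8,1048491),(3,1048576),(5,636747),(9,636676)])) (P0 2 1 (U0 1 2 (F [(8,116),(5,174),(3,256)]) (P4 1 1 (U2 2 1 (F [(8,132),(5,145),(3,256)]) (P1 1 2 (P5 1 1 (F [(8,1048527),(5,636721),(3,1048576),(9,636692)])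 (F [(8,74),(5,256),(9,88)])) (F [(8,256),(3,213),(9,98)]))) (F [(8,256)]))) (P1 2 1 (U0 1 2 (F [(8,117),(5,131),(3,256)]) (U2 2 1 (F [(8,117),(5,131),(3,256)]) (P3 1 2 (F [(8,1048458),(5,636791),(3,1048576),(9,636672)]) (F [(8,256),(3,223),(9,95)])))) (F [(8,119),(3,256)]))))) (F [(8,256),(3,83),(9,133)])) (P5 1 1 (U2 8 1 (P2 1 1 (P4 1 2 (F [(8,1048470),(5,636802),(3,1048576),(9,636689)]) (U1 1 1 (F [(8,256),(3,140),(9,117)]) (P0 1 1 (F [(8,256),(9,122)]) (F [(8,1048549),(3,1048576),(5,636765),(9,636739)])))) (P0 2 1 (U1 1 1 (F [(8,245),(3,256)]) (P4 1 1 (F [(3,1048576),(8,1048540),(9,636725),(5,636750)]) (F [(8,256),(3,11),(9,105)]))) (F [(3,1048576),(8,1048572),(9,636745),(5,636739)]))) (F [(9,256),(5,17),(8,210)])) (F [(8,256),(3,67),(9,159)]))))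

def c186 : Cell := ⟨⟨585,1463,0⟩, ⟨2339,5853,0⟩, ⟨4678,11705,1⟩, ⟨29450,19311,48473,33838⟩, ⟨29450,19311,48471,33840⟩, ⟨58900,38624,96944,67676⟩, ⟨58898,38623,96945,67678⟩⟩

def t186 : Tr :=
  P0 1 1 (P3 2 1 (U0 4 1 (P5 1 1 (P4 1 2 (U1 2 1 (P2 1 1 (U2 1 1 (F [(8,177),(5,176),(3,256)]) (U0 2 1 (F [(8,177),(5,176),(3,256)]) (P5 1 2 (F [(5,256),(3,132)]) (P1 1 1 (F [(9,636707),(3,1048576),(5,636815),(8,1048481)]) (F [(5,636807),(8,1048571),(9,636770),(3,1048576)]))))) (U2 1 1 (F [(8,256),(3,166)]) (P1 2 1 (U0 2 1 (F [(8,256),(3,166)]) (P5 1 1 (F [(8,256),(9,155)]) (P3 1 2 (F [(3,1048553),(9,636756),(8,1048576),(5,636723)]) (F [(8,1048576),(5,636764),(9,636769),(3,1048500)])))) (F [(8,256),(5,21),(9,154)])))) (P2 1 1 (F [(5,256),(3,200),(9,26)]) (U0 1 2 (F [(8,22),(5,256),(3,152)]) (P1 2 1 (U2 2 1 (F [(8,224),(5,138),(3,256)]) (P5 1 1 (F [(5,256),(8,79),(9,97)])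 (P3 1 2 (U0 2 1 B (P1 1 2 (F [(9,636750),(3,1048576),(5,636779),(8,1048545)]) (F [(9,636769),(5,636755),(8,1048576),(3,1048542)]))) (F [(5,256),(8,73),(9,94)])))) (F [(8,256),(5,26),(9,160)]))))) (U1 2 1 (U2 1 1 (F [(8,256),(3,216)]) (P1 2 1 (P3 1 1 (U0 2 1 (F [(8,256),(3,216)]) (P5 2 1 (F [(8,1048576),(5,636763),(3,1048500),(9,636764)]) (F [(8,1048576),(3,1048554),(9,636753),(5,636718)]))) (F [(8,256),(9,111)])) (F [(8,256),(5,21),(9,154)]))) (U0 1 2 (F [(8,22),(5,256),(3,152)]) (P1 2 1 (P3 1 1 (U2 2 1 (F [(8,196),(5,140),(3,256)]) (P5 2 1 (F [(8,87),(5,256),(9,102)]) (U0 2 1 B (P3 1 2 (P1 1 2 (F [(9,2),(3,256),(5,134)]) (F [(9,636765),(8,1048576),(5,636752),(3,1048547)])) (F [(8,1048576),(5,636759),(9,636762),(3,1048549)]))))) (F [(8,256),(9,111)])) (F [(8,256),(5,26),(9,160)]))))) (P1 1 1 (F [(8,256),(3,213),(9,98)]) (U1 2 1 (F [(8,256),(3,175),(9,135)])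 (U0 1 2 (F [(8,177),(5,176),(3,256)]) (P2 2 1 (P4 1 1 (U2 2 1 (F [(8,196),(5,140),(3,256)]) (P5 1 1 (U0 2 1 B (F [(9,119),(3,191),(8,256)])) (F [(8,256),(3,139),(9,118)]))) (F [(8,256),(9,122)])) (F [(8,256),(9,155)])))))) (U2 8 1 (P5 1 1 (P4 1 2 (P2 1 1 (U1 1 1 (F [(8,16384),(3,16384),(5,9949),(9,9949)]) (F [(9,636775),(5,636776),(3,1048570),(8,1048576)])) (F [(8,16384),(9,10298),(3,7124)])) (F [(8,16384),(3,7124),(9,10298)])) (F [(8,256),(3,147),(9,163)])) (F [(9,256),(3,45),(8,250)]))) (F [(8,87),(5,256),(9,102)])) (U0 4 1 (P5 1 1 (P2 2 1 (U1 2 1 (P4 1 1 (U2 1 1 (P2 1 2 (F [(8,1048572),(5,636781),(3,1048576),(9,636753)]) (F [(8,1048576),(3,1048554),(5,636690),(9,636721)])) (U0 2 1 (P2 1 2 (F [(5,636805),(8,1048534),(3,1048576),(9,636731)]) (P0 1 1 (P3 1 1 (P5 2 1 (F [(3,1048575),(8,1048576),(5,636797),(9,636775)]) (P1 1 2 (F [(3,256),(8,166),(5,81)])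 (F [(8,1048576),(3,1048575),(5,636797),(9,636775)]))) (F [(8,1048576),(5,636792),(3,1048560),(9,636776)])) (P1 1 1 (P5 2 1 (F [(3,1048576),(9,636777),(8,1048571),(5,636782)]) (F [(3,1048535),(8,1048576),(9,636764),(5,636696)])) (F [(3,1048573),(9,636775),(8,1048576),(5,636753)])))) (P2 1 2 (P5 1 2 (F [(9,60),(5,256),(3,107)]) (P3 1 1 (F [(9,636688),(3,1048576),(5,636806),(8,1048440)]) (F [(9,636785),(5,636808),(3,1048576),(8,1048576)]))) (P0 1 1 (P3 1 1 (F [(9,636769),(3,1048576),(5,636801),(8,1048529)]) (F [(9,9950),(5,9950),(3,16383),(8,16384)])) (F [(9,256),(3,149)]))))) (U2 1 1 (F [(8,256),(3,140),(9,117)]) (P0 1 2 (P3 2 1 (U0 2 1 (F [(8,256),(3,166)]) (P1 1 2 (P5 1 1 (F [(8,256),(9,155)]) (F [(9,636757),(3,1048548),(8,1048576),(5,636718)])) (F [(9,144),(8,256),(3,99)]))) (F [(8,256),(9,155)])) (U0 2 1 (P3 1 2 (P2 1 1 (P5 1 1 (F [(8,256),(3,10),(9,110)])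 (F [(8,1048576),(3,1048472),(5,636628),(9,636748)])) (F [(3,152),(8,256),(9,138)])) (F [(8,256),(3,112),(9,142)])) (P3 1 2 (P2 1 1 (P5 1 1 (F [(9,155),(8,256)]) (F [(9,636779),(3,1048576),(8,1048564),(5,636775)])) (F [(9,240),(3,212),(8,256)])) (F [(9,162),(3,91),(8,256)])))))) (P4 1 1 (U0 1 2 (F [(5,15378),(8,721),(3,16384)]) (U2 2 1 (P2 1 2 (F [(5,256),(8,66),(3,248)]) (P0 1 1 (P3 1 1 (P5 2 1 (F [(5,256),(3,103),(9,37)]) (P1 1 2 (F [(3,256),(8,101),(5,148)]) (F [(5,636812),(8,1048565),(3,1048576),(9,636772)]))) (F [(5,256),(9,49)])) (P1 1 1 (P5 2 1 (F [(3,1048576),(5,636799),(9,636765),(8,1048546)]) (P3 1 2 (F [(3,256),(5,155)]) (F [(3,1048576),(5,636799),(8,1048545),(9,636764)]))) (U1 1 1 (U2 1 2 (P5 1 1 (P2 2 1 (F [(5,145),(8,132),(3,256)]) (P0 2 1 (F [(8,1048573),(3,1048576),(5,636794),(9,636782)]) (F [(3,256),(9,13)]))) (P0 2 1 (F [(8,1048558),(3,1048576),(5,636793),(9,636766)])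 (F [(3,256),(9,13)]))) B) B)))) (F [(9,63),(5,256),(3,191)]))) (U0 1 2 (P0 1 2 (F [(8,25),(5,256),(3,113)]) (P3 1 2 (P2 1 1 (F [(8,25),(5,256),(3,113)]) (P1 1 1 (F [(8,19),(5,256),(3,191)]) (U1 4 1 (U2 1 1 (F [(8,1040),(3,16384),(5,15048)]) B) B))) (P2 1 1 (F [(8,34),(5,256)]) (U1 4 1 (U2 1 1 (P0 2 1 (F [(8,256)]) (P1 4 1 (F [(8,256),(3,164)]) (P2 2 1 (F [(8,1048576),(5,636762),(3,1048550),(9,636776)]) (F [(8,178),(3,256),(9,39)])))) B) B)))) (P0 1 2 (P3 2 1 (U2 2 1 (F [(8,256),(5,109),(3,212)]) (P1 1 2 (P5 1 1 (F [(5,26),(8,256),(9,160)]) (U0 2 1 B (F [(9,636776),(3,1048534),(5,636709),(8,1048576)]))) (F [(8,256),(9,155)]))) (F [(8,256),(9,155)])) (U2 2 1 (P3 1 2 (P2 1 1 (P5 1 1 (F [(8,256),(9,104)]) (P1 1 2 (F [(8,173),(3,256),(5,142)]) (F [(8,1048576),(5,636790),(3,1048571),(9,636775)]))) (P1 1 1 (P5 2 1 (U1 1 1 (F [(8,1048572),(3,1048576),(5,636779),(9,636772)])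 B) (U1 1 1 (F [(3,256),(8,114)]) B)) (U1 1 1 (P0 4 1 (F [(8,1048576),(3,1048561),(5,636757),(9,636769)]) (U2 1 2 (P2 2 1 (F [(8,1048564),(3,1048576),(5,636788),(9,636768)]) (F [(3,256),(9,13)])) B)) B))) (P2 1 1 (F [(8,256),(9,104)]) (U1 1 1 (P0 2 1 (F [(8,256),(3,12),(9,112)]) (P1 4 1 (F [(8,256),(3,107),(9,127)]) (U2 1 2 (P2 2 1 (F [(8,1048576),(3,1048549),(5,636760),(9,636778)]) (F [(3,256),(8,241),(9,159)])) B))) B))) (P3 1 2 (P2 1 1 (P5 1 1 (F [(9,160),(5,26),(8,256)]) (P1 1 2 (U0 2 1 B (F [(9,636771),(3,1048576),(5,636768),(8,1048568)])) (F [(9,636782),(3,1048575),(5,636789),(8,1048576)]))) (P1 1 1 (P5 2 1 (F [(9,636802),(3,1048565),(5,636783),(8,1048576)]) (U0 2 1 B (F [(9,13),(3,256)]))) (F [(9,256),(5,17),(8,205)]))) (F [(9,204),(5,6),(8,256)]))))))) (P0 2 1 (U1 2 1 (F [(8,256),(3,185),(9,134)]) (U0 1 2 (P4 2 1 (P1 1 1 (P3 1 2 (P5 1 1 (U1 4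 1 (U2 1 1 (F [(8,140),(3,256)]) B) B) (U1 4 1 (U2 1 1 (F [(8,210),(3,256)]) B) B)) (U1 4 1 (U2 1 1 (F [(8,256),(3,213),(9,98)]) B) B)) (U1 4 1 (F [(8,256),(3,175),(9,135)]) B)) (F [(8,256),(5,10),(3,175)])) (P4 2 1 (P1 1 1 (U2 2 1 (P3 1 2 (P5 1 1 (U1 1 1 (F [(3,256),(8,114)]) B) (U1 1 1 (F [(3,256),(8,114)]) B)) (F [(8,256),(3,96),(9,160)])) (P3 1 2 (P5 1 1 (F [(9,256),(5,17),(8,205)]) (U0 2 1 B (F [(9,13),(3,256)]))) (F [(9,204),(8,256),(5,6)]))) (F [(9,163),(3,147),(8,256)])) (P3 2 1 (P1 1 1 (U2 2 1 (F [(8,256),(5,10),(3,175)]) (P5 2 1 (F [(9,155),(8,256)]) (U0 2 1 B (F [(9,164),(3,173),(8,256)])))) (F [(8,256),(9,160),(3,93)])) (F [(8,256),(9,155)]))))) (P1 4 1 (U1 2 1 (F [(3,256),(9,97),(8,208)]) (U0 1 2 (P3 1 1 (F [(3,256),(8,91),(5,31)]) (U1 4 1 (F [(3,256),(8,208),(9,97)]) B)) (F [(9,123),(3,256),(8,181)]))) (U1 2 1 (F [(3,256),(9,97),(8,208)])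 (U0 1 2 (P2 4 1 (U1 4 1 (F [(3,256),(9,97),(8,208)]) B) (F [(3,213),(9,98),(8,256)])) (F [(9,159),(3,256),(8,241)])))))) (P0 2 1 (P3 1 1 (F [(3,256),(8,245),(9,79)]) (U1 2 1 (F [(8,256),(3,185),(9,134)]) (U0 1 2 (F [(8,256),(3,223),(9,41)]) (P4 2 1 (P2 1 1 (U2 2 1 (F [(8,256),(3,223),(9,41)]) (P5 1 1 (U0 2 1 B (F [(9,164),(3,173),(8,256)])) (F [(8,256),(9,118),(3,140)]))) (F [(8,256),(9,160),(3,93)])) (F [(8,256),(9,155)]))))) (F [(3,256),(9,79),(8,245)]))) (U2 8 1 (P5 1 1 (P2 2 1 (P4 1 1 (U1 1 1 (F [(3,1048546),(9,636772),(8,1048576),(5,636729)]) (F [(9,636794),(3,1048527),(5,636729),(8,1048576)])) (F [(9,162),(3,130),(8,256)])) (F [(9,164),(3,173),(8,256)])) (F [(3,173),(9,164),(8,256)])) (F [(9,256),(8,89)])))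

def c187 : Cell := ⟨⟨585,1463,0⟩, ⟨1169,2927,0⟩, ⟨2338,5853,1⟩, ⟨29450,19311,48473,33838⟩, ⟨14726,9655,24235,16920⟩, ⟨29450,19313,48471,33838⟩, ⟨29450,19311,48471,33840⟩⟩

def t187 : Tr :=
  F [(8,256),(3,140),(9,118)]

def c188 : Cell := ⟨⟨585,1463,0⟩, ⟨1169,2927,0⟩, ⟨2338,5853,1⟩, ⟨14726,9655,24237,16918⟩, ⟨14726,9655,24235,16920⟩, ⟨29450,19313,48471,33838⟩, ⟨29450,19311,48473,33838⟩⟩

def t188 : Tr :=
  F [(8,256),(3,213),(9,98)]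

def c189 : Cell := ⟨⟨585,1463,0⟩, ⟨73,183,0⟩, ⟨584,1463,1⟩, ⟨14726,9655,24237,16918⟩, ⟨3682,2413,6059,4230⟩, ⟨14726,9655,24235,16920⟩, ⟨7362,4827,12119,8460⟩⟩

def t189 : Tr :=
  F [(8,256),(3,21),(9,150)]

def c190 : Cell := ⟨⟨585,1463,0⟩, ⟨1168,2927,1⟩, ⟨584,1463,1⟩, ⟨14724,9658,24236,16918⟩, ⟨14726,9655,24237,16918⟩, ⟨14724,9656,24236,16920⟩, ⟨7362,4827,12119,8460⟩⟩

def t190 : Tr :=
  P2 1 2 (U2 1 1 (F [(8,256),(3,140),(9,117)]) (U0 2 1 (P4 1 2 (P5 1 2 (P2 1 4 (F [(8,1048576),(5,636537),(3,1048242),(9,636785)]) (F [(8,166),(3,256),(5,81)])) (F [(8,256),(5,10),(3,175)])) (F [(8,190),(3,256)])) (P4 1 2 (P5 1 2 (P2 1 4 (U2 2 1 (P3 1 1 (F [(9,636891),(5,636692),(8,1048576),(3,1048284)]) (F [(9,9952),(3,16381),(8,16384),(5,9947)])) (U0 4 1 (P3 1 1 (F [(9,9952),(5,9950),(3,16380),(8,16384)]) (F [(9,9952),(3,16381),(5,9947),(8,16384)])) (F [(9,256),(5,33)])))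 (U2 2 1 (P0 1 1 (P3 1 1 (U1 1 2 (F [(3,1048398),(9,636814),(8,1048576),(5,636590)]) (P1 1 2 (F [(3,16380),(5,9948),(9,9951),(8,16384)]) (F [(3,256),(9,39),(8,178)]))) (F [(3,256),(9,39),(8,178)])) (F [(3,16384),(9,9942),(8,16369),(5,9953)])) (P0 1 1 (U0 4 1 (P3 1 1 (P1 1 2 (F [(9,636894),(5,636752),(3,1048372),(8,1048576)]) (F [(9,636887),(3,1048528),(5,636775),(8,1048576)])) (F [(9,636871),(3,1048446),(8,1048576),(5,636588)])) (F [(9,256),(5,33)])) (F [(9,33),(3,256),(5,230)])))) (P3 1 2 (U2 2 1 (P1 1 2 (P5 2 1 (F [(8,16384),(5,9949),(3,16383),(9,9949)]) (F [(8,1048138),(5,636572),(3,1048576),(9,636350)])) (F [(3,1048576),(8,1048511),(5,636764),(9,636727)])) (U0 4 1 (P1 1 2 (P5 2 1 (F [(5,636837),(8,1048518),(3,1048576),(9,636763)]) (P3 1 4 (F [(5,256),(3,132)]) (F [(5,636837),(8,1048518),(3,1048576),(9,636763)]))) (F [(3,1048576),(5,636842),(9,636719),(8,1048382)]))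 (F [(9,46),(3,256),(5,163)]))) (U2 2 1 (P0 1 1 (P4 1 1 (U1 1 2 (F [(3,16381),(8,16384),(9,9950),(5,9946)]) (P2 1 2 (F [(8,1048576),(5,636592),(3,1048228),(9,636836)]) (F [(3,256),(8,245),(9,80)]))) (F [(3,141),(9,117),(8,256)])) (F [(3,1048576),(8,1048295),(9,636665),(5,636839)])) (P0 1 1 (U0 4 1 (P4 1 1 (P2 1 2 (F [(9,636867),(5,636672),(3,1048216),(8,1048576)]) (F [(9,636824),(3,1048388),(8,1048576),(5,636582)])) (F [(9,142),(3,112),(8,256)])) (F [(9,256)])) (U0 4 1 (F [(3,1048576),(9,636670),(5,636839),(8,1048302)]) (F [(9,256)])))))) (P3 1 1 (P5 2 1 (F [(3,1048429),(9,636741),(8,1048576),(5,636253)]) (U2 2 1 (F [(3,256),(8,190)]) (U0 4 1 (P3 1 2 (P1 1 2 (P5 4 1 (U1 1 1 (F [(3,1048576),(5,636776),(8,1048519),(9,636766)]) (F [(8,16384),(5,9952),(3,16384),(9,9950)])) (F [(5,176),(8,177),(3,256)])) (U1 1 1 (F [(3,1048576),(9,636746),(5,636705),(8,1048491)])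 (F [(3,1048576),(8,1048352),(5,636964),(9,636691)]))) (P0 1 1 (U1 1 1 (F [(3,1048576),(9,636769),(8,1048530),(5,636728)]) (U0 1 2 (F [(8,256),(3,166)]) (P3 2 1 (F [(3,1048576),(8,1048504),(5,636803),(9,636750)]) (F [(3,135),(8,256),(9,140)])))) (U1 1 1 (F [(3,1048576),(9,636761),(8,1048517),(5,636720)]) (P2 2 1 (U0 1 2 (F [(3,240),(8,256)]) (F [(3,1048576),(8,1048402),(9,636711),(5,636875)])) (F [(3,256),(8,11),(5,240)]))))) (F [(9,44),(3,256),(5,161)])))) (F [(3,256)]))))) (F [(3,256),(8,8),(5,130)])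

def c191 : Cell := ⟨⟨585,1463,0⟩, ⟨73,183,0⟩, ⟨1168,2927,1⟩, ⟨14724,9658,24236,16918⟩, ⟨14726,9655,24237,16918⟩, ⟨14724,9656,24236,16920⟩, ⟨7362,4827,12119,8460⟩⟩

def t191 : Tr :=
  P2 1 2 (U0 1 8 (F [(8,256),(5,93),(3,128)]) (U2 2 1 (P4 1 2 (P5 1 2 (P2 1 4 (F [(8,67108864),(5,40730309),(3,67062270),(9,40719340)]) (F [(8,256),(5,102),(3,201)])) (F [(8,256),(5,67),(3,143)])) (F [(8,256),(3,143),(5,67)])) (P4 1 2 (P5 1 2 (P2 1 4 (U0 2 1 (P3 1 1 (F [(5,256),(8,28)]) (P4 1 4 (F [(5,256),(9,88),(8,74)]) (U1 2 1 (F [(9,636916),(5,636757),(3,1048518),(8,1048576)]) (F [(9,181),(5,134),(8,256)])))) (F [(9,636967),(5,636670),(3,1048180),(8,1048576)])) (U0 2 1 (P0 1 1 (P3 1 1 (F [(5,9952),(9,9950),(8,16382),(3,16384)]) (U1 2 1 (F [(9,636907),(3,1048526),(5,636757),(8,1048576)]) (F [(9,636961),(5,636873),(3,1048565),(8,1048576)]))) (F [(5,209),(3,256),(8,7)]))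 (P0 1 1 (U2 4 1 (P3 1 1 (F [(9,636851),(5,636894),(3,1048576),(8,1048489)]) (F [(9,9952),(3,16382),(5,9948),(8,16384)])) (F [(9,256),(5,127)])) (F [(9,12),(3,256),(5,219)])))) (P3 1 2 (F [(5,256),(3,117),(9,35)]) (U0 2 1 (P0 1 1 (P4 1 1 (F [(5,636995),(8,1048323),(9,636720),(3,1048576)]) (P3 2 1 (U1 2 1 (U2 1 1 (F [(8,1048576),(5,636773),(3,1048528),(9,636825)]) (U0 2 1 (F [(5,636784),(8,1048576),(3,1048532),(9,636831)]) (F [(9,636895),(5,636857),(3,1048543),(8,1048576)]))) (F [(5,637014),(8,1048476),(9,636867),(3,1048576)])) (F [(9,9952),(3,16382),(8,16384),(5,9949)]))) (F [(5,240),(3,256),(8,11)])) (P0 1 1 (U2 4 1 (P4 1 1 (P2 1 2 (F [(5,256),(9,71),(8,37)]) (U1 1 1 (U2 1 2 (F [(3,1048534),(8,1048576),(5,636781),(9,636834)]) (F [(9,636865),(3,1048576),(5,636848),(8,1048552)])) (F [(9,63),(3,191),(5,256)]))) (P3 2 1 (U1 1 1 (U2 1 2 (F [(3,1048495),(8,1048576),(9,636821),(5,636731)])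 (P1 1 1 (F [(9,636874),(3,1048377),(8,1048576),(5,636707)]) (F [(9,256),(3,149)]))) (F [(9,9953),(3,16384),(5,9953),(8,16384)])) (F [(9,162),(3,130),(8,256)]))) (F [(9,256),(5,33)])) (U2 4 1 (F [(9,636650),(3,1048576),(5,636883),(8,1048255)]) (F [(9,256),(5,33)])))))) (P3 1 1 (P5 2 1 (U0 2 1 (P2 1 1 (P4 1 1 (P5 1 2 (F [(9,636892),(3,1048507),(8,1048576),(5,636697)]) (U1 2 1 (U2 1 1 (F [(8,256),(3,223),(9,41)]) (U0 2 1 (F [(8,1048576),(3,1048541),(5,636743),(9,636782)]) (P3 1 1 (F [(9,636897),(3,1048498),(5,636815),(8,1048576)]) (F [(9,135),(3,175),(8,256)])))) (U0 1 2 (F [(8,16384),(5,9951),(3,16384),(9,9950)]) (U2 2 1 (F [(8,1048576),(5,636802),(3,1048536),(9,636838)]) (F [(9,9952),(3,16382),(5,9950),(8,16384)]))))) (U1 2 1 (U2 1 1 (F [(8,166),(3,256),(5,81)]) (P0 1 2 (U0 2 1 (F [(8,256),(3,162)]) (P3 2 1 (P5 1 1 (F [(9,636812),(3,1048434),(8,1048576),(5,636622)])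 (F [(8,1048571),(3,1048576),(5,636808),(9,636832)])) (F [(3,1048470),(9,636815),(8,1048576),(5,636661)]))) (U0 2 1 (F [(3,256),(8,166),(5,81)]) (P5 1 1 (F [(9,135),(3,175),(8,256)]) (F [(9,636855),(3,1048576),(5,636837),(8,1048560)]))))) (U0 1 2 (F [(8,1048534),(5,636835),(3,1048576),(9,636786)]) (P0 1 2 (U2 2 1 (F [(8,256),(5,10),(3,175)]) (P3 2 1 (P5 1 1 (F [(9,636841),(3,1048467),(8,1048576),(5,636713)]) (F [(5,636831),(8,1048540),(9,636825),(3,1048576)])) (F [(3,1048467),(9,636838),(8,1048576),(5,636709)]))) (U2 2 1 (F [(8,1048576),(3,1048536),(5,636802),(9,636838)]) (F [(9,636900),(3,1048547),(5,636845),(8,1048576)])))))) (U1 2 1 (P0 1 1 (U2 1 1 (F [(3,256),(8,77),(5,173)]) (P4 2 1 (F [(3,256),(5,209),(8,7)]) (U0 2 1 (F [(8,256),(3,175),(5,10)]) (P3 2 1 (F [(3,1048576),(9,636720),(5,636833),(8,1048410)]) (F [(3,1048576),(9,636795),(8,1048532),(5,636759)])))))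 (F [(3,256),(5,240),(8,11)])) (P0 1 1 (U0 1 2 (F [(8,77),(5,173),(3,256)]) (P4 2 1 (F [(3,256),(5,219),(9,12)]) (U2 2 1 (F [(8,129),(5,145),(3,256)]) (P3 2 1 (F [(5,256),(3,237),(9,22)]) (F [(3,1048576),(9,636787),(8,1048512),(5,636782)]))))) (F [(3,237),(5,256),(9,22)])))) (P2 1 1 (U2 4 1 (P4 1 1 (P5 1 2 (F [(9,164),(3,173),(8,256)]) (U1 1 1 (U2 1 2 (F [(3,223),(8,256),(9,41)]) (P3 1 1 (P1 1 1 (F [(9,636874),(3,1048377),(8,1048576),(5,636707)]) (F [(9,102),(3,256),(8,211)])) (F [(9,119),(3,191),(8,256)]))) (P3 1 1 (P1 1 1 (F [(9,9952),(3,16381),(5,9950),(8,16384)]) (F [(9,159),(3,256),(8,241)])) (F [(9,163),(3,147),(8,256)])))) (U1 1 1 (P0 1 2 (F [(3,1048326),(8,1048576),(9,636758),(5,636513)]) (U2 1 2 (F [(3,256),(8,166),(5,81)]) (P5 1 1 (F [(3,213),(9,98),(8,256)]) (P1 1 1 (F [(3,1048479),(9,636797),(8,1048576),(5,636671)]) (F [(3,256),(9,39),(8,178)])))))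 (P0 1 2 (P3 2 1 (P5 1 1 (F [(9,160),(3,93),(8,256)]) (U0 1 2 (F [(9,636841),(3,1048509),(5,636744),(8,1048576)]) (F [(9,636821),(3,1048516),(8,1048576),(5,636723)]))) (F [(9,160),(3,93),(8,256)])) (P5 1 1 (F [(9,163),(3,147),(8,256)]) (P1 1 1 (U0 1 2 (F [(9,636846),(3,1048576),(5,636831),(8,1048546)]) (F [(9,636822),(3,1048517),(5,636725),(8,1048576)])) (F [(9,159),(3,256),(8,241)])))))) (F [(9,256),(3,57)])) (U2 4 1 (P0 1 1 (U1 1 1 (F [(3,1048576),(8,1048481),(9,636734),(5,636742)]) (P4 2 1 (F [(9,2119),(3,16384),(5,14702)]) (P3 2 1 (P1 1 1 (U0 1 2 (F [(9,636840),(3,1048538),(5,636766),(8,1048576)]) (F [(9,636778),(3,1048576),(8,1048497),(5,636787)])) (F [(3,256),(9,159),(8,241)])) (F [(3,173),(9,164),(8,256)])))) (F [(3,1048576),(9,636695),(5,636842),(8,1048342)])) (F [(9,256),(3,57)])))) (U0 2 1 (P3 1 2 (F [(5,256),(8,22),(3,152)]) (U1 2 1 (P0 1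 1 (U2 1 1 (F [(8,256),(3,166)]) (U0 2 1 (F [(8,224),(5,138),(3,256)]) (P3 2 1 (F [(5,256),(8,19),(3,191)]) (P4 2 1 (F [(5,636935),(3,1048576),(8,1048395),(9,636703)]) (F [(3,67108864),(8,67104028),(5,40754313),(9,40752463)]))))) (F [(3,216),(5,256),(8,17)])) (P0 1 1 (U0 1 2 (F [(8,177),(5,176),(3,256)]) (U2 2 1 (F [(8,177),(5,176),(3,256)]) (P3 2 1 (F [(5,256),(3,168)]) (P4 2 1 (F [(5,256),(3,117),(9,35)]) (P0 1 2 (U0 2 1 (F [(8,177),(5,176),(3,256)]) (F [(3,67108864),(8,67107260),(5,40754161),(9,40754217)])) (F [(3,200),(5,256),(9,26)])))))) (F [(5,256),(3,200),(9,26)])))) (U2 4 1 (P3 1 2 (F [(5,256),(3,117),(9,35)]) (P0 1 1 (U1 1 1 (U2 1 2 (F [(8,256),(3,166)]) (P3 2 1 (P1 1 1 (P5 1 1 (F [(8,1048576),(3,1048568),(5,636778),(9,636793)]) (F [(3,256),(5,170),(9,3)])) (F [(3,1048576),(8,1048568),(5,636747),(9,636789)])) (F [(3,1048544),(8,1048576),(9,636789),(5,636715)])))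 (P3 2 1 (P1 1 1 (P5 1 1 (P4 1 2 (F [(5,9951),(8,16380),(3,16384),(9,9948)]) (F [(5,155),(3,256)])) (F [(5,169),(3,256),(9,6)])) (P2 1 1 (P4 1 2 (F [(3,1048576),(5,636829),(9,636777),(8,1048500)]) (F [(3,256),(5,155)])) (F [(3,256),(5,155)]))) (P4 2 1 (P2 1 1 (P5 1 2 (U0 1 2 (F [(5,636805),(9,636825),(3,1048573),(8,1048576)]) (F [(3,1048542),(9,636816),(5,636763),(8,1048576)])) (U0 1 2 (U1 2 1 (F [(3,1048571),(8,1048576),(5,636757),(9,636794)]) (F [(9,636689),(3,1048576),(5,636784),(8,1048359)])) (F [(3,16384),(8,16381),(9,9948),(5,9949)]))) (F [(3,67108864),(9,40752840),(8,67104623),(5,40753531)])) (F [(3,67108864),(9,40752827),(8,67104652),(5,40751759)])))) (F [(3,1048576),(5,637292),(9,636448),(8,1047794)]))) (F [(9,46),(3,256),(5,163)])))) (P0 1 2 (F [(3,141),(9,117),(8,256)]) (U0 2 1 (P2 1 1 (F [(3,16384),(9,9946),(8,16381),(5,9939)]) (F [(3,256),(8,91),(5,31)]))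 (F [(9,10),(3,256)]))))))) (F [(8,22),(3,256),(5,126)])

theorem g15 : ∀ c ∈ [c180, c181, c182, c183, c184, c185, c186, c187, c188, c189, c190, c191], Done D c := by
  intro c hc
  simp only [List.mem_cons, List.not_mem_nil, or_false] at hc
  rcases hc with rfl | rfl | rfl | rfl | rfl | rfl | rfl | rfl | rfl | rfl | rfl | rfl
  · exact done_of_chk (t := t180) (by decide +kernel)
  · exact done_of_chk (t := t181) (by decide +kernel)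
  · exact done_of_chk (t := t182) (by decide +kernel)
  · exact done_of_chk (t := t183) (by decide +kernel)
  · exact done_of_chk (t := t184) (by decide +kernel)
  · exact done_of_chk (t := t185) (by decide +kernel)
  · exact done_of_chk (t := t186) (by decide +kernel)
  · exact done_of_chk (t := t187) (by decide +kernel)
  · exact done_of_chk (t := t188) (by decide +kernel)
  · exact done_of_chk (t := t189) (by decide +kernel)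
  · exact done_of_chk (t := t190) (by decide +kernel)
  · exact done_of_chk (t := t191) (by decide +kernel)

end Pool.Agent.W2helper59.NW.I0
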