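import Pool.Agent.W2helper59.NW.D_I0

set_option autoImplicit false
set_option maxRecDepth 1000000

namespace Pool.Agent.W2helper59.NW.I0

open Tr

def c192 : Cell := ⟨⟨585,1463,0⟩, ⟨73,183,0⟩, ⟨584,1463,1⟩, ⟨14724,9658,24236,16918⟩, ⟨14726,9655,24237,16918⟩, ⟨7362,4829,12117,8460⟩, ⟨14724,9656,24236,16920⟩⟩

def t192 : Tr :=
  F [(8,22),(3,256),(5,126)]

def c193 : Cell := ⟨⟨585,1463,0⟩, ⟨73,183,0⟩, ⟨584,1463,1⟩, ⟨7362,4829,12119,8458⟩, ⟨14726,9655,24237,16918⟩, ⟨14724,9658,24236,16918⟩, ⟨7362,4827,12119,8460⟩⟩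

def t193 : Tr :=
  P2 1 1 (U1 8 1 (P5 1 2 (U2 1 1 (F [(3,140),(8,256),(9,118)]) (U0 2 1 (P4 1 2 (P2 1 2 (P5 1 4 (F [(8,1048576),(3,1048331),(5,636589),(9,636885)]) (F [(3,256),(8,36),(5,41)])) (F [(3,256),(8,49)])) (F [(3,256),(8,49)])) (F [(3,211),(9,256),(5,102)]))) (F [(3,256),(8,49)])) (P5 1 2 (U0 1 8 (P4 1 2 (F [(8,1048240),(5,636956),(3,1048576),(9,636689)]) (F [(8,16380),(3,16384),(5,9949),(9,9947)])) (U2 2 1 (P4 1 2 (P2 1 2 (P5 1 4 (U1 1 1 (F [(8,1048576),(5,636696),(3,1048418),(9,636873)]) (P4 1 4 (F [(5,637329),(8,1048473),(9,637111),(3,1048576)]) (U0 1 2 (F [(5,9951),(8,16384),(3,16383),(9,9952)]) (F [(8,1048569),(3,1048576),(5,636763),(9,636885)])))) (U1 1 1 (F [(8,75),(3,256),(5,53)]) (P3 1 1 (F [(3,256),(5,170)]) (U0 1 2 (F [(5,636840),(3,1048524),(8,1048576),(9,636903)]) (F [(3,16384),(8,16381),(5,9947),(9,9945)])))))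 (F [(3,16384),(8,16380),(5,9947),(9,9947)])) (F [(3,1048576),(8,1048363),(9,636556),(5,636625)])) (P4 1 2 (P2 1 2 (P5 1 4 (U0 2 1 (P4 1 4 (F [(9,189),(5,256),(3,54)]) (U1 2 1 (F [(9,9957),(3,16384),(5,9949),(8,16375)]) (F [(9,256),(5,123),(8,148)]))) (F [(9,256),(3,211),(5,102)])) (U0 2 1 (P3 1 1 (F [(3,256),(5,170)]) (U1 2 1 (F [(9,9949),(3,16384),(5,9948),(8,16379)]) (F [(9,636959),(3,1048568),(5,636865),(8,1048576)]))) (F [(9,10),(3,256),(5,33)]))) (F [(9,636686),(3,1048576),(5,636655),(8,1048194)])) (F [(3,1048576),(9,636684),(8,1048188),(5,636644)])))) (F [(3,256),(8,75),(5,53)]))) (F [(3,256),(8,114)])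

def c194 : Cell := ⟨⟨293,731,0⟩, ⟨585,1463,0⟩, ⟨584,1463,1⟩, ⟨7362,4829,12119,8458⟩, ⟨3682,2413,6059,4230⟩, ⟨7362,4829,12117,8460⟩, ⟨7362,4827,12119,8460⟩⟩

def t194 : Tr :=
  P0 1 2 (P3 2 1 (U2 2 1 (P5 1 1 (U1 1 1 (F [(8,256),(3,142),(9,117)]) (P4 1 2 (P2 1 2 (P5 1 2 (F [(9,155),(8,256)]) (P1 1 2 (U0 1 2 (U1 2 1 (P3 1 2 (F [(8,1048576),(5,636703),(3,1048498),(9,636778)]) (F [(8,256),(9,157),(3,22)])) (F [(9,636884),(5,636767),(3,1048278),(8,1048576)])) (F [(9,9949),(3,16377),(8,16384),(5,9944)])) (F [(9,157),(3,22),(8,256)]))) (P1 1 1 (P5 2 1 (F [(9,164),(3,173),(8,256)]) (U0 1 2 (U1 2 1 (P3 1 2 (U2 1 2 (F [(8,256),(3,223),(9,41)]) (P1 1 2 (F [(9,636826),(3,1048503),(8,1048576),(5,636784)]) (F [(9,118),(3,140),(8,256)]))) (F [(8,256),(9,160),(3,93)])) (P3 1 2 (P1 1 2 (F [(9,636831),(3,1048506),(5,636788),(8,1048576)]) (F [(9,162),(3,130),(8,256)]))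 (F [(9,213),(3,35),(8,256)]))) (F [(9,9948),(3,16376),(8,16384),(5,9940)]))) (F [(9,162),(3,130),(8,256)]))) (P1 1 1 (U0 1 2 (P3 1 1 (U1 2 1 (P5 2 1 (F [(8,256),(3,83),(9,133)]) (F [(8,1048576),(3,1048466),(5,636462),(9,636619)])) (P5 2 1 (F [(9,159),(8,256),(3,67)]) (P1 1 2 (F [(9,636789),(5,636654),(8,1048576),(3,1048302)]) (F [(9,162),(3,130),(8,256)])))) (F [(8,256),(9,160),(3,93)])) (F [(8,16384),(3,16376),(9,9948),(5,9940)])) (F [(9,162),(8,256),(3,130)])))) (P1 1 2 (U1 1 1 (F [(8,178),(3,256),(9,39)]) (P3 1 2 (F [(8,1047259),(3,1048576),(5,636802),(9,635562)]) (U0 1 2 (P4 1 1 (U1 2 1 (F [(8,16384),(5,9946),(3,16381),(9,9947)]) (P5 1 2 (P2 1 2 (F [(8,16384),(5,9950),(3,16382),(9,9949)]) (P0 1 1 (F [(8,1048576),(5,636761),(3,1048471),(9,636722)]) (F [(3,1048576),(8,1048533),(9,636661),(5,636722)]))) (F [(8,1048576),(5,636533),(3,1048393),(9,636637)])))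 (F [(8,256),(3,140),(9,117)])) (F [(8,1048576),(3,1048529),(5,635324),(9,636392)])))) (U1 1 1 (F [(8,178),(3,256),(9,39)]) (P2 1 1 (U0 1 2 (P4 1 1 (U1 2 1 (F [(8,16384),(3,16384),(5,9942),(9,9944)]) (P2 1 2 (P5 1 2 (U0 1 4 (P4 1 2 (F [(9,9949),(5,9951),(3,16384),(8,16383)]) (U1 4 1 (F [(8,1048576),(5,636514),(3,1048366),(9,636698)]) (F [(9,636777),(5,636818),(8,1048576),(3,1048492)]))) (F [(9,636728),(3,1048364),(8,1048576),(5,636597)])) (P3 1 1 (F [(3,256),(9,159),(8,241)]) (U0 1 4 (U1 4 1 (F [(8,256),(3,191),(9,119)]) (F [(9,636771),(8,1048576),(5,636744),(3,1048456)])) (F [(8,256),(3,185),(9,134)])))) (F [(9,163),(3,147),(8,256)]))) (F [(8,256),(3,130),(9,162)])) (F [(8,16384),(3,16376),(9,9948),(5,9941)])) (F [(3,173),(9,164),(8,256)]))))) (P5 1 1 (F [(9,256),(8,137),(5,22)]) (P1 1 2 (U0 2 1 (P3 1 2 (P5 2 1 (U1 2 1 (F [(9,102),(3,256),(8,211)])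 (U0 1 2 (P4 1 2 (F [(9,9936),(3,16384),(5,9952),(8,16363)]) (P1 1 1 (F [(5,9951),(8,16381),(3,16384),(9,9946)]) (F [(3,1048541),(9,636659),(8,1048576),(5,636657)]))) (F [(9,9949),(3,16381),(5,9946),(8,16384)]))) (P1 1 4 (F [(3,16384),(5,9951),(8,16381),(9,9945)]) (U1 2 1 (F [(3,256),(9,97),(8,208)]) (U0 1 2 (P2 1 1 (F [(3,16384),(5,9951),(8,16381),(9,9946)]) (F [(3,16384),(9,9944),(8,16384),(5,9943)])) (F [(9,9946),(3,16384),(5,9946),(8,16382)]))))) (U1 2 1 (F [(9,213),(3,35),(8,256)]) (P4 1 1 (U0 1 2 (P5 1 2 (F [(9,9951),(3,16383),(5,9949),(8,16384)]) (F [(9,636691),(8,1048576),(5,636583),(3,1048421)])) (F [(9,213),(3,35),(8,256)])) (F [(9,118),(8,256),(3,139)])))) (F [(9,123),(3,256),(8,181)])) (F [(9,256),(8,112)])))) (F [(9,157),(8,256),(3,22)])) (U2 2 1 (P1 1 1 (P5 1 1 (P2 1 2 (U1 1 1 (F [(3,142),(8,256),(9,117)]) (P4 1 2 (P5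 1 2 (F [(9,636919),(3,1048155),(5,636274),(8,1048576)]) (P3 1 2 (F [(9,636568),(3,1048576),(5,636839),(8,1048134)]) (F [(9,9951),(3,16382),(8,16384),(5,9946)]))) (F [(9,4),(3,256),(5,111)]))) (F [(3,256),(9,2),(5,134)])) (F [(3,256),(9,2),(5,134)])) (F [(3,167),(9,164),(8,256)])) (F [(9,45),(3,256),(5,161)]))

def c195 : Cell := ⟨⟨293,731,0⟩, ⟨73,183,0⟩, ⟨292,731,1⟩, ⟨920,604,1515,1057⟩, ⟨7362,4829,12119,8458⟩, ⟨1840,1208,3029,2115⟩, ⟨1840,1207,3030,2115⟩⟩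

def t195 : Tr :=
  F [(3,256),(5,156)]

def c196 : Cell := ⟨⟨147,365,0⟩, ⟨293,731,0⟩, ⟨292,731,1⟩, ⟨920,604,1515,1057⟩, ⟨3682,2413,6059,4230⟩, ⟨1840,1208,3029,2115⟩, ⟨1840,1207,3030,2115⟩⟩

def t196 : Tr :=
  F [(9,122),(3,256),(8,181)]

def c197 : Cell := ⟨⟨147,365,0⟩, ⟨73,183,0⟩, ⟨146,365,1⟩, ⟨920,604,1515,1057⟩, ⟨1842,1207,3029,2114⟩, ⟨460,302,757,529⟩, ⟨3682,2413,6059,4230⟩⟩

def t197 : Tr :=
  P3 1 4 (P1 1 2 (P5 8 1 (U1 2 1 (F [(8,16384),(3,16357),(9,9923),(5,9863)]) (U0 1 2 (P2 2 1 (P4 1 1 (P5 1 2 (U1 4 1 (F [(8,256),(3,185),(9,134)]) (U0 1 4 (F [(8,204),(5,256)]) (P2 1 2 (F [(8,256),(9,155)]) (U2 2 1 (F [(8,256),(3,33)]) (P0 1 1 (F [(8,256),(9,155)]) (U0 2 1 (P1 2 1 (F [(8,256),(9,111)]) (P2 2 1 (F [(8,256),(9,155)]) (F [(8,16384),(5,9951),(3,16378),(9,9946)]))) (F [(8,16384),(9,9947),(5,9941),(3,16373)]))))))) (U1 4 1 (U2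 1 1 (F [(8,256),(3,240)]) (U0 2 1 (F [(8,256),(3,240)]) (F [(8,1048576),(5,636057),(3,1047511),(9,636464)]))) (U0 1 4 (F [(8,34),(5,256)]) (U2 2 1 (F [(8,256),(3,33)]) (P3 1 1 (F [(8,16384),(5,9954),(3,16380),(9,9946)]) (P0 1 1 (F [(8,256),(9,155)]) (F [(8,16384),(5,9951),(3,16380),(9,9945)]))))))) (U1 4 1 (U2 1 1 (F [(8,245),(3,256)]) (P0 1 2 (F [(8,256)]) (U0 2 1 (F [(8,245),(3,256)]) (F [(8,1048576),(5,636057),(3,1047511),(9,636464)])))) (U0 1 4 (F [(8,34),(5,256)]) (P0 1 2 (F [(8,256)]) (U2 2 1 (F [(8,256),(3,33)]) (P5 1 1 (P2 1 1 (F [(8,256),(9,111)]) (F [(8,16384),(5,9949),(3,16381),(9,9944)])) (F [(8,16381),(5,9955),(3,16384),(9,9942)]))))))) (U1 4 1 (P0 2 1 (U2 1 1 (F [(8,245),(3,256)]) (P4 2 1 (U0 2 1 (F [(8,245),(3,256)]) (F [(8,16353),(5,9956),(3,16384),(9,9921)])) (F [(8,256),(5,10),(3,175)]))) (F [(8,11),(5,240),(3,256)]))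 (P0 2 1 (U0 1 4 (F [(8,34),(5,256)]) (P4 2 1 (F [(8,1047173),(5,637528),(3,1048576),(9,635499)]) (F [(8,256),(5,10),(3,175)]))) (F [(5,256),(3,237),(9,22)])))) (P2 2 1 (U2 2 1 (P4 1 1 (P5 1 2 (F [(8,256),(9,164),(3,173)]) (F [(8,1048576),(5,635552),(3,1047856),(9,636148)])) (F [(8,1048576),(3,1047985),(5,635675),(9,636144)])) (F [(9,213),(3,35),(8,256)])) (U2 2 1 (P0 2 1 (F [(8,1048576),(3,1047985),(5,635675),(9,636144)]) (F [(3,1048576),(8,1046156),(5,637080),(9,634592)])) (P0 2 1 (F [(9,9944),(3,16382),(8,16384),(5,9944)]) (F [(9,9942),(3,16384),(5,9961),(8,16366)])))))) (U1 2 1 (U2 1 1 (F [(8,256),(3,240)]) (U0 2 1 (F [(8,256),(3,240)]) (F [(3,16384),(8,16374),(5,9944),(9,9929)]))) (U0 1 2 (F [(8,177),(5,176),(3,256)]) (U2 2 1 (F [(8,196),(5,140),(3,256)]) (P3 1 8 (F [(5,256),(3,117),(9,35)]) (F [(9,9925),(3,16384),(5,9946),(8,16366)]))))))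 (U1 2 1 (F [(3,256),(9,100),(8,214)]) (U0 1 2 (P2 4 1 (P5 2 1 (P0 1 2 (P4 1 1 (U1 4 1 (F [(8,214),(3,256),(9,100)]) (U0 1 4 (F [(8,256),(5,8)]) (P2 1 4 (P5 1 2 (F [(8,256),(9,155)]) (U2 2 1 (F [(8,256),(3,33)]) (P3 1 1 (U0 2 1 (P1 1 4 (P5 2 1 (F [(8,256),(9,155)]) (F [(8,16381),(5,9947),(3,16384),(9,9943)])) (F [(8,256),(9,155)])) (F [(9,159),(3,256),(8,241)])) (F [(8,256),(9,155)])))) (U2 2 1 (F [(8,256),(3,33)]) (P3 1 1 (F [(3,16384),(8,16354),(9,9897),(5,9886)]) (F [(8,256),(3,140),(9,118)])))))) (U1 4 1 (F [(8,208),(3,256),(9,97)]) (U0 1 4 (F [(8,256),(5,8)]) (P3 2 1 (U2 2 1 (F [(8,256),(3,33)]) (P5 1 1 (F [(8,256),(3,140),(9,117)]) (F [(8,16383),(3,16384),(5,9944),(9,9940)]))) (F [(8,256),(3,223),(9,41)]))))) (U1 4 1 (F [(3,256),(8,214),(9,100)]) (U0 1 4 (F [(8,256),(3,223),(9,41)]) (P2 1 2 (P4 1 4 (P5 1 2 (F [(8,256),(9,160),(3,93)])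 (U2 2 1 (F [(8,256),(3,223),(9,41)]) (P1 1 2 (U0 2 1 (P3 1 4 (P5 2 1 (F [(8,256),(9,118),(3,139)]) (P1 1 4 (F [(3,16384),(8,16379),(5,9947),(9,9942)]) (F [(3,16378),(9,9938),(8,16384),(5,9927)]))) (F [(8,256),(9,119),(3,191)])) (F [(9,123),(3,256),(8,181)])) (F [(9,256),(3,49),(8,164)])))) (F [(3,256),(8,119),(9,3)])) (F [(3,256),(5,107)]))))) (F [(3,256),(8,92),(5,31)])) (F [(3,256),(8,158)])) (F [(3,256),(9,102),(8,211)])))) (F [(3,198),(9,102),(8,256)])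

def c198 : Cell := ⟨⟨37,91,0⟩, ⟨147,365,0⟩, ⟨146,365,1⟩, ⟨920,604,1515,1057⟩, ⟨1842,1207,3029,2114⟩, ⟨460,302,757,529⟩, ⟨920,603,1515,1058⟩⟩

def t198 : Tr :=
  U2 4 1 (P4 1 2 (P1 1 2 (P5 2 1 (F [(9,9950),(3,16315),(8,16384),(5,9862)]) (P3 1 8 (F [(3,16384),(9,9928),(8,16366),(5,9952)]) (F [(9,9945),(3,16356),(8,16384),(5,9907)]))) (F [(9,164),(3,167),(8,256)])) (P3 1 4 (P1 1 2 (P5 8 1 (F [(9,164),(3,173),(8,256)]) (F [(3,16384),(9,9930),(8,16374),(5,9938)])) (F [(3,256),(9,13)])) (F [(9,13),(3,256)]))) (F [(9,256),(5,169)])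

def c199 : Cell := ⟨⟨147,365,0⟩, ⟨73,183,0⟩, ⟨146,365,1⟩, ⟨1840,1207,3031,2114⟩, ⟨3682,2413,6059,4230⟩, ⟨1840,1207,3030,2115⟩, ⟨920,603,1515,1058⟩⟩

def t199 : Tr :=
  U1 2 1 (P2 1 2 (U2 1 1 (P4 1 4 (P5 1 2 (F [(9,256),(8,254),(5,13)]) (F [(9,9948),(3,16353),(8,16384),(5,9913)])) (F [(9,119),(3,191),(8,256)])) (U0 2 1 (P4 1 4 (P5 1 2 (F [(9,256),(5,123),(8,148)]) (F [(9,9953),(3,16349),(5,9910),(8,16384)])) (F [(9,134),(3,185),(8,256)])) (F [(9,256)]))) (F [(9,94),(3,256),(8,204)])) (P2 1 2 (U0 1 2 (P4 1 4 (P5 1 2 (F [(5,123),(9,256),(8,148)]) (U1 4 1 (U2 1 1 (P0 2 1 (P3 1 4 (F [(9,9957),(5,9961),(3,16384),(8,16380)]) (F [(8,256),(9,156)])) (F [(9,256),(3,134),(5,239)])) (F [(9,88),(5,256),(3,95)])) (F [(9,60),(5,256),(3,107)]))) (P0 1 1 (U1 4 1 (P3 1 2 (U2 1 1 (P5 4 1 (F [(8,256),(9,150),(3,21)]) (P1 1 4 (F [(3,16384),(9,9952),(8,16384),(5,9950)])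 (F [(9,9954),(3,16370),(8,16384),(5,9940)]))) (P5 4 1 (F [(9,156),(8,256)]) (U0 2 1 (P1 1 4 (F [(9,9951),(3,16384),(5,9950),(8,16382)]) (F [(9,9954),(3,16368),(5,9939),(8,16384)])) (F [(9,256)])))) (F [(9,156),(8,256)])) (P3 1 2 (U0 1 4 (P5 4 1 (F [(8,256),(9,156)]) (P1 1 4 (U1 8 1 (P3 1 4 (F [(5,256),(3,232)]) (U2 1 1 (F [(5,9953),(8,16384),(3,16382),(9,9952)]) (F [(9,193),(5,256),(8,129)]))) (F [(5,256),(9,49)])) (U1 8 1 (U2 1 1 (F [(5,636692),(8,1048576),(9,637059),(3,1048006)]) (F [(9,245),(5,256),(8,215)])) (F [(5,256),(9,49)])))) (P5 4 1 (F [(9,156),(8,256)]) (U2 2 1 (P1 1 4 (P3 1 4 (F [(9,24),(3,217),(5,256)]) (U1 1 1 (F [(9,9953),(3,16381),(5,9950),(8,16384)]) (F [(9,256)]))) (U1 1 1 (F [(9,637078),(5,636393),(3,1047964),(8,1048576)]) (F [(9,256)]))) (F [(9,256)])))) (F [(8,256),(9,156)]))) (U1 4 1 (U2 1 1 (P2 2 1 (P5 4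 1 (F [(9,156),(8,256)]) (P1 1 8 (P3 1 4 (F [(9,9951),(3,16384),(5,9960),(8,16376)]) (F [(9,9956),(3,16372),(8,16384),(5,9944)])) (F [(9,9956),(3,16370),(5,9943),(8,16384)]))) (F [(9,256),(3,34)])) (P2 2 1 (P5 4 1 (F [(9,170),(5,32),(8,256)]) (F [(9,637228),(3,1048509),(5,636892),(8,1048576)])) (F [(9,256),(3,34)]))) (U0 1 4 (P2 2 1 (P5 4 1 (F [(5,21),(8,256),(9,154)]) (P1 1 8 (P3 1 4 (F [(5,256),(3,232)]) (F [(5,9955),(9,9970),(3,16372),(8,16384)])) (F [(5,123),(9,256),(8,148)]))) (F [(9,256),(5,44),(3,18)])) (P2 2 1 (P5 4 1 (F [(9,161),(5,26),(8,256)]) (F [(9,637321),(5,636948),(3,1048500),(8,1048576)])) (F [(9,256),(3,34)])))))) (U2 2 1 (P4 1 4 (P5 1 2 (F [(9,256),(5,123),(8,148)]) (F [(9,9960),(3,16344),(5,9905),(8,16384)])) (F [(9,164),(3,172),(8,256)])) (F [(9,256)]))) (U0 1 2 (P0 2 1 (P4 1 1 (F [(9,256),(3,18),(5,44)]) (U1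 4 1 (F [(9,102),(3,256),(8,211)]) (P3 1 2 (U0 1 4 (P1 1 4 (P5 4 1 (U1 8 1 (U2 1 1 (P2 1 2 (P0 1 4 (F [(9,637059),(3,1048006),(5,636692),(8,1048576)]) (F [(9,9958),(3,16379),(5,9950),(8,16384)])) (P0 1 2 (F [(3,1048576),(9,636821),(5,636916),(8,1048342)]) (F [(3,256),(5,133)]))) (F [(9,6072),(3,4562),(5,16384)])) (F [(9,60),(5,256),(3,107)])) (U1 8 1 (P3 1 4 (F [(3,256),(5,156)]) (U2 1 1 (P0 1 2 (F [(3,16384),(9,9953),(5,9952),(8,16384)]) (F [(3,256),(5,156)])) (F [(9,6072),(3,4562),(5,16384)]))) (F [(9,34),(3,134),(5,256)]))) (P0 1 1 (U1 8 1 (U2 1 1 (P5 1 2 (P3 4 1 (F [(9,9956),(3,16380),(8,16384),(5,9948)]) (F [(3,1047342),(9,636718),(8,1048576),(5,635348)])) (P3 2 1 (F [(3,256),(9,10)]) (F [(3,1048576),(9,636732),(8,1048373),(5,636674)]))) (P5 1 2 (U0 2 1 (P3 4 1 (F [(9,9959),(3,16384),(5,9956),(8,16383)]) (P2 1 2 (F [(9,637091),(3,1047333),(5,636107),(8,1048576)])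 (P0 1 2 (F [(9,637068),(3,1047612),(5,636265),(8,1048576)]) (F [(3,256),(5,107)])))) (F [(9,256),(5,33)])) (P3 2 1 (F [(9,10),(3,256)]) (U0 2 1 (P4 4 1 (F [(3,256),(5,156)]) (P0 1 2 (F [(9,636927),(3,1048576),(5,636881),(8,1048527)]) (F [(3,256),(5,156)]))) (F [(9,256),(5,33)]))))) (U0 1 8 (F [(9,636820),(3,1048576),(5,637439),(8,1048003)]) (P5 1 2 (U2 2 1 (P3 4 1 (F [(9,9957),(3,16383),(5,9953),(8,16384)]) (P2 1 2 (F [(9,9958),(5,9952),(3,16368),(8,16384)]) (P0 1 2 (F [(9,637137),(3,1047945),(5,636710),(8,1048576)]) (F [(9,4),(3,256),(5,111)])))) (F [(9,238),(5,256)])) (F [(9,22),(3,237),(5,256)])))) (F [(9,256),(5,29),(8,54)]))) (F [(9,159),(3,256),(8,241)])) (U0 1 4 (P0 1 2 (F [(8,256),(9,156)]) (P1 1 1 (U1 8 1 (U2 1 1 (F [(3,139),(9,118),(8,256)]) (U0 2 1 (P3 1 2 (P2 1 2 (F [(9,146),(3,81),(8,256)]) (P1 1 2 (F [(9,637068),(3,1047612),(8,1048576),(5,636265)])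 (F [(9,90),(3,256),(8,197)]))) (F [(9,184),(3,125),(8,256)])) (F [(9,256),(5,33)]))) (U0 1 8 (P3 1 2 (P2 1 2 (F [(5,4),(8,256),(9,189)]) (P1 1 2 (F [(5,9949),(8,16384),(9,9954),(3,16375)]) (F [(9,9954),(3,16381),(5,9947),(8,16384)]))) (F [(9,9956),(3,16374),(8,16384),(5,9941)])) (U2 2 1 (P3 1 2 (P2 1 2 (F [(9,158),(8,256),(3,57)]) (P1 1 2 (F [(9,637137),(3,1047945),(5,636710),(8,1048576)]) (F [(9,159),(3,256),(8,241)]))) (F [(9,184),(3,125),(8,256)])) (F [(9,256),(5,169)])))) (F [(9,256),(3,49),(8,164)]))) (F [(9,160),(3,93),(8,256)]))))) (F [(9,45),(3,256),(5,162)])) (F [(9,159),(3,256),(8,241)])))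

def c200 : Cell := ⟨⟨147,365,0⟩, ⟨73,183,0⟩, ⟨146,365,1⟩, ⟨1840,1207,3031,2114⟩, ⟨3682,2413,6059,4230⟩, ⟨920,604,1515,1057⟩, ⟨1840,1207,3030,2115⟩⟩

def t200 : Tr :=
  U1 2 1 (F [(3,256),(9,97),(8,208)]) (U0 1 2 (P0 2 1 (P3 1 4 (F [(3,256),(5,133)]) (U1 4 1 (F [(3,256),(9,97),(8,208)]) (P4 1 2 (U0 1 4 (P5 1 4 (P2 1 4 (U1 8 1 (P4 1 4 (F [(3,256),(5,156)]) (U2 1 1 (P3 2 1 (F [(3,256),(5,156)]) (P0 1 2 (F [(3,16384),(9,9952),(5,9952),(8,16384)]) (F [(3,256),(5,133)]))) (P3 2 1 (F [(3,256),(5,156)]) (P0 1 2 (F [(9,9953),(3,16384),(5,9957),(8,16381)]) (F [(3,256),(5,133)]))))) (F [(3,134),(9,34),(5,256)])) (P0 1 1 (U1 8 1 (U2 1 1 (P3 2 1 (F [(3,256)]) (P4 2 1 (F [(3,256)]) (F [(3,16381),(9,9949),(8,16384),(5,9942)]))) (P3 2 1 (F [(3,256)]) (P4 2 1 (F [(3,256)]) (U0 2 1 (P0 1 2 (F [(3,1048576),(9,636909),(5,636890),(8,1048496)]) (F [(3,256)]))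 (F [(9,256),(5,33)]))))) (F [(3,237),(9,22),(5,256)])) (F [(3,256)]))) (P0 1 1 (P3 1 1 (F [(3,256)]) (U1 8 1 (U2 1 1 (F [(3,198),(9,102),(8,256)]) (P4 2 1 (F [(3,256)]) (U0 2 1 (P3 2 1 (F [(3,256),(8,49)]) (P0 1 2 (F [(3,1048576),(9,636909),(5,636890),(8,1048496)]) (F [(3,256)]))) (F [(9,256),(5,33)])))) (F [(3,237),(9,22),(5,256)]))) (F [(3,256)]))) (F [(9,159),(3,256),(8,241)])) (U0 1 4 (P0 1 2 (P3 2 1 (P1 1 2 (P5 1 1 (U1 8 1 (U2 1 1 (F [(3,140),(8,256),(9,118)]) (U0 2 1 (P2 1 4 (P4 1 2 (P5 1 2 (F [(3,1048304),(8,1048576),(9,636928),(5,636570)]) (F [(3,256),(8,49)])) (F [(3,256),(8,49)])) (F [(3,256),(8,32)])) (F [(9,256),(3,57)]))) (U0 1 8 (P2 1 4 (P4 1 2 (F [(8,1048240),(5,636956),(3,1048576),(9,636689)]) (F [(3,213),(8,256),(9,98)])) (F [(3,256),(8,65),(5,67)])) (U2 2 1 (P2 1 4 (P4 1 2 (P5 1 2 (F [(3,1048432),(8,1048576),(5,636741),(9,636951)])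 (F [(3,1048576),(9,636867),(8,1048491),(5,636641)])) (F [(3,173),(8,256),(9,164)])) (F [(3,256)])) (F [(9,256),(3,49),(8,164)])))) (F [(3,256),(8,114)])) (U1 8 1 (F [(3,99),(9,144),(8,256)]) (U0 1 8 (P5 1 4 (P4 1 2 (P2 1 2 (F [(8,16384),(5,9950),(3,16382),(9,9952)]) (F [(8,16384),(3,16380),(5,9944),(9,9951)])) (F [(8,256),(3,213),(9,98)])) (F [(3,256),(8,157),(9,26)])) (U2 2 1 (P5 1 4 (P4 1 2 (P2 1 2 (F [(8,1048576),(3,1048149),(9,636975),(5,636511)]) (F [(3,147),(9,163),(8,256)])) (F [(3,147),(8,256),(9,163)])) (F [(3,256),(9,10)])) (F [(9,256),(3,45),(8,250)]))))) (F [(8,256),(3,21),(9,150)])) (P3 1 2 (P1 1 1 (P5 1 1 (U1 8 1 (P2 1 2 (U2 1 1 (F [(3,140),(9,118),(8,256)]) (U0 2 1 (P4 1 4 (F [(3,1048576),(9,636837),(8,1048380),(5,636879)]) (F [(3,256)])) (F [(9,256),(5,33)]))) (F [(3,256)])) (P2 1 2 (U0 1 8 (F [(3,256),(8,11),(5,238)])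 (U2 2 1 (P4 1 4 (F [(3,16384),(9,9949),(5,9953),(8,16378)]) (F [(3,256),(9,13)])) (F [(9,256),(5,72)]))) (F [(3,256)]))) (F [(3,256)])) (P2 1 1 (U1 8 1 (P5 1 2 (U2 1 1 (F [(3,139),(9,118),(8,256)]) (U0 2 1 (P4 1 4 (P2 1 2 (F [(3,1048576),(9,636843),(8,1048391),(5,636876)]) (F [(3,256)])) (F [(3,256)])) (F [(9,256),(5,33)]))) (F [(3,256)])) (P5 1 2 (U0 1 8 (F [(3,256),(5,238),(8,11)]) (U2 2 1 (P4 1 4 (F [(3,1048576),(9,636099),(5,637467),(8,1046979)]) (F [(3,256),(9,13)])) (F [(9,256),(5,111)]))) (F [(3,256)]))) (F [(3,256)]))) (P2 1 1 (U1 8 1 (U2 1 1 (F [(3,139),(9,118),(8,256)]) (U0 2 1 (P5 1 4 (P4 1 2 (P2 1 2 (F [(3,16377),(9,9952),(8,16384),(5,9944)]) (F [(9,97),(3,256),(8,208)])) (F [(9,133),(3,193),(8,256)])) (F [(3,256),(8,49)])) (F [(9,256),(5,33)]))) (U0 1 8 (P5 1 4 (P4 1 2 (P2 1 2 (F [(5,9952),(8,16384),(3,16383),(9,9953)])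 (F [(3,16382),(9,9953),(5,9947),(8,16384)])) (F [(3,16382),(9,9953),(8,16384),(5,9946)])) (F [(3,256),(9,26),(8,157)])) (U2 2 1 (P5 1 4 (P4 1 2 (P2 1 2 (F [(9,636972),(3,1048302),(8,1048576),(5,636642)]) (F [(9,159),(3,256),(8,241)])) (F [(9,165),(3,199),(8,256)])) (F [(3,256),(9,13)])) (F [(9,256),(5,111)])))) (F [(9,39),(3,256),(8,178)])))) (F [(9,162),(3,130),(8,256)]))))) (F [(3,256),(5,133)])) (F [(9,159),(3,256),(8,241)]))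

def c201 : Cell := ⟨⟨147,365,0⟩, ⟨73,183,0⟩, ⟨146,365,1⟩, ⟨1840,1207,3031,2114⟩, ⟨1842,1207,3029,2114⟩, ⟨920,604,1515,1057⟩, ⟨3682,2413,6059,4230⟩⟩

def t201 : Tr :=
  F [(3,213),(9,98),(8,256)]

def c202 : Cell := ⟨⟨37,91,0⟩, ⟨147,365,0⟩, ⟨146,365,1⟩, ⟨1840,1207,3031,2114⟩, ⟨1842,1207,3029,2114⟩, ⟨920,604,1515,1057⟩, ⟨920,603,1515,1058⟩⟩

def t202 : Tr :=
  F [(9,162),(3,130),(8,256)]

def c203 : Cell := ⟨⟨37,91,0⟩, ⟨73,183,0⟩, ⟨146,365,1⟩, ⟨230,151,379,264⟩, ⟨1842,1207,3029,2114⟩, ⟨920,604,1515,1057⟩, ⟨1840,1207,3031,2114⟩⟩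

def t203 : Tr :=
  F [(3,256),(8,114)]

theorem g16 : ∀ c ∈ [c192, c193, c194, c195, c196, c197, c198, c199, c200, c201, c202, c203], Done D c := by
  intro c hc
  simp only [List.mem_cons, List.not_mem_nil, or_false] at hc
  rcases hc with rfl | rfl | rfl | rfl | rfl | rfl | rfl | rfl | rfl | rfl | rfl | rfl
  · exact done_of_chk (t := t192) (by decide +kernel)
  · exact done_of_chk (t := t193) (by decide +kernel)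
  · exact done_of_chk (t := t194) (by decide +kernel)
  · exact done_of_chk (t := t195) (by decide +kernel)
  · exact done_of_chk (t := t196) (by decide +kernel)
  · exact done_of_chk (t := t197) (by decide +kernel)
  · exact done_of_chk (t := t198) (by decide +kernel)
  · exact done_of_chk (t := t199) (by decide +kernel)
  · exact done_of_chk (t := t200) (by decide +kernel)
  · exact done_of_chk (t := t201) (by decide +kernel)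
  · exact done_of_chk (t := t202) (by decide +kernel)
  · exact done_of_chk (t := t203) (by decide +kernel)

end Pool.Agent.W2helper59.NW.I0
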