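import Pool.Agent.W2helper59.NW.D_I0

set_option autoImplicit false
set_option maxRecDepth 1000000

namespace Pool.Agent.W2helper59.NW.I0

open Tr

def c204 : Cell := ⟨⟨37,91,0⟩, ⟨9,23,0⟩, ⟨36,91,1⟩, ⟨230,151,379,264⟩, ⟨231,151,378,264⟩, ⟨230,151,378,265⟩, ⟨922,603,1513,1058⟩⟩

def t204 : Tr :=
  P1 1 1 (F [(8,256),(9,155)]) (P0 1 1 (F [(8,256),(9,155)]) (U1 4 1 (F [(8,16384),(3,16291),(9,9883),(5,9692)]) (U0 1 4 (F [(8,167),(3,256),(5,80)]) (P2 4 1 (F [(8,256),(5,6),(9,156)]) (U2 2 1 (F [(3,256),(8,166),(5,81)]) (P3 1 1 (P1 2 1 (U0 2 1 (P5 4 1 (F [(3,213),(8,256),(9,98)]) (P0 1 1 (P3 1 2 (U1 2 1 (F [(8,1046631),(3,1048576),(5,634650),(9,633399)]) (P1 1 4 (U0 1 2 (F [(8,242),(5,57),(3,256)]) (F [(8,16384),(5,9935),(3,16366),(9,9930)])) (F [(8,216),(3,256),(9,62)]))) (F [(3,141),(8,256),(9,117)])) (P1 1 2 (U1 2 1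 (F [(3,1048576),(8,1046631),(5,634650),(9,633399)]) (P3 1 4 (U0 1 2 (F [(8,166),(5,81),(3,256)]) (U2 2 1 (F [(8,166),(5,81),(3,256)]) (P5 8 1 (F [(3,16384),(9,9923),(8,16364),(5,9943)]) (F [(5,256),(3,217),(9,24)])))) (F [(3,256),(8,178),(9,38)]))) (F [(3,256),(9,38),(8,178)])))) (U2 4 1 (P5 4 1 (F [(3,256),(9,13)]) (F [(3,16384),(9,9905),(8,16340),(5,9922)])) (F [(9,256),(8,228),(5,40)]))) (F [(3,256),(8,114)])) (F [(3,256),(8,114)])))))))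

def c205 : Cell := ⟨⟨19,45,0⟩, ⟨37,91,0⟩, ⟨36,91,1⟩, ⟨230,151,379,264⟩, ⟨231,151,378,264⟩, ⟨230,151,378,265⟩, ⟨460,301,757,530⟩⟩

def t205 : Tr :=
  F [(9,159),(8,256),(3,95)]

def c206 : Cell := ⟨⟨19,45,0⟩, ⟨9,23,0⟩, ⟨18,45,1⟩, ⟨230,151,379,264⟩, ⟨231,151,378,264⟩, ⟨115,76,189,132⟩, ⟨230,151,378,265⟩⟩

def t206 : Tr :=
  U1 2 1 (F [(3,136),(8,256),(9,138)]) (U0 1 2 (P5 2 1 (P2 1 1 (P4 1 1 (U1 4 1 (U2 1 1 (F [(8,256)]) (U0 2 1 (F [(8,256)]) (P1 1 1 (F [(8,33),(5,256),(3,8)]) (F [(8,16384),(5,9897),(3,16219),(9,9911)])))) (F [(8,74),(5,256),(9,88)])) (U1 4 1 (P0 1 2 (F [(8,256),(3,30)]) (U2 1 1 (F [(8,256)]) (U0 2 1 (F [(8,256)]) (P3 1 2 (P1 1 1 (F [(8,178),(5,176),(3,256)]) (F [(8,16384),(5,9874),(3,16254),(9,9904)])) (F [(8,256),(9,155)]))))) (P0 1 2 (F [(8,256),(3,30)]) (U0 1 4 (F [(8,256),(5,190)]) (U2 2 1 (F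 [(8,256)]) (P3 1 2 (P1 1 1 (F [(8,178),(5,176),(3,256)]) (F [(8,16384),(5,9878),(3,16188),(9,9909)])) (F [(8,256),(5,31),(9,161)]))))))) (P0 1 1 (U1 4 1 (P3 2 1 (U2 1 1 (F [(8,256),(3,69)]) (P1 1 1 (U0 2 1 (F [(8,256)]) (F [(8,16002),(3,16384),(5,9751),(9,9652)])) (F [(8,256),(3,48),(9,149)]))) (F [(8,256),(9,155)])) (P3 2 1 (U0 1 4 (F [(8,256),(3,69)]) (P1 1 1 (U2 2 1 (F [(8,256)]) (P4 1 2 (P5 1 1 (F [(8,16318),(5,9947),(3,16384),(9,9864)]) (F [(8,76),(5,52),(3,256)])) (F [(8,114),(3,256)]))) (U2 2 1 (F [(8,256),(3,69)]) (P4 1 2 (P2 1 1 (U0 2 1 (F [(8,256),(3,12),(9,112)]) (P5 1 2 (F [(3,16181),(8,16384),(9,9919),(5,9792)]) (F [(3,256),(8,114)]))) (F [(3,256),(8,114)])) (F [(8,114),(3,256)]))))) (F [(8,256),(5,6),(9,156)]))) (U1 4 1 (F [(3,16384),(8,15684),(5,9848),(9,9478)]) (P1 2 1 (U0 1 4 (F [(8,256),(5,108),(3,253)])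 (P3 1 1 (F [(8,15622),(3,16384),(5,9983),(9,9466)]) (U2 2 1 (F [(8,256),(3,253),(5,108)]) (P4 1 1 (U0 2 1 (F [(3,16384),(8,16351),(5,9916),(9,9878)]) (P5 1 2 (F [(3,16384),(9,9913),(8,16358),(5,9920)]) (F [(3,256),(8,114)]))) (F [(3,256),(8,114)]))))) (U0 1 4 (F [(8,117),(3,256),(5,131)]) (U2 2 1 (F [(3,256),(8,117),(5,131)]) (P4 1 1 (P2 2 1 (U0 2 1 (P5 1 2 (P0 1 1 (P4 1 2 (F [(8,16251),(3,16384),(5,9926),(9,9823)]) (F [(3,256),(8,114)])) (F [(3,256),(8,6),(5,198)])) (F [(3,256),(8,76),(5,53)])) (F [(3,16384),(9,9894),(8,16321),(5,9922)])) (F [(3,256),(8,114)])) (F [(3,256),(8,114)])))))))) (F [(3,256),(8,119),(5,65)])) (U2 2 1 (P5 2 1 (P2 1 1 (P4 1 1 (U1 1 1 (F [(8,256),(3,140),(9,117)]) (P1 1 1 (F [(8,174),(5,140),(3,256)]) (F [(8,16384),(5,9807),(3,16208),(9,9909)]))) (F [(8,16376),(3,16384),(5,9744),(9,9872)]))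 (F [(3,256),(9,10)])) (F [(3,256),(8,119),(5,65)])) (P5 2 1 (P2 1 1 (P4 1 1 (F [(9,9899),(3,16310),(8,16384),(5,9866)]) (F [(9,9886),(3,16376),(8,16384),(5,9793)])) (F [(9,10),(3,256)])) (F [(3,256),(8,78),(5,50)]))))

def c207 : Cell := ⟨⟨19,45,0⟩, ⟨9,23,0⟩, ⟨18,45,1⟩, ⟨230,150,379,265⟩, ⟨231,151,378,264⟩, ⟨230,151,379,264⟩, ⟨115,75,189,133⟩⟩

def t207 : Tr :=
  U1 2 1 (F [(8,256),(9,142),(3,122)]) (P4 1 2 (P5 1 2 (F [(8,256),(9,155)]) (U0 1 2 (P3 1 2 (P1 1 1 (U1 4 1 (F [(8,256),(3,123),(9,142)]) (P5 2 1 (F [(8,256),(9,156)]) (U0 1 4 (P3 1 4 (P1 1 2 (U1 8 1 (P5 4 1 (U2 1 1 (F [(8,245),(3,256)]) (U0 2 1 (F [(8,245),(3,256)]) (P2 1 1 (P5 1 2 (P4 1 2 (F [(8,18),(5,256),(3,196)]) (U2 2 1 (F [(8,67),(3,256),(5,65)]) (P0 1 1 (U0 4 1 (F [(8,256),(3,69)]) (P3 2 1 (F [(3,16384),(8,16375),(5,9953),(9,9950)]) (P4 2 1 (F [(3,1048495),(8,1048576),(5,636754),(9,637171)])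 (F [(3,256),(8,49)])))) (F [(8,1044240),(5,638333),(3,1048576),(9,634412)])))) (F [(3,256),(5,156)])) (F [(3,256),(5,156)])))) (F [(3,256),(8,49)])) (P5 4 1 (U0 1 8 (F [(8,44),(5,207),(3,256)]) (U2 2 1 (F [(8,101),(5,148),(3,256)]) (P2 1 1 (P5 1 2 (P4 1 2 (F [(5,256),(9,31)]) (U0 2 1 (F [(8,256),(5,68)]) (P0 1 1 (U2 4 1 (F [(8,256),(3,33)]) (P3 2 1 (F [(5,256),(3,237),(9,22)]) (P4 2 1 (F [(8,16371),(3,16384),(5,9957),(9,9949)]) (F [(3,256),(8,114)])))) (F [(5,256),(3,237),(9,22)])))) (F [(3,256),(5,190),(9,7)])) (F [(3,256),(5,190),(9,7)])))) (F [(3,256),(8,67),(5,65)]))) (U1 8 1 (U2 1 1 (F [(8,256),(3,166)]) (P0 4 1 (U0 2 1 (F [(8,245),(3,256)]) (P5 1 1 (P4 1 2 (F [(8,16384),(5,10045),(3,16305),(9,9959)]) (U2 2 1 (F [(8,223),(3,256)]) (P0 1 2 (P3 1 1 (U0 4 1 (F [(8,71),(5,150),(3,256)]) (P5 2 1 (U2 4 1 (F [(8,54),(3,256),(5,141)])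 (U0 8 1 (F [(8,16384),(3,16374),(5,9943),(9,9952)]) (F [(9,9957),(3,16378),(8,16384),(5,9947)]))) (F [(3,16384),(9,9947),(8,16360),(5,9951)]))) (U0 4 1 (F [(8,245),(3,256)]) (P4 2 1 (F [(8,1048576),(3,1048222),(5,636459),(9,637146)]) (F [(3,256),(8,49)])))) (U0 4 1 (F [(8,256),(5,129),(3,245)]) (P2 1 1 (P5 2 1 (F [(8,16384),(5,9817),(3,16157),(9,9963)]) (F [(8,16384),(5,9944),(3,16370),(9,9964)])) (F [(9,9967),(8,16384),(5,9928),(3,16351)])))))) (F [(3,1047799),(8,1048576),(9,637708),(5,635103)]))) (U0 2 1 (F [(8,224),(5,138),(3,256)]) (P2 2 1 (P5 1 1 (F [(8,16384),(5,9957),(3,16339),(9,9968)]) (P1 1 2 (F [(3,16382),(9,9969),(8,16384),(5,9943)]) (F [(8,16384),(5,9940),(9,9970),(3,16346)]))) (P1 2 1 (P5 2 1 (F [(8,256),(9,156)]) (F [(9,9970),(3,16329),(8,16384),(5,9884)])) (F [(8,256),(9,156)])))))) (U0 1 8 (F [(8,26),(5,256),(3,222)])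 (P0 4 1 (U2 2 1 (F [(8,137),(5,145),(3,256)]) (P5 1 1 (P4 1 2 (F [(5,256),(8,35),(9,70)]) (U0 2 1 (F [(8,256),(5,68)]) (P0 1 2 (P3 1 1 (U2 4 1 (F [(8,256),(5,227),(3,208)]) (P5 2 1 (U0 4 1 (F [(8,16381),(5,9957),(3,16384),(9,9951)]) (U2 8 1 (F [(8,16384),(5,9951),(3,16380),(9,9952)]) (F [(9,9957),(3,16378),(5,9947),(8,16384)]))) (F [(5,9951),(3,16377),(8,16384),(9,9964)]))) (U2 4 1 (F [(8,256),(3,33)]) (P4 2 1 (U0 4 1 (F [(8,229),(5,17),(3,256)]) (U2 8 1 (F [(8,229),(3,256),(5,17)]) (F [(3,16378),(9,9957),(8,16384),(5,9947)]))) (F [(3,256),(8,114)])))) (U2 4 1 (F [(8,256),(5,135)]) (F [(5,9905),(8,16384),(9,9969),(3,16278)]))))) (P3 1 2 (F [(3,1048576),(5,637034),(9,637770),(8,1047982)]) (U0 2 1 (F [(8,26),(5,256),(3,222)]) (P0 1 2 (F [(3,256),(8,22),(5,125)]) (F [(3,16376),(8,16384),(5,9945),(9,9968)])))))) (U2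 2 1 (F [(8,26),(5,256),(3,222)]) (P2 2 1 (P5 1 1 (F [(5,256),(8,73),(9,94)]) (P1 1 2 (F [(5,637034),(9,637770),(3,1048576),(8,1047982)]) (F [(5,256),(8,73),(9,94)]))) (P1 2 1 (P5 2 1 (F [(5,256),(8,87),(9,102)]) (F [(9,9972),(5,9933),(3,16368),(8,16384)])) (F [(5,256),(8,116),(9,119)])))))))) (F [(8,16384),(3,5632),(9,8427)])) (U2 2 1 (P3 1 4 (P1 1 2 (P5 4 1 (U1 1 1 (F [(3,140),(8,256),(9,118)]) (P2 1 1 (U0 1 2 (P5 1 2 (P4 1 2 (U1 2 1 (U2 1 2 (F [(8,101),(5,148),(3,256)]) (P2 1 2 (P5 1 4 (F [(8,256),(3,21),(9,150)]) (F [(8,16384),(5,9937),(3,16367),(9,9952)])) (F [(8,16384),(3,16352),(5,9924),(9,9956)]))) (P2 1 2 (U0 1 4 (P5 1 4 (F [(8,256),(9,99)]) (U1 4 1 (F [(5,9949),(8,16384),(3,16374),(9,9957)]) (F [(5,9952),(9,9962),(8,16384),(3,16364)]))) (P5 1 4 (F [(8,256),(9,156)]) (F [(5,9945),(8,16384),(9,9957),(3,16371)])))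 (U0 1 4 (P0 2 1 (U1 4 1 (F [(5,9948),(8,16384),(3,16374),(9,9957)]) (F [(5,9952),(9,9962),(8,16384),(3,16364)])) (F [(9,9964),(5,9965),(3,16384),(8,16383)])) (P0 2 1 (F [(9,9957),(8,16384),(3,16371),(5,9945)]) (F [(9,9964),(3,16374),(5,9953),(8,16384)]))))) (U1 2 1 (F [(3,256),(8,77)]) (P0 1 1 (P3 2 1 (U0 1 4 (U1 4 1 (F [(3,256),(8,126),(9,7)]) (P3 1 2 (P2 1 1 (P5 1 1 (F [(9,9956),(3,16383),(5,9950),(8,16384)]) (F [(3,256),(5,150)])) (F [(9,9),(3,256),(5,40)])) (P2 1 1 (F [(3,16383),(9,9956),(8,16384),(5,9949)]) (F [(3,256),(9,13)])))) (F [(3,256),(9,94),(8,203)])) (U0 1 4 (P4 2 1 (F [(3,1047836),(9,637191),(8,1048576),(5,636099)]) (F [(3,256)])) (F [(3,124),(9,141),(8,256)]))) (U0 1 4 (P2 2 1 (U1 4 1 (F [(3,16377),(8,16384),(5,9940),(9,9954)]) (P4 1 1 (P5 1 1 (F [(9,9957),(5,9946),(3,16374),(8,16384)]) (F [(9,13),(3,256),(5,186)]))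 (F [(9,13),(3,256),(5,186)]))) (F [(3,256),(5,156)])) (F [(3,256),(9,83),(8,186)]))))) (F [(3,256),(9,12),(5,7)])) (P5 1 2 (P4 1 2 (U2 1 1 (U1 1 2 (F [(8,245),(3,256)]) (P2 1 2 (P5 1 4 (F [(8,256),(3,21),(9,153)]) (F [(8,16384),(3,16336),(5,9899),(9,9951)])) (F [(3,135),(8,256),(9,140)]))) (F [(3,111),(9,161),(8,256)])) (F [(3,256),(8,49)])) (F [(3,256),(8,49)]))) (F [(3,256),(9,13)]))) (F [(3,256)])) (U1 1 1 (F [(8,256),(3,139),(9,118)]) (P0 4 1 (P5 1 1 (U0 1 2 (P4 1 2 (U1 2 1 (F [(8,16384),(5,9860),(3,16266),(9,9957)]) (P2 1 4 (P5 1 2 (F [(8,256),(9,156)]) (U0 1 4 (P3 1 2 (F [(5,9972),(9,9966),(8,16384),(3,16382)]) (F [(5,9874),(8,16384),(9,9963),(3,16250)])) (P3 1 2 (F [(9,9965),(5,9947),(8,16384),(3,16362)]) (F [(8,256),(9,146),(3,83)])))) (P0 1 1 (U0 1 4 (P3 1 2 (F [(9,9965),(5,9947),(8,16384),(3,16363)]) (F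 [(5,9874),(8,16384),(9,9963),(3,16250)])) (F [(9,9957),(8,16384),(5,9821),(3,16266)])) (F [(9,9970),(5,9929),(8,16384),(3,16331)])))) (U1 2 1 (F [(8,216),(3,256),(9,62)]) (P0 1 2 (P3 1 1 (U0 1 4 (P5 2 1 (U1 4 1 (F [(3,16343),(8,16384),(9,9954),(5,9910)]) (P2 1 2 (P4 1 1 (F [(9,9960),(3,16337),(8,16384),(5,9920)]) (F [(9,9964),(3,16378),(8,16384),(5,9941)])) (F [(9,9963),(3,16362),(8,16384),(5,9934)]))) (F [(9,29),(3,16384),(5,9594)])) (F [(3,256),(9,83),(8,186)])) (F [(3,93),(9,160),(8,256)])) (P2 1 1 (U0 1 4 (P5 2 1 (F [(9,9963),(3,16242),(8,16384),(5,9863)]) (F [(9,9965),(3,16366),(5,9939),(8,16384)])) (F [(9,94),(3,256),(8,204)])) (F [(9,9971),(3,16328),(8,16384),(5,9908)]))))) (F [(3,111),(8,256),(9,143)])) (F [(3,256),(9,139),(8,207)])) (P2 2 1 (P5 1 1 (F [(8,16384),(5,9892),(9,9970),(3,16271)]) (U0 1 2 (P1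 1 2 (F [(9,139),(3,256),(8,207)]) (F [(9,9970),(5,9928),(8,16384),(3,16336)])) (F [(9,140),(3,134),(8,256)]))) (F [(9,161),(3,111),(8,256)]))))) (F [(8,256),(3,79),(9,159)])) (F [(9,256),(3,46),(8,251)]))))) (F [(8,256),(9,156)])) (F [(8,256),(9,155)])) (F [(9,160),(8,256),(3,112)]))) (U0 1 2 (P0 1 1 (F [(8,256),(3,178),(9,108)]) (P5 2 1 (F [(8,256),(9,155)]) (P1 1 1 (U1 4 1 (F [(8,256),(3,135),(9,140)]) (U0 1 4 (P3 1 2 (P5 4 1 (F [(8,256),(3,102),(9,128)]) (P1 1 2 (F [(3,256),(8,126),(9,7)]) (U1 8 1 (U2 1 1 (F [(8,256),(3,166)]) (P2 4 1 (F [(8,256),(3,153),(9,138)]) (P0 2 1 (F [(8,256),(3,153),(9,138)]) (U0 2 1 (F [(8,224),(5,138),(3,256)]) (F [(8,16384),(9,9982),(5,9881),(3,16301)]))))) (U0 1 8 (F [(8,115),(5,226),(3,256)]) (P2 4 1 (U2 2 1 (F [(8,137),(3,256),(5,145)]) (P3 1 1 (P5 2 1 (F [(3,16321),(8,16384),(5,9874),(9,9955)])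 (F [(3,16382),(9,9969),(8,16384),(5,9941)])) (F [(8,256),(3,102),(9,128)]))) (P0 2 1 (U2 2 1 (F [(8,160),(5,143),(3,256)]) (P3 1 1 (F [(8,16384),(3,16348),(9,9977),(5,9922)]) (F [(8,256),(3,88),(9,132)]))) (U2 2 1 (F [(8,115),(5,226),(3,256)]) (F [(5,9912),(8,16384),(9,9984),(3,16325)])))))))) (F [(8,256),(9,156)])) (F [(8,256),(9,162),(3,130)]))) (F [(8,256),(9,156)])))) (F [(9,162),(8,256),(3,129)])))

def c208 : Cell := ⟨⟨19,45,0⟩, ⟨9,23,0⟩, ⟨18,45,1⟩, ⟨115,75,190,132⟩, ⟨231,151,378,264⟩, ⟨230,151,379,264⟩, ⟨230,150,379,265⟩⟩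

def t208 : Tr :=
  U1 2 1 (F [(9,140),(3,134),(8,256)]) (P0 2 1 (U0 1 2 (P4 1 1 (P5 1 1 (F [(8,256),(9,156)]) (U1 4 1 (F [(3,135),(8,256),(9,140)]) (U0 1 4 (P3 1 2 (P1 1 2 (P5 2 1 (U1 8 1 (P2 1 2 (U2 1 1 (F [(8,256),(3,166)]) (P4 1 2 (U0 2 1 (F [(8,256),(5,108),(3,253)]) (F [(9,9984),(3,16316),(8,16384),(5,9900)])) (F [(8,256),(3,180),(9,135)]))) (F [(3,256),(8,186),(9,83)])) (P2 1 2 (U0 1 8 (F [(8,256),(5,156),(3,256),(9,155)]) (P4 1 2 (U2 2 1 (F [(8,256),(5,154),(3,256),(9,149)]) (F [(9,9986),(5,9920),(8,16384),(3,16331)])) (F [(8,16384),(3,16328),(5,9879),(9,9968)]))) (F [(3,256),(8,215),(9,62)]))) (F [(3,256),(8,126),(9,7)])) (F [(8,256),(3,88),(9,132)])) (F [(8,256),(9,156)])) (F [(9,162),(3,130),(8,256)])))) (F [(8,256),(3,204),(9,101)])) (F [(9,162),(3,129),(8,256)])) (U0 1 2 (P2 2 1 (P5 1 1 (F [(9,156),(8,256)])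 (U1 4 1 (F [(9,140),(3,135),(8,256)]) (P1 1 2 (U0 1 4 (P3 1 2 (P5 2 1 (U1 8 1 (P4 1 2 (U2 1 1 (F [(8,256),(3,139),(9,118)]) (U0 2 1 (F [(3,16336),(8,16384),(9,9977),(5,9922)]) (F [(9,9994),(3,16332),(5,9922),(8,16384)]))) (F [(3,256),(8,49)])) (P4 1 2 (U0 1 8 (F [(8,256),(5,156),(3,256),(9,156)]) (U2 2 1 (F [(8,16384),(3,16369),(5,9966),(9,9983)]) (F [(9,10003),(3,16370),(5,9972),(8,16384)]))) (F [(3,256),(8,66),(5,65)]))) (F [(3,256),(5,155)])) (F [(3,16010),(9,9988),(8,16384),(5,9659)])) (F [(9,162),(3,130),(8,256)])) (F [(9,10011),(3,16079),(8,16384),(5,9751)])))) (P1 2 1 (U1 4 1 (F [(9,256),(3,186),(8,133)]) (P5 2 1 (F [(9,157),(3,254),(8,256),(5,153)]) (F [(3,256),(8,52),(5,83)]))) (F [(9,226),(3,115),(8,256)]))) (F [(9,162),(3,129),(8,256)])))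

def c209 : Cell := ⟨⟨5,11,0⟩, ⟨19,45,0⟩, ⟨18,45,1⟩, ⟨115,75,190,132⟩, ⟨231,151,378,264⟩, ⟨115,76,189,132⟩, ⟨115,75,189,133⟩⟩

def t209 : Tr :=
  F [(9,160),(3,130),(8,256)]

def c210 : Cell := ⟨⟨5,11,0⟩, ⟨1,3,0⟩, ⟨8,23,1⟩, ⟨57,37,96,66⟩, ⟨115,75,190,132⟩, ⟨57,38,95,66⟩, ⟨57,37,95,67⟩⟩

def t210 : Tr :=
  U0 1 4 (P5 1 1 (P2 1 1 (U1 8 1 (P4 1 2 (F [(5,256),(8,33)]) (U2 1 1 (F [(8,256),(5,68)]) (P0 1 1 (U0 2 1 (F [(8,256)]) (P3 1 1 (F [(5,256),(8,34)]) (F [(5,9867),(8,16384),(3,16040),(9,10082)]))) (F [(5,256),(8,34)])))) (P4 1 2 (F [(5,256),(9,30)]) (F [(5,10429),(8,16085),(3,16384),(9,10016)]))) (U1 8 1 (P0 2 1 (U2 1 1 (F [(8,44),(5,208),(3,256)]) (P4 1 1 (F [(5,241),(8,11),(3,256)]) (U0 2 1 (F [(8,99),(5,151),(3,256)]) (P1 1 2 (P3 1 1 (F [(5,256),(8,34)]) (U2 2 1 (F [(5,156),(8,256),(3,255),(9,157)]) (F [(5,10139),(9,9332),(8,15000),(3,16384)])))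 (P0 1 2 (U2 2 1 (F [(5,156),(8,256),(3,255),(9,157)]) (F [(9,9636),(5,10079),(3,16384),(8,15501)])) (F [(5,223),(3,256),(8,9)])))))) (F [(5,224),(8,8),(3,256)])) (F [(5,195),(3,256),(9,8)]))) (F [(5,157),(3,256)])) (U2 2 1 (P5 1 1 (P2 1 1 (P4 1 2 (F [(5,256),(9,32)]) (U1 1 1 (P0 1 1 (U2 1 2 (F [(8,256)]) (P3 1 1 (F [(5,9602),(8,16384),(3,15398),(9,10096)]) (F [(8,256),(5,139),(3,233),(9,155)]))) (F [(5,53),(8,256),(9,170)])) (P0 1 1 (P3 1 1 (F [(5,256),(9,65),(3,180)]) (U0 1 2 (P4 2 1 (F [(5,256),(9,50)]) (U1 2 1 (P0 1 2 (U2 1 2 (F [(8,256),(3,12),(9,113)]) (P3 2 1 (F [(5,156),(9,158),(8,256),(3,254)]) (F [(9,157),(3,250),(8,256),(5,151)]))) (F [(5,10182),(8,16384),(9,10206),(3,16154)])) (P0 1 2 (P3 2 1 (F [(9,63),(5,256),(3,190)]) (F [(9,158),(3,251),(5,153),(8,256)])) (F [(9,238),(5,256)])))) (P4 2 1 (F [(5,157),(8,256),(9,160),(3,246)])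 (U2 1 1 (F [(8,16384),(5,9887),(3,16250),(9,10082)]) (F [(9,158),(3,251),(8,256),(5,152)]))))) (F [(5,256),(9,117)])))) (P0 2 1 (U1 1 1 (P4 1 1 (U2 1 2 (F [(8,250),(5,159),(3,256),(9,154)]) (F [(9,152),(5,160),(3,256),(8,243)])) (U2 1 2 (F [(8,226),(3,256),(5,21)]) (P1 1 2 (P3 1 1 (F [(5,154),(8,256),(3,247),(9,158)]) (F [(3,249),(8,256),(5,150),(9,156)])) (F [(3,255),(9,158),(8,256),(5,153)])))) (P4 1 1 (F [(9,64),(5,256),(3,190)]) (P1 1 2 (P3 1 1 (F [(5,256),(9,65),(3,180)]) (U0 1 2 (U1 2 1 (F [(5,10021),(9,9874),(3,16384),(8,15983)]) (F [(9,151),(5,157),(3,256),(8,243)])) (F [(9,9546),(3,16384),(5,10016),(8,15401)]))) (U0 1 2 (P0 1 2 (U1 2 1 (F [(9,158),(3,255),(5,155),(8,256)]) (F [(9,256),(3,230)])) (F [(9,158),(3,256),(5,158),(8,254)])) (F [(9,158),(3,255),(5,153),(8,256)]))))) (F [(9,140),(3,256),(5,166),(8,221)])))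 (F [(3,256),(5,153)])) (F [(9,256),(5,71)]))

def c211 : Cell := ⟨⟨3,5,0⟩, ⟨5,11,0⟩, ⟨4,11,1⟩, ⟨57,37,96,66⟩, ⟨29,19,47,33⟩, ⟨28,19,48,33⟩, ⟨14,9,24,17⟩⟩

def t211 : Tr :=
  P4 1 2 (U2 2 1 (P5 1 2 (F [(9,166),(5,130),(3,215),(8,256)]) (U1 1 1 (P3 1 2 (F [(9,3),(3,256),(5,147)]) (F [(9,162),(3,233),(5,140),(8,256)])) (F [(9,244),(5,256)]))) (F [(9,256)])) (U2 2 1 (P3 1 1 (U1 1 1 (P5 2 1 (F [(9,158),(3,240),(8,256),(5,138)]) (F [(3,256),(9,14)])) (F [(9,256),(5,71)])) (F [(9,163),(3,130),(8,256)])) (F [(9,256)]))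

def c212 : Cell := ⟨⟨3,5,0⟩, ⟨1,3,0⟩, ⟨4,11,1⟩, ⟨29,19,48,32⟩, ⟨29,19,47,33⟩, ⟨28,19,48,33⟩, ⟨57,37,96,66⟩⟩

def t212 : Tr :=
  U0 1 2 (P1 1 1 (P3 1 1 (F [(3,256),(9,42),(5,164)]) (U1 4 1 (F [(3,256),(8,48)]) (P0 1 2 (P4 2 1 (F [(3,256),(5,155)]) (F [(3,256),(8,70),(5,59)])) (F [(3,256),(9,42),(5,164)])))) (P0 1 1 (U1 4 1 (F [(3,256),(8,48)]) (P3 2 1 (F [(3,256),(9,38),(5,163)]) (P4 2 1 (F [(3,256),(5,155)]) (F [(3,256),(8,70),(5,59)])))) (F [(3,256),(9,26),(5,162)]))) (F [(9,12),(3,256)])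

def c213 : Cell := ⟨⟨3,5,0⟩, ⟨1,3,0⟩, ⟨2,5,1⟩, ⟨29,19,48,32⟩, ⟨29,19,47,33⟩, ⟨7,5,12,8⟩, ⟨28,19,48,33⟩⟩

def t213 : Tr :=
  F [(3,256),(8,112)]

def c214 : Cell := ⟨⟨3,5,0⟩, ⟨1,3,0⟩, ⟨2,5,1⟩, ⟨15,9,24,16⟩, ⟨29,19,47,33⟩, ⟨29,19,48,32⟩, ⟨14,9,24,17⟩⟩

def t214 : Tr :=
  P2 1 1 (U1 2 1 (F [(9,157),(3,80),(8,256)]) (P5 1 2 (U0 1 2 (P4 1 2 (P2 1 2 (U1 4 1 (P5 1 4 (F [(5,256),(9,47),(8,105)]) (U2 1 1 (P1 1 1 (P3 1 1 (F [(9,162),(3,227),(8,256),(5,136)]) (F [(8,256),(9,161)])) (F [(5,6),(8,256),(9,164)])) (U0 2 1 (P1 1 1 (P3 1 1 (F [(9,163),(5,158),(3,253),(8,256)]) (F [(5,256),(9,117)])) (F [(5,256),(9,121)])) (F [(9,244),(5,256)])))) (F [(5,185),(9,155),(8,232),(3,256)])) (U1 4 1 (U2 1 1 (F [(8,16384),(9,8242),(3,7869)]) (P0 2 1 (U0 2 1 (P3 1 1 (F [(9,164),(5,149),(8,256),(3,239)]) (F [(5,256),(8,87),(9,172)])) (F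 [(9,256),(5,212),(8,55)])) (F [(9,227),(3,109),(8,256)]))) (U0 1 4 (P0 2 1 (P3 1 1 (F [(5,152),(8,256),(9,165),(3,240)]) (F [(5,256),(8,34)])) (F [(9,169),(5,146),(8,256),(3,234)])) (P0 2 1 (U2 2 1 (P3 1 1 (F [(9,165),(5,151),(8,256),(3,239)]) (F [(5,256),(8,88),(9,106)])) (F [(9,256),(5,241)])) (F [(9,227),(3,109),(8,256)]))))) (P0 1 1 (U1 4 1 (P3 2 1 (U2 1 1 (F [(8,16384),(3,7869),(9,8242)]) (U0 2 1 (P2 1 1 (P5 1 1 (F [(8,256),(9,153),(3,44)]) (P3 1 2 (F [(9,10384),(3,14439),(8,16384),(5,8481)]) (F [(9,152),(3,80),(8,256)]))) (F [(9,146),(3,150),(8,256)])) (F [(9,256),(5,23),(8,113)]))) (F [(8,256),(3,80),(9,148)])) (P3 2 1 (U0 1 4 (P2 1 1 (P5 1 1 (U1 8 1 (P4 1 2 (F [(5,256),(8,33)]) (U2 1 1 (F [(8,256),(5,68)]) (P3 1 1 (F [(5,256),(8,34)]) (F [(8,16384),(5,8982),(3,14904),(9,10093)])))) (P4 1 2 (F [(5,256),(9,3)])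 (F [(5,9906),(8,16384),(3,15909),(9,10154)]))) (U1 8 1 (P3 1 2 (P1 1 2 (F [(5,159),(9,162),(3,254),(8,256)]) (U2 1 1 (F [(8,256),(5,148),(3,245),(9,157)]) (U0 2 1 (F [(5,9667),(8,16384),(9,10103),(3,15782)]) (F [(5,15),(9,256),(8,200)])))) (U2 1 1 (F [(8,256),(5,148),(3,245),(9,157)]) (P4 1 1 (U0 2 1 (F [(5,9667),(8,16384),(3,15782),(9,10103)]) (F [(5,148),(9,162),(8,256),(3,240)])) (U0 2 1 (F [(8,256),(5,152),(3,248),(9,157)]) (P1 2 1 (P3 2 1 (F [(9,160),(5,154),(3,252),(8,256)]) (F [(5,9563),(8,16384),(9,10139),(3,15825)])) (F [(5,142),(8,256),(9,158),(3,235)])))))) (P3 1 2 (F [(5,256),(9,30),(3,166)]) (U0 1 8 (F [(5,256),(8,34)]) (P4 1 1 (F [(5,256),(9,30),(3,166)]) (U2 2 1 (F [(8,25),(5,256),(3,219)]) (P1 2 1 (F [(5,10408),(9,9903),(8,15909),(3,16384)]) (F [(5,151),(8,256),(9,158),(3,247)])))))))) (P1 1 1 (U1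 8 1 (P3 1 2 (P5 2 1 (U2 1 1 (F [(8,256),(5,120),(3,226),(9,152)]) (U0 2 1 (F [(8,16384),(5,9667),(3,15782),(9,10103)]) (F [(9,256),(5,15),(8,200)]))) (F [(9,162),(3,249),(5,152),(8,256)])) (U2 1 1 (F [(8,243),(3,256)]) (U0 2 1 (F [(8,256),(5,152),(3,248),(9,157)]) (P5 1 2 (F [(8,256),(9,145),(3,109)]) (P0 1 1 (P3 2 1 (F [(9,160),(3,250),(5,152),(8,256)]) (F [(9,10131),(8,16384),(3,15986),(5,9659)])) (F [(9,169),(3,231),(5,140),(8,256)])))))) (P3 1 2 (F [(5,168),(8,256),(9,165),(3,251)]) (U0 1 8 (F [(8,81),(5,256),(9,29)]) (U2 2 1 (F [(8,256),(5,157),(3,252),(9,157)]) (P5 1 2 (F [(5,143),(8,256),(9,158),(3,237)]) (P0 1 1 (F [(9,10119),(5,10121),(8,16286),(3,16384)]) (F [(9,161),(5,152),(3,247),(8,256)]))))))) (F [(8,16384),(5,9171),(3,15184),(9,10096)]))) (U2 2 1 (P2 1 1 (P5 1 1 (F [(8,256),(9,160),(3,50)]) (P3 1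 2 (P1 1 2 (F [(9,162),(3,252),(5,156),(8,256)]) (F [(9,162),(5,133),(8,256),(3,226)])) (U1 1 1 (F [(8,1048576),(5,554880),(3,943313),(9,649478)]) (P4 1 1 (F [(9,161),(5,145),(8,256),(3,239)]) (F [(9,10248),(5,8723),(3,15030),(8,16384)]))))) (F [(9,168),(8,256),(3,124)])) (F [(9,256),(5,73),(8,2)]))) (U0 1 4 (P4 2 1 (P2 1 1 (U1 8 1 (F [(8,256),(3,79),(9,148)]) (P5 1 2 (F [(5,256)]) (U0 1 8 (F [(8,256)]) (U2 2 1 (F [(8,256)]) (F [(5,8869),(8,16384),(9,10096),(3,14685)]))))) (U1 8 1 (F [(8,256),(3,100),(9,146)]) (U0 1 8 (F [(8,256)]) (P0 2 1 (U2 2 1 (F [(8,256)]) (F [(8,16384),(5,8869),(3,14685),(9,10096)])) (F [(8,256),(5,145),(3,242),(9,157)]))))) (P0 1 2 (U1 8 1 (F [(8,256),(3,100),(9,146)]) (P3 4 1 (U0 1 8 (F [(8,256)]) (U2 2 1 (F [(8,256)]) (P1 1 1 (P5 1 1 (F [(8,256)]) (F [(8,16384),(5,8661),(3,14725),(9,9991)]))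 (F [(8,256)])))) (F [(8,256)]))) (U1 8 1 (F [(8,256),(3,100),(9,146)]) (U0 1 8 (F [(8,256)]) (P2 2 1 (U2 2 1 (F [(8,256)]) (F [(8,16384),(5,8869),(3,14685),(9,10096)])) (F [(8,16384),(5,9148),(3,15654),(9,9958)])))))) (F [(8,256),(9,162),(3,75)])))) (U1 4 1 (U2 1 1 (F [(8,16384),(3,7869),(9,8242)]) (P2 2 1 (U0 2 1 (P4 1 1 (P5 1 1 (F [(8,234),(5,238),(9,256)]) (F [(9,10478),(8,16384),(3,14259),(5,8516)])) (F [(9,146),(8,256),(3,150)])) (F [(9,256),(5,38),(8,225)])) (F [(9,144),(3,168),(8,256)]))) (U0 1 4 (P2 2 1 (P4 1 1 (P5 1 1 (F [(5,256),(8,34)]) (U1 8 1 (P3 1 2 (F [(5,149),(8,256),(9,165),(3,237)]) (F [(8,34),(5,256)])) (F [(5,256),(9,36),(3,122)]))) (P3 1 1 (U1 8 1 (P5 2 1 (F [(8,256),(5,6),(9,161)]) (F [(9,164),(8,256),(5,145),(3,236)])) (F [(5,156),(8,256),(9,167),(3,237)])) (F [(8,256),(9,161)]))) (P1 2 1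 (P3 1 1 (F [(9,164),(5,147),(8,256),(3,239)]) (F [(8,256),(9,161)])) (F [(8,256),(9,195),(5,3)]))) (P2 2 1 (U2 2 1 (P4 1 1 (P5 1 1 (F [(5,256),(8,94),(9,108)]) (P3 1 2 (F [(9,165),(5,147),(3,235),(8,256)]) (F [(5,7),(8,256),(9,162)]))) (F [(9,171),(8,256),(3,117)])) (F [(9,256),(5,38),(8,225)])) (F [(9,173),(3,147),(8,256)])))))) (F [(9,169),(3,73),(8,256)])) (U0 1 2 (P1 1 1 (P3 1 1 (F [(3,256),(9,48),(5,157)]) (U1 4 1 (F [(3,256),(8,48)]) (P4 2 1 (F [(3,256),(5,155)]) (F [(3,256),(8,70),(5,59)])))) (P0 1 1 (U1 4 1 (F [(3,256),(9,94),(8,201)]) (P4 2 1 (U0 1 4 (P3 1 2 (P5 1 1 (P2 1 1 (F [(9,162),(3,254),(8,256),(5,152)]) (F [(3,216),(9,164),(8,256),(5,125)])) (F [(3,206),(9,107),(8,256)])) (P2 1 1 (U1 8 1 (F [(3,256),(9,98),(8,203)]) (P4 1 2 (F [(9,160),(3,256),(5,156),(8,254)]) (U0 1 8 (F [(8,256),(5,156),(3,256),(9,157)])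 (U2 2 1 (F [(3,255),(8,256),(5,154),(9,157)]) (P3 2 1 (F [(9,256),(3,176)]) (P0 1 1 (F [(9,157),(3,256),(5,155),(8,253)]) (F [(9,160),(3,253),(5,152),(8,256)]))))))) (U1 8 1 (F [(8,250),(3,256),(9,124)]) (U0 1 8 (F [(8,256),(3,92),(9,117)]) (U2 2 1 (F [(8,256),(3,92),(9,117)]) (P1 4 1 (P3 2 1 (F [(9,256),(3,182),(8,133)]) (F [(9,9904),(3,14616),(8,16384),(5,8403)])) (F [(8,256),(9,158),(3,237),(5,143)]))))))) (F [(9,144),(3,256),(8,214)])) (F [(3,16384),(8,14594),(9,4512)]))) (U1 4 1 (F [(9,115),(3,256),(8,227)]) (U0 1 4 (P5 1 1 (P2 2 1 (P4 1 1 (F [(9,163),(3,252),(5,150),(8,256)]) (F [(9,165),(3,219),(8,256),(5,129)])) (F [(9,167),(8,256),(3,125)])) (F [(9,124),(3,183),(8,256)])) (F [(9,176),(3,201),(8,256)]))))) (F [(9,12),(3,256)])))) (F [(9,123),(3,143),(8,256)])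

def c215 : Cell := ⟨⟨3,5,0⟩, ⟨1,3,0⟩, ⟨2,5,1⟩, ⟨15,9,24,16⟩, ⟨15,9,23,17⟩, ⟨29,19,47,33⟩, ⟨14,9,24,17⟩⟩

def t215 : Tr :=
  F [(8,256),(9,151),(3,1)]

theorem g17 : ∀ c ∈ [c204, c205, c206, c207, c208, c209, c210, c211, c212, c213, c214, c215], Done D c := by
  intro c hc
  simp only [List.mem_cons, List.not_mem_nil, or_false] at hc
  rcases hc with rfl | rfl | rfl | rfl | rfl | rfl | rfl | rfl | rfl | rfl | rfl | rfl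
  · exact done_of_chk (t := t204) (by decide +kernel)
  · exact done_of_chk (t := t205) (by decide +kernel)
  · exact done_of_chk (t := t206) (by decide +kernel)
  · exact done_of_chk (t := t207) (by decide +kernel)
  · exact done_of_chk (t := t208) (by decide +kernel)
  · exact done_of_chk (t := t209) (by decide +kernel)
  · exact done_of_chk (t := t210) (by decide +kernel)
  · exact done_of_chk (t := t211) (by decide +kernel)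
  · exact done_of_chk (t := t212) (by decide +kernel)
  · exact done_of_chk (t := t213) (by decide +kernel)
  · exact done_of_chk (t := t214) (by decide +kernel)
  · exact done_of_chk (t := t215) (by decide +kernel)

end Pool.Agent.W2helper59.NW.I0
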