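import Pool.Agent.W2helper59.NW.D_I0

set_option autoImplicit false
set_option maxRecDepth 1000000

namespace Pool.Agent.W2helper59.NW.I0

open Tr

def c216 : Cell := ⟨⟨1,1,0⟩, ⟨3,5,0⟩, ⟨2,5,1⟩, ⟨15,9,24,16⟩, ⟨15,9,23,17⟩, ⟨7,5,12,8⟩, ⟨14,9,24,17⟩⟩

def t216 : Tr :=
  F [(9,170),(3,142),(8,256)]

def c217 : Cell := ⟨⟨1,1,0⟩, ⟨1,3,0⟩, ⟨2,5,1⟩, ⟨2,1,3,2⟩, ⟨15,9,23,17⟩, ⟨15,9,24,16⟩, ⟨7,4,12,9⟩⟩

def t217 : Tr :=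
  F [(9,175),(8,256),(3,58)]

def c218 : Cell := ⟨⟨1,0,0⟩, ⟨1,1,0⟩, ⟨0,1,1⟩, ⟨2,1,3,2⟩, ⟨3,3,5,5⟩, ⟨3,3,6,4⟩, ⟨3,2,6,5⟩⟩

def t218 : Tr :=
  P0 2 1 (F [(5,256),(9,33),(3,183),(8,44)]) (U2 2 1 (P1 2 1 (P5 1 1 (P2 1 2 (F [(5,256),(9,30),(3,75)]) (U1 1 1 (F [(3,256),(8,140),(5,112),(9,25)]) (P0 1 1 (F [(9,129),(5,199),(3,256),(8,238)]) (F [(9,2),(3,256),(5,181)])))) (U1 1 1 (F [(3,256),(8,200),(5,70),(9,39)]) (P3 1 2 (F [(3,256),(9,14),(5,134)]) (P0 1 1 (F [(3,256),(9,125),(5,199),(8,232)]) (F [(3,256),(9,9),(5,30)]))))) (P2 2 1 (P5 1 2 (F [(5,230),(8,256),(9,186)]) (U1 1 1 (F [(8,256),(3,164),(5,32),(9,112)]) (P0 1 1 (P3 1 1 (U0 1 2 (P1 1 2 (F [(9,6),(3,256),(5,146)]) (F [(9,148),(5,136),(3,214),(8,256)])) (F [(9,153),(3,147),(5,44),(8,256)])) (F [(9,136),(5,196),(8,252),(3,256)])) (P1 1 1 (U0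 1 2 (P3 1 2 (F [(9,129),(3,256),(5,133),(8,195)]) (F [(9,165),(5,57),(3,130),(8,256)])) (F [(9,157),(3,142),(5,44),(8,256)])) (F [(9,167),(5,6),(8,256)]))))) (U1 1 1 (F [(8,256),(3,141),(9,103)]) (P0 4 1 (P3 1 1 (F [(9,153),(3,131),(8,256)]) (F [(9,140),(8,256),(5,73),(3,136)])) (F [(9,175),(3,115),(8,256)]))))) (F [(9,256),(5,81),(8,68)]))

def c219 : Cell := ⟨⟨1,0,0⟩, ⟨0,1,0⟩, ⟨0,0,1⟩, ⟨4,3,5,4⟩, ⟨1,1,1,1⟩, ⟨3,3,6,4⟩, ⟨3,3,5,5⟩⟩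

def t219 : Tr :=
  U1 1 1 (P3 4 1 (U2 1 1 (F [(13,256),(5,43)]) (U0 2 1 (F [(13,256),(8,116),(5,48)]) (F [(3,256),(9,63),(13,34),(5,107),(8,191)]))) (U2 1 1 (F [(13,256)]) (P4 4 1 (U0 2 1 (F [(13,217),(8,256),(5,23)]) (F [(3,213),(5,63),(8,256),(14,2),(9,60)])) (F [(3,256),(14,217),(5,45),(9,3)])))) (P3 4 1 (U0 1 1 (P1 1 1 (F [(13,3),(5,256),(3,200)]) (F [(8,141),(5,195),(3,256)])) (U2 2 1 (P1 1 1 (F [(13,17),(3,256),(5,248)]) (F [(8,184),(3,256),(5,124)])) (P1 1 1 (F [(3,256),(9,6),(5,241)]) (P2 1 1 (F [(5,246),(3,256),(9,7)]) (F [(3,256),(9,60),(5,100),(8,214)]))))) (U0 1 1 (F [(8,256),(5,142),(13,40),(3,252)]) (P4 4 1 (U2 2 1 (F [(8,256),(5,112),(13,88),(3,181)]) (P2 1 1 (F [(5,256),(3,217)]) (U0 2 1 (F [(5,49),(8,251),(3,256),(9,21)]) (F [(3,238),(9,41),(5,25),(8,256)])))) (U2 2 1 (F [(13,136),(8,256),(3,125)])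 (P0 1 4 (F [(13,256),(3,124),(5,47),(8,248),(9,21)]) (U0 2 1 (F [(3,256),(8,244),(5,9)]) (F [(3,256),(9,43),(8,145),(5,78),(14,79)])))))))

def c220 : Cell := ⟨⟨1,0,0⟩, ⟨0,1,1⟩, ⟨0,0,1⟩, ⟨2,1,3,2⟩, ⟨4,3,5,4⟩, ⟨3,3,6,4⟩, ⟨3,3,5,5⟩⟩

def t220 : Tr :=
  U2 1 1 (F [(13,256),(5,4)]) (P2 2 1 (U0 2 1 (F [(3,256),(8,204),(5,83),(9,22)]) (P3 1 1 (F [(9,108),(3,256),(5,159),(8,200)]) (F [(9,96),(3,231),(13,30),(5,102),(8,256)]))) (U0 2 1 (F [(3,229),(8,256),(9,85)]) (F [(9,146),(3,206),(8,256)])))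

def c221 : Cell := ⟨⟨1,0,0⟩, ⟨0,1,0⟩, ⟨0,1,1⟩, ⟨2,1,3,2⟩, ⟨4,3,5,4⟩, ⟨3,3,6,4⟩, ⟨3,3,5,5⟩⟩

def t221 : Tr :=
  U0 1 1 (P2 2 1 (P3 1 1 (F [(5,256),(13,3),(3,200)]) (F [(8,141),(5,195),(3,256)])) (P0 2 1 (P3 1 1 (U1 2 1 (P1 1 2 (F [(3,240),(8,5),(5,256)]) (U2 1 1 (F [(8,256),(3,199)]) (U0 2 1 (F [(8,256),(3,202)]) (P0 1 1 (P4 1 1 (P2 1 2 (F [(8,121),(5,200),(3,256),(9,52)]) (F [(3,256),(8,223),(5,91),(9,86)])) (F [(3,256),(8,32),(5,105)])) (P2 1 1 (P4 1 2 (P5 1 2 (F [(8,256),(5,139),(3,244),(9,109)]) (F [(8,251),(3,256),(5,75),(9,99)])) (F [(8,256),(3,217),(9,91)])) (F [(8,256),(3,223),(9,92)])))))) (P1 1 2 (F [(3,231),(5,256),(9,7)]) (U0 1 2 (F [(8,168),(5,141),(3,256)]) (U2 2 1 (F [(8,193),(5,118),(3,256)]) (P0 1 1 (P4 1 1 (P2 1 2 (F [(8,106),(5,223),(3,256),(9,54)]) (F [(3,256),(8,180),(5,131),(9,65)]))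 (F [(3,256),(8,77),(5,99)])) (P2 1 1 (P4 1 2 (P5 1 2 (F [(8,72),(5,256),(9,74)]) (U0 2 1 (F [(8,188),(5,87),(3,256)]) (F [(8,235),(3,256),(5,96),(9,89)]))) (F [(8,256),(3,245),(5,7),(9,62)])) (F [(8,256),(3,238),(9,68)]))))))) (U1 2 1 (U2 1 1 (F [(8,256),(13,163)]) (P4 2 1 (U0 2 1 (F [(8,256),(3,180)]) (P1 1 1 (F [(8,220),(3,256),(5,134),(9,82)]) (F [(8,256),(3,109),(9,98)]))) (F [(8,239),(3,256),(9,11)]))) (U0 1 2 (F [(8,256),(3,182)]) (P4 2 1 (U2 2 1 (F [(8,256),(3,182)]) (P1 1 1 (F [(8,223),(5,129),(3,256),(9,67)]) (F [(8,256),(3,114),(9,83)]))) (F [(8,239),(3,256),(9,11)]))))) (P1 2 1 (U1 2 1 (P3 1 2 (F [(3,256),(8,15),(5,235),(9,6)]) (U2 1 1 (F [(8,256),(3,232)]) (U0 2 1 (F [(8,256),(3,238)]) (P0 1 1 (P4 1 1 (P2 1 2 (P5 1 2 (F [(8,256),(5,132),(3,229),(9,113)]) (F [(8,256),(3,253),(5,71),(9,102)]))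 (F [(3,205),(8,256),(9,102)])) (F [(3,223),(8,256),(9,92)])) (P2 1 1 (P4 1 2 (P5 1 2 (F [(8,256),(5,161),(3,234),(9,129)]) (F [(3,256),(8,221),(5,122),(9,100)])) (F [(3,256),(8,250),(9,114),(5,100)])) (F [(3,256),(8,30),(5,99)])))))) (P3 1 2 (F [(3,256),(5,247),(9,2)]) (U0 1 2 (F [(8,124),(5,147),(3,256)]) (U2 2 1 (F [(8,146),(3,256),(5,125)]) (P0 1 1 (P4 1 1 (P2 1 2 (P5 1 2 (F [(8,90),(5,256),(9,83)]) (U0 2 1 (F [(8,147),(5,161),(3,256)]) (F [(8,235),(3,256),(5,96),(9,89)]))) (F [(8,15764),(3,16384),(5,5070),(9,5664)])) (F [(8,256),(3,238),(9,68)])) (P2 1 1 (P4 1 2 (P5 1 2 (F [(5,256),(8,45),(9,65)]) (F [(3,256),(5,165),(8,186),(9,90)])) (U0 2 1 (F [(8,130),(3,256),(5,112)]) (U2 4 1 (F [(3,256),(8,130),(5,111)]) (P5 2 1 (F [(9,9032),(3,16109),(8,16384),(5,8360)]) (F [(3,256),(9,249),(5,196)])))))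 (U0 2 1 (F [(3,256),(8,50),(5,123)]) (F [(3,256),(9,2),(5,129)])))))))) (U1 2 1 (U2 1 1 (F [(8,256),(3,195)]) (P2 4 1 (U0 2 1 (F [(8,256),(3,238)]) (P3 1 1 (P5 1 1 (P4 1 2 (F [(8,256),(5,112),(3,174),(9,134)]) (F [(8,256),(3,198),(9,125),(5,79)])) (F [(3,223),(9,114),(8,256),(5,29)])) (F [(8,256),(3,45),(9,135)]))) (F [(8,256),(3,208),(9,114)]))) (U0 1 2 (F [(8,254),(5,15),(3,256)]) (P2 4 1 (U2 2 1 (F [(8,206),(5,63),(3,256)]) (P3 1 1 (P5 1 1 (P4 1 2 (F [(8,138),(5,256),(9,117)]) (U0 2 1 (P0 1 1 (P3 1 1 (F [(8,256),(5,122),(3,223),(9,119)]) (F [(8,251),(3,256)])) (F [(8,256),(5,119),(9,128)])) (U2 4 1 (P0 1 1 (P3 1 1 (F [(8,256),(3,206),(5,118),(9,137)]) (F [(8,251),(3,256)])) (F [(8,256),(5,107),(3,137),(9,138)])) (P0 1 1 (P3 1 1 (F [(9,170),(3,202),(8,256),(5,126)]) (F [(9,103),(3,148),(8,256)]))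 (F [(9,195),(8,256),(5,123),(3,142)]))))) (U0 2 1 (P1 1 2 (P3 1 2 (P5 2 1 (U1 2 1 (P4 1 2 (U2 1 1 (F [(3,256),(8,237),(5,13)]) (P2 1 2 (F [(3,256),(5,172)]) (F [(3,256),(8,25),(5,94)]))) (F [(3,256),(8,48)])) (P4 1 2 (U0 1 2 (F [(8,221),(5,28),(3,256)]) (P2 1 2 (F [(5,256),(3,204),(9,21)]) (U2 2 1 (F [(3,256),(8,219),(5,22)]) (P1 1 1 (F [(3,250),(9,16),(5,256)]) (P0 2 1 (F [(3,256),(9,4),(5,193)]) (U0 2 1 (P2 2 1 (F [(3,256),(9,135),(5,160),(8,234)]) (F [(3,256),(9,146),(8,250),(5,146)])) (F [(9,4),(3,256),(5,113)]))))))) (F [(3,256),(8,192),(9,48)]))) (F [(3,256),(9,48),(8,192)])) (P4 1 1 (U1 2 1 (P5 1 2 (U2 1 1 (F [(8,256),(3,242)]) (P2 1 2 (F [(3,256),(5,172)]) (F [(3,256),(8,25),(5,94)]))) (F [(3,256),(8,48)])) (P5 1 2 (U0 1 2 (F [(8,256),(3,159),(9,33)]) (P2 1 2 (F [(5,178),(3,256),(9,1)])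 (U2 2 1 (F [(8,256),(3,165),(9,36)]) (P0 1 1 (F [(3,256),(8,3),(5,148)]) (P1 2 1 (F [(3,256),(8,3),(5,148)]) (U0 2 1 (P2 2 1 (F [(3,256),(8,243),(9,137),(5,154)]) (F [(3,228),(9,132),(8,256),(5,107)])) (F [(9,4),(3,256),(5,113)]))))))) (F [(3,256),(8,234),(9,72)]))) (F [(3,204),(8,256),(9,99)]))) (P0 1 1 (P4 1 1 (U1 2 1 (P2 1 2 (U2 1 1 (F [(8,256),(3,242)]) (P5 1 2 (F [(8,240),(5,155),(3,256),(9,127)]) (F [(8,256),(3,234),(5,106),(9,135)]))) (F [(8,256),(3,145),(9,122)])) (P2 1 2 (U0 1 2 (F [(8,256),(3,11),(9,102)]) (P5 1 2 (F [(8,237),(5,156),(3,256),(9,124)]) (U2 2 1 (F [(8,256),(3,22),(9,102)]) (P3 1 1 (P1 1 2 (U0 2 1 (F [(8,256),(3,139),(9,139),(5,80)]) (F [(9,141),(3,256),(8,245),(5,137)])) (F [(8,256),(5,152),(3,253),(9,145)])) (F [(8,254),(3,256),(5,150),(9,141)]))))) (F [(8,256),(3,143),(9,108)])))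 (F [(8,256),(3,204),(9,99)])) (P2 1 1 (U1 2 1 (P4 1 2 (U2 1 1 (F [(8,256),(3,242)]) (P5 1 2 (F [(8,256),(5,161),(3,228),(9,144)]) (F [(8,256),(5,97),(3,209),(9,136)]))) (F [(8,256),(3,39),(9,147)])) (P4 1 2 (U0 1 2 (F [(8,256),(9,107)]) (P5 1 2 (F [(8,63),(5,256),(9,79)]) (U2 2 1 (F [(8,256),(3,11),(9,107)]) (F [(8,256),(5,104),(9,154),(3,152)])))) (F [(8,256),(3,1),(9,151)]))) (F [(8,256),(3,1),(9,151)])))) (P1 1 2 (F [(9,3),(3,256),(5,113)]) (U2 4 1 (P0 1 1 (P4 1 1 (P2 1 2 (F [(3,256),(8,245),(9,136),(5,132)]) (F [(8,256),(3,140),(9,143)])) (F [(3,256),(8,236),(9,135)])) (P2 1 1 (P4 1 2 (U1 1 1 (F [(8,256),(3,237),(5,70),(9,96)]) (P5 1 2 (F [(8,256),(5,142),(9,145),(3,225)]) (F [(9,151),(8,256),(3,152)]))) (F [(8,256),(3,102),(9,141)])) (F [(8,256),(9,154),(3,75)]))) (F [(9,256),(8,11),(5,71)])))))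 (F [(8,256),(3,48),(9,129)]))) (U2 2 1 (F [(8,247),(3,256),(9,9)]) (P0 4 1 (P3 1 1 (P1 1 2 (U0 2 1 (P5 2 1 (F [(8,256),(3,61),(9,135)]) (F [(3,235),(9,91),(8,256)])) (F [(9,139),(3,181),(8,256)])) (F [(8,256),(9,120),(3,129)])) (F [(8,256),(3,131),(9,113)])) (P1 4 1 (P3 1 2 (U0 2 1 (P5 2 1 (F [(8,256),(3,1),(9,151)]) (F [(3,235),(9,91),(8,256)])) (F [(9,139),(3,181),(8,256)])) (F [(9,138),(8,256),(3,108)])) (F [(9,146),(8,256),(3,91)])))))))))) (P2 2 1 (U2 2 1 (P3 1 1 (F [(5,233),(3,256),(8,103),(9,45)]) (F [(8,190),(5,144),(3,256)])) (P3 1 1 (F [(9,73),(3,256),(5,240),(8,102)]) (P4 1 1 (F [(5,240),(9,73),(3,256),(8,102)]) (U0 2 1 (P0 1 2 (F [(3,256),(8,207),(9,54),(5,102)]) (F [(9,69),(3,256),(5,158),(8,191)])) (F [(9,100),(3,233),(5,64),(8,256)]))))) (U2 2 1 (P0 2 1 (P3 1 1 (P1 1 2 (F [(3,256),(9,55),(8,126),(5,193)])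 (U1 1 1 (F [(3,185),(8,256),(9,63)]) (P0 1 1 (F [(3,256),(9,91),(8,206),(5,139)]) (P2 1 1 (U0 1 2 (P4 1 2 (P5 1 2 (F [(8,256),(5,121),(3,247),(9,110)]) (F [(3,256),(8,246),(9,112)])) (F [(3,195),(8,256),(9,118)])) (F [(3,172),(8,256),(9,88)])) (F [(3,208),(9,115),(8,256)]))))) (U1 1 1 (F [(8,256),(3,174),(9,66)]) (P4 2 1 (P1 1 1 (F [(3,256),(8,224),(5,133),(9,89)]) (F [(8,256),(3,105),(9,108)])) (F [(8,239),(3,256),(9,11)])))) (P1 2 1 (P3 1 2 (U1 1 1 (F [(3,256),(8,235),(9,47),(5,45)]) (P5 2 1 (P2 1 1 (F [(3,256),(9,55),(5,196),(8,122)]) (F [(3,256),(9,11)])) (F [(3,256),(9,16)]))) (U1 1 1 (F [(3,219),(8,256),(9,53)]) (P0 1 1 (P4 1 1 (U0 1 2 (P2 1 2 (P5 1 2 (F [(8,256),(5,112),(3,238),(9,113)]) (F [(3,256),(9,112),(8,246)])) (F [(3,196),(9,122),(8,256)])) (F [(3,172),(9,88),(8,256)])) (F [(3,208),(9,115),(8,256)]))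 (P2 1 1 (U0 1 2 (P4 1 2 (F [(3,256),(9,89),(8,202),(5,142)]) (F [(3,256),(9,127),(8,245)])) (F [(3,172),(9,88),(8,256)])) (F [(3,256),(9,11)]))))) (U1 1 1 (F [(8,256),(3,162),(9,90)]) (P2 4 1 (P3 1 1 (P5 1 1 (F [(9,140),(3,110),(8,256),(5,46)]) (F [(9,147),(3,219),(8,256)])) (F [(8,256),(9,113),(3,105)])) (F [(9,140),(3,193),(8,256)]))))) (P0 2 1 (P3 1 1 (F [(9,256),(3,13),(5,71)]) (U0 2 1 (P4 2 1 (P1 1 1 (F [(9,115),(3,256),(8,220),(5,141)]) (F [(9,152),(3,90),(8,256)])) (F [(9,65),(3,241),(8,256)])) (F [(9,129),(3,164),(8,256)]))) (F [(9,256),(5,55),(8,86)]))))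

def c222 : Cell := ⟨⟨1,0,0⟩, ⟨0,1,0⟩, ⟨0,0,1⟩, ⟨1,0,2,1⟩, ⟨2,1,3,2⟩, ⟨1,1,4,2⟩, ⟨1,1,3,3⟩⟩

def t222 : Tr :=
  P2 2 1 (P3 1 1 (P5 1 1 (U1 1 1 (P4 1 2 (F [(5,82),(9,256),(8,216),(13,5)]) (F [(9,256),(3,140),(5,147),(8,166)])) (P4 1 2 (F [(5,256),(11,245),(9,1)]) (F [(9,256),(5,205),(3,77)]))) (F [(9,256),(5,11),(13,6)])) (P4 1 1 (U1 1 1 (P5 1 2 (U2 1 1 (P2 1 2 (F [(5,256),(9,6)]) (P0 1 1 (F [(5,140),(8,256),(9,206),(3,86)]) (F [(5,71),(9,256),(8,247),(3,27)]))) (F [(9,151),(5,256)])) (U2 1 1 (P0 1 1 (P3 1 1 (F [(3,107),(9,256),(5,104),(8,211)]) (F [(5,256),(3,209),(8,183),(9,161)])) (F [(9,256),(3,107),(5,104),(8,211)])) (U0 2 1 (P0 1 1 (F [(9,79),(3,180),(5,256)]) (F [(9,256),(5,159)])) (F [(9,256),(5,64)])))) (P5 1 2 (F [(5,256),(11,26),(9,80)]) (U0 1 1 (P0 1 1 (P3 1 1 (F [(5,256),(9,195),(3,116)])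 (F [(5,256),(3,154)])) (F [(5,159),(9,256)])) (U2 2 1 (P0 1 1 (F [(9,79),(5,256),(3,177)]) (F [(9,256),(5,159)])) (F [(9,256),(5,170)]))))) (U1 1 1 (U2 1 1 (P0 1 2 (P3 2 1 (P5 1 1 (U1 1 2 (F [(3,106),(9,149),(8,256)]) (P4 1 2 (F [(3,44),(8,256),(9,220),(5,60)]) (F [(3,152),(9,149),(8,256)]))) (F [(3,149),(9,174),(8,256)])) (P4 2 1 (U1 1 2 (F [(3,106),(8,256),(9,149)]) (P5 1 2 (F [(8,256),(9,187)]) (F [(3,104),(9,157),(8,256)]))) (F [(3,104),(9,157),(8,256)]))) (P1 1 1 (P5 1 1 (U1 1 2 (F [(3,242),(9,101),(8,256)]) (P2 1 2 (F [(3,40),(9,226),(8,256),(5,64)]) (F [(9,227),(3,107),(8,256),(5,46)]))) (F [(3,149),(9,175),(8,256)])) (P2 1 1 (U1 1 2 (F [(3,224),(9,125),(8,256),(5,21)]) (P5 1 2 (F [(8,256),(5,19),(9,198),(3,12)]) (F [(9,256),(3,27),(8,239),(5,30)]))) (F [(9,256),(3,4),(8,238)])))) (P0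 1 2 (U0 2 1 (P3 2 1 (P5 1 1 (P4 1 2 (F [(9,235),(3,34),(5,70),(8,256)]) (F [(9,179),(3,138),(8,256)])) (F [(9,213),(3,147),(8,256)])) (P4 2 1 (P5 1 2 (F [(9,187),(8,256)]) (F [(9,174),(3,98),(8,256)])) (F [(9,174),(3,98),(8,256)]))) (F [(9,256),(5,36)])) (U0 2 1 (P1 1 1 (P5 1 1 (P2 1 2 (F [(9,247),(3,25),(5,78),(8,256)]) (F [(9,244),(3,105),(5,48),(8,256)])) (F [(9,216),(3,147),(8,256)])) (P2 1 1 (P5 1 2 (F [(9,208),(5,22),(8,256)]) (F [(9,256),(5,41),(8,211)])) (F [(9,256),(5,17),(8,221)]))) (F [(9,256),(5,64)])))) (U0 1 1 (P0 1 2 (P3 2 1 (P5 1 1 (U1 2 1 (P4 1 2 (F [(5,128),(8,256),(9,217),(3,37)]) (F [(9,228),(5,39),(3,47),(8,256)])) (P4 1 2 (F [(5,256),(9,76)]) (F [(5,37),(9,235),(8,256),(3,30)]))) (U1 2 1 (U2 1 1 (P1 1 2 (F [(9,8),(3,256),(5,163),(8,10)]) (F [(9,227),(3,123),(8,256),(5,87)]))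 (F [(9,256),(3,101),(5,97),(8,218)])) (F [(9,256),(5,68),(3,57),(8,211)]))) (P4 2 1 (U1 2 1 (P5 1 2 (F [(5,21),(8,256),(9,187)]) (U2 1 1 (F [(8,256),(3,43),(9,189)]) (U0 2 1 (F [(9,219),(8,256),(3,2)]) (F [(9,256),(5,1),(8,238)])))) (P5 1 2 (F [(5,256),(9,76)]) (U0 1 2 (F [(5,14),(8,256),(9,227)]) (U2 2 1 (F [(9,220),(8,256)]) (F [(9,256),(5,245)]))))) (U1 2 1 (U2 1 1 (F [(8,256),(3,89),(9,156)]) (P0 1 4 (U0 2 1 (F [(8,256),(9,219),(3,2)]) (F [(9,256),(8,239)])) (U0 2 1 (F [(9,219),(8,256),(3,2)]) (F [(9,256),(8,239)])))) (U0 1 2 (F [(8,256),(5,14),(9,227)]) (P0 1 4 (U2 2 1 (F [(8,256),(9,220)]) (F [(9,256),(8,213),(5,26)])) (U2 2 1 (F [(9,220),(8,256)]) (F [(9,256),(5,128),(8,114)]))))))) (P1 1 1 (P5 1 1 (F [(5,115),(9,256),(8,250),(3,43)]) (F [(9,256),(5,68),(3,57),(8,208)])) (F [(5,98),(9,256),(8,241)])))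 (P0 1 2 (U2 2 1 (P3 2 1 (P5 1 1 (P4 1 2 (F [(9,222),(5,83),(3,58),(8,256)]) (F [(9,214),(3,133),(5,63),(8,256)])) (F [(9,249),(3,145),(8,256)])) (P4 2 1 (P5 1 2 (F [(9,191),(5,8),(8,256)]) (U1 1 1 (F [(9,176),(3,94),(8,256)]) (F [(9,256),(5,1),(8,236)]))) (U1 1 1 (F [(9,174),(3,98),(8,256)]) (F [(9,256),(8,237)])))) (F [(9,256),(5,44)])) (U2 2 1 (P1 1 1 (P5 1 1 (F [(9,256),(5,116),(3,25),(8,223)]) (F [(9,255),(3,145),(8,256)])) (F [(9,256),(5,108),(8,213)])) (F [(9,256),(5,132)]))))))) (P0 2 1 (P3 1 1 (F [(9,256),(4,4)]) (U1 1 1 (U2 1 1 (F [(9,246),(3,79),(8,256)]) (P4 2 1 (F [(9,256),(3,33),(8,218)]) (F [(9,256),(3,186),(8,256)]))) (U0 1 1 (P4 2 1 (F [(9,256),(3,3),(8,183)]) (P0 1 2 (P3 2 1 (F [(9,256),(3,2),(8,152)]) (F [(9,229),(8,256),(3,10),(5,5)])) (F [(9,256),(3,3),(8,183)]))) (P4 2 1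 (F [(9,256),(3,25),(8,208)]) (U2 2 1 (P0 1 2 (F [(9,240),(3,163),(8,256)]) (F [(9,256),(3,25),(8,208)])) (F [(9,256)])))))) (O 6))

def c223 : Cell := ⟨⟨1,0,0⟩, ⟨0,1,0⟩, ⟨0,0,1⟩, ⟨1,0,2,1⟩, ⟨1,1,1,1⟩, ⟨1,1,2,0⟩, ⟨1,1,4,2⟩⟩

def t223 : Tr :=
  P0 1 1 (P3 1 1 (P1 1 2 (F [(3,192),(9,256)]) (P4 1 1 (P5 1 2 (P2 1 1 (F [(3,24),(9,256)]) (U1 1 1 (F [(3,256),(9,75),(8,148)]) (U0 1 1 (P1 4 1 (F [(3,38),(9,256)]) (P0 2 1 (F [(3,168),(9,256)]) (P2 2 1 (F [(3,3),(9,256)]) (F [(3,256),(9,144),(8,253),(5,21)])))) (F [(9,117),(3,256),(8,173)])))) (U1 1 1 (F [(3,256),(9,65),(8,131)]) (P1 2 1 (F [(3,256)]) (U0 1 1 (P2 4 1 (F [(3,256)]) (P0 2 1 (F [(3,256)]) (F [(3,256),(9,109),(8,235)]))) (F [(9,117),(3,256),(8,173)]))))) (P0 1 1 (F [(3,256),(9,5)]) (U1 1 1 (F [(3,256),(9,65),(8,131)]) (P1 2 1 (F [(3,256),(9,3)])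 (U0 1 1 (P2 2 1 (F [(3,256)]) (F [(3,244),(9,126),(8,256)])) (F [(9,134),(3,256),(8,198)]))))))) (P4 2 1 (P5 1 1 (P2 1 1 (F [(3,256),(11,16)]) (U1 1 1 (F [(3,256),(9,92),(8,174)]) (U0 1 1 (P1 2 1 (F [(3,256),(9,8),(5,34)]) (P0 2 1 (F [(3,256),(5,141),(8,16)]) (P2 2 1 (F [(3,256),(9,26),(5,147)]) (U1 2 1 (F [(3,256),(9,124),(8,221)]) (U0 1 2 (P1 4 1 (F [(3,256),(9,6),(5,147)]) (P0 4 1 (F [(3,256),(8,110),(9,49),(5,71)]) (F [(8,256),(3,255),(9,147),(5,21)]))) (F [(9,165),(3,256),(8,246)])))))) (F [(9,124),(3,256),(8,184)])))) (P1 1 1 (F [(13,256)]) (U1 1 1 (F [(3,256),(9,92),(8,174)]) (U0 1 1 (P2 2 1 (F [(3,97),(13,256)]) (P0 2 1 (F [(3,256),(8,45),(5,98)]) (F [(3,256),(9,81),(8,192)]))) (F [(3,256),(9,132),(8,196)]))))) (P0 1 2 (F [(3,256),(9,3),(8,71)]) (P1 1 1 (F [(3,256),(9,3),(8,71)]) (U1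 1 1 (F [(3,256),(9,7),(8,43)]) (U0 1 1 (P0 2 1 (F [(3,256),(8,131)]) (P1 2 1 (F [(3,256),(8,131)]) (P2 2 1 (F [(3,256),(8,131)]) (F [(3,256),(8,221),(9,91)])))) (F [(3,256),(9,7),(8,8)]))))))) (P1 1 1 (P3 1 2 (F [(3,64),(9,256)]) (P5 1 2 (P0 1 1 (P4 1 1 (F [(9,256),(3,24)]) (U1 1 1 (F [(3,256),(9,68),(8,137)]) (U0 1 1 (P3 4 1 (F [(9,256),(3,38)]) (P0 1 2 (P4 2 1 (F [(9,256),(3,3)]) (F [(3,256),(9,144),(8,253),(5,21)])) (F [(9,248),(3,256)]))) (F [(9,117),(3,256),(8,173)])))) (F [(9,256),(3,103),(13,7)])) (P0 1 1 (U1 1 1 (F [(3,256),(9,65),(8,131)]) (P3 2 1 (F [(3,256)]) (U0 1 1 (P4 4 1 (F [(3,256)]) (F [(3,256),(9,94),(8,211)])) (F [(9,117),(3,256),(8,173)])))) (F [(3,256)])))) (P0 2 1 (P3 1 1 (F [(9,256),(4,9)]) (P4 1 1 (F [(9,256),(4,9)]) (U1 1 1 (F [(9,43),(3,256),(8,70)]) (U0 1 1 (P0 1 2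 (P3 2 1 (F [(9,256),(3,5),(8,168)]) (P4 2 1 (F [(9,256),(3,3),(8,82)]) (F [(9,232),(3,7),(8,256),(5,3)]))) (F [(9,256),(3,5),(8,168)])) (F [(9,15),(3,256),(8,15)]))))) (O 6)))

def c224 : Cell := ⟨⟨1,0,0⟩, ⟨0,1,0⟩, ⟨0,0,1⟩, ⟨1,0,1,0⟩, ⟨1,1,1,1⟩, ⟨1,1,2,0⟩, ⟨1,0,2,1⟩⟩

def t224 : Tr :=
  P0 2 1 (P3 1 1 (F [(9,256),(13,34),(3,33),(8,44)]) (P4 1 1 (P5 1 2 (P2 1 2 (P4 1 2 (F [(9,256),(4,9)]) (U1 1 1 (F [(9,97),(3,239),(13,23),(14,256),(8,51)]) (U0 1 1 (P0 1 2 (P3 2 1 (F [(9,256),(3,39),(8,187)]) (P4 2 1 (F [(9,256),(3,16),(8,197)]) (F [(9,201),(3,73),(8,256)]))) (F [(9,256),(3,17),(14,17),(4,3),(8,176)])) (F [(9,19),(3,256),(14,37),(8,7)])))) (P0 1 1 (U1 1 1 (F [(9,65),(13,104),(3,190),(14,256),(8,6)]) (U0 1 1 (P4 2 1 (F [(9,12),(3,256),(4,5),(8,11)]) (P0 1 2 (P3 2 1 (F [(9,78),(3,256),(8,88)]) (F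 [(9,201),(3,73),(8,256)])) (F [(9,115),(3,256),(8,137),(4,10)]))) (F [(9,146),(3,256),(14,236),(13,19),(8,105)]))) (F [(9,256),(13,7),(3,23),(8,178)]))) (P0 1 1 (P3 1 1 (F [(13,112),(3,256),(9,55),(4,9),(14,170)]) (U1 1 1 (F [(13,91),(9,98),(3,256),(14,167),(8,89)]) (U0 1 1 (F [(3,256),(9,94),(8,211)]) (F [(9,120),(3,256),(14,93),(8,144)])))) (F [(13,111),(9,256),(3,146),(8,200)]))) (P0 1 2 (P3 2 1 (P5 1 1 (U1 1 1 (F [(3,256),(4,56),(9,52),(8,164)]) (F [(3,256),(9,88),(8,203)])) (F [(13,256)])) (P4 2 1 (U1 1 1 (F [(13,68),(3,256),(4,40),(8,8),(14,73)]) (P5 1 2 (U0 1 1 (P2 1 2 (P4 1 2 (F [(8,256),(3,167),(9,117)]) (F [(8,256),(3,194),(9,65)])) (F [(8,151),(3,256),(14,86)])) (P2 1 2 (F [(9,7),(3,256),(8,8)]) (F [(3,256),(13,41),(9,82),(8,210),(14,61)]))) (F [(3,156),(13,186),(8,256),(9,61)])))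 (F [(13,241),(3,230),(8,139),(14,256),(9,24)]))) (P1 1 1 (P5 1 1 (U1 1 1 (F [(13,41),(3,256),(4,50),(9,82),(8,174)]) (P2 1 2 (F [(3,256),(9,89),(8,204)]) (F [(13,256)]))) (F [(13,256)])) (P2 1 1 (U1 1 1 (F [(4,100),(13,74),(9,129),(3,171),(8,256)]) (P5 1 2 (U0 1 1 (F [(3,256),(8,205),(9,89)]) (P4 1 2 (F [(9,73),(3,256),(14,79),(8,77)]) (F [(9,15),(4,46),(3,256),(14,4),(8,21)]))) (F [(3,256),(9,7),(4,63),(8,18)]))) (F [(13,256),(9,95),(3,77),(8,98),(14,210)])))))) (P1 2 1 (F [(9,256),(13,21),(3,18),(8,79)]) (P2 2 1 (F [(9,256),(13,8),(4,121),(3,155)]) (P0 4 1 (F [(9,256),(13,110),(4,25),(3,21),(14,118)]) (O 4))))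

def c225 : Cell := ⟨⟨1,0,0⟩, ⟨0,1,0⟩, ⟨0,0,1⟩, ⟨2,1,1,0⟩, ⟨1,1,0,0⟩, ⟨1,1,2,0⟩, ⟨1,1,1,1⟩⟩

def t225 : Tr :=
  P3 2 1 (P1 1 1 (P5 1 1 (P2 1 2 (P4 1 2 (F [(3,34),(13,256),(10,150),(4,1)]) (F [(3,256),(10,217),(9,118),(4,97)])) (P3 1 1 (F [(13,256),(3,110),(12,28)]) (P4 2 1 (F [(13,256),(3,202),(4,176),(10,35)]) (P0 1 1 (U1 1 1 (U2 1 1 (F [(12,256),(10,58),(13,160),(9,63)]) (P3 2 1 (F [(13,256),(4,51),(3,121)]) (U0 2 1 (P4 4 1 (F [(13,256),(12,212)]) (P0 1 2 (F [(12,120),(10,246),(9,256),(3,62)]) (F [(9,224),(12,156),(13,216),(10,256)]))) (F [(9,256),(4,106)])))) (U0 1 1 (F [(3,256),(13,60),(10,56)]) (P3 2 1 (F [(13,256),(3,148)]) (U2 2 1 (P4 4 1 (F [(13,164),(3,256),(9,18)]) (P0 1 2 (F [(3,79),(10,252),(12,91),(9,256)]) (F [(13,187),(9,141),(10,256)]))) (F [(9,256),(3,29),(10,95)]))))) (F [(13,256),(4,82),(10,55),(12,45)])))))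 (P3 1 2 (F [(13,256)]) (P4 1 1 (F [(13,256),(3,97),(12,45)]) (P0 1 1 (U1 1 1 (P3 2 1 (F [(9,256),(13,59),(3,29),(4,42),(10,237)]) (U2 1 1 (F [(12,216),(10,167),(3,89),(9,256),(13,66)]) (P4 2 1 (F [(13,256),(3,121),(4,51)]) (U0 2 1 (P0 1 2 (F [(9,256),(12,76),(10,245),(3,97)]) (F [(9,249),(13,101),(12,75),(10,256)])) (F [(9,256),(4,106)]))))) (P3 2 1 (F [(13,256),(3,38)]) (U0 1 1 (F [(3,256),(13,60),(10,56)]) (P4 2 1 (F [(13,256),(3,148)]) (U2 2 1 (P0 1 2 (F [(3,35),(9,203),(10,256)]) (F [(13,63),(9,225),(10,256)])) (F [(9,256),(3,18),(10,165)])))))) (F [(13,256),(4,102)]))))) (P2 1 1 (P4 1 2 (P5 1 2 (P2 1 2 (U1 1 1 (P4 1 4 (P5 1 4 (U2 1 1 (P2 1 4 (F [(3,256),(10,53),(4,16),(8,247)]) (F [(4,53),(3,256)])) (U0 2 1 (P2 1 4 (F [(3,243),(13,150),(8,256),(4,18)]) (F [(3,256),(4,53)])) (F [(4,40),(3,80),(13,256),(8,199)])))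 (F [(3,256),(4,74)])) (F [(3,256),(4,74)])) (F [(3,192),(13,256),(8,127),(4,15)])) (U1 1 1 (F [(4,153),(3,256)]) (U0 1 1 (P0 2 1 (F [(3,256)]) (P1 2 1 (F [(3,256)]) (P2 2 1 (F [(3,256),(10,6),(4,74)]) (F [(3,256),(10,4),(4,132)])))) (F [(3,256),(4,138),(8,89)])))) (F [(13,153),(4,195),(3,256),(10,13)])) (P5 2 1 (P0 1 1 (F [(3,256),(10,79),(4,129),(9,46)]) (F [(4,187),(13,111),(3,256),(10,28)])) (P0 1 1 (P3 1 1 (F [(13,256),(4,100),(3,99),(12,109)]) (U1 1 1 (U2 1 1 (F [(12,256),(10,100),(13,153),(9,108)]) (P4 4 1 (F [(4,49),(13,256),(12,125),(10,53)]) (U0 2 1 (P0 1 2 (P3 2 1 (F [(9,188),(12,256),(13,141),(10,110)]) (F [(12,231),(10,250),(9,256),(3,18),(13,74)])) (F [(4,38),(12,237),(13,256)])) (F [(9,108),(4,256)])))) (U0 1 1 (F [(3,256),(13,60),(10,56)]) (P4 4 1 (F [(13,256),(4,37),(3,47),(12,153),(10,17)])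 (U2 2 1 (P0 1 2 (P3 2 1 (F [(9,58),(13,256),(10,107),(12,182)]) (F [(10,202),(12,151),(3,138),(9,256)])) (F [(13,256),(3,38),(12,221)])) (F [(9,179),(4,135),(3,256),(10,66)])))))) (F [(13,141),(4,195),(3,256)])))) (P0 2 1 (P3 1 1 (P5 1 1 (U1 1 1 (F [(4,104),(12,181),(13,256)]) (P2 1 2 (P4 1 2 (F [(4,209),(3,256)]) (F [(13,256),(4,116),(3,132),(12,135)])) (U0 1 1 (P1 1 1 (F [(13,256),(3,132),(4,116),(12,135)]) (O 4)) (F [(4,113),(9,6),(13,256),(12,176)])))) (U1 1 1 (F [(4,113),(13,256),(12,172)]) (P1 1 2 (F [(13,256)]) (U0 1 1 (P2 1 1 (F [(13,256),(4,27),(12,102)]) (O 4)) (F [(9,6),(4,113),(13,256),(12,176)]))))) (P4 1 1 (U1 1 1 (F [(4,104),(12,181),(13,256)]) (P2 1 2 (P5 1 2 (F [(4,209),(3,256)]) (F [(13,256),(4,116),(3,132),(12,135)])) (U0 1 1 (P5 2 1 (F [(12,256),(4,38),(3,43),(13,224)]) (P0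 1 1 (F [(13,256),(12,214)]) (O 4))) (F [(4,38),(9,99),(12,256),(13,210)])))) (U1 1 1 (U2 1 1 (F [(12,247),(10,237),(9,256),(13,123)]) (U0 2 1 (P0 1 2 (P3 2 1 (F [(12,256),(9,176),(10,102),(13,145)]) (F [(12,256),(9,88)])) (F [(12,256),(9,63),(13,162)])) (F [(4,256),(9,79)]))) (U0 1 1 (P0 1 2 (P3 2 1 (P5 1 1 (F [(10,256),(13,109),(9,104),(4,69)]) (O 4)) (F [(10,256),(12,44),(13,97),(4,18),(9,129)])) (P1 1 1 (P5 1 1 (F [(10,91),(12,256),(13,236),(4,15),(9,55)]) (O 4)) (F [(12,256),(10,1),(13,200)]))) (U2 2 1 (P0 1 2 (P3 2 1 (P5 1 1 (F [(4,84),(10,256),(9,128),(13,95)]) (O 4)) (F [(12,69),(10,256),(4,33),(3,17),(9,155),(13,94)])) (P1 1 1 (P5 1 1 (F [(4,256),(10,26),(13,93)]) (O 4)) (F [(4,256),(9,1),(13,37)]))) (F [(9,256),(4,112),(13,184),(10,163)])))))) (P1 2 1 (P5 1 1 (U1 1 1 (F [(4,256),(13,88)])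 (P2 1 2 (P4 1 2 (F [(4,226),(13,3),(3,256)]) (U0 1 1 (P3 1 1 (F [(13,186),(4,229),(3,256),(12,94)]) (O 4)) (F [(4,256),(9,27),(13,81)]))) (U0 1 1 (P3 1 1 (F [(13,256),(4,93),(12,9)]) (O 4)) (F [(4,256),(9,27),(13,81)])))) (U1 1 1 (F [(4,256),(13,169)]) (P3 1 2 (F [(13,256),(4,16)]) (U0 1 1 (P4 1 1 (F [(13,256),(4,27),(12,102)]) (O 4)) (F [(4,256),(13,132)]))))) (P2 2 1 (U1 1 1 (F [(4,256)]) (P4 1 2 (P5 1 2 (U0 1 1 (P2 1 2 (F [(4,215),(3,256)]) (F [(4,256),(13,1),(3,228)])) (F [(4,256)])) (O 4)) (O 4))) (O 4)))))) (P4 2 1 (P2 1 1 (P5 1 2 (P4 1 2 (P2 1 2 (U1 1 1 (P5 1 4 (U2 1 1 (P4 1 4 (P2 1 4 (F [(3,256),(4,9),(8,11)]) (F [(10,3),(4,53),(3,256)])) (F [(10,256),(4,103),(3,147)])) (P4 1 4 (U0 2 1 (P2 1 4 (F [(10,5),(3,256),(8,27),(4,10)]) (F [(10,3),(3,256),(4,53)])) (F [(4,51),(3,256),(10,50),(8,203)]))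 (F [(4,53),(3,256)]))) (F [(10,5),(4,77),(3,256)])) (P5 1 4 (U0 1 1 (F [(3,256),(10,105),(13,126)]) (P4 1 4 (U2 2 1 (F [(3,256),(8,112),(4,14)]) (P2 1 4 (F [(3,256),(10,4),(8,111),(4,9)]) (F [(3,256),(13,10),(4,51)]))) (F [(3,256),(4,51)]))) (F [(10,4),(3,256),(4,73)]))) (U1 1 1 (F [(4,236),(10,117),(3,256)]) (U0 1 1 (P0 2 1 (F [(10,45),(3,256)]) (P1 2 1 (F [(3,256),(10,45)]) (P2 2 1 (F [(3,256),(10,6),(4,74)]) (F [(3,256),(10,5),(4,130)])))) (P0 2 1 (F [(10,11),(3,256),(4,102)]) (F [(4,140),(3,256),(8,67)]))))) (P0 1 1 (F [(10,256),(4,83),(3,80)]) (U1 1 1 (F [(4,256),(12,154),(10,196)]) (U0 1 1 (P2 2 1 (F [(10,256)]) (F [(10,5),(3,256),(4,130)])) (F [(10,159),(4,256),(3,244)]))))) (P0 1 1 (F [(10,124),(4,163),(3,256),(9,35)]) (P1 1 1 (F [(10,115),(4,156),(3,256),(9,38)]) (F [(4,155),(10,2),(3,256),(13,14)]))))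 (P0 2 1 (P3 1 1 (P5 1 1 (F [(4,254),(10,32),(3,256)]) (F [(4,103),(10,256),(3,51),(9,79)])) (F [(4,256),(10,67),(3,252)])) (P1 2 1 (P5 1 1 (U1 1 1 (F [(4,256),(12,213)]) (P2 1 2 (F [(4,254),(10,32),(3,256)]) (F [(4,86),(12,256),(10,23),(13,194),(3,77)]))) (F [(4,23),(12,256),(10,67),(9,16),(13,191)])) (P2 2 1 (U1 1 1 (F [(4,256)]) (P5 1 2 (U0 1 1 (P4 1 2 (P2 1 2 (F [(4,206),(3,256)]) (F [(4,256),(12,68),(3,233)])) (F [(4,80),(12,256),(3,92)])) (F [(4,256)])) (O 4))) (O 4))))) (F [(12,256),(10,64),(9,38)]))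

def c226 : Cell := ⟨⟨1,0,0⟩, ⟨0,1,0⟩, ⟨0,0,1⟩, ⟨1,0,1,0⟩, ⟨2,1,1,0⟩, ⟨1,1,2,0⟩, ⟨1,1,1,1⟩⟩

def t226 : Tr :=
  P2 2 1 (P3 1 1 (F [(13,256)]) (P4 1 1 (P5 1 2 (P2 1 2 (P4 1 2 (U1 1 1 (P5 1 4 (U2 1 1 (P2 1 4 (F [(4,1762),(13,5463),(3,4973),(8,16384),(10,5912)]) (F [(4,69),(3,256),(8,85)])) (P2 1 4 (F [(13,72),(4,26),(3,154),(8,256)]) (F [(4,69),(13,39),(3,256),(8,46)]))) (F [(4,74),(3,256)])) (F [(3,142),(13,256),(8,42),(4,12)])) (U1 1 1 (F [(4,153),(3,256)]) (U0 1 1 (P0 1 2 (P3 2 1 (F [(3,256),(13,47),(4,73)]) (P4 2 1 (F [(3,256),(13,15),(4,75)]) (F [(3,256),(4,132),(10,4)]))) (F [(3,256),(13,51),(4,71)])) (F [(4,138),(3,256),(8,89)])))) (P0 1 1 (U1 1 1 (F [(4,256),(13,227)]) (U0 1 1 (P4 2 1 (F [(13,256),(3,44),(8,236)]) (F [(13,5),(3,256),(4,146),(8,40)])) (F [(4,193),(13,19),(3,256),(8,87)])))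 (F [(13,256)]))) (F [(13,143),(4,193),(3,256)])) (P0 1 2 (P3 2 1 (P5 1 1 (U1 1 1 (F [(4,256),(13,109)]) (P4 1 2 (U0 1 1 (P2 1 2 (F [(4,217),(3,256)]) (F [(4,256),(13,144),(3,188)])) (F [(4,256),(13,105)])) (F [(4,57),(13,256)]))) (F [(13,256),(4,124)])) (P4 2 1 (U1 1 1 (F [(4,256)]) (P5 1 2 (U0 1 1 (P2 1 2 (P4 1 2 (F [(4,217),(3,256)]) (F [(4,256),(13,43),(3,203)])) (F [(4,256),(13,64),(3,191)])) (F [(4,256)])) (O 4))) (O 4))) (P1 1 1 (P5 1 1 (U1 1 1 (F [(4,256),(13,109)]) (P2 1 2 (U0 1 1 (P4 1 2 (F [(4,217),(3,256)]) (F [(13,144),(4,256),(3,188)])) (F [(4,256),(13,105)])) (F [(13,256),(4,103)]))) (F [(13,256),(4,124)])) (P2 1 1 (U1 1 1 (F [(4,256),(13,88)]) (P5 1 2 (U0 1 1 (P4 1 2 (F [(4,217),(3,256)]) (F [(4,256),(13,218),(3,197)])) (F [(4,256),(13,42)])) (F [(13,256)]))) (F [(13,256)]))))))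 (P0 2 1 (P3 1 1 (F [(13,256)]) (P4 2 1 (F [(13,256)]) (O 4))) (F [(13,256)]))

def c227 : Cell := ⟨⟨1,0,0⟩, ⟨0,1,0⟩, ⟨0,0,1⟩, ⟨1,0,0,0⟩, ⟨1,1,0,0⟩, ⟨1,0,1,0⟩, ⟨0,0,0,1⟩⟩

def t227 : Tr :=
  P2 1 1 (P4 1 2 (P5 1 2 (P2 1 2 (P4 1 4 (O 11) (P5 2 1 (O 3) (P0 1 1 (P3 1 1 (O 11) (O 3)) (O 11)))) (P0 2 1 (P3 1 1 (P5 1 1 (O 3) (P1 1 2 (O 11) (O 3))) (O 3)) (P1 2 1 (P5 1 1 (O 1) (P3 1 2 (O 11) (O 1))) (O 1)))) (P3 1 2 (P1 1 1 (P5 2 1 (F [(14,256),(8,237)]) (P3 1 4 (P1 1 2 (O 6) (F [(4,256),(14,26)])) (F [(4,256),(14,185),(8,142)]))) (P0 4 1 (F [(14,93),(8,256)]) (P1 2 1 (F [(14,113),(8,256),(2,35)]) (P2 2 1 (F [(14,256),(8,165),(5,10)]) (O 1))))) (P1 4 1 (F [(14,256),(8,197),(5,140)]) (P0 2 1 (F [(14,256),(8,166),(5,188),(2,19)]) (P2 2 1 (F [(14,256),(8,163),(2,16),(5,173)]) (O 1)))))) (P5 2 1 (P0 1 1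 (P4 2 1 (P5 1 2 (F [(5,256),(8,4),(4,23)]) (P3 1 1 (P1 2 1 (F [(8,239),(14,256),(4,9),(5,94),(12,129)]) (F [(8,79),(14,10),(5,256),(4,65),(12,53)])) (F [(5,256),(8,4),(4,23)]))) (P3 4 1 (P5 1 1 (P0 4 1 (P4 1 2 (P5 1 2 (F [(12,256),(5,233)]) (U1 1 1 (F [(12,81),(4,147),(5,256)]) (U0 1 1 (P1 1 2 (F [(5,256),(12,197),(10,114),(14,183)]) (F [(12,256),(5,121),(4,15),(14,148)])) (F [(5,256),(4,175),(10,72)])))) (U1 1 1 (F [(12,160),(4,247),(5,256)]) (P3 1 1 (U0 1 1 (P1 1 2 (P5 2 1 (F [(12,256),(5,17),(4,3),(14,185)]) (F [(12,16384),(5,3371),(14,16286),(8,741)])) (F [(12,256),(4,5),(5,30),(14,163)])) (F [(4,256),(10,75),(5,224),(14,19)])) (F [(12,256)])))) (P1 4 1 (F [(5,256),(12,98),(4,34),(8,1)]) (O 10))) (P1 2 1 (P3 1 2 (F [(8,256),(14,192),(12,96)]) (P0 1 1 (U1 1 1 (F [(4,256),(12,238),(5,159),(14,112)])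 (P4 1 1 (U0 1 1 (P5 1 2 (P2 1 2 (U1 2 1 (F [(8,43),(12,251),(14,256)]) (F [(14,256),(12,221)])) (F [(12,251),(8,50),(14,256)])) (P3 1 1 (F [(8,256),(12,177),(14,171)]) (F [(12,251),(8,50),(14,256)]))) (F [(8,256),(12,137),(5,14)])) (U0 1 1 (P3 2 1 (P5 1 1 (F [(12,256),(8,103),(10,96),(14,231)]) (F [(12,105),(8,256),(10,51)])) (F [(12,256)])) (F [(4,256)])))) (U1 1 1 (F [(4,135),(8,34),(12,256),(14,241),(5,65)]) (F [(8,38),(14,256),(12,226)])))) (P0 4 1 (P3 1 1 (U1 1 1 (F [(4,170),(12,129),(8,118),(5,256)]) (U0 1 1 (P1 1 2 (F [(8,13),(14,256),(12,226)]) (P2 1 2 (F [(12,226),(14,256)]) (F [(12,256),(4,36),(5,82),(14,174)]))) (F [(4,256),(8,67),(12,9),(5,240)]))) (U1 1 1 (F [(4,247),(12,160),(5,256)]) (P4 1 1 (U0 1 1 (P2 1 2 (P5 1 2 (F [(14,16286),(12,16384),(5,3371),(8,741)]) (F [(12,256),(14,253)]))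 (F [(12,256),(4,5),(5,30),(14,163)])) (F [(4,240),(8,256),(12,114),(5,166)])) (F [(12,256)])))) (P2 4 1 (U1 1 1 (F [(4,202),(12,31),(8,22),(5,256)]) (U0 1 1 (P3 1 2 (F [(14,184),(8,135),(5,230),(4,5),(12,256)]) (P4 1 2 (F [(5,215),(14,185),(8,78),(12,256)]) (O 10))) (F [(8,21),(4,221),(5,256)]))) (U1 1 1 (F [(4,219),(12,18),(5,256)]) (P1 4 1 (U0 1 1 (P3 1 2 (F [(14,155),(5,256),(4,137),(12,131)]) (O 10)) (F [(8,24),(4,256),(5,227)])) (O 10))))))) (O 10))) (P1 4 1 (P5 1 2 (P4 1 1 (F [(14,256),(5,67)]) (P0 1 4 (P3 4 1 (P1 1 2 (F [(5,256),(14,76)]) (F [(5,39),(14,30),(8,256),(7,255)])) (P4 2 1 (P2 1 4 (F [(5,256),(8,22)]) (U1 1 1 (U2 1 1 (P0 1 2 (F [(5,256),(8,9)]) (F [(5,47),(8,256),(7,241),(4,15),(15,10)])) (F [(5,256),(8,193),(14,15)])) (F [(5,93),(14,256)]))) (U1 1 1 (U2 1 1 (P0 1 8 (F [(5,256),(12,1),(4,208),(8,4)])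 (P2 1 2 (F [(5,256),(8,3),(4,207)]) (F [(5,140),(8,256),(7,250),(4,112)]))) (P0 1 8 (F [(5,256),(8,54),(4,117)]) (F [(8,148),(5,256)]))) (F [(5,256),(8,75)])))) (P2 1 2 (P3 1 2 (F [(14,256),(5,79)]) (F [(14,30),(5,39),(8,256),(7,255)])) (F [(14,22),(8,256),(2,6)])))) (P3 2 1 (F [(8,256),(14,17),(4,12)]) (P0 1 4 (P4 4 1 (F [(8,256),(5,50),(7,109),(12,5)]) (U1 1 1 (P3 4 1 (F [(8,256),(4,173),(5,173),(12,1),(7,185)]) (U2 1 1 (P0 1 8 (F [(5,256),(4,210),(8,3)]) (F [(4,173),(8,256),(5,185),(7,250)])) (P0 1 8 (F [(8,54),(5,256),(4,117)]) (F [(8,130),(4,43),(5,256)])))) (F [(8,67),(5,256),(4,70)]))) (F [(8,256),(4,8)])))) (P0 2 1 (P4 1 1 (O 3) (P3 4 1 (P5 1 2 (P2 1 1 (F [(5,44),(14,17),(8,250),(7,256)]) (U1 1 1 (U2 1 1 (P1 4 1 (F [(14,23),(5,36),(8,256),(7,249),(15,22)]) (O 1)) (P1 4 1 (F [(14,256)])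 (O 1))) (F [(14,256),(7,65),(15,85)]))) (U1 1 1 (P1 2 1 (F [(8,256),(14,22),(2,6)]) (U2 1 1 (P2 4 1 (F [(14,94),(8,256),(2,51),(7,235)]) (O 1)) (P2 4 1 (F [(14,256)]) (O 1)))) (F [(14,256),(7,36),(15,99)]))) (O 10))) (O 3)))) (P0 1 1 (P3 1 1 (P1 1 2 (P5 4 1 (F [(4,256),(8,111)]) (O 4)) (P0 1 1 (F [(4,256),(8,111)]) (P1 2 1 (F [(4,256),(8,191)]) (P2 2 1 (F [(4,141),(8,256)]) (P0 2 1 (F [(4,256),(8,131)]) (U1 1 1 (F [(4,256),(12,69),(5,187)]) (P1 4 1 (F [(4,256),(14,89)]) (F [(4,243),(12,14),(5,256)])))))))) (P4 4 1 (P1 1 1 (F [(4,256),(12,5),(8,20)]) (P2 2 1 (P4 1 2 (F [(4,139),(8,256)]) (P0 1 1 (F [(4,256),(12,5),(8,20)]) (F [(8,256),(12,251),(14,144)]))) (P0 4 1 (P4 1 1 (U1 1 1 (F [(4,256)]) (P5 2 1 (U0 1 1 (P2 1 2 (F [(4,149),(12,132),(14,256)]) (F [(4,30),(12,256),(14,174),(5,67)])) (F [(4,256),(8,29)]))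 (F [(4,20),(12,256)]))) (F [(12,256)])) (P1 2 1 (U1 1 1 (F [(4,256)]) (P5 2 1 (U0 1 1 (P4 1 2 (F [(4,256),(14,125)]) (O 10)) (F [(4,256),(8,29)])) (O 10))) (U1 1 1 (F [(4,231),(12,26),(5,256)]) (P2 4 1 (U0 1 1 (P4 1 2 (F [(4,256),(14,57),(5,169)]) (O 10)) (F [(4,256),(8,27)])) (O 10))))))) (P0 1 2 (F [(12,256),(4,149)]) (P1 1 1 (F [(4,149),(12,256)]) (O 10))))) (P1 1 1 (P3 1 2 (P5 4 1 (F [(4,256),(8,144),(14,174)]) (P1 1 2 (O 4) (F [(4,256)]))) (P0 1 1 (P3 2 1 (F [(4,188),(8,256)]) (P4 2 1 (F [(8,256),(4,25)]) (P0 1 2 (U1 1 1 (F [(4,256),(12,8),(5,192)]) (P3 4 1 (F [(8,62),(4,256),(5,217)]) (F [(8,19),(4,227),(5,256)]))) (F [(8,256),(4,6)])))) (F [(4,64),(8,256)]))) (P2 4 1 (P3 1 1 (F [(8,256),(4,31),(14,39)]) (P4 2 1 (F [(8,256),(4,25)]) (P0 1 4 (P3 2 1 (F [(8,256),(4,6)]) (U1 1 1 (P4 4 1 (F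 [(8,256),(4,139),(5,135)]) (O 10)) (P4 4 1 (F [(8,242),(4,189),(5,256)]) (O 10)))) (F [(8,256),(4,8)])))) (P0 2 1 (P3 1 1 (O 1) (P4 4 1 (O 1) (O 10))) (O 1))))))) (P0 2 1 (P3 1 1 (P5 1 1 (P2 1 2 (P4 1 2 (O 1) (P0 1 2 (F [(4,256),(8,45)]) (O 1))) (P1 1 1 (P4 2 1 (O 1) (F [(4,256)])) (O 4))) (P1 1 2 (P3 1 2 (P5 2 1 (F [(4,256),(13,46)]) (O 4)) (F [(4,256),(13,46)])) (F [(4,256),(12,1)]))) (P4 1 1 (P2 1 2 (P5 1 2 (O 10) (P1 1 2 (P3 1 1 (F [(4,256),(8,45)]) (O 10)) (O 10))) (P5 2 1 (O 10) (P0 1 1 (P3 1 1 (O 4) (O 10)) (O 4)))) (P0 1 2 (P3 2 1 (P5 1 1 (O 10) (O 4)) (O 10)) (P1 1 1 (P5 1 1 (O 10) (O 4)) (O 10))))) (O 1))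

theorem g18 : ∀ c ∈ [c216, c217, c218, c219, c220, c221, c222, c223, c224, c225, c226, c227], Done D c := by
  intro c hc
  simp only [List.mem_cons, List.not_mem_nil, or_false] at hc
  rcases hc with rfl | rfl | rfl | rfl | rfl | rfl | rfl | rfl | rfl | rfl | rfl | rfl
  · exact done_of_chk (t := t216) (by decide +kernel)
  · exact done_of_chk (t := t217) (by decide +kernel)
  · exact done_of_chk (t := t218) (by decide +kernel)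
  · exact done_of_chk (t := t219) (by decide +kernel)
  · exact done_of_chk (t := t220) (by decide +kernel)
  · exact done_of_chk (t := t221) (by decide +kernel)
  · exact done_of_chk (t := t222) (by decide +kernel)
  · exact done_of_chk (t := t223) (by decide +kernel)
  · exact done_of_chk (t := t224) (by decide +kernel)
  · exact done_of_chk (t := t225) (by decide +kernel)
  · exact done_of_chk (t := t226) (by decide +kernel)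
  · exact done_of_chk (t := t227) (by decide +kernel)

end Pool.Agent.W2helper59.NW.I0
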