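import Pool.Agent.W2helper59.NW.D_I0

set_option autoImplicit false
set_option maxRecDepth 1000000

namespace Pool.Agent.W2helper59.NW.I0

open Tr

def c24 : Cell := ⟨⟨1,0,0⟩, ⟨0,1,0⟩, ⟨0,0,1⟩, ⟨6,5,3,2⟩, ⟨3,3,1,1⟩, ⟨5,5,3,3⟩, ⟨3,2,1,2⟩⟩

def t24 : Tr :=
  P4 1 1 (U1 1 1 (F [(12,256),(4,167),(10,79),(8,110)]) (P2 1 2 (U0 1 1 (P5 1 2 (P4 1 2 (U1 2 1 (F [(12,194),(10,134),(14,256),(8,54)]) (F [(14,256),(10,174),(12,120)])) (F [(10,256),(12,1)])) (F [(10,256)])) (P5 1 2 (U2 2 1 (P4 1 2 (F [(8,199),(12,236),(10,213),(14,256)]) (F [(10,256),(4,3)])) (F [(8,256),(10,237),(14,18)])) (F [(10,256),(4,27),(8,5)]))) (F [(10,256),(4,45)]))) (F [(10,256),(4,50)])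

def c25 : Cell := ⟨⟨1,0,0⟩, ⟨0,1,0⟩, ⟨0,0,1⟩, ⟨6,4,3,3⟩, ⟨6,5,3,2⟩, ⟨5,5,3,3⟩, ⟨3,2,1,2⟩⟩

def t25 : Tr :=
  U1 1 1 (F [(4,167),(12,256),(10,79),(8,110)]) (P4 1 2 (U0 1 1 (P5 1 2 (P2 1 2 (U1 2 1 (F [(14,256),(8,55),(12,195),(10,133)]) (F [(14,256),(10,176),(12,117)])) (U1 2 1 (U2 1 1 (P1 2 1 (F [(12,183),(10,201),(8,66),(14,256)]) (F [(12,203),(10,256),(8,216),(14,214)])) (P1 2 1 (F [(10,222),(8,68),(14,256),(12,147)]) (U0 2 1 (F [(8,251),(10,256),(12,203),(14,186)]) (F [(8,256),(10,226)])))) (U0 1 2 (P1 2 1 (F [(14,256),(10,184),(12,121)]) (P0 2 1 (F [(10,248),(14,256),(8,53),(12,137)]) (F [(14,176),(8,183),(10,256),(12,94)]))) (P1 2 1 (F [(14,256),(10,202),(12,101)]) (U2 2 1 (P0 2 1 (F [(10,256),(14,240),(8,147),(12,169)]) (F [(8,228),(14,183),(10,256),(12,138)])) (F [(8,256),(14,3),(10,229)])))))) (F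 [(10,256),(12,1),(8,141)])) (P5 1 2 (F [(8,256),(14,192),(10,178),(12,211)]) (F [(10,256),(8,236),(12,78)]))) (F [(10,256),(4,3),(8,174)]))

def c26 : Cell := ⟨⟨1,0,0⟩, ⟨0,1,1⟩, ⟨0,0,1⟩, ⟨3,2,2,1⟩, ⟨6,5,3,2⟩, ⟨5,5,3,3⟩, ⟨6,4,3,3⟩⟩

def t26 : Tr :=
  F [(4,242),(12,256),(10,110)]

def c27 : Cell := ⟨⟨1,1,0⟩, ⟨0,1,0⟩, ⟨0,1,1⟩, ⟨11,9,7,5⟩, ⟨6,5,3,2⟩, ⟨5,5,3,3⟩, ⟨6,4,3,3⟩⟩

def t27 : Tr :=
  F [(10,256),(4,6),(8,166)]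

def c28 : Cell := ⟨⟨1,1,0⟩, ⟨0,1,0⟩, ⟨0,1,1⟩, ⟨12,9,7,4⟩, ⟨6,5,3,2⟩, ⟨11,9,7,5⟩, ⟨6,4,3,3⟩⟩

def t28 : Tr :=
  F [(10,256),(4,24),(8,119)]

def c29 : Cell := ⟨⟨1,1,0⟩, ⟨0,1,0⟩, ⟨0,1,1⟩, ⟨12,8,7,5⟩, ⟨12,9,7,4⟩, ⟨11,9,7,5⟩, ⟨6,4,3,3⟩⟩

def t29 : Tr :=
  F [(10,16384),(4,2732),(8,12021)]

def c30 : Cell := ⟨⟨1,1,0⟩, ⟨0,3,1⟩, ⟨0,1,1⟩, ⟨3,2,2,1⟩, ⟨12,9,7,4⟩, ⟨11,9,7,5⟩, ⟨12,8,7,5⟩⟩

def t30 : Tr :=
  F [(4,256),(10,181),(3,135)]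

def c31 : Cell := ⟨⟨1,3,0⟩, ⟨0,1,0⟩, ⟨0,3,1⟩, ⟨3,2,2,1⟩, ⟨12,9,7,4⟩, ⟨11,9,7,5⟩, ⟨12,8,7,5⟩⟩

def t31 : Tr :=
  P1 4 1 (F [(10,256),(3,88),(8,244)]) (P0 4 1 (P4 1 1 (U1 4 1 (P2 1 2 (U2 1 1 (F [(10,256),(4,20),(8,145)]) (P5 1 2 (U0 2 1 (F [(10,256),(8,146),(4,4)]) (P4 1 2 (P2 1 4 (F [(10,181),(8,256),(3,87)]) (U2 2 1 (F [(10,256),(4,99),(8,51)]) (U0 4 1 (F [(10,256),(8,127),(4,4)]) (P0 1 1 (F [(10,256),(3,27),(8,230)]) (P1 1 1 (F [(10,220),(3,112),(8,256)]) (P2 2 1 (F [(10,175),(3,93),(8,256)]) (F [(10,156),(3,256),(4,161),(8,248)]))))))) (F [(10,256),(3,79)]))) (F [(10,62),(3,256)]))) (F [(10,62),(3,256)])) (P2 1 2 (U0 1 4 (F [(3,150),(10,217),(8,256)]) (P5 1 2 (U2 2 1 (F [(10,256),(8,147)]) (P4 1 2 (P2 1 4 (F [(10,141),(3,108),(8,256)]) (U0 2 1 (F [(10,208),(3,187),(8,256)]) (U2 4 1 (F [(10,256),(8,127)])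 (P0 1 1 (F [(10,256),(3,27),(8,230)]) (P1 1 1 (F [(3,112),(10,220),(8,256)]) (P2 2 1 (F [(10,137),(3,113),(8,256)]) (F [(3,256),(10,156),(8,248),(4,161)]))))))) (F [(10,256),(3,79)]))) (F [(3,256)]))) (F [(3,256)]))) (F [(10,256),(3,125)])) (P2 4 1 (U1 4 1 (P4 1 2 (U2 1 1 (F [(10,256),(4,127)]) (P5 1 2 (U0 2 1 (F [(10,183),(3,190),(8,256),(4,123)]) (P2 1 2 (P4 1 4 (F [(8,256),(10,168),(3,77)]) (U2 2 1 (F [(10,256),(4,55),(8,198)]) (U0 4 1 (F [(10,256),(8,210),(4,3)]) (P0 1 1 (P3 1 1 (F [(10,153),(3,217),(8,256),(4,116)]) (P4 2 1 (F [(10,156),(8,256),(3,224),(4,124)]) (F [(10,146),(3,256),(4,159),(8,244)]))) (F [(8,256),(10,154),(3,47)]))))) (U2 2 1 (F [(10,158),(3,246),(4,149),(8,256)]) (P1 2 1 (U0 4 1 (F [(10,179),(3,213),(8,256),(4,132)]) (P4 1 1 (F [(8,256),(3,240),(10,149),(4,136)]) (F [(3,256),(10,139),(8,239),(4,150)])))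 (F [(3,256),(8,240),(4,164),(10,134)]))))) (F [(3,256),(10,8),(4,130)]))) (F [(10,2),(3,256),(4,155)])) (P4 1 2 (U0 1 4 (F [(3,219),(10,239),(8,256)]) (P5 1 2 (U2 2 1 (F [(10,137),(3,200),(8,256)]) (P2 1 2 (P4 1 4 (F [(8,256),(3,146),(10,71)]) (U0 2 1 (F [(3,163),(10,183),(8,256)]) (U2 4 1 (F [(3,237),(10,123),(8,256)]) (P0 1 1 (P3 1 1 (F [(3,216),(10,29),(8,256)]) (P4 2 1 (F [(3,152),(10,63),(8,256)]) (F [(3,256),(10,128),(8,236),(4,152)]))) (F [(8,256),(3,196)]))))) (F [(3,256),(8,152),(4,67)]))) (F [(3,256),(8,17),(4,111)]))) (F [(3,256),(4,145)]))) (F [(3,256),(4,166),(8,4)])))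

def c32 : Cell := ⟨⟨2,5,1⟩, ⟨1,3,0⟩, ⟨0,3,1⟩, ⟨23,17,15,9⟩, ⟨12,9,7,4⟩, ⟨11,9,7,5⟩, ⟨12,8,7,5⟩⟩

def t32 : Tr :=
  F [(10,256),(4,4),(8,148)]

def c33 : Cell := ⟨⟨1,1,0⟩, ⟨1,3,0⟩, ⟨2,5,1⟩, ⟨23,17,15,9⟩, ⟨23,18,14,9⟩, ⟨11,9,7,5⟩, ⟨12,8,7,5⟩⟩

def t33 : Tr :=
  P5 1 1 (P4 1 2 (U0 2 1 (P2 1 2 (P5 1 2 (U1 2 1 (F [(4,256),(10,186)]) (P4 1 4 (U0 1 2 (P2 1 4 (F [(8,256),(4,1),(10,160)]) (P1 1 1 (F [(8,256),(4,1),(10,166)]) (U1 4 1 (P0 2 1 (F [(4,1),(8,256),(10,164)]) (U2 1 1 (F [(4,88),(8,95),(10,256)]) (P2 2 1 (F [(8,256),(10,156)]) (U0 2 1 (P1 2 1 (F [(8,256),(10,158)]) (P0 4 1 (F [(8,256),(10,157)]) (U1 1 1 (P2 4 1 (F [(4,39),(8,256),(10,141)]) (P1 4 1 (F [(4,3),(8,256),(10,253)]) (F [(4,153),(10,156),(8,256),(3,252)]))) (P2 4 1 (F [(8,256),(10,154)]) (U0 1 2 (F [(10,256),(8,149),(4,4)]) (F [(10,9994),(8,16384),(4,9383),(3,15858)]))))))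 (P1 2 1 (F [(8,256)]) (P0 4 1 (F [(8,256)]) (U2 2 1 (P2 4 1 (F [(8,256)]) (P1 4 1 (F [(8,256),(10,154)]) (F [(4,9692),(8,16384),(10,9968),(3,16075)]))) (P2 4 1 (F [(8,256)]) (U0 4 1 (P1 4 1 (F [(8,256),(10,154)]) (F [(4,155),(8,256),(10,155),(3,253)])) (F [(4,256),(8,36)])))))))))) (P0 2 1 (F [(8,256),(10,163)]) (U0 1 4 (F [(8,256),(10,180),(3,129)]) (P2 2 1 (F [(8,256),(10,156)]) (U2 2 1 (P1 2 1 (F [(8,256),(10,157)]) (P0 4 1 (F [(8,256),(10,157)]) (F [(8,16384),(10,7655),(3,10801)]))) (P1 2 1 (F [(8,256),(10,146)]) (P0 4 1 (F [(8,256),(3,6)]) (U0 2 1 (F [(8,16384),(3,10801),(10,7655)]) (P2 4 1 (F [(8,256)]) (U2 4 1 (P1 4 1 (F [(8,256),(3,116),(10,85)]) (P0 8 1 (F [(8,256),(10,153)]) (F [(8,256),(4,149),(3,253),(10,150)]))) (F [(8,256),(4,119),(3,209)]))))))))))))) (F [(4,256),(8,50)])) (U0 1 2 (P3 1 1 (P1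 1 1 (F [(10,167),(8,256)]) (U1 4 1 (P0 2 1 (F [(10,256),(8,208)]) (P2 2 1 (F [(10,256),(4,62),(8,195)]) (U2 1 1 (F [(10,256),(4,112)]) (U0 2 1 (F [(10,256),(4,31),(3,40)]) (P1 2 1 (F [(8,256),(10,154)]) (P0 4 1 (F [(4,147),(10,256),(8,174)]) (P2 4 1 (F [(4,147),(8,174),(10,256)]) (U2 2 1 (P1 4 1 (F [(8,256),(10,154)]) (F [(4,163),(10,176),(8,247),(3,256)])) (U0 4 1 (P1 4 1 (F [(8,256),(10,154)]) (P0 8 1 (F [(4,150),(8,256),(10,157),(3,249)]) (F [(4,9944),(8,16384),(10,9956),(3,16213)]))) (F [(4,256),(8,7),(10,79)])))))))))) (P0 2 1 (F [(10,256),(8,208)]) (P2 2 1 (F [(10,256),(8,206),(4,52)]) (U0 1 4 (F [(10,210),(3,176),(8,256)]) (U2 2 1 (F [(10,256),(3,25)]) (P1 2 1 (F [(8,256),(10,154)]) (P0 4 1 (F [(10,158),(8,256)]) (P2 4 1 (F [(8,256),(10,158)]) (U0 2 1 (F [(3,176),(10,191),(8,256)]) (U2 4 1 (P1 4 1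 (F [(8,256),(10,151),(3,5)]) (P0 8 1 (F [(8,256),(10,155),(3,247),(4,145)]) (P2 8 1 (F [(8,256),(4,146),(3,247),(10,154)]) (F [(3,256),(8,254),(4,151),(10,151)])))) (F [(8,256),(4,149),(3,253),(10,150)])))))))))))) (P0 1 1 (F [(10,256),(4,80),(8,97)]) (U1 4 1 (F [(10,171),(4,256),(3,140)]) (P1 2 1 (F [(10,256),(8,28),(4,100)]) (P2 2 1 (F [(10,256),(8,198),(4,54)]) (U0 1 4 (F [(10,210),(3,176),(8,256)]) (U2 2 1 (F [(10,256),(3,25)]) (P0 2 1 (F [(10,256),(8,90),(4,86)]) (P1 4 1 (F [(10,256),(8,190),(4,60)]) (P2 4 1 (F [(10,256),(8,196),(4,58)]) (U0 2 1 (F [(3,176),(10,191),(8,256)]) (U2 4 1 (P0 4 1 (F [(10,9981),(3,16019),(4,9481),(8,16384)]) (P1 8 1 (F [(10,9928),(3,15947),(8,16384),(4,9385)]) (P2 8 1 (F [(3,15949),(8,16384),(10,9903),(4,9385)]) (F [(3,256),(10,151),(8,252),(4,152)])))) (P0 4 1 (F [(4,9442),(10,9870),(3,16025),(8,16384)])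 (F [(4,150),(8,256),(3,255),(10,149)])))))))))))))) (F [(4,256),(8,19),(10,88)])))) (U1 2 1 (F [(4,244),(10,256)]) (U0 1 2 (P1 1 2 (F [(10,256),(8,156)]) (P4 1 1 (P2 1 1 (F [(10,252),(8,256)]) (U1 4 1 (P0 2 1 (F [(10,256),(8,208)]) (U2 1 1 (F [(10,256),(4,112)]) (P1 2 1 (F [(10,256),(8,151)]) (U0 2 1 (F [(10,256),(3,68),(4,46)]) (P2 2 1 (F [(10,250),(8,256)]) (P0 4 1 (F [(10,256),(4,63),(8,193)]) (U2 2 1 (P1 4 1 (F [(10,256),(4,86),(8,89)]) (P2 4 1 (F [(4,61),(10,256),(8,192)]) (F [(4,153),(10,155),(3,256),(8,252)]))) (P1 4 1 (F [(10,158),(3,247),(8,256),(4,146)]) (U0 4 1 (P2 4 1 (F [(10,155),(4,146),(8,256),(3,247)]) (F [(10,153),(3,256),(4,151),(8,252)])) (F [(4,151),(8,256),(3,254),(10,151)])))))))))) (P0 2 1 (F [(10,256),(8,208)]) (U0 1 4 (F [(10,215),(3,256),(8,230)]) (P1 2 1 (F [(10,256),(8,151)]) (U2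 2 1 (F [(10,256),(3,74)]) (P2 2 1 (F [(10,250),(8,256)]) (P0 4 1 (F [(10,256),(8,220),(4,50)]) (U0 2 1 (F [(3,256),(10,194),(8,229)]) (P1 4 1 (F [(3,246),(10,154),(8,256),(4,141)]) (U2 4 1 (F [(3,16262),(10,9436),(8,16384),(4,8897)]) (F [(8,256),(3,254),(4,150),(10,150)])))))))))))) (P0 1 1 (F [(10,256)]) (U1 4 1 (F [(10,156),(3,224),(4,256)]) (P2 2 1 (F [(10,256)]) (U0 1 4 (F [(10,82),(3,256)]) (P1 2 1 (F [(10,256)]) (U2 2 1 (F [(10,82),(3,256)]) (P0 2 1 (F [(10,256),(4,57)]) (P2 4 1 (F [(10,256),(8,190),(4,60)]) (F [(3,256),(10,144),(8,234),(4,150)]))))))))))) (P1 1 2 (F [(10,256),(4,75),(8,104)]) (U2 2 1 (P4 1 1 (P2 1 1 (F [(10,255),(4,3),(8,256)]) (P0 2 1 (F [(10,256),(4,4),(8,208)]) (U1 1 1 (F [(4,252),(10,256)]) (P1 2 1 (F [(10,256),(4,5),(8,148)]) (P2 2 1 (F [(4,3),(8,256),(10,253)]) (F [(4,161),(10,156),(8,251),(3,256)]))))))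 (F [(10,156),(4,256),(3,224)])) (P4 1 1 (P2 1 1 (F [(4,53),(8,201),(10,256)]) (P0 2 1 (F [(4,55),(8,197),(10,256)]) (U0 2 1 (P1 2 1 (F [(4,83),(8,93),(10,256)]) (F [(4,148),(8,256),(10,148),(3,250)])) (F [(4,256),(10,242)])))) (F [(4,256),(10,156),(3,224)]))))))) (F [(10,7576),(3,16384),(4,12994)])) (F [(4,256),(10,195),(3,58)])) (F [(10,256),(3,134),(4,166)])) (F [(10,256),(3,134),(4,166)])

def c34 : Cell := ⟨⟨1,1,0⟩, ⟨1,3,0⟩, ⟨2,5,1⟩, ⟨23,17,15,9⟩, ⟨12,9,7,4⟩, ⟨23,18,14,9⟩, ⟨12,8,7,5⟩⟩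

def t34 : Tr :=
  P4 1 1 (P5 1 2 (U0 2 1 (P2 1 2 (P4 1 2 (U1 2 1 (F [(4,256),(10,80)]) (P5 1 4 (U0 1 2 (P2 1 4 (F [(8,256),(10,127)]) (P0 1 1 (F [(4,1),(8,256),(10,162)]) (U1 4 1 (P1 2 1 (F [(4,58),(8,256),(10,221)]) (U2 1 1 (F [(4,88),(8,95),(10,256)]) (P2 2 1 (F [(4,28),(8,256),(10,182)]) (U0 2 1 (P0 2 1 (F [(4,153),(8,176),(10,256)]) (P1 4 1 (F [(4,55),(8,256),(10,211)]) (U1 1 1 (P2 4 1 (F [(4,256),(8,171)]) (F [(4,153),(8,256),(10,156),(3,252)])) (P2 4 1 (F [(8,256),(4,23),(10,178)]) (U0 1 2 (F [(10,256),(4,4),(8,149)]) (F [(10,10028),(4,9598),(8,16384),(3,15981)])))))) (P0 2 1 (F [(4,256),(8,42)]) (P1 4 1 (F [(4,11),(8,256)]) (U2 2 1 (P2 4 1 (F [(4,11),(8,256)]) (F [(4,152),(8,256),(10,156),(3,251)])) (P2 4 1 (F [(4,11),(8,256)]) (F [(4,158),(8,256),(10,157),(3,255)]))))))))) (P1 2 1 (F [(8,256),(4,1),(10,162)])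 (U0 1 4 (F [(8,256),(10,192),(3,115)]) (P2 2 1 (F [(8,256),(4,38),(10,147)]) (U2 2 1 (P0 2 1 (F [(8,256),(10,156)]) (P1 4 1 (F [(8,256),(10,156)]) (U1 1 1 (P2 4 1 (F [(8,256),(10,185),(4,13)]) (U2 1 2 (F [(10,256),(8,152)]) (P0 4 1 (F [(10,256),(8,193),(4,62)]) (F [(10,155),(3,248),(8,256),(4,146)])))) (P2 4 1 (F [(8,256),(10,156)]) (P0 4 1 (F [(8,256),(10,158),(3,244),(4,146)]) (F [(3,249),(10,155),(8,256),(4,147)])))))) (P0 2 1 (F [(8,256)]) (P1 4 1 (F [(8,256)]) (U0 2 1 (P2 4 1 (F [(8,256)]) (P0 4 1 (F [(8,256),(3,244),(4,145),(10,153)]) (U1 2 1 (P1 8 1 (F [(8,256),(3,248),(4,148),(10,153)]) (F [(3,256),(8,252),(4,152),(10,145)])) (F [(3,220),(8,256)])))) (P2 4 1 (F [(8,256),(4,11)]) (U2 4 1 (P0 4 1 (F [(4,256),(8,174)]) (P1 8 1 (F [(8,256),(4,150),(3,247),(10,152)]) (F [(8,256),(4,153),(3,256),(10,150)])))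 (F [(4,129),(8,256),(3,226)]))))))))))))) (F [(4,256)])) (U0 1 2 (P1 1 1 (F [(10,256),(4,80),(8,97)]) (P0 1 1 (F [(4,62),(10,256),(8,184)]) (U1 4 1 (F [(4,256),(10,171),(3,140)]) (P2 2 1 (F [(10,256),(8,189),(4,60)]) (U0 1 4 (F [(10,192),(3,115),(8,256)]) (U2 2 1 (F [(10,256),(3,1),(4,7)]) (P1 2 1 (F [(10,256),(4,86),(8,90)]) (P0 2 1 (F [(4,62),(8,190),(10,256)]) (P2 4 1 (F [(8,191),(4,62),(10,256)]) (U0 2 1 (P1 4 1 (P3 1 1 (F [(10,222),(3,118),(8,256)]) (U1 2 1 (P0 1 2 (F [(10,9969),(8,16384),(4,9317),(3,15643)]) (F [(10,156),(3,248),(8,256),(4,145)])) (F [(3,120),(10,128),(8,256)]))) (P0 4 1 (U1 2 1 (P3 2 1 (U2 1 1 (F [(10,9883),(3,15954),(8,16384),(4,9405)]) (F [(3,16095),(10,9802),(8,16384),(4,9459)])) (F [(8,16384),(4,9370),(10,9845),(3,15726)])) (F [(3,153),(10,66),(8,256)])) (U1 2 1 (P2 8 1 (F [(3,15906),(10,9844),(8,16384),(4,9321)])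 (F [(3,256),(10,16),(4,113)])) (F [(3,226),(10,21),(8,256)])))) (U2 4 1 (P1 4 1 (P3 1 1 (F [(10,9981),(3,16019),(4,9481),(8,16384)]) (P0 1 2 (F [(4,152),(8,256),(10,156),(3,251)]) (F [(10,10008),(4,9530),(3,16055),(8,16384)]))) (P0 4 1 (P3 2 1 (U1 1 1 (F [(4,152),(10,157),(8,256),(3,252)]) (F [(4,9529),(8,16384),(3,16204),(10,9679)])) (F [(4,256),(8,106),(3,165)])) (P2 8 1 (U1 1 1 (F [(4,152),(8,256),(10,157),(3,252)]) (F [(8,16384),(4,9479),(3,16219),(10,9591)])) (F [(3,256),(4,152),(8,233),(10,139)])))) (P1 4 1 (P3 1 1 (F [(4,148),(10,154),(3,251),(8,256)]) (F [(4,153),(8,253),(10,148),(3,256)])) (F [(4,148),(8,172),(3,256)]))))))))))))) (F [(4,256),(10,77)])))) (U1 2 1 (F [(4,256),(10,80)]) (U0 1 2 (P0 1 2 (F [(10,256),(4,88),(8,89)]) (P1 1 1 (F [(10,256),(4,99),(8,51)]) (P2 1 1 (F [(10,256),(4,62),(8,184)])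 (U1 4 1 (F [(10,124),(4,256),(3,221)]) (U0 1 4 (F [(10,230),(3,114),(8,256)]) (P0 2 1 (F [(10,256),(4,90),(8,86)]) (U2 2 1 (F [(10,256),(3,1),(4,7)]) (P1 2 1 (F [(10,256),(4,98),(8,55)]) (P2 2 1 (F [(4,62),(10,256),(8,190)]) (U0 2 1 (P0 4 1 (P4 1 1 (P5 1 1 (U1 2 1 (F [(10,226),(4,256),(3,46)]) (U0 1 2 (F [(3,117),(10,224),(8,256)]) (P2 1 2 (U2 2 1 (P4 1 2 (F [(10,9982),(3,16079),(8,16384),(4,9635)]) (F [(10,256),(4,5)])) (P4 1 2 (F [(8,16384),(4,9661),(10,9904),(3,16149)]) (F [(10,10035),(3,16355),(4,9860),(8,16384)]))) (F [(3,256),(4,117)])))) (F [(10,256),(3,76),(4,89)])) (F [(10,256),(3,209),(4,237)])) (P1 4 1 (P5 1 1 (U1 2 1 (P2 1 2 (U2 1 1 (F [(10,256),(4,97),(8,59)]) (P4 1 2 (U0 2 1 (F [(10,158),(3,252),(4,153),(8,256)]) (F [(4,153),(8,256),(10,156),(3,253)])) (F [(3,256),(10,15),(4,114)]))) (F [(3,256),(10,62)]))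 (P2 1 2 (U0 1 2 (F [(3,136),(10,190),(8,256)]) (P4 1 2 (U2 2 1 (F [(3,16079),(10,9982),(8,16384),(4,9635)]) (F [(3,16146),(8,16384),(10,9832),(4,9613)])) (F [(3,256),(8,12),(4,111)]))) (F [(3,256)]))) (F [(3,86),(10,256)])) (P2 4 1 (U1 2 1 (P5 1 2 (U2 1 1 (P4 1 2 (F [(4,9651),(10,9997),(8,16384),(3,16029)]) (F [(10,6),(3,256),(4,155)])) (P4 1 2 (U0 2 1 (F [(8,16384),(3,16099),(10,9928),(4,9670)]) (F [(4,9779),(8,16384),(3,16221),(10,9885)])) (F [(3,256),(10,3),(4,145)]))) (F [(3,256),(10,3),(4,145)])) (P5 1 2 (U0 1 2 (F [(3,136),(10,190),(8,256)]) (P4 1 2 (F [(3,16114),(8,16384),(10,9883),(4,9640)]) (F [(3,256),(8,64),(4,113)]))) (F [(3,256),(8,69)]))) (F [(3,256),(4,153)])))) (P0 4 1 (F [(4,256),(10,230),(3,45)]) (U2 4 1 (P1 4 1 (P5 1 1 (F [(4,161),(10,142),(3,256),(8,237)]) (F [(10,256),(3,80),(4,54)]))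 (F [(4,226),(3,256),(8,47)])) (P1 4 1 (P5 1 1 (F [(4,154),(8,251),(3,256),(10,148)]) (F [(4,235),(3,207),(10,256)])) (F [(4,152),(8,146),(3,256)])))))))))))))) (F [(4,256),(10,77)])))) (F [(10,7),(4,154),(3,256)])) (F [(4,256),(3,141)])) (F [(10,256),(4,194),(3,150)])) (F [(10,197),(4,255),(3,256)])

def c35 : Cell := ⟨⟨2,5,1⟩, ⟨1,3,0⟩, ⟨0,3,1⟩, ⟨3,2,2,1⟩, ⟨12,9,7,4⟩, ⟨23,17,15,9⟩, ⟨12,8,7,5⟩⟩

def t35 : Tr :=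
  P0 4 1 (P4 1 1 (P2 1 2 (U1 1 1 (F [(10,256),(4,91),(8,89)]) (P5 1 2 (P4 1 2 (U0 1 2 (P2 1 4 (F [(4,4),(8,187),(10,256)]) (U1 2 1 (F [(10,256),(4,135)]) (P0 1 1 (F [(4,4),(10,256),(8,187)]) (P1 1 1 (F [(10,256),(4,4),(8,152)]) (U0 1 4 (P2 2 1 (U1 4 1 (F [(4,95),(10,256),(8,87)]) (P5 1 1 (F [(4,46),(8,256),(10,169)]) (F [(4,163),(10,157),(8,250),(3,256)]))) (F [(4,165),(10,152),(3,256),(8,238)])) (F [(4,256),(10,237)])))))) (F [(4,256),(10,252)])) (F [(10,256),(4,53),(3,73)])) (F [(10,256),(3,219),(4,147)]))) (F [(10,6),(3,256),(4,165)])) (F [(10,256),(3,124),(4,88)])) (P2 4 1 (P4 1 2 (U1 1 1 (F [(4,213),(10,256)]) (P5 1 2 (P2 1 2 (U0 1 2 (P4 1 4 (F [(4,2),(8,256),(10,248)]) (U1 2 1 (F [(4,78),(10,256),(8,171)]) (P0 1 1 (P3 1 1 (U0 1 4 (P5 2 1 (U1 4 1 (F [(4,139),(8,105),(10,256)]) (P4 1 1 (F [(8,256),(10,126)])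 (P1 2 1 (U0 1 8 (F [(8,256),(10,157),(3,251),(4,151)]) (F [(4,156),(8,256),(10,167),(3,246)])) (F [(4,162),(8,245),(10,148),(3,256)])))) (P1 1 2 (U1 4 1 (F [(10,256),(4,118)]) (P3 1 2 (F [(3,15515),(10,9989),(8,16384),(4,9223)]) (F [(3,245),(10,166),(8,256),(4,150)]))) (U1 4 1 (F [(10,256),(4,70),(8,180)]) (P2 2 1 (U0 1 8 (F [(3,256),(10,95),(8,240),(4,112)]) (F [(4,156),(8,256),(10,167),(3,246)])) (F [(4,160),(8,235),(3,256),(10,133)]))))) (F [(4,157),(10,256)])) (U0 1 4 (P4 2 1 (U1 4 1 (F [(4,233),(10,256)]) (P5 1 1 (F [(4,38),(8,256),(10,136)]) (F [(4,162),(8,244),(10,145),(3,256)]))) (F [(4,165),(10,133),(8,225),(3,256)])) (F [(4,256),(10,237)]))) (P1 1 1 (U0 1 4 (P5 2 1 (F [(8,256),(4,17),(10,136)]) (P3 1 2 (F [(10,152),(3,241),(8,256),(4,142)]) (F [(8,256),(10,146)]))) (F [(4,62),(8,192),(10,256)]))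 (F [(4,36),(8,256),(10,128)]))))) (F [(4,256),(10,252)])) (U0 1 2 (U1 2 1 (F [(4,225),(10,225),(8,251),(3,256)]) (P1 2 1 (P4 1 1 (P5 1 1 (F [(4,140),(8,256),(10,130),(3,227)]) (U0 1 4 (P3 1 2 (F [(3,16349),(10,9390),(8,16384),(4,9516)]) (F [(8,256),(4,153),(3,248),(10,146)])) (P3 1 2 (U2 1 1 (F [(10,9518),(4,9661),(3,16378),(8,16384)]) (P1 1 2 (F [(4,9739),(8,16384),(10,10298),(3,15671)]) (F [(4,256),(3,169)]))) (F [(4,202),(8,256),(10,181),(3,234)])))) (P3 1 1 (U0 1 4 (P5 2 1 (F [(4,160),(3,256),(8,231),(10,131)]) (F [(3,256),(10,79),(8,138),(4,158)])) (F [(4,256),(10,148),(3,222)])) (F [(4,213),(8,33),(3,256)]))) (F [(4,256),(8,82),(3,241)]))) (F [(4,256),(10,242)]))) (F [(10,4),(4,151),(3,256)]))) (F [(4,165),(3,256)])) (F [(4,199),(3,256),(8,31)]))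

theorem g2 : ∀ c ∈ [c24, c25, c26, c27, c28, c29, c30, c31, c32, c33, c34, c35], Done D c := by
  intro c hc
  simp only [List.mem_cons, List.not_mem_nil, or_false] at hc
  rcases hc with rfl | rfl | rfl | rfl | rfl | rfl | rfl | rfl | rfl | rfl | rfl | rfl
  · exact done_of_chk (t := t24) (by decide +kernel)
  · exact done_of_chk (t := t25) (by decide +kernel)
  · exact done_of_chk (t := t26) (by decide +kernel)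
  · exact done_of_chk (t := t27) (by decide +kernel)
  · exact done_of_chk (t := t28) (by decide +kernel)
  · exact done_of_chk (t := t29) (by decide +kernel)
  · exact done_of_chk (t := t30) (by decide +kernel)
  · exact done_of_chk (t := t31) (by decide +kernel)
  · exact done_of_chk (t := t32) (by decide +kernel)
  · exact done_of_chk (t := t33) (by decide +kernel)
  · exact done_of_chk (t := t34) (by decide +kernel)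
  · exact done_of_chk (t := t35) (by decide +kernel)

end Pool.Agent.W2helper59.NW.I0
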