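import Pool.Agent.W2helper59.NW.D_I0

set_option autoImplicit false
set_option maxRecDepth 1000000

namespace Pool.Agent.W2helper59.NW.I0

open Tr

def c36 : Cell := ⟨⟨3,5,0⟩, ⟨4,11,1⟩, ⟨2,5,1⟩, ⟨48,33,29,18⟩, ⟨48,33,28,19⟩, ⟨47,33,29,19⟩, ⟨12,8,7,5⟩⟩

def t36 : Tr :=
  F [(4,256)]

def c37 : Cell := ⟨⟨3,5,0⟩, ⟨1,3,0⟩, ⟨4,11,1⟩, ⟨96,65,57,38⟩, ⟨48,33,28,19⟩, ⟨47,33,29,19⟩, ⟨12,8,7,5⟩⟩

def t37 : Tr :=
  U0 1 2 (P5 1 4 (F [(8,256),(10,127)]) (P3 1 1 (U1 4 1 (P1 1 2 (U2 1 1 (F [(4,88),(8,95),(10,256)]) (P5 2 1 (F [(4,44),(8,256),(10,171)]) (U0 2 1 (P3 1 2 (P1 1 4 (U1 1 1 (F [(4,256),(8,75),(3,235)]) (P5 4 1 (F [(4,51),(8,256),(10,200)]) (F [(10,10035),(4,9823),(8,16384),(3,16126)]))) (F [(4,204),(8,100),(10,256)])) (F [(4,153),(8,176),(10,256)])) (F [(4,229),(8,117),(3,256)])))) (F [(4,256),(10,67)])) (P1 1 2 (U0 1 4 (F [(8,256),(10,171),(3,92)])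 (P5 2 1 (F [(8,256),(4,115),(10,115)]) (U2 2 1 (P3 1 2 (P1 1 4 (U1 1 1 (P5 4 1 (F [(8,256),(4,1),(10,154)]) (U2 1 2 (F [(10,256),(8,183),(4,4)]) (P3 1 4 (F [(3,15942),(10,9699),(8,16384),(4,9451)]) (F [(8,194),(10,256),(4,61)])))) (P5 4 1 (F [(8,256),(10,152)]) (P3 1 4 (F [(3,16093),(8,16384),(10,9578),(4,9505)]) (F [(8,16384),(3,15620),(10,9862),(4,9313)])))) (F [(8,256),(10,153)])) (F [(8,256),(10,156)])) (P3 1 2 (P1 1 4 (U0 2 1 (P5 4 1 (F [(8,256)]) (P3 1 4 (F [(8,135),(3,256),(4,151)]) (F [(8,256),(4,145),(3,244),(10,153)]))) (F [(4,224),(8,121),(3,256)])) (F [(8,256)])) (F [(8,256)]))))) (F [(8,256),(10,155)]))) (F [(4,1),(8,256),(10,162)]))) (F [(4,256)])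

def c38 : Cell := ⟨⟨3,5,0⟩, ⟨1,3,0⟩, ⟨4,11,1⟩, ⟨48,33,29,18⟩, ⟨48,33,28,19⟩, ⟨47,33,29,19⟩, ⟨96,65,57,38⟩⟩

def t38 : Tr :=
  U0 1 2 (P0 1 1 (P3 1 1 (U1 4 1 (F [(4,256),(10,165),(3,151)]) (P5 2 1 (F [(4,26),(8,256),(10,210)]) (P1 1 2 (U0 1 4 (P3 1 2 (U1 8 1 (P1 1 4 (F [(10,178),(3,109),(8,256)]) (U2 1 1 (F [(10,256),(8,197)]) (U0 2 1 (F [(10,256),(8,197)]) (P5 1 2 (F [(8,256),(4,53),(10,204)]) (P0 1 1 (F [(10,179),(3,111),(8,256)]) (P1 2 1 (F [(3,250),(10,156),(8,256),(4,146)]) (F [(10,9927),(8,16384),(4,9909),(3,16241)]))))))) (P1 1 4 (F [(3,221),(10,23),(8,256)]) (U0 1 8 (F [(3,152),(10,192),(8,256)]) (U2 2 1 (F [(3,27),(10,256),(8,226)]) (P5 1 2 (F [(8,256),(10,155)]) (P0 1 1 (F [(3,118),(10,86),(8,256)]) (P1 2 1 (F [(3,229),(10,21),(8,256)]) (F [(3,248),(10,152),(8,256),(4,150)])))))))) (F [(10,155),(8,256)])) (U2 2 1 (P3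 1 2 (P1 1 4 (P5 4 1 (U1 1 1 (F [(4,63),(8,192),(10,256)]) (P2 1 2 (F [(8,256),(10,152)]) (U0 1 2 (U1 2 1 (U2 1 2 (F [(8,256),(10,156),(3,250),(4,151)]) (P4 4 1 (F [(8,16384),(4,9761),(3,16203),(10,9725)]) (P1 1 1 (F [(8,256),(3,5),(10,33)]) (P0 1 2 (F [(8,256),(10,151),(3,2)]) (F [(8,16384),(3,16207),(10,9805),(4,9771)]))))) (F [(8,256),(3,214),(4,60)])) (U2 1 1 (U1 1 2 (F [(8,256),(4,153),(10,158),(3,250)]) (P4 4 1 (F [(4,156),(8,256),(10,155),(3,254)]) (P1 1 1 (F [(8,256),(10,32)]) (P0 1 2 (F [(8,256),(10,151)]) (F [(4,10014),(8,16384),(10,10017),(3,16253)]))))) (F [(4,256),(8,35)]))))) (U1 1 1 (U2 1 2 (F [(10,256),(8,183),(4,4)]) (P3 1 4 (P5 8 1 (F [(10,159),(4,151),(3,247),(8,256)]) (F [(3,256),(10,6),(4,155)])) (F [(10,256),(4,62),(8,193)]))) (P3 1 4 (U0 1 2 (F [(3,256),(8,154),(4,60)]) (P5 8 1 (F [(3,16218),(8,16384),(4,9774),(10,9864)])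 (F [(3,256),(4,153)]))) (U0 1 2 (U1 2 1 (U2 1 2 (F [(3,254),(10,111),(8,256)]) (P2 1 1 (F [(8,256),(3,116),(10,68)]) (P0 1 2 (F [(3,58),(10,120),(8,256)]) (F [(3,16302),(10,9809),(8,16384),(4,9771)])))) (F [(3,214),(8,256),(4,60)])) (U2 1 1 (U1 1 2 (F [(10,157),(3,250),(8,256),(4,151)]) (P2 1 1 (F [(8,256),(10,161),(3,38)]) (P0 1 2 (F [(10,161),(8,256),(3,38)]) (F [(3,16315),(10,9870),(8,16384),(4,9829)])))) (P2 1 1 (F [(4,9409),(8,16384),(10,9765),(3,15724)]) (P0 1 2 (F [(4,9583),(8,16384),(10,9879),(3,15936)]) (F [(4,154),(8,256),(10,154),(3,255)])))))))) (U1 1 1 (F [(4,81),(8,126),(10,256)]) (P5 1 2 (F [(4,40),(8,256),(10,140)]) (P0 1 1 (U0 1 2 (U1 2 1 (U2 1 2 (F [(10,156),(8,256),(3,249),(4,150)]) (P4 4 1 (P5 2 1 (F [(8,256),(10,115)]) (F [(8,16384),(4,9861),(10,9936),(3,16212)])) (P0 1 2 (P3 2 1 (P5 4 1 (F [(8,256),(10,154)])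 (F [(10,10061),(3,16269),(8,16384),(4,9906)])) (F [(8,256),(10,154)])) (P1 1 1 (P5 4 1 (F [(8,254),(4,46),(10,256)]) (F [(10,10061),(3,16269),(8,16384),(4,9906)])) (F [(4,76),(8,141),(10,256)]))))) (P4 4 1 (P5 2 1 (F [(8,256),(10,115)]) (P1 1 1 (F [(8,16384),(3,16288),(10,9742),(4,9830)]) (F [(8,256),(4,152),(3,250),(10,154)]))) (P0 1 2 (P3 2 1 (P5 4 1 (F [(8,256),(10,154)]) (U0 1 4 (F [(3,163),(8,256),(10,60)]) (P1 1 2 (F [(3,254),(10,154),(8,256),(4,153)]) (F [(8,256),(10,154)])))) (F [(8,256),(10,154)])) (P1 1 1 (P5 4 1 (F [(8,256),(3,249),(10,154),(4,151)]) (U0 1 4 (F [(3,226),(8,256),(10,22)]) (P3 1 2 (F [(3,256),(8,256),(10,154),(4,155)]) (F [(8,16384),(10,9863),(3,16005),(4,9702)])))) (F [(8,256),(4,151),(10,154),(3,249)]))))) (F [(4,256),(10,226),(3,42)])) (U0 1 2 (P1 2 1 (U1 2 1 (U2 1 2 (F [(10,165),(4,143),(8,256),(3,237)])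 (P5 2 1 (F [(4,155),(8,256),(10,156),(3,252)]) (F [(4,9986),(10,9990),(8,16384),(3,16345)]))) (P5 2 1 (F [(8,256),(4,153),(3,251),(10,153)]) (P3 1 1 (F [(3,256),(8,251),(4,155),(10,150)]) (F [(8,16384),(4,9827),(3,16148),(10,9822)])))) (U1 2 1 (F [(4,256),(8,5),(10,79)]) (F [(4,154),(8,256),(10,153),(3,251)]))) (F [(4,256),(10,216),(3,53)])))))) (F [(4,40),(8,256),(10,140)])) (P3 1 2 (P1 1 4 (P5 4 1 (F [(4,121),(8,256),(3,207)]) (U0 2 1 (P3 1 4 (F [(3,256),(8,105),(4,151)]) (U1 2 1 (U2 1 1 (P2 1 1 (F [(4,145),(8,256),(10,151),(3,244)]) (P0 1 2 (F [(4,9616),(8,16384),(10,9815),(3,15991)]) (F [(4,152),(8,187),(3,256)]))) (F [(4,101),(8,256),(3,209)])) (F [(8,256),(3,209),(4,101)]))) (F [(4,250),(8,69),(3,256)]))) (F [(4,121),(8,256),(3,207)])) (F [(4,10),(8,256)])))) (F [(8,256),(10,155)])))) (F [(4,58),(8,213),(10,256)])) (P1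 1 1 (U1 4 1 (F [(4,256),(10,165),(3,151)]) (P5 2 1 (U0 1 4 (P2 1 1 (F [(4,17),(8,256),(10,188)]) (P3 2 1 (U1 8 1 (P1 2 1 (F [(8,256),(10,150)]) (F [(4,168),(8,248),(10,154),(3,256)])) (P1 2 1 (F [(8,256),(10,86),(3,111)]) (U0 1 8 (P0 4 1 (F [(8,256),(10,157),(3,236),(4,134)]) (F [(3,256),(10,143),(8,248),(4,158)])) (P0 4 1 (F [(4,156),(8,256),(10,152),(3,250)]) (F [(4,160),(8,245),(3,256),(10,141)]))))) (P0 1 1 (F [(4,65),(8,193),(10,256)]) (U1 8 1 (F [(4,256),(10,199),(3,63)]) (U0 1 8 (P1 4 1 (F [(8,256),(10,155),(4,159),(3,254)]) (F [(3,256),(10,146),(8,248),(4,159)])) (P1 4 1 (F [(4,165),(8,256),(10,149),(3,256)]) (F [(4,256),(8,67),(3,253)]))))))) (F [(4,256)])) (P3 1 2 (U0 1 4 (P1 1 2 (U1 8 1 (P3 1 4 (P5 4 1 (U2 1 1 (P2 1 1 (F [(10,256),(8,193),(4,61)]) (F [(10,154),(3,255),(8,256),(4,153)])) (P2 1 1 (F [(8,256),(3,79),(10,170)])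 (F [(3,256),(10,149),(8,253),(4,152)]))) (F [(3,208),(10,203),(8,256)])) (U2 1 1 (P2 1 1 (F [(10,256),(4,64),(8,190)]) (F [(10,158),(3,256),(4,157),(8,256)])) (P2 1 1 (U0 2 1 (F [(10,255),(8,256),(4,2)]) (P5 1 2 (F [(8,256),(4,24),(10,177)]) (P3 2 1 (F [(3,254),(8,256),(10,154),(4,153)]) (F [(8,256),(4,157),(10,154),(3,256)])))) (U0 2 1 (F [(3,256),(10,158),(8,255),(4,156)]) (P0 1 1 (P3 2 1 (F [(3,256),(10,142),(8,240),(4,156)]) (F [(3,16384),(10,9768),(4,10057),(8,16216)])) (F [(3,256),(10,149),(8,251),(4,154)])))))) (P3 1 4 (F [(3,224),(10,19),(8,256)]) (U0 1 8 (F [(3,152),(10,192),(8,256)]) (P2 1 1 (U2 2 1 (F [(3,110),(10,226),(8,256)]) (P5 1 2 (F [(8,256),(10,155)]) (P3 2 1 (F [(3,256),(8,167)]) (F [(3,255),(8,256),(10,153),(4,155)])))) (U2 2 1 (F [(3,256),(10,67)]) (P0 1 1 (P3 2 1 (F [(3,256),(8,132)]) (F [(3,256),(10,152),(8,254),(4,156)]))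 (F [(3,256),(8,166)]))))))) (U1 8 1 (P2 2 1 (U2 1 1 (P5 1 1 (F [(4,61),(8,210),(10,256)]) (F [(10,156),(3,256),(4,158),(8,255)])) (P5 1 1 (F [(8,256),(4,9),(10,158)]) (F [(3,16384),(10,9560),(8,15922),(4,10071)]))) (F [(10,9227),(3,16384),(4,11191),(8,13993)])) (P2 2 1 (U0 1 8 (F [(3,198),(10,199),(8,256)]) (P5 1 1 (F [(8,256),(10,153),(4,1)]) (F [(3,256),(10,149),(8,249),(4,156)]))) (F [(3,16384),(10,9425),(8,15619),(4,10087)])))) (U2 2 1 (P1 1 2 (P3 1 4 (P5 4 1 (U1 1 1 (P2 1 1 (F [(4,63),(8,192),(10,256)]) (F [(4,156),(10,153),(3,256),(8,255)])) (P2 1 1 (P4 1 2 (F [(8,256),(4,11)]) (F [(8,16237),(4,9956),(3,16384),(10,9603)])) (F [(4,155),(8,252),(3,256),(10,149)]))) (U1 1 1 (F [(10,9532),(3,16384),(4,9835),(8,16166)]) (F [(3,16384),(10,9254),(8,15945),(4,9803)]))) (U1 1 1 (F [(4,256),(10,227),(3,45)]) (P2 1 1 (P5 1 2 (F [(4,256),(8,175)])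 (U0 1 2 (P3 2 1 (F [(8,16271),(4,9946),(3,16384),(10,9678)]) (F [(4,256),(8,84),(3,217)])) (F [(4,256),(10,216),(3,53)]))) (F [(4,162),(8,222),(3,256),(10,129)])))) (F [(4,256),(8,78),(3,239)])) (F [(4,155),(8,165),(3,256)]))) (U0 1 4 (P4 2 1 (U1 8 1 (P2 2 1 (F [(4,9),(8,256),(10,158)]) (F [(4,176),(10,164),(8,251),(3,256)])) (P2 2 1 (F [(8,256),(10,152)]) (U0 1 8 (F [(3,153),(10,196),(8,256)]) (P0 4 1 (F [(4,157),(8,256),(10,154),(3,254)]) (F [(3,256),(10,149),(4,158),(8,246)]))))) (P0 1 1 (F [(4,64),(10,256),(8,189)]) (U1 8 1 (F [(4,256),(10,213),(3,50)]) (U0 1 8 (P2 4 1 (F [(10,161),(3,251),(8,256),(4,156)]) (F [(3,256),(10,25),(4,98)])) (P2 4 1 (F [(4,10262),(8,16384),(10,10223),(3,16299)]) (F [(4,159),(3,256),(10,148),(8,241)])))))) (F [(4,256)]))))) (U1 4 1 (F [(4,256)]) (P2 2 1 (U0 1 4 (P5 1 1 (F [(4,46),(8,256),(10,169)])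 (P3 1 1 (F [(4,162),(8,244),(10,145),(3,256)]) (F [(4,65),(8,193),(10,256)]))) (F [(4,256)])) (F [(4,171),(8,226),(10,146),(3,256)]))))) (F [(4,256)])

def c39 : Cell := ⟨⟨3,5,0⟩, ⟨4,11,1⟩, ⟨2,5,1⟩, ⟨48,33,29,18⟩, ⟨24,17,14,9⟩, ⟨47,33,29,19⟩, ⟨48,33,28,19⟩⟩

def t39 : Tr :=
  F [(4,256)]

def c40 : Cell := ⟨⟨5,11,0⟩, ⟨1,3,0⟩, ⟨4,11,1⟩, ⟨96,66,57,37⟩, ⟨95,67,57,37⟩, ⟨95,66,57,38⟩, ⟨48,33,28,19⟩⟩

def t40 : Tr :=
  F [(4,62),(10,256),(8,189)]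

def c41 : Cell := ⟨⟨5,11,0⟩, ⟨8,23,1⟩, ⟨4,11,1⟩, ⟨96,66,57,37⟩, ⟨95,67,57,37⟩, ⟨47,33,29,19⟩, ⟨95,66,57,38⟩⟩

def t41 : Tr :=
  F [(4,256),(10,124),(3,221)]

def c42 : Cell := ⟨⟨9,23,0⟩, ⟨1,3,0⟩, ⟨8,23,1⟩, ⟨190,132,115,75⟩, ⟨95,67,57,37⟩, ⟨47,33,29,19⟩, ⟨95,66,57,38⟩⟩

def t42 : Tr :=
  P3 1 2 (P5 2 1 (F [(10,256),(8,189),(4,62)]) (U1 8 1 (P1 1 4 (F [(10,63),(3,256)]) (U2 1 1 (F [(10,256),(4,30)]) (U0 2 1 (F [(10,256),(4,6)]) (P2 1 1 (F [(10,184),(3,116),(8,256)]) (P0 1 1 (F [(10,194),(3,155),(8,256)]) (P1 2 1 (F [(10,197),(3,256),(8,221)]) (U2 2 1 (F [(10,256),(4,30)]) (U0 4 1 (F [(10,256),(4,30)]) (P0 2 1 (F [(10,228),(3,256),(8,209)]) (P2 2 1 (P4 1 2 (F [(10,9949),(3,16305),(8,16384),(4,9900)]) (F [(10,155),(3,256),(4,157),(8,255)])) (F [(4,157),(10,154),(3,256),(8,253)]))))))))))) (P1 1 4 (F [(3,256),(8,166)]) (U0 1 8 (F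 [(3,256),(10,64)]) (U2 2 1 (F [(10,256)]) (P2 1 1 (F [(3,256),(8,215)]) (P0 1 1 (F [(3,256),(8,166)]) (P1 2 1 (F [(3,256),(8,166)]) (U0 2 1 (F [(10,256)]) (U2 4 1 (F [(10,256),(4,6)]) (P0 2 1 (F [(3,256),(10,228),(8,209)]) (P2 2 1 (P4 1 2 (F [(3,117),(10,132),(8,256)]) (F [(3,16384),(10,9906),(8,16298),(4,10019)])) (F [(10,154),(3,256),(8,254),(4,157)]))))))))))))) (F [(10,256),(4,66),(8,181)])

def c43 : Cell := ⟨⟨18,45,1⟩, ⟨9,23,0⟩, ⟨8,23,1⟩, ⟨190,132,115,75⟩, ⟨189,133,115,75⟩, ⟨47,33,29,19⟩, ⟨95,66,57,38⟩⟩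

def t43 : Tr :=
  P5 2 1 (F [(10,256),(4,62),(8,190)]) (P1 1 4 (U1 1 1 (F [(10,256),(3,201),(4,231)]) (P3 1 4 (P5 4 1 (U0 1 2 (U1 2 1 (P4 1 2 (U2 1 2 (F [(10,256),(3,80)]) (P2 1 2 (F [(10,207),(3,44),(8,256)]) (F [(3,16340),(10,9952),(8,16384),(4,9838)]))) (F [(3,256)])) (P4 1 2 (P2 1 2 (F [(3,44),(10,207),(8,256)]) (F [(3,16323),(10,9877),(8,16384),(4,9779)])) (F [(3,256)]))) (U2 1 1 (P4 1 2 (U1 1 2 (F [(10,256),(4,6)]) (P2 1 2 (F [(10,207),(3,44),(8,256)]) (F [(10,9948),(3,16337),(8,16384),(4,9860)]))) (F [(10,16),(3,256),(4,114)])) (P4 1 2 (P2 1 2 (F [(10,160),(4,152),(8,256),(3,252)]) (F [(10,155),(4,154),(3,255),(8,256)])) (F [(3,256),(4,153)])))) (F [(3,256),(4,153)])) (P4 1 1 (U0 1 2 (U1 2 1 (P5 1 2 (U2 1 2 (F [(10,256),(3,80)]) (P4 1 2 (P2 1 2 (F [(10,256),(8,193),(4,62)]) (F [(10,10199),(3,16384),(8,16368),(4,10031)]))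 (F [(10,79),(3,256)]))) (F [(3,256)])) (P5 1 2 (P4 1 2 (P2 1 2 (F [(10,255),(8,256),(4,3)]) (F [(3,256),(10,156),(8,256),(4,154)])) (F [(3,256),(10,79)])) (F [(3,256)]))) (F [(10,232),(3,44),(4,256)])) (F [(10,6),(3,256),(4,154)])))) (U1 1 1 (F [(10,256),(4,114)]) (P2 1 1 (P4 1 1 (U0 1 2 (U1 2 1 (U2 1 2 (F [(10,256),(4,5)]) (P4 1 2 (P2 1 2 (P5 1 2 (F [(10,154),(8,256)]) (F [(10,10431),(3,16384),(8,16297),(4,10153)])) (F [(10,256),(3,127),(4,190)])) (F [(10,256),(3,211),(4,241)]))) (P4 1 2 (P2 1 2 (P5 1 2 (F [(10,154),(8,256)]) (U0 1 4 (F [(3,166),(10,81),(8,256)]) (P1 1 2 (F [(3,16370),(10,10024),(8,16384),(4,9892)]) (F [(10,154),(8,256)])))) (P1 1 1 (U0 1 4 (F [(3,226),(10,22),(8,256)]) (P5 2 1 (U2 1 1 (F [(10,155),(3,251),(8,256),(4,150)]) (F [(10,156),(8,256),(4,151),(3,249)])) (P3 1 2 (F [(3,16384),(10,9672),(8,16058),(4,9906)])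 (U2 1 1 (F [(10,16),(3,256),(4,114)]) (F [(10,10026),(3,16205),(8,16384),(4,9827)]))))) (U0 1 4 (F [(10,86),(3,116),(8,256)]) (P0 2 1 (U2 1 1 (F [(10,155),(3,249),(8,256),(4,149)]) (F [(10,156),(4,151),(8,256),(3,249)])) (F [(4,147),(10,154),(8,256),(3,243)]))))) (P1 1 1 (P3 1 1 (U0 1 4 (F [(3,256),(8,245)]) (F [(3,1048576),(10,639759),(8,1040790),(4,635960)])) (U0 1 4 (F [(3,256),(8,194)]) (F [(10,639759),(3,1048576),(8,1040790),(4,635960)]))) (P0 1 1 (U0 1 4 (F [(3,256),(8,68)]) (F [(10,639759),(3,1048576),(4,635960),(8,1040790)])) (U0 1 4 (F [(10,132),(3,116),(8,256)]) (P2 2 1 (U2 1 1 (F [(10,156),(3,253),(8,256),(4,149)]) (F [(10,156),(4,151),(3,249),(8,256)])) (F [(10,9987),(4,9720),(8,16384),(3,16029)]))))))) (F [(10,226),(4,256),(3,42)])) (U0 1 2 (P3 2 1 (U1 2 1 (F [(10,256),(3,211),(4,241)]) (P0 2 1 (F [(3,256),(10,44),(4,155)])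 (P1 1 1 (F [(3,256),(4,155)]) (P2 1 1 (F [(10,6),(3,256),(4,155)]) (U0 1 4 (F [(10,10030),(3,16166),(8,16384),(4,9794)]) (F [(10,10020),(4,9912),(3,16262),(8,16384)])))))) (F [(10,256),(4,4),(8,191)])) (F [(10,115),(4,256),(3,226)]))) (P0 1 1 (U0 1 2 (P3 2 1 (U1 2 1 (F [(10,256),(3,211),(4,241)]) (P1 1 1 (P4 1 2 (P5 1 1 (U0 1 4 (U1 4 1 (P2 1 2 (F [(10,10018),(3,16253),(8,16384),(4,9892)]) (F [(3,256),(8,33),(4,135)])) (P2 1 2 (F [(3,16166),(10,10030),(8,16384),(4,9794)]) (F [(3,256),(8,41),(4,144)]))) (F [(10,10003),(4,10047),(3,16384),(8,16365)])) (F [(3,256),(4,155)])) (F [(3,256),(10,44),(4,155)])) (F [(10,256),(4,4),(8,147)]))) (F [(10,256),(4,4),(8,191)])) (F [(10,115),(4,256),(3,226)])) (U0 1 2 (P1 2 1 (U1 2 1 (F [(10,256),(4,241),(3,211)]) (P3 1 1 (P5 1 1 (U0 1 4 (U1 4 1 (P4 1 2 (F [(10,9958),(3,16320),(8,16384),(4,9955)])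 (F [(3,256),(4,135),(8,33)])) (P4 1 2 (F [(3,16308),(8,16384),(10,9903),(4,9909)]) (F [(3,256),(8,41),(4,144)]))) (F [(4,10052),(10,9992),(3,16384),(8,16355)])) (F [(3,256),(4,155)])) (P4 1 1 (U0 1 4 (U1 4 1 (F [(10,162),(3,255),(4,159),(8,256)]) (P5 1 2 (P2 1 2 (F [(10,10009),(3,16265),(8,16384),(4,9901)]) (F [(10,155),(3,256),(4,156),(8,255)])) (F [(3,256),(10,37),(4,157)]))) (F [(4,256),(10,229),(3,45)])) (F [(10,6),(3,256),(4,156)])))) (U1 2 1 (F [(4,115),(10,256)]) (P0 2 1 (P4 1 1 (U0 1 4 (P2 1 2 (U1 4 1 (F [(10,157),(4,157),(3,254),(8,256)]) (P5 1 2 (F [(10,227),(4,2),(8,256)]) (F [(10,9968),(4,9995),(3,16384),(8,16355)]))) (F [(10,109),(4,159),(3,256)])) (F [(4,256),(10,245)])) (F [(10,6),(4,156),(3,256)])) (P2 2 1 (U0 1 4 (P4 1 2 (F [(4,155),(8,256),(10,155),(3,254)]) (F [(4,157),(10,155),(8,255),(3,256)])) (F [(4,256),(10,245)]))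 (F [(4,252),(8,65),(3,256)]))))) (F [(4,256),(10,115),(3,226)]))))))

def c44 : Cell := ⟨⟨5,11,0⟩, ⟨9,23,0⟩, ⟨18,45,1⟩, ⟨190,132,115,75⟩, ⟨189,133,115,75⟩, ⟨189,132,115,76⟩, ⟨95,66,57,38⟩⟩

def t44 : Tr :=
  F [(4,64),(8,190),(10,256)]

def c45 : Cell := ⟨⟨5,11,0⟩, ⟨9,23,0⟩, ⟨18,45,1⟩, ⟨378,264,231,151⟩, ⟨189,133,115,75⟩, ⟨47,33,29,19⟩, ⟨189,132,115,76⟩⟩

def t45 : Tr :=
  U0 2 1 (P3 1 4 (P5 4 1 (U1 2 1 (U2 1 1 (P4 1 2 (P2 1 2 (F [(4,9748),(8,16384),(10,9957),(3,16145)]) (F [(4,155),(8,255),(10,154),(3,256)])) (F [(4,153),(3,256)])) (P4 1 2 (U0 2 1 (P2 1 2 (P5 1 2 (F [(4,9837),(8,16384),(10,10025),(3,16167)]) (F [(4,154),(8,256),(3,255),(10,155)])) (F [(4,9907),(8,16263),(3,16384),(10,9816)])) (F [(4,225),(8,117),(3,256)])) (F [(3,256),(4,142),(8,40)]))) (U0 1 2 (P4 1 2 (P2 1 2 (F [(3,77),(8,256),(10,173)]) (F [(3,255),(10,153),(8,256),(4,151)]))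 (F [(3,256)])) (P4 1 2 (U2 2 1 (P2 1 2 (P5 1 2 (U1 1 1 (P4 1 4 (F [(8,256),(10,119)]) (F [(8,16384),(3,16259),(10,9883),(4,9774)])) (F [(8,207),(3,256),(4,98)])) (F [(3,256),(8,255),(10,152),(4,153)])) (F [(3,16384),(8,16275),(4,9855),(10,9771)])) (F [(8,170),(4,151),(3,256)])) (F [(3,256),(8,32),(4,133)])))) (F [(3,256),(4,153)])) (P4 1 1 (U1 2 1 (F [(4,256),(10,221),(3,50)]) (U0 1 2 (P5 1 2 (P4 1 2 (P2 1 2 (F [(3,77),(10,173),(8,256)]) (U1 4 1 (P0 2 1 (F [(3,16190),(10,9942),(8,16384),(4,9573)]) (F [(3,256),(10,153),(8,255),(4,153)])) (F [(3,256),(8,69)]))) (F [(3,256),(10,79)])) (F [(3,256)])) (P5 1 2 (U2 2 1 (P4 1 2 (P2 1 2 (U1 1 1 (P5 1 4 (F [(8,256),(4,5),(10,152)]) (U2 1 2 (F [(10,9927),(3,16053),(8,16384),(4,9618)]) (F [(4,9804),(8,16384),(10,9915),(3,16268)]))) (F [(8,16384),(4,9661),(3,16140),(10,9855)])) (P0 2 1 (U1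 1 1 (U2 1 2 (F [(10,9962),(3,16245),(4,9798),(8,16384)]) (F [(4,9820),(10,9922),(8,16384),(3,16283)])) (P3 1 1 (F [(3,16384),(8,16237),(10,9636),(4,9745)]) (P4 1 1 (F [(8,256),(4,154),(3,256),(10,154)]) (F [(8,1046950),(4,632019),(3,1048576),(10,635931)])))) (F [(3,16384),(4,9873),(8,16271),(10,9787)]))) (P0 1 1 (F [(10,256),(3,78),(4,54)]) (P2 2 1 (F [(3,16384),(10,9875),(4,9877),(8,16161)]) (F [(3,256),(4,154)])))) (P4 1 2 (F [(4,9861),(8,16384),(3,16377),(10,9775)]) (P0 1 1 (F [(4,9874),(3,16384),(10,9860),(8,16311)]) (F [(4,9870),(8,16367),(3,16384),(10,9775)])))) (F [(3,256),(4,153)])))) (F [(10,6),(3,256),(4,157)]))) (F [(4,250),(8,69),(3,256)])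

def c46 : Cell := ⟨⟨19,45,0⟩, ⟨36,91,1⟩, ⟨18,45,1⟩, ⟨379,264,230,151⟩, ⟨378,265,230,151⟩, ⟨378,264,231,151⟩, ⟨189,132,115,76⟩⟩

def t46 : Tr :=
  F [(4,256),(8,6),(10,79)]

def c47 : Cell := ⟨⟨37,91,0⟩, ⟨9,23,0⟩, ⟨36,91,1⟩, ⟨379,264,230,151⟩, ⟨378,265,230,151⟩, ⟨378,264,231,151⟩, ⟨189,132,115,76⟩⟩

def t47 : Tr :=
  P4 1 2 (P2 1 2 (P5 1 2 (F [(8,256),(10,151)]) (U1 4 1 (P1 1 2 (P3 1 2 (F [(3,256),(8,254),(4,154),(10,152)]) (U2 1 1 (P0 1 2 (F [(10,9955),(3,16226),(8,16384),(4,9716)]) (F [(3,16251),(8,16384),(10,9907),(4,9810)])) (F [(3,16147),(8,16384),(10,9859),(4,9666)]))) (F [(8,256),(10,134),(3,1)])) (F [(3,167),(8,256),(10,79)]))) (P1 1 1 (U1 4 1 (P5 2 1 (F [(8,256),(10,119),(3,1)]) (P3 1 2 (F [(3,256),(8,100),(4,153)]) (U2 1 1 (P0 1 1 (P4 2 1 (F [(10,9917),(3,16256),(8,16384),(4,9820)]) (F [(10,10088),(3,16370),(8,16384),(4,9946)]))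 (U1 1 2 (F [(4,158),(8,253),(10,155),(3,256)]) (P1 2 1 (F [(3,255),(10,155),(8,256),(4,154)]) (F [(4,9699),(8,16384),(3,16048),(10,9858)])))) (P0 1 1 (F [(3,16140),(8,16384),(10,9884),(4,9686)]) (F [(8,256),(4,152),(3,253),(10,153)]))))) (F [(3,227),(8,256),(10,18)])) (F [(8,256),(10,119),(3,1)]))) (P1 1 1 (P3 1 1 (U1 4 1 (P5 2 1 (U2 1 1 (P2 1 1 (F [(10,256),(3,211),(4,241)]) (P0 1 1 (F [(10,256),(3,211),(4,241)]) (U1 1 2 (F [(4,256),(10,116),(3,227)]) (P1 2 1 (F [(3,16375),(10,9931),(8,16384),(4,9901)]) (U0 1 1 (F [(3,16312),(10,9910),(8,16384),(4,9860)]) (F [(4,9962),(8,16384),(3,16337),(10,9987)])))))) (P2 1 1 (U0 2 1 (F [(3,16330),(10,10001),(8,16384),(4,9868)]) (P4 1 1 (F [(3,16252),(10,9905),(8,16384),(4,9779)]) (F [(3,16384),(10,9895),(8,16340),(4,9904)]))) (U0 2 1 (P0 1 1 (F [(3,16384),(10,9908),(8,16358),(4,9904)]) (F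 [(3,16343),(8,16384),(10,9806),(4,9826)])) (F [(3,256),(8,167),(4,152)])))) (F [(3,256),(4,154),(8,64)])) (F [(3,256),(8,247)])) (U1 4 1 (P0 1 2 (F [(10,104),(3,256)]) (U2 1 1 (P2 1 1 (F [(10,256),(4,114)]) (P1 1 1 (F [(10,256),(3,66),(4,153)]) (U1 1 2 (F [(4,256),(10,223),(3,42)]) (P0 2 1 (F [(10,256),(3,66),(4,153)]) (U0 1 1 (F [(3,16321),(10,9910),(4,9865),(8,16384)]) (F [(4,9983),(8,16384),(10,10011),(3,16342)])))))) (P2 1 1 (U0 2 1 (F [(10,10010),(3,16335),(8,16384),(4,9876)]) (P5 1 1 (P4 1 2 (F [(10,9937),(3,16203),(8,16384),(4,9762)]) (F [(3,16374),(10,9928),(4,9888),(8,16384)])) (F [(3,16384),(10,9895),(4,9904),(8,16340)]))) (U0 2 1 (P1 1 1 (F [(3,16384),(10,9908),(4,9904),(8,16358)]) (P0 2 1 (F [(3,16384),(10,9901),(4,9904),(8,16345)]) (U1 1 1 (F [(4,9874),(8,16384),(3,16331),(10,9877)]) (F [(3,256),(10,154),(8,256),(4,154)]))))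 (F [(3,16384),(4,9902),(8,16281),(10,9803)]))))) (F [(3,256),(8,157),(4,43)]))) (P0 1 1 (U1 4 1 (P3 2 1 (U2 1 1 (P5 1 1 (F [(10,256),(4,114)]) (P1 1 1 (U1 1 2 (F [(4,256),(10,248)]) (P3 1 2 (U0 1 1 (F [(10,9933),(4,9859),(3,16277),(8,16384)]) (F [(4,185),(8,164),(10,256)])) (F [(10,256),(4,114)]))) (F [(10,256),(4,114)]))) (P5 1 1 (U0 2 1 (F [(10,256),(8,205),(4,3)]) (P2 1 1 (P4 1 2 (F [(10,156),(3,249),(8,256),(4,150)]) (F [(10,636379),(3,1046620),(4,632464),(8,1048576)])) (U2 2 1 (F [(10,9970),(4,9893),(3,16333),(8,16384)]) (P1 2 1 (F [(4,9882),(10,9943),(3,16354),(8,16384)]) (F [(10,223),(4,256),(3,43)]))))) (U0 2 1 (P1 1 1 (P3 1 2 (U1 1 1 (F [(4,9894),(8,16384),(3,16331),(10,9902)]) (F [(3,16302),(8,16384),(4,9863),(10,9906)])) (F [(10,9951),(3,16376),(4,9926),(8,16384)])) (U1 1 1 (P2 2 1 (F [(10,9943),(4,9926),(3,16379),(8,16384)])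 (F [(10,229),(4,256),(3,45)])) (P2 2 1 (F [(10,637485),(3,1046819),(8,1048576),(4,634835)]) (F [(10,229),(3,45),(4,256)])))) (P1 1 1 (F [(4,9901),(8,16197),(3,16384),(10,9698)]) (U2 2 1 (P2 2 1 (F [(4,9932),(10,9927),(8,16373),(3,16384)]) (F [(4,256),(10,229),(3,45)])) (P2 2 1 (U0 4 1 (F [(4,9932),(8,16372),(3,16384),(10,9925)]) (F [(4,225),(8,116),(3,256)])) (F [(4,256),(10,218),(3,51)]))))))) (F [(10,256),(3,74),(4,88)])) (P3 2 1 (U0 1 4 (F [(3,256),(8,68)]) (P5 1 1 (U2 2 1 (F [(10,68),(3,256)]) (P2 1 1 (F [(3,16384),(10,9840),(8,16348),(4,9764)]) (U0 2 1 (F [(3,256),(10,68)]) (P1 2 1 (F [(3,16360),(10,9935),(8,16384),(4,9872)]) (F [(10,9973),(3,16380),(4,9922),(8,16384)]))))) (U2 2 1 (P1 1 1 (F [(3,256),(8,66),(4,114)]) (U1 1 1 (P2 2 1 (U2 1 2 (F [(10,256)]) (P5 1 1 (F [(3,171),(10,123),(8,256)]) (F [(3,16384),(10,9857),(8,16228),(4,9916)])))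 (F [(10,64),(3,256),(4,183)])) (P2 2 1 (F [(3,16384),(10,9876),(8,16293),(4,9906)]) (F [(3,16384),(10,9844),(8,16202),(4,9916)])))) (P1 1 1 (F [(8,140),(3,256),(4,117)]) (U0 2 1 (P2 2 1 (F [(3,16384),(10,9912),(8,16371),(4,9906)]) (P0 2 1 (F [(3,16384),(10,9907),(8,16362),(4,9905)]) (P1 2 1 (U1 2 1 (P3 1 2 (U2 1 1 (P5 2 1 (F [(10,9938),(3,16384),(8,16366),(4,9922)]) (F [(3,256),(4,155),(8,252),(10,153)])) (F [(3,16384),(8,16237),(10,9834),(4,9902)])) (F [(3,16384),(10,9891),(8,16284),(4,9916)])) (F [(3,256),(8,247)])) (F [(10,9833),(3,16384),(8,16175),(4,9900)])))) (P2 2 1 (U2 4 1 (P5 1 1 (F [(3,16355),(8,16384),(10,9900),(4,9842)]) (P3 1 1 (F [(8,16384),(4,9923),(3,16372),(10,9928)]) (F [(3,16375),(10,9927),(8,16384),(4,9900)]))) (F [(8,167),(4,152),(3,256)])) (U2 4 1 (P0 2 1 (P3 1 1 (P1 1 2 (F [(4,9923),(8,16384),(3,16372),(10,9928)])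 (F [(3,256),(10,155),(4,155),(8,255)])) (F [(3,16384),(10,9938),(4,9916),(8,16359)])) (P1 2 1 (P3 1 2 (F [(4,9908),(8,16384),(3,16340),(10,9928)]) (F [(10,9941),(3,16384),(4,9930),(8,16377)])) (F [(10,9933),(4,9929),(3,16384),(8,16344)]))) (F [(4,9936),(8,16335),(3,16384),(10,9897)])))))))) (F [(10,256),(3,74),(4,88)]))) (U1 4 1 (P2 2 1 (U2 1 1 (P5 1 1 (F [(10,256),(4,114)]) (P3 1 1 (F [(4,9660),(8,16384),(10,9975),(3,15836)]) (F [(4,114),(10,256)]))) (P5 1 1 (F [(10,178),(8,256),(4,23)]) (U0 2 1 (P3 1 1 (F [(4,9758),(8,16384),(10,9908),(3,16095)]) (F [(10,10033),(4,9542),(8,16384),(3,15536)])) (F [(4,46),(8,256),(10,163)])))) (U2 1 1 (F [(4,9933),(8,16384),(10,10012),(3,16260)]) (U0 2 1 (P3 1 1 (F [(4,9830),(8,16384),(10,9916),(3,16197)]) (F [(4,256),(10,247)])) (F [(4,256),(10,72)])))) (P2 2 1 (U0 1 4 (F [(3,256),(10,109),(8,255)])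 (P5 1 1 (F [(10,185),(8,256),(4,13)]) (U2 2 1 (P3 1 1 (F [(8,16384),(3,16194),(10,9894),(4,9798)]) (U1 1 1 (P4 2 1 (U2 1 2 (F [(10,256)]) (P5 1 1 (F [(10,148),(3,13),(8,256)]) (P1 1 1 (U0 1 1 (F [(10,197),(3,256),(8,221)]) (F [(10,9971),(8,16384),(3,16223),(4,9859)])) (F [(10,148),(8,256),(3,13)])))) (U2 1 2 (F [(10,256)]) (P0 1 2 (P3 2 1 (P1 1 2 (U0 1 1 (F [(10,79),(3,256)]) (F [(10,9989),(3,16384),(4,9982),(8,16320)])) (F [(10,256),(4,114)])) (F [(10,256),(4,55)])) (P1 1 1 (P3 1 2 (U0 1 1 (F [(10,197),(3,256),(8,221)]) (F [(10,156),(8,256),(4,155),(3,255)])) (F [(10,256),(8,192),(4,62)])) (F [(10,252),(8,256)]))))) (P4 2 1 (P5 1 1 (F [(3,5),(8,256),(10,149)]) (P1 1 1 (U0 1 2 (F [(3,229),(10,21),(8,256)]) (U2 1 1 (F [(3,228),(10,17),(8,256)]) (F [(8,16384),(3,16324),(10,9948),(4,9894)]))) (F [(8,256),(3,5),(10,149)]))) (P0 1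 2 (P3 2 1 (U0 1 2 (F [(3,256),(10,108),(8,254)]) (P1 1 2 (U2 1 1 (F [(10,83),(3,256),(8,33)]) (F [(10,9948),(3,16324),(8,16384),(4,9894)])) (F [(10,256),(8,205),(4,3)]))) (F [(10,256),(4,7)])) (P1 1 1 (U0 1 2 (F [(3,141),(10,73),(8,256)]) (P3 1 2 (U2 1 1 (F [(3,256),(10,108),(8,254)]) (F [(8,16384),(10,9948),(3,16324),(4,9894)])) (F [(10,208),(8,256),(4,1)]))) (F [(10,252),(8,256)])))))) (P3 1 1 (F [(8,256),(3,7)]) (U0 2 1 (P4 2 1 (F [(8,256),(3,2),(10,118)]) (P0 1 2 (P3 2 1 (U1 2 1 (P1 1 2 (U2 1 1 (P5 2 1 (F [(10,9954),(3,16336),(8,16384),(4,9900)]) (F [(8,16384),(4,9919),(3,16369),(10,9933)])) (F [(8,16384),(3,16381),(4,9912),(10,9922)])) (F [(10,9947),(8,16384),(3,16315),(4,9886)])) (F [(3,229),(8,256),(10,21)])) (F [(10,9956),(3,16331),(8,16384),(4,9893)])) (F [(8,256),(3,2),(10,118)]))) (P4 2 1 (F [(8,256),(4,26),(10,144)])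 (U2 4 1 (P0 1 2 (P3 2 1 (F [(4,40),(8,256),(10,139)]) (F [(4,9916),(10,9956),(8,16384),(3,16339)])) (F [(8,256),(4,26),(10,144)])) (F [(4,9929),(8,16384),(10,9931),(3,16350)])))))))) (U0 1 4 (F [(8,256),(3,116),(10,132)]) (U2 2 1 (P3 1 1 (F [(8,16384),(4,9806),(10,9902),(3,16195)]) (P0 2 1 (U1 1 1 (U2 1 2 (F [(10,256),(4,5)]) (P2 1 1 (P4 2 1 (F [(10,9910),(8,16384),(4,9788),(3,16151)]) (F [(10,9995),(4,9917),(8,16384),(3,16300)])) (F [(10,9996),(4,9925),(8,16384),(3,16313)]))) (P2 1 1 (P4 2 1 (F [(8,256),(10,53),(3,75)]) (P3 2 1 (U0 1 2 (F [(10,123),(3,171),(8,256)]) (P5 2 1 (F [(10,256),(8,205),(4,3)]) (F [(8,16384),(10,9945),(4,9879),(3,16299)]))) (F [(10,256),(8,147),(4,4)]))) (P0 1 2 (P3 2 1 (F [(10,9945),(8,16384),(3,16288),(4,9872)]) (F [(10,256),(8,147),(4,4)])) (F [(8,256),(10,84),(3,52)])))) (F [(8,16384),(4,9816),(10,9910),(3,16197)])))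 (P3 1 1 (F [(8,256),(3,7)]) (P0 2 1 (U0 2 1 (P2 1 1 (P4 2 1 (F [(8,256),(10,31),(3,5)]) (P3 2 1 (U1 2 1 (P5 2 1 (F [(8,16384),(4,9872),(10,9946),(3,16291)]) (P1 1 2 (U2 1 1 (F [(4,9903),(8,16384),(10,9933),(3,16341)]) (F [(8,16384),(4,9896),(3,16348),(10,9922)])) (F [(8,16384),(4,9872),(10,9946),(3,16291)]))) (F [(8,256),(3,224),(10,24)])) (F [(10,637165),(8,1048576),(4,631642),(3,1042465)]))) (P0 1 2 (P3 2 1 (U1 2 1 (P1 1 2 (P5 2 1 (F [(4,9872),(8,16384),(10,9946),(3,16291)]) (U2 1 1 (F [(4,634073),(8,1048576),(10,635813),(3,1046129)]) (F [(8,16384),(4,9885),(3,16330),(10,9921)]))) (F [(4,9880),(8,16384),(10,9951),(3,16296)])) (F [(8,256),(3,118),(10,86)])) (F [(10,9956),(8,16384),(4,9869),(3,16288)])) (F [(8,256),(10,48),(3,5)]))) (F [(4,256),(8,5),(10,78)])) (F [(8,256),(3,7)])))))))))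

theorem g3 : ∀ c ∈ [c36, c37, c38, c39, c40, c41, c42, c43, c44, c45, c46, c47], Done D c := by
  intro c hc
  simp only [List.mem_cons, List.not_mem_nil, or_false] at hc
  rcases hc with rfl | rfl | rfl | rfl | rfl | rfl | rfl | rfl | rfl | rfl | rfl | rfl
  · exact done_of_chk (t := t36) (by decide +kernel)
  · exact done_of_chk (t := t37) (by decide +kernel)
  · exact done_of_chk (t := t38) (by decide +kernel)
  · exact done_of_chk (t := t39) (by decide +kernel)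
  · exact done_of_chk (t := t40) (by decide +kernel)
  · exact done_of_chk (t := t41) (by decide +kernel)
  · exact done_of_chk (t := t42) (by decide +kernel)
  · exact done_of_chk (t := t43) (by decide +kernel)
  · exact done_of_chk (t := t44) (by decide +kernel)
  · exact done_of_chk (t := t45) (by decide +kernel)
  · exact done_of_chk (t := t46) (by decide +kernel)
  · exact done_of_chk (t := t47) (by decide +kernel)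

end Pool.Agent.W2helper59.NW.I0
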