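import Pool.Agent.W2helper59.NW.D_I0

set_option autoImplicit false
set_option maxRecDepth 1000000

namespace Pool.Agent.W2helper59.NW.I0

open Tr

def c48 : Cell := ⟨⟨19,45,0⟩, ⟨37,91,0⟩, ⟨36,91,1⟩, ⟨379,264,230,151⟩, ⟨378,265,230,151⟩, ⟨378,264,231,151⟩, ⟨189,132,115,76⟩⟩

def t48 : Tr :=
  U2 2 1 (P4 1 2 (P2 1 2 (P5 1 2 (F [(8,256),(4,5),(10,152)]) (P1 1 2 (P3 1 2 (F [(4,256),(8,84),(3,218)]) (U1 1 1 (F [(4,9885),(8,16384),(10,9969),(3,16266)]) (P0 1 2 (P4 1 1 (F [(8,256),(4,102),(3,211)]) (U0 1 2 (P3 2 1 (F [(8,16384),(4,9833),(3,16316),(10,9891)]) (F [(8,256),(4,152),(10,155),(3,251)])) (F [(4,9979),(8,16384),(10,10008),(3,16318)]))) (F [(4,256),(8,94),(3,192)])))) (F [(4,23),(8,256),(10,147)]))) (P1 1 1 (P5 2 1 (F [(4,28),(8,256),(10,145)]) (P3 1 2 (F [(4,211),(8,38),(3,256)]) (U1 1 1 (F [(4,256),(10,124),(3,147)]) (P0 1 1 (P4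 2 1 (F [(4,256),(8,94),(3,192)]) (U0 1 2 (P3 2 1 (F [(8,256),(4,155),(3,256),(10,155)]) (F [(8,256),(4,147),(10,155),(3,244)])) (F [(4,256),(10,124),(3,147)]))) (F [(4,252),(8,66),(3,256)]))))) (F [(4,28),(8,256),(10,145)]))) (P1 1 1 (P3 1 1 (P5 2 1 (U1 1 1 (F [(4,256),(10,148),(3,226)]) (P2 1 1 (P4 1 1 (U0 1 2 (P5 1 2 (F [(10,9941),(8,16384),(4,9840),(3,16278)]) (F [(4,155),(3,256),(8,255),(10,154)])) (F [(4,256),(10,137),(3,190)])) (F [(4,211),(3,256),(8,37)])) (F [(4,252),(8,66),(3,256)]))) (F [(4,179),(8,16),(3,256)])) (P0 1 2 (F [(10,256),(4,80),(3,121)]) (U1 1 1 (F [(4,256),(10,229),(3,44)]) (P2 1 1 (P5 1 1 (U0 1 2 (P4 1 2 (F [(10,9941),(4,9840),(8,16384),(3,16278)]) (F [(4,193),(3,256),(8,25)])) (F [(4,256),(10,249)])) (F [(4,211),(3,256),(8,37)])) (F [(4,256),(8,75),(3,239)]))))) (P0 1 1 (P3 2 1 (U1 1 1 (F [(4,256),(10,249)])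 (P5 1 1 (P2 1 1 (U0 1 2 (P4 1 2 (F [(4,9830),(10,9949),(8,16384),(3,16210)]) (F [(4,156),(10,155),(8,256),(3,256)])) (F [(4,256),(10,249)])) (F [(4,256),(10,78),(8,5)])) (F [(4,256),(3,89)]))) (F [(10,256),(4,88),(3,74)])) (F [(4,41),(8,256),(10,140)])))) (P4 1 2 (F [(8,256),(3,5),(10,30)]) (P1 1 1 (P3 1 1 (F [(4,9870),(8,16381),(3,16384),(10,9776)]) (P0 1 2 (F [(4,155),(10,155),(3,256),(8,255)]) (F [(4,9884),(8,16376),(3,16384),(10,9794)]))) (P0 1 1 (P3 2 1 (F [(4,9889),(8,16384),(10,9843),(3,16339)]) (F [(4,9927),(10,9975),(8,16373),(3,16384)])) (F [(4,10),(8,256)]))))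

def c49 : Cell := ⟨⟨19,45,0⟩, ⟨36,91,1⟩, ⟨18,45,1⟩, ⟨379,264,230,151⟩, ⟨189,133,115,75⟩, ⟨378,264,231,151⟩, ⟨378,265,230,151⟩⟩

def t49 : Tr :=
  F [(4,256),(10,40),(3,228)]

def c50 : Cell := ⟨⟨37,91,0⟩, ⟨9,23,0⟩, ⟨36,91,1⟩, ⟨1514,1058,921,603⟩, ⟨756,530,461,301⟩, ⟨378,264,231,151⟩, ⟨378,265,230,151⟩⟩

def t50 : Tr :=
  F [(3,256),(4,155)]

def c51 : Cell := ⟨⟨37,91,0⟩, ⟨9,23,0⟩, ⟨36,91,1⟩, ⟨757,528,461,302⟩, ⟨1514,1058,921,603⟩, ⟨378,264,231,151⟩, ⟨378,265,230,151⟩⟩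

def t51 : Tr :=
  F [(3,256),(4,154),(8,58)]

def c52 : Cell := ⟨⟨37,91,0⟩, ⟨9,23,0⟩, ⟨36,91,1⟩, ⟨757,529,460,302⟩, ⟨1514,1058,921,603⟩, ⟨757,528,461,302⟩, ⟨378,265,230,151⟩⟩

def t52 : Tr :=
  F [(10,6),(3,256),(4,158)]

def c53 : Cell := ⟨⟨37,91,0⟩, ⟨72,183,1⟩, ⟨36,91,1⟩, ⟨379,264,230,151⟩, ⟨1514,1058,921,603⟩, ⟨757,528,461,302⟩, ⟨757,529,460,302⟩⟩

def t53 : Tr :=
  U2 1 1 (F [(4,9967),(10,10014),(8,16384),(3,16311)]) (U0 2 1 (P0 4 1 (F [(4,197),(10,18),(3,256)]) (P5 1 1 (F [(4,256),(10,247)]) (F [(4,9963),(8,16384),(10,9944),(3,16341)]))) (F [(4,256),(10,75)]))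

def c54 : Cell := ⟨⟨73,183,0⟩, ⟨9,23,0⟩, ⟨72,183,1⟩, ⟨379,264,230,151⟩, ⟨1514,1058,921,603⟩, ⟨757,528,461,302⟩, ⟨757,529,460,302⟩⟩

def t54 : Tr :=
  P0 4 1 (P5 1 1 (U1 8 1 (U2 1 1 (F [(10,256),(4,31)]) (U0 2 1 (F [(10,256),(8,115),(4,5)]) (P0 1 2 (F [(3,256)]) (P2 1 4 (F [(3,256),(10,63)]) (P1 1 2 (F [(3,256),(10,63)]) (U2 2 1 (F [(10,9970),(3,16362),(8,16384),(4,9940)]) (F [(3,16362),(10,9931),(8,16384),(4,9905)]))))))) (F [(3,256),(8,247)])) (U1 8 1 (P3 1 2 (U2 1 1 (F [(3,16361),(10,9947),(8,16384),(4,9933)]) (F [(3,16316),(8,16384),(10,9876),(4,9882)])) (U2 1 1 (F [(10,256),(4,5)]) (U0 2 1 (F [(10,256),(4,5)]) (P0 1 2 (F [(3,256)]) (P1 1 1 (F [(3,256)]) (P2 1 2 (F [(3,256),(10,63)]) (F [(3,16384),(10,9910),(8,16347),(4,9952)]))))))) (F [(3,256),(8,247)]))) (F [(8,256),(3,237),(10,155),(4,141)])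

def c55 : Cell := ⟨⟨146,365,1⟩, ⟨73,183,0⟩, ⟨72,183,1⟩, ⟨379,264,230,151⟩, ⟨1514,1058,921,603⟩, ⟨757,528,461,302⟩, ⟨757,529,460,302⟩⟩

def t55 : Tr :=
  P0 4 1 (P5 1 1 (U1 1 1 (F [(10,9998),(3,16363),(4,9960),(8,16384)]) (P0 1 2 (F [(3,256),(10,6),(4,155)]) (P2 1 4 (P5 1 2 (F [(10,256),(3,78),(4,54)]) (U0 1 2 (U1 2 1 (P1 1 4 (F [(3,256),(8,110)]) (F [(10,9958),(3,16384),(8,16376),(4,9942)])) (P1 1 4 (F [(3,256),(8,110)]) (F [(3,16384),(10,9961),(8,16374),(4,9937)]))) (U2 1 1 (P1 1 4 (F [(10,155),(3,256),(4,155),(8,255)]) (F [(10,9956),(3,16384),(4,9946),(8,16377)])) (P1 1 4 (F [(4,9936),(10,9921),(3,16384),(8,16348)]) (F [(4,9949),(10,9955),(3,16384),(8,16378)]))))) (U0 1 2 (P1 1 2 (U1 2 1 (P5 4 1 (U2 1 2 (F [(10,9962),(3,16369),(8,16384),(4,9934)]) (P3 2 1 (P2 1 1 (F [(10,9963),(3,16368),(8,16384),(4,9940)]) (F [(3,16377),(10,9937),(8,16384),(4,9937)]))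 (P2 1 1 (F [(10,256),(4,99),(8,58)]) (F [(3,16384),(10,9935),(4,9945),(8,16372)])))) (F [(3,256),(8,153),(4,59)])) (P5 4 1 (P3 2 1 (P2 1 1 (U0 1 4 (F [(3,256),(8,69)]) (F [(3,1047953),(10,637099),(8,1048576),(4,635954)])) (F [(3,16381),(8,16384),(10,9927),(4,9936)])) (P2 1 1 (P4 1 1 (U0 1 4 (F [(3,256),(8,69)]) (F [(10,637172),(3,1048063),(8,1048576),(4,636082)])) (F [(3,16384),(10,9926),(8,16366),(4,9942)])) (F [(3,16384),(10,9924),(8,16367),(4,9941)]))) (F [(3,256),(8,149),(4,77)]))) (U1 2 1 (U2 1 2 (F [(10,637880),(3,1047595),(4,636575),(8,1048576)]) (P0 2 1 (P5 1 1 (F [(10,256),(4,97),(8,64)]) (F [(4,9950),(3,16384),(10,9945),(8,16379)])) (P2 2 1 (P5 1 1 (F [(10,256),(4,97),(8,64)]) (F [(4,636057),(8,1048576),(10,637602),(3,1046070)])) (F [(4,9943),(8,16384),(10,9950),(3,16357)])))) (P0 2 1 (P5 1 1 (P4 1 1 (P2 1 2 (U0 1 4 (F [(3,256),(8,13)])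 (F [(10,9957),(3,16369),(4,9936),(8,16384)])) (F [(3,16384),(10,9929),(8,16367),(4,9944)])) (F [(3,16384),(10,9925),(4,9943),(8,16361)])) (F [(3,16384),(8,16361),(10,9925),(4,9943)])) (P2 2 1 (P5 1 1 (P4 1 2 (F [(10,9955),(3,16344),(8,16384),(4,9922)]) (U0 1 4 (F [(3,16380),(8,16384),(10,9941),(4,9943)]) (F [(4,9947),(8,16384),(10,9944),(3,16379)]))) (F [(8,1048576),(3,1048169),(4,636368),(10,635995)])) (F [(8,16384),(4,9929),(3,16351),(10,9927)]))))) (P1 1 2 (U2 1 1 (P5 4 1 (F [(10,9970),(4,9963),(3,16365),(8,16384)]) (F [(3,16384),(10,9910),(4,9934),(8,16355)])) (F [(4,256),(8,83),(3,218)])) (F [(4,10004),(10,10002),(8,16384),(3,16345)])))))) (P3 1 2 (U1 1 1 (F [(4,9936),(8,16384),(3,16360),(10,9925)]) (F [(8,16384),(3,16344),(4,9914),(10,9871)])) (U1 1 1 (F [(10,9904),(3,16384),(4,9962),(8,16322)]) (P0 1 2 (F [(3,256),(4,128),(8,102)])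 (P1 1 1 (F [(3,256),(4,128),(8,102)]) (U0 1 2 (P2 1 2 (F [(3,256),(8,153),(4,59)]) (F [(4,9970),(3,16384),(8,16305),(10,9862)])) (F [(4,9956),(8,16351),(10,9908),(3,16384)]))))))) (P5 1 1 (P2 2 1 (U1 1 1 (F [(10,9995),(4,9917),(8,16384),(3,16301)]) (P4 1 4 (P1 1 1 (P5 1 2 (F [(10,255),(8,256),(4,3)]) (U0 1 2 (F [(3,54),(10,141),(8,256)]) (U2 1 1 (P3 1 4 (F [(10,9942),(3,16287),(8,16384),(4,9857)]) (F [(10,162),(3,26),(8,256)])) (P3 1 4 (F [(4,9884),(8,16384),(10,9944),(3,16304)]) (F [(4,9862),(10,9959),(8,16384),(3,16261)]))))) (F [(10,227),(4,2),(8,256)])) (P1 1 1 (U0 1 2 (F [(8,256),(3,39),(10,133)]) (P3 1 2 (U2 1 1 (P5 4 1 (F [(10,155),(8,256)]) (F [(8,16384),(4,9891),(3,16310),(10,9934)])) (F [(4,256),(8,83),(3,218)])) (F [(8,256),(10,155)]))) (F [(4,1),(8,256),(10,181)])))) (F [(4,9774),(8,16384),(10,9910),(3,16127)])) (F [(4,9811),(8,16384),(3,16183),(10,9909)]))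

def c56 : Cell := ⟨⟨37,91,0⟩, ⟨73,183,0⟩, ⟨146,365,1⟩, ⟨379,264,230,151⟩, ⟨1514,1058,921,603⟩, ⟨757,528,461,302⟩, ⟨757,529,460,302⟩⟩

def t56 : Tr :=
  P0 4 1 (P5 1 1 (U0 2 1 (P0 1 2 (F [(3,256),(10,6),(4,158)]) (P2 1 4 (P5 1 2 (P4 1 8 (U1 2 1 (F [(10,44),(4,201),(3,256)]) (U0 1 2 (F [(10,256),(3,26),(8,222)]) (U2 2 1 (F [(10,10067),(3,16188),(4,9813),(8,16384)]) (F [(10,637155),(3,1047285),(4,635349),(8,1048576)])))) (U1 2 1 (F [(4,201),(10,44),(3,256)]) (U0 1 2 (P3 1 2 (U1 4 1 (P1 1 2 (F [(3,256),(10,63)]) (F [(10,636843),(3,1048576),(8,1047896),(4,636341)])) (F [(3,150),(10,126),(8,256)])) (P0 1 1 (F [(3,256),(4,155)]) (U1 4 1 (U2 1 1 (F [(10,256),(3,74),(4,88)]) (P1 2 1 (F [(3,256),(4,33)]) (U0 2 1 (F [(10,256),(3,78),(4,54)]) (P4 1 1 (F [(3,16384),(10,9957),(4,9943),(8,16384)]) (P0 2 1 (F [(3,256),(4,155)]) (F [(10,9955),(3,16381),(4,9944),(8,16384)]))))))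 (U0 1 4 (F [(3,84),(10,256)]) (P1 2 1 (F [(3,256),(4,33)]) (U2 2 1 (F [(3,84),(10,256)]) (P4 1 1 (F [(3,16380),(10,9954),(8,16384),(4,9938)]) (P0 2 1 (F [(3,256),(4,155)]) (F [(3,16383),(10,9954),(8,16384),(4,9942)]))))))))) (P3 1 2 (U2 2 1 (P1 1 2 (F [(3,16384),(10,9943),(4,9936),(8,16370)]) (F [(10,636609),(3,1048576),(4,636560),(8,1047658)])) (F [(4,636168),(3,1048576),(8,1048426),(10,636242)])) (F [(4,9961),(3,16384),(10,9931),(8,16353)]))))) (U1 2 1 (U2 1 1 (P1 1 4 (F [(4,155),(8,36),(3,256)]) (F [(4,9951),(10,9949),(8,16366),(3,16384)])) (P1 1 4 (F [(4,140),(8,58),(3,256)]) (P4 1 2 (U0 2 1 (F [(4,9939),(8,16384),(10,9951),(3,16374)]) (F [(4,195),(3,256)])) (F [(4,256),(8,84),(3,218)])))) (U0 1 2 (P1 1 4 (F [(3,256),(8,110)]) (P4 1 2 (U1 4 1 (P2 1 2 (F [(3,256),(8,69)]) (U2 1 1 (P1 2 1 (F [(3,16379),(10,9947),(8,16384),(4,9933)])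 (F [(10,9956),(3,16378),(8,16384),(4,9938)])) (P1 2 1 (F [(3,229),(10,17),(8,256)]) (P0 2 1 (F [(3,256),(8,149),(4,77)]) (F [(3,16371),(10,9950),(8,16384),(4,9932)]))))) (F [(3,147),(10,69),(8,256)])) (P3 2 1 (U1 4 1 (U2 1 1 (P1 2 1 (F [(3,16384),(10,9942),(8,16379),(4,9939)]) (F [(3,16384),(10,9952),(4,9943),(8,16376)])) (P1 2 1 (F [(3,236),(8,256)]) (P0 4 1 (F [(3,256),(8,166),(4,110)]) (P2 2 1 (F [(3,256),(8,140),(4,117)]) (U0 2 1 (F [(3,16375),(10,9953),(8,16384),(4,9936)]) (F [(3,16374),(8,16384),(10,9946),(4,9936)])))))) (F [(3,147),(10,69),(8,256)])) (P0 1 1 (F [(3,256),(4,155)]) (U1 4 1 (U2 1 1 (F [(3,256),(10,226),(4,256)]) (P1 4 1 (F [(3,256),(4,155)]) (P2 2 1 (F [(3,256),(4,155)]) (U0 2 1 (F [(3,254),(10,256),(4,161)]) (P0 2 1 (F [(3,256),(4,155)]) (F [(3,16374),(10,9946),(4,9936),(8,16384)])))))) (U0 1 4 (F [(3,211),(10,256)])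 (P1 4 1 (F [(3,256),(8,110)]) (P2 2 1 (F [(3,256),(8,110)]) (U2 2 1 (F [(3,210),(10,256)]) (P0 2 1 (F [(3,256),(4,155)]) (F [(3,16373),(10,9943),(8,16384),(4,9930)]))))))))))) (P1 1 4 (F [(8,143),(3,256),(4,65)]) (P4 1 2 (U2 2 1 (P2 1 2 (F [(3,16384),(10,9943),(8,16383),(4,9936)]) (U1 1 1 (P1 2 1 (F [(4,9941),(3,16382),(8,16384),(10,9947)]) (F [(4,9948),(10,9953),(3,16384),(8,16384)])) (P1 2 1 (F [(8,16384),(3,16383),(4,9934),(10,9937)]) (P0 2 1 (F [(3,16384),(4,9935),(8,16384),(10,9938)]) (F [(4,9942),(8,16384),(10,9948),(3,16377)]))))) (F [(4,152),(8,188),(3,256)])) (F [(4,256),(8,84),(3,218)])))))) (U1 2 1 (F [(4,256),(8,186),(3,132)]) (P1 1 2 (U0 1 2 (P5 4 1 (P3 2 1 (P2 1 1 (U1 4 1 (U2 1 1 (P5 1 2 (P4 1 4 (F [(10,9950),(4,9929),(8,16384),(3,16360)]) (F [(3,16382),(4,9939),(10,9939),(8,16384)])) (F [(3,16382),(8,16384),(4,9938),(10,9939)]))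 (P5 1 2 (P4 1 4 (U0 2 1 (P2 1 2 (F [(10,9950),(3,16369),(8,16384),(4,9932)]) (F [(8,16384),(3,16373),(4,9934),(10,9942)])) (F [(8,16384),(4,9933),(3,16369),(10,9944)])) (F [(3,256),(8,166),(4,110)])) (F [(8,256),(3,216),(4,62)]))) (F [(3,144),(8,256),(10,71)])) (F [(8,187),(3,256),(4,152)])) (P2 1 1 (P4 1 1 (U1 4 1 (U2 1 1 (P5 1 4 (P2 1 2 (F [(10,256),(4,98),(8,58)]) (P0 1 1 (F [(10,9952),(4,9943),(3,16381),(8,16384)]) (F [(4,9937),(8,16384),(10,9945),(3,16374)]))) (F [(3,16384),(4,9943),(10,9930),(8,16370)])) (P5 1 4 (U0 2 1 (P2 1 2 (P4 1 2 (F [(10,9951),(3,16370),(8,16384),(4,9932)]) (P0 1 2 (F [(3,256),(10,6),(4,155)]) (F [(3,16377),(10,9948),(8,16384),(4,9939)]))) (P0 1 1 (P4 2 1 (F [(3,16374),(10,9943),(8,16384),(4,9936)]) (F [(3,256),(4,155)])) (F [(8,16384),(3,16376),(4,9931),(10,9933)]))) (P2 1 2 (P4 1 2 (F [(4,9936),(8,16384),(10,9945),(3,16373)])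 (F [(4,9943),(3,16384),(8,16379),(10,9936)])) (F [(4,152),(8,187),(3,256)]))) (F [(3,256),(4,122),(8,124)]))) (U0 1 4 (F [(3,256),(8,69)]) (P5 1 4 (U2 2 1 (F [(3,256),(10,108),(8,253)]) (P2 1 2 (P4 1 2 (F [(3,16373),(8,16384),(10,9943),(4,9930)]) (F [(3,256),(8,153),(4,59)])) (F [(3,256),(8,202),(4,29)]))) (F [(3,256),(8,153),(4,59)])))) (F [(3,256),(4,153),(8,132)])) (F [(3,256),(8,187),(4,152)]))) (F [(3,256),(8,149),(4,77)])) (F [(4,256),(8,186),(3,132)])) (U0 1 2 (P0 2 1 (P5 1 1 (P4 1 1 (P2 1 2 (U1 4 1 (U2 1 1 (P5 1 2 (F [(4,97),(10,256),(8,65)]) (P3 1 1 (F [(4,9935),(8,16384),(10,9942),(3,16366)]) (F [(4,636491),(10,637585),(3,1047771),(8,1048576)]))) (U0 2 1 (P5 1 2 (P4 1 2 (P2 1 4 (F [(10,256),(8,205),(4,3)]) (U1 1 1 (F [(4,9945),(8,16384),(10,9946),(3,16380)]) (P1 1 1 (F [(10,9948),(3,16371),(8,16384),(4,9934)]) (U0 1 2 (F [(10,9952),(3,16380),(4,9946),(8,16384)])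 (F [(4,9951),(10,9952),(8,16384),(3,16384)]))))) (P3 2 1 (U1 1 1 (F [(4,9945),(8,16384),(10,9946),(3,16380)]) (P1 1 1 (F [(10,9946),(3,16376),(8,16384),(4,9937)]) (F [(3,16384),(10,9939),(4,9944),(8,16374)]))) (F [(3,256),(4,155)]))) (P3 1 1 (F [(8,16384),(4,9931),(3,16364),(10,9936)]) (P4 2 1 (U1 1 1 (F [(4,9942),(8,16384),(3,16377),(10,9942)]) (F [(3,16375),(8,16384),(10,9943),(4,9938)])) (F [(3,256),(4,155)])))) (P5 1 2 (P4 1 2 (P2 1 4 (F [(4,9938),(8,16384),(10,9949),(3,16374)]) (F [(4,9945),(8,16382),(3,16384),(10,9941)])) (F [(4,9943),(8,16376),(3,16384),(10,9933)])) (F [(4,152),(8,187),(3,256)])))) (U0 1 4 (F [(3,256),(8,13)]) (U2 2 1 (P5 1 2 (P4 1 2 (P2 1 4 (F [(10,256),(3,26),(8,223)]) (U1 1 1 (P1 1 1 (F [(3,150),(10,126),(8,256)]) (U2 1 2 (F [(3,16384),(10,9949),(8,16383),(4,9944)]) (P0 1 1 (F [(3,16379),(10,9947),(8,16384),(4,9940)])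 (F [(3,16374),(8,16384),(4,9938),(10,9943)])))) (F [(3,1048479),(8,1048576),(10,635852),(4,635873)]))) (F [(3,256),(8,133),(4,72)])) (F [(3,256),(8,133),(4,72)])) (P5 1 2 (P4 1 2 (P2 1 4 (F [(8,16384),(3,16374),(10,9948),(4,9936)]) (F [(8,16383),(4,9942),(3,16384),(10,9939)])) (F [(3,256),(8,149),(4,77)])) (F [(8,194),(3,256),(4,90)]))))) (F [(4,154),(8,121),(3,256)])) (F [(3,256),(4,153),(8,132)])) (F [(8,187),(4,152),(3,256)])) (P2 2 1 (P5 1 1 (P4 1 2 (U1 4 1 (U2 1 1 (F [(4,9933),(8,16384),(10,9956),(3,16352)]) (U0 2 1 (P2 1 2 (P5 1 2 (P4 1 4 (F [(8,256),(10,155)]) (F [(4,9934),(8,16384),(10,9954),(3,16344)])) (F [(8,16384),(4,9933),(10,9942),(3,16363)])) (F [(4,9942),(8,16384),(10,9948),(3,16366)])) (F [(8,256),(10,66)]))) (U0 1 4 (F [(8,16384),(3,16358),(10,9945),(4,9922)]) (U2 2 1 (P2 1 2 (P5 1 2 (P4 1 4 (F [(8,256),(10,155)])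 (U1 1 1 (P3 1 1 (F [(8,256),(10,148),(3,13)]) (U2 1 2 (F [(8,16384),(10,9948),(3,16372),(4,9939)]) (F [(8,256),(3,4),(10,65)]))) (F [(8,256),(3,78),(10,49)]))) (F [(8,16384),(3,16365),(4,9933),(10,9940)])) (F [(8,16384),(4,9935),(3,16365),(10,9942)])) (F [(8,256),(3,4),(10,65)])))) (F [(4,153),(8,140),(3,256)])) (F [(8,256),(4,96),(3,165)])) (F [(4,123),(8,256),(3,209)]))) (F [(4,256),(8,34)])))))) (F [(4,256),(10,75)])) (F [(4,153),(8,139),(3,256)])) (P5 1 1 (P2 2 1 (U0 2 1 (P4 1 4 (P1 1 1 (P5 1 2 (U1 2 1 (P2 1 4 (F [(10,9971),(4,9953),(8,16383),(3,16384)]) (F [(4,9871),(8,16384),(10,9955),(3,16274)])) (P2 1 4 (U0 1 2 (F [(10,168),(3,50),(8,256)]) (F [(10,637447),(3,1041977),(8,1048576),(4,631829)])) (F [(8,16384),(3,16253),(4,9849),(10,9946)]))) (U1 2 1 (U2 1 1 (P3 1 4 (P5 2 1 (F [(4,9900),(8,16384),(10,9952),(3,16316)]) (F [(4,152),(8,187),(3,256)]))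 (F [(4,9907),(8,16384),(10,9971),(3,16309)])) (P3 1 4 (U0 2 1 (F [(8,1048576),(4,633095),(3,1044729),(10,635678)]) (F [(4,154),(8,100),(3,256)])) (U0 2 1 (F [(4,633492),(8,1048576),(10,636513),(3,1044488)]) (F [(4,179),(8,73),(3,256)])))) (U0 1 2 (F [(8,256),(3,54),(10,141)]) (P3 1 4 (F [(8,256),(3,228),(10,17)]) (U2 2 1 (F [(8,16384),(4,9764),(3,16146),(10,9926)]) (F [(8,188),(4,152),(3,256)])))))) (F [(4,20),(8,256),(10,201)])) (F [(8,256),(10,113),(3,2)])) (F [(4,256),(10,75)])) (F [(8,256),(3,7)])) (F [(8,256),(3,7)]))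

def c57 : Cell := ⟨⟨19,45,0⟩, ⟨37,91,0⟩, ⟨36,91,1⟩, ⟨379,264,230,151⟩, ⟨756,530,461,301⟩, ⟨378,264,231,151⟩, ⟨378,265,230,151⟩⟩

def t57 : Tr :=
  F [(4,256),(10,40),(3,228)]

def c58 : Cell := ⟨⟨19,45,0⟩, ⟨9,23,0⟩, ⟨36,91,1⟩, ⟨757,530,460,301⟩, ⟨189,133,115,75⟩, ⟨756,530,461,301⟩, ⟨378,265,230,151⟩⟩

def t58 : Tr :=
  F [(10,256),(3,70),(4,156)]

def c59 : Cell := ⟨⟨37,91,0⟩, ⟨9,23,0⟩, ⟨36,91,1⟩, ⟨1514,1058,921,603⟩, ⟨757,530,460,301⟩, ⟨756,530,461,301⟩, ⟨378,265,230,151⟩⟩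

def t59 : Tr :=
  F [(3,256),(4,155)]

theorem g4 : ∀ c ∈ [c48, c49, c50, c51, c52, c53, c54, c55, c56, c57, c58, c59], Done D c := by
  intro c hc
  simp only [List.mem_cons, List.not_mem_nil, or_false] at hc
  rcases hc with rfl | rfl | rfl | rfl | rfl | rfl | rfl | rfl | rfl | rfl | rfl | rfl
  · exact done_of_chk (t := t48) (by decide +kernel)
  · exact done_of_chk (t := t49) (by decide +kernel)
  · exact done_of_chk (t := t50) (by decide +kernel)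
  · exact done_of_chk (t := t51) (by decide +kernel)
  · exact done_of_chk (t := t52) (by decide +kernel)
  · exact done_of_chk (t := t53) (by decide +kernel)
  · exact done_of_chk (t := t54) (by decide +kernel)
  · exact done_of_chk (t := t55) (by decide +kernel)
  · exact done_of_chk (t := t56) (by decide +kernel)
  · exact done_of_chk (t := t57) (by decide +kernel)
  · exact done_of_chk (t := t58) (by decide +kernel)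
  · exact done_of_chk (t := t59) (by decide +kernel)

end Pool.Agent.W2helper59.NW.I0
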