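import Pool.Agent.W2helper59.NW.D_I0

set_option autoImplicit false
set_option maxRecDepth 1000000

namespace Pool.Agent.W2helper59.NW.I0

open Tr

def c60 : Cell := ⟨⟨37,91,0⟩, ⟨9,23,0⟩, ⟨36,91,1⟩, ⟨757,529,460,302⟩, ⟨757,530,460,301⟩, ⟨1514,1058,921,603⟩, ⟨378,265,230,151⟩⟩

def t60 : Tr :=
  F [(10,256),(3,67),(4,155)]

def c61 : Cell := ⟨⟨37,91,0⟩, ⟨72,183,1⟩, ⟨36,91,1⟩, ⟨379,264,230,151⟩, ⟨757,530,460,301⟩, ⟨1514,1058,921,603⟩, ⟨757,529,460,302⟩⟩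

def t61 : Tr :=
  F [(4,256),(10,247)]

def c62 : Cell := ⟨⟨37,91,0⟩, ⟨9,23,0⟩, ⟨72,183,1⟩, ⟨1515,1058,920,603⟩, ⟨757,530,460,301⟩, ⟨1514,1058,921,603⟩, ⟨757,529,460,302⟩⟩

def t62 : Tr :=
  F [(10,256),(3,67),(4,155)]

def c63 : Cell := ⟨⟨73,183,0⟩, ⟨9,23,0⟩, ⟨72,183,1⟩, ⟨379,264,230,151⟩, ⟨1515,1058,920,603⟩, ⟨1514,1058,921,603⟩, ⟨757,529,460,302⟩⟩

def t63 : Tr :=
  P1 4 1 (U1 8 1 (U2 1 1 (F [(10,256),(4,114)]) (U0 2 1 (F [(10,256),(8,191),(4,4)]) (P1 1 2 (F [(10,135),(3,256)]) (P2 1 4 (F [(10,63),(3,256)]) (P0 1 2 (F [(10,256)]) (U2 2 1 (F [(10,10003),(3,16354),(4,9959),(8,16384)]) (U0 4 1 (F [(10,9958),(3,16361),(8,16384),(4,9927)]) (P1 2 1 (F [(3,256),(10,135)]) (P2 2 1 (F [(10,149),(3,256),(8,141)]) (P0 2 1 (U2 4 1 (F [(10,9958),(3,16373),(8,16384),(4,9943)]) (P3 2 1 (F [(3,16382),(10,9941),(8,16384),(4,9944)]) (F [(10,636976),(3,1048122),(8,1048576),(4,636435)])))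 (F [(8,16384),(3,16352),(10,9928),(4,9927)]))))))))))) (U0 1 8 (F [(3,256),(10,63)]) (U2 2 1 (F [(3,256),(8,131)]) (P1 1 2 (F [(3,256),(10,135)]) (P2 1 4 (F [(3,256)]) (P0 1 2 (F [(10,256)]) (U0 2 1 (F [(3,256),(8,131)]) (U2 4 1 (F [(3,256),(8,131)]) (P1 2 1 (F [(3,256),(10,135)]) (P2 2 1 (F [(3,256),(8,13)]) (P0 2 1 (F [(3,1048576),(10,631952),(8,1043494),(4,635340)]) (F [(3,256),(8,247)])))))))))))) (P2 2 1 (U1 8 1 (U2 1 1 (F [(10,256),(4,114)]) (U0 2 1 (F [(10,227),(8,256),(4,2)]) (P5 1 4 (F [(10,256),(8,195)]) (P0 1 1 (P3 2 1 (U2 2 1 (F [(10,237),(4,36),(8,256)]) (U0 4 1 (F [(10,227),(8,256),(4,2)]) (P5 2 1 (F [(10,227),(3,256),(8,208)]) (P1 1 1 (P3 1 2 (F [(8,256),(10,155)]) (F [(10,9953),(8,16384),(3,16375),(4,9944)])) (F [(10,256),(8,223),(3,26)]))))) (F [(10,256)])) (F [(10,162),(8,256),(3,26)]))))) (U0 1 8 (F [(10,198),(3,256),(8,221)])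 (U2 2 1 (F [(10,109),(3,256),(8,254)]) (P5 1 4 (F [(10,256),(8,195)]) (P0 1 1 (P3 2 1 (U0 2 1 (F [(3,256),(8,68)]) (U2 4 1 (F [(10,108),(3,256),(8,253)]) (P5 2 1 (F [(10,227),(3,256),(8,208)]) (P1 1 1 (P3 1 2 (F [(8,256),(3,230),(10,21)]) (F [(3,16375),(10,9953),(8,16384),(4,9944)])) (F [(10,256),(3,26),(8,223)]))))) (F [(10,256)])) (F [(10,141),(3,54),(8,256)])))))) (U1 8 1 (F [(10,256),(4,104),(8,255)]) (P0 4 1 (U0 1 8 (F [(10,184),(3,116),(8,256)]) (U2 2 1 (F [(10,174),(3,116),(8,256)]) (P4 1 1 (F [(8,256),(10,148),(3,11)]) (P0 1 2 (P3 2 1 (U0 2 1 (F [(10,8),(3,256)]) (U2 4 1 (F [(10,174),(3,116),(8,256)]) (P1 1 2 (P5 1 1 (F [(10,256),(8,192),(4,62)]) (P3 1 2 (F [(8,256),(3,118),(10,86)]) (F [(10,9956),(3,16375),(8,16384),(4,9953)]))) (F [(10,256),(8,192),(4,62)])))) (F [(10,256),(4,5)])) (F [(10,169),(8,256),(4,6)]))))) (F [(8,256),(10,87),(3,117)]))))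

def c64 : Cell := ⟨⟨146,365,1⟩, ⟨73,183,0⟩, ⟨72,183,1⟩, ⟨379,264,230,151⟩, ⟨1515,1058,920,603⟩, ⟨1514,1058,921,603⟩, ⟨757,529,460,302⟩⟩

def t64 : Tr :=
  P1 4 1 (U1 1 1 (F [(10,256),(4,224)]) (P1 1 2 (F [(10,92),(3,256),(4,158)]) (P2 1 4 (F [(10,256),(3,78),(4,54)]) (U0 1 2 (P0 1 2 (F [(10,256),(3,3),(4,8)]) (U1 2 1 (F [(10,229),(4,256),(3,45)]) (P1 2 1 (F [(10,92),(3,256),(4,158)]) (P2 2 1 (P4 1 1 (P5 1 2 (F [(10,637399),(3,1045619),(8,1048576),(4,634776)]) (U0 1 4 (U1 4 1 (P3 1 1 (F [(3,16381),(10,9943),(8,16384),(4,9945)]) (F [(10,256),(8,125),(4,80)])) (P3 1 1 (F [(3,16382),(8,16384),(10,9941),(4,9946)]) (U0 1 8 (F [(3,256),(10,108),(8,253)]) (P0 1 1 (F [(10,256),(3,78),(4,54)]) (F [(10,9949),(3,16376),(8,16384),(4,9944)]))))) (F [(4,256),(10,229),(3,45)]))) (U0 1 4 (U1 4 1 (P3 2 1 (P5 1 1 (F [(10,256),(4,76),(8,139)]) (F [(10,9947),(3,16376),(4,9950),(8,16384)]))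 (F [(10,256),(4,74),(8,148)])) (P3 2 1 (P5 1 1 (P0 2 1 (P4 1 2 (U0 1 8 (F [(3,16375),(10,9953),(8,16384),(4,9942)]) (F [(10,9955),(3,16378),(4,9948),(8,16384)])) (F [(3,16384),(10,9932),(4,9951),(8,16362)])) (U0 1 8 (F [(3,168),(10,101),(8,256)]) (P2 1 1 (F [(10,9955),(3,16378),(4,9948),(8,16384)]) (F [(8,16384),(4,9945),(10,9949),(3,16376)])))) (F [(3,16383),(8,16384),(4,9950),(10,9939)])) (P0 1 2 (F [(10,9957),(4,9953),(3,16384),(8,16379)]) (P1 2 1 (P5 1 2 (F [(10,637215),(3,1047510),(4,636265),(8,1048576)]) (F [(10,9951),(4,9953),(3,16384),(8,16383)])) (F [(10,161),(8,256)]))))) (F [(4,256),(10,222),(3,43)]))) (U0 1 4 (P0 2 1 (U1 4 1 (F [(4,636913),(10,636878),(8,1048576),(3,1047698)]) (P3 2 1 (F [(8,16384),(4,9949),(3,16379),(10,9938)]) (P4 2 1 (F [(4,9950),(8,16384),(10,9944),(3,16379)]) (F [(4,637149),(10,636794),(8,1048480),(3,1048576)]))))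 (F [(8,16384),(4,9929),(3,16351),(10,9927)])) (F [(4,256),(10,222),(3,43)])))))) (F [(4,256),(10,222),(3,43)]))))) (P2 2 1 (U1 1 1 (F [(10,256),(4,251)]) (P5 1 4 (F [(10,256),(4,4),(8,192)]) (P0 1 1 (U0 1 2 (P3 2 1 (U1 2 1 (F [(10,245),(4,63),(8,256)]) (P5 2 1 (F [(10,256),(4,3),(8,223)]) (P1 1 1 (U0 1 4 (P3 1 2 (F [(8,256),(4,40),(10,139)]) (F [(4,635618),(8,1048576),(10,637761),(3,1045855)])) (F [(4,79),(8,256),(10,232)])) (F [(4,3),(10,256),(8,223)])))) (F [(10,256),(4,7)])) (F [(4,251),(10,256)])) (F [(4,1),(8,256),(10,181)])))) (F [(4,256),(8,5),(10,78)]))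

def c65 : Cell := ⟨⟨147,365,0⟩, ⟨73,183,0⟩, ⟨146,365,1⟩, ⟨6058,4230,3683,2413⟩, ⟨1515,1058,920,603⟩, ⟨1514,1058,921,603⟩, ⟨757,529,460,302⟩⟩

def t65 : Tr :=
  F [(10,152),(3,256),(4,223)]

def c66 : Cell := ⟨⟨147,365,0⟩, ⟨73,183,0⟩, ⟨146,365,1⟩, ⟨6058,4230,3681,2415⟩, ⟨1515,1058,920,603⟩, ⟨6058,4230,3683,2413⟩, ⟨757,529,460,302⟩⟩

def t66 : Tr :=
  P4 1 2 (P5 1 8 (F [(10,256),(4,80),(8,125)]) (U1 2 1 (F [(4,256),(10,233),(3,23)]) (U0 1 2 (P3 2 1 (P1 1 1 (F [(3,256),(4,155)]) (U1 4 1 (F [(10,229),(3,45),(4,256)]) (U0 1 4 (F [(3,84),(10,256)]) (P0 2 1 (F [(3,256),(10,24)]) (U2 2 1 (F [(3,84),(10,256)]) (P5 1 1 (F [(3,16380),(10,9962),(8,16384),(4,9943)]) (P1 2 1 (F [(3,256),(4,155)]) (F [(3,16383),(10,9954),(8,16384),(4,9942)])))))))) (F [(10,256),(4,61),(8,142)])) (F [(4,256),(10,228),(3,45)])))) (U1 2 1 (F [(4,256),(10,91)]) (U0 1 2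 (P3 4 1 (P5 1 2 (F [(10,256),(4,76),(8,139)]) (P0 2 1 (F [(3,256),(10,226),(4,256)]) (P1 1 1 (F [(3,256),(10,34),(4,171)]) (U1 4 1 (F [(10,222),(3,43),(4,256)]) (U0 1 4 (F [(3,84),(10,256)]) (P2 2 1 (F [(3,256),(10,61),(4,125)]) (U2 2 1 (F [(10,256),(3,84)]) (P0 4 1 (F [(3,256),(10,226),(4,256)]) (P1 2 1 (F [(3,256),(10,34),(4,171)]) (F [(10,9951),(3,16378),(8,16384),(4,9939)])))))))))) (F [(10,256),(4,74),(8,148)])) (F [(4,256),(10,74)])))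

def c67 : Cell := ⟨⟨147,365,0⟩, ⟨292,731,1⟩, ⟨146,365,1⟩, ⟨3030,2114,1841,1207⟩, ⟨1515,1058,920,603⟩, ⟨6058,4230,3683,2413⟩, ⟨6058,4230,3681,2415⟩⟩

def t67 : Tr :=
  F [(4,256),(10,91)]

def c68 : Cell := ⟨⟨147,365,0⟩, ⟨73,183,0⟩, ⟨292,731,1⟩, ⟨6060,4230,3681,2413⟩, ⟨1515,1058,920,603⟩, ⟨6058,4230,3683,2413⟩, ⟨6058,4230,3681,2415⟩⟩

def t68 : Tr :=
  U0 1 2 (P3 4 1 (P4 1 2 (P1 1 1 (P5 1 1 (U1 4 1 (F [(10,222),(4,256),(3,43)]) (P2 1 2 (U0 1 4 (F [(3,256),(10,103)]) (U2 2 1 (F [(10,256),(3,121),(4,80)]) (P4 1 4 (P5 1 2 (P2 1 4 (F [(10,9950),(3,16377),(8,16384),(4,9938)]) (F [(3,256),(4,155)])) (F [(3,256),(10,34),(4,171)])) (F [(3,256),(10,153),(4,224)])))) (F [(3,256),(4,155)]))) (F [(3,256),(10,34),(4,171)])) (P2 1 1 (U1 4 1 (F [(4,175),(10,256),(8,143)]) (P5 1 2 (U0 1 4 (F [(10,256)]) (U2 2 1 (F [(10,256),(3,3),(4,8)]) (P4 1 4 (P2 1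 2 (P5 1 4 (F [(10,9954),(3,16370),(8,16384),(4,9937)]) (F [(10,9971),(4,9958),(3,16384),(8,16364)])) (F [(4,154),(10,256),(3,66)])) (F [(4,244),(10,256),(3,215)])))) (F [(10,256),(3,214),(4,244)]))) (F [(4,154),(10,256),(3,66)]))) (F [(10,256),(4,245),(3,215)])) (F [(10,256),(4,74),(8,148)])) (F [(4,256),(8,34)])

def c69 : Cell := ⟨⟨293,731,0⟩, ⟨73,183,0⟩, ⟨292,731,1⟩, ⟨12118,8458,7365,4827⟩, ⟨6060,4230,3681,2413⟩, ⟨6058,4230,3683,2413⟩, ⟨6058,4230,3681,2415⟩⟩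

def t69 : Tr :=
  P3 1 1 (P5 1 1 (P2 1 2 (U1 4 1 (F [(4,256),(10,222),(3,43)]) (P4 1 2 (U0 1 4 (F [(3,256)]) (U2 2 1 (P5 1 2 (P2 1 4 (F [(10,256),(8,113),(4,5)]) (U1 1 1 (U2 1 2 (F [(10,9949),(3,16384),(8,16383),(4,9944)]) (P1 1 1 (F [(10,9954),(3,16383),(4,9946),(8,16384)]) (P4 2 1 (F [(3,16382),(10,9945),(4,9943),(8,16384)]) (F [(3,256),(4,155),(8,8)])))) (F [(3,16384),(10,9939),(8,16376),(4,9942)]))) (F [(3,256),(4,155)])) (P5 1 2 (P2 1 4 (P4 1 4 (F [(3,16375),(10,9948),(8,16384),(4,9937)]) (F [(3,16384),(10,9942),(4,9944),(8,16378)])) (F [(4,9944),(8,16377),(3,16384),(10,9938)])) (F [(3,256),(4,155),(8,36)])))) (F [(3,256),(4,155)]))) (F [(4,155),(3,256)])) (F [(3,256),(4,155)])) (P4 1 1 (P2 1 2 (U1 4 1 (F [(4,256),(10,234),(3,23)]) (P5 1 2 (U0 1 4 (P4 1 2 (F [(3,256),(10,24)]) (U1 8 1 (U2 1 1 (F [(10,135),(3,256)]) (P0 1 2 (U0 2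 1 (F [(10,256)]) (P5 1 1 (P4 2 1 (F [(10,63),(3,256)]) (P3 4 1 (F [(10,63),(3,256)]) (U2 2 1 (F [(10,61),(3,256),(4,125)]) (P0 1 4 (F [(10,256),(4,251)]) (P2 1 1 (F [(10,245),(8,256),(4,63)]) (F [(10,636414),(3,1048576),(8,1047792),(4,636582)])))))) (P3 2 1 (F [(3,256),(10,63)]) (P4 4 1 (F [(10,63),(3,256)]) (U2 2 1 (F [(10,34),(3,256),(4,171)]) (P0 1 4 (F [(10,256),(4,225)]) (F [(10,636306),(3,1048576),(8,1047681),(4,636682)]))))))) (F [(3,256),(10,63)]))) (U0 1 8 (F [(3,256),(10,135)]) (P0 1 2 (U2 2 1 (F [(10,135),(3,256)]) (P5 1 1 (F [(10,141),(3,54),(8,256)]) (P3 2 1 (F [(3,256),(8,131)]) (P4 4 1 (F [(3,256),(8,69)]) (U0 2 1 (F [(10,135),(3,256)]) (P0 1 4 (F [(10,256),(4,114)]) (F [(3,16381),(10,9949),(8,16384),(4,9944)]))))))) (F [(3,256),(8,214)]))))) (U2 2 1 (P4 1 2 (P2 1 4 (F [(10,256),(8,113),(4,5)]) (U1 1 1 (P0 1 1 (F [(10,256),(4,74),(8,148)])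 (U2 1 2 (F [(10,9946),(3,16384),(4,9945),(8,16372)]) (P5 2 1 (F [(10,636510),(3,1048297),(4,636304),(8,1048576)]) (F [(10,9946),(4,9946),(3,16384),(8,16383)])))) (P0 1 1 (F [(10,636938),(3,1048420),(8,1048576),(4,636434)]) (P5 2 1 (F [(3,16381),(8,16384),(10,9944),(4,9942)]) (F [(3,16384),(10,9944),(8,16381),(4,9945)]))))) (U1 1 1 (P0 1 2 (F [(10,256),(4,114)]) (P2 1 1 (F [(10,256),(4,114)]) (F [(10,9949),(4,9948),(3,16384),(8,16384)]))) (P0 1 2 (P5 1 1 (P4 2 1 (P2 1 2 (F [(10,256),(4,7)]) (U0 1 2 (U1 2 1 (F [(10,154),(3,256),(4,224)]) (P0 1 1 (F [(10,256),(4,7)]) (P1 1 1 (F [(10,256),(4,7)]) (F [(10,636719),(3,1048235),(8,1048576),(4,636444)])))) (F [(4,251),(10,256)]))) (U0 1 2 (P3 4 1 (U1 2 1 (F [(10,81),(3,256),(4,192)]) (P2 1 1 (F [(10,256),(4,7)]) (F [(10,636727),(3,1048576),(4,636652),(8,1048491)]))) (U1 2 1 (F [(10,81),(4,192),(3,256)])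 (P0 1 4 (F [(10,256),(4,251)]) (P2 1 1 (F [(10,245),(4,63),(8,256)]) (P1 2 1 (F [(10,256),(4,5),(8,115)]) (U0 1 4 (U1 4 1 (F [(10,9950),(4,9948),(3,16383),(8,16384)]) (F [(4,636601),(8,1048576),(3,1048392),(10,636708)])) (F [(4,256),(10,100),(3,251)]))))))) (F [(4,251),(10,256)]))) (P3 2 1 (F [(3,256),(4,155)]) (U0 1 2 (P4 4 1 (F [(10,6),(3,256),(4,156)]) (U1 2 1 (F [(10,18),(4,197),(3,256)]) (P0 1 4 (F [(10,256),(4,225)]) (F [(10,636192),(4,636788),(3,1048576),(8,1047563)])))) (F [(4,251),(10,256)])))) (P2 1 1 (P5 1 1 (P4 1 2 (F [(10,227),(8,256),(4,2)]) (U0 1 2 (U1 2 1 (F [(10,636831),(3,1048423),(8,1048576),(4,636600)]) (P3 1 1 (F [(3,16382),(10,9950),(8,16384),(4,9945)]) (F [(3,1048235),(8,1048576),(10,636719),(4,636444)]))) (F [(4,63),(10,245),(8,256)]))) (U0 1 2 (F [(3,1048576),(10,636406),(8,1048107),(4,636595)]) (F [(10,9953),(4,9949),(3,16383),(8,16384)])))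 (U0 1 2 (F [(3,1048576),(8,1048435),(10,636540),(4,636585)]) (F [(4,636626),(3,1048576),(8,1048531),(10,636627)])))))) (P4 1 2 (P2 1 4 (P5 1 4 (F [(8,16384),(10,9952),(4,9923),(3,16350)]) (U0 2 1 (P1 1 2 (F [(10,9951),(3,16384),(4,9946),(8,16379)]) (F [(10,9950),(3,16379),(8,16384),(4,9943)])) (F [(4,9953),(8,16384),(10,9948),(3,16383)]))) (U0 2 1 (P0 1 1 (P5 2 1 (F [(8,16384),(3,16377),(4,9941),(10,9949)]) (P3 1 1 (F [(3,16384),(4,9946),(10,9946),(8,16381)]) (F [(4,9942),(10,9949),(8,16384),(3,16378)]))) (F [(8,16375),(4,9944),(3,16384),(10,9933)])) (F [(4,256),(8,129)]))) (U0 2 1 (P0 1 2 (P5 1 1 (P4 2 1 (P2 1 2 (F [(4,9940),(10,9952),(8,16384),(3,16373)]) (U1 2 1 (F [(4,256),(10,247)]) (U0 1 2 (P0 1 1 (F [(10,9952),(4,9936),(8,16384),(3,16368)]) (F [(4,636622),(8,1048513),(3,1048576),(10,636642)])) (F [(4,9952),(8,16381),(10,9948),(3,16384)]))))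 (U1 2 1 (F [(4,256),(10,247)]) (P3 4 1 (U0 1 2 (P2 1 1 (F [(10,9952),(4,9937),(3,16368),(8,16384)]) (F [(4,636646),(10,636578),(3,1048576),(8,1048370)])) (F [(4,256),(10,98),(3,228)])) (U0 1 2 (P0 1 4 (F [(4,251),(10,256)]) (F [(4,636523),(10,636716),(8,1048576),(3,1048322)])) (F [(4,256)]))))) (P3 2 1 (F [(4,155),(3,256),(8,36)]) (U1 2 1 (F [(4,256),(10,247)]) (P4 4 1 (F [(4,158),(10,7),(3,256)]) (U0 1 2 (P0 1 4 (F [(4,225),(10,256)]) (F [(4,636700),(10,636573),(8,1048310),(3,1048576)])) (F [(4,256)])))))) (P2 1 1 (P5 1 1 (P4 1 2 (F [(4,9943),(8,16384),(10,9950),(3,16379)]) (F [(4,636625),(8,1048486),(10,636609),(3,1048576)])) (F [(4,9946),(3,16384),(8,16361),(10,9928)])) (F [(4,153),(8,164),(3,256)]))) (F [(4,256)]))))) (U0 1 4 (P1 1 2 (F [(3,256),(10,226),(4,256)]) (U1 8 1 (U2 1 1 (F [(10,135),(3,256)]) (P0 1 2 (P3 4 1 (F [(3,256),(10,63)])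 (U0 2 1 (F [(10,256)]) (P4 2 1 (F [(3,256),(10,63)]) (U2 2 1 (F [(10,34),(3,256),(4,171)]) (P0 1 4 (F [(10,229),(3,45),(4,256)]) (F [(3,1048576),(10,636284),(4,636702),(8,1047658)])))))) (F [(3,256),(10,63)]))) (U0 1 8 (F [(3,256),(10,135)]) (P0 1 2 (P3 4 1 (F [(3,256),(8,110)]) (U2 2 1 (F [(3,256),(10,135)]) (P4 2 1 (F [(3,256),(8,110)]) (U0 2 1 (F [(3,256),(10,135)]) (P0 1 4 (F [(10,256),(3,66),(4,154)]) (F [(3,16384),(10,9947),(8,16379),(4,9947)])))))) (F [(3,256),(8,247)]))))) (F [(4,256),(3,250),(8,45)])))) (U1 4 1 (F [(4,183),(10,27),(3,256)]) (U0 1 4 (P0 1 1 (P5 2 1 (U1 8 1 (U2 1 1 (F [(3,256),(10,61),(4,125)]) (P4 2 1 (F [(3,256),(10,27),(4,88)]) (P3 4 1 (F [(3,256),(10,27),(4,88)]) (P0 1 2 (U0 2 1 (F [(10,256),(4,7)]) (U2 2 1 (F [(10,34),(4,171),(3,256)]) (P4 4 1 (F [(3,1048576),(10,636284),(4,636702),(8,1047658)]) (F [(10,222),(4,256),(3,43)]))))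 (F [(3,256),(10,16),(4,115)]))))) (U0 1 8 (F [(3,256),(10,24)]) (P4 2 1 (F [(3,256),(8,247)]) (P3 4 1 (F [(3,256),(8,123),(4,25)]) (P0 1 2 (U2 2 1 (F [(10,24),(3,256)]) (U0 2 1 (F [(3,256),(10,24)]) (P4 4 1 (F [(3,1048576),(10,636306),(8,1047702),(4,636698)]) (F [(10,636308),(3,1048576),(4,636798),(8,1047343)])))) (F [(3,256),(8,66),(4,114)])))))) (F [(3,256),(10,81),(4,192)])) (F [(3,256),(4,115),(10,16)])) (F [(4,256),(8,82),(3,219)])))) (F [(4,192),(10,81),(3,256)]))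

def c70 : Cell := ⟨⟨293,731,0⟩, ⟨73,183,0⟩, ⟨292,731,1⟩, ⟨12118,8458,7363,4829⟩, ⟨12118,8460,7362,4828⟩, ⟨24234,16918,14727,9657⟩, ⟨6058,4230,3681,2415⟩⟩

def t70 : Tr :=
  U1 4 1 (F [(4,256),(10,234),(3,23)]) (U0 1 4 (P2 1 2 (P4 1 2 (F [(3,256),(10,196),(8,220)]) (U1 8 1 (U2 1 1 (F [(10,227),(3,256),(8,208)]) (P3 2 1 (F [(3,256),(10,176),(8,187)]) (P0 1 2 (U0 2 1 (F [(10,256)]) (P4 2 1 (F [(10,196),(3,256),(8,220)]) (U2 2 1 (F [(10,9958),(3,16382),(4,9937),(8,16384)]) (P3 4 1 (P5 1 1 (F [(10,209),(8,256),(4,56)]) (U0 4 1 (F [(10,9951),(3,16379),(8,16384),(4,9944)]) (P0 2 1 (U2 4 1 (F [(10,9950),(3,16381),(8,16384),(4,9946)]) (F [(10,636734),(3,1048351),(8,1048576),(4,636518)])) (F [(8,256),(10,101),(3,168)])))) (F [(10,256),(8,186),(4,148)]))))) (F [(10,196),(3,256),(8,220)])))) (F [(3,39),(10,133),(8,256)]))) (U1 8 1 (P0 1 1 (U2 1 1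 (P3 2 1 (F [(10,636751),(8,1048576),(3,1047817),(4,636144)]) (F [(10,256),(8,142),(4,61)])) (P3 2 1 (U0 2 1 (F [(8,1048576),(3,1047774),(10,636773),(4,636068)]) (P4 1 2 (F [(8,256),(3,86)]) (P1 1 1 (F [(8,1048576),(3,1048390),(10,636641),(4,636351)]) (F [(8,16384),(4,9943),(3,16376),(10,9948)])))) (P4 2 1 (F [(8,1048576),(10,636689),(3,1047907),(4,636158)]) (U0 2 1 (F [(10,256),(8,192),(4,4)]) (P0 1 2 (U2 2 1 (F [(10,636930),(4,636461),(8,1048576),(3,1048170)]) (P3 4 1 (U0 4 1 (F [(10,9950),(8,16384),(3,16376),(4,9943)]) (P4 1 2 (F [(8,256),(3,86)]) (P1 1 1 (U2 4 1 (F [(10,636785),(8,1048576),(4,636560),(3,1048374)]) (F [(8,16384),(3,16381),(10,9949),(4,9946)])) (F [(8,255),(4,105),(10,256)])))) (F [(10,256),(8,186),(4,148)]))) (F [(8,1048576),(4,636176),(10,636654),(3,1047797)])))))) (F [(8,16384),(4,9933),(3,16363),(10,9942)])) (F [(8,256),(3,39),(10,133)])))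 (U2 2 1 (P2 1 2 (P4 1 2 (P5 1 4 (F [(10,155),(8,256)]) (U1 1 1 (P3 1 1 (U2 1 2 (F [(10,9948),(8,16384),(3,16372),(4,9939)]) (F [(8,16384),(4,9927),(10,9942),(3,16352)])) (F [(10,256),(8,189),(4,63)])) (F [(8,256),(3,48),(10,90)]))) (U1 1 1 (P3 2 1 (P5 1 1 (F [(10,256),(4,76),(8,139)]) (F [(4,9942),(8,16384),(10,9948),(3,16372)])) (F [(10,256),(4,74),(8,148)])) (P3 2 1 (P5 1 1 (P0 2 1 (P4 1 2 (F [(10,155),(8,256)]) (U0 1 2 (U1 2 1 (F [(8,16384),(10,9950),(4,9944),(3,16376)]) (F [(8,16384),(3,16374),(10,9948),(4,9942)])) (F [(4,56),(8,256),(10,209)]))) (F [(8,256),(10,155)])) (P0 2 1 (F [(8,1048576),(4,636448),(3,1048313),(10,636562)]) (F [(8,256),(3,48),(10,90)]))) (P0 1 2 (P4 2 1 (P5 1 2 (F [(10,256),(4,4),(8,192)]) (U0 1 2 (U1 2 1 (F [(10,636919),(4,636560),(8,1048576),(3,1048235)]) (P3 1 1 (F [(8,16384),(4,9941),(10,9948),(3,16373)])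 (F [(10,256),(8,151),(4,4)]))) (F [(4,256),(10,247)]))) (U0 1 2 (U1 2 1 (F [(10,636919),(4,636560),(8,1048576),(3,1048235)]) (P3 4 1 (P5 1 1 (F [(10,139),(4,40),(8,256)]) (P0 2 1 (U0 1 4 (U1 4 1 (F [(4,636594),(10,636760),(8,1048576),(3,1048359)]) (F [(8,16384),(4,9942),(10,9947),(3,16372)])) (F [(4,9950),(8,16384),(10,9951),(3,16382)])) (F [(8,16384),(4,9941),(10,9948),(3,16373)]))) (F [(4,215),(10,256),(8,219)]))) (F [(4,256),(10,247)]))) (P1 2 1 (P5 1 2 (F [(10,227),(8,256),(4,2)]) (U0 1 2 (U1 2 1 (F [(8,1048576),(4,636449),(10,636811),(3,1048131)]) (F [(8,16384),(4,9942),(10,9948),(3,16374)])) (F [(4,148),(8,186),(10,256)]))) (F [(8,256),(10,161)])))))) (P0 1 1 (U1 1 1 (P3 2 1 (F [(4,9942),(8,16384),(10,9948),(3,16372)]) (F [(4,74),(8,148),(10,256)])) (P3 2 1 (P4 1 2 (F [(8,256),(3,86)]) (F [(4,40737373),(8,67108864),(3,67091770),(10,40737464)]))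 (P4 2 1 (F [(8,1048576),(4,636298),(10,636643),(3,1047952)]) (F [(4,637813),(8,1048576),(10,635927),(3,1047539)])))) (F [(8,16384),(4,9936),(10,9941),(3,16365)]))) (F [(4,31),(8,256),(10,94)])))

def c71 : Cell := ⟨⟨293,731,0⟩, ⟨584,1463,1⟩, ⟨292,731,1⟩, ⟨12118,8458,7363,4829⟩, ⟨12118,8460,7362,4828⟩, ⟨12118,8458,7365,4827⟩, ⟨24234,16918,14727,9657⟩⟩

def t71 : Tr :=
  F [(4,256),(10,215),(3,55)]

theorem g5 : ∀ c ∈ [c60, c61, c62, c63, c64, c65, c66, c67, c68, c69, c70, c71], Done D c := by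
  intro c hc
  simp only [List.mem_cons, List.not_mem_nil, or_false] at hc
  rcases hc with rfl | rfl | rfl | rfl | rfl | rfl | rfl | rfl | rfl | rfl | rfl | rfl
  · exact done_of_chk (t := t60) (by decide +kernel)
  · exact done_of_chk (t := t61) (by decide +kernel)
  · exact done_of_chk (t := t62) (by decide +kernel)
  · exact done_of_chk (t := t63) (by decide +kernel)
  · exact done_of_chk (t := t64) (by decide +kernel)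
  · exact done_of_chk (t := t65) (by decide +kernel)
  · exact done_of_chk (t := t66) (by decide +kernel)
  · exact done_of_chk (t := t67) (by decide +kernel)
  · exact done_of_chk (t := t68) (by decide +kernel)
  · exact done_of_chk (t := t69) (by decide +kernel)
  · exact done_of_chk (t := t70) (by decide +kernel)
  · exact done_of_chk (t := t71) (by decide +kernel)

end Pool.Agent.W2helper59.NW.I0
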