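import Pool.Agent.W2helper59.NW.D_I0

set_option autoImplicit false
set_option maxRecDepth 1000000

namespace Pool.Agent.W2helper59.NW.I0

open Tr

def c72 : Cell := ⟨⟨585,1463,0⟩, ⟨73,183,0⟩, ⟨584,1463,1⟩, ⟨12118,8458,7363,4829⟩, ⟨24236,16918,14727,9655⟩, ⟨12118,8458,7365,4827⟩, ⟨24234,16918,14727,9657⟩⟩

def t72 : Tr :=
  F [(8,140),(3,256),(4,153)]

def c73 : Cell := ⟨⟨585,1463,0⟩, ⟨1168,2927,1⟩, ⟨584,1463,1⟩, ⟨12118,8458,7363,4829⟩, ⟨12118,8460,7362,4828⟩, ⟨24236,16918,14727,9655⟩, ⟨24234,16918,14727,9657⟩⟩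

def t73 : Tr :=
  P0 1 1 (U2 1 1 (P4 2 1 (P1 1 1 (F [(3,1048576),(4,636843),(10,636769),(8,1048361)]) (F [(10,636815),(4,636532),(8,1048576),(3,1048189)])) (P3 2 1 (P1 1 1 (F [(4,9957),(10,9958),(3,16384),(8,16378)]) (F [(4,9922),(10,9974),(8,16384),(3,16318)])) (F [(10,256),(4,80),(8,125)]))) (P4 2 1 (U0 2 1 (P1 1 1 (F [(3,1048576),(8,1048402),(10,636617),(4,636727)]) (F [(3,1047895),(8,1048576),(10,636634),(4,636227)])) (P1 1 1 (F [(8,36),(3,256),(4,155)]) (P2 1 1 (F [(8,16374),(3,16384),(4,9948),(10,9939)]) (F [(8,1048576),(4,636429),(3,1048217),(10,636564)])))) (P3 2 1 (U0 2 1 (P1 1 1 (F [(3,1048576),(10,636634),(4,636740),(8,1048398)]) (U1 1 1 (P0 2 1 (F [(4,636646),(10,636765),(8,1048576),(3,1048428)]) (F [(8,16384),(4,9943),(10,9948),(3,16376)])) (F [(10,636759),(3,1048133),(8,1048576),(4,636085)]))) (P1 1 1 (F [(4,155),(8,36),(3,256)]) (U2 2 1 (P0 2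 1 (P5 1 1 (P4 1 1 (F [(4,40740554),(8,67108864),(10,40748262),(3,67094651)]) (F [(4,636770),(8,1048513),(10,636627),(3,1048576)])) (F [(4,153),(8,164),(3,256)])) (F [(4,636369),(8,1048576),(10,636588),(3,1048118)])) (F [(8,171),(4,109),(3,256)])))) (U0 2 1 (P0 1 2 (F [(10,256),(4,7)]) (U1 1 1 (P1 2 1 (F [(10,9953),(4,9947),(8,16384),(3,16380)]) (F [(8,236),(4,3),(10,256)])) (F [(10,201),(3,185),(8,256)]))) (P0 1 2 (U2 2 1 (F [(10,637280),(4,636936),(8,1048547),(3,1048576)]) (P4 4 1 (U0 4 1 (P5 1 1 (P2 1 1 (U1 1 1 (F [(10,636797),(3,1048497),(8,1048576),(4,636663)]) (F [(3,256),(10,196),(8,220)])) (P1 2 1 (U1 1 1 (P3 1 1 (F [(4,636641),(10,636727),(8,1048576),(3,1048448)]) (F [(10,256),(4,4),(8,192)])) (F [(10,636711),(3,1048192),(8,1048576),(4,636258)])) (F [(10,202),(8,256),(4,1)]))) (P1 1 1 (P3 1 2 (F [(4,9950),(10,9949),(3,16384),(8,16383)]) (U1 1 1 (P4 1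 1 (F [(4,636735),(10,636763),(3,1048530),(8,1048576)]) (F [(10,256),(4,61),(8,142)])) (P4 1 1 (F [(10,636758),(3,1048482),(4,636680),(8,1048576)]) (F [(10,256),(4,61),(8,142)])))) (P2 2 1 (U1 1 1 (P4 1 1 (F [(4,636730),(8,1048576),(10,636761),(3,1048524)]) (F [(4,3),(10,256),(8,236)])) (P4 1 1 (F [(10,636752),(3,1048469),(8,1048576),(4,636666)]) (F [(10,256),(8,240)]))) (F [(10,245),(4,63),(8,256)])))) (P5 1 1 (P2 1 1 (U2 4 1 (P4 1 2 (F [(8,1048576),(4,636594),(3,1048445),(10,636641)]) (P3 1 1 (F [(4,636648),(8,1048576),(10,636687),(3,1048495)]) (F [(10,636806),(4,636637),(8,1048576),(3,1048420)]))) (P4 1 2 (F [(8,180),(3,256),(4,107)]) (P3 1 1 (F [(8,171),(4,109),(3,256)]) (F [(8,1048576),(4,636608),(3,1048471),(10,636746)])))) (P1 2 1 (U2 4 1 (P3 1 1 (F [(4,636677),(8,1048576),(10,636715),(3,1048497)]) (F [(4,636655),(8,1048576),(10,636816),(3,1048412)])) (P3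 1 1 (F [(8,180),(4,107),(3,256)]) (U0 8 1 (F [(8,1048576),(4,636644),(10,636794),(3,1048422)]) (F [(4,636680),(8,1048576),(3,1048483),(10,636749)])))) (F [(4,105),(8,255),(10,256)]))) (P1 1 1 (P3 1 2 (F [(4,256),(8,45),(3,250)]) (U2 4 1 (P4 1 1 (F [(4,636768),(8,1048576),(10,636776),(3,1048560)]) (F [(4,87),(10,256),(8,100)])) (P4 1 1 (F [(4,636751),(8,1048561),(3,1048576),(10,636706)]) (U0 8 1 (P0 1 1 (F [(4,256),(10,114),(3,228)]) (F [(4,636721),(8,1048576),(10,636759),(3,1048508)])) (F [(4,256),(10,98),(3,228)]))))) (P2 2 1 (U2 4 1 (P4 1 1 (F [(4,636741),(8,1048576),(10,636741),(3,1048548)]) (F [(4,9949),(8,16384),(10,9951),(3,16382)])) (P4 1 1 (F [(4,636705),(8,1048508),(3,1048576),(10,636571)]) (U0 8 1 (P3 1 1 (F [(4,636721),(8,1048576),(10,636759),(3,1048508)]) (F [(4,636644),(8,1048576),(10,636794),(3,1048422)])) (F [(4,9950),(8,16384),(10,9950),(3,16383)]))))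 (F [(4,134),(8,208),(10,256)]))))) (F [(10,233),(4,256),(3,24)]))) (U2 2 1 (P1 2 1 (P5 1 1 (P4 1 1 (F [(4,40740544),(10,40748524),(8,67108864),(3,67094454)]) (F [(4,636622),(8,1048576),(10,636839),(3,1048290)])) (F [(4,636753),(8,1048576),(10,636946),(3,1048370)])) (F [(4,9943),(8,16384),(10,9949),(3,16375)])) (P1 2 1 (U0 4 1 (P5 1 1 (P4 1 1 (P2 1 2 (F [(3,1048474),(8,1048576),(10,636755),(4,636642)]) (U1 1 1 (F [(8,16384),(4,9946),(3,16380),(10,9947)]) (F [(8,1048576),(3,1048358),(10,636654),(4,636498)]))) (P3 2 1 (U1 1 1 (F [(4,9946),(8,16384),(10,9947),(3,16380)]) (F [(8,1048576),(10,636638),(3,1048318),(4,636514)])) (F [(8,256),(10,155)]))) (P3 1 1 (F [(4,636799),(8,1048576),(3,1048554),(10,636751)]) (P4 2 1 (U1 1 1 (F [(4,256),(8,93),(3,192)]) (F [(8,1048576),(4,636666),(10,636731),(3,1048461)])) (F [(4,56),(8,256),(10,209)])))) (F [(4,150),(8,256),(3,254)]))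 (F [(8,256),(4,7),(3,126)])))))))) (F [(8,1048576),(4,636261),(3,1047886),(10,636194)])

def c74 : Cell := ⟨⟨585,1463,0⟩, ⟨73,183,0⟩, ⟨1168,2927,1⟩, ⟨12118,8458,7363,4829⟩, ⟨12118,8460,7362,4828⟩, ⟨24236,16918,14727,9655⟩, ⟨24234,16918,14727,9657⟩⟩

def t74 : Tr :=
  P0 1 1 (U0 1 8 (F [(3,256),(10,108),(8,253)]) (P4 2 1 (F [(3,229),(8,256),(10,17)]) (P3 2 1 (F [(3,256),(8,183),(4,41)]) (U2 2 1 (F [(10,108),(3,256),(8,253)]) (P0 1 2 (U0 2 1 (F [(3,256),(10,196),(8,220)]) (P4 4 1 (U2 4 1 (P5 1 1 (F [(3,168),(10,101),(8,256)]) (P1 1 1 (P3 1 2 (U1 1 1 (U2 1 2 (F [(3,78),(10,256),(4,54)]) (P1 1 2 (F [(3,256),(4,155)]) (F [(3,1048549),(10,636781),(8,1048576),(4,636755)]))) (P1 1 2 (F [(3,256),(4,155)]) (F [(3,1048534),(10,636716),(8,1048576),(4,636703)]))) (U1 1 1 (P4 1 1 (U2 1 2 (F [(10,256),(4,5)]) (P2 1 1 (F [(3,256),(8,101),(4,92)]) (F [(3,1048433),(10,636802),(8,1048576),(4,636659)])))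 (F [(10,256),(8,142),(4,61)])) (P4 1 1 (P2 1 1 (F [(3,256),(8,93),(4,115)]) (U0 1 2 (F [(3,256),(8,247)]) (P0 2 1 (F [(3,16383),(10,9949),(8,16384),(4,9948)]) (F [(3,1048519),(10,636720),(8,1048576),(4,636693)])))) (P0 1 1 (F [(3,84),(10,256)]) (U0 1 2 (F [(3,256),(8,247)]) (P2 2 1 (F [(10,256),(8,151),(4,4)]) (U2 1 1 (F [(3,110),(10,183),(8,256)]) (P0 2 1 (F [(10,256),(8,151),(4,4)]) (F [(3,1048519),(10,636720),(8,1048576),(4,636693)]))))))))) (F [(10,96),(3,118),(8,256)]))) (P5 1 1 (P2 1 1 (F [(3,1048576),(8,1048494),(10,636532),(4,636433)]) (P1 2 1 (U0 4 1 (F [(3,168),(8,256),(10,101)]) (P3 1 1 (F [(8,256),(3,240)]) (F [(8,16384),(3,16378),(4,9939),(10,9945)]))) (F [(8,256),(10,221),(4,29)]))) (P1 1 1 (P3 1 2 (F [(8,140),(3,256),(4,153)]) (U0 4 1 (P4 1 1 (F [(3,1048576),(8,1048516),(10,636568),(4,636698)]) (P0 1 1 (F [(3,256),(10,196),(8,220)]) (U1 2 1 (P2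 2 1 (F [(3,16383),(10,9949),(8,16384),(4,9946)]) (U2 1 1 (P0 2 1 (F [(3,1048530),(10,636770),(8,1048576),(4,636708)]) (F [(8,1048576),(3,1048521),(4,636694),(10,636719)])) (F [(8,256),(3,229),(10,17)]))) (F [(3,252),(8,256)])))) (P4 1 1 (F [(8,1048576),(4,636721),(3,1048557),(10,636698)]) (U2 8 1 (P0 1 1 (F [(3,1048576),(10,636775),(8,1048539),(4,636732)]) (P2 2 1 (F [(3,67108401),(8,67108864),(4,40750359),(10,40753088)]) (U1 1 1 (F [(4,636762),(8,1048576),(3,1048549),(10,636772)]) (F [(8,256),(4,62),(3,216)])))) (P0 1 1 (F [(8,1048542),(4,636699),(3,1048576),(10,636689)]) (F [(4,150),(8,256),(3,254)])))))) (P2 2 1 (U0 4 1 (F [(3,118),(8,256),(10,96)]) (P4 1 1 (F [(8,256),(3,128),(10,80)]) (U2 8 1 (P3 1 1 (F [(8,16384),(4,9934),(3,16370),(10,9943)]) (F [(8,16384),(3,16381),(10,9949),(4,9946)])) (F [(8,16384),(4,9946),(3,16380),(10,9948)])))) (F [(8,256),(4,20),(10,201)])))))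 (P3 4 1 (U2 4 1 (P1 1 1 (P5 2 1 (U1 1 1 (F [(10,256),(8,125),(4,80)]) (P2 1 1 (F [(10,256),(3,84)]) (U0 1 2 (F [(3,116),(10,174),(8,256)]) (P0 1 1 (F [(10,256),(4,5)]) (U2 1 1 (F [(10,183),(3,110),(8,256)]) (P2 2 1 (F [(10,256),(8,114),(4,5)]) (P1 2 1 (F [(10,636823),(3,1048504),(8,1048576),(4,636703)]) (F [(8,1048576),(10,636804),(4,636635),(3,1048391)])))))))) (U1 1 1 (P3 1 2 (U2 1 2 (F [(10,256),(3,78),(4,54)]) (P1 1 2 (F [(3,256),(4,155)]) (F [(10,636826),(3,1048560),(4,636791),(8,1048576)]))) (F [(10,256),(4,80),(8,125)])) (P3 1 2 (P1 1 2 (F [(3,256),(4,155)]) (U0 1 2 (F [(3,256),(8,189)]) (F [(3,67108864),(10,40751901),(8,67108705),(4,40752570)]))) (U0 1 2 (F [(3,256),(10,108),(8,253)]) (P0 1 1 (F [(10,256),(3,78),(4,54)]) (U2 1 1 (F [(3,185),(10,201),(8,256)]) (P1 2 1 (F [(10,71),(3,256),(4,157)]) (P2 2 1 (F [(10,42),(3,256),(4,157)]) (F [(4,636715),(8,1048576),(10,636778),(3,1048504)])))))))))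 (F [(10,227),(8,256),(4,2)])) (P1 1 1 (P5 2 1 (U0 4 1 (P2 1 1 (F [(3,256),(10,149),(8,141)]) (U1 2 1 (P0 1 1 (U2 1 1 (F [(10,256),(3,74),(4,88)]) (P3 2 1 (U0 2 1 (P4 1 2 (P5 1 1 (F [(3,16382),(10,9950),(8,16384),(4,9948)]) (F [(3,1048576),(10,636779),(8,1048565),(4,636758)])) (F [(3,1048576),(10,636779),(8,1048565),(4,636758)])) (P4 1 2 (P5 1 1 (F [(3,1048515),(8,1048576),(10,636761),(4,636714)]) (F [(3,1048576),(8,1048552),(10,636748),(4,636758)])) (F [(3,1048576),(10,636748),(4,636758),(8,1048552)]))) (P4 2 1 (U0 2 1 (F [(10,256),(8,192),(4,4)]) (F [(10,636779),(3,1048542),(8,1048576),(4,636730)])) (U0 2 1 (F [(10,256),(4,4),(8,192)]) (F [(10,636789),(3,1048565),(4,636764),(8,1048576)]))))) (U2 1 1 (P2 2 1 (P5 1 1 (F [(10,9950),(3,16382),(8,16384),(4,9948)]) (F [(10,636779),(3,1048538),(8,1048576),(4,636731)])) (P1 2 1 (F [(3,1048538),(10,636779),(4,636731),(8,1048576)])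 (F [(8,1048576),(4,636613),(10,636759),(3,1048337)]))) (U0 2 1 (P2 2 1 (P5 1 1 (F [(3,16382),(8,16384),(10,9950),(4,9948)]) (F [(3,1048559),(10,636757),(8,1048576),(4,636739)])) (P1 2 1 (F [(3,1048559),(8,1048576),(10,636757),(4,636739)]) (F [(8,256),(3,23),(10,125)]))) (F [(8,1048576),(4,636669),(3,1048487),(10,636551)])))) (P0 1 1 (U0 1 2 (F [(3,256),(10,63)]) (P3 2 1 (F [(3,223),(10,25),(8,256)]) (P4 2 1 (F [(3,223),(10,25),(8,256)]) (U2 2 1 (F [(10,174),(3,116),(8,256)]) (F [(3,1048576),(10,636735),(8,1048525),(4,636747)]))))) (F [(3,118),(8,256),(10,86)])))) (U2 8 1 (P2 1 1 (F [(10,636775),(3,1048576),(4,636732),(8,1048539)]) (P0 1 1 (U1 1 1 (F [(4,636753),(10,636794),(8,1048576),(3,1048557)]) (P3 2 1 (F [(4,636747),(8,1048576),(3,1048569),(10,636746)]) (F [(4,636751),(10,636784),(8,1048576),(3,1048556)]))) (U1 1 1 (F [(4,636762),(8,1048576),(10,636772),(3,1048549)])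 (F [(4,636724),(8,1048576),(3,1048533),(10,636711)])))) (P2 1 1 (P4 1 1 (F [(4,636710),(8,1048524),(10,636697),(3,1048576)]) (F [(4,636753),(8,1048554),(10,636742),(3,1048576)])) (F [(4,636762),(8,1048528),(3,1048576),(10,636704)])))) (U0 4 1 (P3 1 2 (F [(3,256),(8,140),(4,153)]) (U1 2 1 (P0 1 1 (U2 1 1 (F [(10,256),(3,215),(4,244)]) (P4 2 1 (U0 2 1 (F [(3,1048576),(10,636748),(4,636758),(8,1048529)]) (F [(3,1048576),(4,636757),(10,636701),(8,1048525)])) (P3 2 1 (U0 2 1 (F [(3,1048576),(10,636748),(4,636758),(8,1048529)]) (F [(4,636757),(3,1048576),(10,636697),(8,1048522)])) (F [(10,636806),(3,1048576),(4,636792),(8,1048570)])))) (U2 1 1 (P1 2 1 (F [(4,192),(3,256),(10,81)]) (P2 2 1 (F [(4,636778),(3,1048576),(10,636739),(8,1048468)]) (U1 1 2 (F [(4,256),(8,45),(3,250)]) (P0 2 1 (F [(4,40752888),(8,67108864),(3,67107464),(10,40754136)]) (F [(8,256),(4,47),(3,84)])))))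 (P1 2 1 (U0 2 1 (P3 1 1 (F [(3,256),(4,132),(8,88)]) (P4 1 1 (F [(3,256),(4,140),(8,58)]) (U1 1 1 (F [(4,636779),(3,1048576),(8,1048556),(10,636756)]) (F [(3,1048568),(10,636760),(8,1048576),(4,636746)])))) (F [(4,150),(3,254),(8,256)])) (U0 2 1 (P2 2 1 (P4 1 1 (F [(3,256),(8,88),(4,132)]) (U1 1 1 (F [(4,636770),(8,1048576),(3,1048573),(10,636763)]) (F [(3,1048501),(8,1048576),(10,636745),(4,636699)]))) (P0 2 1 (U1 1 1 (F [(4,190),(8,256)]) (F [(8,1048576),(3,1048432),(4,636650),(10,636731)])) (F [(8,256),(3,114)]))) (F [(8,256),(4,150),(3,254)]))))) (P0 1 1 (U0 1 2 (F [(3,256),(10,63)]) (P4 2 1 (F [(3,230),(10,21),(8,256)]) (P3 2 1 (F [(3,1048576),(10,636643),(4,636670),(8,1048496)]) (U2 2 1 (F [(10,9950),(3,16384),(4,9949),(8,16384)]) (F [(3,1048576),(10,636755),(4,636758),(8,1048541)]))))) (F [(3,230),(8,256),(10,21)])))) (F [(4,256),(8,45),(3,250)]))) (U0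 4 1 (P0 2 1 (P5 1 1 (F [(10,256),(3,101),(8,226)]) (U1 2 1 (P3 1 1 (F [(8,256),(10,155)]) (F [(10,636924),(4,636591),(8,1048576),(3,1048119)])) (P3 1 1 (F [(8,256),(10,155)]) (U0 1 2 (F [(10,196),(3,256),(8,220)]) (P4 2 1 (F [(10,44),(3,191),(8,256)]) (P0 1 2 (U2 2 1 (F [(10,227),(8,256),(4,2)]) (P3 2 1 (F [(10,636779),(3,1048525),(8,1048576),(4,636721)]) (F [(10,256),(4,55)]))) (F [(10,96),(8,256),(3,118)]))))))) (F [(8,256),(10,162),(3,26)])) (P0 2 1 (U2 8 1 (P5 1 1 (F [(10,256),(4,3),(8,223)]) (F [(4,636729),(8,1048576),(10,636793),(3,1048452)])) (P5 1 1 (F [(4,46),(8,253),(10,256)]) (F [(4,636765),(8,1048576),(10,636759),(3,1048551)]))) (F [(8,256),(4,20),(10,201)]))))) (F [(10,256),(8,125),(4,80)])))) (U0 2 1 (F [(3,256),(8,253),(10,108)]) (P1 2 1 (U2 4 1 (P5 1 1 (F [(8,256),(3,164),(10,59)]) (P3 1 1 (U1 1 1 (P1 1 2 (F [(3,67108864),(10,40750004),(8,67106667),(4,40752764)])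 (F [(8,256),(3,118),(10,86)])) (F [(8,256),(3,216),(4,62)])) (F [(8,256),(3,118),(10,86)]))) (F [(8,256),(4,102),(3,211)])) (F [(8,256),(3,118),(10,86)])))))))) (F [(8,256),(3,223)])

def c75 : Cell := ⟨⟨293,731,0⟩, ⟨585,1463,0⟩, ⟨584,1463,1⟩, ⟨12118,8458,7363,4829⟩, ⟨12118,8460,7362,4828⟩, ⟨12118,8458,7365,4827⟩, ⟨24234,16918,14727,9657⟩⟩

def t75 : Tr :=
  F [(4,256),(8,82),(3,219)]

def c76 : Cell := ⟨⟨293,731,0⟩, ⟨584,1463,1⟩, ⟨292,731,1⟩, ⟨12118,8458,7363,4829⟩, ⟨6060,4230,3681,2413⟩, ⟨12118,8458,7365,4827⟩, ⟨12118,8460,7362,4828⟩⟩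

def t76 : Tr :=
  F [(4,256),(10,74)]

def c77 : Cell := ⟨⟨585,1463,0⟩, ⟨1168,2927,1⟩, ⟨584,1463,1⟩, ⟨48474,33834,29453,19311⟩, ⟨48474,33838,29451,19309⟩, ⟨24236,16918,14727,9655⟩, ⟨12118,8460,7362,4828⟩⟩

def t77 : Tr :=
  U2 1 1 (F [(4,637376),(10,637323),(8,1048546),(3,1048576)]) (P2 1 4 (P5 1 2 (F [(4,256),(10,215),(3,55)]) (F [(4,636821),(8,1048020),(3,1048576),(10,636300)])) (F [(4,40756563),(8,67098741),(3,67108864),(10,40731532)]))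

def c78 : Cell := ⟨⟨1169,2927,0⟩, ⟨73,183,0⟩, ⟨1168,2927,1⟩, ⟨48474,33834,29453,19311⟩, ⟨48474,33838,29451,19309⟩, ⟨24236,16918,14727,9655⟩, ⟨12118,8460,7362,4828⟩⟩

def t78 : Tr :=
  F [(3,16384),(10,9946),(8,16383),(4,9938)]

def c79 : Cell := ⟨⟨2338,5853,1⟩, ⟨1169,2927,0⟩, ⟨1168,2927,1⟩, ⟨96946,67674,58901,38623⟩, ⟨48474,33838,29451,19309⟩, ⟨48472,33838,29451,19311⟩, ⟨12118,8460,7362,4828⟩⟩

def t79 : Tr :=
  P4 1 4 (F [(10,636957),(3,1048198),(8,1048576),(4,636532)]) (F [(10,9949),(3,16384),(4,9950),(8,16382)])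

def c80 : Cell := ⟨⟨585,1463,0⟩, ⟨1169,2927,0⟩, ⟨2338,5853,1⟩, ⟨96946,67674,58901,38623⟩, ⟨48474,33838,29451,19309⟩, ⟨48472,33838,29451,19311⟩, ⟨12118,8460,7362,4828⟩⟩

def t80 : Tr :=
  P4 1 4 (U0 2 1 (P2 1 8 (F [(10,256),(3,211)]) (U1 2 1 (P0 1 1 (U2 1 1 (F [(10,256),(3,215),(4,245)]) (P3 1 2 (P5 4 1 (U0 2 1 (F [(10,9952),(3,16383),(8,16384),(4,9950)]) (P4 1 1 (P2 1 1 (F [(10,184),(3,116),(8,256)]) (F [(3,1048544),(10,636766),(8,1048576),(4,636755)])) (F [(3,256),(8,36),(4,155)]))) (F [(3,16384),(10,9940),(8,16370),(4,9950)])) (U0 2 1 (F [(10,9952),(3,16383),(4,9950),(8,16384)]) (P4 2 1 (P5 1 1 (P2 1 1 (F [(10,183),(3,110),(8,256)]) (U2 2 1 (F [(10,636845),(3,1048576),(4,636835),(8,1048571)]) (P0 2 1 (F [(10,9950),(3,16384),(8,16384),(4,9949)]) (F [(10,636762),(3,1048564),(8,1048576),(4,636764)])))) (F [(10,9880),(3,16384),(4,9950),(8,16271)])) (F [(10,9880),(3,16384),(4,9950),(8,16271)])))))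 (U2 1 1 (P5 4 1 (F [(10,636810),(8,1048576),(3,1048357),(4,636645)]) (F [(3,1048576),(10,636697),(8,1048517),(4,636779)])) (P5 4 1 (F [(8,1048576),(3,1048328),(10,636743),(4,636585)]) (F [(3,1048576),(8,1048512),(10,636669),(4,636767)])))) (P0 1 1 (U0 1 2 (F [(3,256),(10,63)]) (P3 1 2 (F [(3,242),(10,14),(8,256)]) (U2 2 1 (F [(3,256)]) (P4 2 1 (P5 1 1 (P2 1 1 (F [(10,174),(3,116),(8,256)]) (U0 2 1 (F [(3,256)]) (P0 2 1 (F [(10,636800),(3,1048551),(8,1048576),(4,636769)]) (F [(3,256),(8,247)])))) (F [(3,256),(8,18),(4,144)])) (F [(3,256),(8,18),(4,144)]))))) (F [(3,242),(10,14),(8,256)])))) (P2 1 8 (P5 1 4 (F [(10,256),(4,80),(8,125)]) (U2 4 1 (U1 1 1 (F [(10,226),(4,256),(3,256)]) (P3 1 2 (P1 1 4 (F [(3,256),(4,155)]) (P0 1 1 (F [(10,42),(3,256),(4,157)]) (U0 1 2 (U1 2 1 (F [(10,226),(3,256),(4,256)]) (P5 1 4 (F [(10,256),(4,7)]) (P1 2 1 (U0 1 4 (F [(3,256),(10,227),(8,208)])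 (F [(3,67108522),(10,40754743),(8,67108864),(4,40753721)])) (F [(10,256),(8,113),(4,5)])))) (F [(10,139),(4,256),(3,184)])))) (F [(10,256),(3,78),(4,54)]))) (U0 4 1 (P3 1 2 (P1 1 4 (F [(4,155),(3,256)]) (P0 1 1 (F [(4,155),(3,256)]) (U1 2 1 (F [(4,256),(10,90),(3,144)]) (U0 1 2 (P5 1 4 (P2 1 2 (F [(10,154),(3,256),(4,224)]) (P1 4 1 (P4 1 1 (F [(10,256),(8,54)]) (U1 4 1 (U2 1 1 (F [(10,256),(4,114)]) A) A)) (P0 2 1 (P4 1 1 (F [(10,256),(8,142),(4,61)]) (U1 4 1 (F [(10,256),(4,193),(8,116)]) A)) (F [(10,161),(8,256)])))) (P1 2 1 (U1 4 1 (U2 1 1 (P3 1 1 (P1 1 2 (F [(3,256),(4,154),(8,81)]) (P4 1 1 (P2 1 1 (F [(3,256),(4,155),(8,8)]) (P0 2 1 (F [(3,256),(4,155)]) (F [(4,636753),(8,1048576),(10,636773),(3,1048543)]))) (P0 1 1 (F [(4,153),(3,256),(8,140)]) (P2 2 1 (F [(3,256),(4,155),(8,36)]) (F [(4,636764),(8,1048576),(10,636773),(3,1048550)]))))) (P4 2 1 (P5 1 1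 (P2 1 1 (F [(10,256),(3,84)]) (P1 2 1 (F [(3,256),(4,155)]) (F [(10,636832),(3,1048536),(4,636781),(8,1048576)]))) (P1 1 1 (F [(3,256),(4,154),(8,106)]) (P2 2 1 (F [(3,256),(4,155),(8,36)]) (F [(4,40753705),(10,40754782),(3,67107655),(8,67108864)])))) (P0 1 2 (F [(4,256),(10,226),(3,256)]) (P1 1 1 (F [(4,636793),(10,636781),(3,1048576),(8,1048560)]) (F [(4,40753705),(10,40754782),(8,67108864),(3,67107655)]))))) A) A) (P2 4 1 (U1 4 1 (U2 1 1 (F [(10,256),(4,80),(8,125)]) A) A) (P0 2 1 (U1 4 1 (F [(4,148),(10,256),(8,186)]) A) (F [(8,256),(10,155)]))))) (P5 1 4 (U2 2 1 (P2 1 2 (F [(10,190),(3,226),(4,256)]) (P1 4 1 (P4 1 1 (F [(10,256),(4,6),(8,49)]) (U1 1 1 (F [(4,120),(10,256)]) A)) (F [(4,215),(10,256),(8,219)]))) (P2 1 2 (F [(4,256),(10,190),(3,226)]) (P1 4 1 (P4 1 1 (U0 2 1 A (F [(4,256)])) (U0 2 1 A (F [(4,256)]))) (F [(4,215),(8,219),(10,256)])))) (P1 2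 1 (F [(4,245),(8,60),(3,256)]) (U2 2 1 (P2 4 1 (U1 1 1 (F [(4,225),(10,256)]) A) (F [(4,124),(8,256),(10,105)])) (P2 4 1 (U0 2 1 A (F [(4,256)])) (F [(4,55),(8,256)]))))))))) (P0 1 2 (F [(4,256),(10,226),(3,256)]) (P1 1 1 (F [(4,171),(10,34),(3,256)]) (U1 2 1 (F [(4,251),(10,256)]) (U0 1 2 (P4 1 4 (P2 1 2 (F [(10,154),(3,256),(4,224)]) (P1 2 1 (P5 1 1 (F [(10,256),(4,80),(8,125)]) (U1 4 1 (F [(10,247),(4,256)]) A)) (F [(10,256),(8,218),(4,55)]))) (P0 2 1 (F [(10,226),(4,256),(3,256)]) (P1 2 1 (U1 4 1 (F [(10,247),(4,256)]) A) (F [(10,256),(4,55),(8,218)])))) (F [(4,256),(10,229),(3,45)])))))) (F [(4,256),(10,77)])))) (U2 4 1 (P0 1 1 (U1 1 1 (F [(4,256),(10,190),(3,226)]) (P3 1 2 (P5 4 1 (P4 1 1 (P2 1 1 (U0 1 2 (U1 2 1 (P5 1 2 (F [(10,256),(4,103),(8,41)]) (F [(10,636878),(3,1048576),(4,636872),(8,1048468)])) (P5 1 2 (F [(10,256),(8,192),(4,4)]) (P1 1 1 (U0 1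 4 (F [(3,256),(8,123),(4,25)]) (F [(3,1048562),(10,636784),(8,1048576),(4,636772)])) (U0 1 4 (F [(3,1048526),(10,636799),(8,1048576),(4,636755)]) (F [(4,636770),(10,636800),(8,1048576),(3,1048533)]))))) (F [(4,256),(10,139),(3,184)])) (U0 1 2 (U1 2 1 (F [(4,636819),(10,636780),(8,1048554),(3,1048576)]) (P1 2 1 (P5 1 1 (U0 1 4 (F [(8,1048576),(3,1048557),(4,636773),(10,636776)]) (F [(4,636814),(8,1048568),(10,636787),(3,1048576)])) (F [(3,1048576),(8,1048362),(10,636614),(4,636786)])) (P0 2 1 (U0 1 4 (F [(8,1048576),(4,636773),(3,1048557),(10,636776)]) (F [(4,637019),(8,1048429),(10,636843),(3,1048576)])) (F [(4,256),(8,186),(3,132)])))) (F [(4,256),(10,114),(3,228)]))) (F [(4,172),(3,256),(8,11)])) (F [(4,182),(3,256),(8,18)])) (P4 2 1 (P5 1 1 (P2 1 1 (F [(10,256),(4,4),(8,192)]) (U0 1 2 (U1 2 1 (F [(4,251),(10,256)]) (P0 2 1 (U0 1 4 (P4 1 1 (U1 4 1 (F [(10,256),(4,80),(8,125)])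 (P1 1 2 (F [(10,636868),(3,1048467),(8,1048576),(4,636731)]) (F [(4,636788),(8,1048576),(10,636789),(3,1048558)]))) (F [(10,636805),(3,1048576),(4,636807),(8,1048533)])) (F [(4,225),(10,256)])) (P1 2 1 (U0 1 4 (U1 4 1 (F [(4,636822),(10,636829),(8,1048576),(3,1048569)]) (P3 1 2 (F [(8,1048576),(3,1048557),(4,636773),(10,636776)]) (F [(4,636795),(8,1048573),(3,1048576),(10,636760)]))) (F [(4,251),(10,256)])) (F [(4,256),(8,171)])))) (F [(4,256),(10,247)]))) (F [(4,197),(10,18),(3,256)])) (F [(4,256),(10,90),(3,144)])))) (U1 1 1 (P5 4 1 (F [(4,636895),(8,1048576),(10,636885),(3,1048515)]) (F [(4,636843),(8,1048168),(10,636438),(3,1048576)])) (P5 4 1 (P2 2 1 (P4 1 1 (U0 1 2 (U1 2 1 (P2 1 2 (P5 1 2 (F [(10,256),(8,125),(4,80)]) (F [(10,636775),(8,1048576),(4,636754),(3,1048520)])) (F [(8,1048576),(4,636726),(10,636739),(3,1048485)])) (P2 1 2 (P5 1 2 (F [(8,256),(10,155)])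 (F [(8,1048576),(4,636721),(10,636745),(3,1048493)])) (F [(8,256),(4,7),(3,126)]))) (F [(4,256),(10,215),(3,55)])) (U0 1 2 (F [(4,636688),(8,1048576),(3,1048439),(10,636715)]) (F [(4,256),(10,215),(3,55)]))) (F [(4,9950),(8,16383),(3,16384),(10,9948)])) (F [(4,156),(8,80),(3,256)])))) (P0 1 1 (U0 4 1 (P3 1 2 (P5 4 1 (P4 1 1 (P2 1 1 (U1 2 1 (F [(4,256)]) (U0 1 2 (P5 1 2 (P4 1 2 (F [(8,256),(10,113),(3,2)]) (U1 4 1 (F [(4,148),(8,186),(10,256)]) A)) (P1 1 1 (U1 4 1 (U2 1 1 (P3 1 1 (F [(4,123),(8,256),(3,209)]) (P4 2 1 (F [(4,636766),(8,1048576),(10,636758),(3,1048550)]) (F [(4,636787),(8,1048576),(10,636777),(3,1048572)]))) A) A) (U1 4 1 (U2 1 1 (F [(4,636777),(8,1048576),(10,636812),(3,1048512)]) A) A))) (F [(4,256),(8,171)]))) (U1 2 1 (F [(4,256)]) (U0 1 2 (P1 2 1 (P5 1 1 (U1 4 1 (F [(4,256),(3,163)]) A) (F [(4,154),(8,81),(3,256)])) (P0 2 1 (U1 4 1 (F [(4,256),(3,144),(10,90)])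 A) (F [(8,256)]))) (F [(4,256),(8,171)])))) (F [(4,155),(8,36),(3,256)])) (F [(4,154),(8,84),(3,256)])) (P4 2 1 (P5 1 1 (P2 1 1 (U1 2 1 (F [(4,256)]) (U0 1 2 (P4 1 2 (P5 1 2 (F [(8,256),(10,155)]) (U1 4 1 (F [(4,256),(10,247)]) A)) (U1 4 1 (F [(4,256),(10,247)]) A)) (F [(4,256),(8,34)]))) (U1 2 1 (F [(4,256)]) (U0 1 2 (P0 2 1 (U1 4 1 (F [(4,256),(10,247)]) A) (P1 2 1 (U1 4 1 (F [(4,256),(10,247)]) A) (F [(4,190),(8,256)]))) (F [(4,256)])))) (F [(4,197),(10,18),(3,256)])) (F [(4,256),(10,90),(3,144)]))) (F [(4,256)])) (F [(4,58),(8,256),(3,101)]))))) (U0 2 1 (P0 1 2 (F [(3,256),(4,155)]) (U1 2 1 (P2 1 1 (F [(3,16384),(10,9943),(4,9950),(8,16374)]) (F [(4,9950),(8,16382),(3,16384),(10,9947)])) (F [(3,256),(8,101),(4,92)]))) (F [(4,256),(8,45),(3,250)]))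

def c81 : Cell := ⟨⟨585,1463,0⟩, ⟨1169,2927,0⟩, ⟨1168,2927,1⟩, ⟨96946,67674,58901,38623⟩, ⟨48474,33838,29451,19309⟩, ⟨24236,16918,14727,9655⟩, ⟨48472,33838,29451,19311⟩⟩

def t81 : Tr :=
  F [(3,16384),(4,9950),(8,16376),(10,9942)]

def c82 : Cell := ⟨⟨585,1463,0⟩, ⟨1169,2927,0⟩, ⟨1168,2927,1⟩, ⟨48474,33834,29453,19311⟩, ⟨48474,33838,29451,19309⟩, ⟨24236,16918,14727,9655⟩, ⟨96946,67674,58901,38623⟩⟩

def t82 : Tr :=
  F [(8,1048429),(4,636801),(3,1048576),(10,636421)]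

def c83 : Cell := ⟨⟨585,1463,0⟩, ⟨73,183,0⟩, ⟨584,1463,1⟩, ⟨48474,33834,29453,19311⟩, ⟨24238,16918,14727,9653⟩, ⟨24236,16918,14727,9655⟩, ⟨48474,33838,29451,19309⟩⟩

def t83 : Tr :=
  F [(4,154),(8,81),(3,256)]

theorem g6 : ∀ c ∈ [c72, c73, c74, c75, c76, c77, c78, c79, c80, c81, c82, c83], Done D c := by
  intro c hc
  simp only [List.mem_cons, List.not_mem_nil, or_false] at hc
  rcases hc with rfl | rfl | rfl | rfl | rfl | rfl | rfl | rfl | rfl | rfl | rfl | rfl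
  · exact done_of_chk (t := t72) (by decide +kernel)
  · exact done_of_chk (t := t73) (by decide +kernel)
  · exact done_of_chk (t := t74) (by decide +kernel)
  · exact done_of_chk (t := t75) (by decide +kernel)
  · exact done_of_chk (t := t76) (by decide +kernel)
  · exact done_of_chk (t := t77) (by decide +kernel)
  · exact done_of_chk (t := t78) (by decide +kernel)
  · exact done_of_chk (t := t79) (by decide +kernel)
  · exact done_of_chk (t := t80) (by decide +kernel)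
  · exact done_of_chk (t := t81) (by decide +kernel)
  · exact done_of_chk (t := t82) (by decide +kernel)
  · exact done_of_chk (t := t83) (by decide +kernel)

end Pool.Agent.W2helper59.NW.I0
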