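import Pool.Agent.W2helper59.NW.D_I0

set_option autoImplicit false
set_option maxRecDepth 1000000

namespace Pool.Agent.W2helper59.NW.I0

open Tr

def c84 : Cell := ⟨⟨585,1463,0⟩, ⟨1168,2927,1⟩, ⟨584,1463,1⟩, ⟨12118,8458,7363,4829⟩, ⟨48474,33834,29453,19311⟩, ⟨24236,16918,14727,9655⟩, ⟨12118,8460,7362,4828⟩⟩

def t84 : Tr :=
  P2 1 1 (U2 1 1 (P4 1 4 (P5 1 2 (F [(10,256),(4,76),(8,139)]) (P1 1 1 (F [(4,9953),(10,9951),(8,16381),(3,16384)]) (F [(4,9948),(10,9956),(8,16384),(3,16373)]))) (F [(4,9946),(8,16384),(10,9946),(3,16375)])) (P4 1 4 (P5 1 2 (U0 2 1 (P2 1 2 (F [(10,229),(4,256),(3,45)]) (U1 1 1 (P1 2 1 (F [(4,9948),(10,9952),(8,16384),(3,16380)]) (F [(4,40),(8,256),(10,139)])) (F [(10,636820),(8,1048576),(3,1048228),(4,636448)]))) (P2 1 2 (F [(4,256),(10,222),(3,43)]) (U2 2 1 (P1 2 1 (F [(4,9950),(8,16384),(10,9953),(3,16380)]) (F [(8,256),(10,66)]))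 (P1 2 1 (F [(4,637083),(8,1048576),(10,637069),(3,1048316)]) (F [(8,256),(10,66)]))))) (U0 2 1 (P1 1 1 (F [(4,9952),(8,16381),(3,16384),(10,9948)]) (U1 1 1 (P2 2 1 (F [(4,9950),(8,16384),(10,9948),(3,16384)]) (F [(4,100),(8,256),(10,115)])) (F [(8,1048576),(10,636790),(4,636453),(3,1048253)]))) (F [(4,153),(8,164),(3,256)]))) (U0 2 1 (F [(4,9946),(8,16384),(3,16378),(10,9944)]) (F [(4,256),(8,186),(3,132)])))) (F [(8,16384),(4,9943),(3,16374),(10,9940)])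

def c85 : Cell := ⟨⟨1169,2927,0⟩, ⟨73,183,0⟩, ⟨1168,2927,1⟩, ⟨24236,16918,14725,9657⟩, ⟨48474,33834,29453,19311⟩, ⟨24236,16918,14727,9655⟩, ⟨12118,8460,7362,4828⟩⟩

def t85 : Tr :=
  F [(3,168),(8,256),(10,101)]

def c86 : Cell := ⟨⟨2338,5853,1⟩, ⟨1169,2927,0⟩, ⟨1168,2927,1⟩, ⟨24236,16918,14725,9657⟩, ⟨96946,67674,58901,38623⟩, ⟨48472,33838,29451,19311⟩, ⟨12118,8460,7362,4828⟩⟩

def t86 : Tr :=
  P2 1 2 (F [(10,636957),(3,1048198),(8,1048576),(4,636532)]) (F [(10,636751),(3,1048285),(8,1048576),(4,636459)])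

def c87 : Cell := ⟨⟨2339,5853,0⟩, ⟨1169,2927,0⟩, ⟨2338,5853,1⟩, ⟨48472,33838,29449,19313⟩, ⟨96946,67674,58901,38623⟩, ⟨48472,33838,29451,19311⟩, ⟨12118,8460,7362,4828⟩⟩

def t87 : Tr :=
  P4 1 8 (F [(10,227),(3,256),(8,208)]) (P1 1 1 (U1 2 1 (U2 1 1 (P5 4 1 (F [(10,173),(3,72),(8,256)]) (F [(3,16383),(10,9949),(8,16384),(4,9948)])) (F [(3,168),(8,256),(10,101)])) (F [(3,168),(10,101),(8,256)])) (F [(8,256),(10,162),(3,26)]))

def c88 : Cell := ⟨⟨585,1463,0⟩, ⟨2339,5853,0⟩, ⟨2338,5853,1⟩, ⟨48472,33838,29449,19313⟩, ⟨96946,67674,58901,38623⟩, ⟨48472,33838,29451,19311⟩, ⟨12118,8460,7362,4828⟩⟩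

def t88 : Tr :=
  P4 1 8 (P5 1 4 (F [(10,256),(4,76),(8,139)]) (U2 4 1 (P1 1 1 (U1 1 1 (P3 1 4 (P5 2 1 (F [(10,256),(4,76),(8,139)]) (F [(10,40750004),(3,67108864),(4,40752764),(8,67106667)])) (F [(10,256),(4,74),(8,148)])) (P3 1 4 (P5 2 1 (U0 1 2 (F [(3,256),(8,123),(4,25)]) (P2 1 1 (F [(10,92),(3,256),(4,158)]) (U2 1 1 (F [(10,636768),(3,1048562),(8,1048576),(4,636733)]) (P1 2 1 (F [(4,157),(10,71),(3,256)]) (F [(4,636748),(8,1048576),(10,636777),(3,1048536)]))))) (F [(3,1048576),(10,636699),(8,1048552),(4,636752)])) (U0 1 2 (P2 1 1 (U1 2 1 (F [(10,226),(3,256),(4,256)]) (P5 1 4 (F [(10,256),(4,5)]) (P3 2 1 (P1 2 1 (U0 1 4 (F [(3,168),(10,101),(8,256)]) (F [(3,67108522),(10,40754743),(8,67108864),(4,40753721)])) (F [(10,256),(4,5)])) (F [(10,256),(8,192),(4,4)])))) (U1 2 1 (P0 2 1 (P3 2 1 (U2 1 2 (F [(10,256),(3,84)]) (P1 1 1 (P5 1 2 (F [(10,9950),(3,16383),(8,16384),(4,9949)])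 (F [(10,636797),(3,1048565),(8,1048576),(4,636783)])) (F [(10,180),(8,256)]))) (F [(10,256),(8,142),(4,61)])) (F [(10,21),(3,230),(8,256)])) (P0 2 1 (P3 2 1 (P1 1 1 (P5 1 2 (F [(3,1048494),(10,636800),(8,1048576),(4,636716)]) (F [(3,1048506),(10,636745),(8,1048576),(4,636723)])) (F [(10,180),(8,256)])) (F [(10,231),(8,256),(4,2)])) (F [(3,229),(8,256),(10,17)])))) (P2 1 1 (F [(10,190),(4,256),(3,226)]) (U2 1 1 (P0 2 1 (P3 2 1 (U1 1 2 (F [(10,256),(4,7)]) (P1 1 1 (F [(10,636801),(4,636779),(3,1048567),(8,1048576)]) (F [(10,180),(8,256)]))) (F [(10,256),(4,61),(8,142)])) (U1 1 2 (F [(10,256),(8,113),(4,5)]) (P1 4 1 (P3 1 1 (F [(10,636774),(3,1048561),(4,636749),(8,1048576)]) (F [(10,158),(8,256),(3,9)])) (F [(8,256),(10,158),(3,9)])))) (P0 2 1 (P3 2 1 (P1 1 1 (F [(4,636779),(10,636800),(8,1048576),(3,1048566)]) (F [(4,1),(10,181),(8,256)])) (F [(4,61),(10,256),(8,142)]))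 (P1 4 1 (P3 1 1 (F [(4,636766),(8,1048576),(10,636788),(3,1048563)]) (F [(8,256),(10,161)])) (F [(8,256),(10,161)])))))))) (F [(10,227),(8,256),(4,2)])) (P1 1 1 (U0 4 1 (P3 1 4 (P5 2 1 (U1 2 1 (P2 1 1 (U2 1 1 (F [(4,224),(10,154),(3,256)]) (P4 1 4 (P5 1 2 (F [(10,256),(4,189),(8,121)]) (U0 2 1 (F [(3,1048576),(10,636748),(4,636758),(8,1048529)]) (F [(4,256),(3,56)]))) (U0 2 1 (P1 1 1 (F [(4,165),(3,256)]) (P0 2 1 (F [(4,155),(3,256)]) (U1 1 1 (F [(4,256),(8,34)]) (F [(10,636734),(3,1048576),(4,636758),(8,1048506)])))) (F [(4,256),(8,34)])))) (U2 1 1 (P1 2 1 (F [(4,192),(10,81),(3,256)]) (P0 4 1 (P4 1 2 (F [(4,636750),(8,1048576),(10,636789),(3,1048514)]) (F [(4,154),(8,81),(3,256)])) (F [(4,636748),(8,1048576),(10,636788),(3,1048512)]))) (P1 2 1 (U0 2 1 (P5 1 1 (P4 1 2 (U1 1 1 (F [(4,256),(8,34)]) (F [(4,40752455),(3,67108864),(8,67104915),(10,40751162)]))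 (F [(4,155),(3,256)])) (F [(4,132),(3,256),(8,88)])) (F [(4,256),(8,34)])) (U0 2 1 (P0 4 1 (P4 1 2 (U1 1 1 (F [(4,256),(8,171)]) (P2 1 4 (P5 1 2 (U0 1 2 (F [(8,1048576),(4,636756),(3,1048562),(10,636780)]) (F [(4,636703),(8,1048576),(3,1048475),(10,636746)])) (F [(4,111),(8,166),(3,256)])) (F [(4,111),(8,166),(3,256)]))) (F [(4,132),(8,88),(3,256)])) (P2 2 1 (U1 1 1 (F [(4,256),(8,171)]) (F [(8,1048576),(4,636650),(3,1048432),(10,636731)])) (F [(8,256),(3,114)]))) (F [(8,256)]))))) (P2 1 1 (U0 1 2 (F [(3,256),(4,59)]) (P4 1 4 (P5 1 2 (U2 2 1 (F [(10,636790),(3,1048576),(4,636759),(8,1048571)]) (F [(3,1048576),(10,636750),(4,636758),(8,1048535)])) (U2 2 1 (F [(3,1048576),(10,636728),(4,636735),(8,1048533)]) (F [(3,256),(4,153),(8,164)]))) (U2 2 1 (P1 1 1 (F [(3,256),(4,161),(8,4)]) (P0 2 1 (F [(3,256),(4,155)]) (F [(3,1048576),(10,636697),(8,1048510),(4,636717)])))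 (F [(4,153),(3,256),(8,187)])))) (F [(3,242),(8,256),(10,14)]))) (F [(4,153),(3,256),(8,164)])) (U1 2 1 (P2 1 1 (U2 1 1 (F [(4,256),(10,190),(3,226)]) (P5 1 4 (F [(4,148),(10,256),(8,186)]) (P3 2 1 (U0 2 1 (P1 2 1 (F [(4,256),(10,114),(3,228)]) (U1 1 1 (F [(4,256),(8,129)]) (U0 1 2 (F [(4,636804),(10,636816),(8,1048568),(3,1048576)]) (F [(4,636794),(8,1048576),(10,636828),(3,1048484)])))) (F [(4,256),(8,129)])) (F [(4,148),(8,186),(10,256)])))) (U2 1 1 (P0 2 1 (P3 2 1 (P1 1 1 (F [(4,636826),(8,1048576),(10,636842),(3,1048575)]) (F [(4,20),(8,256),(10,201)])) (F [(4,80),(8,125),(10,256)])) (P1 4 1 (P3 1 1 (P5 1 2 (F [(4,636742),(8,1048576),(10,636805),(3,1048479)]) (F [(4,256),(8,45),(3,250)])) (F [(4,3),(8,256),(10,162)])) (F [(4,3),(8,256),(10,162)]))) (P0 2 1 (P3 2 1 (U0 2 1 (P1 1 1 (P5 1 2 (U1 1 1 (F [(4,256),(8,171)]) (U0 1 2 (F [(4,636751),(8,1048576),(10,636785),(3,1048531)])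 (F [(4,636703),(8,1048576),(10,636746),(3,1048475)]))) (F [(4,256),(3,208)])) (F [(8,256),(10,155)])) (F [(8,256)])) (F [(8,256),(10,155)])) (U0 2 1 (P1 4 1 (P3 1 1 (P5 1 2 (U1 1 1 (F [(4,256),(8,171)]) (P2 1 4 (U0 1 2 (F [(4,636746),(8,1048576),(10,636781),(3,1048530)]) (F [(4,636703),(8,1048576),(3,1048475),(10,636746)])) (F [(4,118),(8,170),(3,256)]))) (F [(4,256),(8,45),(3,250)])) (F [(8,256),(10,155)])) (F [(8,256),(10,155)])) (F [(8,256)]))))) (P2 1 1 (U0 1 2 (P5 1 4 (F [(10,256),(3,59),(8,136)]) (P3 2 1 (P1 2 1 (U1 4 1 (U2 1 1 (P3 1 2 (F [(3,256),(8,81),(4,154)]) (P4 1 1 (F [(3,256),(8,8),(4,155)]) (F [(3,1048543),(8,1048576),(10,636773),(4,636753)]))) A) A) (U1 4 1 (U2 1 1 (P0 4 1 (P4 1 1 (F [(3,256),(10,227),(8,208)]) (F [(10,636777),(3,1048542),(8,1048576),(4,636752)])) (F [(3,256),(10,212),(8,245)])) A) A)) (P4 4 1 (U1 4 1 (U2 1 1 (F [(10,256),(8,142),(4,61)])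 A) A) (F [(10,165),(8,256),(3,39)])))) (P5 1 4 (U2 2 1 (P4 1 2 (F [(10,636808),(3,1048572),(4,636756),(8,1048576)]) (P3 4 1 (U1 1 1 (F [(10,256),(4,74),(8,148)]) A) (F [(10,155),(8,256)]))) (P4 1 2 (P2 1 2 (F [(10,226),(3,256),(4,256)]) (U0 2 1 A (F [(4,636793),(10,636778),(8,1048576),(3,1048574)]))) (P3 4 1 (U0 2 1 A (F [(4,256),(8,151),(3,50)])) (F [(8,256),(10,113),(3,2)])))) (P3 2 1 (U2 2 1 (P1 2 1 (F [(4,245),(8,60),(3,256)]) (U1 1 1 (U2 1 2 (P0 4 1 (P4 1 1 (F [(10,636786),(3,1048559),(4,636759),(8,1048576)]) (F [(4,636763),(8,1048576),(10,636775),(3,1048552)])) (F [(10,636786),(3,1048559),(8,1048576),(4,636758)])) A) A)) (F [(4,153),(8,187),(3,256)])) (U2 2 1 (P4 4 1 (U1 1 1 (F [(10,256),(4,74),(8,148)]) A) (F [(8,256),(10,155)])) (P4 4 1 (U0 2 1 A (F [(4,256),(8,151),(3,50)])) (F [(8,256),(3,7)])))))) (U0 1 2 (P0 2 1 (P3 2 1 (P1 1 1 (P5 1 2 (F [(3,1048465),(8,1048576),(10,636752),(4,636682)])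 (F [(3,1048494),(8,1048576),(10,636725),(4,636714)])) (F [(8,256),(3,26),(10,162)])) (F [(8,256),(10,165),(3,39)])) (F [(8,256),(3,229),(10,17)])) (P0 2 1 (P3 2 1 (U2 2 1 (P1 1 1 (P5 1 2 (U1 1 1 (U2 1 2 (F [(8,1048576),(4,636724),(10,636768),(3,1048509)]) A) A) (F [(4,252),(8,64),(3,256)])) (F [(8,256),(10,155)])) (F [(8,256),(3,7)])) (F [(8,256),(10,155)])) (F [(8,256),(3,229),(10,17)])))))) (F [(4,256),(10,74)])) (U0 4 1 (P2 2 1 (U1 2 1 (F [(4,105),(8,255),(10,256)]) (P5 1 1 (U0 1 2 (F [(10,184),(3,116),(8,256)]) (P2 1 2 (U2 2 1 (F [(10,227),(8,256),(4,2)]) (P4 1 2 (P5 1 2 (F [(10,256),(4,114)]) (F [(10,636785),(4,636709),(8,1048576),(3,1048498)])) (F [(8,256),(10,113),(3,2)]))) (F [(8,256),(10,155)]))) (F [(8,256),(10,155)]))) (F [(8,256),(10,113)])) (F [(4,256),(10,70)]))))) (U2 4 1 (P1 1 1 (U1 1 1 (P5 4 1 (F [(4,636746),(8,1048576),(10,636809),(3,1048411)])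 (U2 1 2 (F [(4,9949),(8,16384),(10,9949),(3,16383)]) (F [(4,636749),(8,1048576),(3,1048550),(10,636688)]))) (P5 4 1 (P4 2 1 (U0 1 2 (U1 2 1 (P2 2 1 (P4 1 2 (P5 1 2 (F [(10,256),(8,148),(4,74)]) (U2 1 2 (F [(10,256),(8,49),(4,6)]) (F [(8,1048576),(10,636751),(4,636722),(3,1048490)]))) (U2 1 2 (F [(8,1048576),(10,636786),(4,636712),(3,1048476)]) (F [(8,1048576),(4,636630),(10,636656),(3,1048445)]))) (U2 1 2 (F [(8,1048576),(10,636785),(3,1048477),(4,636713)]) (F [(8,1048576),(4,634722),(3,1048125),(10,635003)]))) (P2 2 1 (P4 1 2 (P5 1 2 (F [(8,256),(10,155)]) (F [(8,1048576),(3,1048496),(10,636736),(4,636714)])) (F [(8,256),(4,62),(3,216)])) (F [(8,256),(3,216),(4,62)]))) (U2 1 1 (P2 2 1 (P4 1 2 (P5 1 2 (F [(10,256),(4,148),(8,186)]) (U1 1 2 (F [(10,256),(4,63)]) (F [(4,636742),(8,1048576),(10,636754),(3,1048464)]))) (U1 1 2 (F [(4,256),(10,229),(3,45)])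 (F [(4,636701),(8,1048576),(10,636718),(3,1048457)]))) (U1 1 2 (F [(8,16384),(4,9949),(10,9950),(3,16382)]) (F [(8,1048576),(4,636701),(10,636718),(3,1048457)]))) (F [(4,256),(8,129)]))) (F [(8,1048576),(4,636741),(3,1048548),(10,636679)])) (F [(8,1048576),(4,636740),(3,1048563),(10,636664)]))) (F [(8,256),(10,155)])) (F [(4,58),(8,256),(3,101)]))

def c89 : Cell := ⟨⟨585,1463,0⟩, ⟨1169,2927,0⟩, ⟨2338,5853,1⟩, ⟨24236,16918,14725,9657⟩, ⟨96946,67674,58901,38623⟩, ⟨48472,33838,29451,19311⟩, ⟨48472,33838,29449,19313⟩⟩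

def t89 : Tr :=
  U0 2 1 (P1 2 1 (P5 1 1 (F [(8,256),(3,26),(10,162)]) (F [(3,1048402),(8,1048576),(10,636651),(4,636515)])) (F [(8,256),(3,4),(10,65)])) (P1 2 1 (U2 4 1 (P5 1 1 (F [(8,256),(10,155)]) (U1 1 1 (P1 1 2 (U2 1 2 (F [(4,9949),(8,16384),(3,16383),(10,9949)]) (F [(4,636700),(8,1048576),(3,1048479),(10,636611)])) (F [(8,256),(3,104),(10,95)])) (F [(8,256),(4,62),(3,216)]))) (F [(8,256),(4,123),(3,209)])) (F [(8,256),(10,66)]))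

def c90 : Cell := ⟨⟨585,1463,0⟩, ⟨1169,2927,0⟩, ⟨1168,2927,1⟩, ⟨24236,16918,14725,9657⟩, ⟨96946,67674,58901,38623⟩, ⟨24236,16918,14727,9655⟩, ⟨48472,33838,29451,19311⟩⟩

def t90 : Tr :=
  U2 2 1 (F [(3,16383),(8,16384),(10,9945),(4,9945)]) (F [(8,170),(4,118),(3,256)])

def c91 : Cell := ⟨⟨585,1463,0⟩, ⟨1169,2927,0⟩, ⟨1168,2927,1⟩, ⟨24236,16918,14725,9657⟩, ⟨48474,33834,29453,19311⟩, ⟨24236,16918,14727,9655⟩, ⟨96946,67674,58901,38623⟩⟩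

def t91 : Tr :=
  F [(8,256),(3,144),(10,71)]

def c92 : Cell := ⟨⟨585,1463,0⟩, ⟨73,183,0⟩, ⟨1168,2927,1⟩, ⟨12118,8458,7363,4829⟩, ⟨48474,33834,29453,19311⟩, ⟨24236,16918,14727,9655⟩, ⟨24236,16918,14725,9657⟩⟩

def t92 : Tr :=
  F [(8,256),(3,223)]

def c93 : Cell := ⟨⟨585,1463,0⟩, ⟨73,183,0⟩, ⟨584,1463,1⟩, ⟨12118,8458,7363,4829⟩, ⟨24238,16918,14727,9653⟩, ⟨12118,8458,7365,4827⟩, ⟨24236,16918,14727,9655⟩⟩

def t93 : Tr :=
  F [(8,164),(4,153),(3,256)]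

def c94 : Cell := ⟨⟨585,1463,0⟩, ⟨73,183,0⟩, ⟨584,1463,1⟩, ⟨12118,8458,7363,4829⟩, ⟨6060,4230,3681,2413⟩, ⟨24238,16918,14727,9653⟩, ⟨12118,8460,7362,4828⟩⟩

def t94 : Tr :=
  P0 1 2 (P4 2 1 (P5 1 2 (U1 8 1 (F [(4,256),(10,247)]) (U0 1 8 (P2 1 2 (F [(10,256),(3,84)]) (U1 16 1 (P0 1 1 (F [(10,256),(3,74),(4,88)]) (F [(10,636827),(3,1048576),(4,636865),(8,1048572)])) (F [(10,636867),(3,1048576),(8,1048575),(4,636897)]))) (U2 2 1 (P2 1 2 (F [(10,256),(3,78),(4,54)]) (P0 1 1 (F [(10,256),(4,88),(3,74)]) (U1 1 1 (F [(4,225),(10,256)]) (P2 2 1 (F [(4,636912),(10,636882),(8,1048558),(3,1048576)]) (F [(4,256),(8,83),(3,217)]))))) (P2 1 2 (P4 1 2 (P5 1 4 (F [(10,256),(4,80),(8,125)]) (U0 2 1 (P3 1 1 (P1 1 1 (F [(4,155),(3,256)]) (U1 2 1 (F [(4,251),(10,256)]) (U0 1 2 (F [(10,9951),(3,16383),(4,9950),(8,16384)]) (F [(10,637078),(4,637044),(3,1048576),(8,1048568)]))))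 (F [(10,256),(4,80),(8,125)])) (F [(4,256),(10,238)]))) (U0 2 1 (P0 1 2 (F [(10,141),(4,218),(3,256)]) (P5 1 1 (F [(10,256),(4,76),(8,139)]) (P3 1 2 (P1 1 1 (F [(4,155),(3,256)]) (F [(4,9952),(10,9953),(3,16382),(8,16384)])) (F [(4,89),(10,256),(8,94)])))) (F [(4,256),(10,74)]))) (P0 1 1 (U0 2 1 (P4 2 1 (P3 1 2 (P2 1 1 (P5 1 1 (F [(4,636888),(10,636909),(8,1048576),(3,1048447)]) (F [(4,9954),(10,9950),(8,16379),(3,16384)])) (F [(4,192),(10,256),(3,129)])) (F [(4,89),(10,256),(8,94)])) (F [(4,256),(10,98),(3,228)])) (F [(4,256)])) (U0 2 1 (P2 2 1 (P4 1 1 (P5 1 1 (F [(4,9950),(8,16384),(10,9949),(3,16381)]) (F [(4,636937),(8,1048400),(10,636652),(3,1048576)])) (F [(4,9953),(8,16381),(10,9948),(3,16384)])) (F [(4,204),(8,156),(3,256)])) (F [(4,256)]))))))) (U1 8 1 (F [(4,256),(10,238)]) (U0 1 8 (P3 1 1 (F [(3,16384),(10,9944),(4,9952),(8,16377)]) (F [(10,636802),(3,1048576),(4,636962),(8,1048459)]))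 (F [(4,256),(8,45),(3,250)])))) (U1 8 1 (F [(4,256),(10,74)]) (U0 1 8 (P3 4 1 (P5 1 1 (P0 2 1 (F [(4,156),(3,256)]) (F [(10,636802),(3,1048576),(4,636962),(8,1048459)])) (F [(4,9953),(3,16384),(10,9941),(8,16377)])) (P0 1 4 (F [(10,256),(4,154),(3,66)]) (P1 2 1 (F [(10,34),(4,171),(3,256)]) (F [(10,9957),(4,9954),(3,16378),(8,16384)])))) (F [(4,256),(10,74)])))) (P1 2 1 (P5 1 2 (U1 8 1 (F [(4,214),(8,219),(10,256)]) (U0 1 8 (P2 1 4 (P4 1 2 (F [(10,227),(3,256),(8,208)]) (F [(3,1048563),(10,636824),(8,1048576),(4,636841)])) (F [(3,16384),(8,16382),(10,9946),(4,9950)])) (P2 1 4 (U2 2 1 (P4 1 2 (P5 1 4 (F [(10,227),(8,256),(4,2)]) (U1 1 1 (F [(10,256),(4,74),(8,148)]) (P1 1 2 (F [(10,9952),(3,16384),(4,9951),(8,16384)]) (F [(10,636895),(3,1048447),(8,1048576),(4,636757)])))) (U1 1 1 (F [(4,74),(10,256),(8,148)]) (P0 1 4 (P4 2 1 (F [(4,636885),(8,1048576),(10,636820),(3,1048574)])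 (F [(4,256),(8,83),(3,217)])) (F [(8,1048576),(4,636853),(10,636817),(3,1048556)])))) (P4 1 2 (P5 1 4 (U0 2 1 (P2 1 8 (F [(10,256),(8,142),(4,61)]) (U1 2 1 (P1 1 1 (U2 1 1 (F [(10,256),(4,114)]) (U0 2 1 (F [(10,636904),(3,1048370),(4,636693),(8,1048576)]) (P4 4 1 (P5 2 1 (P2 1 1 (F [(10,226),(8,256)]) (U2 2 1 (F [(10,10386),(4,195),(8,16384)]) (P0 2 1 (F [(10,226),(8,256)]) (P1 2 1 (F [(10,636817),(3,1048523),(8,1048576),(4,636777)]) (F [(8,1048576),(4,636762),(10,636760),(3,1048504)]))))) (P3 1 4 (P1 1 2 (F [(10,233),(3,23),(4,256)]) (U2 2 1 (F [(10,9952),(4,9950),(3,16381),(8,16384)]) (P2 2 1 (F [(10,27),(3,256),(4,183)]) (F [(10,636817),(4,636844),(3,1048533),(8,1048576)])))) (U2 2 1 (F [(10,10386),(4,195),(8,16384)]) (P0 2 1 (F [(10,256),(4,185),(8,128)]) (P2 2 1 (F [(10,636962),(4,637069),(3,1048576),(8,1048488)]) (F [(4,9949),(10,9950),(8,16384),(3,16381)]))))))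 (F [(4,637008),(10,636894),(8,1048568),(3,1048576)])))) (F [(8,256),(10,155)])) (P1 1 1 (U0 1 2 (F [(10,184),(3,116),(8,256)]) (U2 2 1 (F [(10,174),(3,116),(8,256)]) (P4 4 1 (P5 2 1 (P2 1 1 (F [(10,226),(8,256)]) (U0 2 1 (F [(10,101),(3,168),(8,256)]) (P0 2 1 (F [(10,226),(8,256)]) (P1 2 1 (F [(10,636809),(3,1048517),(8,1048576),(4,636762)]) (F [(8,256),(3,223),(10,25)]))))) (P3 1 4 (P1 1 2 (F [(10,226),(3,256),(4,256)]) (U0 2 1 (F [(3,256)]) (P2 2 1 (F [(10,636607),(3,1048576),(8,1048180),(4,636837)]) (F [(10,636800),(3,1048555),(8,1048576),(4,636819)])))) (U0 2 1 (F [(10,137),(3,198),(8,256)]) (P0 2 1 (F [(10,256),(8,248),(4,47)]) (P2 2 1 (F [(10,636809),(3,1048517),(8,1048576),(4,636762)]) (F [(10,9950),(8,16384),(3,16380),(4,9948)])))))) (P3 2 1 (P5 4 1 (F [(10,142),(8,256),(3,23)]) (P1 1 2 (F [(10,256),(3,215),(4,244)]) (F [(10,636794),(3,1048562),(8,1048576),(4,636810)])))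 (F [(8,256),(10,133),(3,39)]))))) (F [(8,256),(3,118),(10,86)])))) (F [(4,215),(8,219),(10,256)])) (U0 2 1 (P1 1 2 (P3 1 1 (F [(4,155),(3,256)]) (U1 2 1 (F [(4,256),(10,90),(3,144)]) (U0 1 2 (F [(3,16382),(10,9950),(8,16384),(4,9948)]) (P2 1 2 (U2 2 1 (F [(10,9952),(3,16384),(4,9951),(8,16384)]) (P4 2 1 (F [(10,154),(3,256),(4,224)]) (F [(4,636888),(8,1048546),(10,636815),(3,1048576)]))) (P0 1 4 (F [(4,636883),(8,1048548),(10,636805),(3,1048576)]) (F [(4,9951),(8,16380),(3,16384),(10,9946)])))))) (U1 2 1 (P2 1 1 (F [(4,636996),(10,636785),(8,1048409),(3,1048576)]) (F [(4,636830),(8,1048576),(10,636737),(3,1048506)])) (P2 1 1 (U0 1 2 (F [(3,16378),(10,9949),(8,16384),(4,9942)]) (P5 1 2 (U2 2 1 (F [(10,9954),(3,16382),(8,16384),(4,9949)]) (P4 2 1 (F [(10,636704),(3,1048576),(4,636840),(8,1048417)]) (F [(4,636859),(8,1048561),(10,636784),(3,1048576)]))) (P3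 4 1 (F [(3,16384),(8,16381),(4,9949),(10,9945)]) (F [(8,1048576),(4,636850),(10,636772),(3,1048559)])))) (F [(8,16384),(3,16371),(4,9937),(10,9941)])))) (F [(4,256),(10,74)]))) (U0 2 1 (P0 1 4 (P4 2 1 (P5 1 1 (F [(4,9949),(8,16384),(10,9948),(3,16381)]) (F [(4,153),(8,140),(3,256)])) (F [(4,153),(8,187),(3,256)])) (P1 1 2 (P5 1 1 (F [(4,9949),(8,16384),(10,9948),(3,16381)]) (F [(4,154),(8,106),(3,256)])) (F [(8,256),(4,58),(3,101)]))) (F [(4,256),(8,129)])))) (F [(4,636865),(8,1048542),(3,1048576),(10,636541)])))) (F [(4,9953),(8,16371),(3,16384),(10,9939)])) (F [(8,256),(4,3),(10,162)]))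

def c95 : Cell := ⟨⟨293,731,0⟩, ⟨585,1463,0⟩, ⟨584,1463,1⟩, ⟨12118,8458,7363,4829⟩, ⟨6060,4230,3681,2413⟩, ⟨12118,8458,7365,4827⟩, ⟨12118,8460,7362,4828⟩⟩

def t95 : Tr :=
  F [(4,256),(10,74)]

theorem g7 : ∀ c ∈ [c84, c85, c86, c87, c88, c89, c90, c91, c92, c93, c94, c95], Done D c := by
  intro c hc
  simp only [List.mem_cons, List.not_mem_nil, or_false] at hc
  rcases hc with rfl | rfl | rfl | rfl | rfl | rfl | rfl | rfl | rfl | rfl | rfl | rfl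
  · exact done_of_chk (t := t84) (by decide +kernel)
  · exact done_of_chk (t := t85) (by decide +kernel)
  · exact done_of_chk (t := t86) (by decide +kernel)
  · exact done_of_chk (t := t87) (by decide +kernel)
  · exact done_of_chk (t := t88) (by decide +kernel)
  · exact done_of_chk (t := t89) (by decide +kernel)
  · exact done_of_chk (t := t90) (by decide +kernel)
  · exact done_of_chk (t := t91) (by decide +kernel)
  · exact done_of_chk (t := t92) (by decide +kernel)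
  · exact done_of_chk (t := t93) (by decide +kernel)
  · exact done_of_chk (t := t94) (by decide +kernel)
  · exact done_of_chk (t := t95) (by decide +kernel)

end Pool.Agent.W2helper59.NW.I0
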