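import Pool.Agent.W2helper59.NW.D_I0

set_option autoImplicit false
set_option maxRecDepth 1000000

namespace Pool.Agent.W2helper59.NW.I0

open Tr

def c96 : Cell := ⟨⟨293,731,0⟩, ⟨73,183,0⟩, ⟨292,731,1⟩, ⟨3030,2114,1841,1207⟩, ⟨6060,4230,3681,2413⟩, ⟨12118,8458,7365,4827⟩, ⟨12118,8458,7363,4829⟩⟩

def t96 : Tr :=
  U1 4 1 (F [(4,256),(8,34)]) (P0 2 1 (U0 1 4 (P3 2 1 (F [(4,153),(8,187),(3,256)]) (P4 2 1 (F [(4,123),(8,256),(3,209)]) (U1 8 1 (F [(4,256)]) (P0 1 2 (F [(4,637167),(8,1048308),(10,636512),(3,1048576)]) (F [(4,123),(8,256),(3,209)]))))) (F [(4,256),(8,34)])) (F [(4,123),(8,256),(3,209)]))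

def c97 : Cell := ⟨⟨147,365,0⟩, ⟨293,731,0⟩, ⟨292,731,1⟩, ⟨3030,2114,1841,1207⟩, ⟨6060,4230,3681,2413⟩, ⟨6058,4230,3683,2413⟩, ⟨6058,4230,3681,2415⟩⟩

def t97 : Tr :=
  F [(4,256),(8,34)]

def c98 : Cell := ⟨⟨37,91,0⟩, ⟨147,365,0⟩, ⟨146,365,1⟩, ⟨3030,2114,1841,1207⟩, ⟨1515,1058,920,603⟩, ⟨1514,1058,921,603⟩, ⟨757,529,460,302⟩⟩

def t98 : Tr :=
  F [(4,256),(10,228),(3,46)]

def c99 : Cell := ⟨⟨37,91,0⟩, ⟨73,183,0⟩, ⟨146,365,1⟩, ⟨379,264,230,151⟩, ⟨1515,1058,920,603⟩, ⟨3030,2114,1841,1207⟩, ⟨757,529,460,302⟩⟩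

def t99 : Tr :=
  P2 2 1 (U0 2 1 (P5 1 4 (F [(4,46),(10,256),(8,253)]) (P0 1 1 (U1 2 1 (F [(4,256),(10,247)]) (P3 2 1 (U0 1 2 (P5 2 1 (F [(4,46),(8,253),(10,256)]) (P1 1 1 (U1 4 1 (F [(4,256),(8,180)]) (P3 1 2 (F [(8,256)]) (U0 1 4 (P4 2 1 (F [(8,256),(3,7)]) (F [(4,9921),(8,16384),(10,9983),(3,16294)])) (F [(4,256),(8,180)])))) (F [(4,46),(8,253),(10,256)]))) (F [(4,256),(8,171)])) (F [(4,63),(10,256),(8,188)]))) (F [(8,256),(10,156)]))) (F [(4,251),(10,256)])) (F [(4,256),(8,5),(10,78)])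

def c100 : Cell := ⟨⟨19,45,0⟩, ⟨37,91,0⟩, ⟨36,91,1⟩, ⟨379,264,230,151⟩, ⟨757,530,460,301⟩, ⟨756,530,461,301⟩, ⟨378,265,230,151⟩⟩

def t100 : Tr :=
  F [(4,256),(10,227),(3,47)]

def c101 : Cell := ⟨⟨19,45,0⟩, ⟨9,23,0⟩, ⟨18,45,1⟩, ⟨190,132,115,75⟩, ⟨189,133,115,75⟩, ⟨378,264,231,151⟩, ⟨379,264,230,151⟩⟩

def t101 : Tr :=
  P0 1 1 (U1 2 1 (F [(4,256),(3,229)]) (P3 2 1 (U0 1 2 (P1 1 1 (P4 1 2 (P5 1 1 (U1 4 1 (F [(4,256),(8,44),(3,249)]) (U0 1 4 (P2 1 2 (P4 1 4 (F [(8,16384),(3,16315),(4,9915),(10,9903)]) (U1 8 1 (P3 1 2 (U2 1 1 (F [(3,16381),(10,9944),(8,16384),(4,9957)]) (F [(3,16343),(8,16384),(10,9881),(4,9908)])) (U2 1 1 (F [(10,256),(3,74),(4,87)]) (U0 2 1 (F [(3,78),(10,256),(4,54)]) (P4 2 1 (F [(3,1048576),(10,633055),(8,1044617),(4,637290)]) (F [(3,256),(4,156)]))))) (F [(3,256),(8,247)]))) (F [(3,256),(8,51),(4,154)]))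 (F [(4,246),(8,60),(3,256)]))) (F [(3,256),(4,154),(8,80)])) (F [(3,256),(4,155)])) (P4 1 2 (P2 1 1 (U1 4 1 (F [(4,256),(10,221),(3,45)]) (U0 1 4 (P5 1 2 (P4 1 4 (P2 1 2 (U1 8 1 (U2 1 1 (F [(4,91),(8,85),(10,256)]) (F [(4,9906),(8,16384),(10,9897),(3,16304)])) (F [(8,16384),(3,16297),(10,9886),(4,9892)])) (U1 8 1 (U2 1 1 (F [(10,256),(4,154),(3,65)]) (P0 4 1 (U0 2 1 (F [(10,156),(4,156),(3,256),(8,256)]) (F [(4,9976),(8,16374),(10,9933),(3,16384)])) (F [(4,256),(10,113),(3,227)]))) (U0 1 8 (F [(3,115),(10,226),(8,256)]) (P0 4 1 (U2 2 1 (F [(10,9964),(3,16346),(8,16384),(4,9934)]) (P5 1 1 (P4 1 2 (F [(4,9982),(8,16378),(10,9959),(3,16384)]) (F [(8,16357),(3,16384),(4,9962),(10,9919)])) (F [(3,16384),(8,16337),(10,9904),(4,9958)]))) (F [(10,9919),(3,16384),(4,9984),(8,16331)]))))) (U1 8 1 (P0 2 1 (U2 1 1 (F [(10,256),(3,65),(4,154)])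 (U0 2 1 (F [(3,78),(10,256),(4,54)]) (P4 2 1 (P2 1 1 (F [(3,16384),(10,9910),(4,9953),(8,16344)]) (F [(3,256),(10,3),(4,147)])) (F [(3,256),(4,156)])))) (U2 1 1 (F [(10,256),(3,65),(4,154)]) (P2 4 1 (U0 2 1 (F [(10,256),(3,78),(4,54)]) (P4 1 1 (F [(4,9966),(10,9919),(3,16384),(8,16350)]) (F [(10,26),(3,256),(4,183)]))) (F [(10,27),(3,256),(4,183)])))) (P0 2 1 (F [(3,256),(8,153),(4,59)]) (U0 1 8 (F [(3,256),(10,63)]) (P2 4 1 (U2 2 1 (F [(3,256),(8,12)]) (F [(3,16384),(10,9870),(8,16299),(4,9947)])) (F [(10,34),(3,256),(4,171)])))))) (F [(3,256),(4,156)])) (F [(4,246),(3,256),(8,60)]))) (F [(10,128),(4,212),(3,256)])) (F [(3,256),(4,155)]))) (F [(4,256),(8,43),(3,249)])) (P4 2 1 (U0 1 2 (P5 1 2 (P2 1 1 (U1 4 1 (F [(4,256),(10,247)]) (P4 1 2 (U0 1 4 (P5 1 4 (P2 1 2 (U1 8 1 (F [(4,104),(8,255),(10,256)]) (P4 1 4 (F [(8,256),(10,122),(3,57)])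 (U0 1 8 (F [(10,207),(3,44),(8,256)]) (U2 2 1 (F [(10,207),(3,44),(8,256)]) (P0 1 1 (P4 2 1 (F [(10,186),(8,256),(4,13)]) (P3 2 1 (U0 2 1 (F [(10,68),(3,256)]) (P1 1 1 (U2 4 1 (F [(10,207),(3,44),(8,256)]) (P5 2 1 (F [(10,256),(8,192),(4,62)]) (P3 1 2 (F [(8,256),(3,57),(10,122)]) (F [(10,9955),(3,16379),(8,16384),(4,9955)])))) (F [(10,256),(4,62),(8,192)]))) (F [(10,256),(4,31)]))) (F [(8,256),(4,13),(10,186)])))))) (U1 8 1 (F [(10,256),(4,104),(8,255)]) (U0 1 8 (F [(10,256),(3,26),(8,222)]) (P1 4 1 (U2 2 1 (F [(10,256),(3,26),(8,222)]) (P4 1 1 (P5 1 2 (F [(4,62),(10,256),(8,191)]) (U0 2 1 (F [(10,256),(3,26),(8,222)]) (F [(4,637468),(8,1048576),(10,636831),(3,1047349)]))) (P3 2 1 (U0 2 1 (F [(10,68),(3,256)]) (P1 1 2 (P5 1 1 (U2 4 1 (F [(10,256),(4,7)]) (P4 1 2 (F [(10,156),(4,156),(8,256),(3,256)]) (U0 4 1 (F [(10,9958),(3,16381),(8,16384),(4,9951)])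 (F [(10,9990),(4,9988),(8,16380),(3,16384)])))) (U2 4 1 (F [(10,256),(8,223),(4,3)]) (P3 1 2 (F [(8,16384),(3,16247),(4,9880),(10,9937)]) (U0 4 1 (F [(3,16380),(10,9953),(8,16384),(4,9945)]) (F [(8,16377),(4,9960),(10,9950),(3,16384)]))))) (F [(10,9871),(3,16384),(4,9983),(8,16202)]))) (F [(10,256),(4,55)])))) (F [(10,256),(4,81),(8,125)]))))) (U1 8 1 (P1 2 1 (U2 1 1 (F [(10,256),(4,114)]) (U0 2 1 (F [(10,256),(4,4),(8,191)]) (P5 2 1 (P2 1 1 (P4 2 1 (U2 2 1 (F [(10,9952),(3,16384),(4,9955),(8,16380)]) (U0 4 1 (F [(10,9954),(3,16381),(8,16384),(4,9946)]) (P5 1 2 (P2 1 2 (P4 1 2 (F [(8,16377),(3,16384),(4,9957),(10,9930)]) (F [(3,16384),(10,9938),(4,9956),(8,16366)])) (F [(3,256),(10,3),(4,147)])) (F [(3,256),(10,135)])))) (F [(10,256),(3,84)])) (F [(10,63),(3,256)])) (F [(10,135),(3,256)])))) (U2 1 1 (F [(10,256),(4,114)])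 (P2 4 1 (U0 2 1 (F [(10,256),(4,3),(8,205)]) (P5 1 1 (P4 2 1 (U2 2 1 (F [(10,256),(4,62),(8,191)]) (P2 1 2 (U0 4 1 (F [(10,9958),(3,16383),(4,9958),(8,16384)]) (P5 1 2 (P4 1 2 (F [(4,9944),(8,16384),(3,16361),(10,9934)]) (F [(4,9959),(10,9948),(8,16376),(3,16384)])) (F [(10,43),(4,201),(3,256)]))) (F [(10,228),(4,256),(3,45)]))) (F [(10,256),(3,74),(4,88)])) (F [(10,44),(3,256),(4,201)]))) (F [(10,256),(4,224)])))) (P1 2 1 (U0 1 8 (F [(3,256),(10,63)]) (U2 2 1 (F [(3,256),(8,131)]) (P5 2 1 (P2 1 1 (P4 2 1 (U0 2 1 (F [(3,256),(8,131)]) (U2 4 1 (F [(3,256),(8,131)]) (P5 1 2 (P2 1 2 (P4 1 2 (F [(3,256),(8,247)]) (F [(3,16384),(10,9939),(8,16370),(4,9954)])) (F [(3,256),(4,136)])) (F [(3,256),(10,135)])))) (F [(3,84),(10,256)])) (F [(3,256)])) (F [(3,256),(10,135)])))) (U0 1 8 (F [(10,63),(3,256)]) (P2 4 1 (U2 2 1 (F [(3,256),(8,12)])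 (P5 1 1 (P4 2 1 (U0 2 1 (F [(3,256),(8,12)]) (P2 1 2 (U2 4 1 (F [(3,16383),(10,9954),(8,16384),(4,9946)]) (P5 1 2 (P4 1 2 (F [(8,16384),(3,16359),(10,9924),(4,9934)]) (F [(3,16384),(10,9934),(8,16361),(4,9956)])) (F [(3,256),(4,156)]))) (F [(3,256),(4,156)]))) (F [(10,256),(3,74),(4,88)])) (F [(10,123),(3,256),(4,210)]))) (F [(10,256),(4,114)])))))) (F [(4,256),(8,46),(3,251)])) (F [(10,256),(3,213),(4,243)]))) (F [(10,128),(3,256),(4,212)])) (F [(3,256),(4,155)])) (F [(4,256),(3,208)])) (F [(10,256),(3,211),(4,241)])))) (U1 2 1 (F [(4,256),(3,229)]) (P1 2 1 (U0 1 2 (P3 1 1 (P5 1 1 (U1 4 1 (F [(4,227),(8,114),(3,256)]) (U0 1 4 (P4 1 2 (P2 1 2 (F [(8,16384),(4,9913),(3,16313),(10,9896)]) (F [(8,100),(3,256),(4,154)])) (F [(3,256),(8,51),(4,154)])) (F [(4,227),(8,114),(3,256)]))) (F [(3,256),(4,153),(8,131)])) (P4 1 1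 (U1 4 1 (F [(4,256),(10,215),(3,53)]) (U0 1 4 (P5 1 2 (P2 1 2 (P4 1 2 (U1 8 1 (F [(4,9955),(8,16384),(10,9919),(3,16346)]) (F [(8,16384),(4,9915),(3,16318),(10,9896)])) (U1 8 1 (F [(4,10020),(10,9923),(8,16325),(3,16384)]) (P0 1 2 (U0 1 8 (F [(10,156),(3,256),(8,256),(4,155)]) (F [(4,9984),(10,9919),(3,16384),(8,16331)])) (F [(8,16384),(3,16318),(4,9915),(10,9896)])))) (F [(4,9988),(8,15993),(3,16384),(10,9645)])) (F [(3,256),(4,156)])) (F [(4,256),(3,169)]))) (F [(4,159),(10,6),(3,256)]))) (F [(4,252),(8,67),(3,256)])) (U0 1 2 (P0 2 1 (P4 1 1 (U1 4 1 (F [(4,256),(10,72)]) (P2 1 2 (U0 1 4 (P5 1 2 (P4 1 2 (F [(4,13),(8,256),(10,185)]) (U1 8 1 (F [(4,256),(10,75)]) (P3 2 1 (F [(4,9931),(8,16384),(10,9915),(3,16297)]) (F [(4,10008),(10,10040),(3,16335),(8,16384)])))) (F [(4,10003),(8,16098),(10,9742),(3,16384)])) (F [(4,256)]))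 (F [(4,10073),(8,16106),(10,9845),(3,16384)]))) (F [(4,159),(10,6),(3,256)])) (P2 2 1 (U1 4 1 (F [(4,256)]) (P4 1 2 (F [(4,155),(8,256),(10,154),(3,254)]) (F [(4,157),(8,255),(10,155),(3,256)]))) (F [(4,226),(8,115),(3,256)]))) (F [(4,256)]))))

def c102 : Cell := ⟨⟨5,11,0⟩, ⟨19,45,0⟩, ⟨18,45,1⟩, ⟨190,132,115,75⟩, ⟨189,133,115,75⟩, ⟨378,264,231,151⟩, ⟨189,132,115,76⟩⟩

def t102 : Tr :=
  F [(4,256),(10,72)]

def c103 : Cell := ⟨⟨5,11,0⟩, ⟨9,23,0⟩, ⟨8,23,1⟩, ⟨190,132,115,75⟩, ⟨95,67,57,37⟩, ⟨189,133,115,75⟩, ⟨95,66,57,38⟩⟩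

def t103 : Tr :=
  F [(4,237),(10,256)]

def c104 : Cell := ⟨⟨5,11,0⟩, ⟨1,3,0⟩, ⟨8,23,1⟩, ⟨96,66,57,37⟩, ⟨95,67,57,37⟩, ⟨190,132,115,75⟩, ⟨95,66,57,38⟩⟩

def t104 : Tr :=
  F [(4,43),(10,249),(8,256)]

def c105 : Cell := ⟨⟨5,11,0⟩, ⟨1,3,0⟩, ⟨4,11,1⟩, ⟨48,33,29,18⟩, ⟨95,67,57,37⟩, ⟨47,33,29,19⟩, ⟨96,66,57,37⟩⟩

def t105 : Tr :=
  P1 1 1 (U1 4 1 (F [(4,214),(10,62),(3,256)]) (P5 2 1 (F [(4,11480),(10,11620),(3,16384),(8,14180)]) (U0 1 4 (P3 1 2 (P1 1 2 (U1 8 1 (F [(10,34),(3,256),(4,193)]) (P5 4 1 (U0 1 8 (F [(3,256),(10,64)]) (U2 2 1 (F [(10,256)]) (P2 1 1 (P4 1 1 (P5 1 2 (F [(3,256),(10,142),(8,236),(4,157)]) (F [(3,256)])) (F [(3,256)])) (F [(3,256)])))) (F [(3,256)]))) (F [(3,16384),(10,9746),(4,10435),(8,14898)])) (F [(10,164),(3,256),(4,166),(8,241)])) (F [(4,188),(3,256),(8,20)])))) (F [(4,256),(10,230),(3,231)])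

def c106 : Cell := ⟨⟨5,11,0⟩, ⟨1,3,0⟩, ⟨4,11,1⟩, ⟨48,33,29,18⟩, ⟨24,17,14,9⟩, ⟨95,67,57,37⟩, ⟨48,33,28,19⟩⟩

def t106 : Tr :=
  F [(4,163),(10,256),(3,60)]

def c107 : Cell := ⟨⟨3,5,0⟩, ⟨5,11,0⟩, ⟨4,11,1⟩, ⟨48,33,29,18⟩, ⟨24,17,14,9⟩, ⟨47,33,29,19⟩, ⟨48,33,28,19⟩⟩

def t107 : Tr :=
  F [(4,256)]

theorem g8 : ∀ c ∈ [c96, c97, c98, c99, c100, c101, c102, c103, c104, c105, c106, c107], Done D c := by
  intro c hc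
  simp only [List.mem_cons, List.not_mem_nil, or_false] at hc
  rcases hc with rfl | rfl | rfl | rfl | rfl | rfl | rfl | rfl | rfl | rfl | rfl | rfl
  · exact done_of_chk (t := t96) (by decide +kernel)
  · exact done_of_chk (t := t97) (by decide +kernel)
  · exact done_of_chk (t := t98) (by decide +kernel)
  · exact done_of_chk (t := t99) (by decide +kernel)
  · exact done_of_chk (t := t100) (by decide +kernel)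
  · exact done_of_chk (t := t101) (by decide +kernel)
  · exact done_of_chk (t := t102) (by decide +kernel)
  · exact done_of_chk (t := t103) (by decide +kernel)
  · exact done_of_chk (t := t104) (by decide +kernel)
  · exact done_of_chk (t := t105) (by decide +kernel)
  · exact done_of_chk (t := t106) (by decide +kernel)
  · exact done_of_chk (t := t107) (by decide +kernel)

end Pool.Agent.W2helper59.NW.I0
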