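import Pool.Agent.W2helper59.NW.D_I0

set_option autoImplicit false
set_option maxRecDepth 1000000

namespace Pool.Agent.W2helper59.NW.I0

open Tr

def c108 : Cell := ⟨⟨3,5,0⟩, ⟨1,3,0⟩, ⟨2,5,1⟩, ⟨48,33,29,18⟩, ⟨24,17,14,9⟩, ⟨23,17,15,9⟩, ⟨47,33,29,19⟩⟩

def t108 : Tr :=
  F [(4,151),(3,256)]

def c109 : Cell := ⟨⟨1,1,0⟩, ⟨3,5,0⟩, ⟨2,5,1⟩, ⟨48,33,29,18⟩, ⟨24,17,14,9⟩, ⟨23,17,15,9⟩, ⟨12,8,7,5⟩⟩

def t109 : Tr :=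
  F [(4,256),(3,160)]

def c110 : Cell := ⟨⟨1,1,0⟩, ⟨1,3,0⟩, ⟨2,5,1⟩, ⟨24,17,15,8⟩, ⟨24,17,14,9⟩, ⟨23,17,15,9⟩, ⟨48,33,29,18⟩⟩

def t110 : Tr :=
  F [(4,169),(10,7),(3,256)]

def c111 : Cell := ⟨⟨1,1,0⟩, ⟨1,3,0⟩, ⟨2,5,1⟩, ⟨24,17,15,8⟩, ⟨12,9,7,4⟩, ⟨23,17,15,9⟩, ⟨24,17,14,9⟩⟩

def t111 : Tr :=
  F [(4,255),(10,197),(3,256)]

def c112 : Cell := ⟨⟨1,1,0⟩, ⟨1,3,0⟩, ⟨2,5,1⟩, ⟨3,2,2,1⟩, ⟨24,17,15,8⟩, ⟨23,17,15,9⟩, ⟨12,8,7,5⟩⟩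

def t112 : Tr :=
  P2 4 1 (P4 1 2 (U0 2 1 (P5 1 2 (P2 1 2 (U1 2 1 (F [(4,256)]) (P4 1 4 (U0 1 2 (P5 1 4 (F [(8,256)]) (P1 1 1 (U1 4 1 (P3 1 2 (U2 1 1 (F [(4,70),(8,184),(10,256)]) (P5 2 1 (F [(4,12),(8,256)]) (U0 2 1 (P1 1 2 (P3 1 4 (U1 1 1 (F [(4,256),(8,75),(3,235)]) (P5 4 1 (F [(8,256),(4,10),(10,157)]) (F [(4,151),(8,256),(10,152),(3,252)]))) (F [(4,10),(8,256),(10,157)])) (F [(8,256)])) (F [(4,153),(8,171),(3,256)])))) (F [(4,256)])) (P3 1 2 (U0 1 4 (F [(8,256),(3,82),(10,165)]) (P5 2 1 (F [(8,256),(4,12)]) (U2 2 1 (P1 1 2 (P3 1 4 (F [(8,16384),(4,8878),(3,15634),(10,9229)]) (F [(8,256),(10,150)])) (F [(8,256)])) (F [(8,194),(4,120),(3,256)])))) (F [(8,256)]))) (F [(8,256)]))) (F [(4,256)])) (U0 1 2 (P0 1 1 (P3 1 1 (U1 4 1 (F [(4,256),(10,165),(3,151)]) (P5 2 1 (U0 1 4 (P4 1 1 (F [(8,256)]) (P1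 2 1 (U1 8 1 (P3 2 1 (F [(8,256),(10,150)]) (F [(4,162),(8,247),(10,147),(3,256)])) (P3 2 1 (F [(8,256),(3,149),(10,64)]) (F [(8,248),(4,157),(3,256),(10,142)]))) (F [(4,162),(8,242),(3,256),(10,142)]))) (F [(4,256)])) (P1 1 2 (U0 1 4 (P3 1 2 (U1 8 1 (P5 4 1 (U2 1 1 (P4 1 1 (F [(8,256),(10,121),(3,1)]) (F [(3,256),(10,152),(8,256),(4,154)])) (F [(8,207),(3,256),(4,100)])) (F [(3,254),(10,149),(8,256),(4,149)])) (F [(3,224),(10,19),(8,256)])) (U1 8 1 (P4 2 1 (U2 1 1 (P5 1 1 (F [(8,256),(10,150)]) (F [(4,156),(10,149),(3,256),(8,252)])) (F [(8,15750),(4,9118),(3,16384),(10,7447)])) (F [(3,256),(4,158),(10,140),(8,239)])) (F [(3,256),(8,203),(4,33)]))) (U2 2 1 (P3 1 2 (P5 4 1 (U1 1 1 (P4 1 1 (F [(4,39),(8,256),(10,136)]) (F [(4,157),(8,254),(10,150),(3,256)])) (F [(4,124),(8,191),(3,256)])) (P1 1 4 (U1 1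 1 (F [(3,16384),(10,9534),(4,9831),(8,16175)]) (F [(3,256),(8,193),(4,104)])) (U1 1 1 (F [(4,157),(8,254),(3,256),(10,150)]) (F [(4,104),(8,193),(3,256)])))) (F [(4,256),(8,78),(3,239)])) (F [(4,149),(8,157),(3,256)]))) (U0 1 4 (P2 2 1 (U1 8 1 (P4 2 1 (F [(8,256),(10,148)]) (F [(4,159),(8,246),(3,256),(10,144)])) (F [(8,199),(3,256),(4,64)])) (F [(4,160),(8,130),(3,256)])) (F [(4,256)]))))) (U1 4 1 (F [(4,256)]) (P4 2 1 (U0 1 4 (P5 1 1 (F [(8,256)]) (F [(4,162),(8,242),(10,142),(3,256)])) (F [(4,256)])) (F [(4,163),(8,130),(3,256)])))) (P1 1 1 (U1 4 1 (P5 2 1 (F [(4,256)]) (P3 1 2 (U2 1 1 (F [(4,70),(8,184),(10,256)]) (U0 2 1 (P1 1 2 (P5 4 1 (F [(4,46),(8,256),(10,168)]) (F [(4,10220),(8,15805),(10,9617),(3,16384)])) (F [(4,12),(8,256)])) (F [(4,256),(3,247)]))) (F [(4,256)]))) (P5 2 1 (F [(8,256)]) (P3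 1 2 (U0 1 4 (P1 1 2 (U1 8 1 (P5 4 1 (F [(8,256),(3,2),(10,97)]) (F [(3,251),(8,256),(10,149),(4,148)])) (F [(3,175),(8,256)])) (F [(8,256),(3,5)])) (U2 2 1 (P1 1 2 (P5 4 1 (F [(4,25),(8,256),(10,136)]) (P3 1 4 (F [(8,256),(3,254),(4,150),(10,149)]) (F [(4,146),(8,256),(3,242),(10,147)]))) (F [(4,12),(8,256)])) (F [(4,149),(8,157),(3,256)]))) (F [(8,256),(3,5)])))) (F [(8,256)]))) (F [(4,256)])))) (U1 2 1 (F [(4,256)]) (U0 1 2 (P1 2 1 (P4 1 1 (P5 1 1 (F [(4,126),(8,256),(3,209)]) (U1 4 1 (P3 1 2 (U2 1 1 (P1 1 2 (P5 2 1 (F [(4,256),(8,30)]) (F [(4,164),(8,252),(10,162),(3,256)])) (F [(4,256),(3,169)])) (P1 1 2 (U0 2 1 (P5 2 1 (F [(4,256),(8,30)]) (F [(4,157),(8,233),(3,256),(10,137)])) (F [(4,248),(3,256)])) (F [(4,256),(3,169)]))) (F [(4,256)])) (P3 1 2 (U0 1 4 (F [(8,16041),(3,16384),(4,9475),(10,8933)])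 (P1 1 2 (U2 2 1 (P5 2 1 (F [(4,256),(8,143),(3,97)]) (F [(8,226),(4,148),(3,256),(10,119)])) (F [(4,149),(8,109),(3,256)])) (F [(4,256),(8,81),(3,242)]))) (F [(8,256),(3,5)])))) (P3 1 1 (U1 4 1 (F [(4,220),(10,48),(3,256)]) (F [(4,150),(8,83),(3,256)])) (F [(4,164),(8,87),(3,256)]))) (F [(4,230),(8,113),(3,256)])) (F [(4,256)])))) (F [(4,151),(3,256)])) (F [(4,256),(3,160)])) (F [(4,165),(3,256)])) (F [(4,165),(3,256),(8,69)])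

def c113 : Cell := ⟨⟨1,0,0⟩, ⟨1,1,0⟩, ⟨0,1,1⟩, ⟨3,2,2,1⟩, ⟨6,5,3,2⟩, ⟨5,5,3,3⟩, ⟨6,4,3,3⟩⟩

def t113 : Tr :=
  F [(4,256),(10,239),(3,50)]

def c114 : Cell := ⟨⟨1,0,0⟩, ⟨0,1,0⟩, ⟨0,0,1⟩, ⟨2,1,1,0⟩, ⟨3,3,1,1⟩, ⟨3,2,2,1⟩, ⟨3,2,1,2⟩⟩

def t114 : Tr :=
  P2 2 1 (P3 1 1 (P5 1 1 (U1 1 1 (F [(4,256),(12,185),(5,135)]) (P2 1 2 (P4 1 2 (U0 1 1 (P5 1 2 (U1 2 1 (F [(8,56),(12,196),(14,256),(10,133)]) (P2 1 4 (F [(14,256),(10,170),(12,121)]) (U0 1 2 (P4 2 1 (F [(14,256),(8,14),(12,194)]) (P0 1 1 (F [(10,250),(14,256),(8,53),(12,137)]) (P1 1 1 (F [(14,256),(8,42),(10,199),(12,152)]) (F [(14,256),(8,40),(10,113),(12,195)])))) (F [(8,127),(14,256),(10,227),(12,185)])))) (U1 2 1 (F [(12,221),(8,256),(10,52),(14,18)]) (U0 1 2 (P0 1 1 (P3 1 2 (P5 2 1 (F [(14,229),(8,94),(10,256),(12,122)]) (F [(8,225),(10,256),(12,1)]))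 (F [(10,250),(14,256),(8,53),(12,137)])) (P1 1 2 (P5 2 1 (U1 4 1 (F [(8,146),(14,256),(10,225),(12,178)]) (F [(14,117),(8,127),(10,256)])) (F [(8,225),(10,256),(12,1)])) (P2 1 1 (U1 4 1 (F [(8,143),(14,256),(10,173),(12,201)]) (F [(14,156),(8,109),(10,256)])) (F [(8,177),(14,253),(10,256),(12,183)])))) (U2 2 1 (P0 1 1 (P3 1 2 (F [(8,256),(10,70),(12,96)]) (F [(10,256),(8,150),(12,169),(14,239)])) (F [(8,256),(12,119)])) (F [(8,256),(14,3),(10,229)]))))) (F [(4,4),(8,256),(12,131)])) (F [(12,1),(10,256),(8,213)])) (F [(12,55),(8,233),(10,256)]))) (U1 1 1 (F [(4,256),(12,182)]) (U0 1 1 (P0 1 1 (P3 1 2 (P5 2 1 (F [(4,48),(10,256),(8,187)]) (U1 2 1 (F [(4,256),(10,70)]) (P1 1 4 (U0 1 2 (P3 1 4 (P5 4 1 (U1 4 1 (P2 1 2 (P4 1 2 (U2 1 1 (F [(10,256),(4,127)]) (U0 2 1 (F [(10,176),(3,189),(4,123),(8,256)]) (P5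 1 2 (P4 1 4 (F [(8,256),(4,47),(10,185)]) (U2 2 1 (F [(10,256),(4,71),(8,194)]) (P1 1 1 (U0 4 1 (F [(10,256),(8,210),(4,3)]) (P3 1 1 (F [(8,256),(10,127)]) (P4 2 1 (F [(8,256),(10,150)]) (F [(4,175),(10,153),(8,244),(3,256)])))) (F [(10,256),(4,221),(8,91)])))) (P1 1 2 (F [(4,164),(10,134),(8,240),(3,256)]) (F [(4,181),(10,157),(8,255),(3,256)]))))) (F [(10,63),(3,256),(4,246)])) (F [(10,63),(4,246),(3,256)])) (P2 1 2 (P4 1 2 (U0 1 4 (F [(3,220),(10,242),(8,256)]) (U2 2 1 (F [(10,253),(3,218),(8,256)]) (P5 1 2 (P4 1 4 (F [(8,256),(10,186),(4,10)]) (U0 2 1 (F [(10,231),(3,102),(8,256)]) (P1 1 1 (U2 4 1 (F [(10,228),(3,105),(8,256)]) (P3 1 1 (F [(8,256),(3,101)]) (P4 2 1 (F [(8,256),(10,150)]) (F [(3,256),(10,142),(8,244),(4,166)])))) (U2 4 1 (F [(10,256),(8,153),(4,4)]) (P2 2 1 (P4 2 1 (F [(8,256),(10,150)])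 (F [(10,159),(8,250),(3,256),(4,172)])) (F [(10,162),(4,175),(8,250),(3,256)])))))) (P1 1 2 (F [(3,256),(10,95),(8,210),(4,141)]) (U0 2 1 (F [(10,256),(3,249),(8,245)]) (P2 1 1 (F [(8,245),(10,142),(3,256),(4,166)]) (F [(10,157),(3,256),(4,173),(8,248)]))))))) (U0 1 4 (F [(3,256),(10,178)]) (U2 2 1 (F [(10,193),(3,256)]) (P0 1 2 (F [(3,256),(4,145)]) (P1 1 2 (F [(3,256),(8,1),(4,172)]) (F [(10,138),(3,256),(4,186),(8,188)])))))) (U0 1 4 (F [(10,178),(3,256)]) (P1 1 1 (U2 2 1 (F [(10,193),(3,256)]) (P4 2 1 (P5 2 1 (F [(10,166),(3,256),(4,193),(8,231)]) (F [(3,256),(4,172),(8,1)])) (F [(3,256),(4,154),(8,24)]))) (F [(10,256),(3,55),(4,176)]))))) (F [(3,256),(4,166),(8,4)])) (P4 1 1 (U1 4 1 (P2 1 2 (P5 1 2 (U2 1 1 (F [(10,256),(4,73),(8,139)]) (U0 2 1 (F [(10,256),(4,4),(8,146)]) (P4 1 2 (P5 1 4 (F [(10,194),(8,256),(4,32)])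 (F [(10,256),(4,221),(8,91)])) (F [(10,256),(4,81),(3,69)])))) (F [(10,96),(3,224),(4,256)])) (F [(10,256),(4,130)])) (P2 1 2 (P5 1 2 (U0 1 4 (F [(10,256),(3,79),(8,216)]) (U2 2 1 (F [(10,256),(8,147)]) (P4 1 2 (P5 1 4 (F [(10,213),(8,256),(4,23)]) (U0 2 1 (F [(10,256),(3,74),(8,188)]) (U2 4 1 (F [(10,256),(8,127)]) (P2 2 1 (P3 1 1 (P5 2 1 (F [(10,158),(8,256)]) (F [(10,170),(3,256),(8,252),(4,173)])) (F [(10,256),(8,212)])) (F [(10,256),(4,140),(3,25)]))))) (F [(10,256),(3,69),(4,81)])))) (F [(10,230),(3,223),(4,256)])) (F [(10,256),(4,128)]))) (F [(10,256),(3,10)]))) (U2 2 1 (P3 1 4 (P5 4 1 (P2 1 2 (P4 1 2 (F [(4,256),(3,31)]) (F [(4,256),(3,224)])) (F [(4,256),(3,121)])) (F [(4,256),(3,121)])) (P4 1 1 (P2 1 2 (P5 1 2 (F [(4,256),(10,84),(8,16)]) (F [(4,256),(10,38),(3,224)])) (F [(4,130),(10,256)]))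 (F [(10,256),(4,30),(3,33)]))) (P3 1 4 (P5 4 1 (P2 1 2 (P4 1 2 (F [(4,256),(3,31)]) (F [(4,256),(3,224)])) (F [(4,256),(3,121)])) (F [(4,256),(3,121)])) (P4 1 1 (P2 1 2 (P5 1 2 (F [(4,256),(8,16),(10,84)]) (F [(4,256),(10,38),(3,224)])) (F [(4,140),(10,256),(3,6)])) (F [(4,220),(10,256),(3,128)]))))) (F [(10,256),(4,64),(8,172)])))) (F [(10,256),(4,24),(8,119)])) (P1 1 2 (P5 2 1 (F [(4,50),(10,244),(8,256)]) (U1 2 1 (F [(4,256)]) (P3 1 4 (U0 1 2 (P1 1 4 (P5 4 1 (U1 4 1 (P2 1 2 (P4 1 2 (U2 1 1 (F [(10,256),(4,127)]) (U0 2 1 (F [(10,174),(4,122),(8,256),(3,189)]) (P5 1 2 (F [(4,54),(8,256),(10,185)]) (F [(4,186),(8,256),(10,149),(3,217)])))) (F [(10,104),(4,244),(3,256),(8,97)])) (F [(4,200),(10,110),(3,256),(8,179)])) (P2 1 2 (P4 1 2 (U0 1 4 (F [(3,256),(10,138),(8,130)]) (U2 2 1 (F [(10,162),(3,98),(8,256)])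 (P5 1 2 (F [(8,256),(10,158)]) (P3 1 2 (F [(8,256),(3,253),(10,133),(4,162)]) (F [(8,256),(10,140),(3,99),(4,66)]))))) (U0 1 4 (F [(10,70),(3,256)]) (P3 1 1 (U2 2 1 (F [(10,183),(3,235),(8,256),(4,150)]) (P5 2 1 (F [(10,176),(4,191),(3,255),(8,256)]) (F [(3,256),(10,110),(8,208),(4,172)]))) (F [(10,200),(3,239),(4,204),(8,256)])))) (F [(10,80),(3,256),(4,181),(8,150)]))) (F [(3,256),(4,166),(8,4)])) (P2 1 1 (U1 4 1 (F [(4,163),(10,232),(8,256)]) (P4 1 2 (P5 1 2 (F [(10,161),(8,256),(4,1)]) (U0 1 4 (F [(10,168),(3,256),(8,248),(4,171)]) (U2 2 1 (F [(10,186),(4,194),(8,245),(3,256)]) (P3 1 2 (F [(4,193),(8,244),(10,121),(3,256)]) (F [(4,159),(8,256),(10,199),(3,169)]))))) (U0 1 4 (F [(10,170),(3,256),(4,174),(8,247)]) (F [(10,230),(4,256),(3,201),(8,156)])))) (F [(4,209),(10,149),(8,215),(3,256)]))) (F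 [(4,256),(8,2)])) (F [(4,66),(10,256),(8,219)])))) (F [(4,50),(8,256),(10,244)]))) (F [(4,256),(10,30)])))) (P4 1 1 (U1 1 1 (F [(4,256),(12,185),(5,135)]) (P2 1 2 (P5 1 2 (U0 1 1 (P4 1 2 (U1 2 1 (F [(12,196),(8,55),(10,133),(14,256)]) (P2 1 4 (F [(14,256),(10,169),(12,123)]) (F [(14,256),(10,144),(8,54),(12,190)]))) (F [(12,224),(10,173),(14,256),(8,77)])) (U2 2 1 (P4 1 2 (F [(8,256),(12,214),(14,79),(10,13)]) (F [(12,240),(10,256),(8,225),(14,144)])) (F [(8,256),(14,18),(10,237)]))) (F [(12,43),(10,256),(8,144),(14,54)])) (U0 1 1 (P0 1 1 (F [(12,48),(10,256),(8,142),(14,60)]) (F [(12,9),(10,256),(8,216)])) (F [(4,256),(10,188)])))) (F [(12,256),(4,2),(10,27)]))) (P0 2 1 (P3 1 1 (U1 1 1 (F [(4,256),(12,74)]) (U0 1 1 (P1 1 2 (P3 1 2 (P5 2 1 (F [(4,171),(10,256)]) (F [(4,247),(10,34),(3,256)])) (F [(4,150),(10,256)]))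 (F [(12,256)])) (F [(4,256),(10,52)]))) (F [(12,256),(4,7),(10,20)])) (P1 2 1 (U1 1 1 (F [(4,256)]) (U0 1 1 (P3 1 2 (P1 1 2 (P5 2 1 (F [(4,256),(10,133),(3,154)]) (F [(4,238),(10,12),(3,256)])) (F [(4,256),(10,24),(3,168)])) (F [(4,66),(12,256)])) (F [(4,256)]))) (F [(4,256),(12,42)])))

def c115 : Cell := ⟨⟨1,0,0⟩, ⟨0,1,0⟩, ⟨0,0,1⟩, ⟨2,1,1,0⟩, ⟨1,1,0,0⟩, ⟨3,3,1,1⟩, ⟨3,2,1,2⟩⟩

def t115 : Tr :=
  P4 4 1 (P2 2 1 (P4 1 2 (P5 1 1 (U1 1 1 (F [(4,203),(12,256),(8,113),(5,205),(14,3)]) (P2 1 2 (U0 1 1 (P4 1 4 (P5 1 2 (F [(14,256),(12,207),(8,25)]) (F [(12,238),(10,100),(14,256),(8,47)])) (F [(12,256),(10,15),(14,237),(8,7)])) (U2 2 1 (P4 1 4 (P5 1 2 (F [(8,51),(12,224),(14,256),(10,4)]) (F [(12,178),(4,132),(10,183),(14,256)])) (F [(12,186),(4,178),(10,229),(14,256)])) (F [(8,250),(10,256),(14,20)]))) (U0 1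 1 (P0 2 1 (F [(12,256),(10,83),(8,52),(14,226)]) (P1 1 1 (F [(12,118),(10,256),(8,148),(14,127)]) (F [(12,1),(10,256),(8,239)]))) (F [(4,256),(10,188)])))) (F [(12,256),(4,2),(10,27)])) (F [(12,256),(4,20)])) (F [(4,101),(12,256)])) (F [(12,256),(4,49)])

def c116 : Cell := ⟨⟨1,0,0⟩, ⟨0,1,0⟩, ⟨0,0,1⟩, ⟨7,2,5,2⟩, ⟨3,2,2,1⟩, ⟨1,1,1,1⟩, ⟨3,2,1,2⟩⟩

def t116 : Tr :=
  P1 1 4 (P2 1 4 (P3 1 2 (P5 2 1 (U1 1 1 (P4 1 2 (F [(8,256),(14,122),(12,112)]) (U2 1 1 (F [(4,20),(8,256),(10,152)]) (U0 2 1 (P3 1 1 (F [(8,256)]) (F [(4,74),(8,256),(10,196),(3,27)])) (F [(4,256),(8,188)])))) (P4 1 2 (F [(8,256),(14,143),(12,60)]) (U0 1 1 (F [(8,256),(10,69),(3,37)]) (U2 2 1 (P3 1 1 (F [(8,256)]) (P0 1 4 (P4 2 1 (F [(8,256)]) (F [(8,256),(4,20),(10,64),(3,76)])) (F [(8,256)]))) (F [(8,256),(4,33),(3,127)]))))) (U1 1 1 (U2 1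 1 (F [(4,19),(8,256),(10,147)]) (P1 1 16 (U0 2 1 (P3 1 4 (F [(8,256),(10,9),(3,41)]) (P4 1 1 (F [(8,256),(10,9),(3,41)]) (F [(4,20),(8,256),(10,63),(3,78)]))) (F [(4,14),(8,256),(3,11)])) (U0 2 1 (P4 1 1 (F [(8,256)]) (F [(4,20),(8,256),(10,63),(3,78)])) (F [(4,256),(8,188)])))) (U0 1 1 (F [(8,256),(10,69),(3,38)]) (P1 1 16 (U2 2 1 (P3 1 4 (F [(8,256),(10,42),(3,31)]) (P4 1 1 (F [(8,256),(10,42),(3,31)]) (F [(8,256),(10,13),(3,97)]))) (F [(8,256),(4,10),(3,43)])) (U2 2 1 (P4 1 1 (F [(8,256)]) (F [(8,256),(10,13),(3,97)])) (F [(8,256),(4,33),(3,127)])))))) (P4 1 1 (U1 1 1 (P5 1 2 (F [(8,256),(12,179),(14,94)]) (F [(4,110),(8,172),(10,256),(3,6)])) (P5 1 2 (F [(8,256),(14,56),(12,28)]) (U0 1 1 (F [(8,256),(10,68),(3,31)]) (U2 2 1 (P3 1 1 (P1 1 4 (P5 2 1 (F [(8,256),(4,12),(10,110)]) (F [(8,256),(4,18),(10,64),(3,67)]))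 (F [(8,256),(4,88),(12,38)])) (F [(8,256),(4,88),(12,38)])) (F [(4,31),(8,256),(3,121)]))))) (U1 1 1 (U2 1 1 (F [(4,82),(8,190),(10,256)]) (U0 2 1 (F [(4,120),(8,149),(10,256)]) (F [(4,256)]))) (U0 1 1 (P0 1 8 (P3 2 1 (P5 1 1 (U1 2 1 (P4 1 2 (F [(8,256),(4,3),(10,169)]) (U2 1 1 (P3 1 1 (F [(4,1),(8,256),(10,129)]) (P0 1 4 (U1 1 2 (F [(4,213),(10,256)]) (P4 2 1 (F [(4,27),(8,256),(10,195)]) (F [(10,112),(4,94),(8,256),(3,206)]))) (F [(4,1),(8,256),(10,129)]))) (U0 2 1 (P3 1 1 (F [(8,256),(10,124)]) (P0 1 4 (P4 2 1 (F [(8,256),(4,1),(10,124)]) (F [(8,256),(3,206),(4,89),(10,102)])) (F [(8,256),(10,124)]))) (F [(8,256),(4,75),(3,170)])))) (P4 1 2 (F [(8,256),(10,166)]) (F [(8,256),(3,105),(10,17)]))) (U1 2 1 (U2 1 1 (P1 1 8 (P3 1 2 (P5 2 1 (U1 1 2 (P4 1 2 (F [(8,256),(10,135),(4,2)]) (F [(10,133),(8,256),(4,67),(3,176)]))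 (F [(8,256),(10,123),(3,130)])) (F [(3,177),(10,129),(8,256),(4,65)])) (P4 1 1 (U1 1 2 (P5 1 2 (F [(4,24),(8,256),(10,160)]) (F [(10,132),(4,77),(8,256),(3,176)])) (F [(8,256),(10,81),(3,113)])) (F [(10,129),(3,231),(8,256),(4,104)]))) (P4 1 1 (F [(8,256),(4,1),(10,129)]) (P0 1 4 (F [(4,93),(8,256),(10,111),(3,207)]) (F [(4,1),(8,256),(10,129)])))) (P1 1 8 (U0 2 1 (P3 1 2 (F [(3,135),(8,256),(4,5)]) (P4 1 1 (F [(8,256),(3,126),(4,9)]) (F [(3,232),(8,256),(10,122),(4,101)]))) (F [(8,256),(3,170),(4,61)])) (U0 2 1 (P4 1 1 (F [(8,256),(10,124)]) (F [(8,256),(4,50),(3,203)])) (F [(8,256),(4,72),(3,168)])))) (F [(3,138),(8,256)]))) (P4 2 1 (U1 2 1 (P5 1 2 (F [(4,18),(8,256),(10,184)]) (U2 1 1 (P3 1 1 (P1 1 4 (F [(4,143),(10,256),(8,202),(3,141)]) (F [(4,60),(8,256),(10,248)])) (F [(4,71),(8,183),(10,256)]))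 (U0 2 1 (P3 1 1 (P1 1 4 (P5 2 1 (F [(4,30),(8,256),(10,150)]) (F [(4,133),(8,256),(3,247),(10,134)])) (F [(4,92),(8,256),(10,214)])) (F [(4,191),(8,126),(10,256)])) (F [(4,117),(8,256),(3,204)])))) (P5 1 2 (F [(8,256),(4,3),(10,170)]) (U0 1 2 (F [(8,256),(3,115),(10,190)]) (U2 2 1 (P3 1 1 (F [(8,256),(3,128),(10,52)]) (F [(8,256),(4,1),(10,120)])) (F [(8,256),(4,76),(3,179)]))))) (U1 2 1 (U2 1 1 (P0 1 16 (F [(4,256),(10,227),(3,231)]) (F [(4,119),(8,256),(10,157),(3,181)])) (U0 2 1 (P0 1 16 (P3 4 1 (P5 1 1 (F [(4,256),(10,218),(3,84)]) (F [(4,166),(8,230),(3,256),(10,125)])) (F [(4,256),(10,140),(3,139)])) (P5 1 1 (F [(4,197),(8,112),(10,256)]) (F [(4,111),(8,256),(10,94),(3,208)]))) (F [(4,226),(8,146),(3,256)]))) (U0 1 2 (P0 1 16 (P3 4 1 (P5 1 1 (U1 4 1 (P4 1 2 (F [(8,256),(10,134),(3,79)]) (F [(3,256),(10,104),(8,223),(4,128)]))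 (F [(3,174),(10,65),(8,256)])) (F [(3,200),(10,81),(8,256),(4,58)])) (P4 4 1 (U1 4 1 (P5 1 2 (F [(8,256),(10,114),(3,139),(4,88)]) (F [(3,256),(10,87),(8,191),(4,149)])) (F [(3,152),(10,34),(8,256)])) (F [(3,256),(10,56),(8,143),(4,160)]))) (F [(8,256),(3,95),(10,136)])) (U2 2 1 (P0 1 16 (P3 4 1 (P5 1 1 (P4 1 2 (F [(4,74),(8,256),(10,116),(3,125)]) (F [(4,136),(8,243),(3,256),(10,98)])) (F [(3,256),(8,245),(4,131),(10,94)])) (P4 4 1 (P5 1 2 (F [(4,101),(8,256),(10,109),(3,138)]) (F [(4,160),(8,141),(3,256),(10,60)])) (F [(4,238),(3,256),(8,73)]))) (P5 1 1 (F [(8,256),(4,1),(10,120)]) (F [(8,256),(3,123),(10,45)]))) (F [(4,130),(8,256),(3,241)])))))) (F [(8,256),(10,68),(3,31)])) (U2 2 1 (P0 1 8 (P3 2 1 (P5 1 1 (F [(4,256),(8,50)]) (U1 1 1 (P1 1 8 (U2 1 2 (P3 1 2 (P5 2 1 (F [(4,174),(8,256),(10,96),(3,169)])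 (F [(4,86),(8,256),(10,138),(3,187)])) (F [(4,256),(3,100)])) (F [(4,71),(8,256),(3,164)])) (F [(4,256),(8,66)])) (F [(4,72),(8,256),(3,168)]))) (F [(4,256)])) (P5 1 1 (F [(4,256),(8,152)]) (F [(4,18),(8,256),(10,64),(3,67)]))) (F [(4,35),(8,256),(3,61)])))))) (P3 1 2 (U1 1 1 (U2 1 1 (F [(4,20),(8,256),(10,62),(3,67)]) (F [(4,19),(8,256),(3,116),(10,13)])) (F [(8,256),(4,2),(3,114)])) (U1 1 1 (U2 1 1 (F [(4,91),(8,256),(10,131),(3,93)]) (U0 2 1 (P4 8 1 (F [(4,25),(8,256),(10,41),(3,105)]) (F [(4,183),(8,255),(3,256),(10,100)])) (F [(4,256)]))) (U0 1 1 (P4 8 1 (F [(8,256),(3,73),(10,67)]) (P0 1 4 (P3 2 1 (U1 2 1 (U2 1 1 (P1 1 4 (P5 8 1 (F [(4,101),(8,256),(10,131),(3,173)]) (F [(3,236),(8,256),(10,119),(4,95)])) (P2 2 1 (F [(4,105),(8,256),(10,139),(3,175)]) (F [(4,111),(8,226),(3,256)]))) (F [(8,256),(4,60),(3,209)]))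 (F [(8,256),(3,187),(4,23)])) (U1 2 1 (U2 1 1 (P4 16 1 (P2 2 1 (F [(4,117),(8,256),(10,141),(3,187)]) (F [(4,158),(8,185),(3,256),(10,70)])) (F [(4,171),(8,148),(10,79),(3,256)])) (U0 2 1 (P4 16 1 (F [(4,96),(8,256),(3,239)]) (F [(4,161),(8,162),(3,256),(10,63)])) (F [(4,159),(8,205),(3,256)]))) (U0 1 2 (P4 16 1 (F [(8,256),(3,95),(10,80)]) (F [(3,256),(8,199),(10,61),(4,126)])) (U2 2 1 (P4 16 1 (F [(8,256),(3,123),(10,8)]) (F [(8,187),(3,256),(4,141),(10,33)])) (F [(4,136),(8,207),(3,256)]))))) (F [(8,256),(3,78),(10,52)]))) (U2 2 1 (P4 8 1 (F [(4,18),(8,256),(3,99),(10,47)]) (P0 1 4 (P3 2 1 (F [(4,90),(8,256),(3,176),(10,43)]) (F [(4,256)])) (F [(4,60),(8,256),(3,142),(10,53)]))) (F [(4,35),(8,256),(3,61)])))))) (P2 1 2 (P5 1 4 (P4 1 1 (F [(8,256),(14,95),(12,62)]) (U1 1 1 (F [(4,256),(8,80)]) (U0 1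 1 (P3 8 1 (F [(8,256),(12,3)]) (P0 1 4 (P4 2 1 (F [(8,256),(4,2),(10,145)]) (U1 2 1 (F [(4,256),(8,30)]) (U0 1 2 (P3 16 1 (F [(8,256),(4,2),(10,72)]) (P0 1 8 (P4 4 1 (F [(8,256),(3,139),(4,90),(10,113)]) (F [(3,256),(8,175),(4,164),(10,73)])) (F [(8,256),(4,2),(10,72)]))) (F [(4,256),(8,99),(3,94)])))) (F [(8,256),(12,3)]))) (F [(4,256),(8,74)])))) (U1 1 1 (F [(4,256),(8,97)]) (U0 1 1 (P4 8 1 (F [(8,256),(4,7)]) (P0 1 4 (P3 4 1 (F [(8,256),(4,7)]) (U1 2 1 (F [(4,256),(8,33)]) (U0 1 2 (P4 16 1 (F [(8,256),(4,2)]) (F [(8,178),(3,256),(4,161)])) (F [(4,256),(8,126),(3,130)])))) (F [(8,256),(4,7)]))) (F [(4,256),(8,74)])))) (U1 1 1 (F [(4,256),(8,39)]) (P0 1 2 (U0 1 1 (P3 4 1 (F [(8,256),(4,8)]) (P4 4 1 (F [(4,8),(8,256)]) (F [(4,10393),(8,13922),(3,16384)]))) (F [(4,256),(8,52)])) (F [(4,40),(8,256)]))))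

def c117 : Cell := ⟨⟨1,0,0⟩, ⟨0,1,0⟩, ⟨0,0,1⟩, ⟨7,2,5,2⟩, ⟨2,1,1,0⟩, ⟨3,2,2,1⟩, ⟨3,2,1,2⟩⟩

def t117 : Tr :=
  P4 2 1 (P2 1 2 (P5 1 1 (U1 1 1 (F [(4,104),(12,256),(8,64),(14,207)]) (P4 1 2 (F [(8,256),(14,98),(12,66)]) (F [(8,256),(12,5)]))) (U1 1 1 (F [(4,256),(12,182)]) (U0 1 1 (P0 1 2 (P3 1 2 (P5 2 1 (F [(4,29),(8,256),(10,188)]) (P1 1 8 (U1 2 1 (F [(4,256)]) (U0 1 2 (P3 1 4 (P5 4 1 (U1 4 1 (P4 1 2 (F [(4,90),(8,256),(10,113),(3,139)]) (F [(4,193),(8,234),(10,121),(3,256)])) (P4 1 2 (F [(8,256),(3,118),(10,71)]) (F [(8,229),(4,173),(3,256),(10,100)]))) (P1 1 16 (F [(3,256),(4,175),(10,3)]) (F [(4,11037),(8,16384),(3,16118),(10,7247)]))) (P4 1 1 (U1 4 1 (F [(4,140),(8,256),(10,200)]) (P5 1 2 (F [(8,256),(4,1),(10,135)]) (F [(8,256),(4,139),(10,103),(3,193)]))) (F [(4,161),(8,256),(10,121),(3,202)])))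 (F [(4,256),(8,2)]))) (F [(4,28),(8,256),(10,185)]))) (F [(4,34),(8,256),(10,196)])) (P1 1 4 (P5 2 1 (F [(4,2),(8,256),(10,145)]) (P3 1 8 (U1 2 1 (F [(4,256)]) (U0 1 2 (P1 1 8 (P5 4 1 (F [(8,256),(4,90),(3,139),(10,113)]) (P3 1 16 (F [(3,256),(8,123),(4,166),(10,45)]) (F [(8,256),(4,135),(3,208),(10,113)]))) (F [(8,256),(4,2),(10,102)])) (F [(4,256),(8,2)]))) (F [(4,2),(8,256),(10,143)]))) (F [(8,256),(12,3)]))) (F [(4,256),(8,60)])))) (P0 1 1 (U1 1 1 (F [(4,256)]) (U0 1 1 (P4 2 1 (P5 4 1 (F [(4,13),(8,256)]) (P1 1 4 (P3 1 8 (U1 2 1 (F [(4,256)]) (F [(4,162),(8,214),(3,256)])) (F [(4,7),(8,256)])) (F [(4,11),(8,256)]))) (P0 1 2 (P3 1 2 (P5 8 1 (F [(4,79),(8,256),(10,237)]) (U1 2 1 (F [(4,256)]) (P1 1 8 (U0 1 2 (P3 1 4 (F [(4,182),(8,168),(3,256)]) (F [(4,221),(8,171),(10,86),(3,256)])) (F [(4,256),(3,181)]))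 (F [(4,181),(8,256),(10,221)])))) (F [(4,256),(10,141)])) (P1 1 4 (P5 8 1 (F [(4,7),(8,256)]) (U1 2 1 (F [(4,256)]) (P3 1 8 (F [(4,162),(8,214),(3,256)]) (F [(4,6),(8,256)])))) (F [(4,11),(8,256)])))) (F [(4,256)]))) (U1 1 1 (F [(4,256)]) (P1 1 2 (U0 1 1 (P5 4 1 (F [(4,13),(8,256)]) (P3 1 4 (F [(4,11675),(8,10796),(3,16384)]) (F [(4,11),(8,256)]))) (F [(4,256)])) (F [(4,45),(8,256)]))))) (P0 1 4 (P3 2 1 (U1 1 1 (F [(4,256)]) (U0 1 1 (P1 1 4 (P2 1 4 (P3 1 2 (P5 2 1 (F [(4,256),(10,116),(3,144)]) (U1 2 1 (F [(4,256)]) (U0 1 2 (F [(4,16101),(3,16384)]) (F [(4,256),(3,214)])))) (F [(4,256),(3,163)])) (P3 1 2 (U1 2 1 (F [(4,256)]) (U0 1 2 (F [(4,16101),(3,16384)]) (F [(4,256),(3,219)]))) (F [(4,256),(3,213)]))) (F [(4,256)])) (F [(4,256)]))) (F [(4,256)])) (P2 1 1 (U1 1 1 (F [(4,256)]) (U0 1 1 (P3 1 4 (P4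 1 4 (P1 1 4 (P5 2 1 (F [(4,256),(10,60)]) (U1 2 1 (F [(4,256)]) (U0 1 2 (F [(4,16101),(3,16384)]) (F [(4,256),(3,214)])))) (F [(4,248),(8,256)])) (P1 1 4 (U1 2 1 (F [(4,256)]) (U0 1 2 (F [(4,16101),(3,16384)]) (F [(4,256),(3,219)]))) (F [(4,256),(8,229)]))) (F [(4,256)])) (F [(4,256)]))) (U1 1 1 (F [(4,256)]) (P1 1 2 (U0 1 1 (P3 1 4 (P5 4 1 (F [(4,256),(8,229)]) (F [(4,245),(3,256)])) (F [(4,256),(8,7)])) (F [(4,256)])) (F [(4,45),(8,256)])))))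

def c118 : Cell := ⟨⟨1,0,0⟩, ⟨0,1,0⟩, ⟨0,0,1⟩, ⟨1,0,1,0⟩, ⟨2,1,1,0⟩, ⟨1,1,1,1⟩, ⟨7,2,5,2⟩⟩

def t118 : Tr :=
  P1 2 1 (P3 1 1 (P5 4 1 (P0 1 1 (U1 1 1 (F [(4,256),(8,39)]) (P4 2 1 (F [(4,65),(8,256),(13,142)]) (U0 1 1 (F [(4,174),(8,153),(3,256)]) (F [(4,256),(8,52)])))) (F [(4,209),(8,256),(13,40)])) (P1 1 2 (P3 1 2 (U1 1 1 (U2 1 1 (P5 8 1 (F [(4,104),(8,174),(3,256)]) (P1 1 4 (F [(4,19),(8,256),(3,54),(10,85)]) (F [(4,68),(8,165),(3,256)]))) (P5 8 1 (F [(4,107),(8,175),(3,256)]) (P1 1 4 (F [(4,19),(8,256),(3,113),(10,17)]) (F [(4,85),(8,169),(3,256)])))) (U0 1 1 (F [(8,256),(3,254)]) (P5 8 1 (F [(4,103),(8,193),(3,256)]) (P1 1 4 (F [(8,256),(3,173),(4,15)]) (F [(8,185),(4,85),(13,7),(3,256)]))))) (U1 1 1 (F [(4,157),(8,106),(3,256),(10,26)]) (U0 1 1 (P0 1 2 (P4 4 1 (F [(8,256),(3,154)]) (P3 2 1 (F [(3,256),(8,170),(4,78)])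 (F [(3,256),(8,48),(4,133)]))) (F [(8,239),(3,256),(4,15)])) (F [(4,139),(8,90),(3,256)])))) (P0 1 1 (U1 1 1 (F [(4,256),(13,194)]) (U0 1 1 (F [(8,211),(4,163),(3,256)]) (F [(4,98),(8,256)]))) (F [(4,60),(13,256),(8,112),(14,157)])))) (P0 1 2 (P4 4 1 (U1 1 1 (F [(4,256)]) (P5 2 1 (F [(4,256),(8,49)]) (U0 1 1 (P3 1 4 (P1 1 2 (F [(4,245),(3,256)]) (F [(4,256),(3,171)])) (F [(4,256),(8,7)])) (F [(4,256)])))) (P3 2 1 (U1 1 1 (F [(4,256)]) (U0 1 1 (P5 4 1 (O 4) (P1 1 2 (P3 1 2 (F [(4,245),(3,256)]) (F [(4,256),(3,214)])) (F [(4,256),(3,171)]))) (F [(4,256)]))) (O 4))) (P1 1 1 (U1 1 1 (F [(4,256)]) (P5 2 1 (F [(4,65),(8,256),(13,153)]) (U0 1 1 (P3 1 2 (F [(4,238),(3,256)]) (F [(4,256),(8,81),(13,117),(3,184)])) (F [(4,256)])))) (F [(4,104),(13,256),(8,121),(14,47)])))) (P0 2 1 (F [(4,256),(13,98),(8,240)])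 (P2 8 1 (F [(4,143),(13,256),(8,56),(14,106)]) (F [(13,256),(4,42),(14,91)])))

def c119 : Cell := ⟨⟨1,0,0⟩, ⟨0,1,0⟩, ⟨0,0,1⟩, ⟨1,0,1,0⟩, ⟨1,1,2,0⟩, ⟨0,0,1,0⟩, ⟨0,0,1,1⟩⟩

def t119 : Tr :=
  P1 1 2 (P5 2 1 (P2 1 2 (F [(9,256),(11,18)]) (O 0)) (O 0)) (P2 1 1 (P4 1 2 (O 6) (F [(9,256),(3,218),(11,58)])) (P0 2 1 (F [(9,256),(3,243),(0,4)]) (O 6)))

theorem g9 : ∀ c ∈ [c108, c109, c110, c111, c112, c113, c114, c115, c116, c117, c118, c119], Done D c := by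
  intro c hc
  simp only [List.mem_cons, List.not_mem_nil, or_false] at hc
  rcases hc with rfl | rfl | rfl | rfl | rfl | rfl | rfl | rfl | rfl | rfl | rfl | rfl
  · exact done_of_chk (t := t108) (by decide +kernel)
  · exact done_of_chk (t := t109) (by decide +kernel)
  · exact done_of_chk (t := t110) (by decide +kernel)
  · exact done_of_chk (t := t111) (by decide +kernel)
  · exact done_of_chk (t := t112) (by decide +kernel)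
  · exact done_of_chk (t := t113) (by decide +kernel)
  · exact done_of_chk (t := t114) (by decide +kernel)
  · exact done_of_chk (t := t115) (by decide +kernel)
  · exact done_of_chk (t := t116) (by decide +kernel)
  · exact done_of_chk (t := t117) (by decide +kernel)
  · exact done_of_chk (t := t118) (by decide +kernel)
  · exact done_of_chk (t := t119) (by decide +kernel)

end Pool.Agent.W2helper59.NW.I0
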