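import Pool.Agent.W2helper59.NW.D_I1

set_option autoImplicit false
set_option maxRecDepth 1000000

namespace Pool.Agent.W2helper59.NW.I1

open Tr

def c0 : Cell := ⟨⟨1,0,0⟩, ⟨0,1,0⟩, ⟨0,0,1⟩, ⟨1,1,0,0⟩, ⟨0,1,0,0⟩, ⟨0,0,1,0⟩, ⟨0,0,0,1⟩⟩

def t0 : Tr :=
  P3 1 1 (P5 1 1 (P2 1 2 (P4 1 2 (P5 1 2 (P2 1 4 (O 7) (P1 1 1 (O 7) (F [(25,256),(12,49),(2,149)]))) (F [(12,256),(1,24)])) (P0 1 2 (P3 1 1 (P1 1 4 (P3 1 2 (F [(16,256),(1,83)]) (F [(24,256),(16,152),(3,67),(1,23)])) (F [(24,256),(16,247),(21,81)])) (P4 2 1 (F [(24,256),(21,81),(16,247)]) (F [(10,184),(21,26),(14,256)]))) (P1 1 2 (P3 1 4 (F [(16,256),(12,100),(1,20)]) (P0 1 1 (F [(16,256),(24,108),(21,80),(3,49)]) (F [(16,256),(12,86),(18,9)]))) (P0 2 1 (P3 1 1 (F [(16,256),(2,217),(12,83)]) (F [(16,256),(12,70),(24,7),(21,141),(3,10)])) (F [(12,256),(16,164)]))))) (P1 1 1 (P4 2 1 (P5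 2 1 (P4 1 2 (P2 1 1 (F [(12,218),(16,256)]) (F [(2,256),(18,241),(10,79)])) (P3 1 1 (F [(2,256),(18,240),(10,80)]) (F [(2,256),(21,173),(10,78),(18,5)]))) (P3 1 4 (F [(18,4),(16,256)]) (P4 1 1 (F [(18,256),(24,158),(10,1)]) (F [(16,133),(24,64),(21,256),(3,1),(18,120)])))) (P3 1 1 (P5 4 1 (F [(24,211),(3,1),(21,256),(16,49),(18,80)]) (P1 1 2 (P3 1 2 (F [(16,256),(12,20),(10,22)]) (F [(24,256),(3,127),(18,7),(2,9)])) (F [(24,236),(10,256),(3,2),(16,51),(18,135)]))) (P0 1 2 (F [(10,184),(14,256),(21,26)]) (F [(10,256)])))) (P4 2 1 (P2 2 1 (P4 1 2 (P5 1 1 (F [(16,256),(12,176),(17,51)]) (F [(16,256),(2,81),(25,3),(21,107),(11,85)])) (F [(16,219),(21,256),(2,72)])) (F [(23,158),(21,256)])) (P0 1 1 (P3 2 1 (F [(21,256)]) (F [(14,256),(10,142),(21,55)])) (F [(0,158),(21,256)]))))) (P1 1 2 (P3 1 2 (P5 2 1 (P2 1 2 (O 6) (F [(14,256),(10,2),(20,130),(26,10)]))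 (O 0)) (P4 1 1 (P2 1 2 (O 9) (F [(14,256),(10,2),(20,130),(26,10)])) (P0 1 2 (F [(14,256),(10,91),(19,19),(5,1)]) (F [(14,256),(20,137),(26,19)])))) (P2 1 1 (P4 1 1 (P5 1 2 (P2 1 2 (P4 1 2 (P5 1 4 (F [(16,256),(20,57),(10,64),(15,88)]) (F [(10,241),(24,129),(3,25),(16,256)])) (F [(24,256),(3,127),(18,7),(2,9)])) (F [(24,236),(10,256),(3,2),(16,51),(18,135)])) (P0 1 1 (F [(3,256),(24,112)]) (P1 1 1 (F [(24,256),(3,56),(20,149)]) (F [(24,154),(10,256),(21,250)])))) (P0 1 2 (F [(14,220),(3,256),(27,125)]) (P1 1 1 (P5 1 1 (F [(10,256),(24,139),(0,53)]) (P3 1 2 (F [(24,16),(20,256),(7,4)]) (F [(3,256),(10,36),(24,71),(0,154)]))) (F [(10,256),(0,20)])))) (P0 1 1 (P4 2 1 (P1 1 1 (P5 1 1 (P2 1 2 (F [(10,256),(0,21)]) (P0 1 1 (F [(10,256),(14,4),(0,141)]) (P1 1 1 (F [(10,131),(24,42),(3,98),(0,256),(7,46)]) (P2 2 1 (F [(10,256),(3,47),(0,179),(15,40),(20,19),(7,151)])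 (F [(14,102),(10,168),(21,145),(7,256),(20,121)]))))) (P3 1 2 (P1 1 2 (F [(24,16),(20,256),(7,4)]) (P2 1 1 (F [(3,9),(24,3),(20,256),(15,18),(21,95)]) (F [(14,26),(20,256),(10,82),(27,177),(21,114)]))) (P0 1 1 (F [(10,256),(3,219),(24,9),(0,225),(7,191)]) (P2 1 1 (F [(3,168),(10,256),(24,8),(14,31),(15,90),(27,50),(7,208),(0,153)]) (F [(10,25),(3,148),(24,74),(27,256),(7,106)]))))) (P2 1 1 (P5 1 2 (F [(10,256),(21,27)]) (P0 1 1 (P3 1 1 (P1 1 2 (P5 2 1 (F [(21,256),(0,77),(3,55),(24,85)]) (F [(21,256),(27,120),(3,144),(7,132),(24,25),(20,87)])) (F [(10,163),(21,256),(14,29)])) (F [(10,171),(21,256),(14,24)])) (P1 1 1 (P3 1 2 (P5 2 1 (F [(10,146),(0,256),(24,84)]) (F [(21,162),(10,116),(0,16),(7,256),(3,78),(20,12)])) (F [(21,256),(10,136)])) (F [(21,256),(10,82)])))) (P0 2 1 (P3 1 1 (P5 1 1 (F [(21,256),(10,154)]) (F [(21,142),(10,139),(27,43),(0,54),(7,256),(3,109)]))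 (F [(10,200),(21,256),(14,125)])) (P1 2 1 (P5 1 1 (F [(0,256),(27,45)]) (F [(0,134),(10,219),(7,256),(3,20),(20,7)])) (F [(0,256),(21,59),(27,131)]))))) (P0 1 2 (F [(14,59),(27,256),(3,221),(7,5)]) (P1 1 1 (F [(14,141),(27,256),(3,184),(7,1),(20,35)]) (F [(14,256),(27,133),(3,28)])))) (P1 2 1 (P3 1 1 (P5 1 1 (P2 1 2 (P4 1 2 (F [(0,77),(15,83),(21,138),(10,256)]) (P0 1 2 (P3 1 1 (F [(24,256),(15,145),(21,230),(0,133)]) (P4 2 1 (F [(0,256),(10,154),(15,112),(24,133)]) (F [(21,256),(14,63),(10,107),(27,58),(15,204),(7,250),(3,120),(20,62)]))) (F [(15,256),(21,104),(10,139)]))) (P1 1 1 (P4 2 1 (F [(15,256),(21,38),(10,113)]) (P3 1 1 (F [(15,145),(24,256),(0,133),(21,230)]) (F [(0,142),(21,256),(27,117),(7,172),(20,94),(24,122),(3,134)]))) (P4 2 1 (F [(0,256)]) (P0 1 1 (P3 2 1 (F [(15,78),(21,256),(20,188),(10,23)]) (F [(27,160),(21,256),(15,64),(14,65),(20,200),(24,71),(3,15)]))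 (F [(0,256),(7,27)]))))) (P1 1 2 (P3 1 2 (F [(3,68),(20,256),(24,25),(15,155)]) (P4 1 1 (F [(20,256),(7,21),(15,96),(10,64),(14,80),(0,61),(21,42)]) (F [(20,256),(27,209),(3,61),(14,10),(10,45),(21,153)]))) (P2 1 1 (P4 1 1 (F [(24,89),(15,126),(3,4),(20,256),(21,245)]) (P0 1 2 (F [(7,51),(27,108),(20,256),(14,75),(21,164),(10,43)]) (F [(15,115),(0,11),(20,227),(24,55),(27,73),(21,256),(3,47)]))) (P0 1 1 (P4 2 1 (F [(15,256),(7,31),(27,77),(20,191),(21,138),(14,97),(10,90)]) (F [(27,10),(7,256),(20,156),(21,149),(14,239)])) (F [(15,168),(7,54),(21,256),(20,253),(10,62)]))))) (P4 1 1 (P2 1 2 (P5 1 2 (F [(0,158),(21,256)]) (P1 1 2 (P3 1 1 (P5 2 1 (F [(0,256),(10,119),(24,99)]) (F [(21,137),(0,233),(14,3),(27,127),(10,60),(7,256),(24,136),(3,160)])) (F [(0,256),(21,42),(24,64)])) (F [(0,256),(24,86)]))) (P5 2 1 (F [(0,256)]) (P0 1 1 (P3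 1 1 (P1 1 2 (F [(0,226),(14,54),(15,14),(10,132),(7,256),(24,99),(3,25)]) (F [(0,256)])) (F [(0,256),(21,20)])) (P1 1 1 (P3 1 2 (F [(27,150),(21,256),(15,62),(14,78),(20,210),(24,74),(3,2)]) (F [(0,256),(7,27)])) (F [(0,256),(7,27)]))))) (P0 1 2 (P3 2 1 (P5 1 1 (F [(0,256),(27,45)]) (F [(27,30),(21,234),(14,256),(7,211),(10,68),(15,222),(20,113)])) (F [(0,256),(27,100)])) (P1 1 1 (P5 1 1 (F [(0,256),(7,27)]) (F [(27,256),(21,212),(15,204),(14,104),(10,104),(20,185)])) (F [(0,256),(7,27)]))))) (F [(0,158),(21,256)])))))) (P4 1 1 (P2 1 2 (P5 1 2 (P4 1 2 (P2 1 4 (O 7) (F [(25,256),(12,49),(2,149)])) (F [(25,256),(2,252),(12,156)])) (P1 1 2 (P3 1 1 (P5 2 1 (P4 1 1 (F [(24,202),(16,256),(21,77),(3,8)]) (F [(21,256),(24,32),(16,38)])) (F [(21,26),(10,184),(14,256)])) (P0 1 4 (P3 2 1 (P5 1 1 (O 7) (P1 1 4 (O 2) (O 7))) (O 7)) (P5 1 1 (F [(16,256),(21,26),(10,67),(12,95)])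 (P0 2 1 (P3 1 4 (F [(21,256),(10,20),(16,1)]) (F [(16,256),(10,184),(21,4),(2,21),(24,59),(17,25),(8,142)])) (F [(21,256),(16,59),(3,15)]))))) (P1 2 1 (P3 4 1 (F [(16,256),(12,98),(10,98)]) (F [(2,256),(16,196),(12,50)])) (F [(2,167),(12,256),(16,43),(17,56)])))) (P5 2 1 (P0 1 1 (P3 4 1 (P5 1 2 (F [(16,256),(12,141),(17,64),(25,19)]) (F [(16,256),(10,98),(12,98)])) (F [(17,169),(16,256),(12,47),(23,14)])) (P2 2 1 (P5 1 2 (F [(16,256),(12,174),(17,59)]) (F [(16,256),(23,34),(21,159),(12,85),(10,28)])) (F [(23,24),(0,89),(21,209),(16,256)]))) (P0 1 1 (P3 1 1 (P1 1 2 (F [(10,184),(21,26),(14,256)]) (F [(10,85),(23,256),(21,75)])) (P4 4 1 (P1 1 1 (P3 1 4 (F [(10,256),(3,4),(8,44)]) (P4 1 2 (F [(10,256),(21,38),(3,52)]) (F [(23,199),(10,154),(2,198),(0,256),(17,102)]))) (F [(10,176),(16,256),(0,62),(2,82),(12,130)])) (P0 1 2 (P3 2 1 (P1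 1 2 (P5 4 1 (O 5) (O 2)) (O 5)) (O 5)) (P1 1 1 (P3 1 2 (P5 4 1 (O 5) (O 2)) (O 5)) (O 5))))) (P1 1 1 (P3 1 2 (F [(14,256),(10,142),(21,55)]) (F [(0,22),(23,148),(21,256)])) (F [(0,22),(23,148),(21,256)]))))) (P0 1 2 (O 2) (P1 1 1 (P5 1 1 (P2 1 2 (O 2) (F [(0,214),(10,256),(14,209)])) (F [(14,256),(10,104),(21,50)])) (P2 1 1 (P4 1 2 (P5 1 2 (O 5) (P3 1 2 (F [(0,22),(23,148),(21,256)]) (O 5))) (P5 2 1 (O 5) (P0 1 1 (O 8) (P1 1 1 (O 8) (O 5))))) (P0 2 1 (P3 1 1 (P5 1 1 (O 5) (O 8)) (O 5)) (F [(21,256),(0,39),(23,27),(16,89)]))))))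

def c1 : Cell := ⟨⟨1,0,0⟩, ⟨0,1,0⟩, ⟨0,0,1⟩, ⟨1,0,0,0⟩, ⟨1,1,0,0⟩, ⟨0,0,1,0⟩, ⟨0,0,0,1⟩⟩

def t1 : Tr :=
  P1 1 1 (P5 1 1 (P2 1 2 (P4 1 2 (P5 1 2 (P2 1 4 (O 3) (F [(25,34),(13,256),(12,171),(2,26)])) (F [(18,168),(12,256),(2,34)])) (P3 1 1 (P5 2 1 (P0 1 1 (P4 1 1 (F [(2,256),(25,56),(12,149)]) (F [(2,158),(18,256)])) (F [(2,112),(25,256)])) (P3 1 2 (P1 1 2 (F [(12,142),(18,162),(16,256),(15,235)]) (F [(2,256)])) (F [(2,158),(18,256)]))) (P0 1 2 (P4 2 1 (P5 1 1 (P2 1 2 (F [(12,118),(16,256),(17,84)]) (F [(16,256),(23,58),(18,58)])) (F [(16,256),(11,151),(2,68),(21,46),(25,2)])) (F [(23,19),(0,138),(11,256),(21,30)])) (P0 2 1 (P5 1 1 (P4 1 2 (P2 1 4 (F [(12,256),(16,54),(17,56)]) (F [(2,153),(12,160),(16,39),(11,256),(4,63)])) (F [(2,142),(18,34),(16,256),(11,249)])) (F [(2,52),(18,256),(11,105),(16,85)])) (P1 1 1 (P5 1 1 (F [(2,256),(25,173),(12,52)])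 (F [(2,158),(18,256)])) (F [(2,84),(25,256),(18,15)])))))) (P3 1 1 (P1 1 1 (P3 1 2 (P1 1 2 (P5 2 1 (P2 1 2 (F [(2,256)]) (F [(2,202),(15,256),(12,128),(1,81),(16,71),(10,97)])) (P3 1 4 (O 9) (P0 1 1 (F [(18,256),(12,71),(2,99),(16,42),(15,122),(20,218)]) (O 9)))) (P2 1 1 (P5 1 2 (F [(2,256)]) (P0 1 1 (F [(2,153),(15,256),(10,113),(12,144),(16,64),(1,53)]) (O 11))) (P0 2 1 (P3 1 1 (F [(15,256),(20,129),(18,220),(22,170)]) (F [(2,256),(18,79),(20,69),(22,45),(1,62)])) (O 6)))) (F [(2,256),(18,23),(25,1),(11,9),(10,75)])) (P2 2 1 (F [(2,256),(15,2),(11,107),(10,79)]) (F [(15,29),(24,256),(3,3),(2,88),(18,30)]))) (P4 2 1 (P2 2 1 (F [(18,256),(11,21),(0,8)]) (P0 4 1 (F [(11,256),(0,16)]) (F [(15,112),(24,256),(18,116),(3,3),(2,41)]))) (P0 1 1 (F [(0,158),(11,256)]) (P2 4 1 (F [(0,158),(11,256)]) (F [(15,209),(0,79),(24,256),(11,45),(18,14),(3,5)]))))))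 (P3 1 2 (P1 1 2 (P5 2 1 (F [(20,256),(3,5),(24,62),(1,17),(22,10)]) (O 0)) (F [(20,256),(24,76)])) (P4 1 1 (P2 1 1 (P5 1 2 (P4 1 2 (P2 1 2 (P5 1 4 (P4 1 4 (O 9) (P0 1 1 (F [(24,176),(10,236),(20,256),(16,188),(12,208),(18,174),(15,116)]) (O 9))) (P0 1 1 (F [(10,212),(24,256),(1,79),(12,99)]) (O 9))) (P0 2 1 (P3 1 1 (F [(10,256),(20,151),(11,78)]) (P4 1 1 (F [(20,256),(24,56),(18,126),(16,24),(12,9)]) (F [(24,256),(10,100),(2,41),(18,57),(22,133),(12,12),(1,53)]))) (O 6))) (F [(24,256),(10,139),(3,2),(2,139),(18,59)])) (P0 1 1 (P3 1 1 (F [(24,86),(3,122),(20,183),(15,256)]) (F [(10,256),(15,10),(21,4)])) (F [(24,256),(3,100),(20,152)]))) (P0 2 1 (P3 1 1 (F [(24,226),(20,256),(15,99)]) (F [(24,120),(15,256),(3,3),(10,163),(11,23),(18,124)])) (F [(24,188),(3,55),(20,256),(15,60)]))) (P0 1 1 (P3 2 1 (P1 1 1 (P5 1 1 (F [(15,256),(0,24),(24,127),(21,76),(11,61),(3,4)])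 (P3 1 2 (F [(20,211),(3,119),(15,256)]) (F [(15,256),(20,233),(21,142),(10,68)]))) (F [(15,204),(0,256),(11,146),(24,170),(3,4)])) (F [(0,158),(11,256)])) (P2 2 1 (P3 1 1 (P5 1 1 (F [(24,256),(3,3),(0,231),(11,33),(21,24)]) (F [(24,226),(20,256),(15,99)])) (F [(15,20),(0,256),(11,63),(24,217)])) (F [(24,152),(15,256),(20,178)])))))) (P2 1 1 (P4 1 2 (P5 1 2 (P2 1 2 (P4 1 4 (O 11) (F [(25,256),(2,36),(6,143)])) (F [(13,242),(25,256),(2,31),(6,14)])) (P3 1 2 (P1 1 1 (P5 2 1 (F [(11,197),(2,52),(18,256),(15,109)]) (P3 1 4 (P1 1 2 (O 6) (F [(15,256),(11,118),(18,67),(24,60)])) (F [(11,254),(15,256),(18,179),(24,107)]))) (P0 4 1 (F [(11,63),(18,256)]) (F [(25,119),(13,256),(18,146)]))) (P1 4 1 (P3 2 1 (F [(18,256),(11,30)]) (F [(25,256),(18,51),(13,149)])) (F [(25,256),(13,157),(2,20),(4,56)])))) (P5 2 1 (P0 1 1 (P4 2 1 (P5 1 2 (P2 1 1 (P4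 1 2 (P5 1 4 (O 3) (P3 1 1 (P1 2 1 (F [(2,143),(12,131),(16,132),(18,120),(17,40),(13,256),(23,175),(4,102)]) (F [(2,102),(17,186),(25,169),(4,256)])) (F [(12,222),(16,199),(17,256)]))) (P3 2 1 (P5 1 1 (F [(16,216),(12,256),(17,137),(23,138)]) (F [(12,246),(2,41),(4,102),(11,256),(13,6)])) (F [(16,216),(17,137),(12,256),(23,138)]))) (P1 4 1 (P3 2 1 (P5 1 2 (F [(16,103),(23,234),(17,208),(12,169),(4,39),(11,8),(13,119),(18,256)]) (F [(16,102),(23,252),(12,96),(18,256),(17,32)])) (F [(23,165),(4,256),(12,142),(11,153),(2,120),(25,27)])) (F [(23,106),(4,256),(17,78),(11,86),(0,50),(25,88)]))) (P3 1 1 (F [(11,256),(18,44),(16,138)]) (F [(11,256),(16,158),(12,32),(18,5)]))) (F [(23,73),(11,256),(0,109),(16,86)])) (P1 4 1 (P5 1 2 (P4 1 1 (P2 1 4 (P5 1 4 (O 3) (P3 2 1 (F [(12,60),(18,256),(16,74),(13,173),(17,202),(23,15)]) (O 3))) (P0 1 2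 (P3 2 1 (F [(18,256),(13,153),(12,76),(16,38),(17,192),(23,39)]) (O 3)) (F [(13,256),(25,224),(18,204)]))) (P0 1 4 (P3 4 1 (P1 1 2 (P5 1 2 (F [(4,256),(23,47),(11,96),(13,48),(16,233),(18,82),(25,75),(2,64)]) (F [(18,238),(2,89),(25,3),(23,256),(16,106),(17,101)])) (F [(23,256),(13,64),(4,116),(18,55),(17,115),(25,168),(2,60)])) (F [(23,256),(4,107),(13,103),(17,219),(18,86),(25,105)])) (P2 1 2 (P3 1 2 (P5 1 2 (F [(4,256),(25,247),(11,80),(23,111),(2,12),(16,116)]) (F [(18,256),(25,210),(13,121),(11,19),(23,228),(12,23),(16,55),(17,243)])) (F [(4,179),(11,11),(23,238),(18,113),(17,146),(25,256)])) (F [(13,178),(18,256),(2,49),(9,21)])))) (F [(11,256),(18,48),(16,57),(12,42)])) (P0 2 1 (P4 1 1 (O 3) (F [(13,129),(4,256),(9,47),(2,17)])) (O 3)))) (P0 1 1 (P3 1 1 (P1 1 2 (F [(15,256),(18,61),(24,180),(3,1)]) (F [(0,126),(11,256)])) (F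 [(11,256),(0,126)])) (P1 1 1 (P3 1 2 (P5 4 1 (F [(11,254),(18,179),(15,256),(24,107)]) (P1 1 2 (O 4) (F [(18,67),(15,256),(11,118),(24,60)]))) (F [(11,256),(0,80),(23,66)])) (P2 4 1 (F [(11,256),(0,32),(9,21)]) (P0 2 1 (F [(13,256),(11,173),(0,2),(9,2)]) (O 1))))))) (P0 2 1 (P3 1 1 (P5 1 1 (P2 1 2 (P4 1 2 (O 1) (F [(23,227),(0,256)])) (P1 1 1 (F [(0,256),(23,227)]) (O 4))) (P1 1 2 (P3 1 2 (P5 2 1 (F [(18,104),(15,256),(11,16),(24,24)]) (O 4)) (F [(0,69),(18,81),(15,256)])) (P2 1 1 (F [(0,256),(18,57),(11,46)]) (O 4)))) (P4 1 1 (P2 1 2 (P5 1 2 (O 10) (P1 1 2 (F [(0,126),(11,256)]) (O 10))) (P5 2 1 (O 10) (P0 1 1 (P3 1 1 (O 4) (O 10)) (O 4)))) (P0 1 2 (F [(11,256),(0,45),(15,52)]) (P1 1 1 (P5 1 1 (O 10) (O 4)) (O 10))))) (O 1)))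

theorem g0 : ∀ c ∈ [c0, c1], Done D c := by
  intro c hc
  simp only [List.mem_cons, List.not_mem_nil, or_false] at hc
  rcases hc with rfl | rfl
  · exact done_of_chk (t := t0) (by decide +kernel)
  · exact done_of_chk (t := t1) (by decide +kernel)

end Pool.Agent.W2helper59.NW.I1
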