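import Pool.Agent.W2helper59.NW.D_I2

set_option autoImplicit false
set_option maxRecDepth 1000000

namespace Pool.Agent.W2helper59.NW.I2

open Tr

def c0 : Cell := ⟨⟨1,0,0⟩, ⟨0,1,0⟩, ⟨0,0,1⟩, ⟨1,1,0,0⟩, ⟨0,1,0,0⟩, ⟨0,0,1,0⟩, ⟨0,0,0,1⟩⟩

def t0 : Tr :=
  P3 1 1 (P5 1 1 (P2 1 2 (P4 1 2 (P5 1 2 (P2 1 4 (O 7) (P1 1 1 (O 7) (P4 2 1 (O 3) (F [(5,256)])))) (F [(5,256),(13,32),(17,14)])) (P0 1 2 (P3 1 1 (P1 1 4 (P3 1 2 (F [(5,51),(10,256),(17,43),(19,10)]) (P4 1 1 (F [(10,256),(5,96),(19,30),(16,8),(17,62)]) (O 9))) (F [(19,36),(10,256),(16,110),(5,9),(3,19)])) (P4 2 1 (F [(19,37),(16,109),(3,14),(10,256)]) (F [(3,172),(8,256)]))) (P1 1 2 (F [(5,115),(10,256),(16,40),(3,28)]) (P0 2 1 (F [(10,256),(5,116),(16,67)]) (F [(5,256),(20,41)]))))) (P1 1 1 (P4 2 1 (P5 2 1 (P4 1 2 (F [(20,256),(13,233)]) (P3 1 1 (F [(10,108),(20,130),(13,256),(16,126)])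 (F [(16,256),(20,188),(19,29),(18,1)]))) (P3 1 4 (F [(5,7),(10,256),(16,7)]) (P4 1 1 (F [(10,256),(5,7),(13,12),(16,19)]) (F [(10,161),(19,85),(16,256),(5,2)])))) (P3 1 1 (P5 4 1 (F [(19,76),(3,16),(16,256),(10,94)]) (P1 1 2 (P3 1 2 (F [(5,256),(10,1),(3,232),(13,3)]) (F [(10,256),(3,126),(19,96),(5,83),(15,163),(8,8)])) (P0 1 1 (F [(19,116),(3,101),(10,256),(15,181),(5,87),(8,7)]) (P2 4 1 (F [(19,77),(3,256),(5,228),(15,56)]) (P1 2 1 (F [(10,256),(3,69),(5,36),(15,1)]) (F [(3,56),(10,256),(5,10)])))))) (P0 1 2 (F [(3,172),(8,256)]) (F [(3,98),(19,256)])))) (P4 2 1 (P2 2 1 (P4 1 2 (F [(5,7),(10,256),(20,74),(16,28),(4,11)]) (F [(10,208),(16,256),(5,4),(20,45)])) (F [(16,256),(10,74)])) (P0 1 1 (P3 2 1 (F [(16,256),(19,38),(18,1)]) (F [(3,151),(8,256),(16,8)])) (F [(16,256),(18,1),(4,12),(19,34)]))))) (P1 1 2 (P3 1 2 (P5 2 1 (P2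 1 2 (O 6) (P1 1 1 (O 6) (P4 2 1 (F [(3,134),(15,256),(19,53)]) (O 0)))) (O 0)) (P4 1 1 (P2 1 2 (O 9) (P5 2 1 (F [(3,256),(19,93),(15,191)]) (P0 1 1 (O 9) (O 0)))) (P0 1 2 (F [(8,256),(3,103),(14,29),(19,2)]) (P1 1 1 (F [(8,256),(3,94),(21,14)]) (F [(3,256),(19,254)]))))) (P2 1 1 (P4 1 1 (P5 1 2 (P2 1 2 (P4 1 2 (F [(15,99),(10,256),(3,77),(19,3)]) (F [(3,126),(15,163),(19,96),(8,8),(10,256),(5,83)])) (P0 1 1 (F [(3,101),(19,116),(15,181),(8,7),(10,256),(5,87)]) (P1 2 1 (F [(3,114),(19,229),(15,231),(10,73),(5,256)]) (P2 2 1 (F [(3,220),(10,256),(15,40),(5,67),(9,103)]) (P0 2 1 (F [(19,256),(15,118),(5,118)]) (P1 4 1 (F [(19,256),(15,118),(5,118)]) (F [(3,102),(10,256),(9,116),(5,16)]))))))) (F [(3,232),(19,256)])) (P0 1 2 (F [(3,127),(8,256),(19,110),(14,39),(22,6)]) (F [(3,98),(19,256)]))) (P0 1 1 (P4 2 1 (P1 1 1 (F [(19,256)])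 (P2 1 1 (F [(3,255),(19,256),(18,3)]) (P0 2 1 (F [(3,80),(19,256),(18,55)]) (P1 2 1 (P5 1 1 (F [(3,220),(8,256),(16,198),(22,65)]) (F [(3,256),(0,183),(18,10)])) (F [(3,256),(16,190),(18,5),(22,107)]))))) (P0 1 2 (F [(8,256),(3,151),(19,181),(14,79),(22,34)]) (F [(3,48),(8,256),(15,47),(0,32)]))) (P1 2 1 (P3 1 1 (P5 1 1 (P2 1 2 (F [(19,256),(9,126),(16,136),(18,6)]) (P1 1 1 (F [(19,256),(18,79)]) (P4 2 1 (F [(9,135),(18,233),(4,58),(15,256),(16,41),(3,206)]) (P0 1 1 (F [(15,251),(19,70),(3,73),(9,117),(8,35),(16,256),(22,62)]) (F [(15,238),(18,256),(3,181)]))))) (P1 1 2 (F [(19,256),(22,38)]) (P2 1 1 (F [(19,256),(22,8)]) (P0 1 1 (F [(15,256),(19,49),(3,143),(9,30),(8,117),(18,139),(22,69)]) (F [(15,256),(9,249),(18,10),(0,43),(3,131),(16,217)]))))) (P4 1 1 (P2 1 2 (F [(16,136),(19,256),(9,126),(18,6)]) (P5 2 1 (F [(18,127),(9,256),(16,176),(3,169),(15,181)])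 (P0 1 1 (P3 1 1 (P1 1 2 (F [(3,256),(19,220),(8,75),(15,228),(9,186),(18,177),(22,144)]) (F [(3,246),(18,256),(15,250)])) (F [(3,256),(18,212),(19,13),(15,184)])) (P1 1 1 (P3 1 2 (F [(3,49),(15,256),(19,15),(8,152),(9,111),(16,212),(22,47)]) (F [(3,120),(15,256),(16,134),(18,192)])) (F [(18,192),(15,256),(16,134),(3,120)]))))) (P0 1 2 (P3 2 1 (P5 1 1 (F [(3,158),(16,256),(22,24)]) (P1 1 2 (F [(3,234),(8,155),(15,256),(0,1),(22,114),(18,114),(9,73)]) (F [(3,75),(8,60),(16,256),(18,20),(15,150),(0,128)]))) (F [(3,158),(16,256),(22,24)])) (P1 1 1 (P5 1 1 (F [(3,228),(16,68),(18,256),(9,192),(15,251)]) (P3 1 2 (F [(3,78),(8,221),(15,256),(16,213),(9,196),(22,55)]) (F [(3,154),(16,130),(15,256),(18,195),(22,20)]))) (F [(18,256),(9,79),(16,22),(3,189),(15,226)]))))) (P2 2 1 (P4 1 1 (F [(18,2),(16,256),(4,256),(19,49)]) (F [(18,256),(16,151),(4,22),(3,167),(15,168)]))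 (F [(18,66),(16,256),(4,55),(3,42),(15,89)]))))))) (P4 1 1 (P2 1 2 (P5 1 2 (P4 1 2 (P2 1 4 (O 7) (P5 2 1 (O 3) (P0 1 1 (O 7) (F [(5,256),(20,27)])))) (P0 1 2 (O 7) (P1 1 1 (O 7) (O 3)))) (P1 1 2 (P3 1 1 (P5 2 1 (F [(16,101),(19,256),(10,75),(5,93)]) (F [(3,172),(8,256)])) (P0 1 4 (P3 2 1 (P5 1 1 (O 7) (P1 1 4 (O 2) (O 7))) (O 7)) (P5 1 1 (F [(10,256),(16,40),(5,119),(3,59)]) (P0 2 1 (P3 1 4 (F [(16,256),(19,112)]) (F [(16,69),(19,256),(10,98),(1,87),(20,165)])) (F [(16,256),(19,14)]))))) (P1 2 1 (P3 4 1 (F [(10,256),(5,119),(16,40),(3,59)]) (F [(10,256),(5,236),(20,48),(12,34),(1,93)])) (F [(5,256),(20,12),(10,101),(12,101),(1,48)])))) (P5 2 1 (P0 1 1 (P3 4 1 (P5 1 2 (F [(10,256),(5,232),(20,36),(16,43)]) (F [(10,256),(16,24),(5,118),(3,78)])) (F [(5,256),(10,134),(12,126)])) (P2 2 1 (P5 1 2 (F [(5,208),(10,256),(18,9)]) (F [(10,256),(16,188),(5,135),(18,14),(3,39)]))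 (F [(18,100),(16,256),(3,30),(5,78)]))) (P0 1 1 (P3 1 1 (P1 1 2 (F [(3,172),(8,256)]) (F [(3,256),(16,92),(18,76)])) (P4 4 1 (P1 1 1 (P3 1 4 (F [(16,256),(3,212),(19,189),(18,206)]) (P4 1 2 (F [(16,256),(19,52),(18,81)]) (P0 2 1 (F [(16,256),(10,9),(3,78),(19,1),(20,183),(1,171),(18,28)]) (F [(16,159),(3,256),(18,88)])))) (F [(16,45),(3,41),(10,256),(18,28),(5,117),(8,61)])) (P0 1 2 (P3 2 1 (P1 1 2 (P5 4 1 (O 5) (O 2)) (O 5)) (O 5)) (P1 1 1 (P3 1 2 (P5 4 1 (O 5) (O 2)) (O 5)) (O 5))))) (P1 1 1 (P3 1 2 (F [(3,151),(8,256),(16,8)]) (F [(3,256),(16,186),(18,125)])) (F [(18,119),(16,256),(3,100)]))))) (P0 1 2 (O 2) (P1 1 1 (P5 1 1 (P2 1 2 (O 2) (F [(3,256),(18,121),(16,191)])) (F [(3,117),(8,256),(16,2)])) (P2 1 1 (P4 1 2 (P5 1 2 (O 5) (F [(18,206),(3,256)])) (F [(18,206),(3,256)])) (F [(18,245),(16,256),(3,131)])))))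

def c1 : Cell := ⟨⟨1,0,0⟩, ⟨0,1,0⟩, ⟨0,0,1⟩, ⟨1,0,0,0⟩, ⟨1,1,0,0⟩, ⟨0,0,1,0⟩, ⟨0,0,0,1⟩⟩

def t1 : Tr :=
  P1 1 1 (P5 1 1 (P2 1 2 (P4 1 2 (P5 1 2 (P2 1 4 (O 3) (F [(13,74),(5,256),(7,201),(2,28)])) (F [(13,157),(5,256)])) (P3 1 1 (P5 2 1 (F [(20,256),(13,233)]) (P3 1 2 (F [(5,256),(13,235)]) (P0 1 1 (P4 2 1 (F [(5,256),(20,139)]) (P3 2 1 (F [(13,64),(5,37),(10,159),(9,256)]) (F [(13,60),(10,179),(5,13),(9,256)]))) (F [(13,9),(5,256),(20,136)])))) (P0 1 2 (P4 2 1 (P5 1 1 (F [(5,12),(10,256),(20,59),(13,32),(18,21)]) (F [(10,256),(5,6),(20,35),(13,26),(4,47),(16,39)])) (F [(4,179),(16,256),(10,191),(5,2)])) (F [(20,131),(13,130),(5,5),(10,256),(4,69)])))) (P3 1 1 (P1 1 1 (P3 1 2 (P1 1 2 (P5 2 1 (P2 1 2 (F [(5,256),(13,220),(20,139),(15,123)]) (F [(17,62),(5,256),(15,246),(20,209),(3,17)])) (F [(17,23),(5,256),(15,192),(9,97),(3,15),(20,127)]))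 (P2 1 1 (P5 1 2 (F [(20,113),(13,80),(9,256),(4,30),(5,168),(10,8),(15,88)]) (F [(9,227),(15,160),(5,256),(20,129)])) (P0 2 1 (P3 1 1 (F [(15,237),(17,236),(4,146),(20,256)]) (P4 1 1 (F [(9,3),(15,256),(4,93),(17,132),(20,247),(5,87)]) (U0 1 1 (P0 1 2 (F [(5,226),(15,256),(20,252)]) (F [(15,256),(20,185),(5,152),(19,24)])) (F [(15,256),(5,142),(20,118),(19,51)])))) (O 6)))) (P0 1 1 (P4 1 1 (P2 1 2 (F [(13,9),(20,136),(5,256)]) (F [(20,22),(13,226),(9,256),(5,7),(10,169),(15,137)])) (P3 2 1 (P1 1 1 (F [(13,23),(20,42),(5,51),(10,147),(9,256),(15,31)]) (P2 1 1 (F [(20,256),(5,166),(10,34),(15,142),(3,113)]) (U0 1 1 (F [(20,256),(19,92),(3,100),(15,164),(5,115)]) (F [(9,256),(15,224),(20,208),(3,38),(19,134),(5,198)])))) (P0 1 2 (P4 2 1 (F [(20,1),(13,256),(9,15),(5,1),(15,71)]) (F [(20,9),(13,10),(9,256),(4,2),(10,192),(5,6),(15,6)]))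 (F [(20,88),(9,256),(19,5),(10,125),(5,33),(15,34)])))) (P2 1 1 (P4 1 2 (F [(20,113),(13,80),(9,256),(4,30),(5,168),(10,8),(15,88)]) (F [(9,33),(20,24),(13,256),(15,166),(5,9),(10,16)])) (P1 2 1 (P3 1 1 (P5 1 1 (F [(15,173),(4,112),(20,256),(3,16),(10,140)]) (U0 1 1 (P1 1 2 (F [(5,61),(13,256),(20,100),(10,23),(15,248)]) (F [(9,119),(20,256),(15,206),(3,174),(5,230)])) (F [(15,256),(5,86),(20,63),(13,103),(19,46)]))) (F [(15,168),(4,124),(20,256),(3,139),(5,43),(10,69)])) (F [(15,256),(4,237),(20,189),(19,62)]))))) (P2 2 1 (F [(9,256),(4,226),(20,100),(13,27)]) (P0 2 1 (F [(9,68),(4,256),(20,20),(19,72),(3,120)]) (P1 2 1 (F [(9,256),(4,21),(15,145),(20,26),(19,1)]) (P2 4 1 (F [(9,256),(4,21),(20,72),(19,9),(15,53),(0,20)]) (F [(19,89),(0,256),(15,82),(4,196),(11,4)])))))) (P4 2 1 (P2 2 1 (F [(20,256),(13,86),(4,209)]) (P0 4 1 (F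 [(4,256),(13,256),(20,197),(18,2),(19,11)]) (P1 2 1 (F [(4,256),(20,146),(19,206)]) (P2 4 1 (F [(4,256),(20,70),(19,147)]) (F [(19,174),(4,256),(0,141),(11,32)]))))) (P0 1 1 (F [(4,256),(18,1),(16,47),(13,14),(19,34)]) (P2 4 1 (F [(4,256),(18,2),(13,256),(19,34),(20,9)]) (P1 2 1 (F [(4,256),(13,256),(19,72),(18,2)]) (F [(9,256),(4,97),(19,101),(0,47)]))))))) (P3 1 2 (P1 1 2 (P5 2 1 (F [(3,128),(15,256),(17,42)]) (O 0)) (P2 1 1 (F [(3,128),(15,256),(17,42)]) (P0 2 1 (F [(15,156),(19,62),(3,256),(0,65),(6,36)]) (O 6)))) (P4 1 1 (P2 1 1 (P5 1 2 (P4 1 2 (P2 1 2 (F [(17,40),(15,85),(5,9),(10,256),(3,117)]) (P0 2 1 (P3 1 1 (F [(15,256),(19,66),(4,38)]) (P4 1 1 (F [(15,256),(17,51),(19,18)]) (U0 1 1 (P0 1 2 (F [(15,256),(5,231),(19,138),(20,78)]) (F [(15,256),(19,153),(5,156),(20,19)])) (F [(15,256),(5,146),(19,113),(20,61)])))) (O 6)))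 (P0 1 1 (P3 2 1 (P1 1 1 (F [(3,79),(15,256),(19,241),(10,119),(5,235)]) (F [(15,256),(19,157),(13,127),(10,112),(5,67)])) (P4 2 1 (P2 1 1 (F [(19,37),(3,189),(15,54),(10,246),(5,106),(9,256),(13,20)]) (F [(19,24),(3,256),(15,17),(20,12),(5,46)])) (P0 1 2 (P3 4 1 (F [(19,256),(9,5),(13,133),(15,157),(5,90)]) (F [(3,110),(9,256),(13,2),(10,194),(5,18)])) (F [(19,60),(9,256),(3,132),(15,54),(20,56),(10,193),(5,48)])))) (P2 2 1 (P3 1 1 (P5 1 1 (P4 1 2 (U0 1 1 (P2 1 2 (F [(15,256),(19,169),(5,231),(20,99)]) (F [(15,256),(19,109),(10,107),(5,92),(20,113)])) (F [(15,256),(5,148),(19,132),(20,43)])) (F [(15,256),(19,156),(4,10)])) (F [(15,256),(19,158),(4,96)])) (P4 1 1 (P5 1 2 (U0 1 1 (P2 1 2 (F [(19,93),(10,106),(5,74),(15,256),(13,167),(20,44)]) (F [(15,63),(3,256),(19,30),(20,29),(5,123)])) (F [(15,256),(5,138),(19,146),(20,18)]))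 (F [(15,2),(3,256),(4,1),(20,7),(5,80)])) (F [(15,32),(3,256),(19,23),(20,17),(5,41)]))) (F [(15,256),(19,142),(4,129)])))) (F [(15,4),(19,38),(3,256)])) (P0 2 1 (P3 1 1 (F [(19,97),(15,256),(4,29)]) (F [(9,67),(19,81),(4,256),(3,153)])) (F [(19,26),(15,220),(9,256),(0,103),(8,8)]))) (P0 1 1 (P3 2 1 (P1 1 1 (P5 1 1 (F [(9,223),(19,92),(15,1),(4,256),(16,8)]) (P3 1 2 (F [(19,256)]) (F [(15,154),(9,256),(4,10),(3,107),(16,62)]))) (F [(9,206),(4,256),(15,1),(19,87)])) (F [(4,256),(18,1),(16,44),(19,36)])) (P2 2 1 (P3 1 1 (F [(19,256)]) (F [(9,135),(4,256),(19,122)])) (F [(19,73),(15,117),(9,256),(0,42)])))))) (P2 1 1 (P4 1 2 (P5 1 2 (P2 1 2 (P4 1 4 (O 11) (P5 2 1 (O 3) (P0 1 1 (F [(20,170),(13,110),(5,256)]) (O 11)))) (P0 2 1 (P3 1 1 (F [(7,256),(13,105),(20,41),(2,103)]) (O 3)) (F [(7,256),(2,63),(20,19),(13,84),(5,12)]))) (P3 1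 2 (P1 1 1 (P5 2 1 (F [(4,205),(20,83),(13,256)]) (P3 1 4 (P1 1 2 (O 6) (F [(4,256),(19,70)])) (F [(4,256),(19,49)]))) (P0 4 1 (F [(20,100),(13,256)]) (F [(20,170),(13,149),(7,256),(2,76)]))) (P1 4 1 (F [(20,235),(13,256),(5,78)]) (F [(20,207),(7,256),(13,89),(2,63)])))) (P5 2 1 (P0 1 1 (P4 2 1 (P5 1 2 (P2 1 1 (F [(5,129),(10,256),(20,46)]) (P1 4 1 (P3 2 1 (F [(20,256),(18,67)]) (P0 1 4 (F [(5,256),(12,93),(18,99)]) (F [(5,256),(10,153),(13,228),(18,123),(23,104),(7,130)]))) (P3 4 1 (P2 2 1 (F [(5,169),(10,162),(20,7),(13,256),(12,52),(18,98),(23,99)]) (F [(10,256),(5,76),(4,145),(13,144),(18,67),(12,103),(7,114)])) (O 10)))) (F [(13,6),(4,256),(18,5),(10,1),(5,103)])) (F [(18,78),(4,256),(9,15),(5,114),(20,6)])) (P1 4 1 (P5 1 2 (P4 1 1 (F [(20,256),(5,50),(23,63)]) (P0 1 4 (P3 4 1 (P1 1 2 (F [(20,256),(18,67)]) (P2 1 4 (F [(13,236),(20,256),(5,43),(10,199),(12,37),(23,163),(18,89)])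 (F [(13,241),(20,4),(10,256),(23,117),(18,39)]))) (P4 2 1 (P2 1 4 (F [(5,94),(10,240),(13,139),(20,15),(12,39),(7,256),(23,54),(18,54)]) (F [(13,12301),(7,6857),(5,16042),(4,16384),(23,14292)])) (F [(13,103),(4,210),(7,256),(18,21),(5,163),(10,130),(23,111)]))) (P2 1 2 (P3 1 2 (F [(20,256),(5,46),(23,67)]) (F [(13,212),(20,72),(7,256),(5,192),(23,218)])) (F [(13,256),(20,30),(2,130)])))) (F [(13,39),(4,256),(5,76),(10,34)])) (P0 2 1 (P4 1 1 (O 3) (P3 4 1 (P5 1 2 (F [(7,130),(13,227),(20,48),(23,256),(5,161)]) (F [(13,2),(7,256),(20,21),(2,139)])) (O 10))) (O 3)))) (P0 1 1 (P3 1 1 (P1 1 2 (P5 4 1 (F [(4,114),(9,256),(19,13)]) (O 4)) (F [(4,256),(18,10)])) (F [(4,256),(18,10)])) (P1 1 1 (P3 1 2 (P5 4 1 (F [(4,256),(19,49)]) (P1 1 2 (O 4) (F [(4,256),(19,70)]))) (F [(4,256),(18,10)])) (P2 4 1 (F [(13,5),(4,256),(18,8)]) (P0 2 1 (P3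 1 1 (O 1) (F [(7,84),(4,256),(2,224)])) (O 1))))))) (P0 2 1 (P3 1 1 (P5 1 1 (P2 1 2 (P4 1 2 (O 1) (F [(13,233),(4,256),(18,161),(7,123),(2,18)])) (F [(18,161),(13,233),(4,256),(7,123),(2,18)])) (P1 1 2 (P3 1 2 (P5 2 1 (F [(4,95),(9,256),(18,41),(19,4)]) (O 4)) (F [(4,98),(9,256),(18,43),(19,6)])) (F [(18,138),(13,210),(4,256),(7,98)]))) (P4 1 1 (P2 1 2 (P5 1 2 (O 10) (F [(4,45),(18,256),(13,184),(2,46)])) (F [(18,256),(13,183),(2,33)])) (F [(4,256),(18,151),(13,80)]))) (O 1)))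

theorem g0 : ∀ c ∈ [c0, c1], Done D c := by
  intro c hc
  simp only [List.mem_cons, List.not_mem_nil, or_false] at hc
  rcases hc with rfl | rfl
  · exact done_of_chk (t := t0) (by decide +kernel)
  · exact done_of_chk (t := t1) (by decide +kernel)

end Pool.Agent.W2helper59.NW.I2
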