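import Mathlib

/-!
# S09083: the abstract certificate checker

Points are written in barycentric coordinates with respect to a root cell (three vectors for the
projection direction, four quaternions for the rotation); a constraint is a real tensor
`T m r s` (`m < 3`, symmetric in `r s < 4`), known through integer upper bounds
`2 ^ 60 * T + Z ≤ T'`.
-/

set_option autoImplicit false

namespace Pool.Agent.W2helper59.NW

/-- nonnegative integer vectors -/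
structure V3 where
  (a b c : ℕ)

structure V4 where
  (a b c d : ℕ)

/-- symmetric `4 × 4` matrix -/
structure S10 where
  (aa ab ac ad bb bc bd cc cd dd : ℕ)

/-- a constraint (three symmetric matrices) -/
structure Con where
  (m0 m1 m2 : S10)

structure Cell where
  (u0 u1 u2 : V3)
  (p0 p1 p2 p3 : V4)

/-- the offset -/
def Zo : ℕ := 1180591620717411303424

def zS : S10 := ⟨Zo, Zo, Zo, Zo, Zo, Zo, Zo, Zo, Zo, Zo⟩

/-- the trivial constraint `0 ≤ 0` -/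
def zC : Con := ⟨zS, zS, zS⟩

def S0 : S10 := ⟨0, 0, 0, 0, 0, 0, 0, 0, 0, 0⟩

def mad (l : ℕ) (x y : S10) : S10 :=
  ⟨Nat.add (Nat.mul l x.aa) y.aa, Nat.add (Nat.mul l x.ab) y.ab, Nat.add (Nat.mul l x.ac) y.ac,
    Nat.add (Nat.mul l x.ad) y.ad, Nat.add (Nat.mul l x.bb) y.bb, Nat.add (Nat.mul l x.bc) y.bc,
    Nat.add (Nat.mul l x.bd) y.bd, Nat.add (Nat.mul l x.cc) y.cc, Nat.add (Nat.mul l x.cd) y.cd,
    Nat.add (Nat.mul l x.dd) y.dd⟩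

def getC (tab : List Con) (i : ℕ) : Con :=
  List.rec (motive := fun _ => ℕ → Con) (fun _ => zC)
    (fun x _ ih i => Nat.rec (motive := fun _ => Con) x (fun k _ => ih k) i) tab i

/-- `∑ λⱼ (constraint j)`, component `m` -/
def sumC (tab : List Con) (pr : Con → S10) (l : List (ℕ × ℕ)) : S10 :=
  List.rec (motive := fun _ => S10) S0 (fun x _ ih => mad x.2 (pr (getC tab x.1)) ih) l

/-- `∑ λⱼ` -/
def sumL (l : List (ℕ × ℕ)) : ℕ :=
  List.rec (motive := fun _ => ℕ) 0 (fun x _ ih => Nat.add x.2 ih) l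

def n3 (u : V3) : ℕ := Nat.add u.a (Nat.add u.b u.c)
def n4 (p : V4) : ℕ := Nat.add p.a (Nat.add p.b (Nat.add p.c p.d))

def bil (s : S10) (x y : V4) : ℕ :=
  Nat.add (Nat.mul x.a (Nat.add (Nat.mul s.aa y.a) (Nat.add (Nat.mul s.ab y.b)
    (Nat.add (Nat.mul s.ac y.c) (Nat.mul s.ad y.d)))))
  (Nat.add (Nat.mul x.b (Nat.add (Nat.mul s.ab y.a) (Nat.add (Nat.mul s.bb y.b)
    (Nat.add (Nat.mul s.bc y.c) (Nat.mul s.bd y.d)))))
  (Nat.add (Nat.mul x.c (Nat.add (Nat.mul s.ac y.a) (Nat.add (Nat.mul s.bc y.b)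
    (Nat.add (Nat.mul s.cc y.c) (Nat.mul s.cd y.d)))))
  (Nat.mul x.d (Nat.add (Nat.mul s.ad y.a) (Nat.add (Nat.mul s.bd y.b)
    (Nat.add (Nat.mul s.cd y.c) (Nat.mul s.dd y.d)))))))

/-- one comparison -/
def ltB (s : S10) (w : ℕ) (x y : V4) : Bool :=
  Nat.blt (bil s x y) (Nat.mul w (Nat.mul (n4 x) (n4 y)))

def allB (s : S10) (w : ℕ) (a b c d : V4) : Bool :=
  ltB s w a a && ltB s w b b && ltB s w c c && ltB s w d d && ltB s w a b && ltB s w a c &&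
    ltB s w a d && ltB s w b c && ltB s w b d && ltB s w c d

def cF (s0 s1 s2 : S10) (lz : ℕ) (c : Cell) : Bool :=
  allB (mad c.u0.a s0 (mad c.u0.b s1 (mad c.u0.c s2 S0))) (Nat.mul lz (n3 c.u0)) c.p0 c.p1 c.p2
      c.p3 &&
  allB (mad c.u1.a s0 (mad c.u1.b s1 (mad c.u1.c s2 S0))) (Nat.mul lz (n3 c.u1)) c.p0 c.p1 c.p2
      c.p3 &&
  allB (mad c.u2.a s0 (mad c.u2.b s1 (mad c.u2.c s2 S0))) (Nat.mul lz (n3 c.u2)) c.p0 c.p1 c.p2
      c.p3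

/-- certificate leaf -/
def chkF (tab : List Con) (l : List (ℕ × ℕ)) (c : Cell) : Bool :=
  cF (sumC tab Con.m0 l) (sumC tab Con.m1 l) (sumC tab Con.m2 l) (Nat.mul Zo (sumL l)) c

/-- linear forms, with offset: `2 ^ 60 * f + Z ≥ f'` -/
def dot4 (f p : V4) : ℕ := Nat.add (Nat.mul f.a p.a) (Nat.add (Nat.mul f.b p.b)
  (Nat.add (Nat.mul f.c p.c) (Nat.mul f.d p.d)))

def dot3 (f u : V3) : ℕ := Nat.add (Nat.mul f.a u.a) (Nat.add (Nat.mul f.b u.b)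
  (Nat.mul f.c u.c))

def pos4 (f p : V4) : Bool := Nat.blt (Nat.mul Zo (n4 p)) (dot4 f p)
def nn4 (f p : V4) : Bool := Nat.ble (Nat.mul Zo (n4 p)) (dot4 f p)
def nn3 (f u : V3) : Bool := Nat.ble (Nat.mul Zo (n3 u)) (dot3 f u)

def get4 (tab : List V4) (i : ℕ) : V4 :=
  List.rec (motive := fun _ => ℕ → V4) (fun _ => ⟨0, 0, 0, 0⟩)
    (fun x _ ih i => Nat.rec (motive := fun _ => V4) x (fun k _ => ih k) i) tab i

/-- outside leaf: the `i`-th linear form is positive on the cell -/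
def chkO (tab : List V4) (i : ℕ) (c : Cell) : Bool :=
  pos4 (get4 tab i) c.p0 && pos4 (get4 tab i) c.p1 && pos4 (get4 tab i) c.p2 &&
    pos4 (get4 tab i) c.p3

def all4 (tab : List V4) (p : V4) : Bool :=
  List.rec (motive := fun _ => Bool) true (fun f _ ih => nn4 f p && ih) tab

def all3 (tab : List V3) (u : V3) : Bool :=
  List.rec (motive := fun _ => Bool) true (fun f _ ih => nn3 f u && ih) tab

/-- neighbourhood data -/
structure Nb where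
  (fu : List V3)
  (fp : List V4)

def chkN (n : Nb) (c : Cell) : Bool :=
  all3 n.fu c.u0 && all3 n.fu c.u1 && all3 n.fu c.u2 && all4 n.fp c.p0 && all4 n.fp c.p1 &&
    all4 n.fp c.p2 && all4 n.fp c.p3

/-- bisection trees -/
inductive Tr where
  | F (l : List (ℕ × ℕ))
  | O (i : ℕ)
  | A
  | B
  | H
  | U0 (x y : ℕ) (s t : Tr)
  | U1 (x y : ℕ) (s t : Tr)
  | U2 (x y : ℕ) (s t : Tr)
  | P0 (x y : ℕ) (s t : Tr)
  | P1 (x y : ℕ) (s t : Tr)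
  | P2 (x y : ℕ) (s t : Tr)
  | P3 (x y : ℕ) (s t : Tr)
  | P4 (x y : ℕ) (s t : Tr)
  | P5 (x y : ℕ) (s t : Tr)

def mid3 (x y : ℕ) (a b : V3) : V3 :=
  ⟨Nat.add (Nat.mul x a.a) (Nat.mul y b.a), Nat.add (Nat.mul x a.b) (Nat.mul y b.b),
    Nat.add (Nat.mul x a.c) (Nat.mul y b.c)⟩

def mid4 (x y : ℕ) (a b : V4) : V4 :=
  ⟨Nat.add (Nat.mul x a.a) (Nat.mul y b.a), Nat.add (Nat.mul x a.b) (Nat.mul y b.b),
    Nat.add (Nat.mul x a.c) (Nat.mul y b.c), Nat.add (Nat.mul x a.d) (Nat.mul y b.d)⟩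

/-- root data -/
structure Dat where
  (con : List Con)
  (out : List V4)
  (na nb : Nb)

def eq3 (a b : V3) : Bool := Nat.beq a.a b.a && Nat.beq a.b b.b && Nat.beq a.c b.c
def eq4 (a b : V4) : Bool := Nat.beq a.a b.a && Nat.beq a.b b.b && Nat.beq a.c b.c &&
  Nat.beq a.d b.d
def eqC (a b : Cell) : Bool := eq3 a.u0 b.u0 && eq3 a.u1 b.u1 && eq3 a.u2 b.u2 &&
  eq4 a.p0 b.p0 && eq4 a.p1 b.p1 && eq4 a.p2 b.p2 && eq4 a.p3 b.p3

def memC (l : List Cell) (c : Cell) : Bool :=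
  List.rec (motive := fun _ => Bool) false (fun x _ ih => eqC x c || ih) l

/-- the checker: `hs` is the list of cells already done -/
noncomputable def chk (D : Dat) (hs : List Cell) (t : Tr) : Cell → Bool :=
  Tr.rec (motive := fun _ => Cell → Bool)
    (fun l c => chkF D.con l c)
    (fun i c => chkO D.out i c)
    (fun c => chkN D.na c)
    (fun c => chkN D.nb c)
    (fun c => memC hs c)
    (fun x y _ _ s t c => Nat.blt 0 x && Nat.blt 0 y &&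
      s ⟨mid3 x y c.u0 c.u1, c.u1, c.u2, c.p0, c.p1, c.p2, c.p3⟩ &&
      t ⟨c.u0, mid3 x y c.u0 c.u1, c.u2, c.p0, c.p1, c.p2, c.p3⟩)
    (fun x y _ _ s t c => Nat.blt 0 x && Nat.blt 0 y &&
      s ⟨c.u0, mid3 x y c.u1 c.u2, c.u2, c.p0, c.p1, c.p2, c.p3⟩ &&
      t ⟨c.u0, c.u1, mid3 x y c.u1 c.u2, c.p0, c.p1, c.p2, c.p3⟩)
    (fun x y _ _ s t c => Nat.blt 0 x && Nat.blt 0 y &&
      s ⟨mid3 x y c.u0 c.u2, c.u1, c.u2, c.p0, c.p1, c.p2, c.p3⟩ &&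
      t ⟨c.u0, c.u1, mid3 x y c.u0 c.u2, c.p0, c.p1, c.p2, c.p3⟩)
    (fun x y _ _ s t c => Nat.blt 0 x && Nat.blt 0 y &&
      s ⟨c.u0, c.u1, c.u2, mid4 x y c.p0 c.p1, c.p1, c.p2, c.p3⟩ &&
      t ⟨c.u0, c.u1, c.u2, c.p0, mid4 x y c.p0 c.p1, c.p2, c.p3⟩)
    (fun x y _ _ s t c => Nat.blt 0 x && Nat.blt 0 y &&
      s ⟨c.u0, c.u1, c.u2, mid4 x y c.p0 c.p2, c.p1, c.p2, c.p3⟩ &&
      t ⟨c.u0, c.u1, c.u2, c.p0, c.p1, mid4 x y c.p0 c.p2, c.p3⟩)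
    (fun x y _ _ s t c => Nat.blt 0 x && Nat.blt 0 y &&
      s ⟨c.u0, c.u1, c.u2, mid4 x y c.p0 c.p3, c.p1, c.p2, c.p3⟩ &&
      t ⟨c.u0, c.u1, c.u2, c.p0, c.p1, c.p2, mid4 x y c.p0 c.p3⟩)
    (fun x y _ _ s t c => Nat.blt 0 x && Nat.blt 0 y &&
      s ⟨c.u0, c.u1, c.u2, c.p0, mid4 x y c.p1 c.p2, c.p2, c.p3⟩ &&
      t ⟨c.u0, c.u1, c.u2, c.p0, c.p1, mid4 x y c.p1 c.p2, c.p3⟩)
    (fun x y _ _ s t c => Nat.blt 0 x && Nat.blt 0 y &&
      s ⟨c.u0, c.u1, c.u2, c.p0, mid4 x y c.p1 c.p3, c.p2, c.p3⟩ &&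
      t ⟨c.u0, c.u1, c.u2, c.p0, c.p1, c.p2, mid4 x y c.p1 c.p3⟩)
    (fun x y _ _ s t c => Nat.blt 0 x && Nat.blt 0 y &&
      s ⟨c.u0, c.u1, c.u2, c.p0, c.p1, mid4 x y c.p2 c.p3, c.p3⟩ &&
      t ⟨c.u0, c.u1, c.u2, c.p0, c.p1, c.p2, mid4 x y c.p2 c.p3⟩)
    t

end Pool.Agent.W2helper59.NW
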