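import Pool.Agent.W2helper59.NW.Chk

/-!
# S09083: soundness of the checker
-/

set_option autoImplicit false

namespace Pool.Agent.W2helper59.NW

/-- real vectors -/
structure R3 where
  (a b c : ℝ)

structure R4 where
  (a b c d : ℝ)

noncomputable def c3 (u : V3) : R3 := ⟨u.a, u.b, u.c⟩
noncomputable def c4 (p : V4) : R4 := ⟨p.a, p.b, p.c, p.d⟩

def m3 (u : R3) : ℝ := u.a + u.b + u.c
def m4 (p : R4) : ℝ := p.a + p.b + p.c + p.d

/-- bilinear form -/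
noncomputable def bR (s : S10) (x y : R4) : ℝ :=
  x.a * (s.aa * y.a + s.ab * y.b + s.ac * y.c + s.ad * y.d) +
  x.b * (s.ab * y.a + s.bb * y.b + s.bc * y.c + s.bd * y.d) +
  x.c * (s.ac * y.a + s.bc * y.b + s.cc * y.c + s.cd * y.d) +
  x.d * (s.ad * y.a + s.bd * y.b + s.cd * y.c + s.dd * y.d)

noncomputable def evC (c : Con) (u : R3) (p : R4) : ℝ :=
  u.a * bR c.m0 p p + u.b * bR c.m1 p p + u.c * bR c.m2 p p

def GoodC (c : Con) (u : R3) (p : R4) : Prop := Zo * m3 u * (m4 p) ^ 2 ≤ evC c u p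

noncomputable def d4 (f : V4) (p : R4) : ℝ := f.a * p.a + f.b * p.b + f.c * p.c + f.d * p.d
noncomputable def d3 (f : V3) (u : R3) : ℝ := f.a * u.a + f.b * u.b + f.c * u.c

def NearC (n : Nb) (u : R3) (p : R4) : Prop :=
  (∀ f ∈ n.fu, Zo * m3 u ≤ d3 f u) ∧ ∀ f ∈ n.fp, Zo * m4 p ≤ d4 f p

def InU (u0 u1 u2 : V3) (u : R3) : Prop := ∃ s0 s1 s2 : ℝ, 0 ≤ s0 ∧ 0 ≤ s1 ∧ 0 ≤ s2 ∧
  u.a = s0 * u0.a + s1 * u1.a + s2 * u2.a ∧ u.b = s0 * u0.b + s1 * u1.b + s2 * u2.b ∧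
  u.c = s0 * u0.c + s1 * u1.c + s2 * u2.c

def InP (p0 p1 p2 p3 : V4) (p : R4) : Prop := ∃ s0 s1 s2 s3 : ℝ, 0 ≤ s0 ∧ 0 ≤ s1 ∧ 0 ≤ s2 ∧
  0 ≤ s3 ∧ p.a = s0 * p0.a + s1 * p1.a + s2 * p2.a + s3 * p3.a ∧
  p.b = s0 * p0.b + s1 * p1.b + s2 * p2.b + s3 * p3.b ∧
  p.c = s0 * p0.c + s1 * p1.c + s2 * p2.c + s3 * p3.c ∧
  p.d = s0 * p0.d + s1 * p1.d + s2 * p2.d + s3 * p3.d

def InC (c : Cell) (u : R3) (p : R4) : Prop :=
  InU c.u0 c.u1 c.u2 u ∧ InP c.p0 c.p1 c.p2 c.p3 p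

lemma bR_mad (l : ℕ) (x y : S10) (p q : R4) :
    bR (mad l x y) p q = l * bR x p q + bR y p q := by
  unfold bR mad
  simp only [Nat.add_eq, Nat.mul_eq]
  push_cast
  ring

lemma bR_S0 (p q : R4) : bR S0 p q = 0 := by
  unfold bR S0; simp

lemma bR_zS (p : R4) : bR zS p p = Zo * (m4 p) ^ 2 := by
  unfold bR zS m4; ring

lemma good_zC (u : R3) (p : R4) : GoodC zC u p := by
  unfold GoodC evC zC
  simp only [bR_zS]
  unfold m3
  apply le_of_eq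
  ring

lemma getC_good {tab : List Con} {u : R3} {p : R4} (h : ∀ c ∈ tab, GoodC c u p) (i : ℕ) :
    GoodC (getC tab i) u p := by
  induction tab generalizing i with
  | nil => exact good_zC u p
  | cons x l ih =>
    cases i with
    | zero => exact h x (by simp)
    | succ k => exact ih (fun c hc => h c (by simp [hc])) k

lemma sum_good {tab : List Con} {u : R3} {p : R4} (h : ∀ c ∈ tab, GoodC c u p)
    (l : List (ℕ × ℕ)) :
    Zo * (sumL l : ℝ) * m3 u * (m4 p) ^ 2 ≤ u.a * bR (sumC tab Con.m0 l) p p +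
      u.b * bR (sumC tab Con.m1 l) p p + u.c * bR (sumC tab Con.m2 l) p p := by
  induction l with
  | nil =>
    have e1 : ∀ pr, sumC tab pr [] = S0 := fun _ => rfl
    have e2 : sumL [] = 0 := rfl
    rw [e1, e1, e1, e2, bR_S0]
    simp
  | cons x l ih =>
    have e1 : ∀ pr, sumC tab pr (x :: l) = mad x.2 (pr (getC tab x.1)) (sumC tab pr l) :=
      fun _ => rfl
    have e2 : sumL (x :: l) = x.2 + sumL l := rfl
    rw [e1, e1, e1, e2, bR_mad, bR_mad, bR_mad]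
    have hg := getC_good h x.1
    unfold GoodC evC at hg
    have hx : (0:ℝ) ≤ x.2 := Nat.cast_nonneg _
    have h1 := mul_le_mul_of_nonneg_left hg hx
    push_cast
    nlinarith

/-- the quadratic form is below `w (m4 p)²` on the cone -/
lemma quad_lt {s : S10} {w : ℝ} {a b c d : R4} {p : R4} (s0 s1 s2 s3 : ℝ)
    (h0 : 0 ≤ s0) (h1 : 0 ≤ s1) (h2 : 0 ≤ s2) (h3 : 0 ≤ s3)
    (ea : p.a = s0 * a.a + s1 * b.a + s2 * c.a + s3 * d.a)
    (eb : p.b = s0 * a.b + s1 * b.b + s2 * c.b + s3 * d.b)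
    (ec : p.c = s0 * a.c + s1 * b.c + s2 * c.c + s3 * d.c)
    (ed : p.d = s0 * a.d + s1 * b.d + s2 * c.d + s3 * d.d)
    (hp : p.a ≠ 0 ∨ p.b ≠ 0 ∨ p.c ≠ 0 ∨ p.d ≠ 0)
    (kaa : bR s a a < w * (m4 a * m4 a)) (kbb : bR s b b < w * (m4 b * m4 b))
    (kcc : bR s c c < w * (m4 c * m4 c)) (kdd : bR s d d < w * (m4 d * m4 d))
    (kab : bR s a b < w * (m4 a * m4 b)) (kac : bR s a c < w * (m4 a * m4 c))
    (kad : bR s a d < w * (m4 a * m4 d)) (kbc : bR s b c < w * (m4 b * m4 c))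
    (kbd : bR s b d < w * (m4 b * m4 d)) (kcd : bR s c d < w * (m4 c * m4 d)) :
    bR s p p < w * (m4 p) ^ 2 := by
  have key : w * (m4 p) ^ 2 - bR s p p =
      s0 ^ 2 * (w * (m4 a * m4 a) - bR s a a) + s1 ^ 2 * (w * (m4 b * m4 b) - bR s b b) +
      s2 ^ 2 * (w * (m4 c * m4 c) - bR s c c) + s3 ^ 2 * (w * (m4 d * m4 d) - bR s d d) +
      2 * (s0 * s1) * (w * (m4 a * m4 b) - bR s a b) +
      2 * (s0 * s2) * (w * (m4 a * m4 c) - bR s a c) +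
      2 * (s0 * s3) * (w * (m4 a * m4 d) - bR s a d) +
      2 * (s1 * s2) * (w * (m4 b * m4 c) - bR s b c) +
      2 * (s1 * s3) * (w * (m4 b * m4 d) - bR s b d) +
      2 * (s2 * s3) * (w * (m4 c * m4 d) - bR s c d) := by
    unfold bR m4
    rw [ea, eb, ec, ed]
    ring
  have q1 := mul_nonneg (mul_nonneg (by norm_num : (0:ℝ) ≤ 2) (mul_nonneg h0 h1))
    (sub_pos.2 kab).le
  have q2 := mul_nonneg (mul_nonneg (by norm_num : (0:ℝ) ≤ 2) (mul_nonneg h0 h2))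
    (sub_pos.2 kac).le
  have q3 := mul_nonneg (mul_nonneg (by norm_num : (0:ℝ) ≤ 2) (mul_nonneg h0 h3))
    (sub_pos.2 kad).le
  have q4 := mul_nonneg (mul_nonneg (by norm_num : (0:ℝ) ≤ 2) (mul_nonneg h1 h2))
    (sub_pos.2 kbc).le
  have q5 := mul_nonneg (mul_nonneg (by norm_num : (0:ℝ) ≤ 2) (mul_nonneg h1 h3))
    (sub_pos.2 kbd).le
  have q6 := mul_nonneg (mul_nonneg (by norm_num : (0:ℝ) ≤ 2) (mul_nonneg h2 h3))
    (sub_pos.2 kcd).le
  have r0 := mul_nonneg (sq_nonneg s0) (sub_pos.2 kaa).le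
  have r1 := mul_nonneg (sq_nonneg s1) (sub_pos.2 kbb).le
  have r2 := mul_nonneg (sq_nonneg s2) (sub_pos.2 kcc).le
  have r3 := mul_nonneg (sq_nonneg s3) (sub_pos.2 kdd).le
  have hs : 0 < s0 ∨ 0 < s1 ∨ 0 < s2 ∨ 0 < s3 := by
    by_contra hcon
    push Not at hcon
    obtain ⟨g0, g1, g2, g3⟩ := hcon
    have z0 : s0 = 0 := le_antisymm g0 h0
    have z1 : s1 = 0 := le_antisymm g1 h1
    have z2 : s2 = 0 := le_antisymm g2 h2
    have z3 : s3 = 0 := le_antisymm g3 h3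
    rw [z0, z1, z2, z3] at ea eb ec ed
    simp only [zero_mul, add_zero] at ea eb ec ed
    rcases hp with h | h | h | h
    · exact h ea
    · exact h eb
    · exact h ec
    · exact h ed
  have : 0 < w * (m4 p) ^ 2 - bR s p p := by
    rw [key]
    rcases hs with h | h | h | h
    · have := mul_pos (pow_pos h 2) (sub_pos.2 kaa); linarith
    · have := mul_pos (pow_pos h 2) (sub_pos.2 kbb); linarith
    · have := mul_pos (pow_pos h 2) (sub_pos.2 kcc); linarith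
    · have := mul_pos (pow_pos h 2) (sub_pos.2 kdd); linarith
  linarith

lemma ltB_iff {s : S10} {w : ℕ} {x y : V4} (h : ltB s w x y = true) :
    bR s (c4 x) (c4 y) < w * (m4 (c4 x) * m4 (c4 y)) := by
  unfold ltB at h
  have h1 : bil s x y < Nat.mul w (Nat.mul (n4 x) (n4 y)) := by
    simpa [Nat.blt] using h
  have h2 : ((bil s x y : ℕ) : ℝ) < ((Nat.mul w (Nat.mul (n4 x) (n4 y)) : ℕ) : ℝ) := by
    exact_mod_cast h1
  have e1 : ((bil s x y : ℕ) : ℝ) = bR s (c4 x) (c4 y) := by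
    unfold bil bR c4
    simp only [Nat.add_eq, Nat.mul_eq]
    push_cast
    ring
  have e2 : ((Nat.mul w (Nat.mul (n4 x) (n4 y)) : ℕ) : ℝ) = w * (m4 (c4 x) * m4 (c4 y)) := by
    unfold n4 m4 c4
    simp only [Nat.add_eq, Nat.mul_eq]
    push_cast
    ring
  rw [e1, e2] at h2
  exact h2

lemma allB_lt {s : S10} {w : ℕ} {a b c d : V4} {p : R4} (h : allB s w a b c d = true)
    (hin : InP a b c d p) (hp : p.a ≠ 0 ∨ p.b ≠ 0 ∨ p.c ≠ 0 ∨ p.d ≠ 0) :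
    bR s p p < w * (m4 p) ^ 2 := by
  unfold allB at h
  simp only [Bool.and_eq_true] at h
  obtain ⟨⟨⟨⟨⟨⟨⟨⟨⟨haa, hbb⟩, hcc⟩, hdd⟩, hab⟩, hac⟩, had⟩, hbc⟩, hbd⟩, hcd⟩ := h
  obtain ⟨s0, s1, s2, s3, h0, h1, h2, h3, ea, eb, ec, ed⟩ := hin
  exact quad_lt (a := c4 a) (b := c4 b) (c := c4 c) (d := c4 d) s0 s1 s2 s3 h0 h1 h2 h3 ea eb ec
    ed hp (ltB_iff haa) (ltB_iff hbb) (ltB_iff hcc) (ltB_iff hdd) (ltB_iff hab) (ltB_iff hac)
    (ltB_iff had) (ltB_iff hbc) (ltB_iff hbd) (ltB_iff hcd)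

lemma cF_false {s0 s1 s2 : S10} {lz : ℕ} {c : Cell} {u : R3} {p : R4} (hin : InC c u p)
    (hu : u.a ≠ 0 ∨ u.b ≠ 0 ∨ u.c ≠ 0)
    (hp : p.a ≠ 0 ∨ p.b ≠ 0 ∨ p.c ≠ 0 ∨ p.d ≠ 0)
    (hg : lz * m3 u * (m4 p) ^ 2 ≤ u.a * bR s0 p p + u.b * bR s1 p p + u.c * bR s2 p p)
    (h : cF s0 s1 s2 lz c = true) : False := by
  unfold cF at h
  simp only [Bool.and_eq_true] at h
  obtain ⟨⟨k0, k1⟩, k2⟩ := h
  have j0 := allB_lt k0 hin.2 hp
  have j1 := allB_lt k1 hin.2 hp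
  have j2 := allB_lt k2 hin.2 hp
  rw [bR_mad, bR_mad, bR_mad, bR_S0] at j0 j1 j2
  have en : ∀ v : V3, ((Nat.mul lz (n3 v) : ℕ) : ℝ) = lz * m3 (c3 v) := by
    intro v
    unfold n3 m3 c3
    simp only [Nat.add_eq, Nat.mul_eq]
    push_cast
    ring
  rw [en] at j0 j1 j2
  obtain ⟨t0, t1, t2, h0, h1, h2, ea, eb, ec⟩ := hin.1
  have key : lz * m3 u * (m4 p) ^ 2 - (u.a * bR s0 p p + u.b * bR s1 p p + u.c * bR s2 p p) =
      t0 * (lz * m3 (c3 c.u0) * (m4 p) ^ 2 - (c.u0.a * bR s0 p p + (c.u0.b * bR s1 p p +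
        (c.u0.c * bR s2 p p + 0)))) +
      t1 * (lz * m3 (c3 c.u1) * (m4 p) ^ 2 - (c.u1.a * bR s0 p p + (c.u1.b * bR s1 p p +
        (c.u1.c * bR s2 p p + 0)))) +
      t2 * (lz * m3 (c3 c.u2) * (m4 p) ^ 2 - (c.u2.a * bR s0 p p + (c.u2.b * bR s1 p p +
        (c.u2.c * bR s2 p p + 0)))) := by
    unfold m3 c3
    rw [ea, eb, ec]
    ring
  have r0 := mul_nonneg h0 (sub_pos.2 j0).le
  have r1 := mul_nonneg h1 (sub_pos.2 j1).le
  have r2 := mul_nonneg h2 (sub_pos.2 j2).le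
  have ht : 0 < t0 ∨ 0 < t1 ∨ 0 < t2 := by
    by_contra hcon
    push Not at hcon
    obtain ⟨g0, g1, g2⟩ := hcon
    have z0 : t0 = 0 := le_antisymm g0 h0
    have z1 : t1 = 0 := le_antisymm g1 h1
    have z2 : t2 = 0 := le_antisymm g2 h2
    rw [z0, z1, z2] at ea eb ec
    simp only [zero_mul, add_zero] at ea eb ec
    rcases hu with h | h | h
    · exact h ea
    · exact h eb
    · exact h ec
  rcases ht with h | h | h
  · have := mul_pos h (sub_pos.2 j0); linarith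
  · have := mul_pos h (sub_pos.2 j1); linarith
  · have := mul_pos h (sub_pos.2 j2); linarith

lemma pos4_iff {f x : V4} (h : pos4 f x = true) : Zo * m4 (c4 x) < d4 f (c4 x) := by
  unfold pos4 at h
  have h1 : Nat.mul Zo (n4 x) < dot4 f x := by simpa [Nat.blt] using h
  have h2 : ((Nat.mul Zo (n4 x) : ℕ) : ℝ) < ((dot4 f x : ℕ) : ℝ) := by exact_mod_cast h1
  unfold n4 dot4 at h2
  simp only [Nat.add_eq, Nat.mul_eq] at h2
  push_cast at h2
  unfold m4 d4 c4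
  linarith

lemma nn4_iff {f x : V4} (h : nn4 f x = true) : Zo * m4 (c4 x) ≤ d4 f (c4 x) := by
  unfold nn4 at h
  have h1 : Nat.mul Zo (n4 x) ≤ dot4 f x := by simpa using h
  have h2 : ((Nat.mul Zo (n4 x) : ℕ) : ℝ) ≤ ((dot4 f x : ℕ) : ℝ) := by exact_mod_cast h1
  unfold n4 dot4 at h2
  simp only [Nat.add_eq, Nat.mul_eq] at h2
  push_cast at h2
  unfold m4 d4 c4
  linarith

lemma nn3_iff {f x : V3} (h : nn3 f x = true) : Zo * m3 (c3 x) ≤ d3 f (c3 x) := by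
  unfold nn3 at h
  have h1 : Nat.mul Zo (n3 x) ≤ dot3 f x := by simpa using h
  have h2 : ((Nat.mul Zo (n3 x) : ℕ) : ℝ) ≤ ((dot3 f x : ℕ) : ℝ) := by exact_mod_cast h1
  unfold n3 dot3 at h2
  simp only [Nat.add_eq, Nat.mul_eq] at h2
  push_cast at h2
  unfold m3 d3 c3
  linarith

lemma all4_iff {tab : List V4} {x : V4} (h : all4 tab x = true) : ∀ f ∈ tab, nn4 f x = true := by
  induction tab with
  | nil => simp
  | cons f l ih =>
    have h' : (nn4 f x && all4 l x) = true := h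
    rw [Bool.and_eq_true] at h'
    intro g hg
    rcases List.mem_cons.1 hg with rfl | hg
    · exact h'.1
    · exact ih h'.2 g hg

lemma all3_iff {tab : List V3} {x : V3} (h : all3 tab x = true) : ∀ f ∈ tab, nn3 f x = true := by
  induction tab with
  | nil => simp
  | cons f l ih =>
    have h' : (nn3 f x && all3 l x) = true := h
    rw [Bool.and_eq_true] at h'
    intro g hg
    rcases List.mem_cons.1 hg with rfl | hg
    · exact h'.1
    · exact ih h'.2 g hg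

lemma chkN_sound {n : Nb} {c : Cell} {u : R3} {p : R4} (hin : InC c u p)
    (h : chkN n c = true) : NearC n u p := by
  unfold chkN at h
  simp only [Bool.and_eq_true] at h
  obtain ⟨⟨⟨⟨⟨⟨a0, a1⟩, a2⟩, b0⟩, b1⟩, b2⟩, b3⟩ := h
  obtain ⟨⟨t0, t1, t2, h0, h1, h2, ea, eb, ec⟩, ⟨s0, s1, s2, s3, g0, g1, g2, g3, fa, fb, fc, fd⟩⟩ :=
    hin
  constructor
  · intro f hf
    have k0 := nn3_iff (all3_iff a0 f hf)
    have k1 := nn3_iff (all3_iff a1 f hf)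
    have k2 := nn3_iff (all3_iff a2 f hf)
    have e1 : d3 f u - Zo * m3 u = t0 * (d3 f (c3 c.u0) - Zo * m3 (c3 c.u0)) +
        t1 * (d3 f (c3 c.u1) - Zo * m3 (c3 c.u1)) + t2 * (d3 f (c3 c.u2) - Zo * m3 (c3 c.u2)) := by
      unfold d3 m3 c3
      rw [ea, eb, ec]
      ring
    have q0 := mul_nonneg h0 (sub_nonneg.2 k0)
    have q1 := mul_nonneg h1 (sub_nonneg.2 k1)
    have q2 := mul_nonneg h2 (sub_nonneg.2 k2)
    linarith
  · intro f hf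
    have k0 := nn4_iff (all4_iff b0 f hf)
    have k1 := nn4_iff (all4_iff b1 f hf)
    have k2 := nn4_iff (all4_iff b2 f hf)
    have k3 := nn4_iff (all4_iff b3 f hf)
    have e1 : d4 f p - Zo * m4 p = s0 * (d4 f (c4 c.p0) - Zo * m4 (c4 c.p0)) +
        s1 * (d4 f (c4 c.p1) - Zo * m4 (c4 c.p1)) + s2 * (d4 f (c4 c.p2) - Zo * m4 (c4 c.p2)) +
        s3 * (d4 f (c4 c.p3) - Zo * m4 (c4 c.p3)) := by
      unfold d4 m4 c4
      rw [fa, fb, fc, fd]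
      ring
    have q0 := mul_nonneg g0 (sub_nonneg.2 k0)
    have q1 := mul_nonneg g1 (sub_nonneg.2 k1)
    have q2 := mul_nonneg g2 (sub_nonneg.2 k2)
    have q3 := mul_nonneg g3 (sub_nonneg.2 k3)
    linarith

lemma get4_mem (tab : List V4) (i : ℕ) : get4 tab i ∈ tab ∨ get4 tab i = ⟨0, 0, 0, 0⟩ := by
  induction tab generalizing i with
  | nil => right; rfl
  | cons x l ih =>
    cases i with
    | zero => left; exact List.mem_cons_self
    | succ k =>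
      rcases ih k with h | h
      · left; exact List.mem_cons_of_mem _ h
      · right; exact h

lemma chkO_false {tab : List V4} {i : ℕ} {c : Cell} {u : R3} {p : R4} (hin : InC c u p)
    (hp : p.a ≠ 0 ∨ p.b ≠ 0 ∨ p.c ≠ 0 ∨ p.d ≠ 0)
    (ho : ∀ f ∈ tab, d4 f p ≤ Zo * m4 p) (h : chkO tab i c = true) : False := by
  unfold chkO at h
  simp only [Bool.and_eq_true] at h
  obtain ⟨⟨⟨b0, b1⟩, b2⟩, b3⟩ := h
  rcases get4_mem tab i with hm | hm
  · obtain ⟨s0, s1, s2, s3, g0, g1, g2, g3, fa, fb, fc, fd⟩ := hin.2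
    have k0 := pos4_iff b0
    have k1 := pos4_iff b1
    have k2 := pos4_iff b2
    have k3 := pos4_iff b3
    have hf := ho _ hm
    generalize get4 tab i = f at *
    have e1 : d4 f p - Zo * m4 p = s0 * (d4 f (c4 c.p0) - Zo * m4 (c4 c.p0)) +
        s1 * (d4 f (c4 c.p1) - Zo * m4 (c4 c.p1)) + s2 * (d4 f (c4 c.p2) - Zo * m4 (c4 c.p2)) +
        s3 * (d4 f (c4 c.p3) - Zo * m4 (c4 c.p3)) := by
      unfold d4 m4 c4
      rw [fa, fb, fc, fd]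
      ring
    have q0 := mul_nonneg g0 (sub_pos.2 k0).le
    have q1 := mul_nonneg g1 (sub_pos.2 k1).le
    have q2 := mul_nonneg g2 (sub_pos.2 k2).le
    have q3 := mul_nonneg g3 (sub_pos.2 k3).le
    have hs : 0 < s0 ∨ 0 < s1 ∨ 0 < s2 ∨ 0 < s3 := by
      by_contra hcon
      push Not at hcon
      obtain ⟨z0, z1, z2, z3⟩ := hcon
      have z0 : s0 = 0 := le_antisymm z0 g0
      have z1 : s1 = 0 := le_antisymm z1 g1
      have z2 : s2 = 0 := le_antisymm z2 g2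
      have z3 : s3 = 0 := le_antisymm z3 g3
      rw [z0, z1, z2, z3] at fa fb fc fd
      simp only [zero_mul, add_zero] at fa fb fc fd
      rcases hp with h | h | h | h
      · exact h fa
      · exact h fb
      · exact h fc
      · exact h fd
    rcases hs with h | h | h | h
    · have := mul_pos h (sub_pos.2 k0); linarith
    · have := mul_pos h (sub_pos.2 k1); linarith
    · have := mul_pos h (sub_pos.2 k2); linarith
    · have := mul_pos h (sub_pos.2 k3); linarith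
  · rw [hm] at b0
    unfold pos4 dot4 at b0
    simp [Nat.blt] at b0

lemma eq3_iff {a b : V3} (h : eq3 a b = true) : a = b := by
  unfold eq3 at h
  simp only [Bool.and_eq_true, Nat.beq_eq] at h
  obtain ⟨⟨h1, h2⟩, h3⟩ := h
  cases a; cases b
  simp_all

lemma eq4_iff {a b : V4} (h : eq4 a b = true) : a = b := by
  unfold eq4 at h
  simp only [Bool.and_eq_true, Nat.beq_eq] at h
  obtain ⟨⟨⟨h1, h2⟩, h3⟩, h4⟩ := h
  cases a; cases b
  simp_all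

lemma eqC_iff {a b : Cell} (h : eqC a b = true) : a = b := by
  unfold eqC at h
  simp only [Bool.and_eq_true] at h
  obtain ⟨⟨⟨⟨⟨⟨h1, h2⟩, h3⟩, h4⟩, h5⟩, h6⟩, h7⟩ := h
  have e1 := eq3_iff h1
  have e2 := eq3_iff h2
  have e3 := eq3_iff h3
  have e4 := eq4_iff h4
  have e5 := eq4_iff h5
  have e6 := eq4_iff h6
  have e7 := eq4_iff h7
  cases a; cases b
  simp_all

lemma memC_iff {l : List Cell} {c : Cell} (h : memC l c = true) : c ∈ l := by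
  induction l with
  | nil => exact absurd h (by simp [memC])
  | cons x l ih =>
    have h' : (eqC x c || memC l c) = true := h
    rw [Bool.or_eq_true] at h'
    rcases h' with h' | h'
    · rw [eqC_iff h']; exact List.mem_cons_self
    · exact List.mem_cons_of_mem _ (ih h')

/-- splitting a pair of cone coefficients -/
lemma split2 (s t : ℝ) (x y : ℕ) (hs : 0 ≤ s) (ht : 0 ≤ t) (hx : 0 < x) (hy : 0 < y) :
    (∃ m r : ℝ, 0 ≤ m ∧ 0 ≤ r ∧ ∀ a b : ℝ, s * a + t * b = m * (x * a + y * b) + r * b) ∨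
    (∃ m r : ℝ, 0 ≤ m ∧ 0 ≤ r ∧ ∀ a b : ℝ, s * a + t * b = r * a + m * (x * a + y * b)) := by
  have hx' : (0:ℝ) < x := by exact_mod_cast hx
  have hy' : (0:ℝ) < y := by exact_mod_cast hy
  rcases le_total (s * y) (t * x) with h | h
  · left
    refine ⟨s / x, t - s * y / x, by positivity, ?_, ?_⟩
    · rw [sub_nonneg, div_le_iff₀ hx']; exact h
    · intro a b; field_simp; ring
  · right
    refine ⟨t / y, s - t * x / y, by positivity, ?_, ?_⟩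
    · rw [sub_nonneg, div_le_iff₀ hy']; exact h
    · intro a b; field_simp; ring

lemma mid3_c (x y : ℕ) (a b : V3) : ((mid3 x y a b).a : ℝ) = x * a.a + y * b.a ∧
    ((mid3 x y a b).b : ℝ) = x * a.b + y * b.b ∧ ((mid3 x y a b).c : ℝ) = x * a.c + y * b.c := by
  unfold mid3
  simp only [Nat.add_eq, Nat.mul_eq]
  push_cast
  exact ⟨rfl, rfl, rfl⟩

lemma mid4_c (x y : ℕ) (a b : V4) : ((mid4 x y a b).a : ℝ) = x * a.a + y * b.a ∧
    ((mid4 x y a b).b : ℝ) = x * a.b + y * b.b ∧ ((mid4 x y a b).c : ℝ) = x * a.c + y * b.c ∧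
    ((mid4 x y a b).d : ℝ) = x * a.d + y * b.d := by
  unfold mid4
  simp only [Nat.add_eq, Nat.mul_eq]
  push_cast
  exact ⟨rfl, rfl, rfl, rfl⟩

lemma uspl0 {a0 a1 a2 : V3} {u : R3} {x y : ℕ} (hx : 0 < x) (hy : 0 < y)
    (h : InU a0 a1 a2 u) : InU (mid3 x y a0 a1) a1 a2 u ∨ InU a0 (mid3 x y a0 a1) a2 u := by
  obtain ⟨s0, s1, s2, h0, h1, h2, ea, eb, ec⟩ := h
  obtain ⟨ma, mb, mc⟩ := mid3_c x y a0 a1
  rcases split2 s0 s1 x y h0 h1 hx hy with ⟨m, r, hm, hr, H⟩ | ⟨m, r, hm, hr, H⟩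
  · left
    refine ⟨m, r, s2, hm, hr, h2, ?_, ?_, ?_⟩
    · rw [ma]; linarith [H a0.a a1.a]
    · rw [mb]; linarith [H a0.b a1.b]
    · rw [mc]; linarith [H a0.c a1.c]
  · right
    refine ⟨r, m, s2, hr, hm, h2, ?_, ?_, ?_⟩
    · rw [ma]; linarith [H a0.a a1.a]
    · rw [mb]; linarith [H a0.b a1.b]
    · rw [mc]; linarith [H a0.c a1.c]

lemma uspl1 {a0 a1 a2 : V3} {u : R3} {x y : ℕ} (hx : 0 < x) (hy : 0 < y)
    (h : InU a0 a1 a2 u) : InU a0 (mid3 x y a1 a2) a2 u ∨ InU a0 a1 (mid3 x y a1 a2) u := by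
  obtain ⟨s0, s1, s2, h0, h1, h2, ea, eb, ec⟩ := h
  obtain ⟨ma, mb, mc⟩ := mid3_c x y a1 a2
  rcases split2 s1 s2 x y h1 h2 hx hy with ⟨m, r, hm, hr, H⟩ | ⟨m, r, hm, hr, H⟩
  · left
    refine ⟨s0, m, r, h0, hm, hr, ?_, ?_, ?_⟩
    · rw [ma]; linarith [H a1.a a2.a]
    · rw [mb]; linarith [H a1.b a2.b]
    · rw [mc]; linarith [H a1.c a2.c]
  · right
    refine ⟨s0, r, m, h0, hr, hm, ?_, ?_, ?_⟩
    · rw [ma]; linarith [H a1.a a2.a]
    · rw [mb]; linarith [H a1.b a2.b]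
    · rw [mc]; linarith [H a1.c a2.c]

lemma uspl2 {a0 a1 a2 : V3} {u : R3} {x y : ℕ} (hx : 0 < x) (hy : 0 < y)
    (h : InU a0 a1 a2 u) : InU (mid3 x y a0 a2) a1 a2 u ∨ InU a0 a1 (mid3 x y a0 a2) u := by
  obtain ⟨s0, s1, s2, h0, h1, h2, ea, eb, ec⟩ := h
  obtain ⟨ma, mb, mc⟩ := mid3_c x y a0 a2
  rcases split2 s0 s2 x y h0 h2 hx hy with ⟨m, r, hm, hr, H⟩ | ⟨m, r, hm, hr, H⟩
  · left
    refine ⟨m, s1, r, hm, h1, hr, ?_, ?_, ?_⟩
    · rw [ma]; linarith [H a0.a a2.a]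
    · rw [mb]; linarith [H a0.b a2.b]
    · rw [mc]; linarith [H a0.c a2.c]
  · right
    refine ⟨r, s1, m, hr, h1, hm, ?_, ?_, ?_⟩
    · rw [ma]; linarith [H a0.a a2.a]
    · rw [mb]; linarith [H a0.b a2.b]
    · rw [mc]; linarith [H a0.c a2.c]

lemma pspl0 {a0 a1 a2 a3 : V4} {p : R4} {x y : ℕ} (hx : 0 < x) (hy : 0 < y)
    (h : InP a0 a1 a2 a3 p) : InP (mid4 x y a0 a1) a1 a2 a3 p ∨ InP a0 (mid4 x y a0 a1) a2 a3 p := by
  obtain ⟨s0, s1, s2, s3, h0, h1, h2, h3, ea, eb, ec, ed⟩ := h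
  obtain ⟨ma, mb, mc, md⟩ := mid4_c x y a0 a1
  rcases split2 s0 s1 x y h0 h1 hx hy with ⟨m, r, hm, hr, H⟩ | ⟨m, r, hm, hr, H⟩
  · left
    refine ⟨m, r, s2, s3, hm, hr, h2, h3, ?_, ?_, ?_, ?_⟩
    · rw [ma]; linarith [H a0.a a1.a]
    · rw [mb]; linarith [H a0.b a1.b]
    · rw [mc]; linarith [H a0.c a1.c]
    · rw [md]; linarith [H a0.d a1.d]
  · right
    refine ⟨r, m, s2, s3, hr, hm, h2, h3, ?_, ?_, ?_, ?_⟩
    · rw [ma]; linarith [H a0.a a1.a]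
    · rw [mb]; linarith [H a0.b a1.b]
    · rw [mc]; linarith [H a0.c a1.c]
    · rw [md]; linarith [H a0.d a1.d]

lemma pspl1 {a0 a1 a2 a3 : V4} {p : R4} {x y : ℕ} (hx : 0 < x) (hy : 0 < y)
    (h : InP a0 a1 a2 a3 p) : InP (mid4 x y a0 a2) a1 a2 a3 p ∨ InP a0 a1 (mid4 x y a0 a2) a3 p := by
  obtain ⟨s0, s1, s2, s3, h0, h1, h2, h3, ea, eb, ec, ed⟩ := h
  obtain ⟨ma, mb, mc, md⟩ := mid4_c x y a0 a2
  rcases split2 s0 s2 x y h0 h2 hx hy with ⟨m, r, hm, hr, H⟩ | ⟨m, r, hm, hr, H⟩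
  · left
    refine ⟨m, s1, r, s3, hm, h1, hr, h3, ?_, ?_, ?_, ?_⟩
    · rw [ma]; linarith [H a0.a a2.a]
    · rw [mb]; linarith [H a0.b a2.b]
    · rw [mc]; linarith [H a0.c a2.c]
    · rw [md]; linarith [H a0.d a2.d]
  · right
    refine ⟨r, s1, m, s3, hr, h1, hm, h3, ?_, ?_, ?_, ?_⟩
    · rw [ma]; linarith [H a0.a a2.a]
    · rw [mb]; linarith [H a0.b a2.b]
    · rw [mc]; linarith [H a0.c a2.c]
    · rw [md]; linarith [H a0.d a2.d]

lemma pspl2 {a0 a1 a2 a3 : V4} {p : R4} {x y : ℕ} (hx : 0 < x) (hy : 0 < y)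
    (h : InP a0 a1 a2 a3 p) : InP (mid4 x y a0 a3) a1 a2 a3 p ∨ InP a0 a1 a2 (mid4 x y a0 a3) p := by
  obtain ⟨s0, s1, s2, s3, h0, h1, h2, h3, ea, eb, ec, ed⟩ := h
  obtain ⟨ma, mb, mc, md⟩ := mid4_c x y a0 a3
  rcases split2 s0 s3 x y h0 h3 hx hy with ⟨m, r, hm, hr, H⟩ | ⟨m, r, hm, hr, H⟩
  · left
    refine ⟨m, s1, s2, r, hm, h1, h2, hr, ?_, ?_, ?_, ?_⟩
    · rw [ma]; linarith [H a0.a a3.a]
    · rw [mb]; linarith [H a0.b a3.b]
    · rw [mc]; linarith [H a0.c a3.c]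
    · rw [md]; linarith [H a0.d a3.d]
  · right
    refine ⟨r, s1, s2, m, hr, h1, h2, hm, ?_, ?_, ?_, ?_⟩
    · rw [ma]; linarith [H a0.a a3.a]
    · rw [mb]; linarith [H a0.b a3.b]
    · rw [mc]; linarith [H a0.c a3.c]
    · rw [md]; linarith [H a0.d a3.d]

lemma pspl3 {a0 a1 a2 a3 : V4} {p : R4} {x y : ℕ} (hx : 0 < x) (hy : 0 < y)
    (h : InP a0 a1 a2 a3 p) : InP a0 (mid4 x y a1 a2) a2 a3 p ∨ InP a0 a1 (mid4 x y a1 a2) a3 p := by
  obtain ⟨s0, s1, s2, s3, h0, h1, h2, h3, ea, eb, ec, ed⟩ := h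
  obtain ⟨ma, mb, mc, md⟩ := mid4_c x y a1 a2
  rcases split2 s1 s2 x y h1 h2 hx hy with ⟨m, r, hm, hr, H⟩ | ⟨m, r, hm, hr, H⟩
  · left
    refine ⟨s0, m, r, s3, h0, hm, hr, h3, ?_, ?_, ?_, ?_⟩
    · rw [ma]; linarith [H a1.a a2.a]
    · rw [mb]; linarith [H a1.b a2.b]
    · rw [mc]; linarith [H a1.c a2.c]
    · rw [md]; linarith [H a1.d a2.d]
  · right
    refine ⟨s0, r, m, s3, h0, hr, hm, h3, ?_, ?_, ?_, ?_⟩
    · rw [ma]; linarith [H a1.a a2.a]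
    · rw [mb]; linarith [H a1.b a2.b]
    · rw [mc]; linarith [H a1.c a2.c]
    · rw [md]; linarith [H a1.d a2.d]

lemma pspl4 {a0 a1 a2 a3 : V4} {p : R4} {x y : ℕ} (hx : 0 < x) (hy : 0 < y)
    (h : InP a0 a1 a2 a3 p) : InP a0 (mid4 x y a1 a3) a2 a3 p ∨ InP a0 a1 a2 (mid4 x y a1 a3) p := by
  obtain ⟨s0, s1, s2, s3, h0, h1, h2, h3, ea, eb, ec, ed⟩ := h
  obtain ⟨ma, mb, mc, md⟩ := mid4_c x y a1 a3
  rcases split2 s1 s3 x y h1 h3 hx hy with ⟨m, r, hm, hr, H⟩ | ⟨m, r, hm, hr, H⟩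
  · left
    refine ⟨s0, m, s2, r, h0, hm, h2, hr, ?_, ?_, ?_, ?_⟩
    · rw [ma]; linarith [H a1.a a3.a]
    · rw [mb]; linarith [H a1.b a3.b]
    · rw [mc]; linarith [H a1.c a3.c]
    · rw [md]; linarith [H a1.d a3.d]
  · right
    refine ⟨s0, r, s2, m, h0, hr, h2, hm, ?_, ?_, ?_, ?_⟩
    · rw [ma]; linarith [H a1.a a3.a]
    · rw [mb]; linarith [H a1.b a3.b]
    · rw [mc]; linarith [H a1.c a3.c]
    · rw [md]; linarith [H a1.d a3.d]

lemma pspl5 {a0 a1 a2 a3 : V4} {p : R4} {x y : ℕ} (hx : 0 < x) (hy : 0 < y)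
    (h : InP a0 a1 a2 a3 p) : InP a0 a1 (mid4 x y a2 a3) a3 p ∨ InP a0 a1 a2 (mid4 x y a2 a3) p := by
  obtain ⟨s0, s1, s2, s3, h0, h1, h2, h3, ea, eb, ec, ed⟩ := h
  obtain ⟨ma, mb, mc, md⟩ := mid4_c x y a2 a3
  rcases split2 s2 s3 x y h2 h3 hx hy with ⟨m, r, hm, hr, H⟩ | ⟨m, r, hm, hr, H⟩
  · left
    refine ⟨s0, s1, m, r, h0, h1, hm, hr, ?_, ?_, ?_, ?_⟩
    · rw [ma]; linarith [H a2.a a3.a]
    · rw [mb]; linarith [H a2.b a3.b]
    · rw [mc]; linarith [H a2.c a3.c]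
    · rw [md]; linarith [H a2.d a3.d]
  · right
    refine ⟨s0, s1, r, m, h0, h1, hr, hm, ?_, ?_, ?_, ?_⟩
    · rw [ma]; linarith [H a2.a a3.a]
    · rw [mb]; linarith [H a2.b a3.b]
    · rw [mc]; linarith [H a2.c a3.c]
    · rw [md]; linarith [H a2.d a3.d]

/-- **soundness** -/
theorem chk_sound (D : Dat) (hs : List Cell) (u : R3) (p : R4)
    (hu : u.a ≠ 0 ∨ u.b ≠ 0 ∨ u.c ≠ 0) (hp : p.a ≠ 0 ∨ p.b ≠ 0 ∨ p.c ≠ 0 ∨ p.d ≠ 0)
    (hc : ∀ c ∈ D.con, GoodC c u p) (ho : ∀ f ∈ D.out, d4 f p ≤ Zo * m4 p)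
    (hh : ∀ c ∈ hs, InC c u p → NearC D.na u p ∨ NearC D.nb u p) (t : Tr) :
    ∀ c : Cell, chk D hs t c = true → InC c u p → NearC D.na u p ∨ NearC D.nb u p := by
  induction t with
  | F l =>
    intro c h hin
    exfalso
    have h' : cF (sumC D.con Con.m0 l) (sumC D.con Con.m1 l) (sumC D.con Con.m2 l)
      (Nat.mul Zo (sumL l)) c = true := h
    refine cF_false hin hu hp ?_ h'
    have := sum_good hc l
    simp only [Nat.mul_eq]
    push_cast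
    exact this
  | O i =>
    intro c h hin
    exact (chkO_false hin hp ho h).elim
  | A =>
    intro c h hin
    exact Or.inl (chkN_sound hin h)
  | B =>
    intro c h hin
    exact Or.inr (chkN_sound hin h)
  | H =>
    intro c h hin
    exact hh c (memC_iff h) hin
  | U0 x y s t ihs iht =>
    intro c h hin
    have h' : (Nat.blt 0 x && Nat.blt 0 y && chk D hs s _ && chk D hs t _) = true := h
    simp only [Bool.and_eq_true] at h'
    obtain ⟨⟨⟨hx, hy⟩, k1⟩, k2⟩ := h'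
    have hx' : 0 < x := Nat.le_of_ble_eq_true hx
    have hy' : 0 < y := Nat.le_of_ble_eq_true hy
    rcases uspl0 hx' hy' hin.1 with g | g
    · exact ihs _ k1 ⟨g, hin.2⟩
    · exact iht _ k2 ⟨g, hin.2⟩
  | U1 x y s t ihs iht =>
    intro c h hin
    have h' : (Nat.blt 0 x && Nat.blt 0 y && chk D hs s _ && chk D hs t _) = true := h
    simp only [Bool.and_eq_true] at h'
    obtain ⟨⟨⟨hx, hy⟩, k1⟩, k2⟩ := h'
    have hx' : 0 < x := Nat.le_of_ble_eq_true hx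
    have hy' : 0 < y := Nat.le_of_ble_eq_true hy
    rcases uspl1 hx' hy' hin.1 with g | g
    · exact ihs _ k1 ⟨g, hin.2⟩
    · exact iht _ k2 ⟨g, hin.2⟩
  | U2 x y s t ihs iht =>
    intro c h hin
    have h' : (Nat.blt 0 x && Nat.blt 0 y && chk D hs s _ && chk D hs t _) = true := h
    simp only [Bool.and_eq_true] at h'
    obtain ⟨⟨⟨hx, hy⟩, k1⟩, k2⟩ := h'
    have hx' : 0 < x := Nat.le_of_ble_eq_true hx
    have hy' : 0 < y := Nat.le_of_ble_eq_true hy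
    rcases uspl2 hx' hy' hin.1 with g | g
    · exact ihs _ k1 ⟨g, hin.2⟩
    · exact iht _ k2 ⟨g, hin.2⟩
  | P0 x y s t ihs iht =>
    intro c h hin
    have h' : (Nat.blt 0 x && Nat.blt 0 y && chk D hs s _ && chk D hs t _) = true := h
    simp only [Bool.and_eq_true] at h'
    obtain ⟨⟨⟨hx, hy⟩, k1⟩, k2⟩ := h'
    have hx' : 0 < x := Nat.le_of_ble_eq_true hx
    have hy' : 0 < y := Nat.le_of_ble_eq_true hy
    rcases pspl0 hx' hy' hin.2 with g | g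
    · exact ihs _ k1 ⟨hin.1, g⟩
    · exact iht _ k2 ⟨hin.1, g⟩
  | P1 x y s t ihs iht =>
    intro c h hin
    have h' : (Nat.blt 0 x && Nat.blt 0 y && chk D hs s _ && chk D hs t _) = true := h
    simp only [Bool.and_eq_true] at h'
    obtain ⟨⟨⟨hx, hy⟩, k1⟩, k2⟩ := h'
    have hx' : 0 < x := Nat.le_of_ble_eq_true hx
    have hy' : 0 < y := Nat.le_of_ble_eq_true hy
    rcases pspl1 hx' hy' hin.2 with g | g
    · exact ihs _ k1 ⟨hin.1, g⟩
    · exact iht _ k2 ⟨hin.1, g⟩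
  | P2 x y s t ihs iht =>
    intro c h hin
    have h' : (Nat.blt 0 x && Nat.blt 0 y && chk D hs s _ && chk D hs t _) = true := h
    simp only [Bool.and_eq_true] at h'
    obtain ⟨⟨⟨hx, hy⟩, k1⟩, k2⟩ := h'
    have hx' : 0 < x := Nat.le_of_ble_eq_true hx
    have hy' : 0 < y := Nat.le_of_ble_eq_true hy
    rcases pspl2 hx' hy' hin.2 with g | g
    · exact ihs _ k1 ⟨hin.1, g⟩
    · exact iht _ k2 ⟨hin.1, g⟩
  | P3 x y s t ihs iht =>
    intro c h hin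
    have h' : (Nat.blt 0 x && Nat.blt 0 y && chk D hs s _ && chk D hs t _) = true := h
    simp only [Bool.and_eq_true] at h'
    obtain ⟨⟨⟨hx, hy⟩, k1⟩, k2⟩ := h'
    have hx' : 0 < x := Nat.le_of_ble_eq_true hx
    have hy' : 0 < y := Nat.le_of_ble_eq_true hy
    rcases pspl3 hx' hy' hin.2 with g | g
    · exact ihs _ k1 ⟨hin.1, g⟩
    · exact iht _ k2 ⟨hin.1, g⟩
  | P4 x y s t ihs iht =>
    intro c h hin
    have h' : (Nat.blt 0 x && Nat.blt 0 y && chk D hs s _ && chk D hs t _) = true := h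
    simp only [Bool.and_eq_true] at h'
    obtain ⟨⟨⟨hx, hy⟩, k1⟩, k2⟩ := h'
    have hx' : 0 < x := Nat.le_of_ble_eq_true hx
    have hy' : 0 < y := Nat.le_of_ble_eq_true hy
    rcases pspl4 hx' hy' hin.2 with g | g
    · exact ihs _ k1 ⟨hin.1, g⟩
    · exact iht _ k2 ⟨hin.1, g⟩
  | P5 x y s t ihs iht =>
    intro c h hin
    have h' : (Nat.blt 0 x && Nat.blt 0 y && chk D hs s _ && chk D hs t _) = true := h
    simp only [Bool.and_eq_true] at h'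
    obtain ⟨⟨⟨hx, hy⟩, k1⟩, k2⟩ := h'
    have hx' : 0 < x := Nat.le_of_ble_eq_true hx
    have hy' : 0 < y := Nat.le_of_ble_eq_true hy
    rcases pspl5 hx' hy' hin.2 with g | g
    · exact ihs _ k1 ⟨hin.1, g⟩
    · exact iht _ k2 ⟨hin.1, g⟩

end Pool.Agent.W2helper59.NW
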