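import Pool.Agent.W2helper59.NW.Stm
import Pool.Agent.W2helper59.NW.Snd

/-!
# S09083: root cells of the global certificate

`u = (s,t,1)` is written (up to a positive factor) as `∑ μ m U m` with `U m ∈ ℤ[φ]³`, and
`(1,x,y,z) = ∑ n r P r / 1000` with the four integer quaternions `P r`.
-/

set_option autoImplicit false

namespace Pool.Agent.W2helper59.NW

open scoped goldenRatio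

/-- the number `x + y φ` -/
structure Zf where
  (x y : ℤ)

def Zf.add (a b : Zf) : Zf := ⟨a.x + b.x, a.y + b.y⟩
def Zf.sub (a b : Zf) : Zf := ⟨a.x - b.x, a.y - b.y⟩
/-- `φ ^ 2 = φ + 1` -/
def Zf.mul (a b : Zf) : Zf := ⟨a.x * b.x + a.y * b.y, a.x * b.y + a.y * b.x + a.y * b.y⟩
def Zf.smul (k : ℤ) (a : Zf) : Zf := ⟨k * a.x, k * a.y⟩
noncomputable def Zf.r (a : Zf) : ℝ := a.x + a.y * φ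

structure Z3 where
  (a b c : Zf)

def Z3.dot (u v : Z3) : Zf := ((u.a.mul v.a).add (u.b.mul v.b)).add (u.c.mul v.c)
def Z3.cross (u v : Z3) : Z3 := ⟨(u.b.mul v.c).sub (u.c.mul v.b), (u.c.mul v.a).sub (u.a.mul v.c),
  (u.a.mul v.b).sub (u.b.mul v.a)⟩
def Z3.sub (u v : Z3) : Z3 := ⟨u.a.sub v.a, u.b.sub v.b, u.c.sub v.c⟩
noncomputable def Z3.r (u : Z3) : Fin 3 → ℝ := ![u.a.r, u.b.r, u.c.r]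

/-- integer quaternion -/
structure I4 where
  (w x y z : ℤ)

/-- `x v.a + y v.b + z v.c` -/
def I4.vdot (p : I4) (v : Z3) : Zf := ((v.a.smul p.x).add (v.b.smul p.y)).add (v.c.smul p.z)

/-- `10^13` times the polar form of `u · ((n a - c0 R~ q) × d)`:
`10^13 ⟨p,p'⟩ (a · (d × U)) - 10108230607528 (R~(p,p') q) · (d × U)` -/
def Fz (U a d q : Z3) (p p' : I4) : Zf :=
  let m := d.cross U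
  let s := p.x * p'.x + p.y * p'.y + p.z * p'.z
  let k := q.cross m
  let t1 := (q.dot m).smul (p.w * p'.w - s)
  let t2 := (p.vdot q).mul (p'.vdot m)
  let t3 := (p'.vdot q).mul (p.vdot m)
  let t4 := (p'.vdot k).smul p.w
  let t5 := (p.vdot k).smul p'.w
  let t := (((t1.add t2).add t3).add t4).add t5
  ((a.dot m).smul (10 ^ 13 * (p.w * p'.w + s))).sub (t.smul 10108230607528)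

/-- `floor (10^40 φ)` -/
def phiLo : ℤ := 16180339887498948482045868343656381177203

/-- `z ≤ R`, sufficient test -/
def leZ (z : Zf) (R : ℤ) : Bool :=
  decide (z.x * 10 ^ 40 + z.y * (if 0 ≤ z.y then phiLo + 1 else phiLo) ≤ R * 10 ^ 40)

/-- `R ≤ z`, sufficient test -/
def geZ (z : Zf) (R : ℤ) : Bool :=
  decide (R * 10 ^ 40 ≤ z.x * 10 ^ 40 + z.y * (if 0 ≤ z.y then phiLo else phiLo + 1))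

/-- `2^60 F / 10^6 + Zo ≤ e` -/
def okE (F : Zf) (e : ℕ) : Bool := leZ (F.smul (2 ^ 60)) (((e : ℤ) - Zo) * 10 ^ 19)

def Pq0 : I4 := ⟨1000, 709, 709, -709⟩
def Pq1 : I4 := ⟨1000, 709, -709, 709⟩
def Pq2 : I4 := ⟨1000, -709, 709, 709⟩
def Pq3 : I4 := ⟨1000, -709, -709, -709⟩

def okS (U a d q : Z3) (s : S10) : Bool :=
  okE (Fz U a d q Pq0 Pq0) s.aa && okE (Fz U a d q Pq0 Pq1) s.ab && okE (Fz U a d q Pq0 Pq2) s.ac &&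
  okE (Fz U a d q Pq0 Pq3) s.ad && okE (Fz U a d q Pq1 Pq1) s.bb && okE (Fz U a d q Pq1 Pq2) s.bc &&
  okE (Fz U a d q Pq1 Pq3) s.bd && okE (Fz U a d q Pq2 Pq2) s.cc && okE (Fz U a d q Pq2 Pq3) s.cd &&
  okE (Fz U a d q Pq3 Pq3) s.dd

/-- `(v - a) · (d × U) ≤ 0` for all vertices -/
def okV (V : List Z3) (U a d : Z3) : Bool :=
  V.all fun v => leZ ((v.sub a).dot (d.cross U)) 0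

structure Root where
  (U0 U1 U2 : Z3)
  (D : Dat)

/-- the constraint `c` is correct: edge `a`, `d`, inner vertex `q` (number `i` in the list) -/
def okCon (V : List Z3) (R : Root) (a d : Z3) (i : ℕ) (c : Con) : Bool :=
  match V[i]? with
  | none => false
  | some q => okV V R.U0 a d && okV V R.U1 a d && okV V R.U2 a d && okS R.U0 a d q c.m0 &&
      okS R.U1 a d q c.m1 && okS R.U2 a d q c.m2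

/-- all constraints: `ks` lists the data of the constraints of `R.D.con` in order -/
def okCons (V : List Z3) (R : Root) (ks : List (Z3 × Z3 × ℕ)) : Bool :=
  decide (ks.length = R.D.con.length) &&
    (ks.zip R.D.con).all fun kc => okCon V R kc.1.1 kc.1.2.1 kc.1.2.2 kc.2

/-- the outside form for the axis `n`: `f = n · (x,y,z) - (φ - 1) w`;
`f' ≤ 2^60 f(P)/1000 + Zo` -/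
def okO1 (n : Z3) (P : I4) (e : ℕ) : Bool :=
  geZ (((P.vdot n).sub ((⟨-1, 1⟩ : Zf).smul P.w)).smul (2 ^ 60)) (((e : ℤ) - Zo) * 1000)

def okO (n : Z3) (f : V4) : Bool := okO1 n Pq0 f.a && okO1 n Pq1 f.b && okO1 n Pq2 f.c &&
  okO1 n Pq3 f.d

/-- the twelve axes -/
def axes : List Z3 :=
  [⟨⟨0,0⟩,⟨1,0⟩,⟨0,1⟩⟩, ⟨⟨0,0⟩,⟨1,0⟩,⟨0,-1⟩⟩, ⟨⟨0,0⟩,⟨-1,0⟩,⟨0,1⟩⟩, ⟨⟨0,0⟩,⟨-1,0⟩,⟨0,-1⟩⟩,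
   ⟨⟨1,0⟩,⟨0,1⟩,⟨0,0⟩⟩, ⟨⟨1,0⟩,⟨0,-1⟩,⟨0,0⟩⟩, ⟨⟨-1,0⟩,⟨0,1⟩,⟨0,0⟩⟩, ⟨⟨-1,0⟩,⟨0,-1⟩,⟨0,0⟩⟩,
   ⟨⟨0,1⟩,⟨0,0⟩,⟨1,0⟩⟩, ⟨⟨0,-1⟩,⟨0,0⟩,⟨1,0⟩⟩, ⟨⟨0,1⟩,⟨0,0⟩,⟨-1,0⟩⟩, ⟨⟨0,-1⟩,⟨0,0⟩,⟨-1,0⟩⟩]

def okOut (fs : List V4) : Bool := decide (fs.length = 12) &&
  (axes.zip fs).all fun nf => okO nf.1 nf.2

/-- linear form `(l.w z + l.x x + l.y y)/10^9` in `u = (x,y,z)`; `f' ≤ 2^60 f(U) + Zo` -/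
def okNu1 (l : ℤ × ℤ × ℤ) (U : Z3) (e : ℕ) : Bool :=
  geZ ((((U.a.smul l.1).add (U.b.smul l.2.1)).add (U.c.smul l.2.2)).smul (2 ^ 60))
    (((e : ℤ) - Zo) * 10 ^ 9)

def okNu (R : Root) (l : ℤ × ℤ × ℤ) (f : V3) : Bool :=
  okNu1 l R.U0 f.a && okNu1 l R.U1 f.b && okNu1 l R.U2 f.c

/-- linear form `(l.w w + l.x x + l.y y + l.z z)/10^9` in the quaternion;
`f' ≤ 2^60 f(P)/1000 + Zo` -/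
def okNp1 (l P : I4) (e : ℕ) : Bool :=
  decide (((e : ℤ) - Zo) * 10 ^ 12 ≤ 2 ^ 60 * (l.w * P.w + l.x * P.x + l.y * P.y + l.z * P.z))

def okNp (l : I4) (f : V4) : Bool := okNp1 l Pq0 f.a && okNp1 l Pq1 f.b && okNp1 l Pq2 f.c &&
  okNp1 l Pq3 f.d

def okNb (R : Root) (lu : List (ℤ × ℤ × ℤ)) (lp : List I4) (n : Nb) : Bool :=
  decide (lu.length = n.fu.length) && decide (lp.length = n.fp.length) &&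
  ((lu.zip n.fu).all fun lf => okNu R lf.1 lf.2) && (lp.zip n.fp).all fun lf => okNp lf.1 lf.2

/-- the neighbourhood described by the forms -/
def NbR (lu : List (ℤ × ℤ × ℤ)) (lp : List I4) (s t x y z : ℝ) : Prop :=
  (∀ l ∈ lu, 0 ≤ (l.1 : ℝ) * s + l.2.1 * t + l.2.2) ∧
  ∀ l ∈ lp, 0 ≤ (l.w : ℝ) + l.x * x + l.y * y + l.z * z

def rootCell : Cell := ⟨⟨1,0,0⟩, ⟨0,1,0⟩, ⟨0,0,1⟩, ⟨1,0,0,0⟩, ⟨0,1,0,0⟩, ⟨0,0,1,0⟩, ⟨0,0,0,1⟩⟩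

/-- everything `chk` proves, for one root -/
def Done (D : Dat) (c : Cell) : Prop := ∀ (u : R3) (p : R4),
  (u.a ≠ 0 ∨ u.b ≠ 0 ∨ u.c ≠ 0) → (p.a ≠ 0 ∨ p.b ≠ 0 ∨ p.c ≠ 0 ∨ p.d ≠ 0) →
  (∀ c ∈ D.con, GoodC c u p) → (∀ f ∈ D.out, d4 f p ≤ Zo * m4 p) → InC c u p →
  NearC D.na u p ∨ NearC D.nb u p

theorem done_of_chk {D : Dat} {t : Tr} {c : Cell} (h : chk D [] t c = true) : Done D c :=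
  fun u p hu hp hc ho hin => chk_sound D [] u p hu hp hc ho (by simp) t c h hin

theorem done_of_top {D : Dat} {hs : List Cell} {t : Tr} {c : Cell} (h : chk D hs t c = true)
    (hh : ∀ c ∈ hs, Done D c) : Done D c :=
  fun u p hu hp hc ho hin => chk_sound D hs u p hu hp hc ho
    (fun c' hc' hin' => hh c' hc' u p hu hp hc ho hin') t c h hin

/-- **G1** (one root).  Put `u = ⟨μ0, μ1, μ2⟩`, `p = ⟨n0, n1, n2, n3⟩` where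
`(1,x,y,z) = ∑ nr Pr / 1000`; `nr ≥ 0` follows from `DC` (`x+y+z ≤ 3(2φ-3) ≤ 709/1000` and the
images under two sign changes: add three of the inequalities of `DC`, `1 + φ = φ²`).
`GoodC`: `PassQ` for `w = d × ((s,t,1)/k)`, `q = V[i]` gives `v ∈ V` with
`c (RQ q ⬝ w) ≤ n (v ⬝ w) ≤ n (a ⬝ w)` (`okV`); `0 ≤ a ⬝ w` (symmetry `v ↦ -v` of `V`), hence also
with `c0 ≤ c` instead of `c`; so `∑ μm nr ns F(Um;Pr,Ps) ≥ 0` and the entries dominate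
`2^60 F + Zo`. -/
def G1 : Prop := ∀ (Vl : List Z3) (V : Set (Fin 3 → ℝ)), (∀ v ∈ Vl, v.r ∈ V) →
  (∀ v ∈ V, ∃ z ∈ Vl, v = z.r) → (∀ v ∈ V, -v ∈ V) →
  ∀ (R : Root) (ks : List (Z3 × Z3 × ℕ)) (lua lub : List (ℤ × ℤ × ℤ)) (lpa lpb : List I4),
  okCons Vl R ks = true → okOut R.D.out = true → okNb R lua lpa R.D.na = true →
  okNb R lub lpb R.D.nb = true → Done R.D rootCell →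
  ∀ (c s t x y z k μ0 μ1 μ2 : ℝ), c0 ≤ c → DC x y z → PassQ V c s t x y z → 0 < k →
    0 ≤ μ0 → 0 ≤ μ1 → 0 ≤ μ2 →
    k * s = μ0 * R.U0.a.r + μ1 * R.U1.a.r + μ2 * R.U2.a.r →
    k * t = μ0 * R.U0.b.r + μ1 * R.U1.b.r + μ2 * R.U2.b.r →
    k = μ0 * R.U0.c.r + μ1 * R.U1.c.r + μ2 * R.U2.c.r →
    NbR lua lpa s t x y z ∨ NbR lub lpb s t x y z

/-! The roots of the two solids.  Triangles in the plane `z = 1` (icosahedron): with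
`O = (0,0)`, `A = (2-φ, 0)`, `B = (0, φ-1)`, `X = (5-3φ, 2-φ)`, `Y = (0, 2-φ)`: `O A X`, `X B Y`,
`O X Y`; dodecahedron (plane `z = 5`): `X' = (3-φ, 3φ-4)/5`: `O A X'`, `O X' B`. -/

/-- **G2** (covering; elementary).  `T = {s, t ≥ 0, φ² s + φ t ≤ 1}`. -/
def G2 : Prop := (∀ s t : ℝ, 0 ≤ s → 0 ≤ t → φ ^ 2 * s + φ * t ≤ 1 →
    (∃ a b d : ℝ, 0 ≤ a ∧ 0 ≤ b ∧ 0 ≤ d ∧ a + b + d = 1 ∧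
      s = b * (2 - φ) + d * (5 - 3 * φ) ∧ t = d * (2 - φ)) ∨
    (∃ a b d : ℝ, 0 ≤ a ∧ 0 ≤ b ∧ 0 ≤ d ∧ a + b + d = 1 ∧
      s = a * (5 - 3 * φ) ∧ t = a * (2 - φ) + b * (φ - 1) + d * (2 - φ)) ∨
    (∃ a b d : ℝ, 0 ≤ a ∧ 0 ≤ b ∧ 0 ≤ d ∧ a + b + d = 1 ∧
      s = b * (5 - 3 * φ) ∧ t = b * (2 - φ) + d * (2 - φ))) ∧
  (∀ s t : ℝ, 0 ≤ s → 0 ≤ t → φ ^ 2 * s + φ * t ≤ 1 →
    (∃ a b d : ℝ, 0 ≤ a ∧ 0 ≤ b ∧ 0 ≤ d ∧ a + b + d = 1 ∧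
      5 * s = b * (10 - 5 * φ) + d * (3 - φ) ∧ 5 * t = d * (3 * φ - 4)) ∨
    (∃ a b d : ℝ, 0 ≤ a ∧ 0 ≤ b ∧ 0 ≤ d ∧ a + b + d = 1 ∧
      5 * s = b * (3 - φ) ∧ 5 * t = b * (3 * φ - 4) + d * (5 * φ - 5)))

/-- vertex lists (order as in the data) -/
def VIl : List Z3 :=
  [⟨⟨0,0⟩,⟨1,0⟩,⟨0,1⟩⟩, ⟨⟨0,0⟩,⟨1,0⟩,⟨0,-1⟩⟩, ⟨⟨0,0⟩,⟨-1,0⟩,⟨0,1⟩⟩, ⟨⟨0,0⟩,⟨-1,0⟩,⟨0,-1⟩⟩,
   ⟨⟨1,0⟩,⟨0,1⟩,⟨0,0⟩⟩, ⟨⟨1,0⟩,⟨0,-1⟩,⟨0,0⟩⟩, ⟨⟨-1,0⟩,⟨0,1⟩,⟨0,0⟩⟩, ⟨⟨-1,0⟩,⟨0,-1⟩,⟨0,0⟩⟩,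
   ⟨⟨0,1⟩,⟨0,0⟩,⟨1,0⟩⟩, ⟨⟨0,-1⟩,⟨0,0⟩,⟨1,0⟩⟩, ⟨⟨0,1⟩,⟨0,0⟩,⟨-1,0⟩⟩, ⟨⟨0,-1⟩,⟨0,0⟩,⟨-1,0⟩⟩]

def VEl : List Z3 :=
  [⟨⟨1,0⟩,⟨1,0⟩,⟨1,0⟩⟩, ⟨⟨1,0⟩,⟨1,0⟩,⟨-1,0⟩⟩, ⟨⟨1,0⟩,⟨-1,0⟩,⟨1,0⟩⟩, ⟨⟨1,0⟩,⟨-1,0⟩,⟨-1,0⟩⟩,
   ⟨⟨-1,0⟩,⟨1,0⟩,⟨1,0⟩⟩, ⟨⟨-1,0⟩,⟨1,0⟩,⟨-1,0⟩⟩, ⟨⟨-1,0⟩,⟨-1,0⟩,⟨1,0⟩⟩, ⟨⟨-1,0⟩,⟨-1,0⟩,⟨-1,0⟩⟩,
   ⟨⟨-1,1⟩,⟨0,0⟩,⟨0,1⟩⟩, ⟨⟨-1,1⟩,⟨0,0⟩,⟨0,-1⟩⟩, ⟨⟨1,-1⟩,⟨0,0⟩,⟨0,1⟩⟩, ⟨⟨1,-1⟩,⟨0,0⟩,⟨0,-1⟩⟩,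
   ⟨⟨0,1⟩,⟨-1,1⟩,⟨0,0⟩⟩, ⟨⟨0,-1⟩,⟨-1,1⟩,⟨0,0⟩⟩, ⟨⟨0,1⟩,⟨1,-1⟩,⟨0,0⟩⟩, ⟨⟨0,-1⟩,⟨1,-1⟩,⟨0,0⟩⟩,
   ⟨⟨0,0⟩,⟨0,1⟩,⟨-1,1⟩⟩, ⟨⟨0,0⟩,⟨0,-1⟩,⟨-1,1⟩⟩, ⟨⟨0,0⟩,⟨0,1⟩,⟨1,-1⟩⟩, ⟨⟨0,0⟩,⟨0,-1⟩,⟨1,-1⟩⟩]

/-- **G3V**: the lists describe `VI` and `VE`. -/
def G3V : Prop := (∀ v ∈ VIl, v.r ∈ VI) ∧ (∀ v ∈ VI, ∃ z ∈ VIl, v = z.r) ∧
  (∀ v ∈ VEl, v.r ∈ VE) ∧ (∀ v ∈ VE, ∃ z ∈ VEl, v = z.r) ∧ (∀ v ∈ VI, -v ∈ VI) ∧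
  (∀ v ∈ VE, -v ∈ VE) ∧ (∀ v ∈ VD, -v ∈ VD)

end Pool.Agent.W2helper59.NW
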