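import Pool.Agent.W2helper59.NW.Geo

/-!
# S09083: the linear forms describing the neighbourhoods of the optimum
-/

set_option autoImplicit false

namespace Pool.Agent.W2helper59.NW

def luI : List (ℤ × ℤ × ℤ) :=
  [(-1000000000, 0, 272906858), (1000000000, 0, -272886858), (0, -1000000000, 10000),
   (0, 1000000000, 10000)]

def luE : List (ℤ × ℤ × ℤ) :=
  [(-1000000000, 0, 10000), (1000000000, 0, 10000), (0, -1000000000, 375330697),
   (0, 1000000000, -375310697)]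

def lpaI : List I4 :=
  [⟨181489772, -1000000000, 0, 0⟩, ⟨-181469772, 1000000000, 0, 0⟩,
   ⟨134008419, 0, -1000000000, 0⟩, ⟨-133988419, 0, 1000000000, 0⟩,
   ⟨-24308003, 0, 0, -1000000000⟩, ⟨24328003, 0, 0, 1000000000⟩]

def lpbI : List I4 :=
  [⟨-181469772, -1000000000, 0, 0⟩, ⟨181489772, 1000000000, 0, 0⟩,
   ⟨134008419, 0, -1000000000, 0⟩, ⟨-133988419, 0, 1000000000, 0⟩,
   ⟨24328003, 0, 0, -1000000000⟩, ⟨-24308003, 0, 0, 1000000000⟩]

def lpaE : List I4 :=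
  [⟨-181469772, -1000000000, 0, 0⟩, ⟨181489772, 1000000000, 0, 0⟩,
   ⟨-133988419, 0, -1000000000, 0⟩, ⟨134008419, 0, 1000000000, 0⟩,
   ⟨24328003, 0, 0, -1000000000⟩, ⟨-24308003, 0, 0, 1000000000⟩]

def lpbE : List I4 :=
  [⟨-181469772, -1000000000, 0, 0⟩, ⟨181489772, 1000000000, 0, 0⟩,
   ⟨134008419, 0, -1000000000, 0⟩, ⟨-133988419, 0, 1000000000, 0⟩,
   ⟨-24308003, 0, 0, -1000000000⟩, ⟨24328003, 0, 0, 1000000000⟩]

end Pool.Agent.W2helper59.NW
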