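import Pool.Agent.W2helper59.NW.D_E0
import Pool.Agent.W2helper59.NW.Nb

set_option autoImplicit false
set_option maxRecDepth 1000000

namespace Pool.Agent.W2helper59.NW.E0

theorem okc : okCons VEl R ks = true := by decide +kernel

theorem oko : okOut R.D.out = true := by decide +kernel

theorem okna : okNb R luE lpaE R.D.na = true := by decide +kernel

theorem oknb : okNb R luE lpbE R.D.nb = true := by decide +kernel

end Pool.Agent.W2helper59.NW.E0
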