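import Pool.Agent.W2helper59.NW.D_I2
import Pool.Agent.W2helper59.NW.Nb

set_option autoImplicit false
set_option maxRecDepth 1000000

namespace Pool.Agent.W2helper59.NW.I2

theorem okc : okCons VIl R ks = true := by decide +kernel

theorem oko : okOut R.D.out = true := by decide +kernel

theorem okna : okNb R luI lpaI R.D.na = true := by decide +kernel

theorem oknb : okNb R luI lpbI R.D.nb = true := by decide +kernel

end Pool.Agent.W2helper59.NW.I2
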