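import Pool.Agent.W2helper59.NW.C_E1_0
import Pool.Agent.W2helper59.NW.C_E1_1
import Pool.Agent.W2helper59.NW.C_E1_2
import Pool.Agent.W2helper59.NW.C_E1_3
import Pool.Agent.W2helper59.NW.C_E1_4
import Pool.Agent.W2helper59.NW.C_E1_5
import Pool.Agent.W2helper59.NW.C_E1_6
import Pool.Agent.W2helper59.NW.C_E1_7
import Pool.Agent.W2helper59.NW.C_E1_8
import Pool.Agent.W2helper59.NW.C_E1_9
import Pool.Agent.W2helper59.NW.C_E1_10
import Pool.Agent.W2helper59.NW.C_E1_11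
import Pool.Agent.W2helper59.NW.C_E1_12
import Pool.Agent.W2helper59.NW.C_E1_13
import Pool.Agent.W2helper59.NW.C_E1_14
import Pool.Agent.W2helper59.NW.C_E1_15
import Pool.Agent.W2helper59.NW.C_E1_16
import Pool.Agent.W2helper59.NW.C_E1_17
import Pool.Agent.W2helper59.NW.C_E1_18
import Pool.Agent.W2helper59.NW.C_E1_19

set_option autoImplicit false
set_option maxRecDepth 1000000

namespace Pool.Agent.W2helper59.NW.E1

open Tr

def top : Tr :=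
  P0 1 1 (P3 1 1 (P5 1 1 (P2 1 2 (P4 1 2 H (P0 1 2 H H)) (P1 1 1 (P4 2 1 (P5 2 1 H (P3 1 4 H (P4 1 1 (P2 2 1 H (P1 4 1 H H)) (P1 4 1 (P3 2 1 (U2 1 1 (U1 1 1 (P5 1 1 (U2 1 2 H (P2 1 2 (P4 1 2 (P5 1 2 (U0 1 1 H (U2 2 1 (P2 1 4 H (U1 1 1 H H)) (P2 1 4 H (P0 1 1 H (P1 1 1 H (U0 2 1 H (U2 4 1 (P2 2 1 (P4 1 1 H (U1 1 1 (P3 1 1 (P1 1 2 H (P0 1 1 (U2 1 2 (U1 1 2 (P5 1 2 H H) H) H) (U2 1 2 (U1 1 2 (P5 1 2 (P2 1 1 (P4 1 2 H (U2 1 4 H (P0 1 1 (P4 2 1 (U0 1 1 H H) H) (P1 2 1 (U0 1 1 H (U2 2 1 (U1 1 1 (P3 1 1 (P5 1 1 (P2 1 2 H H) (P1 1 2 (U2 1 2 (U1 1 2 (P4 1 1 (P5 2 1 (P2 1 2 (U2 1 4 (U1 1 4 H H) (P4 1 2 H (P3 1 1 H (U0 1 1 H (U2 2 1 (P0 1 2 H (P2 1 1 (U1 1 1 (P5 1 1 (P4 1 2 H (P3 1 1 (U2 1 2 (U1 1 2 (P1 1 1 H (P0 2 1 (U2 1 4 (U1 1 4 (P3 1 1 H H) H) H) H)) H) H) H)) (P3 1 2 H (P4 1 1 (U2 1 2 (U1 1 2 (P1 2 1 H (P2 1 1 H (P0 2 1 (U2 1 4 (U1 1 4 (P4 1 1 (P5 1 2 (P2 1 2 H (U2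 1 8 H (P0 1 1 (P4 2 1 (U0 1 1 H (U2 2 1 (U1 1 1 (P5 1 1 H H) H) H)) H) H))) H) H) H) H) H))) H) H) H))) H) H)) H))))) H) H) H) H) H) (P2 1 1 (U2 1 2 (U1 1 2 (P4 1 1 (P5 1 2 (P2 1 2 H H) H) H) H) H) H))) H) H) H)) H)))) H) H) H) H))) H) H)) H) H))))))) H) H) H)) H) H) H) (U2 1 1 (U1 1 1 (P0 1 4 H (P4 1 4 H H)) H) H)) (U2 1 1 (U1 1 1 H H) H))))) H) H)) H) (P4 1 1 (P2 1 2 H (P5 2 1 (P0 1 1 H H) H)) H)) (P1 1 1 (P5 1 1 (P2 1 2 H (P3 1 1 (P1 1 1 (P3 1 2 H (P0 1 1 (P4 1 1 (P2 1 2 H (U2 1 1 (U1 1 1 (P0 1 1 H (P1 1 1 H (P2 2 1 H (U2 1 2 H (P0 2 1 H (P1 2 1 H (P2 4 1 H (U0 1 1 H (U2 2 1 H H))))))))) H) H)) (P3 2 1 (U2 1 1 (U1 1 1 (P1 1 1 H (P2 1 1 H (P0 2 1 H (U2 1 2 H (P1 2 1 H (P2 2 1 H (P0 4 1 H (U0 1 1 H (U2 2 1 H (P1 4 1 (P5 1 1 (P2 1 2 (P4 1 2 (U0 2 1 H (U2 4 1 (U1 1 1 (P5 1 2 (P2 1 4 H H) (P3 1 2 H (U2 1 2 (U1 1 2 (P2 1 1 (P4 1 1 H (P0 1 2 (P3 2 1 H (U2 1 4 H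 (P4 2 1 H (P0 1 4 H (U0 1 1 H (U2 2 1 (U1 1 1 (P2 1 1 (P5 1 1 H (P3 1 2 (P1 1 2 H (U2 1 2 (P0 2 1 H (U1 1 2 (P2 1 1 H (P1 2 1 H (U2 1 4 (P0 4 1 H (U1 1 4 H H)) (P0 4 1 (U0 1 1 H (U2 2 1 (P0 1 2 H (P2 1 4 H (U1 1 1 (P1 1 2 H (U2 1 2 (P0 2 1 H (P2 2 1 (U1 1 2 (P5 1 1 H (P3 1 2 (P1 1 2 H (U2 1 4 (U1 1 4 (P0 2 1 (P4 1 2 (P2 1 4 (U2 1 8 H H) H) H) H) H) H)) (P4 1 1 (U2 1 4 (U1 1 4 (P1 2 1 H H) H) H) H))) H) H)) H)) H))) H)) H)))) H)) H)) H)) (P1 1 1 (P3 1 2 (P5 2 1 (U2 1 2 (P4 1 2 (U1 1 2 (P2 1 1 (P5 1 2 (U2 1 4 H H) H) H) H) H) H) H) H) H)) H) H)))))) H)) H) H) H))) H) H)) H) H) H) H)))))))))) H) H) (U2 1 1 (U1 1 1 (P0 1 2 H (P2 1 1 H (P1 2 1 H (U2 1 2 H (P0 2 1 H (P2 2 1 H (P1 4 1 H H))))))) H) H))) (P2 1 1 H H))) (P2 2 1 (P3 1 1 H (P4 1 1 H (P0 1 2 H H))) H)) H)) (P3 1 2 H (P4 1 1 (P2 1 1 H H) H))) (P2 1 1 (P4 1 2 H (P5 2 1 H H)) H))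

def hs : List Cell := [c0, c1, c2, c3, c4, c5, c6, c7, c8, c9, c10, c11, c12, c13, c14, c15, c16, c17, c18, c19, c20, c21, c22, c23, c24, c25, c26, c27, c28, c29, c30, c31, c32, c33, c34, c35, c36, c37, c38, c39, c40, c41, c42, c43, c44, c45, c46, c47, c48, c49, c50, c51, c52, c53, c54, c55, c56, c57, c58, c59, c60, c61, c62, c63, c64, c65, c66, c67, c68, c69, c70, c71, c72, c73, c74, c75, c76, c77, c78, c79, c80, c81, c82, c83, c84, c85, c86, c87, c88, c89, c90, c91, c92, c93, c94, c95, c96, c97, c98, c99, c100, c101, c102, c103, c104, c105, c106, c107, c108, c109, c110, c111, c112, c113, c114, c115, c116, c117, c118, c119, c120, c121, c122, c123, c124, c125, c126, c127, c128, c129, c130, c131, c132, c133, c134, c135, c136, c137, c138, c139, c140, c141, c142, c143, c144, c145, c146, c147, c148, c149, c150, c151, c152, c153, c154, c155, c156, c157, c158, c159,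 c160, c161, c162, c163, c164, c165, c166, c167, c168, c169, c170, c171, c172, c173, c174, c175, c176, c177, c178, c179, c180, c181, c182, c183, c184, c185, c186, c187, c188, c189, c190, c191, c192, c193, c194, c195, c196, c197, c198, c199, c200, c201, c202, c203, c204, c205, c206, c207, c208, c209, c210, c211, c212, c213, c214, c215, c216, c217, c218, c219, c220, c221, c222, c223, c224, c225, c226, c227, c228, c229, c230, c231, c232, c233, c234, c235]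

theorem tc : chk D hs top rootCell = true := by decide +kernel

theorem dn : Done D rootCell := by
  refine done_of_top tc fun c hc => ?_
  have h : hs = [c0, c1, c2, c3, c4, c5, c6, c7, c8, c9, c10, c11] ++ ([c12, c13, c14, c15, c16, c17, c18, c19, c20, c21, c22, c23] ++ ([c24, c25, c26, c27, c28, c29, c30, c31, c32, c33, c34, c35] ++ ([c36, c37, c38, c39, c40, c41, c42, c43, c44, c45, c46, c47] ++ ([c48, c49, c50, c51, c52, c53, c54, c55, c56, c57, c58, c59] ++ ([c60, c61, c62, c63, c64, c65, c66, c67, c68, c69, c70, c71] ++ ([c72, c73, c74, c75, c76, c77, c78, c79, c80, c81, c82, c83] ++ ([c84, c85, c86, c87, c88, c89, c90, c91, c92, c93, c94, c95] ++ ([c96, c97, c98, c99, c100, c101, c102, c103, c104, c105, c106, c107] ++ ([c108, c109, c110, c111, c112, c113, c114, c115, c116, c117, c118, c119] ++ ([c120, c121, c122, c123, c124, c125, c126, c127, c128,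 c129, c130, c131] ++ ([c132, c133, c134, c135, c136, c137, c138, c139, c140, c141, c142, c143] ++ ([c144, c145, c146, c147, c148, c149, c150, c151, c152, c153, c154, c155] ++ ([c156, c157, c158, c159, c160, c161, c162, c163, c164, c165, c166, c167] ++ ([c168, c169, c170, c171, c172, c173, c174, c175, c176, c177, c178, c179] ++ ([c180, c181, c182, c183, c184, c185, c186, c187, c188, c189, c190, c191] ++ ([c192, c193, c194, c195, c196, c197, c198, c199, c200, c201, c202, c203] ++ ([c204, c205, c206, c207, c208, c209, c210, c211, c212, c213, c214, c215] ++ ([c216, c217, c218, c219, c220, c221, c222, c223, c224, c225, c226, c227] ++ ([c228, c229, c230, c231, c232, c233, c234, c235]))))))))))))))))))) := rfl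
  rw [h] at hc
  simp only [List.mem_append] at hc
  rcases hc with hc | hc | hc | hc | hc | hc | hc | hc | hc | hc | hc | hc | hc | hc | hc | hc | hc | hc | hc | hc
  · exact g0 c hc
  · exact g1 c hc
  · exact g2 c hc
  · exact g3 c hc
  · exact g4 c hc
  · exact g5 c hc
  · exact g6 c hc
  · exact g7 c hc
  · exact g8 c hc
  · exact g9 c hc
  · exact g10 c hc
  · exact g11 c hc
  · exact g12 c hc
  · exact g13 c hc
  · exact g14 c hc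
  · exact g15 c hc
  · exact g16 c hc
  · exact g17 c hc
  · exact g18 c hc
  · exact g19 c hc

end Pool.Agent.W2helper59.NW.E1
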