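import Pool.Agent.W2helper59.NW.C_I1_0

set_option autoImplicit false
set_option maxRecDepth 1000000

namespace Pool.Agent.W2helper59.NW.I1

open Tr

def top : Tr :=
  P0 1 1 H H

def hs : List Cell := [c0, c1]

theorem tc : chk D hs top rootCell = true := by decide +kernel

theorem dn : Done D rootCell := by
  refine done_of_top tc fun c hc => ?_
  have h : hs = [c0, c1] := rfl
  rw [h] at hc
  exact g0 c hc

end Pool.Agent.W2helper59.NW.I1
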