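import Pool.Agent.W2helper59.NW.Nb
import Pool.Agent.W2helper59.NW.T_I0
import Pool.Agent.W2helper59.NW.T_I1
import Pool.Agent.W2helper59.NW.T_I2
import Pool.Agent.W2helper59.NW.T_E0
import Pool.Agent.W2helper59.NW.T_E1
import Pool.Agent.W2helper59.NW.K_I0
import Pool.Agent.W2helper59.NW.K_I1
import Pool.Agent.W2helper59.NW.K_I2
import Pool.Agent.W2helper59.NW.K_E0
import Pool.Agent.W2helper59.NW.K_E1

/-!
# S09083: the global theorems GlobI, GlobE
-/

set_option autoImplicit false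

namespace Pool.Agent.W2helper59.NW

open scoped goldenRatio

lemma nbI_a {s t x y z : ℝ} (h : NbR luI lpaI s t x y z) : NrI 1 s t x y z := by
  obtain ⟨h1, h2⟩ := h
  simp only [luI, lpaI, List.mem_cons, List.not_mem_nil, or_false, forall_eq_or_imp,
    forall_eq] at h1 h2
  push_cast at h1 h2
  obtain ⟨a1, a2, a3, a4⟩ := h1
  obtain ⟨b1, b2, b3, b4, b5, b6⟩ := h2
  unfold NrI
  refine ⟨?_, ?_, ?_, ?_, ?_⟩ <;> rw [abs_le] <;> constructor <;> linarith

lemma nbI_b {s t x y z : ℝ} (h : NbR luI lpbI s t x y z) : NrI (-1) s t x y z := by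
  obtain ⟨h1, h2⟩ := h
  simp only [luI, lpbI, List.mem_cons, List.not_mem_nil, or_false, forall_eq_or_imp,
    forall_eq] at h1 h2
  push_cast at h1 h2
  obtain ⟨a1, a2, a3, a4⟩ := h1
  obtain ⟨b1, b2, b3, b4, b5, b6⟩ := h2
  unfold NrI
  refine ⟨?_, ?_, ?_, ?_, ?_⟩ <;> rw [abs_le] <;> constructor <;> linarith

lemma nbE_a {s t x y z : ℝ} (h : NbR luE lpaE s t x y z) : NrE 1 s t x y z := by
  obtain ⟨h1, h2⟩ := h
  simp only [luE, lpaE, List.mem_cons, List.not_mem_nil, or_false, forall_eq_or_imp,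
    forall_eq] at h1 h2
  push_cast at h1 h2
  obtain ⟨a1, a2, a3, a4⟩ := h1
  obtain ⟨b1, b2, b3, b4, b5, b6⟩ := h2
  unfold NrE
  refine ⟨?_, ?_, ?_, ?_, ?_⟩ <;> rw [abs_le] <;> constructor <;> linarith

lemma nbE_b {s t x y z : ℝ} (h : NbR luE lpbE s t x y z) : NrE (-1) s t x y z := by
  obtain ⟨h1, h2⟩ := h
  simp only [luE, lpbE, List.mem_cons, List.not_mem_nil, or_false, forall_eq_or_imp,
    forall_eq] at h1 h2
  push_cast at h1 h2
  obtain ⟨a1, a2, a3, a4⟩ := h1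
  obtain ⟨b1, b2, b3, b4, b5, b6⟩ := h2
  unfold NrE
  refine ⟨?_, ?_, ?_, ?_, ?_⟩ <;> rw [abs_le] <;> constructor <;> linarith

theorem globI (h1 : G1) (h2 : G2) (h3 : G3V) : GlobI := by
  intro c s t x y z hc hs ht hT hD hP
  obtain ⟨v1, v2, -, -, v5, -, -⟩ := h3
  have key : NbR luI lpaI s t x y z ∨ NbR luI lpbI s t x y z := by
    rcases h2.1 s t hs ht hT with ⟨a, b, d, ha, hb, hd, hsum, e1, e2⟩ |
      ⟨a, b, d, ha, hb, hd, hsum, e1, e2⟩ | ⟨a, b, d, ha, hb, hd, hsum, e1, e2⟩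
    · refine h1 VIl VI v1 v2 v5 I0.R I0.ks luI luI lpaI lpbI I0.okc I0.oko I0.okna I0.oknb I0.dn
        c s t x y z 1 a b d hc hD hP one_pos ha hb hd ?_ ?_ ?_
      · simp only [I0.R, Zf.r]; push_cast; linarith
      · simp only [I0.R, Zf.r]; push_cast; linarith
      · simp only [I0.R, Zf.r]; push_cast; linarith
    · refine h1 VIl VI v1 v2 v5 I1.R I1.ks luI luI lpaI lpbI I1.okc I1.oko I1.okna I1.oknb I1.dn
        c s t x y z 1 a b d hc hD hP one_pos ha hb hd ?_ ?_ ?_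
      · simp only [I1.R, Zf.r]; push_cast; linarith
      · simp only [I1.R, Zf.r]; push_cast; linarith
      · simp only [I1.R, Zf.r]; push_cast; linarith
    · refine h1 VIl VI v1 v2 v5 I2.R I2.ks luI luI lpaI lpbI I2.okc I2.oko I2.okna I2.oknb I2.dn
        c s t x y z 1 a b d hc hD hP one_pos ha hb hd ?_ ?_ ?_
      · simp only [I2.R, Zf.r]; push_cast; linarith
      · simp only [I2.R, Zf.r]; push_cast; linarith
      · simp only [I2.R, Zf.r]; push_cast; linarith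
  exact key.imp nbI_a nbI_b

theorem globE (h1 : G1) (h2 : G2) (h3 : G3V) : GlobE := by
  intro c s t x y z hc hs ht hT hD hP
  obtain ⟨-, -, v1, v2, -, v5, -⟩ := h3
  have key : NbR luE lpaE s t x y z ∨ NbR luE lpbE s t x y z := by
    rcases h2.2 s t hs ht hT with ⟨a, b, d, ha, hb, hd, hsum, e1, e2⟩ |
      ⟨a, b, d, ha, hb, hd, hsum, e1, e2⟩
    · refine h1 VEl VE v1 v2 v5 E0.R E0.ks luE luE lpaE lpbE E0.okc E0.oko E0.okna E0.oknb E0.dn
        c s t x y z 5 a b d hc hD hP (by norm_num) ha hb hd ?_ ?_ ?_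
      · simp only [E0.R, Zf.r]; push_cast; linarith
      · simp only [E0.R, Zf.r]; push_cast; linarith
      · simp only [E0.R, Zf.r]; push_cast; linarith
    · refine h1 VEl VE v1 v2 v5 E1.R E1.ks luE luE lpaE lpbE E1.okc E1.oko E1.okna E1.oknb E1.dn
        c s t x y z 5 a b d hc hD hP (by norm_num) ha hb hd ?_ ?_ ?_
      · simp only [E1.R, Zf.r]; push_cast; linarith
      · simp only [E1.R, Zf.r]; push_cast; linarith
      · simp only [E1.R, Zf.r]; push_cast; linarith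
  exact key.imp nbE_a nbE_b

end Pool.Agent.W2helper59.NW
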